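import Pool.Agent.Helper1.IM.Defs

/-!
# Project IM: basic lemmas on words, congruences, zero words, content and growth
-/

set_option autoImplicit false

namespace Helper1.IM

/-! ## Words -/

@[simp] theorem fl_fl (a : Lt) : fl (fl a) = a := by simp [fl]
@[simp] theorem fl_fst (a : Lt) : (fl a).1 = a.1 := rfl
@[simp] theorem fl_X (i : ℕ) : fl (X i) = Y i := rfl
@[simp] theorem fl_Y (i : ℕ) : fl (Y i) = X i := rfl
@[simp] theorem X_fst (i : ℕ) : (X i).1 = i := rfl
@[simp] theorem Y_fst (i : ℕ) : (Y i).1 = i := rfl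

@[simp] theorem st_nil : st [] = [] := rfl
@[simp] theorem st_append (u v : Wd) : st (u ++ v) = st v ++ st u := by simp [st]
@[simp] theorem st_cons (a : Lt) (u : Wd) : st (a :: u) = st u ++ [fl a] := by simp [st]
theorem st_single (a : Lt) : st [a] = [fl a] := rfl
@[simp] theorem st_st (u : Wd) : st (st u) = u := by
  induction u with
  | nil => rfl
  | cons a u ih => rw [st_cons, st_append, ih]; simp [st]
@[simp] theorem st_length (u : Wd) : (st u).length = u.length := by simp [st]
@[simp] theorem st_eq_nil (u : Wd) : st u = [] ↔ u = [] := by simp [st]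
theorem st_fst (u : Wd) : (st u).map Prod.fst = (u.map Prod.fst).reverse := by
  simp [st, List.map_reverse, Function.comp_def]

@[simp] theorem sb_nil (f : ℕ → Wd) : sb f [] = [] := rfl
@[simp] theorem sb_append (f : ℕ → Wd) (u v : Wd) : sb f (u ++ v) = sb f u ++ sb f v := by simp [sb]
theorem sb_cons (f : ℕ → Wd) (a : Lt) (u : Wd) :
    sb f (a :: u) = (if a.2 then st (f a.1) else f a.1) ++ sb f u := by simp [sb]
@[simp] theorem sb_X (f : ℕ → Wd) (i : ℕ) (u : Wd) : sb f (X i :: u) = f i ++ sb f u := by simp [sb, X]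
@[simp] theorem sb_Y (f : ℕ → Wd) (i : ℕ) (u : Wd) : sb f (Y i :: u) = st (f i) ++ sb f u := by simp [sb, Y]
theorem sb_single (f : ℕ → Wd) (a : Lt) : sb f [a] = if a.2 then st (f a.1) else f a.1 := by simp [sb]
theorem sb_st (f : ℕ → Wd) (u : Wd) : sb f (st u) = st (sb f u) := by
  induction u with
  | nil => rfl
  | cons a u ih =>
    rw [st_cons, sb_append, ih, sb_cons f a u, st_append, sb_single]
    rcases a with ⟨i, b⟩
    cases b <;> simp [fl]
theorem sb_id (u : Wd) : sb (fun i => [(i, false)]) u = u := by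
  induction u with
  | nil => rfl
  | cons a u ih =>
    rw [sb_cons, ih]
    rcases a with ⟨i, b⟩
    cases b <;> simp [fl]
/-- A substitution only depends on the letters of the word. -/
theorem sb_congr (f g : ℕ → Wd) (u : Wd) (h : ∀ i ∈ ct u, f i = g i) : sb f u = sb g u := by
  induction u with
  | nil => rfl
  | cons a u ih =>
    rw [sb_cons, sb_cons, ih (fun i hi => h i (by simp [ct] at hi ⊢; tauto)), h a.1 (by simp [ct])]
/-- Composition of substitutions. -/
theorem sb_sb (f g : ℕ → Wd) (u : Wd) : sb f (sb g u) = sb (fun i => sb f (g i)) u := by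
  induction u with
  | nil => rfl
  | cons a u ih =>
    rw [sb_cons, sb_append, ih, sb_cons]
    congr 1
    rcases a with ⟨i, b⟩
    cases b
    · simp
    · simp [sb_st]
theorem sb_ne_nil (f : ℕ → Wd) (hf : ∀ i, f i ≠ []) (u : Wd) (hu : u ≠ []) : sb f u ≠ [] := by
  cases u with
  | nil => exact absurd rfl hu
  | cons a u =>
    rw [sb_cons]
    rcases a with ⟨i, b⟩
    cases b <;> simp [hf i]
theorem length_sb_ge (f : ℕ → Wd) (hf : ∀ i, f i ≠ []) (u : Wd) : u.length ≤ (sb f u).length := by
  induction u with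
  | nil => simp
  | cons a u ih =>
    rw [sb_cons]
    rcases a with ⟨i, b⟩
    have := List.length_pos_iff.2 (hf i)
    cases b <;> simp <;> omega

/-! ## Signed renamings -/

@[simp] theorem rw'_nil (p : Equiv.Perm ℕ) (e : ℕ → Bool) : rw' p e [] = [] := rfl
@[simp] theorem rw'_cons (p : Equiv.Perm ℕ) (e : ℕ → Bool) (a : Lt) (u : Wd) :
    rw' p e (a :: u) = (p a.1, xor a.2 (e a.1)) :: rw' p e u := rfl
@[simp] theorem rw'_append (p : Equiv.Perm ℕ) (e : ℕ → Bool) (u v : Wd) :
    rw' p e (u ++ v) = rw' p e u ++ rw' p e v := by simp [rw']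
@[simp] theorem rw'_length (p : Equiv.Perm ℕ) (e : ℕ → Bool) (u : Wd) : (rw' p e u).length = u.length := by
  simp [rw']
@[simp] theorem rw'_eq_nil (p : Equiv.Perm ℕ) (e : ℕ → Bool) (u : Wd) : rw' p e u = [] ↔ u = [] := by
  simp [rw']
theorem rw'_fst (p : Equiv.Perm ℕ) (e : ℕ → Bool) (u : Wd) : (rw' p e u).map Prod.fst = (u.map Prod.fst).map p := by
  simp [rw', Function.comp_def]
theorem sb_rn (p : Equiv.Perm ℕ) (e : ℕ → Bool) (u : Wd) : sb (fun i => [(p i, e i)]) u = rw' p e u := by
  induction u with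
  | nil => rfl
  | cons a u ih =>
    rw [sb_cons, ih]
    rcases a with ⟨i, b⟩
    cases b <;> simp [rw', fl]
theorem st_rw' (p : Equiv.Perm ℕ) (e : ℕ → Bool) (u : Wd) : st (rw' p e u) = rw' p e (st u) := by
  rw [← sb_rn, ← sb_rn, sb_st]
theorem rw'_id (u : Wd) : rw' 1 (fun _ => false) u = u := by
  induction u with
  | nil => rfl
  | cons a u ih => simp [ih]
/-- Composition of signed renamings. -/
theorem rw'_rw' (p q : Equiv.Perm ℕ) (e f : ℕ → Bool) (u : Wd) :
    rw' p e (rw' q f u) = rw' (p * q) (fun i => xor (f i) (e (q i))) u := by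
  simp [rw', Function.comp_def]
/-- Inverse signed renaming. -/
theorem rw'_inv (p : Equiv.Perm ℕ) (e : ℕ → Bool) (u : Wd) : rw' p⁻¹ (fun i => e (p⁻¹ i)) (rw' p e u) = u := by
  rw [rw'_rw']
  have : (fun i => xor (e i) (e (p⁻¹ (p i)))) = fun _ => false := by
    funext i; simp
  rw [inv_mul_cancel, this, rw'_id]
theorem rw'_perm (p : Equiv.Perm ℕ) (e : ℕ → Bool) {u v : Wd} (h : u.Perm v) : (rw' p e u).Perm (rw' p e v) :=
  h.map _
theorem st_perm (u : Wd) : (st u).Perm (u.map fl) := by simp [st, List.reverse_perm]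

/-! ## Content and multiplicities -/

theorem mem_ct {i : ℕ} {u : Wd} : i ∈ ct u ↔ ∃ b, (i, b) ∈ u := by
  simp [ct]
@[simp] theorem ct_nil : ct [] = ∅ := rfl
@[simp] theorem ct_cons (a : Lt) (u : Wd) : ct (a :: u) = insert a.1 (ct u) := by simp [ct]
@[simp] theorem ct_append (u v : Wd) : ct (u ++ v) = ct u ∪ ct v := by
  ext i; simp [ct]
@[simp] theorem ct_st (u : Wd) : ct (st u) = ct u := by
  ext i; simp [ct, st_fst]
theorem ct_rw' (p : Equiv.Perm ℕ) (e : ℕ → Bool) (u : Wd) : ct (rw' p e u) = (ct u).image p := by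
  ext i; simp [ct, rw']
theorem ct_perm {u v : Wd} (h : (u.map Prod.fst).Perm (v.map Prod.fst)) : ct u = ct v := by
  ext i; simp only [ct, List.mem_toFinset]; exact h.mem_iff
theorem card_ct_le (u : Wd) : (ct u).card ≤ u.length := by
  simpa [ct] using List.toFinset_card_le (u.map Prod.fst)
theorem ct_sb (f : ℕ → Wd) (u : Wd) : ct (sb f u) = (ct u).biUnion (fun i => ct (f i)) := by
  induction u with
  | nil => rfl
  | cons a u ih =>
    rw [sb_cons, ct_append, ih, ct_cons, Finset.biUnion_insert]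
    rcases a with ⟨i, b⟩
    cases b <;> simp

@[simp] theorem oc_nil (i : ℕ) : oc i [] = 0 := rfl
@[simp] theorem oc_append (i : ℕ) (u v : Wd) : oc i (u ++ v) = oc i u + oc i v := by simp [oc]
theorem oc_cons (i : ℕ) (a : Lt) (u : Wd) : oc i (a :: u) = (if a.1 = i then 1 else 0) + oc i u := by
  simp only [oc, List.map_cons, List.count_cons]
  by_cases h : a.1 = i <;> simp [h, add_comm]
@[simp] theorem oc_st (i : ℕ) (u : Wd) : oc i (st u) = oc i u := by
  simp [oc, st_fst]
theorem oc_rw' (p : Equiv.Perm ℕ) (e : ℕ → Bool) (i : ℕ) (u : Wd) : oc (p i) (rw' p e u) = oc i u := by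
  induction u with
  | nil => rfl
  | cons a u ih =>
    rw [rw'_cons, oc_cons, oc_cons, ih]
    simp
theorem oc_perm {u v : Wd} (h : (u.map Prod.fst).Perm (v.map Prod.fst)) (i : ℕ) : oc i u = oc i v := h.count_eq i
theorem perm_iff_oc {u v : Wd} : (u.map Prod.fst).Perm (v.map Prod.fst) ↔ ∀ i, oc i u = oc i v := by
  rw [List.perm_iff_count]; rfl
theorem oc_pos {i : ℕ} {u : Wd} : 0 < oc i u ↔ i ∈ ct u := by
  simp [oc, ct, List.count_pos_iff]
theorem oc_eq_zero {i : ℕ} {u : Wd} : oc i u = 0 ↔ i ∉ ct u := by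
  rw [← oc_pos]; omega
theorem lin_iff {u : Wd} : Lin u ↔ ∀ i, oc i u ≤ 1 := by
  unfold Lin oc; exact List.nodup_iff_count_le_one
theorem lin_st {u : Wd} : Lin (st u) ↔ Lin u := by simp [lin_iff]
theorem lin_rw' {p : Equiv.Perm ℕ} {e : ℕ → Bool} {u : Wd} : Lin (rw' p e u) ↔ Lin u := by
  unfold Lin; rw [rw'_fst]
  exact ⟨fun h => h.of_map, fun h => h.map p.injective⟩
theorem lin_perm {u v : Wd} (h : (u.map Prod.fst).Perm (v.map Prod.fst)) : Lin u ↔ Lin v := h.nodup_iff
theorem lin_card {u : Wd} (h : Lin u) : (ct u).card = u.length := by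
  have := List.toFinset_card_of_nodup h
  simpa [ct] using this
theorem not_lin_of_card {u : Wd} (h : (ct u).card < u.length) : ¬ Lin u := fun hl => by
  have := lin_card hl; omega
theorem length_eq_sum (u : Wd) : u.length = ∑ i ∈ ct u, oc i u := by
  have := List.sum_toFinset_count_eq_length (u.map Prod.fst)
  simpa [ct, oc] using this.symm
/-- There is a fresh letter. -/
theorem exists_fresh (u : Wd) : ∃ t, t ∉ ct u := Infinite.exists_notMem_finset _
/-- Fresh letter outside a finite set. -/
theorem exists_fresh' (s : Finset ℕ) : ∃ t, t ∉ s := Infinite.exists_notMem_finset _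

/-! ## Congruences -/

theorem FIC.rfl' (θ : FIC) {u : Wd} : θ.r u u := θ.refl' u
theorem FIC.mulL (θ : FIC) {u v : Wd} (a : Wd) (h : θ.r u v) : θ.r (a ++ u) (a ++ v) := by
  simpa using θ.mul' a [] h
theorem FIC.mulR (θ : FIC) {u v : Wd} (b : Wd) (h : θ.r u v) : θ.r (u ++ b) (v ++ b) := by
  simpa using θ.mul' [] b h
theorem FIC.rn (θ : FIC) {u v : Wd} (p : Equiv.Perm ℕ) (e : ℕ → Bool) (h : θ.r u v) :
    θ.r (rw' p e u) (rw' p e v) := by
  rw [← sb_rn, ← sb_rn]
  exact θ.sub' _ (by simp) h
theorem FIC.ne'' (θ : FIC) {u v : Wd} (h : θ.r u v) (hu : u ≠ []) : v ≠ [] := fun hv =>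
  hu (θ.ne' (θ.symm' h) hv)
theorem FIC.mul2 (θ : FIC) {u v u' v' : Wd} (h : θ.r u v) (h' : θ.r u' v') : θ.r (u ++ u') (v ++ v') :=
  θ.trans' (θ.mulR u' h) (θ.mulL v h')

/-! ## Zero words -/

theorem Zero.of_r {θ : FIC} {u v : Wd} (h : Zero θ u) (hr : θ.r u v) : Zero θ v := by
  refine ⟨θ.ne'' hr h.1, fun w => ⟨?_, ?_⟩⟩
  · exact θ.trans' (θ.mulR w (θ.symm' hr)) (θ.trans' (h.2 w).1 hr)
  · exact θ.trans' (θ.mulL w (θ.symm' hr)) (θ.trans' (h.2 w).2 hr)
theorem Zero.mul {θ : FIC} {u : Wd} (h : Zero θ u) (a b : Wd) : Zero θ (a ++ u ++ b) := by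
  have : θ.r u (a ++ u ++ b) :=
    θ.trans' (θ.symm' (h.2 a).2) (by
      have := θ.mulL a (θ.symm' (h.2 b).1)
      simpa [List.append_assoc] using this)
  exact h.of_r this
theorem Zero.mulL {θ : FIC} {u : Wd} (h : Zero θ u) (a : Wd) : Zero θ (a ++ u) := by simpa using h.mul a []
theorem Zero.mulR {θ : FIC} {u : Wd} (h : Zero θ u) (b : Wd) : Zero θ (u ++ b) := by simpa using h.mul [] b
theorem Zero.st {θ : FIC} {u : Wd} (h : Zero θ u) : Zero θ (st u) := by
  refine ⟨by simpa using h.1, fun w => ⟨?_, ?_⟩⟩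
  · have := θ.star' (h.2 (IM.st w)).2
    simpa using this
  · have := θ.star' (h.2 (IM.st w)).1
    simpa using this
theorem Zero.sb {θ : FIC} {u : Wd} (h : Zero θ u) (f : ℕ → Wd) (hf : ∀ i, f i ≠ []) : Zero θ (sb f u) := by
  obtain ⟨t, ht⟩ := exists_fresh u
  refine ⟨sb_ne_nil f hf u h.1, fun w => ?_⟩
  by_cases hw : w = []
  · subst hw; simp [θ.refl']
  set g : ℕ → Wd := fun i => if i = t then w else f i with hg
  have hgn : ∀ i, g i ≠ [] := fun i => by
    by_cases hi : i = t
    · simp [hg, hi, hw]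
    · simp [hg, hi, hf i]
  have hgu : IM.sb g u = IM.sb f u := sb_congr g f u (fun i hi => by
    have : i ≠ t := fun h => ht (h ▸ hi)
    simp [hg, this])
  have hgt : IM.sb g [X t] = w := by simp [hg]
  constructor
  · have := θ.sub' g hgn (h.2 [X t]).1
    rwa [sb_append, hgu, hgt] at this
  · have := θ.sub' g hgn (h.2 [X t]).2
    rwa [sb_append, hgu, hgt] at this
theorem Zero.rw' {θ : FIC} {u : Wd} (h : Zero θ u) (p : Equiv.Perm ℕ) (e : ℕ → Bool) : Zero θ (rw' p e u) := by
  rw [← sb_rn]; exact h.sb _ (by simp)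
theorem Zero.rw'_iff {θ : FIC} {u : Wd} (p : Equiv.Perm ℕ) (e : ℕ → Bool) : Zero θ (IM.rw' p e u) ↔ Zero θ u := by
  refine ⟨fun h => ?_, fun h => h.rw' p e⟩
  have := h.rw' p⁻¹ (fun i => e (p⁻¹ i))
  rwa [rw'_inv] at this
theorem Zero.eq {θ : FIC} {u v : Wd} (h : Zero θ u) (h' : Zero θ v) : θ.r u v :=
  θ.trans' (θ.symm' (h.2 v).1) (h'.2 u).2
theorem Zero.le {θ α : FIC} (hl : Le θ α) {u : Wd} (h : Zero θ u) : Zero α u :=
  ⟨h.1, fun v => ⟨hl _ _ (h.2 v).1, hl _ _ (h.2 v).2⟩⟩
/-- A word which contains a zero factor is zero. -/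
theorem Zero.of_infix {θ : FIC} {u v : Wd} (h : Zero θ u) (hi : u <:+: v) : Zero θ v := by
  obtain ⟨a, b, rfl⟩ := hi
  exact h.mul a b
theorem NilF.le {θ α : FIC} (hl : Le θ α) (h : NilF θ) : NilF α := by
  obtain ⟨k, hk⟩ := h; exact ⟨k, hk.le hl⟩
/-- Powers of every nonempty word are zero. -/
theorem NilF.pow {θ : FIC} (h : NilF θ) : ∃ k, 0 < k ∧ ∀ u : Wd, u ≠ [] → ∀ m, k ≤ m →
    Zero θ (List.replicate m u).flatten := by
  obtain ⟨k, hk⟩ := h
  refine ⟨k + 1, by omega, fun u hu m hm => ?_⟩
  have h1 := hk.sb (fun _ => u) (fun _ => hu)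
  have h2 : sb (fun _ => u) (List.replicate (k + 1) (0, false)) = (List.replicate (k + 1) u).flatten := by
    generalize k + 1 = n
    induction n with
    | zero => rfl
    | succ n ih => rw [List.replicate_succ, sb_cons, ih, List.replicate_succ, List.flatten_cons]; simp
  rw [h2] at h1
  have h3 : (List.replicate m u).flatten = (List.replicate (k + 1) u).flatten ++ (List.replicate (m - (k + 1)) u).flatten := by
    rw [← List.flatten_append, ← List.replicate_add]
    congr 2; omega
  rw [h3]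
  exact h1.mulR _

/-! ## Killed words -/

theorem Kl.of_r {θ : FIC} {n d : ℕ} {u v : Wd} (h : Kl θ n d u) (hr : θ.r u v) : Kl θ n d v := by
  obtain ⟨w, hw, h2⟩ := h
  exact ⟨w, θ.trans' (θ.symm' hr) hw, h2⟩
theorem Kl.st {θ : FIC} {n d : ℕ} {u : Wd} (h : Kl θ n d u) : Kl θ n d (IM.st u) := by
  obtain ⟨w, hw, h2⟩ := h
  exact ⟨IM.st w, θ.star' hw, by simpa using h2⟩
theorem Kl.rw' {θ : FIC} {n d : ℕ} {u : Wd} (h : Kl θ n d u) (p : Equiv.Perm ℕ) (e : ℕ → Bool) :
    Kl θ n d (IM.rw' p e u) := by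
  obtain ⟨w, hw, h2⟩ := h
  refine ⟨IM.rw' p e w, θ.rn p e hw, ?_⟩
  rw [rw'_length, ct_rw', Finset.card_image_of_injective _ p.injective]
  exact h2
theorem Kl.st_iff {θ : FIC} {n d : ℕ} {u : Wd} : Kl θ n d (IM.st u) ↔ Kl θ n d u :=
  ⟨fun h => by simpa using h.st, fun h => h.st⟩
theorem Kl.rw'_iff {θ : FIC} {n d : ℕ} {u : Wd} (p : Equiv.Perm ℕ) (e : ℕ → Bool) :
    Kl θ n d (IM.rw' p e u) ↔ Kl θ n d u :=
  ⟨fun h => by
    have := h.rw' p⁻¹ (fun i => e (p⁻¹ i))
    rwa [rw'_inv] at this, fun h => h.rw' p e⟩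
/-- Zero words are killed. -/
theorem Kl.of_zero {θ : FIC} {u : Wd} (h : Zero θ u) (n d : ℕ) : Kl θ n d u := by
  refine ⟨u ++ List.replicate (d + 1) (0, false), θ.symm' (h.2 _).1, Or.inl ?_⟩
  simp; omega
/-- A word which is not killed is only related to words of length `≤ d`. -/
theorem le_of_not_kl {θ : FIC} {n d : ℕ} {u v : Wd} (h : ¬ Kl θ n d u) (hr : θ.r u v) : v.length ≤ d := by
  by_contra hc; exact h ⟨v, hr, Or.inl (by omega)⟩

/-! ## Content lemma -/

private theorem cont_aux {θ : FIC} (h : NilF θ) {u v : Wd} (hr : θ.r u v) {i : ℕ} (hi : i ∈ ct u) (hi' : i ∉ ct v) :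
    Zero θ v := by
  obtain ⟨k, hk0, hk⟩ := h.pow
  set z : Wd := (List.replicate k [X i]).flatten with hz
  have hzz : Zero θ z := hk _ (by simp) _ le_rfl
  set f : ℕ → Wd := fun j => if j = i then z else [X j] with hf
  have hfn : ∀ j, f j ≠ [] := fun j => by
    by_cases hj : j = i
    · simp [hf, hj, hzz.1]
    · simp [hf, hj]
  have h1 := θ.sub' f hfn hr
  have h2 : sb f v = v := by
    rw [sb_congr f (fun j => [(j, false)]) v (fun j hj => ?_), sb_id]
    have : j ≠ i := fun h => hi' (h ▸ hj)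
    simp [hf, this, X]
  have h3 : Zero θ (sb f u) := by
    obtain ⟨b, hb⟩ := mem_ct.1 hi
    obtain ⟨s, t, rfl⟩ := List.append_of_mem hb
    have : sb f (s ++ (i, b) :: t) = sb f s ++ sb f [(i, b)] ++ sb f t := by
      rw [sb_append, sb_cons, sb_single]; simp
    rw [this]
    apply Zero.mul
    rw [sb_single]
    cases b
    · simpa [hf] using hzz
    · simpa [hf] using hzz.st
  rw [h2] at h1
  exact h3.of_r h1

/-- Content lemma: related words with different contents are zero. -/
theorem cont {θ : FIC} (h : NilF θ) {u v : Wd} (hr : θ.r u v) (hc : ct u ≠ ct v) : Zero θ u ∧ Zero θ v := by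
  have key : Zero θ v ∨ Zero θ u := by
    by_contra hcon
    push Not at hcon
    apply hc
    ext i
    constructor
    · intro hi
      by_contra hi'
      exact hcon.1 (cont_aux h hr hi hi')
    · intro hi
      by_contra hi'
      exact hcon.2 (cont_aux h (θ.symm' hr) hi hi')
  rcases key with hk | hk
  · exact ⟨hk.of_r (θ.symm' hr), hk⟩
  · exact ⟨hk, hk.of_r hr⟩
/-- If `u` is killed for the level `(n, d)` and has `≥ n` letters, then it is related to a longer word than `d` with the same content, or it is zero. -/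
theorem Kl.long {θ : FIC} (hn : NilF θ) {n d : ℕ} {u : Wd} (h : Kl θ n d u) (hc : n ≤ (ct u).card) :
    Zero θ u ∨ ∃ w, θ.r u w ∧ d < w.length ∧ ct w = ct u := by
  obtain ⟨w, hw, h2⟩ := h
  by_cases hcw : ct u = ct w
  · rcases h2 with h2 | ⟨-, h2⟩
    · exact Or.inr ⟨w, hw, h2, hcw.symm⟩
    · rw [hcw] at hc; omega
  · exact Or.inl (cont hn hw hcw).1
theorem ct_eq_of {θ : FIC} (h : NilF θ) {u v : Wd} (hr : θ.r u v) (hz : ¬ Zero θ u) : ct u = ct v := by
  by_contra hc; exact hz (cont h hr hc).1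

/-! ## Growth lemma -/

/-- `u = a u b` implies `u = 0`. -/
theorem grow0 {θ : FIC} (h : NilF θ) {u a b : Wd} (hr : θ.r u (a ++ u ++ b)) (hab : a ++ b ≠ []) :
    Zero θ u := by
  obtain ⟨k, hk0, hk⟩ := h.pow
  have key : ∀ m, θ.r u ((List.replicate m a).flatten ++ u ++ (List.replicate m b).flatten) := by
    intro m
    induction m with
    | zero => simpa using θ.refl' u
    | succ m ih =>
      have h1 := θ.mul' (List.replicate m a).flatten (List.replicate m b).flatten hr
      refine θ.trans' ih ?_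
      have e1 : (List.replicate (m + 1) a).flatten = (List.replicate m a).flatten ++ a := by
        rw [List.replicate_succ', List.flatten_append]; simp
      have e2 : (List.replicate (m + 1) b).flatten = b ++ (List.replicate m b).flatten := by
        rw [List.replicate_succ]; simp
      rw [e1, e2]
      simpa [List.append_assoc] using h1
  have h2 : Zero θ ((List.replicate k a).flatten ++ u ++ (List.replicate k b).flatten) := by
    by_cases ha : a = []
    · have hb : b ≠ [] := fun hb => hab (by simp [ha, hb])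
      exact (hk b hb k le_rfl).mulL _
    · have := (hk a ha k le_rfl).mulR (u ++ (List.replicate k b).flatten)
      simpa [List.append_assoc] using this
  exact h2.of_r (θ.symm' (key k))

/-- Iterates of a signed renaming fix a word whose content is preserved. -/
private theorem iter_aux (p : Equiv.Perm ℕ) (e : ℕ → Bool) (s : Finset ℕ) (hs : ∀ i ∈ s, p i ∈ s) :
    ∃ m, 0 < m ∧ ∀ w : Wd, ct w ⊆ s → (rw' p e)^[m] w = w := by
  classical
  -- the letter map
  set g : Lt → Lt := fun a => (p a.1, xor a.2 (e a.1)) with hg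
  have hginj : Function.Injective g := by
    rintro ⟨i, b⟩ ⟨j, c⟩ h
    simp only [hg, Prod.mk.injEq] at h
    obtain ⟨h1, h2⟩ := h
    have : i = j := p.injective h1
    subst this
    simp only [Bool.xor_left_inj] at h2
    rw [h2]
  set S : Finset Lt := s ×ˢ Finset.univ with hS
  have hgS : ∀ a ∈ S, g a ∈ S := by
    intro a ha
    simp only [hS, Finset.mem_product, Finset.mem_univ, and_true] at ha ⊢
    exact hs _ ha
  have hbij : ∀ a : S, ∃ m, 0 < m ∧ g^[m] a.1 = a.1 := by
    intro a
    -- pigeonhole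
    have hmem : ∀ n, g^[n] a.1 ∈ S := by
      intro n
      induction n with
      | zero => exact a.2
      | succ n ih => rw [Function.iterate_succ_apply']; exact hgS _ ih
    have hninj : ¬ Function.Injective (fun n : ℕ => (⟨g^[n] a.1, hmem n⟩ : S)) := not_injective_infinite_finite _
    rw [Function.Injective] at hninj
    push Not at hninj
    obtain ⟨m, n, hmn, hne⟩ := hninj
    simp only [Subtype.mk.injEq] at hmn
    rcases lt_or_gt_of_ne hne with hlt | hlt
    · refine ⟨n - m, by omega, ?_⟩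
      have : g^[m] (g^[n - m] a.1) = g^[m] a.1 := by
        rw [← Function.iterate_add_apply, show m + (n - m) = n by omega, hmn]
      exact hginj.iterate m this
    · refine ⟨m - n, by omega, ?_⟩
      have : g^[n] (g^[m - n] a.1) = g^[n] a.1 := by
        rw [← Function.iterate_add_apply, show n + (m - n) = m by omega, hmn]
      exact hginj.iterate n this
  choose M hM0 hM using hbij
  refine ⟨∏ a : S, M a, Finset.prod_pos (fun a _ => hM0 a), fun w hw => ?_⟩
  have hit : ∀ (n : ℕ) (w : Wd), (rw' p e)^[n] w = w.map (g^[n]) := by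
    intro n
    induction n with
    | zero => intro w; simp
    | succ n ih => intro w; rw [Function.iterate_succ_apply, ih, Function.iterate_succ]; simp [rw', hg, Function.comp_def]
  rw [hit]
  conv_rhs => rw [← List.map_id w]
  apply List.map_congr_left
  intro a ha
  have haS : a ∈ S := by
    simp only [hS, Finset.mem_product, Finset.mem_univ, and_true]
    exact hw (mem_ct.2 ⟨a.2, ha⟩)
  obtain ⟨c, hc⟩ := Finset.dvd_prod_of_mem M (Finset.mem_univ (⟨a, haS⟩ : S))
  rw [hc, Function.iterate_mul]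
  exact Function.iterate_fixed (hM ⟨a, haS⟩) c

/-- Growth lemma: `u = a g(u) b` for a signed renaming `g` and `a b` nonempty implies `u = 0`. -/
theorem grow {θ : FIC} (h : NilF θ) {u a b : Wd} (p : Equiv.Perm ℕ) (e : ℕ → Bool)
    (hr : θ.r u (a ++ rw' p e u ++ b)) (hab : a ++ b ≠ []) : Zero θ u := by
  by_contra hz
  have hc := ct_eq_of h hr hz
  have hs : ∀ i ∈ ct u, p i ∈ ct u := by
    intro i hi
    rw [hc]
    simp only [ct_append, ct_rw', Finset.mem_union, Finset.mem_image]
    exact Or.inl (Or.inr ⟨i, hi, rfl⟩)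
  obtain ⟨m, hm0, hm⟩ := iter_aux p e (ct u) hs
  have key : ∀ n, ∃ a' b', θ.r u (a' ++ (rw' p e)^[n] u ++ b') ∧ (0 < n → a' ++ b' ≠ []) := by
    intro n
    induction n with
    | zero => exact ⟨[], [], by simpa using θ.refl' u, by simp⟩
    | succ n ih =>
      obtain ⟨a', b', h1, -⟩ := ih
      have h2 : θ.r ((rw' p e)^[n] u) ((rw' p e)^[n] a ++ (rw' p e)^[n + 1] u ++ (rw' p e)^[n] b) := by
        have : ∀ (k : ℕ) {x y : Wd}, θ.r x y → θ.r ((rw' p e)^[k] x) ((rw' p e)^[k] y) := by
          intro k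
          induction k with
          | zero => intro x y hxy; simpa using hxy
          | succ k ihk => intro x y hxy; rw [Function.iterate_succ_apply', Function.iterate_succ_apply']; exact θ.rn p e (ihk hxy)
        have h3 := this n hr
        have happ : ∀ (k : ℕ) (x y : Wd), (rw' p e)^[k] (x ++ y) = (rw' p e)^[k] x ++ (rw' p e)^[k] y := by
          intro k
          induction k with
          | zero => intro x y; simp
          | succ k ihk => intro x y; simp only [Function.iterate_succ_apply', ihk, rw'_append]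
        rw [happ, happ, ← Function.iterate_succ_apply] at h3
        exact h3
      have hlen : ∀ (k : ℕ) (x : Wd), ((rw' p e)^[k] x).length = x.length := by
        intro k
        induction k with
        | zero => intro x; simp
        | succ k ihk => intro x; rw [Function.iterate_succ_apply', rw'_length, ihk]
      refine ⟨a' ++ (rw' p e)^[n] a, (rw' p e)^[n] b ++ b', ?_, fun _ hcon => hab ?_⟩
      · have := θ.trans' h1 (θ.mul' a' b' h2)
        simpa [List.append_assoc] using this
      · have h4 := congrArg List.length hcon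
        simp only [List.length_append, hlen, List.length_nil] at h4
        have ha : a.length = 0 := by omega
        have hb : b.length = 0 := by omega
        simp [List.length_eq_zero_iff.1 ha, List.length_eq_zero_iff.1 hb]
  obtain ⟨a', b', h1, h2⟩ := key m
  rw [hm u subset_rfl] at h1
  exact hz (grow0 h h1 (h2 hm0))

/-- An injective map on a finite set of letters extends to a permutation of the letters. -/
theorem exists_perm_extend (s : Finset ℕ) (q : ℕ → ℕ) (hq : Set.InjOn q (s : Set ℕ)) :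
    ∃ p : Equiv.Perm ℕ, ∀ i ∈ s, p i = q i := by
  classical
  induction s using Finset.induction_on with
  | empty => exact ⟨1, by simp⟩
  | insert a s ha ih =>
    obtain ⟨p, hp⟩ := ih (hq.mono (by simp))
    refine ⟨Equiv.swap (p a) (q a) * p, fun i hi => ?_⟩
    rcases Finset.mem_insert.1 hi with rfl | hi'
    · simp
    · have h1 : p i ≠ p a := fun h => ha (p.injective h ▸ hi')
      have h2 : p i ≠ q a := fun h => by
        rw [hp i hi'] at h
        have := hq (by simp [hi']) (by simp) h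
        exact ha (this ▸ hi')
      rw [Equiv.Perm.mul_apply, Equiv.swap_apply_of_ne_of_ne h1 h2, hp i hi']

/-- Linear words of the same length are signed renamings of each other. -/
theorem lin_rename {u v : Wd} (hu : Lin u) (hv : Lin v) (hl : u.length = v.length) :
    ∃ (p : Equiv.Perm ℕ) (e : ℕ → Bool), rw' p e u = v := by
  classical
  induction u generalizing v with
  | nil =>
    have : v = [] := List.length_eq_zero_iff.1 (by simpa using hl.symm)
    exact ⟨1, fun _ => false, by simp [this]⟩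
  | cons a u ih =>
    cases v with
    | nil => simp at hl
    | cons b v =>
      unfold Lin at hu hv
      simp only [List.map_cons, List.nodup_cons] at hu hv
      obtain ⟨p, e, hpe⟩ := ih (v := v) hu.2 hv.2 (by simpa using hl)
      have hct : ct v = (ct u).image p := by rw [← hpe, ct_rw']
      have ha : a.1 ∉ ct u := by simpa [ct] using hu.1
      have hb : b.1 ∉ ct v := by simpa [ct] using hv.1
      refine ⟨Equiv.swap (p a.1) b.1 * p, Function.update e a.1 (xor a.2 b.2), ?_⟩
      rw [rw'_cons]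
      congr 1
      · ext <;> simp
      · rw [← hpe]
        simp only [rw']
        apply List.map_congr_left
        intro c hc
        have hcu : c.1 ∈ ct u := mem_ct.2 ⟨c.2, hc⟩
        have h1 : c.1 ≠ a.1 := fun h => ha (h ▸ hcu)
        have h2 : p c.1 ≠ p a.1 := fun h => h1 (p.injective h)
        have h3 : p c.1 ≠ b.1 := fun h => hb (h ▸ (hct ▸ Finset.mem_image_of_mem p hcu))
        rw [Equiv.Perm.mul_apply, Equiv.swap_apply_of_ne_of_ne h2 h3, Function.update_of_ne h1]

end Helper1.IM
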