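import Mathlib

/-!
# MP_265e56_al (involution semigroup varieties with modular subvariety lattice), project IM: definitions

Signed letters `(i, false) = x_i`, `(i, true) = x_i*`; words are lists of signed letters; the free involution semigroup consists of the
nonempty words. `FIC` = fully invariant congruence of the free involution semigroup.
-/

set_option autoImplicit false

namespace Helper1.IM

/-- Signed letters: `(i, false)` is `x_i`, `(i, true)` is `x_i*`. -/
abbrev Lt := ℕ × Bool

/-- Words. -/
abbrev Wd := List (ℕ × Bool)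

/-- Star of a letter. -/
def fl (a : Lt) : Lt := (a.1, !a.2)

/-- Star of a word: reverse and star every letter. -/
def st (w : Wd) : Wd := (w.map fl).reverse

/-- Substitution `x_i ↦ f i`, `x_i* ↦ (f i)*`. -/
def sb (f : ℕ → Wd) (w : Wd) : Wd := w.flatMap (fun a => if a.2 then st (f a.1) else f a.1)

/-- Signed renaming of letters: `x_i ↦ x_(p i)` starred iff `e i`. -/
def rw' (p : Equiv.Perm ℕ) (e : ℕ → Bool) (w : Wd) : Wd := w.map (fun a => (p a.1, xor a.2 (e a.1)))

/-- Content (set of letters). -/
def ct (w : Wd) : Finset ℕ := (w.map Prod.fst).toFinset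

/-- Number of occurrences of `x_i` and `x_i*` together. -/
def oc (i : ℕ) (w : Wd) : ℕ := (w.map Prod.fst).count i

/-- Linear words: no letter occurs twice (signs ignored). -/
def Lin (w : Wd) : Prop := (w.map Prod.fst).Nodup

/-- Fully invariant congruences of the free involution semigroup (nonempty words; the empty word is only related to itself). -/
structure FIC where
  r : Wd → Wd → Prop
  refl' : ∀ u, r u u
  symm' : ∀ {u v}, r u v → r v u
  trans' : ∀ {u v w}, r u v → r v w → r u w
  ne' : ∀ {u v}, r u v → u = [] → v = []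
  mul' : ∀ {u v} (a b : Wd), r u v → r (a ++ u ++ b) (a ++ v ++ b)
  star' : ∀ {u v}, r u v → r (st u) (st v)
  sub' : ∀ {u v} (f : ℕ → Wd), (∀ i, f i ≠ []) → r u v → r (sb f u) (sb f v)

/-- Inclusion of congruences. -/
def Le (α β : FIC) : Prop := ∀ u v, α.r u v → β.r u v

/-- The join of two congruences, as a relation. -/
def Jn (α β : FIC) : Wd → Wd → Prop := Relation.ReflTransGen (fun u v => α.r u v ∨ β.r u v)

/-- The join of `α` and `β ∩ γ`, as a relation. -/
def Jm (α β γ : FIC) : Wd → Wd → Prop := Relation.ReflTransGen (fun u v => α.r u v ∨ (β.r u v ∧ γ.r u v))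

/-- The modular law for all congruences above `θ`. -/
def ModAt (θ : FIC) : Prop := ∀ α β γ : FIC, Le θ α → Le θ β → Le θ γ → Le α γ →
  ∀ u v, Jn α β u v → γ.r u v → Jm α β γ u v

/-- All words of length at least `k` are identified. -/
def Col (k : ℕ) (α : FIC) : Prop := ∀ u v : Wd, k ≤ u.length → k ≤ v.length → α.r u v

/-- The modular law for all congruences above `θ` which identify all words of length `≥ 7`. -/
def Mod7 (θ : FIC) : Prop := ∀ α β γ : FIC, Le θ α → Le θ β → Le θ γ → Col 7 α → Col 7 β → Col 7 γ → Le α γ →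
  ∀ u v, Jn α β u v → γ.r u v → Jm α β γ u v

/-- `u` is zero modulo `θ`. -/
def Zero (θ : FIC) (u : Wd) : Prop := u ≠ [] ∧ ∀ v, θ.r (u ++ v) u ∧ θ.r (v ++ u) u

/-- `θ` is nil: a power of `x_0` is zero. -/
def NilF (θ : FIC) : Prop := ∃ k, Zero θ (List.replicate (k + 1) (0, false))

/-- Killed words for the level (content size `n`, length `d`): equal modulo `θ` to a longer word than `d`, or to a word of length `d` with
fewer than `n` letters. -/
def Kl (θ : FIC) (n d : ℕ) (w : Wd) : Prop :=
  ∃ w', θ.r w w' ∧ (d < w'.length ∨ (w'.length = d ∧ (ct w').card < n))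

/-! ## Types of linear words -/

/-- Type T: words of length `≥ 5` only depend on the multiset of unsigned letters. -/
def T5 (θ : FIC) : Prop := ∀ u v : Wd, 5 ≤ u.length → (u.map Prod.fst).Perm (v.map Prod.fst) → θ.r u v

/-- Type C: words of length `≥ 4` only depend on the multiset of signed letters. -/
def C4 (θ : FIC) : Prop := ∀ u v : Wd, 4 ≤ u.length → u.Perm v → θ.r u v

/-- Type M: the middle part of a word (everything but first and last letter) only depends on its multiset of unsigned letters. -/
def M3 (θ : FIC) : Prop := ∀ (a b : Lt) (m m' : Wd), m ≠ [] → (m.map Prod.fst).Perm (m'.map Prod.fst) →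
  θ.r (a :: m ++ [b]) (a :: m' ++ [b])

/-! ## Types of nonlinear words -/

/-- Same multiset of unsigned letters, and the letters occurring once have the same sign. -/
def Sim (u v : Wd) : Prop := (u.map Prod.fst).Perm (v.map Prod.fst) ∧
  ∀ i, oc i u = 1 → ((i, false) ∈ u ↔ (i, false) ∈ v)

/-- Type S: nonlinear words of length `≥ 5` only depend on the multiset of unsigned letters and the signs of the letters occurring once. -/
def HS (θ : FIC) : Prop := ∀ u v : Wd, 5 ≤ u.length → ¬ Lin u → Sim u v → θ.r u v

/-- Type R. -/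
structure TR (θ : FIC) : Prop where
  r0 : ∀ u v : Wd, 5 ≤ u.length → ¬ Lin u → u.Perm v → θ.r u v
  r1 : ∀ u : Wd, 6 ≤ u.length → (∃ i, 3 ≤ oc i u) → Zero θ u
  r2 : ∀ u v : Wd, 5 ≤ u.length → ¬ Lin u → ¬ Zero θ u → ¬ Zero θ v → Sim u v → θ.r u v

/-- Type E: type S and nonzero nonlinear words of length `≥ 6` have exactly one repeated letter, occurring twice or thrice. -/
structure TE (θ : FIC) : Prop where
  hs : HS θ
  e1 : ∀ u : Wd, 6 ≤ u.length → ¬ Lin u → ¬ Zero θ u → ∃ i, 2 ≤ oc i u ∧ oc i u ≤ 3 ∧ ∀ j, j ≠ i → oc j u ≤ 1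

/-- Sign of the first occurrence of the letter `i` (`true` = starred). -/
def fs (i : ℕ) (u : Wd) : Bool := ((u.find? (fun a => a.1 = i)).map Prod.snd).getD false

/-- Type D: nonzero nonlinear words of length `≥ 7` have exactly one repeated letter, occurring twice, and are determined by their content,
this letter, and the sign of its first occurrence. -/
structure TD (θ : FIC) : Prop where
  d1 : ∀ u : Wd, 7 ≤ u.length → ¬ Lin u → ¬ Zero θ u → ∃ i, oc i u = 2 ∧ ∀ j, j ≠ i → oc j u ≤ 1
  d2 : ∀ u v : Wd, 7 ≤ u.length → ¬ Lin u → ¬ Zero θ u → ¬ Zero θ v → (u.map Prod.fst).Perm (v.map Prod.fst) →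
    (∀ i, oc i u = 2 → fs i u = fs i v) → θ.r u v

/-- The type of `θ` in high degree. -/
def Typ (θ : FIC) : Prop := NilF θ ∧ (T5 θ ∨ C4 θ ∨ M3 θ) ∧ (TR θ ∨ TE θ ∨ TD θ)

/-! ## Standard words -/

/-- `x_i`. -/
def X (i : ℕ) : Lt := (i, false)

/-- `x_i*`. -/
def Y (i : ℕ) : Lt := (i, true)

end Helper1.IM
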