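import Pool.Agent.Helper1.IM.St2
import Pool.Agent.Helper99.IM.Tool

/-!
# Project IM, module C1: if `xxyz` is killed then `xxyzt` is zero
-/

set_option autoImplicit false

namespace Helper1.IM

open T99

private theorem third_C1 (i : ℕ) (hi : i ∈ ({0, 1, 2} : Finset ℕ)) :
    ∃ j k, j ∈ ({0, 1, 2} : Finset ℕ) ∧ k ∈ ({0, 1, 2} : Finset ℕ) ∧ i ≠ j ∧ i ≠ k ∧ j ≠ k := by
  simp only [Finset.mem_insert, Finset.mem_singleton] at hi
  rcases hi with rfl | rfl | rfl
  · exact ⟨1, 2, by simp, by simp, by simp, by simp, by simp⟩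
  · exact ⟨0, 2, by simp, by simp, by simp, by simp, by simp⟩
  · exact ⟨0, 1, by simp, by simp, by simp, by simp, by simp⟩

/-- the substitution `k ↦ k t` -/
private theorem case2_C1 {θ : FIC} (hn : NilF θ) (h4 : C4 θ) {w : Wd} (hr : θ.r P3 w)
    (hlen : 4 < w.length) (hcount : ∀ a, w.count a ≤ 1) (k : ℕ) (hk : k = 1 ∨ k = 2)
    (hkf : (k, false) ∈ w) (hkt : (k, true) ∈ w) : Zero θ P4 := by
  obtain ⟨r, hp, hl⟩ := ext_perm w [X k, Y k] (by
    intro b hb
    simp only [List.mem_cons, List.not_mem_nil, or_false] at hb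
    rcases hb with rfl | rfl
    · have := List.count_pos_iff.2 hkf
      simpa [X, Y, List.count_cons] using this
    · have := List.count_pos_iff.2 hkt
      simpa [X, Y, List.count_cons] using this)
  have hkr : k ∉ ct r := by
    intro hk'
    obtain ⟨b, hb⟩ := mem_ct.1 hk'
    have h1 := List.count_pos_iff.2 hb
    have h2 := hp.count_eq (k, b)
    have h3 := hcount (k, b)
    rw [List.count_append] at h2
    have h5 : 1 ≤ List.count (k, b) [X k, Y k] := by
      apply List.count_pos_iff.2
      cases b <;> simp [X, Y]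
    omega
  have hfne : ∀ i, (fun i => if i = k then [X k, X 3] else [X i] : ℕ → Wd) i ≠ [] := by
    intro i
    simp only
    split_ifs <;> simp
  have s1 := θ.sub' (fun i => if i = k then [X k, X 3] else [X i]) hfne hr
  have s2 := θ.sub' (fun i => if i = k then [X k, X 3] else [X i]) hfne (h4 w _ (by omega) hp)
  have e1 : sb (fun i => if i = k then [X k, X 3] else [X i]) r = r := by
    apply sb_fix
    intro i hi
    have : i ≠ k := fun h => hkr (h ▸ hi)
    simp [this]
  have e2 : sb (fun i => if i = k then [X k, X 3] else [X i]) ([X k, Y k] ++ r)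
      = [X k, X 3, Y 3, Y k] ++ r := by
    rw [sb_append, e1]
    simp
  have e3 : θ.r P4 (sb (fun i => if i = k then [X k, X 3] else [X i]) P3) := by
    apply h4
    · simp [P4]
    · rcases hk with rfl | rfl
      · show List.Perm [X 0, X 0, X 1, X 2, X 3] [X 0, X 0, X 1, X 3, X 2]
        decide
      · exact List.Perm.refl _
  rw [e2] at s2
  have e4 : θ.r ([X k, X 3, Y 3, Y k] ++ r) (w ++ [X 3, Y 3]) := by
    apply h4
    · simp
    · refine List.Perm.trans ?_ (hp.symm.append_right _)
      rw [List.perm_iff_count]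
      intro a
      simp only [List.count_append, List.count_cons, List.count_nil]
      omega
  have e5 : θ.r (w ++ [X 3, Y 3]) (P3 ++ [X 3, Y 3]) := θ.symm' (θ.mulR _ hr)
  have e6 : P3 ++ [X 3, Y 3] = P4 ++ [Y 3] := rfl
  rw [e6] at e5
  have e7 : θ.r P4 ([] ++ P4 ++ [Y 3]) := by
    simpa using θ.trans' e3 (θ.trans' s1 (θ.trans' s2 (θ.trans' e4 e5)))
  exact grow0 hn e7 (by simp)

theorem hC1 : StC1 := by
  intro θ hn h4 hk
  have hct3 : ct P3 = {0, 1, 2} := by decide
  rcases hk.long hn (by rw [hct3]; decide) with hz | ⟨w, hr, hlen, hct⟩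
  · exact hz.mulR [X 3]
  rw [hct3] at hct
  by_cases hc : ∀ a, w.count a ≤ 1
  · -- no signed letter is repeated
    by_cases h1 : (1, false) ∈ w ∧ (1, true) ∈ w
    · exact case2_C1 hn h4 hr hlen hc 1 (Or.inl rfl) h1.1 h1.2
    by_cases h2 : (2, false) ∈ w ∧ (2, true) ∈ w
    · exact case2_C1 hn h4 hr hlen hc 2 (Or.inr rfl) h2.1 h2.2
    exfalso
    have hs : w.length = ∑ i ∈ ct w, oc i w := length_eq_sum w
    rw [hct] at hs
    have e0 := oc_count 0 w
    have e1 := oc_count 1 w
    have e2 := oc_count 2 w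
    have a0 := hc (0, false)
    have a0' := hc (0, true)
    have a1 := hc (1, false)
    have a1' := hc (1, true)
    have a2 := hc (2, false)
    have a2' := hc (2, true)
    have hs' : w.length = oc 0 w + (oc 1 w + oc 2 w) := by
      rw [hs]
      rw [Finset.sum_insert (by simp), Finset.sum_insert (by simp), Finset.sum_singleton]
    rw [← List.count_pos_iff, ← List.count_pos_iff] at h1 h2
    omega
  · push Not at hc
    obtain ⟨a, ha⟩ := hc
    have ha1 : a.1 ∈ ({0, 1, 2} : Finset ℕ) := by
      rw [← hct]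
      have ham : a ∈ w := List.count_pos_iff.1 (by omega)
      exact mem_ct.2 ⟨a.2, ham⟩
    obtain ⟨j, k, hj, hk', hij, hik, hjk⟩ := third_C1 a.1 ha1
    rw [← hct] at hj hk'
    obtain ⟨s, hs⟩ := mem_ct.1 hj
    obtain ⟨t, ht⟩ := mem_ct.1 hk'
    obtain ⟨p, e, h0, h1, h2⟩ := ren3 a (j, s) (k, t) hij hik hjk
    obtain ⟨r, hp, hl⟩ := ext_perm w [a, a, (j, s), (k, t)] (by
      intro b hb
      have na : ((j, s) : Lt) ≠ a := fun h => hij (by rw [← h])
      have nb : ((k, t) : Lt) ≠ a := fun h => hik (by rw [← h])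
      have nc : ((j, s) : Lt) ≠ (k, t) := fun h => hjk (congrArg Prod.fst h)
      have c1 := List.count_pos_iff.2 hs
      have c2 := List.count_pos_iff.2 ht
      simp only [List.mem_cons, List.not_mem_nil, or_false] at hb
      rcases hb with rfl | rfl | rfl | rfl
      · simp [na, nb]; omega
      · simp [na, nb]; omega
      · simp [na.symm, nc.symm]; omega
      · simp [nb.symm, nc]; omega)
    have e1 : rw' p e P3 = [a, a, (j, s), (k, t)] := by
      simp only [P3, rw'_X, h0, h1, h2, rw'_nil]
    have e2 : θ.r P3 ([] ++ rw' p e P3 ++ r) := by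
      rw [e1]
      simpa using θ.trans' hr (h4 w _ (by omega) hp)
    have hrne : [] ++ r ≠ [] := by
      intro h
      simp only [List.nil_append] at h
      subst h
      simp at hl
      omega
    exact (grow hn p e e2 hrne).mulR [X 3]

end Helper1.IM
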