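import Pool.Agent.Helper1.IM.St2

/-!
# Project IM: module C10 (the exotic case is impossible)
-/

set_option autoImplicit false

namespace Helper1.IM

/-- `xxxyzt`. -/
private def F_C10 : Wd := [X 0, X 0, X 0, X 1, X 2, X 3]

/-- `xxyzt` with signs. -/
private def W_C10 (b0 b1 b2 b3 : Bool) : Wd := [(0, b0), (0, b0), (1, b1), (2, b2), (3, b3)]

private theorem sb_rep_C10 (f : ℕ → Wd) (c : Lt) (hf : f 0 = [c]) (a : ℕ) :
    sb f (List.replicate a (X 0)) = List.replicate a c := by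
  induction a with
  | zero => rfl
  | succ a ih =>
    rw [List.replicate_succ, sb_X, ih, hf, List.replicate_succ]
    rfl

/-- substitution of four letters by letters -/
private def f4_C10 (c p q r s : Lt) : ℕ → Wd := fun i =>
  match i with
  | 0 => [c]
  | 1 => [p]
  | 2 => [q]
  | 3 => [r]
  | _ => [s]

private theorem f4_ne_C10 (c p q r s : Lt) : ∀ i, f4_C10 c p q r s i ≠ [] := by
  intro i
  unfold f4_C10
  split <;> simp

/-- every word `c c c* p q r` is zero -/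
private theorem K_C10 {θ : FIC} {a : ℕ} (h : θ.r Q4 (List.replicate a (X 0) ++ [X 1, X 2, X 3]))
    (hz : Zero θ (List.replicate (a + 1) (X 0) ++ [X 1, X 2, X 3])) (c p q r : Lt) :
    Zero θ [c, c, fl c, p, q, r] := by
  have h1 := θ.sub' (f4_C10 c p q r c) (f4_ne_C10 c p q r c) h
  have h2 := hz.sb (f4_C10 c p q r c) (f4_ne_C10 c p q r c)
  have e1 : sb (f4_C10 c p q r c) Q4 = [c, fl c, p, q, r] := rfl
  have e2 : ∀ n, sb (f4_C10 c p q r c) (List.replicate n (X 0) ++ [X 1, X 2, X 3]) =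
      List.replicate n c ++ [p, q, r] := by
    intro n
    rw [sb_append, sb_rep_C10 _ c rfl]
    rfl
  rw [e1, e2] at h1
  rw [e2] at h2
  have h3 := θ.mulL [c] h1
  have h4 : [c] ++ (List.replicate a c ++ [p, q, r]) = List.replicate (a + 1) c ++ [p, q, r] := by
    rw [List.replicate_succ]
    rfl
  rw [h4] at h3
  exact h2.of_r (θ.symm' h3)

/-- case 2 of the proof -/
private theorem c2_C10 {θ : FIC} {a : ℕ} (h : θ.r Q4 (List.replicate a (X 0) ++ [X 1, X 2, X 3]))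
    (hz : Zero θ (List.replicate (a + 1) (X 0) ++ [X 1, X 2, X 3])) (b2 b3 : Bool)
    (hr : θ.r P4 (W_C10 false true b2 b3)) : Zero θ F_C10 := by
  have h1 := θ.sub' (f4_C10 (X 0) (X 0) (X 1) (X 2) (X 3)) (f4_ne_C10 _ _ _ _ _) hr
  have h2 := θ.mulR [X 3] h1
  have e1 : sb (f4_C10 (X 0) (X 0) (X 1) (X 2) (X 3)) P4 ++ [X 3] = F_C10 := rfl
  have e2 : sb (f4_C10 (X 0) (X 0) (X 1) (X 2) (X 3)) (W_C10 false true b2 b3) ++ [X 3] =
      [X 0, X 0, fl (X 0), (1, b2), (2, b3), X 3] := by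
    cases b2 <;> cases b3 <;> rfl
  rw [e1, e2] at h2
  exact (K_C10 h hz (X 0) (1, b2) (2, b3) (X 3)).of_r (θ.symm' h2)

/-- case 1 -/
private theorem c1_C10 {θ : FIC} (h4 : C4 θ) {a : ℕ}
    (h : θ.r Q4 (List.replicate a (X 0) ++ [X 1, X 2, X 3]))
    (hz : Zero θ (List.replicate (a + 1) (X 0) ++ [X 1, X 2, X 3]))
    (hr : θ.r P4 (W_C10 true false false false)) : Zero θ F_C10 := by
  have h1 := θ.mulL [X 0] hr
  have e1 : [X 0] ++ P4 = F_C10 := rfl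
  have h2 : θ.r ([X 0] ++ W_C10 true false false false) [Y 0, Y 0, fl (Y 0), X 1, X 2, X 3] :=
    h4 _ _ (by decide) (by decide)
  rw [e1] at h1
  exact (K_C10 h hz (Y 0) (X 1) (X 2) (X 3)).of_r (θ.symm' (θ.trans' h1 h2))

/-- case 4 -/
private theorem c4_C10 {θ : FIC} (h4 : C4 θ) {a : ℕ}
    (h : θ.r Q4 (List.replicate a (X 0) ++ [X 1, X 2, X 3]))
    (hz : Zero θ (List.replicate (a + 1) (X 0) ++ [X 1, X 2, X 3]))
    (hr : θ.r P4 (W_C10 true true true true)) : Zero θ F_C10 := by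
  -- t := t u
  set g : ℕ → Wd := fun i => match i with
    | 0 => [X 0]
    | 1 => [X 1]
    | 2 => [X 2]
    | 3 => [X 3, X 4]
    | _ => [X 0] with hg
  have hgn : ∀ i, g i ≠ [] := by
    intro i
    rw [hg]
    simp only
    split <;> simp
  have h1 : θ.r [X 0, X 0, X 1, X 2, X 3, X 4] [Y 0, Y 0, Y 1, Y 2, Y 3, X 4] := θ.mulR [X 4] hr
  have h2 : θ.r [X 0, X 0, X 1, X 2, X 3, X 4] [Y 0, Y 0, Y 1, Y 2, Y 4, Y 3] := θ.sub' g hgn hr
  have h3 := θ.trans' (θ.symm' h1) h2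
  set k : ℕ → Wd := fun i => match i with
    | 0 => [Y 0]
    | 1 => [Y 1]
    | 2 => [Y 2]
    | 3 => [Y 3]
    | _ => [X 0] with hk
  have hkn : ∀ i, k i ≠ [] := by
    intro i
    rw [hk]
    simp only
    split <;> simp
  have h5 : θ.r [X 0, X 0, X 1, X 2, X 3, X 0] [X 0, X 0, X 1, X 2, Y 0, X 3] := θ.sub' k hkn h3
  have h6 : θ.r F_C10 [X 0, X 0, X 1, X 2, X 3, X 0] := h4 _ _ (by decide) (by decide)
  have h7 : θ.r [X 0, X 0, X 1, X 2, Y 0, X 3] [X 0, X 0, fl (X 0), X 1, X 2, X 3] :=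
    h4 _ _ (by decide) (by decide)
  exact (K_C10 h hz (X 0) (X 1) (X 2) (X 3)).of_r (θ.symm' (θ.trans' h6 (θ.trans' h5 h7)))

/-- exchange of `y` and `z` -/
private theorem s12_C10 {θ : FIC} (h4 : C4 θ) (b0 b1 b2 b3 : Bool)
    (hr : θ.r P4 (W_C10 b0 b1 b2 b3)) : θ.r P4 (W_C10 b0 b2 b1 b3) := by
  have h1 := θ.sub' (f4_C10 (X 0) (X 2) (X 1) (X 3) (X 0)) (f4_ne_C10 _ _ _ _ _) hr
  have h2 : θ.r P4 (sb (f4_C10 (X 0) (X 2) (X 1) (X 3) (X 0)) P4) := h4 _ _ (by decide) (by decide)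
  have h3 : θ.r (sb (f4_C10 (X 0) (X 2) (X 1) (X 3) (X 0)) (W_C10 b0 b1 b2 b3)) (W_C10 b0 b2 b1 b3) := by
    cases b0 <;> cases b1 <;> cases b2 <;> cases b3 <;> exact h4 _ _ (by decide) (by decide)
  exact θ.trans' h2 (θ.trans' h1 h3)

/-- exchange of `y` and `t` -/
private theorem s13_C10 {θ : FIC} (h4 : C4 θ) (b0 b1 b2 b3 : Bool)
    (hr : θ.r P4 (W_C10 b0 b1 b2 b3)) : θ.r P4 (W_C10 b0 b3 b2 b1) := by
  have h1 := θ.sub' (f4_C10 (X 0) (X 3) (X 2) (X 1) (X 0)) (f4_ne_C10 _ _ _ _ _) hr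
  have h2 : θ.r P4 (sb (f4_C10 (X 0) (X 3) (X 2) (X 1) (X 0)) P4) := h4 _ _ (by decide) (by decide)
  have h3 : θ.r (sb (f4_C10 (X 0) (X 3) (X 2) (X 1) (X 0)) (W_C10 b0 b1 b2 b3)) (W_C10 b0 b3 b2 b1) := by
    cases b0 <;> cases b1 <;> cases b2 <;> cases b3 <;> exact h4 _ _ (by decide) (by decide)
  exact θ.trans' h2 (θ.trans' h1 h3)

/-- composition -/
private theorem cmp_C10 {θ : FIC} (b0 b1 b2 b3 c0 c1 c2 c3 : Bool)
    (hr : θ.r P4 (W_C10 b0 b1 b2 b3)) (hr' : θ.r P4 (W_C10 c0 c1 c2 c3)) :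
    θ.r P4 (W_C10 (xor c0 b0) (xor c1 b1) (xor c2 b2) (xor c3 b3)) := by
  have h1 := θ.sub' (f4_C10 (0, b0) (1, b1) (2, b2) (3, b3) (X 0)) (f4_ne_C10 _ _ _ _ _) hr'
  have e1 : sb (f4_C10 (0, b0) (1, b1) (2, b2) (3, b3) (X 0)) P4 = W_C10 b0 b1 b2 b3 := rfl
  have e2 : sb (f4_C10 (0, b0) (1, b1) (2, b2) (3, b3) (X 0)) (W_C10 c0 c1 c2 c3) =
      W_C10 (xor c0 b0) (xor c1 b1) (xor c2 b2) (xor c3 b3) := by
    cases b0 <;> cases b1 <;> cases b2 <;> cases b3 <;> cases c0 <;> cases c1 <;> cases c2 <;>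
      cases c3 <;> rfl
  rw [e1, e2] at h1
  exact θ.trans' hr h1

private theorem all_C10 {θ : FIC} (h4 : C4 θ) {a : ℕ}
    (h : θ.r Q4 (List.replicate a (X 0) ++ [X 1, X 2, X 3]))
    (hz : Zero θ (List.replicate (a + 1) (X 0) ++ [X 1, X 2, X 3])) (b0 b1 b2 b3 : Bool)
    (hn : ¬ (b0 = false ∧ b1 = false ∧ b2 = false ∧ b3 = false))
    (hr : θ.r P4 (W_C10 b0 b1 b2 b3)) : Zero θ F_C10 := by
  cases b0
  · cases b1
    · cases b2
      · cases b3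
        · exact absurd ⟨rfl, rfl, rfl, rfl⟩ hn
        · exact c2_C10 h hz false false (s13_C10 h4 _ _ _ _ hr)
      · exact c2_C10 h hz false b3 (s12_C10 h4 _ _ _ _ hr)
    · exact c2_C10 h hz b2 b3 hr
  · cases b1
    · cases b2
      · cases b3
        · exact c1_C10 h4 h hz hr
        · exact c2_C10 h hz false true (cmp_C10 _ _ _ _ _ _ _ _ hr (s13_C10 h4 _ _ _ _ hr))
      · have h1 := cmp_C10 _ _ _ _ _ _ _ _ hr (s12_C10 h4 _ _ _ _ hr)
        cases b3 <;> exact c2_C10 h hz true false h1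
    · cases b2
      · have h1 := cmp_C10 _ _ _ _ _ _ _ _ hr (s12_C10 h4 _ _ _ _ hr)
        cases b3 <;> exact c2_C10 h hz true false h1
      · cases b3
        · exact c2_C10 h hz false true (cmp_C10 _ _ _ _ _ _ _ _ hr (s13_C10 h4 _ _ _ _ hr))
        · exact c4_C10 h4 h hz hr

/-- **StC10** -/
theorem hC10 : StC10 := by
  intro θ _ h4 a e ha h hz hn hr
  have e1 : sg e P4 = W_C10 (e 0) (e 1) (e 2) (e 3) := by
    unfold sg P4 W_C10 X
    simp [rw']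
  rw [e1] at hr hn
  have hn' : ¬ (e 0 = false ∧ e 1 = false ∧ e 2 = false ∧ e 3 = false) := by
    rintro ⟨h0, h1, h2, h3⟩
    rw [h0, h1, h2, h3] at hn
    exact hn (List.Perm.refl _)
  have hF := all_C10 h4 h hz _ _ _ _ hn' hr
  obtain ⟨k, rfl⟩ := Nat.exists_eq_add_of_le ha
  have e2 : List.replicate (3 + k) (X 0) ++ [X 1, X 2, X 3] = List.replicate k (X 0) ++ F_C10 := by
    rw [Nat.add_comm, List.replicate_add, List.append_assoc]
    rfl
  rw [e2] at h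
  exact (hF.mulL _).of_r (θ.symm' h)

end Helper1.IM
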