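import Pool.Agent.Helper1.IM.St2

/-!
# Project IM: module C11
-/

set_option autoImplicit false
set_option linter.unusedSimpArgs false
set_option linter.unusedVariables false

namespace Helper1.IM

private theorem oc2_C11 (i : ℕ) (u : Wd) : oc i u = u.count (i, false) + u.count (i, true) := by
  induction u with
  | nil => simp
  | cons a u ih =>
    rcases a with ⟨j, b⟩
    rw [oc_cons, ih, List.count_cons, List.count_cons]
    by_cases h : j = i
    · subst h
      cases b <;> simp <;> omega
    · simp [h]

private theorem pull2_C11 {u : Wd} {a : Lt} (h : 2 ≤ u.count a) : ∃ r, u.Perm (a :: a :: r) := by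
  have h1 : a ∈ u := List.count_pos_iff.1 (by omega)
  have p1 := List.perm_cons_erase h1
  have h2 : a ∈ u.erase a := List.count_pos_iff.1 (by rw [List.count_erase_self]; omega)
  have p2 := List.perm_cons_erase h2
  exact ⟨_, p1.trans (p2.cons a)⟩

private theorem pull3_C11 {u : Wd} {a : Lt} (h : 3 ≤ u.count a) : ∃ r, u.Perm (a :: a :: a :: r) := by
  obtain ⟨r, hr⟩ := pull2_C11 (u := u) (a := a) (by omega)
  have h1 : u.count a = r.count a + 2 := by
    rw [hr.count_eq]
    simp
  have h2 : a ∈ r := List.count_pos_iff.1 (by omega)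
  exact ⟨_, hr.trans (((List.perm_cons_erase h2).cons a).cons a)⟩

private theorem q4_C11 {θ : FIC} (hQ : Zero θ Q4) (a b c : Lt) (r : Wd) (hr : r ≠ []) :
    Zero θ (a :: fl a :: b :: c :: r) := by
  have h := hQ.sb (fun i => if i = 0 then [a] else if i = 1 then [b] else if i = 2 then [c] else r)
    (fun i => by split_ifs <;> simp [hr])
  simpa [Q4, st] using h

private theorem zz_C11 {θ : FIC} (h4 : C4 θ) (hQ : Zero θ Q4) {u : Wd} {i : ℕ} (hl : 5 ≤ u.length)
    (h1 : (i, false) ∈ u) (h2 : (i, true) ∈ u) : Zero θ u := by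
  have p1 := List.perm_cons_erase h1
  have h3 : (i, true) ∈ u.erase (i, false) := by
    have := p1.mem_iff.1 h2
    simpa using this
  have p2 := List.perm_cons_erase h3
  set w := (u.erase (i, false)).erase (i, true) with hw
  have p3 : u.Perm ((i, false) :: (i, true) :: w) := p1.trans (p2.cons _)
  have hlen := p3.length_eq
  simp only [List.length_cons] at hlen
  match hw' : w, hlen with
  | [], hlen => simp at hlen; omega
  | [b], hlen => simp at hlen; omega
  | [b, c], hlen => simp at hlen; omega
  | b :: c :: d :: r, hlen =>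
    have hz := q4_C11 hQ (i, false) b c (d :: r) (by simp)
    have hz' : Zero θ ((i, false) :: (i, true) :: b :: c :: d :: r) := hz
    exact hz'.of_r (θ.symm' (h4 _ _ (by omega) p3))

/-- in a nonzero word a letter has only one sign -/
private theorem one_C11 {θ : FIC} (h4 : C4 θ) (hQ : Zero θ Q4) {u : Wd} (i : ℕ) (hl : 5 ≤ u.length)
    (hz : ¬ Zero θ u) : u.count (i, false) = 0 ∨ u.count (i, true) = 0 := by
  by_contra hcon
  push Not at hcon
  exact hz (zz_C11 h4 hQ (i := i) hl (List.count_pos_iff.1 (by omega))
    (List.count_pos_iff.1 (by omega)))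

private theorem perm_C11 {u v : Wd} (h : (u.map Prod.fst).Perm (v.map Prod.fst))
    (hc : ∀ j, u.count (j, false) = v.count (j, false)) : u.Perm v := by
  rw [List.perm_iff_count]
  rintro ⟨j, b⟩
  cases b
  · exact hc j
  · have h1 := oc_perm h j
    rw [oc2_C11, oc2_C11, hc j] at h1
    omega

private theorem ind_C11 {θ : FIC} (h4 : C4 θ) (v : Wd) (Inv : Wd → Prop)
    (hinv : ∀ u, Inv u → 4 ≤ u.length ∧ (u.map Prod.fst).Perm (v.map Prod.fst))
    (step : ∀ u, Inv u → ∀ j, u.count (j, false) ≠ v.count (j, false) → ∃ u', θ.r u u' ∧ Inv u' ∧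
      (∀ i, i ≠ j → u'.count (i, false) = u.count (i, false)) ∧
      u'.count (j, false) = v.count (j, false)) : ∀ u, Inv u → θ.r u v := by
  have key : ∀ n u, Inv u →
      ((ct v).filter (fun i => u.count (i, false) ≠ v.count (i, false))).card ≤ n → θ.r u v := by
    intro n
    induction n with
    | zero =>
      intro u hu hn
      obtain ⟨hl, hp⟩ := hinv u hu
      refine h4 _ _ hl (perm_C11 hp fun j => ?_)
      by_contra hne
      have hj : j ∈ ct v := by
        by_contra hj
        have h1 := oc_eq_zero.2 hj
        have h2 := oc_perm hp j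
        rw [oc2_C11] at h1 h2
        rw [oc2_C11 j v] at h2
        omega
      have : j ∈ (ct v).filter (fun i => u.count (i, false) ≠ v.count (i, false)) :=
        Finset.mem_filter.2 ⟨hj, hne⟩
      have := Finset.card_pos.2 ⟨j, this⟩
      omega
    | succ n ih =>
      intro u hu hn
      obtain ⟨hl, hp⟩ := hinv u hu
      by_cases hall : ∀ j, u.count (j, false) = v.count (j, false)
      · exact h4 _ _ hl (perm_C11 hp hall)
      · push Not at hall
        obtain ⟨j, hj⟩ := hall
        obtain ⟨u', h1, h2, h3, h5⟩ := step u hu j hj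
        have hjv : j ∈ ct v := by
          by_contra hjv
          have h1 := oc_eq_zero.2 hjv
          have h2 := oc_perm hp j
          rw [oc2_C11] at h1 h2
          rw [oc2_C11 j v] at h2
          omega
        refine θ.trans' h1 (ih u' h2 ?_)
        have hlt : ((ct v).filter (fun i => u'.count (i, false) ≠ v.count (i, false))).card <
            ((ct v).filter (fun i => u.count (i, false) ≠ v.count (i, false))).card := by
          apply Finset.card_lt_card
          refine ⟨fun i hi => ?_, fun hsub => ?_⟩
          · rw [Finset.mem_filter] at hi ⊢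
            refine ⟨hi.1, ?_⟩
            have hij : i ≠ j := fun h => hi.2 (h ▸ h5)
            rw [← h3 i hij]
            exact hi.2
          · have := hsub (Finset.mem_filter.2 ⟨hjv, hj⟩)
            exact (Finset.mem_filter.1 this).2 h5
        omega
  intro u hu
  exact key _ u hu le_rfl

private theorem fs_C11 {u : Wd} {i : ℕ} {b : Bool} (h1 : (i, b) ∈ u) (h2 : (i, !b) ∉ u) :
    fs i u = b := by
  unfold fs
  have h3 : (u.find? (fun a => a.1 = i)).isSome := by
    rw [List.find?_isSome]
    exact ⟨_, h1, by simp⟩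
  obtain ⟨a, ha⟩ := Option.isSome_iff_exists.1 h3
  have ha1 := List.mem_of_find?_eq_some ha
  have ha2 := List.find?_some ha
  rw [ha]
  rcases a with ⟨k, c⟩
  simp only [decide_eq_true_eq] at ha2
  subst ha2
  simp only [Option.map_some, Option.getD_some]
  by_contra hne
  have : c = !b := by
    revert hne
    cases c <;> cases b <;> simp
  rw [this] at ha1
  exact h2 ha1

/-! ### Case 1 -/

private theorem r1_C11 {θ : FIC} (hR : θ.r [X 0, X 0, X 1, X 2, X 3] [Y 0, Y 0, X 1, X 2, X 3])
    (a b c : Lt) (r : Wd) (hr : r ≠ []) : θ.r (a :: a :: b :: c :: r) (fl a :: fl a :: b :: c :: r) := by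
  have h := θ.sub' (fun i => if i = 0 then [a] else if i = 1 then [b] else if i = 2 then [c] else r)
    (fun i => by split_ifs <;> simp [hr]) hR
  simpa [st] using h

private theorem three1_C11 {θ : FIC} (h4 : C4 θ) (hQ : Zero θ Q4)
    (hR : θ.r [X 0, X 0, X 1, X 2, X 3] [Y 0, Y 0, X 1, X 2, X 3]) {u : Wd} {a : Lt}
    (hl : 5 ≤ u.length) (h : 3 ≤ u.count a) : Zero θ u := by
  obtain ⟨w, hw⟩ := pull3_C11 h
  have hlen := hw.length_eq
  simp only [List.length_cons] at hlen
  match w, hlen with
  | [], hlen => simp at hlen; omega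
  | [b], hlen => simp at hlen; omega
  | b :: c :: r, hlen =>
    have h1 := r1_C11 hR a b c (a :: r) (by simp)
    have hz : Zero θ (fl a :: fl a :: b :: c :: a :: r) := by
      refine zz_C11 h4 hQ (i := a.1) (by simp) ?_ ?_
      · rcases a with ⟨i, s⟩
        cases s <;> simp [fl]
      · rcases a with ⟨i, s⟩
        cases s <;> simp [fl]
    refine hz.of_r (θ.symm' (θ.trans' (h4 _ _ (by omega) (hw.trans ?_)) h1))
    refine List.Perm.cons _ (List.Perm.cons _ ?_)
    exact (List.perm_middle (a := a) (l₁ := [b, c]) (l₂ := r)).symm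

private theorem case1_C11 {θ : FIC} (h4 : C4 θ) (hQ : Zero θ Q4)
    (hR : θ.r [X 0, X 0, X 1, X 2, X 3] [Y 0, Y 0, X 1, X 2, X 3]) : TR θ := by
  refine ⟨fun u v hl _ hp => h4 u v (by omega) hp, ?_, ?_⟩
  · rintro u hl ⟨i, hi⟩
    by_contra hz
    rw [oc2_C11] at hi
    rcases one_C11 h4 hQ i (by omega) hz with h | h
    · exact hz (three1_C11 h4 hQ hR (a := (i, true)) (by omega) (by omega))
    · exact hz (three1_C11 h4 hQ hR (a := (i, false)) (by omega) (by omega))
  · intro u v hl hn hu hv hs
    refine ind_C11 h4 v (fun u => 5 ≤ u.length ∧ ¬ Zero θ u ∧ Sim u v)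
      (fun u hu => ⟨by omega, hu.2.2.1⟩) ?_ u ⟨hl, hu, hs⟩
    clear hs hu hn hl u
    rintro u ⟨hl, hu, hs⟩ j hj
    have hlv : 5 ≤ v.length := by
      have := hs.1.length_eq
      simp at this
      omega
    have ho := oc_perm hs.1 j
    have hou := oc2_C11 j u
    have hov := oc2_C11 j v
    have h1 : oc j u ≠ 1 := by
      intro h1
      have h2 := hs.2 j h1
      by_cases hm : (j, false) ∈ u
      · have a1 := List.count_pos_iff.2 hm
        have a2 := List.count_pos_iff.2 (h2.1 hm)
        omega
      · have a1 := List.count_eq_zero.2 hm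
        have a2 := List.count_eq_zero.2 (fun h => hm (h2.2 h))
        omega
    have c1 : ∀ a : Lt, u.count a ≤ 2 := by
      intro a
      by_contra hc
      exact hu (three1_C11 h4 hQ hR (a := a) hl (by omega))
    have c1v : ∀ a : Lt, v.count a ≤ 2 := by
      intro a
      by_contra hc
      exact hv (three1_C11 h4 hQ hR (a := a) hlv (by omega))
    have o1 := one_C11 h4 hQ j hl hu
    have o2 := one_C11 h4 hQ j hlv hv
    have k1 := c1 (j, false)
    have k2 := c1 (j, true)
    have k3 := c1v (j, false)
    have k4 := c1v (j, true)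
    -- the sign of `j` in `u`
    obtain ⟨b, hb⟩ : ∃ b : Bool, u.count (j, b) = 2 ∧ v.count (j, !b) = 2 := by
      rcases o1 with o1 | o1
      · refine ⟨true, ?_, ?_⟩
        · omega
        · simp only [Bool.not_true]; omega
      · refine ⟨false, ?_, ?_⟩
        · omega
        · simp only [Bool.not_false]; omega
    obtain ⟨w, hw⟩ := pull2_C11 (u := u) (a := (j, b)) (by omega)
    have hlen := hw.length_eq
    simp only [List.length_cons] at hlen
    have hcw : w.count (j, b) = 0 := by
      have := hw.count_eq (j, b)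
      simp at this
      omega
    have hcw' : w.count (j, !b) = 0 := by
      have h2 := hw.count_eq (j, !b)
      have h3 : u.count (j, !b) = 0 := by
        cases b
        · simp only [Bool.not_false]; omega
        · simp only [Bool.not_true]; omega
      rw [h3, List.count_cons, List.count_cons] at h2
      simp at h2
      exact h2.symm
    have hrel : θ.r u ((j, !b) :: (j, !b) :: w) := by
      match w, hlen, hw with
      | [], hlen, hw => simp at hlen; omega
      | [c], hlen, hw => simp at hlen; omega
      | [c, d], hlen, hw => simp at hlen; omega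
      | c :: d :: f :: r, hlen, hw =>
        have h1 := r1_C11 hR (j, b) c d (f :: r) (by simp)
        exact θ.trans' (h4 _ _ (by omega) hw) h1
    have hmap : (u.map Prod.fst).Perm (((j, !b) :: (j, !b) :: w : Wd).map Prod.fst) := by
      have := hw.map Prod.fst
      simpa using this
    have hcnt : ∀ i, i ≠ j → ∀ s, ((j, !b) :: (j, !b) :: w : Wd).count (i, s) = u.count (i, s) := by
      intro i hij s
      rw [hw.count_eq, List.count_cons, List.count_cons, List.count_cons, List.count_cons]
      have e1 : ((j, !b) == (i, s)) = false := by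
        simp [beq_eq_false_iff_ne, Ne.symm hij]
      have e2 : ((j, b) == (i, s)) = false := by
        simp [beq_eq_false_iff_ne, Ne.symm hij]
      rw [e1, e2]
    refine ⟨(j, !b) :: (j, !b) :: w, hrel, ⟨?_, ?_, ?_⟩, fun i hij => hcnt i hij false, ?_⟩
    · simp only [List.length_cons]; omega
    · exact fun hz => hu (hz.of_r (θ.symm' hrel))
    · refine ⟨hmap.symm.trans hs.1, fun i hi => ?_⟩
      have hij : i ≠ j := by
        rintro rfl
        rw [← oc_perm hmap i] at hi
        exact h1 hi
      have hi' : oc i u = 1 := by rw [oc_perm hmap i]; exact hi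
      rw [← hs.2 i hi', ← List.count_pos_iff, ← List.count_pos_iff, hcnt i hij false]
    · have e0 : ((j, !b) :: (j, !b) :: w : Wd).count (j, !b) = 2 := by
        simp [hcw']
      have e1 : ((j, !b) :: (j, !b) :: w : Wd).count (j, b) = 0 := by
        rw [List.count_cons, List.count_cons, hcw]
        cases b <;> simp
      cases b
      · rw [e1]
        simp only [Bool.not_false] at hb
        omega
      · simp only [Bool.not_true] at hb e0 ⊢
        rw [e0]
        omega

/-! ### Case 2 -/

private theorem s5_C11 {θ : FIC} (hS : θ.r (P4 ++ [X 4]) (P4 ++ [Y 4]))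
    (a b : Lt) (w : Wd) (hw : 3 ≤ w.length) : θ.r (a :: a :: w ++ [b]) (a :: a :: w ++ [fl b]) := by
  match w, hw with
  | [], hw => simp at hw
  | [c], hw => simp at hw
  | [c, d], hw => simp at hw
  | c :: d :: f :: r, hw =>
    have h := θ.sub' (fun i => if i = 0 then [a] else if i = 1 then [c] else if i = 2 then [d] else
      if i = 3 then f :: r else [b]) (fun i => by split_ifs <;> simp) hS
    simpa [P4, st] using h

private theorem three2_C11 {θ : FIC} (h4 : C4 θ) (hQ : Zero θ Q4)
    (hS : θ.r (P4 ++ [X 4]) (P4 ++ [Y 4])) {u : Wd} {a : Lt}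
    (hl : 6 ≤ u.length) (h : 3 ≤ u.count a) : Zero θ u := by
  obtain ⟨w, hw⟩ := pull3_C11 h
  have hlen := hw.length_eq
  simp only [List.length_cons] at hlen
  have h1 := s5_C11 hS a a w (by omega)
  have hz : Zero θ (a :: a :: w ++ [fl a]) := by
    refine zz_C11 h4 hQ (i := a.1) (by simp; omega) ?_ ?_
    · rcases a with ⟨i, s⟩
      cases s <;> simp [fl]
    · rcases a with ⟨i, s⟩
      cases s <;> simp [fl]
  refine hz.of_r (θ.symm' (θ.trans' (h4 _ _ (by omega) (hw.trans ?_)) h1))
  exact List.Perm.cons _ (List.Perm.cons _ (List.perm_append_singleton a w).symm)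

private theorem two2_C11 {θ : FIC} (h4 : C4 θ) (hQ : Zero θ Q4)
    (hS : θ.r (P4 ++ [X 4]) (P4 ++ [Y 4])) {u : Wd} {a b : Lt} (hab : a ≠ b)
    (hl : 6 ≤ u.length) (ha : 2 ≤ u.count a) (hb : 2 ≤ u.count b) : Zero θ u := by
  obtain ⟨w, hw⟩ := pull2_C11 ha
  have hbw : 2 ≤ w.count b := by
    have := hw.count_eq b
    rw [List.count_cons, List.count_cons] at this
    simp [hab] at this
    omega
  obtain ⟨r, hr⟩ := pull2_C11 hbw
  have hlen := (hw.trans ((hr.cons a).cons a)).length_eq
  simp only [List.length_cons] at hlen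
  have h1 := s5_C11 hS a b (b :: r) (by simp; omega)
  have hz : Zero θ (a :: a :: (b :: r) ++ [fl b]) := by
    refine zz_C11 h4 hQ (i := b.1) (by simp; omega) ?_ ?_
    · rcases b with ⟨i, s⟩
      cases s <;> simp [fl]
    · rcases b with ⟨i, s⟩
      cases s <;> simp [fl]
  refine hz.of_r (θ.symm' (θ.trans' (h4 _ _ (by omega)
    ((hw.trans ((hr.cons a).cons a)).trans ?_)) h1))
  exact List.Perm.cons _ (List.Perm.cons _ (List.perm_append_singleton b (b :: r)).symm)

private theorem d1_C11 {θ : FIC} (h4 : C4 θ) (hQ : Zero θ Q4)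
    (hS : θ.r (P4 ++ [X 4]) (P4 ++ [Y 4])) {u : Wd} (hl : 7 ≤ u.length) (hn : ¬ Lin u)
    (hz : ¬ Zero θ u) : ∃ (i : ℕ) (b : Bool), oc i u = 2 ∧ u.count (i, b) = 2 ∧
      ∀ j, j ≠ i → oc j u ≤ 1 := by
  rw [lin_iff] at hn
  push Not at hn
  obtain ⟨i, hi⟩ := hn
  have key : ∀ j, 2 ≤ oc j u → ∃ b : Bool, u.count (j, b) = 2 ∧ oc j u = 2 := by
    intro j hj
    have e := oc2_C11 j u
    have c : ∀ a : Lt, u.count a ≤ 2 := by
      intro a
      by_contra hc
      exact hz (three2_C11 h4 hQ hS (a := a) (by omega) (by omega))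
    have c1 := c (j, false)
    have c2 := c (j, true)
    rcases one_C11 h4 hQ j (by omega) hz with h | h
    · exact ⟨true, by omega, by omega⟩
    · exact ⟨false, by omega, by omega⟩
  obtain ⟨b, hb, hi2⟩ := key i (by omega)
  refine ⟨i, b, hi2, hb, fun j hj => ?_⟩
  by_contra hc
  obtain ⟨c, hc1, -⟩ := key j (by omega)
  exact hz (two2_C11 h4 hQ hS (a := (i, b)) (b := (j, c)) (by simp [Ne.symm hj]) (by omega)
    (by omega) (by omega))

private theorem case2_C11 {θ : FIC} (h4 : C4 θ) (hQ : Zero θ Q4)
    (hS : θ.r (P4 ++ [X 4]) (P4 ++ [Y 4])) : TD θ := by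
  refine ⟨fun u hl hn hz => ?_, ?_⟩
  · obtain ⟨i, b, h1, -, h2⟩ := d1_C11 h4 hQ hS hl hn hz
    exact ⟨i, h1, h2⟩
  · intro u v hl hn hu hv hp hf
    have hlv : 7 ≤ v.length := by
      have := hp.length_eq
      simp at this
      omega
    have hcount : ∀ i, oc i u = 2 → u.count (i, false) = v.count (i, false) := by
      intro i hi
      have h1 := hf i hi
      have hou := oc2_C11 i u
      have hov := oc2_C11 i v
      have ho := oc_perm hp i
      have o1 := one_C11 h4 hQ i (by omega) hu
      have o2 := one_C11 h4 hQ i (by omega) hv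
      by_contra hne
      have kk : ∀ w : Wd, oc i w = 2 → (w.count (i, false) = 0 ∨ w.count (i, true) = 0) →
          (w.count (i, false) = 2 → fs i w = false) ∧ (w.count (i, false) = 0 → fs i w = true) := by
        intro w hw ho
        have e := oc2_C11 i w
        constructor
        · intro h2
          exact fs_C11 (List.count_pos_iff.1 (by omega))
            (by simpa using List.count_eq_zero.1 (show w.count (i, true) = 0 by omega))
        · intro h2
          exact fs_C11 (List.count_pos_iff.1 (by omega))
            (by simpa using List.count_eq_zero.1 h2)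
      have ku := kk u hi o1
      have kv := kk v (by omega) o2
      rcases o1 with o1 | o1
      · have a1 := ku.2 o1
        have a2 := kv.1 (by omega)
        rw [a1, a2] at h1
        exact absurd h1 (by simp)
      · have a1 := ku.1 (by omega)
        have a2 := kv.2 (by omega)
        rw [a1, a2] at h1
        exact absurd h1 (by simp)
    refine ind_C11 h4 v (fun u => 7 ≤ u.length ∧ ¬ Lin u ∧ ¬ Zero θ u ∧
      (u.map Prod.fst).Perm (v.map Prod.fst) ∧
      ∀ i, oc i u = 2 → u.count (i, false) = v.count (i, false))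
      (fun u hu => ⟨by omega, hu.2.2.2.1⟩) ?_ u ⟨hl, hn, hu, hp, hcount⟩
    clear hcount hf hp hu hn hl u
    rintro u ⟨hl, hn, hu, hp, hcount⟩ j hj
    obtain ⟨i, b, hi, hib, hone⟩ := d1_C11 h4 hQ hS hl hn hu
    have hij : j ≠ i := by
      rintro rfl
      exact hj (hcount _ hi)
    have hj1 := hone j hij
    have hou := oc2_C11 j u
    have hov := oc2_C11 j v
    have ho := oc_perm hp j
    obtain ⟨s, hs, hsv⟩ : ∃ s : Bool, u.count (j, s) = 1 ∧ v.count (j, !s) = 1 := by
      by_cases h0 : u.count (j, false) = 0
      · refine ⟨true, ?_, ?_⟩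
        · omega
        · simp only [Bool.not_true]; omega
      · refine ⟨false, ?_, ?_⟩
        · omega
        · simp only [Bool.not_false]; omega
    obtain ⟨w, hw⟩ := pull2_C11 (u := u) (a := (i, b)) (by omega)
    have hjw : w.count (j, s) = 1 := by
      have := hw.count_eq (j, s)
      rw [List.count_cons, List.count_cons] at this
      simp [Ne.symm hij] at this
      omega
    have hmem : (j, s) ∈ w := List.count_pos_iff.1 (by omega)
    have hw2 : u.Perm ((i, b) :: (i, b) :: w.erase (j, s) ++ [(j, s)]) :=
      hw.trans (List.Perm.cons _ (List.Perm.cons _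
        ((List.perm_cons_erase hmem).trans (List.perm_append_singleton _ _).symm)))
    set r := w.erase (j, s) with hr
    have hlen := hw2.length_eq
    simp only [List.length_cons, List.length_append, List.cons_append, List.length_nil] at hlen
    have hrel : θ.r u ((i, b) :: (i, b) :: r ++ [(j, !s)]) :=
      θ.trans' (h4 _ _ (by omega) hw2) (s5_C11 hS (i, b) (j, s) r (by omega))
    have hmap : (u.map Prod.fst).Perm (((i, b) :: (i, b) :: r ++ [(j, !s)] : Wd).map Prod.fst) := by
      have := hw2.map Prod.fst
      simpa using this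
    have hcnt : ∀ k, k ≠ j → ((i, b) :: (i, b) :: r ++ [(j, !s)] : Wd).count (k, false) =
        u.count (k, false) := by
      intro k hkj
      rw [hw2.count_eq, List.count_append, List.count_append]
      congr 1
      rw [List.count_eq_zero.2, List.count_eq_zero.2]
      · simp [hkj]
      · simp [hkj]
    have hc0 : ((i, b) :: (i, b) :: r ++ [(j, !s)] : Wd).count (j, false) = v.count (j, false) := by
      have e1 : ((i, b) :: (i, b) :: r : Wd).count (j, s) = 0 := by
        have h1 := hw2.count_eq (j, s)
        rw [hs, List.count_append] at h1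
        simp only [List.count_singleton_self] at h1
        omega
      have e2 : ((i, b) :: (i, b) :: r : Wd).count (j, !s) = 0 := by
        have h1 := hw2.count_eq (j, !s)
        have h2 : u.count (j, !s) = 0 := by
          cases s
          · simp only [Bool.not_false]; omega
          · simp only [Bool.not_true]; omega
        rw [h2, List.count_append] at h1
        omega
      rw [List.count_append]
      cases s
      · rw [e1]
        simp only [Bool.not_false] at hsv ⊢
        have : v.count (j, false) = 0 := by omega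
        rw [this]
        simp
      · simp only [Bool.not_true] at hsv e2 ⊢
        rw [e2, hsv]
        simp
    refine ⟨_, hrel, ⟨?_, ?_, ?_, hmap.symm.trans hp, ?_⟩, hcnt, hc0⟩
    · simp only [List.length_cons, List.length_append, List.cons_append, List.length_nil]; omega
    · exact fun h => hn ((lin_perm hmap).2 h)
    · exact fun hz => hu (hz.of_r (θ.symm' hrel))
    · intro k hk
      by_cases hkj : k = j
      · rw [hkj]; exact hc0
      · rw [hcnt k hkj]
        refine hcount k ?_
        rw [oc_perm hmap k]
        exact hk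

private theorem sub2_C11 {θ : FIC} (h4 : C4 θ) (e : ℕ → Bool) (h : θ.r P4 (sg e P4)) (k : ℕ)
    (hk : k = 1 ∨ k = 2 ∨ k = 3) (he : e k = true) : θ.r (P4 ++ [X 4]) (P4 ++ [Y 4]) := by
  have hsg : sg e P4 = [(0, e 0), (0, e 0), (1, e 1), (2, e 2), (3, e 3)] := by
    simp [sg, P4, X]
  have h1 := θ.sub' (fun i => if i = k then [X k, X 4] else [X i])
    (fun i => by split_ifs <;> simp) h
  rw [hsg] at h1 h
  -- the substituted relation
  have h2 : θ.r (P4 ++ [X 4]) ([(0, e 0), (0, e 0), (1, e 1), (2, e 2), (3, e 3)] ++ [Y 4]) := by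
    refine θ.trans' (h4 _ _ (by simp [P4]) ?_) (θ.trans' h1 (h4 _ _ ?_ ?_))
    · rcases hk with rfl | rfl | rfl
      · simp [P4, X]; decide
      · simp [P4, X]; decide
      · simp [P4, X]; decide
    · refine le_trans ?_ (length_sb_ge _ (fun i => by split_ifs <;> simp) _)
      simp
    · generalize e 0 = b0 at *
      rcases hk with rfl | rfl | rfl
      · rw [he]
        generalize e 2 = b2 at *
        generalize e 3 = b3 at *
        cases b0 <;> cases b2 <;> cases b3 <;> decide
      · rw [he]
        generalize e 1 = b2 at *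
        generalize e 3 = b3 at *
        cases b0 <;> cases b2 <;> cases b3 <;> decide
      · rw [he]
        generalize e 1 = b2 at *
        generalize e 2 = b3 at *
        cases b0 <;> cases b2 <;> cases b3 <;> decide
  have h3 := θ.trans' (θ.symm' (θ.mulR [X 4] h)) h2
  have h5 := θ.rn 1 (fun i => if i = 4 then false else e i) h3
  simpa [P4, X, Y] using h5

theorem hC11 : StC11 := by
  intro θ hN h4 hQ e hp h
  by_cases hk : e 1 = true ∨ e 2 = true ∨ e 3 = true
  · right
    have hS : θ.r (P4 ++ [X 4]) (P4 ++ [Y 4]) := by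
      rcases hk with hk | hk | hk
      · exact sub2_C11 h4 e h 1 (by simp) hk
      · exact sub2_C11 h4 e h 2 (by simp) hk
      · exact sub2_C11 h4 e h 3 (by simp) hk
    exact case2_C11 h4 hQ hS
  · left
    push Not at hk
    simp only [ne_eq, Bool.not_eq_true] at hk
    obtain ⟨k1, k2, k3⟩ := hk
    have hsg : sg e P4 = [(0, e 0), (0, e 0), (1, e 1), (2, e 2), (3, e 3)] := by
      simp [sg, P4, X]
    rw [hsg, k1, k2, k3] at hp h
    have h0 : e 0 = true := by
      by_contra h0
      simp only [Bool.not_eq_true] at h0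
      rw [h0] at hp
      exact hp (List.Perm.refl _)
    rw [h0] at h
    exact case1_C11 h4 hQ h

end Helper1.IM
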