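import Pool.Agent.Helper1.IM.St2
import Pool.Agent.Helper99.IM.Tool

/-!
# Project IM, module C2: `xxyzt = 0` implies type R
-/

set_option autoImplicit false

namespace Helper1.IM

open T99

private theorem zero_C2 {θ : FIC} (h4 : C4 θ) (hz : Zero θ P4) {u : Wd} (hl : 5 ≤ u.length) {a : Lt}
    (ha : 2 ≤ u.count a) : Zero θ u := by
  obtain ⟨r, hr, hlen⟩ := ext_perm u [a, a] (by
    intro b hb
    have hb' : b = a := by simpa using hb
    subst hb'
    simpa using ha)
  simp only [List.length_cons, List.length_nil] at hlen
  obtain ⟨b, c, d, s, rfl⟩ : ∃ b c d s, r = b :: c :: d :: s := by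
    match r, hlen with
    | b :: c :: d :: s, _ => exact ⟨b, c, d, s, rfl⟩
    | [], h => simp at h; omega
    | [_], h => simp at h; omega
    | [_, _], h => simp at h; omega
  have h1 := hz.sb (fun i => if i = 0 then [a] else if i = 1 then [b] else if i = 2 then [c] else d :: s)
    (fun i => by split_ifs <;> simp)
  have h2 : sb (fun i => if i = 0 then [a] else if i = 1 then [b] else if i = 2 then [c] else d :: s) P4
      = [a, a] ++ b :: c :: d :: s := by
    simp [P4]
  rw [h2] at h1
  exact h1.of_r (θ.symm' (h4 _ _ (by omega) hr))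

theorem hC2 : StC2 := by
  intro θ h4 hz
  refine ⟨?_, ?_, ?_⟩
  · intro u v hl _ hp
    exact h4 u v (by omega) hp
  · intro u hl ⟨i, hi⟩
    rw [oc_count] at hi
    rcases Nat.lt_or_ge 1 (u.count (i, false)) with h | h
    · exact zero_C2 h4 hz (by omega) (a := (i, false)) h
    · exact zero_C2 h4 hz (by omega) (a := (i, true)) (by omega)
  · intro u v hl _ hu hv hs
    have hlv : 5 ≤ v.length := by
      have := hs.1.length_eq
      simp only [List.length_map] at this
      omega
    refine h4 u v (by omega) ?_
    rw [List.perm_iff_count]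
    have hcu : ∀ a, u.count a ≤ 1 := by
      intro a
      by_contra hc
      exact hu (zero_C2 h4 hz hl (a := a) (by omega))
    have hcv : ∀ a, v.count a ≤ 1 := by
      intro a
      by_contra hc
      exact hv (zero_C2 h4 hz hlv (a := a) (by omega))
    intro a
    rcases a with ⟨i, s⟩
    have ho := oc_perm hs.1 i
    have h2 := hs.2 i
    rw [oc_count, oc_count] at ho
    rw [oc_count] at h2
    have a1 := hcu (i, false)
    have a2 := hcu (i, true)
    have a3 := hcv (i, false)
    have a4 := hcv (i, true)
    rw [← List.count_pos_iff, ← List.count_pos_iff] at h2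
    cases s <;> omega

end Helper1.IM
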