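import Pool.Agent.Helper1.IM.St2

/-!
# Project IM: module C3
-/

set_option autoImplicit false
set_option linter.unusedSimpArgs false

namespace Helper1.IM

private theorem cc_C3 (c b : Lt) (l : Wd) :
    List.count c (b :: l) = List.count c l + (if b = c then 1 else 0) := by
  rw [List.count_cons]; simp [beq_iff_eq]

private theorem cr_C3 (c b : Lt) (n : ℕ) :
    List.count c (List.replicate n b) = n * (if b = c then 1 else 0) := by
  rw [List.count_replicate]; by_cases h : b = c <;> simp [h]

private theorem sr_C3 (f : ℕ → Wd) (i : ℕ) (s : Bool) (n : ℕ) (c : Lt) :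
    List.count c (sb f (List.replicate n (i, s))) =
      n * List.count c (if s then st (f i) else f i) := by
  induction n with
  | zero => simp
  | succ n ih => rw [List.replicate_succ, sb_cons, List.count_append, ih]; ring

private theorem rr_C3 (p : Equiv.Perm ℕ) (e : ℕ → Bool) (i : ℕ) (s : Bool) (n : ℕ) :
    rw' p e (List.replicate n (i, s)) = List.replicate n (p i, xor s (e i)) := by
  simp [rw']

/-- `x^m x'^j yzt` -/
private def V_C3 (m j : ℕ) : Wd := List.replicate m (X 0) ++ List.replicate j (Y 0) ++ [X 1, X 2, X 3]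

private theorem p3_C3 (θ : FIC) (hN : NilF θ) (h4 : C4 θ) (a : ℕ) (ha : 3 ≤ a)
    (hS : θ.r Q4 (List.replicate a (X 0) ++ [X 1, X 2, X 3])) :
    Zero θ (List.replicate (a + 1) (X 0) ++ [X 1, X 2, X 3]) := by
  have hS' : θ.r Q4 (List.replicate a (Y 0) ++ [X 1, X 2, X 3]) := by
    have h1 := θ.rn 1 (fun i => decide (i = 0)) hS
    have e1 : rw' 1 (fun i => decide (i = 0)) Q4 = [Y 0, X 0, X 1, X 2, X 3] := by
      simp [Q4, X, Y]
    have e2 : rw' 1 (fun i => decide (i = 0)) (List.replicate a (X 0) ++ [X 1, X 2, X 3]) =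
        List.replicate a (Y 0) ++ [X 1, X 2, X 3] := by
      rw [rw'_append, X, rr_C3]
      simp [X, Y]
    rw [e1, e2] at h1
    refine θ.trans' (h4 _ _ (by simp [Q4]) ?_) h1
    exact List.Perm.swap _ _ _
  have rule1 : ∀ m j, θ.r (V_C3 (m + 1) (j + 1)) (V_C3 (m + a) j) := by
    intro m j
    have h1 := θ.mulR (List.replicate m (X 0) ++ List.replicate j (Y 0)) hS
    refine θ.trans' (h4 _ (Q4 ++ (List.replicate m (X 0) ++ List.replicate j (Y 0)))
      (by simp [V_C3]; omega) ?_) (θ.trans' h1 (h4 _ _ (by simp; omega) ?_))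
    · exact List.perm_iff_count.2 fun c => by
        simp only [V_C3, Q4, List.count_append, cr_C3, cc_C3, List.count_nil]; ring
    · exact List.perm_iff_count.2 fun c => by
        simp only [V_C3, Q4, List.count_append, cr_C3, cc_C3, List.count_nil]; ring
  have rule2 : ∀ m j, θ.r (V_C3 (m + 1) (j + 1)) (V_C3 m (j + a)) := by
    intro m j
    have h1 := θ.mulR (List.replicate m (X 0) ++ List.replicate j (Y 0)) hS'
    refine θ.trans' (h4 _ (Q4 ++ (List.replicate m (X 0) ++ List.replicate j (Y 0)))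
      (by simp [V_C3]; omega) ?_) (θ.trans' h1 (h4 _ _ (by simp; omega) ?_))
    · exact List.perm_iff_count.2 fun c => by
        simp only [V_C3, Q4, List.count_append, cr_C3, cc_C3, List.count_nil]; ring
    · exact List.perm_iff_count.2 fun c => by
        simp only [V_C3, Q4, List.count_append, cr_C3, cc_C3, List.count_nil]; ring
  have ind : ∀ j m, θ.r (V_C3 (m + 1) j) (V_C3 (m + 1 + j * (a - 1)) 0) := by
    intro j
    induction j with
    | zero => intro m; simpa using θ.refl' _
    | succ j ih =>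
      intro m
      have h1 := rule1 m j
      have h2 := ih (m + a - 1)
      have e1 : m + a - 1 + 1 = m + a := by omega
      have e2 : m + a - 1 + 1 + j * (a - 1) = m + 1 + (j + 1) * (a - 1) := by
        rw [Nat.succ_mul]; omega
      rw [e2] at h2
      rw [e1] at h2
      exact θ.trans' h1 h2
  have key : θ.r (V_C3 (a + 1) 0) (V_C3 (0 + 1 + a * (a - 1)) 0) := by
    have h1 := rule2 1 0
    have h2 := rule1 1 0
    have h3 := ind a 0
    have e1 : 1 + a = a + 1 := by omega
    rw [e1] at h2
    have e3 : 0 + a = a := by omega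
    rw [e3] at h1
    exact θ.trans' (θ.symm' h2) (θ.trans' h1 h3)
  have hge : a + 1 < 0 + 1 + a * (a - 1) := by
    obtain ⟨b, rfl⟩ : ∃ b, a = b + 3 := ⟨a - 3, by omega⟩
    have : b + 3 - 1 = b + 2 := by omega
    rw [this]
    nlinarith
  obtain ⟨d, hd⟩ : ∃ d, 0 + 1 + a * (a - 1) = (a + 1) + (d + 1) := ⟨0 + 1 + a * (a - 1) - (a + 1) - 1, by omega⟩
  rw [hd] at key
  have hz : Zero θ (V_C3 (a + 1) 0) := by
    refine grow0 hN (a := []) (b := List.replicate (d + 1) (X 0)) (θ.trans' key (h4 _ _ (by simp [V_C3]; omega) ?_)) (by simp)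
    exact List.perm_iff_count.2 fun c => by
      simp only [V_C3, List.nil_append, List.count_append, cr_C3, cc_C3, List.count_nil]; ring
  simpa [V_C3] using hz

/-- `x^(α a) y^(β b) z^(γ c)` -/
private def W_C3 (a b c : ℕ) (α β γ : Bool) : Wd :=
  List.replicate a (0, α) ++ List.replicate b (1, β) ++ List.replicate c (2, γ)

private theorem swap_C3 (θ : FIC) (h4 : C4 θ) (a b c : ℕ) (α β γ : Bool)
    (h : θ.r Q3 (W_C3 a b c α β γ)) (hl : 4 ≤ a + b + c) : θ.r Q3 (W_C3 a c b α γ β) := by
  have h1 := θ.rn (Equiv.swap 1 2) (fun _ => false) h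
  have e1 : rw' (Equiv.swap 1 2) (fun _ => false) Q3 = [X 0, Y 0, X 2, X 1] := by
    have : (Equiv.swap 1 2 : Equiv.Perm ℕ) 0 = 0 := by decide
    simp [Q3, X, Y, this]
  have e2 : rw' (Equiv.swap 1 2) (fun _ => false) (W_C3 a b c α β γ) =
      List.replicate a (0, α) ++ List.replicate b (2, β) ++ List.replicate c (1, γ) := by
    have : (Equiv.swap 1 2 : Equiv.Perm ℕ) 0 = 0 := by decide
    unfold W_C3
    rw [rw'_append, rw'_append, rr_C3, rr_C3, rr_C3]
    simp [this]
  rw [e1, e2] at h1
  refine θ.trans' (h4 _ _ (by simp [Q3]) ?_) (θ.trans' h1 (h4 _ _ (by simp; omega) ?_))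
  · exact List.perm_iff_count.2 fun c => by
      simp only [Q3, List.count_append, cr_C3, cc_C3, List.count_nil]; ring
  · exact List.perm_iff_count.2 fun c => by
      simp only [W_C3, List.count_append, cr_C3, cc_C3, List.count_nil]; ring

/-- the substitution `y ↦ yt` -/
private def f_C3 (i : ℕ) : Wd := if i = 1 then [X 1, X 3] else [X i]

private theorem f_ne_C3 (i : ℕ) : f_C3 i ≠ [] := by
  unfold f_C3; split_ifs <;> simp

private theorem sub_C3 (θ : FIC) (h4 : C4 θ) (a b c : ℕ) (α β γ : Bool)
    (h : θ.r Q3 (W_C3 a b c α β γ)) (hl : 4 ≤ a + b + c) :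
    θ.r Q4 (W_C3 a b c α β γ ++ List.replicate b (3, β)) := by
  have h1 := θ.sub' f_C3 f_ne_C3 h
  have e1 : sb f_C3 Q3 = [X 0, Y 0, X 1, X 3, X 2] := by
    simp [Q3, f_C3]
  rw [e1] at h1
  refine θ.trans' (h4 _ _ (by simp [Q4]) ?_) (θ.trans' h1 (h4 _ _ ?_ ?_))
  · exact List.perm_iff_count.2 fun c => by
      simp only [Q4, List.count_append, cr_C3, cc_C3, List.count_nil]; ring
  · refine le_trans ?_ (length_sb_ge f_C3 f_ne_C3 _)
    simp [W_C3]; omega
  · refine List.perm_iff_count.2 fun c => ?_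
    simp only [W_C3, sb_append, List.count_append, sr_C3, cr_C3]
    cases α <;> cases β <;> cases γ <;> simp [f_C3, st, fl, X, cc_C3, mul_add] <;>
      split_ifs <;> omega

private theorem p2a_C3 (θ : FIC) (hN : NilF θ) (h4 : C4 θ) (a b c : ℕ) (α β γ : Bool)
    (h : θ.r Q3 (W_C3 a b c α β γ)) (hl : 4 ≤ a + b + c) (hb : 2 ≤ b) : Zero θ Q4 := by
  have h1 : θ.r Q4 (W_C3 a b c α β γ ++ [X 3]) := θ.mulR [X 3] h
  have h2 := sub_C3 θ h4 a b c α β γ h hl
  have h3 : θ.r (W_C3 a b c α β γ ++ [X 3]) (W_C3 a b c α β γ ++ List.replicate b (3, β)) :=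
    θ.trans' (θ.symm' h1) h2
  obtain ⟨d, rfl⟩ : ∃ d, b = d + 2 := ⟨b - 2, by omega⟩
  suffices hz : Zero θ (W_C3 a (d + 2) c α β γ ++ [X 3]) from hz.of_r (θ.symm' h1)
  cases β with
  | false =>
    refine grow0 hN (a := []) (b := List.replicate (d + 1) (X 3))
      (θ.trans' h3 (h4 _ _ (by simp [W_C3]; omega) ?_)) (by simp)
    exact List.perm_iff_count.2 fun c => by
      simp only [W_C3, X, List.nil_append, List.count_append, cr_C3, cc_C3, List.count_nil]; ring
  | true =>
    have h5 := θ.rn 1 (fun i => decide (i = 3)) h3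
    have e1 : rw' 1 (fun i => decide (i = 3)) (W_C3 a (d + 2) c α true γ) = W_C3 a (d + 2) c α true γ := by
      unfold W_C3
      rw [rw'_append, rw'_append, rr_C3, rr_C3, rr_C3]
      simp
    rw [rw'_append, rw'_append, e1, rr_C3] at h5
    have e2 : rw' 1 (fun i => decide (i = 3)) [X 3] = [Y 3] := by simp [X, Y]
    rw [e2] at h5
    have e3 : ((1 : Equiv.Perm ℕ) 3, xor true (decide (3 = 3))) = X 3 := by simp [X]
    rw [e3] at h5
    have h6 := θ.mulR (List.replicate (d + 1) (Y 3)) h5
    refine grow0 hN (a := []) (b := List.replicate (d + 1) (X 3) ++ List.replicate (d + 1) (Y 3))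
      (θ.trans' h3 (θ.trans' (h4 _ _ (by simp [W_C3]; omega) ?_)
        (θ.trans' h6 (h4 _ _ (by simp [W_C3]; omega) ?_)))) (by simp)
    · exact List.perm_iff_count.2 fun c => by
        simp only [W_C3, Y, List.nil_append, List.count_append, cr_C3, cc_C3, List.count_nil]; ring
    · exact List.perm_iff_count.2 fun c => by
        simp only [W_C3, X, Y, List.nil_append, List.count_append, cr_C3, cc_C3, List.count_nil]; ring

private theorem p2b_C3 (θ : FIC) (h4 : C4 θ) (a : ℕ) (ha : 3 ≤ a) (β γ : Bool)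
    (h : θ.r Q3 (W_C3 a 1 1 false β γ)) (hβ : β = true) :
    θ.r Q4 (List.replicate a (X 0) ++ [X 1, X 2, X 3]) := by
  subst hβ
  have h1 : θ.r Q4 (W_C3 a 1 1 false true γ ++ [X 3]) := θ.mulR [X 3] h
  have h2 := sub_C3 θ h4 a 1 1 false true γ h (by omega)
  -- star the letter 3
  have h3 : θ.r Q4 [X 0, Y 0, X 1, X 2, Y 3] := by
    have h5 := θ.rn 1 (fun i => decide (i = 3)) h2
    have e1 : rw' 1 (fun i => decide (i = 3)) (W_C3 a 1 1 false true γ) = W_C3 a 1 1 false true γ := by
      unfold W_C3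
      rw [rw'_append, rw'_append, rr_C3, rr_C3, rr_C3]
      simp
    have e2 : rw' 1 (fun i => decide (i = 3)) Q4 = [X 0, Y 0, X 1, X 2, Y 3] := by simp [Q4, X, Y]
    have e3 : ((1 : Equiv.Perm ℕ) 3, xor true (decide (3 = 3))) = X 3 := by simp [X]
    rw [rw'_append, e1, rr_C3, e2, e3] at h5
    exact θ.trans' h1 (θ.symm' h5)
  -- star the letter 1
  have h6 : θ.r Q4 [X 0, Y 0, Y 1, X 2, X 3] := by
    have h7 := θ.rn (Equiv.swap 1 3) (fun _ => false) h3
    have s0 : (Equiv.swap 1 3 : Equiv.Perm ℕ) 0 = 0 := by decide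
    have s2 : (Equiv.swap 1 3 : Equiv.Perm ℕ) 2 = 2 := by decide
    have e1 : rw' (Equiv.swap 1 3) (fun _ => false) Q4 = [X 0, Y 0, X 3, X 2, X 1] := by
      simp [Q4, X, Y, s0, s2]
    have e2 : rw' (Equiv.swap 1 3) (fun _ => false) [X 0, Y 0, X 1, X 2, Y 3] = [X 0, Y 0, X 3, X 2, Y 1] := by
      simp [X, Y, s0, s2]
    rw [e1, e2] at h7
    refine θ.trans' (h4 _ _ (by simp [Q4]) ?_) (θ.trans' h7 (h4 _ _ (by simp) ?_))
    · exact List.perm_iff_count.2 fun c => by
        simp only [Q4, List.count_append, cr_C3, cc_C3, List.count_nil]; ring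
    · exact List.perm_iff_count.2 fun c => by
        simp only [Q4, List.count_append, cr_C3, cc_C3, List.count_nil]; ring
  -- star the letter 2
  have h8 : θ.r Q4 [X 0, Y 0, X 1, Y 2, X 3] := by
    have h7 := θ.rn (Equiv.swap 2 3) (fun _ => false) h3
    have s0 : (Equiv.swap 2 3 : Equiv.Perm ℕ) 0 = 0 := by decide
    have s2 : (Equiv.swap 2 3 : Equiv.Perm ℕ) 1 = 1 := by decide
    have e1 : rw' (Equiv.swap 2 3) (fun _ => false) Q4 = [X 0, Y 0, X 1, X 3, X 2] := by
      simp [Q4, X, Y, s0, s2]
    have e2 : rw' (Equiv.swap 2 3) (fun _ => false) [X 0, Y 0, X 1, X 2, Y 3] = [X 0, Y 0, X 1, X 3, Y 2] := by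
      simp [X, Y, s0, s2]
    rw [e1, e2] at h7
    refine θ.trans' (h4 _ _ (by simp [Q4]) ?_) (θ.trans' h7 (h4 _ _ (by simp) ?_))
    · exact List.perm_iff_count.2 fun c => by
        simp only [Q4, List.count_append, cr_C3, cc_C3, List.count_nil]; ring
    · exact List.perm_iff_count.2 fun c => by
        simp only [Q4, List.count_append, cr_C3, cc_C3, List.count_nil]; ring
  have h9 : θ.r Q4 [X 0, Y 0, Y 1, (2, γ), X 3] := by
    cases γ with
    | false => exact h6
    | true =>
      have h10 := θ.rn 1 (fun i => decide (i = 1)) h8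
      have e1 : rw' 1 (fun i => decide (i = 1)) Q4 = [X 0, Y 0, Y 1, X 2, X 3] := by simp [Q4, X, Y]
      have e2 : rw' 1 (fun i => decide (i = 1)) [X 0, Y 0, X 1, Y 2, X 3] = [X 0, Y 0, Y 1, Y 2, X 3] := by
        simp [X, Y]
      rw [e1, e2] at h10
      exact θ.trans' h6 h10
  have h11 := θ.rn 1 (fun i => decide (i = 1) || (decide (i = 2) && γ)) h1
  have e1 : rw' 1 (fun i => decide (i = 1) || (decide (i = 2) && γ)) Q4 = [X 0, Y 0, Y 1, (2, γ), X 3] := by
    simp [Q4, X, Y]
  have e2 : rw' 1 (fun i => decide (i = 1) || (decide (i = 2) && γ)) (W_C3 a 1 1 false true γ ++ [X 3]) =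
      List.replicate a (X 0) ++ [X 1, X 2, X 3] := by
    unfold W_C3
    rw [rw'_append, rw'_append, rw'_append, rr_C3, rr_C3, rr_C3]
    simp [X]
  rw [e1, e2] at h11
  exact θ.trans' h9 h11

/-- Module C3. -/
theorem hC3 : StC3 := by
  intro θ hN h4 hK
  have hct : ct Q3 = {0, 1, 2} := by decide
  rcases hK.long hN (by rw [hct]; decide) with hz | ⟨w, hw, hlw, hcw⟩
  · left
    exact hz.mulR [X 3]
  rw [hct] at hcw
  by_cases hb : ∃ b, (b, false) ∈ w ∧ (b, true) ∈ w
  · -- a letter with both signs
    left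
    obtain ⟨b, hb1, hb2⟩ := hb
    suffices hz : Zero θ Q3 from hz.mulR [X 3]
    have hbm : b ∈ ({0, 1, 2} : Finset ℕ) := by
      rw [← hcw]; exact mem_ct.2 ⟨_, hb1⟩
    have hp : ∀ i ∈ ({0, 1, 2} : Finset ℕ), Equiv.swap 0 b i ∈ ct w := by
      rw [hcw]
      fin_cases hbm <;> decide
    obtain ⟨s, hs⟩ := mem_ct.1 (hp 1 (by decide))
    obtain ⟨s', hs'⟩ := mem_ct.1 (hp 2 (by decide))
    set p : Equiv.Perm ℕ := Equiv.swap 0 b with hpd
    have p0 : p 0 = b := Equiv.swap_apply_left _ _
    have n1 : p 1 ≠ b := fun h => by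
      have := p.injective (h.trans p0.symm); omega
    have n2 : p 2 ≠ b := fun h => by
      have := p.injective (h.trans p0.symm); omega
    have n3 : p 2 ≠ p 1 := fun h => by
      have := p.injective h; omega
    have m2 : (b, true) ∈ w.erase (b, false) := (List.mem_erase_of_ne (by simp)).2 hb2
    have m3 : (p 1, s) ∈ (w.erase (b, false)).erase (b, true) :=
      (List.mem_erase_of_ne (by simp [n1])).2 ((List.mem_erase_of_ne (by simp [n1])).2 hs)
    have m4 : (p 2, s') ∈ ((w.erase (b, false)).erase (b, true)).erase (p 1, s) :=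
      (List.mem_erase_of_ne (by simp [n3])).2 ((List.mem_erase_of_ne (by simp [n2])).2
        ((List.mem_erase_of_ne (by simp [n2])).2 hs'))
    have q1 := List.perm_cons_erase hb1
    have q2 := List.perm_cons_erase m2
    have q3 := List.perm_cons_erase m3
    have q4 := List.perm_cons_erase m4
    set r := (((w.erase (b, false)).erase (b, true)).erase (p 1, s)).erase (p 2, s') with hr
    have q : w.Perm ((b, false) :: (b, true) :: (p 1, s) :: (p 2, s') :: r) :=
      q1.trans ((q2.trans ((q3.trans (q4.cons _)).cons _)).cons _)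
    have hrl : r ≠ [] := by
      intro h
      have := q.length_eq
      rw [h] at this
      simp at this
      omega
    set e : ℕ → Bool := fun i => if i = 1 then s else if i = 2 then s' else false with he
    have e1 : rw' p e Q3 = [(b, false), (b, true), (p 1, s), (p 2, s')] := by
      simp [Q3, X, Y, he, p0]
    refine grow hN (a := []) (b := r) p e ?_ (by simpa using hrl)
    rw [e1]
    exact θ.trans' hw (h4 _ _ (by omega) (by simpa using q))
  · push Not at hb
    -- every letter has one sign only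
    have hσ : ∀ i, ∃ s : Bool, (i, !s) ∉ w := by
      intro i
      by_cases h : (i, false) ∈ w
      · exact ⟨false, by simpa using hb i h⟩
      · exact ⟨true, by simpa using h⟩
    choose σ hσ using hσ
    have hpw : w.Perm (W_C3 (w.count (0, σ 0)) (w.count (1, σ 1)) (w.count (2, σ 2)) (σ 0) (σ 1) (σ 2)) := by
      refine List.perm_iff_count.2 fun c => ?_
      obtain ⟨i, s⟩ := c
      simp only [W_C3, List.count_append, cr_C3]
      by_cases hi : i ∈ ({0, 1, 2} : Finset ℕ)
      · by_cases hs : s = σ i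
        · subst hs
          fin_cases hi <;> simp
        · have hs' : s = !(σ i) := by
            cases s <;> cases hσi : σ i <;> simp_all
          have h0 : w.count (i, s) = 0 := by
            rw [List.count_eq_zero, hs']; exact hσ i
          rw [h0]
          have hs2 : ¬ σ i = s := fun h => hs h.symm
          fin_cases hi <;> simp at hs2 ⊢ <;> simp [hs2]
      · have h0 : w.count (i, s) = 0 := by
          rw [List.count_eq_zero]
          intro h
          apply hi
          rw [← hcw]
          exact mem_ct.2 ⟨s, h⟩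
        rw [h0]
        simp only [Finset.mem_insert, Finset.mem_singleton, not_or] at hi
        have i0 : ¬ (0 = i) := fun h => hi.1 h.symm
        have i1 : ¬ (1 = i) := fun h => hi.2.1 h.symm
        have i2 : ¬ (2 = i) := fun h => hi.2.2 h.symm
        simp [i0, i1, i2]
    have hpos : ∀ i ∈ ({0, 1, 2} : Finset ℕ), 1 ≤ w.count (i, σ i) := by
      intro i hi
      rw [← hcw] at hi
      obtain ⟨s, hs⟩ := mem_ct.1 hi
      have : s = σ i := by
        by_contra hne
        have hs' : s = !(σ i) := by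
          cases s <;> cases hσi : σ i <;> simp_all
        rw [hs'] at hs
        exact hσ i hs
      rw [← this]
      exact List.count_pos_iff.2 hs
    have c0 := hpos 0 (by decide)
    have c1 := hpos 1 (by decide)
    have c2 := hpos 2 (by decide)
    have hlen := hpw.length_eq
    simp only [W_C3, List.length_append, List.length_replicate] at hlen
    have hw' := θ.trans' hw (h4 _ _ (by omega) hpw)
    generalize w.count (0, σ 0) = a at *
    generalize w.count (1, σ 1) = b at *
    generalize w.count (2, σ 2) = c at *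
    generalize σ 0 = α at *
    generalize σ 1 = β at *
    generalize σ 2 = γ at *
    by_cases hb2 : 2 ≤ b
    · left
      exact p2a_C3 θ hN h4 a b c _ _ _ hw' (by omega) hb2
    by_cases hc2 : 2 ≤ c
    · left
      exact p2a_C3 θ hN h4 a c b _ _ _ (swap_C3 θ h4 _ _ _ _ _ _ hw' (by omega)) (by omega) hc2
    obtain rfl : b = 1 := by omega
    obtain rfl : c = 1 := by omega
    have ha : 3 ≤ a := by omega
    right
    -- star the letter 0
    have h0 : θ.r Q3 (W_C3 a 1 1 false β γ) := by
      cases α with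
      | false => exact hw'
      | true =>
        have h1 := θ.rn 1 (fun i => decide (i = 0)) hw'
        have e1 : rw' 1 (fun i => decide (i = 0)) Q3 = [Y 0, X 0, X 1, X 2] := by
          simp [Q3, X, Y]
        have e2 : rw' 1 (fun i => decide (i = 0)) (W_C3 a 1 1 true β γ) = W_C3 a 1 1 false β γ := by
          unfold W_C3
          rw [rw'_append, rw'_append, rr_C3, rr_C3, rr_C3]
          simp
        rw [e1, e2] at h1
        exact θ.trans' (h4 _ _ (by simp [Q3]) (List.Perm.swap _ _ _)) h1
    have hS : θ.r Q4 (List.replicate a (X 0) ++ [X 1, X 2, X 3]) := by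
      cases β with
      | true => exact p2b_C3 θ h4 a ha true γ h0 rfl
      | false =>
        cases γ with
        | true => exact p2b_C3 θ h4 a ha true false (swap_C3 θ h4 _ _ _ _ _ _ h0 (by omega)) rfl
        | false =>
          have h1 := θ.mulR [X 3] h0
          have e : W_C3 a 1 1 false false false ++ [X 3] = List.replicate a (X 0) ++ [X 1, X 2, X 3] := by
            simp [W_C3, X]
          rw [e] at h1
          exact h1
    exact ⟨a, ha, hS, p3_C3 θ hN h4 a ha hS⟩

end Helper1.IM
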