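import Pool.Agent.Helper1.IM.St2

/-! Module C4m of project IM: the link between P type and Q type words implies type S. -/

set_option autoImplicit false

namespace Helper1.IM

/-- `xxyz θ xx'y'z^γ` implies `P4 θ Q4`. -/
private theorem caseB_C4m {θ : FIC} (hC : C4 θ) (c : Bool)
    (h : θ.r [X 0, X 0, X 1, X 2] [X 0, Y 0, Y 1, (2, c)]) : θ.r P4 Q4 := by
  -- multiply by the letter 3
  have h1 : θ.r [X 0, X 0, X 1, X 2, X 3] [X 0, Y 0, Y 1, (2, c), X 3] := by
    have := θ.mulR [X 3] h
    simpa using this
  -- substitute y by yt
  set f : ℕ → Wd := fun i => if i = 1 then [X 1, X 3] else [X i] with hf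
  have h2 : θ.r [X 0, X 0, X 1, X 3, X 2] [X 0, Y 0, Y 3, Y 1, (2, c)] := by
    have h3 := θ.sub' f (fun i => by by_cases hi : i = 1 <;> simp [hf, hi]) h
    have e1 : sb f [X 0, X 0, X 1, X 2] = [X 0, X 0, X 1, X 3, X 2] := by
      simp [hf]
    have e2 : sb f [X 0, Y 0, Y 1, (2, c)] = [X 0, Y 0, Y 3, Y 1, (2, c)] := by
      rw [sb_X, sb_Y, sb_Y, sb_single]
      cases c <;> simp [hf, X, Y, st, fl]
    rwa [e1, e2] at h3
  have h4 : θ.r [X 0, Y 0, Y 1, (2, c), X 3] [X 0, Y 0, Y 1, (2, c), Y 3] := by
    refine θ.trans' (θ.symm' h1) (θ.trans' ?_ (θ.trans' h2 ?_))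
    · exact hC _ _ (by simp) (by
        rw [List.perm_iff_count]
        intro a
        simp only [List.count_cons, List.count_nil]
        ring)
    · exact hC _ _ (by simp) (by
        rw [List.perm_iff_count]
        intro a
        simp only [List.count_cons, List.count_nil]
        ring)
  -- the sign of the last letter is free
  have h5 : ∀ c' : Bool, θ.r [X 0, Y 0, X 1, (2, c'), X 3] [X 0, Y 0, X 1, (2, c'), Y 3] := by
    intro c'
    have h6 := θ.rn 1 (fun i => if i = 1 then true else if i = 2 then xor c c' else false) h4
    have e1 : rw' 1 (fun i => if i = 1 then true else if i = 2 then xor c c' else false)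
        [X 0, Y 0, Y 1, (2, c), X 3] = [X 0, Y 0, X 1, (2, c'), X 3] := by
      cases c <;> cases c' <;> rfl
    have e2 : rw' 1 (fun i => if i = 1 then true else if i = 2 then xor c c' else false)
        [X 0, Y 0, Y 1, (2, c), Y 3] = [X 0, Y 0, X 1, (2, c'), Y 3] := by
      cases c <;> cases c' <;> rfl
    rwa [e1, e2] at h6
  -- the sign of the second letter is free
  have h7 : θ.r [X 0, Y 0, Y 1, X 2, X 3] Q4 := by
    have h8 := θ.rn (Equiv.swap 1 3) (fun _ => false) (h5 false)
    have e1 : rw' (Equiv.swap 1 3) (fun _ => false) [X 0, Y 0, X 1, (2, false), X 3] =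
        [X 0, Y 0, X 3, X 2, X 1] := by
      simp only [rw'_cons, rw'_nil, X, Y, Bool.xor_false]
      decide
    have e2 : rw' (Equiv.swap 1 3) (fun _ => false) [X 0, Y 0, X 1, (2, false), Y 3] =
        [X 0, Y 0, X 3, X 2, Y 1] := by
      simp only [rw'_cons, rw'_nil, X, Y, Bool.xor_false]
      decide
    rw [e1, e2] at h8
    refine θ.trans' ?_ (θ.trans' (θ.symm' h8) ?_)
    · exact hC _ _ (by simp) (by
        rw [List.perm_iff_count]
        intro a
        simp only [List.count_cons, List.count_nil]
        ring)
    · exact hC _ _ (by simp) (by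
        rw [List.perm_iff_count]
        intro a
        simp only [Q4, List.count_cons, List.count_nil]
        ring)
  -- the sign of the third letter is free
  have h9 : θ.r [X 0, Y 0, Y 1, (2, c), X 3] [X 0, Y 0, Y 1, X 2, X 3] := by
    have h8 := θ.rn (Equiv.swap 2 3) (fun i => if i = 1 then true else false) (h5 false)
    have e1 : rw' (Equiv.swap 2 3) (fun i => if i = 1 then true else false)
        [X 0, Y 0, X 1, (2, false), X 3] = [X 0, Y 0, Y 1, X 3, X 2] := by
      simp only [rw'_cons, rw'_nil, X, Y]
      decide
    have e2 : rw' (Equiv.swap 2 3) (fun i => if i = 1 then true else false)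
        [X 0, Y 0, X 1, (2, false), Y 3] = [X 0, Y 0, Y 1, X 3, Y 2] := by
      simp only [rw'_cons, rw'_nil, X, Y]
      decide
    rw [e1, e2] at h8
    cases c
    · exact θ.refl' _
    · refine θ.trans' ?_ (θ.trans' (θ.symm' h8) ?_)
      · exact hC _ _ (by simp) (by
          rw [List.perm_iff_count]
          intro a
          simp only [Y, List.count_cons, List.count_nil]
          ring)
      · exact hC _ _ (by simp) (by
          rw [List.perm_iff_count]
          intro a
          simp only [List.count_cons, List.count_nil]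
          ring)
  exact θ.trans' h1 (θ.trans' h9 h7)

/-- The link implies `P4 θ Q4`. -/
private theorem link_C4m {θ : FIC} (hC : C4 θ) (b c : Bool)
    (h : θ.r [X 0, X 0, X 1, X 2] [X 0, Y 0, (1, b), (2, c)]) : θ.r P4 Q4 := by
  cases b
  · cases c
    · have := θ.mulR [X 3] h
      simpa [P4, Q4, X] using this
    · -- exchange 1 and 2
      have h8 := θ.rn (Equiv.swap 1 2) (fun _ => false) h
      have e1 : rw' (Equiv.swap 1 2) (fun _ => false) [X 0, X 0, X 1, X 2] =
          [X 0, X 0, X 2, X 1] := by
        simp only [rw'_cons, rw'_nil, X, Bool.xor_false]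
        decide
      have e2 : rw' (Equiv.swap 1 2) (fun _ => false) [X 0, Y 0, (1, false), (2, true)] =
          [X 0, Y 0, X 2, Y 1] := by
        simp only [rw'_cons, rw'_nil, X, Y, Bool.xor_false]
        decide
      rw [e1, e2] at h8
      refine caseB_C4m hC false ?_
      refine θ.trans' ?_ (θ.trans' h8 ?_)
      · exact hC _ _ (by simp) (by
          rw [List.perm_iff_count]
          intro a
          simp only [List.count_cons, List.count_nil]
          ring)
      · exact hC _ _ (by simp) (by
          rw [List.perm_iff_count]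
          intro a
          simp only [X, List.count_cons, List.count_nil]
          ring)
  · exact caseB_C4m hC c h

/-- Instances of `P4 θ Q4`. -/
private theorem inst_C4m {θ : FIC} (hC : C4 θ) (h : θ.r P4 Q4) (i : ℕ) (b b' : Bool) (r : Wd)
    (hr : 3 ≤ r.length) : θ.r ((i, b) :: (i, b') :: r) (X i :: Y i :: r) := by
  match r, hr with
  | r1 :: r2 :: r3 :: rest, _ =>
    set g : ℕ → Wd := fun j => match j with
      | 0 => [X i]
      | 1 => [r1]
      | 2 => [r2]
      | _ => r3 :: rest with hg
    have hgn : ∀ j, g j ≠ [] := by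
      intro j
      match j with
      | 0 => simp [hg]
      | 1 => simp [hg]
      | 2 => simp [hg]
      | (_ + 3) => simp [hg]
    have e1 : sb g P4 = X i :: X i :: r1 :: r2 :: r3 :: rest := by
      simp [P4, sb, X, hg]
    have e2 : sb g Q4 = X i :: Y i :: r1 :: r2 :: r3 :: rest := by
      simp [Q4, sb, X, Y, hg, fl, st]
    have h1 := θ.sub' g hgn h
    rw [e1, e2] at h1
    -- the starred version
    have h' := θ.rn 1 (fun j => if j = 0 then true else false) h
    have f1 : rw' 1 (fun j => if j = 0 then true else false) P4 = [Y 0, Y 0, X 1, X 2, X 3] := rfl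
    have f2 : rw' 1 (fun j => if j = 0 then true else false) Q4 = [Y 0, X 0, X 1, X 2, X 3] := rfl
    rw [f1, f2] at h'
    have h2 := θ.sub' g hgn h'
    have e3 : sb g [Y 0, Y 0, X 1, X 2, X 3] = Y i :: Y i :: r1 :: r2 :: r3 :: rest := by
      simp [sb, X, Y, hg, fl, st]
    have e4 : sb g [Y 0, X 0, X 1, X 2, X 3] = Y i :: X i :: r1 :: r2 :: r3 :: rest := by
      simp [sb, X, Y, hg, fl, st]
    rw [e3, e4] at h2
    have h3 : θ.r (Y i :: X i :: r1 :: r2 :: r3 :: rest) (X i :: Y i :: r1 :: r2 :: r3 :: rest) :=
      hC _ _ (by simp) (List.Perm.swap _ _ _)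
    cases b
    · cases b'
      · exact h1
      · exact θ.refl' _
    · cases b'
      · exact h3
      · exact θ.trans' h2 h3

/-- Remove the signs of the letters in `D`. -/
private def N_C4m (D : ℕ → Prop) [DecidablePred D] (l : Wd) : Wd :=
  l.map (fun a => if D a.1 then (a.1, false) else a)

private theorem norm_C4m {θ : FIC} (hC : C4 θ) (h : θ.r P4 Q4) (D : ℕ → Prop) [DecidablePred D]
    (l : Wd) : ∀ m : Wd, (∀ i, D i → 2 ≤ oc i (l ++ m)) → 5 ≤ (l ++ m).length →
    θ.r (l ++ m) (N_C4m D l ++ m) := by
  induction l with
  | nil => intro m _ _; exact θ.refl' _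
  | cons a l ih =>
    intro m hD hl
    have hperm : ∀ (x : Lt) (l' m' : Wd), (x :: l' ++ m').Perm (l' ++ (x :: m')) := by
      intro x l' m'
      rw [List.cons_append]
      exact List.perm_middle.symm
    by_cases ha : D a.1
    · -- change the sign of `a`
      have h1 : θ.r (a :: l ++ m) ((a.1, false) :: l ++ m) := by
        have h2 := hD a.1 ha
        rw [List.cons_append, oc_cons, if_pos rfl] at h2
        have h3 : a.1 ∈ ct (l ++ m) := oc_pos.1 (by omega)
        obtain ⟨b', hb'⟩ := mem_ct.1 h3
        have h4 : (l ++ m).Perm ((a.1, b') :: (l ++ m).erase (a.1, b')) := List.perm_cons_erase hb'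
        set r := (l ++ m).erase (a.1, b') with hr
        have h5 := h4.length_eq
        simp only [List.length_cons, List.length_append] at h5 hl
        have hrl : 3 ≤ r.length := by omega
        have h6 : (a :: l ++ m).Perm ((a.1, a.2) :: (a.1, b') :: r) := h4.cons a
        have h7 : ((a.1, false) :: l ++ m).Perm ((a.1, false) :: (a.1, b') :: r) := h4.cons _
        have h8 : 4 ≤ (a :: l ++ m).length := by
          simp only [List.length_cons, List.length_append]
          omega
        have h9 : 4 ≤ ((a.1, false) :: l ++ m).length := by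
          simp only [List.length_cons, List.length_append]
          omega
        refine θ.trans' (hC _ _ h8 h6) (θ.trans' (inst_C4m hC h a.1 a.2 b' r hrl)
          (θ.symm' (θ.trans' (hC _ _ h9 h7) (inst_C4m hC h a.1 false b' r hrl))))
      have h2 : θ.r (l ++ ((a.1, false) :: m)) (N_C4m D l ++ ((a.1, false) :: m)) := by
        apply ih
        · intro i hi
          have h3 := hD i hi
          rw [List.cons_append, oc_cons, oc_append] at h3
          rw [oc_append, oc_cons]
          dsimp only
          omega
        · simp only [List.length_cons, List.length_append] at hl ⊢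
          omega
      have hN : N_C4m D (a :: l) ++ m = (a.1, false) :: N_C4m D l ++ m := by
        simp [N_C4m, ha]
      rw [hN]
      refine θ.trans' h1 (θ.trans' (hC _ _ ?_ (hperm _ _ _)) (θ.trans' h2 (hC _ _ ?_
        (hperm _ _ _).symm)))
      · simp only [List.length_cons, List.length_append] at hl ⊢
        omega
      · simp only [List.length_cons, List.length_append, N_C4m, List.length_map] at hl ⊢
        omega
    · have h2 : θ.r (l ++ (a :: m)) (N_C4m D l ++ (a :: m)) := by
        apply ih
        · intro i hi
          have h3 := hD i hi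
          rw [List.cons_append, oc_cons, oc_append] at h3
          rw [oc_append, oc_cons]
          omega
        · simp only [List.length_cons, List.length_append] at hl ⊢
          omega
      have hN : N_C4m D (a :: l) ++ m = a :: N_C4m D l ++ m := by
        simp [N_C4m, ha]
      rw [hN]
      refine θ.trans' (hC _ _ ?_ (hperm _ _ _)) (θ.trans' h2 (hC _ _ ?_
        (hperm _ _ _).symm))
      · simp only [List.length_cons, List.length_append] at hl ⊢
        omega
      · simp only [List.length_cons, List.length_append, N_C4m, List.length_map] at hl ⊢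
        omega

private theorem oc_count_C4m (i : ℕ) (w : Wd) : oc i w = w.count (i, false) + w.count (i, true) := by
  induction w with
  | nil => rfl
  | cons a w ih =>
    rw [oc_cons, List.count_cons, List.count_cons, ih]
    rcases a with ⟨j, b⟩
    by_cases hj : j = i
    · subst hj
      cases b <;> simp <;> omega
    · simp [hj]

private theorem count_N_C4m (D : ℕ → Prop) [DecidablePred D] (i : ℕ) (b : Bool) (l : Wd) :
    (N_C4m D l).count (i, b) = if D i then (if b = false then oc i l else 0) else l.count (i, b) := by
  induction l with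
  | nil => simp [N_C4m]
  | cons a l ih =>
    have e : N_C4m D (a :: l) = (if D a.1 then (a.1, false) else a) :: N_C4m D l := rfl
    rw [e, List.count_cons, ih, oc_cons, List.count_cons]
    rcases a with ⟨j, c⟩
    by_cases hj : j = i
    · subst hj
      by_cases hD : D j
      · cases b <;> simp [hD, add_comm]
      · simp [hD]
    · by_cases hD : D j
      · by_cases hDi : D i
        · cases b <;> simp [hD, hDi, hj]
        · simp [hD, hDi, hj]
      · by_cases hDi : D i
        · cases b <;> simp [hD, hDi, hj]
        · simp [hD, hDi, hj]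

theorem hC4m : StC4m := by
  intro θ hC p e hp hct hr
  -- shape of the right side
  have hPQ : θ.r P4 Q4 := by
    have h1 : rw' p e Q3 = [(0, e 0), (0, !(e 0)), (p 1, e 1), (p 2, e 2)] := by
      simp [Q3, X, Y, hp]
    have h2 : ct P3 = {0, 1, 2} := by decide
    rw [h2, h1] at hct
    have hp1 : p 1 = 1 ∨ p 1 = 2 := by
      have h3 : p 1 ∈ ({0, 1, 2} : Finset ℕ) := by
        rw [← hct]
        simp
      simp only [Finset.mem_insert, Finset.mem_singleton] at h3
      rcases h3 with h3 | h3 | h3
      · exfalso
        have : (1 : ℕ) = 0 := p.injective (by rw [h3, hp])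
        omega
      · exact Or.inl h3
      · exact Or.inr h3
    have hp2 : p 2 = 1 ∨ p 2 = 2 := by
      have h3 : p 2 ∈ ({0, 1, 2} : Finset ℕ) := by
        rw [← hct]
        simp
      simp only [Finset.mem_insert, Finset.mem_singleton] at h3
      rcases h3 with h3 | h3 | h3
      · exfalso
        have : (2 : ℕ) = 0 := p.injective (by rw [h3, hp])
        omega
      · exact Or.inl h3
      · exact Or.inr h3
    have hp12 : p 1 ≠ p 2 := fun h => by
      have : (1 : ℕ) = 2 := p.injective h
      omega
    rw [h1] at hr
    -- normalise the first two letters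
    have hx : ∀ (c d : Lt), θ.r [(0, e 0), (0, !(e 0)), c, d] [X 0, Y 0, c, d] := by
      intro c d
      cases e 0
      · exact θ.refl' _
      · exact hC _ _ (by simp) (List.Perm.swap _ _ _)
    have hr2 : θ.r [X 0, X 0, X 1, X 2] [X 0, Y 0, (p 1, e 1), (p 2, e 2)] :=
      θ.trans' hr (hx _ _)
    rcases hp1 with h3 | h3
    · have h4 : p 2 = 2 := by
        rcases hp2 with h4 | h4
        · exact absurd (h3.trans h4.symm) hp12
        · exact h4
      rw [h3, h4] at hr2
      exact link_C4m hC _ _ hr2
    · have h4 : p 2 = 1 := by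
        rcases hp2 with h4 | h4
        · exact h4
        · exact absurd (h3.trans h4.symm) hp12
      rw [h3, h4] at hr2
      refine link_C4m hC (e 2) (e 1) (θ.trans' hr2 ?_)
      exact hC _ _ (by simp) (((List.Perm.swap _ _ _).cons _).cons _)
  -- type S
  intro u v hu hL hs
  obtain ⟨hs1, hs2⟩ := hs
  have hoc : ∀ i, oc i u = oc i v := oc_perm hs1
  have hlen : u.length = v.length := by
    have := hs1.length_eq
    simpa using this
  have h1 : θ.r u (N_C4m (fun i => 2 ≤ oc i u) u) := by
    have := norm_C4m hC hPQ (fun i => 2 ≤ oc i u) u [] (fun i hi => by simpa using hi)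
      (by simpa using hu)
    simpa using this
  have h2 : θ.r v (N_C4m (fun i => 2 ≤ oc i u) v) := by
    have := norm_C4m hC hPQ (fun i => 2 ≤ oc i u) v [] (fun i hi => by
      rw [List.append_nil, ← hoc i]
      exact hi) (by simpa [← hlen] using hu)
    simpa using this
  have h3 : (N_C4m (fun i => 2 ≤ oc i u) u).Perm (N_C4m (fun i => 2 ≤ oc i u) v) := by
    rw [List.perm_iff_count]
    rintro ⟨i, b⟩
    rw [count_N_C4m, count_N_C4m, hoc i]
    by_cases hD : 2 ≤ oc i v
    · simp [hD]
    · rw [if_neg hD, if_neg hD]
      have e1 := oc_count_C4m i u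
      have e2 := oc_count_C4m i v
      have e3 := hoc i
      by_cases h0 : oc i u = 0
      · cases b <;> omega
      · have h11 : oc i u = 1 := by omega
        have h4 := hs2 i h11
        rw [← List.count_pos_iff, ← List.count_pos_iff] at h4
        cases b
        · omega
        · omega
  refine θ.trans' h1 (θ.trans' (hC _ _ ?_ h3) (θ.symm' h2))
  simp only [N_C4m, List.length_map]
  omega

end Helper1.IM
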