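import Pool.Agent.Helper1.IM.St2

/-! Module C5 of project IM: words of length 4 with different repeated letters. -/

set_option autoImplicit false

namespace Helper1.IM

/-- `P4` for `false`, `Q4` for `true` -/
private def TT_C5 (x : Bool) : Wd := [X 0, (0, x), X 1, X 2, X 3]

private theorem TT_false_C5 : TT_C5 false = P4 := rfl

private theorem TT_true_C5 : TT_C5 true = Q4 := rfl

/-- canonical form -/
private theorem can_C5 {a b c d : Lt} (x : Bool) (h : Lin [a, b, c, d]) :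
    ∃ (p : Equiv.Perm ℕ) (e : ℕ → Bool), rw' p e (TT_C5 x) = [a, (a.1, xor x a.2), b, c, d] := by
  have h0 : Lin [X 0, X 1, X 2, X 3] := by
    unfold Lin
    decide
  obtain ⟨p, e, hpe⟩ := lin_rename h0 h rfl
  refine ⟨p, e, ?_⟩
  simp only [rw'_cons, rw'_nil, List.cons.injEq, and_true] at hpe
  obtain ⟨h1, h2, h3, h4⟩ := hpe
  simp only [TT_C5, rw'_cons, rw'_nil, h1, h2, h3, h4]
  have h5 : p 0 = a.1 := by rw [← h1]; rfl
  have h6 : e 0 = a.2 := by rw [← h1]; simp [X]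
  rw [h5, h6]

private theorem gr_C5 {θ : FIC} (hN : NilF θ) {W r : Wd} {p p' : Equiv.Perm ℕ} {e e' : ℕ → Bool}
    (h : θ.r (rw' p e W) (rw' p' e' W ++ r)) (hr : r ≠ []) : Zero θ W := by
  have h1 := θ.rn p⁻¹ (fun i => e (p⁻¹ i)) h
  rw [rw'_inv, rw'_append, rw'_rw'] at h1
  refine grow hN (a := []) (b := rw' p⁻¹ (fun i => e (p⁻¹ i)) r) (p⁻¹ * p')
    (fun i => xor (e' i) (e (p⁻¹ (p' i)))) ?_ ?_
  · rw [List.nil_append]
    exact h1
  · rw [List.nil_append, Ne, rw'_eq_nil]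
    exact hr

/-- the substitution `i ↦ i t` -/
private def sg_C5 (i t : ℕ) : ℕ → Wd := fun l => if l = i then [X i, X t] else [X l]

private theorem sg_ne_C5 (i t : ℕ) : ∀ l, sg_C5 i t l ≠ [] := by
  intro l
  unfold sg_C5
  split_ifs <;> simp

private theorem sb_i_C5 (i t : ℕ) (b : Bool) (w : Wd) :
    (sb (sg_C5 i t) ((i, b) :: w)).Perm ((i, b) :: (t, b) :: sb (sg_C5 i t) w) := by
  rw [sb_cons]
  cases b
  · simp [sg_C5, X]
  · simp only [sg_C5, if_true, st_cons, st_nil, List.nil_append, fl_X, List.cons_append]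
    exact List.Perm.swap _ _ _

private theorem sb_ni_C5 (i t l : ℕ) (hl : l ≠ i) (b : Bool) (w : Wd) :
    sb (sg_C5 i t) ((l, b) :: w) = (l, b) :: sb (sg_C5 i t) w := by
  rw [sb_cons]
  cases b
  · simp [sg_C5, X, hl]
  · simp [sg_C5, hl, Y]

private theorem lin4_C5 {a b c d : Lt} (h1 : a.1 ≠ b.1) (h2 : a.1 ≠ c.1) (h3 : a.1 ≠ d.1)
    (h4 : b.1 ≠ c.1) (h5 : b.1 ≠ d.1) (h6 : c.1 ≠ d.1) : Lin [a, b, c, d] := by
  unfold Lin
  simp [h1, h2, h3, h4, h5, h6]

private theorem clA_C5 {θ : FIC} (hC : C4 θ) {i j k : ℕ} (hij : i ≠ j) (hik : i ≠ k) (hjk : j ≠ k)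
    {b c d f b' c' d' f' : Bool}
    (h : θ.r [(i, b), (i, c), (j, d), (k, f)] [(j, b'), (j, c'), (i, d'), (k, f')]) :
    ∃ (p p' : Equiv.Perm ℕ) (e e' : ℕ → Bool) (s : Lt),
      θ.r (rw' p e (TT_C5 (xor c' b'))) (rw' p' e' (TT_C5 (xor c b)) ++ [s]) := by
  obtain ⟨t, hti, htj, htk⟩ : ∃ t : ℕ, t ≠ i ∧ t ≠ j ∧ t ≠ k := ⟨i + j + k + 1, by omega, by omega,
    by omega⟩
  have h1 := θ.sub' (sg_C5 i t) (sg_ne_C5 i t) h
  have hu : (sb (sg_C5 i t) [(i, b), (i, c), (j, d), (k, f)]).Perm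
      ([(i, b), (i, c), (t, b), (j, d), (k, f)] ++ [(t, c)]) := by
    refine (sb_i_C5 i t b _).trans ?_
    refine ((List.Perm.cons _ (List.Perm.cons _ (sb_i_C5 i t c _)))).trans ?_
    rw [sb_ni_C5 i t j (Ne.symm hij), sb_ni_C5 i t k (Ne.symm hik), sb_nil]
    rw [List.perm_iff_count]
    intro a
    simp only [List.count_cons, List.count_nil, List.cons_append, List.nil_append]
    ring
  have hv : (sb (sg_C5 i t) [(j, b'), (j, c'), (i, d'), (k, f')]).Perm
      [(j, b'), (j, c'), (i, d'), (t, d'), (k, f')] := by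
    rw [sb_ni_C5 i t j (Ne.symm hij), sb_ni_C5 i t j (Ne.symm hij)]
    refine List.Perm.cons _ (List.Perm.cons _ ?_)
    refine (sb_i_C5 i t d' _).trans ?_
    rw [sb_ni_C5 i t k (Ne.symm hik), sb_nil]
  obtain ⟨p', e', hp'⟩ := can_C5 (a := (i, b)) (b := (t, b)) (c := (j, d)) (d := (k, f)) (xor c b)
    (lin4_C5 (Ne.symm hti) hij hik htj htk hjk)
  obtain ⟨p, e, hp⟩ := can_C5 (a := (j, b')) (b := (i, d')) (c := (t, d')) (d := (k, f'))
    (xor c' b') (lin4_C5 (Ne.symm hij) (Ne.symm htj) hjk (Ne.symm hti) hik htk)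
  refine ⟨p, p', e, e', (t, c), ?_⟩
  rw [hp, hp']
  have e1 : xor (xor c b) b = c := by cases b <;> cases c <;> rfl
  have e2 : xor (xor c' b') b' = c' := by cases b' <;> cases c' <;> rfl
  simp only [e1, e2]
  have h2 : θ.r (sb (sg_C5 i t) [(i, b), (i, c), (j, d), (k, f)])
      ([(i, b), (i, c), (t, b), (j, d), (k, f)] ++ [(t, c)]) := by
    refine hC _ _ ?_ hu
    rw [hu.length_eq]
    simp
  have h3 : θ.r (sb (sg_C5 i t) [(j, b'), (j, c'), (i, d'), (k, f')])
      [(j, b'), (j, c'), (i, d'), (t, d'), (k, f')] := by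
    refine hC _ _ ?_ hv
    rw [hv.length_eq]
    simp
  exact θ.trans' (θ.symm' h3) (θ.trans' (θ.symm' h1) h2)

private theorem dec_C5 {u : Wd} {i j k : ℕ} (hl : u.length = 4) (hi : oc i u = 2) (hj : j ∈ ct u)
    (hk : k ∈ ct u) (hij : i ≠ j) (hik : i ≠ k) (hjk : j ≠ k) :
    ∃ b c d f : Bool, u.Perm [(i, b), (i, c), (j, d), (k, f)] := by
  obtain ⟨d, hd⟩ := mem_ct.1 hj
  obtain ⟨f, hf⟩ := mem_ct.1 hk
  have h1 := List.perm_cons_erase hd
  have hf' : (k, f) ∈ u.erase (j, d) := by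
    have := (h1.mem_iff (a := (k, f))).1 hf
    rcases List.mem_cons.1 this with h | h
    · simp only [Prod.mk.injEq] at h
      exact absurd h.1.symm hjk
    · exact h
  have h2 := List.perm_cons_erase hf'
  have h3 := h1.trans (List.Perm.cons _ h2)
  generalize (u.erase (j, d)).erase (k, f) = w at h3
  have hlw : w.length = 2 := by
    have := h3.length_eq
    simp only [List.length_cons] at this
    omega
  have how : oc i w = 2 := by
    have := oc_perm (h3.map Prod.fst) i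
    rw [oc_cons, oc_cons] at this
    simp only [Ne.symm hij, Ne.symm hik, if_false] at this
    omega
  obtain ⟨x, y, rfl⟩ := List.length_eq_two.1 hlw
  rw [oc_cons, oc_cons, oc_nil] at how
  have hx : x.1 = i := by
    by_contra hc
    rw [if_neg hc] at how
    split_ifs at how <;> omega
  have hy : y.1 = i := by
    by_contra hc
    rw [if_neg hc] at how
    split_ifs at how <;> omega
  refine ⟨x.2, y.2, d, f, h3.trans ?_⟩
  have ex : x = (i, x.2) := by rw [← hx]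
  have ey : y = (i, y.2) := by rw [← hy]
  rw [← ex, ← ey, List.perm_iff_count]
  intro a
  simp only [List.count_cons, List.count_nil]
  ring

theorem hC5 : StC5 := by
  intro θ hN hC u v i j hu hv h3 huv hij hi hj hr
  have hiu : i ∈ ct u := oc_pos.1 (by omega)
  have hjv : j ∈ ct v := oc_pos.1 (by omega)
  obtain ⟨k, hku, hk⟩ : ∃ k ∈ ct u, k ∉ ({i, j} : Finset ℕ) := by
    apply Finset.exists_mem_notMem_of_card_lt_card
    have := Finset.card_le_two (a := i) (b := j)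
    omega
  simp only [Finset.mem_insert, Finset.mem_singleton, not_or] at hk
  obtain ⟨b, c, d, f, hpu⟩ := dec_C5 hu hi (huv ▸ hjv) hku hij (Ne.symm hk.1) (Ne.symm hk.2)
  obtain ⟨b', c', d', f', hpv⟩ := dec_C5 hv hj (huv ▸ hiu) (huv ▸ hku) (Ne.symm hij)
    (Ne.symm hk.2) (Ne.symm hk.1)
  have ru := hC _ _ (by omega) hpu
  have rv := hC _ _ (by omega) hpv
  have hr' := θ.trans' (θ.symm' ru) (θ.trans' hr rv)
  obtain ⟨p, p', e, e', s, hA⟩ := clA_C5 hC hij (Ne.symm hk.1) (Ne.symm hk.2) hr'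
  obtain ⟨q, q', f1, f1', s', hB⟩ := clA_C5 hC (Ne.symm hij) (Ne.symm hk.2) (Ne.symm hk.1)
    (θ.symm' hr')
  have key : Zero θ (TT_C5 (xor c b)) := by
    have h4 := θ.rn p⁻¹ (fun i => e (p⁻¹ i)) hA
    rw [rw'_inv, rw'_append, rw'_rw'] at h4
    have h5 := θ.rn q' f1' h4
    rw [rw'_append, rw'_rw'] at h5
    have h6 := θ.trans' hB (θ.mulR [s'] h5)
    rw [List.append_assoc] at h6
    exact gr_C5 hN h6 (by simp)
  cases hx : xor c b
  · left
    rw [hx] at key
    exact key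
  · right
    rw [hx] at key
    exact key

end Helper1.IM
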