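import Pool.Agent.Helper1.IM.St2

/-!
# Project IM, module C6: the two orbits of words of length 4 with three letters in type C
-/

set_option autoImplicit false

namespace Helper1.IM

private theorem len4_C6 {u : Wd} (hl : u.length = 4) (hc : (ct u).card = 3) :
    ∃ i, oc i u = 2 ∧ ∀ j, oc j u = 2 → j = i := by
  have hs := length_eq_sum u
  rw [hl] at hs
  have hpos : ∀ i ∈ ct u, 1 ≤ oc i u := fun i hi => oc_pos.2 hi
  have hex : ∃ i ∈ ct u, 2 ≤ oc i u := by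
    by_contra hcon
    push Not at hcon
    have h1 : ∑ i ∈ ct u, oc i u ≤ ∑ i ∈ ct u, 1 :=
      Finset.sum_le_sum (fun i hi => by have := hcon i hi; omega)
    simp only [Finset.sum_const, hc, smul_eq_mul, mul_one] at h1
    omega
  obtain ⟨i, hi, h2⟩ := hex
  have hs1 := Finset.add_sum_erase (ct u) (fun i => oc i u) hi
  have hcard : ((ct u).erase i).card = 2 := by rw [Finset.card_erase_of_mem hi, hc]
  have h3 : ∑ j ∈ (ct u).erase i, 1 ≤ ∑ j ∈ (ct u).erase i, oc j u :=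
    Finset.sum_le_sum (fun j hj => hpos j (Finset.mem_of_mem_erase hj))
  simp only [Finset.sum_const, hcard, smul_eq_mul, mul_one] at h3
  try simp only at hs1
  refine ⟨i, by omega, fun j hj => ?_⟩
  by_contra hne
  have hju : j ∈ ct u := oc_pos.1 (by omega)
  have hj' : j ∈ (ct u).erase i := Finset.mem_erase.2 ⟨hne, hju⟩
  have hs2 := Finset.add_sum_erase ((ct u).erase i) (fun i => oc i u) hj'
  have hcard2 : (((ct u).erase i).erase j).card = 1 := by
    rw [Finset.card_erase_of_mem hj', hcard]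
  have h4 : ∑ k ∈ ((ct u).erase i).erase j, 1 ≤ ∑ k ∈ ((ct u).erase i).erase j, oc k u :=
    Finset.sum_le_sum (fun k hk =>
      hpos k (Finset.mem_of_mem_erase (Finset.mem_of_mem_erase hk)))
  simp only [Finset.sum_const, hcard2, smul_eq_mul, mul_one] at h4
  try simp only at hs2
  omega

open Classical in
/-- The letter which occurs twice. -/
private noncomputable def col_C6 (u : Wd) : ℕ :=
  if h : ∃ i, oc i u = 2 then h.choose else 0

private theorem col_spec_C6 {u : Wd} (hl : u.length = 4) (hc : (ct u).card = 3) :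
    oc (col_C6 u) u = 2 ∧ ∀ j, oc j u = 2 → j = col_C6 u := by
  obtain ⟨i, hi, hu⟩ := len4_C6 hl hc
  have hex : ∃ i, oc i u = 2 := ⟨i, hi⟩
  have e : col_C6 u = hex.choose := by
    unfold col_C6
    rw [dif_pos hex]
  have h1 : oc (col_C6 u) u = 2 := by rw [e]; exact hex.choose_spec
  refine ⟨h1, fun j hj => ?_⟩
  rw [hu j hj, hu _ h1]

/-- Words related to a renaming of a word `W` of length 4 with three letters which is not killed. -/
private theorem good_C6 (hL : StLin) {θ : FIC} (hn : NilF θ) {W u : Wd} (hk : ¬ Kl θ 3 4 W)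
    (hW : (ct W).card = 3) (hWl : ¬ Lin W) {p : Equiv.Perm ℕ} {e : ℕ → Bool}
    (hr : θ.r u (rw' p e W)) : u.length = 4 ∧ (ct u).card = 3 ∧ ¬ Kl θ 3 4 u := by
  have hk' : ¬ Kl θ 3 4 (rw' p e W) := fun h => hk ((Kl.rw'_iff p e).1 h)
  have hku : ¬ Kl θ 3 4 u := fun h => hk' (h.of_r hr)
  have hzu : ¬ Zero θ u := fun h => hku (Kl.of_zero h 3 4)
  have hct : ct u = ct (rw' p e W) := by
    by_contra hne
    exact hzu (cont hn hr hne).1
  have hcard : (ct u).card = 3 := by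
    rw [hct, ct_rw', Finset.card_image_of_injective _ p.injective, hW]
  have hle : u.length ≤ 4 := le_of_not_kl hk' (θ.symm' hr)
  have hge : 3 ≤ u.length := by
    have := card_ct_le u
    omega
  have hne3 : u.length ≠ 3 := by
    intro h3
    have hlin : Lin u := by
      unfold Lin
      have h1 : (u.map Prod.fst).toFinset.card = (u.map Prod.fst).length := by
        have : (ct u).card = (u.map Prod.fst).length := by
          rw [hcard, List.length_map, h3]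
        simpa [ct] using this
      exact Multiset.coe_nodup.1 (Multiset.toFinset_card_eq_card_iff_nodup.1 h1)
    exact hzu (hL θ hn u _ hlin hr (fun h => hWl (lin_rw'.1 h.1)))
  exact ⟨by omega, hcard, hku⟩

theorem hC6 (hL : StLin) (hT : StTwo) : StC6 := by
  intro θ hn hC hM hP hQ
  by_contra hcon
  rw [not_or] at hcon
  obtain ⟨hc1, hc2⟩ := hcon
  have hstar : ∀ (u v : Wd) (i j : ℕ), u.length = 4 → v.length = 4 → (ct u).card = 3 →
      ct u = ct v → oc i u = 2 → oc j v = 2 → θ.r u v → i = j := by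
    intro u v i j h1 h2 h3 h4 h5 h6 h7
    by_contra hne
    exact hc2 ⟨u, v, i, j, h1, h2, h3, h4, hne, h5, h6, h7⟩
  have hP3 : (ct P3).card = 3 := by decide
  have hQ3 : (ct Q3).card = 3 := by decide
  have lP3 : ¬ Lin P3 := by unfold Lin P3; simp
  have lQ3 : ¬ Lin Q3 := by unfold Lin Q3; simp
  have hno : ¬ ∃ (p : Equiv.Perm ℕ) (e : ℕ → Bool), θ.r P3 (rw' p e Q3) := by
    rintro ⟨p, e, hr⟩
    have hz : ¬ Zero θ P3 := fun h => hP (Kl.of_zero h 3 4)
    have hct : ct P3 = ct (rw' p e Q3) := by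
      by_contra hne
      exact hz (cont hn hr hne).1
    have h0 : (0 : ℕ) = p 0 := by
      refine hstar P3 (rw' p e Q3) 0 (p 0) rfl (by simp [Q3]) hP3 hct (by decide) ?_ hr
      rw [oc_rw']
      decide
    exact hc1 ⟨p, e, h0.symm, hct.symm, hr⟩
  have gP : ∀ {u : Wd} {p : Equiv.Perm ℕ} {e : ℕ → Bool}, θ.r u (rw' p e P3) →
      u.length = 4 ∧ (ct u).card = 3 ∧ ¬ Kl θ 3 4 u := fun hr => good_C6 hL hn hP hP3 lP3 hr
  have gQ : ∀ {u : Wd} {p : Equiv.Perm ℕ} {e : ℕ → Bool}, θ.r u (rw' p e Q3) →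
      u.length = 4 ∧ (ct u).card = 3 ∧ ¬ Kl θ 3 4 u := fun hr => good_C6 hL hn hQ hQ3 lQ3 hr
  have gG : ∀ u : Wd, ((∃ (p : Equiv.Perm ℕ) (e : ℕ → Bool), θ.r u (rw' p e P3)) ∨
      (∃ (p : Equiv.Perm ℕ) (e : ℕ → Bool), θ.r u (rw' p e Q3))) →
      u.length = 4 ∧ (ct u).card = 3 ∧ ¬ Kl θ 3 4 u := by
    rintro u (⟨p, e, hr⟩ | ⟨p, e, hr⟩)
    · exact gP hr
    · exact gQ hr
  have hst : ∀ W : Wd, 4 ≤ W.length → (∃ f : ℕ → Bool, (st W).Perm (rw' 1 f W)) → ∀ u : Wd,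
      (∃ (p : Equiv.Perm ℕ) (e : ℕ → Bool), θ.r u (rw' p e W)) →
      ∃ (p : Equiv.Perm ℕ) (e : ℕ → Bool), θ.r (st u) (rw' p e W) := by
    rintro W hW ⟨f, hf⟩ u ⟨p, e, hr⟩
    have h1 := θ.star' hr
    rw [st_rw'] at h1
    have h2 : θ.r (rw' p e (st W)) (rw' p e (rw' 1 f W)) :=
      hC _ _ (by simpa using hW) (rw'_perm p e hf)
    rw [rw'_rw'] at h2
    exact ⟨_, _, θ.trans' h1 h2⟩
  have hrn : ∀ (W u : Wd) (p : Equiv.Perm ℕ) (e : ℕ → Bool),
      (∃ (q : Equiv.Perm ℕ) (f : ℕ → Bool), θ.r u (rw' q f W)) →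
      ∃ (q : Equiv.Perm ℕ) (f : ℕ → Bool), θ.r (rw' p e u) (rw' q f W) := by
    rintro W u p e ⟨q, f, hr⟩
    have h1 := θ.rn p e hr
    rw [rw'_rw'] at h1
    exact ⟨_, _, h1⟩
  refine hT θ 3 4 hM (by norm_num) (by norm_num) (by norm_num)
    (fun u => ∃ (p : Equiv.Perm ℕ) (e : ℕ → Bool), θ.r u (rw' p e P3))
    (fun u => ∃ (p : Equiv.Perm ℕ) (e : ℕ → Bool), θ.r u (rw' p e Q3)) col_C6
    ?_ ?_ ?_ ?_ ?_ ?_ ?_ ?_ ?_ ?_ ?_ ?_ ?_
  · intro u hu
    obtain ⟨h1, h2, h3⟩ := gG u hu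
    refine ⟨h1, h2, h3, oc_pos.1 ?_⟩
    rw [(col_spec_C6 h1 h2).1]
    norm_num
  · rintro u ⟨p, e, h1⟩ ⟨q, f, h2⟩
    apply hno
    have h3 := θ.rn p⁻¹ (fun i => e (p⁻¹ i)) (θ.trans' (θ.symm' h1) h2)
    rw [rw'_inv, rw'_rw'] at h3
    exact ⟨_, _, h3⟩
  · rintro u v ⟨p, e, h1⟩ h2
    exact ⟨p, e, θ.trans' (θ.symm' h2) h1⟩
  · rintro u v ⟨p, e, h1⟩ h2
    exact ⟨p, e, θ.trans' (θ.symm' h2) h1⟩
  · intro u v hu hr
    have hv : (∃ (p : Equiv.Perm ℕ) (e : ℕ → Bool), θ.r v (rw' p e P3)) ∨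
        (∃ (p : Equiv.Perm ℕ) (e : ℕ → Bool), θ.r v (rw' p e Q3)) := by
      rcases hu with ⟨p, e, h1⟩ | ⟨p, e, h1⟩
      · exact Or.inl ⟨p, e, θ.trans' (θ.symm' hr) h1⟩
      · exact Or.inr ⟨p, e, θ.trans' (θ.symm' hr) h1⟩
    obtain ⟨u1, u2, u3⟩ := gG u hu
    obtain ⟨v1, v2, v3⟩ := gG v hv
    have hct : ct u = ct v := by
      by_contra hne
      exact u3 (Kl.of_zero (cont hn hr hne).1 3 4)
    exact ⟨hstar u v _ _ u1 v1 u2 hct (col_spec_C6 u1 u2).1 (col_spec_C6 v1 v2).1 hr, hct⟩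
  · refine hst P3 (by simp [P3]) ⟨fun _ => true, ?_⟩
    decide
  · refine hst Q3 (by simp [Q3]) ⟨fun _ => true, ?_⟩
    decide
  · exact fun u p e => hrn P3 u p e
  · exact fun u p e => hrn Q3 u p e
  · intro u hu
    obtain ⟨u1, u2, -⟩ := gG u hu
    have h1 := (col_spec_C6 (u := st u) (by simpa using u1) (by simpa using u2)).1
    rw [oc_st] at h1
    exact (col_spec_C6 u1 u2).2 _ h1
  · intro u p e hu
    obtain ⟨u1, u2, -⟩ := gG u hu
    have h1 := (col_spec_C6 u1 u2).1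
    rw [← oc_rw' p e] at h1
    refine ((col_spec_C6 (u := rw' p e u) (by simpa using u1) ?_).2 _ h1).symm
    rw [ct_rw', Finset.card_image_of_injective _ p.injective, u2]
  · exact ⟨rw' 1 (fun _ => false) P3, 1, fun _ => false, θ.refl' _⟩
  · exact ⟨rw' 1 (fun _ => false) Q3, 1, fun _ => false, θ.refl' _⟩

end Helper1.IM
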