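import Pool.Agent.Helper1.IM.St2

/-!
# Project IM, module C7: a killed `xxyzt` is zero
-/

set_option autoImplicit false

namespace Helper1.IM

/-- Every word is, up to order, a linear word with the same content followed by a rest. -/
private theorem split_C7 (u : Wd) : ∃ l r : Wd, u.Perm (l ++ r) ∧ Lin l ∧ ct l = ct u := by
  induction u with
  | nil => exact ⟨[], [], by simp, by simp [Lin], rfl⟩
  | cons a u ih =>
    obtain ⟨l, r, h1, h2, h3⟩ := ih
    by_cases ha : a.1 ∈ ct l
    · refine ⟨l, a :: r, ?_, h2, ?_⟩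
      · exact (h1.cons a).trans (List.perm_middle.symm)
      · rw [ct_cons, ← h3, Finset.insert_eq_of_mem ha]
    · refine ⟨a :: l, r, h1.cons a, ?_, ?_⟩
      · unfold Lin at h2 ⊢
        rw [List.map_cons, List.nodup_cons]
        exact ⟨by simpa [ct] using ha, h2⟩
      · rw [ct_cons, ct_cons, h3]

/-- A word with four letters and two letters `b, c` with the same index is up to order `b c l R` where `b l` is a renaming of `xyzt`. -/
private theorem key_C7 (w w' : Wd) (b c : Lt) (hbc : c.1 = b.1) (hw : w.Perm (b :: c :: w')) (h4 : (ct w).card = 4) :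
    ∃ (p : Equiv.Perm ℕ) (e : ℕ → Bool) (l R : Wd), w.Perm (b :: c :: (l ++ R)) ∧
      rw' p e [X 0, X 1, X 2, X 3] = b :: l := by
  classical
  set w1 : Wd := w'.filter (fun a => decide (a.1 ≠ b.1)) with hw1
  set w2 : Wd := w'.filter (fun a => !decide (a.1 ≠ b.1)) with hw2
  have hp : w'.Perm (w1 ++ w2) := (List.filter_append_perm _ w').symm
  obtain ⟨l, r, h1, h2, h3⟩ := split_C7 w1
  have hb1 : b.1 ∉ ct w1 := by
    intro h
    obtain ⟨s, hs⟩ := mem_ct.1 h
    rw [hw1, List.mem_filter] at hs
    simp at hs
  have hb2 : ct w2 ⊆ {b.1} := by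
    intro i hi
    obtain ⟨s, hs⟩ := mem_ct.1 hi
    rw [hw2, List.mem_filter] at hs
    simpa using hs.2
  have hct : ct w = insert b.1 (ct l) := by
    rw [ct_perm (hw.map Prod.fst), ct_cons, ct_cons, hbc, ct_perm (hp.map Prod.fst), ct_append, h3]
    ext i
    simp only [Finset.mem_insert, Finset.mem_union]
    constructor
    · rintro (h | h | h | h)
      · exact Or.inl h
      · exact Or.inl h
      · exact Or.inr h
      · exact Or.inl (by simpa using hb2 h)
    · rintro (h | h)
      · exact Or.inl h
      · exact Or.inr (Or.inr (Or.inl h))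
  have hbl : b.1 ∉ ct l := by rw [h3]; exact hb1
  have hl3 : l.length = 3 := by
    rw [hct, Finset.card_insert_of_notMem hbl, lin_card h2] at h4
    omega
  have hlin : Lin (b :: l) := by
    unfold Lin at h2 ⊢
    rw [List.map_cons, List.nodup_cons]
    exact ⟨by simpa [ct] using hbl, h2⟩
  obtain ⟨p, e, hpe⟩ := lin_rename (u := [X 0, X 1, X 2, X 3]) (v := b :: l) (by simp [Lin, X]) hlin (by simp [hl3])
  refine ⟨p, e, l, r ++ w2, ?_, hpe⟩
  refine hw.trans (List.Perm.cons b (List.Perm.cons c ?_))
  refine hp.trans ?_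
  rw [← List.append_assoc]
  exact h1.append_right w2

theorem hC7 : StC7 := by
  intro θ hn hC hQ hK
  have hcP : ct P4 = {0, 1, 2, 3} := by
    ext i; simp [P4, X]
  have hcard : (ct P4).card = 4 := by rw [hcP]; rfl
  rcases hK.long hn (by rw [hcard]) with hz | ⟨w, hw, hlen, hct⟩
  · exact hz
  have h4 : (ct w).card = 4 := by rw [hct, hcard]
  by_cases hrep : ∃ a, 2 ≤ w.count a
  · -- a signed letter is repeated
    obtain ⟨a, ha⟩ := hrep
    have ha1 : a ∈ w := List.count_pos_iff.1 (by omega)
    have hp1 : w.Perm (a :: w.erase a) := List.perm_cons_erase ha1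
    have ha2 : a ∈ w.erase a := List.count_pos_iff.1 (by rw [List.count_erase_self]; omega)
    have hp2 : w.Perm (a :: a :: (w.erase a).erase a) := hp1.trans ((List.perm_cons_erase ha2).cons a)
    obtain ⟨p, e, l, R, hP, hpe⟩ := key_C7 w _ a a rfl hp2 h4
    simp only [rw'_cons, rw'_nil, X, List.cons.injEq] at hpe
    have hPr : rw' p e P4 = a :: a :: l := by
      rw [← hpe.1, ← hpe.2]; simp [P4, X]
    have hR : R ≠ [] := by
      rintro rfl
      have h5 := hP.length_eq
      have h6 : l.length = 3 := by rw [← hpe.2]; rfl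
      simp [h6] at h5
      omega
    refine grow hn (u := P4) (a := []) (b := R) p e ?_ (by simpa using hR)
    refine θ.trans' hw (hC _ _ (by omega) ?_)
    rw [hPr]
    simpa using hP
  · -- no signed letter is repeated: some letter occurs with both signs
    push Not at hrep
    have hnl : ¬ Lin w := not_lin_of_card (by omega)
    rw [lin_iff] at hnl
    push Not at hnl
    obtain ⟨i, hi⟩ := hnl
    have hoc : oc i w = w.count (X i) + w.count (Y i) := by
      clear hi hw hlen hct h4 hrep
      induction w with
      | nil => rfl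
      | cons a u ih =>
        rw [oc_cons, ih, List.count_cons, List.count_cons]
        rcases a with ⟨j, s⟩
        cases s <;> by_cases hj : j = i <;> simp [X, Y, hj] <;> omega
    have hX : w.count (X i) < 2 := hrep _
    have hY : w.count (Y i) < 2 := hrep _
    have ha1 : X i ∈ w := List.count_pos_iff.1 (by omega)
    have hp1 : w.Perm (X i :: w.erase (X i)) := List.perm_cons_erase ha1
    have ha2 : Y i ∈ w.erase (X i) := by
      refine (List.mem_erase_of_ne (by simp [X, Y])).2 (List.count_pos_iff.1 (by omega))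
    have hp2 : w.Perm (X i :: Y i :: (w.erase (X i)).erase (Y i)) := hp1.trans ((List.perm_cons_erase ha2).cons _)
    obtain ⟨p, e, l, R, hP, hpe⟩ := key_C7 w _ (X i) (Y i) rfl hp2 h4
    simp only [rw'_cons, rw'_nil, X, List.cons.injEq, Prod.mk.injEq, Bool.false_xor] at hpe
    obtain ⟨⟨hp0, he0⟩, hpe⟩ := hpe
    have hQr : rw' p e Q4 = X i :: Y i :: l := by
      rw [← hpe]; simp [Q4, X, Y, hp0, he0]
    have hPr : rw' p e P4 = X i :: X i :: l := by
      rw [← hpe]; simp [P4, X, hp0, he0]
    have hR : R ≠ [] := by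
      rintro rfl
      have h5 := hP.length_eq
      have h6 : l.length = 3 := by rw [← hpe]; rfl
      simp [h6] at h5
      omega
    have hwQ : θ.r P4 (rw' p e Q4 ++ R) := by
      refine θ.trans' hw (hC _ _ (by omega) ?_)
      rw [hQr]
      simpa using hP
    rcases hQ with hQ | ⟨a, ha3, hQ1, -⟩
    · exact ((hQ.rw' p e).mulR R).of_r (θ.symm' hwQ)
    · have h7 := θ.mulR R (θ.rn p e hQ1)
      have h8 : rw' p e (List.replicate a (X 0) ++ [X 1, X 2, X 3]) = List.replicate a (X i) ++ l := by
        rw [rw'_append, ← hpe]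
        congr 1
        · simp [rw', X, hp0, he0]
        · simp [X]
      rw [h8] at h7
      refine grow hn (u := P4) (a := []) (b := List.replicate (a - 2) (X i) ++ R) p e ?_ (by simp [hR])
      refine θ.trans' hwQ (θ.trans' h7 (hC _ _ ?_ ?_))
      · have h6 : l.length = 3 := by rw [← hpe]; rfl
        simp [h6]; omega
      · rw [hPr]
        obtain ⟨m, rfl⟩ : ∃ m, a = m + 2 := ⟨a - 2, by omega⟩
        simp only [Nat.add_sub_cancel, List.replicate_succ, List.cons_append, List.nil_append]
        refine List.Perm.cons _ (List.Perm.cons _ ?_)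
        rw [← List.append_assoc]
        exact (List.perm_append_comm).append_right R

end Helper1.IM
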