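import Pool.Agent.Helper1.IM.St2

set_option autoImplicit false

namespace Helper1.IM

/-- A word with `n` letters and length `n + 1` in which the signed letter `a` is repeated. -/
theorem canon_C8 {n : ℕ} {u : Wd} {a : Lt} (hl : u.length = n + 1) (hc : (ct u).card = n)
    (ha : 2 ≤ u.count a) : ∃ r : Wd, u.Perm (a :: a :: r) ∧ Lin (a :: r) ∧ r.length + 1 = n := by
  have h1 : a ∈ u := List.count_pos_iff.1 (by omega)
  have h2 : u.Perm (a :: u.erase a) := List.perm_cons_erase h1
  have h3 : (u.erase a).count a = u.count a - 1 := List.count_erase_self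
  have h4 : a ∈ u.erase a := List.count_pos_iff.1 (by omega)
  have h5 : (u.erase a).Perm (a :: (u.erase a).erase a) := List.perm_cons_erase h4
  set r := (u.erase a).erase a with hr
  have h6 : u.Perm (a :: a :: r) := h2.trans (h5.cons a)
  have hlen := h6.length_eq
  simp only [List.length_cons] at hlen
  refine ⟨r, h6, ?_, by omega⟩
  have h7 : ct u = ct (a :: r) := by
    rw [ct_perm (h6.map Prod.fst)]
    simp
  rw [h7] at hc
  have h8 : ((a :: r).map Prod.fst).toFinset.card = (a :: r).length := by
    rw [show ((a :: r).map Prod.fst).toFinset = ct (a :: r) from rfl, hc]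
    simp only [List.length_cons]
    omega
  unfold Lin
  rw [List.card_toFinset] at h8
  have h9 : ((a :: r).map Prod.fst).dedup = (a :: r).map Prod.fst := by
    apply (List.dedup_sublist _).eq_of_length
    rw [h8, List.length_map]
  rw [← h9]
  exact List.nodup_dedup _

theorem sbP5_C8 (c r1 r2 r3 : Lt) (rest : Wd) :
    sb (fun i => match i with
      | 0 => [c]
      | 1 => [r1]
      | 2 => [r2]
      | 3 => [r3]
      | _ => rest) P5 = c :: c :: r1 :: r2 :: r3 :: rest := by
  simp [P5, sb, X]

/-- A word with a repeated signed letter and at least four more letters is zero. -/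
theorem zeroA_C8 {θ : FIC} (hP : Zero θ P5) (c : Lt) (r : Wd) (hr : 4 ≤ r.length) :
    Zero θ (c :: c :: r) := by
  match r, hr with
  | r1 :: r2 :: r3 :: r4 :: rest, _ =>
    rw [← sbP5_C8 c r1 r2 r3 (r4 :: rest)]
    apply hP.sb
    intro i
    match i with
    | 0 => simp
    | 1 => simp
    | 2 => simp
    | 3 => simp
    | (_ + 4) => simp

/-- Substitution `i ↦ i s` in a word in which `i` does not occur. -/
theorem sb_fix_C8 (i s : ℕ) (r : Wd) (hi : i ∉ ct r) :
    sb (fun j => if j = i then [X i, X s] else [X j]) r = r := by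
  rw [sb_congr _ (fun j => [(j, false)]) r (fun j hj => ?_), sb_id]
  have : j ≠ i := fun h => hi (h ▸ hj)
  simp [this, X]

/-- Substitution `i ↦ i s` in a letter `i^±`. -/
theorem sb_let_C8 (i s : ℕ) (b : Bool) :
    (sb (fun j => if j = i then [X i, X s] else [X j]) [(i, b)]).Perm [(i, b), (s, b)] := by
  rw [sb_single]
  cases b
  · simp [X]
  · simp only [if_true, st_cons, st_nil, List.nil_append, fl_X, Y, List.singleton_append]
    exact List.Perm.swap _ _ _

theorem perm_sb_C8 (f : ℕ → Wd) {u v : Wd} (h : u.Perm v) : (sb f u).Perm (sb f v) :=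
  List.Perm.flatMap_right _ h

/-- Nonlinear words with a repeated signed letter or both signs of a letter. -/
theorem rep_C8 {w : Wd} (h : ¬ Lin w) :
    (∃ (c : Lt) (r : Wd), w.Perm (c :: c :: r)) ∨ ∃ (i : ℕ) (r : Wd), w.Perm (X i :: Y i :: r) := by
  rw [lin_iff] at h
  push Not at h
  obtain ⟨i, hi⟩ := h
  have h1 : oc i w = w.count (X i) + w.count (Y i) := by
    clear hi
    induction w with
    | nil => rfl
    | cons a w ih =>
      rw [oc_cons, List.count_cons, List.count_cons, ih]
      rcases a with ⟨j, b⟩
      by_cases hj : j = i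
      · subst hj
        cases b <;> simp [X, Y] <;> omega
      · have e1 : ((j, b) == X i) = false := by
          simp [X, hj]
        have e2 : ((j, b) == Y i) = false := by
          simp [Y, hj]
        simp [e1, e2, hj]
  have key : ∀ c : Lt, 2 ≤ w.count c → ∃ r : Wd, w.Perm (c :: c :: r) := by
    intro c hc
    have h2 : c ∈ w := List.count_pos_iff.1 (by omega)
    have h3 : w.Perm (c :: w.erase c) := List.perm_cons_erase h2
    have h4 : (w.erase c).count c = w.count c - 1 := List.count_erase_self
    have h5 : c ∈ w.erase c := List.count_pos_iff.1 (by omega)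
    exact ⟨_, h3.trans ((List.perm_cons_erase h5).cons c)⟩
  by_cases hX : 2 ≤ w.count (X i)
  · obtain ⟨r, hr⟩ := key _ hX
    exact Or.inl ⟨_, r, hr⟩
  by_cases hY : 2 ≤ w.count (Y i)
  · obtain ⟨r, hr⟩ := key _ hY
    exact Or.inl ⟨_, r, hr⟩
  right
  have h2 : X i ∈ w := List.count_pos_iff.1 (by omega)
  have h3 : w.Perm (X i :: w.erase (X i)) := List.perm_cons_erase h2
  have h4 : Y i ∈ w.erase (X i) := by
    rw [List.mem_erase_of_ne (by simp [X, Y])]
    exact List.count_pos_iff.1 (by omega)
  exact ⟨i, _, h3.trans ((List.perm_cons_erase h4).cons _)⟩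

theorem hC8 : StC8 := by
  intro θ hn hC hQ u v a b hu hv huv hua hvb hab hr
  obtain ⟨hu1, hu2, _⟩ := hu
  obtain ⟨hv1, hv2, _⟩ := hv
  obtain ⟨r, hur, hrl, hrn⟩ := canon_C8 hu1 hu2 hua.ge
  obtain ⟨r', hvr, hrl', hrn'⟩ := canon_C8 hv1 hv2 hvb.ge
  -- the letter of `a` in `v`
  have hav : a.1 ∈ ct r' := by
    have h1 : a.1 ∈ ct u := by
      rw [ct_perm (hur.map Prod.fst)]
      simp
    rw [huv, ct_perm (hvr.map Prod.fst)] at h1
    simp only [ct_cons, Finset.mem_insert] at h1
    tauto
  obtain ⟨c, hc⟩ := mem_ct.1 hav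
  have hr'' : r'.Perm ((a.1, c) :: r'.erase (a.1, c)) := List.perm_cons_erase hc
  set r'' := r'.erase (a.1, c) with hr''d
  obtain ⟨s, hs⟩ := exists_fresh (u ++ v)
  rw [ct_append, Finset.mem_union, not_or] at hs
  have har : a.1 ∉ ct r := by
    have := hrl
    unfold Lin at this
    rw [List.map_cons, List.nodup_cons] at this
    simpa [ct] using this.1
  have hbr : b.1 ∉ ct r' := by
    have := hrl'
    unfold Lin at this
    rw [List.map_cons, List.nodup_cons] at this
    simpa [ct] using this.1
  have hLr' : Lin r' := by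
    have := hrl'
    unfold Lin at this ⊢
    rw [List.map_cons, List.nodup_cons] at this
    exact this.2
  have hLac : Lin ((a.1, c) :: r'') := (lin_perm (hr''.map Prod.fst)).1 hLr'
  have har'' : a.1 ∉ ct r'' := by
    have := hLac
    unfold Lin at this
    rw [List.map_cons, List.nodup_cons] at this
    simpa [ct] using this.1
  have hLr'' : Lin r'' := by
    have := hLac
    unfold Lin at this ⊢
    rw [List.map_cons, List.nodup_cons] at this
    exact this.2
  have hsr : s ∉ ct (a :: r) := by
    have h1 := hs.1
    rw [ct_perm (hur.map Prod.fst)] at h1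
    simpa using h1
  have hsr' : s ∉ ct (b :: r') := by
    have h1 := hs.2
    rw [ct_perm (hvr.map Prod.fst)] at h1
    simpa using h1
  set f : ℕ → Wd := fun j => if j = a.1 then [X a.1, X s] else [X j] with hf
  have hfn : ∀ i, f i ≠ [] := by
    intro i
    by_cases h : i = a.1 <;> simp [hf, h]
  -- image of `u`
  have hU : (sb f u).Perm ((a :: a :: (s, a.2) :: r) ++ [(s, a.2)]) := by
    have h1 := perm_sb_C8 f hur
    have h2 : sb f (a :: a :: r) = sb f [a] ++ (sb f [a] ++ r) := by
      rw [show a :: a :: r = [a] ++ ([a] ++ r) from rfl, sb_append, sb_append,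
        sb_fix_C8 a.1 s r har]
    rw [h2] at h1
    have h3 : (sb f [a]).Perm [a, (s, a.2)] := sb_let_C8 a.1 s a.2
    refine h1.trans ((h3.append (h3.append (List.Perm.refl r))).trans ?_)
    rw [List.perm_iff_count]
    intro x
    simp only [List.count_append, List.count_cons, List.count_nil]
    omega
  have hV : (sb f v).Perm (b :: b :: (a.1, c) :: (s, c) :: r'') := by
    have h1 := perm_sb_C8 f (hvr.trans ((hr''.cons b).cons b))
    have h2 : sb f (b :: b :: (a.1, c) :: r'') = [b] ++ ([b] ++ (sb f [(a.1, c)] ++ r'')) := by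
      rw [show b :: b :: (a.1, c) :: r'' = [b] ++ ([b] ++ ([(a.1, c)] ++ r'')) from rfl,
        sb_append, sb_append, sb_append, sb_fix_C8 a.1 s r'' har'',
        sb_fix_C8 a.1 s [b] (by simpa using hab)]
    rw [h2] at h1
    have h3 : (sb f [(a.1, c)]).Perm [(a.1, c), (s, c)] := sb_let_C8 a.1 s c
    refine h1.trans ?_
    have h4 := (h3.append (List.Perm.refl r'')).append_left ([b] ++ [b])
    simpa [List.append_assoc] using h4
  have hrel : θ.r (b :: b :: (a.1, c) :: (s, c) :: r'') ((a :: a :: (s, a.2) :: r) ++ [(s, a.2)]) := by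
    have h1 : θ.r (sb f v) (sb f u) := θ.symm' (θ.sub' f hfn hr)
    have hlu := length_sb_ge f hfn u
    have hlv := length_sb_ge f hfn v
    exact θ.trans' (θ.symm' (hC _ _ (by omega) hV)) (θ.trans' h1 (hC _ _ (by omega) hU))
  -- linear parts
  have hL1 : Lin (b :: (a.1, c) :: (s, c) :: r'') := by
    have hLb : Lin (b :: (a.1, c) :: r'') :=
      (lin_perm ((hr''.cons b).map Prod.fst)).1 hrl'
    have hs2 : s ∉ ct (b :: (a.1, c) :: r'') := by
      rw [← ct_perm ((hr''.cons b).map Prod.fst)]
      exact hsr'
    have h1 : ((s, c) :: b :: (a.1, c) :: r'').Perm (b :: (a.1, c) :: (s, c) :: r'') := by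
      rw [List.perm_iff_count]
      intro x
      simp only [List.count_cons]
      omega
    rw [← lin_perm (h1.map Prod.fst)]
    unfold Lin at hLb ⊢
    rw [List.map_cons, List.nodup_cons]
    refine ⟨?_, hLb⟩
    simpa [ct] using hs2
  have hL2 : Lin (a :: (s, a.2) :: r) := by
    have h1 : ((s, a.2) :: a :: r).Perm (a :: (s, a.2) :: r) := List.Perm.swap _ _ _
    rw [← lin_perm (h1.map Prod.fst)]
    have h2 := hrl
    unfold Lin at h2 ⊢
    rw [List.map_cons, List.nodup_cons]
    refine ⟨?_, h2⟩
    simpa [ct] using hsr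
  have hlr := hr''.length_eq
  simp only [List.length_cons] at hlr
  obtain ⟨p, e, hpe⟩ := lin_rename hL1 hL2 (by
    simp only [List.length_cons]
    omega)
  set W := b :: b :: (a.1, c) :: (s, c) :: r'' with hW
  have hWr : rw' p e W = a :: a :: (s, a.2) :: r := by
    rw [hW, rw'_cons, hpe]
    rw [rw'_cons, List.cons.injEq] at hpe
    rw [hpe.1]
  have hWz : Zero θ W := by
    refine grow (a := []) (b := [(s, a.2)]) hn p e ?_ (by simp)
    rw [List.nil_append, hWr]
    exact hrel
  have hP5 : Zero θ P5 := by
    have hL3 : Lin [X 0, X 1, X 2, X 3, X 4] := by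
      unfold Lin
      decide
    obtain ⟨p', e', hpe'⟩ := lin_rename hL1 hL3 (by
      simp only [List.length_cons, List.length_nil]
      omega)
    have h1 : rw' p' e' W = P5 := by
      rw [hW, rw'_cons, hpe']
      rw [rw'_cons, List.cons.injEq] at hpe'
      rw [hpe'.1]
      rfl
    rw [← h1]
    exact hWz.rw' p' e'
  -- all nonlinear words of length at least seven are zero
  have hall : ∀ w : Wd, 7 ≤ w.length → ¬ Lin w → Zero θ w := by
    intro w hw hL
    rcases rep_C8 hL with ⟨c, r, hr⟩ | ⟨i, r, hr⟩
    · have hl := hr.length_eq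
      simp only [List.length_cons] at hl
      exact (zeroA_C8 hP5 c r (by omega)).of_r (θ.symm' (hC _ _ (by omega) hr))
    · have hl := hr.length_eq
      simp only [List.length_cons] at hl
      have hwr : θ.r w (X i :: Y i :: r) := hC _ _ (by omega) hr
      refine Zero.of_r ?_ (θ.symm' hwr)
      match r, hl with
      | r1 :: r2 :: r3 :: r4 :: rest, _ =>
        set g : ℕ → Wd := fun j => match j with
          | 0 => [X i]
          | 1 => [r1]
          | 2 => [r2]
          | _ => r3 :: r4 :: rest with hg
        have hgn : ∀ j, g j ≠ [] := by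
          intro j
          match j with
          | 0 => simp [hg]
          | 1 => simp [hg]
          | 2 => simp [hg]
          | (_ + 3) => simp [hg]
        have e1 : sb g Q4 = X i :: Y i :: r1 :: r2 :: r3 :: r4 :: rest := by
          simp [Q4, sb, X, Y, hg, fl, st]
        rw [← e1]
        rcases hQ with hQ | ⟨k, hk, hQ, _⟩
        · exact hQ.sb g hgn
        · have h2 := θ.sub' g hgn hQ
          have e3 : ∀ m : ℕ, sb g (List.replicate m (X 0)) = List.replicate m (X i) := by
            intro m
            induction m with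
            | zero => rfl
            | succ m ih =>
              rw [List.replicate_succ, List.replicate_succ, sb_cons, ih]
              simp [X, hg]
          have e2 : sb g (List.replicate k (X 0) ++ [X 1, X 2, X 3]) =
              List.replicate k (X i) ++ (r1 :: r2 :: r3 :: r4 :: rest) := by
            rw [sb_append, e3]
            congr 1
            simp [sb, X, hg]
          rw [e2] at h2
          refine Zero.of_r ?_ (θ.symm' h2)
          obtain ⟨k', rfl⟩ : ∃ k', k = k' + 2 := ⟨k - 2, by omega⟩
          rw [List.replicate_succ, List.replicate_succ, List.cons_append, List.cons_append]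
          apply zeroA_C8 hP5
          simp only [List.length_append, List.length_cons]
          omega
      | [r1, r2, r3], h => simp at h; omega
      | [r1, r2], h => simp at h; omega
      | [r1], h => simp at h; omega
      | [], h => simp at h; omega
  exact ⟨fun w hw hL hz => absurd (hall w hw hL) hz,
    fun w w' hw hL hz _ _ _ => absurd (hall w hw hL) hz⟩

end Helper1.IM
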