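import Pool.Agent.Helper1.IM.M_C8

set_option autoImplicit false

namespace Helper1.IM

theorem isP4_rw_C9 (p : Equiv.Perm ℕ) (e : ℕ → Bool) {u : Wd} (h : isP4 u) :
    isP4 (rw' p e u) := by
  obtain ⟨h1, h2, a, h3⟩ := h
  refine ⟨by simpa using h1, ?_, (p a.1, xor a.2 (e a.1)), ?_⟩
  · rw [ct_rw', Finset.card_image_of_injective _ p.injective]
    exact h2
  · have hinj : Function.Injective (fun a : Lt => ((p a.1, xor a.2 (e a.1)) : Lt)) := by
      rintro ⟨i, b⟩ ⟨j, c⟩ h
      simp only [Prod.mk.injEq] at h
      obtain ⟨h1, h2⟩ := h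
      have : i = j := p.injective h1
      subst this
      simp only [Bool.xor_left_inj] at h2
      rw [h2]
    have := List.count_map_of_injective u (fun a : Lt => ((p a.1, xor a.2 (e a.1)) : Lt)) hinj a
    unfold rw'
    rw [this]
    exact h3

theorem hC9 (hL : StLin) (hP : StP45) : StC9 := by
  intro θ hn hC hM hQ hK
  -- canonical form
  have hcan : ∀ u : Wd, isP4 u → ∃ (p : Equiv.Perm ℕ) (e : ℕ → Bool), (rw' p e P4).Perm u := by
    rintro u ⟨h1, h2, a, h3⟩
    obtain ⟨r, hr, hrl, hrn⟩ := canon_C8 h1 h2 h3.ge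
    have hl : Lin [X 0, X 1, X 2, X 3] := by
      unfold Lin
      decide
    obtain ⟨p, e, hpe⟩ := lin_rename hl hrl (by
      simp only [List.length_cons, List.length_nil]
      omega)
    refine ⟨p, e, ?_⟩
    have h4 : rw' p e P4 = a :: a :: r := by
      rw [show P4 = X 0 :: [X 0, X 1, X 2, X 3] from rfl, rw'_cons, hpe]
      rw [rw'_cons, List.cons.injEq] at hpe
      rw [hpe.1]
    rw [h4]
    exact hr.symm
  have hKl : ∀ u : Wd, isP4 u → ¬ Kl θ 4 5 u := by
    intro u hu hk
    obtain ⟨p, e, hpe⟩ := hcan u hu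
    have h1 : θ.r u (rw' p e P4) := hC _ _ (by rw [hu.1]; omega) hpe.symm
    exact hK ((Kl.rw'_iff p e).1 (hk.of_r h1))
  have hex : ∃ u v : Wd, isP4 u ∧ θ.r u v ∧ ¬ u.Perm v := by
    by_contra hcon
    push Not at hcon
    exact hP θ hM hC hKl hcon
  obtain ⟨u, v, hu, huv, hnp⟩ := hex
  have hku := hKl u hu
  have hkv : ¬ Kl θ 4 5 v := fun h => hku (h.of_r (θ.symm' huv))
  have hzu : ¬ Zero θ u := fun h => hku (Kl.of_zero h 4 5)
  have hzv : ¬ Zero θ v := fun h => hkv (Kl.of_zero h 4 5)
  have hct : ct u = ct v := ct_eq_of hn huv hzu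
  have hle : v.length ≤ 5 := le_of_not_kl hku huv
  have hcv : (ct v).card = 4 := by
    rw [← hct]
    exact hu.2.1
  have hge := card_ct_le v
  have hul : ¬ Lin u := not_lin_of_card (by
    rw [hu.2.1, hu.1]
    omega)
  have hvl : ¬ Lin v := by
    intro h
    exact hzv (hL θ hn v u h (θ.symm' huv) (fun h' => hul h'.1))
  have hv5 : v.length = 5 := by
    by_contra hne
    have h4 : v.length = 4 := by omega
    apply hvl
    unfold Lin
    have h8 : (v.map Prod.fst).toFinset.card = v.length := by
      rw [show (v.map Prod.fst).toFinset = ct v from rfl, hcv, h4]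
    rw [List.card_toFinset] at h8
    have h9 : (v.map Prod.fst).dedup = v.map Prod.fst := by
      apply (List.dedup_sublist _).eq_of_length
      rw [h8, List.length_map]
    rw [← h9]
    exact List.nodup_dedup _
  have hPv : isP4 v := by
    rcases rep_C8 hvl with ⟨c, r, hr⟩ | ⟨i, r, hr⟩
    · have h1 : 2 ≤ v.count c := by
        rw [hr.count_eq]
        simp
      obtain ⟨r', hr', hl', hn'⟩ := canon_C8 hv5 hcv h1
      refine ⟨hv5, hcv, c, ?_⟩
      rw [hr'.count_eq, List.count_cons_self, List.count_cons_self]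
      have h2 : r'.count c = 0 := by
        rw [List.count_eq_zero]
        intro h
        unfold Lin at hl'
        rw [List.map_cons, List.nodup_cons] at hl'
        exact hl'.1 (List.mem_map_of_mem h)
      rw [h2]
    · exfalso
      have hl := hr.length_eq
      simp only [List.length_cons] at hl
      match r, hl with
      | [r1, r2, r3], _ =>
        set g : ℕ → Wd := fun j => match j with
          | 0 => [X i]
          | 1 => [r1]
          | 2 => [r2]
          | _ => [r3] with hg
        have hgn : ∀ j, g j ≠ [] := by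
          intro j
          match j with
          | 0 => simp [hg]
          | 1 => simp [hg]
          | 2 => simp [hg]
          | (_ + 3) => simp [hg]
        have e1 : sb g Q4 = X i :: Y i :: [r1, r2, r3] := by
          simp [Q4, sb, X, Y, hg, fl, st]
        have hvr : θ.r v (sb g Q4) := by
          rw [e1]
          exact hC _ _ (by omega) hr
        rcases hQ with hQ | ⟨k, hk, hQ, _⟩
        · exact hzv ((hQ.sb g hgn).of_r (θ.symm' hvr))
        · refine hkv ⟨_, θ.trans' hvr (θ.sub' g hgn hQ), Or.inl ?_⟩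
          have h1 := length_sb_ge g hgn (List.replicate k (X 0) ++ [X 1, X 2, X 3])
          simp only [List.length_append, List.length_replicate, List.length_cons,
            List.length_nil] at h1
          omega
      | [], h => simp at h; omega
      | [_], h => simp at h; omega
      | [_, _], h => simp at h; omega
      | _ :: _ :: _ :: _ :: _, h => simp at h; omega
  obtain ⟨p, e, hpe⟩ := hcan u hu
  set v' := rw' p⁻¹ (fun i => e (p⁻¹ i)) v with hv'
  have hr' : θ.r P4 v' := by
    have h1 : θ.r (rw' p e P4) u := hC _ _ (by simp [P4]) hpe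
    have h2 := θ.rn p⁻¹ (fun i => e (p⁻¹ i)) (θ.trans' h1 huv)
    rwa [rw'_inv] at h2
  have hzP : ¬ Zero θ P4 := fun h => hK (Kl.of_zero h 4 5)
  refine ⟨v', hr', ?_, isP4_rw_C9 _ _ hPv, (ct_eq_of hn hr' hzP).symm⟩
  intro h
  apply hnp
  have h1 : (rw' p e v').Perm (rw' p e P4) := rw'_perm p e h.symm
  have h2 : rw' p e v' = v := by
    rw [hv', rw'_rw']
    have : (fun i => xor (e (p⁻¹ i)) (e (p⁻¹ i))) = fun _ => false := by
      funext i
      simp
    rw [this, mul_inv_cancel, rw'_id]
  rw [h2] at h1
  exact (h1.trans hpe).symm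

end Helper1.IM
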