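import Pool.Agent.Helper1.IM.St3
import Pool.Agent.Helper1.IM.Bas

/-!
# Project IM, module F2: the modular law for words of length at least 7
-/

set_option autoImplicit false

namespace Helper1.IM

private theorem rtg_symm_F2 {r : Wd → Wd → Prop} (h : ∀ a b, r a b → r b a) {u v : Wd}
    (hr : Relation.ReflTransGen r u v) : Relation.ReflTransGen r v u := by
  induction hr with
  | refl => exact Relation.ReflTransGen.refl
  | tail _ hab ih => exact Relation.ReflTransGen.head (h _ _ hab) ih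

private theorem same_F2 (hX : StHX) {δ : FIC} (hT : Typ δ) {x y : Wd} (h : δ.r x y)
    (hx : 7 ≤ x.length) (hz : ¬ Zero δ x) : y.length = x.length ∧ ct y = ct x := by
  have hz' : ¬ Zero δ y := fun h' => hz (h'.of_r (δ.symm' h))
  constructor
  · rcases lt_trichotomy x.length y.length with h1 | h1 | h1
    · exact absurd (hX δ hT x y h h1 (by omega)) hz
    · exact h1.symm
    · exact absurd (hX δ hT y x (δ.symm' h) h1 hx) hz'
  · exact (ct_eq_of hT.1 h hz).symm

/-- Along a path from `u` all words are nonzero modulo `α` and `β` and connected to `u` by one `α` and one `β` step, or `u` is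
zero modulo `α` or `β`. -/
private theorem claim_F2 (hX : StHX) (hS : StSO) (hP : StPP) {θ α β : FIC} (hT : Typ θ)
    (hTα : Typ α) (hTβ : Typ β) (hα : Le θ α) (hβ : Le θ β) {u v : Wd} (hu : 7 ≤ u.length)
    (hJ : Jn α β u v) :
    (¬ Zero α v ∧ ¬ Zero β v ∧ v.length = u.length ∧ ct v = ct u ∧ ∃ w, α.r u w ∧ β.r w v) ∨
      Zero α u ∨ Zero β u := by
  by_cases hzα : Zero α u
  · exact Or.inr (Or.inl hzα)
  by_cases hzβ : Zero β u
  · exact Or.inr (Or.inr hzβ)
  have hzθ : ¬ Zero θ u := fun h => hzα (h.le hα)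
  -- a zero word of the level
  have hlev : ∀ δ δ' : FIC, Le θ δ → Le θ δ' → ∀ y : Wd, y.length = u.length → ct y = ct u →
      ¬ Zero δ y → Zero δ' y → Zero δ' u := by
    intro δ δ' hδ hδ' y hl hc hn hz
    have hzy : ¬ Zero θ y := fun h => hn (h.le hδ)
    obtain ⟨p, e, hpe⟩ := hS θ hT u y hu hl.symm hc.symm hzθ hzy
    exact (Zero.rw'_iff p e).1 (hz.of_r (hδ' _ _ hpe))
  induction hJ with
  | refl => exact Or.inl ⟨hzα, hzβ, rfl, rfl, u, α.refl' u, β.refl' u⟩
  | @tail x y _ hxy ih =>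
    rcases ih with ⟨h1, h2, h3, h4, w, h5, h6⟩ | ih
    · have hx7 : 7 ≤ x.length := by omega
      rcases hxy with hxy | hxy
      · obtain ⟨hl, hc⟩ := same_F2 hX hTα hxy hx7 h1
        have hy1 : ¬ Zero α y := fun h' => h1 (h'.of_r (α.symm' hxy))
        by_cases hy2 : Zero β y
        · exact Or.inr (Or.inr (hlev α β hα hβ y (hl.trans h3) (hc.trans h4) hy1 hy2))
        · obtain ⟨hl', hc'⟩ := same_F2 hX hTβ (β.symm' h6) hx7 h2
          have hw1 : ¬ Zero α w := fun h' => hzα (h'.of_r (α.symm' h5))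
          have hw2 : ¬ Zero β w := fun h' => h2 (h'.of_r h6)
          obtain ⟨w', hw3, hw4⟩ := hP θ hT w x y (by omega) hl'.symm (hl.trans hl'.symm) hc'.symm
            (hc.trans hc'.symm) β α hβ hα h6 hxy hw2 hw1 hy2 hy1 h2 h1
          exact Or.inl ⟨hy1, hy2, hl.trans h3, hc.trans h4, w', α.trans' h5 hw3, hw4⟩
      · obtain ⟨hl, hc⟩ := same_F2 hX hTβ hxy hx7 h2
        have hy2 : ¬ Zero β y := fun h' => h2 (h'.of_r (β.symm' hxy))
        by_cases hy1 : Zero α y
        · exact Or.inr (Or.inl (hlev β α hβ hα y (hl.trans h3) (hc.trans h4) hy2 hy1))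
        · exact Or.inl ⟨hy1, hy2, hl.trans h3, hc.trans h4, w, h5, β.trans' h6 hxy⟩
    · exact Or.inr ih

theorem hF2 (hI : StInh) (hX : StHX) (hS : StSO) (hP : StPP) : StF2 := by
  intro θ hT α β γ hα hβ hγ hαγ u v hu hv hJ hg
  have hTα : Typ α := hI θ α hα hT
  have hTβ : Typ β := hI θ β hβ hT
  have hJ' : Jn α β v u := by
    refine rtg_symm_F2 ?_ hJ
    rintro a b (h1 | h1)
    · exact Or.inl (α.symm' h1)
    · exact Or.inr (β.symm' h1)
  rcases claim_F2 hX hS hP hT hTα hTβ hα hβ hu hJ with ⟨-, -, -, -, w, h1, h2⟩ | hzu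
  · exact Relation.ReflTransGen.head (Or.inl h1) (Relation.ReflTransGen.single
      (Or.inr ⟨h2, γ.trans' (γ.symm' (hαγ _ _ h1)) hg⟩))
  rcases claim_F2 hX hS hP hT hTα hTβ hα hβ hv hJ' with ⟨-, -, -, -, w, h1, h2⟩ | hzv
  · exact Relation.ReflTransGen.head (Or.inr ⟨β.symm' h2, γ.trans' hg (hαγ _ _ h1)⟩)
      (Relation.ReflTransGen.single (Or.inl (α.symm' h1)))
  rcases hzu with hzu | hzu
  · rcases hzv with hzv | hzv
    · exact Relation.ReflTransGen.single (Or.inl (hzu.eq hzv))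
    · have hγv : Zero γ v := (hzu.le hαγ).of_r hg
      exact Relation.ReflTransGen.head (Or.inl (α.symm' (hzu.2 v).1))
        (Relation.ReflTransGen.single (Or.inr ⟨(hzv.2 u).2, (hγv.2 u).2⟩))
  · rcases hzv with hzv | hzv
    · have hγu : Zero γ u := (hzv.le hαγ).of_r (γ.symm' hg)
      exact Relation.ReflTransGen.head (Or.inr ⟨β.symm' (hzu.2 v).1, γ.symm' (hγu.2 v).1⟩)
        (Relation.ReflTransGen.single (Or.inl (hzv.2 u).2))
    · exact Relation.ReflTransGen.single (Or.inr ⟨hzu.eq hzv, hg⟩)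

end Helper1.IM
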