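import Pool.Agent.Helper1.IM.St

set_option autoImplicit false

namespace Helper1.IM

theorem hG (h1 : StG1) (h2 : StG2) (h3a : StG3a) (h3b : StG3b) (h3c : StG3c) (h4 : StG4)
    (h5 : StG5) (h6 : StG6) (h7 : StG7) : StG := by
  intro θ hn hm
  obtain ⟨v, hv1, hv2, hv3, hv4⟩ := h1 θ hn hm
  obtain ⟨a, ha, hr⟩ := h2 θ v hv1 hv2 hv3 hv4
  simp only [Atoms, List.mem_cons, List.not_mem_nil, or_false] at ha
  rcases ha with rfl | rfl | rfl | rfl | rfl | rfl | rfl | rfl | rfl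
  · exact Or.inr (Or.inr (h7 θ hr))
  · exact Or.inl (h5 θ (h3a θ (Or.inl hr)))
  · exact Or.inl (h5 θ (h3a θ (Or.inr hr)))
  · exact Or.inr (Or.inl (h6 θ (h4 θ (Or.inl hr))))
  · exact Or.inl (h5 θ (h3b θ (Or.inl hr)))
  · exact Or.inr (Or.inl (h6 θ (h4 θ (Or.inr hr))))
  · exact Or.inl (h5 θ (h3b θ (Or.inr hr)))
  · exact Or.inl (h5 θ (h3c θ (Or.inl hr)))
  · exact Or.inl (h5 θ (h3c θ (Or.inr hr)))

end Helper1.IM
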