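import Pool.Agent.Helper1.IM.St

set_option autoImplicit false

namespace Helper1.IM

private theorem rw'_inj_G1 (p : Equiv.Perm ℕ) (e : ℕ → Bool) {u v : Wd} (h : rw' p e u = rw' p e v) :
    u = v := by
  have h1 := rw'_inv p e u
  have h2 := rw'_inv p e v
  rw [← h1, ← h2, h]

private theorem lin_012_G1 : Lin [X 0, X 1, X 2] := by
  unfold Lin X
  decide

private theorem lin_102_G1 : Lin [X 1, X 0, X 2] := by
  unfold Lin X
  decide

/-- MODULE G1: there is a nontrivial linear identity of length 3. -/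
theorem hG1 (hL : StLin) (hP : StP33) : StG1 := by
  intro θ hN hM
  have h0 := hP θ hM
  have h1 : ∃ u v : Wd, u.length = 3 ∧ Lin u ∧ θ.r u v ∧ v ≠ u := by
    by_contra hc
    apply h0
    intro u v hu hl hr
    by_contra hne
    exact hc ⟨u, v, hu, hl, hr, hne⟩
  obtain ⟨u, v, hu, hl, hr, hne⟩ := h1
  by_cases hz : Zero θ u
  · obtain ⟨p, e, hp⟩ := lin_rename hl lin_012_G1 (by simpa using hu)
    obtain ⟨q, f, hq⟩ := lin_rename hl lin_102_G1 (by simpa using hu)
    have z1 : Zero θ [X 0, X 1, X 2] := hp ▸ hz.rw' p e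
    have z2 : Zero θ [X 1, X 0, X 2] := hq ▸ hz.rw' q f
    refine ⟨[X 1, X 0, X 2], rfl, ?_, ?_, z1.eq z2⟩
    · unfold ct X
      decide
    · unfold X
      decide
  · have hc := ct_eq_of hN hr hz
    have hv : Lin v ∧ v.length = u.length := by
      by_contra hcon
      exact hz (hL θ hN u v hl hr hcon)
    obtain ⟨p, e, hp⟩ := lin_rename hl lin_012_G1 (by simpa using hu)
    refine ⟨rw' p e v, ?_, ?_, ?_, ?_⟩
    · rw [rw'_length, hv.2, hu]
    · rw [ct_rw', ← hc, ← ct_rw' p e, hp]
      unfold ct X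
      decide
    · intro hcon
      rw [← hp] at hcon
      exact hne (rw'_inj_G1 p e hcon)
    · have := θ.rn p e hr
      rwa [hp] at this

end Helper1.IM
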