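import Pool.Agent.Helper1.IM.St

/-!
# Project IM, module G2: 47 identities imply one of nine atoms
-/

set_option autoImplicit false

namespace Helper1.IM

/-- the product of two identities -/
def mw_G2 (g h : Wd) : Wd := sb (fun i => [g.getD i (X i)]) h

/-- star and rename -/
def cw_G2 (g : Wd) : Wd := sb (fun i => [Y (2 - i)]) (st g)

/-- the list of products -/
def pr_G2 (g : Wd) : List Wd :=
  let c := cw_G2 g
  [g, mw_G2 g c, mw_G2 c g, mw_G2 g g, mw_G2 c c, mw_G2 g (mw_G2 c g), mw_G2 g (mw_G2 g g),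
    mw_G2 c (mw_G2 g g), mw_G2 c (mw_G2 c g), mw_G2 g (mw_G2 g c), mw_G2 g (mw_G2 c c)]

private theorem mw_r_G2 {θ : FIC} {g h : Wd} (hl : g.length = 3) (hg : θ.r [X 0, X 1, X 2] g)
    (hh : θ.r [X 0, X 1, X 2] h) : θ.r [X 0, X 1, X 2] (mw_G2 g h) := by
  obtain ⟨a, b, c, rfl⟩ := List.length_eq_three.1 hl
  have h1 := θ.sub' (fun i => [[a, b, c].getD i (X i)]) (fun i => by simp) hh
  have h2 : sb (fun i => [[a, b, c].getD i (X i)]) [X 0, X 1, X 2] = [a, b, c] := by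
    simp
  rw [h2] at h1
  exact θ.trans' hg h1

private theorem cw_r_G2 {θ : FIC} {g : Wd} (hg : θ.r [X 0, X 1, X 2] g) :
    θ.r [X 0, X 1, X 2] (cw_G2 g) := by
  have h1 := θ.sub' (fun i => [Y (2 - i)]) (fun i => by simp) (θ.star' hg)
  have h2 : sb (fun i => [Y (2 - i)]) (st [X 0, X 1, X 2]) = [X 0, X 1, X 2] := by
    rfl
  rw [h2] at h1
  exact h1

private theorem len_mw_G2 (g h : Wd) (hl : h.length = 3) : (mw_G2 g h).length = 3 := by
  obtain ⟨a, b, c, rfl⟩ := List.length_eq_three.1 hl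
  rcases a with ⟨i, x⟩
  rcases b with ⟨j, y⟩
  rcases c with ⟨k, z⟩
  cases x <;> cases y <;> cases z <;> simp [mw_G2, sb]

private theorem len_cw_G2 (g : Wd) (hl : g.length = 3) : (cw_G2 g).length = 3 := by
  obtain ⟨a, b, c, rfl⟩ := List.length_eq_three.1 hl
  rcases a with ⟨i, x⟩
  rcases b with ⟨j, y⟩
  rcases c with ⟨k, z⟩
  cases x <;> cases y <;> cases z <;> simp [cw_G2, sb, st, fl, Y]

private theorem pr_r_G2 {θ : FIC} {g : Wd} (hl : g.length = 3) (hg : θ.r [X 0, X 1, X 2] g) :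
    ∀ w ∈ pr_G2 g, θ.r [X 0, X 1, X 2] w := by
  have hc := cw_r_G2 hg
  have lc := len_cw_G2 g hl
  intro w hw
  simp only [pr_G2, List.mem_cons, List.not_mem_nil, or_false] at hw
  rcases hw with rfl | rfl | rfl | rfl | rfl | rfl | rfl | rfl | rfl | rfl | rfl
  · exact hg
  · exact mw_r_G2 hl hg hc
  · exact mw_r_G2 lc hc hg
  · exact mw_r_G2 hl hg hg
  · exact mw_r_G2 lc hc hc
  · exact mw_r_G2 hl hg (mw_r_G2 lc hc hg)
  · exact mw_r_G2 hl hg (mw_r_G2 hl hg hg)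
  · exact mw_r_G2 lc hc (mw_r_G2 hl hg hg)
  · exact mw_r_G2 lc hc (mw_r_G2 lc hc hg)
  · exact mw_r_G2 hl hg (mw_r_G2 hl hg hc)
  · exact mw_r_G2 hl hg (mw_r_G2 lc hc hc)

private theorem chk_G2 : ∀ (i j k : Fin 3) (s t u : Bool), [i, j, k].Nodup →
    ([(i.1, s), (j.1, t), (k.1, u)] : Wd) ≠ [X 0, X 1, X 2] →
    ∃ w ∈ pr_G2 [(i.1, s), (j.1, t), (k.1, u)], w ∈ Atoms := by
  decide +kernel

theorem hG2 : StG2 := by
  intro θ v hl hct hne hr
  obtain ⟨a, b, c, rfl⟩ := List.length_eq_three.1 hl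
  rcases a with ⟨i, s⟩
  rcases b with ⟨j, t⟩
  rcases c with ⟨k, u⟩
  have hs : ct [(i, s), (j, t), (k, u)] = {i, j, k} := by
    simp [ct]
  rw [hs] at hct
  have hi : i < 3 := by
    have : i ∈ ({0, 1, 2} : Finset ℕ) := hct ▸ (by simp)
    simp at this
    omega
  have hj : j < 3 := by
    have : j ∈ ({0, 1, 2} : Finset ℕ) := hct ▸ (by simp)
    simp at this
    omega
  have hk : k < 3 := by
    have : k ∈ ({0, 1, 2} : Finset ℕ) := hct ▸ (by simp)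
    simp at this
    omega
  have h0 : (0 : ℕ) ∈ ({i, j, k} : Finset ℕ) := hct ▸ (by simp)
  have h1 : (1 : ℕ) ∈ ({i, j, k} : Finset ℕ) := hct ▸ (by simp)
  have h2 : (2 : ℕ) ∈ ({i, j, k} : Finset ℕ) := hct ▸ (by simp)
  simp only [Finset.mem_insert, Finset.mem_singleton] at h0 h1 h2
  have hnd : [(⟨i, hi⟩ : Fin 3), ⟨j, hj⟩, ⟨k, hk⟩].Nodup := by
    simp only [List.nodup_cons, List.mem_cons, Fin.mk.injEq, List.not_mem_nil, or_false,
      not_false_eq_true, List.nodup_nil, and_true, not_or]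
    omega
  obtain ⟨w, hw1, hw2⟩ := chk_G2 ⟨i, hi⟩ ⟨j, hj⟩ ⟨k, hk⟩ s t u hnd hne
  exact ⟨w, hw2, pr_r_G2 hl hr w hw1⟩

end Helper1.IM
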