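import Pool.Agent.Helper1.IM.St

/-!
# Project IM, module G3c: two atoms imply TL (explicit chains)
-/

set_option autoImplicit false

namespace Helper1.IM

private theorem ap_G3c {θ : FIC} {w : Wd} (h : θ.r [X 0, X 1, X 2] w) (B1 B2 B3 : Wd) (h1 : B1 ≠ [])
    (h2 : B2 ≠ []) (h3 : B3 ≠ []) (a b : Wd) :
    θ.r (a ++ (B1 ++ B2 ++ B3) ++ b)
      (a ++ sb (fun i => if i = 0 then B1 else if i = 1 then B2 else B3) w ++ b) := by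
  have h4 := θ.sub' (fun i => if i = 0 then B1 else if i = 1 then B2 else B3) (fun i => by
    split_ifs
    · exact h1
    · exact h2
    · exact h3) h
  have h5 := θ.mul' a b h4
  simpa using h5

theorem hG3c : StG3c := by
  intro θ hh
  rcases hh with h | h
  · have I : ∀ (a B1 B2 B3 b : Wd), B1 ≠ [] → B2 ≠ [] → B3 ≠ [] →
        θ.r (a ++ (B1 ++ B2 ++ B3) ++ b) (a ++ (st B3 ++ B2 ++ st B1) ++ b) := by
      intro a B1 B2 B3 b h1 h2 h3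
      have := ap_G3c h B1 B2 B3 h1 h2 h3 a b
      simpa using this
    have J : ∀ (a B1 B2 B3 b : Wd), B1 ≠ [] → B2 ≠ [] → B3 ≠ [] →
        θ.r (a ++ (st B3 ++ B2 ++ st B1) ++ b) (a ++ (B1 ++ B2 ++ B3) ++ b) :=
      fun a B1 B2 B3 b h1 h2 h3 => θ.symm' (I a B1 B2 B3 b h1 h2 h3)
    refine ⟨?_, ?_, ?_, ?_, ?_⟩
    · have s1 : θ.r [X 0, X 1, X 2, X 3, X 4] [Y 3, X 1, X 2, Y 0, X 4] :=
        I [] [X 0] [X 1, X 2] [X 3] [X 4] (by simp) (by simp) (by simp)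
      have s2 : θ.r [Y 3, X 1, X 2, Y 0, X 4] [Y 3, X 0, X 2, Y 1, X 4] :=
        I [Y 3] [X 1] [X 2] [Y 0] [X 4] (by simp) (by simp) (by simp)
      have s3 : θ.r [Y 3, X 0, X 2, Y 1, X 4] [X 1, X 0, X 2, X 3, X 4] :=
        I [] [Y 3] [X 0, X 2] [Y 1] [X 4] (by simp) (by simp) (by simp)
      exact θ.trans' s1 (θ.trans' s2 s3)
    · have s1 : θ.r [X 0, X 1, X 2, X 3, X 4] [Y 4, X 2, X 3, Y 1, Y 0] :=
        I [] [X 0, X 1] [X 2, X 3] [X 4] [] (by simp) (by simp) (by simp)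
      have s2 : θ.r [Y 4, X 2, X 3, Y 1, Y 0] [Y 4, X 1, X 3, Y 2, Y 0] :=
        I [Y 4] [X 2] [X 3] [Y 1] [Y 0] (by simp) (by simp) (by simp)
      have s3 : θ.r [Y 4, X 1, X 3, Y 2, Y 0] [X 0, X 2, X 1, X 3, X 4] :=
        I [] [Y 4] [X 1, X 3] [Y 2, Y 0] [] (by simp) (by simp) (by simp)
      exact θ.trans' s1 (θ.trans' s2 s3)
    · have s1 : θ.r [X 0, X 1, X 2, X 3, X 4] [Y 2, X 1, Y 0, X 3, X 4] :=
        I [] [X 0] [X 1] [X 2] [X 3, X 4] (by simp) (by simp) (by simp)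
      have s2 : θ.r [Y 2, X 1, Y 0, X 3, X 4] [Y 3, X 1, Y 0, X 2, X 4] :=
        I [] [Y 2] [X 1, Y 0] [X 3] [X 4] (by simp) (by simp) (by simp)
      have s3 : θ.r [Y 3, X 1, Y 0, X 2, X 4] [X 0, X 1, X 3, X 2, X 4] :=
        I [] [Y 3] [X 1] [Y 0] [X 2, X 4] (by simp) (by simp) (by simp)
      exact θ.trans' s1 (θ.trans' s2 s3)
    · have s1 : θ.r [X 0, X 1, X 2, X 3, X 4] [Y 3, Y 2, X 1, Y 0, X 4] :=
        I [] [X 0] [X 1] [X 2, X 3] [X 4] (by simp) (by simp) (by simp)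
      have s2 : θ.r [Y 3, Y 2, X 1, Y 0, X 4] [Y 4, Y 2, X 1, Y 0, X 3] :=
        I [] [Y 3] [Y 2, X 1, Y 0] [X 4] [] (by simp) (by simp) (by simp)
      have s3 : θ.r [Y 4, Y 2, X 1, Y 0, X 3] [X 0, X 1, X 2, X 4, X 3] :=
        I [] [Y 4, Y 2] [X 1] [Y 0] [X 3] (by simp) (by simp) (by simp)
      exact θ.trans' s1 (θ.trans' s2 s3)
    · have s1 : θ.r [X 0, X 1, X 2, X 3, X 4] [Y 2, X 1, Y 0, X 3, X 4] :=
        I [] [X 0] [X 1] [X 2] [X 3, X 4] (by simp) (by simp) (by simp)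
      have s2 : θ.r [Y 2, X 1, Y 0, X 3, X 4] [Y 3, X 1, Y 0, X 2, X 4] :=
        I [] [Y 2] [X 1, Y 0] [X 3] [X 4] (by simp) (by simp) (by simp)
      have s3 : θ.r [Y 3, X 1, Y 0, X 2, X 4] [Y 4, Y 0, X 2, Y 1, X 3] :=
        I [] [Y 3, X 1] [Y 0, X 2] [X 4] [] (by simp) (by simp) (by simp)
      have s4 : θ.r [Y 4, Y 0, X 2, Y 1, X 3] [Y 3, X 1, X 2, X 0, X 4] :=
        I [] [Y 4, Y 0] [X 2] [Y 1, X 3] [] (by simp) (by simp) (by simp)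
      have s5 : θ.r [Y 3, X 1, X 2, X 0, X 4] [Y 0, X 1, X 2, X 3, X 4] :=
        I [] [Y 3] [X 1, X 2] [X 0] [X 4] (by simp) (by simp) (by simp)
      exact θ.trans' s1 (θ.trans' s2 (θ.trans' s3 (θ.trans' s4 s5)))
  · have I : ∀ (a B1 B2 B3 b : Wd), B1 ≠ [] → B2 ≠ [] → B3 ≠ [] →
        θ.r (a ++ (B1 ++ B2 ++ B3) ++ b) (a ++ (st B3 ++ st B2 ++ st B1) ++ b) := by
      intro a B1 B2 B3 b h1 h2 h3
      have := ap_G3c h B1 B2 B3 h1 h2 h3 a b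
      simpa using this
    have J : ∀ (a B1 B2 B3 b : Wd), B1 ≠ [] → B2 ≠ [] → B3 ≠ [] →
        θ.r (a ++ (st B3 ++ st B2 ++ st B1) ++ b) (a ++ (B1 ++ B2 ++ B3) ++ b) :=
      fun a B1 B2 B3 b h1 h2 h3 => θ.symm' (I a B1 B2 B3 b h1 h2 h3)
    refine ⟨?_, ?_, ?_, ?_, ?_⟩
    · have s1 : θ.r [X 0, X 1, X 2, X 3, X 4] [Y 4, Y 3, Y 2, Y 1, Y 0] :=
        I [] [X 0] [X 1] [X 2, X 3, X 4] [] (by simp) (by simp) (by simp)
      have s2 : θ.r [Y 4, Y 3, Y 2, Y 1, Y 0] [X 2, X 3, X 4, Y 1, Y 0] :=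
        I [] [Y 4] [Y 3] [Y 2] [Y 1, Y 0] (by simp) (by simp) (by simp)
      have s3 : θ.r [X 2, X 3, X 4, Y 1, Y 0] [X 1, Y 4, Y 3, Y 2, Y 0] :=
        I [] [X 2] [X 3] [X 4, Y 1] [Y 0] (by simp) (by simp) (by simp)
      have s4 : θ.r [X 1, Y 4, Y 3, Y 2, Y 0] [X 1, X 0, X 2, X 3, X 4] :=
        I [X 1] [Y 4] [Y 3] [Y 2, Y 0] [] (by simp) (by simp) (by simp)
      exact θ.trans' s1 (θ.trans' s2 (θ.trans' s3 s4))
    · have s1 : θ.r [X 0, X 1, X 2, X 3, X 4] [Y 2, Y 1, Y 0, X 3, X 4] :=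
        I [] [X 0] [X 1] [X 2] [X 3, X 4] (by simp) (by simp) (by simp)
      have s2 : θ.r [Y 2, Y 1, Y 0, X 3, X 4] [Y 4, Y 3, X 0, X 1, X 2] :=
        I [] [Y 2] [Y 1] [Y 0, X 3, X 4] [] (by simp) (by simp) (by simp)
      have s3 : θ.r [Y 4, Y 3, X 0, X 1, X 2] [Y 0, X 3, X 4, X 1, X 2] :=
        I [] [Y 4] [Y 3] [X 0] [X 1, X 2] (by simp) (by simp) (by simp)
      have s4 : θ.r [Y 0, X 3, X 4, X 1, X 2] [Y 1, Y 4, Y 3, X 0, X 2] :=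
        I [] [Y 0] [X 3] [X 4, X 1] [X 2] (by simp) (by simp) (by simp)
      have s5 : θ.r [Y 1, Y 4, Y 3, X 0, X 2] [Y 1, Y 2, Y 0, X 3, X 4] :=
        I [Y 1] [Y 4] [Y 3] [X 0, X 2] [] (by simp) (by simp) (by simp)
      have s6 : θ.r [Y 1, Y 2, Y 0, X 3, X 4] [X 0, X 2, X 1, X 3, X 4] :=
        I [] [Y 1] [Y 2] [Y 0] [X 3, X 4] (by simp) (by simp) (by simp)
      exact θ.trans' s1 (θ.trans' s2 (θ.trans' s3 (θ.trans' s4 (θ.trans' s5 s6))))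
    · have s1 : θ.r [X 0, X 1, X 2, X 3, X 4] [Y 3, Y 2, Y 1, Y 0, X 4] :=
        I [] [X 0] [X 1] [X 2, X 3] [X 4] (by simp) (by simp) (by simp)
      have s2 : θ.r [Y 3, Y 2, Y 1, Y 0, X 4] [Y 4, X 0, X 1, X 2, X 3] :=
        I [] [Y 3] [Y 2] [Y 1, Y 0, X 4] [] (by simp) (by simp) (by simp)
      have s3 : θ.r [Y 4, X 0, X 1, X 2, X 3] [Y 1, Y 0, X 4, X 2, X 3] :=
        I [] [Y 4] [X 0] [X 1] [X 2, X 3] (by simp) (by simp) (by simp)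
      have s4 : θ.r [Y 1, Y 0, X 4, X 2, X 3] [Y 2, Y 4, X 0, X 1, X 3] :=
        I [] [Y 1] [Y 0] [X 4, X 2] [X 3] (by simp) (by simp) (by simp)
      have s5 : θ.r [Y 2, Y 4, X 0, X 1, X 3] [Y 2, Y 3, Y 1, Y 0, X 4] :=
        I [Y 2] [Y 4] [X 0] [X 1, X 3] [] (by simp) (by simp) (by simp)
      have s6 : θ.r [Y 2, Y 3, Y 1, Y 0, X 4] [X 0, X 1, X 3, X 2, X 4] :=
        I [] [Y 2] [Y 3] [Y 1, Y 0] [X 4] (by simp) (by simp) (by simp)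
      exact θ.trans' s1 (θ.trans' s2 (θ.trans' s3 (θ.trans' s4 (θ.trans' s5 s6))))
    · have s1 : θ.r [X 0, X 1, X 2, X 3, X 4] [Y 2, Y 1, Y 0, X 3, X 4] :=
        I [] [X 0] [X 1] [X 2] [X 3, X 4] (by simp) (by simp) (by simp)
      have s2 : θ.r [Y 2, Y 1, Y 0, X 3, X 4] [Y 3, X 0, X 1, X 2, X 4] :=
        I [] [Y 2] [Y 1] [Y 0, X 3] [X 4] (by simp) (by simp) (by simp)
      have s3 : θ.r [Y 3, X 0, X 1, X 2, X 4] [Y 4, Y 2, Y 1, Y 0, X 3] :=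
        I [] [Y 3] [X 0] [X 1, X 2, X 4] [] (by simp) (by simp) (by simp)
      have s4 : θ.r [Y 4, Y 2, Y 1, Y 0, X 3] [X 0, X 1, X 2, X 4, X 3] :=
        I [] [Y 4] [Y 2] [Y 1, Y 0] [X 3] (by simp) (by simp) (by simp)
      exact θ.trans' s1 (θ.trans' s2 (θ.trans' s3 s4))
    · have s1 : θ.r [X 0, X 1, X 2, X 3, X 4] [Y 2, Y 1, Y 0, X 3, X 4] :=
        I [] [X 0] [X 1] [X 2] [X 3, X 4] (by simp) (by simp) (by simp)
      have s2 : θ.r [Y 2, Y 1, Y 0, X 3, X 4] [Y 3, X 0, X 1, X 2, X 4] :=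
        I [] [Y 2] [Y 1] [Y 0, X 3] [X 4] (by simp) (by simp) (by simp)
      have s3 : θ.r [Y 3, X 0, X 1, X 2, X 4] [Y 1, Y 0, X 3, X 2, X 4] :=
        I [] [Y 3] [X 0] [X 1] [X 2, X 4] (by simp) (by simp) (by simp)
      have s4 : θ.r [Y 1, Y 0, X 3, X 2, X 4] [Y 4, Y 2, Y 3, X 0, X 1] :=
        I [] [Y 1] [Y 0] [X 3, X 2, X 4] [] (by simp) (by simp) (by simp)
      have s5 : θ.r [Y 4, Y 2, Y 3, X 0, X 1] [Y 4, Y 0, X 3, X 2, X 1] :=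
        I [Y 4] [Y 2] [Y 3] [X 0] [X 1] (by simp) (by simp) (by simp)
      have s6 : θ.r [Y 4, Y 0, X 3, X 2, X 1] [Y 3, X 0, X 4, X 2, X 1] :=
        I [] [Y 4] [Y 0] [X 3] [X 2, X 1] (by simp) (by simp) (by simp)
      have s7 : θ.r [Y 3, X 0, X 4, X 2, X 1] [Y 3, Y 2, Y 4, Y 0, X 1] :=
        I [Y 3] [X 0] [X 4] [X 2] [X 1] (by simp) (by simp) (by simp)
      have s8 : θ.r [Y 3, Y 2, Y 4, Y 0, X 1] [Y 3, Y 2, Y 1, X 0, X 4] :=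
        I [Y 3, Y 2] [Y 4] [Y 0] [X 1] [] (by simp) (by simp) (by simp)
      have s9 : θ.r [Y 3, Y 2, Y 1, X 0, X 4] [Y 0, X 1, X 2, X 3, X 4] :=
        I [] [Y 3] [Y 2] [Y 1, X 0] [X 4] (by simp) (by simp) (by simp)
      exact θ.trans' s1 (θ.trans' s2 (θ.trans' s3 (θ.trans' s4 (θ.trans' s5 (θ.trans' s6 (θ.trans' s7 (θ.trans' s8 s9)))))))

end Helper1.IM
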