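import Pool.Agent.Helper1.IM.St

/-!
# Project IM, module G4: the atoms `yzx` and `zyx` imply CL
-/

set_option autoImplicit false

namespace Helper1.IM

private theorem ap_G4 {θ : FIC} {w : Wd} (h : θ.r [X 0, X 1, X 2] w) (B1 B2 B3 : Wd) (h1 : B1 ≠ [])
    (h2 : B2 ≠ []) (h3 : B3 ≠ []) (a b : Wd) :
    θ.r (a ++ (B1 ++ B2 ++ B3) ++ b)
      (a ++ sb (fun i => if i = 0 then B1 else if i = 1 then B2 else B3) w ++ b) := by
  have h4 := θ.sub' (fun i => if i = 0 then B1 else if i = 1 then B2 else B3) (fun i => by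
    split_ifs
    · exact h1
    · exact h2
    · exact h3) h
  have h5 := θ.mul' a b h4
  simpa using h5

theorem hG4 : StG4 := by
  intro θ hh
  rcases hh with h | h
  · have I : ∀ (a B1 B2 B3 b : Wd), B1 ≠ [] → B2 ≠ [] → B3 ≠ [] →
        θ.r (a ++ (B1 ++ B2 ++ B3) ++ b) (a ++ (B2 ++ B3 ++ B1) ++ b) := by
      intro a B1 B2 B3 b h1 h2 h3
      have := ap_G4 h B1 B2 B3 h1 h2 h3 a b
      simpa using this
    have J : ∀ (a B1 B2 B3 b : Wd), B1 ≠ [] → B2 ≠ [] → B3 ≠ [] →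
        θ.r (a ++ (B1 ++ B2 ++ B3) ++ b) (a ++ (B3 ++ B1 ++ B2) ++ b) :=
      fun a B1 B2 B3 b h1 h2 h3 => θ.symm' (I a B3 B1 B2 b h3 h1 h2)
    have j1 : θ.r [X 0, X 1, X 2, X 3] [X 2, X 0, X 1, X 3] :=
      J [] [X 0] [X 1] [X 2] [X 3] (by simp) (by simp) (by simp)
    have j2 : θ.r [X 2, X 0, X 1, X 3] [X 0, X 1, X 3, X 2] :=
      I [] [X 2] [X 0] [X 1, X 3] [] (by simp) (by simp) (by simp)
    refine ⟨?_, ?_, ?_⟩
    · have s1 : θ.r [X 0, X 1, X 2, X 3] [X 1, X 2, X 3, X 0] :=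
        I [] [X 0] [X 1] [X 2, X 3] [] (by simp) (by simp) (by simp)
      have s2 : θ.r [X 1, X 2, X 3, X 0] [X 1, X 0, X 2, X 3] :=
        J [X 1] [X 2] [X 3] [X 0] [] (by simp) (by simp) (by simp)
      exact θ.trans' s1 s2
    · have s3 : θ.r [X 0, X 1, X 3, X 2] [X 0, X 2, X 1, X 3] :=
        J [X 0] [X 1] [X 3] [X 2] [] (by simp) (by simp) (by simp)
      exact θ.trans' j1 (θ.trans' j2 s3)
    · exact θ.trans' j1 j2
  · have R : ∀ (a B1 B2 B3 b : Wd), B1 ≠ [] → B2 ≠ [] → B3 ≠ [] →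
        θ.r (a ++ (B1 ++ B2 ++ B3) ++ b) (a ++ (B3 ++ B2 ++ B1) ++ b) := by
      intro a B1 B2 B3 b h1 h2 h3
      have := ap_G4 h B1 B2 B3 h1 h2 h3 a b
      simpa using this
    have j1 : θ.r [X 0, X 1, X 2, X 3] [X 2, X 1, X 0, X 3] :=
      R [] [X 0] [X 1] [X 2] [X 3] (by simp) (by simp) (by simp)
    refine ⟨?_, ?_, ?_⟩
    · have s1 : θ.r [X 2, X 1, X 0, X 3] [X 3, X 0, X 2, X 1] :=
        R [] [X 2, X 1] [X 0] [X 3] [] (by simp) (by simp) (by simp)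
      have s2 : θ.r [X 3, X 0, X 2, X 1] [X 1, X 0, X 2, X 3] :=
        R [] [X 3] [X 0, X 2] [X 1] [] (by simp) (by simp) (by simp)
      exact θ.trans' j1 (θ.trans' s1 s2)
    · have s1 : θ.r [X 2, X 1, X 0, X 3] [X 0, X 3, X 1, X 2] :=
        R [] [X 2] [X 1] [X 0, X 3] [] (by simp) (by simp) (by simp)
      have s2 : θ.r [X 0, X 3, X 1, X 2] [X 0, X 2, X 1, X 3] :=
        R [X 0] [X 3] [X 1] [X 2] [] (by simp) (by simp) (by simp)
      exact θ.trans' j1 (θ.trans' s1 s2)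
    · have s1 : θ.r [X 2, X 1, X 0, X 3] [X 3, X 1, X 0, X 2] :=
        R [] [X 2] [X 1, X 0] [X 3] [] (by simp) (by simp) (by simp)
      have s2 : θ.r [X 3, X 1, X 0, X 2] [X 0, X 1, X 3, X 2] :=
        R [] [X 3] [X 1] [X 0] [X 2] (by simp) (by simp) (by simp)
      exact θ.trans' j1 (θ.trans' s1 s2)

end Helper1.IM
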