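import Pool.Agent.Helper1.IM.St

/-! # Project IM, module G5: TL implies T5 -/

set_option autoImplicit false

namespace Helper1.IM

/-- Adjacent swaps in words of length at least `N` generate all permutations. -/
private theorem perm_swap_G5 (θ : FIC) (N : ℕ)
    (hs : ∀ (a b : Wd) (c d : Lt), N ≤ (a ++ [c, d] ++ b).length → θ.r (a ++ [c, d] ++ b) (a ++ [d, c] ++ b))
    {l l' : Wd} (h : l.Perm l') : ∀ a b : Wd, N ≤ (a ++ l ++ b).length → θ.r (a ++ l ++ b) (a ++ l' ++ b) := by
  induction h with
  | nil => intro a b _; exact θ.refl' _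
  | cons x _ ih =>
    intro a b hl
    have h1 := ih (a ++ [x]) b (by simpa [List.append_assoc] using hl)
    simpa [List.append_assoc] using h1
  | swap x y l =>
    intro a b hl
    have h1 := hs a (l ++ b) y x (by simpa [List.append_assoc] using hl)
    simpa [List.append_assoc] using h1
  | trans h1 h2 ih1 ih2 =>
    intro a b hl
    refine θ.trans' (ih1 a b hl) (ih2 a b ?_)
    have := h1.length_eq
    simp only [List.length_append] at hl ⊢
    omega

private theorem inst_G5 (θ : FIC) (h : TL θ) (A B C D E : Wd) (hA : A ≠ []) (hB : B ≠ []) (hC : C ≠ [])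
    (hD : D ≠ []) (hE : E ≠ []) :
    θ.r (A ++ B ++ C ++ D ++ E) (B ++ A ++ C ++ D ++ E) ∧ θ.r (A ++ B ++ C ++ D ++ E) (A ++ C ++ B ++ D ++ E) ∧
      θ.r (A ++ B ++ C ++ D ++ E) (A ++ B ++ D ++ C ++ E) ∧ θ.r (A ++ B ++ C ++ D ++ E) (A ++ B ++ C ++ E ++ D) ∧
      θ.r (A ++ B ++ C ++ D ++ E) (st A ++ B ++ C ++ D ++ E) := by
  set f : ℕ → Wd := fun i => match i with | 0 => A | 1 => B | 2 => C | 3 => D | _ => E with hf
  have hfn : ∀ i, f i ≠ [] := by
    intro i
    rcases i with _ | _ | _ | _ | i
    · exact hA
    · exact hB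
    · exact hC
    · exact hD
    · exact hE
  have e0 : f 0 = A := rfl
  have e1 : f 1 = B := rfl
  have e2 : f 2 = C := rfl
  have e3 : f 3 = D := rfl
  have e4 : f 4 = E := rfl
  obtain ⟨h1, h2, h3, h4, h5⟩ := h
  refine ⟨?_, ?_, ?_, ?_, ?_⟩
  · have := θ.sub' f hfn h1
    simpa [e0, e1, e2, e3, e4, List.append_assoc] using this
  · have := θ.sub' f hfn h2
    simpa [e0, e1, e2, e3, e4, List.append_assoc] using this
  · have := θ.sub' f hfn h3
    simpa [e0, e1, e2, e3, e4, List.append_assoc] using this
  · have := θ.sub' f hfn h4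
    simpa [e0, e1, e2, e3, e4, List.append_assoc] using this
  · have := θ.sub' f hfn h5
    simpa [e0, e1, e2, e3, e4, List.append_assoc] using this

private theorem swap_G5 (θ : FIC) (h : TL θ) (a b : Wd) (c d : Lt) (hl : 5 ≤ (a ++ [c, d] ++ b).length) :
    θ.r (a ++ [c, d] ++ b) (a ++ [d, c] ++ b) := by
  simp only [List.length_append, List.length_cons, List.length_nil] at hl
  rcases Nat.lt_or_ge a.length 3 with ha | ha
  · rcases a with _ | ⟨x, a⟩
    · rcases b with _ | ⟨y, b⟩
      · simp at hl
      · rcases b with _ | ⟨z, b⟩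
        · simp at hl
        · have hb : b ≠ [] := by
            rintro rfl
            simp at hl
          have := (inst_G5 θ h [c] [d] [y] [z] b (by simp) (by simp) (by simp) (by simp) hb).1
          simpa [List.append_assoc] using this
    · rcases a with _ | ⟨y, a⟩
      · rcases b with _ | ⟨z, b⟩
        · simp at hl
        · have hb : b ≠ [] := by
            rintro rfl
            simp at hl
          have := (inst_G5 θ h [x] [c] [d] [z] b (by simp) (by simp) (by simp) (by simp) hb).2.1
          simpa [List.append_assoc] using this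
      · have ha' : a = [] := by
          rcases a with _ | ⟨z, a⟩
          · rfl
          · simp at ha
            omega
        subst ha'
        have hb : b ≠ [] := by
          rintro rfl
          simp at hl
        have := (inst_G5 θ h [x] [y] [c] [d] b (by simp) (by simp) (by simp) (by simp) hb).2.2.1
        simpa [List.append_assoc] using this
  · obtain ⟨a', x, rfl⟩ : ∃ a' x, a = a' ++ [x] :=
      ⟨a.dropLast, a.getLast (by rintro rfl; simp at ha), (List.dropLast_append_getLast _).symm⟩
    obtain ⟨a'', y, rfl⟩ : ∃ a'' y, a' = a'' ++ [y] :=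
      ⟨a'.dropLast, a'.getLast (by rintro rfl; simp at ha), (List.dropLast_append_getLast _).symm⟩
    have ha' : a'' ≠ [] := by
      rintro rfl
      simp at ha
    have := θ.mulR b (inst_G5 θ h a'' [y] [x] [c] [d] ha' (by simp) (by simp) (by simp) (by simp)).2.2.2.1
    simpa [List.append_assoc] using this

/-- Starring the first letter. -/
private theorem star0_G5 (θ : FIC) (h : TL θ) (c : Lt) (r : Wd) (hl : 4 ≤ r.length) :
    θ.r (c :: r) (fl c :: r) := by
  rcases r with _ | ⟨x, r⟩
  · simp at hl
  rcases r with _ | ⟨y, r⟩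
  · simp at hl
  rcases r with _ | ⟨z, r⟩
  · simp at hl
  have hr : r ≠ [] := by
    rintro rfl
    simp at hl
  have := (inst_G5 θ h [c] [x] [y] [z] r (by simp) (by simp) (by simp) (by simp) hr).2.2.2.2
  simpa [List.append_assoc] using this

private theorem star_G5 (θ : FIC) (h : TL θ) (c : Lt) (a b : Wd) (hl : 4 ≤ (a ++ b).length) :
    θ.r (a ++ [c] ++ b) (a ++ [fl c] ++ b) := by
  have hsw := fun (a b : Wd) (c d : Lt) (hl : 5 ≤ (a ++ [c, d] ++ b).length) => swap_G5 θ h a b c d hl
  have hp : ∀ c : Lt, θ.r (a ++ [c] ++ b) (c :: (a ++ b)) := by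
    intro c
    have hperm : (a ++ [c] ++ b).Perm (c :: (a ++ b)) := by
      simpa [List.append_assoc] using (List.perm_middle (a := c) (l₁ := a) (l₂ := b))
    have := perm_swap_G5 θ 5 hsw hperm [] [] (by
      simp only [List.length_append, List.length_cons, List.length_nil] at hl ⊢
      omega)
    simpa using this
  exact θ.trans' (hp c) (θ.trans' (star0_G5 θ h c (a ++ b) hl) (θ.symm' (hp (fl c))))

private theorem norm_G5 (θ : FIC) (h : TL θ) (l : Wd) : ∀ a : Wd, 5 ≤ (a ++ l).length →
    θ.r (a ++ l) (a ++ l.map (fun b => (b.1, false))) := by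
  induction l with
  | nil => intro a _; exact θ.refl' _
  | cons c l ih =>
    intro a hl
    have h1 : θ.r (a ++ c :: l) (a ++ (c.1, false) :: l) := by
      rcases c with ⟨i, b⟩
      cases b
      · exact θ.refl' _
      · have := star_G5 θ h (i, true) a l (by
          simp only [List.length_append, List.length_cons] at hl ⊢
          omega)
        simpa [fl, List.append_assoc] using this
    have h2 := ih (a ++ [(c.1, false)]) (by
      simp only [List.length_append, List.length_cons, List.length_nil] at hl ⊢
      omega)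
    refine θ.trans' h1 ?_
    simpa [List.append_assoc] using h2

theorem hG5 : StG5 := by
  intro θ h u v hu hp
  have hlen : v.length = u.length := by simpa using hp.length_eq.symm
  have h1 := norm_G5 θ h u [] (by simpa using hu)
  have h2 := norm_G5 θ h v [] (by simpa [hlen] using hu)
  have h3 : (u.map (fun b : Lt => ((b.1, false) : Lt))).Perm (v.map (fun b => (b.1, false))) := by
    have := hp.map (fun i : ℕ => ((i, false) : Lt))
    simpa [List.map_map, Function.comp_def] using this
  have hsw := fun (a b : Wd) (c d : Lt) (hl : 5 ≤ (a ++ [c, d] ++ b).length) => swap_G5 θ h a b c d hl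
  have h4 := perm_swap_G5 θ 5 hsw h3 [] [] (by simpa using hu)
  simp only [List.nil_append, List.append_nil] at h1 h2 h4
  exact θ.trans' h1 (θ.trans' h4 (θ.symm' h2))

end Helper1.IM
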