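import Pool.Agent.Helper1.IM.St

/-! # Project IM, module G6: CL implies C4 -/

set_option autoImplicit false

namespace Helper1.IM

/-- Adjacent swaps in words of length at least `N` generate all permutations. -/
private theorem perm_swap_G6 (θ : FIC) (N : ℕ)
    (hs : ∀ (a b : Wd) (c d : Lt), N ≤ (a ++ [c, d] ++ b).length → θ.r (a ++ [c, d] ++ b) (a ++ [d, c] ++ b))
    {l l' : Wd} (h : l.Perm l') : ∀ a b : Wd, N ≤ (a ++ l ++ b).length → θ.r (a ++ l ++ b) (a ++ l' ++ b) := by
  induction h with
  | nil => intro a b _; exact θ.refl' _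
  | cons x _ ih =>
    intro a b hl
    have h1 := ih (a ++ [x]) b (by simpa [List.append_assoc] using hl)
    simpa [List.append_assoc] using h1
  | swap x y l =>
    intro a b hl
    have h1 := hs a (l ++ b) y x (by simpa [List.append_assoc] using hl)
    simpa [List.append_assoc] using h1
  | trans h1 h2 ih1 ih2 =>
    intro a b hl
    refine θ.trans' (ih1 a b hl) (ih2 a b ?_)
    have := h1.length_eq
    simp only [List.length_append] at hl ⊢
    omega

private theorem inst_G6 (θ : FIC) (h : CL θ) (A B C D : Wd) (hA : A ≠ []) (hB : B ≠ []) (hC : C ≠ []) (hD : D ≠ []) :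
    θ.r (A ++ B ++ C ++ D) (B ++ A ++ C ++ D) ∧ θ.r (A ++ B ++ C ++ D) (A ++ C ++ B ++ D) ∧
      θ.r (A ++ B ++ C ++ D) (A ++ B ++ D ++ C) := by
  set f : ℕ → Wd := fun i => match i with | 0 => A | 1 => B | 2 => C | _ => D with hf
  have hfn : ∀ i, f i ≠ [] := by
    intro i
    rcases i with _ | _ | _ | i
    · exact hA
    · exact hB
    · exact hC
    · exact hD
  have e0 : f 0 = A := rfl
  have e1 : f 1 = B := rfl
  have e2 : f 2 = C := rfl
  have e3 : f 3 = D := rfl
  obtain ⟨h1, h2, h3⟩ := h
  refine ⟨?_, ?_, ?_⟩
  · have := θ.sub' f hfn h1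
    simpa [e0, e1, e2, e3, List.append_assoc] using this
  · have := θ.sub' f hfn h2
    simpa [e0, e1, e2, e3, List.append_assoc] using this
  · have := θ.sub' f hfn h3
    simpa [e0, e1, e2, e3, List.append_assoc] using this

theorem hG6 : StG6 := by
  intro θ h u v hu hp
  have hs : ∀ (a b : Wd) (c d : Lt), 4 ≤ (a ++ [c, d] ++ b).length →
      θ.r (a ++ [c, d] ++ b) (a ++ [d, c] ++ b) := by
    intro a b c d hl
    simp only [List.length_append, List.length_cons, List.length_nil] at hl
    rcases Nat.lt_or_ge a.length 2 with ha | ha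
    · rcases a with _ | ⟨x, a⟩
      · -- `b` has length at least two
        rcases b with _ | ⟨y, b⟩
        · simp at hl
        · have hb : b ≠ [] := by
            rintro rfl
            simp at hl
          have := (inst_G6 θ h [c] [d] [y] b (by simp) (by simp) (by simp) hb).1
          simpa [List.append_assoc] using this
      · have ha' : a = [] := by
          rcases a with _ | ⟨z, a⟩
          · rfl
          · simp at ha
        subst ha'
        have hb : b ≠ [] := by
          rintro rfl
          simp at hl
        have := (inst_G6 θ h [x] [c] [d] b (by simp) (by simp) (by simp) hb).2.1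
        simpa [List.append_assoc] using this
    · obtain ⟨a', x, rfl⟩ : ∃ a' x, a = a' ++ [x] :=
        ⟨a.dropLast, a.getLast (by rintro rfl; simp at ha), (List.dropLast_append_getLast _).symm⟩
      have ha' : a' ≠ [] := by
        rintro rfl
        simp at ha
      have := θ.mulR b (inst_G6 θ h a' [x] [c] [d] ha' (by simp) (by simp) (by simp)).2.2
      simpa [List.append_assoc] using this
  have := perm_swap_G6 θ 4 hs hp [] [] (by simpa using hu)
  simpa using this

end Helper1.IM
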