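import Pool.Agent.Helper1.IM.St

/-!
# Project IM, module G7: the identity xyz = x y* z implies M3
-/

set_option autoImplicit false

namespace Helper1.IM

private theorem ap_G7 {θ : FIC} {w : Wd} (h : θ.r [X 0, X 1, X 2] w) (B1 B2 B3 : Wd) (h1 : B1 ≠ [])
    (h2 : B2 ≠ []) (h3 : B3 ≠ []) (a b : Wd) :
    θ.r (a ++ (B1 ++ B2 ++ B3) ++ b)
      (a ++ sb (fun i => if i = 0 then B1 else if i = 1 then B2 else B3) w ++ b) := by
  have h4 := θ.sub' (fun i => if i = 0 then B1 else if i = 1 then B2 else B3) (fun i => by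
    split_ifs
    · exact h1
    · exact h2
    · exact h3) h
  have h5 := θ.mul' a b h4
  simpa using h5

theorem hG7 : StG7 := by
  intro θ h a b
  have S : ∀ (B1 B2 B3 : Wd), B1 ≠ [] → B2 ≠ [] → B3 ≠ [] →
      θ.r (B1 ++ (B2 ++ B3)) (B1 ++ (st B2 ++ B3)) := by
    intro B1 B2 B3 h1 h2 h3
    have := ap_G7 h B1 B2 B3 h1 h2 h3 [] []
    simpa using this
  have W : ∀ (P m1 m2 Q : Wd), P ≠ [] → Q ≠ [] → m1 ≠ [] → m2 ≠ [] →
      θ.r (P ++ (m1 ++ (m2 ++ Q))) (P ++ (m2 ++ (m1 ++ Q))) := by
    intro P m1 m2 Q hP hQ hm1 hm2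
    have s1 := S P m1 (m2 ++ Q) hP hm1 (by simp [hQ])
    have s2 := S (P ++ st m1) m2 Q (by simp [hP]) hm2 hQ
    have s3 := S P (st (m2 ++ m1)) Q hP (by simp [hm1]) hQ
    simp only [List.append_assoc, st_append, st_st] at s1 s2 s3
    exact θ.trans' s1 (θ.trans' s2 s3)
  have U : ∀ (m p q : Wd), θ.r (a :: p ++ (m ++ (q ++ [b])))
      (a :: p ++ (m.map (fun c => (c.1, false)) ++ (q ++ [b]))) := by
    intro m
    induction m with
    | nil => intro p q; exact θ.refl' _
    | cons c m ih =>
      intro p q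
      have t1 : θ.r (a :: p ++ ((c :: m) ++ (q ++ [b])))
          (a :: p ++ (((c.1, false) :: m) ++ (q ++ [b]))) := by
        rcases c with ⟨i, s⟩
        cases s
        · exact θ.refl' _
        · have := S (a :: p) [(i, true)] (m ++ (q ++ [b])) (by simp) (by simp) (by simp)
          simpa [st, fl] using this
      have t2 := ih (p ++ [(c.1, false)]) q
      simp only [List.append_assoc, List.cons_append, List.nil_append, List.map_cons] at t1 t2 ⊢
      exact θ.trans' t1 t2
  have V : ∀ (l l' : List ℕ), l.Perm l' → ∀ (p q : Wd),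
      θ.r (a :: p ++ (l.map X ++ (q ++ [b]))) (a :: p ++ (l'.map X ++ (q ++ [b]))) := by
    intro l l' hl
    induction hl with
    | nil => intro p q; exact θ.refl' _
    | cons x _ ih =>
      intro p q
      have t2 := ih (p ++ [X x]) q
      simp only [List.append_assoc, List.cons_append, List.nil_append, List.map_cons] at t2 ⊢
      exact t2
    | swap x y l =>
      intro p q
      have t := W (a :: p) [X y] [X x] (l.map X ++ (q ++ [b])) (by simp) (by simp) (by simp)
        (by simp)
      simp only [List.append_assoc, List.cons_append, List.nil_append, List.map_cons] at t ⊢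
      exact t
    | trans _ _ ih1 ih2 =>
      intro p q
      exact θ.trans' (ih1 p q) (ih2 p q)
  intro m m' _ hp
  have u1 := U m [] []
  have u2 := U m' [] []
  have v := V _ _ hp [] []
  have e : ∀ w : Wd, (w.map Prod.fst).map X = w.map (fun c => (c.1, false)) := by
    intro w
    rw [List.map_map]
    rfl
  rw [e, e] at v
  have r := θ.trans' u1 (θ.trans' v (θ.symm' u2))
  simpa using r

end Helper1.IM
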