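import Pool.Agent.Helper1.IM.St3
import Pool.Agent.Helper1.IM.Bas

/-!
# Project IM, module Glue: glueing low and high degree
-/

set_option autoImplicit false

namespace Helper1.IM

section glue

variable {θ α β γ : FIC}

private theorem rtg_map {r p : Wd → Wd → Prop} (f : Wd → Wd) (h : ∀ a b, r a b → p (f a) (f b)) {u v : Wd}
    (hr : Relation.ReflTransGen r u v) : Relation.ReflTransGen p (f u) (f v) := by
  induction hr with
  | refl => exact Relation.ReflTransGen.refl
  | tail _ hab ih => exact ih.tail (h _ _ hab)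

private theorem rtg_symm {r : Wd → Wd → Prop} (h : ∀ a b, r a b → r b a) {u v : Wd}
    (hr : Relation.ReflTransGen r u v) : Relation.ReflTransGen r v u := by
  induction hr with
  | refl => exact Relation.ReflTransGen.refl
  | tail _ hab ih => exact Relation.ReflTransGen.head (h _ _ hab) ih

private theorem jm_symm {u v : Wd} (h : Jm α β γ u v) : Jm α β γ v u := by
  refine rtg_symm ?_ h
  rintro a b (h1 | ⟨h1, h2⟩)
  · exact Or.inl (α.symm' h1)
  · exact Or.inr ⟨β.symm' h1, γ.symm' h2⟩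

private theorem jn_symm {u v : Wd} (h : Jn α β u v) : Jn α β v u := by
  refine rtg_symm ?_ h
  rintro a b (h1 | h1)
  · exact Or.inl (α.symm' h1)
  · exact Or.inr (β.symm' h1)

private theorem jm_mul {u v : Wd} (a b : Wd) (h : Jm α β γ u v) :
    Jm α β γ (a ++ u ++ b) (a ++ v ++ b) := by
  refine rtg_map (fun w => a ++ w ++ b) ?_ h
  rintro x y (h1 | ⟨h1, h2⟩)
  · exact Or.inl (α.mul' a b h1)
  · exact Or.inr ⟨β.mul' a b h1, γ.mul' a b h2⟩

private theorem jm_jn {u v : Wd} (h : Jm α β γ u v) : Jn α β u v := by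
  refine rtg_map (fun w => w) ?_ h
  rintro x y (h1 | ⟨h1, h2⟩)
  · exact Or.inl h1
  · exact Or.inr h1

/-- zero modulo the relation `Jm` -/
private def SZ (α β γ : FIC) (w : Wd) : Prop :=
  ∀ x, Jm α β γ (w ++ x) w ∧ Jm α β γ (x ++ w) w

private theorem sz_of_left {w : Wd} (h : Zero α w) : SZ α β γ w := fun x =>
  ⟨Relation.ReflTransGen.single (Or.inl (h.2 x).1), Relation.ReflTransGen.single (Or.inl (h.2 x).2)⟩

private theorem sz_of_right {w : Wd} (h : Zero β w) (h' : Zero γ w) : SZ α β γ w := fun x =>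
  ⟨Relation.ReflTransGen.single (Or.inr ⟨(h.2 x).1, (h'.2 x).1⟩),
    Relation.ReflTransGen.single (Or.inr ⟨(h.2 x).2, (h'.2 x).2⟩)⟩

private theorem sz_eq {w w' : Wd} (h : SZ α β γ w) (h' : SZ α β γ w') : Jm α β γ w w' :=
  (jm_symm (h w').1).trans (h' w).2

private theorem sz_of_jm {w w' : Wd} (h : SZ α β γ w) (h' : Jm α β γ w w') : SZ α β γ w' := by
  intro x
  constructor
  · have h1 := jm_mul [] x h'
    simp only [List.nil_append] at h1
    exact (jm_symm h1).trans ((h x).1.trans h')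
  · have h1 := jm_mul x [] h'
    simp only [List.append_nil] at h1
    exact (jm_symm h1).trans ((h x).2.trans h')

end glue

theorem hGlue (hI : StInh) (hX : StHX) (hS : StSat) (hF : StF2) : StGlue := by
  intro θ hT h7 α β γ hα hβ hγ hαγ u v hJ hg
  have hTα : Typ α := hI θ α hα hT
  have hTβ : Typ β := hI θ β hβ hT
  have hTγ : Typ γ := hI θ γ hγ hT
  -- short saturated words are zero
  have h1 : ∀ δ : FIC, Typ δ → ∀ w : Wd, w.length ≤ 6 → sat 7 δ w → Zero δ w := by
    rintro δ hδ w hw ⟨w1, hr, hl⟩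
    exact hX δ hδ w w1 hr (by omega) hl
  obtain ⟨α', hα1, hα2, hα3⟩ := hS 7 α (by norm_num)
  obtain ⟨β', hβ1, hβ2, hβ3⟩ := hS 7 β (by norm_num)
  obtain ⟨γ', hγ1, hγ2, hγ3⟩ := hS 7 γ (by norm_num)
  have hαγ' : Le α' γ' := by
    intro x y hxy
    rw [hα1] at hxy
    rw [hγ1]
    rcases hxy with hxy | ⟨⟨a, ha, ha'⟩, b, hb, hb'⟩
    · exact Or.inl (hαγ _ _ hxy)
    · exact Or.inr ⟨⟨a, hαγ _ _ ha, ha'⟩, b, hαγ _ _ hb, hb'⟩
  have hJ' : ∀ x y, Jn α β x y → Jn α' β' x y := by
    intro x y h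
    refine rtg_map (fun w => w) ?_ h
    rintro a b (h2 | h2)
    · exact Or.inl (hα2 _ _ h2)
    · exact Or.inr (hβ2 _ _ h2)
  have hpath : ∀ x y, Jn α β x y → γ.r x y → Jm α' β' γ' x y := by
    intro x y hx hy
    exact h7 α' β' γ' (fun a b h => hα2 _ _ (hα a b h)) (fun a b h => hβ2 _ _ (hβ a b h))
      (fun a b h => hγ2 _ _ (hγ a b h)) hα3 hβ3 hγ3 hαγ' x y (hJ' x y hx) (hγ2 _ _ hy)
  -- one step
  have hstep : ∀ w w1 : Wd, (α'.r w w1 ∨ (β'.r w w1 ∧ γ'.r w w1)) → w.length ≤ 6 →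
      (Jm α β γ w w1 ∧ w1.length ≤ 6) ∨ SZ α β γ w := by
    intro w w1 hs hw
    rcases hs with hs | ⟨hs, hs'⟩
    · rw [hα1] at hs
      rcases hs with hs | hs
      · by_cases hl : w1.length ≤ 6
        · exact Or.inl ⟨Relation.ReflTransGen.single (Or.inl hs), hl⟩
        · exact Or.inr (sz_of_left (h1 α hTα w hw ⟨w1, hs, by omega⟩))
      · exact Or.inr (sz_of_left (h1 α hTα w hw hs.1))
    · rw [hβ1] at hs
      rw [hγ1] at hs'
      by_cases hl : w1.length ≤ 6
      · rcases hs with hs | hs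
        · rcases hs' with hs' | hs'
          · exact Or.inl ⟨Relation.ReflTransGen.single (Or.inr ⟨hs, hs'⟩), hl⟩
          · exact Or.inl ⟨Relation.ReflTransGen.single
              (Or.inr ⟨hs, (h1 γ hTγ w hw hs'.1).eq (h1 γ hTγ w1 hl hs'.2)⟩), hl⟩
        · rcases hs' with hs' | hs'
          · exact Or.inl ⟨Relation.ReflTransGen.single
              (Or.inr ⟨(h1 β hTβ w hw hs.1).eq (h1 β hTβ w1 hl hs.2), hs'⟩), hl⟩
          · exact Or.inr (sz_of_right (h1 β hTβ w hw hs.1) (h1 γ hTγ w hw hs'.1))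
      · have hb : sat 7 β w := by
          rcases hs with hs | hs
          · exact ⟨w1, hs, by omega⟩
          · exact hs.1
        have hc : sat 7 γ w := by
          rcases hs' with hs' | hs'
          · exact ⟨w1, hs', by omega⟩
          · exact hs'.1
        exact Or.inr (sz_of_right (h1 β hTβ w hw hb) (h1 γ hTγ w hw hc))
  -- paths
  have hwalk : ∀ x y : Wd, Jm α' β' γ' x y → x.length ≤ 6 →
      (Jm α β γ x y ∧ y.length ≤ 6) ∨ SZ α β γ x := by
    intro x y h
    induction h using Relation.ReflTransGen.head_induction_on with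
    | refl => exact fun hl => Or.inl ⟨Relation.ReflTransGen.refl, hl⟩
    | head hs _ ih =>
      intro hl
      rcases hstep _ _ hs hl with ⟨h2, h3⟩ | h2
      · rcases ih h3 with ⟨h4, h5⟩ | h4
        · exact Or.inl ⟨h2.trans h4, h5⟩
        · exact Or.inr (sz_of_jm h4 (jm_symm h2))
      · exact Or.inr h2
  -- mixed lengths
  have hmix : ∀ x y : Wd, Jn α β x y → γ.r x y → x.length ≤ 6 → 7 ≤ y.length → Jm α β γ x y := by
    intro x y hx hy hlx hly
    have hsx : SZ α β γ x := by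
      rcases hwalk x y (hpath x y hx hy) hlx with ⟨-, h2⟩ | h2
      · omega
      · exact h2
    have hzx : Zero γ x := hX γ hTγ x y hy (by omega) hly
    have hzy : Zero γ y := hzx.of_r hy
    obtain ⟨k, -, hk⟩ := hT.1.pow
    have hz : Zero θ (List.replicate (k + 7) [X 0]).flatten := hk [X 0] (by simp) (k + 7) (by omega)
    have hlz : 7 ≤ (List.replicate (k + 7) [X 0]).flatten.length := by
      simp
    have hxz : Jm α β γ x (List.replicate (k + 7) [X 0]).flatten := sz_eq hsx (sz_of_left (hz.le hα))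
    have hyz := hF θ hT α β γ hα hβ hγ hαγ y (List.replicate (k + 7) [X 0]).flatten hly hlz
      ((jn_symm hx).trans (jm_jn hxz)) (hzy.eq (hz.le hγ))
    exact hxz.trans (jm_symm hyz)
  by_cases hu : u.length ≤ 6
  · by_cases hv : v.length ≤ 6
    · rcases hwalk u v (hpath u v hJ hg) hu with ⟨h2, -⟩ | h2
      · exact h2
      · rcases hwalk v u (hpath v u (jn_symm hJ) (γ.symm' hg)) hv with ⟨h3, -⟩ | h3
        · exact jm_symm h3
        · exact sz_eq h2 h3
    · exact hmix u v hJ hg hu (by omega)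
  · by_cases hv : v.length ≤ 6
    · exact jm_symm (hmix v u (jn_symm hJ) (γ.symm' hg) hv (by omega))
    · exact hF θ hT α β γ hα hβ hγ hαγ u v (by omega) (by omega) hJ hg

end Helper1.IM
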