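import Pool.Agent.Helper1.IM.St

/-!
# IM module H
-/

set_option autoImplicit false

namespace Helper1.IM

theorem hH (h4 : StH4) (h5 : StH5) (h6 : StH6) : StH := by
  intro θ hN hS hM
  rcases h4 θ hN hS hM with h | h
  · exact Or.inl (h5 θ hS h)
  · exact Or.inr (h6 θ hS h)

end Helper1.IM
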