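import Pool.Agent.Helper99.IM.Tool

set_option autoImplicit false

namespace Helper1.IM

open Helper1.IM.T99

private def W0 : Wd := [X 0, X 0, X 1, X 2, X 3]

private theorem key_H0 (w : Wd) (h3 : (ct w).card = 3) (hL : ¬ Lin w) (t : ℕ) (ht : t ∉ ct w) :
    ∃ (p : Equiv.Perm ℕ) (e : ℕ → Bool) (r : Wd), Sim (w ++ [X t]) (rw' p e W0 ++ r) ∧
      5 + r.length = w.length + 1 := by
  obtain ⟨i, hi⟩ := exists_two hL
  have him : i ∈ ct w := oc_pos.1 (by omega)
  have h4 : ((ct w).erase i).card = 2 := by rw [Finset.card_erase_of_mem him]; omega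
  obtain ⟨j, k, hjk, hE⟩ := Finset.card_eq_two.1 h4
  have hj : j ∈ (ct w).erase i := by rw [hE]; simp
  have hk : k ∈ (ct w).erase i := by rw [hE]; simp
  rw [Finset.mem_erase] at hj hk
  have hti : t ≠ i := fun h => ht (h ▸ him)
  have htj : t ≠ j := fun h => ht (h ▸ hj.2)
  have htk : t ≠ k := fun h => ht (h ▸ hk.2)
  obtain ⟨sj, hsj⟩ := mem_ct.1 hj.2
  obtain ⟨sk, hsk⟩ := mem_ct.1 hk.2
  obtain ⟨p, e, h0, h1, h2, h3'⟩ := ren4 (i, false) (j, sj) (k, sk) (t, false) hj.1.symm hk.1.symm
    hti.symm hjk htj.symm htk.symm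
  have hoj := oc_pos.2 hj.2
  have hok := oc_pos.2 hk.2
  have hrw : rw' p e W0 = [(i, false), (i, false), (j, sj), (k, sk), (t, false)] := by
    unfold W0
    rw [rw'_X, rw'_X, rw'_X, rw'_X, rw'_X, h0, h1, h2, h3', rw'_nil]
  obtain ⟨r, hr, hl⟩ := ext_sim (w ++ [X t]) (rw' p e W0) (by
    rw [hrw]
    intro l hl
    simp only [ct_cons, ct_nil, Finset.mem_insert, Finset.notMem_empty, or_false] at hl
    have hott : oc t w = 0 := oc_eq_zero.2 ht
    rcases hl with rfl | rfl | rfl | rfl | rfl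
    all_goals simp only [oc_append, oc_cons, oc_nil, X_fst, if_true]
    all_goals simp_all [Ne.symm]
    all_goals omega) (by
    rw [hrw]
    intro c hc h1c
    rw [oc_append] at h1c
    simp only [List.mem_cons, List.not_mem_nil, or_false] at hc
    rcases hc with rfl | rfl | rfl | rfl | rfl
    · exfalso; simp only at h1c; omega
    · exfalso; simp only at h1c; omega
    · exact List.mem_append_left _ hsj
    · exact List.mem_append_left _ hsk
    · exact List.mem_append_right _ (by simp [X]))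
  refine ⟨p, e, r, hr, ?_⟩
  rw [rw'_length, List.length_append] at hl
  simpa [W0] using hl

theorem hH0 : StH0 := by
  intro θ hn hS u v hu hv h3 hr
  by_contra hz
  have hc := ct_eq_of hn (θ.symm' hr) hz
  obtain ⟨t, ht⟩ := exists_fresh u
  have hLu : ¬ Lin u := not_lin_of_card (by omega)
  have hLv : ¬ Lin v := not_lin_of_card (by rw [← hc]; omega)
  obtain ⟨p1, e1, r1, hs1, hl1⟩ := key_H0 v (by rw [← hc]; exact h3) hLv t (by rw [← hc]; exact ht)
  obtain ⟨p2, e2, r2, hs2, hl2⟩ := key_H0 u h3 hLu t ht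
  have hr1 : r1 = [] := List.length_eq_zero_iff.1 (by omega)
  subst hr1
  rw [List.append_nil] at hs1
  have hnl : ∀ w : Wd, ¬ Lin w → ¬ Lin (w ++ [X t]) := by
    intro w hw h
    apply hw
    rw [lin_iff] at h ⊢
    intro i
    have := h i
    rw [oc_append] at this
    omega
  have a1 := hS _ _ (by simp [hv]) (hnl v hLv) hs1
  have a2 := hS _ _ (by simp [hu]) (hnl u hLu) hs2
  have a3 : θ.r (rw' p1 e1 W0) (rw' p2 e2 W0 ++ r2) :=
    θ.trans' (θ.symm' a1) (θ.trans' (θ.mulR _ hr) a2)
  have a4 := θ.rn p1⁻¹ (fun i => e1 (p1⁻¹ i)) a3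
  rw [rw'_inv, rw'_append, rw'_rw'] at a4
  have hZ : Zero θ W0 := by
    refine grow hn (a := []) (b := rw' p1⁻¹ (fun i => e1 (p1⁻¹ i)) r2) _ _ (by simpa using a4) ?_
    intro h
    have := congrArg List.length h
    simp at this
    subst this
    simp at hl2
    omega
  obtain ⟨a, ha⟩ := exists_two hLu
  obtain ⟨r, hr', hl⟩ := ext_sim u [X a, X a] (by
    intro l hl
    simp only [ct_cons, ct_nil, Finset.mem_insert, Finset.notMem_empty, or_false, X_fst, or_self] at hl
    subst hl
    simp only [oc_cons, oc_nil, X_fst, if_true]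
    omega) (by
    intro c hc h1c
    simp only [List.mem_cons, List.not_mem_nil, or_false, or_self] at hc
    subst hc
    exfalso
    simp only [X_fst] at h1c
    omega)
  have hrl : r.length = 3 := by simp at hl; omega
  obtain ⟨x, y, z, rfl⟩ := List.length_eq_three.1 hrl
  have h5 := hS u _ (by omega) hLu hr'
  apply hz
  refine Zero.of_r ?_ (θ.symm' h5)
  have h6 := hZ.sb (fun i => if i = 0 then [X a] else if i = 1 then [x] else if i = 2 then [y] else [z])
    (by intro i; split_ifs <;> simp)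
  simpa [W0] using h6

end Helper1.IM
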