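import Pool.Agent.Helper1.IM.St

/-!
# MP_265e56_al, project IM: module H2 (if xxyyz is killed then it is zero)
-/

set_option autoImplicit false

namespace Helper1.IM

private theorem oc_rep_H2 (j m i : ℕ) (s : Bool) :
    oc j (List.replicate m (i, s)) = if i = j then m else 0 := by
  simp [oc, List.count_replicate]

private theorem hs_H2 {θ : FIC} (hS : HS θ) {u v : Wd} (hu : 5 ≤ u.length) (hc : ∀ a ∈ u, a.1 < 3)
    (hc' : ∀ a ∈ v, a.1 < 3) (h : ∀ i < 3, oc i u = oc i v)
    (h' : ∀ i < 3, oc i u = 1 → ((i, false) ∈ u ↔ (i, false) ∈ v)) : θ.r u v := by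
  have hz : ∀ w : Wd, (∀ a ∈ w, a.1 < 3) → ∀ i, ¬ i < 3 → oc i w = 0 := by
    intro w hw i hi
    rw [oc_eq_zero, mem_ct]
    rintro ⟨b, hb⟩
    exact hi (hw _ hb)
  refine hS u v hu ?_ ⟨?_, ?_⟩
  · refine not_lin_of_card ?_
    have h1 : ct u ⊆ Finset.range 3 := by
      intro i hi
      obtain ⟨b, hb⟩ := mem_ct.1 hi
      exact Finset.mem_range.2 (hc _ hb)
    have h2 := Finset.card_le_card h1
    rw [Finset.card_range] at h2
    omega
  · rw [perm_iff_oc]
    intro i
    by_cases hi : i < 3
    · exact h i hi
    · rw [hz u hc i hi, hz v hc' i hi]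
  · intro i hi
    by_cases hi3 : i < 3
    · exact h' i hi3 hi
    · rw [hz u hc i hi3] at hi
      omega

/-- two repeated letters -/
private theorem two_H2 {θ : FIC} (hn : NilF θ) (hS : HS θ) {w : Wd} (hr : θ.r E22 w) (hw : 6 ≤ w.length)
    (hc : ∀ a ∈ w, a.1 < 3) (a b c : ℕ) (ha : a < 3) (hb : b < 3) (hcc : c < 3) (hab : a ≠ b)
    (hac : a ≠ c) (hbc : b ≠ c) (h1 : 2 ≤ oc a w) (h2 : 2 ≤ oc b w) (h3 : 1 ≤ oc c w)
    (hlen : oc a w + oc b w + oc c w = w.length) : Zero θ E22 := by
  set σ : Bool := !decide ((c, false) ∈ w) with hσ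
  have hσ' : (c, false) ∈ w ↔ σ = false := by
    rw [hσ]
    simp
  set r : Wd := List.replicate (oc a w - 2) (a, false) ++ List.replicate (oc b w - 2) (b, false) ++
    List.replicate (oc c w - 1) (c, false) with hrd
  have hrne : [] ++ r ≠ [] := by
    intro h
    have h4 := congrArg List.length h
    rw [hrd] at h4
    simp only [List.nil_append, List.length_append, List.length_replicate, List.length_nil] at h4
    omega
  obtain ⟨p, hp⟩ := exists_perm_extend (Finset.range 3)
    (fun i => if i = 0 then a else if i = 1 then b else c) (by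
      intro i hi j hj hij
      simp only [Finset.coe_range, Set.mem_Iio] at hi hj
      dsimp only at hij
      split_ifs at hij <;> omega)
  have p0 : p 0 = a := by simpa using hp 0 (by simp)
  have p1 : p 1 = b := by simpa using hp 1 (by simp)
  have p2 : p 2 = c := by simpa using hp 2 (by simp)
  have hE : rw' p (fun i => if i = 2 then σ else false) E22 =
      [(a, false), (a, false), (b, false), (b, false), (c, σ)] := by
    simp [E22, X, p0, p1, p2]
  have hcase : ∀ i, i < 3 → i = a ∨ i = b ∨ i = c := by
    intro i hi
    omega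
  refine grow hn (a := []) (b := r) p (fun i => if i = 2 then σ else false) ?_ hrne
  refine θ.trans' hr ?_
  rw [hE]
  refine hs_H2 hS (by omega) hc ?_ ?_ ?_
  · intro x hx
    simp only [hrd, List.nil_append, List.mem_append, List.mem_cons, List.not_mem_nil, or_false,
      List.mem_replicate] at hx
    rcases hx with (h | h | h | h | h) | (h | h) | h
    all_goals (first | (rw [h]; assumption) | (rw [h.2]; assumption))
  · intro i hi
    simp only [hrd, List.nil_append, oc_append, oc_cons, oc_nil, oc_rep_H2]
    rcases hcase i hi with rfl | rfl | rfl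
    · simp only [hab.symm, hac.symm, if_true, if_false]
      omega
    · simp only [hab, hbc.symm, if_true, if_false]
      omega
    · simp only [hac, hbc, if_true, if_false]
      omega
  · intro i hi h4
    rcases hcase i hi with rfl | rfl | rfl
    · omega
    · omega
    · rw [hσ']
      have h5 : oc i w - 1 = 0 := by omega
      simp only [hrd, h5, List.nil_append, List.mem_append, List.mem_cons, List.not_mem_nil, or_false,
        List.mem_replicate, Prod.mk.injEq, and_true, hac.symm, hbc.symm, false_or, and_false,
        true_and, List.replicate_zero]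
      exact eq_comm

private theorem sb_rep_H2 (f : ℕ → Wd) (i : ℕ) (hf : f i = [X i]) (m : ℕ) (s : Bool) :
    sb f (List.replicate m (i, s)) = List.replicate m (i, s) := by
  induction m with
  | zero => rfl
  | succ m ih =>
    rw [List.replicate_succ, sb_cons, ih]
    cases s <;> simp [hf, X, fl]

/-- the letter 0 is repeated -/
private theorem fst_H2 {θ : FIC} (hn : NilF θ) (hS : HS θ) {w : Wd} (hr : θ.r E22 w)
    (hc : ∀ a ∈ w, a.1 < 3) (h0 : 4 ≤ oc 0 w) (h1 : oc 1 w = 1) (h2 : oc 2 w = 1)
    (hlen : oc 0 w + oc 1 w + oc 2 w = w.length) : Zero θ E22 := by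
  set m := oc 0 w with hm
  set τ : Bool := !decide ((1, false) ∈ w) with hτ
  set ρ : Bool := !decide ((2, false) ∈ w) with hρ
  have hτ' : (1, false) ∈ w ↔ τ = false := by rw [hτ]; simp
  have hρ' : (2, false) ∈ w ↔ ρ = false := by rw [hρ]; simp
  set N : Wd := List.replicate m (0, false) ++ [(1, τ), (2, ρ)] with hN
  have hwN : θ.r w N := by
    refine hs_H2 hS (by omega) hc ?_ ?_ ?_
    · intro x hx
      simp only [hN, List.mem_append, List.mem_replicate, List.mem_cons, List.not_mem_nil,
        or_false] at hx
      rcases hx with h | h | h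
      · rw [h.2]; norm_num
      · rw [h]; norm_num
      · rw [h]; norm_num
    · intro i hi
      interval_cases i <;> simp [hN, oc_rep_H2, oc_cons, ← hm, h1, h2]
    · intro i hi h4
      interval_cases i
      · omega
      · rw [hτ']
        rcases Bool.eq_false_or_eq_true τ with ht | ht <;> simp [hN, ht]
      · rw [hρ']
        rcases Bool.eq_false_or_eq_true ρ with ht | ht <;> simp [hN, ht]
  have hEN := θ.trans' hr hwN
  set Z : Wd := [X 0, X 0, X 0, X 0, X 1, X 2] with hZ
  have hZ0 : Zero θ Z := by
    have hs := θ.sub' (fun i => if i = 0 then [X 0] else if i = 1 then [X 0] else [X 1, X 2])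
      (by intro i; split_ifs <;> simp) hEN
    have e1 : sb (fun i => if i = 0 then [X 0] else if i = 1 then [X 0] else [X 1, X 2]) E22 = Z := by
      simp [E22, hZ]
    rw [e1, hN, sb_append, sb_rep_H2 _ 0 (by simp)] at hs
    refine grow hn (a := []) (b := List.replicate (m - 3) (0, false)) 1
      (fun i => if i = 0 then false else ρ) ?_ ?_
    · refine θ.trans' hs ?_
      refine hs_H2 hS ?_ ?_ ?_ ?_ ?_
      · have h7 := length_sb_ge (fun i => if i = 0 then [X 0] else if i = 1 then [X 0] else [X 1, X 2])
          (by intro i; split_ifs <;> simp) [(1, τ), (2, ρ)]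
        simp only [List.length_cons, List.length_nil] at h7
        simp only [List.length_append, List.length_replicate]
        omega
      · intro x hx
        rcases Bool.eq_false_or_eq_true τ with ht | ht <;>
        rcases Bool.eq_false_or_eq_true ρ with hh | hh <;>
        · simp only [ht, hh, sb_cons, sb_nil, List.mem_append, List.mem_replicate] at hx
          simp [X, fl] at hx
          rcases hx with h | h | h | h
          · rw [h.2]; norm_num
          · rw [h]; norm_num
          · rw [h]; norm_num
          · rw [h]; norm_num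
      · intro x hx
        simp only [hZ, X, rw'_cons, rw'_nil, List.nil_append, List.mem_append, List.mem_replicate,
          List.mem_cons, List.not_mem_nil, or_false] at hx
        rcases hx with (h | h | h | h | h | h) | h
        · rw [h]; simp
        · rw [h]; simp
        · rw [h]; simp
        · rw [h]; simp
        · rw [h]; simp
        · rw [h]; simp
        · rw [h.2]; simp
      · intro i hi
        rcases Bool.eq_false_or_eq_true τ with ht | ht <;>
        rcases Bool.eq_false_or_eq_true ρ with hh | hh <;>
        interval_cases i <;> simp [ht, hh, sb_cons, hZ, X, fl, oc_rep_H2, oc_cons] <;> omega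
      · intro i hi h4
        rcases Bool.eq_false_or_eq_true τ with ht | ht <;>
        rcases Bool.eq_false_or_eq_true ρ with hh | hh <;>
        interval_cases i <;> simp [ht, hh, sb_cons, hZ, X, fl, oc_rep_H2, oc_cons] at h4 ⊢ <;> omega
    · intro h
      have h4 := congrArg List.length h
      simp only [List.nil_append, List.length_replicate, List.length_nil] at h4
      omega
  have hN0 : Zero θ N := by
    have hz := (hZ0.rw' 1 (fun i => if i = 0 then false else if i = 1 then τ else ρ)).mulR
      (List.replicate (m - 4) (0, false))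
    refine hz.of_r ?_
    refine hs_H2 hS ?_ ?_ ?_ ?_ ?_
    · simp only [hZ, List.length_append, rw'_length, List.length_cons, List.length_nil]
      omega
    · intro x hx
      simp only [hZ, X, rw'_cons, rw'_nil, List.mem_append, List.mem_replicate,
        List.mem_cons, List.not_mem_nil, or_false] at hx
      rcases hx with (h | h | h | h | h | h) | h
      · rw [h]; simp
      · rw [h]; simp
      · rw [h]; simp
      · rw [h]; simp
      · rw [h]; simp
      · rw [h]; simp
      · rw [h.2]; simp
    · intro x hx
      simp only [hN, List.mem_append, List.mem_replicate, List.mem_cons, List.not_mem_nil,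
        or_false] at hx
      rcases hx with h | h | h
      · rw [h.2]; norm_num
      · rw [h]; norm_num
      · rw [h]; norm_num
    · intro i hi
      interval_cases i <;> simp [hN, hZ, X, oc_rep_H2, oc_cons] <;> omega
    · intro i hi h4
      interval_cases i <;> simp [hN, hZ, X, oc_rep_H2, oc_cons] at h4 ⊢
  exact hN0.of_r (θ.symm' hEN)

/-- the letter 2 is repeated -/
private theorem snd_H2 {θ : FIC} (hn : NilF θ) (hS : HS θ) {w : Wd} (hr : θ.r E22 w)
    (hc : ∀ a ∈ w, a.1 < 3) (h0 : oc 0 w = 1) (h1 : oc 1 w = 1) (h2 : 4 ≤ oc 2 w)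
    (hlen : oc 0 w + oc 1 w + oc 2 w = w.length) : Zero θ E22 := by
  set m := oc 2 w with hm
  set σ : Bool := !decide ((0, false) ∈ w) with hσ
  set τ : Bool := !decide ((1, false) ∈ w) with hτ
  have hσ' : (0, false) ∈ w ↔ σ = false := by rw [hσ]; simp
  have hτ' : (1, false) ∈ w ↔ τ = false := by rw [hτ]; simp
  set N : Wd := List.replicate m (2, false) ++ [(0, σ), (1, τ)] with hN
  have hNc : ∀ a ∈ N, a.1 < 3 := by
    intro x hx
    simp only [hN, List.mem_append, List.mem_replicate, List.mem_cons, List.not_mem_nil,
      or_false] at hx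
    rcases hx with h | h | h
    · rw [h.2]; norm_num
    · rw [h]; norm_num
    · rw [h]; norm_num
  have hwN : θ.r w N := by
    refine hs_H2 hS (by omega) hc hNc ?_ ?_
    · intro i hi
      interval_cases i <;> simp [hN, oc_rep_H2, oc_cons, ← hm, h0, h1]
    · intro i hi h4
      interval_cases i
      · rw [hσ']
        rcases Bool.eq_false_or_eq_true σ with ht | ht <;> simp [hN, ht]
      · rw [hτ']
        rcases Bool.eq_false_or_eq_true τ with ht | ht <;> simp [hN, ht]
      · omega
  have hEN := θ.trans' hr hwN
  set f : ℕ → Wd := fun i => if i = 0 then [X 2] else if i = 1 then [X 2] else [X 0, X 1] with hf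
  have hfne : ∀ i, f i ≠ [] := by
    intro i
    rw [hf]
    dsimp only
    split_ifs <;> simp
  have f0 : f 0 = [X 2] := rfl
  have f1 : f 1 = [X 2] := rfl
  have f2 : f 2 = [X 0, X 1] := rfl
  set B : Wd := sb f (List.replicate m (2, false)) with hB
  have hBo : ∀ k, (∀ a ∈ sb f (List.replicate k (2, false)), a.1 < 3) ∧
      oc 0 (sb f (List.replicate k (2, false))) = k ∧ oc 1 (sb f (List.replicate k (2, false))) = k ∧
      oc 2 (sb f (List.replicate k (2, false))) = 0 := by
    intro k
    induction k with
    | zero => simp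
    | succ k ih =>
      obtain ⟨i1, i2, i3, i4⟩ := ih
      rw [List.replicate_succ, sb_cons]
      simp only [f2, Bool.false_eq_true, if_false]
      refine ⟨?_, ?_, ?_, ?_⟩
      · intro a ha
        rw [List.mem_append] at ha
        rcases ha with ha | ha
        · simp only [X, List.mem_cons, List.not_mem_nil, or_false] at ha
          rcases ha with h | h <;> rw [h] <;> norm_num
        · exact i1 a ha
      · simp [oc_cons, X, i2]; omega
      · simp [oc_cons, X, i3]; omega
      · simp [oc_cons, X, i4]
  obtain ⟨hB1, hB2, hB3, hB4⟩ := hBo m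
  rw [← hB] at hB1 hB2 hB3 hB4
  have hBl : B.length = 2 * m := by
    have h5 := length_eq_sum B
    have h6 : ∑ i ∈ ct B, oc i B = ∑ i ∈ Finset.range 3, oc i B := by
      refine Finset.sum_subset ?_ ?_
      · intro i hi
        obtain ⟨b, hb⟩ := mem_ct.1 hi
        exact Finset.mem_range.2 (hB1 _ hb)
      · intro i _ hi
        exact oc_eq_zero.2 hi
    rw [h6] at h5
    simp only [Finset.sum_range_succ, Finset.sum_range_zero, hB2, hB3, hB4] at h5
    omega
  set Z : Wd := [X 2, X 2, X 2, X 2, X 0, X 1] with hZ
  set T : Wd := List.replicate m (0, false) ++ List.replicate m (1, false) ++ [X 2, X 2] with hT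
  have hTc : ∀ a ∈ T, a.1 < 3 := by
    intro x hx
    simp only [hT, X, List.mem_append, List.mem_replicate, List.mem_cons, List.not_mem_nil,
      or_false] at hx
    rcases hx with (h | h) | h | h
    · rw [h.2]; norm_num
    · rw [h.2]; norm_num
    · rw [h]; norm_num
    · rw [h]; norm_num
  have hZT : θ.r Z T := by
    have hs := θ.sub' f hfne hEN
    have e1 : sb f E22 = Z := by
      simp [E22, hZ, f0, f1, f2]
    rw [e1, hN, sb_append, ← hB] at hs
    refine θ.trans' hs ?_
    have e2 : sb f [(0, σ), (1, τ)] = [(2, σ), (2, τ)] := by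
      rcases Bool.eq_false_or_eq_true τ with ht | ht <;>
      rcases Bool.eq_false_or_eq_true σ with hh | hh <;>
      simp [ht, hh, sb_cons, f0, f1, X, fl]
    rw [e2]
    refine hs_H2 hS ?_ ?_ hTc ?_ ?_
    · simp only [List.length_append, hBl]
      omega
    · intro x hx
      simp only [List.mem_append, List.mem_cons, List.not_mem_nil, or_false] at hx
      rcases hx with h | h | h
      · exact hB1 x h
      · rw [h]; norm_num
      · rw [h]; norm_num
    · intro i hi
      interval_cases i <;> simp [hT, X, oc_rep_H2, oc_cons, hB2, hB3, hB4]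
    · intro i hi h4
      exfalso
      interval_cases i <;> simp [oc_cons, hB2, hB3, hB4] at h4 <;> omega
  -- the long word
  set e : ℕ → Bool := fun i => if i = 0 then σ else if i = 1 then τ else false with he
  have h5 : θ.r N (rw' 1 e Z ++ List.replicate (m - 4) (2, false)) := by
    refine hs_H2 hS ?_ hNc ?_ ?_ ?_
    · simp only [hN, List.length_append, List.length_replicate, List.length_cons, List.length_nil]
      omega
    · intro x hx
      simp only [hZ, X, rw'_cons, rw'_nil, List.mem_append, List.mem_replicate,
        List.mem_cons, List.not_mem_nil, or_false] at hx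
      rcases hx with (h | h | h | h | h | h) | h
      · rw [h]; simp
      · rw [h]; simp
      · rw [h]; simp
      · rw [h]; simp
      · rw [h]; simp
      · rw [h]; simp
      · rw [h.2]; simp
    · intro i hi
      interval_cases i <;> simp [hN, hZ, X, oc_rep_H2, oc_cons] <;> omega
    · intro i hi h4
      interval_cases i <;> simp [hN, hZ, X, he, oc_rep_H2, oc_cons] at h4 ⊢
      omega
  have h6 := θ.mulR (List.replicate (m - 4) (2, false)) (θ.rn 1 e hZT)
  have h7 : θ.r (rw' 1 e T ++ List.replicate (m - 4) (2, false))
      ([] ++ E22 ++ (List.replicate (m - 2) (0, false) ++ List.replicate (m - 2) (1, false) ++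
        List.replicate (m - 3) (2, false))) := by
    have ocT : ∀ i, oc i (rw' 1 e T) = oc i T := fun i => by
      have := oc_rw' 1 e i T
      simpa using this
    refine hs_H2 hS ?_ ?_ ?_ ?_ ?_
    · simp only [hT, List.length_append, rw'_length, List.length_replicate]
      omega
    · intro x hx
      rw [List.mem_append] at hx
      rcases hx with h | h
      · unfold rw' at h
        rw [List.mem_map] at h
        obtain ⟨y, hy, rfl⟩ := h
        exact hTc y hy
      · rw [List.mem_replicate] at h
        rw [h.2]; norm_num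
    · intro x hx
      simp only [E22, X, List.nil_append, List.mem_append, List.mem_replicate,
        List.mem_cons, List.not_mem_nil, or_false] at hx
      rcases hx with (h | h | h | h | h) | (h | h) | h
      · rw [h]; norm_num
      · rw [h]; norm_num
      · rw [h]; norm_num
      · rw [h]; norm_num
      · rw [h]; norm_num
      · rw [h.2]; norm_num
      · rw [h.2]; norm_num
      · rw [h.2]; norm_num
    · intro i hi
      rw [oc_append, ocT]
      interval_cases i <;> simp [hT, E22, X, oc_rep_H2, oc_cons] <;> omega
    · intro i hi h4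
      exfalso
      rw [oc_append, ocT] at h4
      interval_cases i <;> simp [hT, X, oc_rep_H2, oc_cons] at h4 <;> omega
  refine grow0 hn (θ.trans' hEN (θ.trans' h5 (θ.trans' h6 h7))) ?_
  intro h
  have h4 := congrArg List.length h
  simp only [List.nil_append, List.length_append, List.length_replicate, List.length_nil] at h4
  omega

theorem hH2 : StH2 := by
  intro θ hn hS hK
  obtain ⟨w, hr, hw⟩ := hK
  by_cases hct : ct E22 = ct w
  swap
  · exact (cont hn hr hct).1
  have hctE : ct E22 = {0, 1, 2} := by decide
  have hctw : ct w = {0, 1, 2} := by rw [← hct, hctE]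
  have hcard : (ct w).card = 3 := by rw [hctw]; decide
  have hlen6 : 6 ≤ w.length := by
    rcases hw with h | h <;> omega
  have hc : ∀ a ∈ w, a.1 < 3 := by
    intro a ha
    have h1 : a.1 ∈ ct w := mem_ct.2 ⟨a.2, ha⟩
    rw [hctw] at h1
    simp only [Finset.mem_insert, Finset.mem_singleton] at h1
    omega
  have hlen : oc 0 w + oc 1 w + oc 2 w = w.length := by
    rw [length_eq_sum w, hctw]
    rw [Finset.sum_insert (by decide), Finset.sum_insert (by decide), Finset.sum_singleton]
    ring
  have g0 : 1 ≤ oc 0 w := oc_pos.2 (by rw [hctw]; decide)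
  have g1 : 1 ≤ oc 1 w := oc_pos.2 (by rw [hctw]; decide)
  have g2 : 1 ≤ oc 2 w := oc_pos.2 (by rw [hctw]; decide)
  by_cases h01 : 2 ≤ oc 0 w ∧ 2 ≤ oc 1 w
  · exact two_H2 hn hS hr hlen6 hc 0 1 2 (by omega) (by omega) (by omega) (by omega) (by omega)
      (by omega) h01.1 h01.2 g2 hlen
  by_cases h02 : 2 ≤ oc 0 w ∧ 2 ≤ oc 2 w
  · exact two_H2 hn hS hr hlen6 hc 0 2 1 (by omega) (by omega) (by omega) (by omega) (by omega)
      (by omega) h02.1 h02.2 g1 (by omega)
  by_cases h12 : 2 ≤ oc 1 w ∧ 2 ≤ oc 2 w
  · exact two_H2 hn hS hr hlen6 hc 1 2 0 (by omega) (by omega) (by omega) (by omega) (by omega)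
      (by omega) h12.1 h12.2 g0 (by omega)
  by_cases h0 : 2 ≤ oc 0 w
  · exact fst_H2 hn hS hr hc (by omega) (by omega) (by omega) hlen
  by_cases h2 : 2 ≤ oc 2 w
  · exact snd_H2 hn hS hr hc (by omega) (by omega) (by omega) hlen
  -- the letter 1: exchange 0 and 1
  set p : Equiv.Perm ℕ := Equiv.swap 0 1 with hp
  have h3 := θ.rn p (fun _ => false) hr
  have p0 : p 0 = 1 := Equiv.swap_apply_left 0 1
  have p1 : p 1 = 0 := Equiv.swap_apply_right 0 1
  have p2 : p 2 = 2 := Equiv.swap_apply_of_ne_of_ne (by norm_num) (by norm_num)
  have h4 : θ.r E22 (rw' p (fun _ => false) E22) := by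
    have e : rw' p (fun _ => false) E22 = [X 1, X 1, X 0, X 0, X 2] := by
      simp [E22, X, p0, p1, p2]
    rw [e]
    refine hs_H2 hS (by simp [E22]) ?_ ?_ ?_ ?_
    · intro a ha
      simp only [E22, X, List.mem_cons, List.not_mem_nil, or_false] at ha
      rcases ha with h | h | h | h | h <;> rw [h] <;> norm_num
    · intro a ha
      simp only [X, List.mem_cons, List.not_mem_nil, or_false] at ha
      rcases ha with h | h | h | h | h <;> rw [h] <;> norm_num
    · intro i hi
      interval_cases i <;> rfl
    · intro i hi _
      interval_cases i <;> simp [E22, X]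
  have q0 : oc 0 (rw' p (fun _ => false) w) = oc 1 w := by
    have := oc_rw' p (fun _ => false) 1 w
    rwa [p1] at this
  have q1 : oc 1 (rw' p (fun _ => false) w) = oc 0 w := by
    have := oc_rw' p (fun _ => false) 0 w
    rwa [p0] at this
  have q2 : oc 2 (rw' p (fun _ => false) w) = oc 2 w := by
    have := oc_rw' p (fun _ => false) 2 w
    rwa [p2] at this
  refine fst_H2 hn hS (θ.trans' h4 h3) ?_ (by omega) (by omega) (by omega) ?_
  · intro a ha
    unfold rw' at ha
    rw [List.mem_map] at ha
    obtain ⟨y, hy, rfl⟩ := ha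
    have h5 := hc y hy
    dsimp only
    have h6 : y.1 = 0 ∨ y.1 = 1 ∨ y.1 = 2 := by omega
    rcases h6 with h | h | h <;> rw [h]
    · rw [p0]; norm_num
    · rw [p1]; norm_num
    · rw [p2]; norm_num
  · rw [rw'_length]
    omega

end Helper1.IM
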