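import Pool.Agent.Helper1.IM.St

/-! # IM module H3: relations between words of length 5 with three letters -/

set_option autoImplicit false

namespace Helper1.IM

private theorem three1 {s : Finset ℕ} (h : s.card = 3) {i : ℕ} (hi : i ∈ s) :
    ∃ j k, i ≠ j ∧ i ≠ k ∧ j ≠ k ∧ s = {i, j, k} := by
  have h2 : (s.erase i).card = 2 := by rw [Finset.card_erase_of_mem hi, h]
  obtain ⟨j, k, hjk, he⟩ := Finset.card_eq_two.1 h2
  have hj : j ∈ s.erase i := by rw [he]; simp
  have hk : k ∈ s.erase i := by rw [he]; simp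
  refine ⟨j, k, (Finset.ne_of_mem_erase hj).symm, (Finset.ne_of_mem_erase hk).symm, hjk, ?_⟩
  rw [← Finset.insert_erase hi, he]

private theorem three2 {s : Finset ℕ} (h : s.card = 3) {i j : ℕ} (hi : i ∈ s) (hj : j ∈ s) (hij : i ≠ j) :
    ∃ k, i ≠ k ∧ j ≠ k ∧ s = {i, j, k} := by
  obtain ⟨a, b, ha, hb, hab, he⟩ := three1 h hi
  rw [he] at hj
  simp only [Finset.mem_insert, Finset.mem_singleton] at hj
  rcases hj with h1 | h1 | h1
  · exact absurd h1.symm hij
  · subst h1; exact ⟨b, hb, hab, he⟩
  · subst h1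
    refine ⟨a, ha, hab.symm, ?_⟩
    rw [he, Finset.pair_comm a j]

private theorem len3 {u : Wd} {i j k : ℕ} (hij : i ≠ j) (hik : i ≠ k) (hjk : j ≠ k) (hc : ct u = {i, j, k}) :
    u.length = oc i u + oc j u + oc k u := by
  rw [length_eq_sum, hc, Finset.sum_insert (by simp [hij, hik]), Finset.sum_insert (by simp [hjk]),
    Finset.sum_singleton]
  ring

private theorem oth {u : Wd} {i j k m : ℕ} (hc : ct u = {i, j, k}) (h1 : m ≠ i) (h2 : m ≠ j) (h3 : m ≠ k) :
    oc m u = 0 := by
  rw [oc_eq_zero, hc]; simp [h1, h2, h3]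

private def sg (u : Wd) (j : ℕ) : Bool := !decide ((j, false) ∈ u)

private theorem sg_iff (u : Wd) (j : ℕ) : sg u j = false ↔ (j, false) ∈ u := by simp [sg]

private theorem simI {u w : Wd} (h1 : ∀ m, oc m u = oc m w)
    (h2 : ∀ m, oc m u = 1 → ((m, false) ∈ u ↔ (m, false) ∈ w)) : Sim u w := ⟨perm_iff_oc.2 h1, h2⟩

private theorem mem_of_oc {u : Wd} {i : ℕ} (h : 0 < oc i u) : i ∈ ct u := oc_pos.1 h

/-- canonical form of words with multiplicities (3,1,1) -/
private theorem can3 {θ : FIC} (hS : HS θ) {u : Wd} (hl : u.length = 5) {i j k : ℕ} (hij : i ≠ j) (hik : i ≠ k)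
    (hjk : j ≠ k) (hc : ct u = {i, j, k}) (hi : oc i u = 3) (hj : oc j u = 1) (hk : oc k u = 1) :
    θ.r u [X i, X i, X i, (j, sg u j), (k, sg u k)] := by
  apply hS u _ (by omega) (by rw [lin_iff]; intro h; have := h i; omega)
  apply simI
  · intro m
    by_cases h1 : m = i
    · subst h1; rw [hi]; simp [oc_cons, hij.symm, hik.symm]
    by_cases h2 : m = j
    · subst h2; rw [hj]; simp [oc_cons, hij, hjk.symm]
    by_cases h3 : m = k
    · subst h3; rw [hk]; simp [oc_cons, hik, hjk]
    rw [oth hc h1 h2 h3]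
    simp [oc_cons, Ne.symm h1, Ne.symm h2, Ne.symm h3]
  · intro m hm
    by_cases h1 : m = i
    · subst h1; omega
    by_cases h2 : m = j
    · subst h2; rw [← sg_iff]; simp [X, hij.symm, hjk]
    by_cases h3 : m = k
    · subst h3; rw [← sg_iff]; simp [X, hik.symm, hjk.symm]
    rw [oth hc h1 h2 h3] at hm
    omega

/-- canonical form of words with multiplicities (2,2,1) -/
private theorem can2 {θ : FIC} (hS : HS θ) {u : Wd} (hl : u.length = 5) {i j k : ℕ} (hij : i ≠ j) (hik : i ≠ k)
    (hjk : j ≠ k) (hc : ct u = {i, j, k}) (hi : oc i u = 2) (hj : oc j u = 2) (hk : oc k u = 1) :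
    θ.r u [X i, X i, X j, X j, (k, sg u k)] := by
  apply hS u _ (by omega) (by rw [lin_iff]; intro h; have := h i; omega)
  apply simI
  · intro m
    by_cases h1 : m = i
    · subst h1; rw [hi]; simp [oc_cons, hij.symm, hik.symm]
    by_cases h2 : m = j
    · subst h2; rw [hj]; simp [oc_cons, hij, hjk.symm]
    by_cases h3 : m = k
    · subst h3; rw [hk]; simp [oc_cons, hik, hjk]
    rw [oth hc h1 h2 h3]
    simp [oc_cons, Ne.symm h1, Ne.symm h2, Ne.symm h3]
  · intro m hm
    by_cases h1 : m = i
    · subst h1; omega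
    by_cases h2 : m = j
    · subst h2; omega
    by_cases h3 : m = k
    · subst h3; rw [← sg_iff]; simp [X, hik.symm, hjk.symm]
    rw [oth hc h1 h2 h3] at hm
    omega

/-- the four letters `i j k l` are different -/
private structure D4 (i j k l : ℕ) : Prop where
  ij : i ≠ j
  ik : i ≠ k
  il : i ≠ l
  jk : j ≠ k
  jl : j ≠ l
  kl : k ≠ l

private theorem toF4 {θ : FIC} {i j k l : ℕ} (hd : D4 i j k l) (h : Zero θ [X i, X i, X i, X j, X l, X k]) :
    Zero θ F4 := by
  obtain ⟨ij, ik, il, jk, jl, kl⟩ := hd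
  have := h.sb (fun n => if n = i then [X 0] else if n = j then [X 1] else if n = l then [X 2] else [X 3])
    (by intro n; split_ifs <;> simp)
  simpa [F4, ij.symm, ik.symm, il.symm, jk.symm, jl.symm, kl] using this

private theorem toG4 {θ : FIC} {i j k l : ℕ} (hd : D4 i j k l) (h : Zero θ [X k, X k, X j, X j, X i, X l]) :
    Zero θ G4 := by
  obtain ⟨ij, ik, il, jk, jl, kl⟩ := hd
  have := h.sb (fun n => if n = k then [X 0] else if n = j then [X 1] else if n = i then [X 2] else [X 3])
    (by intro n; split_ifs <;> simp)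
  simpa [G4, ij, ik, il.symm, jk, jl.symm, kl.symm] using this

/-- case (a) -/
private theorem caseA {θ : FIC} (hn : NilF θ) (hS : HS θ) {i j k l : ℕ} (hd : D4 i j k l) (s t s' t' : Bool)
    (h : θ.r [X i, X i, X i, (j, s), (k, t)] [X j, X j, X j, (i, s'), (k, t')]) : Zero θ F4 := by
  obtain ⟨ij, ik, il, jk, jl, kl⟩ := id hd
  apply toF4 hd
  have h1 := θ.sub' (fun n => if n = j then (if s then [Y l, Y j] else [X j, X l]) else if n = k then [(k, t)]
    else [X n]) (by intro n; split_ifs <;> simp) h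
  have e1 : sb (fun n => if n = j then (if s then [Y l, Y j] else [X j, X l]) else if n = k then [(k, t)]
    else [X n]) [X i, X i, X i, (j, s), (k, t)] = [X i, X i, X i, X j, X l, X k] := by
    cases s <;> cases t <;> simp [sb, ij, ik, jk, jk.symm, X, Y, st, fl]
  rw [e1] at h1
  obtain ⟨p, hp⟩ : ∃ p : Equiv.Perm ℕ, p = Equiv.swap i j := ⟨_, rfl⟩
  have hpi : p i = j := by simp [hp]
  have hpj : p j = i := by simp [hp]
  have hpk : p k = k := by rw [hp]; exact Equiv.swap_apply_of_ne_of_ne ik.symm jk.symm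
  have hpl : p l = l := by rw [hp]; exact Equiv.swap_apply_of_ne_of_ne il.symm jl.symm
  apply grow hn (a := []) (b := [X l, X l]) p (fun n => if n = j then s' else if n = k then (xor t t') else false)
    ?_ (by simp)
  refine θ.trans' h1 (hS _ _ ?_ ?_ (simI ?_ ?_))
  · cases s <;> cases t <;> cases s' <;> cases t' <;> simp [sb, ij, ik, jk, jk.symm, X, Y, st, fl]
  · rw [lin_iff]; intro hh
    have := hh j
    revert this
    cases s <;> cases t <;> cases s' <;> cases t' <;> simp [sb, ij, ik, jk, jk.symm, X, Y, st, fl, oc_cons, jl.symm]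
  · intro m
    cases s <;> cases t <;> cases s' <;> cases t' <;>
      simp [sb, ij, ik, jk, jk.symm, X, Y, st, fl, oc_cons, hpi, hpj, hpk, hpl] <;> ring
  · intro m hm
    by_cases m1 : m = i
    · subst m1
      cases s <;> cases t <;> cases s' <;> cases t' <;>
        simp [sb, ij, ij.symm, ik, jk, jk.symm, il, X, Y, st, fl, hpi, hpj, hpk, hpl]
    by_cases m2 : m = j
    · subst m2; exfalso; revert hm
      cases s <;> cases t <;> cases s' <;> cases t' <;>
        simp [sb, ij, ik, jk, jk.symm, X, Y, st, fl, oc_cons, jl.symm]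
    by_cases m3 : m = k
    · subst m3
      cases s <;> cases t <;> cases s' <;> cases t' <;>
        simp [sb, ij, ik, ik.symm, jk, jk.symm, kl, X, Y, st, fl, hpi, hpj, hpk, hpl]
    by_cases m4 : m = l
    · subst m4; exfalso; revert hm
      cases s <;> cases t <;> cases s' <;> cases t' <;>
        simp [sb, ij, ik, jk, jk.symm, X, Y, st, fl, oc_cons, jl, il, kl]
    · cases s <;> cases t <;> cases s' <;> cases t' <;>
        simp [sb, ij, ik, jk, jk.symm, X, Y, st, fl, hpi, hpj, hpk, hpl, m1, m2, m3, m4]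

/-- case (b) -/
private theorem caseB {θ : FIC} (hn : NilF θ) (hS : HS θ) {i j k l : ℕ} (hd : D4 i j k l) (s s' : Bool)
    (h : θ.r [X k, X k, X j, X j, (i, s)] [X k, X k, X i, X i, (j, s')]) : Zero θ G4 := by
  obtain ⟨ij, ik, il, jk, jl, kl⟩ := id hd
  apply toG4 hd
  have h1 := θ.sub' (fun n => if n = j then [X j, X l] else if n = i then [(i, s)]
    else [X n]) (by intro n; split_ifs <;> simp) h
  obtain ⟨p, hp⟩ : ∃ p : Equiv.Perm ℕ, p = Equiv.swap i j := ⟨_, rfl⟩
  have hpi : p i = j := by simp [hp]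
  have hpj : p j = i := by simp [hp]
  have hpk : p k = k := by rw [hp]; exact Equiv.swap_apply_of_ne_of_ne ik.symm jk.symm
  have hpl : p l = l := by rw [hp]; exact Equiv.swap_apply_of_ne_of_ne il.symm jl.symm
  obtain ⟨e, he⟩ : ∃ e : ℕ → Bool, e = fun n => if n = i then s' else if n = l then s' else false := ⟨_, rfl⟩
  have hei : e i = s' := by simp [he]
  have hel : e l = s' := by simp [he]
  have hej : e j = false := by simp [he, ij.symm, jl]
  have hek : e k = false := by simp [he, ik.symm, kl]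
  have h2 : θ.r [X k, X k, X j, X j, X i, X l, X l] (rw' p e [X k, X k, X j, X j, X i, X l]) := by
    refine θ.trans' (hS _ _ (by simp) ?_ (simI ?_ ?_)) (θ.trans' h1 (hS _ _ ?_ ?_ (simI ?_ ?_)))
    · rw [lin_iff]; intro hh
      have := hh j
      revert this
      simp [oc_cons, jk.symm, jl.symm, ij]
    · intro m
      cases s <;> simp [sb, ij, ik, jk, ik.symm, jk.symm, X, Y, st, fl, oc_cons] <;> ring
    · intro m hm
      by_cases m1 : m = i
      · subst m1
        cases s <;> simp [sb, ij, ij.symm, ik, ik.symm, jk, jk.symm, il, X, Y, st, fl]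
      by_cases m2 : m = j
      · subst m2; exfalso; revert hm
        simp [oc_cons, jk.symm, jl.symm, ij]
      by_cases m3 : m = k
      · subst m3; exfalso; revert hm
        simp [oc_cons, jk, kl.symm, ik]
      by_cases m4 : m = l
      · subst m4; exfalso; revert hm
        simp [oc_cons, jl, kl, il]
      · cases s <;> simp [sb, ij, ik, jk, ik.symm, jk.symm, X, Y, st, fl, m1, m2, m3, m4]
    · cases s <;> cases s' <;> simp [sb, ij, ik, ik.symm, jk, jk.symm, X, Y, st, fl]
    · rw [lin_iff]; intro hh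
      have := hh i
      revert this
      cases s <;> cases s' <;> simp [sb, ij, ik, ik.symm, jk, jk.symm, X, Y, st, fl, oc_cons, ij.symm, il.symm]
    · intro m
      cases s <;> cases s' <;>
        simp [sb, ij, ik, ik.symm, jk, jk.symm, X, Y, st, fl, oc_cons, hpi, hpj, hpk, hpl] <;> ring
    · intro m hm
      by_cases m1 : m = i
      · subst m1; exfalso; revert hm
        cases s <;> cases s' <;> simp [sb, ij, ij.symm, ik, ik.symm, jk, jk.symm, il.symm, X, Y, st, fl, oc_cons]
      by_cases m2 : m = j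
      · subst m2
        cases s <;> cases s' <;>
          simp [sb, ij, ij.symm, ik, ik.symm, jk, jk.symm, jl, X, Y, st, fl, hpi, hpj, hpk, hpl, hei, hej, hek, hel]
      by_cases m3 : m = k
      · subst m3; exfalso; revert hm
        cases s <;> cases s' <;> simp [sb, ij, ij.symm, ik, ik.symm, jk, jk.symm, kl.symm, X, Y, st, fl, oc_cons]
      by_cases m4 : m = l
      · subst m4
        cases s <;> cases s' <;>
          simp [sb, ij, ij.symm, ik, ik.symm, jk, jk.symm, jl, jl.symm, il.symm, kl.symm, X, Y, st, fl, hpi, hpj,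
            hpk, hpl, hei, hej, hek, hel]
      · cases s <;> cases s' <;>
          simp [sb, ij, ik, ik.symm, jk, jk.symm, X, Y, st, fl, hpi, hpj, hpk, hpl, m1, m2, m3, m4]
  have h3 := θ.rn p⁻¹ (fun i => e (p⁻¹ i)) (θ.symm' h2)
  rw [rw'_inv] at h3
  apply grow hn (a := []) (b := rw' p⁻¹ (fun i => e (p⁻¹ i)) [X l]) p⁻¹ (fun i => e (p⁻¹ i)) ?_ (by simp)
  have e2 : [X k, X k, X j, X j, X i, X l, X l] = [X k, X k, X j, X j, X i, X l] ++ [X l] := rfl
  rw [e2, rw'_append] at h3
  simpa using h3

/-- case (c), caseC1 -/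
private theorem caseC1 {θ : FIC} (hn : NilF θ) (hS : HS θ) {i j k l : ℕ} (hd : D4 i j k l) (s t s' : Bool)
    (h : θ.r [X i, X i, X i, (j, s), (k, t)] [X j, X j, X k, X k, (i, s')]) : Zero θ F4 := by
  obtain ⟨ij, ik, il, jk, jl, kl⟩ := id hd
  apply toF4 hd
  have h1 := θ.sub' (fun n => if n = j then (if s then [Y l, Y j] else [X j, X l]) else if n = k then [(k, t)]
    else [X n]) (by intro n; split_ifs <;> simp) h
  have h0 := θ.sub' (fun n => if n = j then [(j, s)] else if n = k then [(k, t)]
    else [X n]) (by intro n; split_ifs <;> simp) h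
  have e1 : sb (fun n => if n = j then (if s then [Y l, Y j] else [X j, X l]) else if n = k then [(k, t)]
    else [X n]) [X i, X i, X i, (j, s), (k, t)] = [X i, X i, X i, X j, X l, X k] := by
    cases s <;> cases t <;> simp [sb, ij, ik, jk, jk.symm, X, Y, st, fl]
  have e0 : sb (fun n => if n = j then [(j, s)] else if n = k then [(k, t)]
    else [X n]) [X i, X i, X i, (j, s), (k, t)] = [X i, X i, X i, X j, X k] := by
    cases s <;> cases t <;> simp [sb, ij, ik, jk, jk.symm, X, st, fl]
  rw [e1] at h1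
  rw [e0] at h0
  have h2 := θ.symm' (θ.mulR [X l, X l] h0)
  apply grow0 hn (a := []) (b := [X l]) ?_ (by simp)
  refine θ.trans' h1 (θ.trans' (hS _ _ ?_ ?_ (simI ?_ ?_)) (θ.trans' h2 (hS _ _ ?_ ?_ (simI ?_ ?_))))
  · cases s <;> cases t <;> cases s' <;> simp [sb, ij, ik, jk, jk.symm, X, Y, st, fl]
  · rw [lin_iff]; intro hh
    have := hh j
    revert this
    cases s <;> cases t <;> cases s' <;> simp [sb, ij, ik, jk, jk.symm, X, Y, st, fl, oc_cons, jl.symm]
  · intro m
    cases s <;> cases t <;> cases s' <;>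
      simp [sb, ij, ik, jk, jk.symm, X, Y, st, fl, oc_cons] <;> ring
  · intro m hm
    by_cases m1 : m = i
    · subst m1; revert hm
      cases s <;> cases t <;> cases s' <;>
        simp [sb, ij, ij.symm, ik, ik.symm, jk, jk.symm, il, X, Y, st, fl, oc_cons]
    by_cases m2 : m = j
    · subst m2; revert hm
      cases s <;> cases t <;> cases s' <;>
        simp [sb, ij, ik, jk, jk.symm, X, Y, st, fl, oc_cons, jl.symm]
    by_cases m3 : m = k
    · subst m3; revert hm
      cases s <;> cases t <;> cases s' <;>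
        simp [sb, ij, ik, ik.symm, jk, jk.symm, kl, X, Y, st, fl, oc_cons]
    by_cases m4 : m = l
    · subst m4; exfalso; revert hm
      cases s <;> cases t <;> cases s' <;>
        simp [sb, ij, ik, jk, jk.symm, X, Y, st, fl, oc_cons, jl, il, kl]
    · cases s <;> cases t <;> cases s' <;>
        simp [sb, ij, ik, jk, jk.symm, X, Y, st, fl, m1, m2, m3, m4]
  · simp
  · rw [lin_iff]; intro hh
    have := hh i
    revert this
    simp [oc_cons]
  · intro m
    simp [oc_cons]; ring
  · intro m hm
    simp [X]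
    tauto

/-- case (c), caseC2 -/
private theorem caseC2 {θ : FIC} (hn : NilF θ) (hS : HS θ) {i j k l : ℕ} (hd : D4 i j k l) (s t s' : Bool)
    (h : θ.r [X i, X i, X i, (j, s), (k, t)] [X i, X i, X j, X j, (k, s')]) : Zero θ F4 := by
  obtain ⟨ij, ik, il, jk, jl, kl⟩ := id hd
  apply toF4 hd
  have h1 := θ.sub' (fun n => if n = j then (if s then [Y l, Y j] else [X j, X l]) else if n = k then [(k, t)]
    else [X n]) (by intro n; split_ifs <;> simp) h
  have h0 := θ.sub' (fun n => if n = j then [(j, s)] else if n = k then [(k, t)]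
    else [X n]) (by intro n; split_ifs <;> simp) h
  have e1 : sb (fun n => if n = j then (if s then [Y l, Y j] else [X j, X l]) else if n = k then [(k, t)]
    else [X n]) [X i, X i, X i, (j, s), (k, t)] = [X i, X i, X i, X j, X l, X k] := by
    cases s <;> cases t <;> simp [sb, ij, ik, jk, jk.symm, X, Y, st, fl]
  have e0 : sb (fun n => if n = j then [(j, s)] else if n = k then [(k, t)]
    else [X n]) [X i, X i, X i, (j, s), (k, t)] = [X i, X i, X i, X j, X k] := by
    cases s <;> cases t <;> simp [sb, ij, ik, jk, jk.symm, X, st, fl]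
  rw [e1] at h1
  rw [e0] at h0
  have h2 := θ.symm' (θ.mulR [X l, X l] h0)
  apply grow0 hn (a := []) (b := [X l]) ?_ (by simp)
  refine θ.trans' h1 (θ.trans' (hS _ _ ?_ ?_ (simI ?_ ?_)) (θ.trans' h2 (hS _ _ ?_ ?_ (simI ?_ ?_))))
  · cases s <;> cases t <;> cases s' <;> simp [sb, ij, ik, jk, jk.symm, X, Y, st, fl]
  · rw [lin_iff]; intro hh
    have := hh j
    revert this
    cases s <;> cases t <;> cases s' <;> simp [sb, ij, ik, jk, jk.symm, X, Y, st, fl, oc_cons, jl.symm]
  · intro m
    cases s <;> cases t <;> cases s' <;>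
      simp [sb, ij, ik, jk, jk.symm, X, Y, st, fl, oc_cons] <;> ring
  · intro m hm
    by_cases m1 : m = i
    · subst m1; revert hm
      cases s <;> cases t <;> cases s' <;>
        simp [sb, ij, ij.symm, ik, ik.symm, jk, jk.symm, il, X, Y, st, fl, oc_cons]
    by_cases m2 : m = j
    · subst m2; revert hm
      cases s <;> cases t <;> cases s' <;>
        simp [sb, ij, ik, jk, jk.symm, X, Y, st, fl, oc_cons, jl.symm]
    by_cases m3 : m = k
    · subst m3; revert hm
      cases s <;> cases t <;> cases s' <;>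
        simp [sb, ij, ik, ik.symm, jk, jk.symm, kl, X, Y, st, fl, oc_cons]
    by_cases m4 : m = l
    · subst m4; exfalso; revert hm
      cases s <;> cases t <;> cases s' <;>
        simp [sb, ij, ik, jk, jk.symm, X, Y, st, fl, oc_cons, jl, il, kl]
    · cases s <;> cases t <;> cases s' <;>
        simp [sb, ij, ik, jk, jk.symm, X, Y, st, fl, m1, m2, m3, m4]
  · simp
  · rw [lin_iff]; intro hh
    have := hh i
    revert this
    simp [oc_cons]
  · intro m
    simp [oc_cons]; ring
  · intro m hm
    simp [X]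
    tauto


theorem hH3 : StH3 := by
  intro θ hn hS u v hu hv hcard hct hr
  obtain ⟨l, hl⟩ := exists_fresh u
  refine ⟨?_, ?_, ?_⟩
  · rintro ⟨i, j, hij, hi, hj⟩
    have hiu : i ∈ ct u := mem_of_oc (by omega)
    have hju : j ∈ ct u := by rw [hct]; exact mem_of_oc (by omega)
    obtain ⟨k, hik, hjk, hc⟩ := three2 hcard hiu hju hij
    have hc2 : ct v = {j, i, k} := by rw [← hct, hc, Finset.insert_comm]
    have h1 := len3 hij hik hjk hc
    have h2 := len3 hij.symm hjk hik hc2
    have p1 : 0 < oc j u := oc_pos.2 hju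
    have p2 : 0 < oc k u := oc_pos.2 (by rw [hc]; simp)
    have p3 : 0 < oc i v := oc_pos.2 (by rw [hc2]; simp)
    have p4 : 0 < oc k v := oc_pos.2 (by rw [hc2]; simp)
    have hd : D4 i j k l := by
      rw [hc] at hl
      simp only [Finset.mem_insert, Finset.mem_singleton, not_or] at hl
      exact ⟨hij, hik, Ne.symm hl.1, hjk, Ne.symm hl.2.1, Ne.symm hl.2.2⟩
    have ca := can3 hS hu hij hik hjk hc hi (by omega) (by omega)
    have cb := can3 hS hv hij.symm hjk hik hc2 hj (by omega) (by omega)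
    exact caseA hn hS hd _ _ _ _ (θ.trans' (θ.symm' ca) (θ.trans' hr cb))
  · intro hmu hmv
    rintro ⟨i, j, hij, hi, hj⟩
    have hiu : i ∈ ct u := mem_of_oc (by omega)
    have hju : j ∈ ct u := by rw [hct]; exact mem_of_oc (by omega)
    obtain ⟨k, hik, hjk, hc⟩ := three2 hcard hiu hju hij
    have hcu : ct u = {k, j, i} := by rw [hc]; ext m; simp; tauto
    have hcv : ct v = {k, i, j} := by rw [← hct, hc]; ext m; simp; tauto
    have h1 := len3 hjk.symm hik.symm hij.symm hcu
    have h2 := len3 hik.symm hjk.symm hij hcv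
    have a1 := hmu k
    have a2 := hmu j
    have a3 := hmv k
    have a4 := hmv i
    have hd : D4 i j k l := by
      rw [hc] at hl
      simp only [Finset.mem_insert, Finset.mem_singleton, not_or] at hl
      exact ⟨hij, hik, Ne.symm hl.1, hjk, Ne.symm hl.2.1, Ne.symm hl.2.2⟩
    have ca := can2 hS hu hjk.symm hik.symm hij.symm hcu (by omega) (by omega) hi
    have cb := can2 hS hv hik.symm hjk.symm hij hcv (by omega) (by omega) hj
    exact caseB hn hS hd _ _ (θ.trans' (θ.symm' ca) (θ.trans' hr cb))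
  · rintro ⟨i, hi⟩ hmv
    have hiu : i ∈ ct u := mem_of_oc (by omega)
    obtain ⟨j, k, hij, hik, hjk, hc⟩ := three1 hcard hiu
    have hcv : ct v = {i, j, k} := by rw [← hct, hc]
    have h1 := len3 hij hik hjk hc
    have h2 := len3 hij hik hjk hcv
    have p1 : 0 < oc j u := oc_pos.2 (by rw [hc]; simp)
    have p2 : 0 < oc k u := oc_pos.2 (by rw [hc]; simp)
    have a1 := hmv i
    have a2 := hmv j
    have a3 := hmv k
    rw [hc] at hl
    simp only [Finset.mem_insert, Finset.mem_singleton, not_or] at hl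
    have hd : D4 i j k l := ⟨hij, hik, Ne.symm hl.1, hjk, Ne.symm hl.2.1, Ne.symm hl.2.2⟩
    have hd' : D4 i k j l := ⟨hik, hij, Ne.symm hl.1, hjk.symm, Ne.symm hl.2.2, Ne.symm hl.2.1⟩
    have ca := can3 hS hu hij hik hjk hc hi (by omega) (by omega)
    have hc' : ct u = {i, k, j} := by rw [hc]; ext m; simp; tauto
    have ca' := can3 hS hu hik hij hjk.symm hc' hi (by omega) (by omega)
    by_cases c1 : oc i v = 1
    · have hcv2 : ct v = {j, k, i} := by rw [hcv]; ext m; simp; tauto
      have cb := can2 hS hv hjk hij.symm hik.symm hcv2 (by omega) (by omega) c1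
      exact caseC1 hn hS hd _ _ _ (θ.trans' (θ.symm' ca) (θ.trans' hr cb))
    by_cases c2 : oc k v = 1
    · have cb := can2 hS hv hij hik hjk hcv (by omega) (by omega) c2
      exact caseC2 hn hS hd _ _ _ (θ.trans' (θ.symm' ca) (θ.trans' hr cb))
    · have hcv2 : ct v = {i, k, j} := by rw [hcv]; ext m; simp; tauto
      have q1 : 0 < oc i v := oc_pos.2 (by rw [hcv]; simp)
      have q2 : 0 < oc j v := oc_pos.2 (by rw [hcv]; simp)
      have q3 : 0 < oc k v := oc_pos.2 (by rw [hcv]; simp)
      have cb := can2 hS hv hik hij hjk.symm hcv2 (by omega) (by omega) (by omega)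
      exact caseC2 hn hS hd' _ _ _ (θ.trans' (θ.symm' ca') (θ.trans' hr cb))

end Helper1.IM
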