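import Pool.Agent.Helper1.IM.St

/-!
# Project IM, module H4 (type S alternative)
-/

set_option autoImplicit false

namespace Helper1.IM

/-- the multiplicities of a word of length 5 with three letters -/
private theorem tri_H4 {u : Wd} (hl : u.length = 5) (hc : (ct u).card = 3) :
    ∃ a b c, a ≠ b ∧ a ≠ c ∧ b ≠ c ∧ oc a u + oc b u + oc c u = 5 ∧ 1 ≤ oc a u ∧ 1 ≤ oc b u ∧
      1 ≤ oc c u ∧ ∀ i, i ≠ a → i ≠ b → i ≠ c → oc i u = 0 := by
  obtain ⟨a, b, c, hab, hac, hbc, hs⟩ := Finset.card_eq_three.1 hc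
  have h1 := length_eq_sum u
  rw [hs, Finset.sum_insert (by simp [hab, hac]), Finset.sum_insert (by simp [hbc]),
    Finset.sum_singleton, hl] at h1
  refine ⟨a, b, c, hab, hac, hbc, by omega, ?_, ?_, ?_, ?_⟩
  · exact oc_pos.2 (by rw [hs]; simp)
  · exact oc_pos.2 (by rw [hs]; simp)
  · exact oc_pos.2 (by rw [hs]; simp)
  · intro i h2 h3 h4
    rw [oc_eq_zero, hs]
    simp [h2, h3, h4]

private theorem le3_H4 {u : Wd} (hl : u.length = 5) (hc : (ct u).card = 3) (i : ℕ) :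
    oc i u ≤ 3 := by
  obtain ⟨a, b, c, -, -, -, h1, h2, h3, h4, h5⟩ := tri_H4 hl hc
  by_cases ha : i = a
  · subst ha; omega
  by_cases hb : i = b
  · subst hb; omega
  by_cases hcc : i = c
  · subst hcc; omega
  rw [h5 i ha hb hcc]; omega

private theorem uniq3_H4 {u : Wd} (hl : u.length = 5) (hc : (ct u).card = 3) {i j : ℕ}
    (hi : oc i u = 3) (hj : oc j u = 3) : i = j := by
  obtain ⟨a, b, c, -, -, -, h1, h2, h3, h4, h5⟩ := tri_H4 hl hc
  by_cases hia : i = a <;> by_cases hib : i = b <;> by_cases hic : i = c <;>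
    by_cases hja : j = a <;> by_cases hjb : j = b <;> by_cases hjc : j = c <;>
    first
      | (have := h5 i hia hib hic; omega)
      | (have := h5 j hja hjb hjc; omega)
      | (subst_vars; first | rfl | omega)

private theorem uniq1_H4 {u : Wd} (hl : u.length = 5) (hc : (ct u).card = 3)
    (h : ∀ i, oc i u ≤ 2) {i j : ℕ} (hi : oc i u = 1) (hj : oc j u = 1) : i = j := by
  obtain ⟨a, b, c, -, -, -, h1, h2, h3, h4, h5⟩ := tri_H4 hl hc
  have ha := h a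
  have hb := h b
  have hcc := h c
  by_cases hia : i = a <;> by_cases hib : i = b <;> by_cases hic : i = c <;>
    by_cases hja : j = a <;> by_cases hjb : j = b <;> by_cases hjc : j = c <;>
    first
      | (have := h5 i hia hib hic; omega)
      | (have := h5 j hja hjb hjc; omega)
      | (subst_vars; first | rfl | omega)

private theorem ex1_H4 {u : Wd} (hl : u.length = 5) (hc : (ct u).card = 3)
    (h : ∀ i, oc i u ≤ 2) : ∃ i, oc i u = 1 := by
  obtain ⟨a, b, c, -, -, -, h1, h2, h3, h4, -⟩ := tri_H4 hl hc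
  have ha := h a
  have hb := h b
  have hcc := h c
  by_cases h5 : oc a u = 1
  · exact ⟨a, h5⟩
  by_cases h6 : oc b u = 1
  · exact ⟨b, h6⟩
  exact ⟨c, by omega⟩

open Classical in
/-- the colour -/
private noncomputable def col_H4 (u : Wd) : ℕ :=
  if h : ∃ i, oc i u = 3 then h.choose else if h : ∃ i, oc i u = 1 then h.choose else 0

private theorem col3_H4 {u : Wd} (hl : u.length = 5) (hc : (ct u).card = 3) {i : ℕ}
    (hi : oc i u = 3) : col_H4 u = i := by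
  have h : ∃ i, oc i u = 3 := ⟨i, hi⟩
  unfold col_H4
  rw [dif_pos h]
  exact uniq3_H4 hl hc h.choose_spec hi

private theorem col1_H4 {u : Wd} (hl : u.length = 5) (hc : (ct u).card = 3)
    (h2 : ∀ i, oc i u ≤ 2) {i : ℕ} (hi : oc i u = 1) : col_H4 u = i := by
  have h : ¬ ∃ i, oc i u = 3 := by
    rintro ⟨j, hj⟩
    have := h2 j
    omega
  have h' : ∃ i, oc i u = 1 := ⟨i, hi⟩
  unfold col_H4
  rw [dif_neg h, dif_pos h']
  exact uniq1_H4 hl hc h2 h'.choose_spec hi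

/-- the first class -/
private def S1_H4 (θ : FIC) (u : Wd) : Prop :=
  u.length = 5 ∧ (ct u).card = 3 ∧ (∃ i, oc i u = 3) ∧ ¬ Kl θ 3 5 u

/-- the second class -/
private def S2_H4 (θ : FIC) (u : Wd) : Prop :=
  u.length = 5 ∧ (ct u).card = 3 ∧ (∀ i, oc i u ≤ 2) ∧ ¬ Kl θ 3 5 u

private theorem cl_H4 {θ : FIC} (hN : NilF θ) (hS : HS θ) (hL : StLin) (h0 : StH0) {u v : Wd}
    (hl : u.length = 5) (hc : (ct u).card = 3) (hk : ¬ Kl θ 3 5 u) (hr : θ.r u v) :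
    v.length = 5 ∧ (ct v).card = 3 ∧ ct u = ct v ∧ ¬ Kl θ 3 5 v := by
  have hz : ¬ Zero θ u := fun h => hk (Kl.of_zero h 3 5)
  have hct := ct_eq_of hN hr hz
  have hcv : (ct v).card = 3 := by rw [← hct]; exact hc
  have hle := le_of_not_kl hk hr
  have hge := card_ct_le v
  refine ⟨?_, hcv, hct, fun h => hk (h.of_r (θ.symm' hr))⟩
  by_contra hne
  have h34 : v.length = 3 ∨ v.length = 4 := by omega
  rcases h34 with h3 | h4
  · have hlin : Lin v := by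
      unfold Lin
      have h5 : (v.map Prod.fst).toFinset.card = (v.map Prod.fst).length := by
        rw [List.length_map, h3]
        exact hcv
      have h6 : ((v.map Prod.fst : List ℕ) : Multiset ℕ).toFinset.card =
          Multiset.card ((v.map Prod.fst : List ℕ) : Multiset ℕ) := h5
      exact Multiset.coe_nodup.1 (Multiset.toFinset_card_eq_card_iff_nodup.1 h6)
    have h6 := hL θ hN v u hlin (θ.symm' hr) (fun h => by have := h.2; omega)
    exact hz (h6.of_r (θ.symm' hr))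
  · exact hz (h0 θ hN hS u v hl h4 hc (θ.symm' hr))

private theorem c1_H4 {θ : FIC} (hN : NilF θ) (hS : HS θ) (hL : StLin) (h0 : StH0) (h3 : StH3)
    (hF : ¬ Zero θ F4) {u v : Wd} (hu : S1_H4 θ u) (hr : θ.r u v) :
    S1_H4 θ v ∧ col_H4 u = col_H4 v ∧ ct u = ct v := by
  obtain ⟨hl, hc, ⟨i, hi⟩, hk⟩ := hu
  obtain ⟨hlv, hcv, hct, hkv⟩ := cl_H4 hN hS hL h0 hl hc hk hr
  obtain ⟨ha, -, hcc⟩ := h3 θ hN hS u v hl hlv hc hct hr
  have hex : ∃ j, oc j v = 3 := by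
    by_contra hcon
    push Not at hcon
    refine hF (hcc ⟨i, hi⟩ fun j => ?_)
    have h4 := le3_H4 hlv hcv j
    have h5 := hcon j
    omega
  obtain ⟨j, hj⟩ := hex
  have hij : i = j := by
    by_contra hne
    exact hF (ha ⟨i, j, hne, hi, hj⟩)
  refine ⟨⟨hlv, hcv, ⟨j, hj⟩, hkv⟩, ?_, hct⟩
  rw [col3_H4 hl hc hi, col3_H4 hlv hcv hj, hij]

private theorem c2_H4 {θ : FIC} (hN : NilF θ) (hS : HS θ) (hL : StLin) (h0 : StH0) (h3 : StH3)
    (hF : ¬ Zero θ F4) (hG : ¬ Zero θ G4) {u v : Wd} (hu : S2_H4 θ u) (hr : θ.r u v) :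
    S2_H4 θ v ∧ col_H4 u = col_H4 v ∧ ct u = ct v := by
  obtain ⟨hl, hc, h2, hk⟩ := hu
  obtain ⟨hlv, hcv, hct, hkv⟩ := cl_H4 hN hS hL h0 hl hc hk hr
  obtain ⟨-, hb, -⟩ := h3 θ hN hS u v hl hlv hc hct hr
  obtain ⟨-, -, hcc⟩ := h3 θ hN hS v u hlv hl hcv hct.symm (θ.symm' hr)
  have h2v : ∀ j, oc j v ≤ 2 := by
    intro j
    by_contra hcon
    have h4 := le3_H4 hlv hcv j
    exact hF (hcc ⟨j, by omega⟩ h2)
  obtain ⟨i, hi⟩ := ex1_H4 hl hc h2
  obtain ⟨j, hj⟩ := ex1_H4 hlv hcv h2v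
  have hij : i = j := by
    by_contra hne
    exact hG (hb h2 h2v ⟨i, j, hne, hi, hj⟩)
  refine ⟨⟨hlv, hcv, h2v, hkv⟩, ?_, hct⟩
  rw [col1_H4 hl hc h2 hi, col1_H4 hlv hcv h2v hj, hij]

private theorem st1_H4 {θ : FIC} {u : Wd} (hu : S1_H4 θ u) :
    S1_H4 θ (st u) ∧ col_H4 (st u) = col_H4 u := by
  obtain ⟨hl, hc, ⟨i, hi⟩, hk⟩ := hu
  have hl' : (st u).length = 5 := by rw [st_length]; exact hl
  have hc' : (ct (st u)).card = 3 := by rw [ct_st]; exact hc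
  have hi' : oc i (st u) = 3 := by rw [oc_st]; exact hi
  exact ⟨⟨hl', hc', ⟨i, hi'⟩, fun h => hk (Kl.st_iff.1 h)⟩,
    by rw [col3_H4 hl hc hi, col3_H4 hl' hc' hi']⟩

private theorem st2_H4 {θ : FIC} {u : Wd} (hu : S2_H4 θ u) :
    S2_H4 θ (st u) ∧ col_H4 (st u) = col_H4 u := by
  obtain ⟨hl, hc, h2, hk⟩ := hu
  have hl' : (st u).length = 5 := by rw [st_length]; exact hl
  have hc' : (ct (st u)).card = 3 := by rw [ct_st]; exact hc
  have h2' : ∀ i, oc i (st u) ≤ 2 := fun i => by rw [oc_st]; exact h2 i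
  obtain ⟨i, hi⟩ := ex1_H4 hl hc h2
  have hi' : oc i (st u) = 1 := by rw [oc_st]; exact hi
  exact ⟨⟨hl', hc', h2', fun h => hk (Kl.st_iff.1 h)⟩,
    by rw [col1_H4 hl hc h2 hi, col1_H4 hl' hc' h2' hi']⟩

private theorem rn1_H4 {θ : FIC} {u : Wd} (p : Equiv.Perm ℕ) (e : ℕ → Bool)
    (hu : S1_H4 θ u) : S1_H4 θ (rw' p e u) ∧ col_H4 (rw' p e u) = p (col_H4 u) := by
  obtain ⟨hl, hc, ⟨i, hi⟩, hk⟩ := hu
  have hl' : (rw' p e u).length = 5 := by rw [rw'_length]; exact hl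
  have hc' : (ct (rw' p e u)).card = 3 := by
    rw [ct_rw', Finset.card_image_of_injective _ p.injective]; exact hc
  have hi' : oc (p i) (rw' p e u) = 3 := by rw [oc_rw']; exact hi
  exact ⟨⟨hl', hc', ⟨p i, hi'⟩, fun h => hk ((Kl.rw'_iff p e).1 h)⟩,
    by rw [col3_H4 hl hc hi, col3_H4 hl' hc' hi']⟩

private theorem rn2_H4 {θ : FIC} {u : Wd} (p : Equiv.Perm ℕ) (e : ℕ → Bool)
    (hu : S2_H4 θ u) : S2_H4 θ (rw' p e u) ∧ col_H4 (rw' p e u) = p (col_H4 u) := by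
  obtain ⟨hl, hc, h2, hk⟩ := hu
  have hl' : (rw' p e u).length = 5 := by rw [rw'_length]; exact hl
  have hc' : (ct (rw' p e u)).card = 3 := by
    rw [ct_rw', Finset.card_image_of_injective _ p.injective]; exact hc
  have h2' : ∀ i, oc i (rw' p e u) ≤ 2 := fun i => by
    have h3 := oc_rw' p e (p⁻¹ i) u
    have hp : p (p⁻¹ i) = i := by simp
    rw [hp] at h3
    rw [h3]
    exact h2 _
  obtain ⟨i, hi⟩ := ex1_H4 hl hc h2
  have hi' : oc (p i) (rw' p e u) = 1 := by rw [oc_rw']; exact hi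
  exact ⟨⟨hl', hc', h2', fun h => hk ((Kl.rw'_iff p e).1 h)⟩,
    by rw [col1_H4 hl hc h2 hi, col1_H4 hl' hc' h2' hi']⟩

theorem hH4 (hL : StLin) (hT : StTwo) (h0 : StH0) (h1 : StH1) (h2 : StH2) (h3 : StH3) : StH4 := by
  intro θ hN hS hM
  by_cases hE3 : Kl θ 3 5 E3
  · exact Or.inl (h1 θ hN hS hE3)
  by_cases hE22 : Kl θ 3 5 E22
  · right
    have h4 := (h2 θ hN hS hE22).mulR [X 3]
    exact h4
  by_contra hcon
  rw [not_or] at hcon
  obtain ⟨hF, hG⟩ := hcon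
  refine hT θ 3 5 hM (by norm_num) (by norm_num) (by norm_num) (S1_H4 θ) (S2_H4 θ) col_H4
    ?_ ?_ ?_ ?_ ?_ ?_ ?_ ?_ ?_ ?_ ?_ ?_ ?_
  · rintro u (hu | hu)
    · obtain ⟨hl, hc, ⟨i, hi⟩, hk⟩ := hu
      refine ⟨hl, hc, hk, ?_⟩
      rw [col3_H4 hl hc hi]
      exact oc_pos.1 (by omega)
    · obtain ⟨hl, hc, h4, hk⟩ := hu
      obtain ⟨i, hi⟩ := ex1_H4 hl hc h4
      refine ⟨hl, hc, hk, ?_⟩
      rw [col1_H4 hl hc h4 hi]
      exact oc_pos.1 (by omega)
  · rintro u ⟨-, -, ⟨i, hi⟩, -⟩ ⟨-, -, h4, -⟩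
    have := h4 i
    omega
  · exact fun u v hu hr => (c1_H4 hN hS hL h0 h3 hF hu hr).1
  · exact fun u v hu hr => (c2_H4 hN hS hL h0 h3 hF hG hu hr).1
  · rintro u v (hu | hu) hr
    · exact (c1_H4 hN hS hL h0 h3 hF hu hr).2
    · exact (c2_H4 hN hS hL h0 h3 hF hG hu hr).2
  · exact fun u hu => (st1_H4 hu).1
  · exact fun u hu => (st2_H4 hu).1
  · exact fun u p e hu => (rn1_H4 p e hu).1
  · exact fun u p e hu => (rn2_H4 p e hu).1
  · rintro u (hu | hu)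
    · exact (st1_H4 hu).2
    · exact (st2_H4 hu).2
  · rintro u p e (hu | hu)
    · exact (rn1_H4 p e hu).2
    · exact (rn2_H4 p e hu).2
  · exact ⟨E3, by decide, by decide, ⟨0, by decide⟩, hE3⟩
  · refine ⟨E22, by decide, by decide, fun i => ?_, hE22⟩
    have h5 : oc i E22 = (if 0 = i then 1 else 0) + ((if 0 = i then 1 else 0) +
        ((if 1 = i then 1 else 0) + ((if 1 = i then 1 else 0) + ((if 2 = i then 1 else 0) + 0)))) := by
      unfold E22
      rw [oc_cons, oc_cons, oc_cons, oc_cons, oc_cons, oc_nil]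
      rfl
    rw [h5]
    split_ifs <;> omega

end Helper1.IM
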