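import Pool.Agent.Helper1.IM.St

/-! # IM module H5: type R from F4 -/

set_option autoImplicit false

namespace Helper1.IM

/-- Removing one occurrence of the letter `i`. -/
private theorem rem_one {i : ℕ} {u : Wd} (h : 0 < oc i u) : ∃ (b : Bool) (v : Wd), u.Perm ((i, b) :: v) := by
  obtain ⟨b, hb⟩ := mem_ct.1 (oc_pos.1 h)
  exact ⟨b, u.erase (i, b), List.perm_cons_erase hb⟩

private theorem oc_perm' {u v : Wd} (h : u.Perm v) (i : ℕ) : oc i u = oc i v := oc_perm (h.map _) i

theorem hH5 : StH5 := by
  intro θ hS hF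
  refine ⟨?_, ?_, ?_⟩
  · intro u v hl hnl hp
    exact hS u v hl hnl ⟨hp.map _, fun i _ => hp.mem_iff⟩
  · rintro u hl ⟨i, hi⟩
    obtain ⟨b1, u1, h1⟩ := rem_one (i := i) (u := u) (by omega)
    have c1 := oc_perm' h1 i
    rw [oc_cons] at c1
    simp only [if_true] at c1
    obtain ⟨b2, u2, h2⟩ := rem_one (i := i) (u := u1) (by omega)
    have c2 := oc_perm' h2 i
    rw [oc_cons] at c2
    simp only [if_true] at c2
    obtain ⟨b3, u3, h3⟩ := rem_one (i := i) (u := u2) (by omega)
    have hp : u.Perm ((i, b1) :: (i, b2) :: (i, b3) :: u3) :=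
      h1.trans ((h2.trans (h3.cons _)).cons _)
    have hl3 : u.length = u3.length + 3 := by rw [hp.length_eq]; simp
    obtain ⟨r1, r2, r3, rest, hr⟩ : ∃ r1 r2 r3 rest, u3 = r1 :: r2 :: r3 :: rest := by
      match u3, hl3 with
      | [], h => simp at h; omega
      | [_], h => simp at h; omega
      | [_, _], h => simp at h; omega
      | r1 :: r2 :: r3 :: rest, _ => exact ⟨r1, r2, r3, rest, rfl⟩
    subst hr
    have hz := (hF.sb (fun n => if n = 0 then [X i] else if n = 1 then [r1] else if n = 2 then [r2] else [r3])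
      (by intro n; split_ifs <;> simp)).mulR rest
    have e : sb (fun n => if n = 0 then [X i] else if n = 1 then [r1] else if n = 2 then [r2] else [r3]) F4 ++ rest
      = X i :: X i :: X i :: r1 :: r2 :: r3 :: rest := by simp [F4]
    rw [e] at hz
    refine hz.of_r (θ.symm' (hS _ _ (by omega) ?_ ⟨?_, ?_⟩))
    · rw [lin_iff]; intro h; have := h i; omega
    · have := hp.map Prod.fst
      simpa [X] using this
    · intro j hj
      have hij : j ≠ i := by rintro rfl; omega
      rw [hp.mem_iff]
      simp [X, hij]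
  · intro u v hl hnl _ _ hs
    exact hS u v hl hnl hs

end Helper1.IM
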