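import Pool.Agent.Helper1.IM.St

/-! # IM module H6: type E from G4 -/

set_option autoImplicit false

namespace Helper1.IM

/-- Removing one occurrence of the letter `i`. -/
private theorem rem_one {i : ℕ} {u : Wd} (h : 0 < oc i u) : ∃ (b : Bool) (v : Wd), u.Perm ((i, b) :: v) := by
  obtain ⟨b, hb⟩ := mem_ct.1 (oc_pos.1 h)
  exact ⟨b, u.erase (i, b), List.perm_cons_erase hb⟩

private theorem oc_perm' {u v : Wd} (h : u.Perm v) (i : ℕ) : oc i u = oc i v := oc_perm (h.map _) i

private theorem key {θ : FIC} (hS : HS θ) (hG : Zero θ G4) {u rest : Wd} {i j : ℕ} {b1 b2 b3 b4 : Bool}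
    (hl : 6 ≤ u.length) (hp : u.Perm ((i, b1) :: (i, b2) :: (j, b3) :: (j, b4) :: rest)) : Zero θ u := by
  have hl3 : u.length = rest.length + 4 := by rw [hp.length_eq]; simp
  obtain ⟨r1, r2, rest', hr⟩ : ∃ r1 r2 rest', rest = r1 :: r2 :: rest' := by
    match rest, hl3 with
    | [], h => simp at h; omega
    | [_], h => simp at h; omega
    | r1 :: r2 :: rest', _ => exact ⟨r1, r2, rest', rfl⟩
  subst hr
  have hz := (hG.sb (fun n => if n = 0 then [X i] else if n = 1 then [X j] else if n = 2 then [r1] else [r2])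
    (by intro n; split_ifs <;> simp)).mulR rest'
  have e : sb (fun n => if n = 0 then [X i] else if n = 1 then [X j] else if n = 2 then [r1] else [r2]) G4 ++ rest'
    = X i :: X i :: X j :: X j :: r1 :: r2 :: rest' := by simp [G4]
  rw [e] at hz
  have hoi : 2 ≤ oc i u := by
    rw [oc_perm' hp i]; simp only [oc_cons, if_true]; omega
  have hoj : 2 ≤ oc j u := by
    rw [oc_perm' hp j]; simp only [oc_cons, if_true]; omega
  refine hz.of_r (θ.symm' (hS _ _ (by omega) ?_ ⟨?_, ?_⟩))
  · rw [lin_iff]; intro h; have := h i; omega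
  · have := hp.map Prod.fst
    simpa [X] using this
  · intro m hm
    have h1 : m ≠ i := by rintro rfl; omega
    have h2 : m ≠ j := by rintro rfl; omega
    rw [hp.mem_iff]
    simp [X, h1, h2]

theorem hH6 : StH6 := by
  intro θ hS hG
  refine ⟨hS, ?_⟩
  intro u hl hnl hnz
  rw [lin_iff] at hnl
  push Not at hnl
  obtain ⟨i, hi⟩ := hnl
  refine ⟨i, hi, ?_, ?_⟩
  · by_contra h4
    push Not at h4
    obtain ⟨b1, u1, h1⟩ := rem_one (i := i) (u := u) (by omega)
    have c1 := oc_perm' h1 i
    rw [oc_cons] at c1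
    simp only [if_true] at c1
    obtain ⟨b2, u2, h2⟩ := rem_one (i := i) (u := u1) (by omega)
    have c2 := oc_perm' h2 i
    rw [oc_cons] at c2
    simp only [if_true] at c2
    obtain ⟨b3, u3, h3⟩ := rem_one (i := i) (u := u2) (by omega)
    have c3 := oc_perm' h3 i
    rw [oc_cons] at c3
    simp only [if_true] at c3
    obtain ⟨b4, u4, h4'⟩ := rem_one (i := i) (u := u3) (by omega)
    exact hnz (key hS hG hl (h1.trans ((h2.trans ((h3.trans (h4'.cons _)).cons _)).cons _)))
  · intro j hj
    by_contra h4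
    push Not at h4
    obtain ⟨b1, u1, h1⟩ := rem_one (i := i) (u := u) (by omega)
    have c1 := oc_perm' h1 i
    have d1 := oc_perm' h1 j
    rw [oc_cons] at c1 d1
    simp only [if_true] at c1
    rw [if_neg (Ne.symm hj)] at d1
    obtain ⟨b2, u2, h2⟩ := rem_one (i := i) (u := u1) (by omega)
    have d2 := oc_perm' h2 j
    rw [oc_cons] at d2
    rw [if_neg (Ne.symm hj)] at d2
    obtain ⟨b3, u3, h3⟩ := rem_one (i := j) (u := u2) (by omega)
    have d3 := oc_perm' h3 j
    rw [oc_cons] at d3
    simp only [if_true] at d3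
    obtain ⟨b4, u4, h4'⟩ := rem_one (i := j) (u := u3) (by omega)
    exact hnz (key hS hG hl (h1.trans ((h2.trans ((h3.trans (h4'.cons _)).cons _)).cons _)))

end Helper1.IM
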