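import Pool.Agent.Helper1.IM.St3

/-!
# Project IM, module HX (different lengths, assembly)
-/

set_option autoImplicit false

namespace Helper1.IM

theorem hHX (hL : StLin) (h1 : StXR) (h2 : StXE) (h3 : StXD) : StHX := by
  intro α hα u w hr hl h7
  obtain ⟨hN, -, hT⟩ := hα
  by_cases hlin : Lin u
  · exact hL α hN u w hlin hr (fun h => by have := h.2; omega)
  · rcases hT with hT | hT | hT
    · exact h1 α hN hT u w hr hl h7 hlin
    · exact h2 α hN hT u w hr hl h7 hlin
    · exact h3 α hN hT u w hr hl h7 hlin

end Helper1.IM
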