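import Pool.Agent.Helper1.IM.St3

set_option autoImplicit false

namespace Helper1.IM

theorem hInh : StInh := by
  intro θ α hl hT
  obtain ⟨hn, h1, h2⟩ := hT
  have hz : ∀ u, ¬ Zero α u → ¬ Zero θ u := fun u h h' => h (h'.le hl)
  refine ⟨hn.le hl, ?_, ?_⟩
  · rcases h1 with h | h | h
    · exact Or.inl (fun u v hu hp => hl _ _ (h u v hu hp))
    · exact Or.inr (Or.inl (fun u v hu hp => hl _ _ (h u v hu hp)))
    · exact Or.inr (Or.inr (fun a b m m' hm hp => hl _ _ (h a b m m' hm hp)))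
  · rcases h2 with h | h | h
    · exact Or.inl ⟨fun u v hu hL hp => hl _ _ (h.r0 u v hu hL hp), fun u hu h3 => (h.r1 u hu h3).le hl,
        fun u v hu hL zu zv hs => hl _ _ (h.r2 u v hu hL (hz _ zu) (hz _ zv) hs)⟩
    · exact Or.inr (Or.inl ⟨fun u v hu hL hs => hl _ _ (h.hs u v hu hL hs),
        fun u hu hL zu => h.e1 u hu hL (hz _ zu)⟩)
    · exact Or.inr (Or.inr ⟨fun u hu hL zu => h.d1 u hu hL (hz _ zu),
        fun u v hu hL zu zv hp hf => hl _ _ (h.d2 u v hu hL (hz _ zu) (hz _ zv) hp hf)⟩)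

end Helper1.IM
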