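import Pool.Agent.Helper1.IM.St

/-!
# Project IM (MP_265e56_al), module Lev: congruences on a level
-/

set_option autoImplicit false

namespace Helper1.IM

/-- A substitution which replaces a letter of the word by a word of length `≥ 2` makes the word longer. -/
private theorem lt_length_sb_Lev (f : ℕ → Wd) (hf : ∀ i, f i ≠ []) (u : Wd) {i : ℕ} (hi : i ∈ ct u)
    (h2 : 2 ≤ (f i).length) : u.length < (sb f u).length := by
  obtain ⟨b, hb⟩ := mem_ct.1 hi
  obtain ⟨s, t, rfl⟩ := List.append_of_mem hb
  have h1 : sb f (s ++ (i, b) :: t) = sb f s ++ (sb f [(i, b)] ++ sb f t) := by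
    rw [sb_append, sb_cons, sb_single]
  have h3 : (sb f [(i, b)]).length = (f i).length := by
    rw [sb_single]
    cases b <;> simp
  have hs := length_sb_ge f hf s
  have ht := length_sb_ge f hf t
  rw [h1]
  simp only [List.length_append, List.length_cons, h3]
  omega

/-- A substitution by single letters (on the content of the word). -/
private theorem single_sb_Lev (f : ℕ → Wd) (u : Wd) (h : ∀ i ∈ ct u, (f i).length = 1) :
    sb f u = u.map (fun a => (((f a.1).headD (0, false)).1, xor a.2 ((f a.1).headD (0, false)).2)) := by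
  induction u with
  | nil => rfl
  | cons a u ih =>
    rw [sb_cons, ih (fun i hi => h i (by simp [hi]))]
    obtain ⟨c, hc⟩ := List.length_eq_one_iff.1 (h a.1 (by simp))
    rcases a with ⟨i, b⟩
    simp only at hc
    cases b <;> simp [hc, fl, st]

private theorem ct_single_sb_Lev (f : ℕ → Wd) (u : Wd) (h : ∀ i ∈ ct u, (f i).length = 1) :
    ct (sb f u) = (ct u).image (fun i => ((f i).headD (0, false)).1) := by
  rw [single_sb_Lev f u h]
  ext j
  simp [ct]

private theorem length_single_sb_Lev (f : ℕ → Wd) (u : Wd) (h : ∀ i ∈ ct u, (f i).length = 1) :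
    (sb f u).length = u.length := by
  rw [single_sb_Lev f u h, List.length_map]

/-- Killed words stay killed under substitutions. -/
private theorem kl_sb_Lev {θ : FIC} {n d : ℕ} {u : Wd} (h : Kl θ n d u) (f : ℕ → Wd) (hf : ∀ i, f i ≠ []) :
    Kl θ n d (sb f u) := by
  obtain ⟨w, hw, h2⟩ := h
  refine ⟨sb f w, θ.sub' f hf hw, ?_⟩
  rcases h2 with h2 | ⟨h2, h3⟩
  · exact Or.inl (lt_of_lt_of_le h2 (length_sb_ge f hf w))
  · by_cases hc : ∃ i ∈ ct w, 2 ≤ (f i).length
    · obtain ⟨i, hi, hi2⟩ := hc
      exact Or.inl (h2 ▸ lt_length_sb_Lev f hf w hi hi2)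
    · push Not at hc
      have h1 : ∀ i ∈ ct w, (f i).length = 1 := fun i hi => by
        have := hc i hi
        have := List.length_pos_iff.2 (hf i)
        omega
      refine Or.inr ⟨by rw [length_single_sb_Lev f w h1, h2], ?_⟩
      rw [ct_single_sb_Lev f w h1]
      exact lt_of_le_of_lt Finset.card_image_le h3

/-- Words of length `> d` are killed. -/
private theorem kl_long_Lev {θ : FIC} {n d : ℕ} {u : Wd} (h : d < u.length) : Kl θ n d u :=
  ⟨u, θ.refl' u, Or.inl h⟩

/-- Killed words stay killed under multiplication. -/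
private theorem kl_mul_Lev {θ : FIC} {n d : ℕ} {u : Wd} (h : Kl θ n d u) (a b : Wd) :
    Kl θ n d (a ++ u ++ b) := by
  by_cases hab : a ++ b = []
  · obtain ⟨ha, hb⟩ := List.append_eq_nil_iff.1 hab
    simpa [ha, hb] using h
  · obtain ⟨w, hw, h2⟩ := h
    refine ⟨a ++ w ++ b, θ.mul' a b hw, Or.inl ?_⟩
    have h3 : 0 < (a ++ b).length := List.length_pos_iff.2 hab
    simp only [List.length_append] at h3 ⊢
    rcases h2 with h2 | ⟨h2, -⟩ <;> omega

theorem hLev : StLev := by
  intro θ n d S R hd hS hθ hR hsy htr hst hrw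
  have hnil : ¬ Kl θ n d [] := by
    rintro ⟨w, hw, h2⟩
    have hw0 : w = [] := θ.ne' hw rfl
    subst hw0
    rcases h2 with h2 | ⟨h2, -⟩
    · simp at h2
    · simp at h2; omega
  refine ⟨{ r := fun u v => θ.r u v ∨ (Kl θ n d u ∧ Kl θ n d v) ∨ R u v
            refl' := fun u => Or.inl (θ.refl' u)
            symm' := ?_
            trans' := ?_
            ne' := ?_
            mul' := ?_
            star' := ?_
            sub' := ?_ }, fun u v => Iff.rfl, fun u v h => Or.inl h, ?_⟩
  · intro u v h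
    rcases h with h | ⟨h1, h2⟩ | h
    · exact Or.inl (θ.symm' h)
    · exact Or.inr (Or.inl ⟨h2, h1⟩)
    · exact Or.inr (Or.inr (hsy _ _ h))
  · intro u v w h h'
    rcases h with h | ⟨h1, h2⟩ | h
    · rcases h' with h' | ⟨h3, h4⟩ | h'
      · exact Or.inl (θ.trans' h h')
      · exact Or.inr (Or.inl ⟨h3.of_r (θ.symm' h), h4⟩)
      · have hv := (hR _ _ h').1
        exact Or.inr (Or.inr (htr _ _ _ (hsy _ _ (hθ _ _ hv (θ.symm' h))) h'))
    · rcases h' with h' | ⟨h3, h4⟩ | h'
      · exact Or.inr (Or.inl ⟨h1, h2.of_r h'⟩)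
      · exact Or.inr (Or.inl ⟨h1, h4⟩)
      · exact absurd h2 (hS _ (hR _ _ h').1).2.2
    · rcases h' with h' | ⟨h3, h4⟩ | h'
      · have hv := (hR _ _ h).2.1
        exact Or.inr (Or.inr (htr _ _ _ h (hθ _ _ hv h')))
      · exact absurd h3 (hS _ (hR _ _ h).2.1).2.2
      · exact Or.inr (Or.inr (htr _ _ _ h h'))
  · intro u v h hu
    subst hu
    rcases h with h | ⟨h1, -⟩ | h
    · exact θ.ne' h rfl
    · exact absurd h1 hnil
    · have := (hS _ (hR _ _ h).1).1
      simp at this
      omega
  · intro u v a b h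
    rcases h with h | ⟨h1, h2⟩ | h
    · exact Or.inl (θ.mul' a b h)
    · exact Or.inr (Or.inl ⟨kl_mul_Lev h1 a b, kl_mul_Lev h2 a b⟩)
    · by_cases hab : a ++ b = []
      · obtain ⟨ha, hb⟩ := List.append_eq_nil_iff.1 hab
        subst ha; subst hb
        exact Or.inr (Or.inr (by simpa using h))
      · have h3 : 0 < (a ++ b).length := List.length_pos_iff.2 hab
        have hu := (hS _ (hR _ _ h).1).1
        have hv := (hS _ (hR _ _ h).2.1).1
        refine Or.inr (Or.inl ⟨kl_long_Lev ?_, kl_long_Lev ?_⟩) <;>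
        · simp only [List.length_append] at h3 ⊢
          omega
  · intro u v h
    rcases h with h | ⟨h1, h2⟩ | h
    · exact Or.inl (θ.star' h)
    · exact Or.inr (Or.inl ⟨h1.st, h2.st⟩)
    · exact Or.inr (Or.inr (hst _ _ h))
  · intro u v f hf h
    rcases h with h | ⟨h1, h2⟩ | h
    · exact Or.inl (θ.sub' f hf h)
    · exact Or.inr (Or.inl ⟨kl_sb_Lev h1 f hf, kl_sb_Lev h2 f hf⟩)
    · obtain ⟨hSu, hSv, hct⟩ := hR _ _ h
      obtain ⟨hul, huc, -⟩ := hS _ hSu
      obtain ⟨hvl, hvc, -⟩ := hS _ hSv
      by_cases hc : ∃ i ∈ ct u, 2 ≤ (f i).length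
      · obtain ⟨i, hi, hi2⟩ := hc
        have h1 := lt_length_sb_Lev f hf u hi hi2
        have h2 := lt_length_sb_Lev f hf v (hct ▸ hi) hi2
        exact Or.inr (Or.inl ⟨kl_long_Lev (by omega), kl_long_Lev (by omega)⟩)
      · push Not at hc
        have h1 : ∀ i ∈ ct u, (f i).length = 1 := fun i hi => by
          have := hc i hi
          have := List.length_pos_iff.2 (hf i)
          omega
        have h1' : ∀ i ∈ ct v, (f i).length = 1 := hct ▸ h1
        set q : ℕ → ℕ := fun i => ((f i).headD (0, false)).1 with hq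
        set e : ℕ → Bool := fun i => ((f i).headD (0, false)).2 with he
        by_cases hinj : Set.InjOn q (ct u : Set ℕ)
        · obtain ⟨p, hp⟩ := exists_perm_extend (ct u) q hinj
          have key : ∀ w : Wd, ct w = ct u → sb f w = rw' p e w := by
            intro w hw
            rw [single_sb_Lev f w (hw ▸ h1), rw']
            apply List.map_congr_left
            intro a ha
            have haw : a.1 ∈ ct u := hw ▸ mem_ct.2 ⟨a.2, ha⟩
            rw [hp _ haw]
          rw [key u rfl, key v hct.symm]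
          exact Or.inr (Or.inr (hrw _ _ p e h))
        · have hcard : ((ct u).image q).card < n := by
            rw [← huc]
            refine lt_of_le_of_ne Finset.card_image_le (fun hcon => hinj ?_)
            exact Finset.card_image_iff.1 hcon
          refine Or.inr (Or.inl ⟨⟨_, θ.refl' _, Or.inr ⟨?_, ?_⟩⟩, ⟨_, θ.refl' _, Or.inr ⟨?_, ?_⟩⟩⟩)
          · rw [length_single_sb_Lev f u h1, hul]
          · rw [ct_single_sb_Lev f u h1]; exact hcard
          · rw [length_single_sb_Lev f v h1', hvl]
          · rw [ct_single_sb_Lev f v h1', ← hct]; exact hcard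
  · intro u v hu hv
    exact Or.inr (Or.inl ⟨kl_long_Lev (by omega), kl_long_Lev (by omega)⟩)

end Helper1.IM
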