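import Pool.Agent.Helper1.IM.St

/-!
# Project IM: module Lin (the linear lemma)
-/

set_option autoImplicit false

namespace Helper1.IM

private theorem cw_fst_Lin (n : ℕ) : (cw n).map Prod.fst = List.range n := by
  unfold cw
  rw [List.map_map]
  have : (Prod.fst ∘ X) = (id : ℕ → ℕ) := by
    funext i
    rfl
  rw [this, List.map_id]

private theorem cw_lin_Lin (n : ℕ) : Lin (cw n) := by
  unfold Lin
  rw [cw_fst_Lin]
  exact List.nodup_range

private theorem cw_length_Lin (n : ℕ) : (cw n).length = n := by
  unfold cw
  simp

private theorem cw_ct_Lin (n : ℕ) : ct (cw n) = Finset.range n := by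
  unfold ct
  rw [cw_fst_Lin]
  ext i
  simp

/-- **LINEAR LEMMA** -/
theorem hLin (h4 : StLin4) (h5 : StLin5) : StLin := by
  intro θ hn u w hu hr hnw
  by_cases hc : ct u = ct w
  · have h1 : (ct u).card = u.length := lin_card hu
    have h2 : (ct w).card ≤ w.length := card_ct_le w
    have hlen : u.length < w.length := by
      rcases lt_or_eq_of_le (show u.length ≤ w.length by rw [← h1, hc]; exact h2) with h | h
      · exact h
      · exfalso
        apply hnw
        refine ⟨?_, h.symm⟩
        have hcard : (w.map Prod.fst).toFinset.card = (w.map Prod.fst).length := by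
          have : (ct w).card = w.length := by rw [← hc, h1, h]
          rw [List.length_map]
          exact this
        unfold Lin
        exact Multiset.toFinset_card_eq_card_iff_nodup.mp hcard
    have hpos : 1 ≤ u.length := by
      rcases Nat.eq_zero_or_pos u.length with h0 | h0
      · exfalso
        have hu0 : u = [] := List.length_eq_zero_iff.mp h0
        have hw0 := θ.ne' hr hu0
        rw [hw0, hu0] at hlen
        exact absurd hlen (lt_irrefl _)
      · exact h0
    obtain ⟨p, e, hpe⟩ := lin_rename hu (cw_lin_Lin u.length) (cw_length_Lin u.length).symm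
    have hr' : θ.r (cw u.length) (rw' p e w) := by
      have := θ.rn p e hr
      rwa [hpe] at this
    have hct : ct (rw' p e w) = Finset.range u.length := by
      rw [ct_rw', ← hc, ← ct_rw' p e u, hpe, cw_ct_Lin]
    obtain ⟨w1, w2, a, b, hab, hw⟩ := h4 θ u.length (rw' p e w) hr' (by rw [rw'_length]; exact hlen) hct
    have hz := h5 θ u.length w1 w2 a b hn hpos hab hw
    rw [← hpe] at hz
    exact (Zero.rw'_iff p e).mp hz
  · exact (cont hn hr hc).1

end Helper1.IM
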