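import Pool.Agent.Helper1.IM.St

/-!
# MP_265e56_al, project IM: module Lin1 (lengthening of linear words)
-/

set_option autoImplicit false

namespace Helper1.IM

private theorem cw_succ_Lin1 (n : ℕ) : cw (n + 1) = cw n ++ [X n] := by
  simp [cw, List.range_succ]

private theorem ct_cw_Lin1 (n : ℕ) : ct (cw n) = Finset.range n := by
  ext i
  simp [ct, cw, X]

private theorem oc_cw_Lin1 (n i : ℕ) (hi : i < n) : oc i (cw n) = 1 := by
  have h : (cw n).map Prod.fst = List.range n := by
    simp [cw, X, Function.comp_def]
  unfold oc
  rw [h]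
  exact List.count_eq_one_of_mem List.nodup_range (List.mem_range.2 hi)

private theorem cut_Lin1 (N : ℕ) (hN : 1 ≤ N) : ∀ (n : ℕ) (U : Wd), 1 ≤ n → n * N ≤ U.length →
    ∃ f : ℕ → Wd, (∀ i, f i ≠ []) ∧ (∀ i < n, N ≤ (f i).length) ∧ (∀ i < n, ct (f i) ⊆ ct U) ∧
      sb f (cw n) = U := by
  intro n
  induction n with
  | zero => intro U h; omega
  | succ n ih =>
    intro U _ hU
    rcases Nat.eq_zero_or_pos n with rfl | hn
    · have hUne : U ≠ [] := fun h => by
        rw [h, List.length_nil] at hU
        omega
      refine ⟨fun _ => U, fun _ => hUne, fun i _ => by simpa using hU, fun i _ => subset_rfl, ?_⟩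
      simp [cw]
    · have h1 : n * N ≤ (U.take (n * N)).length := by
        rw [List.length_take]
        have : n * N ≤ (n + 1) * N := Nat.mul_le_mul_right _ (by omega)
        omega
      obtain ⟨f, hf1, hf2, hf3, hf4⟩ := ih (U.take (n * N)) hn h1
      set D := U.drop (n * N) with hD
      have hDl : N ≤ D.length := by
        rw [hD, List.length_drop]
        have : (n + 1) * N = n * N + N := by ring
        omega
      have hDne : D ≠ [] := fun h => by
        rw [h, List.length_nil] at hDl
        omega
      have hctU : ct U = ct (U.take (n * N)) ∪ ct D := by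
        conv_lhs => rw [← List.take_append_drop (n * N) U]
        rw [ct_append]
      refine ⟨Function.update f n D, fun i => ?_, fun i hi => ?_, fun i hi => ?_, ?_⟩
      · by_cases h : i = n
        · rw [h, Function.update_self]
          exact hDne
        · rw [Function.update_of_ne h]
          exact hf1 i
      · by_cases h : i = n
        · rw [h, Function.update_self]
          exact hDl
        · rw [Function.update_of_ne h]
          exact hf2 i (by omega)
      · rw [hctU]
        by_cases h : i = n
        · rw [h, Function.update_self]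
          exact Finset.subset_union_right
        · rw [Function.update_of_ne h]
          exact (hf3 i (by omega)).trans Finset.subset_union_left
      · have h2 : sb (Function.update f n D) (cw n) = sb f (cw n) := by
          refine sb_congr _ _ _ fun i hi => ?_
          rw [ct_cw_Lin1, Finset.mem_range] at hi
          rw [Function.update_of_ne (by omega)]
        rw [cw_succ_Lin1, sb_append, h2, hf4]
        have h3 : sb (Function.update f n D) [X n] = D := by
          rw [sb_X, Function.update_self, sb_nil, List.append_nil]
        rw [h3, hD, List.take_append_drop]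

private theorem len_sb_Lin1 (f : ℕ → Wd) (s : Finset ℕ) (w : Wd) (hw : ct w ⊆ s) :
    (sb f w).length = ∑ i ∈ s, oc i w * (f i).length := by
  induction w with
  | nil => simp [oc]
  | cons a u ih =>
    rw [ct_cons] at hw
    have ha : a.1 ∈ s := hw (Finset.mem_insert_self _ _)
    have hu : ct u ⊆ s := (Finset.subset_insert _ _).trans hw
    rw [sb_cons, List.length_append, ih hu]
    have h1 : (if a.2 then st (f a.1) else f a.1).length = (f a.1).length := by
      split_ifs
      · simp [st]
      · rfl
    have h2 : ∀ i ∈ s, oc i (a :: u) * (f i).length =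
        (if a.1 = i then (f i).length else 0) + oc i u * (f i).length := by
      intro i _
      rw [oc_cons]
      split_ifs <;> ring
    rw [h1, Finset.sum_congr rfl h2, Finset.sum_add_distrib, Finset.sum_ite_eq, if_pos ha]

theorem hLin1 : StLin1 := by
  intro θ n w hw hlen hct N
  have hn : 1 ≤ n := by
    rcases Nat.eq_zero_or_pos n with h | h
    · subst h
      exfalso
      have h1 := length_eq_sum w
      rw [hct, Finset.range_zero, Finset.sum_empty] at h1
      omega
    · exact h
  -- one step
  have step : ∀ (f : ℕ → Wd), (∀ i, f i ≠ []) →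
      (sb f (cw n)).length + 1 ≤ (sb f w).length := by
    intro f hf
    rw [len_sb_Lin1 f (Finset.range n) (cw n) (ct_cw_Lin1 n).subset,
      len_sb_Lin1 f (Finset.range n) w hct.subset]
    have h1 : ∑ i ∈ Finset.range n, oc i (cw n) * (f i).length =
        ∑ i ∈ Finset.range n, (f i).length := by
      refine Finset.sum_congr rfl fun i hi => ?_
      rw [oc_cw_Lin1 n i (Finset.mem_range.1 hi), one_mul]
    have h2 : ∑ i ∈ Finset.range n, ((f i).length + oc i w) ≤
        ∑ i ∈ Finset.range n, (oc i w * (f i).length + 1) := by
      refine Finset.sum_le_sum fun i hi => ?_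
      have h3 : 1 ≤ oc i w := oc_pos.2 (hct ▸ hi)
      have h4 : 1 ≤ (f i).length := List.length_pos_iff.2 (hf i)
      obtain ⟨a, ha⟩ := Nat.exists_eq_add_of_le h3
      obtain ⟨b, hb⟩ := Nat.exists_eq_add_of_le h4
      rw [ha, hb]
      nlinarith [Nat.zero_le (a * b)]
    rw [Finset.sum_add_distrib, Finset.sum_add_distrib, Finset.sum_const, Finset.card_range,
      smul_eq_mul, mul_one] at h2
    have h5 := length_eq_sum w
    rw [hct] at h5
    rw [h1]
    omega
  have hsb : ∀ (f : ℕ → Wd) (U : Wd), (∀ i < n, ct (f i) ⊆ ct U) → ct U ⊆ Finset.range n →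
      ct (sb f w) ⊆ Finset.range n := by
    intro f U hf hU
    rw [ct_sb, hct]
    exact Finset.biUnion_subset.2 fun i hi => (hf i (Finset.mem_range.1 hi)).trans hU
  have key : ∀ m : ℕ, ∃ U, θ.r (cw n) U ∧ n + m ≤ U.length ∧ ct U ⊆ Finset.range n := by
    intro m
    induction m with
    | zero => exact ⟨cw n, θ.refl' _, by simp [cw], (ct_cw_Lin1 n).subset⟩
    | succ m ih =>
      obtain ⟨U, hU1, hU2, hU3⟩ := ih
      obtain ⟨f, hf1, _, hf3, hf4⟩ := cut_Lin1 1 le_rfl n U hn (by omega)
      refine ⟨sb f w, ?_, ?_, hsb f U hf3 hU3⟩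
      · have h1 := θ.sub' f hf1 hw
        rw [hf4] at h1
        exact θ.trans' hU1 h1
      · have := step f hf1
        rw [hf4] at this
        omega
  obtain ⟨U, hU1, hU2, hU3⟩ := key (n * (N + 1))
  obtain ⟨f, hf1, hf2, hf3, hf4⟩ := cut_Lin1 (N + 1) (by omega) n U hn (by omega)
  refine ⟨f, hf1, fun i hi => (Nat.le_succ N).trans (hf2 i hi), fun i hi => (hf3 i hi).trans hU3, ?_, ?_⟩
  · rw [hf4]
    exact hU1
  · have h1 := θ.sub' f hf1 hw
    rw [hf4] at h1
    exact θ.trans' hU1 h1

end Helper1.IM
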