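import Pool.Agent.Helper1.IM.St

set_option autoImplicit false

namespace Helper1.IM

private theorem dup_Lin2 : ∀ w : Wd, ¬ Lin w → ∃ (w1 : Wd) (a : Lt) (w2 : Wd) (a' : Lt) (w3 : Wd),
    w = w1 ++ [a] ++ w2 ++ [a'] ++ w3 ∧ a.1 = a'.1 := by
  intro w
  induction w with
  | nil => intro h; exact absurd (by simp [Lin]) h
  | cons a t ih =>
    intro h
    by_cases hm : a.1 ∈ t.map Prod.fst
    · obtain ⟨b, hb, hab⟩ := List.mem_map.1 hm
      obtain ⟨s1, s2, rfl⟩ := List.append_of_mem hb
      exact ⟨[], a, s1, b, s2, by simp, hab.symm⟩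
    · have h' : ¬ Lin t := by
        intro hl
        apply h
        unfold Lin at hl ⊢
        rw [List.map_cons, List.nodup_cons]
        exact ⟨hm, hl⟩
      obtain ⟨w1, c, w2, c', w3, h1, h2⟩ := ih h'
      exact ⟨a :: w1, c, w2, c', w3, by rw [h1]; simp, h2⟩

private theorem mid_Lin2 (z : Wd) (N : ℕ) (h : 2 * N + 1 ≤ z.length) : ∃ i : ℕ, ∀ b : Bool,
    ∃ (p : Wd) (s : Lt) (q : Wd), (if b then st z else z) = p ++ [s] ++ q ∧ s.1 = i ∧
      N ≤ p.length ∧ N ≤ q.length := by
  have h1 : N < z.length := by omega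
  have hz : z = z.take N ++ [z[N]] ++ z.drop (N + 1) := by
    have e1 := List.take_append_drop N z
    have e2 : z.drop N = z[N] :: z.drop (N + 1) := List.drop_eq_getElem_cons h1
    rw [e2] at e1
    rw [List.append_assoc]
    exact e1.symm
  refine ⟨z[N].1, fun b => ?_⟩
  cases b
  · refine ⟨z.take N, z[N], z.drop (N + 1), ?_, rfl, ?_, ?_⟩
    · simpa using hz
    · rw [List.length_take]; omega
    · rw [List.length_drop]; omega
  · refine ⟨st (z.drop (N + 1)), fl z[N], st (z.take N), ?_, fl_fst _, ?_, ?_⟩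
    · have e3 : st z = st (z.take N ++ [z[N]] ++ z.drop (N + 1)) := by rw [← hz]
      simp only [if_true]
      rw [e3, st_append, st_append, st_single]
      simp
    · rw [st_length, List.length_drop]; omega
    · rw [st_length, List.length_take]; omega

theorem hLin2 (h1 : StLin1) : StLin2 := by
  intro θ n w hr hn hc N
  obtain ⟨f, -, hf2, -, -, hf5⟩ := h1 θ n w hr hn hc (2 * N + 1)
  have hnl : ¬ Lin w := by
    apply not_lin_of_card
    rw [hc, Finset.card_range]
    exact hn
  obtain ⟨w1, a, w2, a', w3, hw, haa⟩ := dup_Lin2 w hnl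
  have haw : a.1 < n := by
    have : a.1 ∈ ct w := by
      rw [hw, mem_ct]
      exact ⟨a.2, by simp⟩
    rw [hc] at this
    exact Finset.mem_range.1 this
  obtain ⟨i, hi⟩ := mid_Lin2 (f a.1) N (hf2 a.1 haw)
  obtain ⟨p, s, q, e1, e2, e3, e4⟩ := hi a.2
  obtain ⟨p', s', q', e1', e2', e3', e4'⟩ := hi a'.2
  refine ⟨sb f w1 ++ p, q ++ sb f w2 ++ p', q' ++ sb f w3, s, s', by rw [e2, e2'], ?_, ?_, ?_, ?_⟩
  · simp only [List.length_append]; omega
  · simp only [List.length_append]; omega
  · simp only [List.length_append]; omega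
  · have key : sb f w = sb f w1 ++ p ++ [s] ++ (q ++ sb f w2 ++ p') ++ [s'] ++ (q' ++ sb f w3) := by
      rw [hw, sb_append, sb_append, sb_append, sb_append, sb_single, sb_single, ← haa, e1, e1']
      simp [List.append_assoc]
    rw [← key]
    exact hf5

end Helper1.IM
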