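import Pool.Agent.Helper1.IM.St

set_option autoImplicit false

namespace Helper1.IM

private theorem up_Lin3 : ∀ (t : Wd) (a : Lt), a.2 = false →
    (∀ (w1 w2 : Wd) (x y : Lt), a :: t = w1 ++ [x, y] ++ w2 →
      (x.2 = false ∧ y.2 = false ∧ y.1 = x.1 + 1) ∨ (x.2 = true ∧ y.2 = true ∧ x.1 = y.1 + 1)) →
    ∃ i ∈ ct (a :: t), i = a.1 + t.length := by
  intro t
  induction t with
  | nil => intro a _ _; exact ⟨a.1, by simp, by simp⟩
  | cons b t ih =>
    intro a ha h
    rcases h [] t a b (by simp) with h1 | h1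
    · obtain ⟨i, hi, hie⟩ := ih b h1.2.1 (fun w1 w2 x y hxy => h (a :: w1) w2 x y (by rw [hxy]; simp))
      refine ⟨i, ?_, ?_⟩
      · rw [ct_cons]; exact Finset.mem_insert_of_mem hi
      · rw [hie, h1.2.2, List.length_cons]; omega
    · rw [ha] at h1; simp at h1

private theorem down_Lin3 : ∀ (t : Wd) (a : Lt), a.2 = true →
    (∀ (w1 w2 : Wd) (x y : Lt), a :: t = w1 ++ [x, y] ++ w2 →
      (x.2 = false ∧ y.2 = false ∧ y.1 = x.1 + 1) ∨ (x.2 = true ∧ y.2 = true ∧ x.1 = y.1 + 1)) →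
    ∃ i : ℕ, a.1 = i + t.length := by
  intro t
  induction t with
  | nil => intro a _ _; exact ⟨a.1, by simp⟩
  | cons b t ih =>
    intro a ha h
    rcases h [] t a b (by simp) with h1 | h1
    · rw [ha] at h1; simp at h1
    · obtain ⟨i, hie⟩ := ih b h1.2.1 (fun w1 w2 x y hxy => h (a :: w1) w2 x y (by rw [hxy]; simp))
      exact ⟨i, by rw [h1.2.2, hie, List.length_cons]; omega⟩

theorem hLin3 : StLin3 := by
  intro n w hn hc
  by_contra hcon
  have h : ∀ (w1 w2 : Wd) (x y : Lt), w = w1 ++ [x, y] ++ w2 →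
      (x.2 = false ∧ y.2 = false ∧ y.1 = x.1 + 1) ∨ (x.2 = true ∧ y.2 = true ∧ x.1 = y.1 + 1) := by
    intro w1 w2 x y hw
    by_contra hxy
    rw [not_or] at hxy
    exact hcon ⟨w1, w2, x, y, hw, hxy.1, hxy.2⟩
  cases w with
  | nil => simp at hn
  | cons a t =>
    rw [List.length_cons] at hn
    cases hb : a.2
    · obtain ⟨i, hi, hie⟩ := up_Lin3 t a hb h
      have := hc i hi
      omega
    · obtain ⟨i, hie⟩ := down_Lin3 t a hb h
      have := hc a.1 (by simp)
      omega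

end Helper1.IM
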