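import Pool.Agent.Helper1.IM.St

set_option autoImplicit false

namespace Helper1.IM

private theorem sb_cw_Lin4 (f : ℕ → Wd) (n : ℕ) : sb f (cw n) = (List.range n).flatMap f := by
  simp [sb, cw, X, List.flatMap_map]

private theorem flat_Lin4 (bs : List Wd) :
    (List.range bs.length).flatMap (fun i => bs.getD i [X i]) = bs.flatten := by
  rw [List.flatMap_def]
  congr 1
  apply List.ext_getElem
  · simp
  · intro i h1 h2
    simp [h2]

private theorem sing_Lin4 (A : Wd) : (A.map (fun c => [c])).flatten = A := by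
  induction A with
  | nil => rfl
  | cons a A ih => rw [List.map_cons, List.flatten_cons, ih]; rfl

private theorem key_Lin4 (n lo hi : ℕ) (h1 : lo < hi) (h2 : hi < n) (x y P1 P3 : Wd) (M : List Wd)
    (hx : x ≠ []) (hy : y ≠ []) (hM : ∀ b ∈ M, b ≠ []) (hMl : M.length + 1 = hi - lo)
    (hP1 : n ≤ P1.length) (hP3 : n ≤ P3.length) :
    ∃ (f : ℕ → Wd) (L R : Wd), (∀ i, f i ≠ []) ∧ f lo = x ∧ f hi = y ∧
      P1 ++ x ++ M.flatten ++ y ++ P3 = L ++ sb f (cw n) ++ R := by
  set A0 : Wd := P1.drop (P1.length - lo) with hA0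
  set L : Wd := P1.take (P1.length - lo) with hL
  set C0 : Wd := P3.take (n - 1 - hi) with hC0
  set R : Wd := P3.drop (n - 1 - hi) with hR
  have hA0l : A0.length = lo := by rw [hA0, List.length_drop]; omega
  have hC0l : C0.length = n - 1 - hi := by rw [hC0, List.length_take]; omega
  set bs : List Wd := A0.map (fun c => [c]) ++ (x :: (M ++ (y :: C0.map (fun c => [c])))) with hbs
  have hbl : bs.length = n := by
    rw [hbs, List.length_append, List.length_cons, List.length_append, List.length_cons, List.length_map,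
      List.length_map, hA0l, hC0l]
    omega
  have hne : ∀ b ∈ bs, b ≠ [] := by
    intro b hb
    rw [hbs] at hb
    simp only [List.mem_append, List.mem_cons, List.mem_map] at hb
    rcases hb with ⟨c, _, rfl⟩ | rfl | hb | rfl | ⟨c, _, rfl⟩
    · simp
    · exact hx
    · exact hM b hb
    · exact hy
    · simp
  refine ⟨fun i => bs.getD i [X i], L, R, ?_, ?_, ?_, ?_⟩
  · intro i
    show bs.getD i [X i] ≠ []
    rw [List.getD_eq_getElem?_getD]
    by_cases hi : i < bs.length
    · rw [List.getElem?_eq_getElem hi]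
      exact hne _ (List.getElem_mem hi)
    · rw [List.getElem?_eq_none (not_lt.1 hi)]
      simp
  · show bs.getD lo [X lo] = x
    have : (A0.map (fun c => [c])).length = lo := by rw [List.length_map, hA0l]
    rw [hbs, List.getD_eq_getElem?_getD, List.getElem?_append_right (by rw [this]), this]
    simp
  · show bs.getD hi [X hi] = y
    have : (A0.map (fun c => [c])).length = lo := by rw [List.length_map, hA0l]
    have e : bs = (A0.map (fun c => [c]) ++ (x :: M)) ++ (y :: C0.map (fun c => [c])) := by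
      rw [hbs]; simp
    have e2 : (A0.map (fun c => [c]) ++ (x :: M)).length = hi := by
      rw [List.length_append, this, List.length_cons]; omega
    rw [e, List.getD_eq_getElem?_getD, List.getElem?_append_right (by rw [e2]), e2]
    simp
  · rw [sb_cw_Lin4, ← hbl, flat_Lin4, hbs, List.flatten_append, List.flatten_cons, List.flatten_append,
      List.flatten_cons, sing_Lin4, sing_Lin4]
    have e1 : P1 = L ++ A0 := (List.take_append_drop _ _).symm
    have e3 : P3 = C0 ++ R := (List.take_append_drop _ _).symm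
    rw [e1, e3]
    simp only [List.append_assoc]

/-- begins with (true) or ends with (false) the letter s -/
private def Be_Lin4 (e : Bool) (u : Wd) (s : ℕ) : Prop :=
  (e = true → ∃ c v, u = c :: v ∧ c.1 = s) ∧ (e = false → ∃ c v, u = v ++ [c] ∧ c.1 = s)

private theorem cover_Lin4 (n lo hi : ℕ) (h1 : lo < hi) (h2 : hi < n) (P1 P2 P3 : Wd) (s1 s2 : Lt)
    (hs : s1.1 = s2.1) (hP1 : n + 1 ≤ P1.length) (hP2 : n + 1 ≤ P2.length) (hP3 : n + 1 ≤ P3.length)
    (e1 e2 : Bool) (hb : e1 = false → e2 = true → lo + 1 < hi) :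
    ∃ (f : ℕ → Wd) (L R : Wd), (∀ i, f i ≠ []) ∧ Be_Lin4 e1 (f lo) s1.1 ∧ Be_Lin4 e2 (f hi) s1.1 ∧
      P1 ++ [s1] ++ P2 ++ [s2] ++ P3 = L ++ sb f (cw n) ++ R := by
  cases e2 with
  | false =>
    -- hi ends with s2
    obtain ⟨f, L, R, hf, hlo, hhi, he⟩ := key_Lin4 n lo hi h1 h2 [s1] (P2.drop (hi - lo - 1) ++ [s2]) P1 P3
      ((P2.take (hi - lo - 1)).map (fun c => [c])) (by simp) (by simp) (by
        intro b hb
        obtain ⟨c, _, rfl⟩ := List.mem_map.1 hb
        simp) (by rw [List.length_map, List.length_take]; omega) (by omega) (by omega)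
    refine ⟨f, L, R, hf, ?_, ?_, ?_⟩
    · rw [hlo]
      exact ⟨fun _ => ⟨s1, [], rfl, rfl⟩, fun _ => ⟨s1, [], rfl, rfl⟩⟩
    · rw [hhi]
      exact ⟨fun h => (by cases h), fun _ => ⟨s2, _, rfl, hs.symm⟩⟩
    · rw [← he, sing_Lin4]
      have e : P2 = P2.take (hi - lo - 1) ++ P2.drop (hi - lo - 1) := (List.take_append_drop _ _).symm
      conv_lhs => rw [e]
      simp only [List.append_assoc]
  | true =>
    cases e1 with
    | true =>
      obtain ⟨f, L, R, hf, hlo, hhi, he⟩ := key_Lin4 n lo hi h1 h2 ([s1] ++ P2.take (P2.length - (hi - lo - 1)))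
        [s2] P1 P3 ((P2.drop (P2.length - (hi - lo - 1))).map (fun c => [c])) (by simp) (by simp) (by
          intro b hb
          obtain ⟨c, _, rfl⟩ := List.mem_map.1 hb
          simp) (by rw [List.length_map, List.length_drop]; omega) (by omega) (by omega)
      refine ⟨f, L, R, hf, ?_, ?_, ?_⟩
      · rw [hlo]
        exact ⟨fun _ => ⟨s1, _, rfl, rfl⟩, fun h => (by cases h)⟩
      · rw [hhi]
        exact ⟨fun _ => ⟨s2, [], rfl, hs.symm⟩, fun h => (by cases h)⟩
      · rw [← he, sing_Lin4]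
        have e : P2 = P2.take (P2.length - (hi - lo - 1)) ++ P2.drop (P2.length - (hi - lo - 1)) :=
          (List.take_append_drop _ _).symm
        conv_lhs => rw [e]
        simp only [List.append_assoc]
    | false =>
      have h3 := hb rfl rfl
      obtain ⟨f, L, R, hf, hlo, hhi, he⟩ := key_Lin4 n lo hi h1 h2 [s1] [s2] P1 P3
        ((P2.take (hi - lo - 2)).map (fun c => [c]) ++ [P2.drop (hi - lo - 2)]) (by simp) (by simp) (by
          intro b hb
          rcases List.mem_append.1 hb with hb | hb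
          · obtain ⟨c, _, rfl⟩ := List.mem_map.1 hb
            simp
          · rw [List.mem_singleton.1 hb]
            intro h
            have := congrArg List.length h
            rw [List.length_drop, List.length_nil] at this
            omega) (by rw [List.length_append, List.length_map, List.length_take, List.length_singleton]; omega)
        (by omega) (by omega)
      refine ⟨f, L, R, hf, ?_, ?_, ?_⟩
      · rw [hlo]
        exact ⟨fun h => (by cases h), fun _ => ⟨s1, [], rfl, rfl⟩⟩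
      · rw [hhi]
        exact ⟨fun _ => ⟨s2, [], rfl, hs.symm⟩, fun h => (by cases h)⟩
      · rw [← he, List.flatten_append, sing_Lin4]
        have e : P2 = P2.take (hi - lo - 2) ++ P2.drop (hi - lo - 2) := (List.take_append_drop _ _).symm
        conv_lhs => rw [e]
        simp [List.append_assoc]

private theorem en_Lin4 (f : ℕ → Wd) (a : Lt) (s : ℕ) (h : Be_Lin4 a.2 (f a.1) s) :
    ∃ c v, sb f [a] = v ++ [c] ∧ c.1 = s := by
  rw [sb_single]
  cases ha : a.2 with
  | true =>
    obtain ⟨c, v, hc, hs⟩ := h.1 ha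
    refine ⟨fl c, st v, ?_, hs⟩
    rw [if_pos rfl, hc, st_cons]
  | false =>
    obtain ⟨c, v, hc, hs⟩ := h.2 ha
    exact ⟨c, v, by rw [if_neg (by decide), hc], hs⟩

private theorem be_Lin4 (f : ℕ → Wd) (a : Lt) (s : ℕ) (h : Be_Lin4 (!a.2) (f a.1) s) :
    ∃ c v, sb f [a] = c :: v ∧ c.1 = s := by
  rw [sb_single]
  cases ha : a.2 with
  | true =>
    obtain ⟨c, v, hc, hs⟩ := h.2 (by rw [ha]; rfl)
    refine ⟨fl c, st v, ?_, hs⟩
    rw [if_pos rfl, hc, st_append, st_single]
    rfl
  | false =>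
    obtain ⟨c, v, hc, hs⟩ := h.1 (by rw [ha]; rfl)
    exact ⟨c, v, by rw [if_neg (by decide), hc], hs⟩

theorem hLin4 (h2 : StLin2) (h3 : StLin3) : StLin4 := by
  intro θ n w hw hn hct
  obtain ⟨w1, w2, a, b, rfl, hab1, hab2⟩ := h3 n w hn (fun i hi => by rw [hct] at hi; exact Finset.mem_range.1 hi)
  by_cases hab : a.1 = b.1
  · exact ⟨w1, w2, a, b, hab, hw⟩
  have han : a.1 < n := by
    have : a.1 ∈ ct (w1 ++ [a, b] ++ w2) := by simp
    rw [hct] at this
    exact Finset.mem_range.1 this
  have hbn : b.1 < n := by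
    have : b.1 ∈ ct (w1 ++ [a, b] ++ w2) := by simp
    rw [hct] at this
    exact Finset.mem_range.1 this
  obtain ⟨P1, P2, P3, s1, s2, hs, hP1, hP2, hP3, hP⟩ := h2 θ n _ hw hn hct (n + 1)
  have hmain : ∃ (f : ℕ → Wd) (L R : Wd), (∀ i, f i ≠ []) ∧ Be_Lin4 a.2 (f a.1) s1.1 ∧
      Be_Lin4 (!b.2) (f b.1) s1.1 ∧ P1 ++ [s1] ++ P2 ++ [s2] ++ P3 = L ++ sb f (cw n) ++ R := by
    rcases lt_or_gt_of_ne hab with hlt | hgt
    · exact cover_Lin4 n a.1 b.1 hlt hbn P1 P2 P3 s1 s2 hs hP1 hP2 hP3 a.2 (!b.2) (by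
        intro e1 e2
        have e3 : b.2 = false := by
          cases h : b.2
          · rfl
          · rw [h] at e2; cases e2
        by_contra hc
        exact hab1 ⟨e1, e3, by omega⟩)
    · obtain ⟨f, L, R, hf, hb, ha, he⟩ := cover_Lin4 n b.1 a.1 hgt han P1 P2 P3 s1 s2 hs hP1 hP2 hP3 (!b.2) a.2 (by
        intro e1 e2
        have e3 : b.2 = true := by
          cases h : b.2
          · rw [h] at e1; cases e1
          · rfl
        by_contra hc
        exact hab2 ⟨e2, e3, by omega⟩)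
      exact ⟨f, L, R, hf, ha, hb, he⟩
  obtain ⟨f, L, R, hf, ha, hb, he⟩ := hmain
  obtain ⟨c, u, hc, hcs⟩ := en_Lin4 f a _ ha
  obtain ⟨d, v, hd, hds⟩ := be_Lin4 f b _ hb
  refine ⟨L ++ sb f w1 ++ u, v ++ sb f w2 ++ R, c, d, by rw [hcs, hds], ?_⟩
  have h4 := θ.mul' L R (θ.sub' f hf hw)
  rw [← he] at h4
  have h5 := θ.trans' hP h4
  have e : L ++ sb f (w1 ++ [a, b] ++ w2) ++ R = L ++ sb f w1 ++ u ++ [c, d] ++ (v ++ sb f w2 ++ R) := by
    have : ([a, b] : Wd) = [a] ++ [b] := rfl
    rw [this, sb_append, sb_append, sb_append, hc, hd]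
    simp
  rw [e] at h5
  exact h5

end Helper1.IM
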