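import Pool.Agent.Helper36.IM.Tl2

set_option autoImplicit false

namespace Helper1.IM

theorem hM (hL : StLin) (h1 : StM1) (h2 : StM2) (h3 : StM3m) (h4 : StM4) (h5 : StM5) (h6 : StM6) (h7 : StM7)
    (h8 : StM8) (h9 : StM9) : StM := by
  intro θ hn h hM
  have hfin : Zero θ B6 ∧ Zero θ A6 → TD θ := by
    rintro ⟨hB, hA⟩
    have hMG := h6 θ h hB hA
    by_cases hz : Zero θ Ga6 ∨ Zero θ De6
    · exact h7 θ h hMG hz
    · push Not at hz
      obtain ⟨p, e, hp, hc, hr⟩ := h8 θ hn h hM hMG hz.1 hz.2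
      exact h9 θ h hMG p e hp hc hr
  by_cases hk : Kl θ 3 4 P3 ∨ Kl θ 3 4 Ga3 ∨ Kl θ 3 4 De3
  · exact Or.inr (hfin (h1 θ hn h hk))
  push Not at hk
  obtain ⟨k1, k2, k3⟩ := hk
  by_cases hoc : ∀ g v : Wd, (g = P3 ∨ g = Ga3 ∨ g = De3) → θ.r g v → oc 0 v = 2
  · obtain ⟨⟨p, e, hp, hpc, hpr⟩, ⟨q, f, hq, hqc, hqr⟩⟩ := h3 θ hn h hM k1 k2 k3 hoc
    exact Or.inl (h5 θ (h4 θ h p q e f hp hpc hpr hq hqc hqr))
  · push Not at hoc
    obtain ⟨g, v, hg, hr, h0⟩ := hoc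
    have hgl : g.length = 3 + 1 := by
      rcases hg with rfl | rfl | rfl <;> rfl
    have hgc : ct g = {0, 1, 2} := by
      rcases hg with rfl | rfl | rfl <;> decide
    have hgk : ¬ Kl θ 3 (3 + 1) g := by
      rcases hg with rfl | rfl | rfl
      · exact k1
      · exact k2
      · exact k3
    obtain ⟨hlen, hcv⟩ := len_T36 hn hL hgl (by rw [hgc]; decide) hgk hr
    rw [hgc] at hcv
    obtain ⟨j, hj, hj'⟩ := two_T36 (v := v) (by rw [hlen, hcv]; decide)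
    have hj0 : (0 : ℕ) ≠ j := by
      rintro rfl
      exact h0 hj
    have h01 : oc 0 v = 1 := by
      have e1 := hj' 0 hj0
      have e2 : 0 < oc 0 v := by
        rw [oc_pos, hcv]
        decide
      omega
    exact Or.inr (hfin (h2 θ hn h g v hg hr hlen hcv h01))

end Helper1.IM
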