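import Pool.Agent.Helper36.IM.Tl

set_option autoImplicit false

namespace Helper1.IM

private theorem zero_M1 {θ : FIC} (h : M3 θ) (g' : Wd) (hg : (g'.map Prod.fst).Perm [0, 1, 2])
    (hz : Zero θ (X 0 :: g')) : Zero θ B6 ∧ Zero θ A6 := by
  constructor
  · have h1 : Zero θ (X 5 :: (X 0 :: g' ++ [X 3]) ++ [X 4]) := by
      have := hz.mul [X 5] [X 3, X 4]
      simpa using this
    refine h1.of_r (h (X 5) (X 4) _ [X 0, X 0, X 1, X 2, X 3] (by simp) ?_)
    have : (X 0 :: g' ++ [X 3]).map Prod.fst = 0 :: (g'.map Prod.fst ++ [3]) := by simp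
    rw [this]
    exact (hg.append_right [3]).cons 0
  · have h1 : Zero θ (X 0 :: (g' ++ [X 3, X 4]) ++ [X 5]) := by
      have := hz.mul [] [X 3, X 4, X 5]
      simpa using this
    refine h1.of_r (h (X 0) (X 5) _ [X 0, X 1, X 2, X 3, X 4] (by simp) ?_)
    rw [List.map_append]
    exact hg.append_right [3, 4]

private theorem main_M1 {θ : FIC} (hn : NilF θ) (h : M3 θ) (g' : Wd) (hg : (g'.map Prod.fst).Perm [0, 1, 2])
    (hk : Kl θ 3 4 (X 0 :: g')) : Zero θ B6 ∧ Zero θ A6 := by
  have hgo : ∀ i, oc i g' = oc i [X 0, X 1, X 2] := by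
    rw [← perm_iff_oc]
    exact hg
  have hct : ct (X 0 :: g') = {0, 1, 2} := by
    have h1 : ct g' = ct [X 0, X 1, X 2] := ct_perm (perm_iff_oc.2 hgo)
    rw [ct_cons, h1]
    decide
  rcases hk.long hn (by rw [hct]; decide) with hz | ⟨w, hw, hwl, hwc⟩
  · exact zero_M1 h g' hg hz
  rw [hct] at hwc
  have hoc : ∀ i, i < 3 → 1 ≤ oc i w := by
    intro i hi
    rw [Nat.succ_le_iff, oc_pos, hwc]
    have : i = 0 ∨ i = 1 ∨ i = 2 := by omega
    rcases this with h | h | h <;> (rw [h]; decide)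
  have hoc3 : ∀ i, 3 ≤ i → oc i w = 0 := by
    intro i hi
    rw [oc_eq_zero, hwc]
    simp only [Finset.mem_insert, Finset.mem_singleton]
    omega
  -- B5 is related to the word with middle w
  have hB5w : θ.r B5 (X 3 :: w ++ [X 4]) := by
    have h1 := θ.mul' [X 3] [X 4] hw
    have h2 : θ.r (X 3 :: [X 0, X 0, X 1, X 2] ++ [X 4]) (X 3 :: (X 0 :: g') ++ [X 4]) := by
      refine h (X 3) (X 4) _ _ (by simp) ?_
      exact (hg.symm).cons 0
    refine θ.trans' h2 ?_
    simpa using h1
  have hwn : w ≠ [] := by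
    intro hc
    rw [hc] at hwl
    simp at hwl
  have hP4 : (4 : ℕ) ∉ ct [X 3, X 0, X 0, X 1, X 2] := by decide
  have hB5 : Zero θ B5 := by
    -- the form of the relation for a repeated letter j in {1, 2}
    have key : ∀ (j k : ℕ), 1 ≤ j → j < 3 → 1 ≤ k → k < 3 → j ≠ k → 2 ≤ oc j w → Zero θ B5 := by
      intro j k hj1 hj hk1 hk hjk h2
      have hle : ∀ i, oc i [X j, X j, X 0, X k] ≤ oc i w := by
        intro i
        simp only [ocX_T36, oc_nil]
        have h0 := hoc 0 (by omega)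
        have h1 := hoc k hk
        split_ifs with e1 e2 e3 e4 e5 e6 <;> first | omega | (subst_vars; omega)
      obtain ⟨r, hrp, hrl, hro⟩ := sub_T36 hle
      have hr4 : (4 : ℕ) ∉ ct r := by
        rw [← oc_eq_zero, hro, hoc3 4 (by omega)]
        omega
      have hr3 : (3 : ℕ) ∉ ct r := by
        rw [← oc_eq_zero, hro, hoc3 3 (by omega)]
        omega
      have hr0 : r ≠ [] := by
        intro hc
        rw [hc] at hrl
        simp only [List.length_cons, List.length_nil] at hrl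
        omega
      -- the relation
      have hR : θ.r B5 ([X 3, X j, X j, X 0, X k] ++ r ++ [X 4]) := by
        refine θ.trans' hB5w ?_
        have := h (X 3) (X 4) _ _ hwn hrp
        simpa using this
      have hτ := θ.rn (Equiv.swap 0 j) (fun _ => false) hR
      have e1 : rw' (Equiv.swap 0 j) (fun _ => false) B5 = [X 3, X j, X j, Equiv.swap 0 j 1 |> X, Equiv.swap 0 j 2 |> X, X 4] := by
        have e3 : Equiv.swap 0 j 3 = 3 := Equiv.swap_apply_of_ne_of_ne (by decide) (by omega)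
        have e4 : Equiv.swap 0 j 4 = 4 := Equiv.swap_apply_of_ne_of_ne (by decide) (by omega)
        simp [B5, rw', X, e3, e4]
      have e2 : rw' (Equiv.swap 0 j) (fun _ => false) ([X 3, X j, X j, X 0, X k] ++ r ++ [X 4]) =
          [X 3, X 0, X 0, X j, X k] ++ rw' (Equiv.swap 0 j) (fun _ => false) r ++ [X 4] := by
        have e3 : Equiv.swap 0 j 3 = 3 := Equiv.swap_apply_of_ne_of_ne (by decide) (by omega)
        have e4 : Equiv.swap 0 j 4 = 4 := Equiv.swap_apply_of_ne_of_ne (by decide) (by omega)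
        have e5 : Equiv.swap 0 j k = k := Equiv.swap_apply_of_ne_of_ne (by omega) (fun h => hjk h.symm)
        simp [rw', X, e3, e4, e5]
      rw [e1, e2] at hτ
      set s := rw' (Equiv.swap 0 j) (fun _ => false) r with hs
      have hs4 : (4 : ℕ) ∉ ct s := by
        rw [← oc_eq_zero]
        have e4 : Equiv.swap 0 j 4 = 4 := Equiv.swap_apply_of_ne_of_ne (by decide) (by omega)
        have := oc_rw' (Equiv.swap 0 j) (fun _ => false) 4 r
        rw [e4] at this
        rw [hs, this, oc_eq_zero]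
        exact hr4
      have hs0 : s ≠ [] := by
        rw [hs]
        intro hc
        exact hr0 ((rw'_eq_nil _ _ _).1 hc)
      -- normal forms of both sides by M3
      have hl1 : θ.r ([X 3, X j, X j, X 0, X k] ++ [X 4]) [X 3, X j, X j, Equiv.swap 0 j 1 |> X, Equiv.swap 0 j 2 |> X, X 4] := by
        have hp : ([X j, X j, X 0, X k].map Prod.fst).Perm
            ([X j, X j, Equiv.swap 0 j 1 |> X, Equiv.swap 0 j 2 |> X].map Prod.fst) := by
          have hjk' : (j = 1 ∧ k = 2) ∨ (j = 2 ∧ k = 1) := by omega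
          rcases hjk' with ⟨rfl, rfl⟩ | ⟨rfl, rfl⟩ <;> decide
        exact h (X 3) (X 4) _ _ (by simp) hp
      have hl2 : θ.r ([X 3, X 0, X 0, X j, X k] ++ s ++ [X 4]) ([X 3, X 0, X 0, X 1, X 2] ++ s ++ [X 4]) := by
        have hp : (([X 0, X 0, X j, X k] ++ s).map Prod.fst).Perm (([X 0, X 0, X 1, X 2] ++ s).map Prod.fst) := by
          rw [List.map_append, List.map_append]
          refine List.Perm.append_right _ ?_
          have hjk' : (j = 1 ∧ k = 2) ∨ (j = 2 ∧ k = 1) := by omega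
          rcases hjk' with ⟨rfl, rfl⟩ | ⟨rfl, rfl⟩ <;> decide
        have := h (X 3) (X 4) _ _ (by simp) hp
        simpa using this
      have hτ2 : θ.r ([X 3, X j, X j, X 0, X k] ++ [X 4]) ([X 3, X 0, X 0, X 1, X 2] ++ s ++ [X 4]) :=
        θ.trans' hl1 (θ.trans' hτ hl2)
      have hτ3 := θ.sub' (up_T36 4 (r ++ [X 4])) (up_ne_T36 _ _ (by simp)) hτ2
      have hP4' : (4 : ℕ) ∉ ct [X 3, X j, X j, X 0, X k] := by
        simp only [ct_cons, ct_nil, X_fst, Finset.mem_insert, Finset.notMem_empty, or_false]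
        omega
      rw [sb_append, sb_append, sb_append, sb_up_T36 hP4, sb_up_T36 hP4', sb_up_T36 hs4, sb_upt_T36] at hτ3
      have hfin : θ.r ([X 3, X 0, X 0, X 1, X 2] ++ [X 4]) ([X 3, X 0, X 0, X 1, X 2] ++ (s ++ r) ++ [X 4]) := by
        have h5 : θ.r ([X 3, X 0, X 0, X 1, X 2] ++ [X 4]) ([X 3, X j, X j, X 0, X k] ++ r ++ [X 4]) := hR
        refine θ.trans' h5 ?_
        simpa [List.append_assoc] using hτ3
      exact ins_T36 hn _ (s ++ r) 4 hP4 (by rw [ct_append, Finset.mem_union]; tauto) (by simp [hr0]) hfin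
    by_cases hi : 2 ≤ oc 0 w
    · have hle : ∀ i, oc i [X 0, X 0, X 1, X 2] ≤ oc i w := by
        intro i
        simp only [ocX_T36, oc_nil]
        have h1 := hoc 1 (by omega)
        have h2 := hoc 2 (by omega)
        split_ifs with e1 e2 e3 e4 e5 e6 <;> first | omega | (subst_vars; omega)
      obtain ⟨r, hrp, hrl, hro⟩ := sub_T36 hle
      have hr4 : (4 : ℕ) ∉ ct r := by
        rw [← oc_eq_zero, hro, hoc3 4 (by omega)]
        omega
      have hr0 : r ≠ [] := by
        intro hc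
        rw [hc] at hrl
        simp only [List.length_cons, List.length_nil] at hrl
        omega
      refine ins_T36 hn [X 3, X 0, X 0, X 1, X 2] r 4 hP4 hr4 hr0 ?_
      refine θ.trans' hB5w ?_
      have := h (X 3) (X 4) _ _ hwn hrp
      simpa using this
    · have hsum : w.length = oc 0 w + oc 1 w + oc 2 w := by
        rw [length_eq_sum, hwc]
        rw [Finset.sum_insert (by decide), Finset.sum_insert (by decide), Finset.sum_singleton]
        omega
      by_cases hj : 2 ≤ oc 1 w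
      · exact key 1 2 (by omega) (by omega) (by omega) (by omega) (by omega) hj
      · exact key 2 1 (by omega) (by omega) (by omega) (by omega) (by omega) (by omega)
  -- A4 is zero
  have hA4 : Zero θ [X 0, X 0, X 1, X 2, X 3] := by
    obtain ⟨a', m', rfl, hm'⟩ := cut1_T36 (u := w) (by omega)
    have hnl : ¬ Lin m' := by
      intro hl
      have h1 := lin_card hl
      have h2 : ct m' ⊆ {0, 1, 2} := by
        rw [← hwc, ct_cons]
        exact Finset.subset_insert _ _
      have h3 := Finset.card_le_card h2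
      have h4 : ({0, 1, 2} : Finset ℕ).card = 3 := by decide
      omega
    rw [lin_iff] at hnl
    push Not at hnl
    obtain ⟨c, hc⟩ := hnl
    obtain ⟨r, hr, hrl⟩ := pull2_T36 (show 2 ≤ oc c m' by omega)
    obtain ⟨d, r1, rfl, h1⟩ := cut1_T36 (u := r) (by omega)
    obtain ⟨e, r2, rfl, h2⟩ := cut1_T36 (u := r1) (by omega)
    have hz := hB5.sb (sbL_T36 [[X c], [d], [e], [a'], r2 ++ [X 3]]) (sbL_ne_T36 _ (by simp))
    have he : sb (sbL_T36 [[X c], [d], [e], [a'], r2 ++ [X 3]]) B5 = a' :: ([X c, X c] ++ (d :: e :: r2)) ++ [X 3] := by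
      unfold B5
      simp [sbL_T36]
    rw [he] at hz
    have hm4 : 4 ≤ m'.length := by omega
    have hm0 : m' ≠ [] := by
      intro hc
      rw [hc] at hm4
      simp at hm4
    have hz2 : Zero θ (a' :: m' ++ [X 3]) := hz.of_r (θ.symm' (h a' (X 3) _ _ hm0 hr))
    have h3 : θ.r (X 0 :: [X 0, X 1, X 2] ++ [X 3]) (X 0 :: g' ++ [X 3]) := h (X 0) (X 3) _ _ (by simp) hg.symm
    have h4 : θ.r (X 0 :: g' ++ [X 3]) (a' :: m' ++ [X 3]) := θ.mulR [X 3] hw
    exact hz2.of_r (θ.symm' (θ.trans' h3 h4))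
  constructor
  · have hz := hB5.sb (sbL_T36 [[X 0], [X 1], [X 2], [X 5], [X 3, X 4]]) (sbL_ne_T36 _ (by simp))
    have he : sb (sbL_T36 [[X 0], [X 1], [X 2], [X 5], [X 3, X 4]]) B5 = B6 := by
      unfold B5 B6
      simp [sbL_T36]
    rwa [he] at hz
  · have hz := hA4.sb (sbL_T36 [[X 0], [X 1], [X 2], [X 3, X 4, X 5]]) (sbL_ne_T36 _ (by simp))
    have he : sb (sbL_T36 [[X 0], [X 1], [X 2], [X 3, X 4, X 5]]) [X 0, X 0, X 1, X 2, X 3] = A6 := by
      unfold A6
      simp [sbL_T36]
    rwa [he] at hz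

theorem hM1 : StM1 := by
  intro θ hn h hor
  rcases hor with hk | hk | hk
  · exact main_M1 hn h [X 0, X 1, X 2] (by decide) hk
  · exact main_M1 hn h [X 1, X 2, X 0] (by decide) hk
  · exact main_M1 hn h [X 1, X 2, Y 0] (by decide) hk

end Helper1.IM
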