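import Pool.Agent.Helper36.IM.Tl

set_option autoImplicit false

namespace Helper1.IM

private theorem b6_M2 {θ : FIC} (hn : NilF θ) (h : M3 θ) (g v : Wd) (j k : ℕ)
    (hjk : (j = 1 ∧ k = 2) ∨ (j = 2 ∧ k = 1)) (hg : (g.map Prod.fst).Perm [0, 0, 1, 2])
    (hgn : g ≠ []) (hv : (v.map Prod.fst).Perm [j, j, 0, k]) (hr : θ.r g v) : Zero θ B6 := by
  have hvn : v ≠ [] := θ.ne'' hr hgn
  have h1 : θ.r (X 3 :: [X 0, X 0, X j, X k] ++ [X 4]) (X 3 :: [X j, X j, X 0, X k] ++ [X 4]) := by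
    have e1 : θ.r (X 3 :: [X 0, X 0, X j, X k] ++ [X 4]) (X 3 :: g ++ [X 4]) := by
      refine h _ _ _ _ (by simp) ?_
      refine List.Perm.trans ?_ hg.symm
      rcases hjk with ⟨rfl, rfl⟩ | ⟨rfl, rfl⟩ <;> decide
    have e2 : θ.r (X 3 :: v ++ [X 4]) (X 3 :: [X j, X j, X 0, X k] ++ [X 4]) := h _ _ _ _ hvn hv
    exact θ.trans' e1 (θ.trans' (θ.mul' [X 3] [X 4] hr) e2)
  -- substitute x -> x s
  have h2 : θ.r (X 3 :: [X j, X j, X 0, X 5, X k] ++ [X 4]) (X 3 :: [X 0, X 0, X j, X 5, X k, X 5] ++ [X 4]) := by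
    have e1 := θ.sub' (up_T36 0 [X 0, X 5]) (up_ne_T36 _ _ (by simp)) h1
    have e2 : sb (up_T36 0 [X 0, X 5]) (X 3 :: [X 0, X 0, X j, X k] ++ [X 4]) =
        X 3 :: [X 0, X 5, X 0, X 5, X j, X k] ++ [X 4] := by
      rcases hjk with ⟨rfl, rfl⟩ | ⟨rfl, rfl⟩ <;> simp [up_T36]
    have e3 : sb (up_T36 0 [X 0, X 5]) (X 3 :: [X j, X j, X 0, X k] ++ [X 4]) =
        X 3 :: [X j, X j, X 0, X 5, X k] ++ [X 4] := by
      rcases hjk with ⟨rfl, rfl⟩ | ⟨rfl, rfl⟩ <;> simp [up_T36]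
    rw [e2, e3] at e1
    refine θ.trans' (θ.symm' e1) (h _ _ _ _ (by simp) ?_)
    rcases hjk with ⟨rfl, rfl⟩ | ⟨rfl, rfl⟩ <;> decide
  -- apply the transposition, and b -> s b
  have h3 : θ.r (X 3 :: [X 0, X 0, X j, X 5, X k, X 5] ++ [X 4]) (X 3 :: [X j, X j, X 0, X 5, X k, X 5, X 5] ++ [X 4]) := by
    have e1 := θ.sub' (sbL_T36 [[X j], if j = 1 then [X 0] else [X 1], if j = 2 then [X 0] else [X 2], [X 3], [X 5, X 4]])
      (sbL_ne_T36 _ (by
        intro w hw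
        simp only [List.mem_cons, List.not_mem_nil, or_false] at hw
        rcases hw with rfl | rfl | rfl | rfl | rfl <;> (try split_ifs) <;> simp)) h2
    have e2 : sb (sbL_T36 [[X j], if j = 1 then [X 0] else [X 1], if j = 2 then [X 0] else [X 2], [X 3], [X 5, X 4]])
        (X 3 :: [X j, X j, X 0, X 5, X k] ++ [X 4]) = X 3 :: [X 0, X 0, X j, X 5, X k, X 5] ++ [X 4] := by
      rcases hjk with ⟨rfl, rfl⟩ | ⟨rfl, rfl⟩ <;> simp [sbL_T36]
    have e3 : sb (sbL_T36 [[X j], if j = 1 then [X 0] else [X 1], if j = 2 then [X 0] else [X 2], [X 3], [X 5, X 4]])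
        (X 3 :: [X 0, X 0, X j, X 5, X k, X 5] ++ [X 4]) = X 3 :: [X j, X j, X 0, X 5, X k, X 5, X 5] ++ [X 4] := by
      rcases hjk with ⟨rfl, rfl⟩ | ⟨rfl, rfl⟩ <;> simp [sbL_T36]
    rw [e2, e3] at e1
    exact e1
  have h4 := ins_T36 hn [X 3, X j, X j, X 0, X 5, X k] [X 5, X 5] 4
    (by rcases hjk with ⟨rfl, rfl⟩ | ⟨rfl, rfl⟩ <;> decide) (by decide) (by simp) (θ.trans' h2 h3)
  have h5 := h4.sb (sbL_T36 [[X 1], if j = 1 then [X 0] else [X 3], if j = 2 then [X 0] else [X 3], [X 5], [X 4], [X 2]])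
      (sbL_ne_T36 _ (by
        intro w hw
        simp only [List.mem_cons, List.not_mem_nil, or_false] at hw
        rcases hw with rfl | rfl | rfl | rfl | rfl | rfl <;> (try split_ifs) <;> simp))
  have e : sb (sbL_T36 [[X 1], if j = 1 then [X 0] else [X 3], if j = 2 then [X 0] else [X 3], [X 5], [X 4], [X 2]])
      ([X 3, X j, X j, X 0, X 5, X k] ++ [X 4]) = B6 := by
    rcases hjk with ⟨rfl, rfl⟩ | ⟨rfl, rfl⟩ <;> simp [sbL_T36, B6]
  rwa [e] at h5

private theorem a6_M2 {θ : FIC} (h : M3 θ) (hB : Zero θ B6) (g' v : Wd) (j k : ℕ)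
    (hjk : (j = 1 ∧ k = 2) ∨ (j = 2 ∧ k = 1)) (hg : (g'.map Prod.fst).Perm [0, 1, 2])
    (hv : (v.map Prod.fst).Perm [j, j, 0, k]) (hr : θ.r (X 0 :: g') v) : Zero θ A6 := by
  have h1 : θ.r (X 0 :: [X 0, X 1, X 2] ++ [X 3]) (v ++ [X 3]) :=
    θ.trans' (h _ _ _ g' (by simp) hg.symm) (θ.mulR [X 3] hr)
  have hvl : v.length = 4 := by
    have := hv.length_eq
    simpa using this
  obtain ⟨c, v', rfl, hvl'⟩ := cut1_T36 (u := v) (by omega)
  have hv3 : v'.length = 3 := by omega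
  have hv'n : v' ≠ [] := by
    intro hc
    rw [hc] at hv3
    simp at hv3
  by_cases hc : c.1 = j
  · have hv' : (v'.map Prod.fst).Perm [0, 1, 2] := by
      have h2 : (j :: v'.map Prod.fst).Perm (j :: [j, 0, k]) := by
        have : (c :: v').map Prod.fst = j :: v'.map Prod.fst := by rw [List.map_cons, hc]
        rw [← this]
        exact hv
      refine (List.Perm.cons_inv h2).trans ?_
      rcases hjk with ⟨rfl, rfl⟩ | ⟨rfl, rfl⟩ <;> decide
    have h2 : θ.r (X 0 :: [X 0, X 1, X 2] ++ [X 3]) (c :: [X 0, X 1, X 2] ++ [X 3]) :=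
      θ.trans' h1 (h _ _ _ _ hv'n hv')
    have h3 := θ.sub' (up_T36 0 [X 0, X 4]) (up_ne_T36 _ _ (by simp)) h2
    have e1 : sb (up_T36 0 [X 0, X 4]) (X 0 :: [X 0, X 1, X 2] ++ [X 3]) = X 0 :: [X 4, X 0, X 4, X 1, X 2] ++ [X 3] := by
      simp [up_T36]
    have e2 : sb (up_T36 0 [X 0, X 4]) (c :: [X 0, X 1, X 2] ++ [X 3]) = c :: [X 0, X 4, X 1, X 2] ++ [X 3] := by
      have hc0 : (0 : ℕ) ∉ ct [c] := by
        simp only [ct_cons, ct_nil, Finset.mem_insert, Finset.notMem_empty, or_false, hc]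
        omega
      have : c :: [X 0, X 1, X 2] ++ [X 3] = [c] ++ [X 0, X 1, X 2, X 3] := rfl
      rw [this, sb_append, sb_up_T36 hc0]
      simp [up_T36]
    rw [e1, e2] at h3
    have hz1 : Zero θ (X 0 :: [X 4, X 0, X 4, X 1, X 2] ++ [X 3]) := by
      refine mid_T36 h hB (by simp) ?_
      rw [lin_iff]
      intro hh
      have := hh 4
      revert this
      decide
    have hz2 := hz1.of_r h3
    have hz3 : Zero θ (c :: [c, X 0, X k, X 4] ++ [X 3]) := by
      refine hz2.of_r (h _ _ _ _ (by simp) ?_)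
      have : [c, X 0, X k, X 4].map Prod.fst = [j, 0, k, 4] := by simp [hc]
      rw [this]
      rcases hjk with ⟨rfl, rfl⟩ | ⟨rfl, rfl⟩ <;> decide
    obtain ⟨c1, c2⟩ := c
    dsimp only at hc
    subst hc
    have hz4 := hz3.sb (sbL_T36 [[X 1], if c1 = 1 then [(0, c2)] else [X 2], if c1 = 2 then [(0, c2)] else [X 2], [X 4, X 5], [X 3]])
      (sbL_ne_T36 _ (by
        intro w hw
        simp only [List.mem_cons, List.not_mem_nil, or_false] at hw
        rcases hw with rfl | rfl | rfl | rfl | rfl <;> (try split_ifs) <;> simp))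
    have e : sb (sbL_T36 [[X 1], if c1 = 1 then [(0, c2)] else [X 2], if c1 = 2 then [(0, c2)] else [X 2], [X 4, X 5], [X 3]])
        ((c1, c2) :: [(c1, c2), X 0, X k, X 4] ++ [X 3]) = A6 := by
      rcases hjk with ⟨rfl, rfl⟩ | ⟨rfl, rfl⟩ <;> cases c2 <;> simp [sbL_T36, A6, sb_cons, X, fl, st]
    rwa [e] at hz4
  · -- both occurrences of j are in v'
    have ho : 2 ≤ oc j v' := by
      have h2 := List.Perm.count_eq hv j
      have h3 : oc j (c :: v') = oc j v' := by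
        rw [oc_cons, if_neg hc]
        omega
      have h4 : oc j (c :: v') = List.count j [j, j, 0, k] := h2
      rw [← h3, h4]
      simp [List.count_cons]
    have h3 := θ.sub' (up_T36 3 [X 4, X 5, X 3]) (up_ne_T36 _ _ (by simp)) h1
    have hv30 : (3 : ℕ) ∉ ct (c :: v') := by
      have : ct (c :: v') = ct [X j, X j, X 0, X k] := ct_perm hv
      rw [this]
      rcases hjk with ⟨rfl, rfl⟩ | ⟨rfl, rfl⟩ <;> decide
    rw [sb_append (up_T36 3 [X 4, X 5, X 3]) (c :: v'), sb_up_T36 hv30, sb_upt_T36] at h3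
    have e1 : sb (up_T36 3 [X 4, X 5, X 3]) (X 0 :: [X 0, X 1, X 2] ++ [X 3]) = [X 0, X 0, X 1, X 2, X 4, X 5, X 3] := by
      simp [up_T36]
    rw [e1] at h3
    have hz1 : Zero θ (c :: (v' ++ [X 4, X 5]) ++ [X 3]) := by
      refine mid_T36 h hB (by rw [List.length_append, hv3]; simp) ?_
      rw [lin_iff]
      intro hh
      have := hh j
      rw [oc_append] at this
      omega
    have e2 : c :: v' ++ [X 4, X 5, X 3] = c :: (v' ++ [X 4, X 5]) ++ [X 3] := by simp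
    rw [e2] at h3
    have hz2 := hz1.of_r (θ.symm' h3)
    have hz3 := hz2.sb (sbL_T36 [[X 0], [X 1], [X 2], [X 5], [X 3], [X 4]]) (sbL_ne_T36 _ (by simp))
    have e : sb (sbL_T36 [[X 0], [X 1], [X 2], [X 5], [X 3], [X 4]]) [X 0, X 0, X 1, X 2, X 4, X 5, X 3] = A6 := by
      simp [sbL_T36, A6]
    rwa [e] at hz3

theorem hM2 : StM2 := by
  intro θ hn h g v hg hr hvl hvc hv0
  have hsum : v.length = oc 0 v + oc 1 v + oc 2 v := by
    rw [length_eq_sum, hvc]
    rw [Finset.sum_insert (by decide), Finset.sum_insert (by decide), Finset.sum_singleton]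
    omega
  have h1 : 1 ≤ oc 1 v := by
    rw [Nat.succ_le_iff, oc_pos, hvc]
    decide
  have h2 : 1 ≤ oc 2 v := by
    rw [Nat.succ_le_iff, oc_pos, hvc]
    decide
  have h3 : ∀ i, 3 ≤ i → oc i v = 0 := by
    intro i hi
    rw [oc_eq_zero, hvc]
    simp only [Finset.mem_insert, Finset.mem_singleton]
    omega
  obtain ⟨j, k, hjk, hv⟩ : ∃ j k : ℕ, ((j = 1 ∧ k = 2) ∨ (j = 2 ∧ k = 1)) ∧ (v.map Prod.fst).Perm [j, j, 0, k] := by
    by_cases hj : oc 1 v = 2
    · refine ⟨1, 2, Or.inl ⟨rfl, rfl⟩, ?_⟩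
      have : (v.map Prod.fst).Perm ([X 1, X 1, X 0, X 2].map Prod.fst) := by
        rw [perm_iff_oc]
        intro i
        simp only [ocX_T36, oc_nil]
        by_cases hi : 3 ≤ i
        · rw [h3 i hi]
          split_ifs <;> omega
        · have : i = 0 ∨ i = 1 ∨ i = 2 := by omega
          rcases this with rfl | rfl | rfl <;> simp <;> omega
      exact this
    · refine ⟨2, 1, Or.inr ⟨rfl, rfl⟩, ?_⟩
      have : (v.map Prod.fst).Perm ([X 2, X 2, X 0, X 1].map Prod.fst) := by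
        rw [perm_iff_oc]
        intro i
        simp only [ocX_T36, oc_nil]
        by_cases hi : 3 ≤ i
        · rw [h3 i hi]
          split_ifs <;> omega
        · have : i = 0 ∨ i = 1 ∨ i = 2 := by omega
          rcases this with rfl | rfl | rfl <;> simp <;> omega
      exact this
  have hB : Zero θ B6 := by
    refine b6_M2 hn h g v j k hjk ?_ ?_ hv hr
    · rcases hg with rfl | rfl | rfl <;> decide
    · rcases hg with rfl | rfl | rfl <;> decide
  refine ⟨hB, ?_⟩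
  rcases hg with rfl | rfl | rfl
  · exact a6_M2 h hB [X 0, X 1, X 2] v j k hjk (by decide) hv hr
  · exact a6_M2 h hB [X 1, X 2, X 0] v j k hjk (by decide) hv hr
  · exact a6_M2 h hB [X 1, X 2, Y 0] v j k hjk (by decide) hv hr

end Helper1.IM
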