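import Pool.Agent.Helper36.IM.Tl2

set_option autoImplicit false

namespace Helper1.IM

theorem hM3m (hL : StLin) (hT : StTwo) : StM3m := by
  intro θ hn h hM hP hG hD hoc
  have gP : Gd_T36 θ 3 P3 := ⟨rfl, by decide, hP, fun v hv => hoc P3 v (Or.inl rfl) hv⟩
  have gG : Gd_T36 θ 3 Ga3 := ⟨rfl, by decide, hG, fun v hv => hoc Ga3 v (Or.inr (Or.inl rfl)) hv⟩
  have gD : Gd_T36 θ 3 De3 := ⟨rfl, by decide, hD, fun v hv => hoc De3 v (Or.inr (Or.inr rfl)) hv⟩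
  constructor
  · refine link_T36 hL hT hn hM (by omega) (by omega) gP gG ⟨1, fun _ => true, ?_⟩
    exact h (Y 0) (Y 0) [Y 2, Y 1] [Y 1, Y 2] (by simp) (by decide)
  · refine link_T36 hL hT hn hM (by omega) (by omega) gP gD ⟨1, fun _ => false, ?_⟩
    exact h (X 0) (Y 0) [Y 2, Y 1] [X 1, X 2] (by simp) (by decide)

end Helper1.IM
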