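import Pool.Agent.Helper36.IM.Tl

set_option autoImplicit false

namespace Helper1.IM

private theorem pq_M4 (p : Equiv.Perm ℕ) (hp : p 0 = 0) (hc : ∀ j, (j = 0 ∨ j = p 1 ∨ j = p 2) ↔ (j = 0 ∨ j = 1 ∨ j = 2)) :
    List.Perm [p 1, p 2] [1, 2] := by
  have h1 : p 1 ≠ 0 := fun h => absurd (p.injective (h.trans hp.symm)) (by decide)
  have h2 : p 2 ≠ 0 := fun h => absurd (p.injective (h.trans hp.symm)) (by decide)
  have h12 : p 1 ≠ p 2 := fun h => absurd (p.injective h) (by decide)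
  have a1 := (hc (p 1)).1 (Or.inr (Or.inl rfl))
  have a2 := (hc (p 2)).1 (Or.inr (Or.inr rfl))
  have : (p 1 = 1 ∧ p 2 = 2) ∨ (p 1 = 2 ∧ p 2 = 1) := by omega
  rcases this with ⟨e1, e2⟩ | ⟨e1, e2⟩
  · rw [e1, e2]
  · rw [e1, e2]
    decide

private theorem sbp_M4 (c d : Bool) (l : List Wd) (w : Wd) :
    sb (sbL_T36 ([(0, c)] :: l)) ((0, d) :: w) = (0, xor c d) :: sb (sbL_T36 ([(0, c)] :: l)) w := by
  rw [sb_cons]
  cases c <;> cases d <;> simp [sbL_T36, fl]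

section

variable {θ : FIC} (h : M3 θ) (ε φ : Bool)
  (hL1 : θ.r P3 ((0, ε) :: [X 1, X 2] ++ [(0, ε)]))
  (hL2 : θ.r P3 ((0, φ) :: [X 1, X 2] ++ [(0, !φ)]))

include h hL1

private theorem R1_M4 (α β γ : ℕ) (s r q : Bool) :
    θ.r ((α, s) :: [X 0, X 0, X γ] ++ [(β, r)]) ((α, s) :: [X 0, X γ, X β] ++ [(0, q)]) := by
  have h1 := θ.sub' (sbL_T36 [[(0, xor ε q)], [X γ], [(β, r)]]) (sbL_ne_T36 _ (by simp)) hL1
  have e1 : sb (sbL_T36 [[(0, xor ε q)], [X γ], [(β, r)]]) P3 = [(0, xor ε q), (0, xor ε q), X γ, (β, r)] := by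
    simp [P3, sbL_T36]
  have e2 : sb (sbL_T36 [[(0, xor ε q)], [X γ], [(β, r)]]) ((0, ε) :: [X 1, X 2] ++ [(0, ε)]) =
      [(0, q), X γ, (β, r), (0, q)] := by
    have : ((0, ε) :: [X 1, X 2] ++ [(0, ε)] : Wd) = (0, ε) :: ([X 1, X 2] ++ [(0, ε)]) := rfl
    rw [this, sbp_M4, sb_append, sbp_M4]
    cases ε <;> cases q <;> simp [sbL_T36]
  rw [e1, e2] at h1
  have h2 := θ.mulL [(α, s)] h1
  have h3 : θ.r ((α, s) :: [X 0, X 0, X γ] ++ [(β, r)]) ((α, s) :: [(0, xor ε q), (0, xor ε q), X γ] ++ [(β, r)]) :=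
    h _ _ _ _ (by simp) (by simp [X])
  have h4 : θ.r ((α, s) :: [(0, q), X γ, (β, r)] ++ [(0, q)]) ((α, s) :: [X 0, X γ, X β] ++ [(0, q)]) :=
    h _ _ _ _ (by simp) (by simp [X])
  exact θ.trans' h3 (θ.trans' h2 h4)

private theorem R2_M4 (α β γ : ℕ) (s r q : Bool) :
    θ.r ((β, r) :: [X 0, X 0, X γ] ++ [(α, s)]) ((0, q) :: [X 0, X γ, X β] ++ [(α, s)]) := by
  have h1 := θ.star' (R1_M4 h ε hL1 α β γ (!s) (!r) (!q))
  have e1 : st ((α, !s) :: [X 0, X 0, X γ] ++ [(β, !r)]) = (β, r) :: [Y γ, Y 0, Y 0] ++ [(α, s)] := by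
    simp [st, fl, X, Y]
  have e2 : st ((α, !s) :: [X 0, X γ, X β] ++ [(0, !q)]) = (0, q) :: [Y β, Y γ, Y 0] ++ [(α, s)] := by
    simp [st, fl, X, Y]
  rw [e1, e2] at h1
  have h3 : θ.r ((β, r) :: [X 0, X 0, X γ] ++ [(α, s)]) ((β, r) :: [Y γ, Y 0, Y 0] ++ [(α, s)]) := by
    refine h _ _ _ _ (by simp) ?_
    rw [perm_iff_oc]
    intro i
    simp only [ocX_T36, ocY_T36, oc_nil]
    omega
  have h4 : θ.r ((0, q) :: [Y β, Y γ, Y 0] ++ [(α, s)]) ((0, q) :: [X 0, X γ, X β] ++ [(α, s)]) := by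
    refine h _ _ _ _ (by simp) ?_
    rw [perm_iff_oc]
    intro i
    simp only [ocX_T36, ocY_T36, oc_nil]
    omega
  exact θ.trans' h3 (θ.trans' h1 h4)

/-- swap middle and last -/
private theorem S3_M4 (α β γ : ℕ) (hT : ∀ s r, θ.r ((α, s) :: [X 0, X 0, X γ] ++ [(β, r)]) P4) (s r : Bool) :
    θ.r ((α, s) :: [X 0, X 0, X β] ++ [(γ, r)]) P4 := by
  have h1 := R1_M4 h ε hL1 α γ β s r false
  have h2 := R1_M4 h ε hL1 α β γ s r false
  have h3 : θ.r ((α, s) :: [X 0, X β, X γ] ++ [(0, false)]) ((α, s) :: [X 0, X γ, X β] ++ [(0, false)]) := by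
    refine h _ _ _ _ (by simp) ?_
    rw [perm_iff_oc]
    intro i
    simp only [ocX_T36, oc_nil]
    omega
  exact θ.trans' h1 (θ.trans' h3 (θ.trans' (θ.symm' h2) (hT s r)))

/-- swap first and middle -/
private theorem S4_M4 (α β γ : ℕ) (hT : ∀ s r, θ.r ((α, s) :: [X 0, X 0, X γ] ++ [(β, r)]) P4) (s r : Bool) :
    θ.r ((γ, s) :: [X 0, X 0, X α] ++ [(β, r)]) P4 := by
  have h1 := R2_M4 h ε hL1 β γ α r s false
  have h2 := R2_M4 h ε hL1 β α γ r s false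
  have h3 : θ.r ((0, false) :: [X 0, X α, X γ] ++ [(β, r)]) ((0, false) :: [X 0, X γ, X α] ++ [(β, r)]) := by
    refine h _ _ _ _ (by simp) ?_
    rw [perm_iff_oc]
    intro i
    simp only [ocX_T36, oc_nil]
    omega
  exact θ.trans' h1 (θ.trans' h3 (θ.trans' (θ.symm' h2) (hT s r)))

private theorem T213_M4 (s r : Bool) : θ.r ((2, s) :: [X 0, X 0, X 1] ++ [(3, r)]) P4 := by
  have h1 : θ.r ((2, s) :: [X 0, X 0, X 1] ++ [(3, r)]) ((2, s) :: [X 0, X 0, X 1] ++ [(3, false)]) :=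
    θ.trans' (R1_M4 h ε hL1 2 3 1 s r false) (θ.symm' (R1_M4 h ε hL1 2 3 1 s false false))
  exact θ.trans' h1 (R2_M4 h ε hL1 3 2 1 false s false)

private theorem T_M4 : (∀ s r, θ.r ((2, s) :: [X 0, X 0, X 1] ++ [(3, r)]) P4) ∧
    (∀ s r, θ.r ((2, s) :: [X 0, X 0, X 3] ++ [(1, r)]) P4) ∧
    (∀ s r, θ.r ((3, s) :: [X 0, X 0, X 2] ++ [(1, r)]) P4) ∧
    (∀ s r, θ.r ((3, s) :: [X 0, X 0, X 1] ++ [(2, r)]) P4) ∧
    (∀ s r, θ.r ((1, s) :: [X 0, X 0, X 3] ++ [(2, r)]) P4) ∧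
    (∀ s r, θ.r ((1, s) :: [X 0, X 0, X 2] ++ [(3, r)]) P4) := by
  have t1 := T213_M4 h ε hL1
  have t2 := S3_M4 h ε hL1 2 3 1 t1
  have t3 := S4_M4 h ε hL1 2 1 3 t2
  have t4 := S3_M4 h ε hL1 3 1 2 t3
  have t5 := S4_M4 h ε hL1 3 2 1 t4
  have t6 := S3_M4 h ε hL1 1 2 3 t5
  exact ⟨t1, t2, t3, t4, t5, t6⟩

/-- words with one x at the beginning -/
private theorem BL_M4 (α β γ : ℕ) (hT : ∀ s r, θ.r ((β, s) :: [X 0, X 0, X γ] ++ [(α, r)]) P4) (q r : Bool) :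
    θ.r ((0, q) :: [X 0, X γ, X β] ++ [(α, r)]) P4 :=
  θ.trans' (θ.symm' (R2_M4 h ε hL1 α β γ r false q)) (hT false r)

/-- words with one x at the end -/
private theorem BR_M4 (α β γ : ℕ) (hT : ∀ s r, θ.r ((α, s) :: [X 0, X 0, X γ] ++ [(β, r)]) P4) (q s : Bool) :
    θ.r ((α, s) :: [X 0, X γ, X β] ++ [(0, q)]) P4 :=
  θ.trans' (θ.symm' (R1_M4 h ε hL1 α β γ s false q)) (hT s false)

include hL2

private theorem CC_M4 (s r : Bool) : θ.r ((0, s) :: [X 1, X 2, X 3] ++ [(0, r)]) P4 := by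
  obtain ⟨t1, t2, t3, t4, t5, t6⟩ := T_M4 h ε hL1
  -- (0; 0 1 3; 2)
  have hB : ∀ q, θ.r [(0, q), (0, q), X 1, X 3, X 2] P4 := by
    intro q
    have h1 := BL_M4 h ε hL1 2 3 1 t4 q false
    refine θ.trans' ?_ h1
    have : ([(0, q), (0, q), X 1, X 3, X 2] : Wd) = (0, q) :: [(0, q), X 1, X 3] ++ [X 2] := rfl
    rw [this]
    exact h _ _ _ _ (by simp) (by simp [X])
  by_cases hsr : r = s
  · subst hsr
    have h1 := θ.sub' (sbL_T36 [[(0, xor ε r)], [X 1, X 3], [X 2]]) (sbL_ne_T36 _ (by simp)) hL1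
    have e1 : sb (sbL_T36 [[(0, xor ε r)], [X 1, X 3], [X 2]]) P3 = [(0, xor ε r), (0, xor ε r), X 1, X 3, X 2] := by
      simp [P3, sbL_T36]
    have e2 : sb (sbL_T36 [[(0, xor ε r)], [X 1, X 3], [X 2]]) ((0, ε) :: [X 1, X 2] ++ [(0, ε)]) =
        (0, r) :: [X 1, X 3, X 2] ++ [(0, r)] := by
      have : ((0, ε) :: [X 1, X 2] ++ [(0, ε)] : Wd) = (0, ε) :: ([X 1, X 2] ++ [(0, ε)]) := rfl
      rw [this, sbp_M4, sb_append, sbp_M4]
      cases ε <;> cases r <;> simp [sbL_T36]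
    rw [e1, e2] at h1
    have h2 : θ.r ((0, r) :: [X 1, X 2, X 3] ++ [(0, r)]) ((0, r) :: [X 1, X 3, X 2] ++ [(0, r)]) :=
      h _ _ _ _ (by simp) (by decide)
    exact θ.trans' h2 (θ.trans' (θ.symm' h1) (hB _))
  · have hrs : r = !s := by
      revert hsr
      cases r <;> cases s <;> simp
    subst hrs
    have h1 := θ.sub' (sbL_T36 [[(0, xor φ s)], [X 1, X 3], [X 2]]) (sbL_ne_T36 _ (by simp)) hL2
    have e1 : sb (sbL_T36 [[(0, xor φ s)], [X 1, X 3], [X 2]]) P3 = [(0, xor φ s), (0, xor φ s), X 1, X 3, X 2] := by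
      simp [P3, sbL_T36]
    have e2 : sb (sbL_T36 [[(0, xor φ s)], [X 1, X 3], [X 2]]) ((0, φ) :: [X 1, X 2] ++ [(0, !φ)]) =
        (0, s) :: [X 1, X 3, X 2] ++ [(0, !s)] := by
      have : ((0, φ) :: [X 1, X 2] ++ [(0, !φ)] : Wd) = (0, φ) :: ([X 1, X 2] ++ [(0, !φ)]) := rfl
      rw [this, sbp_M4, sb_append, sbp_M4]
      cases φ <;> cases s <;> simp [sbL_T36]
    rw [e1, e2] at h1
    have h2 : θ.r ((0, s) :: [X 1, X 2, X 3] ++ [(0, !s)]) ((0, s) :: [X 1, X 3, X 2] ++ [(0, !s)]) :=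
      h _ _ _ _ (by simp) (by decide)
    exact θ.trans' h2 (θ.trans' (θ.symm' h1) (hB _))

private theorem main_M4 : U4 θ := by
  obtain ⟨t1, t2, t3, t4, t5, t6⟩ := T_M4 h ε hL1
  intro u hu
  have hul : u.length = 5 := by
    have := hu.length_eq
    simpa using this
  obtain ⟨a, b, m, rfl, hm⟩ := ends_T36 (u := u) (by omega)
  have hm3 : m.length = 3 := by omega
  have hmn : m ≠ [] := by
    intro hc
    rw [hc] at hm3
    simp at hm3
  obtain ⟨α, s⟩ := a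
  obtain ⟨β, r⟩ := b
  have hu' : (α :: (m.map Prod.fst ++ [β])).Perm [0, 0, 1, 2, 3] := by
    have e : ((α, s) :: m ++ [(β, r)]).map Prod.fst = α :: (m.map Prod.fst ++ [β]) := by simp
    rw [← e]
    exact hu
  have hα : α = 0 ∨ α = 1 ∨ α = 2 ∨ α = 3 := by
    have : α ∈ [0, 0, 1, 2, 3] := hu'.subset (by simp)
    simp only [List.mem_cons, List.not_mem_nil, or_false] at this
    omega
  have hβ : β = 0 ∨ β = 1 ∨ β = 2 ∨ β = 3 := by
    have : β ∈ [0, 0, 1, 2, 3] := hu'.subset (by simp)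
    simp only [List.mem_cons, List.not_mem_nil, or_false] at this
    omega
  have hdup : α = β → α = 0 := by
    intro hab
    subst hab
    have hc := hu'.count_eq α
    by_contra h0
    rw [List.count_cons_self, List.count_append, List.count_singleton_self] at hc
    rcases hα with rfl | rfl | rfl | rfl
    · exact h0 rfl
    · have : List.count 1 [0, 0, 1, 2, 3] = 1 := by decide
      omega
    · have : List.count 2 [0, 0, 1, 2, 3] = 1 := by decide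
      omega
    · have : List.count 3 [0, 0, 1, 2, 3] = 1 := by decide
      omega
  have key : ∀ L : Wd, ([0, 0, 1, 2, 3] : List ℕ).Perm (α :: (L.map Prod.fst ++ [β])) →
      θ.r ((α, s) :: m ++ [(β, r)]) ((α, s) :: L ++ [(β, r)]) := by
    intro L hL
    refine h _ _ _ _ hmn ?_
    have h1 := (hu'.trans hL).cons_inv
    exact (List.perm_append_right_iff [β]).1 h1
  rcases hα with rfl | rfl | rfl | rfl <;> rcases hβ with rfl | rfl | rfl | rfl
  · exact θ.trans' (key [X 1, X 2, X 3] (by decide)) (CC_M4 h ε φ hL1 hL2 s r)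
  · exact θ.trans' (key [X 0, X 3, X 2] (by decide)) (BL_M4 h ε hL1 1 2 3 t2 s r)
  · exact θ.trans' (key [X 0, X 3, X 1] (by decide)) (BL_M4 h ε hL1 2 1 3 t5 s r)
  · exact θ.trans' (key [X 0, X 1, X 2] (by decide)) (BL_M4 h ε hL1 3 2 1 t1 s r)
  · exact θ.trans' (key [X 0, X 3, X 2] (by decide)) (BR_M4 h ε hL1 1 2 3 t5 r s)
  · exact absurd (hdup rfl) (by decide)
  · exact θ.trans' (key [X 0, X 0, X 3] (by decide)) (t5 s r)
  · exact θ.trans' (key [X 0, X 0, X 2] (by decide)) (t6 s r)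
  · exact θ.trans' (key [X 0, X 1, X 3] (by decide)) (BR_M4 h ε hL1 2 3 1 t1 r s)
  · exact θ.trans' (key [X 0, X 0, X 3] (by decide)) (t2 s r)
  · exact absurd (hdup rfl) (by decide)
  · exact θ.trans' (key [X 0, X 0, X 1] (by decide)) (t1 s r)
  · exact θ.trans' (key [X 0, X 2, X 1] (by decide)) (BR_M4 h ε hL1 3 1 2 t3 r s)
  · exact θ.trans' (key [X 0, X 0, X 2] (by decide)) (t3 s r)
  · exact θ.trans' (key [X 0, X 0, X 1] (by decide)) (t4 s r)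
  · exact absurd (hdup rfl) (by decide)

end

theorem hM4 : StM4 := by
  intro θ h p q e f hp hpc hpr hq hqc hqr
  have hL1 : θ.r P3 ((0, e 0) :: [X 1, X 2] ++ [(0, e 0)]) := by
    have e1 : rw' p e Ga3 = (0, e 0) :: [(p 1, e 1), (p 2, e 2)] ++ [(0, e 0)] := by
      simp [Ga3, rw', X, hp]
    rw [e1] at hpr hpc
    refine θ.trans' hpr (h _ _ _ _ (by simp) ?_)
    refine pq_M4 p hp ?_
    intro j
    have := Finset.ext_iff.1 hpc j
    simp only [P3, ct_append, ct_cons, ct_nil, X_fst, Finset.mem_union, Finset.mem_insert,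
      Finset.notMem_empty, or_false] at this
    tauto
  have hL2 : θ.r P3 ((0, f 0) :: [X 1, X 2] ++ [(0, !(f 0))]) := by
    have e1 : rw' q f De3 = (0, f 0) :: [(q 1, f 1), (q 2, f 2)] ++ [(0, !(f 0))] := by
      simp [De3, rw', X, Y, hq]
    rw [e1] at hqr hqc
    refine θ.trans' hqr (h _ _ _ _ (by simp) ?_)
    refine pq_M4 q hq ?_
    intro j
    have := Finset.ext_iff.1 hqc j
    simp only [P3, ct_append, ct_cons, ct_nil, X_fst, Finset.mem_union, Finset.mem_insert,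
      Finset.notMem_empty, or_false] at this
    tauto
  exact main_M4 h (e 0) (f 0) hL1 hL2

end Helper1.IM
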