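import Pool.Agent.Helper36.IM.Tl

set_option autoImplicit false

namespace Helper1.IM

private theorem sb0_M5 (i : ℕ) (d : Bool) (l : List Wd) (w : Wd) :
    sb (sbL_T36 ([X i] :: l)) ((0, d) :: w) = (i, d) :: sb (sbL_T36 ([X i] :: l)) w := by
  rw [sb_cons]
  cases d <;> simp [sbL_T36, fl, X, Y, st]

private theorem dec_M5 {i : ℕ} {u : Wd} (h : 2 ≤ oc i u) :
    ∃ (w0 w1 w2 : Wd) (σ σ' : Bool), u = w0 ++ [(i, σ)] ++ w1 ++ [(i, σ')] ++ w2 := by
  have h1 : i ∈ ct u := oc_pos.1 (by omega)
  obtain ⟨b, hb⟩ := mem_ct.1 h1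
  obtain ⟨s, t, rfl⟩ := List.append_of_mem hb
  rw [oc_append, ocp_T36, if_pos rfl] at h
  by_cases hs : 0 < oc i s
  · obtain ⟨c, hc⟩ := mem_ct.1 (oc_pos.1 hs)
    obtain ⟨s1, s2, rfl⟩ := List.append_of_mem hc
    exact ⟨s1, s2, t, c, b, by simp⟩
  · have ht : 0 < oc i t := by omega
    obtain ⟨c, hc⟩ := mem_ct.1 (oc_pos.1 ht)
    obtain ⟨s1, s2, rfl⟩ := List.append_of_mem hc
    exact ⟨s, s1, s2, b, c, by simp⟩

private theorem inst_M5 {θ : FIC} (h : U4 θ) (i : ℕ) (B1 B2 B3 : Wd) (h1 : B1 ≠ []) (h2 : B2 ≠ []) (h3 : B3 ≠ [])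
    (p : Wd) (hp : (p.map Prod.fst).Perm [0, 0, 1, 2, 3]) :
    θ.r (sb (sbL_T36 [[X i], B1, B2, B3]) p) ([X i, X i] ++ (B1 ++ B2 ++ B3)) := by
  have := θ.sub' (sbL_T36 [[X i], B1, B2, B3]) (sbL_ne_T36 _ (by simp [h1, h2, h3])) (h p hp)
  have e : sb (sbL_T36 [[X i], B1, B2, B3]) P4 = [X i, X i] ++ (B1 ++ B2 ++ B3) := by
    simp [P4, sbL_T36]
  rwa [e] at this

private theorem front_M5 {θ : FIC} (h : U4 θ) (i : ℕ) (w0 w1 w2 : Wd) (σ σ' : Bool)
    (hl : 3 ≤ w0.length + w1.length + w2.length) :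
    θ.r (w0 ++ [(i, σ)] ++ w1 ++ [(i, σ')] ++ w2) ([X i, X i] ++ (w0 ++ w1 ++ w2)) := by
  rcases w0 with _ | ⟨x, w0⟩
  · rcases w1 with _ | ⟨x, w1⟩
    · rcases w2 with _ | ⟨x, w2⟩
      · simp at hl
      rcases w2 with _ | ⟨y, w2⟩
      · simp at hl
      have hw : w2 ≠ [] := by
        rintro rfl
        simp at hl
      have := inst_M5 h i [x] [y] w2 (by simp) (by simp) hw [(0, σ), (0, σ'), X 1, X 2, X 3] (by simp [X])
      rw [sb0_M5, sb0_M5] at this
      simpa [sbL_T36] using this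
    · rcases w2 with _ | ⟨y, w2⟩
      · rcases w1 with _ | ⟨y, w1⟩
        · simp at hl
        have hw : w1 ≠ [] := by
          rintro rfl
          simp at hl
        have := inst_M5 h i [x] [y] w1 (by simp) (by simp) hw ((0, σ) :: ([X 1, X 2, X 3] ++ [(0, σ')]))
          (by show List.Perm [0, 1, 2, 3, 0] [0, 0, 1, 2, 3]; decide)
        rw [sb0_M5, sb_append, sb0_M5] at this
        simpa [sbL_T36] using this
      · rcases w1 with _ | ⟨z, w1⟩
        · have hw : w2 ≠ [] := by
            rintro rfl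
            simp at hl
          have := inst_M5 h i [x] [y] w2 (by simp) (by simp) hw ((0, σ) :: ([X 1] ++ ((0, σ') :: [X 2, X 3])))
            (by show List.Perm [0, 1, 0, 2, 3] [0, 0, 1, 2, 3]; decide)
          rw [sb0_M5, sb_append, sb0_M5] at this
          simpa [sbL_T36] using this
        · have := inst_M5 h i [x] (z :: w1) (y :: w2) (by simp) (by simp) (by simp)
            ((0, σ) :: ([X 1, X 2] ++ ((0, σ') :: [X 3])))
            (by show List.Perm [0, 1, 2, 0, 3] [0, 0, 1, 2, 3]; decide)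
          rw [sb0_M5, sb_append, sb0_M5] at this
          simpa [sbL_T36] using this
  · rcases w1 with _ | ⟨y, w1⟩
    · rcases w2 with _ | ⟨y, w2⟩
      · rcases w0 with _ | ⟨y, w0⟩
        · simp at hl
        have hw : w0 ≠ [] := by
          rintro rfl
          simp at hl
        have := inst_M5 h i [x] [y] w0 (by simp) (by simp) hw ([X 1, X 2, X 3] ++ ((0, σ) :: [(0, σ')]))
          (by show List.Perm [1, 2, 3, 0, 0] [0, 0, 1, 2, 3]; decide)
        rw [sb_append, sb0_M5, sb0_M5] at this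
        simpa [sbL_T36] using this
      · rcases w0 with _ | ⟨z, w0⟩
        · have hw : w2 ≠ [] := by
            rintro rfl
            simp at hl
          have := inst_M5 h i [x] [y] w2 (by simp) (by simp) hw ([X 1] ++ ((0, σ) :: (0, σ') :: [X 2, X 3]))
            (by show List.Perm [1, 0, 0, 2, 3] [0, 0, 1, 2, 3]; decide)
          rw [sb_append, sb0_M5, sb0_M5] at this
          simpa [sbL_T36] using this
        · have := inst_M5 h i [x] (z :: w0) (y :: w2) (by simp) (by simp) (by simp)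
            ([X 1, X 2] ++ ((0, σ) :: (0, σ') :: [X 3]))
            (by show List.Perm [1, 2, 0, 0, 3] [0, 0, 1, 2, 3]; decide)
          rw [sb_append, sb0_M5, sb0_M5] at this
          simpa [sbL_T36] using this
    · rcases w2 with _ | ⟨z, w2⟩
      · rcases w0 with _ | ⟨z, w0⟩
        · have hw : w1 ≠ [] := by
            rintro rfl
            simp at hl
          have := inst_M5 h i [x] [y] w1 (by simp) (by simp) hw ([X 1] ++ ((0, σ) :: ([X 2, X 3] ++ [(0, σ')])))
            (by show List.Perm [1, 0, 2, 3, 0] [0, 0, 1, 2, 3]; decide)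
          rw [sb_append, sb0_M5, sb_append, sb0_M5] at this
          simpa [sbL_T36] using this
        · have := inst_M5 h i [x] (z :: w0) (y :: w1) (by simp) (by simp) (by simp)
            ([X 1, X 2] ++ ((0, σ) :: ([X 3] ++ [(0, σ')])))
            (by show List.Perm [1, 2, 0, 3, 0] [0, 0, 1, 2, 3]; decide)
          rw [sb_append, sb0_M5, sb_append, sb0_M5] at this
          simpa [sbL_T36] using this
      · have := inst_M5 h i (x :: w0) (y :: w1) (z :: w2) (by simp) (by simp) (by simp)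
          ([X 1] ++ ((0, σ) :: ([X 2] ++ ((0, σ') :: [X 3]))))
          (by show List.Perm [1, 0, 2, 0, 3] [0, 0, 1, 2, 3]; decide)
        rw [sb_append, sb0_M5, sb_append, sb0_M5] at this
        simpa [sbL_T36] using this

private theorem arr_M5 {θ : FIC} (h : U4 θ) (i : ℕ) (B1 B2 B3 : Wd) (h1 : B1 ≠ []) (h2 : B2 ≠ []) (h3 : B3 ≠ []) :
    θ.r ([X i, X i] ++ (B1 ++ B2 ++ B3)) ([X i, X i] ++ (B2 ++ B1 ++ B3)) ∧
    θ.r ([X i, X i] ++ (B1 ++ B2 ++ B3)) ([X i, X i] ++ (B1 ++ B3 ++ B2)) ∧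
    θ.r ([X i, X i] ++ (B1 ++ B2 ++ B3)) ([X i, X i] ++ (st B1 ++ B2 ++ B3)) ∧
    θ.r ([X i, X i] ++ (B1 ++ B2 ++ B3)) ([X i, X i] ++ (B1 ++ B2 ++ st B3)) := by
  refine ⟨?_, ?_, ?_, ?_⟩
  · have := inst_M5 h i B1 B2 B3 h1 h2 h3 [X 0, X 0, X 2, X 1, X 3] (by decide)
    exact θ.symm' (by simpa [sbL_T36] using this)
  · have := inst_M5 h i B1 B2 B3 h1 h2 h3 [X 0, X 0, X 1, X 3, X 2] (by decide)
    exact θ.symm' (by simpa [sbL_T36] using this)
  · have := inst_M5 h i B1 B2 B3 h1 h2 h3 [X 0, X 0, Y 1, X 2, X 3] (by decide)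
    exact θ.symm' (by simpa [sbL_T36] using this)
  · have := inst_M5 h i B1 B2 B3 h1 h2 h3 [X 0, X 0, X 1, X 2, Y 3] (by decide)
    exact θ.symm' (by simpa [sbL_T36] using this)

private theorem swap_M5 {θ : FIC} (h : U4 θ) (i : ℕ) (b b' : Wd) (c d : Lt) (hl : 1 ≤ b.length + b'.length) :
    θ.r ([X i, X i] ++ (b ++ [c, d] ++ b')) ([X i, X i] ++ (b ++ [d, c] ++ b')) := by
  rcases b with _ | ⟨x, b⟩
  · have hb' : b' ≠ [] := by
      rintro rfl
      simp at hl
    have := (arr_M5 h i [c] [d] b' (by simp) (by simp) hb').1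
    simpa using this
  · have := θ.mulR b' (arr_M5 h i (x :: b) [c] [d] (by simp) (by simp) (by simp)).2.1
    simpa using this

private theorem star_M5 {θ : FIC} (h : U4 θ) (i : ℕ) (b b' : Wd) (c : Lt) (hl : 2 ≤ b.length + b'.length) :
    θ.r ([X i, X i] ++ (b ++ [c] ++ b')) ([X i, X i] ++ (b ++ [fl c] ++ b')) := by
  rcases b with _ | ⟨x, b⟩
  · rcases b' with _ | ⟨y, b'⟩
    · simp at hl
    have hb' : b' ≠ [] := by
      rintro rfl
      simp at hl
    have := (arr_M5 h i [c] [y] b' (by simp) (by simp) hb').2.2.1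
    simpa using this
  · rcases b with _ | ⟨y, b⟩
    · rcases b' with _ | ⟨y, b'⟩
      · simp at hl
      have h1 := (arr_M5 h i [x] [c] (y :: b') (by simp) (by simp) (by simp)).1
      have h2 := (arr_M5 h i [c] [x] (y :: b') (by simp) (by simp) (by simp)).2.2.1
      have h3 := (arr_M5 h i [fl c] [x] (y :: b') (by simp) (by simp) (by simp)).1
      have := θ.trans' h1 (θ.trans' h2 h3)
      simpa using this
    · have := θ.mulR b' (arr_M5 h i [x] (y :: b) [c] (by simp) (by simp) (by simp)).2.2.2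
      simpa using this

private theorem perm_M5 {θ : FIC} (h : U4 θ) (i : ℕ) {l l' : Wd} (hp : l.Perm l') :
    ∀ a b : Wd, 3 ≤ (a ++ l ++ b).length → θ.r ([X i, X i] ++ (a ++ l ++ b)) ([X i, X i] ++ (a ++ l' ++ b)) := by
  induction hp with
  | nil => intro a b _; exact θ.refl' _
  | cons x _ ih =>
    intro a b hl
    have h1 := ih (a ++ [x]) b (by simpa [List.append_assoc] using hl)
    simpa [List.append_assoc] using h1
  | swap x y l =>
    intro a b hl
    have h1 := swap_M5 h i a (l ++ b) y x (by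
      simp only [List.length_append, List.length_cons] at hl ⊢
      omega)
    simpa [List.append_assoc] using h1
  | trans h1 h2 ih1 ih2 =>
    intro a b hl
    refine θ.trans' (ih1 a b hl) (ih2 a b ?_)
    have := h1.length_eq
    simp only [List.length_append] at hl ⊢
    omega

private theorem norm_M5 {θ : FIC} (h : U4 θ) (i : ℕ) (l : Wd) : ∀ a : Wd, 3 ≤ (a ++ l).length →
    θ.r ([X i, X i] ++ (a ++ l)) ([X i, X i] ++ (a ++ l.map (fun b => (b.1, false)))) := by
  induction l with
  | nil => intro a _; exact θ.refl' _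
  | cons c l ih =>
    intro a hl
    have h1 : θ.r ([X i, X i] ++ (a ++ c :: l)) ([X i, X i] ++ (a ++ (c.1, false) :: l)) := by
      rcases c with ⟨j, b⟩
      cases b
      · exact θ.refl' _
      · have := star_M5 h i a l (j, true) (by
          simp only [List.length_append, List.length_cons] at hl ⊢
          omega)
        simpa [fl, List.append_assoc] using this
    have h2 := ih (a ++ [(c.1, false)]) (by
      simp only [List.length_append, List.length_cons, List.length_nil] at hl ⊢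
      omega)
    refine θ.trans' h1 ?_
    simpa [List.append_assoc] using h2

private theorem rest_M5 {θ : FIC} (h : U4 θ) (i : ℕ) (r r' : Wd) (hl : 3 ≤ r.length)
    (hp : (r.map Prod.fst).Perm (r'.map Prod.fst)) :
    θ.r ([X i, X i] ++ r) ([X i, X i] ++ r') := by
  have hlen : r'.length = r.length := by simpa using hp.length_eq.symm
  have h1 := norm_M5 h i r [] (by simpa using hl)
  have h2 := norm_M5 h i r' [] (by simpa [hlen] using hl)
  have h3 : (r.map (fun b : Lt => ((b.1, false) : Lt))).Perm (r'.map (fun b => (b.1, false))) := by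
    have := hp.map (fun i : ℕ => ((i, false) : Lt))
    simpa [List.map_map, Function.comp_def] using this
  have h4 := perm_M5 h i h3 [] [] (by simpa using hl)
  simp only [List.nil_append, List.append_nil] at h1 h2 h4
  exact θ.trans' h1 (θ.trans' h4 (θ.symm' h2))

theorem hM5 : StM5 := by
  intro θ h u v hu hl hs
  have ho := perm_iff_oc.1 hs.1
  have hlen : v.length = u.length := by simpa using hs.1.length_eq.symm
  rw [lin_iff] at hl
  push Not at hl
  obtain ⟨i, hi⟩ := hl
  obtain ⟨w0, w1, w2, σ, σ', rfl⟩ := dec_M5 (i := i) (u := u) (by omega)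
  obtain ⟨v0, v1, v2, τ, τ', rfl⟩ := dec_M5 (i := i) (u := v) (by rw [← ho i]; omega)
  simp only [List.length_append, List.length_cons, List.length_nil] at hu hlen
  have h1 := front_M5 h i w0 w1 w2 σ σ' (by omega)
  have h2 := front_M5 h i v0 v1 v2 τ τ' (by omega)
  have h3 := rest_M5 h i (w0 ++ w1 ++ w2) (v0 ++ v1 ++ v2) (by
    simp only [List.length_append]
    omega) (by
    rw [perm_iff_oc]
    intro j
    have := ho j
    simp only [oc_append, ocp_T36, oc_nil] at this ⊢
    omega)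
  exact θ.trans' h1 (θ.trans' h3 (θ.symm' h2))

end Helper1.IM
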