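import Pool.Agent.Helper36.IM.Tl

set_option autoImplicit false

namespace Helper1.IM

theorem hM6 : StM6 := by
  intro θ h hB hA u hu hl hz
  obtain ⟨a, b, m, rfl, hm⟩ := ends_T36 (u := u) (by omega)
  have hm5 : 5 ≤ m.length := by omega
  have hml : Lin m := by
    by_contra hc
    exact hz (mid_T36 h hB hm5 hc)
  have ha : a.1 ∉ ct m := fun hc => hz (fst_T36 h hA hm5 hc)
  have hb : b.1 ∉ ct m := by
    intro hc
    have h1 : Zero θ (fl b :: st m ++ [fl a]) := fst_T36 h hA (by rw [st_length]; exact hm5) (by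
      rw [ct_st]; exact hc)
    have h2 := h1.st
    have e : st (fl b :: st m ++ [fl a]) = a :: m ++ [b] := by simp
    rw [e] at h2
    exact hz h2
  have hab : a.1 = b.1 := by
    by_contra hne
    apply hl
    rw [lin_iff]
    intro j
    rw [oc_append, oc_cons, oc_cons, oc_nil]
    have h1 := lin_iff.1 hml j
    have h2 := oc_eq_zero.2 ha
    have h3 := oc_eq_zero.2 hb
    by_cases hj : a.1 = j
    · subst hj
      rw [if_pos rfl, if_neg (fun h => hne h.symm)]
      omega
    · rw [if_neg hj]
      by_cases hj' : b.1 = j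
      · subst hj'
        rw [if_pos rfl]
        omega
      · rw [if_neg hj']
        omega
  refine ⟨a.1, a.2, b.2, m, ?_, hml, ha⟩
  rw [hab]
  obtain ⟨a1, a2⟩ := a
  obtain ⟨b1, b2⟩ := b
  dsimp only at hab
  rw [hab]

end Helper1.IM
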