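import Pool.Agent.Helper36.IM.Tl

set_option autoImplicit false

namespace Helper1.IM

private theorem dez_M7 {θ : FIC} (hD : Zero θ De6) (i : ℕ) (b : Bool) (m : Wd) (hm : 5 ≤ m.length) :
    Zero θ ((i, b) :: m ++ [(i, !b)]) := by
  obtain ⟨d, r1, rfl, h1⟩ := cut1_T36 (u := m) (by omega)
  obtain ⟨e, r2, rfl, h2⟩ := cut1_T36 (u := r1) (by omega)
  obtain ⟨f, r3, rfl, h3⟩ := cut1_T36 (u := r2) (by omega)
  obtain ⟨g, r4, rfl, h4⟩ := cut1_T36 (u := r3) (by omega)
  have hr4 : r4 ≠ [] := by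
    intro hc
    subst hc
    simp at hm
  have hz := hD.sb (sbL_T36 [[(i, b)], [d], [e], [f], [g], r4]) (sbL_ne_T36 _ (by simp [hr4]))
  have he : sb (sbL_T36 [[(i, b)], [d], [e], [f], [g], r4]) De6 = (i, b) :: (d :: e :: f :: g :: r4) ++ [(i, !b)] := by
    unfold De6
    simp [sbL_T36, fl]
  rwa [he] at hz

private theorem gaz_M7 {θ : FIC} (hD : Zero θ Ga6) (i : ℕ) (b : Bool) (m : Wd) (hm : 5 ≤ m.length) :
    Zero θ ((i, b) :: m ++ [(i, b)]) := by
  obtain ⟨d, r1, rfl, h1⟩ := cut1_T36 (u := m) (by omega)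
  obtain ⟨e, r2, rfl, h2⟩ := cut1_T36 (u := r1) (by omega)
  obtain ⟨f, r3, rfl, h3⟩ := cut1_T36 (u := r2) (by omega)
  obtain ⟨g, r4, rfl, h4⟩ := cut1_T36 (u := r3) (by omega)
  have hr4 : r4 ≠ [] := by
    intro hc
    subst hc
    simp at hm
  have hz := hD.sb (sbL_T36 [[(i, b)], [d], [e], [f], [g], r4]) (sbL_ne_T36 _ (by simp [hr4]))
  have he : sb (sbL_T36 [[(i, b)], [d], [e], [f], [g], r4]) Ga6 = (i, b) :: (d :: e :: f :: g :: r4) ++ [(i, b)] := by
    unfold Ga6
    simp [sbL_T36]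
  rwa [he] at hz

theorem hM7 : StM7 := by
  intro θ h hMG hor
  refine td_T36 h hMG ?_
  intro i b c c' m hm hz hz'
  rcases hor with hG | hD
  · have h1 : c ≠ b := by
      rintro rfl
      exact hz (gaz_M7 hG i c m hm)
    have h2 : c' ≠ b := by
      rintro rfl
      exact hz' (gaz_M7 hG i c' m hm)
    have h3 : c = c' := by
      revert h1 h2
      cases b <;> cases c <;> cases c' <;> simp
    rw [h3]
    exact θ.refl' _
  · have h1 : c ≠ !b := by
      rintro rfl
      exact hz (dez_M7 hD i b m hm)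
    have h2 : c' ≠ !b := by
      rintro rfl
      exact hz' (dez_M7 hD i b m hm)
    have h3 : c = c' := by
      revert h1 h2
      cases b <;> cases c <;> cases c' <;> simp
    rw [h3]
    exact θ.refl' _

end Helper1.IM
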