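import Pool.Agent.Helper36.IM.Tl2

set_option autoImplicit false

namespace Helper1.IM

private theorem ocs_M8 (j t : ℕ) (hjt : j ≠ t) (u : Wd) (ht : t ∉ ct u) :
    oc j (sb (up_T36 j [X j, X t]) u) = oc j u ∧ oc t (sb (up_T36 j [X j, X t]) u) = oc j u := by
  induction u with
  | nil => simp
  | cons a u ih =>
    rw [ct_cons, Finset.mem_insert] at ht
    push Not at ht
    obtain ⟨i1, i2⟩ := ih ht.2
    obtain ⟨k, b⟩ := a
    have h1 := ht.1
    dsimp only at h1
    have e : sb (up_T36 j [X j, X t]) ((k, b) :: u) =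
        (if b then st (up_T36 j [X j, X t] k) else up_T36 j [X j, X t] k) ++ sb (up_T36 j [X j, X t]) u := sb_cons _ _ _
    have e2 : ∀ i, oc i (if b then st (up_T36 j [X j, X t] k) else up_T36 j [X j, X t] k) =
        oc i (up_T36 j [X j, X t] k) := by
      intro i
      cases b <;> simp
    rw [e, oc_append, oc_append, e2, e2, i1, i2, ocp_T36]
    unfold up_T36
    by_cases hk : k = j
    · subst hk
      rw [if_pos rfl, if_pos rfl, ocX_T36, ocX_T36, oc_nil, ocX_T36, ocX_T36, oc_nil, if_pos rfl,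
        if_neg (fun h => hjt h.symm), if_neg hjt, if_pos rfl]
      omega
    · rw [if_neg hk, if_neg hk, ocX_T36, ocX_T36, oc_nil, oc_nil, if_neg hk, if_neg (fun h => h1 h.symm)]
      omega

/-- the words with five letters -/
private theorem gd_M8 (hL : StLin) {θ : FIC} (hn : NilF θ) (h : M3 θ) (hMG : MG θ) (c : Bool)
    (hz : ¬ Zero θ [X 0, X 1, X 2, X 3, X 4, X 5, (0, c)]) : Gd_T36 θ 5 [X 0, X 1, X 2, X 3, X 4, (0, c)] := by
  have hct : ct [X 0, X 1, X 2, X 3, X 4, (0, c)] = {0, 1, 2, 3, 4} := by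
    cases c <;> decide
  have hnz : ¬ Zero θ [X 0, X 1, X 2, X 3, X 4, (0, c)] := by
    intro hz0
    have h1 := hz0.sb (up_T36 4 [X 4, X 5]) (up_ne_T36 _ _ (by simp))
    have e : sb (up_T36 4 [X 4, X 5]) [X 0, X 1, X 2, X 3, X 4, (0, c)] = [X 0, X 1, X 2, X 3, X 4, X 5, (0, c)] := by
      cases c
      · have : ([X 0, X 1, X 2, X 3, X 4, (0, false)] : Wd) = [X 0, X 1, X 2, X 3, X 4, X 0] := rfl
        rw [this]
        show _ = ([X 0, X 1, X 2, X 3, X 4, X 5, X 0] : Wd)
        simp [up_T36]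
      · have : ([X 0, X 1, X 2, X 3, X 4, (0, true)] : Wd) = [X 0, X 1, X 2, X 3, X 4, Y 0] := rfl
        rw [this]
        show _ = ([X 0, X 1, X 2, X 3, X 4, X 5, Y 0] : Wd)
        simp [up_T36]
    rw [e] at h1
    exact hz h1
  have hnk : ¬ Kl θ 5 (5 + 1) [X 0, X 1, X 2, X 3, X 4, (0, c)] := by
    intro hk
    rcases hk.long hn (by rw [hct]; decide) with hz0 | ⟨w, hw, hwl, hwc⟩
    · exact hnz hz0
    · have hwz : ¬ Zero θ w := fun hz0 => hnz (hz0.of_r (θ.symm' hw))
      have hcw : (ct w).card = 5 := by rw [hwc, hct]; decide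
      obtain ⟨i, b, c', m, rfl, hm, hi⟩ := hMG w (by omega) (not_lin_of_card (by omega)) hwz
      have h1 := lin_card hm
      have h2 : ct ((i, b) :: m ++ [(i, c')]) = insert i (ct m) := by
        ext k
        simp only [ct_append, ct_cons, ct_nil, Finset.mem_union, Finset.mem_insert, Finset.notMem_empty, or_false]
        tauto
      rw [h2, Finset.card_insert_of_notMem hi, h1] at hcw
      simp only [List.length_append, List.length_cons, List.length_nil] at hwl
      omega
  refine ⟨by simp, by rw [hct]; decide, hnk, ?_⟩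
  intro v hv
  obtain ⟨hlen, hcv⟩ := len_T36 hn hL (n := 5) (by simp) (by rw [hct]; decide) hnk hv
  rw [hct] at hcv
  obtain ⟨j, hj, hj'⟩ := two_T36 (v := v) (by rw [hlen, hcv]; decide)
  by_contra hne
  have hj0 : j ≠ 0 := by
    rintro rfl
    exact hne hj
  have hjm : j ∈ ct v := oc_pos.1 (by omega)
  rw [hcv] at hjm
  have hj4 : j = 1 ∨ j = 2 ∨ j = 3 ∨ j = 4 := by
    simp only [Finset.mem_insert, Finset.mem_singleton] at hjm
    tauto
  have h5 : (5 : ℕ) ∉ ct v := by
    rw [hcv]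
    decide
  have hs := θ.sub' (up_T36 j [X j, X 5]) (up_ne_T36 _ _ (by simp)) hv
  obtain ⟨o1, o2⟩ := ocs_M8 j 5 (by omega) v h5
  have hzr : Zero θ (sb (up_T36 j [X j, X 5]) v) := by
    by_contra hnz'
    have hne5 : j ≠ 5 := by omega
    have hnl : ¬ Lin (sb (up_T36 j [X j, X 5]) v) := by
      rw [lin_iff]
      intro hh
      have := hh j
      omega
    have hge : 7 ≤ (sb (up_T36 j [X j, X 5]) v).length := by
      rw [length_eq_sum]
      have hsub : ct v ∪ {5} ⊆ ct (sb (up_T36 j [X j, X 5]) v) := by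
        intro k hk
        rw [Finset.mem_union, Finset.mem_singleton] at hk
        rcases hk with hk | rfl
        · rw [ct_sb, Finset.mem_biUnion]
          refine ⟨k, hk, ?_⟩
          unfold up_T36
          by_cases hkj : k = j
          · rw [if_pos hkj, hkj]
            simp
          · rw [if_neg hkj]
            simp
        · rw [← oc_pos, o2]
          omega
      have h6 : ∑ k ∈ ct v ∪ {5}, (1 + (if k = j then 1 else 0)) ≤
          ∑ k ∈ ct (sb (up_T36 j [X j, X 5]) v), oc k (sb (up_T36 j [X j, X 5]) v) := by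
        refine le_trans (Finset.sum_le_sum fun k hk => ?_) (Finset.sum_le_sum_of_subset hsub)
        have := oc_pos.2 (hsub hk)
        split_ifs with e1
        · subst e1
          omega
        · omega
      have h7 : ∑ k ∈ ct v ∪ {5}, (1 + (if k = j then 1 else 0)) = 7 := by
        rw [hcv]
        rcases hj4 with rfl | rfl | rfl | rfl <;> decide
      omega
    obtain ⟨i, hi, hi'⟩ := d1_T36 hMG _ hge hnl hnz'
    by_cases hij : j = i
    · subst hij
      have := hi' 5 (fun h => hne5 h.symm)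
      omega
    · have := hi' j hij
      omega
  have hzl := hzr.of_r (θ.symm' hs)
  apply hz
  have e : ∃ m : Wd, sb (up_T36 j [X j, X 5]) [X 0, X 1, X 2, X 3, X 4, (0, c)] = X 0 :: m ++ [(0, c)] ∧
      m ≠ [] ∧ (m.map Prod.fst).Perm ([X 1, X 2, X 3, X 4, X 5].map Prod.fst) := by
    have e1 : ([X 0, X 1, X 2, X 3, X 4, (0, c)] : Wd) = [X 0] ++ [X 1, X 2, X 3, X 4] ++ [(0, c)] := rfl
    rw [e1, sb_append, sb_append, sb_up_T36 (u := [(0, c)]) (by
      simp only [ct_cons, ct_nil, Finset.mem_insert, Finset.notMem_empty, or_false]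
      exact hj0), sb_up_T36 (u := [X 0]) (by
      simp only [ct_cons, ct_nil, X_fst, Finset.mem_insert, Finset.notMem_empty, or_false]
      exact hj0)]
    refine ⟨sb (up_T36 j [X j, X 5]) [X 1, X 2, X 3, X 4], rfl, ?_, ?_⟩
    · rcases hj4 with rfl | rfl | rfl | rfl <;> simp [up_T36]
    · rcases hj4 with rfl | rfl | rfl | rfl
      · have : sb (up_T36 1 [X 1, X 5]) [X 1, X 2, X 3, X 4] = [X 1, X 5, X 2, X 3, X 4] := by simp [up_T36]
        rw [this]
        decide
      · have : sb (up_T36 2 [X 2, X 5]) [X 1, X 2, X 3, X 4] = [X 1, X 2, X 5, X 3, X 4] := by simp [up_T36]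
        rw [this]
        decide
      · have : sb (up_T36 3 [X 3, X 5]) [X 1, X 2, X 3, X 4] = [X 1, X 2, X 3, X 5, X 4] := by simp [up_T36]
        rw [this]
        decide
      · have : sb (up_T36 4 [X 4, X 5]) [X 1, X 2, X 3, X 4] = [X 1, X 2, X 3, X 4, X 5] := by simp [up_T36]
        rw [this]
  obtain ⟨m, e1, e2, e3⟩ := e
  rw [e1] at hzl
  exact hzl.of_r (h (X 0) (0, c) m [X 1, X 2, X 3, X 4, X 5] e2 e3)

theorem hM8 (hL : StLin) (hT : StTwo) : StM8 := by
  intro θ hn h hM hMG hG hD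
  have gG : Gd_T36 θ 5 Ga5 := gd_M8 hL hn h hMG false hG
  have gD : Gd_T36 θ 5 De5 := gd_M8 hL hn h hMG true hD
  refine link_T36 hL hT hn hM (by omega) (by omega) gG gD ⟨1, fun _ => false, ?_⟩
  exact h (X 0) (Y 0) [Y 4, Y 3, Y 2, Y 1] [X 1, X 2, X 3, X 4] (by simp) (by decide)

end Helper1.IM
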