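import Pool.Agent.Helper36.IM.Tl

set_option autoImplicit false

namespace Helper1.IM

private theorem inst_M9 {θ : FIC} {b c b' c' : Bool}
    (hr : θ.r [(0, b), X 1, X 2, X 3, X 4, (0, c)] [(0, b'), X 1, X 2, X 3, X 4, (0, c')])
    (i : ℕ) (m : Wd) (hm : 5 ≤ m.length) : θ.r ((i, b) :: m ++ [(i, c)]) ((i, b') :: m ++ [(i, c')]) := by
  obtain ⟨d, r1, rfl, h1⟩ := cut1_T36 (u := m) (by omega)
  obtain ⟨e, r2, rfl, h2⟩ := cut1_T36 (u := r1) (by omega)
  obtain ⟨f, r3, rfl, h3⟩ := cut1_T36 (u := r2) (by omega)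
  have hr3 : r3 ≠ [] := by
    intro hc
    subst hc
    simp at hm
  have hz := θ.sub' (sbL_T36 [[X i], [d], [e], [f], r3]) (sbL_ne_T36 _ (by simp [hr3])) hr
  have he : ∀ b c : Bool, sb (sbL_T36 [[X i], [d], [e], [f], r3]) [(0, b), X 1, X 2, X 3, X 4, (0, c)] =
      (i, b) :: (d :: e :: f :: r3) ++ [(i, c)] := by
    intro b c
    have e0 : ([(0, b), X 1, X 2, X 3, X 4, (0, c)] : Wd) = [(0, b)] ++ [X 1, X 2, X 3, X 4] ++ [(0, c)] := rfl
    rw [e0, sb_append, sb_append, sb_single, sb_single]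
    cases b <;> cases c <;> simp [sbL_T36, X, Y, sb_cons, fl]
  rwa [he, he] at hz

theorem hM9 : StM9 := by
  intro θ h hMG p e hp hc hr
  -- the link
  have hrw : rw' p e De5 = (0, e 0) :: [(p 1, e 1), (p 2, e 2), (p 3, e 3), (p 4, e 4)] ++ [(0, !(e 0))] := by
    simp [De5, rw', X, Y, hp]
  have hperm : ([(p 1, e 1), (p 2, e 2), (p 3, e 3), (p 4, e 4)].map Prod.fst).Perm
      ([X 1, X 2, X 3, X 4].map Prod.fst) := by
    have hn1 : ([p 1, p 2, p 3, p 4] : List ℕ).Nodup := by
      have : ([p 1, p 2, p 3, p 4] : List ℕ) = [1, 2, 3, 4].map p := rfl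
      rw [this]
      exact List.Nodup.map p.injective (by decide)
    have hn2 : ([1, 2, 3, 4] : List ℕ).Nodup := by decide
    show List.Perm [p 1, p 2, p 3, p 4] [1, 2, 3, 4]
    rw [List.perm_ext_iff_of_nodup hn1 hn2]
    have hp0 : ∀ j, j ≠ 0 → p j ≠ 0 := by
      intro j hj h0
      exact hj (p.injective (h0.trans hp.symm))
    have h1 := hp0 1 (by decide)
    have h2 := hp0 2 (by decide)
    have h3 := hp0 3 (by decide)
    have h4 := hp0 4 (by decide)
    intro j
    have hj := Finset.ext_iff.1 hc j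
    rw [hrw] at hj
    simp only [Ga5, ct_append, ct_cons, ct_nil, X_fst, Finset.mem_union, Finset.mem_insert,
      Finset.notMem_empty, or_false] at hj
    simp only [List.mem_cons, List.not_mem_nil, or_false]
    constructor
    · intro hh
      have : j ≠ 0 := by rcases hh with h | h | h | h <;> (rw [h]; assumption)
      tauto
    · intro hh
      have : j ≠ 0 := by rcases hh with h | h | h | h <;> (rw [h]; decide)
      tauto
  have hL : θ.r [(0, false), X 1, X 2, X 3, X 4, (0, false)] [(0, e 0), X 1, X 2, X 3, X 4, (0, !(e 0))] := by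
    rw [hrw] at hr
    exact θ.trans' hr (h (0, e 0) (0, !(e 0)) _ _ (by simp) hperm)
  -- starring x
  have hL2 : θ.r [(0, true), X 1, X 2, X 3, X 4, (0, true)] [(0, !(e 0)), X 1, X 2, X 3, X 4, (0, e 0)] := by
    have := θ.rn 1 (fun i => decide (i = 0)) hL
    simpa [rw', X] using this
  have hL3 : θ.r [(0, true), X 1, X 2, X 3, X 4, (0, true)] [(0, e 0), X 1, X 2, X 3, X 4, (0, !(e 0))] := by
    have h1 := θ.star' hL
    have e1 : st [(0, false), X 1, X 2, X 3, X 4, (0, false)] = (0, true) :: [Y 4, Y 3, Y 2, Y 1] ++ [(0, true)] := by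
      simp [st, fl, X, Y]
    have e2 : st [(0, e 0), X 1, X 2, X 3, X 4, (0, !(e 0))] = (0, e 0) :: [Y 4, Y 3, Y 2, Y 1] ++ [(0, !(e 0))] := by
      simp [st, fl, X, Y]
    rw [e1, e2] at h1
    have h2 := h (0, true) (0, true) [Y 4, Y 3, Y 2, Y 1] [X 1, X 2, X 3, X 4] (by simp) (by decide)
    have h3 := h (0, e 0) (0, !(e 0)) [Y 4, Y 3, Y 2, Y 1] [X 1, X 2, X 3, X 4] (by simp) (by decide)
    exact θ.trans' (θ.symm' h2) (θ.trans' h1 h3)
  have hall : ∀ b c : Bool, θ.r [(0, b), X 1, X 2, X 3, X 4, (0, c)] [(0, true), X 1, X 2, X 3, X 4, (0, true)] := by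
    have hff := θ.trans' hL (θ.symm' hL3)
    have hL2' := θ.symm' hL2
    have hL3' := θ.symm' hL3
    cases he : e 0 with
    | false =>
      rw [he] at hL2' hL3'
      intro b c
      cases b <;> cases c
      · exact hff
      · exact hL3'
      · exact hL2'
      · exact θ.refl' _
    | true =>
      rw [he] at hL2' hL3'
      intro b c
      cases b <;> cases c
      · exact hff
      · exact hL2'
      · exact hL3'
      · exact θ.refl' _
  refine td_T36 h hMG ?_
  intro i b c c' m hm _ _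
  exact inst_M9 (θ.trans' (hall b c) (θ.symm' (hall b c'))) i m hm

end Helper1.IM
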