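import Pool.Agent.Helper1.IM.St3

/-! Module Main of project IM. -/

set_option autoImplicit false

namespace Helper1.IM

theorem hMain (hT : StTy) (hG : StGlue) : StMain := fun θ hN h7 => hG θ (hT θ hN h7) h7

end Helper1.IM
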