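import Pool.Agent.Helper1.IM.St

/-!
# Project IM, module P33: the pentagon in linear words of length 3
-/

set_option autoImplicit false

namespace Helper1.IM

/-- Three different letters. -/
private def D3_P33 (a b c : Lt) : Prop := a.1 ≠ b.1 ∧ a.1 ≠ c.1 ∧ b.1 ≠ c.1

/-- Linear words of length 3. -/
private def S_P33 (u : Wd) : Prop := ∃ a b c : Lt, D3_P33 a b c ∧ u = [a, b, c]

/-- Equality up to the signs of the outer letters. -/
private def Rx_P33 (u v : Wd) : Prop := ∃ a b c : Lt, D3_P33 a b c ∧ u = [a, b, c] ∧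
  (v = [a, b, c] ∨ v = [fl a, b, fl c])

/-- Equality up to an even number of signs. -/
private def Rz_P33 (u v : Wd) : Prop := ∃ a b c : Lt, D3_P33 a b c ∧ u = [a, b, c] ∧
  (v = [a, b, c] ∨ v = [fl a, b, fl c] ∨ v = [fl a, fl b, c] ∨ v = [a, fl b, fl c])

/-- Rotations. -/
private def Ry_P33 (u v : Wd) : Prop := ∃ a b c : Lt, D3_P33 a b c ∧ u = [a, b, c] ∧
  (v = [a, b, c] ∨ v = [b, c, a] ∨ v = [c, a, b])

private theorem lin3_P33 (a b c : Lt) : Lin [a, b, c] ↔ D3_P33 a b c := by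
  unfold Lin D3_P33
  simp only [List.map_cons, List.map_nil, List.nodup_cons, List.mem_cons, List.not_mem_nil,
    or_false, not_or, not_false_eq_true, List.nodup_nil, and_true]
  tauto

private theorem S_iff_P33 (u : Wd) : S_P33 u ↔ u.length = 3 ∧ Lin u := by
  constructor
  · rintro ⟨a, b, c, hd, rfl⟩
    exact ⟨rfl, (lin3_P33 a b c).2 hd⟩
  · rintro ⟨hl, hu⟩
    obtain ⟨a, b, c, rfl⟩ := List.length_eq_three.1 hl
    exact ⟨a, b, c, (lin3_P33 a b c).1 hu, rfl⟩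

private theorem nk_P33 {θ : FIC} (hθ : ∀ u v : Wd, u.length = 3 → Lin u → θ.r u v → v = u)
    {u : Wd} (hu : S_P33 u) : ¬ Kl θ 3 3 u := by
  rintro ⟨w, hw, h2⟩
  have hS := (S_iff_P33 u).1 hu
  have e := hθ u w hS.1 hS.2 hw
  subst e
  have := lin_card hS.2
  omega

/-- The level construction for a relation on the linear words of length 3. -/
private theorem lev_P33 (h : StLev) {θ : FIC}
    (hθ : ∀ u v : Wd, u.length = 3 → Lin u → θ.r u v → v = u) (R : Wd → Wd → Prop)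
    (hr : ∀ u, S_P33 u → R u u) (hS : ∀ u v, R u v → S_P33 u ∧ S_P33 v ∧ ct u = ct v)
    (hsy : ∀ u v, R u v → R v u) (htr : ∀ u v w, R u v → R v w → R u w)
    (hst : ∀ u v, R u v → R (st u) (st v))
    (hrn : ∀ (u v : Wd) (p : Equiv.Perm ℕ) (e : ℕ → Bool), R u v → R (rw' p e u) (rw' p e v)) :
    ∃ E : FIC, (∀ u v, E.r u v ↔ θ.r u v ∨ (Kl θ 3 3 u ∧ Kl θ 3 3 v) ∨ R u v) ∧ Le θ E ∧
      Col 7 E := by
  obtain ⟨E, h1, h2, h3⟩ := h θ 3 3 S_P33 R (by norm_num)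
    (fun u hu => ⟨((S_iff_P33 u).1 hu).1,
      (lin_card ((S_iff_P33 u).1 hu).2).trans ((S_iff_P33 u).1 hu).1, nk_P33 hθ hu⟩)
    (fun u v hu huv => by
      have hS' := (S_iff_P33 u).1 hu
      have e := hθ u v hS'.1 hS'.2 huv
      rw [e]
      exact hr u hu) hS hsy htr hst hrn
  exact ⟨E, h1, h2, fun u v hu hv => h3 u v (by omega) (by omega)⟩

private theorem D3_perm1 {a b c : Lt} (h : D3_P33 a b c) : D3_P33 b c a :=
  ⟨h.2.2, h.1.symm, h.2.1.symm⟩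

private theorem D3_perm2 {a b c : Lt} (h : D3_P33 a b c) : D3_P33 c a b :=
  ⟨h.2.1.symm, h.2.2.symm, h.1⟩

private theorem D3_rev {a b c : Lt} (h : D3_P33 a b c) : D3_P33 (fl c) (fl b) (fl a) :=
  ⟨h.2.2.symm, h.2.1.symm, h.1.symm⟩

private theorem D3_rn {a b c : Lt} (h : D3_P33 a b c) (p : Equiv.Perm ℕ) (e : ℕ → Bool) :
    D3_P33 (p a.1, xor a.2 (e a.1)) (p b.1, xor b.2 (e b.1)) (p c.1, xor c.2 (e c.1)) :=
  ⟨fun hh => h.1 (p.injective hh), fun hh => h.2.1 (p.injective hh),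
    fun hh => h.2.2 (p.injective hh)⟩

private theorem fl_rn (a : Lt) (p : Equiv.Perm ℕ) (e : ℕ → Bool) :
    (p (fl a).1, xor (fl a).2 (e (fl a).1)) = fl (p a.1, xor a.2 (e a.1)) := by
  rcases a with ⟨i, b⟩
  simp only [fl]
  cases b <;> cases e i <;> rfl

private theorem x_P33 (h : StLev) {θ : FIC}
    (hθ : ∀ u v : Wd, u.length = 3 → Lin u → θ.r u v → v = u) :
    ∃ E : FIC, (∀ u v, E.r u v ↔ θ.r u v ∨ (Kl θ 3 3 u ∧ Kl θ 3 3 v) ∨ Rx_P33 u v) ∧ Le θ E ∧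
      Col 7 E := by
  refine lev_P33 h hθ Rx_P33 ?_ ?_ ?_ ?_ ?_ ?_
  · rintro u ⟨a, b, c, hd, rfl⟩
    exact ⟨a, b, c, hd, rfl, Or.inl rfl⟩
  · rintro u v ⟨a, b, c, hd, rfl, rfl | rfl⟩
    · exact ⟨⟨a, b, c, hd, rfl⟩, ⟨a, b, c, hd, rfl⟩, rfl⟩
    · exact ⟨⟨a, b, c, hd, rfl⟩, ⟨fl a, b, fl c, hd, rfl⟩, by simp⟩
  · rintro u v ⟨a, b, c, hd, rfl, rfl | rfl⟩
    · exact ⟨a, b, c, hd, rfl, Or.inl rfl⟩
    · exact ⟨fl a, b, fl c, hd, rfl, Or.inr (by simp)⟩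
  · rintro u v w ⟨a, b, c, hd, rfl, rfl | rfl⟩ ⟨a', b', c', hd', he, hw⟩
    · simp only [List.cons.injEq, and_true] at he
      obtain ⟨rfl, rfl, rfl⟩ := he
      exact ⟨a, b, c, hd, rfl, hw⟩
    · simp only [List.cons.injEq, and_true] at he
      obtain ⟨rfl, rfl, rfl⟩ := he
      refine ⟨a, b, c, hd, rfl, ?_⟩
      simp only [fl_fl] at hw
      exact hw.symm
  · rintro u v ⟨a, b, c, hd, rfl, rfl | rfl⟩
    · exact ⟨fl c, fl b, fl a, D3_rev hd, by simp, Or.inl (by simp)⟩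
    · exact ⟨fl c, fl b, fl a, D3_rev hd, by simp, Or.inr (by simp)⟩
  · rintro u v p e ⟨a, b, c, hd, rfl, rfl | rfl⟩
    · exact ⟨_, _, _, D3_rn hd p e, by simp, Or.inl (by simp)⟩
    · refine ⟨_, _, _, D3_rn hd p e, by simp, Or.inr ?_⟩
      simp only [rw'_cons, rw'_nil, fl_rn]

private theorem z_P33 (h : StLev) {θ : FIC}
    (hθ : ∀ u v : Wd, u.length = 3 → Lin u → θ.r u v → v = u) :
    ∃ E : FIC, (∀ u v, E.r u v ↔ θ.r u v ∨ (Kl θ 3 3 u ∧ Kl θ 3 3 v) ∨ Rz_P33 u v) ∧ Le θ E ∧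
      Col 7 E := by
  refine lev_P33 h hθ Rz_P33 ?_ ?_ ?_ ?_ ?_ ?_
  · rintro u ⟨a, b, c, hd, rfl⟩
    exact ⟨a, b, c, hd, rfl, Or.inl rfl⟩
  · rintro u v ⟨a, b, c, hd, rfl, rfl | rfl | rfl | rfl⟩
    · exact ⟨⟨a, b, c, hd, rfl⟩, ⟨a, b, c, hd, rfl⟩, rfl⟩
    · exact ⟨⟨a, b, c, hd, rfl⟩, ⟨fl a, b, fl c, hd, rfl⟩, by simp⟩
    · exact ⟨⟨a, b, c, hd, rfl⟩, ⟨fl a, fl b, c, hd, rfl⟩, by simp⟩
    · exact ⟨⟨a, b, c, hd, rfl⟩, ⟨a, fl b, fl c, hd, rfl⟩, by simp⟩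
  · rintro u v ⟨a, b, c, hd, rfl, rfl | rfl | rfl | rfl⟩
    · exact ⟨a, b, c, hd, rfl, Or.inl rfl⟩
    · exact ⟨fl a, b, fl c, hd, rfl, Or.inr (Or.inl (by simp))⟩
    · exact ⟨fl a, fl b, c, hd, rfl, Or.inr (Or.inr (Or.inl (by simp)))⟩
    · exact ⟨a, fl b, fl c, hd, rfl, Or.inr (Or.inr (Or.inr (by simp)))⟩
  · rintro u v w ⟨a, b, c, hd, rfl, rfl | rfl | rfl | rfl⟩ ⟨a', b', c', hd', he, hw⟩
    all_goals
      simp only [List.cons.injEq, and_true] at he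
      obtain ⟨rfl, rfl, rfl⟩ := he
      refine ⟨a, b, c, hd, rfl, ?_⟩
      try simp only [fl_fl] at hw
      tauto
  · rintro u v ⟨a, b, c, hd, rfl, rfl | rfl | rfl | rfl⟩
    · exact ⟨fl c, fl b, fl a, D3_rev hd, by simp, Or.inl (by simp)⟩
    · exact ⟨fl c, fl b, fl a, D3_rev hd, by simp, Or.inr (Or.inl (by simp))⟩
    · exact ⟨fl c, fl b, fl a, D3_rev hd, by simp, Or.inr (Or.inr (Or.inr (by simp)))⟩
    · exact ⟨fl c, fl b, fl a, D3_rev hd, by simp, Or.inr (Or.inr (Or.inl (by simp)))⟩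
  · rintro u v p e ⟨a, b, c, hd, rfl, rfl | rfl | rfl | rfl⟩
    · exact ⟨_, _, _, D3_rn hd p e, by simp, Or.inl (by simp)⟩
    · refine ⟨_, _, _, D3_rn hd p e, by simp, Or.inr (Or.inl ?_)⟩
      simp only [rw'_cons, rw'_nil, fl_rn]
    · refine ⟨_, _, _, D3_rn hd p e, by simp, Or.inr (Or.inr (Or.inl ?_))⟩
      simp only [rw'_cons, rw'_nil, fl_rn]
    · refine ⟨_, _, _, D3_rn hd p e, by simp, Or.inr (Or.inr (Or.inr ?_))⟩
      simp only [rw'_cons, rw'_nil, fl_rn]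

private theorem y_P33 (h : StLev) {θ : FIC}
    (hθ : ∀ u v : Wd, u.length = 3 → Lin u → θ.r u v → v = u) :
    ∃ E : FIC, (∀ u v, E.r u v ↔ θ.r u v ∨ (Kl θ 3 3 u ∧ Kl θ 3 3 v) ∨ Ry_P33 u v) ∧ Le θ E ∧
      Col 7 E := by
  refine lev_P33 h hθ Ry_P33 ?_ ?_ ?_ ?_ ?_ ?_
  · rintro u ⟨a, b, c, hd, rfl⟩
    exact ⟨a, b, c, hd, rfl, Or.inl rfl⟩
  · rintro u v ⟨a, b, c, hd, rfl, rfl | rfl | rfl⟩
    · exact ⟨⟨a, b, c, hd, rfl⟩, ⟨a, b, c, hd, rfl⟩, rfl⟩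
    · refine ⟨⟨a, b, c, hd, rfl⟩, ⟨b, c, a, D3_perm1 hd, rfl⟩, ?_⟩
      ext i
      simp only [ct_cons, ct_nil, Finset.mem_insert, Finset.notMem_empty, or_false]
      tauto
    · refine ⟨⟨a, b, c, hd, rfl⟩, ⟨c, a, b, D3_perm2 hd, rfl⟩, ?_⟩
      ext i
      simp only [ct_cons, ct_nil, Finset.mem_insert, Finset.notMem_empty, or_false]
      tauto
  · rintro u v ⟨a, b, c, hd, rfl, rfl | rfl | rfl⟩
    · exact ⟨a, b, c, hd, rfl, Or.inl rfl⟩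
    · exact ⟨b, c, a, D3_perm1 hd, rfl, Or.inr (Or.inr rfl)⟩
    · exact ⟨c, a, b, D3_perm2 hd, rfl, Or.inr (Or.inl rfl)⟩
  · rintro u v w ⟨a, b, c, hd, rfl, rfl | rfl | rfl⟩ ⟨a', b', c', hd', he, hw⟩
    all_goals
      simp only [List.cons.injEq, and_true] at he
      obtain ⟨rfl, rfl, rfl⟩ := he
      refine ⟨a, b, c, hd, rfl, ?_⟩
      tauto
  · rintro u v ⟨a, b, c, hd, rfl, rfl | rfl | rfl⟩
    · exact ⟨fl c, fl b, fl a, D3_rev hd, by simp, Or.inl (by simp)⟩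
    · exact ⟨fl c, fl b, fl a, D3_rev hd, by simp, Or.inr (Or.inr (by simp))⟩
    · exact ⟨fl c, fl b, fl a, D3_rev hd, by simp, Or.inr (Or.inl (by simp))⟩
  · rintro u v p e ⟨a, b, c, hd, rfl, rfl | rfl | rfl⟩
    · exact ⟨_, _, _, D3_rn hd p e, by simp, Or.inl (by simp)⟩
    · exact ⟨_, _, _, D3_rn hd p e, by simp, Or.inr (Or.inl (by simp))⟩
    · exact ⟨_, _, _, D3_rn hd p e, by simp, Or.inr (Or.inr (by simp))⟩

/-- A rotation which keeps the letters at their places is the identity. -/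
private theorem yz_P33 {u v : Wd} (hy : Ry_P33 u v) (hz : Rz_P33 u v) : v = u := by
  obtain ⟨a, b, c, hd, rfl, hv⟩ := hy
  obtain ⟨a', b', c', -, he, hv'⟩ := hz
  simp only [List.cons.injEq, and_true] at he
  obtain ⟨rfl, rfl, rfl⟩ := he
  rcases hv with hv | hv | hv
  · exact hv
  · exfalso
    rcases hv' with h' | h' | h' | h' <;>
    · rw [hv] at h'
      simp only [List.cons.injEq, and_true] at h'
      have h1 := congrArg Prod.fst h'.1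
      exact hd.1 h1.symm
  · exfalso
    rcases hv' with h' | h' | h' | h' <;>
    · rw [hv] at h'
      simp only [List.cons.injEq, and_true] at h'
      have h1 := congrArg Prod.fst h'.1
      exact hd.2.1 h1.symm

theorem hP33 (h : StLev) : StP33 := by
  intro θ hM hθ
  obtain ⟨Ex, x1, x2, x3⟩ := x_P33 h hθ
  obtain ⟨Ey, y1, y2, y3⟩ := y_P33 h hθ
  obtain ⟨Ez, z1, z2, z3⟩ := z_P33 h hθ
  have hxz : Le Ex Ez := by
    intro u v huv
    rw [x1] at huv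
    rw [z1]
    rcases huv with h1 | h1 | ⟨a, b, c, hd, hu, hv⟩
    · exact Or.inl h1
    · exact Or.inr (Or.inl h1)
    · exact Or.inr (Or.inr ⟨a, b, c, hd, hu, by tauto⟩)
  have hd012 : D3_P33 (X 0) (X 1) (X 2) := by simp [D3_P33]
  have hj : Jn Ex Ey [X 0, X 1, X 2] [Y 0, Y 1, X 2] := by
    have s1 : Ey.r [X 0, X 1, X 2] [X 1, X 2, X 0] :=
      (y1 _ _).2 (Or.inr (Or.inr ⟨_, _, _, hd012, rfl, Or.inr (Or.inl rfl)⟩))
    have s2 : Ex.r [X 1, X 2, X 0] [Y 1, X 2, Y 0] :=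
      (x1 _ _).2 (Or.inr (Or.inr ⟨_, _, _, D3_perm1 hd012, rfl, Or.inr (by simp)⟩))
    have s3 : Ey.r [Y 1, X 2, Y 0] [Y 0, Y 1, X 2] :=
      (y1 _ _).2 (Or.inr (Or.inr ⟨_, _, _, by simp [D3_P33], rfl, Or.inr (Or.inr rfl)⟩))
    exact Relation.ReflTransGen.trans (Relation.ReflTransGen.single (Or.inr s1))
      (Relation.ReflTransGen.trans (Relation.ReflTransGen.single (Or.inl s2))
        (Relation.ReflTransGen.single (Or.inr s3)))
  have hg : Ez.r [X 0, X 1, X 2] [Y 0, Y 1, X 2] :=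
    (z1 _ _).2 (Or.inr (Or.inr ⟨_, _, _, hd012, rfl, Or.inr (Or.inr (Or.inl (by simp)))⟩))
  have hm := hM Ex Ey Ez x2 y2 z2 x3 y3 z3 hxz _ _ hj hg
  have hyzx : ∀ u v, Ey.r u v → Ez.r u v → Ex.r u v := by
    intro u v h1 h2
    rw [y1] at h1
    rw [z1] at h2
    rw [x1]
    rcases h1 with h1 | h1 | h1
    · exact Or.inl h1
    · exact Or.inr (Or.inl h1)
    · rcases h2 with h2 | h2 | h2
      · exact Or.inl h2
      · exact Or.inr (Or.inl h2)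
      · rw [yz_P33 h1 h2]
        exact Or.inl (θ.refl' u)
  have hJ : ∀ u v, Jm Ex Ey Ez u v → Ex.r u v := by
    intro u v hj'
    unfold Jm at hj'
    induction hj' with
    | refl => exact Ex.refl' _
    | tail _ h2 ih =>
      refine Ex.trans' ih ?_
      rcases h2 with h2 | h2
      · exact h2
      · exact hyzx _ _ h2.1 h2.2
  have hx : Ex.r [X 0, X 1, X 2] [Y 0, Y 1, X 2] := hJ _ _ hm
  rw [x1] at hx
  rcases hx with h1 | h1 | ⟨a, b, c, hd, hu, hv⟩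
  · have := hθ _ _ rfl ((lin3_P33 _ _ _).2 hd012) h1
    simp [X, Y] at this
  · exact nk_P33 hθ ⟨_, _, _, hd012, rfl⟩ h1.1
  · simp only [List.cons.injEq, and_true] at hu
    obtain ⟨rfl, rfl, rfl⟩ := hu
    simp [X, Y, fl] at hv

end Helper1.IM
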