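import Pool.Agent.Helper1.IM.St

/-! # Project IM, module P45: a pentagon in the orbit of `xxyzt` in type C -/

set_option autoImplicit false

namespace Helper1.IM

private theorem count_st_P45 (a : Lt) (u : Wd) : (st u).count (fl a) = u.count a := by
  have hinj : Function.Injective fl := fun x y h => by simpa using congrArg fl h
  rw [(st_perm u).count_eq]
  exact List.count_map_of_injective u fl hinj a

private theorem mem_st_P45 (a : Lt) (u : Wd) : a ∈ st u ↔ fl a ∈ u := by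
  rw [(st_perm u).mem_iff, List.mem_map]
  constructor
  · rintro ⟨b, hb, rfl⟩
    simpa using hb
  · intro h
    exact ⟨fl a, h, by simp⟩

private theorem isP4_st_P45 {u : Wd} (h : isP4 u) : isP4 (st u) := by
  obtain ⟨h1, h2, a, h3⟩ := h
  exact ⟨by simpa using h1, by simpa using h2, fl a, by rw [count_st_P45]; exact h3⟩

private def gP45 (p : Equiv.Perm ℕ) (e : ℕ → Bool) (a : Lt) : Lt := (p a.1, xor a.2 (e a.1))

private theorem gP45_inj (p : Equiv.Perm ℕ) (e : ℕ → Bool) : Function.Injective (gP45 p e) := by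
  rintro ⟨i, b⟩ ⟨j, c⟩ h
  simp only [gP45, Prod.mk.injEq] at h
  obtain ⟨h1, h2⟩ := h
  have : i = j := p.injective h1
  subst this
  simp only [Bool.xor_left_inj] at h2
  rw [h2]

private theorem gP45_surj (p : Equiv.Perm ℕ) (e : ℕ → Bool) : Function.Surjective (gP45 p e) := by
  rintro ⟨i, b⟩
  refine ⟨(p⁻¹ i, xor b (e (p⁻¹ i))), ?_⟩
  simp [gP45]

private theorem rw_P45 (p : Equiv.Perm ℕ) (e : ℕ → Bool) (u : Wd) : rw' p e u = u.map (gP45 p e) := rfl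

private theorem mem_rw_P45 (p : Equiv.Perm ℕ) (e : ℕ → Bool) (a : Lt) (u : Wd) :
    gP45 p e a ∈ rw' p e u ↔ a ∈ u := by
  rw [rw_P45]
  exact List.mem_map_of_injective (gP45_inj p e)

private theorem isP4_rw_P45 {u : Wd} (h : isP4 u) (p : Equiv.Perm ℕ) (e : ℕ → Bool) : isP4 (rw' p e u) := by
  obtain ⟨h1, h2, a, h3⟩ := h
  refine ⟨by simpa using h1, ?_, gP45 p e a, ?_⟩
  · rw [ct_rw', Finset.card_image_of_injective _ p.injective]
    exact h2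
  · rw [rw_P45, List.count_map_of_injective u _ (gP45_inj p e)]
    exact h3

private theorem isP4_perm_P45 {u v : Wd} (h : isP4 u) (hp : u.Perm v) : isP4 v := by
  obtain ⟨h1, h2, a, h3⟩ := h
  refine ⟨by rw [← hp.length_eq]; exact h1, ?_, a, by rw [← hp.count_eq]; exact h3⟩
  rw [← ct_perm (hp.map Prod.fst)]
  exact h2

private def RxP45 (u v : Wd) : Prop :=
  isP4 u ∧ isP4 v ∧ (∀ i, oc i u = oc i v) ∧ ∀ a : Lt, oc a.1 u = 1 → (a ∈ u ↔ a ∈ v)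
private def RzP45 (u v : Wd) : Prop := isP4 u ∧ isP4 v ∧ ∀ i, oc i u = oc i v
private def RyP45 (u v : Wd) : Prop := isP4 u ∧ isP4 v ∧ ∀ a : Lt, a ∈ u ↔ a ∈ v

private theorem ct_oc_P45 {u v : Wd} (h : ∀ i, oc i u = oc i v) : ct u = ct v :=
  ct_perm (perm_iff_oc.2 h)

private theorem exx_P45 (θ : FIC) (hl : StLev) (hk : ∀ u, isP4 u → ¬ Kl θ 4 5 u)
    (hp : ∀ u v, isP4 u → θ.r u v → u.Perm v) :
    ∃ E : FIC, (∀ u v, E.r u v ↔ θ.r u v ∨ (Kl θ 4 5 u ∧ Kl θ 4 5 v) ∨ RxP45 u v) ∧ Le θ E ∧ Col (5 + 1) E := by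
  refine hl θ 4 5 isP4 RxP45 (by norm_num) (fun u hu => ⟨hu.1, hu.2.1, hk u hu⟩) ?_ ?_ ?_ ?_ ?_ ?_
  · intro u v hu hr
    have h := hp u v hu hr
    exact ⟨hu, isP4_perm_P45 hu h, fun i => oc_perm (h.map Prod.fst) i, fun a _ => h.mem_iff⟩
  · rintro u v ⟨hu, hv, h1, -⟩
    exact ⟨hu, hv, ct_oc_P45 h1⟩
  · rintro u v ⟨hu, hv, h1, h2⟩
    exact ⟨hv, hu, fun i => (h1 i).symm, fun a ha => (h2 a (by rw [h1]; exact ha)).symm⟩
  · rintro u v w ⟨hu, hv, h1, h2⟩ ⟨-, hw, h3, h4⟩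
    exact ⟨hu, hw, fun i => (h1 i).trans (h3 i), fun a ha => (h2 a ha).trans (h4 a (by rw [← h1]; exact ha))⟩
  · rintro u v ⟨hu, hv, h1, h2⟩
    refine ⟨isP4_st_P45 hu, isP4_st_P45 hv, fun i => by rw [oc_st, oc_st]; exact h1 i, fun a ha => ?_⟩
    rw [mem_st_P45, mem_st_P45]
    rw [oc_st] at ha
    exact h2 (fl a) ha
  · rintro u v p e ⟨hu, hv, h1, h2⟩
    refine ⟨isP4_rw_P45 hu p e, isP4_rw_P45 hv p e, fun i => ?_, fun a ha => ?_⟩
    · obtain ⟨j, rfl⟩ := p.surjective i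
      rw [oc_rw', oc_rw']
      exact h1 j
    · obtain ⟨b, rfl⟩ := gP45_surj p e a
      rw [mem_rw_P45, mem_rw_P45]
      have : (gP45 p e b).1 = p b.1 := rfl
      rw [this, oc_rw'] at ha
      exact h2 b ha

private theorem exz_P45 (θ : FIC) (hl : StLev) (hk : ∀ u, isP4 u → ¬ Kl θ 4 5 u)
    (hp : ∀ u v, isP4 u → θ.r u v → u.Perm v) :
    ∃ E : FIC, (∀ u v, E.r u v ↔ θ.r u v ∨ (Kl θ 4 5 u ∧ Kl θ 4 5 v) ∨ RzP45 u v) ∧ Le θ E ∧ Col (5 + 1) E := by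
  refine hl θ 4 5 isP4 RzP45 (by norm_num) (fun u hu => ⟨hu.1, hu.2.1, hk u hu⟩) ?_ ?_ ?_ ?_ ?_ ?_
  · intro u v hu hr
    have h := hp u v hu hr
    exact ⟨hu, isP4_perm_P45 hu h, fun i => oc_perm (h.map Prod.fst) i⟩
  · rintro u v ⟨hu, hv, h1⟩
    exact ⟨hu, hv, ct_oc_P45 h1⟩
  · rintro u v ⟨hu, hv, h1⟩
    exact ⟨hv, hu, fun i => (h1 i).symm⟩
  · rintro u v w ⟨hu, hv, h1⟩ ⟨-, hw, h3⟩
    exact ⟨hu, hw, fun i => (h1 i).trans (h3 i)⟩
  · rintro u v ⟨hu, hv, h1⟩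
    exact ⟨isP4_st_P45 hu, isP4_st_P45 hv, fun i => by rw [oc_st, oc_st]; exact h1 i⟩
  · rintro u v p e ⟨hu, hv, h1⟩
    refine ⟨isP4_rw_P45 hu p e, isP4_rw_P45 hv p e, fun i => ?_⟩
    obtain ⟨j, rfl⟩ := p.surjective i
    rw [oc_rw', oc_rw']
    exact h1 j

private theorem exy_P45 (θ : FIC) (hl : StLev) (hk : ∀ u, isP4 u → ¬ Kl θ 4 5 u)
    (hp : ∀ u v, isP4 u → θ.r u v → u.Perm v) :
    ∃ E : FIC, (∀ u v, E.r u v ↔ θ.r u v ∨ (Kl θ 4 5 u ∧ Kl θ 4 5 v) ∨ RyP45 u v) ∧ Le θ E ∧ Col (5 + 1) E := by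
  refine hl θ 4 5 isP4 RyP45 (by norm_num) (fun u hu => ⟨hu.1, hu.2.1, hk u hu⟩) ?_ ?_ ?_ ?_ ?_ ?_
  · intro u v hu hr
    have h := hp u v hu hr
    exact ⟨hu, isP4_perm_P45 hu h, fun a => h.mem_iff⟩
  · rintro u v ⟨hu, hv, h1⟩
    refine ⟨hu, hv, ?_⟩
    ext i
    simp only [mem_ct, h1]
  · rintro u v ⟨hu, hv, h1⟩
    exact ⟨hv, hu, fun i => (h1 i).symm⟩
  · rintro u v w ⟨hu, hv, h1⟩ ⟨-, hw, h3⟩
    exact ⟨hu, hw, fun i => (h1 i).trans (h3 i)⟩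
  · rintro u v ⟨hu, hv, h1⟩
    refine ⟨isP4_st_P45 hu, isP4_st_P45 hv, fun a => ?_⟩
    rw [mem_st_P45, mem_st_P45]
    exact h1 (fl a)
  · rintro u v p e ⟨hu, hv, h1⟩
    refine ⟨isP4_rw_P45 hu p e, isP4_rw_P45 hv p e, fun a => ?_⟩
    obtain ⟨b, rfl⟩ := gP45_surj p e a
    rw [mem_rw_P45, mem_rw_P45]
    exact h1 b

private theorem col_P45 {E : FIC} (h : Col (5 + 1) E) : Col 7 E :=
  fun u v hu hv => h u v (by omega) (by omega)

theorem hP45 (h : StLev) : StP45 := by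
  intro θ hM _ hk hp
  obtain ⟨Ex, hx, hx1, hx2⟩ := exx_P45 θ h hk hp
  obtain ⟨Ey, hy, hy1, hy2⟩ := exy_P45 θ h hk hp
  obtain ⟨Ez, hz, hz1, hz2⟩ := exz_P45 θ h hk hp
  -- the four words
  have p1 : isP4 [X 0, X 0, X 1, X 2, X 3] := ⟨rfl, by decide, X 0, by decide⟩
  have p2 : isP4 [X 0, X 1, X 1, X 2, X 3] := ⟨rfl, by decide, X 1, by decide⟩
  have p3 : isP4 [X 0, Y 1, Y 1, X 2, X 3] := ⟨rfl, by decide, Y 1, by decide⟩
  have p4 : isP4 [X 0, X 0, Y 1, X 2, X 3] := ⟨rfl, by decide, X 0, by decide⟩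
  have hle : Le Ex Ez := by
    intro u v huv
    rw [hx] at huv
    rw [hz]
    rcases huv with h1 | h1 | ⟨h1, h2, h3, -⟩
    · exact Or.inl h1
    · exact Or.inr (Or.inl h1)
    · exact Or.inr (Or.inr ⟨h1, h2, h3⟩)
  have hj : Jn Ex Ey [X 0, X 0, X 1, X 2, X 3] [X 0, X 0, Y 1, X 2, X 3] := by
    refine Relation.ReflTransGen.head (b := [X 0, X 1, X 1, X 2, X 3]) (Or.inr ?_)
      (Relation.ReflTransGen.head (b := [X 0, Y 1, Y 1, X 2, X 3]) (Or.inl ?_)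
        (Relation.ReflTransGen.single (Or.inr ?_)))
    · rw [hy]
      refine Or.inr (Or.inr ⟨p1, p2, fun a => ?_⟩)
      simp only [List.mem_cons, List.not_mem_nil, or_false]
      tauto
    · rw [hx]
      refine Or.inr (Or.inr ⟨p2, p3, fun i => ?_, fun a ha => ?_⟩)
      · rfl
      · simp only [List.mem_cons, List.not_mem_nil, or_false]
        have h1 : a.1 ≠ 1 := by
          intro h1
          rw [h1] at ha
          revert ha
          decide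
        have h2 : a ≠ X 1 := fun h2 => h1 (by rw [h2]; rfl)
        have h3 : a ≠ Y 1 := fun h2 => h1 (by rw [h2]; rfl)
        tauto
    · rw [hy]
      refine Or.inr (Or.inr ⟨p3, p4, fun a => ?_⟩)
      simp only [List.mem_cons, List.not_mem_nil, or_false]
      tauto
  have hzz : Ez.r [X 0, X 0, X 1, X 2, X 3] [X 0, X 0, Y 1, X 2, X 3] := by
    rw [hz]
    refine Or.inr (Or.inr ⟨p1, p4, fun i => ?_⟩)
    rfl
  have hjm := hM Ex Ey Ez hx1 hy1 hz1 (col_P45 hx2) (col_P45 hy2) (col_P45 hz2) hle _ _ hj hzz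
  have hsub : ∀ u v, Jm Ex Ey Ez u v → Ex.r u v := by
    intro u v huv
    unfold Jm at huv
    induction huv with
    | refl => exact Ex.refl' _
    | tail _ hbc ih =>
      refine Ex.trans' ih ?_
      rcases hbc with h1 | ⟨h1, h2⟩
      · exact h1
      · rw [hy] at h1
        rw [hz] at h2
        rw [hx]
        rcases h1 with h1 | h1 | ⟨h1, h3, h4⟩
        · exact Or.inl h1
        · exact Or.inr (Or.inl h1)
        · rcases h2 with h2 | h2 | ⟨-, -, h5⟩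
          · exact Or.inl h2
          · exact Or.inr (Or.inl h2)
          · exact Or.inr (Or.inr ⟨h1, h3, h5, fun a _ => h4 a⟩)
  have hfin := hsub _ _ hjm
  rw [hx] at hfin
  rcases hfin with h1 | h1 | ⟨-, -, -, h1⟩
  · have h2 := (hp _ _ p1 h1).mem_iff (a := X 1)
    revert h2
    decide
  · exact hk _ p1 h1.1
  · have h2 := h1 (X 1) (by decide)
    revert h2
    decide

end Helper1.IM
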