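import Pool.Agent.Helper1.IM.St3

/-! # Project IM, module PL: permutability for linear words -/

set_option autoImplicit false

namespace Helper1.IM

/-! ### Linear words with the same content -/

private theorem lin_of_card_PL {u : Wd} (h : (ct u).card = u.length) : Lin u := by
  have h1 := (Multiset.toFinset_card_eq_card_iff_nodup (m := ((u.map Prod.fst : List ℕ) : Multiset ℕ))).1
    (by simpa [ct] using h)
  simpa [Lin] using h1

private theorem perm_fst_PL {u v : Wd} (hu : Lin u) (hv : Lin v) (h : ct u = ct v) :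
    (u.map Prod.fst).Perm (v.map Prod.fst) :=
  List.perm_of_nodup_nodup_toFinset_eq hu hv h

private theorem fs_PL {u : Wd} (hu : Lin u) {a : Lt} (ha : a ∈ u) : fs a.1 u = a.2 := by
  induction u with
  | nil => simp at ha
  | cons b u ih =>
    unfold Lin at hu
    simp only [List.map_cons, List.nodup_cons] at hu
    rcases List.mem_cons.1 ha with rfl | ha'
    · simp [fs]
    · have hne : b.1 ≠ a.1 := by
        intro h
        exact hu.1 (h ▸ List.mem_map_of_mem ha')
      have := ih hu.2 ha'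
      simpa [fs, hne] using this

private theorem mem_iff_PL {u : Wd} (hu : Lin u) (a : Lt) : a ∈ u ↔ a.1 ∈ ct u ∧ fs a.1 u = a.2 := by
  constructor
  · intro h
    exact ⟨mem_ct.2 ⟨a.2, h⟩, fs_PL hu h⟩
  · rintro ⟨h1, h2⟩
    obtain ⟨b, hb⟩ := mem_ct.1 h1
    have h3 := fs_PL hu hb
    have h4 : fs a.1 u = b := h3
    rw [h2] at h4
    obtain ⟨i, s⟩ := a
    simp only at h4 hb
    rw [h4]
    exact hb

private theorem c4_PL {u w : Wd} (hu : Lin u) (hw : Lin w) (h : ct w = ct u) :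
    w.Perm (rw' 1 (fun i => xor (fs i u) (fs i w)) u) := by
  have hn : ∀ v : Wd, Lin v → v.Nodup := fun v hv => List.Nodup.of_map _ hv
  rw [List.perm_ext_iff_of_nodup (hn w hw) (hn _ (lin_rw'.2 hu))]
  intro a
  have h1 : a ∈ rw' 1 (fun i => xor (fs i u) (fs i w)) u ↔ ((a.1, xor a.2 (xor (fs a.1 u) (fs a.1 w))) : Lt) ∈ u := by
    unfold rw'
    rw [List.mem_map]
    constructor
    · rintro ⟨b, hb, rfl⟩
      simpa using hb
    · intro hb
      exact ⟨_, hb, by simp⟩
  rw [h1, mem_iff_PL hw, mem_iff_PL hu, h]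
  simp only
  refine and_congr_right (fun _ => ?_)
  cases a.2 <;> cases fs a.1 u <;> cases fs a.1 w <;> simp

/-! ### Pairs of signed letters -/

private def P_PL (C : Finset ℕ) (a b : Lt) : Prop := a.1 ∈ C ∧ b.1 ∈ C ∧ a.1 ≠ b.1

private def xr_PL (a : Lt) (s : Bool) : Lt := (a.1, xor a.2 s)

private def g_PL (p : Equiv.Perm ℕ) (e : ℕ → Bool) (a : Lt) : Lt := (p a.1, xor a.2 (e a.1))

private structure Inv_PL (C : Finset ℕ) (R : Lt → Lt → Lt → Lt → Prop) : Prop where
  rf : ∀ a b, R a b a b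
  sy : ∀ a b c d, R a b c d → R c d a b
  tr : ∀ a b c d k l, R a b c d → R c d k l → R a b k l
  rn : ∀ (p : Equiv.Perm ℕ) (e : ℕ → Bool), (∀ i ∈ C, p i ∈ C) → ∀ a b c d, P_PL C a b → P_PL C c d →
    R a b c d → R (g_PL p e a) (g_PL p e b) (g_PL p e c) (g_PL p e d)
  st : ∀ a b c d, P_PL C a b → P_PL C c d → R a b c d → R (fl b) (fl a) (fl d) (fl c)

private theorem perm_C_PL (C s : Finset ℕ) (q : ℕ → ℕ) (hs : s ⊆ C) (hqC : ∀ i ∈ s, q i ∈ C)
    (hq : Set.InjOn q (s : Set ℕ)) : ∃ p : Equiv.Perm ℕ, (∀ i ∈ s, p i = q i) ∧ ∀ i ∈ C, p i ∈ C := by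
  classical
  induction s using Finset.induction_on with
  | empty => exact ⟨1, by simp, by simp⟩
  | insert a s ha ih =>
    obtain ⟨p, hp, hpC⟩ := ih ((Finset.subset_insert a s).trans hs)
      (fun i hi => hqC i (Finset.mem_insert_of_mem hi)) (hq.mono (by simp))
    have haC : a ∈ C := hs (Finset.mem_insert_self a s)
    refine ⟨Equiv.swap (p a) (q a) * p, fun i hi => ?_, fun i hi => ?_⟩
    · rcases Finset.mem_insert.1 hi with rfl | hi'
      · simp
      · have h1 : p i ≠ p a := fun h => ha (p.injective h ▸ hi')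
        have h2 : p i ≠ q a := fun h => by
          rw [hp i hi'] at h
          have := hq (by simp [hi']) (by simp) h
          exact ha (this ▸ hi')
        rw [Equiv.Perm.mul_apply, Equiv.swap_apply_of_ne_of_ne h1 h2, hp i hi']
    · rw [Equiv.Perm.mul_apply]
      by_cases h1 : p i = p a
      · rw [h1, Equiv.swap_apply_left]
        exact hqC a (Finset.mem_insert_self a s)
      · by_cases h2 : p i = q a
        · rw [h2, Equiv.swap_apply_right]
          exact hpC a haC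
        · rw [Equiv.swap_apply_of_ne_of_ne h1 h2]
          exact hpC i hi

private theorem tr2_PL (C : Finset ℕ) (a b a' b' : Lt) (h : P_PL C a b) (h' : P_PL C a' b') :
    ∃ (p : Equiv.Perm ℕ) (e : ℕ → Bool), (∀ i ∈ C, p i ∈ C) ∧ g_PL p e a = a' ∧ g_PL p e b = b' := by
  classical
  obtain ⟨h1, h2, h3⟩ := h
  obtain ⟨k1, k2, k3⟩ := h'
  obtain ⟨p, hp, hpC⟩ := perm_C_PL C {a.1, b.1} (fun i => if i = a.1 then a'.1 else b'.1)
    (by intro i hi; simp only [Finset.mem_insert, Finset.mem_singleton] at hi; rcases hi with rfl | rfl <;> assumption)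
    (by intro i _; split_ifs <;> assumption)
    (by
      intro i hi j hj hij
      simp only [Finset.coe_insert, Finset.coe_singleton, Set.mem_insert_iff, Set.mem_singleton_iff] at hi hj
      dsimp only at hij
      split_ifs at hij <;> omega)
  have e1 : p a.1 = a'.1 := by simpa using hp a.1 (by simp)
  have e2 : p b.1 = b'.1 := by simpa [h3.symm] using hp b.1 (by simp)
  refine ⟨p, fun i => if i = a.1 then xor a.2 a'.2 else xor b.2 b'.2, hpC, ?_, ?_⟩
  · unfold g_PL
    rw [e1]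
    ext <;> simp
  · unfold g_PL
    rw [e2]
    ext <;> simp [h3.symm]

private theorem tr3_PL (C : Finset ℕ) (a b c a' b' c' : Lt) (h : P_PL C a b) (hc : c.1 ∈ C) (hc1 : c.1 ≠ a.1)
    (hc2 : c.1 ≠ b.1) (h' : P_PL C a' b') (hc' : c'.1 ∈ C) (hc1' : c'.1 ≠ a'.1) (hc2' : c'.1 ≠ b'.1) :
    ∃ (p : Equiv.Perm ℕ) (e : ℕ → Bool), (∀ i ∈ C, p i ∈ C) ∧ g_PL p e a = a' ∧ g_PL p e b = b' ∧
      g_PL p e c = c' := by
  classical
  obtain ⟨h1, h2, h3⟩ := h
  obtain ⟨k1, k2, k3⟩ := h'
  obtain ⟨p, hp, hpC⟩ := perm_C_PL C {a.1, b.1, c.1} (fun i => if i = a.1 then a'.1 else if i = b.1 then b'.1 else c'.1)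
    (by intro i hi; simp only [Finset.mem_insert, Finset.mem_singleton] at hi; rcases hi with rfl | rfl | rfl <;> assumption)
    (by intro i _; split_ifs <;> assumption)
    (by
      intro i hi j hj hij
      simp only [Finset.coe_insert, Finset.coe_singleton, Set.mem_insert_iff, Set.mem_singleton_iff] at hi hj
      dsimp only at hij
      split_ifs at hij <;> omega)
  have e1 : p a.1 = a'.1 := by simpa using hp a.1 (by simp)
  have e2 : p b.1 = b'.1 := by simpa [h3.symm] using hp b.1 (by simp)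
  have e3 : p c.1 = c'.1 := by simpa [hc1, hc2] using hp c.1 (by simp)
  refine ⟨p, fun i => if i = a.1 then xor a.2 a'.2 else if i = b.1 then xor b.2 b'.2 else xor c.2 c'.2, hpC, ?_, ?_, ?_⟩
  · unfold g_PL
    rw [e1]
    ext <;> simp
  · unfold g_PL
    rw [e2]
    ext <;> simp [h3.symm]
  · unfold g_PL
    rw [e3]
    ext <;> simp [hc1, hc2]

private theorem P_fl_PL {C : Finset ℕ} {a b : Lt} (h : P_PL C a b) : P_PL C (fl b) (fl a) := ⟨h.2.1, h.1, h.2.2.symm⟩
private theorem P_sw_PL {C : Finset ℕ} {a b : Lt} (h : P_PL C a b) (s t : Bool) : P_PL C (xr_PL b s) (xr_PL a t) :=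
  ⟨h.2.1, h.1, h.2.2.symm⟩
private theorem P_xr_PL {C : Finset ℕ} {a b : Lt} (h : P_PL C a b) (s t : Bool) : P_PL C (xr_PL a s) (xr_PL b t) := h

private theorem g_xr_PL (p : Equiv.Perm ℕ) (e : ℕ → Bool) (a : Lt) (s : Bool) :
    g_PL p e (xr_PL a s) = xr_PL (g_PL p e a) s := by
  unfold g_PL xr_PL
  ext
  · rfl
  · simp only
    cases a.2 <;> cases s <;> cases e a.1 <;> rfl

private theorem fl_xr_PL (a : Lt) (s : Bool) : fl (xr_PL (fl a) s) = xr_PL a s := by
  unfold fl xr_PL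
  ext
  · rfl
  · simp only
    cases a.2 <;> cases s <;> rfl

private theorem xr_xr_PL (a : Lt) (s t : Bool) : xr_PL (xr_PL a s) t = xr_PL (xr_PL a t) s := by
  unfold xr_PL
  ext
  · rfl
  · simp only
    cases a.2 <;> cases s <;> cases t <;> rfl

private theorem ex_xr_PL {a c : Lt} (h : c.1 = a.1) : ∃ s, c = xr_PL a s := by
  refine ⟨xor a.2 c.2, ?_⟩
  unfold xr_PL
  ext
  · exact h
  · simp

private theorem S_PL {C : Finset ℕ} {R : Lt → Lt → Lt → Lt → Prop} (hR : Inv_PL C R) {a b : Lt} {s t : Bool}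
    (h : P_PL C a b) (hr : R a b (xr_PL a s) (xr_PL b t)) (a' b' : Lt) (h' : P_PL C a' b') :
    R a' b' (xr_PL a' s) (xr_PL b' t) ∧ R a' b' (xr_PL a' t) (xr_PL b' s) := by
  have key : ∀ a' b' : Lt, P_PL C a' b' → R a' b' (xr_PL a' s) (xr_PL b' t) := by
    intro a' b' h'
    obtain ⟨p, e, hp, h1, h2⟩ := tr2_PL C a b a' b' h h'
    have := hR.rn p e hp _ _ _ _ h (P_xr_PL h s t) hr
    rw [g_xr_PL, g_xr_PL, h1, h2] at this
    exact this
  refine ⟨key a' b' h', ?_⟩
  have h1 := hR.st _ _ _ _ (P_fl_PL h') (P_xr_PL (P_fl_PL h') s t) (key (fl b') (fl a') (P_fl_PL h'))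
  rw [fl_xr_PL, fl_xr_PL, fl_fl, fl_fl] at h1
  exact h1

private theorem W_PL {C : Finset ℕ} {R : Lt → Lt → Lt → Lt → Prop} (hR : Inv_PL C R) {a b : Lt} {s t : Bool}
    (h : P_PL C a b) (hr : R a b (xr_PL b s) (xr_PL a t)) (a' b' : Lt) (h' : P_PL C a' b') :
    R a' b' (xr_PL b' s) (xr_PL a' t) ∧ R a' b' (xr_PL b' t) (xr_PL a' s) := by
  have key : ∀ a' b' : Lt, P_PL C a' b' → R a' b' (xr_PL b' s) (xr_PL a' t) := by
    intro a' b' h'
    obtain ⟨p, e, hp, h1, h2⟩ := tr2_PL C a b a' b' h h'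
    have := hR.rn p e hp _ _ _ _ h (P_sw_PL h s t) hr
    rw [g_xr_PL, g_xr_PL, h1, h2] at this
    exact this
  refine ⟨key a' b' h', ?_⟩
  have h1 := hR.st _ _ _ _ (P_fl_PL h') (P_sw_PL (P_fl_PL h') s t) (key (fl b') (fl a') (P_fl_PL h'))
  rw [fl_xr_PL, fl_xr_PL, fl_fl, fl_fl] at h1
  exact h1

private theorem one_PL {C : Finset ℕ} (hC : 5 ≤ C.card) {R : Lt → Lt → Lt → Lt → Prop} (hR : Inv_PL C R)
    {a b c d : Lt} (h : P_PL C a b) (h' : P_PL C c d) (hr : R a b c d) (hc1 : c.1 ≠ a.1) (hc2 : c.1 ≠ b.1)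
    {a' b' c' d' : Lt} (k : P_PL C a' b') (k' : P_PL C c' d') : R a' b' c' d' := by
  classical
  have hcd : c.1 ≠ d.1 := h'.2.2
  -- sign change of `c`
  have s1 : R c d (fl c) d := by
    have h1 := hR.rn 1 (fun i => decide (i = c.1)) (by simp) _ _ _ _ h h' hr
    have e1 : g_PL 1 (fun i => decide (i = c.1)) a = a := by
      unfold g_PL
      ext
      · rfl
      · simp [hc1.symm]
    have e2 : g_PL 1 (fun i => decide (i = c.1)) b = b := by
      unfold g_PL
      ext
      · rfl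
      · simp [hc2.symm]
    have e3 : g_PL 1 (fun i => decide (i = c.1)) c = fl c := by
      unfold g_PL fl
      ext
      · rfl
      · simp
    have e4 : g_PL 1 (fun i => decide (i = c.1)) d = d := by
      unfold g_PL
      ext
      · rfl
      · simp [hcd.symm]
    rw [e1, e2, e3, e4] at h1
    exact hR.tr _ _ _ _ _ _ (hR.sy _ _ _ _ hr) h1
  -- a new letter
  obtain ⟨q, hqC, hq⟩ : ∃ q ∈ C, q ∉ ({a.1, b.1, c.1, d.1} : Finset ℕ) := by
    have h4 : ({a.1, b.1, c.1, d.1} : Finset ℕ).card ≤ 4 := Finset.card_le_four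
    have : ({a.1, b.1, c.1, d.1} : Finset ℕ).card < C.card := by omega
    exact Finset.exists_mem_notMem_of_card_lt_card this
  simp only [Finset.mem_insert, Finset.mem_singleton, not_or] at hq
  obtain ⟨q1, q2, q3, q4⟩ := hq
  have s2 : R c d (q, c.2) d := by
    have hpC : ∀ i ∈ C, Equiv.swap c.1 q i ∈ C := by
      intro i hi
      by_cases i1 : i = c.1
      · rw [i1, Equiv.swap_apply_left]
        exact hqC
      · by_cases i2 : i = q
        · rw [i2, Equiv.swap_apply_right]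
          exact h'.1
        · rw [Equiv.swap_apply_of_ne_of_ne i1 i2]
          exact hi
    have h1 := hR.rn (Equiv.swap c.1 q) (fun _ => false) hpC _ _ _ _ h h' hr
    have e1 : g_PL (Equiv.swap c.1 q) (fun _ => false) a = a := by
      unfold g_PL
      rw [Equiv.swap_apply_of_ne_of_ne hc1.symm (fun h => q1 h.symm)]
      simp
    have e2 : g_PL (Equiv.swap c.1 q) (fun _ => false) b = b := by
      unfold g_PL
      rw [Equiv.swap_apply_of_ne_of_ne hc2.symm (fun h => q2 h.symm)]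
      simp
    have e3 : g_PL (Equiv.swap c.1 q) (fun _ => false) c = (q, c.2) := by
      unfold g_PL
      rw [Equiv.swap_apply_left]
      simp
    have e4 : g_PL (Equiv.swap c.1 q) (fun _ => false) d = d := by
      unfold g_PL
      rw [Equiv.swap_apply_of_ne_of_ne hcd.symm (fun h => q4 h.symm)]
      simp
    rw [e1, e2, e3, e4] at h1
    exact hR.tr _ _ _ _ _ _ (hR.sy _ _ _ _ hr) h1
  have hqd : P_PL C (q, c.2) d := ⟨hqC, h'.2.1, q4⟩
  have F : ∀ x y z : Lt, P_PL C x z → P_PL C y z → R x z y z := by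
    intro x y z hx hy
    by_cases hxy : y.1 = x.1
    · by_cases hxy2 : y.2 = x.2
      · have : y = x := Prod.ext hxy hxy2
        rw [this]
        exact hR.rf _ _
      · have hyx : y = fl x := by
          unfold fl
          refine Prod.ext hxy ?_
          simp only
          revert hxy2
          cases y.2 <;> cases x.2 <;> simp
        obtain ⟨p, e, hp, h1, h2⟩ := tr2_PL C c d x z h' hx
        have h3 := hR.rn p e hp _ _ _ _ h' (show P_PL C (fl c) d from h') s1
        have h4 : g_PL p e (fl c) = fl (g_PL p e c) := by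
          unfold g_PL fl
          ext
          · rfl
          · simp
        rw [h4, h1, h2] at h3
        rw [hyx]
        exact h3
    · obtain ⟨p, e, hp, h1, h2, h3⟩ := tr3_PL C c d (q, c.2) x z y h' hqC q3 q4 hx hy.1 hxy hy.2.2
      have h4 := hR.rn p e hp _ _ _ _ h' hqd s2
      rw [h1, h2, h3] at h4
      exact h4
  have F' : ∀ x y z : Lt, P_PL C x y → P_PL C x z → R x y x z := by
    intro x y z hy hz
    have h1 := F (fl y) (fl z) (fl x) (P_fl_PL hy) (P_fl_PL hz)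
    have h2 := hR.st _ _ _ _ (P_fl_PL hy) (P_fl_PL hz) h1
    rw [fl_fl, fl_fl, fl_fl] at h2
    exact h2
  obtain ⟨z, hzC, hz⟩ : ∃ z ∈ C, z ∉ ({b'.1, d'.1} : Finset ℕ) := by
    have h4 : ({b'.1, d'.1} : Finset ℕ).card ≤ 2 := Finset.card_le_two
    have : ({b'.1, d'.1} : Finset ℕ).card < C.card := by omega
    exact Finset.exists_mem_notMem_of_card_lt_card this
  simp only [Finset.mem_insert, Finset.mem_singleton, not_or] at hz
  have z1 : P_PL C (z, false) b' := ⟨hzC, k.2.1, hz.1⟩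
  have z2 : P_PL C (z, false) d' := ⟨hzC, k'.2.1, hz.2⟩
  exact hR.tr _ _ _ _ _ _ (F a' (z, false) b' k z1) (hR.tr _ _ _ _ _ _ (F' (z, false) b' d' z1 z2)
    (F (z, false) c' d' z2 k'))

private theorem one2_PL {C : Finset ℕ} (hC : 5 ≤ C.card) {R : Lt → Lt → Lt → Lt → Prop} (hR : Inv_PL C R)
    {a b c d : Lt} (h : P_PL C a b) (h' : P_PL C c d) (hr : R a b c d) (hd1 : d.1 ≠ a.1) (hd2 : d.1 ≠ b.1)
    {a' b' c' d' : Lt} (k : P_PL C a' b') (k' : P_PL C c' d') : R a' b' c' d' :=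
  one_PL hC hR (P_fl_PL h) (P_fl_PL h') (hR.st _ _ _ _ h h' hr) hd2 hd1 k k'

private theorem perm_PL {C : Finset ℕ} (hC : 5 ≤ C.card) {A B : Lt → Lt → Lt → Lt → Prop} (hA : Inv_PL C A)
    (hB : Inv_PL C B) {a b c d k l : Lt} (h1 : P_PL C a b) (h2 : P_PL C c d) (h3 : P_PL C k l)
    (hab : A a b c d) (hcd : B c d k l) : ∃ x y, P_PL C x y ∧ B a b x y ∧ A x y k l := by
  have hall : ∀ {a b c d : Lt}, P_PL C a b → P_PL C c d →
      (c.1 ≠ a.1 ∧ c.1 ≠ b.1) ∨ (d.1 ≠ a.1 ∧ d.1 ≠ b.1) ∨ (c.1 = a.1 ∧ d.1 = b.1) ∨ (c.1 = b.1 ∧ d.1 = a.1) := by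
    rintro a b c d ⟨-, -, x1⟩ ⟨-, -, x2⟩
    omega
  rcases hall h1 h2 with hx | hx | hx | hx
  · exact ⟨a, b, h1, hB.rf _ _, one_PL hC hA h1 h2 hab hx.1 hx.2 h1 h3⟩
  · exact ⟨a, b, h1, hB.rf _ _, one2_PL hC hA h1 h2 hab hx.1 hx.2 h1 h3⟩
  · obtain ⟨s, rfl⟩ := ex_xr_PL hx.1
    obtain ⟨t, rfl⟩ := ex_xr_PL hx.2
    rcases hall h2 h3 with hy | hy | hy | hy
    · exact ⟨k, l, h3, one_PL hC hB h2 h3 hcd hy.1 hy.2 h1 h3, hA.rf _ _⟩
    · exact ⟨k, l, h3, one2_PL hC hB h2 h3 hcd hy.1 hy.2 h1 h3, hA.rf _ _⟩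
    · obtain ⟨s', rfl⟩ := ex_xr_PL hy.1
      obtain ⟨t', rfl⟩ := ex_xr_PL hy.2
      refine ⟨xr_PL a s', xr_PL b t', P_xr_PL h1 _ _, (S_PL hB h2 hcd a b h1).1, ?_⟩
      have := (S_PL hA h1 hab _ _ (P_xr_PL h1 s' t')).1
      rw [xr_xr_PL a s' s, xr_xr_PL b t' t] at this
      exact this
    · obtain ⟨s', rfl⟩ := ex_xr_PL hy.1
      obtain ⟨t', rfl⟩ := ex_xr_PL hy.2
      refine ⟨xr_PL b s', xr_PL a t', P_sw_PL h1 _ _, (W_PL hB h2 hcd a b h1).1, ?_⟩
      have := (S_PL hA h1 hab _ _ (P_sw_PL h1 s' t')).2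
      rw [xr_xr_PL b s' t, xr_xr_PL a t' s] at this
      exact this
  · obtain ⟨s, rfl⟩ := ex_xr_PL hx.1
    obtain ⟨t, rfl⟩ := ex_xr_PL hx.2
    rcases hall h2 h3 with hy | hy | hy | hy
    · exact ⟨k, l, h3, one_PL hC hB h2 h3 hcd hy.1 hy.2 h1 h3, hA.rf _ _⟩
    · exact ⟨k, l, h3, one2_PL hC hB h2 h3 hcd hy.1 hy.2 h1 h3, hA.rf _ _⟩
    · obtain ⟨s', rfl⟩ := ex_xr_PL hy.1
      obtain ⟨t', rfl⟩ := ex_xr_PL hy.2
      refine ⟨xr_PL a t', xr_PL b s', P_xr_PL h1 _ _, (S_PL hB h2 hcd a b h1).2, ?_⟩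
      have := (W_PL hA h1 hab _ _ (P_xr_PL h1 t' s')).1
      rw [xr_xr_PL b s' s, xr_xr_PL a t' t] at this
      exact this
    · obtain ⟨s', rfl⟩ := ex_xr_PL hy.1
      obtain ⟨t', rfl⟩ := ex_xr_PL hy.2
      refine ⟨xr_PL b t', xr_PL a s', P_sw_PL h1 _ _, (W_PL hB h2 hcd a b h1).2, ?_⟩
      have := (W_PL hA h1 hab _ _ (P_sw_PL h1 t' s')).2
      rw [xr_xr_PL a s' t, xr_xr_PL b t' s] at this
      exact this

/-! ### Canonical words in type M -/

private noncomputable def mid_PL (C : Finset ℕ) (a b : Lt) : Wd := ((C.erase a.1).erase b.1).toList.map X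

private noncomputable def cn_PL (C : Finset ℕ) (a b : Lt) : Wd := a :: mid_PL C a b ++ [b]

private theorem mid_fst_PL (C : Finset ℕ) (a b : Lt) :
    (mid_PL C a b).map Prod.fst = ((C.erase a.1).erase b.1).toList := by
  unfold mid_PL
  rw [List.map_map]
  have : Prod.fst ∘ X = id := by
    funext i
    rfl
  rw [this, List.map_id]

private theorem canon_PL {θ : FIC} (h : M3 θ) (C : Finset ℕ) (a b : Lt) (m : Wd) (hm : m ≠ [])
    (hn : (m.map Prod.fst).Nodup) (hc : ct m = (C.erase a.1).erase b.1) : θ.r (a :: m ++ [b]) (cn_PL C a b) := by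
  refine h a b m (mid_PL C a b) hm ?_
  rw [mid_fst_PL]
  refine List.perm_of_nodup_nodup_toFinset_eq hn (Finset.nodup_toList _) ?_
  rw [Finset.toList_toFinset]
  exact hc

private theorem exists_cn_PL {θ : FIC} (h : M3 θ) {u : Wd} (hu : Lin u) (hl : 3 ≤ u.length) :
    ∃ a b, P_PL (ct u) a b ∧ θ.r u (cn_PL (ct u) a b) := by
  rcases u with _ | ⟨a, t⟩
  · simp at hl
  · have ht : t ≠ [] := by
      rintro rfl
      simp at hl
    obtain ⟨m, b, rfl⟩ : ∃ m b, t = m ++ [b] := ⟨t.dropLast, t.getLast ht, (List.dropLast_append_getLast ht).symm⟩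
    have hm : m ≠ [] := by
      rintro rfl
      simp at hl
    unfold Lin at hu
    simp only [List.map_cons, List.map_append, List.map_nil, List.nodup_cons, List.mem_append,
      List.mem_singleton, not_or, List.nodup_append, List.nodup_nil] at hu
    obtain ⟨⟨h1, h2⟩, h3, -, h4⟩ := hu
    have ham : a.1 ∉ ct m := by simpa [ct] using h1
    have hbm : b.1 ∉ ct m := by
      intro hb
      have hb' : b.1 ∈ m.map Prod.fst := by simpa [ct] using hb
      exact h4 _ hb' b.1 (by simp) rfl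
    refine ⟨a, b, ⟨by simp, by simp, h2⟩, ?_⟩
    have := canon_PL h (ct (a :: (m ++ [b]))) a b m hm h3 (by
      ext i
      simp only [ct_cons, ct_append, ct_nil, Finset.mem_erase, Finset.mem_insert, Finset.mem_union,
        Finset.notMem_empty, or_false]
      constructor
      · intro hi
        exact ⟨fun h => hbm (h ▸ hi), fun h => ham (h ▸ hi), Or.inr (Or.inl hi)⟩
      · rintro ⟨i1, i2, i3⟩
        rcases i3 with i3 | i3 | i3
        · exact absurd i3 i2
        · exact i3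
        · exact absurd i3 i1)
    simpa using this

private theorem mid_ne_PL {C : Finset ℕ} (hC : 3 ≤ C.card) (a b : Lt) : mid_PL C a b ≠ [] := by
  intro h
  have h1 := congrArg List.length h
  simp only [mid_PL, List.length_map, Finset.length_toList, List.length_nil] at h1
  have h2 := Finset.pred_card_le_card_erase (s := C) (a := a.1)
  have h3 := Finset.pred_card_le_card_erase (s := C.erase a.1) (a := b.1)
  omega

private theorem mid_nodup_PL (C : Finset ℕ) (a b : Lt) : ((mid_PL C a b).map Prod.fst).Nodup := by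
  rw [mid_fst_PL]
  exact Finset.nodup_toList _

private theorem ct_mid_PL (C : Finset ℕ) (a b : Lt) : ct (mid_PL C a b) = (C.erase a.1).erase b.1 := by
  unfold ct
  rw [mid_fst_PL, Finset.toList_toFinset]

private theorem inv_PL {θ α : FIC} (h : M3 θ) (hl : Le θ α) {C : Finset ℕ} (hC : 3 ≤ C.card) :
    Inv_PL C (fun a b c d => α.r (cn_PL C a b) (cn_PL C c d)) where
  rf := fun _ _ => α.refl' _
  sy := fun _ _ _ _ h => α.symm' h
  tr := fun _ _ _ _ _ _ h h' => α.trans' h h'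
  rn := by
    intro p e hp a b c d _ _ hr
    have hCp : C.image p = C := by
      refine Finset.eq_of_subset_of_card_le ?_ ?_
      · intro i hi
        obtain ⟨j, hj, rfl⟩ := Finset.mem_image.1 hi
        exact hp j hj
      · rw [Finset.card_image_of_injective _ p.injective]
    have key : ∀ a b : Lt, α.r (rw' p e (cn_PL C a b)) (cn_PL C (g_PL p e a) (g_PL p e b)) := by
      intro a b
      have h1 : rw' p e (cn_PL C a b) = g_PL p e a :: rw' p e (mid_PL C a b) ++ [g_PL p e b] := by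
        simp [cn_PL, g_PL]
      rw [h1]
      refine hl _ _ (canon_PL h C _ _ _ ?_ ?_ ?_)
      · rw [Ne, rw'_eq_nil]
        exact mid_ne_PL hC a b
      · rw [rw'_fst]
        exact (mid_nodup_PL C a b).map p.injective
      · rw [ct_rw', ct_mid_PL, Finset.image_erase p.injective, Finset.image_erase p.injective, hCp]
        rfl
    exact α.trans' (α.symm' (key a b)) (α.trans' (α.rn p e hr) (key c d))
  st := by
    intro a b c d _ _ hr
    have key : ∀ a b : Lt, α.r (IM.st (cn_PL C a b)) (cn_PL C (fl b) (fl a)) := by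
      intro a b
      have h1 : IM.st (cn_PL C a b) = fl b :: IM.st (mid_PL C a b) ++ [fl a] := by
        simp [cn_PL]
      rw [h1]
      refine hl _ _ (canon_PL h C _ _ _ ?_ ?_ ?_)
      · rw [Ne, st_eq_nil]
        exact mid_ne_PL hC a b
      · rw [st_fst]
        exact List.nodup_reverse.2 (mid_nodup_PL C a b)
      · rw [ct_st, ct_mid_PL]
        exact Finset.erase_right_comm
    exact α.trans' (α.symm' (key a b)) (α.trans' (α.star' hr) (key c d))

theorem hPL : StPL := by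
  intro θ _ hT u w v hu hwl hvl hwc hvc hlin α β hα hβ huw hwv _ _ _ _ _ _
  have hcard : (ct u).card = u.length := lin_card hlin
  have hlw : Lin w := lin_of_card_PL (by rw [hwc, hwl]; exact hcard)
  have hlv : Lin v := lin_of_card_PL (by rw [hvc, hvl]; exact hcard)
  rcases hT with hT | hT | hT
  · exact ⟨u, β.refl' u, hα _ _ (hT u v (by omega) (perm_fst_PL hlin hlv hvc.symm))⟩
  · -- type C
    set e : ℕ → Bool := fun i => xor (fs i u) (fs i w) with he
    set f : ℕ → Bool := fun i => xor (fs i w) (fs i v) with hf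
    have h1 : θ.r w (rw' 1 e u) := hT _ _ (by omega) (c4_PL hlin hlw hwc)
    have h2 : θ.r v (rw' 1 f w) := hT _ _ (by omega) (c4_PL hlw hlv (hvc.trans hwc.symm))
    have hinv : ∀ (g : ℕ → Bool) (x : Wd), rw' 1 g (rw' 1 g x) = x := by
      intro g x
      rw [rw'_rw']
      have : (fun i => xor (g i) (g ((1 : Equiv.Perm ℕ) i))) = fun _ => false := by
        funext i
        simp
      rw [this, mul_one, rw'_id]
    have hcomm : ∀ (g k : ℕ → Bool) (x : Wd), rw' 1 g (rw' 1 k x) = rw' 1 k (rw' 1 g x) := by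
      intro g k x
      rw [rw'_rw', rw'_rw']
      congr 1
      funext i
      simp [Bool.xor_comm]
    have h3 : θ.r (rw' 1 e w) u := by
      have := θ.rn 1 e h1
      rwa [hinv] at this
    refine ⟨rw' 1 f u, ?_, ?_⟩
    · -- `u β f u`
      have h4 : β.r w (rw' 1 f w) := β.trans' hwv (hβ _ _ h2)
      have h5 := β.rn 1 e h4
      rw [hcomm e f w] at h5
      exact β.trans' (β.symm' (hβ _ _ h3)) (β.trans' h5 (β.rn 1 f (hβ _ _ h3)))
    · -- `f u α v`
      have h4 := α.rn 1 f huw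
      exact α.trans' h4 (hα _ _ (θ.symm' h2))
  · -- type M
    obtain ⟨a, b, p1, q1⟩ := exists_cn_PL hT hlin (by omega)
    obtain ⟨c, d, p2, q2⟩ := exists_cn_PL hT hlw (by omega)
    obtain ⟨k, l, p3, q3⟩ := exists_cn_PL hT hlv (by omega)
    rw [hwc] at p2 q2
    rw [hvc] at p3 q3
    have hA := inv_PL hT hα (C := ct u) (by omega)
    have hB := inv_PL hT hβ (C := ct u) (by omega)
    obtain ⟨x, y, -, r1, r2⟩ := perm_PL (by omega) hA hB p1 p2 p3
      (α.trans' (α.symm' (hα _ _ q1)) (α.trans' huw (hα _ _ q2)))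
      (β.trans' (β.symm' (hβ _ _ q2)) (β.trans' hwv (hβ _ _ q3)))
    exact ⟨cn_PL (ct u) x y, β.trans' (hβ _ _ q1) r1, α.trans' r2 (α.symm' (hα _ _ q3))⟩

end Helper1.IM
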