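import Pool.Agent.Helper1.IM.St3

/-!
# Project IM, module PP: permutability on all levels of length `≥ 7`
-/

set_option autoImplicit false

namespace Helper1.IM

theorem hPP (h0 : StRE) (h1 : StPL) (h2 : StPR) (h3 : StPD) : StPP := by
  rintro θ ⟨hn, hl, ht⟩ u w v hu hw hv hcw hcv
  by_cases hlin : Lin u
  · exact h1 θ hn hl u w v hu hw hv hcw hcv hlin
  · rcases ht with ht | ht | ht
    · exact h2 θ (h0 θ (Or.inl ht)) u w v hu hw hv hcw hcv hlin
    · exact h2 θ (h0 θ (Or.inr ht)) u w v hu hw hv hcw hcv hlin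
    · exact h3 θ ht u w v hu hw hv hcw hcv hlin

end Helper1.IM
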