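import Pool.Agent.Helper1.IM.M_SL

/-!
# Project IM, module PR: permutability, type RE
-/

set_option autoImplicit false

namespace Helper1.IM

/-- words of a level with the same repeated letters are equal modulo `θ` up to the signs of single letters -/
theorem diff_PR {θ : FIC} (hRE : RE θ) {c d : Wd} (hL : 7 ≤ c.length) (hlen : c.length = d.length)
    (hnl : ¬ Lin c) (hct : ct c = ct d) (hzc : ¬ Zero θ c) (hzd : ¬ Zero θ d) (hR : Rp c = Rp d) :
    ∃ A : Finset ℕ, (∀ y ∈ A, oc y c = 1) ∧ θ.r (rw' 1 (fun i => decide (i ∈ A)) c) d := by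
  have hperm := hRE.s2 c d hL hlen hnl hct hzc hzd (fun i => by
    rw [← mem_Rp_SL, ← mem_Rp_SL, hR])
  set A : Finset ℕ := (ct c).filter (fun i => oc i c = 1 ∧ ¬ ((i, false) ∈ c ↔ (i, false) ∈ d)) with hA
  refine ⟨A, fun y hy => (Finset.mem_filter.1 hy).2.1, ?_⟩
  apply hRE.s3 _ _ (by rw [rw'_length]; exact hL) (fun h => hnl (lin_rw'.1 h))
    (fun h => hzc ((Zero.rw'_iff _ _).1 h)) hzd
  refine ⟨?_, ?_⟩
  · rw [rw'_fst]
    simpa using hperm
  · intro i hi
    have hoc := oc_rw' 1 (fun i => decide (i ∈ A)) i c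
    rw [Equiv.Perm.one_apply] at hoc
    rw [hoc] at hi
    have hone : (i, true) ∈ c ↔ ¬ (i, false) ∈ c := by
      have hcnt : oc i c = c.count (i, false) + c.count (i, true) := by
        clear hi hoc hA A hperm hR hct hlen hzc hzd hnl hL
        induction c with
        | nil => simp
        | cons x c ih =>
          rw [oc_cons, ih, List.count_cons, List.count_cons]
          rcases x with ⟨j, b⟩
          by_cases hj : j = i
          · subst hj
            cases b <;> simp <;> omega
          · simp [hj]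
      rw [hi] at hcnt
      constructor
      · intro h1 h2
        have := List.count_pos_iff.2 h1
        have := List.count_pos_iff.2 h2
        omega
      · intro h1
        have := List.count_eq_zero.2 h1
        apply List.count_pos_iff.1
        omega
    have hmem : (i, false) ∈ rw' 1 (fun i => decide (i ∈ A)) c ↔ (i, decide (i ∈ A)) ∈ c := by
      unfold rw'
      rw [List.mem_map]
      constructor
      · rintro ⟨⟨j, b⟩, hj, he⟩
        simp only [Equiv.Perm.one_apply, Prod.mk.injEq] at he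
        obtain ⟨rfl, h2⟩ := he
        have : b = decide (j ∈ A) := by
          revert h2
          cases b <;> cases decide (j ∈ A) <;> simp
        rw [← this]
        exact hj
      · intro h
        refine ⟨_, h, ?_⟩
        simp
    rw [hmem]
    have hiC : i ∈ ct c := by
      rw [← oc_pos]
      omega
    by_cases hiA : i ∈ A
    · have h3 := (Finset.mem_filter.1 hiA).2.2
      rw [decide_eq_true hiA, hone]
      tauto
    · have h3 : ((i, false) ∈ c ↔ (i, false) ∈ d) := by
        by_contra h4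
        exact hiA (Finset.mem_filter.2 ⟨hiC, hi, h4⟩)
      rw [decide_eq_false hiA]
      exact h3

theorem comm_PR (e f : ℕ → Bool) (u : Wd) : rw' 1 e (rw' 1 f u) = rw' 1 f (rw' 1 e u) := by
  rw [rw'_one_comp_SL, rw'_one_comp_SL]
  exact rw'_congr_SL 1 _ _ u (fun i => Bool.xor_comm _ _)

theorem invol_PR (e : ℕ → Bool) (u : Wd) : rw' 1 e (rw' 1 e u) = u := by
  rw [rw'_one_comp_SL, rw'_congr_SL 1 _ (fun _ => false) u (fun i => by simp), rw'_id]

/-- if `α` changes the set of repeated letters, it relates level words with the same set -/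
theorem same_PR (h1 : StFL) {θ α : FIC} (hRE : RE θ) (hle : Le θ α) {a b : Wd} (hL : 7 ≤ a.length)
    (hlen : b.length = a.length) (hct : ct b = ct a) (hnl : ¬ Lin a) (hz : ¬ Zero α a) (hr : α.r a b)
    (hne : Rp a ≠ Rp b) {c d : Wd} (lc : c.length = a.length) (cc : ct c = ct a) (zc : ¬ Zero α c)
    (ld : d.length = a.length) (cd : ct d = ct a) (zd : ¬ Zero α d) (hR : Rp c = Rp d) : α.r c d :=
  same_SL (L := a.length) (C := ct a) hRE hle hL
    (fun c hc => not_lin_SL hnl hc.len hc.con)
    (fun c hc y hy hoc => h1 θ α hRE hle a b hL hlen hct hnl hz hr hne c hc.len hc.con hc.nz y hy hoc)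
    ⟨lc, cc, zc⟩ ⟨ld, cd, zd⟩ hR

theorem hPR (h1 : StFL) (h2 : StSL) : StPR := by
  intro θ hRE u w v hL lw lv cw cv hnl α β hα hβ huw hwv zau zbu zav zbv zaw zbw
  have nlw : ¬ Lin w := not_lin_SL hnl lw cw
  have nlv : ¬ Lin v := not_lin_SL hnl lv cv
  have ztu : ¬ Zero θ u := fun h => zau (h.le hα)
  have ztw : ¬ Zero θ w := fun h => zaw (h.le hα)
  have ztv : ¬ Zero θ v := fun h => zav (h.le hα)
  by_cases c1 : Rp u = Rp w
  · obtain ⟨A, hA, hAw⟩ := diff_PR hRE hL lw.symm hnl cw.symm ztu ztw c1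
    by_cases c2 : Rp u = Rp v
    · obtain ⟨B, hB, hBv⟩ := diff_PR hRE hL lv.symm hnl cv.symm ztu ztv c2
      refine ⟨rw' 1 (fun i => decide (i ∈ A)) v, ?_, ?_⟩
      · have h3 : β.r (rw' 1 (fun i => decide (i ∈ A)) u) v := β.trans' (hβ _ _ hAw) hwv
        have h4 := β.rn 1 (fun i => decide (i ∈ A)) h3
        rwa [invol_PR] at h4
      · have h3 : α.r u (rw' 1 (fun i => decide (i ∈ A)) u) := α.trans' huw (α.symm' (hα _ _ hAw))
        have h4 := α.rn 1 (fun i => decide (i ∈ B)) h3
        rw [comm_PR] at h4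
        have h5 := α.rn 1 (fun i => decide (i ∈ A)) (hα _ _ hBv)
        exact α.trans' (α.symm' h5) (α.trans' (α.symm' h4) (hα _ _ hBv))
    · have c3 : Rp w ≠ Rp v := fun h => c2 (c1.trans h)
      refine ⟨v, ?_, α.refl' v⟩
      have h3 : β.r u w := same_PR h1 hRE hβ (a := w) (b := v) (by omega) (by omega) (by rw [cv, cw])
        nlw zbw hwv c3 (by omega) cw.symm zbu rfl rfl zbw c1
      exact β.trans' h3 hwv
  · by_cases c2 : Rp w = Rp v
    · refine ⟨u, β.refl' u, ?_⟩
      have h3 : α.r w v := same_PR h1 hRE hα (a := u) (b := w) hL lw cw hnl zau huw c1 lw cw zaw lv cv zav c2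
      exact α.trans' huw h3
    · by_cases c3 : Rp w = ct u \ Rp u
      · by_cases c4 : Rp v = ct w \ Rp w
        · refine ⟨u, β.refl' u, ?_⟩
          have h3 : Rp u = Rp v := by
            rw [c4, c3, cw, Finset.sdiff_sdiff_eq_self (Rp_sub_SL u)]
          exact same_PR h1 hRE hα (a := u) (b := w) hL lw cw hnl zau huw c1 rfl rfl zau lv cv zav h3
        · refine ⟨v, ?_, α.refl' v⟩
          exact h2 θ β hRE hβ w v (by omega) (by omega) (by rw [cv, cw]) nlw zbw hwv c2 c4 u v
            (by omega) (by omega) cw.symm (by rw [cv, cw]) zbu zbv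
      · refine ⟨u, β.refl' u, ?_⟩
        exact h2 θ α hRE hα u w hL lw cw hnl zau huw c1 c3 u v rfl lv rfl cv zau zav

end Helper1.IM
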