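import Pool.Agent.Helper1.IM.St3

/-!
# Project IM, module RE: the common consequence of the types R and E
-/

set_option autoImplicit false

namespace Helper1.IM

/-- if all multiplicities are at most 2, the length is the size of the content plus the number of repeated letters -/
private theorem len_RE {u : Wd} (h : ∀ i, oc i u ≤ 2) :
    u.length = (ct u).card + ((ct u).filter (fun i => 2 ≤ oc i u)).card := by
  rw [length_eq_sum, Finset.card_filter, Finset.card_eq_sum_ones, ← Finset.sum_add_distrib]
  apply Finset.sum_congr rfl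
  intro i hi
  have h1 := oc_pos.2 hi
  have h2 := h i
  split_ifs <;> omega

private theorem lin_of_card_RE {u : Wd} (h : (ct u).card = u.length) : Lin u := by
  rw [lin_iff]
  intro i
  by_cases hi : i ∈ ct u
  · rw [length_eq_sum, Finset.card_eq_sum_ones] at h
    have h2 := (Finset.sum_eq_sum_iff_of_le (s := ct u) (f := fun _ => 1) (g := fun i => oc i u)
      (fun j hj => oc_pos.2 hj)).1 h i hi
    exact h2.symm.le
  · rw [oc_eq_zero.2 hi]
    exact Nat.zero_le _

private theorem nlin_RE {u v : Wd} (hl : u.length = v.length) (hn : ¬ Lin u) (hc : ct u = ct v) :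
    ¬ Lin v := by
  intro hv
  apply hn
  apply lin_of_card_RE
  rw [hc, lin_card hv, hl]

/-- one repeated letter -/
private theorem len1_RE {u : Wd} {i : ℕ} (hi : 2 ≤ oc i u) (h : ∀ j, j ≠ i → oc j u ≤ 1) :
    (ct u).filter (fun j => 2 ≤ oc j u) = {i} ∧ u.length + 1 = (ct u).card + oc i u := by
  have him : i ∈ ct u := oc_pos.1 (by omega)
  constructor
  · ext j
    rw [Finset.mem_filter, Finset.mem_singleton]
    constructor
    · rintro ⟨-, h2⟩
      by_contra hj
      have := h j hj
      omega
    · rintro rfl
      exact ⟨him, hi⟩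
  · have e1 := Finset.sum_erase_add (ct u) (fun j => oc j u) him
    have e2 : ∑ j ∈ (ct u).erase i, oc j u = ∑ j ∈ (ct u).erase i, 1 := by
      apply Finset.sum_congr rfl
      intro j hj
      rw [Finset.mem_erase] at hj
      have h1 := oc_pos.2 hj.2
      have h2 := h j hj.1
      omega
    rw [← length_eq_sum, e2, ← Finset.card_eq_sum_ones, Finset.card_erase_of_mem him] at e1
    have h3 := Finset.card_pos.2 ⟨i, him⟩
    omega

theorem hRE : StRE := by
  intro θ hθ
  rcases hθ with hR | hE
  · have hb : ∀ u : Wd, 7 ≤ u.length → ¬ Zero θ u → ∀ i, oc i u ≤ 2 := by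
      intro u hu hz i
      by_contra hc
      exact hz (hR.r1 u (by omega) ⟨i, by omega⟩)
    refine ⟨?_, ?_, ?_⟩
    · intro u v hu hl _ hc hzu hzv
      have h1 := len_RE (hb u hu hzu)
      have h2 := len_RE (hb v (hl ▸ hu) hzv)
      rw [← hc] at h2
      rw [← hc]
      omega
    · intro u v hu hl _ hc hzu hzv hiff
      rw [perm_iff_oc]
      intro i
      have h1 := hb u hu hzu i
      have h2 := hb v (hl ▸ hu) hzv i
      have h3 := hiff i
      have h4 : 0 < oc i u ↔ 0 < oc i v := by rw [oc_pos, oc_pos, hc]
      omega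
    · intro u v hu hn hzu hzv hs
      exact hR.r2 u v (by omega) hn hzu hzv hs
  · refine ⟨?_, ?_, ?_⟩
    · intro u v hu hl hn hc hzu hzv
      obtain ⟨i, hi, _, hi1⟩ := hE.e1 u (by omega) hn hzu
      obtain ⟨j, hj, _, hj1⟩ := hE.e1 v (by omega) (nlin_RE hl hn hc) hzv
      rw [(len1_RE hi hi1).1, (len1_RE hj hj1).1, Finset.card_singleton, Finset.card_singleton]
    · intro u v hu hl hn hc hzu hzv hiff
      obtain ⟨i, hi, _, hi1⟩ := hE.e1 u (by omega) hn hzu
      obtain ⟨j, hj, _, hj1⟩ := hE.e1 v (by omega) (nlin_RE hl hn hc) hzv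
      have hij : i = j := by
        by_contra hne
        have h2 := hj1 i hne
        have h3 := (hiff i).1 hi
        omega
      subst hij
      rw [perm_iff_oc]
      intro k
      by_cases hk : k = i
      · subst hk
        have e1 := (len1_RE hi hi1).2
        have e2 := (len1_RE hj hj1).2
        rw [← hc] at e2
        omega
      · have h1 := hi1 k hk
        have h2 := hj1 k hk
        have h4 : 0 < oc k u ↔ 0 < oc k v := by rw [oc_pos, oc_pos, hc]
        omega
    · intro u v hu hn _ _ hs
      exact hE.hs u v (by omega) hn hs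

end Helper1.IM
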