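import Pool.Agent.Helper1.IM.St3

/-!
# Project IM, module SL: all nonzero words of a level are related (type RE)
-/

set_option autoImplicit false

namespace Helper1.IM

theorem mem_Rp_SL {i : ℕ} {u : Wd} : i ∈ Rp u ↔ 2 ≤ oc i u := by
  unfold Rp
  rw [Finset.mem_filter]
  refine ⟨fun h => h.2, fun h => ⟨?_, h⟩⟩
  rw [← oc_pos]
  omega

theorem Rp_rw'_SL (p : Equiv.Perm ℕ) (e : ℕ → Bool) (u : Wd) : Rp (rw' p e u) = (Rp u).image p := by
  ext i
  rw [mem_Rp_SL, Finset.mem_image]
  constructor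
  · intro h
    refine ⟨p.symm i, ?_, by simp⟩
    rw [mem_Rp_SL]
    have h2 := oc_rw' p e (p.symm i) u
    rw [Equiv.apply_symm_apply] at h2
    omega
  · rintro ⟨j, hj, rfl⟩
    rw [oc_rw']
    exact mem_Rp_SL.1 hj

theorem Rp_sub_SL (u : Wd) : Rp u ⊆ ct u := Finset.filter_subset _ _

/-- words of the level -/
structure Lv_SL (α : FIC) (L : ℕ) (C : Finset ℕ) (c : Wd) : Prop where
  len : c.length = L
  con : ct c = C
  nz : ¬ Zero α c

theorem Lv_SL.rwp {α : FIC} {L : ℕ} {C : Finset ℕ} {c : Wd} (h : Lv_SL α L C c) (p : Equiv.Perm ℕ)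
    (e : ℕ → Bool) (hp : C.image p = C) : Lv_SL α L C (rw' p e c) where
  len := by rw [rw'_length]; exact h.len
  con := by rw [ct_rw', h.con, hp]
  nz := fun hz => h.nz ((Zero.rw'_iff p e).1 hz)

theorem rw'_one_comp_SL (e f : ℕ → Bool) (u : Wd) :
    rw' 1 e (rw' 1 f u) = rw' 1 (fun i => xor (f i) (e i)) u := by
  rw [rw'_rw']
  simp

/-- congruence of renamings -/
theorem rw'_congr_SL (p : Equiv.Perm ℕ) (e f : ℕ → Bool) (u : Wd) (h : ∀ i, e i = f i) :
    rw' p e u = rw' p f u := by
  have : e = f := funext h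
  rw [this]

/-- sign changes of single letters -/
theorem sgn_SL {α : FIC} {L : ℕ} {C : Finset ℕ}
    (hFL : ∀ c : Wd, Lv_SL α L C c → ∀ y ∈ ct c, oc y c = 1 → α.r c (rw' 1 (fun i => decide (i = y)) c))
    {c : Wd} (hc : Lv_SL α L C c) (A : Finset ℕ) (hA : ∀ y ∈ A, oc y c = 1) :
    α.r c (rw' 1 (fun i => decide (i ∈ A)) c) := by
  induction A using Finset.induction_on with
  | empty =>
    have : rw' 1 (fun i => decide (i ∈ (∅ : Finset ℕ))) c = c := by
      rw [rw'_congr_SL 1 _ (fun _ => false) c (by simp), rw'_id]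
    rw [this]
    exact α.refl' c
  | insert y A hy ih =>
    have ih' := ih (fun z hz => hA z (Finset.mem_insert_of_mem hz))
    have hlv : Lv_SL α L C (rw' 1 (fun i => decide (i ∈ A)) c) := hc.rwp _ _ (by simp)
    have hoc : oc y (rw' 1 (fun i => decide (i ∈ A)) c) = 1 := by
      have := oc_rw' 1 (fun i => decide (i ∈ A)) y c
      rw [Equiv.Perm.one_apply] at this
      rw [this]
      exact hA y (Finset.mem_insert_self _ _)
    have h1 := hFL _ hlv y (by rw [← oc_pos]; omega) hoc
    rw [rw'_one_comp_SL] at h1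
    have h2 : rw' 1 (fun i => decide (i ∈ insert y A)) c =
        rw' 1 (fun i => xor (decide (i ∈ A)) (decide (i = y))) c := by
      apply rw'_congr_SL
      intro i
      by_cases hi : i = y
      · subst hi
        simp [hy]
      · simp [hi]
    rw [h2]
    exact α.trans' ih' h1

theorem not_lin_SL {u v : Wd} (hu : ¬ Lin u) (hl : v.length = u.length) (hc : ct v = ct u) : ¬ Lin v := by
  intro hv
  have h1 := lin_card hv
  have h2 : ¬ (ct u).card < u.length → False := by
    intro h3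
    apply hu
    have h4 : (ct u).card = u.length := le_antisymm (card_ct_le u) (by omega)
    unfold Lin
    have h5 : (u.map Prod.fst).toFinset.card = (u.map Prod.fst).length := by
      simpa [ct] using h4
    have h6 : Multiset.Nodup ((u.map Prod.fst : List ℕ) : Multiset ℕ) :=
      Multiset.toFinset_card_eq_card_iff_nodup.1 h5
    exact Multiset.coe_nodup.1 h6
  apply h2
  rw [← hc, ← hl]
  omega

/-- level words with the same set of repeated letters are related -/
theorem same_SL {θ α : FIC} (hRE : RE θ) (hle : Le θ α) {L : ℕ} {C : Finset ℕ} (hL : 7 ≤ L)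
    (hnl : ∀ c : Wd, Lv_SL α L C c → ¬ Lin c)
    (hFL : ∀ c : Wd, Lv_SL α L C c → ∀ y ∈ ct c, oc y c = 1 → α.r c (rw' 1 (fun i => decide (i = y)) c))
    {c d : Wd} (hc : Lv_SL α L C c) (hd : Lv_SL α L C d) (hR : Rp c = Rp d) : α.r c d := by
  have hzc : ¬ Zero θ c := fun h => hc.nz (h.le hle)
  have hzd : ¬ Zero θ d := fun h => hd.nz (h.le hle)
  have hlen : c.length = d.length := by rw [hc.len, hd.len]
  have hct : ct c = ct d := by rw [hc.con, hd.con]
  have hperm := hRE.s2 c d (by rw [hc.len]; exact hL) hlen (hnl c hc) hct hzc hzd (fun i => by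
    rw [← mem_Rp_SL, ← mem_Rp_SL, hR])
  set A : Finset ℕ := C.filter (fun i => oc i c = 1 ∧ ¬ ((i, false) ∈ c ↔ (i, false) ∈ d)) with hA
  have hcA := sgn_SL hFL hc A (fun y hy => (Finset.mem_filter.1 hy).2.1)
  have hlv : Lv_SL α L C (rw' 1 (fun i => decide (i ∈ A)) c) := hc.rwp _ _ (by simp)
  refine α.trans' hcA (hle _ _ ?_)
  apply hRE.s3 _ _ (by rw [hlv.len]; exact hL) (hnl _ hlv) (fun h => hlv.nz (h.le hle)) hzd
  refine ⟨?_, ?_⟩
  · rw [rw'_fst]
    simpa using hperm
  · intro i hi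
    have hoc := oc_rw' 1 (fun i => decide (i ∈ A)) i c
    rw [Equiv.Perm.one_apply] at hoc
    rw [hoc] at hi
    -- exactly one of the two signed letters is in c
    have hone : (i, true) ∈ c ↔ ¬ (i, false) ∈ c := by
      have hcnt : oc i c = c.count (i, false) + c.count (i, true) := by
        clear hcA hlv hi hoc hA A hperm hR hct hlen hzc hzd hc hd
        induction c with
        | nil => simp
        | cons x c ih =>
          rw [oc_cons, ih, List.count_cons, List.count_cons]
          rcases x with ⟨j, b⟩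
          by_cases hj : j = i
          · subst hj
            cases b <;> simp <;> omega
          · simp [hj]
      rw [hi] at hcnt
      constructor
      · intro h1 h2
        have := List.count_pos_iff.2 h1
        have := List.count_pos_iff.2 h2
        omega
      · intro h1
        have := List.count_eq_zero.2 h1
        apply List.count_pos_iff.1
        omega
    have hmem : (i, false) ∈ rw' 1 (fun i => decide (i ∈ A)) c ↔ (i, decide (i ∈ A)) ∈ c := by
      unfold rw'
      rw [List.mem_map]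
      constructor
      · rintro ⟨⟨j, b⟩, hj, he⟩
        simp only [Equiv.Perm.one_apply, Prod.mk.injEq] at he
        obtain ⟨rfl, h2⟩ := he
        have : b = decide (j ∈ A) := by
          revert h2
          cases b <;> cases decide (j ∈ A) <;> simp
        rw [← this]
        exact hj
      · intro h
        refine ⟨_, h, ?_⟩
        simp
    rw [hmem]
    have hiC : i ∈ C := by
      rw [← hc.con, ← oc_pos]
      omega
    by_cases hiA : i ∈ A
    · have h3 := (Finset.mem_filter.1 hiA).2.2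
      rw [decide_eq_true hiA, hone]
      tauto
    · have h3 : ((i, false) ∈ c ↔ (i, false) ∈ d) := by
        by_contra h4
        exact hiA (Finset.mem_filter.2 ⟨hiC, hi, h4⟩)
      rw [decide_eq_false hiA]
      exact h3

/-- a permutation which maps `T` onto `U` and `C` onto itself -/
theorem exists_map_SL (C T U : Finset ℕ) (hT : T ⊆ C) (hU : U ⊆ C) (hcard : T.card = U.card) :
    ∃ g : Equiv.Perm ℕ, T.image g = U ∧ C.image g = C := by
  classical
  have h2 : (C \ T).card = (C \ U).card := by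
    rw [Finset.card_sdiff_of_subset hT, Finset.card_sdiff_of_subset hU, hcard]
  obtain ⟨e1⟩ : Nonempty (T ≃ U) := ⟨Finset.equivOfCardEq hcard⟩
  obtain ⟨e2⟩ : Nonempty ((C \ T : Finset ℕ) ≃ (C \ U : Finset ℕ)) := ⟨Finset.equivOfCardEq h2⟩
  set f : ℕ → ℕ := fun i => if h : i ∈ T then (e1 ⟨i, h⟩ : ℕ) else
    if h : i ∈ C \ T then (e2 ⟨i, h⟩ : ℕ) else i with hf
  have f1 : ∀ i (h : i ∈ T), f i = e1 ⟨i, h⟩ := fun i h => by simp [hf, h]
  have f2 : ∀ i (h : i ∈ C \ T), f i = e2 ⟨i, h⟩ := fun i h => by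
    have h3 := Finset.mem_sdiff.1 h
    simp [hf, h3.1, h3.2]
  have m1 : ∀ i, i ∈ T → f i ∈ U := fun i h => by rw [f1 i h]; exact (e1 ⟨i, h⟩).2
  have m2 : ∀ i, i ∈ C → i ∉ T → f i ∈ C \ U := fun i h h' => by
    rw [f2 i (Finset.mem_sdiff.2 ⟨h, h'⟩)]
    exact (e2 ⟨i, Finset.mem_sdiff.2 ⟨h, h'⟩⟩).2
  have hinj : Set.InjOn f (C : Set ℕ) := by
    intro i hi j hj hij
    have hi' : i ∈ C := hi
    have hj' : j ∈ C := hj
    by_cases hiT : i ∈ T <;> by_cases hjT : j ∈ T
    · rw [f1 i hiT, f1 j hjT] at hij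
      have := e1.injective (Subtype.ext hij)
      exact congrArg Subtype.val this
    · have a1 := m1 i hiT
      have a2 := m2 j hj' hjT
      rw [hij] at a1
      exact absurd a1 (Finset.mem_sdiff.1 a2).2
    · have a1 := m1 j hjT
      have a2 := m2 i hi' hiT
      rw [← hij] at a1
      exact absurd a1 (Finset.mem_sdiff.1 a2).2
    · rw [f2 i (Finset.mem_sdiff.2 ⟨hi', hiT⟩), f2 j (Finset.mem_sdiff.2 ⟨hj', hjT⟩)] at hij
      have := e2.injective (Subtype.ext hij)
      exact congrArg Subtype.val this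
  obtain ⟨p, hp⟩ := exists_perm_extend C f hinj
  refine ⟨p, ?_, ?_⟩
  · apply Finset.eq_of_subset_of_card_le
    · intro x hx
      obtain ⟨i, hi, rfl⟩ := Finset.mem_image.1 hx
      rw [hp i (hT hi)]
      exact m1 i hi
    · rw [Finset.card_image_of_injective _ p.injective, hcard]
  · apply Finset.eq_of_subset_of_card_le
    · intro x hx
      obtain ⟨i, hi, rfl⟩ := Finset.mem_image.1 hx
      rw [hp i hi]
      by_cases hiT : i ∈ T
      · exact hU (m1 i hiT)
      · exact (Finset.mem_sdiff.1 (m2 i hi hiT)).1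
    · rw [Finset.card_image_of_injective _ p.injective]

/-- exchanging two elements which are both in a set or both outside -/
theorem swap_image_SL (S : Finset ℕ) (x y : ℕ) (h : x ∈ S ↔ y ∈ S) : S.image (Equiv.swap x y) = S := by
  apply Finset.eq_of_subset_of_card_le
  · intro z hz
    obtain ⟨i, hi, rfl⟩ := Finset.mem_image.1 hz
    by_cases h1 : i = x
    · rw [h1, Equiv.swap_apply_left]
      exact h.1 (h1 ▸ hi)
    · by_cases h2 : i = y
      · rw [h2, Equiv.swap_apply_right]
        exact h.2 (h2 ▸ hi)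
      · rw [Equiv.swap_apply_of_ne_of_ne h1 h2]
        exact hi
  · rw [Finset.card_image_of_injective _ (Equiv.swap x y).injective]

theorem image_mul_SL (S : Finset ℕ) (g h : Equiv.Perm ℕ) : S.image (g * h) = (S.image h).image g := by
  rw [Finset.image_image]
  rfl

/-- a permutation which maps `T` onto `U`, `C` onto itself, `q` to `q'` and `p` to `p'` -/
theorem exists_map2_SL (C T U : Finset ℕ) (hT : T ⊆ C) (hU : U ⊆ C) (hcard : T.card = U.card)
    {p q p' q' : ℕ} (hq : q ∈ T) (hp : p ∈ C) (hpT : p ∉ T) (hq' : q' ∈ U) (hp' : p' ∈ C) (hpU : p' ∉ U) :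
    ∃ g : Equiv.Perm ℕ, T.image g = U ∧ C.image g = C ∧ g q = q' ∧ g p = p' := by
  obtain ⟨g, h1, h2⟩ := exists_map_SL C T U hT hU hcard
  have a1 : g q ∈ U := by rw [← h1]; exact Finset.mem_image_of_mem _ hq
  have a2 : g p ∈ C := by rw [← h2]; exact Finset.mem_image_of_mem _ hp
  have a3 : g p ∉ U := by
    rw [← h1]
    intro h
    obtain ⟨i, hi, he⟩ := Finset.mem_image.1 h
    exact hpT (g.injective he ▸ hi)
  refine ⟨Equiv.swap (g p) p' * (Equiv.swap (g q) q' * g), ?_, ?_, ?_, ?_⟩
  · rw [image_mul_SL, image_mul_SL, h1, swap_image_SL U (g q) q' (by tauto),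
      swap_image_SL U (g p) p' (by tauto)]
  · rw [image_mul_SL, image_mul_SL, h2, swap_image_SL C (g q) q' ?_,
      swap_image_SL C (g p) p' (by tauto)]
    exact ⟨fun _ => hU hq', fun _ => hU a1⟩
  · rw [Equiv.Perm.mul_apply, Equiv.Perm.mul_apply, Equiv.swap_apply_left]
    apply Equiv.swap_apply_of_ne_of_ne
    · intro h
      exact a3 (h ▸ hq')
    · intro h
      exact hpU (h ▸ hq')
  · rw [Equiv.Perm.mul_apply, Equiv.Perm.mul_apply]
    have : Equiv.swap (g q) q' (g p) = g p := by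
      apply Equiv.swap_apply_of_ne_of_ne
      · intro h
        exact a3 (h ▸ a1)
      · intro h
        exact a3 (h ▸ hq')
    rw [this, Equiv.swap_apply_left]

theorem hSL (h : StFL) : StSL := by
  classical
  intro θ α hRE hle a b ha7 hbl hbc hal hza hab hTT hTc c d hcl hdl hcc hdc hzc hzd
  set C := ct a with hC
  set L := a.length with hLL
  have hLa : Lv_SL α L C a := ⟨rfl, rfl, hza⟩
  have hLb : Lv_SL α L C b := ⟨hbl, hbc, fun hz => hza (hz.of_r (α.symm' hab))⟩
  have hLc : Lv_SL α L C c := ⟨hcl, hcc, hzc⟩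
  have hLd : Lv_SL α L C d := ⟨hdl, hdc, hzd⟩
  have hnl : ∀ c : Wd, Lv_SL α L C c → ¬ Lin c := fun c hc => not_lin_SL hal hc.len hc.con
  have hFL : ∀ c : Wd, Lv_SL α L C c → ∀ y ∈ ct c, oc y c = 1 →
      α.r c (rw' 1 (fun i => decide (i = y)) c) := fun c hc y hy hy1 =>
    h θ α hRE hle a b ha7 hbl hbc hal hza hab hTT c hc.len hc.con hc.nz y hy hy1
  have hsame : ∀ {c d : Wd}, Lv_SL α L C c → Lv_SL α L C d → Rp c = Rp d → α.r c d :=
    fun hc hd hR => same_SL hRE hle ha7 hnl hFL hc hd hR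
  have hRC : ∀ c : Wd, Lv_SL α L C c → Rp c ⊆ C := fun c hc => by
    rw [← hc.con]; exact Rp_sub_SL c
  have hcard : ∀ {c d : Wd}, Lv_SL α L C c → Lv_SL α L C d → (Rp c).card = (Rp d).card :=
    fun {c d} hc hd => hRE.s1 c d (by rw [hc.len]; exact ha7) (by rw [hc.len, hd.len]) (hnl c hc)
      (by rw [hc.con, hd.con]) (fun hz => hc.nz (hz.le hle)) (fun hz => hd.nz (hz.le hle))
  -- (A)
  obtain ⟨p, q, hpC, hpT, hqT, hpq⟩ : ∃ p q, p ∈ C ∧ p ∉ Rp a ∧ q ∈ Rp a ∧ (p ∈ Rp b ↔ q ∈ Rp b) := by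
    by_cases hint : ∃ q, q ∈ Rp a ∧ q ∈ Rp b
    · obtain ⟨q, hq1, hq2⟩ := hint
      have : ∃ p, p ∈ Rp b ∧ p ∉ Rp a := by
        by_contra hcon
        push Not at hcon
        exact hTT (Finset.eq_of_subset_of_card_le hcon (le_of_eq (hcard hLa hLb))).symm
      obtain ⟨p, hp1, hp2⟩ := this
      exact ⟨p, q, hRC b hLb hp1, hp2, hq1, by tauto⟩
    · push Not at hint
      have hne : ∃ q, q ∈ Rp a := by
        by_contra hcon
        push Not at hcon
        apply hal
        rw [lin_iff]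
        intro i
        have := hcon i
        rw [mem_Rp_SL] at this
        omega
      obtain ⟨q, hq⟩ := hne
      have : ∃ p, p ∈ C \ Rp a ∧ p ∉ Rp b := by
        by_contra hcon
        push Not at hcon
        apply hTc
        apply Finset.Subset.antisymm
        · intro i hi
          rw [Finset.mem_sdiff]
          exact ⟨hRC b hLb hi, fun h2 => hint i h2 hi⟩
        · exact hcon
      obtain ⟨p, hp1, hp2⟩ := this
      rw [Finset.mem_sdiff] at hp1
      exact ⟨p, q, hp1.1, hp1.2, hq, by have := hint q hq; tauto⟩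
  have hqC : q ∈ C := hRC a hLa hqT
  set τ := Equiv.swap p q with hτ
  have hτC : C.image τ = C := swap_image_SL C p q (by tauto)
  have hτb : α.r b (rw' τ (fun _ => false) b) := by
    apply hsame hLb (hLb.rwp _ _ hτC)
    rw [Rp_rw'_SL, swap_image_SL (Rp b) p q hpq]
  have haτ : α.r a (rw' τ (fun _ => false) a) :=
    α.trans' hab (α.trans' hτb (α.symm' (α.rn τ _ hab)))
  have hpq' : p ≠ q := fun h => hpT (h ▸ hqT)
  have hτT : (Rp a).image τ = insert p ((Rp a).erase q) := by
    ext i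
    rw [Finset.mem_image, Finset.mem_insert, Finset.mem_erase]
    constructor
    · rintro ⟨j, hj, rfl⟩
      by_cases h1 : j = q
      · left
        rw [h1, hτ, Equiv.swap_apply_right]
      · right
        have h2 : j ≠ p := fun h => hpT (h ▸ hj)
        rw [hτ, Equiv.swap_apply_of_ne_of_ne h2 h1]
        exact ⟨h1, hj⟩
    · rintro (rfl | ⟨h1, h2⟩)
      · exact ⟨q, hqT, by rw [hτ, Equiv.swap_apply_right]⟩
      · refine ⟨i, h2, ?_⟩
        have h3 : i ≠ p := fun h => hpT (h ▸ h2)
        rw [hτ, Equiv.swap_apply_of_ne_of_ne h3 h1]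
  -- (B)
  have hB : ∀ c : Wd, Lv_SL α L C c → ∀ q' ∈ Rp c, ∀ p' ∈ C, p' ∉ Rp c →
      ∃ c', Lv_SL α L C c' ∧ α.r c c' ∧ Rp c' = insert p' ((Rp c).erase q') := by
    intro c hc q' hq' p' hp'C hp'
    obtain ⟨g, g1, g2, g3, g4⟩ := exists_map2_SL C (Rp a) (Rp c) (hRC a hLa) (hRC c hc)
      (hcard hLa hc) hqT hpC hpT hq' hp'C hp'
    refine ⟨rw' g (fun _ => false) (rw' τ (fun _ => false) a), ?_, ?_, ?_⟩
    · exact (hLa.rwp _ _ hτC).rwp _ _ g2
    · refine α.trans' (hsame hc (hLa.rwp g (fun _ => false) g2) ?_) (α.rn g _ haτ)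
      rw [Rp_rw'_SL, g1]
    · rw [Rp_rw'_SL, Rp_rw'_SL, hτT, Finset.image_insert, g4, Finset.image_erase g.injective, g3, g1]
  -- (C)
  have hC' : ∀ n : ℕ, ∀ c : Wd, Lv_SL α L C c → (Rp c \ Rp d).card ≤ n → α.r c d := by
    intro n
    induction n with
    | zero =>
      intro c hc hn
      apply hsame hc hLd
      have h1 : Rp c \ Rp d = ∅ := Finset.card_eq_zero.1 (by omega)
      exact Finset.eq_of_subset_of_card_le (Finset.sdiff_eq_empty_iff_subset.1 h1)
        (le_of_eq (hcard hLd hc))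
    | succ n ih =>
      intro c hc hn
      by_cases h0 : (Rp c \ Rp d).card ≤ n
      · exact ih c hc h0
      have h1 : (Rp c \ Rp d).card = n + 1 := by omega
      obtain ⟨q', hq'⟩ : (Rp c \ Rp d).Nonempty := Finset.card_pos.1 (by omega)
      rw [Finset.mem_sdiff] at hq'
      have h2 : ∃ p', p' ∈ Rp d ∧ p' ∉ Rp c := by
        by_contra hcon
        push Not at hcon
        have := Finset.eq_of_subset_of_card_le hcon (le_of_eq (hcard hc hLd))
        exact hq'.2 (this ▸ hq'.1)
      obtain ⟨p', hp1, hp2⟩ := h2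
      obtain ⟨c', hc', hr, hR⟩ := hB c hc q' hq'.1 p' (hRC d hLd hp1) hp2
      refine α.trans' hr (ih c' hc' ?_)
      have h3 : Rp c' \ Rp d ⊆ (Rp c \ Rp d).erase q' := by
        intro i hi
        rw [Finset.mem_sdiff, hR, Finset.mem_insert, Finset.mem_erase] at hi
        rw [Finset.mem_erase, Finset.mem_sdiff]
        obtain ⟨h4, h5⟩ := hi
        rcases h4 with rfl | ⟨h6, h7⟩
        · exact absurd hp1 h5
        · exact ⟨h6, h7, h5⟩
      have h4 := Finset.card_le_card h3
      rw [Finset.card_erase_of_mem (Finset.mem_sdiff.2 hq')] at h4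
      omega
  exact hC' _ c hLc le_rfl

end Helper1.IM
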