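import Pool.Agent.Helper1.IM.St3

/-! # Project IM, module SO: single orbit property -/

set_option autoImplicit false

namespace Helper1.IM

theorem lin_of_card_SO {u : Wd} (h : (ct u).card = u.length) : Lin u := by
  have h1 := (Multiset.toFinset_card_eq_card_iff_nodup (m := ((u.map Prod.fst : List ℕ) : Multiset ℕ))).1
    (by simpa [ct] using h)
  simpa [Lin] using h1

theorem lin_iff_of_SO {u w : Wd} (hl : u.length = w.length) (hc : ct u = ct w) : Lin u ↔ Lin w := by
  constructor
  · intro h
    apply lin_of_card_SO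
    rw [← hc, ← hl]
    exact lin_card h
  · intro h
    apply lin_of_card_SO
    rw [hc, hl]
    exact lin_card h

/-- sign of a letter which occurs once -/
theorem mem_fs_SO {i : ℕ} {u : Wd} (h : oc i u = 1) (b : Bool) : ((i, b) : Lt) ∈ u ↔ fs i u = b := by
  induction u with
  | nil => simp at h
  | cons a u ih =>
    rw [oc_cons] at h
    by_cases ha : a.1 = i
    · rw [if_pos ha] at h
      have h0 : oc i u = 0 := by omega
      have hni : i ∉ ct u := oc_eq_zero.1 h0
      have h1 : fs i (a :: u) = a.2 := by simp [fs, ha]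
      rw [h1, List.mem_cons]
      constructor
      · rintro (h2 | h2)
        · rw [← h2]
        · exact absurd (mem_ct.2 ⟨b, h2⟩) hni
      · intro h2
        left
        rw [← h2, ← ha]
    · rw [if_neg ha, Nat.zero_add] at h
      have h1 : fs i (a :: u) = fs i u := by simp [fs, ha]
      rw [h1, List.mem_cons, ih h]
      constructor
      · rintro (h2 | h2)
        · exact absurd (by rw [← h2]) ha
        · exact h2
      · intro h2
        exact Or.inr h2

theorem fs_rw_SO (p : Equiv.Perm ℕ) (e : ℕ → Bool) {i : ℕ} {u : Wd} (h : i ∈ ct u) :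
    fs (p i) (rw' p e u) = xor (fs i u) (e i) := by
  induction u with
  | nil => simp at h
  | cons a u ih =>
    by_cases ha : a.1 = i
    · subst ha
      simp [fs]
    · have h1 : i ∈ ct u := by
        rw [ct_cons, Finset.mem_insert] at h
        rcases h with h | h
        · exact absurd h.symm ha
        · exact h
      have h2 := ih h1
      have h3 : p a.1 ≠ p i := fun h => ha (p.injective h)
      have e1 : fs (p i) (rw' p e (a :: u)) = fs (p i) (rw' p e u) := by
        simp [fs, h3]
      have e2 : fs i (a :: u) = fs i u := by simp [fs, ha]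
      rw [e1, e2]
      exact h2

/-- a permutation of `C` which maps `A` into `B` -/
theorem exists_perm_SO (n : ℕ) : ∀ (C A B : Finset ℕ), A ⊆ C → B ⊆ C → A.card = B.card → (A \ B).card = n →
    ∃ p : Equiv.Perm ℕ, (∀ i ∈ C, p i ∈ C) ∧ ∀ i ∈ A, p i ∈ B := by
  classical
  induction n with
  | zero =>
    intro C A B _ _ _ hn
    have : A ⊆ B := by
      rw [Finset.card_eq_zero, Finset.sdiff_eq_empty_iff_subset] at hn
      exact hn
    exact ⟨1, by simp, fun i hi => by simpa using this hi⟩
  | succ n ih =>
    intro C A B hA hB hc hn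
    obtain ⟨a, ha⟩ : (A \ B).Nonempty := by
      rw [← Finset.card_pos]
      omega
    have hc2 : (B \ A).card = (A \ B).card := Finset.card_sdiff_comm hc.symm
    obtain ⟨b, hb⟩ : (B \ A).Nonempty := by
      rw [← Finset.card_pos]
      omega
    rw [Finset.mem_sdiff] at ha hb
    have hab : a ≠ b := fun h => ha.2 (h ▸ hb.1)
    have hbA : b ∉ A.erase a := fun h => hb.2 (Finset.mem_of_mem_erase h)
    obtain ⟨p, hp1, hp2⟩ := ih C (insert b (A.erase a)) B
      (by
        intro i hi
        rcases Finset.mem_insert.1 hi with rfl | hi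
        · exact hB hb.1
        · exact hA (Finset.mem_of_mem_erase hi))
      hB
      (by
        rw [Finset.card_insert_of_notMem hbA, Finset.card_erase_of_mem ha.1]
        have : 0 < A.card := Finset.card_pos.2 ⟨a, ha.1⟩
        omega)
      (by
        have e1 : insert b (A.erase a) \ B = (A \ B).erase a := by
          ext i
          simp only [Finset.mem_sdiff, Finset.mem_insert, Finset.mem_erase]
          constructor
          · rintro ⟨h1 | h1, h2⟩
            · exact absurd (h1 ▸ hb.1) h2
            · exact ⟨h1.1, h1.2, h2⟩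
          · rintro ⟨h1, h2, h3⟩
            exact ⟨Or.inr ⟨h1, h2⟩, h3⟩
        rw [e1, Finset.card_erase_of_mem (Finset.mem_sdiff.2 ha)]
        omega)
    refine ⟨p * Equiv.swap a b, fun i hi => ?_, fun i hi => ?_⟩
    · rw [Equiv.Perm.mul_apply]
      apply hp1
      by_cases h1 : i = a
      · rw [h1, Equiv.swap_apply_left]
        exact hB hb.1
      · by_cases h2 : i = b
        · rw [h2, Equiv.swap_apply_right]
          exact hA ha.1
        · rw [Equiv.swap_apply_of_ne_of_ne h1 h2]
          exact hi
    · rw [Equiv.Perm.mul_apply]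
      apply hp2
      by_cases h1 : i = a
      · rw [h1, Equiv.swap_apply_left]
        exact Finset.mem_insert_self _ _
      · have h2 : i ≠ b := fun h => hb.2 (h ▸ hi)
        rw [Equiv.swap_apply_of_ne_of_ne h1 h2]
        exact Finset.mem_insert_of_mem (Finset.mem_erase.2 ⟨h1, hi⟩)

/-- the same, and a given letter outside `A` is mapped to a given letter outside `B` -/
theorem exists_perm2_SO (C A B : Finset ℕ) (hA : A ⊆ C) (hB : B ⊆ C) (hc : A.card = B.card) (z y : ℕ)
    (hz : z ∈ C) (hzA : z ∉ A) (hy : y ∈ C) (hyB : y ∉ B) :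
    ∃ p : Equiv.Perm ℕ, (∀ i ∈ C, p i ∈ C) ∧ (∀ i ∈ A, p i ∈ B) ∧ p z = y := by
  classical
  obtain ⟨p, hp1, hp2⟩ := exists_perm_SO _ C A B hA hB hc rfl
  have hpz : p z ∉ B := by
    intro h
    have h1 : A.image p = B := by
      refine Finset.eq_of_subset_of_card_le ?_ ?_
      · intro i hi
        obtain ⟨j, hj, rfl⟩ := Finset.mem_image.1 hi
        exact hp2 j hj
      · rw [Finset.card_image_of_injective _ p.injective, hc]
    rw [← h1, Finset.mem_image] at h
    obtain ⟨j, hj, hj2⟩ := h
    exact hzA (p.injective hj2 ▸ hj)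
  refine ⟨Equiv.swap (p z) y * p, fun i hi => ?_, fun i hi => ?_, by simp⟩
  · rw [Equiv.Perm.mul_apply]
    by_cases h1 : p i = p z
    · rw [h1, Equiv.swap_apply_left]
      exact hy
    · by_cases h2 : p i = y
      · rw [h2, Equiv.swap_apply_right]
        exact hp1 z hz
      · rw [Equiv.swap_apply_of_ne_of_ne h1 h2]
        exact hp1 i hi
  · rw [Equiv.Perm.mul_apply]
    have h1 : p i ≠ p z := fun h => hpz (h ▸ hp2 i hi)
    have h2 : p i ≠ y := fun h => hyB (h ▸ hp2 i hi)
    rw [Equiv.swap_apply_of_ne_of_ne h1 h2]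
    exact hp2 i hi

theorem mem_Rp_SO {i : ℕ} {u : Wd} : i ∈ Rp u ↔ 2 ≤ oc i u := by
  unfold Rp
  rw [Finset.mem_filter]
  constructor
  · exact fun h => h.2
  · intro h
    exact ⟨oc_pos.1 (by omega), h⟩

/-- a renaming which respects the repeated letters can be completed by signs -/
theorem core_SO {θ : FIC} (h : RE θ) {u w : Wd} (h7 : 7 ≤ w.length) (hl : u.length = w.length) (hc : ct u = ct w)
    (hn : ¬ Lin w) (hu : ¬ Zero θ u) (hw : ¬ Zero θ w) (p : Equiv.Perm ℕ) (hp1 : ∀ i ∈ ct w, p i ∈ ct w)
    (hp2 : ∀ i ∈ Rp u, p i ∈ Rp w) : ∃ e : ℕ → Bool, θ.r w (rw' p e u) := by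
  classical
  set e : ℕ → Bool := fun i => xor (fs i u) (fs (p i) w) with he
  refine ⟨e, ?_⟩
  have hz : ¬ Zero θ (rw' p e u) := by rwa [Zero.rw'_iff]
  have hcard : (Rp w).card = (Rp u).card := h.s1 w u h7 hl.symm hn hc.symm hw hu
  have himC : (ct w).image p = ct w := by
    refine Finset.eq_of_subset_of_card_le ?_ ?_
    · intro i hi
      obtain ⟨j, hj, rfl⟩ := Finset.mem_image.1 hi
      exact hp1 j hj
    · rw [Finset.card_image_of_injective _ p.injective]
  have himR : (Rp u).image p = Rp w := by
    refine Finset.eq_of_subset_of_card_le ?_ ?_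
    · intro i hi
      obtain ⟨j, hj, rfl⟩ := Finset.mem_image.1 hi
      exact hp2 j hj
    · rw [Finset.card_image_of_injective _ p.injective, hcard]
  have hct : ct w = ct (rw' p e u) := by rw [ct_rw', hc, himC]
  have hiff : ∀ i, 2 ≤ oc i w ↔ 2 ≤ oc i (rw' p e u) := by
    intro i
    obtain ⟨j, rfl⟩ := p.surjective i
    rw [oc_rw', ← mem_Rp_SO, ← mem_Rp_SO, ← himR, Finset.mem_image]
    constructor
    · rintro ⟨k, hk, hk2⟩
      exact p.injective hk2 ▸ hk
    · intro hj
      exact ⟨j, hj, rfl⟩
  have hperm := h.s2 w (rw' p e u) h7 (by rw [rw'_length, hl]) hn hct hw hz hiff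
  refine h.s3 w (rw' p e u) h7 hn hw hz ⟨hperm, fun i hi => ?_⟩
  have hi2 : oc i (rw' p e u) = 1 := by rw [← hi]; exact (oc_perm hperm i).symm
  rw [mem_fs_SO hi, mem_fs_SO hi2]
  obtain ⟨j, rfl⟩ := p.surjective i
  have hj : j ∈ ct u := by
    rw [oc_rw'] at hi2
    exact oc_pos.1 (by omega)
  rw [fs_rw_SO p e hj]
  simp only [he]
  cases fs j u <;> cases fs (p j) w <;> simp

theorem hSO (hRE : StRE) : StSO := by
  rintro θ ⟨hnil, -, hT⟩ u w h7 hl hc hu hw
  by_cases hlin : Lin u
  · obtain ⟨p, e, hpe⟩ := lin_rename hlin ((lin_iff_of_SO hl hc).1 hlin) hl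
    exact ⟨p, e, by rw [hpe]; exact θ.refl' w⟩
  · have hlw : ¬ Lin w := fun h => hlin ((lin_iff_of_SO hl hc).2 h)
    have hcase : (TR θ ∨ TE θ) ∨ TD θ := by tauto
    rcases hcase with hT | hT
    · have hR := hRE θ hT
      have hcard : (Rp u).card = (Rp w).card := hR.s1 u w h7 hl hlin hc hu hw
      obtain ⟨p, hp1, hp2⟩ := exists_perm_SO _ (ct w) (Rp u) (Rp w)
        (by rw [← hc]; exact Finset.filter_subset _ _) (Finset.filter_subset _ _) hcard rfl
      obtain ⟨e, he⟩ := core_SO hR (by omega) hl hc hlw hu hw p hp1 hp2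
      exact ⟨p, e, he⟩
    · obtain ⟨i, hi1, hi2⟩ := hT.d1 u h7 hlin hu
      obtain ⟨k, hk1, hk2⟩ := hT.d1 w (by omega) hlw hw
      have hiC : i ∈ ct u := oc_pos.1 (by omega)
      have hkC : k ∈ ct w := oc_pos.1 (by omega)
      set p : Equiv.Perm ℕ := Equiv.swap i k with hp
      have hpi : p i = k := Equiv.swap_apply_left i k
      set e : ℕ → Bool := fun j => xor (fs j u) (fs (p j) w) with he
      refine ⟨p, e, ?_⟩
      have hz : ¬ Zero θ (rw' p e u) := by rwa [Zero.rw'_iff]
      have himC : (ct w).image p = ct w := by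
        refine Finset.eq_of_subset_of_card_le ?_ ?_
        · intro j hj
          obtain ⟨l, hl1, rfl⟩ := Finset.mem_image.1 hj
          by_cases h1 : l = i
          · rw [h1, hpi]
            exact hkC
          · by_cases h2 : l = k
            · rw [h2, hp, Equiv.swap_apply_right, ← hc]
              exact hiC
            · rw [hp, Equiv.swap_apply_of_ne_of_ne h1 h2]
              exact hl1
        · rw [Finset.card_image_of_injective _ p.injective]
      have hct : ct w = ct (rw' p e u) := by rw [ct_rw', hc, himC]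
      have hoc : ∀ j, oc j w = oc j (rw' p e u) := by
        intro j
        by_cases hjk : j = k
        · rw [hjk, hk1, ← hpi, oc_rw', hi1]
        · have h1 := hk2 j hjk
          obtain ⟨l, rfl⟩ := p.surjective j
          have h2 : l ≠ i := fun h => hjk (by rw [h, hpi])
          have h3 := hi2 l h2
          rw [oc_rw']
          by_cases hj : p l ∈ ct w
          · have h4 : 0 < oc (p l) w := oc_pos.2 hj
            rw [hct] at hj
            have h5 : 0 < oc (p l) (rw' p e u) := oc_pos.2 hj
            rw [oc_rw'] at h5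
            omega
          · have h4 : oc (p l) w = 0 := oc_eq_zero.2 hj
            rw [hct] at hj
            have h5 : oc (p l) (rw' p e u) = 0 := oc_eq_zero.2 hj
            rw [oc_rw'] at h5
            omega
      refine hT.d2 w (rw' p e u) (by omega) hlw hw hz (perm_iff_oc.2 hoc) (fun j hj => ?_)
      have hjk : j = k := by
        by_contra hne
        have := hk2 j hne
        omega
      rw [hjk]
      have h1 := fs_rw_SO p e hiC
      rw [hpi] at h1
      rw [h1]
      simp only [he, hpi]
      cases fs i u <;> cases fs k w <;> simp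

end Helper1.IM
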