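import Pool.Agent.Helper1.IM.St3

set_option autoImplicit false

namespace Helper1.IM

private theorem sat_of_r_Sat {k : ℕ} {α : FIC} {u v : Wd} (h : sat k α u) (hr : α.r u v) :
    sat k α v := by
  obtain ⟨w, hw, hl⟩ := h
  exact ⟨w, α.trans' (α.symm' hr) hw, hl⟩

private theorem sat_mul_Sat {k : ℕ} {α : FIC} {u : Wd} (a b : Wd) (h : sat k α u) :
    sat k α (a ++ u ++ b) := by
  obtain ⟨w, hw, hl⟩ := h
  refine ⟨a ++ w ++ b, α.mul' a b hw, ?_⟩
  simp only [List.length_append]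
  omega

private theorem sat_st_Sat {k : ℕ} {α : FIC} {u : Wd} (h : sat k α u) : sat k α (st u) := by
  obtain ⟨w, hw, hl⟩ := h
  exact ⟨st w, α.star' hw, by simpa using hl⟩

private theorem sat_sb_Sat {k : ℕ} {α : FIC} {u : Wd} (f : ℕ → Wd) (hf : ∀ i, f i ≠ [])
    (h : sat k α u) : sat k α (sb f u) := by
  obtain ⟨w, hw, hl⟩ := h
  exact ⟨sb f w, α.sub' f hf hw, le_trans hl (length_sb_ge f hf w)⟩

private theorem sat_nil_Sat {k : ℕ} {α : FIC} (hk : 1 ≤ k) : ¬ sat k α [] := by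
  rintro ⟨w, hw, hl⟩
  have := α.ne' hw rfl
  subst this
  simp at hl
  omega

theorem hSat : StSat := by
  intro k α hk
  refine ⟨
    { r := fun u v => α.r u v ∨ (sat k α u ∧ sat k α v)
      refl' := fun u => Or.inl (α.refl' u)
      symm' := ?_
      trans' := ?_
      ne' := ?_
      mul' := ?_
      star' := ?_
      sub' := ?_ }, fun u v => Iff.rfl, fun u v h => Or.inl h, fun u v hu hv =>
        Or.inr ⟨⟨u, α.refl' u, hu⟩, ⟨v, α.refl' v, hv⟩⟩⟩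
  · rintro u v (h | ⟨h1, h2⟩)
    · exact Or.inl (α.symm' h)
    · exact Or.inr ⟨h2, h1⟩
  · rintro u v w (h | ⟨h1, h2⟩) (h' | ⟨h1', h2'⟩)
    · exact Or.inl (α.trans' h h')
    · exact Or.inr ⟨sat_of_r_Sat h1' (α.symm' h), h2'⟩
    · exact Or.inr ⟨h1, sat_of_r_Sat h2 h'⟩
    · exact Or.inr ⟨h1, h2'⟩
  · rintro u v (h | ⟨h1, h2⟩) hu
    · exact α.ne' h hu
    · subst hu
      exact absurd h1 (sat_nil_Sat hk)
  · rintro u v a b (h | ⟨h1, h2⟩)
    · exact Or.inl (α.mul' a b h)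
    · exact Or.inr ⟨sat_mul_Sat a b h1, sat_mul_Sat a b h2⟩
  · rintro u v (h | ⟨h1, h2⟩)
    · exact Or.inl (α.star' h)
    · exact Or.inr ⟨sat_st_Sat h1, sat_st_Sat h2⟩
  · rintro u v f hf (h | ⟨h1, h2⟩)
    · exact Or.inl (α.sub' f hf h)
    · exact Or.inr ⟨sat_sb_Sat f hf h1, sat_sb_Sat f hf h2⟩

end Helper1.IM
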