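import Pool.Agent.Helper1.IM.St

set_option autoImplicit false

namespace Helper1.IM

private theorem image_swap_Two (s : Finset ℕ) (a b : ℕ) (ha : a ∈ s) (hb : b ∈ s) :
    s.image (Equiv.swap a b) = s := by
  ext i
  simp only [Finset.mem_image]
  constructor
  · rintro ⟨j, hj, rfl⟩
    by_cases h1 : j = a
    · subst h1; simpa using hb
    · by_cases h2 : j = b
      · subst h2; simpa using ha
      · rwa [Equiv.swap_apply_of_ne_of_ne h1 h2]
  · intro hi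
    refine ⟨Equiv.swap a b i, ?_, by simp⟩
    by_cases h1 : i = a
    · subst h1; simpa using hb
    · by_cases h2 : i = b
      · subst h2; simpa using ha
      · rwa [Equiv.swap_apply_of_ne_of_ne h1 h2]

private theorem exists_perm_Two (s t : Finset ℕ) (hc : s.card = t.card) (a b : ℕ) (ha : a ∈ s)
    (hb : b ∈ t) : ∃ p : Equiv.Perm ℕ, s.image p = t ∧ p a = b := by
  classical
  let e := Finset.equivOfCardEq hc
  set q : ℕ → ℕ := fun i => if h : i ∈ s then (e ⟨i, h⟩ : ℕ) else 0 with hq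
  have hqs : ∀ i (h : i ∈ s), q i = (e ⟨i, h⟩ : ℕ) := fun i h => by simp [hq, h]
  have hinj : Set.InjOn q (s : Set ℕ) := by
    intro i hi j hj hij
    rw [hqs i hi, hqs j hj] at hij
    have := e.injective (Subtype.ext hij)
    simpa using this
  obtain ⟨p0, hp0⟩ := exists_perm_extend s q hinj
  have him : s.image p0 = t := by
    apply Finset.eq_of_subset_of_card_le
    · intro j hj
      obtain ⟨i, hi, rfl⟩ := Finset.mem_image.1 hj
      rw [hp0 i hi, hqs i hi]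
      exact (e ⟨i, hi⟩).2
    · rw [Finset.card_image_of_injective _ p0.injective, hc]
  refine ⟨Equiv.swap (p0 a) b * p0, ?_, by simp⟩
  have : s.image (Equiv.swap (p0 a) b * p0) = (s.image p0).image (Equiv.swap (p0 a) b) := by
    rw [Finset.image_image]; rfl
  rw [this, him]
  exact image_swap_Two t _ _ (him ▸ Finset.mem_image_of_mem _ ha) hb

theorem hTwo (h : StLev) : StTwo := by
  intro θ n d hmod hn hd1 hd6 S1 S2 col hS hdisj hθ1 hθ2 hθc hst1 hst2 hrw1 hrw2 hcst hcrw hex1 hex2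
  obtain ⟨u0, hu0⟩ := hex1
  obtain ⟨v, hv⟩ := hex2
  have hSS : ∀ u, (S1 u ∨ S2 u) → u.length = d ∧ (ct u).card = n ∧ ¬ Kl θ n d u := fun u hu =>
    ⟨(hS u hu).1, (hS u hu).2.1, (hS u hu).2.2.1⟩
  obtain ⟨Ex, hEx, hlx, hcx⟩ := h θ n d (fun u => S1 u ∨ S2 u)
    (fun u v => ct u = ct v ∧ ((S1 u ∧ S1 v) ∨ (S2 u ∧ S2 v ∧ col u = col v))) hd1 hSS
    (by
      intro u v hu huv
      have h1 := hθc u v hu huv
      refine ⟨h1.2, ?_⟩
      rcases hu with hu | hu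
      · exact Or.inl ⟨hu, hθ1 u v hu huv⟩
      · exact Or.inr ⟨hu, hθ2 u v hu huv, h1.1⟩)
    (by
      rintro u v ⟨h1, h2 | h2⟩
      · exact ⟨Or.inl h2.1, Or.inl h2.2, h1⟩
      · exact ⟨Or.inr h2.1, Or.inr h2.2.1, h1⟩)
    (by
      rintro u v ⟨h1, h2 | h2⟩
      · exact ⟨h1.symm, Or.inl ⟨h2.2, h2.1⟩⟩
      · exact ⟨h1.symm, Or.inr ⟨h2.2.1, h2.1, h2.2.2.symm⟩⟩)
    (by
      rintro u v w ⟨h1, h2⟩ ⟨h3, h4⟩
      refine ⟨h1.trans h3, ?_⟩
      rcases h2 with h2 | h2 <;> rcases h4 with h4 | h4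
      · exact Or.inl ⟨h2.1, h4.2⟩
      · exact absurd h4.1 (hdisj v h2.2)
      · exact absurd h2.2.1 (hdisj v h4.1)
      · exact Or.inr ⟨h2.1, h4.2.1, h2.2.2.trans h4.2.2⟩)
    (by
      rintro u v ⟨h1, h2⟩
      refine ⟨by rw [ct_st, ct_st, h1], ?_⟩
      rcases h2 with h2 | h2
      · exact Or.inl ⟨hst1 u h2.1, hst1 v h2.2⟩
      · exact Or.inr ⟨hst2 u h2.1, hst2 v h2.2.1, by
          rw [hcst u (Or.inr h2.1), hcst v (Or.inr h2.2.1), h2.2.2]⟩)
    (by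
      rintro u v p e ⟨h1, h2⟩
      refine ⟨by rw [ct_rw', ct_rw', h1], ?_⟩
      rcases h2 with h2 | h2
      · exact Or.inl ⟨hrw1 u p e h2.1, hrw1 v p e h2.2⟩
      · exact Or.inr ⟨hrw2 u p e h2.1, hrw2 v p e h2.2.1, by
          rw [hcrw u p e (Or.inr h2.1), hcrw v p e (Or.inr h2.2.1), h2.2.2]⟩)
  obtain ⟨Ez, hEz, hlz, hcz⟩ := h θ n d (fun u => S1 u ∨ S2 u)
    (fun u v => ct u = ct v ∧ ((S1 u ∧ S1 v) ∨ (S2 u ∧ S2 v))) hd1 hSS
    (by
      intro u v hu huv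
      have h1 := hθc u v hu huv
      refine ⟨h1.2, ?_⟩
      rcases hu with hu | hu
      · exact Or.inl ⟨hu, hθ1 u v hu huv⟩
      · exact Or.inr ⟨hu, hθ2 u v hu huv⟩)
    (by
      rintro u v ⟨h1, h2 | h2⟩
      · exact ⟨Or.inl h2.1, Or.inl h2.2, h1⟩
      · exact ⟨Or.inr h2.1, Or.inr h2.2, h1⟩)
    (by
      rintro u v ⟨h1, h2 | h2⟩
      · exact ⟨h1.symm, Or.inl ⟨h2.2, h2.1⟩⟩
      · exact ⟨h1.symm, Or.inr ⟨h2.2, h2.1⟩⟩)
    (by
      rintro u v w ⟨h1, h2⟩ ⟨h3, h4⟩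
      refine ⟨h1.trans h3, ?_⟩
      rcases h2 with h2 | h2 <;> rcases h4 with h4 | h4
      · exact Or.inl ⟨h2.1, h4.2⟩
      · exact absurd h4.1 (hdisj v h2.2)
      · exact absurd h2.2 (hdisj v h4.1)
      · exact Or.inr ⟨h2.1, h4.2⟩)
    (by
      rintro u v ⟨h1, h2⟩
      refine ⟨by rw [ct_st, ct_st, h1], ?_⟩
      rcases h2 with h2 | h2
      · exact Or.inl ⟨hst1 u h2.1, hst1 v h2.2⟩
      · exact Or.inr ⟨hst2 u h2.1, hst2 v h2.2⟩)
    (by
      rintro u v p e ⟨h1, h2⟩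
      refine ⟨by rw [ct_rw', ct_rw', h1], ?_⟩
      rcases h2 with h2 | h2
      · exact Or.inl ⟨hrw1 u p e h2.1, hrw1 v p e h2.2⟩
      · exact Or.inr ⟨hrw2 u p e h2.1, hrw2 v p e h2.2⟩)
  obtain ⟨Ey, hEy, hly, hcy⟩ := h θ n d (fun u => S1 u ∨ S2 u)
    (fun u v => ct u = ct v ∧ (S1 u ∨ S2 u) ∧ (S1 v ∨ S2 v) ∧ col u = col v) hd1 hSS
    (by
      intro u v hu huv
      have h1 := hθc u v hu huv
      refine ⟨h1.2, hu, ?_, h1.1⟩
      rcases hu with hu | hu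
      · exact Or.inl (hθ1 u v hu huv)
      · exact Or.inr (hθ2 u v hu huv))
    (by
      rintro u v ⟨h1, h2, h3, -⟩
      exact ⟨h2, h3, h1⟩)
    (by
      rintro u v ⟨h1, h2, h3, h4⟩
      exact ⟨h1.symm, h3, h2, h4.symm⟩)
    (by
      rintro u v w ⟨h1, h2, -, h4⟩ ⟨h5, -, h7, h8⟩
      exact ⟨h1.trans h5, h2, h7, h4.trans h8⟩)
    (by
      rintro u v ⟨h1, h2, h3, h4⟩
      refine ⟨by rw [ct_st, ct_st, h1], ?_, ?_, by rw [hcst u h2, hcst v h3, h4]⟩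
      · exact h2.imp (hst1 u) (hst2 u)
      · exact h3.imp (hst1 v) (hst2 v))
    (by
      rintro u v p e ⟨h1, h2, h3, h4⟩
      refine ⟨by rw [ct_rw', ct_rw', h1], ?_, ?_, by rw [hcrw u p e h2, hcrw v p e h3, h4]⟩
      · exact h2.imp (hrw1 u p e) (hrw2 u p e)
      · exact h3.imp (hrw1 v p e) (hrw2 v p e))
  have hle : Le Ex Ez := by
    intro a b hab
    rw [hEx] at hab
    rw [hEz]
    rcases hab with h1 | h1 | h1
    · exact Or.inl h1
    · exact Or.inr (Or.inl h1)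
    · refine Or.inr (Or.inr ⟨h1.1, ?_⟩)
      rcases h1.2 with h2 | h2
      · exact Or.inl h2
      · exact Or.inr ⟨h2.1, h2.2.1⟩
  have hcv := (hS v (Or.inr hv)).2.2.2
  have hcardv := (hS v (Or.inr hv)).2.1
  obtain ⟨c', hc', hne⟩ : ∃ c' ∈ ct v, c' ≠ col v := by
    apply Finset.exists_mem_ne
    omega
  obtain ⟨p, hp1, hp2⟩ := exists_perm_Two (ct u0) (ct v)
    (by rw [(hS u0 (Or.inl hu0)).2.1, hcardv]) (col u0) (col v) (hS u0 (Or.inl hu0)).2.2.2 hcv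
  set τ := Equiv.swap (col v) c' with hτ
  set e0 : ℕ → Bool := fun _ => false with he0
  have hu : S1 (rw' p e0 u0) := hrw1 u0 p e0 hu0
  have hctu : ct (rw' p e0 u0) = ct v := by rw [ct_rw', hp1]
  have hcolu : col (rw' p e0 u0) = col v := by rw [hcrw u0 p e0 (Or.inl hu0), hp2]
  set u := rw' p e0 u0 with hudef
  have hu' : S1 (rw' τ e0 u) := hrw1 u τ e0 hu
  have hctu' : ct (rw' τ e0 u) = ct v := by
    rw [ct_rw', hctu]
    exact image_swap_Two _ _ _ hcv hc'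
  have hcolu' : col (rw' τ e0 u) = c' := by
    rw [hcrw u τ e0 (Or.inl hu), hcolu, hτ, Equiv.swap_apply_left]
  have hv' : S2 (rw' τ e0 v) := hrw2 v τ e0 hv
  have hctv' : ct (rw' τ e0 v) = ct v := by
    rw [ct_rw']
    exact image_swap_Two _ _ _ hcv hc'
  have hcolv' : col (rw' τ e0 v) = c' := by
    rw [hcrw v τ e0 (Or.inr hv), hτ, Equiv.swap_apply_left]
  have s1 : Ey.r v u := by
    rw [hEy]
    exact Or.inr (Or.inr ⟨hctu.symm, Or.inr hv, Or.inl hu, hcolu.symm⟩)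
  have s2 : Ex.r u (rw' τ e0 u) := by
    rw [hEx]
    exact Or.inr (Or.inr ⟨hctu.trans hctu'.symm, Or.inl ⟨hu, hu'⟩⟩)
  have s3 : Ey.r (rw' τ e0 u) (rw' τ e0 v) := by
    rw [hEy]
    exact Or.inr (Or.inr ⟨hctu'.trans hctv'.symm, Or.inl hu', Or.inr hv', hcolu'.trans hcolv'.symm⟩)
  have s4 : Ez.r v (rw' τ e0 v) := by
    rw [hEz]
    exact Or.inr (Or.inr ⟨hctv'.symm, Or.inr ⟨hv, hv'⟩⟩)
  have t1 : Jn Ex Ey v u := Relation.ReflTransGen.single (Or.inr s1)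
  have t2 : Jn Ex Ey v (rw' τ e0 u) := Relation.ReflTransGen.tail t1 (Or.inl s2)
  have hjn : Jn Ex Ey v (rw' τ e0 v) := Relation.ReflTransGen.tail t2 (Or.inr s3)
  have hjm := hmod Ex Ey Ez hlx hly hlz (fun a b h1 h2 => hcx a b (by omega) (by omega))
    (fun a b h1 h2 => hcy a b (by omega) (by omega)) (fun a b h1 h2 => hcz a b (by omega) (by omega))
    hle v (rw' τ e0 v) hjn s4
  have hstep : ∀ a b, (Ex.r a b ∨ (Ey.r a b ∧ Ez.r a b)) → Ex.r a b := by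
    rintro a b (h1 | ⟨h1, h2⟩)
    · exact h1
    · rw [hEy] at h1
      rw [hEz] at h2
      rw [hEx]
      rcases h1 with h1 | h1 | h1
      · exact Or.inl h1
      · exact Or.inr (Or.inl h1)
      · rcases h2 with h2 | h2 | h2
        · exact Or.inl h2
        · exact Or.inr (Or.inl h2)
        · refine Or.inr (Or.inr ⟨h1.1, ?_⟩)
          rcases h2.2 with h3 | h3
          · exact Or.inl h3
          · exact Or.inr ⟨h3.1, h3.2, h1.2.2.2⟩
  have hfin : Ex.r v (rw' τ e0 v) := by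
    have : ∀ a b, Jm Ex Ey Ez a b → Ex.r a b := by
      intro a b hab
      induction hab with
      | refl => exact Ex.refl' a
      | tail _ hbc ih => exact Ex.trans' ih (hstep _ _ hbc)
    exact this _ _ hjm
  rw [hEx] at hfin
  rcases hfin with h1 | h1 | h1
  · have := (hθc v _ (Or.inr hv) h1).1
    rw [hcolv'] at this
    exact hne this.symm
  · exact (hSS v (Or.inr hv)).2.2 h1.1
  · rcases h1.2 with h2 | h2
    · exact hdisj v h2.1 hv
    · rw [hcolv'] at h2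
      exact hne h2.2.2.symm

end Helper1.IM
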