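import Pool.Agent.Helper1.IM.St2

/-!
# Project IM, module Ty: the type of a nil congruence
-/

set_option autoImplicit false

namespace Helper1.IM

theorem hs_of_t5_Ty {θ : FIC} (h : T5 θ) : HS θ := fun u v h5 _ hs => h u v h5 hs.1

theorem hTy (hG : StG) (hH : StH) (hC : StC) (hM : StM) : StTy := by
  intro θ hn h7
  have hHS : HS θ → TR θ ∨ TE θ ∨ TD θ := fun h => by
    rcases hH θ hn h h7 with h1 | h1
    · exact Or.inl h1
    · exact Or.inr (Or.inl h1)
  refine ⟨hn, hG θ hn h7, ?_⟩
  rcases hG θ hn h7 with h | h | h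
  · exact hHS (hs_of_t5_Ty h)
  · rcases hC θ hn h h7 with h1 | h1 | h1
    · exact hHS h1
    · exact Or.inl h1
    · exact Or.inr (Or.inr h1)
  · rcases hM θ hn h h7 with h1 | h1
    · exact hHS h1
    · exact Or.inr (Or.inr h1)

end Helper1.IM
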