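import Pool.Agent.Helper1.IM.Var

/-!
# Project IM, module V1: the identities of a class form a fully invariant congruence
-/

set_option autoImplicit false

namespace Helper1.IM

/-- Value of a word in the monoid `WithOne A`. -/
def V_V1 (A : InvSg) (e : ℕ → A.carrier) (w : Wd) : WithOne A.carrier :=
  (w.map (fun a => ((evl A e a : A.carrier) : WithOne A.carrier))).prod

/-- Star on `WithOne A`. -/
def S_V1 (A : InvSg) : WithOne A.carrier → WithOne A.carrier := Option.map Star.star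

theorem S_coe_V1 (A : InvSg) (x : A.carrier) : S_V1 A (x : WithOne A.carrier) = ((Star.star x : A.carrier) : WithOne A.carrier) := rfl

theorem S_one_V1 (A : InvSg) : S_V1 A 1 = 1 := rfl

theorem S_mul_V1 (A : InvSg) (x y : WithOne A.carrier) : S_V1 A (x * y) = S_V1 A y * S_V1 A x := by
  refine WithOne.cases_on x ?_ ?_
  · rw [S_one_V1, one_mul, mul_one]
  · intro x
    refine WithOne.cases_on y ?_ ?_
    · rw [S_one_V1, one_mul, mul_one]
    · intro y
      rw [← WithOne.coe_mul, S_coe_V1, S_coe_V1, S_coe_V1, ← WithOne.coe_mul, star_mul]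

theorem V_nil_V1 (A : InvSg) (e : ℕ → A.carrier) : V_V1 A e [] = 1 := rfl

theorem V_cons_V1 (A : InvSg) (e : ℕ → A.carrier) (a : Lt) (u : Wd) :
    V_V1 A e (a :: u) = ((evl A e a : A.carrier) : WithOne A.carrier) * V_V1 A e u := by
  simp [V_V1]

theorem V_append_V1 (A : InvSg) (e : ℕ → A.carrier) (u v : Wd) :
    V_V1 A e (u ++ v) = V_V1 A e u * V_V1 A e v := by
  simp [V_V1]

theorem evl_fl_V1 (A : InvSg) (e : ℕ → A.carrier) (a : Lt) : evl A e (fl a) = Star.star (evl A e a) := by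
  rcases a with ⟨i, b⟩
  cases b
  · simp [evl, fl]
  · simp [evl, fl]

theorem V_st_V1 (A : InvSg) (e : ℕ → A.carrier) (u : Wd) : V_V1 A e (st u) = S_V1 A (V_V1 A e u) := by
  induction u with
  | nil => rfl
  | cons a u ih =>
    rw [st_cons, V_append_V1, ih, V_cons_V1, V_cons_V1, V_nil_V1, mul_one, S_mul_V1, S_coe_V1, evl_fl_V1]

theorem evr_V1 (A : InvSg) (e : ℕ → A.carrier) (u : Wd) : ∀ b : A.carrier,
    ((evr A e b u : A.carrier) : WithOne A.carrier) = (b : WithOne A.carrier) * V_V1 A e u := by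
  induction u with
  | nil =>
    intro b
    rw [V_nil_V1, mul_one]
    rfl
  | cons a u ih =>
    intro b
    have h : evr A e b (a :: u) = evr A e (b * evl A e a) u := rfl
    rw [h, ih, V_cons_V1, WithOne.coe_mul, mul_assoc]

theorem V_evr_V1 (A : InvSg) (e : ℕ → A.carrier) (a : Lt) (u : Wd) :
    V_V1 A e (a :: u) = ((evr A e (evl A e a) u : A.carrier) : WithOne A.carrier) := by
  rw [evr_V1, V_cons_V1]

/-- `Id'` in terms of values in `WithOne`. -/
theorem Id_iff_V1 (K : Set InvSg) (u v : Wd) : Id' K u v ↔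
    ((u = [] ↔ v = []) ∧ ∀ A ∈ K, ∀ e : ℕ → A.carrier, V_V1 A e u = V_V1 A e v) := by
  constructor
  · rintro ⟨h1, h2⟩
    refine ⟨h1, fun A hA e => ?_⟩
    rcases u with _ | ⟨a, u'⟩
    · rw [h1.1 rfl]
    · rcases v with _ | ⟨b, v'⟩
      · exact absurd (h1.2 rfl) (by simp)
      · rw [V_evr_V1, V_evr_V1, h2 A hA e a b u' v' rfl rfl]
  · rintro ⟨h1, h2⟩
    refine ⟨h1, fun A hA e a b u' v' hu hv => ?_⟩
    have h := h2 A hA e
    rw [hu, hv, V_evr_V1, V_evr_V1] at h
    exact WithOne.coe_inj.1 h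

theorem V_ne_V1 (A : InvSg) (e : ℕ → A.carrier) (w : Wd) (hw : w ≠ []) :
    ∃ x : A.carrier, V_V1 A e w = (x : WithOne A.carrier) := by
  rcases w with _ | ⟨a, u⟩
  · exact absurd rfl hw
  · exact ⟨_, V_evr_V1 A e a u⟩

theorem V_sb_V1 (A : InvSg) (e : ℕ → A.carrier) (f : ℕ → Wd) (e' : ℕ → A.carrier)
    (he : ∀ i, V_V1 A e (f i) = (e' i : WithOne A.carrier)) (u : Wd) :
    V_V1 A e (sb f u) = V_V1 A e' u := by
  induction u with
  | nil => rfl
  | cons a u ih =>
    rw [sb_cons, V_append_V1, ih, V_cons_V1]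
    congr 1
    rcases a with ⟨i, b⟩
    cases b
    · simp only [Bool.false_eq_true, if_false]
      rw [he]
      simp [evl]
    · simp only [if_true]
      rw [V_st_V1, he, S_coe_V1]
      simp [evl]

/-- The congruence of a class. -/
def fic_V1 (K : Set InvSg) : FIC where
  r u v := (u = [] ↔ v = []) ∧ ∀ A ∈ K, ∀ e : ℕ → A.carrier, V_V1 A e u = V_V1 A e v
  refl' := fun u => ⟨Iff.rfl, fun _ _ _ => rfl⟩
  symm' := fun h => ⟨h.1.symm, fun A hA e => (h.2 A hA e).symm⟩
  trans' := fun h h' => ⟨h.1.trans h'.1, fun A hA e => (h.2 A hA e).trans (h'.2 A hA e)⟩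
  ne' := fun h hu => h.1.1 hu
  mul' := by
    intro u v a b h
    refine ⟨?_, fun A hA e => ?_⟩
    · simp only [List.append_eq_nil_iff, h.1]
    · rw [V_append_V1, V_append_V1, V_append_V1, V_append_V1, h.2 A hA e]
  star' := by
    intro u v h
    refine ⟨?_, fun A hA e => ?_⟩
    · rw [st_eq_nil, st_eq_nil]
      exact h.1
    · rw [V_st_V1, V_st_V1, h.2 A hA e]
  sub' := by
    intro u v f hf h
    refine ⟨?_, fun A hA e => ?_⟩
    · have key : ∀ w : Wd, sb f w = [] ↔ w = [] := fun w =>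
        ⟨fun hw => by
          by_contra hne
          exact sb_ne_nil f hf w hne hw, fun hw => by rw [hw]; rfl⟩
      rw [key, key]
      exact h.1
    · choose e' he using fun i => V_ne_V1 A e (f i) (hf i)
      rw [V_sb_V1 A e f e' he, V_sb_V1 A e f e' he, h.2 A hA e']

theorem wd_ne_V1 (t : Tm) : t.wd ≠ [] := by
  induction t with
  | var i => simp [Tm.wd]
  | mul s t ihs iht => simp [Tm.wd, ihs]
  | star s ih => simpa [Tm.wd] using ih

theorem eval_V1 (A : InvSg) (e : ℕ → A.carrier) (t : Tm) :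
    ((t.eval A e : A.carrier) : WithOne A.carrier) = V_V1 A e t.wd := by
  induction t with
  | var i =>
    change _ = V_V1 A e [(i, false)]
    rw [V_cons_V1, V_nil_V1, mul_one]
    simp [evl, Tm.eval]
  | mul s t ihs iht =>
    change _ = V_V1 A e (s.wd ++ t.wd)
    rw [V_append_V1, ← ihs, ← iht, ← WithOne.coe_mul]
    rfl
  | star s ih =>
    change _ = V_V1 A e (st s.wd)
    rw [V_st_V1, ← ih, S_coe_V1]
    rfl

theorem term_V1 (w : Wd) : w ≠ [] → ∃ t : Tm, t.wd = w := by
  induction w with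
  | nil => intro h; exact absurd rfl h
  | cons a w ih =>
    intro _
    have ha : ∃ t : Tm, t.wd = [a] := by
      rcases a with ⟨i, b⟩
      cases b
      · exact ⟨.var i, rfl⟩
      · exact ⟨.star (.var i), rfl⟩
    obtain ⟨t, ht⟩ := ha
    by_cases hw : w = []
    · exact ⟨t, by rw [ht, hw]⟩
    · obtain ⟨s, hs⟩ := ih hw
      refine ⟨.mul t s, ?_⟩
      change t.wd ++ s.wd = _
      rw [ht, hs]
      rfl

/-- MODULE V1. -/
theorem hV1 : StV1 := by
  refine ⟨fun K => ⟨fic_V1 K, fun u v => (Id_iff_V1 K u v).symm⟩, ?_, term_V1⟩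
  intro K s t
  rw [Id_iff_V1]
  constructor
  · intro h
    refine ⟨⟨fun hs => absurd hs (wd_ne_V1 s), fun ht => absurd ht (wd_ne_V1 t)⟩, fun A hA e => ?_⟩
    rw [← eval_V1, ← eval_V1]
    exact congrArg _ (h A hA e)
  · rintro ⟨-, h⟩ A hA e
    have h1 := h A hA e
    rw [← eval_V1, ← eval_V1] at h1
    exact WithOne.coe_inj.1 h1

end Helper1.IM
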