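import Pool.Agent.Helper1.IM.Var

/-!
# Project IM, module V2: completeness, the relatively free algebra `FA θ`
-/

set_option autoImplicit false

namespace Helper1.IM

/-- Nonempty words. -/
abbrev NW_V2 : Type := {w : Wd // w ≠ []}

/-- The congruence on nonempty words. -/
def setV2 (θ : FIC) : Setoid NW_V2 where
  r u v := θ.r u.1 v.1
  iseqv := ⟨fun u => θ.refl' u.1, fun h => θ.symm' h, fun h h' => θ.trans' h h'⟩

/-- Nonempty words modulo `θ`. -/
def QV2 (θ : FIC) : Type := Quotient (setV2 θ)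

/-- The class of a nonempty word. -/
def clV2 (θ : FIC) (w : Wd) (hw : w ≠ []) : QV2 θ := Quotient.mk (setV2 θ) ⟨w, hw⟩

theorem clV2_eq (θ : FIC) {u v : Wd} (hu : u ≠ []) (hv : v ≠ []) : clV2 θ u hu = clV2 θ v hv ↔ θ.r u v := by
  unfold clV2
  constructor
  · intro h
    exact Quotient.exact h
  · intro h
    exact Quotient.sound h

theorem clV2_congr (θ : FIC) {u v : Wd} (hu : u ≠ []) (hv : v ≠ []) (h : u = v) : clV2 θ u hu = clV2 θ v hv := by
  subst h; rfl

theorem clV2_ind (θ : FIC) {P : QV2 θ → Prop} (h : ∀ (w : Wd) (hw : w ≠ []), P (clV2 θ w hw)) (x : QV2 θ) : P x := by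
  refine Quotient.inductionOn x ?_
  rintro ⟨w, hw⟩
  exact h w hw

theorem app_ne_V2 {u v : Wd} (hu : u ≠ []) : u ++ v ≠ [] := by simp [hu]

theorem st_ne_V2 {u : Wd} (hu : u ≠ []) : st u ≠ [] := by simpa using hu

/-- Multiplication of classes. -/
def mulV2 (θ : FIC) : QV2 θ → QV2 θ → QV2 θ :=
  Quotient.map₂ (fun u v => ⟨u.1 ++ v.1, app_ne_V2 u.2⟩) (by
    intro u u' hu v v' hv
    exact θ.mul2 hu hv)

/-- Star of a class. -/
def starV2 (θ : FIC) : QV2 θ → QV2 θ :=
  Quotient.map (fun u => ⟨st u.1, st_ne_V2 u.2⟩) (by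
    intro u v h
    exact θ.star' h)

theorem mulV2_cl (θ : FIC) {u v : Wd} (hu : u ≠ []) (hv : v ≠ []) :
    mulV2 θ (clV2 θ u hu) (clV2 θ v hv) = clV2 θ (u ++ v) (app_ne_V2 hu) := rfl

theorem starV2_cl (θ : FIC) {u : Wd} (hu : u ≠ []) :
    starV2 θ (clV2 θ u hu) = clV2 θ (st u) (st_ne_V2 hu) := rfl

instance sgV2 (θ : FIC) : Semigroup (QV2 θ) where
  mul := mulV2 θ
  mul_assoc := by
    intro a b c
    induction a using clV2_ind with | _ u hu => ?_
    induction b using clV2_ind with | _ v hv => ?_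
    induction c using clV2_ind with | _ w hw => ?_
    change mulV2 θ (mulV2 θ _ _) _ = mulV2 θ _ (mulV2 θ _ _)
    rw [mulV2_cl, mulV2_cl, mulV2_cl, mulV2_cl]
    exact clV2_congr θ _ _ (List.append_assoc _ _ _)

instance smV2 (θ : FIC) : StarMul (QV2 θ) where
  star := starV2 θ
  star_involutive := by
    intro a
    induction a using clV2_ind with | _ u hu => ?_
    change starV2 θ (starV2 θ _) = _
    rw [starV2_cl, starV2_cl]
    exact clV2_congr θ _ _ (st_st u)
  star_mul := by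
    intro a b
    induction a using clV2_ind with | _ u hu => ?_
    induction b using clV2_ind with | _ v hv => ?_
    change starV2 θ (mulV2 θ _ _) = mulV2 θ (starV2 θ _) (starV2 θ _)
    rw [mulV2_cl, starV2_cl, starV2_cl, starV2_cl, mulV2_cl]
    exact clV2_congr θ _ _ (st_append u v)

instance neV2 (θ : FIC) : Nonempty (QV2 θ) := ⟨clV2 θ [(0, false)] (by simp)⟩

/-- The relatively free algebra: nonempty words modulo `θ`. -/
def FA (θ : FIC) : InvSg where
  carrier := QV2 θ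

/-- The class of a nonempty word in `FA θ`. -/
def clFA (θ : FIC) (w : Wd) (hw : w ≠ []) : (FA θ).carrier := clV2 θ w hw

theorem clFA_eq (θ : FIC) {u v : Wd} (hu : u ≠ []) (hv : v ≠ []) : clFA θ u hu = clFA θ v hv ↔ θ.r u v :=
  clV2_eq θ hu hv

theorem clFA_congr (θ : FIC) {u v : Wd} (hu : u ≠ []) (hv : v ≠ []) (h : u = v) : clFA θ u hu = clFA θ v hv :=
  clV2_congr θ hu hv h

theorem clFA_surj (θ : FIC) (x : (FA θ).carrier) : ∃ (w : Wd) (hw : w ≠ []), x = clFA θ w hw :=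
  clV2_ind θ (P := fun x => ∃ (w : Wd) (hw : w ≠ []), x = clV2 θ w hw) (fun w hw => ⟨w, hw, rfl⟩) x

theorem clFA_mul (θ : FIC) {u v : Wd} (hu : u ≠ []) (hv : v ≠ []) :
    clFA θ u hu * clFA θ v hv = clFA θ (u ++ v) (app_ne_V2 hu) := rfl

theorem clFA_star (θ : FIC) {u : Wd} (hu : u ≠ []) :
    Star.star (clFA θ u hu) = clFA θ (st u) (st_ne_V2 hu) := rfl

/-- Value of a letter in `FA θ`. -/
theorem evl_FA (θ : FIC) (f : ℕ → Wd) (hf : ∀ i, f i ≠ []) (a : Lt) :
    evl (FA θ) (fun i => clFA θ (f i) (hf i)) a = clFA θ (sb f [a]) (sb_ne_nil f hf [a] (by simp)) := by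
  rcases a with ⟨i, b⟩
  cases b
  · unfold evl
    simp only [Bool.false_eq_true, if_false]
    exact clFA_congr θ _ _ (by simp [sb_single])
  · unfold evl
    simp only [if_true]
    rw [clFA_star]
    exact clFA_congr θ _ _ (by simp [sb_single])

/-- Value of a word in `FA θ`, after a prefactor. -/
theorem evr_FA (θ : FIC) (f : ℕ → Wd) (hf : ∀ i, f i ≠ []) (w : Wd) : ∀ (b : Wd) (hb : b ≠ []),
    evr (FA θ) (fun i => clFA θ (f i) (hf i)) (clFA θ b hb) w = clFA θ (b ++ sb f w) (app_ne_V2 hb) := by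
  induction w with
  | nil =>
    intro b hb
    exact clFA_congr θ _ _ (by simp)
  | cons a w ih =>
    intro b hb
    have h1 : evr (FA θ) (fun i => clFA θ (f i) (hf i)) (clFA θ b hb) (a :: w) =
        evr (FA θ) (fun i => clFA θ (f i) (hf i))
          (clFA θ b hb * evl (FA θ) (fun i => clFA θ (f i) (hf i)) a) w := rfl
    rw [h1, evl_FA, clFA_mul, ih]
    refine clFA_congr θ _ _ ?_
    rw [List.append_assoc, ← sb_append]
    rfl

/-- Value of a nonempty word in `FA θ`. -/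
theorem ev_FA (θ : FIC) (f : ℕ → Wd) (hf : ∀ i, f i ≠ []) (a : Lt) (u : Wd) :
    evr (FA θ) (fun i => clFA θ (f i) (hf i)) (evl (FA θ) (fun i => clFA θ (f i) (hf i)) a) u =
      clFA θ (sb f (a :: u)) (sb_ne_nil f hf (a :: u) (by simp)) := by
  rw [evl_FA, evr_FA]
  refine clFA_congr θ _ _ ?_
  rw [← sb_append]
  rfl

/-- Every valuation in `FA θ` is given by nonempty words. -/
theorem val_FA (θ : FIC) (e : ℕ → (FA θ).carrier) :
    ∃ (f : ℕ → Wd) (hf : ∀ i, f i ≠ []), e = fun i => clFA θ (f i) (hf i) := by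
  choose f hf h using fun i => clFA_surj θ (e i)
  exact ⟨f, hf, funext h⟩

/-- `FA θ` is a member of the class of `θ`. -/
theorem FA_mem (θ : FIC) : FA θ ∈ Md θ := by
  intro u v huv
  refine ⟨⟨fun h => θ.ne' huv h, fun h => θ.ne' (θ.symm' huv) h⟩, ?_⟩
  intro A hA e a b u' v' hu hv
  have hA' : A = FA θ := hA
  subst hA'
  obtain ⟨f, hf, rfl⟩ := val_FA θ e
  rw [ev_FA, ev_FA, clFA_eq, ← hu, ← hv]
  exact θ.sub' f hf huv

/-- MODULE V2. Completeness. -/
theorem hV2 (_h : StV1) : StV2 := by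
  intro θ u v
  constructor
  · intro hid
    rcases u with _ | ⟨a, u'⟩
    · have hv : v = [] := hid.1.1 rfl
      rw [hv]
      exact θ.refl' _
    · rcases v with _ | ⟨b, v'⟩
      · exact absurd (hid.1.2 rfl) (by simp)
      · have hf : ∀ i : ℕ, ([(i, false)] : Wd) ≠ [] := fun i => by simp
        have h1 := hid.2 (FA θ) (FA_mem θ) (fun i => clFA θ [(i, false)] (hf i)) a b u' v' rfl rfl
        rw [ev_FA θ (fun i => [(i, false)]) hf, ev_FA θ (fun i => [(i, false)]) hf, clFA_eq, sb_id, sb_id] at h1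
        exact h1
  · intro hr
    refine ⟨⟨fun h => θ.ne' hr h, fun h => θ.ne' (θ.symm' hr) h⟩, ?_⟩
    intro A hA e a b u' v' hu hv
    exact (hA u v hr).2 A rfl e a b u' v' hu hv

end Helper1.IM
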