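import Pool.Agent.Helper1.IM.M_V1

/-!
# Project IM, module V3: varieties are the classes of congruences
-/

set_option autoImplicit false

namespace Helper1.IM

/-- MODULE V3. -/
theorem hV3 (h : StV1) : StV3 := by
  obtain ⟨h1, h2, h3⟩ := h
  constructor
  · intro θ
    refine ⟨{p | θ.r p.1.wd p.2.wd}, ?_⟩
    ext A
    constructor
    · rintro hA ⟨s, t⟩ hp
      exact (h2 {A} s t).2 (hA _ _ hp) A rfl
    · intro hA u v huv
      by_cases hu : u = []
      · have hv : v = [] := θ.ne' huv hu
        subst hu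
        subst hv
        refine ⟨Iff.rfl, ?_⟩
        intro B _ e a b u' v' hu' _
        exact absurd hu' (by simp)
      · have hv : v ≠ [] := θ.ne'' huv hu
        obtain ⟨s, rfl⟩ := h3 u hu
        obtain ⟨t, rfl⟩ := h3 v hv
        refine (h2 {A} s t).1 ?_
        intro B hB
        have hB' : B = A := hB
        rw [hB']
        exact hA (s, t) huv
  · rintro K ⟨E, rfl⟩
    obtain ⟨θ, hθ⟩ := h1 {A | ∀ p ∈ E, Sat1 A p}
    refine ⟨θ, ?_⟩
    ext A
    constructor
    · intro hA u v huv
      have h4 := (hθ u v).1 huv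
      refine ⟨h4.1, ?_⟩
      intro B hB
      have hB' : B = A := hB
      rw [hB']
      exact h4.2 A hA
    · rintro hA ⟨s, t⟩ hp
      have h4 : Id' {A | ∀ p ∈ E, Sat1 A p} s.wd t.wd := (h2 _ s t).1 (fun B hB => hB (s, t) hp)
      exact (h2 {A} s t).2 (hA _ _ ((hθ _ _).2 h4)) A rfl

end Helper1.IM
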