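import Pool.Agent.Helper1.IM.M_V1

/-!
# Project IM, module V4: lattice operations
-/

set_option autoImplicit false

namespace Helper1.IM

theorem jn_map_V4 (α β : FIC) (g : Wd → Wd) (ha : ∀ x y, α.r x y → α.r (g x) (g y))
    (hb : ∀ x y, β.r x y → β.r (g x) (g y)) {u v : Wd} (h : Jn α β u v) : Jn α β (g u) (g v) := by
  unfold Jn at h ⊢
  induction h with
  | refl => exact Relation.ReflTransGen.refl
  | tail _ hs ih => exact Relation.ReflTransGen.tail ih (hs.imp (ha _ _) (hb _ _))

theorem jn_symm_V4 (α β : FIC) {u v : Wd} (h : Jn α β u v) : Jn α β v u := by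
  unfold Jn at h ⊢
  induction h with
  | refl => exact Relation.ReflTransGen.refl
  | tail _ hs ih => exact Relation.ReflTransGen.head (hs.imp (fun h => α.symm' h) (fun h => β.symm' h)) ih

theorem jn_ne_V4 (α β : FIC) {u v : Wd} (h : Jn α β u v) (hu : u = []) : v = [] := by
  unfold Jn at h
  induction h with
  | refl => exact hu
  | tail _ hs ih => exact hs.elim (fun h => α.ne' h ih) (fun h => β.ne' h ih)

/-- The join of two fully invariant congruences. -/
def jnF_V4 (α β : FIC) : FIC where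
  r := Jn α β
  refl' := fun _ => Relation.ReflTransGen.refl
  symm' := fun h => jn_symm_V4 α β h
  trans' := fun h h' => Relation.ReflTransGen.trans h h'
  ne' := fun h hu => jn_ne_V4 α β h hu
  mul' := fun a b h => jn_map_V4 α β (fun w => a ++ w ++ b) (fun _ _ h => α.mul' a b h) (fun _ _ h => β.mul' a b h) h
  star' := fun h => jn_map_V4 α β st (fun _ _ h => α.star' h) (fun _ _ h => β.star' h) h
  sub' := fun f hf h => jn_map_V4 α β (sb f) (fun _ _ h => α.sub' f hf h) (fun _ _ h => β.sub' f hf h) h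

/-- The intersection of two fully invariant congruences. -/
def infF_V4 (α β : FIC) : FIC where
  r := fun u v => α.r u v ∧ β.r u v
  refl' := fun u => ⟨α.refl' u, β.refl' u⟩
  symm' := fun h => ⟨α.symm' h.1, β.symm' h.2⟩
  trans' := fun h h' => ⟨α.trans' h.1 h'.1, β.trans' h.2 h'.2⟩
  ne' := fun h hu => α.ne' h.1 hu
  mul' := fun a b h => ⟨α.mul' a b h.1, β.mul' a b h.2⟩
  star' := fun h => ⟨α.star' h.1, β.star' h.2⟩
  sub' := fun f hf h => ⟨α.sub' f hf h.1, β.sub' f hf h.2⟩

theorem sub_iff_V4 (h2 : StV2) (α β : FIC) : Md α ⊆ Md β ↔ Le β α := by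
  constructor
  · intro h u v huv
    have h4 := (h2 β u v).2 huv
    exact (h2 α u v).1 ⟨h4.1, fun A hA => h4.2 A (h hA)⟩
  · intro h A hA u v huv
    exact hA u v (h u v huv)

theorem jn_V4 (α β : FIC) : Md α ∩ Md β = Md (jnF_V4 α β) := by
  ext A
  constructor
  · rintro ⟨ha, hb⟩ u v huv
    rw [Id_iff_V1]
    change (fic_V1 {A}).r u v
    have h : Jn α β u v := huv
    induction h with
    | refl => exact (fic_V1 {A}).refl' _
    | tail _ hs ih =>
      refine (fic_V1 {A}).trans' (ih ?_) ?_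
      · assumption
      · rcases hs with hs | hs
        · exact (Id_iff_V1 {A} _ _).1 (ha _ _ hs)
        · exact (Id_iff_V1 {A} _ _).1 (hb _ _ hs)
  · intro h
    exact ⟨fun u v huv => h u v (Relation.ReflTransGen.single (Or.inl huv)),
      fun u v huv => h u v (Relation.ReflTransGen.single (Or.inr huv))⟩

/-- MODULE V4. -/
theorem hV4 (h2 : StV2) (h3 : StV3) : StV4 := by
  refine ⟨sub_iff_V4 h2, fun α β => ⟨jnF_V4 α β, fun _ _ => Iff.rfl, jn_V4 α β⟩,
    fun α β => ⟨infF_V4 α β, fun _ _ => Iff.rfl, ?_⟩⟩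
  apply Set.Subset.antisymm
  · apply Set.sInter_subset_of_mem
    exact ⟨h3.1 _, (sub_iff_V4 h2 _ _).2 (fun u v h => h.1), (sub_iff_V4 h2 _ _).2 (fun u v h => h.2)⟩
  · apply Set.subset_sInter
    rintro M ⟨hM, h4, h5⟩
    obtain ⟨ε, rfl⟩ := h3.2 M hM
    rw [sub_iff_V4 h2] at h4 h5 ⊢
    exact fun u v huv => ⟨h4 u v huv, h5 u v huv⟩

end Helper1.IM
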