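import Pool.Agent.Helper1.IM.M_V1
import Pool.Agent.Helper1.IM.M_V2

/-!
# Project IM, module V6: nil classes and the class `N7`
-/

set_option autoImplicit false

namespace Helper1.IM

theorem pow_V6 (θ : FIC) (n : ℕ) :
    (fun b => clFA θ [(0, false)] (by simp) * b)^[n] (clFA θ [(0, false)] (by simp)) =
      clFA θ (List.replicate (n + 1) (0, false)) (by simp) := by
  induction n with
  | zero => rfl
  | succ n ih =>
    rw [Function.iterate_succ_apply', ih]
    change clFA θ [(0, false)] (by simp) * clFA θ (List.replicate (n + 1) (0, false)) (by simp) = _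
    rw [clFA_mul]
    exact clFA_congr θ _ _ rfl

theorem nil_V6 (θ : FIC) (h : IsNil (Md θ)) : NilF θ := by
  obtain ⟨z, hz, hp⟩ := h (FA θ) (FA_mem θ)
  obtain ⟨n, hn⟩ := hp (clFA θ [(0, false)] (by simp))
  rw [pow_V6] at hn
  refine ⟨n, by simp, fun v => ?_⟩
  by_cases hv : v = []
  · subst hv
    exact ⟨by simpa using θ.refl' _, by simpa using θ.refl' _⟩
  · have h1 := hz (clFA θ v hv)
    rw [← hn] at h1
    rw [clFA_mul, clFA_mul, clFA_eq, clFA_eq] at h1
    exact h1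

/-- Zero elements are unique. -/
theorem zero_unique_V6 (A : InvSg) {z z' : A.carrier} (h : IsZero' A z) (h' : IsZero' A z') : z = z' := by
  rw [← (h z').1, (h' z).2]

theorem zmul_V6 (A : InvSg) {z : A.carrier} (h : IsZero' A z) (x : WithOne A.carrier) :
    ((z : A.carrier) : WithOne A.carrier) * x = z := by
  refine WithOne.cases_on x ?_ ?_
  · rw [mul_one]
  · intro x
    rw [← WithOne.coe_mul, (h x).1]

theorem long_V6 (A : InvSg) (hA : A ∈ N7) (e : ℕ → A.carrier) (w : Wd) (hw : 7 ≤ w.length) :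
    ∃ z : A.carrier, IsZero' A z ∧ V_V1 A e w = (z : WithOne A.carrier) := by
  rcases w with _ | ⟨a1, w⟩
  · simp at hw
  rcases w with _ | ⟨a2, w⟩
  · simp at hw
  rcases w with _ | ⟨a3, w⟩
  · simp at hw
  rcases w with _ | ⟨a4, w⟩
  · simp at hw
  rcases w with _ | ⟨a5, w⟩
  · simp at hw
  rcases w with _ | ⟨a6, w⟩
  · simp at hw
  rcases w with _ | ⟨a7, w⟩
  · simp at hw
  have hz := hA (evl A e a1) (evl A e a2) (evl A e a3) (evl A e a4) (evl A e a5) (evl A e a6) (evl A e a7)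
  refine ⟨_, hz, ?_⟩
  have h1 : V_V1 A e (a1 :: a2 :: a3 :: a4 :: a5 :: a6 :: a7 :: w) =
      ((evl A e a1 * evl A e a2 * evl A e a3 * evl A e a4 * evl A e a5 * evl A e a6 * evl A e a7 : A.carrier) :
        WithOne A.carrier) * V_V1 A e w := by
    simp only [V_cons_V1, WithOne.coe_mul, mul_assoc]
  rw [h1, zmul_V6 A hz]

/-- `Md θ ∩ N7`. -/
theorem md_V6 (θ θ' : FIC) (h1 : ∀ u v, θ'.r u v ↔ θ.r u v ∨ (sat 7 θ u ∧ sat 7 θ v)) (h2 : Le θ θ') (h3 : Col 7 θ') :
    Md θ ∩ N7 = Md θ' := by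
  ext A
  constructor
  · rintro ⟨hA, hN⟩ u v huv
    rcases (h1 u v).1 huv with h | ⟨⟨w, hw, hwl⟩, ⟨w', hw', hwl'⟩⟩
    · exact hA u v h
    · rw [Id_iff_V1]
      refine ⟨⟨fun h => θ'.ne' huv h, fun h => θ'.ne' (θ'.symm' huv) h⟩, ?_⟩
      intro B hB e
      have hB' : B = A := hB
      subst hB'
      have e1 := ((Id_iff_V1 _ _ _).1 (hA u w hw)).2 B rfl e
      have e2 := ((Id_iff_V1 _ _ _).1 (hA v w' hw')).2 B rfl e
      obtain ⟨z, hz, hzw⟩ := long_V6 B hN e w hwl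
      obtain ⟨z', hz', hzw'⟩ := long_V6 B hN e w' hwl'
      rw [e1, e2, hzw, hzw', zero_unique_V6 B hz hz']
  · intro hA
    refine ⟨fun u v h => hA u v (h2 u v h), ?_⟩
    intro a1 a2 a3 a4 a5 a6 a7 a
    have hr := h3 [(1, false), (2, false), (3, false), (4, false), (5, false), (6, false), (7, false), (8, false)]
      [(1, false), (2, false), (3, false), (4, false), (5, false), (6, false), (7, false)] (by simp) (by simp)
    have hl := h3 [(8, false), (1, false), (2, false), (3, false), (4, false), (5, false), (6, false), (7, false)]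
      [(1, false), (2, false), (3, false), (4, false), (5, false), (6, false), (7, false)] (by simp) (by simp)
    let e : ℕ → A.carrier := fun i => match i with
      | 1 => a1
      | 2 => a2
      | 3 => a3
      | 4 => a4
      | 5 => a5
      | 6 => a6
      | 7 => a7
      | _ => a
    have h4 := (hA _ _ hr).2 A rfl e _ _ _ _ rfl rfl
    have h5 := (hA _ _ hl).2 A rfl e _ _ _ _ rfl rfl
    refine ⟨h4, ?_⟩
    have h6 : a * a1 * a2 * a3 * a4 * a5 * a6 * a7 = a1 * a2 * a3 * a4 * a5 * a6 * a7 := h5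
    have h7 : a * (a1 * a2 * a3 * a4 * a5 * a6 * a7) = a * a1 * a2 * a3 * a4 * a5 * a6 * a7 := by
      simp only [mul_assoc]
    rw [h7]
    exact h6

theorem le_V6 (θ θ' α : FIC) (h1 : ∀ u v, θ'.r u v ↔ θ.r u v ∨ (sat 7 θ u ∧ sat 7 θ v)) (h2 : Le θ θ') (h3 : Col 7 θ') :
    Le θ' α ↔ Le θ α ∧ Col 7 α := by
  constructor
  · intro h
    exact ⟨fun u v huv => h u v (h2 u v huv), fun u v hu hv => h u v (h3 u v hu hv)⟩
  · rintro ⟨ha, hc⟩ u v huv
    rcases (h1 u v).1 huv with h | ⟨⟨w, hw, hwl⟩, ⟨w', hw', hwl'⟩⟩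
    · exact ha u v h
    · exact α.trans' (ha u w hw) (α.trans' (hc w w' hwl hwl') (α.symm' (ha v w' hw')))

/-- MODULE V6. -/
theorem hV6 (_h1 : StV1) (_h2 : StV2) (_h3 : StV3) (_h4 : StV4) (hS : StSat) : StV6 := by
  refine ⟨fun θ h => nil_V6 θ h, fun θ => ?_⟩
  obtain ⟨θ', k1, k2, k3⟩ := hS 7 θ (by norm_num)
  refine ⟨θ', md_V6 θ θ' k1 k2 k3, ?_⟩
  have key : ∀ α : FIC, Le θ' α ↔ Le θ α ∧ Col 7 α := fun α => le_V6 θ θ' α k1 k2 k3
  constructor
  · intro h α β γ ha hb hc ca cb cc hac u v hj hg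
    exact h α β γ ((key α).2 ⟨ha, ca⟩) ((key β).2 ⟨hb, cb⟩) ((key γ).2 ⟨hc, cc⟩) hac u v hj hg
  · intro h α β γ ha hb hc hac u v hj hg
    obtain ⟨ha1, ha2⟩ := (key α).1 ha
    obtain ⟨hb1, hb2⟩ := (key β).1 hb
    obtain ⟨hc1, hc2⟩ := (key γ).1 hc
    exact h α β γ ha1 hb1 hc1 ha2 hb2 hc2 hac u v hj hg

end Helper1.IM
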