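import Pool.Agent.Helper1.IM.St3

set_option autoImplicit false

namespace Helper1.IM

/-- a nonlinear word has more letters than its content -/
theorem card_lt_XD {u : Wd} (h : ¬ Lin u) : (ct u).card < u.length := by
  rw [lin_iff] at h
  push Not at h
  obtain ⟨i, hi⟩ := h
  rw [length_eq_sum u, Finset.card_eq_sum_ones]
  apply Finset.sum_lt_sum
  · intro j hj
    have := oc_pos.2 hj
    omega
  · exact ⟨i, oc_pos.1 (by omega), by omega⟩

theorem hXD : StXD := by
  intro α hn hT u w hr hlt h7 hL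
  by_contra hz
  have hc := ct_eq_of hn hr hz
  have hzw : ¬ Zero α w := fun h => hz (h.of_r (α.symm' hr))
  have h1 := card_lt_XD hL
  have hLw : ¬ Lin w := not_lin_of_card (by rw [← hc]; omega)
  obtain ⟨i, hi, hj⟩ := hT.d1 w h7 hLw hzw
  have h2 : w.length ≤ (ct w).card + 1 := by
    have hmem : i ∈ ct w := oc_pos.1 (by omega)
    rw [length_eq_sum w, ← Finset.add_sum_erase _ _ hmem, hi]
    have h3 : ∑ j ∈ (ct w).erase i, oc j w ≤ ∑ j ∈ (ct w).erase i, 1 :=
      Finset.sum_le_sum (fun j hj' => hj j (Finset.ne_of_mem_erase hj'))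
    rw [← Finset.card_eq_sum_ones, Finset.card_erase_of_mem hmem] at h3
    have h4 : 0 < (ct w).card := Finset.card_pos.2 ⟨i, hmem⟩
    omega
  rw [← hc] at h2
  omega

end Helper1.IM
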