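import Pool.Agent.Helper1.IM.St3

set_option autoImplicit false

namespace Helper1.IM

private theorem card_of_not_lin_XE {u : Wd} (h : ¬ Lin u) : (ct u).card < u.length := by
  rcases lt_or_eq_of_le (card_ct_le u) with h1 | h1
  · exact h1
  · exfalso
    apply h
    unfold Lin
    have h2 : (u.map Prod.fst).toFinset.card = (u.map Prod.fst).length := by
      simpa [ct] using h1
    have h3 := Multiset.toFinset_card_eq_card_iff_nodup (m := ((u.map Prod.fst : List ℕ) : Multiset ℕ))
    exact Multiset.coe_nodup.1 (h3.1 (by simpa using h2))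

/-- With exactly one letter `i` occurring more than once, the length is `card - 1` plus its multiplicity. -/
private theorem length_one_XE {u : Wd} {i : ℕ} (hi : 1 ≤ oc i u) (hj : ∀ j, j ≠ i → oc j u ≤ 1) :
    u.length + 1 = (ct u).card + oc i u := by
  classical
  have him : i ∈ ct u := oc_pos.1 (by omega)
  have h1 := length_eq_sum u
  rw [← Finset.add_sum_erase _ _ him] at h1
  have h2 : ∑ j ∈ (ct u).erase i, oc j u = ∑ j ∈ (ct u).erase i, 1 := by
    apply Finset.sum_congr rfl
    intro j hj'
    have h3 := Finset.mem_erase.1 hj'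
    have h4 := hj j h3.1
    have h5 : 0 < oc j u := oc_pos.2 h3.2
    omega
  rw [h2] at h1
  simp only [Finset.sum_const, smul_eq_mul, mul_one, Finset.card_erase_of_mem him] at h1
  have h6 : 0 < (ct u).card := Finset.card_pos.2 ⟨i, him⟩
  omega

private theorem oc_count_XE (i : ℕ) (u : Wd) : oc i u = u.count (i, false) + u.count (i, true) := by
  induction u with
  | nil => simp
  | cons a u ih =>
    rw [oc_cons, ih, List.count_cons, List.count_cons]
    rcases a with ⟨k, b⟩
    by_cases h : k = i
    · subst h
      cases b <;> simp <;> omega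
    · simp [h]

/-- A letter occurring once has exactly one sign. -/
private theorem sign_XE {i : ℕ} {u : Wd} (h : oc i u = 1) : ((i, true) ∈ u ↔ ¬ (i, false) ∈ u) := by
  rw [oc_count_XE] at h
  have h1 : (i, true) ∈ u ↔ 0 < u.count (i, true) := List.count_pos_iff.symm
  have h2 : (i, false) ∈ u ↔ 0 < u.count (i, false) := List.count_pos_iff.symm
  rw [h1, h2]
  omega

private theorem mem_rw_XE (p : Equiv.Perm ℕ) (e : ℕ → Bool) (k : ℕ) (u : Wd) :
    (p k, false) ∈ rw' p e u ↔ (k, e k) ∈ u := by
  unfold rw'
  rw [List.mem_map]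
  constructor
  · rintro ⟨⟨j, b⟩, hm, heq⟩
    simp only [Prod.mk.injEq] at heq
    obtain ⟨h1, h2⟩ := heq
    have h3 : j = k := p.injective h1
    subst h3
    have h4 : b = e j := by
      revert h2
      cases b <;> cases e j <;> simp
    rw [← h4]
    exact hm
  · intro hm
    exact ⟨(k, e k), hm, by simp⟩

theorem hXE : StXE := by
  classical
  intro α hn hE u w huw hlt hw7 hul
  by_contra hz
  have hwz : ¬ Zero α w := fun h => hz (h.of_r (α.symm' huw))
  have hct : ct u = ct w := ct_eq_of hn huw hz
  have hcu := card_of_not_lin_XE hul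
  have hwl : ¬ Lin w := not_lin_of_card (by rw [← hct]; omega)
  obtain ⟨i0, h02, h03, h0j⟩ := hE.e1 w (by omega) hwl hwz
  have hlw := length_one_XE (u := w) (i := i0) (by omega) h0j
  rw [← hct] at hlw
  obtain ⟨i1, h12, h13, h1j⟩ := hE.e1 u (by omega) hul hz
  have hlu := length_one_XE (u := u) (i := i1) (by omega) h1j
  have hi0 : oc i0 w = 3 := by omega
  have hi1 : oc i1 u = 2 := by omega
  -- the letter
  have him : i0 ∈ ct w := oc_pos.1 (by omega)
  obtain ⟨b, hb⟩ := mem_ct.1 him
  set l : Lt := (i0, b) with hl
  have hperm : w.Perm (w.erase l ++ [l]) :=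
    (List.perm_cons_erase hb).trans (by simpa using (List.perm_append_comm (l₁ := [l]) (l₂ := w.erase l)))
  set v : Wd := w.erase l with hv
  have hocv : ∀ j, oc j w = oc j v + (if i0 = j then 1 else 0) := by
    intro j
    have h1 : oc j w = oc j (v ++ [l]) := oc_perm (hperm.map _) j
    rw [h1, oc_append, oc_cons, oc_nil]
    simp [hl]
  -- the renaming
  set p : Equiv.Perm ℕ := Equiv.swap i0 i1 with hp
  set e : ℕ → Bool := fun k => if (p k, false) ∈ v then decide ((k, true) ∈ u) else !decide ((k, true) ∈ u) with he
  have hpp : ∀ k, p (p k) = k := fun k => by simp [hp]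
  have hocg : ∀ j, oc j (rw' p e u) = oc (p j) u := by
    intro j
    have h1 := oc_rw' p e (p j) u
    rwa [hpp] at h1
  have hmem : ∀ j, 0 < oc j u ↔ 0 < oc j w := by
    intro j
    rw [oc_pos, oc_pos, hct]
  have hocs : ∀ j, oc j (rw' p e u) = oc j v := by
    intro j
    rw [hocg]
    have h1 := hocv j
    by_cases hj0 : j = i0
    · subst hj0
      have h2 : p j = i1 := by simp [hp]
      rw [h2]
      simp at h1
      omega
    · rw [if_neg (Ne.symm hj0)] at h1
      by_cases hj1 : j = i1
      · subst hj1
        have h2 : p j = i0 := by simp [hp]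
        rw [h2]
        have h3 := h1j i0 (Ne.symm hj0)
        have h4 := h0j j hj0
        have h5 := (hmem j).1 (by omega)
        have h6 := (hmem i0).2 (by omega)
        omega
      · have h2 : p j = j := by
          rw [hp]
          exact Equiv.swap_apply_of_ne_of_ne hj0 hj1
        rw [h2]
        have h3 := h1j j hj1
        have h4 := h0j j hj0
        have h5 := hmem j
        omega
  have hsim : Sim (rw' p e u) v := by
    refine ⟨perm_iff_oc.2 hocs, fun i hi => ?_⟩
    have h1 : oc (p i) u = 1 := by rw [← hocg]; exact hi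
    have h2 := mem_rw_XE p e (p i) u
    rw [hpp] at h2
    rw [h2]
    have h3 := sign_XE h1
    have h4 : e (p i) = if (i, false) ∈ v then decide ((p i, true) ∈ u) else !decide ((p i, true) ∈ u) := by
      simp only [he, hpp]
    rw [h4]
    by_cases hv1 : (i, false) ∈ v
    · rw [if_pos hv1]
      simp only [hv1, iff_true]
      by_cases ht : (p i, true) ∈ u
      · simp [ht]
      · have h5 : (p i, false) ∈ u := by
          by_contra h5
          exact ht (h3.2 h5)
        simp [ht, h5]
    · rw [if_neg hv1]
      simp only [hv1, iff_false]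
      by_cases ht : (p i, true) ∈ u
      · have h5 := h3.1 ht
        simp [ht, h5]
      · simp [ht]
  have hgr : α.r (rw' p e u) v := by
    refine hE.hs _ _ ?_ ?_ hsim
    · rw [rw'_length]; omega
    · rw [lin_rw']; exact hul
  have hwv : α.r w (v ++ [l]) := by
    refine hE.hs _ _ (by omega) hwl ⟨hperm.map _, fun i _ => ?_⟩
    exact hperm.mem_iff
  have hfin : α.r u ([] ++ rw' p e u ++ [l]) := by
    refine α.trans' huw (α.trans' hwv ?_)
    simpa using α.mulR [l] (α.symm' hgr)
  exact hz (grow hn p e hfin (by simp))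

end Helper1.IM
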