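import Pool.Agent.Helper1.IM.St3

/-!
# Project IM, module XR: type R, related words of different lengths
-/

set_option autoImplicit false

namespace Helper1.IM

/-- Selection of a subword with prescribed multiplicities. -/
theorem sel_XR (w : Wd) : ∀ k : ℕ → ℕ, (∀ i, k i ≤ oc i w) →
    ∃ u' r : Wd, w.Perm (u' ++ r) ∧ ∀ i, oc i u' = k i := by
  induction w with
  | nil =>
    intro k hk
    refine ⟨[], [], by simp, fun i => ?_⟩
    have := hk i
    simp at this ⊢
    omega
  | cons a w ih =>
    intro k hk
    by_cases h0 : k a.1 = 0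
    · obtain ⟨u', r, h1, h2⟩ := ih k (fun i => by
        have := hk i
        rw [oc_cons] at this
        by_cases hi : a.1 = i
        · subst hi; omega
        · simp [hi] at this; exact this)
      refine ⟨u', a :: r, ?_, h2⟩
      exact (List.Perm.cons a h1).trans List.perm_middle.symm
    · obtain ⟨u', r, h1, h2⟩ := ih (Function.update k a.1 (k a.1 - 1)) (fun i => by
        have := hk i
        rw [oc_cons] at this
        by_cases hi : a.1 = i
        · subst hi
          rw [Function.update_self]
          simp at this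
          omega
        · rw [Function.update_of_ne (fun h => hi h.symm)]
          simp [hi] at this; exact this)
      refine ⟨a :: u', r, ?_, fun i => ?_⟩
      · rw [List.cons_append]; exact List.Perm.cons a h1
      · rw [oc_cons, h2 i]
        by_cases hi : a.1 = i
        · subst hi
          rw [Function.update_self]
          simp
          omega
        · rw [Function.update_of_ne (fun h => hi h.symm)]
          simp [hi]

/-- Number of occurrences as a sum over the signs. -/
theorem oc_eq_XR (i : ℕ) (u : Wd) : oc i u = u.count (i, false) + u.count (i, true) := by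
  induction u with
  | nil => simp
  | cons a u ih =>
    rw [oc_cons, List.count_cons, List.count_cons, ih]
    rcases a with ⟨j, b⟩
    by_cases hj : j = i
    · subst hj
      cases b <;> simp <;> omega
    · cases b <;> simp [hj]

/-- A letter which occurs once has exactly one sign. -/
theorem sign_XR {i : ℕ} {u : Wd} (h : oc i u = 1) : (i, true) ∈ u ↔ ¬ (i, false) ∈ u := by
  rw [oc_eq_XR] at h
  rw [← List.count_pos_iff, ← List.count_pos_iff]
  omega

/-- A permutation of the letters preserving `C` and mapping `A` onto `B`. -/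
theorem perm_XR {A B C : Finset ℕ} (hA : A ⊆ C) (hB : B ⊆ C) (hc : A.card = B.card) :
    ∃ p : Equiv.Perm ℕ, (∀ i, i ∈ C ↔ p i ∈ C) ∧ ∀ i, i ∈ A ↔ p i ∈ B := by
  classical
  let e1 : A ≃ B := Finset.equivOfCardEq hc
  have hc2 : (C \ A).card = (C \ B).card := by
    rw [Finset.card_sdiff_of_subset hA, Finset.card_sdiff_of_subset hB, hc]
  let e2 : (C \ A : Finset ℕ) ≃ (C \ B : Finset ℕ) := Finset.equivOfCardEq hc2
  let q : ℕ → ℕ := fun i => if h : i ∈ A then (e1 ⟨i, h⟩ : ℕ) else if h : i ∈ C \ A then (e2 ⟨i, h⟩ : ℕ) else i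
  have q1 : ∀ i (h : i ∈ A), q i = e1 ⟨i, h⟩ := fun i h => by simp [q, h]
  have q2 : ∀ i (h : i ∈ C \ A), q i = e2 ⟨i, h⟩ := fun i h => by
    have h' := (Finset.mem_sdiff.1 h)
    simp [q, h'.1, h'.2]
  have m1 : ∀ i, i ∈ A → q i ∈ B := fun i h => by rw [q1 i h]; exact (e1 ⟨i, h⟩).2
  have m2 : ∀ i, i ∈ C \ A → q i ∈ C \ B := fun i h => by rw [q2 i h]; exact (e2 ⟨i, h⟩).2
  have hinj : Set.InjOn q (C : Set ℕ) := by
    intro i hi j hj hij
    have hi' : i ∈ C := hi
    have hj' : j ∈ C := hj
    by_cases hiA : i ∈ A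
    · by_cases hjA : j ∈ A
      · rw [q1 i hiA, q1 j hjA] at hij
        have := e1.injective (Subtype.ext hij)
        exact congrArg Subtype.val this
      · have h1 := m1 i hiA
        have h2 := m2 j (Finset.mem_sdiff.2 ⟨hj', hjA⟩)
        rw [hij] at h1
        exact absurd h1 (Finset.mem_sdiff.1 h2).2
    · by_cases hjA : j ∈ A
      · have h1 := m1 j hjA
        have h2 := m2 i (Finset.mem_sdiff.2 ⟨hi', hiA⟩)
        rw [← hij] at h1
        exact absurd h1 (Finset.mem_sdiff.1 h2).2
      · have h1 : i ∈ C \ A := Finset.mem_sdiff.2 ⟨hi', hiA⟩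
        have h2 : j ∈ C \ A := Finset.mem_sdiff.2 ⟨hj', hjA⟩
        rw [q2 i h1, q2 j h2] at hij
        have := e2.injective (Subtype.ext hij)
        exact congrArg Subtype.val this
  obtain ⟨p, hp⟩ := exists_perm_extend C q hinj
  have hmaps : ∀ i ∈ C, p i ∈ C := fun i hi => by
    rw [hp i hi]
    by_cases hiA : i ∈ A
    · exact hB (m1 i hiA)
    · exact (Finset.mem_sdiff.1 (m2 i (Finset.mem_sdiff.2 ⟨hi, hiA⟩))).1
  have himg : C.image p = C := by
    apply Finset.eq_of_subset_of_card_le
    · intro j hj
      obtain ⟨i, hi, rfl⟩ := Finset.mem_image.1 hj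
      exact hmaps i hi
    · rw [Finset.card_image_of_injective _ p.injective]
  have hC : ∀ i, i ∈ C ↔ p i ∈ C := fun i => by
    refine ⟨hmaps i, fun h => ?_⟩
    rw [← himg] at h
    obtain ⟨j, hj, hji⟩ := Finset.mem_image.1 h
    exact p.injective hji ▸ hj
  refine ⟨p, hC, fun i => ⟨fun h => ?_, fun h => ?_⟩⟩
  · rw [hp i (hA h)]; exact m1 i h
  · have hi : i ∈ C := (hC i).2 (hB h)
    by_contra hiA
    have := m2 i (Finset.mem_sdiff.2 ⟨hi, hiA⟩)
    rw [← hp i hi] at this
    exact (Finset.mem_sdiff.1 this).2 h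

/-- Length of a word with multiplicities at most two. -/
theorem len_XR {u : Wd} (h : ∀ i, oc i u ≤ 2) :
    u.length = (ct u).card + ((ct u).filter (fun i => 2 ≤ oc i u)).card := by
  rw [length_eq_sum, Finset.card_filter, Finset.card_eq_sum_ones, ← Finset.sum_add_distrib]
  apply Finset.sum_congr rfl
  intro i hi
  have h1 := oc_pos.2 hi
  have h2 := h i
  split_ifs with h3
  · omega
  · omega

/-- The length is at least the number of letters plus the additional occurrences of one letter. -/
theorem lge_XR {u : Wd} {i : ℕ} (hi : i ∈ ct u) : oc i u + (ct u).card ≤ u.length + 1 := by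
  have h1 := length_eq_sum u
  rw [← Finset.add_sum_erase _ _ hi] at h1
  have h2 : ((ct u).erase i).card ≤ ∑ j ∈ (ct u).erase i, oc j u := by
    rw [Finset.card_eq_sum_ones]
    apply Finset.sum_le_sum
    intro j hj
    exact oc_pos.2 (Finset.mem_of_mem_erase hj)
  rw [Finset.card_erase_of_mem hi] at h2
  have h3 := Finset.card_pos.2 ⟨i, hi⟩
  omega

/-- MODULE XR. -/
theorem hXR : StXR := by
  classical
  intro α hN hR u w hr hlt h7 hnl
  by_contra hz
  have hcw : ct u = ct w := ct_eq_of hN hr hz
  have hzw : ¬ Zero α w := fun h => hz (h.of_r (α.symm' hr))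
  -- lengths
  have hun : (ct u).card + 1 ≤ u.length := by
    rw [lin_iff] at hnl
    push Not at hnl
    obtain ⟨i, hi⟩ := hnl
    have h1 := lge_XR (oc_pos.1 (show 0 < oc i u by omega))
    omega
  have hnlw : ¬ Lin w := not_lin_of_card (by rw [← hcw]; omega)
  have hw2 : ∀ i, oc i w ≤ 2 := fun i => by
    by_contra hi
    exact hzw (hR.r1 w (by omega) ⟨i, by omega⟩)
  have hwl := len_XR hw2
  have hn4 : 4 ≤ (ct u).card := by
    have h1 : ((ct w).filter (fun i => 2 ≤ oc i w)).card ≤ (ct w).card := Finset.card_filter_le _ _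
    rw [hcw]; omega
  have hu2 : ∀ i, oc i u ≤ 2 := fun i => by
    by_contra hi
    by_cases h6 : 6 ≤ u.length
    · exact hz (hR.r1 u h6 ⟨i, by omega⟩)
    · have hic : i ∈ ct u := oc_pos.1 (by omega)
      have h1 := lge_XR hic
      omega
  have hul := len_XR hu2
  -- choice of the letters
  have hle : ((ct u).filter (fun i => 2 ≤ oc i u)).card ≤ ((ct w).filter (fun i => 2 ≤ oc i w)).card := by
    rw [hcw] at hul ⊢
    omega
  obtain ⟨T, hT, hTc⟩ := Finset.exists_subset_card_eq hle
  have hTC : T ⊆ ct u := by rw [hcw]; exact hT.trans (Finset.filter_subset _ _)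
  obtain ⟨p, hpC, hpA⟩ := perm_XR (Finset.filter_subset (fun i => 2 ≤ oc i u) (ct u)) hTC hTc.symm
  obtain ⟨u', r, hperm, hoc⟩ := sel_XR w (fun j => if j ∈ T then 2 else if j ∈ ct u then 1 else 0) (fun j => by
    split_ifs with h1 h2
    · exact (Finset.mem_filter.1 (hT h1)).2
    · rw [hcw] at h2; exact oc_pos.2 h2
    · exact Nat.zero_le _)
  set e : ℕ → Bool := fun i => if ((i, false) ∈ u ↔ (p i, false) ∈ u') then false else true with he
  have hpm : ((rw' p e u).map Prod.fst).Perm (u'.map Prod.fst) := by
    rw [perm_iff_oc]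
    intro j
    obtain ⟨i, rfl⟩ := p.surjective j
    rw [oc_rw', hoc]
    have h1 := hpC i
    have h2 := hpA i
    rw [Finset.mem_filter] at h2
    have h3 := hu2 i
    by_cases hi : p i ∈ T
    · have h4 := (h2.2 hi).2
      simp only [hi, if_true]
      omega
    · simp only [hi, if_false]
      by_cases hi2 : p i ∈ ct u
      · have h5 : i ∈ ct u := h1.2 hi2
        have h6 : ¬ 2 ≤ oc i u := fun h => hi (h2.1 ⟨h5, h⟩)
        have h7 := oc_pos.2 h5
        simp only [hi2, if_true]
        omega
      · have h5 : i ∉ ct u := fun h => hi2 (h1.1 h)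
        simp only [hi2, if_false]
        exact oc_eq_zero.2 h5
  have hmem : ∀ i, (p i, false) ∈ rw' p e u ↔ (i, e i) ∈ u := fun i => by
    simp only [rw', List.mem_map]
    constructor
    · rintro ⟨⟨j, b⟩, hjb, hEq⟩
      simp only [Prod.mk.injEq] at hEq
      have hji : j = i := p.injective hEq.1
      subst hji
      have hb : b = e j := by
        have h8 := hEq.2
        clear_value e
        revert h8
        generalize e j = c
        cases b <;> cases c <;> simp
      rw [← hb]; exact hjb
    · intro h
      refine ⟨(i, e i), h, ?_⟩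
      simp
  have hSim : Sim (rw' p e u) u' := by
    refine ⟨hpm, fun j hj => ?_⟩
    obtain ⟨i, rfl⟩ := p.surjective j
    rw [oc_rw'] at hj
    have h1 := sign_XR hj
    rw [hmem]
    by_cases hc : ((i, false) ∈ u ↔ (p i, false) ∈ u')
    · have : e i = false := by simp only [he]; rw [if_pos hc]
      rw [this]; exact hc
    · have : e i = true := by simp only [he]; rw [if_neg hc]
      rw [this, h1]
      tauto
  have hzu' : ¬ Zero α u' := fun h => hzw ((h.mulR r).of_r (α.symm' (hR.r0 w (u' ++ r) (by omega) hnlw hperm)))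
  have h1 : α.r (rw' p e u) u' := hR.r2 (rw' p e u) u' (by rw [rw'_length]; omega) (fun h => hnl (lin_rw'.1 h))
    (fun h => hz ((Zero.rw'_iff p e).1 h)) hzu' hSim
  have h2 : α.r w (u' ++ r) := hR.r0 w (u' ++ r) (by omega) hnlw hperm
  have h3 : α.r u (rw' p e u ++ r) := α.trans' hr (α.trans' h2 (α.mulR r (α.symm' h1)))
  have hlu : u'.length = u.length := by
    have := hpm.length_eq
    rw [List.length_map, List.length_map, rw'_length] at this
    exact this.symm
  have hrne : r ≠ [] := fun h => by
    subst h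
    have := hperm.length_eq
    rw [List.append_nil] at this
    omega
  exact hz (grow hN (a := []) (b := r) p e (by simpa using h3) (by simpa using hrne))

end Helper1.IM
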