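import Pool.Agent.Helper1.IM.M_C
import Pool.Agent.Helper1.IM.M_C1
import Pool.Agent.Helper1.IM.M_C10
import Pool.Agent.Helper1.IM.M_C11
import Pool.Agent.Helper1.IM.M_C2
import Pool.Agent.Helper1.IM.M_C3
import Pool.Agent.Helper1.IM.M_C4m
import Pool.Agent.Helper1.IM.M_C5
import Pool.Agent.Helper1.IM.M_C6
import Pool.Agent.Helper1.IM.M_C7
import Pool.Agent.Helper1.IM.M_C8
import Pool.Agent.Helper1.IM.M_C9
import Pool.Agent.Helper1.IM.M_F2
import Pool.Agent.Helper1.IM.M_FL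
import Pool.Agent.Helper1.IM.M_G
import Pool.Agent.Helper1.IM.M_G1
import Pool.Agent.Helper1.IM.M_G2
import Pool.Agent.Helper1.IM.M_G3a
import Pool.Agent.Helper1.IM.M_G3b
import Pool.Agent.Helper1.IM.M_G3c
import Pool.Agent.Helper1.IM.M_G4
import Pool.Agent.Helper1.IM.M_G5
import Pool.Agent.Helper1.IM.M_G6
import Pool.Agent.Helper1.IM.M_G7
import Pool.Agent.Helper1.IM.M_Glue
import Pool.Agent.Helper1.IM.M_H
import Pool.Agent.Helper1.IM.M_H0
import Pool.Agent.Helper1.IM.M_H1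
import Pool.Agent.Helper1.IM.M_H2
import Pool.Agent.Helper1.IM.M_H3
import Pool.Agent.Helper1.IM.M_H4
import Pool.Agent.Helper1.IM.M_H5
import Pool.Agent.Helper1.IM.M_H6
import Pool.Agent.Helper1.IM.M_HX
import Pool.Agent.Helper1.IM.M_Inh
import Pool.Agent.Helper1.IM.M_Lev
import Pool.Agent.Helper1.IM.M_Lin
import Pool.Agent.Helper1.IM.M_Lin1
import Pool.Agent.Helper1.IM.M_Lin2
import Pool.Agent.Helper1.IM.M_Lin3
import Pool.Agent.Helper1.IM.M_Lin4
import Pool.Agent.Helper1.IM.M_Lin5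
import Pool.Agent.Helper1.IM.M_M
import Pool.Agent.Helper1.IM.M_M1
import Pool.Agent.Helper1.IM.M_M2
import Pool.Agent.Helper1.IM.M_M3m
import Pool.Agent.Helper1.IM.M_M4
import Pool.Agent.Helper1.IM.M_M5
import Pool.Agent.Helper1.IM.M_M6
import Pool.Agent.Helper1.IM.M_M7
import Pool.Agent.Helper1.IM.M_M8
import Pool.Agent.Helper1.IM.M_M9
import Pool.Agent.Helper1.IM.M_Main
import Pool.Agent.Helper1.IM.M_P33
import Pool.Agent.Helper1.IM.M_P45
import Pool.Agent.Helper1.IM.M_PD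
import Pool.Agent.Helper1.IM.M_PL
import Pool.Agent.Helper1.IM.M_PP
import Pool.Agent.Helper1.IM.M_PR
import Pool.Agent.Helper1.IM.M_RE
import Pool.Agent.Helper1.IM.M_SL
import Pool.Agent.Helper1.IM.M_SO
import Pool.Agent.Helper1.IM.M_Sat
import Pool.Agent.Helper1.IM.M_Two
import Pool.Agent.Helper1.IM.M_Ty
import Pool.Agent.Helper1.IM.M_V1
import Pool.Agent.Helper1.IM.M_V2
import Pool.Agent.Helper1.IM.M_V3
import Pool.Agent.Helper1.IM.M_V4
import Pool.Agent.Helper1.IM.M_V5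
import Pool.Agent.Helper1.IM.M_V6
import Pool.Agent.Helper1.IM.M_XD
import Pool.Agent.Helper1.IM.M_XE
import Pool.Agent.Helper1.IM.M_XR

/-!
# Project IM: assembly of Theorems A and B
-/

set_option autoImplicit false

namespace Helper1.IM

theorem fLin : StLin := hLin (hLin4 (hLin2 hLin1) hLin3) (hLin5 hLin1)

theorem fTwo : StTwo := hTwo hLev

theorem fG1 : StG1 := hG1 fLin (hP33 hLev)

theorem fG : StG := hG fG1 hG2 hG3a hG3b hG3c hG4 hG5 hG6 hG7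

theorem fH : StH := hH (hH4 fLin fTwo hH0 hH1 hH2 hH3) hH5 hH6

theorem fC : StC := hC hC1 hC2 hC3 hC4m hC5 (hC6 fLin fTwo) hC7 hC8 (hC9 fLin (hP45 hLev)) hC10 hC11

theorem fM : StM := hM fLin hM1 hM2 (hM3m fLin fTwo) hM4 hM5 hM6 hM7 (hM8 fLin fTwo) hM9

theorem fHX : StHX := hHX fLin hXR hXE hXD

theorem fPP : StPP := hPP hRE hPL (hPR hFL (hSL hFL)) hPD

theorem fF2 : StF2 := hF2 hInh fHX (hSO hRE) fPP

/-- Main theorem for congruences. -/
theorem fMain : StMain := hMain (hTy fG fH fC fM) (hGlue hInh fHX hSat fF2)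

theorem fV3 : StV3 := hV3 hV1

theorem fV4 : StV4 := hV4 (hV2 hV1) fV3

theorem fV5 : StV5 := hV5 fV3 fV4

theorem fV6 : StV6 := hV6 hV1 (hV2 hV1) fV3 fV4 hSat

theorem mod7_of_modAt (θ : FIC) (h : ModAt θ) : Mod7 θ :=
  fun α β γ ha hb hc _ _ _ hac u v hj hg => h α β γ ha hb hc hac u v hj hg

/-- Theorem A. -/
theorem thA : ThA := by
  intro V hV hN
  obtain ⟨θ, rfl⟩ := fV3.2 V hV
  obtain ⟨θ', h1, h2⟩ := fV6.2 θ
  have hn := fV6.1 θ hN
  rw [h1, fV5 θ, fV5 θ', h2]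
  exact ⟨mod7_of_modAt θ, fMain θ hn⟩

/-- The trivial congruence. -/
def idF : FIC where
  r := fun u v => u = v
  refl' := fun _ => rfl
  symm' := fun h => h.symm
  trans' := fun h1 h2 => h1.trans h2
  ne' := fun h1 h2 => h1.symm.trans h2
  mul' := fun a b h => by rw [h]
  star' := fun h => by rw [h]
  sub' := fun f _ h => by rw [h]

theorem thB : ThB := by
  intro V hV hM
  obtain ⟨θ, rfl⟩ := fV3.2 V hV
  have hθ := (fV5 θ).1 hM
  obtain ⟨θ4, k1, k2, k3⟩ := hSat 4 θ (by norm_num)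
  have hm : Mod7 θ4 := fun α β γ ha hb hc _ _ _ hac u v hj hg =>
    hθ α β γ (fun u v h => ha u v (k2 u v h)) (fun u v h => hb u v (k2 u v h)) (fun u v h => hc u v (k2 u v h)) hac u v hj hg
  have hn : NilF θ4 := by
    refine ⟨3, by simp, fun v => ⟨k3 _ _ (by simp) (by simp), k3 _ _ (by simp) (by simp)⟩⟩
  obtain ⟨v, hv1, _, hv3, hv4⟩ := fG1 θ4 hn hm
  have key : ∃ w : Wd, w ≠ [X 0, X 1, X 2] ∧ θ.r [X 0, X 1, X 2] w := by
    rcases (k1 _ _).1 hv4 with h | ⟨⟨w, hw, hwl⟩, _⟩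
    · exact ⟨v, hv3, h⟩
    · refine ⟨w, fun h => ?_, hw⟩
      rw [h] at hwl
      simp at hwl
  obtain ⟨w, hw1, hw2⟩ := key
  have hne : w ≠ [] := fun h => by
    have := θ.ne' (θ.symm' hw2) h
    simp at this
  obtain ⟨t, ht⟩ := hV1.2.2 w hne
  have hs : (Tm.mul (.mul (.var 0) (.var 1)) (.var 2)).wd = [X 0, X 1, X 2] := rfl
  refine ⟨t, ?_, ?_⟩
  · refine (hV1.2.1 (Md θ) _ _).2 ?_
    rw [hs, ht]
    exact (hV2 hV1 θ _ _).2 hw2
  · by_contra hcon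
    push Not at hcon
    have h1 : ∀ A ∈ Md idF, Sat1 A (.mul (.mul (.var 0) (.var 1)) (.var 2), t) := fun A _ => hcon A
    have h2 := (hV1.2.1 (Md idF) _ _).1 h1
    rw [hs, ht] at h2
    have h3 : [X 0, X 1, X 2] = w := (hV2 hV1 idF _ _).1 h2
    exact hw1 h3.symm

end Helper1.IM
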