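import Pool.Agent.Helper1.IM.St2

/-!
# Project IM, module C: assembly of type C
-/

set_option autoImplicit false

namespace Helper1.IM

private theorem oc_count_C (i : ℕ) (u : Wd) : oc i u = u.count (i, false) + u.count (i, true) := by
  induction u with
  | nil => simp
  | cons a u ih =>
    obtain ⟨j, b⟩ := a
    rw [oc_cons, ih, List.count_cons, List.count_cons]
    by_cases h : j = i
    · subst h
      cases b <;> simp <;> omega
    · cases b <;> simp [h]

private theorem perm_sg_C (v : Wd) (β : Bool) (hl : v.length = 5) (hc : ct v = ct P4)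
    (hb : v.count (0, β) = 2) : ∃ e : ℕ → Bool, v.Perm (sg e P4) := by
  have hct : ct v = {0, 1, 2, 3} := by
    rw [hc]
    rfl
  have hsum := length_eq_sum v
  rw [hct, hl] at hsum
  have hs : oc 0 v + (oc 1 v + (oc 2 v + oc 3 v)) = 5 := by
    rw [hsum]
    simp
  have hp : ∀ i, i ∈ ({0, 1, 2, 3} : Finset ℕ) → 0 < oc i v := by
    intro i hi
    rw [oc_pos, hct]
    exact hi
  have p1 := hp 1 (by simp)
  have p2 := hp 2 (by simp)
  have p3 := hp 3 (by simp)
  have c0 := oc_count_C 0 v
  have c1 := oc_count_C 1 v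
  have c2 := oc_count_C 2 v
  have c3 := oc_count_C 3 v
  have hother : ∀ i s, i ∉ ({0, 1, 2, 3} : Finset ℕ) → v.count (i, s) = 0 := by
    intro i s hi
    have h0 : oc i v = 0 := by
      rw [oc_eq_zero, hct]
      exact hi
    rw [oc_count_C] at h0
    cases s <;> omega
  have hge : 2 ≤ oc 0 v := by
    rw [c0]
    cases β <;> omega
  refine ⟨fun i => decide ((i, true) ∈ v), ?_⟩
  have hmem : ∀ i : ℕ, decide ((i, true) ∈ v) = true ↔ 0 < v.count (i, true) := by
    intro i
    rw [decide_eq_true_iff, List.count_pos_iff]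
  have hform : sg (fun i => decide ((i, true) ∈ v)) P4 =
      [(0, decide ((0, true) ∈ v)), (0, decide ((0, true) ∈ v)), (1, decide ((1, true) ∈ v)),
        (2, decide ((2, true) ∈ v)), (3, decide ((3, true) ∈ v))] := by
    simp [sg, P4, X]
  rw [hform, List.perm_iff_count]
  rintro ⟨i, s⟩
  have hone : ∀ j : ℕ, v.count (j, false) + v.count (j, true) = 1 →
      v.count (j, s) = if decide ((j, true) ∈ v) = s then 1 else 0 := by
    intro j hj
    cases hd : decide ((j, true) ∈ v) with
    | true =>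
      have := (hmem j).1 hd
      cases s
      · simp
        omega
      · simp
        omega
    | false =>
      have h2 : ¬ 0 < v.count (j, true) := fun h => by
        have := (hmem j).2 h
        rw [hd] at this
        exact Bool.noConfusion this
      cases s
      · simp
        omega
      · simp
        omega
  by_cases h0 : i = 0
  · subst h0
    cases hd : decide (((0 : ℕ), true) ∈ v) with
    | true =>
      have := (hmem 0).1 hd
      cases s <;> cases β <;> simp <;> omega
    | false =>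
      have h2 : ¬ 0 < v.count ((0 : ℕ), true) := fun h => by
        have := (hmem 0).2 h
        rw [hd] at this
        exact Bool.noConfusion this
      cases s <;> cases β <;> simp <;> omega
  by_cases h1 : i = 1
  · subst h1
    rw [hone 1 (by omega)]
    by_cases hs2 : decide (((1 : ℕ), true) ∈ v) = s
    · simp [hs2]
    · simp [hs2]
  by_cases h2 : i = 2
  · subst h2
    rw [hone 2 (by omega)]
    by_cases hs2 : decide (((2 : ℕ), true) ∈ v) = s
    · simp [hs2]
    · simp [hs2]
  by_cases h3 : i = 3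
  · subst h3
    rw [hone 3 (by omega)]
    by_cases hs2 : decide (((3 : ℕ), true) ∈ v) = s
    · simp [hs2]
    · simp [hs2]
  · rw [hother i s (by simp [h0, h1, h2, h3])]
    symm
    rw [List.count_eq_zero]
    simp [h0, h1, h2, h3]

/-- Module C. -/
theorem hC (h1 : StC1) (h2 : StC2) (h3 : StC3) (h4 : StC4m) (h5 : StC5) (h6 : StC6) (h7 : StC7)
    (h8 : StC8) (h9 : StC9) (h10 : StC10) (h11 : StC11) : StC := by
  intro θ hn hC4 hm
  by_cases k3 : Kl θ 3 4 P3
  · exact Or.inr (Or.inl (h2 θ hC4 (h1 θ hn hC4 k3)))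
  have key : HS θ ∨ Zero θ P4 ∨ QX θ := by
    by_cases q3 : Kl θ 3 4 Q3
    · exact Or.inr (Or.inr (h3 θ hn hC4 q3))
    · rcases h6 θ hn hC4 hm k3 q3 with ⟨p, e, hp, hc, hr⟩ | ⟨u, v, i, j, hu, hv, hcard, hct, hij, hi, hj, hr⟩
      · exact Or.inl (h4 θ hC4 p e hp hc hr)
      · rcases h5 θ hn hC4 u v i j hu hv hcard hct hij hi hj hr with h | h
        · exact Or.inr (Or.inl h)
        · exact Or.inr (Or.inr (Or.inl h))
  rcases key with h | h | hq
  · exact Or.inl h
  · exact Or.inr (Or.inl (h2 θ hC4 h))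
  by_cases k4 : Kl θ 4 5 P4
  · exact Or.inr (Or.inl (h2 θ hC4 (h7 θ hn hC4 hq k4)))
  obtain ⟨v, hr, hnp, hv, hcv⟩ := h9 θ hn hC4 hm hq k4
  obtain ⟨hl, hcard, b, hb⟩ := hv
  have hP4 : isP4 P4 := ⟨rfl, by decide, X 0, by decide⟩
  by_cases hb0 : b.1 = 0
  · obtain ⟨i, β⟩ := b
    simp only at hb0
    subst hb0
    obtain ⟨e, he⟩ := perm_sg_C v β hl hcv hb
    have hnp' : ¬ P4.Perm (sg e P4) := fun h => hnp (h.trans he.symm)
    have hr' : θ.r P4 (sg e P4) := θ.trans' hr (hC4 v _ (by omega) he)
    have hz : Zero θ Q4 := by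
      rcases hq with h | ⟨a, ha, hra, hza⟩
      · exact h
      · exact h10 θ hn hC4 a e ha hra hza hnp' hr'
    exact Or.inr (h11 θ hn hC4 hz e hnp' hr')
  · refine Or.inr (Or.inr (h8 θ hn hC4 hq P4 v (X 0) b hP4 ⟨hl, hcard, b, hb⟩ hcv.symm (by decide) hb ?_ hr))
    intro h
    exact hb0 h.symm

end Helper1.IM
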