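import Pool.Agent.Helper1.IM.M_SO

/-! # Project IM, module FL: free signs of single letters -/

set_option autoImplicit false

namespace Helper1.IM

theorem hFL : StFL := by
  intro θ α hR hl a b h7 hba hcb hlin hza hab hne c hca hcc hzc y hy hy1
  have hlc : ¬ Lin c := fun h => hlin ((lin_iff_of_SO hca hcc).1 h)
  have hzb : ¬ Zero α b := fun h => hza (h.of_r (α.symm' hab))
  have hza' : ¬ Zero θ a := fun h => hza (h.le hl)
  have hzb' : ¬ Zero θ b := fun h => hzb (h.le hl)
  have hzc' : ¬ Zero θ c := fun h => hzc (h.le hl)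
  -- a repeated letter of `a` which is single in `b`
  have hcard : (Rp a).card = (Rp b).card := hR.s1 a b h7 hba.symm hlin hcb.symm hza' hzb'
  obtain ⟨z, hz1, hz2⟩ : ∃ z, z ∈ Rp a ∧ z ∉ Rp b := by
    by_contra hcon
    push Not at hcon
    exact hne (Finset.eq_of_subset_of_card_le (fun i hi => hcon i hi) hcard.ge)
  have hza2 : 2 ≤ oc z a := mem_Rp_SO.1 hz1
  -- `a` is related to `f_z a`
  have h1 : θ.r a (rw' 1 (fun i => decide (i = z)) a) := by
    refine hR.s3 _ _ h7 hlin hza' (by rwa [Zero.rw'_iff]) ⟨?_, fun i hi => ?_⟩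
    · rw [rw'_fst]
      simp
    · have hiz : i ≠ z := by
        rintro rfl
        omega
      have hi2 : oc i (rw' 1 (fun i => decide (i = z)) a) = 1 := by
        have := oc_rw' 1 (fun i => decide (i = z)) i a
        rw [Equiv.Perm.one_apply] at this
        rw [this, hi]
      rw [mem_fs_SO hi, mem_fs_SO hi2]
      have := fs_rw_SO 1 (fun i => decide (i = z)) (i := i) (u := a) (oc_pos.1 (by omega))
      rw [Equiv.Perm.one_apply] at this
      rw [this]
      simp [hiz]
  have h2 : α.r b (rw' 1 (fun i => decide (i = z)) b) :=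
    α.trans' (α.symm' hab) (α.trans' (hl _ _ h1) (α.rn _ _ hab))
  -- renaming of `b` to `c`
  have hcard2 : (Rp b).card = (Rp c).card :=
    hR.s1 b c (by omega) (by omega) (fun h => hlin ((lin_iff_of_SO hba hcb).1 h)) (hcb.trans hcc.symm) hzb' hzc'
  have hCbc : ct b = ct c := hcb.trans hcc.symm
  have hRa : Rp a ⊆ ct c := by
    rw [hcc]
    exact Finset.filter_subset _ _
  obtain ⟨p, hp1, hp2, hp3⟩ := exists_perm2_SO (ct c) (Rp b) (Rp c)
    (by rw [← hCbc]; exact Finset.filter_subset _ _) (Finset.filter_subset _ _) hcard2 z y (hRa hz1) hz2 hy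
    (by rw [mem_Rp_SO]; omega)
  obtain ⟨e, he⟩ := core_SO hR (by omega) (by omega) hCbc hlc hzb' hzc' p hp1 hp2
  have h3 := α.rn p e h2
  have h4 : rw' p e (rw' 1 (fun i => decide (i = z)) b) = rw' 1 (fun i => decide (i = y)) (rw' p e b) := by
    rw [rw'_rw', rw'_rw', mul_one, one_mul]
    congr 1
    funext i
    have h5 : (p i = y) ↔ (i = z) := by
      rw [← hp3]
      exact p.injective.eq_iff
    rw [Equiv.Perm.one_apply]
    by_cases hi : i = z
    · simp [hi, hp3, Bool.xor_comm]
    · have hi' : ¬ (p i = y) := fun h => hi (h5.1 h)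
      simp [hi, hi']
  rw [h4] at h3
  exact α.trans' (hl _ _ he) (α.trans' h3 (hl _ _ (θ.symm' (θ.rn 1 (fun i => decide (i = y)) he))))

end Helper1.IM
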