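import Pool.Agent.Helper1.IM.St2
import Pool.Agent.Helper99.IM.Tool

/-!
# Project IM, module H1: if `xxxyz` is killed then `xxxyzt` is zero
-/

set_option autoImplicit false

namespace Helper1.IM

open T99

private theorem third_H1 (i : ℕ) (hi : i ∈ ({0, 1, 2} : Finset ℕ)) :
    ∃ j k, j ∈ ({0, 1, 2} : Finset ℕ) ∧ k ∈ ({0, 1, 2} : Finset ℕ) ∧ i ≠ j ∧ i ≠ k ∧ j ≠ k := by
  simp only [Finset.mem_insert, Finset.mem_singleton] at hi
  rcases hi with rfl | rfl | rfl
  · exact ⟨1, 2, by simp, by simp, by simp, by simp, by simp⟩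
  · exact ⟨0, 2, by simp, by simp, by simp, by simp, by simp⟩
  · exact ⟨0, 1, by simp, by simp, by simp, by simp, by simp⟩

theorem hH1 : StH1 := by
  intro θ hn hs hk
  have hct3 : ct E3 = {0, 1, 2} := by decide
  rcases hk.long hn (by rw [hct3]; decide) with hz | ⟨w, hr, hlen, hct⟩
  · exact hz.mulR [X 3]
  rw [hct3] at hct
  by_cases hc : ∀ i, oc i w ≤ 2
  · -- all multiplicities are two
    have hsum : w.length = ∑ i ∈ ct w, oc i w := length_eq_sum w
    rw [hct, Finset.sum_insert (by simp), Finset.sum_insert (by simp), Finset.sum_singleton] at hsum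
    have a0 := hc 0
    have a1 := hc 1
    have a2 := hc 2
    have hnl : ¬ Lin w := not_lin (i := 0) (by omega)
    have t1 : θ.r w (rw' (Equiv.swap 0 1) (fun _ => false) w) := by
      apply hs _ _ (by omega) hnl
      constructor
      · rw [perm_iff_oc]
        intro i
        have h1 := oc_rw' (Equiv.swap 0 1) (fun _ => false) (Equiv.swap 0 1 i) w
        rw [Equiv.swap_apply_self] at h1
        rw [h1]
        by_cases h0 : i = 0
        · subst h0
          rw [Equiv.swap_apply_left]
          omega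
        by_cases h1' : i = 1
        · subst h1'
          rw [Equiv.swap_apply_right]
          omega
        · rw [Equiv.swap_apply_of_ne_of_ne h0 h1']
      · intro i hi
        exfalso
        have : i ∈ ct w := oc_pos.1 (by omega)
        rw [hct] at this
        simp only [Finset.mem_insert, Finset.mem_singleton] at this
        rcases this with rfl | rfl | rfl <;> omega
    have t2 : θ.r (rw' (Equiv.swap 0 1) (fun _ => false) w)
        (rw' (Equiv.swap 0 1) (fun _ => false) E3) := θ.symm' (θ.rn _ _ hr)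
    have e1 : rw' (Equiv.swap 0 1) (fun _ => false) E3 = [X 1, X 1, X 1, X 0, X 2] := by
      simp only [E3, rw'_X, rw'_nil, Equiv.swap_apply_left, Equiv.swap_apply_right]
      rfl
    rw [e1] at t2
    have T1 : θ.r E3 [X 1, X 1, X 1, X 0, X 2] := θ.trans' hr (θ.trans' t1 t2)
    have hfne : ∀ i, (fun i => if i = 1 then [X 1, X 3] else [X i] : ℕ → Wd) i ≠ [] := by
      intro i
      simp only
      split_ifs <;> simp
    have s1 := θ.sub' (fun i => if i = 1 then [X 1, X 3] else [X i]) hfne T1
    have e2 : sb (fun i => if i = 1 then [X 1, X 3] else [X i]) E3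
        = [X 0, X 0, X 0, X 1, X 3, X 2] := by simp [E3]
    have e3 : sb (fun i => if i = 1 then [X 1, X 3] else [X i]) [X 1, X 1, X 1, X 0, X 2]
        = [X 1, X 3, X 1, X 3, X 1, X 3, X 0, X 2] := by simp
    rw [e2, e3] at s1
    have u1 : θ.r F4 [X 0, X 0, X 0, X 1, X 3, X 2] :=
      hs _ _ (by decide) (not_lin (i := 0) (by decide)) (sim_of_perm (by decide))
    have u2 : θ.r [X 1, X 3, X 1, X 3, X 1, X 3, X 0, X 2]
        ([X 1, X 1, X 1, X 0, X 2] ++ [X 3, X 3, X 3]) :=
      hs _ _ (by decide) (not_lin (i := 1) (by decide)) (sim_of_perm (by decide))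
    have u3 : θ.r ([X 1, X 1, X 1, X 0, X 2] ++ [X 3, X 3, X 3]) (E3 ++ [X 3, X 3, X 3]) :=
      θ.mulR _ (θ.symm' T1)
    have e4 : E3 ++ [X 3, X 3, X 3] = [] ++ F4 ++ [X 3, X 3] := rfl
    rw [e4] at u3
    exact grow0 hn (θ.trans' u1 (θ.trans' s1 (θ.trans' u2 u3))) (by simp)
  · push Not at hc
    obtain ⟨a, ha⟩ := hc
    have ha1 : a ∈ ({0, 1, 2} : Finset ℕ) := by
      rw [← hct]
      exact oc_pos.1 (by omega)
    obtain ⟨j, k, hj, hk', hij, hik, hjk⟩ := third_H1 a ha1
    rw [← hct] at hj hk'
    obtain ⟨s, hs'⟩ := mem_ct.1 hj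
    obtain ⟨t, ht⟩ := mem_ct.1 hk'
    have oj := oc_pos.2 hj
    have ok := oc_pos.2 hk'
    obtain ⟨p, e, h0, h1, h2⟩ := ren3 (X a) (j, s) (k, t) hij hik hjk
    obtain ⟨r, hp, hl⟩ := ext_sim w [X a, X a, X a, (j, s), (k, t)] (by
      intro i hi
      simp only [ct_cons, ct_nil, X_fst, Finset.mem_insert, Finset.notMem_empty, or_false] at hi
      simp only [oc_cons, oc_nil, X_fst]
      rcases hi with rfl | rfl | rfl | rfl | rfl
      · simp [hij.symm, hik.symm]; omega
      · simp [hij.symm, hik.symm]; omega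
      · simp [hij.symm, hik.symm]; omega
      · simp [hij, hjk.symm]; omega
      · simp [hik, hjk]; omega) (by
      intro c hc h1c
      simp only [List.mem_cons, List.not_mem_nil, or_false] at hc
      rcases hc with rfl | rfl | rfl | rfl | rfl
      · simp only [X_fst] at h1c; omega
      · simp only [X_fst] at h1c; omega
      · simp only [X_fst] at h1c; omega
      · exact hs'
      · exact ht)
    have e1 : rw' p e E3 = [X a, X a, X a, (j, s), (k, t)] := by
      simp only [E3, rw'_X, h0, h1, h2, rw'_nil]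
    have e2 : θ.r E3 ([] ++ rw' p e E3 ++ r) := by
      rw [e1]
      simpa using θ.trans' hr (hs w _ (by omega) (not_lin (i := a) (by omega)) hp)
    have hrne : [] ++ r ≠ [] := by
      intro h
      simp only [List.nil_append] at h
      subst h
      simp at hl
      omega
    exact (grow hn p e e2 hrne).mulR [X 3]

end Helper1.IM
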