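import Pool.Agent.Helper1.IM.NSt

/-!
# Project IM, second part: module KlC (closure properties of killed words)
-/

set_option autoImplicit false

namespace Helper1.IM

/-- A substitution which replaces a letter of the word by a word of length `≥ 2` makes the word longer. -/
private theorem lt_length_sb_KlC (f : ℕ → Wd) (hf : ∀ i, f i ≠ []) (u : Wd) {i : ℕ} (hi : i ∈ ct u)
    (h2 : 2 ≤ (f i).length) : u.length < (sb f u).length := by
  obtain ⟨b, hb⟩ := mem_ct.1 hi
  obtain ⟨s, t, rfl⟩ := List.append_of_mem hb
  have h1 : sb f (s ++ (i, b) :: t) = sb f s ++ (sb f [(i, b)] ++ sb f t) := by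
    rw [sb_append, sb_cons, sb_single]
  have h3 : (sb f [(i, b)]).length = (f i).length := by
    rw [sb_single]
    cases b <;> simp
  have hs := length_sb_ge f hf s
  have ht := length_sb_ge f hf t
  rw [h1]
  simp only [List.length_append, List.length_cons, h3]
  omega

/-- A substitution by single letters (on the content of the word). -/
private theorem single_sb_KlC (f : ℕ → Wd) (u : Wd) (h : ∀ i ∈ ct u, (f i).length = 1) :
    sb f u = u.map (fun a => (((f a.1).headD (0, false)).1, xor a.2 ((f a.1).headD (0, false)).2)) := by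
  induction u with
  | nil => rfl
  | cons a u ih =>
    rw [sb_cons, ih (fun i hi => h i (by simp [hi]))]
    obtain ⟨c, hc⟩ := List.length_eq_one_iff.1 (h a.1 (by simp))
    rcases a with ⟨i, b⟩
    simp only at hc
    cases b <;> simp [hc, fl, st]

private theorem ct_single_sb_KlC (f : ℕ → Wd) (u : Wd) (h : ∀ i ∈ ct u, (f i).length = 1) :
    ct (sb f u) = (ct u).image (fun i => ((f i).headD (0, false)).1) := by
  rw [single_sb_KlC f u h]
  ext j
  simp [ct]

private theorem length_single_sb_KlC (f : ℕ → Wd) (u : Wd) (h : ∀ i ∈ ct u, (f i).length = 1) :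
    (sb f u).length = u.length := by
  rw [single_sb_KlC f u h, List.length_map]

/-- Killed words stay killed under substitutions. -/
private theorem kl_sb_KlC {θ : FIC} {n d : ℕ} {u : Wd} (h : Kl θ n d u) (f : ℕ → Wd) (hf : ∀ i, f i ≠ []) :
    Kl θ n d (sb f u) := by
  obtain ⟨w, hw, h2⟩ := h
  refine ⟨sb f w, θ.sub' f hf hw, ?_⟩
  rcases h2 with h2 | ⟨h2, h3⟩
  · exact Or.inl (lt_of_lt_of_le h2 (length_sb_ge f hf w))
  · by_cases hc : ∃ i ∈ ct w, 2 ≤ (f i).length
    · obtain ⟨i, hi, hi2⟩ := hc
      exact Or.inl (h2 ▸ lt_length_sb_KlC f hf w hi hi2)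
    · push Not at hc
      have h1 : ∀ i ∈ ct w, (f i).length = 1 := fun i hi => by
        have := hc i hi
        have := List.length_pos_iff.2 (hf i)
        omega
      refine Or.inr ⟨by rw [length_single_sb_KlC f w h1, h2], ?_⟩
      rw [ct_single_sb_KlC f w h1]
      exact lt_of_le_of_lt Finset.card_image_le h3

/-- Words of length `> d` are killed. -/
private theorem kl_long_KlC {θ : FIC} {n d : ℕ} {u : Wd} (h : d < u.length) : Kl θ n d u :=
  ⟨u, θ.refl' u, Or.inl h⟩

/-- Killed words stay killed under multiplication. -/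
private theorem kl_mul_KlC {θ : FIC} {n d : ℕ} {u : Wd} (h : Kl θ n d u) (a b : Wd) :
    Kl θ n d (a ++ u ++ b) := by
  by_cases hab : a ++ b = []
  · obtain ⟨ha, hb⟩ := List.append_eq_nil_iff.1 hab
    simpa [ha, hb] using h
  · obtain ⟨w, hw, h2⟩ := h
    refine ⟨a ++ w ++ b, θ.mul' a b hw, Or.inl ?_⟩
    have h3 : 0 < (a ++ b).length := List.length_pos_iff.2 hab
    simp only [List.length_append] at h3 ⊢
    rcases h2 with h2 | ⟨h2, -⟩ <;> omega

theorem hKlC : StKlC := by
  classical
  intro θ n d hd
  refine ⟨?_, fun u a b h => kl_mul_KlC h a b, fun u f hf h => kl_sb_KlC h f hf, ?_⟩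
  · rintro u ⟨w, hw, h2⟩ rfl
    have hw0 : w = [] := θ.ne' hw rfl
    subst hw0
    rcases h2 with h2 | ⟨h2, -⟩
    · simp at h2
    · simp at h2; omega
  · intro w hw hcard
    refine ⟨?_, ?_⟩
    · intro a b hab
      apply kl_long_KlC
      have h3 : 0 < (a ++ b).length := List.length_pos_iff.2 hab
      simp only [List.length_append] at h3 ⊢
      omega
    · intro f hf
      by_cases hc : ∃ i ∈ ct w, 2 ≤ (f i).length
      · obtain ⟨i, hi, hi2⟩ := hc
        exact Or.inl (kl_long_KlC (hw ▸ lt_length_sb_KlC f hf w hi hi2))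
      · push Not at hc
        have h1 : ∀ i ∈ ct w, (f i).length = 1 := fun i hi => by
          have := hc i hi
          have := List.length_pos_iff.2 (hf i)
          omega
        by_cases hinj : Set.InjOn (fun i => ((f i).headD (0, false)).1) (ct w : Set ℕ)
        · obtain ⟨p, hp⟩ := exists_perm_extend (ct w) _ hinj
          refine Or.inr ⟨p, fun i => ((f i).headD (0, false)).2, fun i hi => ?_⟩
          obtain ⟨c, hc'⟩ := List.length_eq_one_iff.1 (h1 i hi)
          have h5 := hp i hi
          rw [hc'] at h5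
          show f i = [(p i, ((f i).headD (0, false)).2)]
          rw [h5, hc']
          rfl
        · refine Or.inl ⟨sb f w, θ.refl' _, Or.inr ⟨by rw [length_single_sb_KlC f w h1, hw], ?_⟩⟩
          rw [ct_single_sb_KlC f w h1]
          have h2 : ((ct w).image (fun i => ((f i).headD (0, false)).1)).card ≤ (ct w).card :=
            Finset.card_image_le
          rcases lt_or_eq_of_le h2 with h3 | h3
          · rw [← hcard]
            exact h3
          · exact absurd (Finset.card_image_iff.1 h3) hinj

end Helper1.IM
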