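import Pool.Agent.Helper1.IM.NSt

/-!
# Project IM (MP_265e56_al), module LevG: general level congruences
-/

set_option autoImplicit false

namespace Helper1.IM

theorem hLevG : StLevG := by
  intro θ T S Rl hTne hTθ hTmul hTst hTsb hS hR hθ hsy htr hst hrw hSmul hSsb
  refine ⟨{ r := fun u v => θ.r u v ∨ (T u ∧ T v) ∨ Rl u v
            refl' := fun u => Or.inl (θ.refl' u)
            symm' := ?_
            trans' := ?_
            ne' := ?_
            mul' := ?_
            star' := ?_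
            sub' := ?_ }, fun u v => Iff.rfl⟩
  · intro u v h
    rcases h with h | ⟨h1, h2⟩ | h
    · exact Or.inl (θ.symm' h)
    · exact Or.inr (Or.inl ⟨h2, h1⟩)
    · exact Or.inr (Or.inr (hsy _ _ h))
  · intro u v w h h'
    rcases h with h | ⟨h1, h2⟩ | h
    · rcases h' with h' | ⟨h3, h4⟩ | h'
      · exact Or.inl (θ.trans' h h')
      · exact Or.inr (Or.inl ⟨hTθ _ _ h3 (θ.symm' h), h4⟩)
      · have hv := (hR _ _ h').1
        exact Or.inr (Or.inr (htr _ _ _ (hsy _ _ (hθ _ _ hv (θ.symm' h))) h'))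
    · rcases h' with h' | ⟨h3, h4⟩ | h'
      · exact Or.inr (Or.inl ⟨h1, hTθ _ _ h2 h'⟩)
      · exact Or.inr (Or.inl ⟨h1, h4⟩)
      · exact absurd h2 (hS _ (hR _ _ h').1).1
    · rcases h' with h' | ⟨h3, h4⟩ | h'
      · have hv := (hR _ _ h).2.1
        exact Or.inr (Or.inr (htr _ _ _ h (hθ _ _ hv h')))
      · exact absurd h3 (hS _ (hR _ _ h).2.1).1
      · exact Or.inr (Or.inr (htr _ _ _ h h'))
  · intro u v h hu
    rcases h with h | ⟨h1, -⟩ | h
    · exact θ.ne' h hu
    · exact absurd hu (hTne _ h1)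
    · exact absurd hu (hS _ (hR _ _ h).1).2
  · intro u v a b h
    rcases h with h | ⟨h1, h2⟩ | h
    · exact Or.inl (θ.mul' a b h)
    · exact Or.inr (Or.inl ⟨hTmul _ a b h1, hTmul _ a b h2⟩)
    · by_cases hab : a ++ b = []
      · obtain ⟨ha, hb⟩ := List.append_eq_nil_iff.1 hab
        subst ha; subst hb
        exact Or.inr (Or.inr (by simpa using h))
      · exact Or.inr (Or.inl ⟨hSmul _ a b (hR _ _ h).1 hab, hSmul _ a b (hR _ _ h).2.1 hab⟩)
  · intro u v h
    rcases h with h | ⟨h1, h2⟩ | h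
    · exact Or.inl (θ.star' h)
    · exact Or.inr (Or.inl ⟨hTst _ h1, hTst _ h2⟩)
    · exact Or.inr (Or.inr (hst _ _ h))
  · intro u v f hf h
    rcases h with h | ⟨h1, h2⟩ | h
    · exact Or.inl (θ.sub' f hf h)
    · exact Or.inr (Or.inl ⟨hTsb _ f hf h1, hTsb _ f hf h2⟩)
    · obtain ⟨hSu, hSv, hct⟩ := hR _ _ h
      have key : ∀ (w : Wd) (p : Equiv.Perm ℕ) (e : ℕ → Bool), (∀ i ∈ ct w, f i = [(p i, e i)]) →
          sb f w = rw' p e w := by
        intro w p e hw
        rw [← sb_rn]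
        exact sb_congr _ _ _ hw
      rcases hSsb u f hSu hf with h1 | ⟨p, e, hp⟩
      · rcases hSsb v f hSv hf with h2 | ⟨p, e, hp⟩
        · exact Or.inr (Or.inl ⟨h1, h2⟩)
        · rw [key v p e hp, key u p e (hct ▸ hp)]
          exact Or.inr (Or.inr (hrw _ _ p e h))
      · rw [key u p e hp, key v p e (hct ▸ hp)]
        exact Or.inr (Or.inr (hrw _ _ p e h))

end Helper1.IM
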