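import Pool.Agent.Helper1.IM.St

/-!
# Project IM (MP_265e56_al), module Lin5: the square of a letter implies zero
-/

set_option autoImplicit false

namespace Helper1.IM

private theorem sb_map_Lin5 (f : ℕ → Wd) (l : List ℕ) : sb f (l.map X) = l.flatMap f := by
  induction l with
  | nil => rfl
  | cons a l ih => rw [List.map_cons, sb_X, ih, List.flatMap_cons]

private theorem flat_single_Lin5 (g : ℕ → Lt) (l : List ℕ) :
    l.flatMap (fun i => [g i]) = l.map g := by
  induction l with
  | nil => rfl
  | cons a l ih => rw [List.flatMap_cons, ih, List.map_cons]; rfl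

private theorem range_get_Lin5 (V : Wd) (d : Lt) :
    (List.range V.length).map (fun i => V.getD i d) = V := by
  apply List.ext_getElem
  · simp
  · intro i h1 h2
    simp [h2]

private theorem ct_cw_Lin5 (n : ℕ) : ct (cw n) = Finset.range n := by
  ext i
  rw [mem_ct, Finset.mem_range]
  simp [cw, X]

private theorem cw_split_Lin5 {n j : ℕ} (hj : j < n) :
    cw n = (List.range j).map X ++ [X j] ++
      ((List.range (n - 1 - j)).map (fun t => j + 1 + t)).map X := by
  have e : n = j + 1 + (n - 1 - j) := by omega
  unfold cw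
  conv_lhs => rw [e]
  rw [List.range_add, List.map_append, List.range_succ, List.map_append]
  rfl

private theorem cut_Lin5 {n j : ℕ} (hj : j < n) (A C c : Wd) (hA : A.length = j)
    (hC : C.length = n - 1 - j) (hc : c ≠ []) :
    ∃ f : ℕ → Wd, (∀ i, f i ≠ []) ∧ f j = c ∧ sb f (cw n) = A ++ c ++ C := by
  refine ⟨fun i => if i < j then [A.getD i (X 0)] else if i = j then c else
    [C.getD (i - j - 1) (X 0)], ?_, ?_, ?_⟩
  · intro i
    by_cases h1 : i < j
    · simp [h1]
    · by_cases h2 : i = j
      · simp [h2, hc]
      · simp [h1, h2]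
  · simp
  · rw [cw_split_Lin5 hj, sb_append, sb_append, sb_map_Lin5, sb_map_Lin5, sb_X, sb_nil,
      List.append_nil]
    congr 1
    · congr 1
      · have h1 : (List.range j).flatMap (fun i => if i < j then [A.getD i (X 0)] else
            if i = j then c else [C.getD (i - j - 1) (X 0)]) =
            (List.range j).flatMap (fun i => [A.getD i (X 0)]) := by
          apply List.flatMap_congr
          intro i hi
          rw [List.mem_range] at hi
          simp [hi]
        rw [h1, flat_single_Lin5, ← hA, range_get_Lin5]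
      · simp
    · rw [List.flatMap_map]
      have h1 : (List.range (n - 1 - j)).flatMap (fun t => if j + 1 + t < j then
            [A.getD (j + 1 + t) (X 0)] else if j + 1 + t = j then c else
            [C.getD (j + 1 + t - j - 1) (X 0)]) =
            (List.range (n - 1 - j)).flatMap (fun t => [C.getD t (X 0)]) := by
        apply List.flatMap_congr
        intro t ht
        have e1 : ¬ (j + 1 + t < j) := by omega
        have e2 : ¬ (j + 1 + t = j) := by omega
        have e3 : j + 1 + t - j - 1 = t := by omega
        rw [if_neg e1, if_neg e2, e3]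
      rw [h1, flat_single_Lin5, ← hC, range_get_Lin5]

/-- the map `c ↦ c^± c^±` -/
private def T_Lin5 (a b : Lt) (c : Wd) : Wd := sb (fun _ => c) [a, b]

private theorem T_ne_Lin5 (a b : Lt) {c : Wd} (hc : c ≠ []) : T_Lin5 a b c ≠ [] :=
  sb_ne_nil _ (fun _ => hc) _ (by simp)

private theorem st_flat_Lin5 (k : ℕ) (e : Wd) :
    st (List.replicate k e).flatten = (List.replicate k (st e)).flatten := by
  induction k with
  | zero => rfl
  | succ k ih =>
    rw [List.replicate_succ, List.flatten_cons, st_append, ih, List.replicate_succ',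
      List.flatten_append, List.flatten_singleton]

private theorem flat_add_Lin5 (k l : ℕ) (e : Wd) :
    (List.replicate k e).flatten ++ (List.replicate l e).flatten =
      (List.replicate (k + l) e).flatten := by
  rw [← List.flatten_append, ← List.replicate_add]

private theorem T_form_Lin5 (a b : Lt) (c : Wd) : T_Lin5 a b c =
    (if a.2 then st c else c) ++ (if b.2 then st c else c) := by
  unfold T_Lin5
  rw [sb_cons, sb_single]

private theorem pow_Lin5 (a b : Lt) (m : ℕ) (c : Wd) (hc : c ≠ []) :
    ∃ (e : Wd) (k : ℕ), e ≠ [] ∧ 2 ^ m ≤ k ∧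
      (T_Lin5 a b)^[m + 1] c = (List.replicate k e).flatten := by
  by_cases hab : a.2 = b.2
  · -- `T c = s c ++ s c`
    have h1 : ∀ m : ℕ, ∃ e : Wd, e ≠ [] ∧
        (T_Lin5 a b)^[m] c = (List.replicate (2 ^ m) e).flatten := by
      intro m
      induction m with
      | zero => exact ⟨c, hc, by simp⟩
      | succ m ih =>
        obtain ⟨e, he, h2⟩ := ih
        refine ⟨if b.2 then st e else e, ?_, ?_⟩
        · by_cases hb : b.2
          · simp [hb, he]
          · simp [hb, he]
        · rw [Function.iterate_succ_apply', h2, T_form_Lin5, hab, pow_succ, mul_two]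
          by_cases hb : b.2
          · rw [if_pos hb, if_pos hb, st_flat_Lin5, flat_add_Lin5]
          · rw [if_neg hb, if_neg hb, flat_add_Lin5]
    obtain ⟨e, he, h2⟩ := h1 (m + 1)
    exact ⟨e, 2 ^ (m + 1), he, Nat.pow_le_pow_right (by norm_num) (by omega), h2⟩
  · -- `d = T c` is equal to its star
    have hst : st (T_Lin5 a b c) = T_Lin5 a b c := by
      rw [T_form_Lin5]
      cases ha : a.2 <;> cases hb : b.2 <;> simp_all
    have h1 : ∀ m : ℕ, (T_Lin5 a b)^[m] (T_Lin5 a b c) =
        (List.replicate (2 ^ m) (T_Lin5 a b c)).flatten := by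
      intro m
      induction m with
      | zero => simp
      | succ m ih =>
        have h2 : st (List.replicate (2 ^ m) (T_Lin5 a b c)).flatten =
            (List.replicate (2 ^ m) (T_Lin5 a b c)).flatten := by
          rw [st_flat_Lin5, hst]
        rw [Function.iterate_succ_apply', ih, T_form_Lin5, h2, ite_self, ite_self,
          flat_add_Lin5, pow_succ, mul_two]
    exact ⟨T_Lin5 a b c, 2 ^ m, T_ne_Lin5 a b hc, le_rfl, by
      rw [Function.iterate_succ_apply, h1 m]⟩

private theorem step_Lin5 {θ : FIC} {n : ℕ} {w1 w2 : Wd} {a b : Lt} (hab : a.1 = b.1)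
    (hj : a.1 < n) (h : θ.r (cw n) (w1 ++ [a, b] ++ w2)) : ∀ (m : ℕ) (c A C : Wd), c ≠ [] →
    m * n ≤ A.length → m * n ≤ C.length →
    ∃ A' C', θ.r (A ++ c ++ C) (A' ++ (T_Lin5 a b)^[m] c ++ C') := by
  intro m
  induction m with
  | zero => intro c A C _ _ _; exact ⟨A, C, θ.refl' _⟩
  | succ m ih =>
    intro c A C hc hA hC
    have hA' : m * n + n ≤ A.length := by
      rw [Nat.succ_mul] at hA
      exact hA
    have hC' : m * n + n ≤ C.length := by
      rw [Nat.succ_mul] at hC
      exact hC
    set j := a.1 with hjdef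
    have eA : A = A.take (A.length - j) ++ A.drop (A.length - j) := (List.take_append_drop _ _).symm
    have eC : C = C.take (n - 1 - j) ++ C.drop (n - 1 - j) := (List.take_append_drop _ _).symm
    obtain ⟨f, hf, hfj, hfs⟩ := cut_Lin5 hj (A.drop (A.length - j)) (C.take (n - 1 - j)) c
      (by rw [List.length_drop]; omega) (by rw [List.length_take]; omega) hc
    have h1 := θ.sub' f hf h
    rw [hfs, sb_append, sb_append] at h1
    have h2 : sb f [a, b] = T_Lin5 a b c := by
      unfold T_Lin5
      refine sb_congr _ _ _ (fun i hi => ?_)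
      have hi' : i = j := by
        simp only [ct_cons, ct_nil, Finset.mem_insert, Finset.notMem_empty, or_false] at hi
        rcases hi with hi | hi
        · exact hi
        · rw [hi, ← hab]
      rw [hi', hfj]
    rw [h2] at h1
    have h3 := θ.mul' (A.take (A.length - j)) (C.drop (n - 1 - j)) h1
    obtain ⟨A', C', h4⟩ := ih (T_Lin5 a b c) (A.take (A.length - j) ++ sb f w1)
      (sb f w2 ++ C.drop (n - 1 - j)) (T_ne_Lin5 a b hc)
      (by rw [List.length_append, List.length_take]; omega)
      (by rw [List.length_append, List.length_drop]; omega)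
    refine ⟨A', C', ?_⟩
    rw [Function.iterate_succ_apply]
    refine θ.trans' ?_ h4
    have e1 : A ++ c ++ C = A.take (A.length - j) ++
        (A.drop (A.length - j) ++ c ++ C.take (n - 1 - j)) ++ C.drop (n - 1 - j) := by
      calc A ++ c ++ C = (A.take (A.length - j) ++ A.drop (A.length - j)) ++ c ++
            (C.take (n - 1 - j) ++ C.drop (n - 1 - j)) := by rw [← eA, ← eC]
        _ = _ := by simp only [List.append_assoc]
    have e2 : A.take (A.length - j) ++ sb f w1 ++ T_Lin5 a b c ++
        (sb f w2 ++ C.drop (n - 1 - j)) = A.take (A.length - j) ++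
        (sb f w1 ++ T_Lin5 a b c ++ sb f w2) ++ C.drop (n - 1 - j) := by
      simp [List.append_assoc]
    rw [e1, e2]
    exact h3

theorem hLin5 (h1 : StLin1) : StLin5 := by
  intro θ n w1 w2 a b hN hn hab h
  by_cases hct : ct (cw n) = ct (w1 ++ [a, b] ++ w2)
  swap
  · exact (cont hN h hct).1
  rw [ct_cw_Lin5] at hct
  have hj : a.1 < n := by
    have h2 : a.1 ∈ ct (w1 ++ [a, b] ++ w2) := by
      simp
    rw [← hct, Finset.mem_range] at h2
    exact h2
  have hlen : n < (w1 ++ [a, b] ++ w2).length := by
    have h2 : ct (w1 ++ [a] ++ w2) = Finset.range n := by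
      rw [hct]
      simp [← hab]
    have h3 := card_ct_le (w1 ++ [a] ++ w2)
    rw [h2, Finset.card_range] at h3
    simp only [List.length_append, List.length_cons, List.length_nil] at h3 ⊢
    omega
  obtain ⟨k0, _, hk⟩ := hN.pow
  set m := k0 with hm
  obtain ⟨f, _, hf2, _, hf4, _⟩ := h1 θ n _ h hlen hct.symm (2 * (n * (m + 1)) + 1)
  set U := sb f (cw n) with hU
  have hUlen : 2 * (n * (m + 1)) + 1 ≤ U.length := by
    have e : cw n = X 0 :: ((List.range (n - 1)).map (fun t => t + 1)).map X := by
      have e2 : n = (n - 1) + 1 := by omega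
      unfold cw
      conv_lhs => rw [e2, List.range_succ_eq_map]
      rfl
    rw [hU, e, sb_X, List.length_append]
    have := hf2 0 (by omega)
    omega
  have hlt : n * (m + 1) < U.length := by omega
  have eU : U = U.take (n * (m + 1)) ++ [U[n * (m + 1)]] ++ U.drop (n * (m + 1) + 1) := by
    rw [List.append_assoc, List.singleton_append, List.getElem_cons_drop,
      List.take_append_drop]
  obtain ⟨A', C', h5⟩ := step_Lin5 hab hj h (m + 1) [U[n * (m + 1)]] (U.take (n * (m + 1)))
    (U.drop (n * (m + 1) + 1)) (by simp)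
    (by rw [List.length_take, mul_comm]; omega)
    (by rw [List.length_drop, mul_comm]; omega)
  obtain ⟨e, k, he, hke, h6⟩ := pow_Lin5 a b m [U[n * (m + 1)]] (by simp)
  rw [h6, ← eU] at h5
  have hkk : k0 ≤ k := (Nat.lt_two_pow_self (n := m)).le.trans hke
  have h7 : Zero θ (A' ++ (List.replicate k e).flatten ++ C') := (hk e he k hkk).mul A' C'
  exact h7.of_r (θ.symm' (θ.trans' hf4 h5))

end Helper1.IM
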