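import Pool.Agent.Helper1.IM.NSt

set_option autoImplicit false

namespace Helper1.IM

/-- The quotient of the words by `θ`. -/
private def sdq_N10 (θ : FIC) : Setoid Wd := ⟨θ.r, ⟨θ.refl', fun h => θ.symm' h, fun h h' => θ.trans' h h'⟩⟩

/-- The quotient monoid. -/
private def Qmq_N10 (θ : FIC) : Type := Quotient (sdq_N10 θ)

/-- The class of a word. -/
private def mkq_N10 (θ : FIC) (w : Wd) : Qmq_N10 θ := Quotient.mk (sdq_N10 θ) w

private theorem mkq_eq_N10 {θ : FIC} {u v : Wd} : mkq_N10 θ u = mkq_N10 θ v ↔ θ.r u v :=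
  ⟨fun h => Quotient.exact h, fun h => Quotient.sound h⟩

private instance mulq_N10 (θ : FIC) : Mul (Qmq_N10 θ) where
  mul := Quotient.map₂ (fun u v => u ++ v) (fun _ _ h _ _ h' => θ.mul2 h h')

private theorem mkq_mul_N10 (θ : FIC) (u v : Wd) : mkq_N10 θ (u ++ v) = mkq_N10 θ u * mkq_N10 θ v := rfl

private instance oneq_N10 (θ : FIC) : _root_.One (Qmq_N10 θ) where
  one := mkq_N10 θ []

private instance monoidq_N10 (θ : FIC) : Monoid (Qmq_N10 θ) where
  mul_assoc := by
    intro a b c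
    induction a using Quotient.ind
    induction b using Quotient.ind
    induction c using Quotient.ind
    rename_i a b c
    change mkq_N10 θ ((a ++ b) ++ c) = mkq_N10 θ (a ++ (b ++ c))
    rw [List.append_assoc]
  one_mul := by
    intro a
    induction a using Quotient.ind
    rename_i a
    change mkq_N10 θ ([] ++ a) = mkq_N10 θ a
    rw [List.nil_append]
  mul_one := by
    intro a
    induction a using Quotient.ind
    rename_i a
    change mkq_N10 θ (a ++ []) = mkq_N10 θ a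
    rw [List.append_nil]

private theorem mkq_nil_N10 (θ : FIC) : mkq_N10 θ [] = 1 := rfl

private theorem mkq_pw_N10 (θ : FIC) (u : Wd) (k : ℕ) : mkq_N10 θ (pw u k) = mkq_N10 θ u ^ k := by
  induction k with
  | zero => rfl
  | succ k ih => rw [pw_succ', mkq_mul_N10, ih, pow_succ]

/-- the occurrences of `x_i`, as a word in the letter `0` -/
private def dl_N10 (i : ℕ) : Wd → Wd
  | [] => []
  | a :: t => if a.1 = i then (0, a.2) :: dl_N10 i t else dl_N10 i t

private theorem dl_len_N10 (i : ℕ) (w : Wd) : (dl_N10 i w).length = oc i w := by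
  induction w with
  | nil => rfl
  | cons a t ih =>
    rw [oc_cons, dl_N10]
    split_ifs with h
    · rw [List.length_cons, ih]; ring
    · rw [ih]; ring

private theorem dl_one_N10 (i : ℕ) (w : Wd) : One (dl_N10 i w) := by
  induction w with
  | nil => intro a ha; simp [dl_N10] at ha
  | cons a t ih =>
    intro b hb
    rw [dl_N10] at hb
    split_ifs at hb with h
    · rcases List.mem_cons.1 hb with h1 | h1
      · rw [h1]
      · exact ih b h1
    · exact ih b hb

private theorem One_sb_N10 {u w : Wd} (hu : One u) : One (sb (fun _ => u) w) := by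
  have hst : One (st u) := by
    intro a ha
    unfold st at ha
    rw [List.mem_reverse, List.mem_map] at ha
    obtain ⟨b, hb, rfl⟩ := ha
    rw [fl_fst]
    exact hu b hb
  intro a ha
  unfold sb at ha
  rw [List.mem_flatMap] at ha
  obtain ⟨b, -, hb⟩ := ha
  split_ifs at hb
  · exact hst a hb
  · exact hu a hb

private theorem len_sb_N10 (u w : Wd) : (sb (fun _ => u) w).length = w.length * u.length := by
  induction w with
  | nil => simp
  | cons a t ih =>
    rw [sb_cons, List.length_append, ih, List.length_cons]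
    split_ifs
    · rw [st_length]; ring
    · ring

private theorem oc_one_N10 {w : Wd} (hw : One w) : oc 0 w = w.length := by
  induction w with
  | nil => rfl
  | cons a t ih =>
    rw [oc_cons, ih (fun b hb => hw b (List.mem_cons_of_mem _ hb)),
      if_pos (hw a (List.mem_cons_self ..)), List.length_cons]
    ring

/-- substitution `x_i ↦ y`, others `↦ x^ω` -/
private def fi_N10 (i ω : ℕ) : ℕ → Wd := fun j => if j = i then [X 1] else pw [X 0] ω

private theorem key_N10 {θ : FIC} {ω : ℕ} (pf : PF θ ω) (hst : θ.r (pw [Y 0] ω) (pw [X 0] ω))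
    (hcen : ∀ w : Wd, mkq_N10 θ [X 0] ^ ω * mkq_N10 θ w = mkq_N10 θ w * mkq_N10 θ [X 0] ^ ω)
    (i : ℕ) (w : Wd) : mkq_N10 θ [X 0] ^ ω * mkq_N10 θ (sb (fi_N10 i ω) w) =
      mkq_N10 θ [X 0] ^ ω * mkq_N10 θ (sb (fun _ => [X 1]) (dl_N10 i w)) := by
  have hH : mkq_N10 θ [X 0] ^ ω * mkq_N10 θ [X 0] ^ ω = mkq_N10 θ [X 0] ^ ω := by
    have := mkq_eq_N10.2 (pf.idm2 (t := [X 0]) (by simp))
    rwa [mkq_mul_N10, mkq_pw_N10] at this
  induction w with
  | nil => rfl
  | cons a t ih =>
    rw [sb_cons, mkq_mul_N10, dl_N10]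
    by_cases h : a.1 = i
    · rw [if_pos h, sb_cons, mkq_mul_N10, ← mul_assoc, hcen, mul_assoc, ih, ← mul_assoc,
        ← hcen, mul_assoc]
      congr 2
      simp only [fi_N10, h, if_true]
    · rw [if_neg h, ← ih, ← mul_assoc]
      congr 1
      have h1 : mkq_N10 θ (if a.2 = true then st (fi_N10 i ω a.1) else fi_N10 i ω a.1) =
          mkq_N10 θ [X 0] ^ ω := by
        simp only [fi_N10, h, if_false]
        split_ifs
        · rw [st_pw, ← mkq_pw_N10]
          exact mkq_eq_N10.2 (by simpa [st_single] using hst)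
        · exact mkq_pw_N10 _ _ _
      rw [h1, hH]

theorem hN10 (h8 : StN8) (h9 : StN9b) (hc : StN9c) : StN10 := by
  intro θ ω hm hn pf hcn hsub
  have hω := pf.pos
  have hst : θ.r (pw [Y 0] ω) (pw [X 0] ω) := (h9 θ ω hm hn pf).1 [Y 0]
    (by intro a ha; rw [List.mem_singleton] at ha; rw [ha]; rfl) (by simp)
  have hcen : ∀ w : Wd, mkq_N10 θ [X 0] ^ ω * mkq_N10 θ w = mkq_N10 θ w * mkq_N10 θ [X 0] ^ ω := by
    intro w
    by_cases hw : w = []
    · rw [hw, mkq_nil_N10, mul_one, one_mul]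
    · have h1 := θ.sub' (fun i => if i = 0 then [X 0] else w) (by
        intro i
        split_ifs
        · simp
        · exact hw) hcn
      have h2 := mkq_eq_N10.2 h1
      rw [sb_append, sb_append, sb_pw, mkq_mul_N10, mkq_mul_N10, mkq_pw_N10] at h2
      simpa using h2
  have hH : mkq_N10 θ [X 0] ^ ω * mkq_N10 θ [X 0] ^ ω = mkq_N10 θ [X 0] ^ ω := by
    have := mkq_eq_N10.2 (pf.idm2 (t := [X 0]) (by simp))
    rwa [mkq_mul_N10, mkq_pw_N10] at this
  have hkey := key_N10 pf hst hcen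
  have hne : ∀ i j : ℕ, fi_N10 i ω j ≠ [] := by
    intro i j
    unfold fi_N10
    split_ifs
    · simp
    · exact pw_ne_nil (by simp) hω
  -- the basic relation
  have hrel : ∀ u v : Wd, θ.r u v → ∀ i, mkq_N10 θ [X 0] ^ ω * mkq_N10 θ (sb (fun _ => [X 1]) (dl_N10 i u)) =
      mkq_N10 θ [X 0] ^ ω * mkq_N10 θ (sb (fun _ => [X 1]) (dl_N10 i v)) := by
    intro u v huv i
    rw [← hkey, ← hkey]
    congr 1
    exact mkq_eq_N10.2 (θ.sub' _ (hne i) huv)
  have hAst : mkq_N10 θ [Y 1] ^ ω = mkq_N10 θ [X 1] ^ ω := by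
    have h1 := mkq_eq_N10.2 (θ.sub' (fun _ => [X 1]) (by simp) hst)
    rw [sb_pw, sb_pw, mkq_pw_N10, mkq_pw_N10] at h1
    simpa [st_single] using h1
  have hK : mkq_N10 θ [X 0] ^ ω * mkq_N10 θ [X 1] = mkq_N10 θ [X 0] ^ ω * mkq_N10 θ [X 1] ^ (ω + 1) →
      K1 θ ω := by
    intro h
    unfold K1
    rw [← mkq_eq_N10, mkq_mul_N10, mkq_mul_N10, mkq_pw_N10, mkq_pw_N10]
    exact h
  -- case (i)
  have c1 : ∀ u v : Wd, θ.r u v → ∀ i, i ∈ ct u → i ∉ ct v → K1 θ ω := by
    intro u v huv i hiu hiv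
    have h1 := hrel u v huv i
    have h2 : dl_N10 i v = [] := by
      rw [← List.length_eq_zero_iff, dl_len_N10]
      exact oc_eq_zero.2 hiv
    rw [h2, sb_nil, mkq_nil_N10, mul_one] at h1
    have h3 : dl_N10 i u ≠ [] := by
      intro h
      rw [← List.length_eq_zero_iff, dl_len_N10] at h
      exact absurd h (oc_pos.2 hiu).ne'
    obtain ⟨a, t, hat⟩ := List.exists_cons_of_ne_nil h3
    rw [hat] at h1
    have ha : a.1 = 0 := dl_one_N10 i u a (by rw [hat]; exact List.mem_cons_self ..)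
    set d : Wd := sb (fun _ => [X 1]) (a :: t) with hd
    have hd2 : d = [(1, a.2)] ++ sb (fun _ => [X 1]) t := by
      rw [hd, sb_cons]
      congr 1
      cases a.2 <;> rfl
    have h4 : θ.r (pw [X 0] ω ++ [(1, a.2)] ++ (sb (fun _ => [X 1]) t ++ d)) (pw [X 0] ω) := by
      have e : pw [X 0] ω ++ [(1, a.2)] ++ (sb (fun _ => [X 1]) t ++ d) = pw [X 0] ω ++ d ++ d := by
        conv_rhs => rw [List.append_assoc]
        conv_rhs => rw [show d ++ d = ([(1, a.2)] ++ sb (fun _ => [X 1]) t) ++ d by rw [← hd2]]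
        simp only [List.append_assoc]
      rw [e, ← mkq_eq_N10, mkq_mul_N10, mkq_mul_N10, mkq_pw_N10, h1, h1]
    have h5 := (h8 θ ω hm hn pf (pw [X 0] ω) [(1, a.2)] (sb (fun _ => [X 1]) t ++ d)
      (pw_ne_nil (by simp) hω) (by simp) (by rw [hd2]; simp) (pf.idm2 (by simp)) h4).2.2.2
    have h6 := mkq_eq_N10.2 h5
    rw [mkq_pw_N10, mkq_mul_N10, mkq_pw_N10] at h6
    have h7 : (mkq_N10 θ [X 0] ^ ω * mkq_N10 θ [(1, a.2)]) ^ ω =
        (mkq_N10 θ [X 0] ^ ω) ^ ω * mkq_N10 θ [(1, a.2)] ^ ω :=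
      Commute.mul_pow (hcen _) ω
    have h8' : ∀ k, 0 < k → (mkq_N10 θ [X 0] ^ ω) ^ k = mkq_N10 θ [X 0] ^ ω := by
      intro k hk
      obtain ⟨k, rfl⟩ := Nat.exists_eq_succ_of_ne_zero hk.ne'
      induction k with
      | zero => exact pow_one _
      | succ k ih => rw [pow_succ, ih (Nat.succ_pos _), hH]
    have h9' : mkq_N10 θ [(1, a.2)] ^ ω = mkq_N10 θ [X 1] ^ ω := by
      cases a.2
      · rfl
      · exact hAst
    rw [h7, h8' ω hω, h9'] at h6
    apply hK
    rw [pow_succ, ← mul_assoc, h6]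
  -- case (ii)
  have c2 : ∀ u v : Wd, θ.r u v → ct u = ct v → ∀ i, oc i u = 1 → oc i v ≠ 1 → K1 θ ω := by
    intro u v huv hct i hu hv
    have h1 := hrel u v huv i
    have hv2 : 2 ≤ oc i v := by
      have h2 : i ∈ ct u := oc_pos.1 (by omega)
      rw [hct] at h2
      have h3 := oc_pos.2 h2
      omega
    -- the word w0
    obtain ⟨w0, hw1, hw2, hw3⟩ : ∃ w0 : Wd, One w0 ∧ 2 ≤ w0.length ∧
        mkq_N10 θ [X 0] ^ ω * mkq_N10 θ [X 1] =
          mkq_N10 θ [X 0] ^ ω * mkq_N10 θ (sb (fun _ => [X 1]) w0) := by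
      obtain ⟨a, ha⟩ := List.length_eq_one_iff.1 ((dl_len_N10 i u).trans hu)
      have ha0 : a.1 = 0 := dl_one_N10 i u a (by rw [ha]; exact List.mem_singleton.2 rfl)
      rw [ha] at h1
      rcases hb : a.2 with _ | _
      · refine ⟨dl_N10 i v, dl_one_N10 i v, by rw [dl_len_N10]; exact hv2, ?_⟩
        rw [← h1, sb_single, hb]
        rfl
      · refine ⟨sb (fun _ => [Y 0]) (dl_N10 i v), One_sb_N10 (by
          intro b hb; rw [List.mem_singleton] at hb; rw [hb]; rfl), by
          rw [len_sb_N10, dl_len_N10]; simpa using hv2, ?_⟩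
        rw [sb_single, hb] at h1
        have h2 : θ.r (pw [X 0] ω ++ [Y 1]) (pw [X 0] ω ++ sb (fun _ => [X 1]) (dl_N10 i v)) := by
          rw [← mkq_eq_N10, mkq_mul_N10, mkq_mul_N10, mkq_pw_N10]
          exact h1
        have h3 := mkq_eq_N10.2 (θ.sub' (fun j => if j = 0 then [X 0] else [Y 1]) (by
          intro j
          split_ifs <;> simp) h2)
        rw [sb_append, sb_append, sb_pw, mkq_mul_N10, mkq_mul_N10, mkq_pw_N10, sb_sb] at h3
        rw [sb_sb]
        simpa [st_single] using h3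
    -- iteration
    have hit : ∀ k : ℕ, ∃ w : Wd, One w ∧ 2 ^ k ≤ w.length ∧
        mkq_N10 θ [X 0] ^ ω * mkq_N10 θ [X 1] =
          mkq_N10 θ [X 0] ^ ω * mkq_N10 θ (sb (fun _ => [X 1]) w) := by
      intro k
      induction k with
      | zero =>
        refine ⟨[X 0], by intro b hb; rw [List.mem_singleton] at hb; rw [hb]; rfl, by simp, ?_⟩
        simp
      | succ k ih =>
        obtain ⟨w, g1, g2, g3⟩ := ih
        have hwne : w ≠ [] := by
          rintro rfl
          simp at g2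
        refine ⟨sb (fun _ => w) w0, One_sb_N10 g1, by
          rw [len_sb_N10, pow_succ]; nlinarith, ?_⟩
        have h2 : θ.r (pw [X 0] ω ++ [X 1]) (pw [X 0] ω ++ sb (fun _ => [X 1]) w0) := by
          rw [← mkq_eq_N10, mkq_mul_N10, mkq_mul_N10, mkq_pw_N10]
          exact hw3
        have h3 := mkq_eq_N10.2 (θ.sub' (fun j => if j = 0 then [X 0] else sb (fun _ => [X 1]) w) (by
          intro j
          split_ifs
          · simp
          · exact sb_ne_nil _ (by simp) w hwne) h2)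
        rw [sb_append, sb_append, sb_pw, mkq_mul_N10, mkq_mul_N10, mkq_pw_N10, sb_sb] at h3
        rw [g3, sb_sb]
        simpa using h3
    obtain ⟨w, g1, g2, g3⟩ := hit 3
    have hR := hc θ ω hm pf w (by omega) ⟨0, by rw [oc_one_N10 g1]; omega⟩
    have h5 := (h9 θ ω hm hn pf).2 w g1 hR
    have h6 := mkq_eq_N10.2 (θ.sub' (fun _ => [X 1]) (by simp) h5)
    rw [sb_pw, mkq_pw_N10] at h6
    have h7 : sb (fun _ => [X 1]) [X 0] = [X 1] := by simp
    rw [h7] at h6
    rw [h6] at g3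
    have hAA : mkq_N10 θ [X 1] ^ (ω + w.length) * mkq_N10 θ [X 1] ^ ω =
        mkq_N10 θ [X 1] ^ (ω + w.length) := by
      have := mkq_eq_N10.2 (pf.add (t := [X 1]) (by simp) (j := ω + w.length) (by omega))
      rwa [mkq_pw_N10, mkq_pw_N10, pow_add _ (ω + w.length) ω] at this
    apply hK
    rw [pow_succ', ← mul_assoc, g3, mul_assoc, hAA]
  have hnot : ∃ u v, θ.r u v ∧ ¬ rCd u v := by
    unfold Sub at hsub
    push Not at hsub
    exact hsub
  obtain ⟨u, v, huv, hr⟩ := hnot
  by_cases hct : ct u = ct v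
  · have : ∃ i, ¬ (oc i u = 1 ↔ oc i v = 1) := by
      by_contra h
      push Not at h
      exact hr ⟨hct, fun i => by
        have := h i
        tauto⟩
    obtain ⟨i, hi⟩ := this
    by_cases h1 : oc i u = 1
    · exact c2 u v huv hct i h1 (fun h => hi ⟨fun _ => h, fun _ => h1⟩)
    · have h2 : oc i v = 1 := by
        by_contra h
        exact hi ⟨fun h' => absurd h' h1, fun h' => absurd h' h⟩
      exact c2 v u (θ.symm' huv) hct.symm i h2 h1
  · have : (∃ i, i ∈ ct u ∧ i ∉ ct v) ∨ ∃ i, i ∈ ct v ∧ i ∉ ct u := by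
      by_contra h
      push Not at h
      exact hct (Finset.Subset.antisymm (fun i hi => h.1 i hi) (fun i hi => h.2 i hi))
    rcases this with ⟨i, h1, h2⟩ | ⟨i, h1, h2⟩
    · exact c1 u v huv i h1 h2
    · exact c1 v u (θ.symm' huv) i h1 h2

end Helper1.IM
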