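import Pool.Agent.Helper1.IM.NSt

/-!
# Project IM (MP_265e56_al), second part, module N11a: centrality, main case (helper80)
-/

set_option autoImplicit false

namespace Helper1.IM

/-- The quotient of the words by `θ`. -/
private def sdq_N11a (θ : FIC) : Setoid Wd := ⟨θ.r, ⟨θ.refl', fun h => θ.symm' h, fun h h' => θ.trans' h h'⟩⟩

/-- The quotient monoid. -/
private def Qmq_N11a (θ : FIC) : Type := Quotient (sdq_N11a θ)

/-- The class of a word. -/
private def mkq_N11a (θ : FIC) (w : Wd) : Qmq_N11a θ := Quotient.mk (sdq_N11a θ) w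

private theorem mkq_eq_N11a {θ : FIC} {u v : Wd} : mkq_N11a θ u = mkq_N11a θ v ↔ θ.r u v :=
  ⟨fun h => Quotient.exact h, fun h => Quotient.sound h⟩

private instance mulq_N11a (θ : FIC) : Mul (Qmq_N11a θ) where
  mul := Quotient.map₂ (fun u v => u ++ v) (fun _ _ h _ _ h' => θ.mul2 h h')

private theorem mkq_mul_N11a (θ : FIC) (u v : Wd) : mkq_N11a θ (u ++ v) = mkq_N11a θ u * mkq_N11a θ v := rfl

private instance oneq_N11a (θ : FIC) : _root_.One (Qmq_N11a θ) where
  one := mkq_N11a θ []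

private instance monoidq_N11a (θ : FIC) : Monoid (Qmq_N11a θ) where
  mul_assoc := by
    intro a b c
    induction a using Quotient.ind
    induction b using Quotient.ind
    induction c using Quotient.ind
    rename_i a b c
    change mkq_N11a θ ((a ++ b) ++ c) = mkq_N11a θ (a ++ (b ++ c))
    rw [List.append_assoc]
  one_mul := by
    intro a
    induction a using Quotient.ind
    rename_i a
    change mkq_N11a θ ([] ++ a) = mkq_N11a θ a
    rw [List.nil_append]
  mul_one := by
    intro a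
    induction a using Quotient.ind
    rename_i a
    change mkq_N11a θ (a ++ []) = mkq_N11a θ a
    rw [List.append_nil]

private theorem mkq_pw_N11a (θ : FIC) (u : Wd) (k : ℕ) : mkq_N11a θ (pw u k) = mkq_N11a θ u ^ k := by
  induction k with
  | zero => rfl
  | succ k ih => rw [pw_succ', mkq_mul_N11a, ih, pow_succ]

private theorem one_sb_N11a (w : Wd) : One (sb (fun _ => [X 0]) w) := by
  induction w with
  | nil => intro a ha; simp at ha
  | cons b w ih =>
    intro a ha
    rw [sb_cons] at ha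
    rcases List.mem_append.1 ha with h | h
    · obtain ⟨i, d⟩ := b
      cases d <;> simp at h <;> simp [h]
    · exact ih a h

private theorem idem_pow_N11a {M : Type} [Monoid M] (a : M) (ha : a * a = a) {k : ℕ} (hk : 0 < k) : a ^ k = a := by
  induction k with
  | zero => omega
  | succ k ih =>
    rcases Nat.eq_zero_or_pos k with h | h
    · subst h; simp
    · rw [pow_succ, ih h, ha]

theorem hN11a (h5 : StN5) (h6 : StN6) (hF : StNF) (h9 : StN9b) : StN11a := by
  intro θ ω hM hN hP s0 hs0 hyp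
  have hx : ([X 0] : Wd) ≠ [] := by simp
  have hω := hP.pos
  obtain ⟨h, hh⟩ : ∃ h : Wd, h = pw [X 0] ω := ⟨_, rfl⟩
  rw [← hh] at hyp ⊢
  have hne : h ≠ [] := by rw [hh]; exact pw_ne_nil hx hω
  have hid : θ.r (h ++ h) h := by rw [hh]; exact hP.idm2 hx
  set f0 : ℕ → Wd := fun i => if i = 0 then h else [X 1] with hf0
  set s : Wd := sb f0 s0 with hs
  have hst : θ.r h (st h) := h5 θ hM hN _ hne hid
  set H := mkq_N11a θ h with hH
  set Yy := mkq_N11a θ [X 1] with hY
  have hHH : H * H = H := by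
    rw [hH, ← mkq_mul_N11a]
    exact mkq_eq_N11a.2 hid
  have hHs : mkq_N11a θ (st h) = H := (mkq_eq_N11a.2 hst).symm
  have e1 : Yy * H = mkq_N11a θ s * (Yy * H) := by
    have := mkq_eq_N11a.2 hyp
    rw [mkq_mul_N11a, mkq_mul_N11a, mkq_mul_N11a, mul_assoc] at this
    exact this
  have e2 : ∀ k : ℕ, Yy * H = mkq_N11a θ s ^ k * (Yy * H) := by
    intro k
    induction k with
    | zero => rw [pow_zero, one_mul]
    | succ k ih => rw [pow_succ, mul_assoc, ← e1]; exact ih
  apply mkq_eq_N11a.1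
  rw [mkq_mul_N11a, mkq_mul_N11a, mkq_mul_N11a]
  change Yy * H = H * Yy * H
  by_cases h0 : 0 ∈ ct s0
  · obtain ⟨b, hb⟩ := mem_ct.1 h0
    obtain ⟨s1, s2, h12⟩ := List.append_of_mem hb
    set h' : Wd := if b then st h else h with hh'
    have hs12 : s = sb f0 s1 ++ h' ++ sb f0 s2 := by
      rw [hs, h12, sb_append, sb_cons, List.append_assoc]
      simp only [hf0, if_true, hh']
    have hne' : h' ≠ [] := by
      rw [hh']; split_ifs
      · rwa [ne_eq, st_eq_nil]
      · exact hne
    have hmk' : mkq_N11a θ h' = H := by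
      rw [hh']; split_ifs
      · exact hHs
      · rfl
    obtain ⟨n1, _, n3⟩ := hF θ ω hM hN hP (sb f0 s1) h' (sb f0 s2) hne'
    rw [← hs12] at n1 n3
    have m1 := mkq_eq_N11a.2 n1
    have m3 := mkq_eq_N11a.2 n3
    rw [mkq_mul_N11a, mkq_mul_N11a, hmk', mkq_pw_N11a] at m1
    rw [mkq_mul_N11a, mkq_pw_N11a, mkq_pw_N11a, hmk', idem_pow_N11a H hHH hω] at m3
    have m4 : H * mkq_N11a θ s ^ ω = mkq_N11a θ s ^ ω := by rw [← m1, m3]
    calc Yy * H = mkq_N11a θ s ^ ω * (Yy * H) := e2 ω
      _ = (H * mkq_N11a θ s ^ ω) * (Yy * H) := by rw [m4]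
      _ = H * (mkq_N11a θ s ^ ω * (Yy * H)) := by rw [mul_assoc]
      _ = H * (Yy * H) := by rw [← e2 ω]
      _ = H * Yy * H := by rw [mul_assoc]
  · have hs' : s = sb (fun _ => [X 1]) s0 := by
      apply sb_congr
      intro i hi
      have : i ≠ 0 := fun hc => h0 (hc ▸ hi)
      simp [hf0, this]
    set t : Wd := sb (fun _ => [X 0]) s0 with ht
    have hto : One t := one_sb_N11a s0
    have htn : t ≠ [] := sb_ne_nil _ (fun _ => by simp) s0 hs0
    have hst' : s = sb (fun _ => [X 1]) t := by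
      rw [ht, sb_sb, hs']
      congr 1
    have n1 := θ.sub' (fun _ => [X 1]) (fun _ => by simp) ((h9 θ ω hM hN hP).1 t hto htn)
    rw [sb_pw, sb_pw, ← hst'] at n1
    have hx1 : sb (fun _ => [X 1]) [X 0] = [X 1] := by simp
    rw [hx1] at n1
    have m1 := mkq_eq_N11a.2 n1
    rw [mkq_pw_N11a, mkq_pw_N11a] at m1
    have m2 : Yy * H = Yy ^ (ω + 1) * H := by
      rw [pow_succ, mul_assoc, ← m1]; exact e2 ω
    have n2 : θ.r ([X 1] ++ h) (pw [X 1] (ω + 1) ++ h) := by
      apply mkq_eq_N11a.1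
      rw [mkq_mul_N11a, mkq_mul_N11a, mkq_pw_N11a]
      exact m2
    set g : ℕ → Wd := fun i => if i = 0 then [X 0] else [X 1] ++ h with hg
    have hgn : ∀ i, g i ≠ [] := by
      intro i
      by_cases hi : i = 0
      · simp [hg, hi]
      · simp [hg, hi]
    have n3 := θ.sub' g hgn n2
    have hgh : sb g h = h := by
      rw [hh, sb_pw]
      congr 1
    have hg1 : sb g [X 1] = [X 1] ++ h := by simp [hg]
    rw [sb_append, sb_append, sb_pw, hgh, hg1] at n3
    have m3 := mkq_eq_N11a.2 n3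
    rw [mkq_mul_N11a, mkq_mul_N11a, mkq_mul_N11a, mkq_pw_N11a, mkq_mul_N11a] at m3
    change Yy * H * H = (Yy * H) ^ (ω + 1) * H at m3
    rw [mul_assoc, hHH, pow_succ, mul_assoc, mul_assoc Yy H H, hHH, ← pow_succ] at m3
    have n4 : θ.r (pw ([X 1] ++ h) (ω + 1)) ([X 1] ++ h) := by
      apply mkq_eq_N11a.1
      rw [mkq_pw_N11a, mkq_mul_N11a]
      exact m3.symm
    have n5 := h6 θ ω hM hN hP ([X 1] ++ h) (by simp) n4
    rw [st_append] at n5
    have m5 := mkq_eq_N11a.2 n5
    rw [mkq_mul_N11a, mkq_mul_N11a, hHs] at m5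
    change Yy * H = H * mkq_N11a θ (st [X 1]) at m5
    calc Yy * H = H * mkq_N11a θ (st [X 1]) := m5
      _ = H * H * mkq_N11a θ (st [X 1]) := by rw [hHH]
      _ = H * (Yy * H) := by rw [mul_assoc, ← m5]
      _ = H * Yy * H := by rw [mul_assoc]

end Helper1.IM
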