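import Pool.Agent.Helper1.IM.NSt

set_option autoImplicit false

namespace Helper1.IM

/-- The quotient of the words by `θ`. -/
private def sdq_N11b (θ : FIC) : Setoid Wd := ⟨θ.r, ⟨θ.refl', fun h => θ.symm' h, fun h h' => θ.trans' h h'⟩⟩

/-- The quotient monoid. -/
private def Qmq_N11b (θ : FIC) : Type := Quotient (sdq_N11b θ)

/-- The class of a word. -/
private def mkq_N11b (θ : FIC) (w : Wd) : Qmq_N11b θ := Quotient.mk (sdq_N11b θ) w

private theorem mkq_eq_N11b {θ : FIC} {u v : Wd} : mkq_N11b θ u = mkq_N11b θ v ↔ θ.r u v :=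
  ⟨fun h => Quotient.exact h, fun h => Quotient.sound h⟩

private instance mulq_N11b (θ : FIC) : Mul (Qmq_N11b θ) where
  mul := Quotient.map₂ (fun u v => u ++ v) (fun _ _ h _ _ h' => θ.mul2 h h')

private theorem mkq_mul_N11b (θ : FIC) (u v : Wd) : mkq_N11b θ (u ++ v) = mkq_N11b θ u * mkq_N11b θ v := rfl

private instance oneq_N11b (θ : FIC) : _root_.One (Qmq_N11b θ) where
  one := mkq_N11b θ []

private instance monoidq_N11b (θ : FIC) : Monoid (Qmq_N11b θ) where
  mul_assoc := by
    intro a b c
    induction a using Quotient.ind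
    induction b using Quotient.ind
    induction c using Quotient.ind
    rename_i a b c
    change mkq_N11b θ ((a ++ b) ++ c) = mkq_N11b θ (a ++ (b ++ c))
    rw [List.append_assoc]
  one_mul := by
    intro a
    induction a using Quotient.ind
    rename_i a
    change mkq_N11b θ ([] ++ a) = mkq_N11b θ a
    rw [List.nil_append]
  mul_one := by
    intro a
    induction a using Quotient.ind
    rename_i a
    change mkq_N11b θ (a ++ []) = mkq_N11b θ a
    rw [List.append_nil]

private theorem mkq_pw_N11b (θ : FIC) (u : Wd) (k : ℕ) : mkq_N11b θ (pw u k) = mkq_N11b θ u ^ k := by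
  induction k with
  | zero => rfl
  | succ k ih => rw [pw_succ', mkq_mul_N11b, ih, pow_succ]

private theorem idp_N11b {M : Type} [Monoid M] {E : M} (h : E * E = E) (n : ℕ) : E * E ^ n = E ∧ E ^ n * E = E := by
  induction n with
  | zero => simp
  | succ n ih =>
    refine ⟨?_, ?_⟩
    · rw [pow_succ, ← mul_assoc, ih.1, h]
    · rw [pow_succ', mul_assoc, ih.2, h]

/-- Words all of whose letters are replaced by `x^ω`. -/
private theorem mk_h_N11b {θ : FIC} {h : Wd} (hs : mkq_N11b θ (st h) = mkq_N11b θ h) (f : ℕ → Wd) (w : Wd)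
    (hw : ∀ a ∈ w, f a.1 = h) : mkq_N11b θ (sb f w) = mkq_N11b θ h ^ w.length := by
  induction w with
  | nil => rfl
  | cons a w ih =>
    rw [sb_cons, mkq_mul_N11b, ih (fun b hb => hw b (List.mem_cons_of_mem _ hb)), List.length_cons, pow_succ']
    congr 1
    rw [hw a List.mem_cons_self]
    split_ifs
    · exact hs
    · rfl

/-- Splitting at the first occurrence of the letter `i`. -/
private theorem split_first_N11b {i : ℕ} {u : Wd} (h : i ∈ ct u) :
    ∃ (s : Wd) (b : Bool) (t : Wd), u = s ++ (i, b) :: t ∧ ∀ a ∈ s, a.1 ≠ i := by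
  induction u with
  | nil => simp at h
  | cons a u ih =>
    by_cases ha : a.1 = i
    · exact ⟨[], a.2, u, by simp [← ha], by simp⟩
    · rw [ct_cons, Finset.mem_insert] at h
      rcases h with h | h
      · exact absurd h.symm ha
      · obtain ⟨s, b, t, rfl, hs⟩ := ih h
        refine ⟨a :: s, b, t, rfl, ?_⟩
        intro c hc
        rcases List.mem_cons.1 hc with rfl | hc
        · exact ha
        · exact hs c hc

/-- Splitting at the last occurrence of the letter `i`. -/
private theorem split_last_N11b {i : ℕ} {u : Wd} (h : i ∈ ct u) :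
    ∃ (s : Wd) (b : Bool) (t : Wd), u = s ++ (i, b) :: t ∧ ∀ a ∈ t, a.1 ≠ i := by
  induction u with
  | nil => simp at h
  | cons a u ih =>
    by_cases hu : i ∈ ct u
    · obtain ⟨s, b, t, rfl, hs⟩ := ih hu
      exact ⟨a :: s, b, t, rfl, hs⟩
    · rw [ct_cons, Finset.mem_insert] at h
      rcases h with h | h
      · refine ⟨[], a.2, u, by simp [h], ?_⟩
        intro c hc hci
        exact hu (mem_ct.2 ⟨c.2, by rw [← hci]; exact hc⟩)
      · exact absurd h hu

theorem hN11b (h5 : StN5) (h8 : StN8) (h11 : StN11a) : StN11b := by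
  intro θ ω hm hn pf hsub
  have hω := pf.pos
  have hh0 : pw [X 0] ω ≠ [] := pw_ne_nil (by simp) hω
  have hid : θ.r (pw [X 0] ω ++ pw [X 0] ω) (pw [X 0] ω) := pf.idm2 (by simp)
  have hE : mkq_N11b θ (pw [X 0] ω) * mkq_N11b θ (pw [X 0] ω) = mkq_N11b θ (pw [X 0] ω) := by
    have := mkq_eq_N11b.2 hid
    rwa [mkq_mul_N11b] at this
  have hs : mkq_N11b θ (st (pw [X 0] ω)) = mkq_N11b θ (pw [X 0] ω) := (mkq_eq_N11b.2 (h5 θ hm hn _ hh0 hid)).symm
  -- the substitution `y ↦ y*`
  have hsw : ∀ u v : Wd, θ.r u v → θ.r (sb (fun i => if i = 1 then [Y 1] else [X 0]) u)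
      (sb (fun i => if i = 1 then [Y 1] else [X 0]) v) := fun u v h =>
    θ.sub' _ (by intro i; split_ifs <;> simp) h
  have hsh : sb (fun i => if i = 1 then [Y 1] else [X 0]) (pw [X 0] ω) = pw [X 0] ω := by
    rw [sb_pw]
    simp
  have hst1 : st [Y 1] = [X 1] := rfl
  have hst2 : st [X 1] = [Y 1] := rfl
  -- it suffices to show `y h ~ h y h`
  have suff : θ.r ([X 1] ++ pw [X 0] ω) (pw [X 0] ω ++ [X 1] ++ pw [X 0] ω) → Cen θ ω := by
    intro h
    have h1 := mkq_eq_N11b.2 (θ.star' h)
    simp only [st_append, mkq_mul_N11b, hs, hst2] at h1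
    have h2 : θ.r (pw [X 0] ω ++ [Y 1]) (pw [X 0] ω ++ ([Y 1] ++ pw [X 0] ω)) := by
      apply mkq_eq_N11b.1
      simp only [mkq_mul_N11b]
      exact h1
    have h3 := mkq_eq_N11b.2 (hsw _ _ h2)
    simp only [sb_append, hsh, sb_Y, sb_nil, if_true, List.append_nil, hst1, mkq_mul_N11b] at h3
    have h4 := mkq_eq_N11b.2 h
    simp only [mkq_mul_N11b] at h4
    apply mkq_eq_N11b.1
    simp only [mkq_mul_N11b]
    rw [h3, ← mul_assoc]
    exact h4.symm
  -- factors of `h`
  have fac : ∀ (b : Bool) (z : Wd), z ≠ [] → θ.r (pw [X 0] ω ++ [(1, b)] ++ z) (pw [X 0] ω) → Cen θ ω := by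
    intro b z hz h
    have h1 := (h8 θ ω hm hn pf (pw [X 0] ω) [(1, b)] z hh0 (by simp) hz hid h).1
    cases b with
    | false => exact h1
    | true =>
      have h2 := hsw _ _ h1
      rw [sb_append, sb_append, hsh] at h2
      have h3 : sb (fun i => if i = 1 then [Y 1] else [X 0]) [(1, true)] = [X 1] := by
        rw [sb_single]
        simp [hst1]
      rw [h3] at h2
      exact h2
  -- contents differ
  have cont1 : ∀ (u v : Wd) (i : ℕ), θ.r u v → i ∈ ct u → i ∉ ct v → Cen θ ω := by
    intro u v i huv hiu hiv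
    obtain ⟨f, hfi, hfj⟩ : ∃ f : ℕ → Wd, f i = [X 1] ∧ ∀ j, j ≠ i → f j = pw [X 0] ω :=
      ⟨fun j => if j = i then [X 1] else pw [X 0] ω, if_pos rfl, fun j hj => if_neg hj⟩
    have hf : ∀ j, f j ≠ [] := by
      intro j
      by_cases hj : j = i
      · rw [hj, hfi]; simp
      · rw [hfj j hj]; exact hh0
    obtain ⟨s, b, t, rfl, hsi⟩ := split_first_N11b hiu
    have h1 := θ.mul' (pw [X 0] ω) (pw [X 0] ω) (θ.sub' f hf huv)
    have h3 : sb f ((i, b) :: t) = [((1 : ℕ), b)] ++ sb f t := by
      rw [sb_cons]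
      cases b
      · simp [hfi, X]
      · simp [hfi, X, fl]
    rw [sb_append, h3] at h1
    have h2 := mkq_eq_N11b.2 h1
    rw [mkq_mul_N11b, mkq_mul_N11b, mkq_mul_N11b, mkq_mul_N11b, mkq_mul_N11b, mkq_mul_N11b,
      mk_h_N11b hs f s (fun a ha => hfj _ (hsi a ha)),
      mk_h_N11b hs f v (fun a ha => hfj _ (fun h => hiv (mem_ct.2 ⟨a.2, by rw [← h]; exact ha⟩))),
      (idp_N11b hE _).1, hE, ← mul_assoc, (idp_N11b hE _).1] at h2
    refine fac b (sb f t ++ pw [X 0] ω) (by simp [hh0]) ?_
    apply mkq_eq_N11b.1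
    rw [mkq_mul_N11b, mkq_mul_N11b, mkq_mul_N11b]
    rw [← mul_assoc, mul_assoc (mkq_N11b θ (pw [X 0] ω))]
    exact h2
  by_contra hcon
  apply hsub
  -- all contents are equal
  have hct : ∀ u v, θ.r u v → ct u = ct v := by
    intro u v h
    by_contra hne
    apply hcon
    by_cases h1 : ct u ⊆ ct v
    · have h2 : ¬ ct v ⊆ ct u := fun h2 => hne (Finset.Subset.antisymm h1 h2)
      obtain ⟨i, hi, hi'⟩ := Finset.not_subset.1 h2
      exact cont1 v u i (θ.symm' h) hi hi'
    · obtain ⟨i, hi, hi'⟩ := Finset.not_subset.1 h1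
      exact cont1 u v i h hi hi'
  -- heads
  have head : ∀ (u v : Wd) (c : Lt), θ.r u v → hd u = some c → hd v = some c := by
    intro u v c huv hu
    by_contra hv
    apply hcon
    apply suff
    cases u with
    | nil => simp [hd] at hu
    | cons a u =>
      have ha : a = c ∧ a.1 ∉ ct u := by
        rw [hd] at hu
        split_ifs at hu with h
        exact ⟨Option.some.inj hu, h⟩
      obtain ⟨rfl, hau⟩ := ha
      have hiv : a.1 ∈ ct v := by
        rw [← hct _ _ huv]
        simp
      obtain ⟨s, b, t, rfl, hti⟩ := split_last_N11b hiv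
      -- words over the letters `0`, `1`
      obtain ⟨g, hgi, hgj⟩ : ∃ g : ℕ → Wd, g a.1 = [((1 : ℕ), a.2)] ∧ ∀ j, j ≠ a.1 → g j = [X 0] :=
        ⟨fun j => if j = a.1 then [((1 : ℕ), a.2)] else [X 0], if_pos rfl, fun j hj => if_neg hj⟩
      have hg : ∀ j, g j ≠ [] := by
        intro j
        by_cases hj : j = a.1
        · rw [hj, hgi]; simp
        · rw [hgj j hj]; simp
      obtain ⟨f, hfdef⟩ : ∃ f : ℕ → Wd, f = fun j => if j = 0 then pw [X 0] ω else [X 1] := ⟨_, rfl⟩
      have hf0 : f 0 = pw [X 0] ω := by rw [hfdef]; simp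
      have hf1 : f 1 = [X 1] := by rw [hfdef]; simp
      have hf : ∀ j, f j ≠ [] := by
        intro j
        rw [hfdef]
        dsimp only
        split_ifs
        · exact hh0
        · simp
      have hone : ∀ w : Wd, (∀ c ∈ w, c.1 ≠ a.1) →
          mkq_N11b θ (sb f (sb g w)) = mkq_N11b θ (pw [X 0] ω) ^ w.length := by
        intro w hw
        rw [sb_sb]
        refine mk_h_N11b hs _ w (fun c hc => ?_)
        rw [hgj _ (hw c hc), sb_X, sb_nil, List.append_nil, hf0]
      have h3 : sb f (sb g (a :: u)) = [X 1] ++ sb f (sb g u) := by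
        rw [sb_cons, sb_append, hgi]
        cases h : a.2
        · simp [sb_cons, hf1]
        · simp [sb_cons, hf1, fl]
      have h4 : sb f (sb g ((a.1, b) :: t)) = (if b = a.2 then [X 1] else [Y 1]) ++ sb f (sb g t) := by
        rw [sb_cons, sb_append]
        simp only [hgi]
        cases h : a.2 <;> cases b <;> simp [sb_cons, hf1, fl] <;> rfl
      have h1 := θ.mulR (pw [X 0] ω) (θ.sub' f hf (θ.sub' g hg huv))
      rw [sb_append, sb_append, h3, h4] at h1
      have h2 := mkq_eq_N11b.2 h1
      rw [mkq_mul_N11b, mkq_mul_N11b, mkq_mul_N11b, mkq_mul_N11b, mkq_mul_N11b,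
        hone u (fun c hc h => hau (mem_ct.2 ⟨c.2, by rw [← h]; exact hc⟩)), hone t hti,
        mul_assoc, (idp_N11b hE _).2, mul_assoc, mul_assoc, (idp_N11b hE _).2] at h2
      have hS0ct : ∀ i ∈ ct (sb g s), i = 0 ∨ i = 1 := by
        intro i hi
        rw [ct_sb, Finset.mem_biUnion] at hi
        obtain ⟨j, -, hj⟩ := hi
        by_cases hja : j = a.1
        · rw [hja, hgi] at hj
          right; simpa using hj
        · rw [hgj j hja] at hj
          left; simpa using hj
      have hS0n : s ≠ [] → sb g s ≠ [] := sb_ne_nil _ hg s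
      have hS0e : s = [] → sb g s = [] := by rintro rfl; rfl
      generalize sb g s = S0 at *
      by_cases hba : b = a.2
      · rw [if_pos hba] at h2
        have hs0 : s ≠ [] := by
          rintro rfl
          apply hv
          have : (a.1, b) = a := by rw [hba]
          simp only [List.nil_append, hd]
          rw [if_neg (fun h => by
            obtain ⟨b', hb'⟩ := mem_ct.1 h
            exact hti _ hb' rfl), this]
        refine h11 θ ω hm hn pf S0 (hS0n hs0) ?_
        rw [← hfdef]
        apply mkq_eq_N11b.1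
        simp only [mkq_mul_N11b]
        rw [mul_assoc]
        exact h2
      · rw [if_neg hba] at h2
        -- `y h ~ S y* h`
        have h5' : θ.r ([X 1] ++ pw [X 0] ω)
            (sb f S0 ++ [Y 1] ++ pw [X 0] ω) := by
          apply mkq_eq_N11b.1
          simp only [mkq_mul_N11b]
          rw [mul_assoc]
          exact h2
        by_cases hs0 : s = []
        · have hS : S0 = [] := hS0e hs0
          rw [hS, sb_nil, List.nil_append] at h5'
          have h6 := mkq_eq_N11b.2 (θ.sub' (fun i => if i = 1 then pw [X 0] ω ++ [X 1] else [X 0]) (by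
            intro i
            split_ifs <;> simp) h5')
          have hsh2 : sb (fun i => if i = 1 then pw [X 0] ω ++ [X 1] else [X 0]) (pw [X 0] ω) =
              pw [X 0] ω := by
            rw [sb_pw]
            simp
          simp only [sb_append, hsh2, sb_X, sb_Y, sb_nil, if_true, List.append_nil, st_append, mkq_mul_N11b, hs,
            hst2] at h6
          have h7 := mkq_eq_N11b.2 h5'
          simp only [mkq_mul_N11b] at h7
          apply mkq_eq_N11b.1
          simp only [mkq_mul_N11b]
          rw [h6, mul_assoc, hE, h7]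
        · -- apply `y ↦ y*`
          have h6 := hsw _ _ h5'
          have h7 : sb (fun i => if i = 1 then [Y 1] else [X 0]) (sb f S0) =
              sb f (rw' 1 (fun i => decide (i = 1)) S0) := by
            rw [← sb_rn, sb_sb, sb_sb]
            refine sb_congr _ _ S0 (fun i hi => ?_)
            rcases hS0ct i hi with rfl | rfl
            · rw [hf0, hsh, sb_single]
              simp [hf0]
            · have e1 : sb (fun i => if i = 1 then [Y 1] else [X 0]) [X 1] = [Y 1] := by simp
              have e2 : sb f [(1, true)] = [Y 1] := by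
                rw [sb_single]
                simp [hf1]
              rw [hf1, e1]
              simpa using e2.symm
          simp only [sb_append, hsh, sb_X, sb_Y, sb_nil, if_true, List.append_nil, h7, hst1] at h6
          refine h11 θ ω hm hn pf (S0 ++ rw' 1 (fun i => decide (i = 1)) S0)
            (by simp [hS0n hs0]) ?_
          rw [← hfdef]
          apply mkq_eq_N11b.1
          have e1 := mkq_eq_N11b.2 h5'
          have e2 := mkq_eq_N11b.2 h6
          simp only [mkq_mul_N11b] at e1 e2
          simp only [mkq_mul_N11b, sb_append]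
          rw [e1, mul_assoc, e2]
          simp only [mul_assoc]
  intro u v huv
  have hhd : ∀ u v : Wd, θ.r u v → hd u = hd v := by
    intro u v h
    cases h1 : hd u with
    | none =>
      cases h2 : hd v with
      | none => rfl
      | some c =>
        have := head v u c (θ.symm' h) h2
        rw [h1] at this
        exact absurd this (by simp)
    | some c => exact (head u v c h h1).symm
  exact ⟨hct u v huv, hhd u v huv, hhd _ _ (θ.star' huv)⟩

end Helper1.IM
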