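import Pool.Agent.Helper1.IM.NSt

set_option autoImplicit false

namespace Helper1.IM

private theorem rlen_N12 {w : Wd} (h : ∀ a ∈ w, a.1 = 0) : oc 0 w = w.length := by
  induction w with
  | nil => rfl
  | cons a w ih =>
    rw [oc_cons, ih (fun b hb => h b (List.mem_cons_of_mem _ hb)), if_pos (h a List.mem_cons_self), List.length_cons]
    ring

private theorem len_sb_N12 {t : Wd} (w : Wd) : (sb (fun _ => t) w).length = w.length * t.length := by
  induction w with
  | nil => simp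
  | cons a w ih =>
    rw [sb_cons, List.length_append, ih, List.length_cons]
    split_ifs
    · rw [st_length]; ring
    · ring

private theorem mem_sb0_N12 {t w : Wd} (ht : ∀ a ∈ t, a.1 = 0) : ∀ a ∈ sb (fun _ => t) w, a.1 = 0 := by
  induction w with
  | nil => simp
  | cons b w ih =>
    intro a ha
    rw [sb_cons, List.mem_append] at ha
    rcases ha with ha | ha
    · split_ifs at ha
      · rw [st, List.mem_reverse, List.mem_map] at ha
        obtain ⟨c, hc, rfl⟩ := ha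
        exact ht c hc
      · exact ht a ha
    · exact ih a ha

theorem hN12 (hL : StLevG) (hK : StKlC) (hF : StNFc) (h9 : StN9b) (hc : StN9c) : StN12 := by
  intro θ ω hm hn pf hsub
  have hω := pf.pos
  obtain ⟨k1, k2, k3, k4⟩ := hK θ 3 3 (by norm_num)
  obtain ⟨β, hβ⟩ := hF.2.1
  have hθβ : Le θ β := fun u v h => (hβ u v).2 (hsub u v h)
  have hct3 : ct [X 0, X 1, X 2] = {0, 1, 2} := by
    simp
  have hT4 : ∀ w : Wd, 3 < w.length → Kl θ 3 3 w := fun w h => ⟨w, θ.refl' w, Or.inl h⟩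
  -- `xyz` is killed
  have hkill : Kl θ 3 3 [X 0, X 1, X 2] := by
    by_contra hnk
    let S : Wd → Prop := fun v => v.length = 3 ∧ (ct v).card = 3 ∧ ¬ Kl θ 3 3 v
    have Sr : ∀ u v, S u → θ.r u v → S v ∧ ct u = ct v := by
      rintro u v ⟨h1, h2, h3⟩ hr
      have hcc : ct u = ct v := (hsub u v hr).1
      have h4 := le_of_not_kl h3 hr
      have h5 := card_ct_le v
      rw [← hcc, h2] at h5
      exact ⟨⟨by omega, by rw [← hcc, h2], fun h => h3 (h.of_r (θ.symm' hr))⟩, hcc⟩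
    have Sst : ∀ u, S u → S (st u) := by
      rintro u ⟨h1, h2, h3⟩
      exact ⟨by rw [st_length, h1], by rw [ct_st, h2], by rwa [Kl.st_iff]⟩
    have Srw : ∀ u (p : Equiv.Perm ℕ) (e : ℕ → Bool), S u → S (rw' p e u) := by
      rintro u p e ⟨h1, h2, h3⟩
      exact ⟨by rw [rw'_length, h1], by rw [ct_rw', Finset.card_image_of_injective _ p.injective, h2],
        by rwa [Kl.rw'_iff]⟩
    obtain ⟨α, hα⟩ := hL θ (Kl θ 3 3) S (fun a b => S a ∧ θ.r a b) k1
      (fun a b h hr => h.of_r hr) k2 (fun a h => h.st) (fun a f hf h => k3 a f hf h)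
      (fun a h => ⟨h.2.2, fun h0 => by have := h.1; rw [h0] at this; simp at this⟩)
      (fun a b h => ⟨h.1, (Sr a b h.1 h.2).1, (Sr a b h.1 h.2).2⟩)
      (fun a b h hr => ⟨h, hr⟩)
      (fun a b h => ⟨(Sr a b h.1 h.2).1, θ.symm' h.2⟩)
      (fun a b c h h' => ⟨h.1, θ.trans' h.2 h'.2⟩)
      (fun a b h => ⟨Sst a h.1, θ.star' h.2⟩)
      (fun a b p e h => ⟨Srw a p e h.1, θ.rn p e h.2⟩)
      (fun a x y h hab => (k4 a h.1 h.2.1).1 x y hab)
      (fun a f h hf => (k4 a h.1 h.2.1).2 f hf)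
    obtain ⟨γ, hγ⟩ := hL θ (Kl θ 3 3) S (fun a b => S a ∧ S b ∧ ct a = ct b) k1
      (fun a b h hr => h.of_r hr) k2 (fun a h => h.st) (fun a f hf h => k3 a f hf h)
      (fun a h => ⟨h.2.2, fun h0 => by have := h.1; rw [h0] at this; simp at this⟩)
      (fun a b h => h)
      (fun a b h hr => ⟨h, (Sr a b h hr).1, (Sr a b h hr).2⟩)
      (fun a b h => ⟨h.2.1, h.1, h.2.2.symm⟩)
      (fun a b c h h' => ⟨h.1, h'.2.1, h.2.2.trans h'.2.2⟩)
      (fun a b h => ⟨Sst a h.1, Sst b h.2.1, by rw [ct_st, ct_st, h.2.2]⟩)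
      (fun a b p e h => ⟨Srw a p e h.1, Srw b p e h.2.1, by rw [ct_rw', ct_rw', h.2.2]⟩)
      (fun a x y h hab => (k4 a h.1 h.2.1).1 x y hab)
      (fun a f h hf => (k4 a h.1 h.2.1).2 f hf)
    have hθα : Le θ α := fun a b h => (hα a b).2 (Or.inl h)
    have hθγ : Le θ γ := fun a b h => (hγ a b).2 (Or.inl h)
    have hαγ : Le α γ := by
      intro a b h
      rcases (hα a b).1 h with h | h | h
      · exact hθγ _ _ h
      · exact (hγ a b).2 (Or.inr (Or.inl h))
      · exact hθγ _ _ h.2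
    have hSx : S [X 0, X 1, X 2] := ⟨rfl, by rw [hct3]; rfl, hnk⟩
    have hSz : S [X 2, X 1, X 0] := by
      have := Srw _ (Equiv.swap 0 2) (fun _ => false) hSx
      have h : rw' (Equiv.swap 0 2) (fun _ => false) [X 0, X 1, X 2] = [X 2, X 1, X 0] := by
        simp [X, Equiv.swap_apply_def]
      rwa [h] at this
    have hctz : ct [X 0, X 1, X 2] = ct [X 2, X 1, X 0] := by
      ext i
      simp
      tauto
    have hb1 : β.r [X 0, X 1, X 2] [X 0, X 1, X 1, X 2] := by
      rw [hβ]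
      refine ⟨by simp, ?_, ?_⟩
      · simp [hd]
      · simp [hd, Y]
    have hb2 : β.r [X 2, X 1, X 1, X 0] [X 2, X 1, X 0] := by
      rw [hβ]
      refine ⟨by simp, ?_, ?_⟩
      · simp [hd]
      · simp [hd, Y]
    have hJn : Jn α β [X 0, X 1, X 2] [X 2, X 1, X 0] := by
      refine Relation.ReflTransGen.head (Or.inr hb1) ?_
      refine Relation.ReflTransGen.head (Or.inl ((hα _ _).2 (Or.inr (Or.inl
        ⟨hT4 _ (by simp), hT4 [X 2, X 1, X 1, X 0] (by simp)⟩)))) ?_
      exact Relation.ReflTransGen.single (Or.inr hb2)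
    have hg : γ.r [X 0, X 1, X 2] [X 2, X 1, X 0] := (hγ _ _).2 (Or.inr (Or.inr ⟨hSx, hSz, hctz⟩))
    have hJm := hm α β γ hθα hθβ hθγ hαγ _ _ hJn hg
    have inv : ∀ v, Jm α β γ [X 0, X 1, X 2] v → S v ∧ β.r [X 0, X 1, X 2] v := by
      intro v hv
      induction hv with
      | refl => exact ⟨hSx, β.refl' _⟩
      | @tail b c _ h2 ih =>
        obtain ⟨h3, h4⟩ := ih
        rcases h2 with h2 | ⟨h2, h5⟩
        · rcases (hα b c).1 h2 with h6 | h6 | h6
          · exact ⟨(Sr b c h3 h6).1, β.trans' h4 (hθβ _ _ h6)⟩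
          · exact absurd h6.1 h3.2.2
          · exact ⟨(Sr b c h3 h6.2).1, β.trans' h4 (hθβ _ _ h6.2)⟩
        · rcases (hγ b c).1 h5 with h6 | h6 | h6
          · exact ⟨(Sr b c h3 h6).1, β.trans' h4 h2⟩
          · exact absurd h6.1 h3.2.2
          · exact ⟨h6.2.1, β.trans' h4 h2⟩
    have hfin := ((hβ _ _).1 (inv _ hJm).2).2.1
    simp [hd, X] at hfin
  obtain ⟨w, hxw, hw⟩ := hkill
  obtain ⟨q1, q2, q3⟩ := hsub _ _ hxw
  have hw4 : 3 < w.length := by
    rcases hw with h | ⟨_, h⟩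
    · exact h
    · rw [← q1, hct3] at h
      simp at h
  -- the form of `w`
  obtain ⟨w1, rfl, hw1⟩ : ∃ w1, w = X 0 :: w1 ∧ 0 ∉ ct w1 := by
    cases w with
    | nil => simp at hw4
    | cons a w1 =>
      have h : hd (a :: w1) = some (X 0) := by
        rw [← q2]
        simp [hd]
      rw [hd] at h
      split_ifs at h with h'
      have h2 : a = X 0 := Option.some.inj h
      rw [h2] at h'
      exact ⟨w1, by rw [h2], h'⟩
  obtain ⟨m, hm1, hm2⟩ : ∃ m, X 0 :: w1 = m ++ [X 2] ∧ 2 ∉ ct m := by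
    have h : hd (st (X 0 :: w1)) = some (Y 2) := by
      rw [← q3]
      simp [hd, Y]
    cases hcs : st (X 0 :: w1) with
    | nil => rw [hcs] at h; simp [hd] at h
    | cons a w2 =>
      rw [hcs, hd] at h
      split_ifs at h with h'
      have h2 : a = Y 2 := Option.some.inj h
      rw [h2] at h' hcs
      refine ⟨st w2, ?_, by rw [ct_st]; exact h'⟩
      rw [← st_st (X 0 :: w1), hcs, st_cons, fl_Y]
  obtain ⟨m', rfl⟩ : ∃ m', m = X 0 :: m' := by
    cases m with
    | nil =>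
      simp at hm1
      rw [hm1.2] at hw4
      simp at hw4
    | cons a m' =>
      rw [List.cons_append, List.cons.injEq] at hm1
      exact ⟨m', by rw [← hm1.1]⟩
  have hm3 : w1 = m' ++ [X 2] := by
    rw [List.cons_append, List.cons.injEq] at hm1
    exact hm1.2
  subst hm3
  have hlen : 2 ≤ m'.length := by
    simp at hw4
    omega
  have hmem : ∀ a ∈ m', a.1 = 1 := by
    intro a ha
    have h1 : a.1 ∈ ct (X 0 :: (m' ++ [X 2])) := by
      rw [ct_cons, ct_append, Finset.mem_insert, Finset.mem_union]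
      right; left
      exact mem_ct.2 ⟨a.2, ha⟩
    rw [← q1, hct3] at h1
    have h2 : a.1 ≠ 0 := fun h => hw1 (by
      rw [ct_append, Finset.mem_union]
      left
      exact mem_ct.2 ⟨a.2, by rw [← h]; exact ha⟩)
    have h3 : a.1 ≠ 2 := fun h => hm2 (by
      rw [ct_cons, Finset.mem_insert]
      right
      exact mem_ct.2 ⟨a.2, by rw [← h]; exact ha⟩)
    simp only [Finset.mem_insert, Finset.mem_singleton] at h1
    tauto
  set m0 : Wd := m'.map (fun a => ((0 : ℕ), a.2)) with hm0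
  have hm0l : m0.length = m'.length := by rw [hm0, List.length_map]
  -- substitution of `y`
  have hsubst : ∀ t : Wd, t ≠ [] → θ.r ([X 0] ++ t ++ [X 2]) ([X 0] ++ sb (fun _ => t) m0 ++ [X 2]) := by
    intro t ht
    obtain ⟨f, f0, f1, f2, hf⟩ : ∃ f : ℕ → Wd, f 0 = [X 0] ∧ f 1 = t ∧ f 2 = [X 2] ∧ ∀ i, f i ≠ [] := by
      refine ⟨fun i => if i = 0 then [X 0] else if i = 1 then t else [X 2], by simp, by simp, by simp, ?_⟩
      intro i
      dsimp only
      split_ifs
      · simp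
      · exact ht
      · simp
    have h := θ.sub' f hf hxw
    have h1 : sb f [X 0, X 1, X 2] = [X 0] ++ t ++ [X 2] := by
      simp [f0, f1, f2]
    have h2 : sb f m' = sb (fun _ => t) m0 := by
      rw [hm0]
      clear hm0l hm0 hlen hw4 hxw q1 q2 q3 hw hm1 hw1 hm2 h h1
      induction m' with
      | nil => rfl
      | cons a m' ih =>
        rw [List.map_cons, sb_cons, sb_cons, ih (fun b hb => hmem b (List.mem_cons_of_mem _ hb)),
          hmem a List.mem_cons_self, f1]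
    have h3 : sb f (X 0 :: (m' ++ [X 2])) = [X 0] ++ sb (fun _ => t) m0 ++ [X 2] := by
      rw [sb_X, sb_append, h2, f0, sb_X, sb_nil, f2, List.append_nil, List.append_assoc]
    rwa [h1, h3] at h
  -- iterate
  have hiter : ∀ k : ℕ, ∃ mk : Wd, (∀ a ∈ mk, a.1 = 0) ∧ mk.length = m'.length ^ k ∧
      θ.r ([X 0] ++ [X 1] ++ [X 2]) ([X 0] ++ sb (fun _ => [X 1]) mk ++ [X 2]) := by
    intro k
    induction k with
    | zero => exact ⟨[X 0], by simp, by simp, by simpa using θ.refl' _⟩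
    | succ k ih =>
      obtain ⟨mk, h1, h2, h3⟩ := ih
      refine ⟨sb (fun _ => mk) m0, mem_sb0_N12 h1, by rw [len_sb_N12, h2, hm0l, pow_succ'], ?_⟩
      have hmk0 : mk ≠ [] := by
        intro h
        rw [h] at h2
        have : 0 < m'.length ^ k := Nat.pow_pos (by omega)
        simp at h2
        omega
      refine θ.trans' h3 ?_
      have h4 := hsubst (sb (fun _ => [X 1]) mk) (sb_ne_nil _ (by simp) _ hmk0)
      rw [sb_sb]
      exact h4
  obtain ⟨mk, h1, h2, h3⟩ := hiter 3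
  have hL8 : 8 ≤ mk.length := by
    rw [h2]
    calc 8 = 2 ^ 3 := by norm_num
      _ ≤ m'.length ^ 3 := Nat.pow_le_pow_left hlen 3
  have hR : R θ ω mk := hc θ ω hm pf mk (by omega) ⟨0, by rw [rlen_N12 h1]; omega⟩
  have h4 := (h9 θ ω hm hn pf).2 mk h1 hR
  have h5 := θ.sub' (fun _ => [X 1]) (by simp) h4
  rw [sb_pw] at h5
  have h6 : sb (fun _ => [X 1]) [X 0] = [X 1] := by simp
  rw [h6] at h5
  have h7 : θ.r ([X 0] ++ [X 1] ++ [X 2]) ([X 0] ++ pw [X 1] (ω + mk.length) ++ [X 2]) :=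
    θ.trans' h3 (θ.mul' [X 0] [X 2] h5)
  generalize mk.length = L at *
  -- substitute `y ^ (ω + 1)`
  have h8 : θ.r ([X 0] ++ pw [X 1] (ω + 1) ++ [X 2]) ([X 0] ++ pw [X 1] (ω + L) ++ [X 2]) := by
    obtain ⟨f, f0, f1, f2, hf⟩ : ∃ f : ℕ → Wd, f 0 = [X 0] ∧ f 1 = pw [X 1] (ω + 1) ∧ f 2 = [X 2] ∧
        ∀ i, f i ≠ [] := by
      refine ⟨fun i => if i = 0 then [X 0] else if i = 1 then pw [X 1] (ω + 1) else [X 2],
        by simp, by simp, by simp, ?_⟩
      intro i
      dsimp only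
      split_ifs
      · simp
      · exact pw_ne_nil (by simp) (by omega)
      · simp
    have h := θ.sub' f hf h7
    rw [sb_append, sb_append, sb_append, sb_append, sb_pw] at h
    have e0 : sb f [X 0] = [X 0] := by simp [f0]
    have e1 : sb f [X 1] = pw [X 1] (ω + 1) := by simp [f1]
    have e2 : sb f [X 2] = [X 2] := by simp [f2]
    rw [e0, e1, e2, pw_mul] at h
    refine θ.trans' h (θ.mul' [X 0] [X 2] ?_)
    have h9' := pf.addmul (t := [X 1]) (by simp) (j := ω + L) (by omega) (ω + L)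
    have h10 : (ω + 1) * (ω + L) = ω + L + (ω + L) * ω := by ring
    rw [h10]
    exact h9'
  have h11 : ([X 0, X 1, X 2] : Wd) = [X 0] ++ [X 1] ++ [X 2] := rfl
  show θ.r [X 0, X 1, X 2] ([X 0] ++ pw [X 1] (ω + 1) ++ [X 2])
  rw [h11]
  exact θ.trans' h7 (θ.symm' h8)

end Helper1.IM
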