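import Pool.Agent.Helper1.IM.NSt

set_option autoImplicit false

namespace Helper1.IM

/-- The quotient of the words by `θ`. -/
private def sdq_N13 (θ : FIC) : Setoid Wd := ⟨θ.r, ⟨θ.refl', fun h => θ.symm' h, fun h h' => θ.trans' h h'⟩⟩

/-- The quotient monoid. -/
private def Qmq_N13 (θ : FIC) : Type := Quotient (sdq_N13 θ)

/-- The class of a word. -/
private def mkq_N13 (θ : FIC) (w : Wd) : Qmq_N13 θ := Quotient.mk (sdq_N13 θ) w

private theorem mkq_eq_N13 {θ : FIC} {u v : Wd} : mkq_N13 θ u = mkq_N13 θ v ↔ θ.r u v :=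
  ⟨fun h => Quotient.exact h, fun h => Quotient.sound h⟩

private instance mulq_N13 (θ : FIC) : Mul (Qmq_N13 θ) where
  mul := Quotient.map₂ (fun u v => u ++ v) (fun _ _ h _ _ h' => θ.mul2 h h')

private theorem mkq_mul_N13 (θ : FIC) (u v : Wd) : mkq_N13 θ (u ++ v) = mkq_N13 θ u * mkq_N13 θ v := rfl

private instance oneq_N13 (θ : FIC) : _root_.One (Qmq_N13 θ) where
  one := mkq_N13 θ []

private instance monoidq_N13 (θ : FIC) : Monoid (Qmq_N13 θ) where
  mul_assoc := by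
    intro a b c
    induction a using Quotient.ind
    induction b using Quotient.ind
    induction c using Quotient.ind
    rename_i a b c
    change mkq_N13 θ ((a ++ b) ++ c) = mkq_N13 θ (a ++ (b ++ c))
    rw [List.append_assoc]
  one_mul := by
    intro a
    induction a using Quotient.ind
    rename_i a
    change mkq_N13 θ ([] ++ a) = mkq_N13 θ a
    rw [List.nil_append]
  mul_one := by
    intro a
    induction a using Quotient.ind
    rename_i a
    change mkq_N13 θ (a ++ []) = mkq_N13 θ a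
    rw [List.append_nil]

private theorem mkq_pw_N13 (θ : FIC) (u : Wd) (k : ℕ) : mkq_N13 θ (pw u k) = mkq_N13 θ u ^ k := by
  induction k with
  | zero => rfl
  | succ k ih => rw [pw_succ', mkq_mul_N13, ih, pow_succ]

theorem hN13 (h5 : StN5) (h6 : StN6) (h7 : StN7) (h8 : StN8) (h9 : StN9a) : StN13 := by
  intro θ ω hm hn pf hor
  refine ⟨pf, (h9 θ ω hm hn pf).1, ?_⟩
  have hω := pf.pos
  have hω7 := pf.h7
  obtain ⟨k, hk⟩ : ∃ k, ω = k + 1 := Nat.exists_eq_succ_of_ne_zero (Nat.pos_iff_ne_zero.1 hω)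
  have hk0 : 0 < k := by omega
  have hx0 : pw [X 0] ω ≠ [] := pw_ne_nil (by simp) hω
  have hy0 : pw [X 1] ω ≠ [] := pw_ne_nil (by simp) hω
  have hEE : mkq_N13 θ [X 0] ^ ω * mkq_N13 θ [X 0] ^ ω = mkq_N13 θ [X 0] ^ ω := by
    have := mkq_eq_N13.2 (pf.idm2 (t := [X 0]) (by simp))
    rwa [mkq_mul_N13, mkq_pw_N13] at this
  have hFF : mkq_N13 θ [X 1] ^ ω * mkq_N13 θ [X 1] ^ ω = mkq_N13 θ [X 1] ^ ω := by
    have := mkq_eq_N13.2 (pf.idm2 (t := [X 1]) (by simp))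
    rwa [mkq_mul_N13, mkq_pw_N13] at this
  -- commuting idempotents
  have hcom : mkq_N13 θ [X 0] ^ ω * mkq_N13 θ [X 1] ^ ω = mkq_N13 θ [X 1] ^ ω * mkq_N13 θ [X 0] ^ ω := by
    rcases hor with hc | hq
    · have h1 : mkq_N13 θ [X 0] ^ ω * mkq_N13 θ [X 1] = mkq_N13 θ [X 1] * mkq_N13 θ [X 0] ^ ω := by
        have := mkq_eq_N13.2 hc
        rwa [mkq_mul_N13, mkq_mul_N13, mkq_pw_N13] at this
      exact (Commute.pow_right (show Commute (mkq_N13 θ [X 0] ^ ω) (mkq_N13 θ [X 1]) from h1) ω)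
    · have h1 := θ.sub' (fun i => if i = 0 then pw [X 0] ω else if i = 1 then pw [X 0] ω ++ pw [X 1] ω
        else pw [X 1] ω) (by
          intro i
          split_ifs
          · exact hx0
          · simp [hx0]
          · exact hy0) hq
      rw [sb_X, sb_X, sb_X, sb_append, sb_append, sb_pw, sb_X, sb_X, sb_X, sb_nil] at h1
      simp only [if_true, one_ne_zero, if_false, OfNat.ofNat_ne_zero, OfNat.ofNat_ne_one,
        List.append_nil] at h1
      have h2 := mkq_eq_N13.2 h1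
      simp only [mkq_mul_N13, mkq_pw_N13] at h2
      have h3 : mkq_N13 θ [X 0] ^ ω * mkq_N13 θ [X 1] ^ ω = (mkq_N13 θ [X 0] ^ ω * mkq_N13 θ [X 1] ^ ω) ^ (ω + 1) := by
        generalize mkq_N13 θ [X 0] ^ ω = E at *
        generalize mkq_N13 θ [X 1] ^ ω = F at *
        have e1 : E * (E * F) ^ (ω + 1) = (E * F) ^ (ω + 1) := by
          rw [pow_succ', ← mul_assoc, ← mul_assoc, hEE]
        have e2 : (E * F) ^ (ω + 1) * F = (E * F) ^ (ω + 1) := by
          rw [pow_succ]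
          simp only [mul_assoc]
          rw [hFF]
        have e3 : E * (E * F * F) = E * F := by
          rw [mul_assoc E F F, hFF, ← mul_assoc, hEE]
        rw [e1, e2, e3] at h2
        exact h2
      have h4 : θ.r (pw (pw [X 0] ω ++ pw [X 1] ω) (ω + 1)) (pw [X 0] ω ++ pw [X 1] ω) := by
        apply mkq_eq_N13.1
        rw [mkq_pw_N13, mkq_mul_N13, mkq_pw_N13, mkq_pw_N13]
        exact h3.symm
      have h5' := mkq_eq_N13.2 (h6 θ ω hm hn pf _ (by simp [hx0]) h4)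
      have s1 := mkq_eq_N13.2 (h5 θ hm hn (pw [X 0] ω) hx0 (pf.idm2 (by simp)))
      have s2 := mkq_eq_N13.2 (h5 θ hm hn (pw [X 1] ω) hy0 (pf.idm2 (by simp)))
      rw [st_append, mkq_mul_N13, mkq_mul_N13, ← s1, ← s2, mkq_pw_N13, mkq_pw_N13] at h5'
      exact h5'
  set x := mkq_N13 θ [X 0] with hx
  set y := mkq_N13 θ [X 1] with hy
  have hKK : x ^ ω * y ^ ω * (x ^ ω * y ^ ω) = x ^ ω * y ^ ω := by
    calc x ^ ω * y ^ ω * (x ^ ω * y ^ ω) = x ^ ω * (y ^ ω * x ^ ω) * y ^ ω := by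
          simp only [mul_assoc]
      _ = (x ^ ω * x ^ ω) * (y ^ ω * y ^ ω) := by rw [← hcom]; simp only [mul_assoc]
      _ = _ := by rw [hEE, hFF]
  have hkk : θ.r ((pw [X 0] ω ++ pw [X 1] ω) ++ (pw [X 0] ω ++ pw [X 1] ω)) (pw [X 0] ω ++ pw [X 1] ω) := by
    apply mkq_eq_N13.1
    simp only [mkq_mul_N13, mkq_pw_N13]
    exact hKK
  have hk1 : pw [X 0] ω ++ pw [X 1] ω ≠ [] := by simp [hx0]
  have hxk : x * x ^ k = x ^ ω := by rw [hk, pow_succ']
  have hyk : y * y ^ k = y ^ ω := by rw [hk, pow_succ']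
  have hKE : x ^ ω * y ^ ω * x ^ ω = x ^ ω * y ^ ω := by
    rw [mul_assoc, ← hcom, ← mul_assoc, hEE]
  have hKF : x ^ ω * y ^ ω * y ^ ω = x ^ ω * y ^ ω := by
    rw [mul_assoc, hFF]
  -- factors `x`, `y`
  obtain ⟨a1, a2, -, -⟩ := h8 θ ω hm hn pf (pw [X 0] ω ++ pw [X 1] ω) [X 0] (pw [X 0] k) hk1 (by simp)
    (pw_ne_nil (by simp) hk0) hkk (by
      apply mkq_eq_N13.1
      simp only [mkq_mul_N13, mkq_pw_N13]
      rw [mul_assoc, hxk, hKE])
  obtain ⟨b1, b2, -, -⟩ := h8 θ ω hm hn pf (pw [X 0] ω ++ pw [X 1] ω) [X 1] (pw [X 1] k) hk1 (by simp)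
    (pw_ne_nil (by simp) hk0) hkk (by
      apply mkq_eq_N13.1
      simp only [mkq_mul_N13, mkq_pw_N13]
      rw [mul_assoc, hyk, hKF])
  have a1' := mkq_eq_N13.2 a1
  have a2' := mkq_eq_N13.2 a2
  have b1' := mkq_eq_N13.2 b1
  have b2' := mkq_eq_N13.2 b2
  simp only [mkq_mul_N13, mkq_pw_N13, ← hx, ← hy] at a1' a2' b1' b2'
  obtain ⟨-, c2, -, -⟩ := h8 θ ω hm hn pf (pw [X 0] ω ++ pw [X 1] ω) ([X 0] ++ [X 1])
    (pw [X 1] k ++ pw [X 0] k) hk1 (by simp) (by
      have : pw [X 1] k ≠ [] := pw_ne_nil (by simp) hk0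
      simp [this]) hkk (by
      apply mkq_eq_N13.1
      simp only [mkq_mul_N13, mkq_pw_N13]
      calc x ^ ω * y ^ ω * (x * y) * (y ^ k * x ^ k)
          = (x ^ ω * y ^ ω * x) * (y * y ^ k) * x ^ k := by simp only [mul_assoc]
        _ = x * (x ^ ω * y ^ ω * y ^ ω) * x ^ k := by rw [a1', hyk]; simp only [mul_assoc]
        _ = (x ^ ω * y ^ ω * x) * x ^ k := by rw [hKF, a1']
        _ = x ^ ω * y ^ ω * (x * x ^ k) := by simp only [mul_assoc]
        _ = _ := by rw [hxk, hKE])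
  have c2' := mkq_eq_N13.2 c2
  simp only [mkq_mul_N13, mkq_pw_N13, st_append, ← hx, ← hy] at c2'
  apply mkq_eq_N13.1
  simp only [mkq_mul_N13, mkq_pw_N13, ← hx, ← hy]
  generalize mkq_N13 θ (st [X 0]) = x' at *
  generalize mkq_N13 θ (st [X 1]) = y' at *
  have hK1 : x ^ ω * y ^ ω * (x * y) = x ^ ω * y ^ ω * (y * x) := by
    calc x ^ ω * y ^ ω * (x * y) = x ^ ω * y ^ ω * (y' * x') := c2'
      _ = (x ^ ω * y ^ ω * y') * x' := by simp only [mul_assoc]
      _ = y * (x ^ ω * y ^ ω * x') := by rw [← b2', b1']; simp only [mul_assoc]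
      _ = (y * (x ^ ω * y ^ ω)) * x := by rw [← a2']; simp only [mul_assoc]
      _ = _ := by rw [← b1']; simp only [mul_assoc]
  calc x ^ (ω + 1) * y ^ (ω + 1) = (x * (x ^ ω * y ^ ω)) * y := by
        rw [pow_succ' x, pow_succ y]
        simp only [mul_assoc]
    _ = x ^ ω * y ^ ω * (x * y) := by rw [← a1']; simp only [mul_assoc]
    _ = x ^ ω * y ^ ω * (y * x) := hK1
    _ = (y * (x ^ ω * y ^ ω)) * x := by rw [← b1']; simp only [mul_assoc]
    _ = (y * (y ^ ω * x ^ ω)) * x := by rw [hcom]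
    _ = y ^ (ω + 1) * x ^ (ω + 1) := by
        rw [pow_succ' y, pow_succ x]
        simp only [mul_assoc]

end Helper1.IM
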