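import Pool.Agent.Helper1.IM.NSt

set_option autoImplicit false

namespace Helper1.IM

private theorem comm_N13q {θ : FIC} {A B : Wd} (h : θ.r (A ++ B) (B ++ A)) (k : ℕ) :
    θ.r (pw A k ++ B) (B ++ pw A k) := by
  induction k with
  | zero => simpa using θ.refl' B
  | succ k ih =>
    rw [pw_succ]
    have h1 := θ.mulL A ih
    have h2 := θ.mulR (pw A k) h
    rw [← List.append_assoc] at h1
    rw [List.append_assoc, List.append_assoc] at h2
    rw [← List.append_assoc] at h2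
    rw [← List.append_assoc] at h1
    have h3 := θ.trans' h1 h2
    simpa [List.append_assoc] using h3

theorem hN13q (_h2 : StTk2) : StN13q := by
  intro θ ω hb hq
  have hpos := hb.pf.pos
  -- `x^ω` commutes with `y^(ω+1)`
  have hx : θ.r (pw [X 0] ((ω + 1) * ω)) (pw [X 0] ω) := hb.pf.mul (by simp) (by omega)
  have hc1 : θ.r (pw [X 0] ((ω + 1) * ω) ++ pw [X 1] (ω + 1))
      (pw [X 1] (ω + 1) ++ pw [X 0] ((ω + 1) * ω)) := by
    have := comm_N13q hb.cm ω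
    rwa [pw_mul] at this
  have hc : θ.r (pw [X 1] (ω + 1) ++ pw [X 0] ω) (pw [X 0] ω ++ pw [X 1] (ω + 1)) :=
    θ.trans' (θ.mulL _ (θ.symm' hx)) (θ.trans' (θ.symm' hc1) (θ.mulR _ hx))
  -- substitute in the identity
  have h1 := θ.sub' (fun i => if i = 2 then [X 0] else [X i]) (by
    intro i
    split_ifs <;> simp) hq
  have e1 : sb (fun i => if i = 2 then [X 0] else [X i]) [X 0, X 1, X 2] = [X 0, X 1, X 0] := by simp
  have e2 : sb (fun i => if i = 2 then [X 0] else [X i]) ([X 0] ++ pw [X 1] (ω + 1) ++ [X 2]) =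
      [X 0] ++ pw [X 1] (ω + 1) ++ [X 0] := by
    rw [sb_append, sb_append, sb_pw]
    simp
  rw [e1, e2] at h1
  have h2 := θ.mul' (pw [X 0] (ω - 1)) (pw [X 0] (ω - 1)) h1
  have ea : pw [X 0] ω = pw [X 0] (ω - 1) ++ [X 0] := by
    rw [← pw_succ']; congr 1; omega
  have eb : pw [X 0] ω = [X 0] ++ pw [X 0] (ω - 1) := by
    rw [← pw_succ]; congr 1; omega
  have e3 : pw [X 0] (ω - 1) ++ [X 0, X 1, X 0] ++ pw [X 0] (ω - 1) =
      pw [X 0] ω ++ [X 1] ++ pw [X 0] ω := by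
    calc pw [X 0] (ω - 1) ++ [X 0, X 1, X 0] ++ pw [X 0] (ω - 1)
        = (pw [X 0] (ω - 1) ++ [X 0]) ++ [X 1] ++ ([X 0] ++ pw [X 0] (ω - 1)) := by simp
      _ = pw [X 0] ω ++ [X 1] ++ pw [X 0] ω := by rw [← ea, ← eb]
  have e4 : pw [X 0] (ω - 1) ++ ([X 0] ++ pw [X 1] (ω + 1) ++ [X 0]) ++ pw [X 0] (ω - 1) =
      pw [X 0] ω ++ (pw [X 1] (ω + 1) ++ pw [X 0] ω) := by
    calc pw [X 0] (ω - 1) ++ ([X 0] ++ pw [X 1] (ω + 1) ++ [X 0]) ++ pw [X 0] (ω - 1)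
        = (pw [X 0] (ω - 1) ++ [X 0]) ++ (pw [X 1] (ω + 1) ++ ([X 0] ++ pw [X 0] (ω - 1))) := by
          simp only [List.append_assoc]
      _ = pw [X 0] ω ++ (pw [X 1] (ω + 1) ++ pw [X 0] ω) := by rw [← ea, ← eb]
  rw [e3, e4] at h2
  have h3 := θ.mulL (pw [X 0] ω) hc
  have h4 : θ.r (pw [X 0] ω ++ (pw [X 0] ω ++ pw [X 1] (ω + 1))) (pw [X 0] ω ++ pw [X 1] (ω + 1)) := by
    rw [← List.append_assoc]
    exact θ.mulR _ (hb.pf.idm2 (by simp))
  exact θ.trans' h2 (θ.trans' h3 h4)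

end Helper1.IM
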