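import Pool.Agent.Helper1.IM.NSt2

set_option autoImplicit false

namespace Helper1.IM

/-- The last letter. -/
private def en_N15 (τ : Bool) (c : Lt) : Lt := if τ then c else fl c

private theorem en_fst_N15 (τ : Bool) (c : Lt) : (en_N15 τ c).1 = c.1 := by
  unfold en_N15
  split_ifs <;> rfl

private theorem en_eq_N15 {τ : Bool} {c d c' d' : Lt} (hd : d = en_N15 τ c) (h1 : c'.1 = 0) (h2 : d'.1 = 0)
    (h3 : c'.2 = d'.2 ↔ c.2 = d.2) : d' = en_N15 τ c' := by
  subst hd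
  unfold en_N15 at *
  rcases c with ⟨c, b⟩
  rcases c' with ⟨c', b'⟩
  rcases d' with ⟨d', b''⟩
  simp only at h1 h2
  subst h1 h2
  cases τ <;> simp [fl] at h3 ⊢
  · cases b' <;> cases b'' <;> simp_all
  · exact h3.symm

private theorem oc_X1_N15 (i k : ℕ) : oc i (pw [X 1] k) = if i = 1 then k else 0 := by
  rw [oc_pw]
  split_ifs with h
  · subst h
    simp [oc, X]
  · have : oc i [X 1] = 0 := by
      rw [oc_eq_zero]
      simp [h]
    rw [this, mul_zero]

private theorem ct_X1_N15 {k : ℕ} (h : 0 < k) : ct (pw [X 1] k) = {1} := by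
  rw [ct_pw _ h]
  simp

/-- Substitutions preserve collapsed words. -/
private theorem clp_sb_N15 (hf : StQF) {θ : FIC} {ω : ℕ} (hbq : BQ θ ω) {w : Wd} (h : Clp θ ω w) (f : ℕ → Wd)
    (hfn : ∀ i, f i ≠ []) : Clp θ ω (sb f w) :=
  θ.trans' (θ.sub' f hfn h) ((hf θ ω hbq).2.2.2.2.2 f w hfn)

private theorem clp_of_r_N15 {θ : FIC} {ω : ℕ} (hω : 0 < ω) {u w : Wd} (hr : θ.r u w) (h : Clp θ ω w) : Clp θ ω u :=
  θ.trans' (θ.trans' hr h) (θ.symm' (θ.sub' _ (fun _ => pw_ne_nil (by simp) (by omega)) hr))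

/-- The word `x^(ω+2) y^(ω+e)` is collapsed. -/
private theorem clp_w2_N15 {θ : FIC} {ω : ℕ} (pf : PF θ ω) (e : ℕ) :
    Clp θ ω (pw [X 0] (ω + 2) ++ pw [X 1] (ω + e)) := by
  unfold Clp rho
  rw [sb_append, sb_pw, sb_pw]
  have h0 : sb (fun i => pw [X i] (ω + 1)) [X 0] = pw [X 0] (ω + 1) := by simp
  have h1 : sb (fun i => pw [X i] (ω + 1)) [X 1] = pw [X 1] (ω + 1) := by simp
  rw [h0, h1, pw_mul, pw_mul]
  have e0 : (ω + 1) * (ω + 2) = ω + 2 + (ω + 2) * ω := by ring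
  have e1 : (ω + 1) * (ω + e) = ω + e + (ω + e) * ω := by ring
  rw [e0, e1]
  exact θ.symm' (θ.mul2 (pf.addmul (by simp) (by omega) _) (pf.addmul (by simp) (by omega) _))

/-- The pentagon of type `τ`. -/
private theorem main_N15 (h2 : StTk2) (h3 : StTk3) (hP : StNPer) (hf : StQF) (hn : StQN) (hE : StQE) (hz : StZet)
    (θ : FIC) (ω n : ℕ) (hm : ModAt θ) (hbq : BQ θ ω) (hper : Per θ ω n) (hsub : Sub θ rQ) (τ : Bool) (q m : ℕ)
    (hτ : τ = true ∨ q = 1 ∨ q = 2) (hq : 2 ≤ q) (hqn : q ∣ n) (hmn : m ∣ n) (hm1 : 1 ≤ m) (hqm : Nat.Coprime q m)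
    (F : ∀ e, Nat.Coprime e m →
      ¬ θ.r (X 0 :: pw [X 1] (ω + e) ++ [en_N15 τ (X 0)]) (pw [X 0] (ω + 2) ++ pw [X 1] (ω + e))) : False := by
  have hbc := hbq.1
  have pf := hbc.pf
  have hω := pf.pos
  have hω7 := pf.h7
  have hnω : n ∣ ω := hP.2.2.1 θ ω n pf hper
  have hmω : m ∣ ω := hmn.trans hnω
  have hqω : q ∣ ω := hqn.trans hnω
  obtain ⟨-, t2, -, -, t5⟩ := h2 θ ω hbc
  have hrho : ∀ u v, ct u = ct v → (∀ i, oc i u ≡ oc i v [MOD ω]) → θ.r (rho ω u) (rho ω v) := t2 ω pf.idm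
  -- words
  have ctW : ∀ (c : Lt) (e : ℕ), c.1 = 0 → ct (c :: pw [X 1] (ω + e) ++ [en_N15 τ c]) = {0, 1} := by
    intro c e hc
    rw [ct_append, ct_cons, ct_cons, ct_X1_N15 (by omega), en_fst_N15, hc]
    ext i
    simp
    tauto
  have ocW1 : ∀ (c : Lt) (e : ℕ), c.1 = 0 → oc 1 (c :: pw [X 1] (ω + e) ++ [en_N15 τ c]) = ω + e := by
    intro c e hc
    rw [oc_append, oc_cons, oc_cons, oc_nil, en_fst_N15, hc, oc_X1_N15]
    simp
  have ocW : ∀ (c : Lt) (e i : ℕ), c.1 = 0 → oc i (c :: pw [X 1] (ω + e) ++ [en_N15 τ c]) =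
      if i = 0 then 2 else if i = 1 then ω + e else 0 := by
    intro c e i hc
    rw [oc_append, oc_cons, oc_cons, oc_nil, en_fst_N15, hc, oc_X1_N15]
    by_cases h0 : i = 0
    · subst h0; simp
    · rw [if_neg (Ne.symm h0), if_neg h0]
      simp
  have ocV : ∀ (e i : ℕ), oc i (pw [X 0] (ω + 2) ++ pw [X 1] (ω + e)) =
      if i = 0 then ω + 2 else if i = 1 then ω + e else 0 := by
    intro e i
    rw [oc_append, oc_X1_N15, oc_pw]
    by_cases h0 : i = 0
    · subst h0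
      simp [oc, X]
    · have : oc i [X 0] = 0 := by
        rw [oc_eq_zero]
        simp [h0]
      rw [this, if_neg h0]
      simp
  have ctV : ∀ e : ℕ, ct (pw [X 0] (ω + 2) ++ pw [X 1] (ω + e)) = {0, 1} := by
    intro e
    rw [ct_append, ct_X1_N15 (by omega), ct_pw _ (by omega)]
    ext i
    simp
  have rhoWV : ∀ (c : Lt) (e : ℕ), c.1 = 0 → θ.r (rho ω (c :: pw [X 1] (ω + e) ++ [en_N15 τ c]))
      (rho ω (pw [X 0] (ω + 2) ++ pw [X 1] (ω + e))) := by
    intro c e hc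
    refine hrho _ _ (by rw [ctW c e hc, ctV]) (fun i => ?_)
    rw [ocW c e i hc, ocV]
    split_ifs
    · exact (Nat.ModEq.symm (by simp [Nat.ModEq]))
    · rfl
    · rfl
  -- not collapsed
  have NCX : ∀ e, Nat.Coprime e m → ¬ Clp θ ω (X 0 :: pw [X 1] (ω + e) ++ [en_N15 τ (X 0)]) := by
    intro e he h
    exact F e he (θ.trans' h (θ.trans' (rhoWV (X 0) e rfl) (θ.symm' (clp_w2_N15 pf e))))
  have NC : ∀ (c : Lt) (e : ℕ), c.1 = 0 → Nat.Coprime e m → ¬ Clp θ ω (c :: pw [X 1] (ω + e) ++ [en_N15 τ c]) := by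
    intro c e hc he h
    rcases c with ⟨c, b⟩
    simp only at hc
    subst hc
    cases b with
    | false => exact NCX e he h
    | true =>
      refine NCX e he ?_
      have h1 := clp_sb_N15 hf hbq h (fun i => if i = 0 then [Y 0] else [X i]) (by intro i; split_ifs <;> simp)
      have h4 : sb (fun i => if i = 0 then [Y 0] else [X i]) ((0, true) :: pw [X 1] (ω + e) ++ [en_N15 τ (0, true)]) =
          X 0 :: pw [X 1] (ω + e) ++ [en_N15 τ (X 0)] := by
        rw [sb_append, sb_cons, sb_pw]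
        cases τ <;> simp [en_N15, sb_cons, fl] <;> exact ⟨rfl, rfl, rfl⟩
      rwa [h4] at h1
  have cop : ∀ e, e ≡ 1 [MOD m] → Nat.Coprime e m := by
    intro e he
    have := he.gcd_eq
    rw [Nat.Coprime, this]
    simp
  -- the invariants
  let I : Wd → Prop := fun w => ∃ (e : ℕ) (c : Lt), c.1 = 0 ∧ e ≡ 1 [MOD m] ∧
    θ.r w (c :: pw [X 1] (ω + e) ++ [en_N15 τ c])
  let J : Wd → Prop := fun w => ∃ c : Lt, c.1 = 0 ∧ θ.r w (c :: pw [X 1] (ω + 1) ++ [en_N15 τ c])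
  have qe : ∀ (c : Lt) (e : ℕ) (v : Wd), c.1 = 0 → Nat.Coprime e m →
      θ.r v (c :: pw [X 1] (ω + e) ++ [en_N15 τ c]) → ∃ (c' : Lt) (M' : Wd), v = c' :: M' ++ [en_N15 τ c'] ∧
        c'.1 = 0 ∧ ct M' = {1} ∧ oc 1 M' ≡ ω + e [MOD n] := by
    intro c e v hc he hr
    rcases hE θ ω hbq hsub c (en_N15 τ c) (pw [X 1] (ω + e)) v (en_fst_N15 τ c).symm
      (by rw [ct_X1_N15 (by omega), hc]; simp) (pw_ne_nil (by simp) (by omega)) (θ.symm' hr) with h | h
    · exact absurd h (NC c e hc he)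
    · obtain ⟨c', d', M', hv, a1, a2, a3, a4, a5, -⟩ := h
      rw [hc] at a1 a2 a3
      have hd' : d' = en_N15 τ c' := en_eq_N15 rfl a1 a2 a5
      rw [ct_X1_N15 (by omega)] at a4
      refine ⟨c', M', by rw [hv, hd'], a1, a4, ?_⟩
      have h4 := (h3 θ ω hbc _ _ hr).1 n hper 1
      rw [ocW1 c e hc, hv, oc_append, oc_cons, oc_cons, oc_nil, a1, a2] at h4
      simpa using h4
  have hstep : ∀ (P t Q : Wd) (k l : ℕ), t ≠ [] → ω ≤ k → ω ≤ l → k ≡ l [MOD m] → I (P ++ pw t k ++ Q) →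
      I (P ++ pw t l ++ Q) := by
    rintro P t Q k l ht hk hl hkl ⟨e, c, hc, he, hr⟩
    obtain ⟨c', M', hv, a1, a2, a3⟩ := qe c e _ hc (cop e he) hr
    have h0M : 0 ∉ ct M' := by rw [a2]; simp
    have hoc0 : oc 0 t = 0 := by
      have h4 : oc 0 (P ++ pw t k ++ Q) = 2 := by
        rw [hv, oc_append, oc_cons, oc_cons, oc_nil, en_fst_N15, a1, oc_eq_zero.2 h0M]
        simp
      rw [oc_append, oc_append, oc_pw] at h4
      by_contra h5
      have h6 : 1 ≤ oc 0 t := Nat.one_le_iff_ne_zero.2 h5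
      have h7 : k ≤ k * oc 0 t := Nat.le_mul_of_pos_right k h6
      omega
    have h0t : ∀ a ∈ t, a.1 ≠ 0 := fun a ha h => by
      have := (oc_eq_zero.1 hoc0)
      exact this (mem_ct.2 ⟨a.2, by rw [← h]; exact ha⟩)
    obtain ⟨P', rfl, hv2⟩ : ∃ P', P = c' :: P' ∧ P' ++ pw t k ++ Q = M' ++ [en_N15 τ c'] := by
      cases P with
      | nil =>
        exfalso
        obtain ⟨k', rfl⟩ : ∃ k', k = k' + 1 := ⟨k - 1, by omega⟩
        cases t with
        | nil => exact ht rfl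
        | cons a t' =>
          rw [pw_succ, List.nil_append, List.cons_append, List.cons_append, List.cons_append,
            List.cons.injEq] at hv
          exact h0t a List.mem_cons_self (by rw [hv.1, a1])
      | cons a P' =>
        rw [List.cons_append, List.cons_append, List.cons_append, List.cons.injEq] at hv
        exact ⟨P', by rw [hv.1], hv.2⟩
    obtain ⟨Q', rfl, hv3⟩ : ∃ Q', Q = Q' ++ [en_N15 τ c'] ∧ P' ++ pw t k ++ Q' = M' := by
      rcases List.eq_nil_or_concat Q with hQ | ⟨Q', b, hQ⟩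
      · exfalso
        obtain ⟨k', rfl⟩ : ∃ k', k = k' + 1 := ⟨k - 1, by omega⟩
        rcases List.eq_nil_or_concat t with ht' | ⟨t', b, ht'⟩
        · exact ht ht'
        · rw [List.concat_eq_append] at ht'
          have hbt : b ∈ t := by rw [ht']; simp
          rw [hQ, List.append_nil, pw_succ'] at hv2
          have h8 : (P' ++ pw t k' ++ t') ++ [b] = M' ++ [en_N15 τ c'] := by
            rw [← hv2]
            simp only [List.append_assoc]
            rw [← ht']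
          have h9 := (List.append_inj' h8 rfl).2
          rw [List.cons.injEq] at h9
          exact h0t b hbt (by rw [h9.1, en_fst_N15, a1])
      · rw [List.concat_eq_append] at hQ
        rw [hQ, ← List.append_assoc] at hv2
        have h9 := List.append_inj' hv2 rfl
        rw [List.cons.injEq] at h9
        exact ⟨Q', by rw [hQ, h9.2.1], h9.1⟩
    have hctM : ct (P' ++ pw t l ++ Q') = {1} := by
      rw [← a2, ← hv3, ct_append, ct_append, ct_append, ct_append, ct_pw _ (by omega), ct_pw _ (by omega)]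
    have hocM : oc 1 (P' ++ pw t l ++ Q') ≡ 1 [MOD m] := by
      have h4 : oc 1 (P' ++ pw t l ++ Q') ≡ oc 1 M' [MOD m] := by
        rw [← hv3, oc_append, oc_append, oc_append, oc_append, oc_pw, oc_pw]
        exact ((Nat.ModEq.rfl.add (hkl.symm.mul_right _)).add Nat.ModEq.rfl)
      have h5 : oc 1 M' ≡ ω + e [MOD m] := a3.of_dvd hmn
      have h6 : ω + e ≡ 0 + 1 [MOD m] := (Nat.modEq_zero_iff_dvd.2 hmω).add he
      rw [zero_add] at h6
      exact (h4.trans h5).trans h6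
    refine ⟨oc 1 (P' ++ pw t l ++ Q'), c', a1, hocM, ?_⟩
    have h4 := (hn θ ω n hbq hper).2.1 c' (en_N15 τ c') (P' ++ pw t l ++ Q')
      (pw [X 1] (ω + oc 1 (P' ++ pw t l ++ Q'))) (by
        intro h
        rw [h] at hctM
        simp at hctM) (by rw [hctM, ct_X1_N15 (by omega)]) (by
        intro i
        rw [oc_X1_N15]
        split_ifs with hi
        · subst hi
          have h6 : ω + oc 1 (P' ++ pw t l ++ Q') ≡ 0 + oc 1 (P' ++ pw t l ++ Q') [MOD n] :=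
            (Nat.modEq_zero_iff_dvd.2 hnω).add Nat.ModEq.rfl
          rw [zero_add] at h6
          exact h6.symm
        · have : oc i (P' ++ pw t l ++ Q') = 0 := by
            rw [oc_eq_zero, hctM]
            simpa using hi
          rw [this])
    simpa [List.append_assoc] using h4
  have ha0 : pw [X 0] ω ≠ [] := pw_ne_nil (by simp) hω
  have hb0 : pw [X 0] (ω + m) ≠ [] := pw_ne_nil (by simp) (by omega)
  have hkl1 : ω ≡ ω + m [MOD m] := by simp [Nat.ModEq]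
  have hβI : ∀ w w', (gen θ (pw [X 0] ω) (pw [X 0] (ω + m)) ha0 hb0).r w w' → I w → I w' := by
    intro w w' h hI
    induction h with
    | refl => exact hI
    | @tail b c _ h2' ih =>
      rcases h2' with h4 | ⟨p, q', f, hfn, h4⟩
      · obtain ⟨e, c1, r1, r2, r3⟩ := ih
        exact ⟨e, c1, r1, r2, θ.trans' (θ.symm' h4) r3⟩
      · have s1 : ∀ k, sb f (pw [X 0] k) = pw (f 0) k := by
          intro k
          rw [sb_pw]
          simp
        rw [s1, s1, st_pw, st_pw] at h4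
        have hf0 := hfn 0
        have hf1 : st (f 0) ≠ [] := by simpa using hf0
        rcases h4 with ⟨h5, h6⟩ | ⟨h5, h6⟩ | ⟨h5, h6⟩ | ⟨h5, h6⟩
        · rw [h6]; rw [h5] at ih
          exact hstep p _ q' ω (ω + m) hf0 le_rfl (by omega) hkl1 ih
        · rw [h6]; rw [h5] at ih
          exact hstep p _ q' (ω + m) ω hf0 (by omega) le_rfl hkl1.symm ih
        · rw [h6]; rw [h5] at ih
          exact hstep p _ q' ω (ω + m) hf1 le_rfl (by omega) hkl1 ih
        · rw [h6]; rw [h5] at ih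
          exact hstep p _ q' (ω + m) ω hf1 (by omega) le_rfl hkl1.symm ih
  have hJI : ∀ w, J w → I w := fun w ⟨c, hc, hr⟩ => ⟨1, c, hc, rfl, hr⟩
  -- the three congruences
  obtain ⟨α, hα⟩ := hz θ ω hbq τ q hτ
  obtain ⟨γ, hγ⟩ := hz θ ω hbq τ 1 (Or.inr (Or.inl rfl))
  have hθα : Le θ α := fun a b h => (hα a b).2 (Or.inl h)
  have hθγ : Le θ γ := fun a b h => (hγ a b).2 (Or.inl h)
  have hZ1 : ∀ u, ZR θ ω τ q u → ZR θ ω τ 1 u := by
    rintro u (h | ⟨c, M, z1, z2, -, z4⟩)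
    · exact Or.inl h
    · exact Or.inr ⟨c, M, z1, z2, fun j => one_dvd _, z4⟩
  have hαγ : Le α γ := by
    intro a b h
    rcases (hα a b).1 h with h | ⟨h4, h5, h6⟩
    · exact hθγ _ _ h
    · exact (hγ a b).2 (Or.inr ⟨hZ1 _ h4, hZ1 _ h5, h6⟩)
  obtain ⟨e0, he0q, he0m, he01⟩ : ∃ e0, q ∣ e0 ∧ e0 ≡ 1 [MOD m] ∧ 1 ≤ e0 := by
    obtain ⟨k, hk1, hk2⟩ := Nat.chineseRemainder hqm 0 1
    refine ⟨k + q * m, ?_, ?_, ?_⟩
    · exact (Nat.dvd_add (Nat.modEq_zero_iff_dvd.1 hk1) (Dvd.intro _ rfl))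
    · have : k + q * m ≡ 1 + 0 [MOD m] := hk2.add (Nat.modEq_zero_iff_dvd.2 (Dvd.intro_left _ rfl))
      simpa using this
    · have : 1 ≤ q * m := Nat.mul_pos (by omega) hm1
      omega
  obtain ⟨j0, hj0⟩ : ∃ j0, e0 = 1 + j0 * m := by
    have h4 := (Nat.modEq_iff_dvd' he01).1 he0m.symm
    obtain ⟨j0, hj0⟩ := h4
    exact ⟨j0, by rw [mul_comm] at hj0; omega⟩
  have hen : (if τ then X 0 else fl (X 0)) = en_N15 τ (X 0) := rfl
  have hZW : ∀ e q', q' ∣ ω + e → ZR θ ω τ q' (X 0 :: pw [X 1] (ω + e) ++ [en_N15 τ (X 0)]) := by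
    intro e q' he
    refine Or.inr ⟨X 0, pw [X 1] (ω + e), pw_ne_nil (by simp) (by omega), by rw [ct_X1_N15 (by omega)]; simp, ?_, ?_⟩
    · intro j
      rw [oc_X1_N15]
      split_ifs
      · exact he
      · exact dvd_zero _
    · exact θ.refl' _
  have hw0w3γ : γ.r (X 0 :: pw [X 1] (ω + 1) ++ [en_N15 τ (X 0)]) (pw [X 0] (ω + 2) ++ pw [X 1] (ω + 1)) :=
    (hγ _ _).2 (Or.inr ⟨hZW 1 1 (one_dvd _), Or.inl (clp_w2_N15 pf 1), rhoWV (X 0) 1 rfl⟩)
  have hw1w2 : α.r (X 0 :: pw [X 1] (ω + e0) ++ [en_N15 τ (X 0)]) (pw [X 0] (ω + 2) ++ pw [X 1] (ω + e0)) :=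
    (hα _ _).2 (Or.inr ⟨hZW e0 q (Nat.dvd_add hqω he0q), Or.inl (clp_w2_N15 pf e0), rhoWV (X 0) e0 rfl⟩)
  set β := gen θ (pw [X 0] ω) (pw [X 0] (ω + m)) ha0 hb0 with hβdef
  have hθβ : Le θ β := le_gen θ ha0 hb0
  have hβ1 : β.r (pw [X 1] (ω + 1)) (pw [X 1] (ω + e0)) := by
    have h4 : β.r (pw [X 1] ω) (pw [X 1] (ω + m)) := by
      have h5 := β.sub' (fun _ => [X 1]) (by simp) (gen_pair θ ha0 hb0)
      rw [sb_pw, sb_pw] at h5
      simpa using h5
    have h6 : ∀ j, β.r (pw [X 1] ω) (pw [X 1] (ω + j * m)) := by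
      intro j
      induction j with
      | zero => simpa using β.refl' _
      | succ j ih =>
        have h7 := β.mulR (pw [X 1] (j * m)) h4
        rw [← pw_add, ← pw_add] at h7
        have h8 : ω + m + j * m = ω + (j + 1) * m := by ring
        rw [h8] at h7
        exact β.trans' ih h7
    have h9 := β.mulR (pw [X 1] 1) (h6 j0)
    rw [← pw_add, ← pw_add] at h9
    have h10 : ω + j0 * m + 1 = ω + e0 := by rw [hj0]; ring
    rwa [h10] at h9
  have hJn : Jn α β (X 0 :: pw [X 1] (ω + 1) ++ [en_N15 τ (X 0)]) (pw [X 0] (ω + 2) ++ pw [X 1] (ω + 1)) := by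
    refine Relation.ReflTransGen.head (Or.inr (?_ : β.r _ (X 0 :: pw [X 1] (ω + e0) ++ [en_N15 τ (X 0)]))) ?_
    · exact β.mul' [X 0] [en_N15 τ (X 0)] hβ1
    · refine Relation.ReflTransGen.head (Or.inl hw1w2) ?_
      exact Relation.ReflTransGen.single (Or.inr (β.mulL _ (β.symm' hβ1)))
  have hJm := hm α β γ hθα hθβ hθγ hαγ _ _ hJn hw0w3γ
  have hJinv : ∀ w, Jm α β γ (X 0 :: pw [X 1] (ω + 1) ++ [en_N15 τ (X 0)]) w → J w := by
    intro w hw
    induction hw with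
    | refl => exact ⟨X 0, rfl, θ.refl' _⟩
    | @tail b c _ h2' ih =>
      obtain ⟨c1, hc1, hr1⟩ := ih
      rcases h2' with h4 | ⟨h4, h5⟩
      · rcases (hα b c).1 h4 with h6 | ⟨h6, -, -⟩
        · exact ⟨c1, hc1, θ.trans' (θ.symm' h6) hr1⟩
        · exfalso
          rcases h6 with h6 | ⟨c2, M2, z1, z2, z3, z4⟩
          · exact NC c1 1 hc1 (cop 1 rfl) (clp_of_r_N15 hω (θ.symm' hr1) h6)
          · obtain ⟨c', M', hv, a1, a2, a3⟩ := qe c1 1 _ hc1 (cop 1 rfl) (θ.trans' (θ.symm' z4) hr1)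
            have hM : M2 = M' := by
              rw [List.cons_append, List.cons_append, List.cons.injEq] at hv
              exact (List.append_inj' hv.2 rfl).1
            have h7 : q ∣ oc 1 M' := by rw [← hM]; exact z3 1
            have h8 : oc 1 M' ≡ ω + 1 [MOD q] := a3.of_dvd hqn
            have h9 : q ∣ ω + 1 := (Nat.ModEq.dvd_iff h8 (dvd_refl q)).1 h7
            have h10 : q ∣ 1 := (Nat.dvd_add_right hqω).1 h9
            have := Nat.le_of_dvd one_pos h10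
            omega
      · rcases (hγ b c).1 h5 with h6 | ⟨-, -, h6⟩
        · exact ⟨c1, hc1, θ.trans' (θ.symm' h6) hr1⟩
        · obtain ⟨e, c2, hc2, he, hr2⟩ := hβI b c h4 (hJI b ⟨c1, hc1, hr1⟩)
          have h7 := (h3 θ ω hbc _ _ h6).1 n hper 1
          rw [(t5 b).2, (t5 c).2] at h7
          have h8 := (h3 θ ω hbc _ _ hr1).1 n hper 1
          have h9 := (h3 θ ω hbc _ _ hr2).1 n hper 1
          rw [ocW1 c1 1 hc1] at h8
          rw [ocW1 c2 e hc2] at h9
          have h10 : ∀ x, (ω + 1) * x ≡ x [MOD n] := by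
            intro x
            have h11 : ω + 1 ≡ 0 + 1 [MOD n] := (Nat.modEq_zero_iff_dvd.2 hnω).add Nat.ModEq.rfl
            simpa using h11.mul_right x
          have h12 : ω + 1 ≡ ω + e [MOD n] :=
            h8.symm.trans (((h10 _).symm.trans (h7.trans (h10 _))).trans h9)
          refine ⟨c2, hc2, θ.trans' hr2 ?_⟩
          have h13 := hP.2.2.2 θ ω n pf hper [X 1] (by simp) (ω + e) (ω + 1) (by omega) (by omega) h12.symm
          exact θ.mul' [c2] [en_N15 τ c2] h13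
  obtain ⟨c, hc, hr⟩ := hJinv _ hJm
  exact NC c 1 hc (cop 1 rfl) (clp_of_r_N15 hω (θ.symm' hr) (clp_w2_N15 pf 1))

theorem hN15 (h1 : StTk1) (h2 : StTk2) (h3 : StTk3) (hP : StNPer) (hf : StQF) (hn : StQN) (hE : StQE)
    (h5b : StQ5b) (hz : StZet) : StN15 := by
  intro θ ω n hm hbq hper hsub hpn
  by_contra hcon
  have hn0 : n ≠ 0 := by have := hper.1; omega
  obtain ⟨m, hm'⟩ : ∃ m, n = 2 ^ n.factorization 2 * m := ⟨_, (Nat.ordProj_mul_ordCompl_eq_self n 2).symm⟩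
  have hm0 : m ≠ 0 := by
    rintro rfl
    exact hn0 (by rw [hm']; simp)
  have hcop : Nat.Coprime 2 m := by
    have h4 := Nat.coprime_ordCompl Nat.prime_two hn0
    have h6 : n / 2 ^ n.factorization 2 = m :=
      Nat.div_eq_of_eq_mul_right (pow_pos (by norm_num) _) hm'
    rwa [h6] at h4
  refine main_N15 h2 h3 hP hf hn hE hz θ ω n hm hbq hper hsub false 2 m (Or.inr (Or.inr rfl)) le_rfl
    hpn (Dvd.intro_left _ hm'.symm) (Nat.one_le_iff_ne_zero.2 hm0) hcop ?_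
  intro e _ h
  exact hcon (((h5b θ ω n hbq hper).1 e 0 (dvd_zero _)).2.1 h)

end Helper1.IM
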