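import Pool.Agent.Helper1.IM.NSt

/-!
# Project IM (MP_265e56_al), second part, module N16: four words, type C
-/

set_option autoImplicit false

namespace Helper1.IM

private theorem fw_N16 {u : Wd} (hu : u ∈ Fw) : ct u = {0, 1} ∧ oc 0 u = 2 ∧ oc 1 u = 1 := by
  simp only [Fw, List.mem_cons, List.not_mem_nil, or_false] at hu
  rcases hu with rfl | rfl | rfl | rfl <;> exact ⟨by decide, by decide, by decide⟩

theorem hN16 (hF : StNFc) (hM : StNMax) : StN16 := by
  intro θ ω hMod hP hSub u hu
  obtain ⟨hct, h0, h1⟩ := fw_N16 hu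
  obtain ⟨⟨E, hE⟩, _, _⟩ := hF
  by_contra hR
  have hLe : Le θ E := fun a b h => (hE a b).2 (hSub a b h)
  obtain ⟨w, hw, hb⟩ := hM θ E ω hMod hP hLe u hct hR (by
    intro w hw
    have h2 := hSub u w hw
    refine ⟨[X 0], by simp, (hE _ _).2 ⟨?_, ?_⟩⟩
    · have h3 : (0 : ℕ) ∈ ct w := by rw [← h2.1, hct]; simp
      rw [ct_append]
      ext i
      simp only [Finset.mem_union, ct_cons, ct_nil, X_fst]
      constructor
      · exact fun h => Or.inl h
      · rintro (h | h)
        · exact h
        · have : i = 0 := by simpa using h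
          rw [this]; exact h3
    · intro i
      rw [oc_append]
      by_cases hi : i = 0
      · subst hi
        have h4 : oc 0 w ≠ 1 := by
          intro h5
          have := (h2.2 0).2 h5
          omega
        have h5 : 0 < oc 0 w := by
          rw [oc_pos, ← h2.1, hct]; simp
        have h6 : oc 0 [X 0] = 1 := by decide
        constructor
        · intro h; exact absurd h h4
        · intro h; omega
      · have h6 : oc i [X 0] = 0 := by
          rw [oc_eq_zero]
          simp [hi]
        rw [h6, add_zero])
  have h2 := hSub u w hw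
  have h3 := (hE _ _).1 hb
  have h4 : oc 1 w = 1 := (h2.2 1).1 h1
  have h5 := (h3.2 1).1 h4
  have h6 := oc_rw' (Equiv.swap 0 1) (fun _ => false) 0 w
  rw [Equiv.swap_apply_left] at h6
  rw [h6] at h5
  have h7 := (h2.2 0).2 h5
  omega

end Helper1.IM
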