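import Pool.Agent.Helper1.IM.NSt
import Pool.Agent.Helper2.IMQ

/-!
# Project IM, module N16b: the four words in type C
-/

set_option autoImplicit false

namespace Helper1.IM

open Helper2.IMQ

theorem hN16b (h1 : StTk1) : StN16b := by
  intro θ ω hB hS hC hK hone u hu hR
  have hP := hB.pf
  have hω := hP.pos
  have h7 := hP.h7
  obtain ⟨_, tk2, _⟩ := h1 θ ω hB
  have hxne : ([X 0] : Wd) ≠ [] := by simp
  set x : QuH2 θ := qc θ [X 0] with hx
  set xs : QuH2 θ := qc θ [Y 0] with hxs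
  set y : QuH2 θ := qc θ [X 1] with hy
  have hHH : x ^ ω * x ^ ω = x ^ ω := by
    have h := qc_eq.2 (hP.idm2 hxne)
    rwa [qc_append, qc_pw] at h
  -- `x^ω` is central
  have hcen : ∀ w : Wd, x ^ ω * qc θ w = qc θ w * x ^ ω := by
    intro w
    by_cases hw : w = []
    · rw [hw, qc_nil]; simp
    have h := θ.sub' (fun i => if i = 0 then [X 0] else w) (fun i => by
      by_cases hi : i = 0 <;> simp [hi, hw]) hC
    have h' := qc_eq.2 h
    simp only [sb_append, sb_pw, sb_X, sb_nil, List.append_nil, qc_append, qc_pw] at h'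
    exact h'
  -- commuting behind `x^ω`
  have hcmm : ∀ w w' : Wd, w ≠ [] → w' ≠ [] →
      x ^ ω * (qc θ w * qc θ w') = x ^ ω * (qc θ w' * qc θ w) := by
    intro w w' hw hw'
    have h := θ.sub' (fun i => if i = 0 then [X 0] else if i = 1 then w else w') (fun i => by
      by_cases hi : i = 0
      · simp [hi]
      · by_cases hi1 : i = 1 <;> simp [hi, hi1, hw, hw']) hK
    have h' := qc_eq.2 h
    simp only [sb_append, sb_pw, sb_X, sb_nil, List.append_nil, qc_append, qc_pw] at h'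
    exact h'
  have t1 : x ^ ω * xs = x ^ (ω + 1) := by
    have h := qc_eq.2 (tk2 [X 0] hxne ω le_rfl).1
    rwa [qc_append, qc_pw, qc_pw, st_single, fl_X] at h
  have t2 : x ^ (ω + 1) * xs = x ^ (ω + 2) := by
    have h := qc_eq.2 (tk2 [X 0] hxne (ω + 1) (by omega)).1
    rwa [qc_append, qc_pw, qc_pw, st_single, fl_X] at h
  -- `oc 1 u = 1`, `ct u = {0, 1}`
  have hu1 : oc 1 u = 1 := by
    simp only [Fw, List.mem_cons, List.not_mem_nil, or_false] at hu
    rcases hu with rfl | rfl | rfl | rfl <;> decide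
  have huc : ∀ i ∈ ct u, i = 0 ∨ i = 1 := by
    intro i hi
    simp only [Fw, List.mem_cons, List.not_mem_nil, or_false] at hu
    rcases hu with rfl | rfl | rfl | rfl <;> simp [ct, X, Y] at hi <;> tauto
  obtain ⟨_, p, t, q, ht, hr⟩ := hR
  obtain ⟨hct, hoc⟩ := hS _ _ hr
  have hoc1 : oc 1 (p ++ pw t ω ++ q) = 1 := (hoc 1).1 hu1
  have hone' : One t := by
    intro a ha
    have ha' : a.1 ∈ ct t := mem_ct.2 ⟨a.2, ha⟩
    have h2 : a.1 ∈ ct u := by
      rw [hct, ct_append, ct_append, ct_pw _ hω]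
      simp [ha']
    rcases huc _ h2 with h3 | h3
    · exact h3
    · exfalso
      rw [h3] at ha'
      have h4 := oc_pos.2 ha'
      rw [oc_append, oc_append, oc_pw] at hoc1
      have h5 : 7 * 1 ≤ ω * oc 1 t := Nat.mul_le_mul h7 h4
      omega
  have hpt : qc θ t ^ ω = x ^ ω := by
    have h := qc_eq.2 (hone t hone' ht)
    rwa [qc_pw, qc_pw] at h
  have hur : qc θ u = qc θ p * x ^ ω * qc θ q := by
    have h := qc_eq.2 hr
    rwa [qc_append, qc_append, qc_pw, hpt] at h
  have hu2 : x ^ ω * qc θ u = qc θ u := by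
    rw [hur, ← mul_assoc, ← mul_assoc, hcen p, mul_assoc (qc θ p) (x ^ ω) (x ^ ω), hHH]
  refine qc_eq.1 ?_
  rw [qc_append, qc_pw]
  change qc θ u = x ^ (ω + 2) * y
  rw [← hu2]
  simp only [Fw, List.mem_cons, List.not_mem_nil, or_false] at hu
  rcases hu with rfl | rfl | rfl | rfl
  · change x ^ ω * (x * (x * y)) = _
    rw [pow_add, pow_two]; simp only [mul_assoc]
  · change x ^ ω * (x * (xs * y)) = _
    rw [← mul_assoc, ← mul_assoc, ← pow_succ, t2]
  · change x ^ ω * (x * (y * x)) = _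
    have h := hcmm [X 0, X 1] [X 0] (by simp) (by simp)
    change x ^ ω * ((x * y) * x) = x ^ ω * (x * (x * y)) at h
    rw [← mul_assoc x y x, h, pow_add, pow_two]; simp only [mul_assoc]
  · change x ^ ω * (x * (y * xs)) = _
    have h := hcmm [X 0, X 1] [Y 0] (by simp) (by simp)
    change x ^ ω * ((x * y) * xs) = x ^ ω * (xs * (x * y)) at h
    rw [← mul_assoc x y xs, h, ← mul_assoc, t1, ← mul_assoc, ← pow_succ]

end Helper1.IM
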