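import Pool.Agent.Helper1.IM.NSt
import Pool.Agent.Helper2.IMQ

/-!
# Project IM, module N17: commuting in type C
-/

set_option autoImplicit false

namespace Helper1.IM

open Helper2.IMQ

private theorem lin_not_R_N17 {θ : FIC} {ω : ℕ} (hP : PF θ ω) (hS : Sub θ rCd) {u : Wd} (hu : Lin u) :
    ¬ R θ ω u := by
  rintro ⟨_, p, t, q, ht, hr⟩
  obtain ⟨h1, h2⟩ := hS _ _ hr
  cases t with
  | nil => exact ht rfl
  | cons c t =>
    have hc : 1 ≤ oc c.1 (c :: t) := by rw [oc_cons]; simp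
    have h3 : 2 ≤ oc c.1 (p ++ pw (c :: t) ω ++ q) := by
      rw [oc_append, oc_append, oc_pw]
      have := hP.h7
      have h4 : 7 * 1 ≤ ω * oc c.1 (c :: t) := Nat.mul_le_mul this hc
      omega
    have h5 : c.1 ∈ ct u := by
      rw [h1, ← oc_pos]; omega
    have h6 : oc c.1 u = 1 := by
      have := lin_iff.1 hu c.1
      have := oc_pos.2 h5
      omega
    have := (h2 c.1).1 h6
    omega

theorem hN17 (hT : StTy) : StN17 := by
  intro θ ω hM hP hS hC
  have hω := hP.pos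
  have hty := hT (thN θ ω) (nil_thN hω) (ModAt.le (le_thN θ ω) hM).mod7
  have hxne : ([X 0] : Wd) ≠ [] := by simp
  have hpω : pw [X 0] ω ≠ [] := pw_ne_nil hxne hω
  set x : QuH2 θ := qc θ [X 0] with hx
  set y : QuH2 θ := qc θ [X 1] with hy
  set z : QuH2 θ := qc θ [X 2] with hz
  have hHH : x ^ ω * x ^ ω = x ^ ω := by
    have h := qc_eq.2 (hP.idm2 hxne)
    rwa [qc_append, qc_pw] at h
  have hCy : x ^ ω * y = y * x ^ ω := by
    have h := qc_eq.2 hC
    rwa [qc_append, qc_append, qc_pw] at h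
  have hCz : x ^ ω * z = z * x ^ ω := by
    have h := θ.sub' (fun i => if i = 0 then [X 0] else [X 2]) (fun i => by
      by_cases hi : i = 0 <;> simp [hi]) hC
    have h' := qc_eq.2 h
    simp only [sb_append, sb_pw, sb_X, sb_nil, List.append_nil, qc_append, qc_pw] at h'
    exact h'
  set f : ℕ → Wd := fun i => if i = 1 then [X 1] else if i = 2 then [X 2] else pw [X 0] ω with hf
  have hfn : ∀ i, f i ≠ [] := by
    intro i
    by_cases h1 : i = 1
    · simp [hf, h1]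
    · by_cases h2 : i = 2
      · simp [hf, h2]
      · simp [hf, h1, h2, hpω]
  refine qc_eq.1 ?_
  have hgoal1 : qc θ (pw [X 0] ω ++ [X 1, X 2]) = x ^ ω * (y * z) := by
    rw [qc_append, qc_pw]; rfl
  have hgoal2 : qc θ (pw [X 0] ω ++ [X 2, X 1]) = x ^ ω * (z * y) := by
    rw [qc_append, qc_pw]; rfl
  rw [hgoal1, hgoal2]
  have e0 : f 0 = pw [X 0] ω := by simp [hf]
  have e1 : f 1 = [X 1] := by simp [hf]
  have e2 : f 2 = [X 2] := by simp [hf]
  have e3 : f 3 = pw [X 0] ω := by simp [hf]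
  have e4 : f 4 = pw [X 0] ω := by simp [hf]
  rcases hty.2.1 with h5 | h4 | h3
  · have hl : Lin [X 0, X 3, X 4, X 1, X 2] := by unfold Lin; decide
    have h1 : (thN θ ω).r [X 0, X 3, X 4, X 1, X 2] [X 0, X 3, X 4, X 2, X 1] :=
      h5 _ _ (by simp) (by decide)
    have h2 := thN_r_of_not h1 (lin_not_R_N17 hP hS hl)
    have h3 := qc_eq.2 (θ.sub' f hfn h2)
    simp only [sb_X, sb_nil, e0, e1, e2, e3, e4, qc_append, qc_pw, qc_nil, mul_one] at h3
    calc x ^ ω * (y * z) = x ^ ω * (x ^ ω * (x ^ ω * (y * z))) := by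
          rw [← mul_assoc (x ^ ω) (x ^ ω) (y * z), hHH, ← mul_assoc (x ^ ω) (x ^ ω) (y * z), hHH]
      _ = x ^ ω * (x ^ ω * (x ^ ω * (z * y))) := h3
      _ = x ^ ω * (z * y) := by
          rw [← mul_assoc (x ^ ω) (x ^ ω) (z * y), hHH, ← mul_assoc (x ^ ω) (x ^ ω) (z * y), hHH]
  · have hl : Lin [X 0, X 3, X 1, X 2] := by unfold Lin; decide
    have h1 : (thN θ ω).r [X 0, X 3, X 1, X 2] [X 0, X 3, X 2, X 1] :=
      h4 _ _ (by simp) (by decide)
    have h2 := thN_r_of_not h1 (lin_not_R_N17 hP hS hl)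
    have h3 := qc_eq.2 (θ.sub' f hfn h2)
    simp only [sb_X, sb_nil, e0, e1, e2, e3, qc_append, qc_pw, qc_nil, mul_one] at h3
    calc x ^ ω * (y * z) = x ^ ω * (x ^ ω * (y * z)) := by
          rw [← mul_assoc (x ^ ω) (x ^ ω) (y * z), hHH]
      _ = x ^ ω * (x ^ ω * (z * y)) := h3
      _ = x ^ ω * (z * y) := by
          rw [← mul_assoc (x ^ ω) (x ^ ω) (z * y), hHH]
  · have hl : Lin [X 0, X 1, X 2, X 3] := by unfold Lin; decide
    have h1 : (thN θ ω).r [X 0, X 1, X 2, X 3] [X 0, X 2, X 1, X 3] :=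
      h3 (X 0) (X 3) [X 1, X 2] [X 2, X 1] (by simp) (by decide)
    have h2 := thN_r_of_not h1 (lin_not_R_N17 hP hS hl)
    have h4 := qc_eq.2 (θ.sub' f hfn h2)
    simp only [sb_X, sb_nil, e0, e1, e2, e3, qc_append, qc_pw, qc_nil, mul_one] at h4
    calc x ^ ω * (y * z) = (x ^ ω * x ^ ω) * (y * z) := by rw [hHH]
      _ = x ^ ω * ((x ^ ω * y) * z) := by simp only [mul_assoc]
      _ = x ^ ω * (y * (x ^ ω * z)) := by rw [hCy]; simp only [mul_assoc]
      _ = x ^ ω * (y * (z * x ^ ω)) := by rw [hCz]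
      _ = x ^ ω * (z * (y * x ^ ω)) := h4
      _ = x ^ ω * (z * (x ^ ω * y)) := by rw [hCy]
      _ = x ^ ω * ((z * x ^ ω) * y) := by simp only [mul_assoc]
      _ = x ^ ω * ((x ^ ω * z) * y) := by rw [hCz]
      _ = (x ^ ω * x ^ ω) * (z * y) := by simp only [mul_assoc]
      _ = x ^ ω * (z * y) := by rw [hHH]

end Helper1.IM
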