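import Pool.Agent.Helper1.IM.NSt

set_option autoImplicit false

namespace Helper1.IM

private theorem fw_N19 : ∀ u ∈ Fw, ct u = {0, 1} ∧ oc 0 u = 2 ∧ oc 1 u = 1 := by
  intro u hu
  simp only [Fw, List.mem_cons, List.mem_singleton, List.not_mem_nil, or_false] at hu
  rcases hu with rfl | rfl | rfl | rfl <;>
    refine ⟨?_, ?_, ?_⟩ <;> first
      | decide
      | simp [X, Y, oc_cons, ct_cons]

theorem hN19 (hF : StNFc) (hM : StNMax) (h3 : StTk3) : StN19 := by
  intro θ ω n hA hB hP hn u hu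
  by_contra hR
  obtain ⟨hct, h0, h1⟩ := fw_N19 u hu
  obtain ⟨E, hE⟩ := hF.2.2 n
  have hle : Le θ E := by
    intro a b hab
    rw [hE]
    exact ⟨⟨fun h => θ.ne' hab h, fun h => θ.ne' (θ.symm' hab) h⟩,
      fun i => (h3 θ ω hB a b hab).1 n hP i⟩
  obtain ⟨w, hw, hsw⟩ := hM θ E ω hA hB.pf hle u hct hR (by
    intro w hw
    refine ⟨pw [X 0] n, pw_ne_nil (by simp) (by omega), ?_⟩
    rw [hE]
    refine ⟨?_, fun i => ?_⟩
    · constructor
      · intro h
        have : u = [] := θ.ne' (θ.symm' hw) h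
        rw [this] at h1
        simp at h1
      · intro h
        exact (List.append_eq_nil_iff.1 h).1
    · rw [oc_append, oc_pw]
      have := Nat.ModEq.add_left (oc i w)
        ((Nat.modEq_zero_iff_dvd (n := n) (a := n * oc i [X 0])).2 (Dvd.intro _ rfl))
      simpa using this.symm)
  rw [hE] at hsw
  have e1 := hsw.2 1
  have e2 := oc_rw' (Equiv.swap 0 1) (fun _ => false) 0 w
  rw [Equiv.swap_apply_left] at e2
  rw [e2] at e1
  have e3 := (h3 θ ω hB u w hw).1 n hP 0
  have e4 := (h3 θ ω hB u w hw).1 n hP 1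
  rw [h0] at e3
  rw [h1] at e4
  have e5 : 1 ≡ 2 [MOD n] := e4.trans (e1.trans e3.symm)
  have e6 := (Nat.modEq_iff_dvd' (by norm_num)).1 e5
  have e7 : n ∣ 1 := by simpa using e6
  have := Nat.le_of_dvd one_pos e7
  omega

end Helper1.IM
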