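import Pool.Agent.Helper1.IM.NSt

/-!
# Project IM, module N19b: four words, identities in type K
-/

set_option autoImplicit false

namespace Helper1.IM

private theorem rho_xxy_N19b (ω : ℕ) :
    rho ω [X 0, X 0, X 1] = pw [X 0] (ω + 2 + ω) ++ pw [X 1] (ω + 1) := by
  have h : ω + 2 + ω = (ω + 1) + (ω + 1) := by omega
  rw [h, pw_add]
  simp [rho, List.append_assoc]

theorem hN19b (h2 : StTk2) (h5 : StS05) : StN19b := by
  intro θ ω hB hK u hu hR
  have h1 : θ.r u (rho ω u) := h5 θ ω hB.pf hK u hR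
  have h3 : θ.r (rho ω u) (rho ω [X 0, X 0, X 1]) := by
    refine (h2 θ ω hB).2.1 ω hB.pf.idm u _ ?_ ?_
    · simp only [Fw, List.mem_cons, List.not_mem_nil, or_false] at hu
      rcases hu with rfl | rfl | rfl | rfl <;> decide
    · intro i
      have : oc i u = oc i [X 0, X 0, X 1] := by
        simp only [Fw, List.mem_cons, List.not_mem_nil, or_false] at hu
        rcases hu with rfl | rfl | rfl | rfl <;>
          simp only [oc_cons, oc_nil, X_fst, Y_fst] <;> (split_ifs <;> rfl)
      rw [this]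
  have h4 : θ.r (rho ω [X 0, X 0, X 1]) (pw [X 0] (ω + 2) ++ pw [X 1] (ω + 1)) := by
    rw [rho_xxy_N19b]
    exact θ.mulR _ (hB.pf.add (by simp) (by omega))
  exact θ.trans' h1 (θ.trans' h3 h4)

end Helper1.IM
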