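import Pool.Agent.Helper1.IM.NSt

/-!
# Project IM, second part: module N5 (idempotents are symmetric)
-/

set_option autoImplicit false

namespace Helper1.IM

private theorem pw_idem_N5 {θ : FIC} {t : Wd} (h : θ.r (t ++ t) t) {a : ℕ} (ha : 1 ≤ a) :
    θ.r (pw t a) t := by
  induction a with
  | zero => omega
  | succ a ih =>
    rcases Nat.eq_zero_or_pos a with rfl | h0
    · simpa using θ.refl' t
    · rw [pw_succ]
      exact θ.trans' (θ.mulL t (ih h0)) h

private theorem shift_N5 (e f : Wd) (l : ℕ) : e ++ pw (f ++ e) l = pw (e ++ f) l ++ e := by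
  induction l with
  | zero => simp
  | succ l ih =>
    rw [pw_succ', pw_succ']
    rw [← List.append_assoc, ih]
    simp [List.append_assoc]

/-- collapse of products of `t` and its star -/
private theorem collapse_N5 {θ : FIC} {t : Wd} (h : θ.r (t ++ t) t) (w : Wd) :
    (∃ i, θ.r (t ++ sb (fun _ => t) w ++ t) (pw (t ++ st t) i ++ t) ∧
      ((∃ a ∈ w, a.2 = true) → 1 ≤ i)) ∧
    (∃ i, θ.r (st t ++ sb (fun _ => t) w ++ t) (st t ++ (pw (t ++ st t) i ++ t))) := by
  have hf : θ.r (st t ++ st t) (st t) := by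
    have := θ.star' h
    rwa [st_append] at this
  induction w with
  | nil =>
    refine ⟨⟨0, by simpa using h, ?_⟩, ⟨0, by simpa using θ.refl' _⟩⟩
    rintro ⟨a, ha, -⟩
    simp at ha
  | cons a w ih =>
    obtain ⟨⟨i, hi, hi'⟩, ⟨j, hj⟩⟩ := ih
    rw [sb_cons]
    rcases a with ⟨n, b⟩
    cases b
    · refine ⟨⟨i, ?_, ?_⟩, ⟨i, ?_⟩⟩
      · have h1 := θ.mulR (sb (fun _ => t) w ++ t) h
        have h2 : t ++ ((if ((n, false) : Lt).2 = true then st t else t) ++ sb (fun _ => t) w) ++ t =
          t ++ t ++ (sb (fun _ => t) w ++ t) := by simp [List.append_assoc]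
        rw [h2]
        refine θ.trans' h1 ?_
        rw [← List.append_assoc]
        exact hi
      · rintro ⟨a, ha, ha2⟩
        rcases List.mem_cons.1 ha with h3 | h3
        · rw [h3] at ha2
          simp at ha2
        · exact hi' ⟨a, h3, ha2⟩
      · have h2 : st t ++ ((if ((n, false) : Lt).2 = true then st t else t) ++ sb (fun _ => t) w) ++ t =
          st t ++ (t ++ sb (fun _ => t) w ++ t) := by simp [List.append_assoc]
        rw [h2]
        exact θ.mulL (st t) hi
    · refine ⟨⟨j + 1, ?_, fun _ => by omega⟩, ⟨j, ?_⟩⟩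
      · have h2 : t ++ ((if ((n, true) : Lt).2 = true then st t else t) ++ sb (fun _ => t) w) ++ t =
          t ++ (st t ++ sb (fun _ => t) w ++ t) := by simp [List.append_assoc]
        rw [h2]
        have h3 : pw (t ++ st t) (j + 1) ++ t = t ++ (st t ++ (pw (t ++ st t) j ++ t)) := by
          rw [pw_succ]
          simp [List.append_assoc]
        rw [h3]
        exact θ.mulL t hj
      · have h1 := θ.mulR (sb (fun _ => t) w ++ t) hf
        have h2 : st t ++ ((if ((n, true) : Lt).2 = true then st t else t) ++ sb (fun _ => t) w) ++ t =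
          st t ++ st t ++ (sb (fun _ => t) w ++ t) := by simp [List.append_assoc]
        rw [h2]
        refine θ.trans' h1 ?_
        rw [← List.append_assoc]
        exact hj

theorem hN5 (h2 : StNA2) (h3 : StNA3) : StN5 := by
  intro θ hM hH t ht h
  have hf : θ.r (st t ++ st t) (st t) := by
    have := θ.star' h
    rwa [st_append] at this
  -- e ~ (ef)^i e
  obtain ⟨a, v, ha, -, -, hY, hv⟩ := h2 θ hM hH
  have hv1 : θ.r t (sb (fun _ => t) v) := by
    have h4 := θ.sub' (fun _ => t) (fun _ => ht) hv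
    have h5 : sb (fun _ => t) [X 0] = t := by simp
    rw [sb_pw, h5] at h4
    exact θ.trans' (θ.symm' (pw_idem_N5 h ha)) h4
  obtain ⟨⟨i, hi, hi'⟩, -⟩ := collapse_N5 h v
  have hi1 : 1 ≤ i := hi' ⟨Y 0, hY, rfl⟩
  have hA : θ.r t (pw (t ++ st t) i ++ t) := by
    refine θ.trans' ?_ hi
    have h4 := θ.mul' t t hv1
    refine θ.trans' (θ.symm' ?_) h4
    exact θ.trans' (θ.mulR t h) h
  have hAk : ∀ k, θ.r t (pw (t ++ st t) (k * i) ++ t) := by
    intro k
    induction k with
    | zero => simpa using θ.refl' t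
    | succ k ih =>
      have h4 : pw (t ++ st t) ((k + 1) * i) ++ t =
          pw (t ++ st t) (k * i) ++ (pw (t ++ st t) i ++ t) := by
        rw [Nat.succ_mul, pw_add]
        simp [List.append_assoc]
      rw [h4]
      exact θ.trans' ih (θ.mulL _ hA)
  -- f e p(e) ~ e p(e)
  obtain ⟨p, q, -, -, hpq⟩ := h3 θ hM hH
  have hpq1 : θ.r (t ++ sb (fun _ => t) p) (st t ++ sb (fun _ => t) q) := by
    have h4 := θ.sub' (fun _ => t) (fun _ => ht) hpq
    rwa [sb_X, sb_Y] at h4
  have hB : θ.r (st t ++ (t ++ sb (fun _ => t) p)) (t ++ sb (fun _ => t) p) := by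
    refine θ.trans' (θ.mulL (st t) hpq1) ?_
    rw [← List.append_assoc]
    exact θ.trans' (θ.mulR _ hf) (θ.symm' hpq1)
  obtain ⟨⟨j, hj, -⟩, -⟩ := collapse_N5 h p
  have hB' : θ.r (st t ++ (pw (t ++ st t) j ++ t)) (pw (t ++ st t) j ++ t) := by
    have h4 := θ.mulR t hB
    rw [List.append_assoc] at h4
    exact θ.trans' (θ.mulL (st t) (θ.symm' hj)) (θ.trans' h4 hj)
  have hji : j ≤ j * i := Nat.le_mul_of_pos_right j hi1
  obtain ⟨l, hl⟩ := Nat.exists_eq_add_of_le hji
  have hZ : pw (t ++ st t) j ++ t ++ pw (st t ++ t) l = pw (t ++ st t) (j * i) ++ t := by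
    rw [List.append_assoc, shift_N5, hl, pw_add]
    simp [List.append_assoc]
  have hC : θ.r (st t ++ t) t := by
    have h4 := θ.mulR (pw (st t ++ t) l) hB'
    rw [List.append_assoc, hZ] at h4
    exact θ.trans' (θ.mulL (st t) (hAk j)) (θ.trans' h4 (θ.symm' (hAk j)))
  have hD : θ.r (st t ++ t) (st t) := by
    have h4 := θ.star' hC
    rwa [st_append, st_st] at h4
  exact θ.trans' (θ.symm' hC) hD

end Helper1.IM
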