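import Pool.Agent.Helper1.IM.NSt

/-!
# Project IM, second part: module N6 (group elements are symmetric)
-/

set_option autoImplicit false

namespace Helper1.IM

/-- The quotient of the words by `θ`. -/
def sd_N6 (θ : FIC) : Setoid Wd := ⟨θ.r, ⟨θ.refl', fun h => θ.symm' h, fun h h' => θ.trans' h h'⟩⟩

/-- The quotient monoid. -/
def Qm_N6 (θ : FIC) : Type := Quotient (sd_N6 θ)

/-- The class of a word. -/
def mk_N6 (θ : FIC) (w : Wd) : Qm_N6 θ := Quotient.mk (sd_N6 θ) w

theorem mk_eq_N6 {θ : FIC} {u v : Wd} : mk_N6 θ u = mk_N6 θ v ↔ θ.r u v :=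
  ⟨fun h => Quotient.exact h, fun h => Quotient.sound h⟩

instance mul_N6 (θ : FIC) : Mul (Qm_N6 θ) where
  mul := Quotient.map₂ (fun u v => u ++ v) (fun _ _ h _ _ h' => θ.mul2 h h')

theorem mk_mul_N6 (θ : FIC) (u v : Wd) : mk_N6 θ (u ++ v) = mk_N6 θ u * mk_N6 θ v := rfl

instance one_N6 (θ : FIC) : _root_.One (Qm_N6 θ) where
  one := mk_N6 θ []

instance monoid_N6 (θ : FIC) : Monoid (Qm_N6 θ) where
  mul_assoc := by
    intro a b c
    induction a using Quotient.ind
    induction b using Quotient.ind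
    induction c using Quotient.ind
    rename_i a b c
    change mk_N6 θ ((a ++ b) ++ c) = mk_N6 θ (a ++ (b ++ c))
    rw [List.append_assoc]
  one_mul := by
    intro a
    induction a using Quotient.ind
    rename_i a
    change mk_N6 θ ([] ++ a) = mk_N6 θ a
    rw [List.nil_append]
  mul_one := by
    intro a
    induction a using Quotient.ind
    rename_i a
    change mk_N6 θ (a ++ []) = mk_N6 θ a
    rw [List.append_nil]

theorem mk_pw_N6 (θ : FIC) (u : Wd) (k : ℕ) : mk_N6 θ (pw u k) = mk_N6 θ u ^ k := by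
  induction k with
  | zero => rfl
  | succ k ih => rw [pw_succ', mk_mul_N6, ih, pow_succ]

/-- products of group elements -/
theorem grp_N6 {M : Type} [Monoid M] {e s s' : M} {ω : ℕ} (hω : 2 ≤ ω)
    (hid : (s * s') ^ ω * (s * s') ^ ω = (s * s') ^ ω) (h1 : e * s = s) (h2 : s * e = s)
    (h3 : s ^ ω = e) (h1' : e * s' = s') (h2' : s' * e = s') (h3' : s' ^ ω = e) :
    (s * s') ^ ω = e := by
  have hse : (s * s') * e = s * s' := by rw [mul_assoc, h2']
  have hr : (s * s') * (s' ^ (ω - 1) * s ^ (ω - 1)) = e := by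
    have a1 : s' * s' ^ (ω - 1) = e := by
      rw [← pow_succ', Nat.sub_add_cancel (by omega), h3']
    have a2 : s * s ^ (ω - 1) = e := by
      rw [← pow_succ', Nat.sub_add_cancel (by omega), h3]
    calc (s * s') * (s' ^ (ω - 1) * s ^ (ω - 1))
        = s * (s' * s' ^ (ω - 1)) * s ^ (ω - 1) := by simp only [mul_assoc]
      _ = s * s ^ (ω - 1) := by rw [a1, h2]
      _ = e := a2
  set r := s' ^ (ω - 1) * s ^ (ω - 1) with hrd
  have hk : ∀ k, (s * s') ^ (k + 1) * r ^ (k + 1) = e := by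
    intro k
    induction k with
    | zero => simpa using hr
    | succ k ih =>
      calc (s * s') ^ (k + 1 + 1) * r ^ (k + 1 + 1)
          = (s * s') * ((s * s') ^ (k + 1) * r ^ (k + 1)) * r := by
            rw [pow_succ' (s * s') (k + 1), pow_succ r (k + 1)]
            simp only [mul_assoc]
        _ = (s * s') * r := by rw [ih, hse]
        _ = e := hr
  have hkω : (s * s') ^ ω * r ^ ω = e := by
    have := hk (ω - 1)
    rwa [Nat.sub_add_cancel (by omega)] at this
  have hPe : (s * s') ^ ω * e = (s * s') ^ ω := by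
    obtain ⟨k, hk⟩ : ∃ k, ω = k + 1 := ⟨ω - 1, by omega⟩
    rw [hk, pow_succ, mul_assoc, hse]
  calc (s * s') ^ ω = (s * s') ^ ω * e := hPe.symm
    _ = (s * s') ^ ω * ((s * s') ^ ω * r ^ ω) := by rw [hkω]
    _ = (s * s') ^ ω * (s * s') ^ ω * r ^ ω := by rw [mul_assoc]
    _ = (s * s') ^ ω * r ^ ω := by rw [hid]
    _ = e := hkω

/-- elements of the maximal subgroup with unit `e` -/
def G_N6 (θ : FIC) (ω : ℕ) (e s : Wd) : Prop :=
  s ≠ [] ∧ θ.r (e ++ s) s ∧ θ.r (s ++ e) s ∧ θ.r (pw s ω) e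

theorem G_mul_N6 {θ : FIC} {ω : ℕ} (pf : PF θ ω) {e s s' : Wd} (h : G_N6 θ ω e s)
    (h' : G_N6 θ ω e s') : G_N6 θ ω e (s ++ s') := by
  obtain ⟨a0, a1, a2, a3⟩ := h
  obtain ⟨b0, b1, b2, b3⟩ := h'
  refine ⟨by simp [a0], ?_, ?_, ?_⟩
  · have := θ.mulR s' a1
    rwa [List.append_assoc] at this
  · rw [List.append_assoc]
    exact θ.mulL s b2
  · apply mk_eq_N6.1
    rw [mk_pw_N6, mk_mul_N6]
    apply grp_N6 (lt_of_lt_of_le (by norm_num) pf.h7).le
    · have := mk_eq_N6.2 (pf.idm2 (t := s ++ s') (by simp [a0]))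
      rwa [mk_mul_N6, mk_pw_N6, mk_mul_N6] at this
    · exact mk_eq_N6.2 a1
    · exact mk_eq_N6.2 a2
    · have := mk_eq_N6.2 a3
      rwa [mk_pw_N6] at this
    · exact mk_eq_N6.2 b1
    · exact mk_eq_N6.2 b2
    · have := mk_eq_N6.2 b3
      rwa [mk_pw_N6] at this

theorem G_st_N6 {θ : FIC} {ω : ℕ} {e s : Wd} (he : θ.r e (st e)) (h : G_N6 θ ω e s) :
    G_N6 θ ω e (st s) := by
  obtain ⟨a0, a1, a2, a3⟩ := h
  refine ⟨by simpa using a0, ?_, ?_, ?_⟩
  · have h1 := θ.star' a2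
    rw [st_append] at h1
    exact θ.trans' (θ.mulR (st s) he) h1
  · have h1 := θ.star' a1
    rw [st_append] at h1
    exact θ.trans' (θ.mulL (st s) he) h1
  · have h1 := θ.star' a3
    rw [st_pw] at h1
    exact θ.trans' h1 (θ.symm' he)

theorem G_sb_N6 {θ : FIC} {ω : ℕ} (pf : PF θ ω) {e : Wd} (he : θ.r e (st e)) {f : ℕ → Wd}
    (hf : ∀ i, G_N6 θ ω e (f i)) (w : Wd) (hw : w ≠ []) : G_N6 θ ω e (sb f w) := by
  induction w with
  | nil => exact absurd rfl hw
  | cons a w ih =>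
    have h1 : G_N6 θ ω e (if a.2 then st (f a.1) else f a.1) := by
      split_ifs
      · exact G_st_N6 he (hf _)
      · exact hf _
    rw [sb_cons]
    by_cases hw' : w = []
    · subst hw'
      rw [sb_nil, List.append_nil]
      exact h1
    · exact G_mul_N6 pf h1 (ih hw')

/-- the congruence of all identities which hold in the subgroup -/
def mu_N6 (θ : FIC) (ω : ℕ) (pf : PF θ ω) (e : Wd) (he : θ.r e (st e)) : FIC where
  r u v := (u = [] ↔ v = []) ∧ ∀ f : ℕ → Wd, (∀ i, G_N6 θ ω e (f i)) → θ.r (sb f u) (sb f v)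
  refl' _ := ⟨Iff.rfl, fun _ _ => θ.refl' _⟩
  symm' h := ⟨h.1.symm, fun f hf => θ.symm' (h.2 f hf)⟩
  trans' h h' := ⟨h.1.trans h'.1, fun f hf => θ.trans' (h.2 f hf) (h'.2 f hf)⟩
  ne' h hu := h.1.1 hu
  mul' := by
    intro u v a b h
    refine ⟨by simp [h.1], fun f hf => ?_⟩
    rw [sb_append, sb_append, sb_append, sb_append]
    exact θ.mul' _ _ (h.2 f hf)
  star' := by
    intro u v h
    refine ⟨by simpa using h.1, fun f hf => ?_⟩
    rw [sb_st, sb_st]
    exact θ.star' (h.2 f hf)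
  sub' := by
    intro u v g hg h
    refine ⟨?_, fun f hf => ?_⟩
    · constructor
      · intro h1
        by_contra h2
        have : v ≠ [] := fun h3 => h2 (by rw [h3]; rfl)
        exact sb_ne_nil g hg u (fun h3 => this (h.1.1 h3)) h1
      · intro h1
        by_contra h2
        have : u ≠ [] := fun h3 => h2 (by rw [h3]; rfl)
        exact sb_ne_nil g hg v (fun h3 => this (h.1.2 h3)) h1
    · rw [sb_sb, sb_sb]
      exact h.2 _ (fun i => G_sb_N6 pf he hf (g i) (hg i))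

theorem hN6 (h1 : StNA1) (h5 : StN5) : StN6 := by
  intro θ ω hM hH pf t ht hr
  have he0 : pw t ω ≠ [] := pw_ne_nil ht pf.pos
  have he : θ.r (pw t ω) (st (pw t ω)) := h5 θ hM hH _ he0 (pf.idm2 ht)
  have hGt : G_N6 θ ω (pw t ω) t := by
    refine ⟨ht, ?_, ?_, θ.refl' _⟩
    · rw [← pw_succ']
      exact hr
    · rw [← pw_succ]
      exact hr
  set μ := mu_N6 θ ω pf (pw t ω) he with hμ
  have hle : Le θ μ := by
    intro u v h
    exact ⟨⟨fun h2 => θ.ne' h h2, fun h2 => θ.ne' (θ.symm' h) h2⟩,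
      fun f hf => θ.sub' f (fun i => (hf i).1) h⟩
  have hμx : μ.r [X 0] (pw [X 0] (ω + 1)) := by
    refine ⟨?_, fun f hf => ?_⟩
    · have := pw_ne_nil (w := [X 0]) (by simp) (Nat.succ_pos ω)
      constructor
      · intro h
        simp at h
      · intro h
        exact absurd h this
    · rw [sb_pw]
      have h2 : sb f [X 0] = f 0 := by simp
      rw [h2, pw_succ']
      obtain ⟨-, a1, -, a3⟩ := hf 0
      exact θ.symm' (θ.trans' (θ.mulR (f 0) a3) a1)
  have hfin := h1 θ hM hH μ hle (pw [X 0] (ω + 1)) (by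
    rw [length_pw]
    have := pf.h7
    simp
    omega) hμx
  have h3 := hfin.2 (fun _ => t) (fun _ => hGt)
  have h4 : sb (fun _ => t) [X 0] = t := by simp
  have h5' : sb (fun _ => t) [Y 0] = st t := by simp
  rwa [h4, h5'] at h3

end Helper1.IM
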