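import Pool.Agent.Helper1.IM.NSt

set_option autoImplicit false

namespace Helper1.IM

/-- The quotient of the words by `θ`. -/
def sd_N7 (θ : FIC) : Setoid Wd := ⟨θ.r, ⟨θ.refl', fun h => θ.symm' h, fun h h' => θ.trans' h h'⟩⟩

/-- The quotient monoid. -/
def Qm_N7 (θ : FIC) : Type := Quotient (sd_N7 θ)

/-- The class of a word. -/
def mk_N7 (θ : FIC) (w : Wd) : Qm_N7 θ := Quotient.mk (sd_N7 θ) w

theorem mk_eq_N7 {θ : FIC} {u v : Wd} : mk_N7 θ u = mk_N7 θ v ↔ θ.r u v :=
  ⟨fun h => Quotient.exact h, fun h => Quotient.sound h⟩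

instance mul_N7 (θ : FIC) : Mul (Qm_N7 θ) where
  mul := Quotient.map₂ (fun u v => u ++ v) (fun _ _ h _ _ h' => θ.mul2 h h')

theorem mk_mul_N7 (θ : FIC) (u v : Wd) : mk_N7 θ (u ++ v) = mk_N7 θ u * mk_N7 θ v := rfl

instance one_N7 (θ : FIC) : _root_.One (Qm_N7 θ) where
  one := mk_N7 θ []

instance monoid_N7 (θ : FIC) : Monoid (Qm_N7 θ) where
  mul_assoc := by
    intro a b c
    induction a using Quotient.ind
    induction b using Quotient.ind
    induction c using Quotient.ind
    rename_i a b c
    change mk_N7 θ ((a ++ b) ++ c) = mk_N7 θ (a ++ (b ++ c))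
    rw [List.append_assoc]
  one_mul := by
    intro a
    induction a using Quotient.ind
    rename_i a
    change mk_N7 θ ([] ++ a) = mk_N7 θ a
    rw [List.nil_append]
  mul_one := by
    intro a
    induction a using Quotient.ind
    rename_i a
    change mk_N7 θ (a ++ []) = mk_N7 θ a
    rw [List.append_nil]

theorem mk_pw_N7 (θ : FIC) (u : Wd) (k : ℕ) : mk_N7 θ (pw u k) = mk_N7 θ u ^ k := by
  induction k with
  | zero => rfl
  | succ k ih => rw [pw_succ', mk_mul_N7, ih, pow_succ]

theorem hN7 (h4 : StNA4) (h5 : StN5) (h6 : StN6) : StN7 := by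
  intro θ ω hm hn pf r s hr0 hs0 hr
  have hω := pf.pos
  obtain ⟨k, hk⟩ : ∃ k, ω = k + 1 := Nat.exists_eq_succ_of_ne_zero (Nat.pos_iff_ne_zero.1 hω)
  -- classes
  have key : θ.r (pw r (ω + 1)) r := by
    have hid : ∀ t : Wd, t ≠ [] → mk_N7 θ t ^ ω * mk_N7 θ t ^ ω = mk_N7 θ t ^ ω := by
      intro t ht
      have := mk_eq_N7.2 (pf.idm2 ht)
      rwa [mk_mul_N7, mk_pw_N7] at this
    have hR1 : mk_N7 θ r = mk_N7 θ r * mk_N7 θ s * mk_N7 θ r := by
      have := mk_eq_N7.2 hr
      rwa [mk_mul_N7, mk_mul_N7] at this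
    have hR2 : mk_N7 θ (st r) = mk_N7 θ (st r) * mk_N7 θ (st s) * mk_N7 θ (st r) := by
      have := mk_eq_N7.2 (θ.star' hr)
      rw [st_append, st_append, ← List.append_assoc, mk_mul_N7, mk_mul_N7] at this
      exact this
    have hee : mk_N7 θ r * mk_N7 θ s = mk_N7 θ (st s) * mk_N7 θ (st r) := by
      have h1 : θ.r ((r ++ s) ++ (r ++ s)) (r ++ s) := by
        apply mk_eq_N7.1
        simp only [mk_mul_N7]
        calc mk_N7 θ r * mk_N7 θ s * (mk_N7 θ r * mk_N7 θ s)
            = (mk_N7 θ r * mk_N7 θ s * mk_N7 θ r) * mk_N7 θ s := by simp only [mul_assoc]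
          _ = _ := by rw [← hR1]
      have h2 := mk_eq_N7.2 (h5 θ hm hn (r ++ s) (by simp [hr0]) h1)
      rwa [st_append, mk_mul_N7, mk_mul_N7] at h2
    have hff : mk_N7 θ s * mk_N7 θ r = mk_N7 θ (st r) * mk_N7 θ (st s) := by
      have h1 : θ.r ((s ++ r) ++ (s ++ r)) (s ++ r) := by
        apply mk_eq_N7.1
        simp only [mk_mul_N7]
        calc mk_N7 θ s * mk_N7 θ r * (mk_N7 θ s * mk_N7 θ r)
            = mk_N7 θ s * (mk_N7 θ r * mk_N7 θ s * mk_N7 θ r) := by simp only [mul_assoc]
          _ = _ := by rw [← hR1]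
      have h2 := mk_eq_N7.2 (h5 θ hm hn (s ++ r) (by simp [hs0]) h1)
      rwa [st_append, mk_mul_N7, mk_mul_N7] at h2
    obtain ⟨m, A, B, hm1, hA, hB, hAB⟩ := h4 θ ω hm hn hω
    have hsub := θ.sub' (fun _ => r) (fun _ => hr0) hAB
    have h7 := mk_eq_N7.2 hsub
    rw [sb_X, sb_append, sb_append, sb_pw] at h7
    have hs1 : sb (fun _ => r) [Y 0, X 0] = st r ++ r := by simp
    have hs2 : sb (fun _ => r) [X 0, X 0] = r ++ r := by simp
    rw [hs1, hs2, mk_mul_N7, mk_mul_N7, mk_mul_N7, mk_pw_N7, mk_mul_N7, mk_mul_N7] at h7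
    set A0 := sb (fun _ => r) A with hA0
    set B0 := sb (fun _ => r) B with hB0
    have hidP2 := hid (st r ++ r) (by simp [hr0])
    have hidC := hid (A0 ++ r) (by simp [hr0])
    have hidR := hid r hr0
    have hidZ := hid (pw (A0 ++ r) k ++ A0) (by
      have : pw (A0 ++ r) k ≠ [] := pw_ne_nil (by simp [hr0]) (by have := pf.h7; omega)
      simp [this])
    simp only [mk_mul_N7, mk_pw_N7] at hidP2 hidC hidZ
    have goal : mk_N7 θ r ^ (ω + 1) = mk_N7 θ r := by
      generalize mk_N7 θ (st r) = R' at *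
      generalize mk_N7 θ (st s) = S' at *
      generalize mk_N7 θ s = S at *
      generalize mk_N7 θ A0 = a at *
      generalize mk_N7 θ B0 = b at *
      generalize mk_N7 θ r = R at *
      -- `f = S R`
      have hQP : (S * S') * (R' * R) = S * R := by
        calc (S * S') * (R' * R) = S * (S' * R') * R := by simp only [mul_assoc]
          _ = S * (R * S * R) := by rw [← hee]; simp only [mul_assoc]
          _ = S * R := by rw [← hR1]
      have hQf : (S * R) * (R' * R) = R' * R := by
        rw [hff]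
        calc R' * S' * (R' * R) = (R' * S' * R') * R := by simp only [mul_assoc]
          _ = _ := by rw [← hR2]
      have hQk : ∀ j : ℕ, (S * S') ^ (j + 1) * (R' * R) ^ (j + 1) = S * R := by
        intro j
        induction j with
        | zero => simpa using hQP
        | succ j ih =>
          have h1 : (S * R) * (R' * R) ^ (j + 1) = (R' * R) ^ (j + 1) := by
            rw [pow_succ', ← mul_assoc, hQf]
          calc (S * S') ^ (j + 1 + 1) * (R' * R) ^ (j + 1 + 1)
              = (S * S') ^ (j + 1) * ((S * S') * (R' * R) * (R' * R) ^ (j + 1)) := by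
                rw [pow_succ (S * S') (j + 1), pow_succ' (R' * R) (j + 1)]
                simp only [mul_assoc]
            _ = S * R := by rw [hQP, h1, ih]
      have hfω : (R' * R) ^ ω = S * R := by
        have h1 := hQk k
        rw [← hk] at h1
        have h2 : (S * R) * (R' * R) ^ ω = (R' * R) ^ ω := by
          rw [hk, pow_succ', ← mul_assoc, hQf]
        rw [← h2, ← h1, mul_assoc, hidP2]
      have hfm : (R' * R) ^ (ω * m) = S * R := by
        have hff2 : (S * R) * (S * R) = S * R := by
          calc (S * R) * (S * R) = S * (R * S * R) := by simp only [mul_assoc]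
            _ = _ := by rw [← hR1]
        rw [pow_mul, hfω]
        obtain ⟨m', rfl⟩ : ∃ m', m = m' + 1 := ⟨m - 1, by omega⟩
        clear hm1 h7 hAB hsub
        induction m' with
        | zero => simp
        | succ m' ih => rw [pow_succ, ih, hff2]
      have hR3 : R = a * (R * R) * b := by
        rw [hfm] at h7
        rw [← h7, ← mul_assoc, ← hR1]
      have hRk : ∀ j : ℕ, R = (a * R) ^ j * R * b ^ j := by
        intro j
        induction j with
        | zero => simp
        | succ j ih =>
          calc R = (a * R) ^ j * R * b ^ j := ih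
            _ = (a * R) ^ j * (a * (R * R) * b) * b ^ j := by rw [← hR3]
            _ = (a * R) ^ (j + 1) * R * b ^ (j + 1) := by
              rw [pow_succ, pow_succ' b]
              simp only [mul_assoc]
      have hCR : (a * R) ^ ω * R = R := by
        calc (a * R) ^ ω * R = (a * R) ^ ω * ((a * R) ^ ω * R * b ^ ω) := by rw [← hRk ω]
          _ = ((a * R) ^ ω * (a * R) ^ ω) * R * b ^ ω := by simp only [mul_assoc]
          _ = (a * R) ^ ω * R * b ^ ω := by rw [hidC]
          _ = R := (hRk ω).symm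
      have hZ : R = ((a * R) ^ k * a) * R * R := by
        calc R = (a * R) ^ ω * R := hCR.symm
          _ = _ := by
            rw [hk, pow_succ]
            simp only [mul_assoc]
      generalize (a * R) ^ k * a = Z at *
      have hZk : ∀ j : ℕ, R = Z ^ j * R ^ (j + 1) := by
        intro j
        induction j with
        | zero => simp
        | succ j ih =>
          calc R = Z ^ j * R ^ (j + 1) := ih
            _ = Z ^ j * (R * R ^ j) := by rw [pow_succ']
            _ = Z ^ j * ((Z * R * R) * R ^ j) := by rw [← hZ]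
            _ = Z ^ (j + 1) * R ^ (j + 1 + 1) := by
              rw [pow_succ Z, pow_succ' R (j + 1), pow_succ' R j]
              simp only [mul_assoc]
      have hZR : Z ^ ω * R ^ (ω + 1) = R := (hZk ω).symm
      calc R ^ (ω + 1) = R * R ^ ω := pow_succ' _ _
        _ = Z ^ ω * R ^ (ω + 1) * R ^ ω := by rw [hZR]
        _ = Z ^ ω * (R * (R ^ ω * R ^ ω)) := by
          rw [pow_succ' R ω]
          simp only [mul_assoc]
        _ = Z ^ ω * R ^ (ω + 1) := by rw [hidR, ← pow_succ']
        _ = R := hZR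
    apply mk_eq_N7.1
    rw [mk_pw_N7]
    exact goal
  exact ⟨key, h6 θ ω hm hn pf r hr0 key⟩

end Helper1.IM
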