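import Pool.Agent.Helper1.IM.NSt

set_option autoImplicit false

namespace Helper1.IM

/-- The quotient of the words by `θ`. -/
private def sdq_N8 (θ : FIC) : Setoid Wd := ⟨θ.r, ⟨θ.refl', fun h => θ.symm' h, fun h h' => θ.trans' h h'⟩⟩

/-- The quotient monoid. -/
private def Qmq_N8 (θ : FIC) : Type := Quotient (sdq_N8 θ)

/-- The class of a word. -/
private def mkq_N8 (θ : FIC) (w : Wd) : Qmq_N8 θ := Quotient.mk (sdq_N8 θ) w

private theorem mkq_eq_N8 {θ : FIC} {u v : Wd} : mkq_N8 θ u = mkq_N8 θ v ↔ θ.r u v :=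
  ⟨fun h => Quotient.exact h, fun h => Quotient.sound h⟩

private instance mulq_N8 (θ : FIC) : Mul (Qmq_N8 θ) where
  mul := Quotient.map₂ (fun u v => u ++ v) (fun _ _ h _ _ h' => θ.mul2 h h')

private theorem mkq_mul_N8 (θ : FIC) (u v : Wd) : mkq_N8 θ (u ++ v) = mkq_N8 θ u * mkq_N8 θ v := rfl

private instance oneq_N8 (θ : FIC) : _root_.One (Qmq_N8 θ) where
  one := mkq_N8 θ []

private instance monoidq_N8 (θ : FIC) : Monoid (Qmq_N8 θ) where
  mul_assoc := by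
    intro a b c
    induction a using Quotient.ind
    induction b using Quotient.ind
    induction c using Quotient.ind
    rename_i a b c
    change mkq_N8 θ ((a ++ b) ++ c) = mkq_N8 θ (a ++ (b ++ c))
    rw [List.append_assoc]
  one_mul := by
    intro a
    induction a using Quotient.ind
    rename_i a
    change mkq_N8 θ ([] ++ a) = mkq_N8 θ a
    rw [List.nil_append]
  mul_one := by
    intro a
    induction a using Quotient.ind
    rename_i a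
    change mkq_N8 θ (a ++ []) = mkq_N8 θ a
    rw [List.append_nil]

private theorem mkq_pw_N8 (θ : FIC) (u : Wd) (k : ℕ) : mkq_N8 θ (pw u k) = mkq_N8 θ u ^ k := by
  induction k with
  | zero => rfl
  | succ k ih => rw [pw_succ', mkq_mul_N8, ih, pow_succ]

private theorem core_N8 (h7 : StN7) {θ : FIC} {ω k : ℕ} (hm : ModAt θ) (hn : HN θ) (pf : PF θ ω)
    (hk : ω = k + 1) {e a b : Wd} (he0 : e ≠ []) (hb0 : b ≠ [])
    (hee : θ.r (e ++ e) e) (heab : θ.r (e ++ a ++ b) e) (hes : mkq_N8 θ (st e) = mkq_N8 θ e) :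
    mkq_N8 θ e * mkq_N8 θ a = mkq_N8 θ (st a) * mkq_N8 θ e ∧ mkq_N8 θ e * mkq_N8 θ a * mkq_N8 θ e = mkq_N8 θ e * mkq_N8 θ a ∧
      (mkq_N8 θ e * mkq_N8 θ a) ^ ω = mkq_N8 θ e := by
  have hE : mkq_N8 θ e * mkq_N8 θ e = mkq_N8 θ e := by
    have := mkq_eq_N8.2 hee
    rwa [mkq_mul_N8] at this
  have hEAB : mkq_N8 θ e * mkq_N8 θ a * mkq_N8 θ b = mkq_N8 θ e := by
    have := mkq_eq_N8.2 heab
    rwa [mkq_mul_N8, mkq_mul_N8] at this
  have hreg : θ.r (e ++ a) ((e ++ a) ++ b ++ (e ++ a)) := by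
    apply mkq_eq_N8.1
    simp only [mkq_mul_N8]
    rw [hEAB, ← mul_assoc, hE]
  obtain ⟨h1, h2⟩ := h7 θ ω hm hn pf (e ++ a) b (by simp [he0]) hb0 hreg
  have h1' : (mkq_N8 θ e * mkq_N8 θ a) ^ (ω + 1) = mkq_N8 θ e * mkq_N8 θ a := by
    have := mkq_eq_N8.2 h1
    rwa [mkq_pw_N8, mkq_mul_N8] at this
  have h2' : mkq_N8 θ e * mkq_N8 θ a = mkq_N8 θ (st a) * mkq_N8 θ e := by
    have := mkq_eq_N8.2 h2
    rwa [st_append, mkq_mul_N8, mkq_mul_N8, hes] at this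
  generalize mkq_N8 θ (st a) = A' at *
  generalize mkq_N8 θ e = E at *
  generalize mkq_N8 θ a = A at *
  generalize mkq_N8 θ b = B at *
  have hgE : (E * A) ^ ω * E = E := by
    calc (E * A) ^ ω * E = (E * A) ^ ω * (E * A * B) := by rw [hEAB]
      _ = (E * A) ^ (ω + 1) * B := by rw [pow_succ]; simp only [mul_assoc]
      _ = E := by rw [h1', hEAB]
  have hgE2 : (E * A) ^ ω * E = (E * A) ^ ω := by
    rw [hk, h2', pow_succ]
    simp only [mul_assoc]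
    rw [hE]
  have hg : (E * A) ^ ω = E := by rw [← hgE2, hgE]
  refine ⟨h2', ?_, hg⟩
  calc E * A * E = E * A * (E * A) ^ ω := by rw [hg]
    _ = (E * A) ^ (ω + 1) := by rw [pow_succ']
    _ = E * A := h1'

theorem hN8 (h5 : StN5) (h7 : StN7) : StN8 := by
  intro θ ω hm hn pf e a b he0 ha0 hb0 hee heab
  obtain ⟨k, hk⟩ : ∃ k, ω = k + 1 := Nat.exists_eq_succ_of_ne_zero (Nat.pos_iff_ne_zero.1 pf.pos)
  have hes : mkq_N8 θ (st e) = mkq_N8 θ e := (mkq_eq_N8.2 (h5 θ hm hn e he0 hee)).symm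
  obtain ⟨c1, c2, c3⟩ := core_N8 h7 hm hn pf hk he0 hb0 hee heab hes
  -- star of the second claim
  have c4 : mkq_N8 θ e * mkq_N8 θ (st a) * mkq_N8 θ e = mkq_N8 θ (st a) * mkq_N8 θ e := by
    have h : θ.r (e ++ a ++ e) (e ++ a) := by
      apply mkq_eq_N8.1
      simpa only [mkq_mul_N8] using c2
    have h' := mkq_eq_N8.2 (θ.star' h)
    simp only [st_append, mkq_mul_N8, hes] at h'
    rw [mul_assoc]
    exact h'
  have heab' : θ.r (e ++ st a ++ (e ++ pw (e ++ a) k)) e := by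
    apply mkq_eq_N8.1
    rw [mkq_mul_N8, mkq_mul_N8, mkq_mul_N8, mkq_pw_N8, mkq_mul_N8]
    calc mkq_N8 θ e * mkq_N8 θ (st a) * (mkq_N8 θ e * (mkq_N8 θ e * mkq_N8 θ a) ^ k)
        = (mkq_N8 θ e * mkq_N8 θ (st a) * mkq_N8 θ e) * (mkq_N8 θ e * mkq_N8 θ a) ^ k := by simp only [mul_assoc]
      _ = (mkq_N8 θ e * mkq_N8 θ a) * (mkq_N8 θ e * mkq_N8 θ a) ^ k := by rw [c4, ← c1]
      _ = (mkq_N8 θ e * mkq_N8 θ a) ^ ω := by rw [hk, pow_succ']
      _ = mkq_N8 θ e := c3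
  obtain ⟨d1, d2, d3⟩ := core_N8 h7 hm hn pf hk he0 (by simp [he0]) hee heab' hes
  rw [st_st] at d1
  -- `e a* = a e`, `e a* e = e a*`
  have f1 : mkq_N8 θ e * mkq_N8 θ a = mkq_N8 θ e * mkq_N8 θ (st a) := by
    rw [c1, ← c4, d2]
  have f2 : mkq_N8 θ e * mkq_N8 θ a = mkq_N8 θ a * mkq_N8 θ e := by
    rw [f1, d1]
  refine ⟨?_, ?_, ?_, ?_⟩
  · exact mkq_eq_N8.1 f2
  · exact mkq_eq_N8.1 f1
  · exact mkq_eq_N8.1 c2.symm
  · apply mkq_eq_N8.1
    rw [mkq_pw_N8, mkq_mul_N8]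
    exact c3

end Helper1.IM
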