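import Pool.Agent.Helper1.IM.NSt
import Pool.Agent.Helper2.IMQ

/-!
# Project IM, module N9a: one-letter words, first part
-/

set_option autoImplicit false

namespace Helper1.IM

open Helper2.IMQ

private theorem pw_single_cons_N9a (a : Lt) (j : ℕ) : pw [a] (j + 1) = a :: pw [a] j := by
  rw [pw_succ]; rfl

/-- splitting a one-letter word at the first starred letter -/
private theorem split_N9a : ∀ v : Wd, One v → Y 0 ∈ v → ∃ (j : ℕ) (v2 : Wd), v = pw [X 0] j ++ [Y 0] ++ v2 := by
  intro v
  induction v with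
  | nil => intro _ h; simp at h
  | cons c v ih =>
    intro h1 h2
    have hc : c.1 = 0 := h1 c (by simp)
    rcases c with ⟨i, s⟩
    have hi : i = 0 := hc
    subst hi
    cases s with
    | true => exact ⟨0, v, by simp [Y]⟩
    | false =>
      have h3 : Y 0 ∈ v := by
        rcases List.mem_cons.1 h2 with h | h
        · exact absurd h (by simp [Y])
        · exact h
      obtain ⟨j, v2, hv⟩ := ih (fun a ha => h1 a (by simp [ha])) h3
      refine ⟨j + 1, v2, ?_⟩
      rw [pw_single_cons_N9a, hv]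
      simp [X]

theorem hN9a (h2 : StNA2) (h5 : StN5) (h8 : StN8) : StN9a := by
  intro θ ω hM hN hP
  obtain ⟨a, v, ha1, hv1, _, hvY, hav⟩ := h2 θ hM hN
  obtain ⟨j, v2, hv⟩ := split_N9a v hv1 hvY
  have hω := hP.pos
  have h7 := hP.h7
  have hxne : ([X 0] : Wd) ≠ [] := by simp
  have hpω : pw [X 0] ω ≠ [] := pw_ne_nil hxne hω
  have hid : θ.r (pw [X 0] ω ++ pw [X 0] ω) (pw [X 0] ω) := hP.idm2 hxne
  set x : QuH2 θ := qc θ [X 0] with hx
  set y : QuH2 θ := qc θ [Y 0] with hy
  -- x^ω = y^ω
  have hxy : x ^ ω = y ^ ω := by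
    have h := qc_eq.2 (h5 θ hM hN (pw [X 0] ω) hpω hid)
    rw [st_pw, st_single, fl_X, qc_pw, qc_pw] at h
    exact h
  have hmul : ∀ k : ℕ, 0 < k → x ^ (k * ω) = x ^ ω := by
    intro k hk
    have h := qc_eq.2 (hP.mul hxne hk)
    rwa [qc_pw, qc_pw] at h
  have hxa : x ^ a = x ^ j * y * qc θ v2 := by
    have h := qc_eq.2 hav
    rwa [hv, qc_append, qc_append, qc_pw, qc_pw] at h
  -- the exponents
  obtain ⟨N, hN1⟩ : ∃ N, N + j = (j + 2) * ω := ⟨(j + 2) * ω - j, by
    have : j ≤ (j + 2) * ω := by nlinarith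
    omega⟩
  have hNpos : 0 < N := by
    have : j < (j + 2) * ω := by nlinarith
    omega
  obtain ⟨m, hm⟩ : ∃ m, ω = m + 1 := ⟨ω - 1, by omega⟩
  have hm0 : 0 < m := by omega
  have e1 : x ^ ω * (y * qc θ v2) = x ^ (N + a) := by
    calc x ^ ω * (y * qc θ v2) = x ^ ((j + 2) * ω) * (y * qc θ v2) := by rw [hmul _ (by omega)]
      _ = x ^ N * (x ^ j * y * qc θ v2) := by
          rw [← hN1, pow_add]; simp only [mul_assoc]
      _ = x ^ (N + a) := by rw [← hxa, pow_add]
  have e2 : θ.r (pw [X 0] ω ++ [Y 0] ++ (v2 ++ pw [X 0] (m * (N + a)))) (pw [X 0] ω) := by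
    refine qc_eq.1 ?_
    simp only [qc_append, qc_pw]
    change x ^ ω * y * (qc θ v2 * x ^ (m * (N + a))) = x ^ ω
    calc x ^ ω * y * (qc θ v2 * x ^ (m * (N + a)))
        = (x ^ ω * (y * qc θ v2)) * x ^ (m * (N + a)) := by simp only [mul_assoc]
      _ = x ^ (N + a) * x ^ (m * (N + a)) := by rw [e1]
      _ = x ^ ((N + a) * ω) := by rw [← pow_add, hm]; congr 1; ring
      _ = x ^ ω := hmul _ (by omega)
  have hpm : pw [X 0] (m * (N + a)) ≠ [] := pw_ne_nil hxne (Nat.mul_pos hm0 (by omega))
  obtain ⟨k1, k2, _, _⟩ := h8 θ ω hM hN hP (pw [X 0] ω) [Y 0] (v2 ++ pw [X 0] (m * (N + a))) hpω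
    (by simp) (by simp [hpm]) hid e2
  have f1 : x ^ ω * y = x ^ (ω + 1) := by
    have h := qc_eq.2 k2
    rw [st_single, fl_Y, qc_append, qc_append, qc_pw] at h
    rw [pow_succ]
    exact h
  have f2 : y * x ^ ω = x ^ (ω + 1) := by
    have h := qc_eq.2 k1
    rw [qc_append, qc_append, qc_pw] at h
    rw [← f1]
    exact h.symm
  -- second claim in the form of equations
  have g2 : ∀ w : Wd, One w → ∀ k : ℕ, x ^ (ω + k) * qc θ w = x ^ (ω + k + w.length) := by
    intro w
    induction w with
    | nil => intro _ k; rw [qc_nil]; simp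
    | cons c w ih =>
      intro hw k
      have hw' : One w := fun a ha => hw a (by simp [ha])
      have hc : c.1 = 0 := hw c (by simp)
      have hstep : x ^ (ω + k) * qc θ [c] = x ^ (ω + k + 1) := by
        rcases c with ⟨i, s⟩
        have hi : i = 0 := hc
        subst hi
        cases s with
        | false => exact (pow_succ x (ω + k)).symm
        | true =>
          change x ^ (ω + k) * y = x ^ (ω + k + 1)
          have e3 : ω + k = k + ω := by omega
          rw [e3, pow_add, mul_assoc, f1, ← pow_add]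
          congr 1
      rw [qc_cons, ← mul_assoc, hstep]
      have := ih hw' (k + 1)
      have e4 : ω + (k + 1) = ω + k + 1 := by omega
      rw [e4] at this
      rw [this, List.length_cons]
      congr 1
      omega
  have g3 : ∀ w : Wd, One w → qc θ w * x ^ ω = x ^ (ω + w.length) := by
    intro w
    induction w with
    | nil => intro _; rw [qc_nil]; simp
    | cons c w ih =>
      intro hw
      have hw' : One w := fun a ha => hw a (by simp [ha])
      have hc : c.1 = 0 := hw c (by simp)
      have hstep : qc θ [c] * x ^ ω = x ^ (ω + 1) := by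
        rcases c with ⟨i, s⟩
        have hi : i = 0 := hc
        subst hi
        cases s with
        | false => exact (pow_succ' x ω).symm
        | true => exact f2
      rw [qc_cons, mul_assoc, ih hw', pow_add, ← mul_assoc, hstep, ← pow_add, List.length_cons]
      congr 1
      omega
  refine ⟨qc_eq.1 ?_, fun w hw => qc_eq.1 ?_, fun w hw => qc_eq.1 ?_⟩
  · rw [qc_pw, qc_pw]
    change x ^ (ω + 1) = y ^ (ω + 1)
    rw [pow_succ y, ← hxy, f1]
  · rw [qc_append, qc_pw, qc_pw]
    exact g2 w hw 0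
  · rw [qc_append, qc_pw, qc_pw]
    exact g3 w hw

end Helper1.IM
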