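import Pool.Agent.Helper1.IM.NSt

/-!
# Project IM (MP_265e56_al), second part, module N9b: one-letter words 2
-/

set_option autoImplicit false

namespace Helper1.IM

private theorem one_pw_N9b {t : Wd} (ht : One t) (k : ℕ) : One (pw t k) := by
  induction k with
  | zero => intro a ha; simp at ha
  | succ k ih =>
    intro a ha
    rw [pw_succ] at ha
    rcases List.mem_append.1 ha with h | h
    · exact ht a h
    · exact ih a h

private theorem one_sb_N9b (w : Wd) : One (sb (fun _ => [X 0]) w) := by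
  induction w with
  | nil => intro a ha; simp at ha
  | cons b w ih =>
    intro a ha
    rw [sb_cons] at ha
    rcases List.mem_append.1 ha with h | h
    · obtain ⟨i, d⟩ := b
      cases d <;> simp at h <;> simp [h]
    · exact ih a h

private theorem sb_one_N9b {w : Wd} (hw : One w) : sb (fun _ => [X 0]) w = w := by
  have h1 : sb (fun _ => [X 0]) w = sb (fun i => [(i, false)]) w := by
    apply sb_congr
    intro i hi
    obtain ⟨b, hb⟩ := mem_ct.1 hi
    have h2 : i = 0 := hw _ hb
    rw [h2]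
    rfl
  rw [h1, sb_id]

theorem hN9b (h5 : StN5) (hF : StNF) (h9 : StN9a) : StN9b := by
  intro θ ω hM hN hP
  obtain ⟨_, hA, hB⟩ := h9 θ ω hM hN hP
  have hx : ([X 0] : Wd) ≠ [] := by simp
  have hh : θ.r (pw [X 0] ω) (st (pw [X 0] ω)) :=
    h5 θ hM hN _ (pw_ne_nil hx hP.pos) (hP.idm2 hx)
  have partA : ∀ t, One t → t ≠ [] → θ.r (pw t ω) (pw [X 0] ω) := by
    intro t ht hne
    have hg : θ.r (pw t ω) (st (pw t ω)) := h5 θ hM hN _ (pw_ne_nil hne hP.pos) (hP.idm2 hne)
    have hgh : θ.r (pw t ω ++ pw [X 0] ω) (pw t ω) := by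
      obtain ⟨c, t', rfl⟩ := List.exists_cons_of_ne_nil hne
      have h1 := (hF θ ω hM hN hP [] [c] t' (by simp)).2.2
      have h2 : ([] : Wd) ++ [c] ++ t' = c :: t' := by simp
      rw [h2] at h1
      have hc : c.1 = 0 := ht c (by simp)
      have h3 : θ.r (pw [X 0] ω) (pw [c] ω) := by
        obtain ⟨i, b⟩ := c
        simp only at hc
        subst hc
        cases b
        · exact θ.refl' _
        · have h4 := hh
          rw [st_pw] at h4
          exact h4
      exact θ.trans' (θ.mulL _ h3) h1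
    have hhg : θ.r (pw [X 0] ω ++ pw t ω) (pw t ω) := by
      have h1 := θ.star' hgh
      rw [st_append] at h1
      exact θ.trans' (θ.mul2 hh hg) (θ.trans' h1 (θ.symm' hg))
    have h2 := hA (pw t ω) (one_pw_N9b ht ω)
    rw [length_pw] at h2
    have h3 := hP.addmul hx (le_refl ω) t.length
    have e : ω + ω * t.length = ω + t.length * ω := by ring
    rw [e] at h2
    exact θ.trans' (θ.symm' hhg) (θ.trans' h2 h3)
  refine ⟨partA, fun w hw hR => ?_⟩
  obtain ⟨h0, p, t, q, ht, hu⟩ := hR
  have h1 := θ.sub' (fun _ => [X 0]) (fun _ => by simp) hu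
  rw [sb_one_N9b hw, sb_append, sb_append, sb_pw] at h1
  have hp1 := one_sb_N9b p
  have ht1 := one_sb_N9b t
  have hq1 := one_sb_N9b q
  have ht2 : sb (fun _ => [X 0]) t ≠ [] := sb_ne_nil _ (fun _ => by simp) t ht
  generalize sb (fun _ => [X 0]) p = p' at h1 hp1
  generalize sb (fun _ => [X 0]) t = t' at h1 ht1 ht2
  generalize sb (fun _ => [X 0]) q = q' at h1 hq1
  have h2 : θ.r (p' ++ pw t' ω ++ q') (p' ++ pw [X 0] ω ++ q') := θ.mul' p' q' (partA t' ht1 ht2)
  have h3 : θ.r (p' ++ pw [X 0] ω ++ q') (pw [X 0] (ω + p'.length) ++ q') := θ.mulR q' (hB p' hp1)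
  have h4 : θ.r (pw [X 0] (ω + p'.length) ++ q') (pw [X 0] (p'.length + (ω + q'.length))) := by
    rw [add_comm ω p'.length, pw_add, pw_add [X 0] p'.length, List.append_assoc]
    exact θ.mulL _ (hA q' hq1)
  have h5 : θ.r w (pw [X 0] (p'.length + (ω + q'.length))) :=
    θ.trans' h1 (θ.trans' h2 (θ.trans' h3 h4))
  have h6 : θ.r (pw [X 0] ω ++ w) w := by
    have k1 := θ.mulL (pw [X 0] ω) h5
    rw [← pw_add] at k1
    have k2 := hP.add hx (j := p'.length + (ω + q'.length)) (by omega)
    rw [add_comm ω] at k1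
    exact θ.trans' k1 (θ.trans' k2 (θ.symm' h5))
  exact θ.trans' (θ.symm' h6) (hA w hw)

end Helper1.IM
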