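import Pool.Agent.Helper1.IM.NSt

set_option autoImplicit false

namespace Helper1.IM

theorem hN9c (hT : StTy) : StN9c := by
  intro θ ω hm hp u hu hi
  obtain ⟨i, hi⟩ := hi
  have hω := hp.pos
  have hN : NilF (thN θ ω) := nil_thN hω
  have h7 : Mod7 (thN θ ω) := Mod7.le (le_thN θ ω) hm.mod7
  by_contra hnR
  have hnz : ¬ Zero (thN θ ω) u := fun h => hnR ((zero_thN hω).1 h)
  have hnl : ¬ Lin u := by
    intro h
    have h1 : oc i u ≤ 1 := List.nodup_iff_count_le_one.1 h i
    omega
  obtain ⟨_, _, hR | hE | hD⟩ := hT _ hN h7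
  · exact hnz (hR.r1 u (by omega) ⟨i, by omega⟩)
  · obtain ⟨j, h2, h3, h4⟩ := hE.e1 u (by omega) hnl hnz
    by_cases hij : i = j
    · subst hij
      omega
    · have := h4 i hij
      omega
  · obtain ⟨j, h2, h4⟩ := hD.d1 u hu hnl hnz
    by_cases hij : i = j
    · subst hij
      omega
    · have := h4 i hij
      omega

end Helper1.IM
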