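import Pool.Agent.Helper1.IM.NSt

/-!
# Project IM (MP_265e56_al), second part, module NA1: pentagon for `x = w`
-/

set_option autoImplicit false

namespace Helper1.IM

private theorem single_NA1 {θ : FIC} (hN : HN θ) (hxy : ¬ θ.r [X 0] [Y 0]) (c : Lt) (v : Wd)
    (h : θ.r [c] v) : v = [c] := by
  have h0 : ∀ v, θ.r [X 0] v → v = [X 0] := by
    intro v hv
    obtain ⟨⟨j, b⟩, rfl⟩ := List.length_eq_one_iff.1 (hN v hv)
    by_cases hj : j = 0
    · subst hj
      cases b
      · rfl
      · exact absurd hv hxy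
    · exfalso
      have h1 := θ.sub' (fun i => if i = j then [X j, X j] else [X i]) (fun i => by
        by_cases hi : i = j <;> simp [hi]) hv
      have h2 : sb (fun i => if i = j then [X j, X j] else [X i]) [X 0] = [X 0] := by
        rw [sb_single]
        simp [X, Ne.symm hj]
      rw [h2] at h1
      have h3 := hN _ h1
      rw [sb_single] at h3
      cases b <;> simp at h3
  obtain ⟨i, b⟩ := c
  have h1 := θ.rn (Equiv.swap i 0) (fun _ => b) h
  have h2 : rw' (Equiv.swap i 0) (fun _ => b) [(i, b)] = [X 0] := by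
    simp [rw', X]
  rw [h2] at h1
  have h3 := h0 _ h1
  have h4 : (rw' (Equiv.swap i 0) (fun _ => b) v).length = 1 := by rw [h3]; rfl
  rw [rw'_length] at h4
  obtain ⟨⟨j, d⟩, rfl⟩ := List.length_eq_one_iff.1 h4
  simp only [rw', List.map_cons, List.map_nil, X, List.cons.injEq, Prod.mk.injEq, and_true] at h3
  have h5 : j = i := by
    have := h3.1
    have h6 := congrArg (Equiv.swap i 0) this
    simpa using h6
  have h6 : d = b := by
    have := h3.2
    cases d <;> cases b <;> simp_all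
  rw [h5, h6]

private def al_NA1 : FIC where
  r u v := u = v ∨ (2 ≤ u.length ∧ 2 ≤ v.length)
  refl' _ := Or.inl rfl
  symm' h := h.elim (fun h => Or.inl h.symm) (fun h => Or.inr ⟨h.2, h.1⟩)
  trans' := by
    rintro u v w (rfl | ⟨h1, h2⟩) (rfl | ⟨h3, h4⟩)
    · exact Or.inl rfl
    · exact Or.inr ⟨h3, h4⟩
    · exact Or.inr ⟨h1, h2⟩
    · exact Or.inr ⟨h1, h4⟩
  ne' := by
    rintro u v (rfl | ⟨h1, h2⟩) hu
    · exact hu
    · rw [hu] at h1; simp at h1
  mul' := by
    rintro u v a b (rfl | ⟨h1, h2⟩)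
    · exact Or.inl rfl
    · refine Or.inr ⟨?_, ?_⟩ <;> (simp only [List.length_append]; omega)
  star' := by
    rintro u v (rfl | ⟨h1, h2⟩)
    · exact Or.inl rfl
    · exact Or.inr ⟨by rwa [st_length], by rwa [st_length]⟩
  sub' := by
    rintro u v f hf (rfl | ⟨h1, h2⟩)
    · exact Or.inl rfl
    · exact Or.inr ⟨le_trans h1 (length_sb_ge f hf u), le_trans h2 (length_sb_ge f hf v)⟩

private def ga_NA1 : FIC where
  r u v := u = v ∨ (2 ≤ u.length ∧ 2 ≤ v.length) ∨ (u.length = 1 ∧ v.length = 1 ∧ ct u = ct v)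
  refl' _ := Or.inl rfl
  symm' := by
    rintro u v (rfl | ⟨h1, h2⟩ | ⟨h1, h2, h3⟩)
    · exact Or.inl rfl
    · exact Or.inr (Or.inl ⟨h2, h1⟩)
    · exact Or.inr (Or.inr ⟨h2, h1, h3.symm⟩)
  trans' := by
    rintro u v w (rfl | ⟨h1, h2⟩ | ⟨h1, h2, h3⟩) (rfl | ⟨h4, h5⟩ | ⟨h4, h5, h6⟩)
    · exact Or.inl rfl
    · exact Or.inr (Or.inl ⟨h4, h5⟩)
    · exact Or.inr (Or.inr ⟨h4, h5, h6⟩)
    · exact Or.inr (Or.inl ⟨h1, h2⟩)
    · exact Or.inr (Or.inl ⟨h1, h5⟩)
    · omega
    · exact Or.inr (Or.inr ⟨h1, h2, h3⟩)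
    · omega
    · exact Or.inr (Or.inr ⟨h1, h5, h3.trans h6⟩)
  ne' := by
    rintro u v (rfl | ⟨h1, h2⟩ | ⟨h1, h2, h3⟩) hu
    · exact hu
    · rw [hu] at h1; simp at h1
    · rw [hu] at h1; simp at h1
  mul' := by
    rintro u v a b (rfl | ⟨h1, h2⟩ | ⟨h1, h2, h3⟩)
    · exact Or.inl rfl
    · refine Or.inr (Or.inl ⟨?_, ?_⟩) <;> (simp only [List.length_append]; omega)
    · by_cases hab : a ++ b = []
      · obtain ⟨ha, hb⟩ := List.append_eq_nil_iff.1 hab
        subst ha; subst hb
        refine Or.inr (Or.inr ⟨by simpa using h1, by simpa using h2, by simpa using h3⟩)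
      · have h4 : 0 < (a ++ b).length := List.length_pos_iff.2 hab
        rw [List.length_append] at h4
        refine Or.inr (Or.inl ⟨?_, ?_⟩) <;> (simp only [List.length_append]; omega)
  star' := by
    rintro u v (rfl | ⟨h1, h2⟩ | ⟨h1, h2, h3⟩)
    · exact Or.inl rfl
    · exact Or.inr (Or.inl ⟨by rwa [st_length], by rwa [st_length]⟩)
    · exact Or.inr (Or.inr ⟨by rwa [st_length], by rwa [st_length], by rwa [ct_st, ct_st]⟩)
  sub' := by
    rintro u v f hf (rfl | ⟨h1, h2⟩ | ⟨h1, h2, h3⟩)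
    · exact Or.inl rfl
    · exact Or.inr (Or.inl ⟨le_trans h1 (length_sb_ge f hf u), le_trans h2 (length_sb_ge f hf v)⟩)
    · obtain ⟨⟨i, b⟩, rfl⟩ := List.length_eq_one_iff.1 h1
      obtain ⟨⟨j, d⟩, rfl⟩ := List.length_eq_one_iff.1 h2
      have h4 : i = j := by simpa using h3
      subst h4
      have e1 : (sb f [(i, b)]).length = (f i).length := by rw [sb_single]; cases b <;> simp
      have e2 : (sb f [(i, d)]).length = (f i).length := by rw [sb_single]; cases d <;> simp
      have e3 : 0 < (f i).length := List.length_pos_iff.2 (hf i)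
      by_cases h5 : (f i).length = 1
      · refine Or.inr (Or.inr ⟨by omega, by omega, ?_⟩)
        rw [ct_sb, ct_sb]
        simp
      · exact Or.inr (Or.inl ⟨by omega, by omega⟩)

theorem hNA1 : StNA1 := by
  intro θ hM hN μ hl w hw hx
  by_cases hxy : θ.r [X 0] [Y 0]
  · exact hl _ _ hxy
  have hs := fun c v => single_NA1 hN hxy c v
  have hα : Le θ al_NA1 := by
    intro u v h
    change u = v ∨ (2 ≤ u.length ∧ 2 ≤ v.length)
    by_cases hu0 : u = []
    · left; rw [hu0, θ.ne' h hu0]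
    by_cases hv0 : v = []
    · exact absurd (θ.ne' (θ.symm' h) hv0) hu0
    have hu1 : 0 < u.length := List.length_pos_iff.2 hu0
    have hv1 : 0 < v.length := List.length_pos_iff.2 hv0
    by_cases h1 : u.length = 1
    · obtain ⟨c, rfl⟩ := List.length_eq_one_iff.1 h1
      exact Or.inl (hs c v h).symm
    by_cases h2 : v.length = 1
    · obtain ⟨c, rfl⟩ := List.length_eq_one_iff.1 h2
      exact Or.inl (hs c u (θ.symm' h))
    · exact Or.inr ⟨by omega, by omega⟩
  have hαγ : Le al_NA1 ga_NA1 := by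
    rintro u v (h | h)
    · exact Or.inl h
    · exact Or.inr (Or.inl h)
  have hγ : Le θ ga_NA1 := fun u v h => hαγ _ _ (hα _ _ h)
  have hJn : Jn al_NA1 μ [X 0] [Y 0] := by
    have h1 : μ.r (st w) [Y 0] := by
      have := μ.symm' (μ.star' hx)
      simpa [st_single] using this
    refine Relation.ReflTransGen.head (Or.inr hx) (Relation.ReflTransGen.head (Or.inl ?_)
      (Relation.ReflTransGen.single (Or.inr h1)))
    exact Or.inr ⟨hw, by rwa [st_length]⟩
  have hg : ga_NA1.r [X 0] [Y 0] := Or.inr (Or.inr ⟨rfl, rfl, by simp⟩)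
  have hJm := hM al_NA1 μ ga_NA1 hα hl hγ hαγ _ _ hJn hg
  have key : ∀ v, Jm al_NA1 μ ga_NA1 [X 0] v → v = [X 0] ∨ μ.r [X 0] [Y 0] := by
    intro v hv
    induction hv with
    | refl => exact Or.inl rfl
    | tail _ h2 ih =>
      rcases ih with ih | ih
      · rw [ih] at h2
        rcases h2 with h2 | ⟨h2, h3⟩
        · rcases h2 with h2 | ⟨h2, _⟩
          · exact Or.inl h2.symm
          · simp at h2
        · rcases h3 with h3 | ⟨h3, _⟩ | ⟨_, h4, h5⟩
          · exact Or.inl h3.symm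
          · simp at h3
          · obtain ⟨⟨j, d⟩, rfl⟩ := List.length_eq_one_iff.1 h4
            have h6 : 0 = j := by simpa using h5
            subst h6
            cases d
            · exact Or.inl rfl
            · exact Or.inr h2
      · exact Or.inr ih
  rcases key _ hJm with h | h
  · simp [X, Y] at h
  · exact h

end Helper1.IM
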