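import Pool.Agent.Helper1.IM.NSt

/-!
# Project IM, second part, module NA2: excluding semilattices with star
-/

set_option autoImplicit false

namespace Helper1.IM

/-- All letters have the same sign. -/
private def S_NA2 (w : Wd) : Prop := (∀ a ∈ w, a.2 = false) ∨ (∀ a ∈ w, a.2 = true)

private theorem mem_st_NA2 (w : Wd) (a : Lt) : a ∈ st w ↔ fl a ∈ w := by
  unfold st
  rw [List.mem_reverse, List.mem_map]
  constructor
  · rintro ⟨b, hb, rfl⟩
    simpa [fl] using hb
  · intro h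
    exact ⟨fl a, h, by simp [fl]⟩

private theorem S_st_NA2 (w : Wd) : S_NA2 (st w) ↔ S_NA2 w := by
  unfold S_NA2
  constructor
  · rintro (h | h)
    · right
      intro a ha
      have := h (fl a) ((mem_st_NA2 w (fl a)).2 (by simpa [fl] using ha))
      simpa [fl] using this
    · left
      intro a ha
      have := h (fl a) ((mem_st_NA2 w (fl a)).2 (by simpa [fl] using ha))
      simpa [fl] using this
  · rintro (h | h)
    · right
      intro a ha
      have := h (fl a) ((mem_st_NA2 w a).1 ha)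
      simpa [fl] using this
    · left
      intro a ha
      have := h (fl a) ((mem_st_NA2 w a).1 ha)
      simpa [fl] using this

private theorem S_congr_NA2 {u v : Wd} (h : ∀ a, a ∈ u ↔ a ∈ v) : S_NA2 u ↔ S_NA2 v := by
  unfold S_NA2
  simp only [h]

private theorem sb_un_NA2 (u : Wd) (h : ∀ a ∈ u, a.2 = false) :
    sb (fun _ => [X 0]) u = pw [X 0] u.length := by
  induction u with
  | nil => rfl
  | cons a u ih =>
    have h1 : a.2 = false := h a (by simp)
    have h2 := ih (fun b hb => h b (by simp [hb]))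
    rw [List.length_cons, pw_succ, ← h2]
    simp [sb, h1]

private theorem mem_sb_NA2 (v : Wd) (a : Lt) :
    a ∈ sb (fun _ => [X 0]) v ↔ a.1 = 0 ∧ ∃ b ∈ v, b.2 = a.2 := by
  unfold sb
  rw [List.mem_flatMap]
  constructor
  · rintro ⟨b, hb, h⟩
    cases hb2 : b.2
    · simp [hb2, X] at h
      subst h
      exact ⟨rfl, b, hb, hb2⟩
    · simp [hb2, X, st, fl] at h
      subst h
      exact ⟨rfl, b, hb, hb2⟩
  · rintro ⟨h0, b, hb, hba⟩
    refine ⟨b, hb, ?_⟩
    cases hb2 : b.2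
    · simp [X]
      exact Prod.ext h0 (by rw [← hba, hb2])
    · simp [X, st, fl]
      exact Prod.ext h0 (by rw [← hba, hb2])

theorem hNA2 (h1 : StNA1) : StNA2 := by
  intro θ hM hN
  by_cases hsat : ∀ u v, θ.r u v → (S_NA2 u ↔ S_NA2 v)
  · exfalso
    have hle : Le θ (Syn S_NA2 S_st_NA2) := le_syn hsat
    have h2 : (Syn S_NA2 S_st_NA2).r [X 0] [X 0, X 0] := by
      refine ⟨by simp, ?_⟩
      intro p q f hf
      apply S_congr_NA2
      intro a
      simp [sb, X]
    have h3 := h1 θ hM hN (Syn S_NA2 S_st_NA2) hle [X 0, X 0] (by simp) h2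
    have h4 := h3.2 [X 0] [] (fun i => [X i]) (by simp)
    have h5 : S_NA2 ([X 0] ++ sb (fun i => [X i]) [X 0] ++ []) := by
      left
      intro a ha
      simp [sb, X] at ha
      rw [ha]
    have h6 := h4.1 h5
    rcases h6 with h6 | h6
    · have := h6 (Y 0) (by simp [sb, X, Y, st, fl])
      simp [Y] at this
    · have := h6 (X 0) (by simp)
      simp [X] at this
  · push Not at hsat
    obtain ⟨u0, v0, hr0, hne0⟩ := hsat
    obtain ⟨u1, v1, hr1, hu1, hv1⟩ : ∃ u v, θ.r u v ∧ S_NA2 u ∧ ¬ S_NA2 v := by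
      rcases hne0 with ⟨h, h'⟩ | ⟨h, h'⟩
      · exact ⟨u0, v0, hr0, h, h'⟩
      · exact ⟨v0, u0, θ.symm' hr0, h', h⟩
    obtain ⟨u, v, hr, hu, hv⟩ : ∃ u v, θ.r u v ∧ (∀ a ∈ u, a.2 = false) ∧ ¬ S_NA2 v := by
      rcases hu1 with h | h
      · exact ⟨u1, v1, hr1, h, hv1⟩
      · refine ⟨st u1, st v1, θ.star' hr1, ?_, fun h' => hv1 ((S_st_NA2 v1).1 h')⟩
        intro a ha
        have := h (fl a) ((mem_st_NA2 u1 a).1 ha)
        simpa [fl] using this
    have hv0 : v ≠ [] := by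
      rintro rfl
      exact hv (Or.inl (by simp))
    have hu0 : u ≠ [] := fun h => hv0 (θ.ne' hr h)
    unfold S_NA2 at hv
    push Not at hv
    obtain ⟨⟨a, ha, ha2⟩, ⟨b, hb, hb2⟩⟩ := hv
    have hs := θ.sub' (fun _ => [X 0]) (by simp) hr
    rw [sb_un_NA2 u hu] at hs
    refine ⟨u.length, sb (fun _ => [X 0]) v, List.length_pos_iff.2 hu0, ?_, ?_, ?_, hs⟩
    · intro c hc
      exact ((mem_sb_NA2 v c).1 hc).1
    · exact (mem_sb_NA2 v (X 0)).2 ⟨rfl, b, hb, by simpa [X] using hb2⟩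
    · exact (mem_sb_NA2 v (Y 0)).2 ⟨rfl, a, ha, by simpa [Y] using ha2⟩

end Helper1.IM
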