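import Pool.Agent.Helper1.IM.NSt

/-!
# Project IM, second part: module NA3 (excluding rectangular bands)
-/

set_option autoImplicit false

namespace Helper1.IM

private def S3 (w : Wd) : Prop :=
  (∃ i, w.head? = some ((i, false) : Lt)) ∨ (∃ i, w.getLast? = some ((i, true) : Lt))

private theorem head_st_NA3 (w : Wd) : (st w).head? = w.getLast?.map fl := by
  unfold st
  rw [List.head?_reverse, List.getLast?_map]

private theorem last_st_NA3 (w : Wd) : (st w).getLast? = w.head?.map fl := by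
  unfold st
  rw [List.getLast?_reverse, List.head?_map]

private theorem S3_st (w : Wd) : S3 (st w) ↔ S3 w := by
  unfold S3
  rw [head_st_NA3, last_st_NA3]
  constructor
  · rintro (⟨i, hi⟩ | ⟨i, hi⟩)
    · right
      rw [Option.map_eq_some_iff] at hi
      obtain ⟨a, ha, h2⟩ := hi
      refine ⟨i, ?_⟩
      rw [ha]
      congr 1
      rw [← fl_fl a, h2]
      rfl
    · left
      rw [Option.map_eq_some_iff] at hi
      obtain ⟨a, ha, h2⟩ := hi
      refine ⟨i, ?_⟩
      rw [ha]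
      congr 1
      rw [← fl_fl a, h2]
      rfl
  · rintro (⟨i, hi⟩ | ⟨i, hi⟩)
    · right
      exact ⟨i, by rw [hi]; rfl⟩
    · left
      exact ⟨i, by rw [hi]; rfl⟩

private theorem one_sb_NA3 (u : Wd) : One (sb (fun _ => [X 0]) u) := by
  intro a ha
  have h1 : a.1 ∈ ct (sb (fun _ => [X 0]) u) := mem_ct.2 ⟨a.2, ha⟩
  rw [ct_sb] at h1
  simp only [Finset.mem_biUnion] at h1
  obtain ⟨i, -, hi⟩ := h1
  simpa using hi

private theorem fin_NA3 {θ : FIC} {i j : ℕ} {u v : Wd} (h : θ.r ((i, false) :: u) ((j, true) :: v)) :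
    ∃ p q : Wd, One p ∧ One q ∧ θ.r (X 0 :: p) (Y 0 :: q) := by
  refine ⟨sb (fun _ => [X 0]) u, sb (fun _ => [X 0]) v, one_sb_NA3 u, one_sb_NA3 v, ?_⟩
  have h1 := θ.sub' (fun _ => [X 0]) (by simp) h
  rw [sb_cons, sb_cons] at h1
  simpa using h1

private theorem head_some_NA3 {w : Wd} {a : Lt} (h : w.head? = some a) : ∃ t, w = a :: t := by
  cases w with
  | nil => simp at h
  | cons b t =>
    simp only [List.head?_cons, Option.some.injEq] at h
    exact ⟨t, by rw [h]⟩

private theorem case_NA3 {θ : FIC} {u v : Wd} (h : θ.r u v) (hu : S3 u) (hv : ¬ S3 v) :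
    ∃ p q : Wd, One p ∧ One q ∧ θ.r (X 0 :: p) (Y 0 :: q) := by
  have hu0 : u ≠ [] := by
    rintro rfl
    rcases hu with ⟨i, hi⟩ | ⟨i, hi⟩ <;> simp at hi
  -- it suffices to treat the case that `u` begins with an unstarred letter
  have key : ∀ u v : Wd, θ.r u v → u ≠ [] → (∃ i, u.head? = some ((i, false) : Lt)) → ¬ S3 v →
      ∃ p q : Wd, One p ∧ One q ∧ θ.r (X 0 :: p) (Y 0 :: q) := by
    intro u v h hu0 hu hv
    obtain ⟨i, hi⟩ := hu
    obtain ⟨u', rfl⟩ := head_some_NA3 hi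
    have hv0 : v ≠ [] := θ.ne'' h hu0
    cases v with
    | nil => exact absurd rfl hv0
    | cons b v' =>
      rcases b with ⟨j, c⟩
      cases c with
      | false => exact absurd (Or.inl ⟨j, rfl⟩) hv
      | true => exact fin_NA3 h
  rcases hu with hu | ⟨i, hi⟩
  · exact key u v h hu0 hu hv
  · refine key (st u) (st v) (θ.star' h) (by simpa using hu0) ⟨i, ?_⟩ (fun h3 => hv ((S3_st v).1 h3))
    rw [head_st_NA3, hi]
    rfl

theorem hNA3 (h1 : StNA1) : StNA3 := by
  intro θ hM hH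
  by_contra hno
  have hsat : ∀ u v, θ.r u v → (S3 u ↔ S3 v) := by
    intro u v h
    by_contra hc
    by_cases hu : S3 u
    · have hv : ¬ S3 v := fun hv => hc ⟨fun _ => hv, fun _ => hu⟩
      exact hno (case_NA3 h hu hv)
    · have hv : S3 v := by
        by_contra hv
        exact hc ⟨fun h => absurd h hu, fun h => absurd h hv⟩
      exact hno (case_NA3 (θ.symm' h) hv hu)
  have hle : Le θ (Syn S3 S3_st) := le_syn hsat
  have h2 : (Syn S3 S3_st).r [X 0] [X 0, X 0] := by
    refine ⟨by simp, fun p q f hf => ?_⟩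
    have e1 : sb f [X 0] = f 0 := by simp
    have e2 : sb f [X 0, X 0] = f 0 ++ f 0 := by simp
    rw [e1, e2]
    have hh : (p ++ f 0 ++ q).head? = (p ++ (f 0 ++ f 0) ++ q).head? := by
      simp only [List.head?_append]
      cases (f 0).head? <;> simp
    have hl : (p ++ f 0 ++ q).getLast? = (p ++ (f 0 ++ f 0) ++ q).getLast? := by
      simp only [List.getLast?_append]
      cases (f 0).getLast? <;> simp
    unfold S3
    rw [hh, hl]
  have h3 := h1 θ hM hH _ hle [X 0, X 0] (by simp) h2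
  have h4 := h3.2 [] [X 0] (fun i => [X i]) (by simp)
  have e3 : ([] : Wd) ++ sb (fun i => [X i]) [X 0] ++ [X 0] = [X 0, X 0] := rfl
  have e4 : ([] : Wd) ++ sb (fun i => [X i]) [Y 0] ++ [X 0] = [Y 0, X 0] := rfl
  rw [e3, e4] at h4
  have h5 : S3 [X 0, X 0] := Or.inl ⟨0, rfl⟩
  have h6 := h4.1 h5
  rcases h6 with ⟨i, hi⟩ | ⟨i, hi⟩
  · simp [X, Y] at hi
  · simp [X, Y] at hi

end Helper1.IM
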