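import Pool.Agent.Helper1.IM.NSt

set_option autoImplicit false

namespace Helper1.IM

/-- nonempty alternating words in one letter -/
private def S4 (w : Wd) : Prop := w ≠ [] ∧ w.IsChain (fun a b => b = fl a)

private theorem chain_st_NA4 (w : Wd) :
    (st w).IsChain (fun a b => b = fl a) ↔ w.IsChain (fun a b => b = fl a) := by
  unfold st
  rw [List.isChain_reverse, List.isChain_map]
  have : (fun a b : Lt => fl a = fl (fl b)) = fun a b => b = fl a := by
    funext a b
    simp only [fl_fl, eq_iff_iff]
    exact eq_comm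
  rw [this]

private theorem S4_st (w : Wd) : S4 (st w) ↔ S4 w := by
  unfold S4
  rw [chain_st_NA4]
  simp

private theorem chain_ctx_NA4 {p q u v : Wd} (hu : u ≠ []) (hv : v ≠ []) (hh : u.head? = v.head?)
    (hl : u.getLast? = v.getLast?)
    (hc : u.IsChain (fun a b => b = fl a) ↔ v.IsChain (fun a b => b = fl a)) :
    (p ++ u ++ q).IsChain (fun a b => b = fl a) ↔ (p ++ v ++ q).IsChain (fun a b => b = fl a) := by
  have e1 : (p ++ u).getLast? = u.getLast? := by
    rw [List.getLast?_append]
    cases h : u.getLast? with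
    | none => exact absurd (List.getLast?_eq_none_iff.1 h) hu
    | some z => simp
  have e2 : (p ++ v).getLast? = v.getLast? := by
    rw [List.getLast?_append]
    cases h : v.getLast? with
    | none => exact absurd (List.getLast?_eq_none_iff.1 h) hv
    | some z => simp
  rw [List.isChain_append, List.isChain_append, List.isChain_append, List.isChain_append, e1, e2,
    hc, hl, hh]

private theorem chain3_NA4 {t : Wd} (ht : t ≠ []) :
    t.IsChain (fun a b => b = fl a) ↔ (t ++ (st t ++ t)).IsChain (fun a b => b = fl a) := by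
  constructor
  · intro h
    rw [List.isChain_append, List.isChain_append]
    refine ⟨h, ⟨(chain_st_NA4 t).2 h, h, ?_⟩, ?_⟩
    · intro x hx y hy
      cases t with
      | nil => exact absurd rfl ht
      | cons a t =>
        simp only [List.head?_cons, Option.mem_def, Option.some.injEq] at hy
        subst hy
        rw [st_cons, List.getLast?_append] at hx
        simp only [List.getLast?_singleton, Option.mem_def] at hx
        simp at hx
        rw [← hx]; simp
    · intro x hx y hy
      have e : (st t ++ t).head? = (t.getLast?).map fl := by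
        rw [List.head?_append]
        have : (st t).head? = (t.getLast?).map fl := by
          unfold st
          rw [List.head?_reverse, List.getLast?_map]
        rw [this]
        cases h' : t.getLast? with
        | none => exact absurd (List.getLast?_eq_none_iff.1 h') ht
        | some z => simp
      rw [e] at hy
      rw [Option.mem_def] at hx hy
      rw [hx] at hy
      simpa using hy.symm
  · intro h
    exact (List.isChain_append.1 h).1

private theorem syn_NA4 : (Syn S4 S4_st).r [X 0] [X 0, Y 0, X 0] := by
  refine ⟨by simp, fun p q f hf => ?_⟩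
  have e1 : sb f [X 0] = f 0 := by simp
  have e2 : sb f [X 0, Y 0, X 0] = f 0 ++ (st (f 0) ++ f 0) := by simp
  rw [e1, e2]
  unfold S4
  have hne : f 0 ≠ [] := hf 0
  have hne2 : f 0 ++ (st (f 0) ++ f 0) ≠ [] := by simp [hne]
  have hch := chain_ctx_NA4 (p := p) (q := q) hne hne2 (by
      rw [List.head?_append]
      cases h : (f 0).head? with
      | none => exact absurd (List.head?_eq_none_iff.1 h) hne
      | some z => simp) (by
      rw [← List.append_assoc, List.getLast?_append]
      cases h : (f 0).getLast? with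
      | none => exact absurd (List.getLast?_eq_none_iff.1 h) hne
      | some z => simp) (chain3_NA4 hne)
  rw [hch]
  simp [hne]

private theorem exists_NA4 (h1 : StNA1) (θ : FIC) (hM : ModAt θ) (hN : HN θ) :
    ∃ U W, θ.r U W ∧ S4 U ∧ ¬ S4 W := by
  by_contra hcon
  push Not at hcon
  have hsat : ∀ u v, θ.r u v → (S4 u ↔ S4 v) := fun u v h =>
    ⟨fun hu => hcon u v h hu, fun hv => hcon v u (θ.symm' h) hv⟩
  have hμ := h1 θ hM hN (Syn S4 S4_st) (le_syn hsat) [X 0, Y 0, X 0] (by simp) syn_NA4
  have h2 := (hμ.2 [Y 0] [] (fun i => [X i]) (by simp)).1 (by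
    unfold S4
    refine ⟨by simp, ?_⟩
    simp [List.isChain_cons_cons])
  have h3 := h2.2
  have e3 : [Y 0] ++ sb (fun i => [X i]) [Y 0] ++ [] = [Y 0, Y 0] := rfl
  rw [e3, List.isChain_cons_cons] at h3
  have h4 := h3.1
  simp [Y, fl] at h4

private theorem not_chain_NA4 {w : Wd} (h : ¬ w.IsChain (fun a b => b = fl a)) :
    ∃ p a b q, w = p ++ a :: b :: q ∧ b ≠ fl a := by
  by_contra hcon
  push Not at hcon
  apply h
  rw [List.isChain_iff_forall_rel_of_append_cons_cons]
  intro a b l1 l2 he
  exact hcon l1 a b l2 he

private theorem sb_map_NA4 (e : ℕ → Bool) (w : Wd) :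
    sb (fun i => [(0, e i)]) w = w.map (fun c => (0, xor c.2 (e c.1))) := by
  induction w with
  | nil => rfl
  | cons a w ih =>
    rw [sb_cons, ih, List.map_cons]
    rcases a with ⟨i, b⟩
    cases b <;> simp [fl, st]

private theorem ext_NA4 : ∀ (l1 l2 : Wd), l1.IsChain (fun a b => b = fl a) →
    l2.IsChain (fun a b => b = fl a) → l1.head? = l2.head? → l1 ≠ [] → l1.length ≤ l2.length →
    ∃ D, l2 = l1 ++ D
  | [], _, _, _, _, h, _ => absurd rfl h
  | [a], l2, _, _, hh, _, _ => by
    cases l2 with
    | nil => simp at hh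
    | cons b t =>
      simp only [List.head?_cons, Option.some.injEq] at hh
      subst hh
      exact ⟨t, rfl⟩
  | a :: b :: l, l2, h1, h2, hh, _, hl => by
    cases l2 with
    | nil => simp at hl
    | cons a' t =>
      simp only [List.head?_cons, Option.some.injEq] at hh
      subst hh
      cases t with
      | nil => simp at hl
      | cons c t =>
        rw [List.isChain_cons_cons] at h1 h2
        have hbc : b = c := h1.1.trans h2.1.symm
        subst hbc
        obtain ⟨D, hD⟩ := ext_NA4 (b :: l) (b :: t) h1.2 h2.2 rfl (by simp) (by simpa using hl)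
        exact ⟨D, by rw [hD]; rfl⟩

private theorem alt_NA4 (k : ℕ) :
    (X 0 :: pw [Y 0, X 0] k).IsChain (fun a b => b = fl a) ∧ One (X 0 :: pw [Y 0, X 0] k) := by
  induction k with
  | zero => simp [One]
  | succ k ih =>
    rw [pw_succ]
    show (X 0 :: Y 0 :: X 0 :: pw [Y 0, X 0] k).IsChain (fun a b => b = fl a) ∧
      One (X 0 :: Y 0 :: X 0 :: pw [Y 0, X 0] k)
    refine ⟨?_, ?_⟩
    · rw [List.isChain_cons_cons, List.isChain_cons_cons]
      exact ⟨rfl, rfl, ih.1⟩
    · intro a ha
      rcases List.mem_cons.1 ha with rfl | ha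
      · rfl
      rcases List.mem_cons.1 ha with rfl | ha
      · rfl
      exact ih.2 a ha

theorem hNA4 (h1 : StNA1) : StNA4 := by
  intro θ ω hM hN hω
  obtain ⟨U, W, hUW, hU, hW⟩ := exists_NA4 h1 θ hM hN
  have hWne : W ≠ [] := θ.ne'' hUW hU.1
  have hWc : ¬ W.IsChain (fun a b => b = fl a) := fun h => hW ⟨hWne, h⟩
  obtain ⟨p, a, b, q, hWe, hab⟩ := not_chain_NA4 hWc
  -- the substitution
  obtain ⟨e, he1, he2⟩ : ∃ e : ℕ → Bool, xor a.2 (e a.1) = false ∧ xor b.2 (e b.1) = false := by
    by_cases hi : a.1 = b.1
    · refine ⟨fun _ => a.2, by simp, ?_⟩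
      have : b.2 = a.2 := by
        by_contra hne
        apply hab
        have : b.2 = !a.2 := by
          revert hne
          cases b.2 <;> cases a.2 <;> simp
        exact Prod.ext hi.symm this
      simp [this]
    · refine ⟨fun j => if j = a.1 then a.2 else b.2, by simp, ?_⟩
      show xor b.2 (if b.1 = a.1 then a.2 else b.2) = false
      rw [if_neg (Ne.symm hi)]
      simp
  have hr := θ.sub' (fun i => [(0, e i)]) (by simp) hUW
  rw [sb_map_NA4, sb_map_NA4, hWe] at hr
  set g : Lt → Lt := fun c => (0, xor c.2 (e c.1)) with hg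
  have hga : g a = X 0 := by simp only [hg, he1]; rfl
  have hgb : g b = X 0 := by simp only [hg, he2]; rfl
  have hr1 : θ.r (U.map g) (p.map g ++ [X 0, X 0] ++ q.map g) := by
    have e3 : (p ++ a :: b :: q).map g = p.map g ++ [X 0, X 0] ++ q.map g := by
      rw [List.map_append, List.map_cons, List.map_cons, hga, hgb]
      simp
    rwa [e3] at hr
  have hOne : ∀ w : Wd, One (w.map g) := by
    intro w c hc
    obtain ⟨d, -, rfl⟩ := List.mem_map.1 hc
    rfl
  have hUc : (U.map g).IsChain (fun a b => b = fl a) := by
    rw [List.isChain_map]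
    refine hU.2.imp ?_
    intro c d hcd
    rw [hcd]
    simp only [hg, fl]
    cases c.2 <;> cases e c.1 <;> rfl
  have hUne : U.map g ≠ [] := by simpa using hU.1
  -- make the word begin with `x`
  obtain ⟨V, A, B, hVc, hVh, hA, hB, hr2⟩ : ∃ V A B : Wd, V.IsChain (fun a b => b = fl a) ∧
      V.head? = some (X 0) ∧ One A ∧ One B ∧ θ.r V (A ++ [X 0, X 0] ++ B) := by
    cases hU' : U.map g with
    | nil => exact absurd hU' hUne
    | cons c t =>
      have hc0 : c.1 = 0 := hOne U c (by rw [hU']; simp)
      rw [hU'] at hUc hr1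
      rcases hc2 : c.2 with _ | _
      · refine ⟨c :: t, p.map g, q.map g, hUc, ?_, hOne p, hOne q, hr1⟩
        rw [List.head?_cons]
        congr 1
        exact Prod.ext hc0 hc2
      · refine ⟨X 0 :: c :: t, X 0 :: p.map g, q.map g, ?_, rfl, ?_, hOne q, ?_⟩
        · rw [List.isChain_cons_cons]
          refine ⟨?_, hUc⟩
          exact Prod.ext hc0 hc2
        · intro d hd
          rcases List.mem_cons.1 hd with rfl | hd
          · rfl
          · exact hOne p d hd
        · have := θ.mulL [X 0] hr1
          simpa using this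
  have hVne : V ≠ [] := by
    rintro rfl
    simp at hVh
  have hVl : 1 ≤ V.length := List.length_pos_iff.2 hVne
  obtain ⟨hac, hao⟩ := alt_NA4 (ω * V.length)
  obtain ⟨D, hD⟩ := ext_NA4 V (X 0 :: pw [Y 0, X 0] (ω * V.length)) hVc hac
    (by rw [hVh]; rfl) hVne (by
      rw [List.length_cons, length_pw]
      simp only [List.length_cons, List.length_nil]
      have : V.length ≤ ω * V.length := Nat.le_mul_of_pos_left _ hω
      omega)
  refine ⟨V.length, A, B ++ D, hVl, hA, ?_, ?_⟩
  · intro c hc
    rcases List.mem_append.1 hc with hc | hc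
    · exact hB c hc
    · exact hao c (by rw [hD]; exact List.mem_append_right _ hc)
  · rw [hD]
    have := θ.mulR D hr2
    simpa [List.append_assoc] using this

end Helper1.IM
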