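import Pool.Agent.Helper1.IM.NSt2

/-!
# Project IM, second part: module NAs (necessity, assembly), by helper90
-/

set_option autoImplicit false

namespace Helper1.IM

theorem hNAs (_h3 : StTk3) (hP : StNPer) (h9b : StN9b) (h11 : StN11b) (h10 : StN10) (h12 : StN12)
    (h13 : StN13) (h13q : StN13q) (h16 : StN16) (h19 : StN19) (h17 : StN17) (h16b : StN16b)
    (h19b : StN19b) (h14 : StN14) (h15 : StN15) : StNAs := by
  intro θ ω hM hN hF
  obtain ⟨n, hn⟩ := hP.1 θ ω hF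
  by_cases hQ : Sub θ rQ
  · have h1 : QI1 θ ω := h12 θ ω hM hN hF hQ
    have hB : Bc θ ω := h13 θ ω hM hN hF (Or.inr h1)
    have h2 : QI3 θ ω := h13q θ ω hB h1
    exact ⟨hB, n, hn, Or.inr (Or.inr ⟨h1, h2, h14 θ ω n hM ⟨hB, h1, h2⟩ hn hQ,
      h15 θ ω n hM ⟨hB, h1, h2⟩ hn hQ⟩)⟩
  · have hC : Cen θ ω := h11 θ ω hM hN hF hQ
    have hB : Bc θ ω := h13 θ ω hM hN hF (Or.inl hC)
    by_cases hR : Sub θ rCd
    · have hm : Cmm θ ω := h17 θ ω hM hF hR hC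
      exact ⟨hB, n, hn, Or.inr (Or.inl ⟨hC, hm, fun u hu =>
        h16b θ ω hB hR hC hm (h9b θ ω hM hN hF).1 u hu (h16 θ ω hM hF hR u hu)⟩)⟩
    · have hK : K1 θ ω := h10 θ ω hM hN hF hC hR
      refine ⟨hB, n, hn, Or.inl ⟨hK, ?_⟩⟩
      by_cases h1 : n = 1
      · exact Or.inl h1
      · right
        intro u hu
        exact h19b θ ω hB hK u hu (h19 θ ω n hM hB hn (by have := hn.1; omega) u hu)

end Helper1.IM
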