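import Pool.Agent.Helper1.IM.NSt2

/-!
# Project IM, second part: module NCr (words with prescribed multiplicities)
-/

set_option autoImplicit false

namespace Helper1.IM

private theorem ct_rep_NCr (i k : ℕ) (hk : 1 ≤ k) : ct (List.replicate k (X i)) = {i} := by
  ext j
  simp only [ct, X, List.map_replicate, List.mem_toFinset, List.mem_replicate, Finset.mem_singleton]
  constructor
  · exact fun h => h.2
  · exact fun h => ⟨by omega, h⟩

private theorem oc_rep_NCr (i j k : ℕ) : oc j (List.replicate k (X i)) = if i = j then k else 0 := by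
  simp only [oc, X, List.map_replicate, List.count_replicate, beq_iff_eq]

private theorem part1_NCr (s : Finset ℕ) (k : ℕ → ℕ) : (∀ i ∈ s, 1 ≤ k i) →
    ∃ w : Wd, ct w = s ∧ (∀ i ∈ s, oc i w = k i) ∧ ∀ a ∈ w, a.2 = false := by
  classical
  induction s using Finset.induction_on with
  | empty => exact fun _ => ⟨[], rfl, by simp, by simp⟩
  | insert i s hi ih =>
    intro hk
    obtain ⟨w, hw, hoc, hu⟩ := ih fun j hj => hk j (Finset.mem_insert_of_mem hj)
    have hki := hk i (Finset.mem_insert_self _ _)
    refine ⟨List.replicate (k i) (X i) ++ w, ?_, ?_, ?_⟩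
    · rw [ct_append, ct_rep_NCr i (k i) hki, hw]
      rfl
    · intro j hj
      rw [oc_append, oc_rep_NCr]
      by_cases hij : i = j
      · subst hij
        have h0 : oc i w = 0 := oc_eq_zero.2 (by rw [hw]; exact hi)
        simp [h0]
      · have hj' : j ∈ s := by
          rcases Finset.mem_insert.1 hj with h | h
          · exact absurd h.symm hij
          · exact h
        simp [hij, hoc j hj']
    · intro a ha
      rcases List.mem_append.1 ha with h | h
      · rw [List.eq_of_mem_replicate h]
        rfl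
      · exact hu a h

theorem hNCr : StNCr := by
  refine ⟨part1_NCr, ?_, ?_⟩
  · intro s a b f g ha hb hfg
    have h1 : ∀ i, ∃ k : ℕ, i ∈ s → 2 ≤ k ∧ k ≡ f i [MOD a] ∧ k ≡ g i [MOD b] := by
      intro i
      by_cases hi : i ∈ s
      · obtain ⟨k, hk1, hk2⟩ := Nat.chineseRemainder' (hfg i hi)
        have hab : 1 ≤ a * b := Nat.mul_pos ha hb
        refine ⟨k + a * b * 2, fun _ => ⟨by omega, ?_, ?_⟩⟩
        · have : k + a * b * 2 = k + a * (b * 2) := by ring
          rw [this]
          have h2 : k + a * (b * 2) ≡ k [MOD a] := by simp [Nat.ModEq]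
          exact h2.trans hk1
        · have : k + a * b * 2 = k + b * (a * 2) := by ring
          rw [this]
          have h2 : k + b * (a * 2) ≡ k [MOD b] := by simp [Nat.ModEq]
          exact h2.trans hk2
      · exact ⟨0, fun h => absurd h hi⟩
    choose k hk using h1
    obtain ⟨w, hw, hoc, hu⟩ := part1_NCr s k fun i hi => by have := (hk i hi).1; omega
    refine ⟨w, hw, fun i hi => ?_, hu⟩
    rw [hoc i hi]
    exact hk i hi
  · intro a b c x y ha hb hca h1 h2
    have hc : c ≠ 0 := by
      rintro rfl
      have := Nat.eq_zero_of_zero_dvd hca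
      omega
    have hdvd : Nat.gcd a (Nat.lcm b c) ∣ Nat.lcm (Nat.gcd a b) c := by
      have ha0 : a ≠ 0 := by omega
      have hb0 : b ≠ 0 := by omega
      have hg : Nat.gcd a b ≠ 0 := Nat.gcd_ne_zero_left ha0
      rw [← Nat.factorization_le_iff_dvd (Nat.gcd_ne_zero_left ha0) (Nat.lcm_ne_zero hg hc),
        Nat.factorization_gcd ha0 (Nat.lcm_ne_zero hb0 hc), Nat.factorization_lcm hb0 hc,
        Nat.factorization_lcm hg hc, Nat.factorization_gcd ha0 hb0]
      intro p
      simp only [Finsupp.inf_apply, Finsupp.sup_apply]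
      rw [inf_sup_left]
      exact sup_le_sup_left inf_le_right _
    have h3 : (Nat.lcm (Nat.gcd a b) c : ℤ) ∣ (y : ℤ) - x := by
      rw [Int.natCast_dvd]
      exact Nat.lcm_dvd (Int.natCast_dvd.1 ((Nat.modEq_iff_dvd).1 h1)) (Int.natCast_dvd.1 ((Nat.modEq_iff_dvd).1 h2))
    rw [Nat.modEq_iff_dvd]
    exact dvd_trans (by exact_mod_cast hdvd) h3

end Helper1.IM
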