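import Pool.Agent.Helper1.IM.NSt
import Pool.Agent.Helper2.IMQ

/-!
# Project IM, module NF: factors of `s` and the idempotent `s^ω`
-/

set_option autoImplicit false

namespace Helper1.IM

open Helper2.IMQ

theorem hNF (h8 : StN8) : StNF := by
  intro θ ω hM hN hP a c b hc
  set s : Wd := a ++ c ++ b with hs
  have hsne : s ≠ [] := by rw [hs]; simp [hc]
  have hω := hP.pos
  obtain ⟨m, hm⟩ : ∃ m, ω = m + 1 := ⟨ω - 1, by omega⟩
  have hm0 : 0 < m := by have := hP.h7; omega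
  have hpm : pw s m ≠ [] := pw_ne_nil hsne hm0
  have hpω : pw s ω ≠ [] := pw_ne_nil hsne hω
  have hid : θ.r (pw s ω ++ pw s ω) (pw s ω) := hP.idm2 hsne
  -- classes
  have hS : qc θ s = qc θ a * qc θ c * qc θ b := by rw [hs, qc_append, qc_append]
  have hG2 : qc θ s ^ ω * qc θ s ^ ω = qc θ s ^ ω := by
    have := qc_eq.2 hid
    rwa [qc_append, qc_pw] at this
  have hSm : qc θ s * qc θ s ^ m = qc θ s ^ ω := by rw [hm, pow_succ']
  -- the key claim
  have key : ∃ b' : Wd, b' ≠ [] ∧ θ.r (pw s ω ++ c ++ b') (pw s ω) := by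
    by_cases ha : a = []
    · refine ⟨b ++ pw s m, by simp [hpm], qc_eq.1 ?_⟩
      have hS' : qc θ s = qc θ c * qc θ b := by rw [hs, ha]; rfl
      simp only [qc_append, qc_pw]
      calc qc θ s ^ ω * qc θ c * (qc θ b * qc θ s ^ m)
          = qc θ s ^ ω * ((qc θ c * qc θ b) * qc θ s ^ m) := by simp only [mul_assoc]
        _ = qc θ s ^ ω * (qc θ s * qc θ s ^ m) := by rw [← hS']
        _ = qc θ s ^ ω := by rw [hSm, hG2]
    · have e1 : θ.r (pw s ω ++ a ++ (c ++ b ++ pw s m)) (pw s ω) := by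
        refine qc_eq.1 ?_
        simp only [qc_append, qc_pw]
        calc qc θ s ^ ω * qc θ a * (qc θ c * qc θ b * qc θ s ^ m)
            = qc θ s ^ ω * ((qc θ a * qc θ c * qc θ b) * qc θ s ^ m) := by simp only [mul_assoc]
          _ = qc θ s ^ ω * (qc θ s * qc θ s ^ m) := by rw [← hS]
          _ = qc θ s ^ ω := by rw [hSm, hG2]
      have h4 := (h8 θ ω hM hN hP (pw s ω) a (c ++ b ++ pw s m) hpω ha (by simp [hc]) hid e1).2.2.2
      have h4' : (qc θ s ^ ω * qc θ a) ^ ω = qc θ s ^ ω := by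
        have := qc_eq.2 h4
        rwa [qc_pw, qc_append, qc_pw] at this
      have e1' : qc θ s ^ ω * qc θ a * (qc θ c * qc θ b * qc θ s ^ m) = qc θ s ^ ω := by
        have := qc_eq.2 e1
        simpa only [qc_append, qc_pw] using this
      have e2 : qc θ s ^ ω * (qc θ c * qc θ b * qc θ s ^ m) =
          (qc θ s ^ ω * qc θ a) ^ m * qc θ s ^ ω := by
        calc qc θ s ^ ω * (qc θ c * qc θ b * qc θ s ^ m)
            = (qc θ s ^ ω * qc θ a) ^ ω * (qc θ c * qc θ b * qc θ s ^ m) := by rw [h4']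
          _ = (qc θ s ^ ω * qc θ a) ^ m *
              (qc θ s ^ ω * qc θ a * (qc θ c * qc θ b * qc θ s ^ m)) := by
              conv_lhs => rw [hm, pow_succ]
              rw [← hm]
              simp only [mul_assoc]
          _ = (qc θ s ^ ω * qc θ a) ^ m * qc θ s ^ ω := by rw [e1']
      refine ⟨b ++ pw s m ++ pw s ω ++ a, by simp [hpm], qc_eq.1 ?_⟩
      simp only [qc_append, qc_pw]
      calc qc θ s ^ ω * qc θ c * (qc θ b * qc θ s ^ m * qc θ s ^ ω * qc θ a)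
          = (qc θ s ^ ω * (qc θ c * qc θ b * qc θ s ^ m)) * (qc θ s ^ ω * qc θ a) := by
            simp only [mul_assoc]
        _ = ((qc θ s ^ ω * qc θ a) ^ m * qc θ s ^ ω) * (qc θ s ^ ω * qc θ a) := by rw [e2]
        _ = (qc θ s ^ ω * qc θ a) ^ m * ((qc θ s ^ ω * qc θ s ^ ω) * qc θ a) := by
            simp only [mul_assoc]
        _ = (qc θ s ^ ω * qc θ a) ^ m * (qc θ s ^ ω * qc θ a) := by rw [hG2]
        _ = (qc θ s ^ ω * qc θ a) ^ (m + 1) := by rw [pow_succ]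
        _ = qc θ s ^ ω := by rw [← hm, h4']
  obtain ⟨b', hb', hkey⟩ := key
  obtain ⟨k1, k2, _, k4⟩ := h8 θ ω hM hN hP (pw s ω) c b' hpω hc hb' hid hkey
  refine ⟨k1, k2, qc_eq.1 ?_⟩
  have c1 : qc θ s ^ ω * qc θ c = qc θ c * qc θ s ^ ω := by
    have := qc_eq.2 k1
    simpa only [qc_append, qc_pw] using this
  have c4 : (qc θ s ^ ω * qc θ c) ^ ω = qc θ s ^ ω := by
    have := qc_eq.2 k4
    rwa [qc_pw, qc_append, qc_pw] at this
  have hcomm : Commute (qc θ s ^ ω) (qc θ c) := c1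
  have hpowG : (qc θ s ^ ω) ^ ω = qc θ s ^ ω := by
    have : ∀ k : ℕ, (qc θ s ^ ω) ^ (k + 1) = qc θ s ^ ω := by
      intro k
      induction k with
      | zero => simp
      | succ k ih => rw [pow_succ, ih, hG2]
    conv_lhs => rw [show (qc θ s ^ ω) ^ ω = (qc θ s ^ ω) ^ (m + 1) by rw [← hm]]
    exact this m
  rw [qc_append, qc_pw, qc_pw]
  calc qc θ s ^ ω * qc θ c ^ ω = (qc θ s ^ ω) ^ ω * qc θ c ^ ω := by rw [hpowG]
    _ = (qc θ s ^ ω * qc θ c) ^ ω := (hcomm.mul_pow ω).symm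
    _ = qc θ s ^ ω := c4

end Helper1.IM
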