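import Pool.Agent.Helper1.IM.NSt

/-!
# Project IM, second part: module NFc (three fully invariant congruences)
-/

set_option autoImplicit false

namespace Helper1.IM

/-- multiplicities under substitutions -/
private theorem oc_sb_NFc (j : ℕ) (f : ℕ → Wd) (u : Wd) (s : Finset ℕ) (hs : ct u ⊆ s) :
    oc j (sb f u) = ∑ i ∈ s, oc i u * oc j (f i) := by
  induction u with
  | nil => simp
  | cons a u ih =>
    have h1 : ct u ⊆ s := fun i hi => hs (by simp [hi])
    have ha : a.1 ∈ s := hs (by simp)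
    rw [sb_cons, oc_append, ih h1]
    have h2 : oc j (if a.2 then st (f a.1) else f a.1) = oc j (f a.1) := by
      split_ifs
      · exact oc_st _ _
      · rfl
    rw [h2]
    have h3 : ∀ i ∈ s, oc i (a :: u) * oc j (f i) =
        (if a.1 = i then oc j (f i) else 0) + oc i u * oc j (f i) := by
      intro i _
      rw [oc_cons]
      split_ifs
      · ring
      · ring
    rw [Finset.sum_congr rfl h3, Finset.sum_add_distrib]
    congr 1
    rw [Finset.sum_ite_eq]
    simp [ha]

private theorem ct_eq_empty_NFc {u : Wd} : ct u = ∅ ↔ u = [] := by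
  constructor
  · intro h
    cases u with
    | nil => rfl
    | cons a u => simp at h
  · rintro rfl
    rfl

private theorem nil_of_ct_NFc {u v : Wd} (h : ct u = ct v) (hu : u = []) : v = [] := by
  subst hu
  exact ct_eq_empty_NFc.1 h.symm

private theorem nil_iff_NFc {u v : Wd} (h : ct u = ct v) : u = [] ↔ v = [] :=
  ⟨nil_of_ct_NFc h, nil_of_ct_NFc h.symm⟩

private theorem ct_sb_eq_NFc (f : ℕ → Wd) {u v : Wd} (h : ct u = ct v) : ct (sb f u) = ct (sb f v) := by
  rw [ct_sb, ct_sb, h]

private theorem ct_mul_eq_NFc (a b : Wd) {u v : Wd} (h : ct u = ct v) :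
    ct (a ++ u ++ b) = ct (a ++ v ++ b) := by
  rw [ct_append, ct_append, ct_append, ct_append, h]

/-! ### rCd -/

private theorem min_mul_NFc {x y c : ℕ} (h : min x 2 = min y 2) : min (x * c) 2 = min (y * c) 2 := by
  rcases Nat.eq_zero_or_pos c with rfl | hc
  · simp
  · rcases Nat.lt_or_ge x 2 with hx | hx
    · have : x = y := by omega
      rw [this]
    · have hy : 2 ≤ y := by omega
      have h1 : 2 ≤ x * c := le_trans hx (Nat.le_mul_of_pos_right x hc)
      have h2 : 2 ≤ y * c := le_trans hy (Nat.le_mul_of_pos_right y hc)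
      rw [min_eq_right h1, min_eq_right h2]

private theorem min_sum_NFc (s : Finset ℕ) (F G : ℕ → ℕ) (h : ∀ i ∈ s, min (F i) 2 = min (G i) 2) :
    min (∑ i ∈ s, F i) 2 = min (∑ i ∈ s, G i) 2 := by
  classical
  induction s using Finset.induction_on with
  | empty => simp
  | insert a s ha ih =>
    rw [Finset.sum_insert ha, Finset.sum_insert ha]
    have h1 := h a (Finset.mem_insert_self _ _)
    have h2 := ih (fun i hi => h i (Finset.mem_insert_of_mem hi))
    omega

private theorem rCd_iff_NFc {u v : Wd} : rCd u v ↔ ∀ i, min (oc i u) 2 = min (oc i v) 2 := by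
  constructor
  · rintro ⟨h1, h2⟩ i
    have h3 := h2 i
    have h4 : oc i u = 0 ↔ oc i v = 0 := by rw [oc_eq_zero, oc_eq_zero, h1]
    omega
  · intro h
    refine ⟨?_, fun i => ?_⟩
    · ext i
      have := h i
      rw [← oc_pos, ← oc_pos]
      omega
    · have := h i
      omega

private theorem rCd_sb_NFc {u v : Wd} (f : ℕ → Wd) (h : rCd u v) : rCd (sb f u) (sb f v) := by
  rw [rCd_iff_NFc] at h ⊢
  intro j
  rw [oc_sb_NFc j f u (ct u ∪ ct v) Finset.subset_union_left,
    oc_sb_NFc j f v (ct u ∪ ct v) Finset.subset_union_right]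
  exact min_sum_NFc _ _ _ (fun i _ => min_mul_NFc (h i))

private def ECd_NFc : FIC where
  r := rCd
  refl' _ := ⟨rfl, fun _ => Iff.rfl⟩
  symm' h := ⟨h.1.symm, fun i => (h.2 i).symm⟩
  trans' h h' := ⟨h.1.trans h'.1, fun i => (h.2 i).trans (h'.2 i)⟩
  ne' h hu := nil_of_ct_NFc h.1 hu
  mul' := by
    intro u v a b h
    rw [rCd_iff_NFc] at h ⊢
    intro i
    have := h i
    simp only [oc_append]
    omega
  star' := by
    intro u v h
    rw [rCd_iff_NFc] at h ⊢
    intro i
    rw [oc_st, oc_st]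
    exact h i
  sub' := by
    intro u v f _ h
    exact rCd_sb_NFc f h

/-! ### rA -/

private theorem mod_sum_NFc (n : ℕ) (s : Finset ℕ) (F G : ℕ → ℕ) (h : ∀ i ∈ s, F i ≡ G i [MOD n]) :
    (∑ i ∈ s, F i) ≡ (∑ i ∈ s, G i) [MOD n] := by
  classical
  induction s using Finset.induction_on with
  | empty => exact Nat.ModEq.refl _
  | insert a s ha ih =>
    rw [Finset.sum_insert ha, Finset.sum_insert ha]
    exact (h a (Finset.mem_insert_self _ _)).add (ih (fun i hi => h i (Finset.mem_insert_of_mem hi)))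

private def EA_NFc (n : ℕ) : FIC where
  r := rA n
  refl' _ := ⟨Iff.rfl, fun _ => Nat.ModEq.refl _⟩
  symm' h := ⟨h.1.symm, fun i => (h.2 i).symm⟩
  trans' h h' := ⟨h.1.trans h'.1, fun i => (h.2 i).trans (h'.2 i)⟩
  ne' h hu := h.1.1 hu
  mul' := by
    intro u v a b h
    refine ⟨by simp [h.1], fun i => ?_⟩
    simp only [oc_append]
    exact ((h.2 i).add_left _).add_right _
  star' := by
    intro u v h
    refine ⟨by simpa using h.1, fun i => ?_⟩
    rw [oc_st, oc_st]
    exact h.2 i
  sub' := by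
    intro u v f hf h
    refine ⟨?_, fun j => ?_⟩
    · constructor
      · intro h1
        by_contra h2
        have : v ≠ [] := fun h3 => h2 (by rw [h3]; rfl)
        exact sb_ne_nil f hf u (fun h3 => this (h.1.1 h3)) h1
      · intro h1
        by_contra h2
        have : u ≠ [] := fun h3 => h2 (by rw [h3]; rfl)
        exact sb_ne_nil f hf v (fun h3 => this (h.1.2 h3)) h1
    · rw [oc_sb_NFc j f u (ct u ∪ ct v) Finset.subset_union_left,
        oc_sb_NFc j f v (ct u ∪ ct v) Finset.subset_union_right]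
      exact mod_sum_NFc n _ _ _ (fun i _ => (h.2 i).mul_right _)

/-! ### rQ -/

private theorem hd_app_NFc {u : Wd} (hu : u ≠ []) (b : Wd) :
    hd (u ++ b) = (hd u).bind (fun c => if c.1 ∈ ct b then none else some c) := by
  cases u with
  | nil => exact absurd rfl hu
  | cons c u =>
    show (if c.1 ∈ ct (u ++ b) then none else some c) =
      (if c.1 ∈ ct u then none else some c).bind (fun c => if c.1 ∈ ct b then none else some c)
    by_cases h1 : c.1 ∈ ct u
    · simp [h1]
    · by_cases h2 : c.1 ∈ ct b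
      · simp [h1, h2]
      · simp [h1, h2]

private theorem hd_mul_NFc (a b : Wd) {u v : Wd} (hc : ct u = ct v) (h : hd u = hd v) :
    hd (a ++ u ++ b) = hd (a ++ v ++ b) := by
  by_cases ha : a = []
  · subst ha
    rw [List.nil_append, List.nil_append]
    by_cases hu : u = []
    · have hv := (nil_iff_NFc hc).1 hu
      rw [hu, hv]
    · have hv : v ≠ [] := fun hv => hu ((nil_iff_NFc hc).2 hv)
      rw [hd_app_NFc hu, hd_app_NFc hv, h]
  · rw [List.append_assoc, List.append_assoc, hd_app_NFc ha, hd_app_NFc ha, ct_append, ct_append, hc]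

private theorem hd_some_NFc {u : Wd} {c : Lt} (h : hd u = some c) :
    ∃ u', u = c :: u' ∧ c.1 ∉ ct u' := by
  cases u with
  | nil => simp [hd] at h
  | cons a u =>
    change (if a.1 ∈ ct u then none else some a) = some c at h
    split_ifs at h with h1
    have h2 : a = c := by simpa using h
    subst h2
    exact ⟨u, rfl, h1⟩

private theorem hd_mem_NFc {u : Wd} {c : Lt} (h : hd u = some c) : c.1 ∈ ct u := by
  obtain ⟨u', rfl, -⟩ := hd_some_NFc h
  simp

private theorem hd_none_sb_NFc (f : ℕ → Wd) (hf : ∀ i, f i ≠ []) {u : Wd} (h : hd u = none) :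
    hd (sb f u) = none := by
  cases u with
  | nil => rfl
  | cons c u =>
    change (if c.1 ∈ ct u then none else some c) = none at h
    have h1 : c.1 ∈ ct u := by
      by_contra h1
      rw [if_neg h1] at h
      simp at h
    rw [sb_cons]
    have h2 : (if c.2 then st (f c.1) else f c.1) ≠ [] := by
      split_ifs
      · simpa using hf c.1
      · exact hf c.1
    have h3 : ct (if c.2 then st (f c.1) else f c.1) = ct (f c.1) := by
      split_ifs
      · exact ct_st _
      · rfl
    rw [hd_app_NFc h2]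
    rcases hx : hd (if c.2 then st (f c.1) else f c.1) with _ | d
    · rfl
    · have h4 := hd_mem_NFc hx
      rw [h3] at h4
      have h5 : d.1 ∈ ct (sb f u) := by
        rw [ct_sb, Finset.mem_biUnion]
        exact ⟨c.1, h1, h4⟩
      show (if d.1 ∈ ct (sb f u) then none else some d) = none
      rw [if_pos h5]

private theorem hd_sb_NFc (f : ℕ → Wd) (hf : ∀ i, f i ≠ []) {u v : Wd} (hc : ct u = ct v)
    (h : hd u = hd v) : hd (sb f u) = hd (sb f v) := by
  rcases hx : hd u with _ | c
  · rw [hd_none_sb_NFc f hf hx, hd_none_sb_NFc f hf (h ▸ hx)]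
  · obtain ⟨u', hu, hcu⟩ := hd_some_NFc hx
    obtain ⟨v', hv, hcv⟩ := hd_some_NFc (h ▸ hx)
    subst hu hv
    have h1 : ct u' = ct v' := by
      rw [ct_cons, ct_cons] at hc
      rw [← Finset.erase_insert hcu, ← Finset.erase_insert hcv, hc]
    have h2 : (if c.2 then st (f c.1) else f c.1) ≠ [] := by
      split_ifs
      · simpa using hf c.1
      · exact hf c.1
    rw [sb_cons, sb_cons, hd_app_NFc h2, hd_app_NFc h2, ct_sb_eq_NFc f h1]

private def EQ_NFc : FIC where
  r := rQ
  refl' _ := ⟨rfl, rfl, rfl⟩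
  symm' h := ⟨h.1.symm, h.2.1.symm, h.2.2.symm⟩
  trans' h h' := ⟨h.1.trans h'.1, h.2.1.trans h'.2.1, h.2.2.trans h'.2.2⟩
  ne' h hu := nil_of_ct_NFc h.1 hu
  mul' := by
    intro u v a b h
    refine ⟨ct_mul_eq_NFc a b h.1, hd_mul_NFc a b h.1 h.2.1, ?_⟩
    have h1 : ct (st u) = ct (st v) := by rw [ct_st, ct_st, h.1]
    have h2 := hd_mul_NFc (st b) (st a) h1 h.2.2
    rw [st_append, st_append, st_append, st_append, ← List.append_assoc, ← List.append_assoc]
    exact h2
  star' := by
    intro u v h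
    refine ⟨by rw [ct_st, ct_st, h.1], h.2.2, ?_⟩
    rw [st_st, st_st]
    exact h.2.1
  sub' := by
    intro u v f hf h
    refine ⟨ct_sb_eq_NFc f h.1, hd_sb_NFc f hf h.1 h.2.1, ?_⟩
    rw [← sb_st, ← sb_st]
    exact hd_sb_NFc f hf (by rw [ct_st, ct_st, h.1]) h.2.2

theorem hNFc : StNFc :=
  ⟨⟨ECd_NFc, fun _ _ => Iff.rfl⟩, ⟨EQ_NFc, fun _ _ => Iff.rfl⟩, fun n => ⟨EA_NFc n, fun _ _ => Iff.rfl⟩⟩

end Helper1.IM
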