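import Pool.Agent.Helper1.IM.NSt2

/-!
# Project IM (MP_265e56_al), second part, module NJ: multiplicities along paths
-/

set_option autoImplicit false

namespace Helper1.IM

private theorem bc_le_NJ {θ α : FIC} {ω : ℕ} (hl : Le θ α) (h : Bc θ ω) : Bc α ω :=
  ⟨h.pf.le hl, hl _ _ h.sy, hl _ _ h.cm⟩

theorem hNJ (h3 : StTk3) : StNJ := by
  intro θ α β ω a b hB ha hb pa pb u v hJ i
  induction hJ with
  | refl => exact Nat.ModEq.refl _
  | tail _ h2 ih =>
    refine ih.trans ?_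
    rcases h2 with h2 | h2
    · exact ((h3 α ω (bc_le_NJ ha hB) _ _ h2).1 a pa i).of_dvd (Nat.gcd_dvd_left a b)
    · exact ((h3 β ω (bc_le_NJ hb hB) _ _ h2).1 b pb i).of_dvd (Nat.gcd_dvd_right a b)

end Helper1.IM
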