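import Pool.Agent.Helper1.IM.NSt

/-!
# Project IM, second part: module NLS (bounded companions)
-/

set_option autoImplicit false

namespace Helper1.IM

theorem hNLS (h9 : StN9c) : StNLS := by
  intro θ ω hM hP u hu hR
  refine ⟨max 7 (4 * u.length), fun v hv => ?_⟩
  by_contra hlt
  push Not at hlt
  have h7 : 7 ≤ v.length := le_trans (le_max_left _ _) hlt.le
  have h4 : 4 * u.length < v.length := lt_of_le_of_lt (le_max_right _ _) hlt
  have hRv : ¬ R θ ω v := fun h => hR (h.of_r' hv)
  have hct : ct u = ct v := by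
    by_contra hc
    exact hR (cont_R hP.pos hv hc).1
  have hoc : ∀ i ∈ ct v, oc i v ≤ 3 := by
    intro i _
    by_contra hi
    exact hRv (h9 θ ω hM hP v h7 ⟨i, by omega⟩)
  have h1 : v.length ≤ (ct v).card * 3 := by
    rw [length_eq_sum v]
    exact Finset.sum_le_card_nsmul _ _ _ hoc
  rw [← hct] at h1
  have h2 := card_ct_le u
  omega

end Helper1.IM
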