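import Pool.Agent.Helper1.IM.NSt

set_option autoImplicit false

namespace Helper1.IM

/-- The words related to a renaming of `w` or `w*`. -/
private def S_NMax (θ : FIC) (w : Wd) (v : Wd) : Prop :=
  ∃ (p : Equiv.Perm ℕ) (e : ℕ → Bool) (x : Wd), (x = w ∨ x = st w) ∧ θ.r v (rw' p e x)

private theorem S_of_r_NMax {θ : FIC} {w u v : Wd} (h : S_NMax θ w u) (hr : θ.r u v) : S_NMax θ w v := by
  obtain ⟨p, e, x, hx, h⟩ := h
  exact ⟨p, e, x, hx, θ.trans' (θ.symm' hr) h⟩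

private theorem S_st_NMax {θ : FIC} {w u : Wd} (h : S_NMax θ w u) : S_NMax θ w (st u) := by
  obtain ⟨p, e, x, hx, h⟩ := h
  refine ⟨p, e, st x, ?_, ?_⟩
  · rcases hx with rfl | rfl
    · exact Or.inr rfl
    · exact Or.inl (st_st _)
  · rw [← st_rw']
    exact θ.star' h

private theorem S_rw_NMax {θ : FIC} {w u : Wd} (h : S_NMax θ w u) (q : Equiv.Perm ℕ) (f : ℕ → Bool) :
    S_NMax θ w (rw' q f u) := by
  obtain ⟨p, e, x, hx, h⟩ := h
  have h1 := θ.rn q f h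
  rw [rw'_rw'] at h1
  exact ⟨_, _, x, hx, h1⟩

private theorem R_rw_iff_NMax {θ : FIC} {ω : ℕ} {u : Wd} (p : Equiv.Perm ℕ) (e : ℕ → Bool) :
    R θ ω (rw' p e u) ↔ R θ ω u := by
  refine ⟨fun h => ?_, fun h => h.rw' p e⟩
  have := h.rw' p⁻¹ (fun i => e (p⁻¹ i))
  rwa [rw'_inv] at this

theorem hNMax (hL : StLevG) (hK : StKlC) (hS : StNLS) : StNMax := by
  intro θ β ω hm pf hθβ u hcu hRu hβ
  have hω := pf.pos
  have hu0 : u ≠ [] := by
    intro h
    rw [h] at hcu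
    have : (0 : ℕ) ∈ ct ([] : Wd) := by rw [hcu]; simp
    simp at this
  obtain ⟨k, hk⟩ := hS θ ω hm pf u hu0 hRu
  -- a longest partner
  obtain ⟨w, huw, hmax⟩ : ∃ w, θ.r u w ∧ ∀ v, θ.r u v → v.length ≤ w.length := by
    classical
    let P : ℕ → Prop := fun n => ∃ v, θ.r u v ∧ v.length = n
    have hP : P u.length := ⟨u, θ.refl' u, rfl⟩
    have h1 := Nat.findGreatest_spec (P := P) (hk u (θ.refl' u)) hP
    obtain ⟨w, hw, hwl⟩ := h1
    refine ⟨w, hw, fun v hv => ?_⟩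
    rw [hwl]
    exact Nat.le_findGreatest (hk v hv) ⟨v, hv, rfl⟩
  have hRw : ¬ R θ ω w := fun h => hRu (h.of_r' huw)
  have hcw : ct w = {0, 1} := by
    by_contra h
    exact hRu (cont_R hω huw (by rw [hcu]; exact fun h' => h h'.symm)).1
  have hcard : (ct w).card = 2 := by rw [hcw]; simp
  have hd : 1 ≤ w.length := by
    have := card_ct_le w
    omega
  obtain ⟨k1, k2, k3, k4⟩ := hK θ 2 w.length hd
  have hTw : ¬ Kl θ 2 w.length w := by
    rintro ⟨w', hw', h | ⟨h1, h2⟩⟩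
    · have := hmax w' (θ.trans' huw hw')
      omega
    · refine hRw (cont_R hω hw' (fun h => ?_)).1
      rw [← h, hcard] at h2
      omega
  have hw0 : w ≠ [] := θ.ne'' huw hu0
  -- facts about `S`
  have Swn : S_NMax θ w w := ⟨1, fun _ => false, w, Or.inl rfl, by rw [rw'_id]; exact θ.refl' w⟩
  have Sd : ∀ v, S_NMax θ w v → ∃ y, θ.r v y ∧ y.length = w.length ∧ (ct y).card = 2 ∧ ¬ Kl θ 2 w.length y ∧
      ¬ R θ ω y := by
    rintro v ⟨p, e, x, hx, h⟩
    have hx1 : x.length = w.length := by rcases hx with rfl | rfl <;> simp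
    have hx2 : (ct x).card = 2 := by rcases hx with rfl | rfl <;> simp [hcard]
    have hx3 : ¬ Kl θ 2 w.length x := by
      rcases hx with rfl | rfl
      · exact hTw
      · rwa [Kl.st_iff]
    have hx4 : ¬ R θ ω x := by
      rcases hx with rfl | rfl
      · exact hRw
      · intro h
        have := h.st
        rw [st_st] at this
        exact hRw this
    refine ⟨rw' p e x, h, by rw [rw'_length, hx1], ?_, ?_, ?_⟩
    · rw [ct_rw', Finset.card_image_of_injective _ p.injective, hx2]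
    · rwa [Kl.rw'_iff]
    · rwa [R_rw_iff_NMax]
  have SnT : ∀ v, S_NMax θ w v → ¬ Kl θ 2 w.length v := by
    intro v hv hT
    obtain ⟨y, h, _, _, h3, _⟩ := Sd v hv
    exact h3 (hT.of_r h)
  have SnR : ∀ v, S_NMax θ w v → ¬ R θ ω v := by
    intro v hv hR
    obtain ⟨y, h, _, _, _, h4⟩ := Sd v hv
    exact h4 (hR.of_r h)
  have Sn0 : ∀ v, S_NMax θ w v → v ≠ [] := by
    intro v hv h0
    obtain ⟨y, h, h1, _, _, _⟩ := Sd v hv
    have := θ.ne' h h0
    rw [this] at h1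
    simp at h1
    omega
  have Sct : ∀ v v', S_NMax θ w v → θ.r v v' → ct v = ct v' := by
    intro v v' hv hr
    by_contra h
    exact SnR v hv (cont_R hω hr h).1
  have Smul : ∀ v a b, S_NMax θ w v → a ++ b ≠ [] → Kl θ 2 w.length (a ++ v ++ b) := by
    intro v a b hv hab
    obtain ⟨y, h, h1, h2, _, _⟩ := Sd v hv
    exact ((k4 y h1 h2).1 a b hab).of_r (θ.symm' (θ.mul' a b h))
  have Ssb : ∀ v (f : ℕ → Wd), S_NMax θ w v → (∀ i, f i ≠ []) → Kl θ 2 w.length (sb f v) ∨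
      ∃ (p : Equiv.Perm ℕ) (e : ℕ → Bool), ∀ i ∈ ct v, f i = [(p i, e i)] := by
    intro v f hv hf
    obtain ⟨y, h, h1, h2, _, _⟩ := Sd v hv
    rcases (k4 y h1 h2).2 f hf with h3 | ⟨p, e, h3⟩
    · exact Or.inl (h3.of_r (θ.symm' (θ.sub' f hf h)))
    · right
      refine ⟨p, e, fun i hi => h3 i ?_⟩
      rwa [← Sct v y hv h]
  have T0 : ∀ v, Kl θ 2 w.length v → v ≠ [] := k1
  obtain ⟨α, hα⟩ := hL θ (Kl θ 2 w.length) (S_NMax θ w) (fun a b => S_NMax θ w a ∧ θ.r a b) T0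
    (fun a b h hr => h.of_r hr) k2 (fun a h => h.st) (fun a f hf h => k3 a f hf h)
    (fun a h => ⟨SnT a h, Sn0 a h⟩)
    (fun a b h => ⟨h.1, S_of_r_NMax h.1 h.2, Sct a b h.1 h.2⟩)
    (fun a b h hr => ⟨h, hr⟩)
    (fun a b h => ⟨S_of_r_NMax h.1 h.2, θ.symm' h.2⟩)
    (fun a b c h h' => ⟨h.1, θ.trans' h.2 h'.2⟩)
    (fun a b h => ⟨S_st_NMax h.1, θ.star' h.2⟩)
    (fun a b p e h => ⟨S_rw_NMax h.1 p e, θ.rn p e h.2⟩)
    (fun a x y h hab => Smul a x y h hab)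
    (fun a f h hf => Ssb a f h hf)
  obtain ⟨γ, hγ⟩ := hL θ (Kl θ 2 w.length) (S_NMax θ w)
    (fun a b => S_NMax θ w a ∧ S_NMax θ w b ∧ ct a = ct b) T0
    (fun a b h hr => h.of_r hr) k2 (fun a h => h.st) (fun a f hf h => k3 a f hf h)
    (fun a h => ⟨SnT a h, Sn0 a h⟩)
    (fun a b h => h)
    (fun a b h hr => ⟨h, S_of_r_NMax h hr, Sct a b h hr⟩)
    (fun a b h => ⟨h.2.1, h.1, h.2.2.symm⟩)
    (fun a b c h h' => ⟨h.1, h'.2.1, h.2.2.trans h'.2.2⟩)
    (fun a b h => ⟨S_st_NMax h.1, S_st_NMax h.2.1, by rw [ct_st, ct_st, h.2.2]⟩)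
    (fun a b p e h => ⟨S_rw_NMax h.1 p e, S_rw_NMax h.2.1 p e, by rw [ct_rw', ct_rw', h.2.2]⟩)
    (fun a x y h hab => Smul a x y h hab)
    (fun a f h hf => Ssb a f h hf)
  have hθα : Le θ α := fun a b h => (hα a b).2 (Or.inl h)
  have hθγ : Le θ γ := fun a b h => (hγ a b).2 (Or.inl h)
  have hαγ : Le α γ := by
    intro a b h
    rcases (hα a b).1 h with h | h | h
    · exact hθγ _ _ h
    · exact (hγ a b).2 (Or.inr (Or.inl h))
    · exact hθγ _ _ h.2
  obtain ⟨z, hz0, hz⟩ := hβ w huw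
  set σ : Equiv.Perm ℕ := Equiv.swap 0 1 with hσ
  set ε : ℕ → Bool := fun _ => false with hε
  refine ⟨w, huw, ?_⟩
  have hS' : S_NMax θ w (rw' σ ε w) := S_rw_NMax Swn σ ε
  have hct' : ct w = ct (rw' σ ε w) := by
    rw [ct_rw', hcw, hσ]
    ext i
    simp only [Finset.mem_insert, Finset.mem_singleton, Finset.mem_image]
    constructor
    · rintro (rfl | rfl)
      · exact ⟨1, Or.inr rfl, Equiv.swap_apply_right _ _⟩
      · exact ⟨0, Or.inl rfl, Equiv.swap_apply_left _ _⟩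
    · rintro ⟨j, rfl | rfl, rfl⟩
      · right; exact Equiv.swap_apply_left _ _
      · left; exact Equiv.swap_apply_right _ _
  have hT1 : Kl θ 2 w.length (w ++ z) := by
    have := Smul w [] z Swn (by simpa using hz0)
    simpa using this
  have hz' : β.r (rw' σ ε w) (rw' σ ε w ++ rw' σ ε z) := by
    have := β.rn σ ε hz
    rwa [rw'_append] at this
  have hT2 : Kl θ 2 w.length (rw' σ ε w ++ rw' σ ε z) := by
    have := Smul (rw' σ ε w) [] (rw' σ ε z) hS' (by simpa using hz0)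
    simpa using this
  have hJn : Jn α β w (rw' σ ε w) := by
    refine Relation.ReflTransGen.head (Or.inr hz) ?_
    refine Relation.ReflTransGen.head (Or.inl ((hα _ _).2 (Or.inr (Or.inl ⟨hT1, hT2⟩)))) ?_
    exact Relation.ReflTransGen.single (Or.inr (β.symm' hz'))
  have hg : γ.r w (rw' σ ε w) := (hγ _ _).2 (Or.inr (Or.inr ⟨Swn, hS', hct'⟩))
  have hJm := hm α β γ hθα hθβ hθγ hαγ w (rw' σ ε w) hJn hg
  have inv : ∀ v, Jm α β γ w v → S_NMax θ w v ∧ β.r w v := by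
    intro v hv
    induction hv with
    | refl => exact ⟨Swn, β.refl' w⟩
    | @tail b c _ h2 ih =>
      obtain ⟨h3, h4⟩ := ih
      rcases h2 with h2 | ⟨h2, h5⟩
      · rcases (hα b c).1 h2 with h6 | h6 | h6
        · exact ⟨S_of_r_NMax h3 h6, β.trans' h4 (hθβ _ _ h6)⟩
        · exact absurd h6.1 (SnT b h3)
        · exact ⟨S_of_r_NMax h3 h6.2, β.trans' h4 (hθβ _ _ h6.2)⟩
      · rcases (hγ b c).1 h5 with h6 | h6 | h6
        · exact ⟨S_of_r_NMax h3 h6, β.trans' h4 h2⟩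
        · exact absurd h6.1 (SnT b h3)
        · exact ⟨h6.2.1, β.trans' h4 h2⟩
  exact (inv _ hJm).2

end Helper1.IM
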