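import Pool.Agent.Helper1.IM.NSt

set_option autoImplicit false

namespace Helper1.IM

private theorem add_NPer {θ : FIC} {ω i j : ℕ} (hi : θ.r (pw [X 0] ω) (pw [X 0] (ω + i)))
    (hj : θ.r (pw [X 0] ω) (pw [X 0] (ω + j))) : θ.r (pw [X 0] ω) (pw [X 0] (ω + (i + j))) := by
  have h1 := θ.mulR (pw [X 0] j) hi
  rw [← pw_add, ← pw_add] at h1
  have e : ω + i + j = ω + (i + j) := by ring
  rw [e] at h1
  exact θ.trans' hj h1

private theorem sub_NPer {θ : FIC} {ω i j : ℕ} (hi : θ.r (pw [X 0] ω) (pw [X 0] (ω + i)))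
    (hij : θ.r (pw [X 0] ω) (pw [X 0] (ω + (i + j)))) : θ.r (pw [X 0] ω) (pw [X 0] (ω + j)) := by
  have h1 := θ.mulR (pw [X 0] j) hi
  rw [← pw_add, ← pw_add] at h1
  have e : ω + i + j = ω + (i + j) := by ring
  rw [e] at h1
  exact θ.trans' hij (θ.symm' h1)

private theorem mul_NPer {θ : FIC} {ω n : ℕ} (hn : θ.r (pw [X 0] ω) (pw [X 0] (ω + n))) (q : ℕ) :
    θ.r (pw [X 0] ω) (pw [X 0] (ω + n * q)) := by
  induction q with
  | zero => simpa using θ.refl' _
  | succ q ih =>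
    rw [Nat.mul_succ]
    exact add_NPer ih hn

theorem hNPer : StNPer := by
  refine ⟨?_, ?_, ?_, ?_⟩
  · intro θ ω hpf
    classical
    have hex : ∃ j, 1 ≤ j ∧ θ.r (pw [X 0] ω) (pw [X 0] (ω + j)) := ⟨ω, hpf.pos, hpf.idm⟩
    obtain ⟨hn1, hn⟩ := Nat.find_spec hex
    have hmin : ∀ j, 1 ≤ j → θ.r (pw [X 0] ω) (pw [X 0] (ω + j)) → Nat.find hex ≤ j :=
      fun j h1 h2 => Nat.find_min' hex ⟨h1, h2⟩
    generalize Nat.find hex = n at hn1 hn hmin
    refine ⟨n, hn1, fun j => ⟨fun h => ?_, ?_⟩⟩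
    · have e : j = n * (j / n) + j % n := (Nat.div_add_mod j n).symm
      rw [e] at h
      have h2 := sub_NPer (mul_NPer hn (j / n)) h
      rcases Nat.eq_zero_or_pos (j % n) with h0 | h0
      · exact Nat.dvd_of_mod_eq_zero h0
      · have := hmin _ h0 h2
        have := Nat.mod_lt j (show 0 < n by omega)
        omega
    · rintro ⟨q, rfl⟩
      exact mul_NPer hn q
  · intro θ δ ω n m hle hθ hδ
    exact (hδ.2 n).1 (hle _ _ ((hθ.2 n).2 dvd_rfl))
  · intro θ ω n hpf hper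
    exact (hper.2 ω).1 hpf.idm
  · intro θ ω n hpf hper t ht
    have key : ∀ i k : ℕ, ω ≤ i → n ∣ k → θ.r (pw t i) (pw t (i + k)) := by
      intro i k hi hk
      have h1 := (hper.2 k).2 hk
      have h2 := θ.sub' (fun _ => t) (fun _ => ht) h1
      rw [sb_pw, sb_pw] at h2
      have e : sb (fun _ => t) [X 0] = t := by simp
      rw [e] at h2
      obtain ⟨l, rfl⟩ := Nat.exists_eq_add_of_le hi
      have h3 := θ.mulR (pw t l) h2
      rw [← pw_add, ← pw_add] at h3
      have e2 : ω + k + l = ω + l + k := by ring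
      rwa [e2] at h3
    intro i j hi hj hij
    rcases le_total i j with h | h
    · obtain ⟨k, rfl⟩ := Nat.exists_eq_add_of_le h
      refine key i k hi ?_
      have := (Nat.modEq_iff_dvd' h).1 hij
      simpa using this
    · obtain ⟨k, rfl⟩ := Nat.exists_eq_add_of_le h
      refine θ.symm' (key j k hj ?_)
      have := (Nat.modEq_iff_dvd' h).1 hij.symm
      simpa using this

end Helper1.IM
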