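import Pool.Agent.Helper1.IM.NSt2

/-!
# Project IM, module NT: number theory
-/

set_option autoImplicit false

namespace Helper1.IM

private theorem gcd_aux_NT (n a b d d' : ℕ) (hn : 1 ≤ n) (ha : a ∣ n) (hb : b ∣ n) (hd : 1 ≤ d) (hd' : 1 ≤ d')
    (hp : ∀ p : ℕ, p.Prime → p ∣ n → ¬ p ^ a.factorization p ∣ d ∧ ¬ p ^ b.factorization p ∣ d)
    (hg : Nat.gcd d (Nat.gcd a b) = Nat.gcd d' (Nat.gcd a b)) : Nat.gcd d n = Nat.gcd d' n := by
  have hn0 : n ≠ 0 := by omega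
  have hd0 : d ≠ 0 := by omega
  have hd0' : d' ≠ 0 := by omega
  have ha0 : a ≠ 0 := fun h => hn0 (by rw [h] at ha; exact Nat.eq_zero_of_zero_dvd ha)
  have hb0 : b ≠ 0 := fun h => hn0 (by rw [h] at hb; exact Nat.eq_zero_of_zero_dvd hb)
  have hab0 : Nat.gcd a b ≠ 0 := fun h => ha0 (Nat.eq_zero_of_gcd_eq_zero_left h)
  refine Nat.eq_of_factorization_eq (fun h => hd0 (Nat.eq_zero_of_gcd_eq_zero_left h))
    (fun h => hd0' (Nat.eq_zero_of_gcd_eq_zero_left h)) (fun p => ?_)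
  rw [Nat.factorization_gcd hd0 hn0, Nat.factorization_gcd hd0' hn0, Finsupp.inf_apply, Finsupp.inf_apply]
  by_cases hpn : p.Prime ∧ p ∣ n
  · obtain ⟨hpp, hpn⟩ := hpn
    obtain ⟨h1, h2⟩ := hp p hpp hpn
    rw [hpp.pow_dvd_iff_le_factorization hd0] at h1 h2
    have h3 := congrArg (fun m : ℕ => m.factorization p) hg
    simp only [Nat.factorization_gcd hd0 hab0, Nat.factorization_gcd hd0' hab0, Nat.factorization_gcd ha0 hb0,
      Finsupp.inf_apply] at h3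
    omega
  · have h0 : n.factorization p = 0 := by
      by_contra h
      have hm := Finsupp.mem_support_iff.2 h
      rw [Nat.support_factorization] at hm
      exact hpn ⟨Nat.prime_of_mem_primeFactors hm, Nat.dvd_of_mem_primeFactors hm⟩
    rw [h0]
    simp

private theorem gm_dvd_aux_NT (M M' : Wd) (g : ℕ) (hc : ct M = ct M') (h : ∀ j, oc j M ≡ oc j M' [MOD g]) :
    Nat.gcd (gm M) g ∣ Nat.gcd (gm M') g := by
  refine Nat.dvd_gcd (Finset.dvd_gcd fun j hj => ?_) (Nat.gcd_dvd_right _ _)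
  rw [← hc] at hj
  have h1 : Nat.gcd (gm M) g ∣ oc j M := (Nat.gcd_dvd_left _ _).trans (Finset.gcd_dvd hj)
  exact ((h j).dvd_iff (Nat.gcd_dvd_right _ _)).1 h1

theorem hNT : StNT := by
  refine ⟨fun n a b d d' hn ha hb hd hd' hp hg => gcd_aux_NT n a b d d' hn ha hb hd hd' hp hg,
    fun M M' g hc h => Nat.dvd_antisymm (gm_dvd_aux_NT M M' g hc h)
      (gm_dvd_aux_NT M' M g hc.symm fun j => (h j).symm), fun M hM => ?_⟩
  obtain ⟨a, t, rfl⟩ := List.exists_cons_of_ne_nil hM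
  rw [Nat.one_le_iff_ne_zero]
  intro h0
  have h1 := (Finset.gcd_eq_zero_iff.1 h0) a.1 (by simp)
  rw [oc_eq_zero] at h1
  exact h1 (by simp)

end Helper1.IM
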