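import Pool.Agent.Helper1.IM.NSt3

/-!
# Project IM, second part, module P0: local version of NA1
-/

set_option autoImplicit false

namespace Helper1.IM

private theorem G_sb_P0 {G : Wd → Prop} (hm : ∀ s t, G s → G t → G (s ++ t))
    (hs : ∀ s, G s → G (st s)) {f : ℕ → Wd} (hf : ∀ i, G (f i)) (w : Wd) (hw : w ≠ []) :
    G (sb f w) := by
  induction w with
  | nil => exact absurd rfl hw
  | cons a w ih =>
    have h1 : G (if a.2 then st (f a.1) else f a.1) := by
      split_ifs
      · exact hs _ (hf _)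
      · exact hf _
    rw [sb_cons]
    by_cases hw' : w = []
    · subst hw'
      rw [sb_nil, List.append_nil]
      exact h1
    · exact hm _ _ h1 (ih hw')

/-- The congruence of all identities which hold in `G` modulo `θ`. -/
private def mu_P0 (θ : FIC) (G : Wd → Prop) (hm : ∀ s t, G s → G t → G (s ++ t))
    (hs : ∀ s, G s → G (st s)) : FIC where
  r u v := (u = [] ↔ v = []) ∧ ∀ f : ℕ → Wd, (∀ i, G (f i)) → θ.r (sb f u) (sb f v)
  refl' _ := ⟨Iff.rfl, fun _ _ => θ.refl' _⟩
  symm' h := ⟨h.1.symm, fun f hf => θ.symm' (h.2 f hf)⟩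
  trans' h h' := ⟨h.1.trans h'.1, fun f hf => θ.trans' (h.2 f hf) (h'.2 f hf)⟩
  ne' h hu := h.1.1 hu
  mul' := by
    intro u v a b h
    refine ⟨by simp [h.1], fun f hf => ?_⟩
    rw [sb_append, sb_append, sb_append, sb_append]
    exact θ.mul' _ _ (h.2 f hf)
  star' := by
    intro u v h
    refine ⟨by simpa using h.1, fun f hf => ?_⟩
    rw [sb_st, sb_st]
    exact θ.star' (h.2 f hf)
  sub' := by
    intro u v g hg h
    refine ⟨?_, fun f hf => ?_⟩
    · constructor
      · intro h1
        by_contra h2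
        have : v ≠ [] := fun h3 => h2 (by rw [h3]; rfl)
        exact sb_ne_nil g hg u (fun h3 => this (h.1.1 h3)) h1
      · intro h1
        by_contra h2
        have : u ≠ [] := fun h3 => h2 (by rw [h3]; rfl)
        exact sb_ne_nil g hg v (fun h3 => this (h.1.2 h3)) h1
    · rw [sb_sb, sb_sb]
      exact h.2 _ (fun i => G_sb_P0 hm hs hf (g i) (hg i))

theorem hP0 (h1 : StNA1) : StP0 := by
  intro θ hM hH G w hne hm hs hw hw2 hG s hGs
  have hw0 : w ≠ [] := by
    rintro rfl
    simp at hw2
  have hle : Le θ (mu_P0 θ G hm hs) := by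
    intro u v h
    exact ⟨⟨fun h2 => θ.ne' h h2, fun h2 => θ.ne' (θ.symm' h) h2⟩,
      fun f hf => θ.sub' f (fun i => hne _ (hf i)) h⟩
  have hμx : (mu_P0 θ G hm hs).r [X 0] w := by
    refine ⟨⟨fun h => by simp at h, fun h => absurd h hw0⟩, fun f hf => ?_⟩
    have h2 : sb f [X 0] = f 0 := by simp
    have h3 : sb f w = sb (fun _ => f 0) w := by
      apply sb_congr
      intro i hi
      obtain ⟨b, hb⟩ := mem_ct.1 hi
      have := hw _ hb
      simp only at this
      rw [this]
    rw [h2, h3]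
    exact hG _ (hf 0)
  have hfin := h1 θ hM hH (mu_P0 θ G hm hs) hle w hw2 hμx
  have h3 := hfin.2 (fun _ => s) (fun _ => hGs)
  have h4 : sb (fun _ => s) [X 0] = s := by simp
  have h5' : sb (fun _ => s) [Y 0] = st s := by simp
  rwa [h4, h5'] at h3

end Helper1.IM
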