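import Pool.Agent.Helper1.IM.NSt3

/-!
# Project IM, second part, module P1: long companions
-/

set_option autoImplicit false

namespace Helper1.IM

private theorem zero_P1 {δ : FIC} (hT : StTy) (hN : NilF δ) (h7 : Mod7 δ) {u : Wd}
    (hu : 7 ≤ u.length) (hi : ∃ i, 4 ≤ oc i u) : Zero δ u := by
  obtain ⟨i, hi⟩ := hi
  by_contra hnz
  have hnl : ¬ Lin u := by
    intro h
    have h1 : oc i u ≤ 1 := List.nodup_iff_count_le_one.1 h i
    omega
  obtain ⟨_, _, hR | hE | hD⟩ := hT _ hN h7
  · exact hnz (hR.r1 u (by omega) ⟨i, by omega⟩)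
  · obtain ⟨j, h2, h3, h4⟩ := hE.e1 u (by omega) hnl hnz
    by_cases hij : i = j
    · subst hij
      omega
    · have := h4 i hij
      omega
  · obtain ⟨j, h2, h4⟩ := hD.d1 u hu hnl hnz
    by_cases hij : i = j
    · subst hij
      omega
    · have := h4 i hij
      omega

private theorem one_sb_P1 (v : Wd) : One (sb (fun _ => [X 0]) v) := by
  intro a ha
  unfold sb at ha
  rw [List.mem_flatMap] at ha
  obtain ⟨b, _, hb⟩ := ha
  cases hb2 : b.2
  · simp [hb2, X] at hb
    rw [hb]
  · simp [hb2, X, st, fl] at hb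
    rw [hb]

private theorem oc_one_P1 {w : Wd} (hw : One w) : oc 0 w = w.length := by
  induction w with
  | nil => rfl
  | cons a w ih =>
    rw [oc_cons, List.length_cons, ih (fun b hb => hw b (by simp [hb])), hw a (by simp), if_pos rfl,
      Nat.add_comm]

theorem hP1 (hT : StTy) (hS : StSat) : StP1 := by
  intro θ hM
  have key : ∀ w : Wd, 7 ≤ w.length → (∃ i, 4 ≤ oc i w) → ∀ k, ∃ v, θ.r w v ∧ k ≤ v.length := by
    intro w hw hi k
    obtain ⟨δ, hδ, hle, hcol⟩ := hS (max k 1) θ (le_max_right _ _)
    have hN : NilF δ := by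
      refine ⟨max k 1, by simp [List.replicate_succ], fun v => ⟨?_, ?_⟩⟩
      · apply hcol
        · simp only [List.length_append, List.length_replicate]
          omega
        · simp only [List.length_replicate]
          omega
      · apply hcol
        · simp only [List.length_append, List.length_replicate]
          omega
        · simp only [List.length_replicate]
          omega
    have h7 : Mod7 δ := Mod7.le hle hM.mod7
    have hz := zero_P1 hT hN h7 hw hi
    rcases (hδ _ _).1 (δ.symm' (hz.2 (pw [X 0] (max k 1))).1) with h | h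
    · refine ⟨_, h, ?_⟩
      simp only [List.length_append, length_pw, List.length_cons, List.length_nil]
      omega
    · obtain ⟨w1, h1, h2⟩ := h.1
      exact ⟨w1, h1, le_trans (le_max_left _ _) h2⟩
  refine ⟨key, fun w hw h1 k => ?_⟩
  obtain ⟨v, hv, hk⟩ := key w hw ⟨0, by rw [oc_one_P1 h1]; omega⟩ k
  refine ⟨sb (fun _ => [X 0]) v, one_sb_P1 v, ?_, hk.trans (length_sb_ge _ (by simp) v)⟩
  have h2 := θ.sub' (fun _ => [X 0]) (by simp) hv
  have h3 : sb (fun _ => [X 0]) w = w := by
    conv_rhs => rw [← sb_id w]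
    apply sb_congr
    intro i hi
    obtain ⟨b, hb⟩ := mem_ct.1 hi
    have h4 : i = 0 := h1 _ hb
    rw [h4]
    rfl
  rwa [h3] at h2

end Helper1.IM
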