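import Pool.Agent.Helper1.IM.NSt3

set_option autoImplicit false

namespace Helper1.IM

private theorem One_app_P10a {u v : Wd} (hu : One u) (hv : One v) : One (u ++ v) := by
  intro a ha
  rcases List.mem_append.1 ha with h | h
  · exact hu a h
  · exact hv a h

private theorem One_st_P10a {u : Wd} (hu : One u) : One (st u) := by
  intro a ha
  unfold st at ha
  rw [List.mem_reverse, List.mem_map] at ha
  obtain ⟨b, hb, rfl⟩ := ha
  rw [fl_fst]
  exact hu b hb

private theorem One_nil_P10a : One [] := by
  intro a ha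
  simp at ha

/-- The closure conditions without properness. -/
private structure Pre_P10a (θ : FIC) (K : Set Wd) : Prop where
  one : ∀ w, w ∈ K → One w ∧ w ≠ []
  thr : ∀ w v, w ∈ K → One v → θ.r w v → v ∈ K
  mul : ∀ w a b, w ∈ K → One a → One b → a ++ w ++ b ∈ K
  str : ∀ w, w ∈ K → st w ∈ K

private theorem fin_P10a : ({w : Wd | One w ∧ w.length = 7} : Set Wd).Finite := by
  have h1 : {l : List Bool | l.length = 7}.Finite := List.finite_length_eq Bool 7
  refine (h1.image (fun l : List Bool => l.map (fun b => ((0, b) : Lt)))).subset ?_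
  rintro w ⟨hw, hl⟩
  refine ⟨w.map Prod.snd, by simpa using hl, ?_⟩
  show (w.map Prod.snd).map (fun b => ((0, b) : Lt)) = w
  rw [List.map_map]
  conv_rhs => rw [← List.map_id w]
  apply List.map_congr_left
  intro a ha
  have := hw a ha
  show ((0, a.2) : Lt) = a
  rw [← this]

theorem hP10a (h1 : StP1) : StP10a := by
  intro θ hm
  have hz := zorn_subset {K : Set Wd | Pre_P10a θ K ∧ ∃ w, One w ∧ w.length = 7 ∧ w ∉ K} (by
    intro c hc hch
    rcases c.eq_empty_or_nonempty with he | hne
    · refine ⟨∅, ⟨⟨fun w h => absurd h (by simp), fun w v h => absurd h (by simp),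
        fun w a b h => absurd h (by simp), fun w h => absurd h (by simp)⟩, pw [X 0] 7, ?_, by simp, by simp⟩, ?_⟩
      · intro a ha
        simp only [pw, List.mem_flatten] at ha
        obtain ⟨l, hl, hal⟩ := ha
        rw [List.mem_replicate] at hl
        rw [hl.2, List.mem_singleton] at hal
        rw [hal]
        rfl
      · intro s hs
        rw [he] at hs
        simp at hs
    · refine ⟨⋃₀ c, ⟨⟨?_, ?_, ?_, ?_⟩, ?_⟩, fun s hs => Set.subset_sUnion_of_mem hs⟩
      · rintro w ⟨s, hs, hw⟩
        exact (hc hs).1.one w hw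
      · rintro w v ⟨s, hs, hw⟩ hv hr
        exact ⟨s, hs, (hc hs).1.thr w v hw hv hr⟩
      · rintro w a b ⟨s, hs, hw⟩ ha hb
        exact ⟨s, hs, (hc hs).1.mul w a b hw ha hb⟩
      · rintro w ⟨s, hs, hw⟩
        exact ⟨s, hs, (hc hs).1.str w hw⟩
      · by_contra hno
        push Not at hno
        obtain ⟨s, hs, hsub⟩ := hch.directedOn.exists_mem_subset_of_finite_of_subset_sUnion hne
          fin_P10a (fun w hw => hno w hw.1 hw.2)
        obtain ⟨w, hw1, hw2, hw3⟩ := (hc hs).2
        exact hw3 (hsub ⟨hw1, hw2⟩))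
  obtain ⟨K, hK⟩ := hz
  have hK1 : Pre_P10a θ K := hK.prop.1
  have hK2 : ∃ w, One w ∧ w.length = 7 ∧ w ∉ K := hK.prop.2
  refine ⟨fun w => w ∈ K, ⟨hK1.one, hK1.thr, hK1.mul, hK1.str, hK2, ?_⟩⟩
  intro a ha ha7 haK w hw hw7
  have hane : a ≠ [] := by
    rintro rfl
    simp at ha7
  -- the larger set
  set K' : Set Wd := {w | w ∈ K ∨ (One w ∧ w ≠ [] ∧ ∃ p q, One p ∧ One q ∧
    (θ.r w (p ++ a ++ q) ∨ θ.r w (p ++ st a ++ q)))} with hK'
  have hKK : K ⊆ K' := fun w hw => Or.inl hw
  have haK' : a ∈ K' := Or.inr ⟨ha, hane, [], [], One_nil_P10a, One_nil_P10a, Or.inl (by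
    simpa using θ.refl' a)⟩
  have hP : Pre_P10a θ K' := by
    refine ⟨?_, ?_, ?_, ?_⟩
    · rintro w (h | h)
      · exact hK1.one w h
      · exact ⟨h.1, h.2.1⟩
    · rintro w v (h | ⟨g1, g2, p, q, g3, g4, g5⟩) hv hr
      · exact Or.inl (hK1.thr w v h hv hr)
      · refine Or.inr ⟨hv, θ.ne'' hr g2, p, q, g3, g4, ?_⟩
        rcases g5 with g5 | g5
        · exact Or.inl (θ.trans' (θ.symm' hr) g5)
        · exact Or.inr (θ.trans' (θ.symm' hr) g5)
    · rintro w c d (h | ⟨g1, g2, p, q, g3, g4, g5⟩) hc hd
      · exact Or.inl (hK1.mul w c d h hc hd)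
      · refine Or.inr ⟨One_app_P10a (One_app_P10a hc g1) hd, by simp [g2], c ++ p, q ++ d,
          One_app_P10a hc g3, One_app_P10a g4 hd, ?_⟩
        rcases g5 with g5 | g5
        · left
          have := θ.mul' c d g5
          simpa [List.append_assoc] using this
        · right
          have := θ.mul' c d g5
          simpa [List.append_assoc] using this
    · rintro w (h | ⟨g1, g2, p, q, g3, g4, g5⟩)
      · exact Or.inl (hK1.str w h)
      · refine Or.inr ⟨One_st_P10a g1, by simpa using g2, st q, st p, One_st_P10a g4,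
          One_st_P10a g3, ?_⟩
        rcases g5 with g5 | g5
        · right
          have := θ.star' g5
          simpa [st_append, List.append_assoc] using this
        · left
          have := θ.star' g5
          simpa [st_append, List.append_assoc] using this
  -- it contains all words of length 7
  have h7 : ∀ u, One u → u.length = 7 → u ∈ K' := by
    by_contra hno
    push Not at hno
    exact haK (hK.le_of_ge ⟨hP, hno⟩ hKK haK')
  obtain ⟨v, hv, hr, hl⟩ := (h1 θ hm).2 w hw7 hw 21
  have ev : v = v.take 7 ++ (v.drop 7).take 7 ++ (v.drop 7).drop 7 := by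
    rw [List.append_assoc, List.take_append_drop, List.take_append_drop]
  have o1 : One (v.take 7) := fun b hb => hv b (List.mem_of_mem_take hb)
  have o2 : One ((v.drop 7).take 7) := fun b hb => hv b (List.mem_of_mem_drop (List.mem_of_mem_take hb))
  have o3 : One ((v.drop 7).drop 7) := fun b hb => hv b (List.mem_of_mem_drop (List.mem_of_mem_drop hb))
  have l1 : (v.take 7).length = 7 := by
    rw [List.length_take]
    omega
  have l2 : ((v.drop 7).take 7).length = 7 := by
    rw [List.length_take, List.length_drop]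
    omega
  have l3 : 7 ≤ ((v.drop 7).drop 7).length := by
    rw [List.length_drop, List.length_drop]
    omega
  rcases h7 _ o2 l2 with h | ⟨-, -, p, q, g3, g4, g5⟩
  · left
    refine hK1.thr v w ?_ hw (θ.symm' hr)
    rw [ev]
    exact hK1.mul _ _ _ h o1 o3
  · right
    refine ⟨v.take 7 ++ p, q ++ (v.drop 7).drop 7, One_app_P10a o1 g3, One_app_P10a g4 o3, by
      rw [List.length_append]; omega, by rw [List.length_append]; omega, ?_⟩
    rcases g5 with g5 | g5
    · left
      refine θ.trans' hr ?_
      have := θ.mul' (v.take 7) ((v.drop 7).drop 7) g5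
      rw [← ev] at this
      simpa [List.append_assoc] using this
    · right
      refine θ.trans' hr ?_
      have := θ.mul' (v.take 7) ((v.drop 7).drop 7) g5
      rw [← ev] at this
      simpa [List.append_assoc] using this

end Helper1.IM
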