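import Pool.Agent.Helper1.IM.NSt3

/-!
# Project IM, second part: module P10b (existence of an idempotent outside the ideal)
-/

set_option autoImplicit false

namespace Helper1.IM

private theorem one_app_P10b {u v : Wd} (hu : One u) (hv : One v) : One (u ++ v) := by
  intro a ha
  rcases List.mem_append.1 ha with h | h
  · exact hu a h
  · exact hv a h

private theorem one_left_P10b {u v : Wd} (h : One (u ++ v)) : One u :=
  fun a ha => h a (List.mem_append_left _ ha)

private theorem one_right_P10b {u v : Wd} (h : One (u ++ v)) : One v :=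
  fun a ha => h a (List.mem_append_right _ ha)

private theorem one_st_P10b {u : Wd} (hu : One u) : One (st u) := by
  intro a ha
  simp only [st, List.mem_reverse, List.mem_map] at ha
  obtain ⟨b, hb, rfl⟩ := ha
  rw [fl_fst]
  exact hu b hb

private theorem one_pw_P10b {u : Wd} (hu : One u) (k : ℕ) : One (pw u k) := by
  induction k with
  | zero => intro a ha; simp at ha
  | succ k ih => rw [pw_succ]; exact one_app_P10b hu ih

private theorem one_sb_P10b {s : Wd} (hs : One s) (u : Wd) : One (sb (fun _ => s) u) := by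
  induction u with
  | nil => intro a ha; simp at ha
  | cons c u ih =>
    rw [sb_cons]
    refine one_app_P10b ?_ ih
    split_ifs
    · exact one_st_P10b hs
    · exact hs

private theorem one_lt_P10b {a : Lt} (h : a.1 = 0) : a = X 0 ∨ a = Y 0 := by
  obtain ⟨i, b⟩ := a
  simp only at h
  subst h
  cases b
  · exact Or.inl rfl
  · exact Or.inr rfl

/-- iteration -/
private theorem iter_P10b (θ : FIC) {z P q : Wd} (h : θ.r z (P ++ z ++ q)) (n : ℕ) :
    θ.r z (pw P n ++ z ++ pw q n) := by
  induction n with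
  | zero => simpa using θ.refl' z
  | succ n ih =>
    have h1 := θ.mul' (pw P n) (pw q n) h
    have h2 := θ.trans' ih h1
    have h3 : pw P n ++ (P ++ z ++ q) ++ pw q n = pw P (n + 1) ++ z ++ pw q (n + 1) := by
      rw [pw_succ' P, pw_succ q]
      simp [List.append_assoc]
    rwa [h3] at h2

/-- a word beginning with a starred letter and ending with an unstarred letter has a factor `[Y 0, X 0]` -/
private theorem fac_P10b (v : Wd) (hv : One v) :
    ∃ u1 u2 : Wd, Y 0 :: (v ++ [X 0]) = u1 ++ [Y 0, X 0] ++ u2 := by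
  induction v with
  | nil => exact ⟨[], [], rfl⟩
  | cons a v ih =>
    have hv' : One v := fun b hb => hv b (List.mem_cons_of_mem _ hb)
    rcases one_lt_P10b (hv a (by simp)) with rfl | rfl
    · exact ⟨[], v ++ [X 0], rfl⟩
    · obtain ⟨u1, u2, hu⟩ := ih hv'
      refine ⟨Y 0 :: u1, u2, ?_⟩
      rw [List.cons_append, hu]
      rfl

/-- two adjacent letters with different signs -/
private theorem adj_P10b (v : Wd) (hv : One v) (hX : X 0 ∈ v) (hY : Y 0 ∈ v) :
    ∃ u1 u2 : Wd, v = u1 ++ [X 0, Y 0] ++ u2 ∨ v = u1 ++ [Y 0, X 0] ++ u2 := by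
  induction v with
  | nil => simp at hX
  | cons a v ih =>
    have hv' : One v := fun b hb => hv b (List.mem_cons_of_mem _ hb)
    cases v with
    | nil =>
      rw [List.mem_singleton] at hX hY
      rw [← hX] at hY
      simp [X, Y] at hY
    | cons b w =>
      rcases one_lt_P10b (hv a (by simp)) with ha | ha <;>
        rcases one_lt_P10b (hv b (by simp)) with hb | hb
      · have h1 : X 0 ∈ b :: w := by rw [hb]; simp
        have h2 : Y 0 ∈ b :: w := by
          rcases List.mem_cons.1 hY with h | h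
          · rw [ha] at h; simp [X, Y] at h
          · exact h
        obtain ⟨u1, u2, hu⟩ := ih hv' h1 h2
        refine ⟨a :: u1, u2, ?_⟩
        rcases hu with hu | hu
        · left; rw [hu]; rfl
        · right; rw [hu]; rfl
      · exact ⟨[], w, Or.inl (by rw [ha, hb]; rfl)⟩
      · exact ⟨[], w, Or.inr (by rw [ha, hb]; rfl)⟩
      · have h1 : Y 0 ∈ b :: w := by rw [hb]; simp
        have h2 : X 0 ∈ b :: w := by
          rcases List.mem_cons.1 hX with h | h
          · rw [ha] at h; simp [X, Y] at h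
          · exact h
        obtain ⟨u1, u2, hu⟩ := ih hv' h2 h1
        refine ⟨a :: u1, u2, ?_⟩
        rcases hu with hu | hu
        · left; rw [hu]; rfl
        · right; rw [hu]; rfl

private theorem pwX_P10b (t : Wd) (k : ℕ) : sb (fun _ => t) (pw [X 0] k) = pw t k := by
  rw [sb_pw]
  simp

/-- (α) -/
private theorem alpha_P10b {θ : FIC} {K : Wd → Prop} (hK : KI θ K) {v : Wd} (hv : One v) (hY : Y 0 ∈ v)
    (h7 : θ.r (pw [X 0] 7) v) {z : Wd} (hz : One z) (hz7 : 7 ≤ z.length) (hzK : ¬ K z)
    (hzs : θ.r z (st z)) : ¬ K (z ++ z) := by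
  intro hzz
  have key : ∀ w, One w → 7 ≤ w.length → ¬ K w → ∃ p q, One p ∧ One q ∧ 7 ≤ p.length ∧ 7 ≤ q.length ∧
      θ.r w (p ++ z ++ q) := by
    intro w hw hw7 hwK
    rcases hK.max z hz hz7 hzK w hw hw7 with h | ⟨p, q, hp, hq, hp7, hq7, h⟩
    · exact absurd h hwK
    · refine ⟨p, q, hp, hq, hp7, hq7, ?_⟩
      rcases h with h | h
      · exact h
      · exact θ.trans' h (θ.mul' p q (θ.symm' hzs))
  obtain ⟨p, q, hp, hq, hp7, hq7, h⟩ := key z hz hz7 hzK
  have hpK : ¬ K p := by
    intro hpK
    apply hzK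
    have h1 := hK.mul p [] (z ++ q) hpK (fun a ha => by simp at ha) (one_app_P10b hz hq)
    refine hK.thr _ z h1 hz ?_
    simpa [List.append_assoc] using θ.symm' h
  obtain ⟨p1, p2, hp1, hp2, -, -, h'⟩ := key p hp hp7 hpK
  set P : Wd := p1 ++ z ++ p2 with hP
  have hPz : θ.r z (P ++ z ++ q) := by
    have h1 := θ.mulR (z ++ q) h'
    have h2 : p ++ (z ++ q) = p ++ z ++ q := by simp
    have h3 : p1 ++ z ++ p2 ++ (z ++ q) = P ++ z ++ q := by simp [hP]
    rw [h2, h3] at h1
    exact θ.trans' h h1
  have h9 := iter_P10b θ hPz 9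
  set b : Wd := z ++ p2 ++ p1 with hb
  have hb1 : One b := one_app_P10b (one_app_P10b hz hp2) hp1
  have hbb : K (st b ++ b) := by
    have h1 := hK.mul (z ++ z) (st (p2 ++ p1)) (p2 ++ p1) hzz (one_st_P10b (one_app_P10b hp2 hp1))
      (one_app_P10b hp2 hp1)
    refine hK.thr _ _ h1 (one_app_P10b (one_st_P10b hb1) hb1) ?_
    have h2 := θ.mul' (st (p2 ++ p1)) (z ++ (p2 ++ p1)) hzs
    have h3 : st (p2 ++ p1) ++ (z ++ z) ++ (p2 ++ p1) = st (p2 ++ p1) ++ z ++ (z ++ (p2 ++ p1)) := by simp
    have h4 : st b ++ b = st (p2 ++ p1) ++ st z ++ (z ++ (p2 ++ p1)) := by simp [hb]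
    rw [h3, h4]
    exact h2
  have hb8 : K (pw b 8) := by
    obtain ⟨v1, v2, hvv⟩ := List.append_of_mem hY
    have hv2 : One v2 := by
      intro a ha
      apply hv
      rw [hvv]
      simp [ha]
    obtain ⟨u1, u2, hu⟩ := fac_P10b v2 hv2
    have h1 : θ.r (pw [X 0] 8) (v ++ [X 0]) := by
      have := θ.mulR [X 0] h7
      rwa [← pw_succ'] at this
    have hbne : b ≠ [] := by
      intro h0
      have : z = [] := by simp [hb] at h0; exact h0.1
      rw [this] at hz7
      simp at hz7
    have h2 := θ.sub' (fun _ => b) (fun _ => hbne) h1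
    rw [pwX_P10b] at h2
    have h3 : v ++ [X 0] = (v1 ++ u1) ++ [Y 0, X 0] ++ u2 := by
      rw [hvv, List.append_assoc, List.cons_append, hu]
      simp
    have h4 : sb (fun _ => b) (v ++ [X 0]) = sb (fun _ => b) (v1 ++ u1) ++ (st b ++ b) ++ sb (fun _ => b) u2 := by
      rw [h3, sb_append, sb_append]
      simp
    rw [h4] at h2
    refine hK.thr _ _ ?_ (one_pw_P10b hb1 8) (θ.symm' h2)
    exact hK.mul _ _ _ hbb (one_sb_P10b hb1 _) (one_sb_P10b hb1 _)
  have hPb : ∀ n, pw P (n + 1) = p1 ++ pw b n ++ (z ++ p2) := by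
    intro n
    induction n with
    | zero => simp [hP]
    | succ n ih =>
      rw [pw_succ', ih, pw_succ' b]
      simp [hP, hb, List.append_assoc]
  apply hzK
  have h10 : K (p1 ++ pw b 8 ++ ((z ++ p2) ++ (z ++ pw q 9))) :=
    hK.mul _ _ _ hb8 hp1 (one_app_P10b (one_app_P10b hz hp2) (one_app_P10b hz (one_pw_P10b hq 9)))
  refine hK.thr _ z h10 hz (θ.symm' ?_)
  have h11 : pw P 9 ++ z ++ pw q 9 = p1 ++ pw b 8 ++ ((z ++ p2) ++ (z ++ pw q 9)) := by
    rw [hPb 8]
    simp only [List.append_assoc]
  rwa [h11] at h9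

theorem hP10b (_h5 : StN5) : StP10b := by
  intro θ ω K _hM _hN hPS hK hv
  obtain ⟨v, hv1, hX, hY, h7⟩ := hv
  by_contra hno
  push Not at hno
  have hid : ∀ e, One e → 7 ≤ e.length → θ.r (e ++ e) e → K e := by
    intro e he he7 hee
    by_contra hKe
    exact hno e he he7 hKe hee
  have hω : 7 ≤ ω := hPS.1
  -- (β)
  have beta : ∀ z, One z → 7 ≤ z.length → θ.r z (st z) → K z := by
    intro z hz hz7 hzs
    by_contra hzK
    have hzne : z ≠ [] := by
      intro h0
      rw [h0] at hz7
      simp at hz7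
    have h1 := θ.sub' (fun _ => z) (fun _ => hzne) hPS.2
    have h2 : ∀ k, sb (fun _ => z) (pw [X 0, Y 0] k) = pw (z ++ st z) k := by
      intro k
      rw [sb_pw]
      simp
    rw [h2, h2] at h1
    have h3 : K (pw (z ++ st z) ω) := by
      apply hid
      · exact one_pw_P10b (one_app_P10b hz (one_st_P10b hz)) ω
      · rw [length_pw, List.length_append]
        nlinarith
      · rw [← pw_add]
        exact θ.symm' h1
    have h4 : ∀ k, θ.r (pw (z ++ st z) k) (pw z (2 * k)) := by
      intro k
      induction k with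
      | zero => exact θ.refl' _
      | succ k ih =>
        have h5 : θ.r (z ++ st z) (z ++ z) := θ.mulL z (θ.symm' hzs)
        have h6 := θ.mul2 ih h5
        rw [← pw_succ'] at h6
        have h7 : pw z (2 * (k + 1)) = pw z (2 * k) ++ (z ++ z) := by
          have : 2 * (k + 1) = 2 * k + 1 + 1 := by ring
          rw [this, pw_succ', pw_succ', List.append_assoc]
        rwa [h7]
    have h5 : K (pw z (2 * ω)) := hK.thr _ _ h3 (one_pw_P10b hz _) (h4 ω)
    have h6 : ∀ k, 2 * ω ≤ k → K (pw z k) := by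
      intro k hk
      obtain ⟨j, rfl⟩ := Nat.exists_eq_add_of_le hk
      rw [pw_add]
      have := hK.mul _ [] (pw z j) h5 (fun a ha => by simp at ha) (one_pw_P10b hz j)
      simpa using this
    have h7' : ∃ i, K (pw z (2 ^ i)) := ⟨2 * ω, h6 _ (Nat.lt_two_pow_self).le⟩
    classical
    obtain ⟨i, hi⟩ : ∃ i, i = Nat.find h7' := ⟨_, rfl⟩
    have hi1 : K (pw z (2 ^ i)) := by rw [hi]; exact Nat.find_spec h7'
    have hi0 : i ≠ 0 := by
      intro h0
      rw [h0] at hi1
      apply hzK
      simpa using hi1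
    obtain ⟨j, rfl⟩ := Nat.exists_eq_succ_of_ne_zero hi0
    have hj : ¬ K (pw z (2 ^ j)) := by
      apply Nat.find_min h7'
      omega
    have h8 : pw z (2 ^ j) ++ pw z (2 ^ j) = pw z (2 ^ (j + 1)) := by
      rw [← pw_add, pow_succ]
      congr 1
      ring
    have h9 : θ.r (pw z (2 ^ j)) (st (pw z (2 ^ j))) := by
      rw [st_pw]
      have : ∀ k, θ.r (pw z k) (pw (st z) k) := by
        intro k
        induction k with
        | zero => exact θ.refl' _
        | succ k ih => rw [pw_succ, pw_succ]; exact θ.mul2 hzs ih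
      exact this _
    refine alpha_P10b hK hv1 hY h7 (one_pw_P10b hz _) ?_ hj h9 ?_
    · rw [length_pw]
      have : 1 ≤ 2 ^ j := Nat.one_le_two_pow
      nlinarith
    · rw [h8]
      exact hi1
  -- (γ)
  have gamma : ∀ t, One t → 7 ≤ t.length → K (pw t 7) := by
    intro t ht ht7
    have htne : t ≠ [] := by
      intro h0
      rw [h0] at ht7
      simp at ht7
    have h1 : K (t ++ st t) := by
      apply beta _ (one_app_P10b ht (one_st_P10b ht))
      · rw [List.length_append]; omega
      · simpa using θ.refl' _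
    have h2 : K (st t ++ t) := by
      apply beta _ (one_app_P10b (one_st_P10b ht) ht)
      · rw [List.length_append]; omega
      · simpa using θ.refl' _
    have h3 := θ.sub' (fun _ => t) (fun _ => htne) h7
    rw [pwX_P10b] at h3
    obtain ⟨u1, u2, hu | hu⟩ := adj_P10b v hv1 hX hY
    · have h4 : sb (fun _ => t) v = sb (fun _ => t) u1 ++ (t ++ st t) ++ sb (fun _ => t) u2 := by
        rw [hu, sb_append, sb_append]
        simp
      rw [h4] at h3
      refine hK.thr _ _ ?_ (one_pw_P10b ht 7) (θ.symm' h3)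
      exact hK.mul _ _ _ h1 (one_sb_P10b ht _) (one_sb_P10b ht _)
    · have h4 : sb (fun _ => t) v = sb (fun _ => t) u1 ++ (st t ++ t) ++ sb (fun _ => t) u2 := by
        rw [hu, sb_append, sb_append]
        simp
      rw [h4] at h3
      refine hK.thr _ _ ?_ (one_pw_P10b ht 7) (θ.symm' h3)
      exact hK.mul _ _ _ h2 (one_sb_P10b ht _) (one_sb_P10b ht _)
  -- (δ)
  obtain ⟨a, ha, ha7, haK⟩ := hK.prp
  have fin : ∀ p q, One p → One q → 7 ≤ p.length → θ.r a (p ++ a ++ q) → False := by
    intro p q hp hq hp7 h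
    apply haK
    have h1 := iter_P10b θ h 7
    have h2 := hK.mul (pw p 7) [] (a ++ pw q 7) (gamma p hp hp7) (fun b hb => by simp at hb)
      (one_app_P10b ha (one_pw_P10b hq 7))
    refine hK.thr _ a h2 ha (θ.symm' ?_)
    simpa [List.append_assoc] using h1
  rcases hK.max a ha (by omega) haK a ha (by omega) with h | ⟨p, q, hp, hq, hp7, hq7, h⟩
  · exact haK h
  · rcases h with h | h
    · exact fin p q hp hq hp7 h
    · have h1 := θ.star' h
      have h2 : st (p ++ st a ++ q) = st q ++ a ++ st p := by simp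
      rw [h2] at h1
      have h3 := θ.mul' p q h1
      have h4 := θ.trans' h h3
      have h5 : p ++ (st q ++ a ++ st p) ++ q = (p ++ st q) ++ a ++ (st p ++ q) := by simp
      rw [h5] at h4
      refine fin _ _ (one_app_P10b hp (one_st_P10b hq)) (one_app_P10b (one_st_P10b hp) hq) ?_ h4
      rw [List.length_append]
      omega

end Helper1.IM
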