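import Pool.Agent.Helper1.IM.NSt3
import Pool.Agent.Helper1.IM.M_N6

/-!
# Project IM, second part: module P10c (conclusion)
-/

set_option autoImplicit false

namespace Helper1.IM

private theorem one_app_P10c {u v : Wd} (hu : One u) (hv : One v) : One (u ++ v) := by
  intro a ha
  rcases List.mem_append.1 ha with h | h
  · exact hu a h
  · exact hv a h

private theorem one_pw_P10c (k : ℕ) : One (pw [X 0] k) := by
  induction k with
  | zero => intro a ha; simp at ha
  | succ k ih =>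
    rw [pw_succ]
    refine one_app_P10c ?_ ih
    intro a ha
    rw [List.mem_singleton] at ha
    rw [ha]
    rfl

private theorem one_lt_P10c {a : Lt} (h : a.1 = 0) : a = X 0 ∨ a = Y 0 := by
  obtain ⟨i, b⟩ := a
  simp only at h
  subst h
  cases b
  · exact Or.inl rfl
  · exact Or.inr rfl

private theorem idp_P10c {M : Type} [Monoid M] {E : M} (hE : E * E = E) {k : ℕ} (hk : 1 ≤ k) :
    E ^ k = E := by
  obtain ⟨k, rfl⟩ := Nat.exists_eq_succ_of_ne_zero (by omega : k ≠ 0)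
  induction k with
  | zero => simp
  | succ k ih => rw [pow_succ, ih (by omega), hE]

private theorem abs_P10c {M : Type} [Monoid M] {E C Z : M} (hE : E * E = E) (hEC : E = C * Z)
    (hc : ∀ m, E * m = m * E)
    (hF : (Z * E * (E * C)) * (Z * E * (E * C)) = Z * E * (E * C) →
      ∀ m, (Z * E * (E * C)) * m = m * (Z * E * (E * C))) :
    (E * C) * (Z * E) = E ∧ (Z * E) * (E * C) = E := by
  have h1 : (E * C) * (Z * E) = E := by
    calc (E * C) * (Z * E) = E * (C * Z) * E := by simp only [mul_assoc]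
      _ = E * E * E := by rw [← hEC]
      _ = E := by rw [hE, hE]
  have h2 : (Z * E * (E * C)) * (Z * E * (E * C)) = Z * E * (E * C) := by
    calc (Z * E * (E * C)) * (Z * E * (E * C)) = Z * E * ((E * C) * (Z * E)) * (E * C) := by
          simp only [mul_assoc]
      _ = Z * E * E * (E * C) := by rw [h1]
      _ = Z * (E * E) * (E * C) := by simp only [mul_assoc]
      _ = Z * E * (E * C) := by rw [hE]
  have h3 := hF h2
  refine ⟨h1, ?_⟩
  set F := Z * E * (E * C) with hFd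
  have h4 : F * E = E := by
    calc F * E = F * ((E * C) * (Z * E)) := by rw [h1]
      _ = F * (E * C) * (Z * E) := by simp only [mul_assoc]
      _ = (E * C) * F * (Z * E) := by rw [h3]
      _ = ((E * C) * (Z * E)) * ((E * C) * (Z * E)) := by rw [hFd]; simp only [mul_assoc]
      _ = E := by rw [h1, hE]
  have h5 : E * F = F := by
    calc E * F = (E * Z) * E * (E * C) := by rw [hFd]; simp only [mul_assoc]
      _ = (Z * E) * E * (E * C) := by rw [hc Z]
      _ = Z * (E * E) * (E * C) := by simp only [mul_assoc]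
      _ = F := by rw [hE]
  rw [← h5, hc F, h4]

theorem hP10c (h5 : StN5) (hg : StP5) : StP10c := by
  intro θ ω K e hM hN hPS hc hK he he7 heK hee
  have hω : 7 ≤ ω := hPS.1
  have hene : e ≠ [] := by
    intro h0
    rw [h0] at he7
    simp at he7
  -- idempotents are central
  have cen : ∀ g : Wd, g ≠ [] → θ.r (g ++ g) g → ∀ s, θ.r (g ++ s) (s ++ g) := by
    intro g hgn hgg s
    rcases eq_or_ne s [] with rfl | hs
    · simpa using θ.refl' g
    have h1 := h5 θ hM hN g hgn hgg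
    have h2 : θ.r (pw (g ++ st g) ω) g := by
      rw [← mk_eq_N6, mk_pw_N6, mk_mul_N6, ← (mk_eq_N6.2 h1 : mk_N6 θ g = mk_N6 θ (st g))]
      have h3 : mk_N6 θ g * mk_N6 θ g = mk_N6 θ g := by
        rw [← mk_mul_N6]
        exact mk_eq_N6.2 hgg
      rw [h3]
      exact idp_P10c h3 (by omega)
    have h3 := θ.sub' (fun i => if i = 1 then s else g) (fun i => by split_ifs <;> assumption) hc
    have h4 : sb (fun i => if i = 1 then s else g) (hw ω) = pw (g ++ st g) ω := by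
      rw [hw, sb_pw]
      simp
    rw [sb_append, sb_append, h4] at h3
    have h6 : sb (fun i => if i = 1 then s else g) [X 1] = s := by simp
    rw [h6] at h3
    exact θ.trans' (θ.mulR s (θ.symm' h2)) (θ.trans' h3 (θ.mulL s h2))
  have hes := h5 θ hM hN e hene hee
  have hce := cen e hene hee
  have key2 : ∀ w, One w → 7 ≤ w.length → ¬ K w → θ.r (e ++ w) w := by
    intro w hw1 hw7 hwK
    have h1 : ∃ p q : Wd, θ.r w (p ++ e ++ q) := by
      rcases hK.max e he he7 heK w hw1 hw7 with h | ⟨p, q, -, -, -, -, h | h⟩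
      · exact absurd h hwK
      · exact ⟨p, q, h⟩
      · exact ⟨p, q, θ.trans' h (θ.mul' p q (θ.symm' hes))⟩
    obtain ⟨p, q, h⟩ := h1
    rw [← mk_eq_N6] at h ⊢
    rw [mk_mul_N6, h, mk_mul_N6, mk_mul_N6]
    have h2 : mk_N6 θ e * mk_N6 θ p = mk_N6 θ p * mk_N6 θ e := by
      rw [← mk_mul_N6, ← mk_mul_N6]
      exact mk_eq_N6.2 (hce p)
    have h3 : mk_N6 θ e * mk_N6 θ e = mk_N6 θ e := by
      rw [← mk_mul_N6]
      exact mk_eq_N6.2 hee
    calc mk_N6 θ e * (mk_N6 θ p * mk_N6 θ e * mk_N6 θ q)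
        = (mk_N6 θ e * mk_N6 θ p) * mk_N6 θ e * mk_N6 θ q := by simp only [mul_assoc]
      _ = mk_N6 θ p * (mk_N6 θ e * mk_N6 θ e) * mk_N6 θ q := by rw [h2]; simp only [mul_assoc]
      _ = mk_N6 θ p * mk_N6 θ e * mk_N6 θ q := by rw [h3]
  obtain ⟨c, z, hcz⟩ : ∃ c z, e = c :: z := by
    cases e with
    | nil => exact absurd rfl hene
    | cons c z => exact ⟨c, z, rfl⟩
  have hzne : z ≠ [] := by
    intro h0
    rw [hcz, h0] at he7
    simp at he7
  have hE : mk_N6 θ e * mk_N6 θ e = mk_N6 θ e := by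
    rw [← mk_mul_N6]
    exact mk_eq_N6.2 hee
  have hEC : mk_N6 θ e = mk_N6 θ [c] * mk_N6 θ z := by
    rw [← mk_mul_N6, hcz]
    rfl
  have hcm : ∀ m : Qm_N6 θ, mk_N6 θ e * m = m * mk_N6 θ e := by
    intro m
    induction m using Quotient.ind
    rename_i s
    exact mk_eq_N6.2 (hce s)
  have hF : (mk_N6 θ z * mk_N6 θ e * (mk_N6 θ e * mk_N6 θ [c])) * (mk_N6 θ z * mk_N6 θ e * (mk_N6 θ e * mk_N6 θ [c])) =
      mk_N6 θ z * mk_N6 θ e * (mk_N6 θ e * mk_N6 θ [c]) →
      ∀ m, (mk_N6 θ z * mk_N6 θ e * (mk_N6 θ e * mk_N6 θ [c])) * m =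
        m * (mk_N6 θ z * mk_N6 θ e * (mk_N6 θ e * mk_N6 θ [c])) := by
    intro h m
    induction m using Quotient.ind
    rename_i s
    simp only [← mk_mul_N6] at h ⊢
    have h1 := cen (z ++ e ++ (e ++ [c])) (by simp) (mk_eq_N6.1 h) s
    exact mk_eq_N6.2 h1
  obtain ⟨hRS, hSR⟩ := abs_P10c hE hEC hcm hF
  -- P5
  have hp5 := hg θ ω hM hN hPS e (e ++ [c]) (z ++ e) hene (by simp) (by simp [hene]) hee
    (by
      rw [← mk_eq_N6, mk_mul_N6, mk_mul_N6, ← mul_assoc, hE])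
    (by
      rw [← mk_eq_N6, mk_mul_N6, mk_mul_N6, ← hcm, ← mul_assoc, hE])
    (by
      rw [← mk_eq_N6, mk_mul_N6, mk_mul_N6, hcm, mul_assoc, hE])
    (by
      rw [← mk_eq_N6, mk_mul_N6, mk_mul_N6, mul_assoc, hE])
    (by
      rw [← mk_eq_N6, mk_mul_N6, mk_mul_N6, mk_mul_N6, hRS])
    (by
      rw [← mk_eq_N6, mk_mul_N6, mk_mul_N6, mk_mul_N6, hSR])
  have hp := hp5.2
  have h2ω : 1 ≤ 2 * ω := by omega
  have hEc : mk_N6 θ e * mk_N6 θ [c] ^ (2 * ω) = mk_N6 θ e := by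
    rw [← mk_eq_N6, mk_pw_N6, mk_mul_N6] at hp
    have hcomm : Commute (mk_N6 θ e) (mk_N6 θ [c]) := hcm _
    rw [hcomm.mul_pow, idp_P10c hE h2ω] at hp
    exact hp
  -- x
  have hEx : mk_N6 θ e * mk_N6 θ [X 0] ^ (2 * ω) = mk_N6 θ e := by
    have hc0 : c.1 = 0 := he c (by rw [hcz]; simp)
    rcases one_lt_P10c hc0 with h | h
    · rw [h] at hEc
      exact hEc
    · rw [h] at hEc
      have h1 : θ.r (e ++ pw [Y 0] (2 * ω)) e := by
        rw [← mk_eq_N6, mk_mul_N6, mk_pw_N6]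
        exact hEc
      have h2 := θ.star' h1
      rw [st_append, st_pw] at h2
      have h3 : st [Y 0] = [X 0] := by simp
      rw [h3] at h2
      have h4 := θ.trans' (θ.mulL (pw [X 0] (2 * ω)) hes) (θ.trans' h2 (θ.symm' hes))
      rw [← mk_eq_N6, mk_mul_N6, mk_pw_N6, ← hcm] at h4
      exact h4
  have hEx' : θ.r e (e ++ pw [X 0] (2 * ω)) := by
    rw [← mk_eq_N6, mk_mul_N6, mk_pw_N6]
    exact hEx.symm
  have hx7 : ¬ K (pw [X 0] 7) := by
    intro h7
    apply heK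
    have h1 : 2 * ω = 7 + (2 * ω - 7) := by omega
    have h2 := hK.mul _ e (pw [X 0] (2 * ω - 7)) h7 he (one_pw_P10c _)
    refine hK.thr _ e h2 he (θ.symm' ?_)
    rw [List.append_assoc, ← pw_add, ← h1]
    exact hEx'
  have h8 := key2 (pw [X 0] 7) (one_pw_P10c 7) (by simp) hx7
  rw [← mk_eq_N6, mk_mul_N6, mk_pw_N6] at h8
  have h9 : mk_N6 θ [X 0] ^ (14 * ω) = mk_N6 θ e := by
    have h10 : 14 * ω = 7 + (14 * ω - 7) := by omega
    have h11 : mk_N6 θ [X 0] ^ (14 * ω) = mk_N6 θ e * mk_N6 θ [X 0] ^ (14 * ω) := by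
      rw [h10, pow_add, ← mul_assoc, h8]
    rw [h11]
    have h12 : ∀ k : ℕ, mk_N6 θ e * (mk_N6 θ [X 0] ^ (2 * ω)) ^ k = mk_N6 θ e := by
      intro k
      induction k with
      | zero => simp
      | succ k ih => rw [pow_succ, ← mul_assoc, ih, hEx]
    have h13 : 14 * ω = 2 * ω * 7 := by ring
    rw [h13, pow_mul]
    exact h12 7
  refine ⟨by omega, ?_⟩
  rw [← mk_eq_N6, mk_pw_N6, mk_pw_N6, pow_add, h9, hE]

end Helper1.IM
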