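import Pool.Agent.Helper1.IM.M_P9

set_option autoImplicit false

namespace Helper1.IM

/-- A one-letter word without `Y 0` is a power of `X 0`. -/
theorem pwX_P11 (v : Wd) (ho : One v) (h : Y 0 ∉ v) : v = pw [X 0] v.length := by
  induction v with
  | nil => rfl
  | cons c v ih =>
    have h1 := ih (fun x hx => ho x (List.mem_cons_of_mem _ hx)) (fun hx => h (List.mem_cons_of_mem _ hx))
    have hc : c = X 0 := by
      have hc0 := ho c (List.mem_cons_self)
      obtain ⟨i, e⟩ := c
      simp only at hc0
      subst hc0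
      cases e
      · rfl
      · exact absurd (List.mem_cons_self) h
    rw [List.length_cons, pw_succ, ← h1, hc]
    rfl

/-- A one-letter word without `X 0` is a power of `Y 0`. -/
theorem pwY_P11 (v : Wd) (ho : One v) (h : X 0 ∉ v) : v = pw [Y 0] v.length := by
  induction v with
  | nil => rfl
  | cons c v ih =>
    have h1 := ih (fun x hx => ho x (List.mem_cons_of_mem _ hx)) (fun hx => h (List.mem_cons_of_mem _ hx))
    have hc : c = Y 0 := by
      have hc0 := ho c (List.mem_cons_self)
      obtain ⟨i, e⟩ := c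
      simp only at hc0
      subst hc0
      cases e
      · exact absurd (List.mem_cons_self) h
      · rfl
    rw [List.length_cons, pw_succ, ← h1, hc]
    rfl

theorem hP11 (h1 : StP1) (h2 : StP2) (h8 : StP8) (h9 : StP9) (ha : StP10a) (hb : StP10b) (hc : StP10c) : StP11 := by
  intro θ hm hn
  by_cases hsub : Sub θ rQ
  · exact h9 θ hm hn hsub
  obtain ⟨ω, hω⟩ := h2 θ hm
  have hcen := h8 θ ω hm hn hω hsub
  have hox : One (pw [X 0] 7) := by
    intro a ha'
    simp only [pw, List.mem_flatten, List.mem_replicate] at ha'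
    obtain ⟨l, ⟨_, rfl⟩, hl⟩ := ha'
    simp only [List.mem_singleton] at hl
    rw [hl]
    rfl
  obtain ⟨v, hov, hv, hlv⟩ := (h1 θ hm).2 (pw [X 0] 7) (by simp) hox 8
  by_cases hY : Y 0 ∈ v
  · by_cases hX : X 0 ∈ v
    · obtain ⟨K, hK⟩ := ha θ hm
      obtain ⟨e, he1, he2, he3, he4⟩ := hb θ ω K hm hn hω hK ⟨v, hov, hX, hY, hv⟩
      exact ⟨14 * ω, hc θ ω K e hm hn hω hcen hK he1 he2 he3 he4⟩
    · -- `v` is a power of `Y 0`
      have h3 := pwY_P11 v hov hX
      rw [h3] at hv
      set j := v.length with hj
      have hv' : θ.r (pw [Y 0] 7) (pw [X 0] j) := by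
        have := θ.star' hv
        rw [st_pw, st_pw] at this
        exact this
      have hpow : ∀ (k : ℕ) (u w : Wd), θ.r u w → θ.r (pw u k) (pw w k) := by
        intro k
        induction k with
        | zero => intro u w _; exact θ.refl' _
        | succ k ih =>
          intro u w h
          rw [pw_succ, pw_succ]
          exact θ.mul2 h (ih u w h)
      have h4 := hpow 7 _ _ hv
      have h5 := hpow j _ _ hv'
      rw [pw_mul, pw_mul] at h4 h5
      have h6 : j * 7 = 7 * j := Nat.mul_comm _ _
      rw [h6] at h4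
      have h7 := θ.trans' h4 h5
      have h8' : 8 * 8 ≤ j * j := Nat.mul_le_mul hlv hlv
      have h10 : j * j = 7 * 7 + (j * j - 7 * 7) := by omega
      rw [h10] at h7
      exact per_P9 (by omega) h7
  · have h3 := pwX_P11 v hov hY
    rw [h3] at hv
    have h4 : v.length = 7 + (v.length - 7) := by omega
    rw [h4] at hv
    exact per_P9 (by omega) hv

end Helper1.IM
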