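import Pool.Agent.Helper1.IM.NSt3

/-!
# Project IN, module P2: powers of `x x*` are periodic
-/

set_option autoImplicit false

namespace Helper1.IM

private theorem sb_const_P2 : ∀ v : Wd, sb (fun _ => [X 0, Y 0]) v = pw [X 0, Y 0] v.length
  | [] => rfl
  | a :: v => by
    have h1 : sb (fun _ => [X 0, Y 0]) (a :: v) =
        (if a.2 then st [X 0, Y 0] else [X 0, Y 0]) ++ sb (fun _ => [X 0, Y 0]) v := by
      simp [sb, List.flatMap_cons]
    have h2 : (if a.2 then st [X 0, Y 0] else [X 0, Y 0]) = [X 0, Y 0] := by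
      have h3 : st [X 0, Y 0] = [X 0, Y 0] := rfl
      rw [h3]
      simp
    rw [h1, h2, sb_const_P2 v, List.length_cons, pw_succ]

theorem hP2 (h1 : StP1) : StP2 := by
  intro θ hθ
  obtain ⟨v, -, hv, hl⟩ := (h1 θ hθ).2 (pw [X 0] 7) (by simp) (by
    intro a ha
    simp only [pw, List.mem_flatten, List.mem_replicate] at ha
    obtain ⟨l, ⟨-, rfl⟩, ha⟩ := ha
    rw [List.mem_singleton.1 ha]
    rfl) 8
  have h2 := θ.sub' (fun _ => [X 0, Y 0]) (fun _ => by simp) hv
  rw [sb_const_P2, sb_const_P2] at h2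
  have h3 : (pw [X 0] 7).length = 7 := by simp
  rw [h3] at h2
  obtain ⟨d, hd⟩ : ∃ d, v.length = 7 + d := Nat.exists_eq_add_of_le (by omega)
  rw [hd] at h2
  have hd1 : 1 ≤ d := by omega
  have h4 : ∀ j : ℕ, 7 ≤ j → θ.r (pw [X 0, Y 0] j) (pw [X 0, Y 0] (j + d)) := by
    intro j hj
    obtain ⟨i, rfl⟩ := Nat.exists_eq_add_of_le hj
    have h5 := θ.mul' [] (pw [X 0, Y 0] i) h2
    rw [List.nil_append, List.nil_append, ← pw_add, ← pw_add] at h5
    have e : 7 + i + d = 7 + d + i := by ring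
    rw [e]
    exact h5
  have h6 : ∀ m j : ℕ, 7 ≤ j → θ.r (pw [X 0, Y 0] j) (pw [X 0, Y 0] (j + m * d)) := by
    intro m
    induction m with
    | zero =>
      intro j _
      simpa using θ.refl' _
    | succ m ih =>
      intro j hj
      have e : j + (m + 1) * d = j + m * d + d := by ring
      rw [e]
      exact θ.trans' (ih j hj) (h4 _ (by omega))
  refine ⟨7 * d, by omega, ?_⟩
  have h7 := h6 7 (7 * d) (by omega)
  exact h7

end Helper1.IM
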