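import Pool.Agent.Helper1.IM.NSt3

set_option autoImplicit false

namespace Helper1.IM

/-- The quotient of the words by `θ`. -/
def sd_P3 (θ : FIC) : Setoid Wd := ⟨θ.r, ⟨θ.refl', fun h => θ.symm' h, fun h h' => θ.trans' h h'⟩⟩

/-- The quotient monoid. -/
def Qm_P3 (θ : FIC) : Type := Quotient (sd_P3 θ)

/-- The class of a word. -/
def mk_P3 (θ : FIC) (w : Wd) : Qm_P3 θ := Quotient.mk (sd_P3 θ) w

theorem mk_eq_P3 {θ : FIC} {u v : Wd} : mk_P3 θ u = mk_P3 θ v ↔ θ.r u v :=
  ⟨fun h => Quotient.exact h, fun h => Quotient.sound h⟩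

instance mul_P3 (θ : FIC) : Mul (Qm_P3 θ) where
  mul := Quotient.map₂ (fun u v => u ++ v) (fun _ _ h _ _ h' => θ.mul2 h h')

theorem mk_mul_P3 (θ : FIC) (u v : Wd) : mk_P3 θ (u ++ v) = mk_P3 θ u * mk_P3 θ v := rfl

instance one_P3 (θ : FIC) : _root_.One (Qm_P3 θ) where
  one := mk_P3 θ []

instance monoid_P3 (θ : FIC) : Monoid (Qm_P3 θ) where
  mul_assoc := by
    intro a b c
    induction a using Quotient.ind
    induction b using Quotient.ind
    induction c using Quotient.ind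
    rename_i a b c
    change mk_P3 θ ((a ++ b) ++ c) = mk_P3 θ (a ++ (b ++ c))
    rw [List.append_assoc]
  one_mul := by
    intro a
    induction a using Quotient.ind
    rename_i a
    change mk_P3 θ ([] ++ a) = mk_P3 θ a
    rw [List.nil_append]
  mul_one := by
    intro a
    induction a using Quotient.ind
    rename_i a
    change mk_P3 θ (a ++ []) = mk_P3 θ a
    rw [List.append_nil]

theorem mk_pw_P3 (θ : FIC) (u : Wd) (k : ℕ) : mk_P3 θ (pw u k) = mk_P3 θ u ^ k := by
  induction k with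
  | zero => rfl
  | succ k ih => rw [pw_succ', mk_mul_P3, ih, pow_succ]

theorem hP3 (h5 : StN5) : StP3 := by
  intro θ ω hm hn hps r s hr0 hs0 hr
  obtain ⟨h7, hps⟩ := hps
  obtain ⟨k, hk⟩ : ∃ k, ω = k + 1 := ⟨ω - 1, by omega⟩
  have hid : ∀ t : Wd, t ≠ [] → (mk_P3 θ t * mk_P3 θ (st t)) ^ ω * (mk_P3 θ t * mk_P3 θ (st t)) ^ ω =
      (mk_P3 θ t * mk_P3 θ (st t)) ^ ω := by
    intro t ht
    have h1 := mk_eq_P3.2 (θ.sub' (fun _ => t) (fun _ => ht) hps)
    rw [sb_pw, sb_pw] at h1
    have h2 : sb (fun _ => t) [X 0, Y 0] = t ++ st t := by simp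
    rw [h2, mk_pw_P3, mk_pw_P3, mk_mul_P3, pow_add] at h1
    exact h1.symm
  have hid1 := hid r hr0
  have hid2 := hid (st r) (by simpa using hr0)
  rw [st_st] at hid2
  have hR1 : mk_P3 θ r = mk_P3 θ r * mk_P3 θ s * mk_P3 θ r := by
    have := mk_eq_P3.2 hr
    rwa [mk_mul_P3, mk_mul_P3] at this
  have hR2 : mk_P3 θ (st r) = mk_P3 θ (st r) * mk_P3 θ (st s) * mk_P3 θ (st r) := by
    have := mk_eq_P3.2 (θ.star' hr)
    rw [st_append, st_append, ← List.append_assoc, mk_mul_P3, mk_mul_P3] at this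
    exact this
  have hee : mk_P3 θ r * mk_P3 θ s = mk_P3 θ (st s) * mk_P3 θ (st r) := by
    have h1 : θ.r ((r ++ s) ++ (r ++ s)) (r ++ s) := by
      apply mk_eq_P3.1
      simp only [mk_mul_P3]
      calc mk_P3 θ r * mk_P3 θ s * (mk_P3 θ r * mk_P3 θ s)
          = (mk_P3 θ r * mk_P3 θ s * mk_P3 θ r) * mk_P3 θ s := by simp only [mul_assoc]
        _ = _ := by rw [← hR1]
    have h2 := mk_eq_P3.2 (h5 θ hm hn (r ++ s) (by simp [hr0]) h1)
    rwa [st_append, mk_mul_P3, mk_mul_P3] at h2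
  have hff : mk_P3 θ s * mk_P3 θ r = mk_P3 θ (st r) * mk_P3 θ (st s) := by
    have h1 : θ.r ((s ++ r) ++ (s ++ r)) (s ++ r) := by
      apply mk_eq_P3.1
      simp only [mk_mul_P3]
      calc mk_P3 θ s * mk_P3 θ r * (mk_P3 θ s * mk_P3 θ r)
          = mk_P3 θ s * (mk_P3 θ r * mk_P3 θ s * mk_P3 θ r) := by simp only [mul_assoc]
        _ = _ := by rw [← hR1]
    have h2 := mk_eq_P3.2 (h5 θ hm hn (s ++ r) (by simp [hs0]) h1)
    rwa [st_append, mk_mul_P3, mk_mul_P3] at h2
  have goal1 : (mk_P3 θ r * mk_P3 θ (st r)) ^ ω = mk_P3 θ r * mk_P3 θ s := by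
    generalize mk_P3 θ (st r) = R' at *
    generalize mk_P3 θ (st s) = S' at *
    generalize mk_P3 θ s = S at *
    generalize mk_P3 θ r = R at *
    have hQP : (R * R') * (S' * S) = R * S := by
      calc (R * R') * (S' * S) = R * (R' * S') * S := by simp only [mul_assoc]
        _ = (R * S * R) * S := by rw [← hff]; simp only [mul_assoc]
        _ = R * S := by rw [← hR1]
    have hQf : (R * R') * (R * S) = R * R' := by
      rw [hee]
      calc R * R' * (S' * R') = R * (R' * S' * R') := by simp only [mul_assoc]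
        _ = _ := by rw [← hR2]
    have hQj : ∀ j : ℕ, (R * R') ^ (j + 1) * (R * S) = (R * R') ^ (j + 1) := by
      intro j
      rw [pow_succ, mul_assoc, hQf]
    have hQk : ∀ j : ℕ, (R * R') ^ (j + 1) * (S' * S) ^ (j + 1) = R * S := by
      intro j
      induction j with
      | zero => simpa using hQP
      | succ j ih =>
        calc (R * R') ^ (j + 1 + 1) * (S' * S) ^ (j + 1 + 1)
            = (R * R') ^ (j + 1) * ((R * R') * (S' * S)) * (S' * S) ^ (j + 1) := by
              rw [pow_succ (R * R') (j + 1), pow_succ' (S' * S) (j + 1)]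
              simp only [mul_assoc]
          _ = R * S := by rw [hQP, hQj, ih]
    calc (R * R') ^ ω = (R * R') ^ ω * (R * S) := by rw [hk, hQj]
      _ = (R * R') ^ ω * ((R * R') ^ ω * (S' * S) ^ ω) := by rw [hk, hQk]
      _ = ((R * R') ^ ω * (R * R') ^ ω) * (S' * S) ^ ω := by rw [mul_assoc]
      _ = (R * R') ^ ω * (S' * S) ^ ω := by rw [hid1]
      _ = R * S := by rw [hk, hQk]
  have goal2 : (mk_P3 θ (st r) * mk_P3 θ r) ^ ω = mk_P3 θ s * mk_P3 θ r := by
    generalize mk_P3 θ (st r) = R' at *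
    generalize mk_P3 θ (st s) = S' at *
    generalize mk_P3 θ s = S at *
    generalize mk_P3 θ r = R at *
    have hQP : (S * S') * (R' * R) = S * R := by
      calc (S * S') * (R' * R) = S * (S' * R') * R := by simp only [mul_assoc]
        _ = S * (R * S * R) := by rw [← hee]; simp only [mul_assoc]
        _ = S * R := by rw [← hR1]
    have hQf : (S * R) * (R' * R) = R' * R := by
      rw [hff]
      calc R' * S' * (R' * R) = (R' * S' * R') * R := by simp only [mul_assoc]
        _ = _ := by rw [← hR2]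
    have hQj : ∀ j : ℕ, (S * R) * (R' * R) ^ (j + 1) = (R' * R) ^ (j + 1) := by
      intro j
      rw [pow_succ', ← mul_assoc, hQf]
    have hQk : ∀ j : ℕ, (S * S') ^ (j + 1) * (R' * R) ^ (j + 1) = S * R := by
      intro j
      induction j with
      | zero => simpa using hQP
      | succ j ih =>
        calc (S * S') ^ (j + 1 + 1) * (R' * R) ^ (j + 1 + 1)
            = (S * S') ^ (j + 1) * ((S * S') * (R' * R) * (R' * R) ^ (j + 1)) := by
              rw [pow_succ (S * S') (j + 1), pow_succ' (R' * R) (j + 1)]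
              simp only [mul_assoc]
          _ = S * R := by rw [hQP, hQj, ih]
    calc (R' * R) ^ ω = (S * R) * (R' * R) ^ ω := by rw [hk, hQj]
      _ = ((S * S') ^ ω * (R' * R) ^ ω) * (R' * R) ^ ω := by rw [hk, hQk]
      _ = (S * S') ^ ω * ((R' * R) ^ ω * (R' * R) ^ ω) := by rw [mul_assoc]
      _ = (S * S') ^ ω * (R' * R) ^ ω := by rw [hid2]
      _ = S * R := by rw [hk, hQk]
  constructor
  · apply mk_eq_P3.1
    rw [mk_pw_P3, mk_mul_P3, mk_mul_P3]
    exact goal1
  · apply mk_eq_P3.1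
    rw [mk_pw_P3, mk_mul_P3, mk_mul_P3]
    exact goal2

end Helper1.IM
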