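import Pool.Agent.Helper1.IM.NSt3

set_option autoImplicit false

/-! Module P5 of project IM (MP_265e56_al): group elements without periodicity. -/

namespace Helper1.IM

/-- group elements with respect to the idempotent `e` -/
private def G_P5 (θ : FIC) (e t : Wd) : Prop := t ≠ [] ∧ θ.r (e ++ t) t ∧ θ.r (t ++ e) t ∧
  ∃ t', t' ≠ [] ∧ θ.r (e ++ t') t' ∧ θ.r (t' ++ e) t' ∧ θ.r (t ++ t') e ∧ θ.r (t' ++ t) e

private theorem mul_P5 {θ : FIC} {e t u : Wd} (ht : G_P5 θ e t) (hu : G_P5 θ e u) :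
    G_P5 θ e (t ++ u) := by
  obtain ⟨t0, t1, t2, t', t3, t4, t5, t6, t7⟩ := ht
  obtain ⟨u0, u1, u2, u', u3, u4, u5, u6, u7⟩ := hu
  have key : ∀ a b c d : Wd, θ.r (a ++ e) a → θ.r (b ++ c) e → θ.r (a ++ d) e →
      θ.r ((a ++ b) ++ (c ++ d)) e := by
    intro a b c d h1 h2 h3
    have h4 : θ.r (a ++ (b ++ c) ++ d) (a ++ e ++ d) := θ.mul' a d h2
    have h5 : θ.r (a ++ e ++ d) (a ++ d) := θ.mulR d h1
    have h6 : (a ++ b) ++ (c ++ d) = a ++ (b ++ c) ++ d := by simp [List.append_assoc]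
    rw [h6]
    exact θ.trans' h4 (θ.trans' h5 h3)
  refine ⟨by simp [t0], ?_, ?_, u' ++ t', by simp [u3], ?_, ?_, ?_, ?_⟩
  · have := θ.mulR u t1
    rwa [List.append_assoc] at this
  · have := θ.mulL t u2
    rwa [← List.append_assoc] at this
  · have := θ.mulR t' u4
    rwa [List.append_assoc] at this
  · have := θ.mulL u' t5
    rwa [← List.append_assoc] at this
  · exact key t u u' t' t2 u6 t6
  · exact key u' t' t u u5 t7 u7

private theorem star_P5 {θ : FIC} {e t : Wd} (he : θ.r e (st e)) (ht : G_P5 θ e t) :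
    G_P5 θ e (st t) := by
  have hl : ∀ a : Wd, θ.r (a ++ e) a → θ.r (e ++ st a) (st a) := by
    intro a h
    have h1 := θ.star' h
    rw [st_append] at h1
    exact θ.trans' (θ.mulR (st a) he) h1
  have hr : ∀ a : Wd, θ.r (e ++ a) a → θ.r (st a ++ e) (st a) := by
    intro a h
    have h1 := θ.star' h
    rw [st_append] at h1
    exact θ.trans' (θ.mulL (st a) he) h1
  obtain ⟨t0, t1, t2, t', t3, t4, t5, t6, t7⟩ := ht
  refine ⟨by simpa using t0, hl t t2, hr t t1, st t', by simpa using t3, hl t' t5, hr t' t4, ?_, ?_⟩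
  · have h1 := θ.star' t7
    rw [st_append] at h1
    exact θ.trans' h1 (θ.symm' he)
  · have h1 := θ.star' t6
    rw [st_append] at h1
    exact θ.trans' h1 (θ.symm' he)

private theorem pow_P5 {θ : FIC} {e t : Wd} (ht : G_P5 θ e t) (k : ℕ) :
    G_P5 θ e (pw t (k + 1)) := by
  induction k with
  | zero => simpa using ht
  | succ k ih =>
    rw [pw_succ]
    exact mul_P5 ht ih

private theorem idem_P5 {θ : FIC} {e g : Wd} (hg : G_P5 θ e g) (hi : θ.r (g ++ g) g) : θ.r g e := by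
  obtain ⟨t0, t1, t2, t', t3, t4, t5, t6, t7⟩ := hg
  have h1 : θ.r (g ++ (g ++ t')) (g ++ e) := θ.mulL g t6
  have h2 : θ.r ((g ++ g) ++ t') (g ++ t') := θ.mulR t' hi
  rw [List.append_assoc] at h2
  exact θ.trans' (θ.symm' t2) (θ.trans' (θ.symm' h1) (θ.trans' h2 t6))

private theorem pwc_P5 {θ : FIC} {a b : Wd} (h : θ.r a b) (k : ℕ) : θ.r (pw a k) (pw b k) := by
  induction k with
  | zero => exact θ.refl' _
  | succ k ih =>
    rw [pw_succ, pw_succ]
    exact θ.mul2 h ih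

theorem hP5 (h0 : StP0) (h5 : StN5) : StP5 := by
  intro θ ω hM hH hPS e s s' he0 hs0 hs0' hee hes hse hes' hse' hss' hs's
  have he : θ.r e (st e) := h5 θ hM hH e he0 hee
  obtain ⟨k, rfl⟩ : ∃ k, ω = k + 1 := ⟨ω - 1, by have := hPS.1; omega⟩
  have hGs : G_P5 θ e s := ⟨hs0, hes, hse, s', hs0', hes', hse', hss', hs's⟩
  -- `(s* s)^ω ~ e`
  have key : ∀ t, G_P5 θ e t → θ.r (pw (st t ++ t) (k + 1)) e := by
    intro t ht
    have h1 := θ.sub' (fun _ => st t) (fun _ => by simpa using ht.1) hPS.2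
    rw [sb_pw, sb_pw] at h1
    have h2 : sb (fun _ => st t) [X 0, Y 0] = st t ++ t := by simp
    rw [h2] at h1
    have h3 : θ.r (pw (st t ++ t) (k + 1) ++ pw (st t ++ t) (k + 1)) (pw (st t ++ t) (k + 1)) := by
      rw [← pw_add]
      exact θ.symm' h1
    exact idem_P5 (pow_P5 (mul_P5 (star_P5 he ht) ht) k) h3
  have hsym : θ.r s (st s) := by
    refine h0 θ hM hH (G_P5 θ e) (X 0 :: pw [Y 0, X 0] (k + 1)) (fun t ht => ht.1)
      (fun t u ht hu => mul_P5 ht hu) (fun t ht => star_P5 he ht) ?_ ?_ ?_ s hGs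
    · intro a ha
      rcases List.mem_cons.1 ha with rfl | ha
      · rfl
      · unfold pw at ha
        rw [List.mem_flatten] at ha
        obtain ⟨l, hl, hal⟩ := ha
        rw [List.eq_of_mem_replicate hl] at hal
        simp only [List.mem_cons, List.not_mem_nil, or_false] at hal
        rcases hal with rfl | rfl <;> rfl
    · simp only [List.length_cons, length_pw, List.length_nil]
      omega
    · intro t ht
      have h1 : sb (fun _ => t) (X 0 :: pw [Y 0, X 0] (k + 1)) = t ++ pw (st t ++ t) (k + 1) := by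
        rw [sb_X, sb_pw]
        simp
      rw [h1]
      exact θ.trans' (θ.symm' ht.2.2.1) (θ.mulL t (θ.symm' (key t ht)))
  refine ⟨hsym, ?_⟩
  have h2 : pw s 2 = s ++ s := by
    rw [pw_succ s 1, pw_one]
  have h1 : pw s (2 * (k + 1)) = pw (s ++ s) (k + 1) := by
    rw [← pw_mul, h2]
  rw [h1]
  exact θ.trans' (pwc_P5 (θ.mulR s hsym) (k + 1)) (key s hGs)

end Helper1.IM
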