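import Pool.Agent.Helper1.IM.M_P7

/-!
# Project IM, second part: module P6 (different contents)

The computation is done in the quotient monoid of `M_P7.lean`.
-/

set_option autoImplicit false

namespace Helper1.IM

/-! ## Evaluation of words in a monoid with star -/

/-- value of a word -/
def ev_P6 {M : Type} [Monoid M] [StarMul M] (φ : ℕ → M) : Wd → M
  | [] => 1
  | a :: w => (if a.2 then star (φ a.1) else φ a.1) * ev_P6 φ w

theorem ev_nil_P6 {M : Type} [Monoid M] [StarMul M] (φ : ℕ → M) : ev_P6 φ [] = 1 := rfl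

theorem ev_cons_P6 {M : Type} [Monoid M] [StarMul M] (φ : ℕ → M) (a : Lt) (w : Wd) :
    ev_P6 φ (a :: w) = (if a.2 then star (φ a.1) else φ a.1) * ev_P6 φ w := rfl

theorem ev_append_P6 {M : Type} [Monoid M] [StarMul M] (φ : ℕ → M) (u w : Wd) :
    ev_P6 φ (u ++ w) = ev_P6 φ u * ev_P6 φ w := by
  induction u with
  | nil => rw [List.nil_append, ev_nil_P6, one_mul]
  | cons a u ih => rw [List.cons_append, ev_cons_P6, ev_cons_P6, ih, mul_assoc]

/-- the class of a substituted word -/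
theorem cl_sb_P6 (θ : FIC) (f : ℕ → Wd) (w : Wd) :
    cl_P7 θ (sb f w) = ev_P6 (fun i => cl_P7 θ (f i)) w := by
  induction w with
  | nil => rfl
  | cons a w ih =>
    rw [sb_cons, cl_mul_P7, ih, ev_cons_P6]
    congr 1
    split_ifs
    · exact cl_star_P7 θ _
    · rfl

/-- the subword of the letters with index `i`, renamed to `0` -/
def tf_P6 (i : ℕ) (w : Wd) : Wd := (w.filter (fun a => decide (a.1 = i))).map (fun a => (0, a.2))

theorem one_tf_P6 (i : ℕ) (w : Wd) : One (tf_P6 i w) := by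
  intro a ha
  unfold tf_P6 at ha
  obtain ⟨b, -, rfl⟩ := List.mem_map.1 ha
  rfl

theorem tf_nil_P6 {i : ℕ} {w : Wd} (h : i ∉ ct w) : tf_P6 i w = [] := by
  unfold tf_P6
  rw [List.map_eq_nil_iff, List.filter_eq_nil_iff]
  intro a ha
  simp only [decide_eq_true_eq]
  intro h1
  apply h
  rw [mem_ct]
  exact ⟨a.2, by rw [← h1]; exact ha⟩

theorem tf_ne_P6 {i : ℕ} {w : Wd} (h : i ∈ ct w) : tf_P6 i w ≠ [] := by
  rw [mem_ct] at h
  obtain ⟨b, hb⟩ := h
  unfold tf_P6
  intro h1
  rw [List.map_eq_nil_iff, List.filter_eq_nil_iff] at h1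
  exact h1 _ hb (by simp)

/-- absorption of the factors `h` -/
theorem absorb_P6 {M : Type} [Monoid M] [StarMul M] {h s : M} (hst : star h = h)
    (hh : h * h = h) (h1 : h * s = s) (h2 : s * h = s) (i : ℕ) (φ : ℕ → M) (hi : φ i = s)
    (hj : ∀ j, j ≠ i → φ j = h) (w : Wd) :
    h * ev_P6 φ w = ev_P6 (fun _ => s) (tf_P6 i w) * h := by
  have h3 : h * star s = star s := by
    have := congrArg star h2
    rwa [star_mul, hst] at this
  have h4 : star s * h = star s := by
    have := congrArg star h1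
    rwa [star_mul, hst] at this
  induction w with
  | nil =>
    rw [tf_nil_P6 (by simp), ev_nil_P6, ev_nil_P6, one_mul, mul_one]
  | cons a w ih =>
    rw [ev_cons_P6]
    by_cases ha : a.1 = i
    · have e1 : tf_P6 i (a :: w) = (0, a.2) :: tf_P6 i w := by
        unfold tf_P6
        rw [List.filter_cons_of_pos (by simpa using ha), List.map_cons]
      rw [e1, ev_cons_P6, mul_assoc _ _ h, ← ih, ha, hi]
      by_cases hb : a.2 = true
      · simp only [hb, if_true]
        rw [← mul_assoc, h3, ← mul_assoc, h4]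
      · simp only [hb, if_false, Bool.false_eq_true]
        rw [← mul_assoc, h1, ← mul_assoc, h2]
    · have e1 : tf_P6 i (a :: w) = tf_P6 i w := by
        unfold tf_P6
        rw [List.filter_cons_of_neg (by simpa using ha)]
      rw [e1, ← ih, hj a.1 ha, hst, ite_self, ← mul_assoc, hh]

theorem absorb'_P6 {M : Type} [Monoid M] [StarMul M] {h s : M} (hst : star h = h)
    (h1 : h * s = s) (h2 : s * h = s) (t : Wd) (ht : t ≠ []) :
    ev_P6 (fun _ => s) t * h = ev_P6 (fun _ => s) t := by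
  have h4 : star s * h = star s := by
    have := congrArg star h1
    rwa [star_mul, hst] at this
  induction t with
  | nil => exact absurd rfl ht
  | cons a t ih =>
    rw [ev_cons_P6, mul_assoc]
    by_cases hn : t = []
    · subst hn
      rw [ev_nil_P6, one_mul, mul_one]
      split_ifs
      · exact h4
      · exact h2
    · rw [ih hn]

theorem ev_pow_P6 {M : Type} [Monoid M] [StarMul M] {s : M} (hs : star s = s) (t : Wd) :
    ev_P6 (fun _ => s) t = s ^ t.length := by
  induction t with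
  | nil => rw [ev_nil_P6, List.length_nil, pow_zero]
  | cons a t ih => rw [ev_cons_P6, ih, hs, ite_self, List.length_cons, pow_succ']

/-! ## The computation -/

theorem abs_P6 {M : Type} [Monoid M] [StarMul M] (h y : M) (hst : star h = h) (hh : h * h = h)
    (H5 : ∀ e : M, e * e = e → star e = e) (k : ℕ)
    (HG : ∀ s : M, h * s = s → s * h = s → s ^ (k + 1) = h) : h * y = h * y * h := by
  obtain ⟨g, hg⟩ : ∃ g, g = h * y * h := ⟨_, rfl⟩
  have hhg : h * g = g := by rw [hg, ← mul_assoc, ← mul_assoc, hh]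
  have hgh : g * h = g := by rw [hg, mul_assoc, hh]
  have hgk := HG g hhg hgh
  have hcomm : ∀ j : ℕ, h * g ^ j * h = g ^ j * h := by
    intro j
    cases j with
    | zero => rw [pow_zero, mul_one, one_mul, hh]
    | succ j => rw [pow_succ', ← mul_assoc, hhg]
  obtain ⟨f, hf⟩ : ∃ f, f = g ^ k * h * y := ⟨_, rfl⟩
  have e1 : h * y * (g ^ k * h) = h := by
    calc h * y * (g ^ k * h) = h * y * (h * g ^ k * h) := by rw [hcomm]
      _ = (h * y * h) * g ^ k * h := by simp only [mul_assoc]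
      _ = h := by rw [← hg, ← pow_succ', hgk, hh]
  have hff : f * f = f := by
    calc f * f = g ^ k * (h * y * (g ^ k * h)) * y := by rw [hf]; simp only [mul_assoc]
      _ = f := by rw [e1, ← hf]
  have hsf := H5 f hff
  have hhf : h * f = f := by
    calc h * f = (h * g ^ k * h) * y := by rw [hf]; simp only [mul_assoc]
      _ = f := by rw [hcomm, ← hf]
  have hfh : f * h = f := by
    have := congrArg star hhf
    rwa [star_mul, hst, hsf] at this
  have hfh' : f * h = h := by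
    calc f * h = g ^ k * (h * y * h) := by rw [hf]; simp only [mul_assoc]
      _ = h := by rw [← hg, ← pow_succ, hgk]
  have hfe : f = h := by rw [← hfh, hfh']
  calc h * y = (g ^ (k + 1) * h) * y := by rw [hgk, hh]
    _ = g * f := by rw [hf, pow_succ']; simp only [mul_assoc]
    _ = h * y * h := by rw [hfe, hgh, hg]

/-! ## The module -/

theorem hhst_P6 (ω : ℕ) : st (hw ω) = hw ω := by
  unfold hw
  rw [st_pw]
  rfl

theorem hhh_P6 {θ : FIC} {ω : ℕ} (hPS : PS θ ω) : θ.r (hw ω ++ hw ω) (hw ω) := by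
  unfold hw
  rw [← pw_add]
  exact θ.symm' hPS.2

theorem hne_P6 {θ : FIC} {ω : ℕ} (hPS : PS θ ω) : hw ω ≠ [] := by
  unfold hw
  exact pw_ne_nil (by simp) (lt_of_lt_of_le (by norm_num) hPS.1)

theorem hP6_aux {h0 : StP0} {h5 : StN5} (θ : FIC) (ω : ℕ) (hM : ModAt θ) (hN : HN θ)
    (hPS : PS θ ω) (u v : Wd) (hr : θ.r u v) (i : ℕ) (hi : i ∈ ct u) (hi' : i ∉ ct v) :
    θ.r ([X 1] ++ hw ω) (hw ω ++ [X 1] ++ hw ω) := by
  have hhst := hhst_P6 ω
  have hhh := hhh_P6 hPS
  have hst' : star (cl_P7 θ (hw ω)) = cl_P7 θ (hw ω) := by rw [← cl_star_P7, hhst]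
  have hh' : cl_P7 θ (hw ω) * cl_P7 θ (hw ω) = cl_P7 θ (hw ω) := by
    rw [← cl_mul_P7, cl_eq_P7]; exact hhh
  obtain ⟨t, ht⟩ : ∃ t, t = tf_P6 i u := ⟨_, rfl⟩
  have ht1 : One t := ht ▸ one_tf_P6 i u
  have htn : t ≠ [] := ht ▸ tf_ne_P6 hi
  -- the value of `t`
  have hval : ∀ s : Wd, s ≠ [] → cl_P7 θ (hw ω) * cl_P7 θ s = cl_P7 θ s →
      cl_P7 θ s * cl_P7 θ (hw ω) = cl_P7 θ s →
      ev_P6 (fun _ => cl_P7 θ s) t = cl_P7 θ (hw ω) := by
    intro s hs h1 h2
    have h3 := θ.sub' (fun j => if j = i then s else hw ω) (by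
      intro j
      split_ifs
      · exact hs
      · exact hne_P6 hPS) hr
    rw [← cl_eq_P7, cl_sb_P6, cl_sb_P6] at h3
    have h4 := congrArg (fun x => cl_P7 θ (hw ω) * x) h3
    rw [absorb_P6 (s := cl_P7 θ s) hst' hh' h1 h2 i _ (by simp) (by intro j hj; simp [hj]) u,
      absorb_P6 (s := cl_P7 θ s) hst' hh' h1 h2 i _ (by simp) (by intro j hj; simp [hj]) v,
      tf_nil_P6 hi', ← ht, ev_nil_P6, one_mul,
      absorb'_P6 (s := cl_P7 θ s) hst' h1 h2 t htn] at h4
    exact h4
  have hG := h0 θ hM hN (fun s => s ≠ [] ∧ θ.r (hw ω ++ s) s ∧ θ.r (s ++ hw ω) s) (X 0 :: t)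
    (fun s hs => hs.1)
    (fun s s' hs hs' => ⟨by simp [hs.1],
      by rw [← List.append_assoc]; exact θ.mulR s' hs.2.1,
      by rw [List.append_assoc]; exact θ.mulL s hs'.2.2⟩)
    (fun s hs => ⟨by simpa using hs.1,
      by
        have := θ.star' hs.2.2
        rwa [st_append, hhst] at this,
      by
        have := θ.star' hs.2.1
        rwa [st_append, hhst] at this⟩)
    (by
      intro a ha
      rcases List.mem_cons.1 ha with h | h
      · rw [h]; rfl
      · exact ht1 a h)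
    (by
      have := List.length_pos_iff.2 htn
      simp; omega)
    (by
      intro s hs
      rw [sb_X, ← cl_eq_P7, cl_mul_P7, cl_sb_P6]
      have h1 : cl_P7 θ (hw ω) * cl_P7 θ s = cl_P7 θ s := by
        rw [← cl_mul_P7, cl_eq_P7]; exact hs.2.1
      have h2 : cl_P7 θ s * cl_P7 θ (hw ω) = cl_P7 θ s := by
        rw [← cl_mul_P7, cl_eq_P7]; exact hs.2.2
      rw [hval s hs.1 h1 h2, h2])
  obtain ⟨k, hk⟩ : ∃ k, t.length = k + 1 :=
    ⟨t.length - 1, by have := List.length_pos_iff.2 htn; omega⟩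
  have key : ∀ y : QM_P7 θ, cl_P7 θ (hw ω) * y = cl_P7 θ (hw ω) * y * cl_P7 θ (hw ω) := by
    intro y
    refine abs_P6 (cl_P7 θ (hw ω)) y hst' hh' ?_ k ?_
    · intro e he
      obtain ⟨u, rfl⟩ := cl_surj_P7 θ e
      rw [← cl_star_P7, cl_eq_P7]
      rw [← cl_mul_P7, cl_eq_P7] at he
      by_cases hu : u = []
      · rw [hu]; exact θ.refl' _
      · exact θ.symm' (h5 θ hM hN u hu he)
    · intro s h1 h2
      obtain ⟨u, rfl⟩ := cl_surj_P7 θ s
      have hu : u ≠ [] := by
        intro hu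
        subst hu
        rw [← cl_mul_P7, List.append_nil, cl_eq_P7] at h1
        exact hne_P6 hPS (θ.ne' (θ.symm' h1) rfl)
      have h3 : star (cl_P7 θ u) = cl_P7 θ u := by
        rw [← cl_star_P7, cl_eq_P7]
        refine θ.symm' (hG u ⟨hu, ?_, ?_⟩)
        · rw [← cl_mul_P7, cl_eq_P7] at h1; exact h1
        · rw [← cl_mul_P7, cl_eq_P7] at h2; exact h2
      rw [← hk, ← ev_pow_P6 h3, hval u hu h1 h2]
  have h6 := congrArg star (key (star (cl_P7 θ [X 1])))
  rw [star_mul, star_mul, star_mul, star_star, hst', ← mul_assoc] at h6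
  rw [← cl_eq_P7, cl_mul_P7, cl_mul_P7, cl_mul_P7]
  exact h6

theorem hP6 (h0 : StP0) (h5 : StN5) : StP6 := by
  intro θ ω hM hN hPS u v hr hc
  by_cases h : ∃ i, i ∈ ct u ∧ i ∉ ct v
  · obtain ⟨i, hi, hi'⟩ := h
    exact hP6_aux (h0 := h0) (h5 := h5) θ ω hM hN hPS u v hr i hi hi'
  · by_cases h' : ∃ i, i ∈ ct v ∧ i ∉ ct u
    · obtain ⟨i, hi, hi'⟩ := h'
      exact hP6_aux (h0 := h0) (h5 := h5) θ ω hM hN hPS v u (θ.symm' hr) i hi hi'
    · exfalso
      push Not at h h'
      exact hc (Finset.Subset.antisymm (fun i hi => h i hi) (fun i hi => h' i hi))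

end Helper1.IM
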