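import Pool.Agent.Helper1.IM.NSt3

/-!
# Project IM, second part: module P7 (main case of centrality)

The computation is done in the quotient monoid (with star) of the free involution semigroup.
-/

set_option autoImplicit false

namespace Helper1.IM

/-! ## The quotient monoid -/

/-- the quotient of the words by `θ` -/
def QM_P7 (θ : FIC) : Type :=
  Quotient (⟨θ.r, ⟨θ.refl', θ.symm', θ.trans'⟩⟩ : Setoid Wd)

/-- the class of a word -/
def cl_P7 (θ : FIC) (u : Wd) : QM_P7 θ :=
  Quotient.mk (⟨θ.r, ⟨θ.refl', θ.symm', θ.trans'⟩⟩ : Setoid Wd) u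

theorem cl_eq_P7 (θ : FIC) (u v : Wd) : cl_P7 θ u = cl_P7 θ v ↔ θ.r u v := by
  unfold cl_P7
  exact Quotient.eq (r := (⟨θ.r, ⟨θ.refl', θ.symm', θ.trans'⟩⟩ : Setoid Wd))

instance instMonoid_P7 (θ : FIC) : Monoid (QM_P7 θ) where
  mul := Quotient.map₂ (fun u v : Wd => u ++ v)
    (fun u u' h v v' h' => θ.trans' (θ.mulR v h) (θ.mulL u' h'))
  one := cl_P7 θ []
  mul_assoc := by
    rintro ⟨a⟩ ⟨b⟩ ⟨c⟩
    exact congrArg (cl_P7 θ) (List.append_assoc a b c)
  one_mul := by
    rintro ⟨a⟩
    rfl
  mul_one := by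
    rintro ⟨a⟩
    exact congrArg (cl_P7 θ) (List.append_nil a)

instance instStar_P7 (θ : FIC) : StarMul (QM_P7 θ) where
  star := Quotient.map st (fun _ _ h => θ.star' h)
  star_involutive := by
    rintro ⟨a⟩
    exact congrArg (cl_P7 θ) (st_st a)
  star_mul := by
    rintro ⟨a⟩ ⟨b⟩
    exact congrArg (cl_P7 θ) (st_append a b)

theorem cl_mul_P7 (θ : FIC) (u v : Wd) : cl_P7 θ (u ++ v) = cl_P7 θ u * cl_P7 θ v := rfl

theorem cl_one_P7 (θ : FIC) : cl_P7 θ [] = 1 := rfl

theorem cl_star_P7 (θ : FIC) (u : Wd) : cl_P7 θ (st u) = star (cl_P7 θ u) := rfl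

theorem cl_pow_P7 (θ : FIC) (u : Wd) (k : ℕ) : cl_P7 θ (pw u k) = cl_P7 θ u ^ k := by
  induction k with
  | zero => rw [pw_zero, pow_zero, cl_one_P7]
  | succ k ih => rw [pw_succ', cl_mul_P7, ih, pow_succ]

theorem cl_surj_P7 (θ : FIC) (x : QM_P7 θ) : ∃ u, cl_P7 θ u = x := by
  obtain ⟨u⟩ := x
  exact ⟨u, rfl⟩

/-! ## The computation -/

theorem abs_P7 {M : Type} [Monoid M] [StarMul M] {ω : ℕ} (hω : 1 ≤ ω) (h y c0 : M)
    (hst : star h = h) (hh : h * h = h)
    (H5 : ∀ e : M, e * e = e → star e = e)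
    (HG : ∀ s : M, h * s = s → s * h = s → star s = s)
    (H3 : ∀ r s : M, r * s * r = r → (r * star r) ^ ω = r * s ∧ (star r * r) ^ ω = s * r)
    (H4 : ∀ r : M, ∃ (m : ℕ) (A B : M), r * (star r * r) ^ (ω * m) = A * (r * r) * B)
    (hc : y * h * c0 * (y * h) = y * h) : y * h = h * (y * h) := by
  -- (1) commutativity
  have hcomm : ∀ s s' : M, h * s = s → s * h = s → h * s' = s' → s' * h = s' →
      s * s' = s' * s := by
    intro s s' h1 h2 h3 h4
    have := HG (s * s') (by rw [← mul_assoc, h1]) (by rw [mul_assoc, h4])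
    rw [star_mul, HG s h1 h2, HG s' h3 h4] at this
    exact this.symm
  -- (2) the element `r`
  obtain ⟨r, hr⟩ : ∃ r, r = y * h := ⟨_, rfl⟩
  rw [← hr] at hc ⊢
  have hrh : r * h = r := by rw [hr, mul_assoc, hh]
  have hsr : h * star r = star r := by rw [hr, star_mul, hst, ← mul_assoc, hh]
  obtain ⟨e, he⟩ : ∃ e, e = r * c0 := ⟨_, rfl⟩
  obtain ⟨f, hf⟩ : ∃ f, f = c0 * r := ⟨_, rfl⟩
  have her : e * r = r := by rw [he]; exact hc
  have hrf : r * f = r := by rw [hf, ← mul_assoc]; exact hc
  have hee : e * e = e := by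
    calc e * e = (e * r) * c0 := by rw [mul_assoc, ← he]
      _ = e := by rw [her, ← he]
  have hff : f * f = f := by
    calc f * f = c0 * (r * f) := by rw [← mul_assoc, ← hf]
      _ = f := by rw [hrf, ← hf]
  have hse : star e = e := H5 e hee
  have hsf : star f = f := H5 f hff
  obtain ⟨hp1, hp2⟩ := H3 r c0 hc
  rw [← he] at hp1
  rw [← hf] at hp2
  obtain ⟨ω', rfl⟩ : ∃ ω', ω = ω' + 1 := ⟨ω - 1, by omega⟩
  have hhf : h * f = f := by
    rw [← hp2, pow_succ', ← mul_assoc, ← mul_assoc, hsr]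
  have hfh : f * h = f := by
    rw [← hp2, pow_succ, mul_assoc, mul_assoc, hrh]
  have hcommF : ∀ s s' : M, f * s = s → s * f = s → f * s' = s' → s' * f = s' →
      s * s' = s' * s := by
    intro s s' h1 h2 h3 h4
    refine hcomm s s' ?_ ?_ ?_ ?_
    · rw [← h1, ← mul_assoc, hhf]
    · rw [← h2, mul_assoc, hfh]
    · rw [← h3, ← mul_assoc, hhf]
    · rw [← h4, mul_assoc, hfh]
  have hsre : star r * e = star r := by
    have h1 := congrArg star her
    rw [star_mul, hse] at h1
    exact h1
  have hfsr : f * star r = star r := by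
    have h1 := congrArg star hrf
    rw [star_mul, hsf] at h1
    exact h1
  -- (3)
  obtain ⟨m, A, B, hAB⟩ := H4 r
  have hr3 : r = A * (r * r) * B := by
    rw [← hAB, pow_mul, hp2]
    have : ∀ k : ℕ, r * f ^ k = r := by
      intro k
      induction k with
      | zero => rw [pow_zero, mul_one]
      | succ k ih => rw [pow_succ, ← mul_assoc, ih, hrf]
    rw [this]
  obtain ⟨a, ha⟩ : ∃ a, a = c0 * A * r := ⟨_, rfl⟩
  obtain ⟨b, hb⟩ : ∃ b, b = r * B := ⟨_, rfl⟩
  have hfab : f = a * b := by
    calc f = c0 * r := hf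
      _ = c0 * (A * (r * r) * B) := by rw [← hr3]
      _ = a * b := by rw [ha, hb]; simp only [mul_assoc]
  have haf : a * f = a := by rw [ha, mul_assoc, hrf]
  have e1 : f = (f * a * f) * (f * b * f) := by
    calc f = f * (a * b) * f := by rw [← hfab, hff, hff]
      _ = f * (a * f * b) * f := by rw [haf]
      _ = f * (a * (f * f) * b) * f := by rw [hff]
      _ = (f * a * f) * (f * b * f) := by simp only [mul_assoc]
  have hfaf : ∀ x : M, f * (f * x * f) = f * x * f := by
    intro x
    rw [← mul_assoc, ← mul_assoc, hff]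
  have hfaf' : ∀ x : M, (f * x * f) * f = f * x * f := by
    intro x
    rw [mul_assoc, hff]
  have e2 := hcommF (f * a * f) (f * b * f) (hfaf a) (hfaf' a) (hfaf b) (hfaf' b)
  obtain ⟨z, hz⟩ : ∃ z, z = B * f * (f * a * f) := ⟨_, rfl⟩
  have hfrz : f * r * z = f := by
    calc f * r * z = (f * b * f) * (f * a * f) := by rw [hz, hb]; simp only [mul_assoc]
      _ = f := by rw [← e2, ← e1]
  -- (4)
  obtain ⟨q, hq⟩ : ∃ q, q = f * c0 * e := ⟨_, rfl⟩
  have hqr : q * r = f := by
    calc q * r = f * c0 * (e * r) := by rw [hq, mul_assoc]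
      _ = f * (c0 * r) := by rw [her, mul_assoc]
      _ = f := by rw [← hf, hff]
  have hrq : r * q = e := by
    calc r * q = (r * f) * c0 * e := by rw [hq]; simp only [mul_assoc]
      _ = e := by rw [hrf, ← he, hee]
  have hfq : f * q = q := by
    rw [hq, ← mul_assoc, ← mul_assoc, hff]
  have hcommE : ∀ s s' : M, e * s = s → s * e = s → e * s' = s' → s' * e = s' →
      s * s' = s' * s := by
    intro s s' h1 h2 h3 h4
    have k1 : ∀ x : M, f * (q * x * r) = q * x * r := by
      intro x
      rw [← mul_assoc, ← mul_assoc, hfq]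
    have k2 : ∀ x : M, (q * x * r) * f = q * x * r := by
      intro x
      rw [mul_assoc, hrf]
    have k3 := hcommF (q * s * r) (q * s' * r) (k1 s) (k2 s) (k1 s') (k2 s')
    have k4 : ∀ x x' : M, x * e = x → (q * x * r) * (q * x' * r) = q * (x * x') * r := by
      intro x x' hx
      calc (q * x * r) * (q * x' * r) = q * (x * (r * q)) * x' * r := by simp only [mul_assoc]
        _ = q * (x * x') * r := by rw [hrq, hx]; simp only [mul_assoc]
    rw [k4 s s' h2, k4 s' s h4] at k3
    have k5 : ∀ x x' : M, e * x = x → x' * e = x' → r * (q * (x * x') * r) * q = x * x' := by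
      intro x x' hx hx'
      calc r * (q * (x * x') * r) * q = (r * q) * x * (x' * (r * q)) := by simp only [mul_assoc]
        _ = x * x' := by rw [hrq, hx, hx']
    rw [← k5 s s' h1 h4, k3, k5 s' s h3 h2]
  obtain ⟨m', A', B', hAB'⟩ := H4 (star r)
  have hr4 : star r = A' * (star r * star r) * B' := by
    rw [← hAB', star_star, pow_mul, hp1]
    have : ∀ k : ℕ, star r * e ^ k = star r := by
      intro k
      induction k with
      | zero => rw [pow_zero, mul_one]
      | succ k ih => rw [pow_succ, ← mul_assoc, ih, hsre]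
    rw [this]
  obtain ⟨a', ha'⟩ : ∃ a', a' = star q * A' * star r := ⟨_, rfl⟩
  obtain ⟨b', hb'⟩ : ∃ b', b' = star r * B' := ⟨_, rfl⟩
  have heab : e = a' * b' := by
    calc e = star (r * q) := by rw [hrq, hse]
      _ = star q * star r := star_mul r q
      _ = star q * (A' * (star r * star r) * B') := by rw [← hr4]
      _ = a' * b' := by rw [ha', hb']; simp only [mul_assoc]
  have hae : a' * e = a' := by rw [ha', mul_assoc, hsre]
  have e3 : e = (e * a' * e) * (e * b' * e) := by
    calc e = e * (a' * b') * e := by rw [← heab, hee, hee]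
      _ = e * (a' * e * b') * e := by rw [hae]
      _ = e * (a' * (e * e) * b') * e := by rw [hee]
      _ = (e * a' * e) * (e * b' * e) := by simp only [mul_assoc]
  have heae : ∀ x : M, e * (e * x * e) = e * x * e := by
    intro x
    rw [← mul_assoc, ← mul_assoc, hee]
  have heae' : ∀ x : M, (e * x * e) * e = e * x * e := by
    intro x
    rw [mul_assoc, hee]
  have e4 := hcommE (e * a' * e) (e * b' * e) (heae a') (heae' a') (heae b') (heae' b')
  obtain ⟨t', ht'⟩ : ∃ t', t' = star r * (B' * e * (e * a' * e)) := ⟨_, rfl⟩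
  have heft' : e * f * t' = e := by
    calc e * f * t' = e * (f * star r) * (B' * e * (e * a' * e)) := by
          rw [ht']; simp only [mul_assoc]
      _ = (e * b' * e) * (e * a' * e) := by rw [hfsr, hb']; simp only [mul_assoc]
      _ = e := by rw [← e4, ← e3]
  -- (5)
  have hsef : star (e * f) = f * e := by rw [star_mul, hse, hsf]
  have hsfe : star (f * e) = e * f := by rw [star_mul, hse, hsf]
  obtain ⟨hp3, -⟩ := H3 (e * f) t' (by rw [heft', ← mul_assoc, hee])
  rw [heft', hsef] at hp3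
  obtain ⟨t, ht⟩ : ∃ t, t = r * z := ⟨_, rfl⟩
  have hfet : f * e * t = f := by
    calc f * e * t = f * (e * r) * z := by rw [ht]; simp only [mul_assoc]
      _ = f := by rw [her, hfrz]
  obtain ⟨-, hp4⟩ := H3 (f * e) t (by rw [hfet, ← mul_assoc, hff])
  rw [hsfe] at hp4
  have htfe : t * (f * e) = e := by rw [← hp4, hp3]
  -- (6)
  obtain ⟨g, hg⟩ : ∃ g, g = e * t * f := ⟨_, rfl⟩
  have hgg : g * g = g := by
    calc g * g = e * (t * (f * e)) * t * f := by rw [hg]; simp only [mul_assoc]
      _ = g := by rw [htfe, hee, ← hg]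
  have hsg : star g = g := H5 g hgg
  have hge : g * e = e := by
    calc g * e = e * (t * (f * e)) := by rw [hg]; simp only [mul_assoc]
      _ = e := by rw [htfe, hee]
  have heg : e * g = g := by rw [hg, ← mul_assoc, ← mul_assoc, hee]
  have hg1 : g = e := by
    have h1 := congrArg star heg
    rw [star_mul, hse, hsg, hge] at h1
    exact h1.symm
  have hfg : f * g = f := by
    calc f * g = f * e * t * f := by rw [hg]; simp only [mul_assoc]
      _ = f := by rw [hfet, hff]
  have hgf : g * f = g := by rw [hg, mul_assoc, hff]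
  have hg2 : g = f := by
    have h1 := congrArg star hgf
    rw [star_mul, hsf, hsg, hfg] at h1
    exact h1.symm
  have hef : e = f := by rw [← hg1, hg2]
  -- (7)
  calc r = e * r := her.symm
    _ = f * r := by rw [hef]
    _ = h * f * r := by rw [hhf]
    _ = h * (e * r) := by rw [mul_assoc, hef]
    _ = h * r := by rw [her]

/-! ## The module -/

theorem hP7 (h0 : StP0) (h5 : StN5) (h4 : StNA4) (h3 : StP3) : StP7 := by
  intro θ ω hM hN hPS ht hc
  obtain ⟨t, ht1, ht2, ht3⟩ := ht
  obtain ⟨c0, hc0, hc⟩ := hc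
  have hω : 1 ≤ ω := le_trans (by norm_num) hPS.1
  have hhst : st (hw ω) = hw ω := by
    unfold hw
    rw [st_pw]
    rfl
  have hhh : θ.r (hw ω ++ hw ω) (hw ω) := by
    unfold hw
    rw [← pw_add]
    exact θ.symm' hPS.2
  -- nonempty words
  have hne : ∀ u : Wd, cl_P7 θ u = 1 → u = [] := by
    intro u hu
    rw [← cl_one_P7, cl_eq_P7] at hu
    exact θ.ne' (θ.symm' hu) rfl
  -- P0
  have hG := h0 θ hM hN (fun s => s ≠ [] ∧ θ.r (hw ω ++ s) s ∧ θ.r (s ++ hw ω) s) (t ++ [X 0])
    (fun s hs => hs.1)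
    (fun s s' hs hs' => ⟨by simp [hs.1],
      by rw [← List.append_assoc]; exact θ.mulR s' hs.2.1,
      by rw [List.append_assoc]; exact θ.mulL s hs'.2.2⟩)
    (fun s hs => ⟨by simpa using hs.1,
      by
        have := θ.star' hs.2.2
        rwa [st_append, hhst] at this,
      by
        have := θ.star' hs.2.1
        rwa [st_append, hhst] at this⟩)
    (by
      intro a ha
      rcases List.mem_append.1 ha with h | h
      · exact ht1 a h
      · rw [List.mem_singleton.1 h]; rfl)
    (by simp; omega)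
    (by
      intro s hs
      rw [sb_append, sb_X, sb_nil, List.append_nil]
      exact ht3 s hs.1 hs.2.1 hs.2.2)
  have key := abs_P7 (M := QM_P7 θ) hω (cl_P7 θ (hw ω)) (cl_P7 θ [X 1]) (cl_P7 θ c0)
    (by rw [← cl_star_P7, hhst])
    (by rw [← cl_mul_P7, cl_eq_P7]; exact hhh)
    (by
      intro e he
      obtain ⟨u, rfl⟩ := cl_surj_P7 θ e
      rw [← cl_star_P7, cl_eq_P7]
      rw [← cl_mul_P7, cl_eq_P7] at he
      by_cases hu : u = []
      · rw [hu]; exact θ.refl' _
      · exact θ.symm' (h5 θ hM hN u hu he))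
    (by
      intro s h1 h2
      obtain ⟨u, rfl⟩ := cl_surj_P7 θ s
      rw [← cl_star_P7, cl_eq_P7]
      rw [← cl_mul_P7, cl_eq_P7] at h1 h2
      by_cases hu : u = []
      · rw [hu]; exact θ.refl' _
      · exact θ.symm' (hG u ⟨hu, h1, h2⟩))
    (by
      intro r s h1
      obtain ⟨u, rfl⟩ := cl_surj_P7 θ r
      obtain ⟨v, rfl⟩ := cl_surj_P7 θ s
      rw [← cl_mul_P7, ← cl_mul_P7, cl_eq_P7] at h1
      rw [← cl_star_P7, ← cl_mul_P7, ← cl_mul_P7, ← cl_mul_P7, ← cl_mul_P7, ← cl_pow_P7,
        ← cl_pow_P7, cl_eq_P7, cl_eq_P7]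
      by_cases hu : u = []
      · subst hu
        have h2 : v = [] := by
          have := θ.ne' (θ.symm' h1) rfl
          simpa using this
        subst h2
        have h3 : pw ([] : Wd) ω = [] := by
          have := length_pw ([] : Wd) ω
          simp only [List.length_nil, Nat.mul_zero] at this
          exact List.length_eq_zero_iff.1 this
        simp only [st_nil, List.append_nil, h3]
        exact ⟨θ.refl' _, θ.refl' _⟩
      · by_cases hv : v = []
        · subst hv
          rw [List.append_nil] at h1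
          have h2 : θ.r u (u ++ u ++ u) := θ.symm' (θ.trans' (θ.mulR u h1) h1)
          have h6 := h3 θ ω hM hN hPS u u hu hu h2
          simp only [List.append_nil, List.nil_append]
          exact ⟨θ.trans' h6.1 h1, θ.trans' h6.2 h1⟩
        · exact h3 θ ω hM hN hPS u v hu hv (θ.symm' h1))
    (by
      intro r
      obtain ⟨u, rfl⟩ := cl_surj_P7 θ r
      by_cases hu : u = []
      · subst hu
        refine ⟨1, 1, 1, ?_⟩
        rw [cl_one_P7, star_one]
        simp
      · obtain ⟨m, A, B, -, -, -, hr⟩ := h4 θ ω hM hN hω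
        refine ⟨m, cl_P7 θ (sb (fun _ => u) A), cl_P7 θ (sb (fun _ => u) B), ?_⟩
        have h1 := θ.sub' (fun _ => u) (fun _ => hu) hr
        rw [sb_X, sb_pw, sb_Y, sb_X, sb_nil, List.append_nil, sb_append, sb_append, sb_X, sb_X,
          sb_nil, List.append_nil] at h1
        rw [← cl_star_P7, ← cl_mul_P7, ← cl_mul_P7, ← cl_pow_P7, ← cl_mul_P7, ← cl_mul_P7,
          ← cl_mul_P7, cl_eq_P7]
        exact h1)
    (by
      rw [← cl_mul_P7, ← cl_mul_P7, ← cl_mul_P7, cl_eq_P7]
      exact θ.symm' hc)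
  rw [← cl_mul_P7, ← cl_mul_P7, cl_eq_P7] at key
  rw [List.append_assoc]
  exact key

end Helper1.IM
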