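import Pool.Agent.Helper1.IM.M_P6

/-!
# Project IM, second part: module P8 (centrality)
-/

set_option autoImplicit false

namespace Helper1.IM

private theorem idp_P8 {M : Type} [Monoid M] {E : M} (h : E * E = E) (n : ℕ) :
    E * E ^ n = E ∧ E ^ n * E = E := by
  induction n with
  | zero => simp
  | succ n ih =>
    refine ⟨?_, ?_⟩
    · rw [pow_succ, ← mul_assoc, ih.1, h]
    · rw [pow_succ', mul_assoc, ih.2, h]

/-- Words all of whose letters are replaced by `h`. -/
private theorem mk_h_P8 {θ : FIC} {h : Wd} (hs : cl_P7 θ (st h) = cl_P7 θ h) (f : ℕ → Wd) (w : Wd)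
    (hw : ∀ a ∈ w, f a.1 = h) : cl_P7 θ (sb f w) = cl_P7 θ h ^ w.length := by
  induction w with
  | nil => rfl
  | cons a w ih =>
    rw [sb_cons, cl_mul_P7, ih (fun b hb => hw b (List.mem_cons_of_mem _ hb)), List.length_cons,
      pow_succ']
    congr 1
    rw [hw a List.mem_cons_self]
    split_ifs
    · exact hs
    · rfl

/-- Splitting at the last occurrence of the letter `i`. -/
private theorem split_last_P8 {i : ℕ} {u : Wd} (h : i ∈ ct u) :
    ∃ (s : Wd) (b : Bool) (t : Wd), u = s ++ (i, b) :: t ∧ ∀ a ∈ t, a.1 ≠ i := by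
  induction u with
  | nil => simp at h
  | cons a u ih =>
    by_cases hu : i ∈ ct u
    · obtain ⟨s, b, t, rfl, hs⟩ := ih hu
      exact ⟨a :: s, b, t, rfl, hs⟩
    · rw [ct_cons, Finset.mem_insert] at h
      rcases h with h | h
      · refine ⟨[], a.2, u, by simp [h], ?_⟩
        intro c hc hci
        exact hu (mem_ct.2 ⟨c.2, by rw [← hci]; exact hc⟩)
      · exact absurd h hu

/-- substitution of the letter `1` in a word over `h` and the letter `1` -/
private theorem sb_hw_P8 (ω : ℕ) (g : ℕ → Wd) (hg : g 0 = [X 0]) : sb g (hw ω) = hw ω := by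
  unfold hw
  rw [sb_pw]
  congr 1
  rw [sb_X, sb_Y, sb_nil, hg]
  rfl

private theorem core_P8 (h7 : StP7) {θ : FIC} {ω : ℕ} (hM : ModAt θ) (hN : HN θ) (hPS : PS θ ω)
    (S0 : Wd) (hS0 : S0 ≠ [])
    (hr : θ.r ([X 1] ++ hw ω) (sb (fun i => if i = 1 then [X 1] else hw ω) S0 ++ [X 1] ++ hw ω)) :
    θ.r ([X 1] ++ hw ω) (hw ω ++ [X 1] ++ hw ω) := by
  have hhst := hhst_P6 ω
  have hhh := hhh_P6 hPS
  have hne := hne_P6 hPS
  have hst' : star (cl_P7 θ (hw ω)) = cl_P7 θ (hw ω) := by rw [← cl_star_P7, hhst]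
  have hh' : cl_P7 θ (hw ω) * cl_P7 θ (hw ω) = cl_P7 θ (hw ω) := by
    rw [← cl_mul_P7, cl_eq_P7]; exact hhh
  -- the general substitution
  have gen : ∀ s : Wd, s ≠ [] → cl_P7 θ s * cl_P7 θ (hw ω) =
      ev_P6 (fun i => cl_P7 θ (if i = 1 then s else hw ω)) S0 * cl_P7 θ s * cl_P7 θ (hw ω) := by
    intro s hs
    have h1 := θ.sub' (fun i => if i = 1 then s else [X 0]) (by
      intro i
      split_ifs
      · exact hs
      · simp) hr
    rw [sb_append, sb_append, sb_append, sb_sb, sb_hw_P8 ω _ (by simp), sb_X, sb_nil,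
      List.append_nil] at h1
    have h2 : (fun i => sb (fun i => if i = 1 then s else [X 0]) (if i = 1 then [X 1] else hw ω)) =
        fun i => if i = 1 then s else hw ω := by
      funext i
      by_cases hi : i = 1
      · simp [hi]
      · rw [if_neg hi, if_neg hi, sb_hw_P8 ω _ (by simp)]
    rw [h2, if_pos rfl, ← cl_eq_P7, cl_mul_P7, cl_mul_P7, cl_mul_P7, cl_sb_P6] at h1
    exact h1
  -- enough: `y h = h z`
  have fin : (∃ z : QM_P7 θ, cl_P7 θ [X 1] * cl_P7 θ (hw ω) = cl_P7 θ (hw ω) * z) →
      θ.r ([X 1] ++ hw ω) (hw ω ++ [X 1] ++ hw ω) := by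
    rintro ⟨z, hz⟩
    rw [← cl_eq_P7, cl_mul_P7, cl_mul_P7, cl_mul_P7, mul_assoc, hz, ← mul_assoc, hh']
  obtain ⟨a, S', rfl⟩ : ∃ a S', S0 = a :: S' := by
    cases S0 with
    | nil => exact absurd rfl hS0
    | cons a S' => exact ⟨a, S', rfl⟩
  by_cases ha : a.1 = 1
  · have hsy : cl_P7 θ ([X 1] ++ hw ω) * cl_P7 θ (hw ω) = cl_P7 θ ([X 1] ++ hw ω) := by
      rw [cl_mul_P7, mul_assoc, hh']
    have g1 := gen ([X 1] ++ hw ω) (by simp)
    rw [ev_cons_P6, ha] at g1
    by_cases hb : a.2 = true
    · -- (2c)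
      apply fin
      rw [hsy] at g1
      simp only [hb, if_true] at g1
      rw [← cl_star_P7, st_append, cl_mul_P7, cl_mul_P7, hhst] at g1
      refine ⟨cl_P7 θ (st [X 1]) * ev_P6 (fun i => cl_P7 θ (if i = 1 then [X 1] ++ hw ω else hw ω)) S' *
          (cl_P7 θ [X 1] * cl_P7 θ (hw ω)) * cl_P7 θ (hw ω), ?_⟩
      refine g1.trans ?_
      simp only [mul_assoc]
    · -- (2d)
      have hb' : a.2 = false := by simpa using hb
      have haX : a = X 1 := Prod.ext ha hb'
      apply h7 θ ω hM hN hPS
      · refine ⟨tf_P6 1 (a :: S'), one_tf_P6 _ _, List.length_pos_iff.2 (tf_ne_P6 ?_), ?_⟩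
        · rw [ct_cons, ha]; simp
        · intro s hs h1 h2
          rw [← cl_eq_P7, cl_mul_P7] at h1 h2
          have h3 := gen s hs
          rw [mul_assoc, h2] at h3
          rw [← cl_eq_P7, cl_mul_P7, cl_sb_P6]
          have h4 := congrArg (fun x => cl_P7 θ (hw ω) * x) h3
          rw [h1, ← mul_assoc, absorb_P6 (s := cl_P7 θ s) hst' hh' h1 h2 1 _ (by simp)
            (by intro j hj; simp [hj]) (a :: S'), mul_assoc, h1] at h4
          exact h4
      · refine ⟨hw ω ++ sb (fun i => if i = 1 then [X 1] ++ hw ω else hw ω) S', by simp [hne], ?_⟩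
        rw [← cl_eq_P7, cl_mul_P7 θ ([X 1] ++ hw ω ++ _), cl_mul_P7 θ ([X 1] ++ hw ω), cl_mul_P7 θ (hw ω),
          ← mul_assoc, hsy, cl_sb_P6]
        rw [mul_assoc, hsy] at g1
        simp only [hb', if_false, Bool.false_eq_true, if_true] at g1
        exact g1
  · -- (2a), (2b)
    apply fin
    have g1 := gen [X 1] (by simp)
    rw [ev_cons_P6, if_neg ha, hst', ite_self] at g1
    exact ⟨ev_P6 (fun i => cl_P7 θ (if i = 1 then [X 1] else hw ω)) S' * cl_P7 θ [X 1] *
      cl_P7 θ (hw ω), by rw [g1]; simp only [mul_assoc]⟩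

theorem hP8 (h5 : StN5) (h6 : StP6) (h7 : StP7) : StP8 := by
  intro θ ω hm hn pf hsub
  have hh0 : hw ω ≠ [] := hne_P6 pf
  have hhst := hhst_P6 ω
  have hid : θ.r (hw ω ++ hw ω) (hw ω) := hhh_P6 pf
  have hE : cl_P7 θ (hw ω) * cl_P7 θ (hw ω) = cl_P7 θ (hw ω) := by
    rw [← cl_mul_P7, cl_eq_P7]; exact hid
  have hs : cl_P7 θ (st (hw ω)) = cl_P7 θ (hw ω) := by rw [hhst]
  -- the substitution `y ↦ y*`
  have hsw : ∀ u v : Wd, θ.r u v → θ.r (sb (fun i => if i = 1 then [Y 1] else [X 0]) u)
      (sb (fun i => if i = 1 then [Y 1] else [X 0]) v) := fun u v h =>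
    θ.sub' _ (by intro i; split_ifs <;> simp) h
  have hsh : sb (fun i => if i = 1 then [Y 1] else [X 0]) (hw ω) = hw ω :=
    sb_hw_P8 ω _ (by simp)
  have hst1 : st [Y 1] = [X 1] := rfl
  have hst2 : st [X 1] = [Y 1] := rfl
  -- it suffices to show `y h ~ h y h`
  have suff : θ.r ([X 1] ++ hw ω) (hw ω ++ [X 1] ++ hw ω) →
      θ.r (hw ω ++ [X 1]) ([X 1] ++ hw ω) := by
    intro h
    have h1 := (cl_eq_P7 θ _ _).2 (θ.star' h)
    simp only [st_append, cl_mul_P7, hs, hst2] at h1
    have h2 : θ.r (hw ω ++ [Y 1]) (hw ω ++ ([Y 1] ++ hw ω)) := by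
      apply (cl_eq_P7 θ _ _).1
      simp only [cl_mul_P7]
      exact h1
    have h3 := (cl_eq_P7 θ _ _).2 (hsw _ _ h2)
    simp only [sb_append, hsh, sb_Y, sb_nil, if_true, List.append_nil, hst1, cl_mul_P7] at h3
    have h4 := (cl_eq_P7 θ _ _).2 h
    simp only [cl_mul_P7] at h4
    apply (cl_eq_P7 θ _ _).1
    simp only [cl_mul_P7]
    rw [h3, ← mul_assoc]
    exact h4.symm
  by_contra hcon
  apply hsub
  -- all contents are equal
  have hct : ∀ u v, θ.r u v → ct u = ct v := by
    intro u v h
    by_contra hne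
    exact hcon (suff (h6 θ ω hm hn pf u v h hne))
  -- heads
  have head : ∀ (u v : Wd) (c : Lt), θ.r u v → hd u = some c → hd v = some c := by
    intro u v c huv hu
    by_contra hv
    apply hcon
    apply suff
    cases u with
    | nil => simp [hd] at hu
    | cons a u =>
      have ha : a = c ∧ a.1 ∉ ct u := by
        rw [hd] at hu
        split_ifs at hu with h
        exact ⟨Option.some.inj hu, h⟩
      obtain ⟨rfl, hau⟩ := ha
      have hiv : a.1 ∈ ct v := by
        rw [← hct _ _ huv]
        simp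
      obtain ⟨s, b, t, rfl, hti⟩ := split_last_P8 hiv
      -- words over the letters `0`, `1`
      obtain ⟨g, hgi, hgj⟩ : ∃ g : ℕ → Wd, g a.1 = [((1 : ℕ), a.2)] ∧ ∀ j, j ≠ a.1 → g j = [X 0] :=
        ⟨fun j => if j = a.1 then [((1 : ℕ), a.2)] else [X 0], if_pos rfl, fun j hj => if_neg hj⟩
      have hg : ∀ j, g j ≠ [] := by
        intro j
        by_cases hj : j = a.1
        · rw [hj, hgi]; simp
        · rw [hgj j hj]; simp
      obtain ⟨f, hfdef⟩ : ∃ f : ℕ → Wd, f = fun j => if j = 1 then [X 1] else hw ω := ⟨_, rfl⟩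
      have hf0 : f 0 = hw ω := by rw [hfdef]; simp
      have hf1 : f 1 = [X 1] := by rw [hfdef]; simp
      have hf : ∀ j, f j ≠ [] := by
        intro j
        rw [hfdef]
        dsimp only
        split_ifs
        · simp
        · exact hh0
      have hone : ∀ w : Wd, (∀ c ∈ w, c.1 ≠ a.1) →
          cl_P7 θ (sb f (sb g w)) = cl_P7 θ (hw ω) ^ w.length := by
        intro w hw
        rw [sb_sb]
        refine mk_h_P8 hs _ w (fun c hc => ?_)
        rw [hgj _ (hw c hc), sb_X, sb_nil, List.append_nil, hf0]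
      have h3 : sb f (sb g (a :: u)) = [X 1] ++ sb f (sb g u) := by
        rw [sb_cons, sb_append, hgi]
        cases h : a.2
        · simp [sb_cons, hf1]
        · simp [sb_cons, hf1, fl]
      have h4 : sb f (sb g ((a.1, b) :: t)) = (if b = a.2 then [X 1] else [Y 1]) ++ sb f (sb g t) := by
        rw [sb_cons, sb_append]
        simp only [hgi]
        cases h : a.2 <;> cases b <;> simp [sb_cons, hf1, fl] <;> rfl
      have h1 := θ.mulR (hw ω) (θ.sub' f hf (θ.sub' g hg huv))
      rw [sb_append, sb_append, h3, h4] at h1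
      have h2 := (cl_eq_P7 θ _ _).2 h1
      rw [cl_mul_P7, cl_mul_P7, cl_mul_P7, cl_mul_P7, cl_mul_P7,
        hone u (fun c hc h => hau (mem_ct.2 ⟨c.2, by rw [← h]; exact hc⟩)), hone t hti,
        mul_assoc, (idp_P8 hE _).2, mul_assoc, mul_assoc, (idp_P8 hE _).2] at h2
      have hS0ct : ∀ i ∈ ct (sb g s), i = 0 ∨ i = 1 := by
        intro i hi
        rw [ct_sb, Finset.mem_biUnion] at hi
        obtain ⟨j, -, hj⟩ := hi
        by_cases hja : j = a.1
        · rw [hja, hgi] at hj
          right; simpa using hj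
        · rw [hgj j hja] at hj
          left; simpa using hj
      have hS0n : s ≠ [] → sb g s ≠ [] := sb_ne_nil _ hg s
      have hS0e : s = [] → sb g s = [] := by rintro rfl; rfl
      generalize sb g s = S0 at *
      by_cases hba : b = a.2
      · rw [if_pos hba] at h2
        have hs0 : s ≠ [] := by
          rintro rfl
          apply hv
          have : (a.1, b) = a := by rw [hba]
          simp only [List.nil_append, hd]
          rw [if_neg (fun h => by
            obtain ⟨b', hb'⟩ := mem_ct.1 h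
            exact hti _ hb' rfl), this]
        refine core_P8 h7 hm hn pf S0 (hS0n hs0) ?_
        rw [← hfdef]
        apply (cl_eq_P7 θ _ _).1
        simp only [cl_mul_P7]
        rw [mul_assoc]
        exact h2
      · rw [if_neg hba] at h2
        -- `y h ~ S y* h`
        have h5' : θ.r ([X 1] ++ hw ω)
            (sb f S0 ++ [Y 1] ++ hw ω) := by
          apply (cl_eq_P7 θ _ _).1
          simp only [cl_mul_P7]
          rw [mul_assoc]
          exact h2
        by_cases hs0 : s = []
        · have hS : S0 = [] := hS0e hs0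
          rw [hS, sb_nil, List.nil_append] at h5'
          have h6 := (cl_eq_P7 θ _ _).2 (θ.sub' (fun i => if i = 1 then hw ω ++ [X 1] else [X 0]) (by
            intro i
            split_ifs <;> simp) h5')
          have hsh2 : sb (fun i => if i = 1 then hw ω ++ [X 1] else [X 0]) (hw ω) =
              hw ω := sb_hw_P8 ω _ (by simp)
          simp only [sb_append, hsh2, sb_X, sb_Y, sb_nil, if_true, List.append_nil, st_append,
            cl_mul_P7, hs, hst2] at h6
          have h7 := (cl_eq_P7 θ _ _).2 h5'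
          simp only [cl_mul_P7] at h7
          apply (cl_eq_P7 θ _ _).1
          simp only [cl_mul_P7]
          rw [h6, mul_assoc, hE, h7]
        · -- apply `y ↦ y*`
          have h6 := hsw _ _ h5'
          have h7' : sb (fun i => if i = 1 then [Y 1] else [X 0]) (sb f S0) =
              sb f (rw' 1 (fun i => decide (i = 1)) S0) := by
            rw [← sb_rn, sb_sb, sb_sb]
            refine sb_congr _ _ S0 (fun i hi => ?_)
            rcases hS0ct i hi with rfl | rfl
            · rw [hf0, hsh, sb_single]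
              simp [hf0]
            · have e1 : sb (fun i => if i = 1 then [Y 1] else [X 0]) [X 1] = [Y 1] := by simp
              have e2 : sb f [(1, true)] = [Y 1] := by
                rw [sb_single]
                simp [hf1]
              rw [hf1, e1]
              simpa using e2.symm
          simp only [sb_append, hsh, sb_X, sb_Y, sb_nil, if_true, List.append_nil, h7', hst1] at h6
          refine core_P8 h7 hm hn pf (S0 ++ rw' 1 (fun i => decide (i = 1)) S0)
            (by simp [hS0n hs0]) ?_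
          rw [← hfdef]
          apply (cl_eq_P7 θ _ _).1
          have e1 := (cl_eq_P7 θ _ _).2 h5'
          have e2 := (cl_eq_P7 θ _ _).2 h6
          simp only [cl_mul_P7] at e1 e2
          simp only [cl_mul_P7, sb_append]
          rw [e1, mul_assoc, e2]
          simp only [mul_assoc]
  intro u v huv
  have hhd : ∀ u v : Wd, θ.r u v → hd u = hd v := by
    intro u v h
    cases h1 : hd u with
    | none =>
      cases h2 : hd v with
      | none => rfl
      | some c =>
        have := head v u c (θ.symm' h) h2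
        rw [h1] at this
        exact absurd this (by simp)
    | some c => exact (head u v c h h1).symm
  exact ⟨hct u v huv, hhd u v huv, hhd _ _ (θ.star' huv)⟩

end Helper1.IM
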