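import Pool.Agent.Helper1.IM.NSt3

set_option autoImplicit false

namespace Helper1.IM

/-- A relation between two powers of a letter implies periodicity. -/
theorem per_P9 {θ : FIC} {a d : ℕ} (hd : 0 < d) (h : θ.r (pw [X 0] a) (pw [X 0] (a + d))) : ∃ ω, PF θ ω := by
  have h1 : ∀ j, a ≤ j → θ.r (pw [X 0] j) (pw [X 0] (j + d)) := by
    intro j hj
    obtain ⟨k, rfl⟩ := Nat.exists_eq_add_of_le hj
    have h2 := θ.mulR (pw [X 0] k) h
    rw [← pw_add, ← pw_add] at h2
    have h3 : a + d + k = a + k + d := by ring
    rwa [h3] at h2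
  have h2 : ∀ i j, a ≤ j → θ.r (pw [X 0] j) (pw [X 0] (j + i * d)) := by
    intro i
    induction i with
    | zero =>
      intro j hj
      simpa using θ.refl' _
    | succ i ih =>
      intro j hj
      have h3 := h1 (j + i * d) (by omega)
      have h4 : j + (i + 1) * d = j + i * d + d := by ring
      rw [h4]
      exact θ.trans' (ih j hj) h3
  have h3 : a + 7 ≤ (a + 7) * d := Nat.le_mul_of_pos_right _ hd
  exact ⟨(a + 7) * d, by omega, h2 (a + 7) ((a + 7) * d) (by omega)⟩

/-- The congruence used in the proof. -/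
def mu_P9 (θ : FIC) : FIC where
  r u v := (u = [] ↔ v = []) ∧ ∀ a b : Wd, a ≠ [] → b ≠ [] → θ.r (a ++ u ++ b) (a ++ v ++ b)
  refl' := fun u => ⟨Iff.rfl, fun a b _ _ => θ.refl' _⟩
  symm' := fun h => ⟨h.1.symm, fun a b ha hb => θ.symm' (h.2 a b ha hb)⟩
  trans' := fun h h' => ⟨h.1.trans h'.1, fun a b ha hb => θ.trans' (h.2 a b ha hb) (h'.2 a b ha hb)⟩
  ne' := fun h hu => h.1.1 hu
  mul' := by
    rintro u v p q ⟨h0, h⟩
    refine ⟨?_, fun a b ha hb => ?_⟩
    · simp only [List.append_eq_nil_iff, h0]
    · have h1 := h (a ++ p) (q ++ b) (by simp [ha]) (by simp [hb])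
      simpa only [List.append_assoc] using h1
  star' := by
    rintro u v ⟨h0, h⟩
    refine ⟨?_, fun a b ha hb => ?_⟩
    · simpa using h0
    · have h1 := θ.star' (h (st b) (st a) (by simpa using hb) (by simpa using ha))
      simpa [List.append_assoc] using h1
  sub' := by
    rintro u v f hf ⟨h0, h⟩
    have hn : ∀ w : Wd, (sb f w = [] ↔ w = []) := by
      intro w
      constructor
      · intro hw
        by_contra hne
        exact sb_ne_nil f hf w hne hw
      · rintro rfl
        rfl
    refine ⟨?_, fun a b ha hb => ?_⟩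
    · rw [hn, hn, h0]
    · obtain ⟨s, hs⟩ := Infinite.exists_notMem_finset (ct u ∪ ct v)
      obtain ⟨t, ht⟩ := Infinite.exists_notMem_finset (insert s (ct u ∪ ct v))
      simp only [Finset.mem_union, not_or, Finset.mem_insert] at hs ht
      have hst : t ≠ s := ht.1
      let g : ℕ → Wd := fun i => if i = s then a else if i = t then b else f i
      have hg : ∀ i, g i ≠ [] := by
        intro i
        by_cases h1 : i = s
        · simp only [g, h1, if_true]; exact ha
        · by_cases h2 : i = t
          · simp only [g, h1, h2, hst, if_false, if_true]; exact hb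
          · simp only [g, h1, h2, if_false]; exact hf i
      have hgs : g s = a := by simp [g]
      have hgt : g t = b := by simp [g, hst]
      have hgu : sb g u = sb f u := by
        apply sb_congr
        intro i hi
        have h1 : i ≠ s := by rintro rfl; exact hs.1 hi
        have h2 : i ≠ t := by rintro rfl; exact ht.2.1 hi
        simp [g, h1, h2]
      have hgv : sb g v = sb f v := by
        apply sb_congr
        intro i hi
        have h1 : i ≠ s := by rintro rfl; exact hs.2 hi
        have h2 : i ≠ t := by rintro rfl; exact ht.2.2 hi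
        simp [g, h1, h2]
      have h1 := θ.sub' g hg (h [X s] [X t] (by simp) (by simp))
      simp only [sb_append, sb_X, sb_nil, List.append_nil, hgs, hgt, hgu, hgv] at h1
      exact h1

theorem hP9 (h1 : StNA1) (ha : StP9a) : StP9 := by
  intro θ hm hn hsub
  obtain ⟨m, hom, h2m, hr⟩ := ha θ hm hsub
  have hle : Le θ (mu_P9 θ) := by
    intro u v h
    refine ⟨⟨fun hu => θ.ne' h hu, fun hv => θ.ne' (θ.symm' h) hv⟩, fun a b _ _ => θ.mul' a b h⟩
  have hxm : (mu_P9 θ).r [X 0] m := by
    refine ⟨⟨fun h => by simp at h, fun h => by rw [h] at h2m; simp at h2m⟩, fun a b ha' hb' => ?_⟩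
    let g : ℕ → Wd := fun i => if i = 1 then a else if i = 2 then b else [X i]
    have hg : ∀ i, g i ≠ [] := by
      intro i
      by_cases h1 : i = 1
      · simp only [g, h1, if_true]; exact ha'
      · by_cases h2 : i = 2
        · simp only [g, h2, if_true]; simpa using hb'
        · simp [g, h1, h2]
    have hgm : sb g m = m := by
      rw [← sb_id m]
      rw [sb_sb]
      apply sb_congr
      intro i hi
      have hi0 : i = 0 := by
        simp only [ct, List.mem_toFinset, List.mem_map] at hi
        obtain ⟨c, hc, rfl⟩ := hi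
        exact hom c hc
      subst hi0
      simp [sb_single, g, X]
    have h3 := θ.sub' g hg hr
    have h4 : sb g [X 1, X 0, X 2] = a ++ [X 0] ++ b := by simp [g]
    have h5 : sb g ([X 1] ++ m ++ [X 2]) = a ++ m ++ b := by
      rw [sb_append, sb_append, hgm]
      simp [g]
    rwa [h4, h5] at h3
  have hxy : (mu_P9 θ).r [X 0] [Y 0] := h1 θ hm hn (mu_P9 θ) hle m h2m hxm
  have hpw : ∀ w : Wd, One w → (mu_P9 θ).r w (pw [X 0] w.length) := by
    intro w
    induction w with
    | nil =>
      intro _
      exact (mu_P9 θ).refl' _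
    | cons c w ih =>
      intro hw
      have h2 := ih (fun x hx => hw x (List.mem_cons_of_mem _ hx))
      have hc : (mu_P9 θ).r [c] [X 0] := by
        have hc0 := hw c (List.mem_cons_self)
        obtain ⟨i, e⟩ := c
        simp only at hc0
        subst hc0
        cases e
        · exact (mu_P9 θ).refl' _
        · exact (mu_P9 θ).symm' hxy
      rw [List.length_cons, pw_succ]
      exact (mu_P9 θ).mul2 hc h2
  have hk := (mu_P9 θ).trans' hxm (hpw m hom)
  have h3 := hk.2 [X 0] [X 0] (by simp) (by simp)
  have e1 : ([X 0] ++ [X 0] ++ [X 0] : Wd) = pw [X 0] 3 := by simp [pw, List.replicate]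
  have e2 : ([X 0] ++ pw [X 0] m.length ++ [X 0] : Wd) = pw [X 0] (3 + (m.length - 1)) := by
    have h4 : 3 + (m.length - 1) = m.length + 1 + 1 := by omega
    rw [h4, pw_succ', pw_succ]
  rw [e1, e2] at h3
  exact per_P9 (by omega) h3

end Helper1.IM
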