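import Pool.Agent.Helper1.IM.St3

/-!
# Project IM, module PD: permutability, type D
-/

set_option autoImplicit false

namespace Helper1.IM

/-- Sign change of the letter `i`. -/
def F_PD (i : ℕ) (u : Wd) : Wd := rw' 1 (fun k => decide (k = i)) u

theorem F_F_PD (i : ℕ) (u : Wd) : F_PD i (F_PD i u) = u := by
  unfold F_PD
  rw [rw'_rw']
  conv_rhs => rw [← rw'_id u]
  congr 1
  funext k
  simp

theorem F_fst_PD (i : ℕ) (u : Wd) : (F_PD i u).map Prod.fst = u.map Prod.fst := by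
  unfold F_PD
  rw [rw'_fst]
  simp

theorem F_oc_PD (i k : ℕ) (u : Wd) : oc k (F_PD i u) = oc k u := by
  unfold oc
  rw [F_fst_PD]

theorem F_ct_PD (i : ℕ) (u : Wd) : ct (F_PD i u) = ct u := by
  unfold ct
  rw [F_fst_PD]

theorem F_length_PD (i : ℕ) (u : Wd) : (F_PD i u).length = u.length := rw'_length _ _ _

theorem fs_cons_PD (i : ℕ) (a : Lt) (u : Wd) : fs i (a :: u) = if a.1 = i then a.2 else fs i u := by
  unfold fs
  by_cases h : a.1 = i
  · simp [List.find?_cons, h]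
  · simp [List.find?_cons, h]

theorem fs_F_PD (i : ℕ) (u : Wd) : i ∈ ct u → fs i (F_PD i u) = !(fs i u) := by
  induction u with
  | nil => intro h; simp at h
  | cons a u ih =>
    intro h
    have e : F_PD i (a :: u) = (a.1, xor a.2 (decide (a.1 = i))) :: F_PD i u := by
      simp [F_PD]
    rw [e, fs_cons_PD, fs_cons_PD]
    by_cases ha : a.1 = i
    · simp [ha]
    · have hu : i ∈ ct u := by
        rw [ct_cons, Finset.mem_insert] at h
        rcases h with h | h
        · exact absurd h.symm ha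
        · exact h
      simp only [ha, if_false]
      exact ih hu

theorem fs_F_ne_PD {i j : ℕ} (hij : i ≠ j) (u : Wd) : fs i (F_PD j u) = fs i u := by
  induction u with
  | nil => rfl
  | cons a u ih =>
    have e : F_PD j (a :: u) = (a.1, xor a.2 (decide (a.1 = j))) :: F_PD j u := by
      simp [F_PD]
    rw [e, fs_cons_PD, fs_cons_PD]
    by_cases ha : a.1 = i
    · have : ¬ a.1 = j := fun h => hij (ha.symm.trans h)
      simp [ha, hij]
    · simp only [ha, if_false]
      exact ih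

/-- Level. -/
def Lv_PD (θ : FIC) (n : ℕ) (C : Finset ℕ) (w : Wd) : Prop := w.length = n ∧ ct w = C ∧ ¬ Zero θ w

theorem Lv_F_PD {θ : FIC} {n : ℕ} {C : Finset ℕ} {w : Wd} (h : Lv_PD θ n C w) (i : ℕ) : Lv_PD θ n C (F_PD i w) := by
  refine ⟨by rw [F_length_PD]; exact h.1, by rw [F_ct_PD]; exact h.2.1, ?_⟩
  unfold F_PD
  rw [Zero.rw'_iff]
  exact h.2.2

theorem Lv_le_PD {θ α : FIC} (hl : Le θ α) {n : ℕ} {C : Finset ℕ} {w : Wd} (h : Lv_PD α n C w) : Lv_PD θ n C w :=
  ⟨h.1, h.2.1, fun hz => h.2.2 (hz.le hl)⟩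

theorem Lv_rw_PD {θ : FIC} {n : ℕ} {C : Finset ℕ} {w : Wd} (h : Lv_PD θ n C w) (p : Equiv.Perm ℕ) (e : ℕ → Bool)
    (hp : C.image p = C) : Lv_PD θ n C (rw' p e w) := by
  refine ⟨by rw [rw'_length]; exact h.1, by rw [ct_rw', h.2.1]; exact hp, ?_⟩
  rw [Zero.rw'_iff]
  exact h.2.2

theorem D_ex_PD {θ : FIC} (hT : TD θ) {n : ℕ} {C : Finset ℕ} (hn : 7 ≤ n) (hC : C.card < n) {a : Wd}
    (ha : Lv_PD θ n C a) : ∃ i ∈ C, oc i a = 2 ∧ ∀ j, j ≠ i → oc j a ≤ 1 := by
  have hl : ¬ Lin a := not_lin_of_card (by rw [ha.1, ha.2.1]; exact hC)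
  obtain ⟨i, h1, h2⟩ := hT.d1 a (by rw [ha.1]; exact hn) hl ha.2.2
  refine ⟨i, ?_, h1, h2⟩
  rw [← ha.2.1, ← oc_pos]
  omega

theorem D_le_PD {θ : FIC} (hT : TD θ) {n : ℕ} {C : Finset ℕ} (hn : 7 ≤ n) (hC : C.card < n) {a : Wd}
    (ha : Lv_PD θ n C a) {i : ℕ} (hi : oc i a = 2) : ∀ j, j ≠ i → oc j a ≤ 1 := by
  obtain ⟨k, _, h1, h2⟩ := D_ex_PD hT hn hC ha
  by_cases hk : i = k
  · subst hk
    exact h2
  · have := h2 i hk
    omega

/-- Words of a level with the same repeated letter. -/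
theorem two_PD {θ : FIC} (hT : TD θ) {n : ℕ} {C : Finset ℕ} (hn : 7 ≤ n) (hC : C.card < n) {a b : Wd}
    (ha : Lv_PD θ n C a) (hb : Lv_PD θ n C b) {i : ℕ} (hai : oc i a = 2) (hbi : oc i b = 2) :
    θ.r b a ∨ θ.r b (F_PD i a) := by
  have ha' := D_le_PD hT hn hC ha hai
  have hb' := D_le_PD hT hn hC hb hbi
  have hoc : ∀ k, oc k b = oc k a := by
    intro k
    by_cases hk : k = i
    · rw [hk, hai, hbi]
    · have h1 := ha' k hk
      have h2 := hb' k hk
      by_cases hkC : k ∈ C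
      · have h3 : 0 < oc k a := by rw [oc_pos, ha.2.1]; exact hkC
        have h4 : 0 < oc k b := by rw [oc_pos, hb.2.1]; exact hkC
        omega
      · have h3 : oc k a = 0 := by rw [oc_eq_zero, ha.2.1]; exact hkC
        have h4 : oc k b = 0 := by rw [oc_eq_zero, hb.2.1]; exact hkC
        omega
  have hl : ¬ Lin b := not_lin_of_card (by rw [hb.1, hb.2.1]; exact hC)
  have hi : i ∈ ct a := by
    rw [← oc_pos]
    omega
  by_cases hfs : fs i b = fs i a
  · left
    refine hT.d2 b a (by rw [hb.1]; exact hn) hl hb.2.2 ha.2.2 (perm_iff_oc.2 hoc) (fun k hk => ?_)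
    by_cases hki : k = i
    · rw [hki]; exact hfs
    · have := hb' k hki
      omega
  · right
    refine hT.d2 b (F_PD i a) (by rw [hb.1]; exact hn) hl hb.2.2 (Lv_F_PD ha i).2.2
      (perm_iff_oc.2 (fun k => by rw [F_oc_PD]; exact hoc k)) (fun k hk => ?_)
    by_cases hki : k = i
    · rw [hki, fs_F_PD i a hi]
      revert hfs
      cases fs i b <;> cases fs i a <;> simp
    · have := hb' k hki
      omega

/-- Sign changes of single letters. -/
theorem flip_PD {θ : FIC} (hT : TD θ) {n : ℕ} {C : Finset ℕ} (hn : 7 ≤ n) (hC : C.card < n) {a : Wd}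
    (ha : Lv_PD θ n C a) {j : ℕ} (hj : oc j a ≠ 2) : θ.r a (F_PD j a) := by
  have hl : ¬ Lin a := not_lin_of_card (by rw [ha.1, ha.2.1]; exact hC)
  refine hT.d2 a (F_PD j a) (by rw [ha.1]; exact hn) hl ha.2.2 (Lv_F_PD ha j).2.2
    (perm_iff_oc.2 (fun k => by rw [F_oc_PD])) (fun k hk => ?_)
  have : k ≠ j := fun h => hj (h ▸ hk)
  rw [fs_F_ne_PD this]

theorem F_rel_PD {α : FIC} {u v : Wd} (i : ℕ) (h : α.r u v) : α.r (F_PD i u) (F_PD i v) := α.rn _ _ h

theorem F_comm_PD (i j : ℕ) (u : Wd) : F_PD i (F_PD j u) = F_PD j (F_PD i u) := by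
  unfold F_PD
  rw [rw'_rw', rw'_rw']
  congr 1
  funext k
  by_cases h1 : k = i <;> by_cases h2 : k = j <;> simp [h1, h2]

theorem F_rw_PD (p : Equiv.Perm ℕ) {j k : ℕ} (hp : p j = k) (u : Wd) :
    F_PD k (rw' p (fun _ => false) u) = rw' p (fun _ => false) (F_PD j u) := by
  unfold F_PD
  rw [rw'_rw', rw'_rw', one_mul, mul_one]
  congr 1
  funext i
  have : p i = k ↔ i = j := by
    rw [← hp]
    exact p.injective.eq_iff
  simp [this]

theorem image_swap_PD {C : Finset ℕ} {i k : ℕ} (hi : i ∈ C) (hk : k ∈ C) : C.image (Equiv.swap i k) = C := by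
  apply Finset.eq_of_subset_of_card_le
  · intro x hx
    obtain ⟨y, hy, rfl⟩ := Finset.mem_image.1 hx
    by_cases h1 : y = i
    · rw [h1, Equiv.swap_apply_left]
      exact hk
    · by_cases h2 : y = k
      · rw [h2, Equiv.swap_apply_right]
        exact hi
      · rw [Equiv.swap_apply_of_ne_of_ne h1 h2]
        exact hy
  · rw [Finset.card_image_of_injective _ (Equiv.injective _)]

theorem perm_PD {C : Finset ℕ} {i j k l : ℕ} (hi : i ∈ C) (hj : j ∈ C) (hk : k ∈ C) (hl : l ∈ C) (hij : i ≠ j) (hkl : k ≠ l) :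
    ∃ p : Equiv.Perm ℕ, C.image p = C ∧ p i = k ∧ p j = l := by
  have hmem : Equiv.swap i k j ∈ C := by
    have := image_swap_PD hi hk
    rw [← this]
    exact Finset.mem_image_of_mem _ hj
  refine ⟨Equiv.swap (Equiv.swap i k j) l * Equiv.swap i k, ?_, ?_, ?_⟩
  · have e : C.image (Equiv.swap (Equiv.swap i k j) l * Equiv.swap i k) =
        (C.image (Equiv.swap i k)).image (Equiv.swap (Equiv.swap i k j) l) := by
      rw [Finset.image_image]
      rfl
    rw [e, image_swap_PD hi hk, image_swap_PD hmem hl]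
  · rw [Equiv.Perm.mul_apply, Equiv.swap_apply_left]
    apply Equiv.swap_apply_of_ne_of_ne
    · intro h
      have h2 : Equiv.swap i k i = Equiv.swap i k j := by rw [Equiv.swap_apply_left]; exact h
      exact hij ((Equiv.swap i k).injective h2)
    · exact hkl
  · rw [Equiv.Perm.mul_apply, Equiv.swap_apply_left]

/-- If `α` relates two words with different repeated letters, it relates the whole level. -/
theorem all_PD {θ : FIC} (hT : TD θ) {α : FIC} (hl : Le θ α) {n : ℕ} {C : Finset ℕ} (hn : 7 ≤ n) (hC : C.card < n)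
    {a b : Wd} (ha : Lv_PD α n C a) (hb : Lv_PD α n C b) (hab : α.r a b) {i j : ℕ} (hai : oc i a = 2)
    (hbj : oc j b = 2) (hij : i ≠ j) {c d : Wd} (hc : Lv_PD α n C c) (hd : Lv_PD α n C d) : α.r c d := by
  have hiC : i ∈ C := by rw [← ha.2.1, ← oc_pos]; omega
  have hjC : j ∈ C := by rw [← hb.2.1, ← oc_pos]; omega
  have hja : oc j a ≠ 2 := by
    have := D_le_PD hT hn hC (Lv_le_PD hl ha) hai j (Ne.symm hij)
    omega
  -- `b α F j b`
  have hbF : α.r b (F_PD j b) :=
    α.trans' (α.symm' hab) (α.trans' (hl _ _ (flip_PD hT hn hC (Lv_le_PD hl ha) hja)) (F_rel_PD j hab))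
  -- `x α F k x` for all words of the level with repeated letter `k`
  have hF : ∀ x : Wd, Lv_PD α n C x → ∀ k, oc k x = 2 → α.r x (F_PD k x) := by
    intro x hx k hk
    have hkC : k ∈ C := by rw [← hx.2.1, ← oc_pos]; omega
    set g : Wd := rw' (Equiv.swap j k) (fun _ => false) b with hg
    have hgL : Lv_PD α n C g := Lv_rw_PD hb _ _ (image_swap_PD hjC hkC)
    have hgk : oc k g = 2 := by
      have := oc_rw' (Equiv.swap j k) (fun _ => false) j b
      rw [Equiv.swap_apply_left] at this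
      rw [hg, this]
      exact hbj
    have hgF : α.r g (F_PD k g) := by
      rw [hg, F_rw_PD (Equiv.swap j k) (Equiv.swap_apply_left j k)]
      exact α.rn _ _ hbF
    rcases two_PD hT hn hC (Lv_le_PD hl hgL) (Lv_le_PD hl hx) hgk hk with h | h
    · exact α.trans' (hl _ _ h) (α.trans' hgF (F_rel_PD k (α.symm' (hl _ _ h))))
    · have h2 : α.r (F_PD k x) g := by
        have := F_rel_PD k (hl _ _ h)
        rw [F_F_PD] at this
        exact this
      exact α.trans' (hl _ _ h) (α.trans' (α.symm' hgF) (α.symm' h2))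
  -- same repeated letter
  have hS : ∀ x y : Wd, Lv_PD α n C x → Lv_PD α n C y → ∀ k, oc k x = 2 → oc k y = 2 → α.r x y := by
    intro x y hx hy k hkx hky
    rcases two_PD hT hn hC (Lv_le_PD hl hy) (Lv_le_PD hl hx) hky hkx with h | h
    · exact hl _ _ h
    · exact α.trans' (hl _ _ h) (α.symm' (hF y hy k hky))
  obtain ⟨k, hkC, hkc, _⟩ := D_ex_PD hT hn hC (Lv_le_PD hl hc)
  obtain ⟨l, hlC, hld, _⟩ := D_ex_PD hT hn hC (Lv_le_PD hl hd)
  by_cases hkl : k = l
  · subst hkl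
    exact hS c d hc hd k hkc hld
  · obtain ⟨p, hp, hpi, hpj⟩ := perm_PD hiC hjC hkC hlC hij hkl
    have h1 : oc k (rw' p (fun _ => false) a) = 2 := by
      rw [← hpi, oc_rw']
      exact hai
    have h2 : oc l (rw' p (fun _ => false) b) = 2 := by
      rw [← hpj, oc_rw']
      exact hbj
    exact α.trans' (hS _ _ hc (Lv_rw_PD ha p (fun _ => false) hp) k hkc h1)
      (α.trans' (α.rn p (fun _ => false) hab) (hS _ _ (Lv_rw_PD hb p (fun _ => false) hp) hd l h2 hld))

/-- MODULE PD. -/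
theorem hPD : StPD := by
  intro θ hT u w v hu hwl hvl hcw hcv hnl α β hα hβ huw hwv hau hbu hav hbv haw hbw
  have hC : (ct u).card < u.length := by
    rcases lt_or_eq_of_le (card_ct_le u) with h | h
    · exact h
    · exfalso
      apply hnl
      unfold Lin
      have h2 : (u.map Prod.fst).toFinset.card = (u.map Prod.fst).length := by
        simpa [ct] using h
      exact Multiset.coe_nodup.1 ((Multiset.toFinset_card_eq_card_iff_nodup (m := ((u.map Prod.fst : List ℕ) : Multiset ℕ))).1 h2)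
  have lau : Lv_PD α u.length (ct u) u := ⟨rfl, rfl, hau⟩
  have lbu : Lv_PD β u.length (ct u) u := ⟨rfl, rfl, hbu⟩
  have lav : Lv_PD α u.length (ct u) v := ⟨hvl, hcv, hav⟩
  have lbv : Lv_PD β u.length (ct u) v := ⟨hvl, hcv, hbv⟩
  have law : Lv_PD α u.length (ct u) w := ⟨hwl, hcw, haw⟩
  have lbw : Lv_PD β u.length (ct u) w := ⟨hwl, hcw, hbw⟩
  obtain ⟨i, _, hi, _⟩ := D_ex_PD hT hu hC (Lv_le_PD hα lau)
  obtain ⟨j, _, hj, _⟩ := D_ex_PD hT hu hC (Lv_le_PD hα law)
  obtain ⟨k, _, hk, _⟩ := D_ex_PD hT hu hC (Lv_le_PD hα lav)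
  by_cases hij : i = j
  · by_cases hjk : j = k
    · subst hij
      subst hjk
      rcases two_PD hT hu hC (Lv_le_PD hα law) (Lv_le_PD hα lav) hj hk with h1 | h1
      · -- `v θ w`
        exact ⟨u, β.refl' u, α.trans' huw (α.symm' (hα _ _ h1))⟩
      · -- `v θ F w`
        refine ⟨F_PD i u, ?_, α.trans' (F_rel_PD i huw) (α.symm' (hα _ _ h1))⟩
        have h3 : β.r w (F_PD i w) := β.trans' hwv (hβ _ _ h1)
        rcases two_PD hT hu hC (Lv_le_PD hα lau) (Lv_le_PD hα law) hi hj with h2 | h2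
        · exact β.trans' (β.symm' (hβ _ _ h2)) (β.trans' h3 (F_rel_PD i (hβ _ _ h2)))
        · have h4 : β.r (F_PD i w) u := by
            have := F_rel_PD i (hβ _ _ h2)
            rw [F_F_PD] at this
            exact this
          exact β.trans' (β.symm' h4) (β.trans' (β.symm' h3) (hβ _ _ h2))
    · exact ⟨v, all_PD hT hβ hu hC lbw lbv hwv hj hk hjk lbu lbv, α.refl' v⟩
  · exact ⟨u, β.refl' u, all_PD hT hα hu hC lau law huw hi hj hij lau lav⟩

end Helper1.IM
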