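import Pool.Agent.Helper1.IM.NSt2

/-!
# Project IM, module Q2: K1 or contained in rQ
-/

set_option autoImplicit false

namespace Helper1.IM

/-- words to which QF (b) applies -/
private def Reg_Q2 (W : Wd) : Prop := ∃ (c d : Lt) (m : Wd), W = c :: m ++ [d] ∧ m ≠ [] ∧ c.1 ∈ ct m ∧ d.1 ∈ ct m

private theorem reg_of_Q2 {c d : Lt} {m : Wd} (hc : c.1 ∈ ct m) (hd : d.1 ∈ ct m) :
    Reg_Q2 (c :: m ++ [d]) := by
  refine ⟨c, d, m, rfl, ?_, hc, hd⟩
  intro h
  rw [h] at hc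
  simp at hc

private theorem G_Q2 {θ : FIC} {ω : ℕ} (h2 : StTk2) (hf : StQF) (hB : BQ θ ω) {W W2 : Wd}
    (h : Reg_Q2 W) (h' : Reg_Q2 W2) (hc : ct W = ct W2) (ho : ∀ i, oc i W ≡ oc i W2 [MOD ω]) :
    θ.r W W2 := by
  have key : ∀ V, Reg_Q2 V → θ.r V (rho ω V) := by
    rintro V ⟨c, d, m, rfl, hm, h3, h4⟩
    exact (hf θ ω hB).2.1 c d m hm h3 h4
  exact θ.trans' (key W h) (θ.trans' ((h2 θ ω hB.1).2.1 ω hB.1.pf.idm W W2 hc ho)
    (θ.symm' (key W2 h')))

private theorem ct_X_Q2 (i : ℕ) : ct [X i] = {i} := by simp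
private theorem oc_X_Q2 (i j : ℕ) : oc i [X j] = if j = i then 1 else 0 := by
  rw [oc_cons]
  by_cases h : j = i
  · simp [h]
  · simp [h]

private theorem reg_h_Q2 {ω : ℕ} (hω : 7 ≤ ω) : Reg_Q2 (pw [X 0] ω) := by
  obtain ⟨k, rfl⟩ : ∃ k, ω = k + 3 := ⟨ω - 3, by omega⟩
  have e : pw [X 0] (k + 3) = X 0 :: (X 0 :: pw [X 0] k) ++ [X 0] := by
    rw [pw_succ' [X 0] (k + 2), pw_succ, pw_succ]
    simp
  rw [e]
  exact reg_of_Q2 (by simp) (by simp)

private theorem reg_hy_Q2 {ω k : ℕ} (hω : 7 ≤ ω) : Reg_Q2 (pw [X 0] ω ++ pw [X 1] (ω + k)) := by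
  obtain ⟨s, rfl⟩ : ∃ s, ω = s + 2 := ⟨ω - 2, by omega⟩
  have e : pw [X 0] (s + 2) ++ pw [X 1] (s + 2 + k) =
      X 0 :: (X 0 :: pw [X 0] s ++ pw [X 1] (s + k) ++ [X 1]) ++ [X 1] := by
    rw [show s + 2 + k = (s + k) + 1 + 1 by ring, pw_succ' [X 1] (s + k + 1),
      pw_succ' [X 1] (s + k), pw_succ, pw_succ]
    simp
  rw [e]
  exact reg_of_Q2 (by simp) (by simp)

/-- regular words with the letters `x, y`, the multiplicity of `x` divisible by `ω` -/
private theorem G2_Q2 {θ : FIC} {ω : ℕ} (h2 : StTk2) (hf : StQF) (hB : BQ θ ω) {W : Wd}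
    (h : Reg_Q2 W) (hc : ct W = {0, 1}) (ho : ω ∣ oc 0 W) :
    θ.r W (pw [X 0] ω ++ pw [X 1] (ω + oc 1 W)) := by
  have h7 := hB.1.pf.h7
  apply G_Q2 h2 hf hB h (reg_hy_Q2 h7)
  · rw [hc, ct_append, ct_pw _ (by omega), ct_pw _ (by omega), ct_X_Q2, ct_X_Q2]
    decide
  · intro i
    rw [oc_append, oc_pw, oc_pw, oc_X_Q2, oc_X_Q2]
    by_cases h0 : i = 0
    · subst h0
      simp only [if_true]
      rw [if_neg (by norm_num)]
      have e1 : oc 0 W ≡ 0 [MOD ω] := (Nat.modEq_zero_iff_dvd).2 ho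
      have e2 : ω * 1 + (ω + oc 1 W) * 0 ≡ 0 [MOD ω] :=
        (Nat.modEq_zero_iff_dvd).2 (by simp)
      exact e1.trans e2.symm
    · by_cases h1 : i = 1
      · subst h1
        simp only [if_true]
        rw [if_neg (by norm_num)]
        have e1 : ω ≡ 0 [MOD ω] := (Nat.modEq_zero_iff_dvd).2 dvd_rfl
        have e2 := e1.add_right (oc 1 W)
        rw [zero_add] at e2
        simpa using e2.symm
      · have : oc i W = 0 := by
          rw [oc_eq_zero, hc]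
          simp [h0, h1]
        rw [this, if_neg (Ne.symm h0), if_neg (Ne.symm h1)]
        exact rfl

private theorem G1_Q2 {θ : FIC} {ω : ℕ} (h2 : StTk2) (hf : StQF) (hB : BQ θ ω) {W : Wd}
    (h : Reg_Q2 W) (hc : ct W = {0}) (ho : ω ∣ oc 0 W) :
    θ.r W (pw [X 0] ω) := by
  have h7 := hB.1.pf.h7
  apply G_Q2 h2 hf hB h (reg_h_Q2 h7)
  · rw [hc, ct_pw _ (by omega), ct_X_Q2]
  · intro i
    rw [oc_pw, oc_X_Q2]
    by_cases h0 : i = 0
    · subst h0
      simp only [if_true]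
      have e1 : oc 0 W ≡ 0 [MOD ω] := (Nat.modEq_zero_iff_dvd).2 ho
      have e2 : ω * 1 ≡ 0 [MOD ω] := (Nat.modEq_zero_iff_dvd).2 (by simp)
      exact e1.trans e2.symm
    · have : oc i W = 0 := by
        rw [oc_eq_zero, hc]
        simp [h0]
      rw [this, if_neg (Ne.symm h0)]
      exact rfl

/-- the substitution `x_i ↦ y^±`, all other letters `↦ x^ω` -/
private def f_Q2 (ω i : ℕ) (b : Bool) : ℕ → Wd := fun j => if j = i then [(1, b)] else pw [X 0] ω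

private theorem f_ne_Q2 {ω : ℕ} (hω : 7 ≤ ω) (i : ℕ) (b : Bool) (j : ℕ) : f_Q2 ω i b j ≠ [] := by
  unfold f_Q2
  split_ifs
  · simp
  · exact pw_ne_nil (by simp) (by omega)

private def T_Q2 (ω i : ℕ) (b : Bool) (w : Wd) : Wd := sb (f_Q2 ω i b) w ++ pw [X 0] ω

private theorem ct_f_Q2 {ω : ℕ} (hω : 7 ≤ ω) (i : ℕ) (b : Bool) (j : ℕ) :
    ct (f_Q2 ω i b j) = if j = i then {1} else {0} := by
  unfold f_Q2
  split_ifs
  · simp
  · rw [ct_pw _ (by omega), ct_X_Q2]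

private theorem ct_T1_Q2 {ω : ℕ} (hω : 7 ≤ ω) {i : ℕ} {b : Bool} {w : Wd} (h : i ∈ ct w) :
    ct (T_Q2 ω i b w) = {0, 1} := by
  unfold T_Q2
  rw [ct_append, ct_pw _ (by omega), ct_X_Q2, ct_sb]
  ext j
  simp only [Finset.mem_union, Finset.mem_biUnion, Finset.mem_singleton, Finset.mem_insert,
    ct_f_Q2 hω]
  constructor
  · rintro (⟨a, ha, hj⟩ | hj)
    · split_ifs at hj
      · right; simpa using hj
      · left; simpa using hj
    · exact Or.inl hj
  · rintro (hj | hj)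
    · exact Or.inr hj
    · left
      exact ⟨i, h, by simp [hj]⟩

private theorem ct_T0_Q2 {ω : ℕ} (hω : 7 ≤ ω) {i : ℕ} {b : Bool} {w : Wd} (h : i ∉ ct w) :
    ct (T_Q2 ω i b w) = {0} := by
  unfold T_Q2
  rw [ct_append, ct_pw _ (by omega), ct_X_Q2, ct_sb]
  ext j
  simp only [Finset.mem_union, Finset.mem_biUnion, Finset.mem_singleton, ct_f_Q2 hω]
  constructor
  · rintro (⟨a, ha, hj⟩ | hj)
    · have : a ≠ i := fun h' => h (h' ▸ ha)
      rw [if_neg this] at hj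
      simpa using hj
    · exact hj
  · intro hj
    exact Or.inr hj

private theorem oc_T_Q2 (ω i : ℕ) (b : Bool) (w : Wd) : ω ∣ oc 0 (T_Q2 ω i b w) := by
  unfold T_Q2
  rw [oc_append, oc_pw]
  refine dvd_add ?_ (dvd_mul_right _ _)
  induction w with
  | nil => simp
  | cons a w ih =>
    rw [sb_cons, oc_append]
    refine dvd_add ?_ ih
    have e : oc 0 (if a.2 = true then st (f_Q2 ω i b a.1) else f_Q2 ω i b a.1) =
        oc 0 (f_Q2 ω i b a.1) := by
      split_ifs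
      · rw [oc_st]
      · rfl
    rw [e]
    unfold f_Q2
    split_ifs
    · rw [oc_cons]; simp
    · rw [oc_pw]; exact dvd_mul_right _ _

private theorem reg_T_Q2 {ω : ℕ} (hω : 7 ≤ ω) {i : ℕ} {b : Bool} {a : Lt} {w : Wd}
    (h : a.1 ≠ i ∨ i ∈ ct w) : Reg_Q2 (T_Q2 ω i b (a :: w)) := by
  obtain ⟨s, rfl⟩ : ∃ s, ω = s + 2 := ⟨ω - 2, by omega⟩
  unfold T_Q2
  rw [sb_cons, pw_succ' [X 0] (s + 1), pw_succ' [X 0] s]
  by_cases ha : a.1 = i
  · have hi : i ∈ ct w := h.resolve_left (fun h => h ha)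
    have e : (if a.2 = true then st (f_Q2 (s + 2) i b a.1) else f_Q2 (s + 2) i b a.1) =
        [(1, xor b a.2)] := by
      unfold f_Q2
      rw [if_pos ha]
      rcases a with ⟨j, b'⟩
      cases b' <;> cases b <;> simp [st, fl]
    rw [e]
    have e2 : [(1, xor b a.2)] ++ sb (f_Q2 (s + 2) i b) w ++ (pw [X 0] s ++ [X 0] ++ [X 0]) =
        (1, xor b a.2) :: (sb (f_Q2 (s + 2) i b) w ++ pw [X 0] s ++ [X 0]) ++ [X 0] := by
      simp
    rw [e2]
    apply reg_of_Q2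
    · have h1 : (1 : ℕ) ∈ ct (sb (f_Q2 (s + 2) i b) w) := by
        rw [ct_sb, Finset.mem_biUnion]
        exact ⟨i, hi, by rw [ct_f_Q2 hω]; simp⟩
      rw [ct_append, ct_append, Finset.mem_union, Finset.mem_union]
      exact Or.inl (Or.inl h1)
    · simp
  · have e : ∃ (c : Lt) (z : Wd), c.1 = 0 ∧
        (if a.2 = true then st (f_Q2 (s + 2) i b a.1) else f_Q2 (s + 2) i b a.1) =
          c :: c :: z := by
      unfold f_Q2
      rw [if_neg ha]
      split_ifs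
      · refine ⟨Y 0, pw [Y 0] s, rfl, ?_⟩
        rw [st_pw, pw_succ, pw_succ]
        simp
      · refine ⟨X 0, pw [X 0] s, rfl, ?_⟩
        rw [pw_succ, pw_succ]
        simp
    obtain ⟨c, z, hc0, hz⟩ := e
    rw [hz]
    have e2 : c :: c :: z ++ sb (f_Q2 (s + 2) i b) w ++ (pw [X 0] s ++ [X 0] ++ [X 0]) =
        c :: (c :: z ++ sb (f_Q2 (s + 2) i b) w ++ pw [X 0] s ++ [X 0]) ++ [X 0] := by
      simp
    rw [e2]
    apply reg_of_Q2
    · simp
    · simp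

private theorem T0_Q2 {θ : FIC} {ω : ℕ} (h2 : StTk2) (hf : StQF) (hB : BQ θ ω) {i : ℕ} {b : Bool}
    {w : Wd} (h : i ∉ ct w) : θ.r (T_Q2 ω i b w) (pw [X 0] ω) := by
  cases w with
  | nil => exact θ.refl' _
  | cons a w =>
    apply G1_Q2 h2 hf hB
    · apply reg_T_Q2 hB.1.pf.h7
      left
      intro ha
      apply h
      simp [ha]
    · exact ct_T0_Q2 hB.1.pf.h7 h
    · exact oc_T_Q2 _ _ _ _

private theorem T1_Q2 {θ : FIC} {ω : ℕ} (h2 : StTk2) (hf : StQF) (hB : BQ θ ω) {i : ℕ} {b : Bool}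
    {a : Lt} {w : Wd} (h : i ∈ ct (a :: w)) (hr : a.1 ≠ i ∨ i ∈ ct w) :
    ∃ k, 1 ≤ k ∧ θ.r (T_Q2 ω i b (a :: w)) (pw [X 0] ω ++ pw [X 1] (ω + k)) := by
  have hct := ct_T1_Q2 (b := b) hB.1.pf.h7 h
  refine ⟨oc 1 (T_Q2 ω i b (a :: w)), ?_, ?_⟩
  · have : 0 < oc 1 (T_Q2 ω i b (a :: w)) := by
      rw [oc_pos, hct]
      simp
    omega
  · exact G2_Q2 h2 hf hB (reg_T_Q2 hB.1.pf.h7 hr) hct (oc_T_Q2 _ _ _ _)

/-- contents differ -/
private theorem A_Q2 {θ : FIC} {ω : ℕ} (h2 : StTk2) (hf : StQF) (hB : BQ θ ω) {u v : Wd}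
    (hr : θ.r u v) {i : ℕ} (hu : i ∈ ct u) (hv : i ∉ ct v) : K1 θ ω := by
  have hpf := hB.1.pf
  have h3 := θ.mulR (pw [X 0] ω)
    (θ.sub' (f_Q2 ω i false) (f_ne_Q2 hpf.h7 i false) (θ.mulL [X (i + 1)] hr))
  have h4 : θ.r (T_Q2 ω i false (X (i + 1) :: u)) (T_Q2 ω i false (X (i + 1) :: v)) := h3
  obtain ⟨k, hk, h5⟩ := T1_Q2 (b := false) h2 hf hB (i := i) (a := X (i + 1)) (w := u)
    (by simp [hu]) (Or.inl (by simp))
  have h6 := T0_Q2 (b := false) h2 hf hB (i := i) (w := X (i + 1) :: v) (by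
    simp [hv])
  have h7 : θ.r (pw [X 0] ω) (pw [X 0] ω ++ pw [X 1] (ω + k)) :=
    θ.trans' (θ.symm' h6) (θ.trans' (θ.symm' h4) h5)
  have h8 : ∀ j : ℕ, θ.r (pw [X 0] ω) (pw [X 0] ω ++ pw [X 1] ((ω + k) * j)) := by
    intro j
    induction j with
    | zero => simpa using θ.refl' _
    | succ j ih =>
      refine θ.trans' ih ?_
      have := θ.mulR (pw [X 1] ((ω + k) * j)) h7
      rw [List.append_assoc, ← pw_add] at this
      rw [Nat.mul_succ, Nat.add_comm ((ω + k) * j)]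
      exact this
  have h9 := h8 ω
  have h10 := θ.trans' h9 (θ.mulL (pw [X 0] ω) (hpf.mul (t := [X 1]) (by simp) (k := ω + k) (by omega)))
  have h11 := θ.mulR [X 1] h10
  rw [List.append_assoc, ← pw_succ'] at h11
  exact h11

/-- `y h ~ h y^(ω+k)` implies K1 -/
private theorem K_Q2 {θ : FIC} {ω : ℕ} (h2 : StTk2) (hf : StQF) (hB : BQ θ ω) {k : ℕ}
    (h : θ.r ([X 1] ++ pw [X 0] ω) (pw [X 0] ω ++ pw [X 1] (ω + k))) : K1 θ ω := by
  have hpf := hB.1.pf
  have h7 := hpf.h7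
  have h3 := θ.mulL (pw [X 1] ω) h
  rw [← List.append_assoc, ← pw_succ'] at h3
  have hreg : Reg_Q2 (pw [X 1] ω ++ (pw [X 0] ω ++ pw [X 1] (ω + k))) := by
    obtain ⟨s, rfl⟩ : ∃ s, ω = s + 2 := ⟨ω - 2, by omega⟩
    have e : pw [X 1] (s + 2) ++ (pw [X 0] (s + 2) ++ pw [X 1] (s + 2 + k)) =
        X 1 :: (X 1 :: pw [X 1] s ++ pw [X 0] (s + 2) ++ pw [X 1] (s + k + 1)) ++ [X 1] := by
      rw [show s + 2 + k = (s + k + 1) + 1 by ring, pw_succ' [X 1] (s + k + 1),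
        show pw [X 1] (s + 2) = [X 1] ++ ([X 1] ++ pw [X 1] s) by rw [pw_succ, pw_succ]]
      simp
    rw [e]
    exact reg_of_Q2 (by simp) (by simp)
  have h4 := G2_Q2 h2 hf hB hreg (by
      rw [ct_append, ct_append, ct_pw _ (by omega), ct_pw _ (by omega), ct_pw _ (by omega),
        ct_X_Q2, ct_X_Q2]
      decide) (by
      rw [oc_append, oc_append, oc_pw, oc_pw, oc_pw, oc_X_Q2, oc_X_Q2]
      simp)
  have e1 : ω + oc 1 (pw [X 1] ω ++ (pw [X 0] ω ++ pw [X 1] (ω + k))) = (ω + k) + 2 * ω := by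
    rw [oc_append, oc_append, oc_pw, oc_pw, oc_pw, oc_X_Q2, oc_X_Q2]
    simp
    ring
  rw [e1] at h4
  have h5 := θ.trans' h4 (θ.mulL (pw [X 0] ω)
    (hpf.addmul (t := [X 1]) (by simp) (j := ω + k) (by omega) 2))
  -- y^(ω+1) h ~ y h
  have h6 : θ.r (pw [X 1] (ω + 1) ++ pw [X 0] ω) ([X 1] ++ pw [X 0] ω) :=
    θ.trans' h3 (θ.trans' h5 (θ.symm' h))
  have h8 := θ.sub' (fun i => [Y i]) (fun _ => by simp) (θ.star' h6)
  have eY : ∀ i, sb (fun i => [Y i]) [Y i] = [X i] := by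
    intro i
    simp [sb_single, Y, st, fl, X]
  simp only [st_append, st_pw, st_single, fl_X, sb_append, sb_pw, eY] at h8
  exact θ.symm' h8

private theorem hd_some_Q2 {u : Wd} {c : Lt} (h : hd u = some c) :
    ∃ u', u = c :: u' ∧ c.1 ∉ ct u' := by
  cases u with
  | nil => simp [hd] at h
  | cons a t =>
    simp only [hd] at h
    split_ifs at h with h1
    simp only [Option.some.injEq] at h
    subst h
    exact ⟨t, rfl, h1⟩

/-- contents equal, first letters different -/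
private theorem B_Q2 {θ : FIC} {ω : ℕ} (h2 : StTk2) (hf : StQF) (hB : BQ θ ω) {u v : Wd}
    (hr : θ.r u v) (hct : ct u = ct v) {c : Lt} (hu : hd u = some c) (hv : hd v ≠ some c) :
    K1 θ ω := by
  have hpf := hB.1.pf
  have h7 := hpf.h7
  obtain ⟨u', rfl, hcu⟩ := hd_some_Q2 hu
  rcases c with ⟨i, b⟩
  have h3 : θ.r (T_Q2 ω i b ((i, b) :: u')) (T_Q2 ω i b v) :=
    θ.mulR (pw [X 0] ω) (θ.sub' (f_Q2 ω i b) (f_ne_Q2 h7 i b) hr)
  have e1 : ∀ w, T_Q2 ω i b ((i, b) :: w) = [X 1] ++ T_Q2 ω i b w := by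
    intro w
    unfold T_Q2
    rw [sb_cons]
    cases b <;> simp [f_Q2, st, fl, X]
  have e2 : ∀ w, T_Q2 ω i b ((i, !b) :: w) = [Y 1] ++ T_Q2 ω i b w := by
    intro w
    unfold T_Q2
    rw [sb_cons]
    cases b <;> simp [f_Q2, st, fl, Y]
  rw [e1] at h3
  -- y h ~ T v
  have h4 : θ.r ([X 1] ++ pw [X 0] ω) (T_Q2 ω i b v) :=
    θ.trans' (θ.mulL [X 1] (θ.symm' (T0_Q2 h2 hf hB (b := b) hcu))) h3
  have hiv : i ∈ ct v := by rw [← hct]; simp
  cases v with
  | nil => simp at hiv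
  | cons a v1 =>
    by_cases hcase : a.1 ≠ i ∨ i ∈ ct v1
    · obtain ⟨k, _, h5⟩ := T1_Q2 (b := b) h2 hf hB hiv hcase
      exact K_Q2 h2 hf hB (θ.trans' h4 h5)
    · push Not at hcase
      obtain ⟨ha, hi1⟩ := hcase
      have ha2 : a = (i, !b) := by
        rcases a with ⟨j, b'⟩
        simp only at ha
        subst ha
        have hne : hd ((j, b') :: v1) = some (j, b') := by
          change (if j ∈ ct v1 then none else some (j, b')) = some (j, b')
          rw [if_neg hi1]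
        rw [hne] at hv
        have : b' ≠ b := fun h => hv (by rw [h])
        cases b <;> cases b' <;> simp_all
      rw [ha2, e2] at h4
      have h5 : θ.r ([X 1] ++ pw [X 0] ω) ([Y 1] ++ pw [X 0] ω) :=
        θ.trans' h4 (θ.mulL [Y 1] (T0_Q2 h2 hf hB (b := b) hi1))
      -- substitute y ↦ x^ω y
      have h6 := θ.sub' (fun j => if j = 1 then pw [X 0] ω ++ [X 1] else [X j])
        (fun j => by
          split_ifs <;> simp) h5
      have s1 : sb (fun j => if j = 1 then pw [X 0] ω ++ [X 1] else [X j]) [X 1] =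
          pw [X 0] ω ++ [X 1] := by simp [sb_single, X]
      have s2 : sb (fun j => if j = 1 then pw [X 0] ω ++ [X 1] else [X j]) [X 0] = [X 0] := by
        simp [sb_single, X]
      have s3 : sb (fun j => if j = 1 then pw [X 0] ω ++ [X 1] else [X j]) [Y 1] =
          [Y 1] ++ pw [Y 0] ω := by
        simp [sb_single, Y, X, st_pw, fl]
      simp only [sb_append, sb_pw, s1, s2, s3] at h6
      -- y* h* h ~ y* h
      have h8 : θ.r (pw [Y 0] ω ++ pw [X 0] ω) (pw [X 0] ω) := by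
        apply G1_Q2 h2 hf hB
        · obtain ⟨s, rfl⟩ : ∃ s, ω = s + 2 := ⟨ω - 2, by omega⟩
          have e : pw [Y 0] (s + 2) ++ pw [X 0] (s + 2) =
              Y 0 :: (Y 0 :: pw [Y 0] s ++ pw [X 0] (s + 1)) ++ [X 0] := by
            rw [pw_succ' [X 0] (s + 1), pw_succ, pw_succ]
            simp
          rw [e]
          exact reg_of_Q2 (by simp) (by simp)
        · rw [ct_append, ct_pw _ (by omega), ct_pw _ (by omega), ct_X_Q2]
          simp
        · rw [oc_append, oc_pw, oc_pw]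
          exact dvd_add (dvd_mul_right _ _) (dvd_mul_right _ _)
      have h9 : θ.r (pw [X 0] ω ++ [X 1] ++ pw [X 0] ω) ([Y 1] ++ pw [X 0] ω) := by
        refine θ.trans' h6 ?_
        rw [List.append_assoc]
        exact θ.mulL [Y 1] h8
      have hreg : Reg_Q2 (pw [X 0] ω ++ [X 1] ++ pw [X 0] ω) := by
        obtain ⟨s, rfl⟩ : ∃ s, ω = s + 2 := ⟨ω - 2, by omega⟩
        have e : pw [X 0] (s + 2) ++ [X 1] ++ pw [X 0] (s + 2) =
            X 0 :: (X 0 :: pw [X 0] s ++ [X 1] ++ pw [X 0] (s + 1)) ++ [X 0] := by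
          have hA : pw [X 0] (s + 2) = [X 0] ++ ([X 0] ++ pw [X 0] s) := by rw [pw_succ, pw_succ]
          have hC : pw [X 0] (s + 2) = pw [X 0] (s + 1) ++ [X 0] := pw_succ' _ _
          calc pw [X 0] (s + 2) ++ [X 1] ++ pw [X 0] (s + 2)
              = ([X 0] ++ ([X 0] ++ pw [X 0] s)) ++ [X 1] ++ (pw [X 0] (s + 1) ++ [X 0]) := by
                rw [← hA, ← hC]
            _ = _ := by simp
        rw [e]
        exact reg_of_Q2 (by simp) (by simp)
      have h10 := G2_Q2 h2 hf hB hreg (by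
          rw [ct_append, ct_append, ct_pw _ (by omega), ct_X_Q2, ct_X_Q2]
          decide) (by
          rw [oc_append, oc_append, oc_pw, oc_X_Q2, oc_X_Q2]
          simp)
      exact K_Q2 h2 hf hB (θ.trans' h5 (θ.trans' (θ.symm' h9) h10))

theorem hQ2 (_h1 : StTk1) (h2 : StTk2) (hf : StQF) : StQ2 := by
  intro θ ω hB
  by_cases hs : Sub θ rQ
  · exact Or.inr hs
  left
  unfold Sub at hs
  push Not at hs
  obtain ⟨u, v, huv, hn⟩ := hs
  have hBs : ∀ u v : Wd, θ.r u v → ct u = ct v → hd u ≠ hd v → K1 θ ω := by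
    intro u v huv hc hh
    cases hu : hd u with
    | some c =>
      refine B_Q2 h2 hf hB huv hc hu ?_
      rw [← hu]
      exact fun h => hh h.symm
    | none =>
      cases hv : hd v with
      | none => exact absurd (hu.trans hv.symm) hh
      | some c =>
        refine B_Q2 h2 hf hB (θ.symm' huv) hc.symm hv ?_
        rw [hu]
        simp
  by_cases hc : ct u = ct v
  · by_cases hh : hd u = hd v
    · have h3 : hd (st u) ≠ hd (st v) := fun h => hn ⟨hc, hh, h⟩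
      exact hBs (st u) (st v) (θ.star' huv) (by rw [ct_st, ct_st]; exact hc) h3
    · exact hBs u v huv hc hh
  · have : ∃ i, (i ∈ ct u ∧ i ∉ ct v) ∨ (i ∈ ct v ∧ i ∉ ct u) := by
      by_contra hcon
      push Not at hcon
      apply hc
      ext i
      exact ⟨(hcon i).1, (hcon i).2⟩
    obtain ⟨i, ⟨h3, h4⟩ | ⟨h3, h4⟩⟩ := this
    · exact A_Q2 h2 hf hB huv h3 h4
    · exact A_Q2 h2 hf hB (θ.symm' huv) h3 h4

end Helper1.IM
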