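import Pool.Agent.Helper1.IM.NSt2

/-!
# Project IM, module Q3h: property (H) in type Q
-/

set_option autoImplicit false

namespace Helper1.IM

theorem hd_cons_Q3h (a : Lt) (t : Wd) : hd (a :: t) = if a.1 ∈ ct t then none else some a := rfl

theorem hd_some_Q3h {W : Wd} {a : Lt} (h : hd W = some a) : ∃ V, W = a :: V ∧ a.1 ∉ ct V := by
  cases W with
  | nil => simp [hd] at h
  | cons b V =>
    rw [hd_cons_Q3h] at h
    split_ifs at h with h1
    · have h2 : b = a := by simpa using h
      subst h2
      exact ⟨V, rfl, h1⟩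

theorem ct_empty_Q3h {W : Wd} (h : ct W = ∅) : W = [] := by
  cases W with
  | nil => rfl
  | cons b V =>
    exfalso
    have : b.1 ∈ ct (b :: V) := by simp
    rw [h] at this
    simp at this

theorem hQ3h (hP : StNPer) (hf : StQF) (hn : StQN) (h5 : StS05) (q2 : StQ2) : StQ3h := by
  intro θ ω hB δ hl w hw0 hwR hwD
  have hBδ : BQ δ ω := hB.le hl
  have hlen : w.length ≤ 2 := by
    by_contra h
    exact hwR ((hf θ ω hB).2.2.2.2.1 w (by omega))
  rcases q2 δ ω hBδ with hK | hQ
  · exact h5 δ ω hBδ.1.pf hK w hwD
  obtain ⟨-, p, t, q, ht, hr⟩ := hwD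
  set W : Wd := p ++ pw t ω ++ q with hW
  have hWl : 7 ≤ W.length := by
    have h1 : 7 ≤ ω := hBδ.1.pf.h7
    have h2 : 1 ≤ t.length := List.length_pos_iff.2 ht
    have h3 : ω * 1 ≤ ω * t.length := Nat.mul_le_mul_left ω h2
    rw [hW, List.length_append, List.length_append, length_pw]
    omega
  obtain ⟨hc, hh, hh'⟩ := hQ _ _ hr
  obtain ⟨m, hm⟩ := hP.1 δ ω hBδ.1.pf
  match w, hw0, hlen, hc, hh, hh', hr with
  | [], hw0, _, _, _, _, _ => exact absurd rfl hw0
  | [a], _, _, hc, hh, _, _ =>
    exfalso
    have h1 : hd [a] = some a := by rw [hd_cons_Q3h]; simp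
    rw [h1] at hh
    obtain ⟨V, hV, ha⟩ := hd_some_Q3h hh.symm
    have h2 : ct V = ∅ := by
      rw [hV] at hc
      simp only [ct_cons, ct_nil] at hc
      rw [Finset.eq_empty_iff_forall_notMem]
      intro i hi
      have h3 : i ∈ insert a.1 (ct V) := Finset.mem_insert_of_mem hi
      rw [← hc] at h3
      have h4 : i = a.1 := by simpa using h3
      exact ha (h4 ▸ hi)
    have h3 := ct_empty_Q3h h2
    rw [hV, h3] at hWl
    simp at hWl
  | [a, b], _, _, hc, hh, hh', hr =>
    by_cases hab : a.1 = b.1
    · have h1 : hd [a, b] = none := by rw [hd_cons_Q3h]; simp [hab]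
      have h2 : hd (st [a, b]) = none := by
        have : st [a, b] = [fl b, fl a] := by simp [st]
        rw [this, hd_cons_Q3h]
        simp [hab]
      rw [h1] at hh
      rw [h2] at hh'
      rcases (hn δ ω m hBδ hm).2.2 W (by omega) hh.symm hh'.symm with ⟨c, d, M, hWM, hcd, hcM, hM⟩ | h3
      · exfalso
        rw [hWM] at hc
        have hsub : ∀ i, i ∈ ct (c :: M ++ [d]) → i = b.1 := by
          intro i hi
          rw [← hc] at hi
          simpa [hab] using hi
        have hc1 : c.1 = b.1 := hsub _ (by simp)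
        obtain ⟨x, M', rfl⟩ := List.exists_cons_of_ne_nil hM
        have hx1 : x.1 = b.1 := hsub _ (by simp)
        exact hcM (by simp [hc1, hx1])
      · refine δ.trans' hr (δ.trans' h3 (δ.symm' ?_))
        exact δ.sub' _ (fun i => pw_ne_nil (by simp) (Nat.succ_pos _)) hr
    · exfalso
      have h1 : hd [a, b] = some a := by rw [hd_cons_Q3h]; simp [hab]
      have h2 : hd (st [a, b]) = some (fl b) := by
        have : st [a, b] = [fl b, fl a] := by simp [st]
        rw [this, hd_cons_Q3h]
        have : ¬ b.1 = a.1 := fun h => hab h.symm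
        simp [this]
      rw [h1] at hh
      rw [h2] at hh'
      obtain ⟨V, hV, ha⟩ := hd_some_Q3h hh.symm
      have hV0 : V ≠ [] := by
        rintro rfl
        rw [hV] at hWl
        simp at hWl
      obtain ⟨V', c, rfl⟩ : ∃ V' c, V = V' ++ [c] :=
        ⟨V.dropLast, V.getLast hV0, (List.dropLast_append_getLast hV0).symm⟩
      have h3 : st W = fl c :: (st V' ++ [fl a]) := by
        rw [hV]
        simp
      obtain ⟨U, hU, hb⟩ := hd_some_Q3h hh'.symm
      rw [h3] at hU
      have h4 : U = st V' ++ [fl a] := by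
        have := (List.cons.inj hU).2
        exact this.symm
      have h5' : b.1 ∉ ct V' := by
        intro h
        apply hb
        rw [h4]
        simp [h]
      have h6 : ct V' = ∅ := by
        rw [Finset.eq_empty_iff_forall_notMem]
        intro i hi
        have h7 : i ∈ ct W := by
          rw [hV]
          simp [hi]
        rw [← hc] at h7
        have h8 : i = a.1 ∨ i = b.1 := by simpa using h7
        rcases h8 with h8 | h8
        · apply ha
          rw [← h8]
          simp [hi]
        · exact h5' (h8 ▸ hi)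
      have h9 := ct_empty_Q3h h6
      rw [hV, h9] at hWl
      simp at hWl
  | a :: b :: c :: w', _, hlen, _, _, _, _ =>
    exfalso
    simp at hlen

end Helper1.IM
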