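import Pool.Agent.Helper1.IM.M_NCr

/-!
# Project IM, second part: module Q5 (one letter in the middle)
-/

set_option autoImplicit false

namespace Helper1.IM

/-- multiplicities after a substitution -/
private theorem oc_sb_Q5 (j : ℕ) (f : ℕ → Wd) (S : Finset ℕ) (u : Wd) : ct u ⊆ S →
    oc j (sb f u) = ∑ i ∈ S, oc i u * oc j (f i) := by
  induction u with
  | nil => intro _; simp
  | cons a u ih =>
    intro hS
    rw [ct_cons] at hS
    have h1 : a.1 ∈ S := hS (Finset.mem_insert_self _ _)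
    have h2 := ih fun i hi => hS (Finset.mem_insert_of_mem hi)
    have h3 : oc j (if a.2 then st (f a.1) else f a.1) = oc j (f a.1) := by
      by_cases ha : a.2
      · rw [if_pos ha, oc_st]
      · rw [if_neg ha]
    rw [sb_cons, oc_append, h3, h2]
    have h4 : ∀ i ∈ S, oc i (a :: u) * oc j (f i) =
        (if a.1 = i then oc j (f i) else 0) + oc i u * oc j (f i) := by
      intro i _
      rw [oc_cons, add_mul]
      by_cases h : a.1 = i <;> simp [h]
    rw [Finset.sum_congr rfl h4, Finset.sum_add_distrib, Finset.sum_ite_eq S a.1, if_pos h1]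

/-- Bezout for finite sets -/
private theorem bez_Q5 (f : ℕ → ℕ) (s : Finset ℕ) : ∃ B : ℕ → ℤ, ∑ j ∈ s, B j * (f j : ℤ) = (s.gcd f : ℕ) := by
  induction s using Finset.induction_on with
  | empty => exact ⟨fun _ => 0, by simp⟩
  | insert i s hi ih =>
    obtain ⟨B, hB⟩ := ih
    refine ⟨fun j => if j = i then Nat.gcdA (f i) (s.gcd f) else Nat.gcdB (f i) (s.gcd f) * B j, ?_⟩
    rw [Finset.sum_insert hi]
    beta_reduce
    rw [if_pos rfl]
    have h1 : ∑ j ∈ s, (if j = i then Nat.gcdA (f i) (s.gcd f) else Nat.gcdB (f i) (s.gcd f) * B j) * (f j : ℤ)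
        = Nat.gcdB (f i) (s.gcd f) * ∑ j ∈ s, B j * (f j : ℤ) := by
      rw [Finset.mul_sum]
      refine Finset.sum_congr rfl fun j hj => ?_
      have : j ≠ i := fun h => hi (h ▸ hj)
      rw [if_neg this]
      ring
    rw [h1, hB, Finset.gcd_insert]
    have h2 := Nat.gcd_eq_gcd_ab (f i) (s.gcd f)
    have h3 : GCDMonoid.gcd (f i) (s.gcd f) = Nat.gcd (f i) (s.gcd f) := rfl
    rw [h3, h2]
    ring

private theorem bez2_Q5 (f : ℕ → ℕ) (s : Finset ℕ) (n : ℕ) (hn : 1 ≤ n) :
    ∃ B : ℕ → ℕ, (∀ j, 1 ≤ B j) ∧ ∑ j ∈ s, f j * B j ≡ s.gcd f [MOD n] := by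
  obtain ⟨B, hB⟩ := bez_Q5 f s
  refine ⟨fun j => (B j % n).toNat + n, fun j => ?_, ?_⟩
  · show 1 ≤ (B j % n).toNat + n
    omega
  rw [← Int.natCast_modEq_iff, ← hB]
  push_cast
  have key : ∀ t : Finset ℕ, ∑ j ∈ t, (f j : ℤ) * (((B j % n).toNat : ℤ) + n) ≡ ∑ j ∈ t, B j * (f j : ℤ) [ZMOD n] := by
    intro t
    induction t using Finset.induction_on with
    | empty => simp
    | insert i t hi ih =>
      rw [Finset.sum_insert hi, Finset.sum_insert hi]
      refine Int.ModEq.add ?_ ih
      have h1 : ((B i % n).toNat : ℤ) = B i % n :=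
        Int.toNat_of_nonneg (Int.emod_nonneg _ (by omega))
      rw [h1, mul_comm]
      refine Int.ModEq.mul_right _ ?_
      have h2 : B i % (n : ℤ) + n ≡ B i % n [ZMOD n] := by simp [Int.ModEq]
      exact h2.trans (Int.mod_modEq _ _)
  exact key s

section

variable {δ : FIC} {ω : ℕ}

/-- replacing the middle part -/
private theorem mid_Q5 (h2 : StTk2) (hf : StQF) (hB : BQ δ ω) {m m' : Wd} (hm : m ≠ []) (hm' : m' ≠ [])
    (hc : ct m = ct m') (ho : ∀ i, oc i m ≡ oc i m' [MOD ω]) (c d : Lt) :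
    δ.r (c :: m ++ [d]) (c :: m' ++ [d]) := by
  have a1 := (hf δ ω hB).1 c d m hm
  have a2 := (hf δ ω hB).1 c d m' hm'
  have a3 := (h2 δ ω hB.1).2.1 ω hB.1.pf.idm m m' hc ho
  have a4 := δ.mul' [c] [d] a3
  refine δ.trans' a1 (δ.trans' ?_ (δ.symm' a2))
  simpa using a4

private theorem rho_Q5 (h2 : StTk2) (hB : BQ δ ω) {m m' : Wd}
    (hc : ct m = ct m') (ho : ∀ i, oc i m ≡ oc i m' [MOD ω]) : δ.r (rho ω m) (rho ω m') :=
  (h2 δ ω hB.1).2.1 ω hB.1.pf.idm m m' hc ho

/-- the right hand sides are regular -/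
private theorem reg_Q5 (hf : StQF) (hB : BQ δ ω) (c : Lt) {T : Wd} (hT : T ≠ []) (k : ℕ) :
    δ.r (pw [c] (ω + 2) ++ pw T (ω + k)) (rho ω (pw [c] (ω + 2) ++ pw T (ω + k))) := by
  have h7 := hB.1.pf.h7
  obtain ⟨T', d, hTd⟩ : ∃ (T' : Wd) (d : Lt), T = T' ++ [d] :=
    ⟨T.dropLast, T.getLast hT, (List.dropLast_append_getLast hT).symm⟩
  have e1 : pw [c] (ω + 2) ++ pw T (ω + k) =
      c :: (pw [c] (ω + 1) ++ pw T (ω + k - 1) ++ T') ++ [d] := by
    have e2 : ω + k = (ω + k - 1) + 1 := by omega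
    have e3 : pw [c] (ω + 2) = c :: pw [c] (ω + 1) := by
      rw [pw_succ [c] (ω + 1)]; rfl
    have e4 : pw T (ω + k) = pw T (ω + k - 1) ++ (T' ++ [d]) := by
      conv_lhs => rw [e2]
      rw [pw_succ']
      congr 1
    rw [e3, e4]
    simp [List.append_assoc]
  rw [e1]
  refine (hf δ ω hB).2.1 c d _ ?_ ?_ ?_
  · have : pw [c] (ω + 1) ≠ [] := pw_ne_nil (by simp) (by omega)
    simp [this]
  · rw [ct_append, ct_append, ct_pw _ (by omega : 0 < ω + 1)]
    simp
  · rw [ct_append, ct_append, ct_pw T (by omega : 0 < ω + k - 1), hTd]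
    simp

end

theorem hQ5 (_h1 : StTk1) (h2 : StTk2) (hf : StQF) : StQ5 := by
  intro δ ω hB c M hM hcM
  have h7 := hB.1.pf.h7
  obtain ⟨a0, ha0⟩ : ∃ a, a ∈ M := List.exists_mem_of_ne_nil M hM
  have hct0 : a0.1 ∈ ct M := mem_ct.2 ⟨a0.2, ha0⟩
  have hgd : ∀ j ∈ ct M, gm M ∣ oc j M := fun j hj => Finset.gcd_dvd hj
  have hg1 : 1 ≤ gm M := Nat.pos_of_dvd_of_pos (hgd _ hct0) (oc_pos.2 hct0)
  -- the word T
  obtain ⟨T, hTct, hToc, -⟩ := hNCr.1 (ct M) (fun j => oc j M / gm M) fun j hj =>
    Nat.div_pos (Nat.le_of_dvd (oc_pos.2 hj) (hgd j hj)) hg1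
  have hT0 : T ≠ [] := by
    rintro rfl
    rw [← hTct] at hct0
    simp at hct0
  -- the numbers B
  obtain ⟨B, hB1, hB2⟩ := bez2_Q5 (fun j => oc j M) (ct M) ω (by omega)
  have hB2' : ∑ j ∈ ct M, oc j M * B j ≡ gm M [MOD ω] := hB2
  set e := gm M with he
  -- the substitutions
  set f : ℕ → Wd := fun k => if k = 0 then [c] else T with hfdef
  have hfn : ∀ k, f k ≠ [] := by
    intro k
    by_cases hk : k = 0
    · simp [hfdef, hk]
    · simp [hfdef, hk, hT0]
  set g : ℕ → Wd := fun k => if k = c.1 then (if c.2 then [Y 0] else [X 0]) else pw [X 1] (B k) with hgdef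
  have hgn : ∀ k, g k ≠ [] := by
    intro k
    by_cases hk : k = c.1
    · by_cases h : c.2 <;> simp [hgdef, hk, h]
    · have := pw_ne_nil (w := [X 1]) (by simp) (hB1 k)
      simp [hgdef, hk, this]
  have hgc : sb g [c] = [X 0] := by
    rw [sb_single]
    by_cases h : c.2
    · rw [if_pos h]
      simp [hgdef, h]
    · rw [if_neg h]
      simp [hgdef, h]
  have hgfc : sb g [fl c] = [Y 0] := by
    have : [fl c] = st [c] := rfl
    rw [this, sb_st, hgc]
    rfl
  -- the image of the middle part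
  have hmct : ct (sb g M) = {1} := by
    rw [ct_sb]
    ext k
    simp only [Finset.mem_biUnion, Finset.mem_singleton]
    constructor
    · rintro ⟨i, hi, hk⟩
      have hne : i ≠ c.1 := fun h => hcM (h ▸ hi)
      rw [hgdef] at hk
      simp only [if_neg hne] at hk
      rw [ct_pw _ (hB1 i)] at hk
      simpa using hk
    · rintro rfl
      refine ⟨a0.1, hct0, ?_⟩
      have hne : a0.1 ≠ c.1 := fun h => hcM (h ▸ hct0)
      rw [hgdef]
      simp only [if_neg hne]
      rw [ct_pw _ (hB1 _)]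
      simp
  have hm0 : sb g M ≠ [] := sb_ne_nil g hgn M hM
  have hmoc : oc 1 (sb g M) ≡ e [MOD ω] := by
    rw [oc_sb_Q5 1 g (ct M) M (Finset.Subset.refl _)]
    have h3 : ∑ i ∈ ct M, oc i M * oc 1 (g i) = ∑ i ∈ ct M, oc i M * B i := by
      refine Finset.sum_congr rfl fun i hi => ?_
      have hne : i ≠ c.1 := fun h => hcM (h ▸ hi)
      rw [hgdef]
      simp only [if_neg hne]
      rw [oc_pw, oc_cons]
      simp
    rw [h3]
    exact hB2'
  have hmoc' : ∀ i, i ≠ 1 → oc i (sb g M) = 0 := fun i hi =>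
    oc_eq_zero.2 (by rw [hmct]; simpa using hi)
  have hP0 : pw [X 1] (ω + e) ≠ [] := pw_ne_nil (by simp) (by omega)
  have hPct : ct (pw [X 1] (ω + e)) = {1} := by
    rw [ct_pw _ (by omega : 0 < ω + e)]
    simp
  have hPoc : ∀ i, oc i (pw [X 1] (ω + e)) = if i = 1 then ω + e else 0 := by
    intro i
    rw [oc_pw, oc_cons]
    by_cases h : i = 1
    · subst h; simp
    · have h' : ¬ (1 = i) := fun h'' => h h''.symm
      simp [h, h']
  have hmP : ∀ i, oc i (sb g M) ≡ oc i (pw [X 1] (ω + e)) [MOD ω] := by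
    intro i
    rw [hPoc]
    by_cases h : i = 1
    · subst h
      rw [if_pos rfl]
      have : ω + e ≡ e [MOD ω] := by simp [Nat.ModEq]
      exact hmoc.trans this.symm
    · rw [if_neg h, hmoc' i h]
  -- the word T^(ω+e)
  have hQ0 : pw T (ω + e) ≠ [] := pw_ne_nil hT0 (by omega)
  have hQct : ct (pw T (ω + e)) = ct M := by
    rw [ct_pw _ (by omega : 0 < ω + e), hTct]
  have hQoc : ∀ i, oc i (pw T (ω + e)) ≡ oc i M [MOD ω] := by
    intro i
    rw [oc_pw]
    by_cases hi : i ∈ ct M
    · rw [hToc i hi]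
      have h3 : e * (oc i M / e) = oc i M := Nat.mul_div_cancel' (hgd i hi)
      have h4 : (ω + e) * (oc i M / e) = oc i M + ω * (oc i M / e) := by
        rw [add_mul, h3]; ring
      rw [h4]
      simp [Nat.ModEq]
    · have h3 : oc i T = 0 := oc_eq_zero.2 (by rw [hTct]; exact hi)
      have h4 : oc i M = 0 := oc_eq_zero.2 hi
      rw [h3, h4, mul_zero]
  -- the main equivalence
  have main : ∀ d D : Lt, d.1 = c.1 → D.1 = 0 → sb g [d] = [D] → sb f [D] = [d] →
      (Clp δ ω (c :: M ++ [d]) ↔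
        δ.r ([X 0] ++ pw [X 1] (ω + e) ++ [D]) (pw [X 0] (ω + 2) ++ pw [X 1] (ω + e))) := by
    intro d D hd hD hgd' hfD
    constructor
    · intro H
      have H1 := δ.sub' g hgn H
      have H2 := (hf δ ω hB).2.2.2.2.2 g (c :: M ++ [d]) hgn
      have e1 : sb g (c :: M ++ [d]) = X 0 :: sb g M ++ [D] := by
        have : c :: M ++ [d] = [c] ++ M ++ [d] := rfl
        rw [this, sb_append, sb_append, hgc, hgd']
        rfl
      rw [e1] at H1 H2
      have H3 : δ.r ([X 0] ++ pw [X 1] (ω + e) ++ [D]) (X 0 :: sb g M ++ [D]) :=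
        δ.symm' (mid_Q5 h2 hf hB hm0 hP0 (hmct.trans hPct.symm) hmP (X 0) D)
      have H4 : δ.r (rho ω (X 0 :: sb g M ++ [D])) (rho ω (pw [X 0] (ω + 2) ++ pw [X 1] (ω + e))) := by
        refine rho_Q5 h2 hB ?_ ?_
        · rw [List.cons_append, ct_cons, ct_append, ct_append, hmct, hPct, ct_pw _ (by omega : 0 < ω + 2)]
          ext k
          simp only [hD, Finset.mem_insert, Finset.mem_union, Finset.mem_singleton, ct_cons, ct_nil,
            X_fst, Finset.notMem_empty, or_false]
          tauto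
        · intro i
          rw [List.cons_append, oc_cons, oc_append, oc_append]
          have h3 := hmP i
          have h4 : oc i [D] = if i = 0 then 1 else 0 := by
            rw [oc_cons, hD]
            by_cases h : i = 0
            · subst h; simp
            · have h' : ¬ (0 = i) := fun h'' => h h''.symm
              simp [h, h']
          have h5 : oc i (pw [X 0] (ω + 2)) = if i = 0 then ω + 2 else 0 := by
            rw [oc_pw, oc_cons]
            by_cases h : i = 0
            · subst h; simp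
            · have h' : ¬ (0 = i) := fun h'' => h h''.symm
              simp [h, h']
          rw [h4, h5]
          by_cases h : i = 0
          · subst h
            simp only [X_fst, if_true]
            have h6 : oc 0 (sb g M) = 0 := hmoc' 0 (by norm_num)
            have h7 : oc 0 (pw [X 1] (ω + e)) = 0 := by rw [hPoc]; simp
            rw [h6, h7]
            simp [Nat.ModEq]
          · have h' : ¬ ((X 0).1 = i) := fun h'' => h h''.symm
            rw [if_neg h', if_neg h, if_neg h, zero_add, zero_add, add_zero]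
            exact h3
      exact δ.trans' H3 (δ.trans' H1 (δ.trans' H2 (δ.trans' H4 (δ.symm' (reg_Q5 hf hB (X 0) (by simp) e)))))
    · intro H
      have H1 := δ.sub' f hfn H
      have f0 : sb f [X 0] = [c] := by simp [hfdef]
      have f1 : sb f [X 1] = T := by simp [hfdef]
      rw [sb_append, sb_append, sb_append, sb_pw, sb_pw, f0, f1, hfD] at H1
      have H3 : δ.r (c :: M ++ [d]) ([c] ++ pw T (ω + e) ++ [d]) :=
        δ.symm' (mid_Q5 h2 hf hB hQ0 hM hQct hQoc c d)
      have H4 : δ.r (rho ω (pw [c] (ω + 2) ++ pw T (ω + e))) (rho ω (c :: M ++ [d])) := by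
        refine rho_Q5 h2 hB ?_ ?_
        · rw [List.cons_append, ct_cons, ct_append, ct_append, hQct, ct_pw _ (by omega : 0 < ω + 2)]
          ext k
          simp [hd]
        · intro i
          rw [List.cons_append, oc_cons, oc_append, oc_append]
          have h3 := hQoc i
          have h4 : oc i [d] = if i = c.1 then 1 else 0 := by
            rw [oc_cons, hd]
            by_cases h : i = c.1
            · simp [h]
            · have h' : ¬ (c.1 = i) := fun h'' => h h''.symm
              simp [h, h']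
          have h5 : oc i (pw [c] (ω + 2)) = if i = c.1 then ω + 2 else 0 := by
            rw [oc_pw, oc_cons]
            by_cases h : i = c.1
            · simp [h]
            · have h' : ¬ (c.1 = i) := fun h'' => h h''.symm
              simp [h, h']
          rw [h4, h5]
          by_cases h : i = c.1
          · have h6 : oc i M = 0 := oc_eq_zero.2 (by rw [h]; exact hcM)
            rw [h6] at h3 ⊢
            rw [if_pos h, if_pos h, if_pos h.symm]
            have h8 : ω + 2 ≡ 2 [MOD ω] := by simp [Nat.ModEq]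
            have h9 := h8.add h3
            simpa using h9
          · have h' : ¬ (c.1 = i) := fun h'' => h h''.symm
            rw [if_neg h', if_neg h, if_neg h, zero_add, zero_add, add_zero]
            exact h3
      exact δ.trans' H3 (δ.trans' H1 (δ.trans' (reg_Q5 hf hB c hT0 e) H4))
  have f0 : sb f [X 0] = [c] := by simp [hfdef]
  have f0' : sb f [Y 0] = [fl c] := by simp [hfdef]
  have f1 : sb f [X 1] = T := by simp [hfdef]
  refine ⟨main c (X 0) rfl rfl hgc f0, main (fl c) (Y 0) rfl rfl hgfc f0', ?_⟩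
  constructor
  · intro H
    have H1 := δ.sub' g hgn H
    have e1 : sb g (c :: M ++ [c]) = X 0 :: sb g M ++ [X 0] := by
      have : c :: M ++ [c] = [c] ++ M ++ [c] := rfl
      rw [this, sb_append, sb_append, hgc]
      rfl
    have e2 : sb g (fl c :: M ++ [fl c]) = Y 0 :: sb g M ++ [Y 0] := by
      have : fl c :: M ++ [fl c] = [fl c] ++ M ++ [fl c] := rfl
      rw [this, sb_append, sb_append, hgfc]
      rfl
    rw [e1, e2] at H1
    have H3 := mid_Q5 h2 hf hB hm0 hP0 (hmct.trans hPct.symm) hmP (X 0) (X 0)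
    have H4 := mid_Q5 h2 hf hB hm0 hP0 (hmct.trans hPct.symm) hmP (Y 0) (Y 0)
    exact δ.trans' (δ.symm' H3) (δ.trans' H1 H4)
  · intro H
    have H1 := δ.sub' f hfn H
    rw [sb_append, sb_append, sb_append, sb_append, sb_pw, f0, f0', f1] at H1
    have H3 := mid_Q5 h2 hf hB hQ0 hM hQct hQoc c c
    have H4 := mid_Q5 h2 hf hB hQ0 hM hQct hQoc (fl c) (fl c)
    exact δ.trans' (δ.symm' H3) (δ.trans' H1 H4)

end Helper1.IM
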