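import Pool.Agent.Helper1.IM.NSt2

/-!
# Project IM, module Q5b: divisibility
-/

set_option autoImplicit false

namespace Helper1.IM

private theorem nt_Q5b (e e' m : ℕ) (hm : 1 ≤ m) (h : Nat.gcd e m ∣ e') :
    ∃ t : ℕ, 1 ≤ t ∧ t * e ≡ e' [MOD m] := by
  obtain ⟨c, hc⟩ := h
  have hb := Nat.gcd_eq_gcd_ab e m
  have hm0 : (0 : ℤ) < m := by exact_mod_cast hm
  set A : ℤ := Nat.gcdA e m * c with hA
  have h1 : 0 ≤ A % m := Int.emod_nonneg _ hm0.ne'
  refine ⟨(A % m).toNat + m, by omega, ?_⟩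
  rw [← Int.natCast_modEq_iff]
  push_cast
  rw [Int.toNat_of_nonneg h1]
  have h2 : (e' : ℤ) = e * A + m * (Nat.gcdB e m * c) := by
    rw [hc]
    push_cast
    rw [hb, hA]
    ring
  rw [h2]
  have h3 : A % m = A - m * (A / m) := Int.emod_def A m
  rw [h3]
  apply Int.ModEq.symm
  rw [Int.modEq_iff_dvd]
  refine ⟨(1 - A / m) * e - Nat.gcdB e m * c, ?_⟩
  ring

/-- the substitution `x_1 ↦ x_1^t` -/
private def f_Q5b (t : ℕ) : ℕ → Wd := fun i => if i = 1 then pw [X 1] t else [X i]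

private theorem f_ne_Q5b {t : ℕ} (ht : 1 ≤ t) (i : ℕ) : f_Q5b t i ≠ [] := by
  unfold f_Q5b
  split_ifs
  · exact pw_ne_nil (by simp) ht
  · simp

private theorem f_X_Q5b (t : ℕ) : sb (f_Q5b t) [X 0] = [X 0] := by
  simp [sb_single, X, f_Q5b]

private theorem f_Y_Q5b (t : ℕ) : sb (f_Q5b t) [Y 0] = [Y 0] := by
  simp [sb_single, X, Y, f_Q5b, st, fl]

private theorem f_X1_Q5b (t : ℕ) : sb (f_Q5b t) [X 1] = pw [X 1] t := by
  simp [sb_single, X, f_Q5b]

private theorem key_Q5b (δ : FIC) (t k k' : ℕ) (ht : 1 ≤ t) (P Q P' Q' : Wd)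
    (hP : sb (f_Q5b t) P = P) (hQ : sb (f_Q5b t) Q = Q) (hP' : sb (f_Q5b t) P' = P')
    (hQ' : sb (f_Q5b t) Q' = Q') (hk : δ.r (pw [X 1] (t * k)) (pw [X 1] k'))
    (h : δ.r (P ++ pw [X 1] k ++ Q) (P' ++ pw [X 1] k ++ Q')) :
    δ.r (P ++ pw [X 1] k' ++ Q) (P' ++ pw [X 1] k' ++ Q') := by
  have h1 := δ.sub' (f_Q5b t) (f_ne_Q5b ht) h
  simp only [sb_append, sb_pw, f_X1_Q5b, hP, hQ, hP', hQ', pw_mul] at h1
  exact δ.trans' (δ.mul' P Q (δ.symm' hk)) (δ.trans' h1 (δ.mul' P' Q' hk))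

/-- the substitution `x_0 ↦ x_0 x_1` -/
private def g_Q5b : ℕ → Wd := fun i => if i = 0 then [X 0, X 1] else [X i]

private theorem g_ne_Q5b (i : ℕ) : g_Q5b i ≠ [] := by
  unfold g_Q5b
  split_ifs <;> simp

theorem hQ5b (h1 : StTk1) (h2 : StTk2) (hP : StNPer) (hf : StQF) : StQ5b := by
  intro δ ω m hB hm
  have hBc := hB.1
  have hpf := hBc.pf
  refine ⟨?_, ?_⟩
  · intro e e' hd
    obtain ⟨t, ht, hte⟩ := nt_Q5b e e' m hm.1 hd
    have hmw : m ∣ ω := hP.2.2.1 δ ω m hpf hm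
    have hk : δ.r (pw [X 1] (t * (ω + e))) (pw [X 1] (ω + e')) := by
      apply hP.2.2.2 δ ω m hpf hm [X 1] (by simp)
      · nlinarith
      · omega
      · have e1 : ω ≡ 0 [MOD m] := (Nat.modEq_zero_iff_dvd).2 hmw
        have e2 : t * (ω + e) = t * ω + t * e := by ring
        rw [e2]
        have e3 : t * ω ≡ 0 [MOD m] := (Nat.modEq_zero_iff_dvd).2 (hmw.mul_left t)
        exact (e3.add hte).trans (e1.symm.add_right e')
    refine ⟨?_, ?_, ?_⟩
    · intro h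
      have := key_Q5b δ t (ω + e) (ω + e') ht [X 0] [X 0] (pw [X 0] (ω + 2)) [] (f_X_Q5b t)
        (f_X_Q5b t) (by rw [sb_pw, f_X_Q5b]) rfl hk (by simpa [DPl] using h)
      simpa [DPl] using this
    · intro h
      have := key_Q5b δ t (ω + e) (ω + e') ht [X 0] [Y 0] (pw [X 0] (ω + 2)) [] (f_X_Q5b t)
        (f_Y_Q5b t) (by rw [sb_pw, f_X_Q5b]) rfl hk (by simpa [DMi] using h)
      simpa [DMi] using this
    · intro h
      exact key_Q5b δ t (ω + e) (ω + e') ht [X 0] [X 0] [Y 0] [Y 0] (f_X_Q5b t)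
        (f_X_Q5b t) (f_Y_Q5b t) (f_Y_Q5b t) hk h
  · intro e h
    have h3 := δ.sub' g_Q5b g_ne_Q5b h
    have hg0 : sb g_Q5b [X 0] = [X 0, X 1] := by simp [sb_single, X, g_Q5b]
    have hg1 : sb g_Q5b [X 1] = [X 1] := by simp [sb_single, X, g_Q5b]
    have hgY : sb g_Q5b [Y 0] = [Y 1, Y 0] := by simp [sb_single, X, Y, g_Q5b, st, fl]
    simp only [sb_append, sb_pw, hg0, hg1, hgY] at h3
    -- left side
    have hL : δ.r ([X 0] ++ pw [X 1] (ω + (e + 2)) ++ [Y 0])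
        ([X 0, X 1] ++ pw [X 1] (ω + e) ++ [Y 1, Y 0]) := by
      have h4 := ((h1 δ ω hBc).2.1 [X 1] (by simp) (ω + e + 1) (by omega)).1
      have h5 := δ.mul' [X 0] [Y 0] h4
      have e1 : [X 0] ++ (pw [X 1] (ω + e + 1) ++ st [X 1]) ++ [Y 0] =
          [X 0, X 1] ++ pw [X 1] (ω + e) ++ [Y 1, Y 0] := by
        rw [pw_succ]
        simp [st, fl, X, Y]
      rw [e1] at h5
      exact δ.symm' h5
    -- right side
    obtain ⟨k, hk⟩ : ∃ k, ω + e = k + 1 := ⟨ω + e - 1, by have := hpf.pos; omega⟩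
    set w : Wd := pw [X 0, X 1] (ω + 2) ++ pw [X 1] (ω + e) with hw
    set w2 : Wd := pw [X 0] (ω + 2) ++ pw [X 1] (ω + (e + 2)) with hw2
    have hwr : δ.r w (rho ω w) := by
      have h4 := (hf δ ω hB).2.1 (X 0) (X 1) ([X 1] ++ pw [X 0, X 1] (ω + 1) ++ pw [X 1] k)
        (by simp) (by
          rw [mem_ct]
          refine ⟨false, ?_⟩
          rw [pw_succ]
          simp [X]) (by
          rw [mem_ct]
          refine ⟨false, ?_⟩
          simp [X])
      have e1 : X 0 :: ([X 1] ++ pw [X 0, X 1] (ω + 1) ++ pw [X 1] k) ++ [X 1] = w := by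
        rw [hw, hk, pw_succ' [X 1] k, show ω + 2 = (ω + 1) + 1 from rfl, pw_succ [X 0, X 1] (ω + 1)]
        simp
      rw [e1] at h4
      exact h4
    have hw2r : δ.r w2 (rho ω w2) := by
      have h4 := (hf δ ω hB).2.1 (X 0) (X 1) ([X 0] ++ pw [X 0] ω ++ pw [X 1] (ω + (e + 1)))
        (by simp) (by
          rw [mem_ct]
          refine ⟨false, ?_⟩
          simp [X]) (by
          rw [mem_ct]
          refine ⟨false, ?_⟩
          rw [show ω + (e + 1) = (ω + e) + 1 from rfl, pw_succ]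
          simp [X])
      have e1 : X 0 :: ([X 0] ++ pw [X 0] ω ++ pw [X 1] (ω + (e + 1))) ++ [X 1] = w2 := by
        rw [hw2, show ω + (e + 2) = (ω + (e + 1)) + 1 from rfl, pw_succ' [X 1] (ω + (e + 1)),
          show ω + 2 = (ω + 1) + 1 from rfl, pw_succ [X 0] (ω + 1), pw_succ [X 0] ω]
        simp
      rw [e1] at h4
      exact h4
    have hrr : δ.r (rho ω w) (rho ω w2) := by
      apply (h2 δ ω hBc).2.1 ω hpf.idm
      · rw [hw, hw2, ct_append, ct_append, ct_pw _ (by omega), ct_pw _ (by omega),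
          ct_pw _ (by omega), ct_pw _ (by omega)]
        decide
      · intro i
        rw [hw, hw2, oc_append, oc_append, oc_pw, oc_pw, oc_pw, oc_pw]
        have e1 : oc i [X 0, X 1] = oc i [X 0] + oc i [X 1] := by
          rw [← oc_append]; rfl
        rw [e1]
        have e2 : (ω + 2) * (oc i [X 0] + oc i [X 1]) + (ω + e) * oc i [X 1] =
            ω * oc i [X 1] + ((ω + 2) * oc i [X 0] + (ω + (e + 2)) * oc i [X 1]) := by ring
        rw [e2]
        have e3 : ω * oc i [X 1] ≡ 0 [MOD ω] := (Nat.modEq_zero_iff_dvd).2 (dvd_mul_right _ _)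
        have := e3.add_right ((ω + 2) * oc i [X 0] + (ω + (e + 2)) * oc i [X 1])
        rwa [zero_add] at this
    exact δ.trans' hL (δ.trans' h3 (δ.trans' hwr (δ.trans' hrr (δ.symm' hw2r))))

end Helper1.IM
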