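import Pool.Agent.Helper1.IM.NSt2

/-!
# Project IM (MP_265e56_al), second part, module Q6: primes (helper80)
-/

set_option autoImplicit false

namespace Helper1.IM

theorem hQ6 (hP : StNPer) (h5 : StQ5b) : StQ6 := by
  intro θ δ ω n m hB hn hQ hle hm e _ hne p hp hpn hpe
  apply hne
  have hmn : m ∣ n := hP.2.1 θ δ ω n m hle hn hm
  have hm0 : m ≠ 0 := by have := hm.1; omega
  have h1 : DPl δ ω (p ^ n.factorization p) := hle _ _ (hQ p hp hpn)
  refine ((h5 δ ω m (hB.le hle) hm).1 (p ^ n.factorization p) e ?_).1 h1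
  obtain ⟨j, _, hj⟩ := (Nat.dvd_prime_pow hp).1 (Nat.gcd_dvd_left (p ^ n.factorization p) m)
  rw [hj]
  have h2 : p ^ j ∣ m := by rw [← hj]; exact Nat.gcd_dvd_right _ _
  exact (Nat.pow_dvd_pow p ((hp.pow_dvd_iff_le_factorization hm0).1 h2)).trans hpe

end Helper1.IM
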