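import Pool.Agent.Helper1.IM.NSt2

/-!
# Project IM (MP_265e56_al), second part, module Q7: transfer, type plus
-/

set_option autoImplicit false

namespace Helper1.IM

theorem hQ7 (hP : StNPer) (h5 : StQ5) (h5b : StQ5b) (h6 : StQ6) (ht : StNT) : StQ7 := by
  intro θ α β ω n a b hB hn hQ hα hβ pa pb c M M' hM hc hct hcong hCα hCβ
  have hM' : M' ≠ [] := by
    intro h
    rw [h, ct_nil] at hct
    obtain ⟨e, t, rfl⟩ := List.exists_cons_of_ne_nil hM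
    rw [ct_cons] at hct
    exact Finset.insert_ne_empty _ _ hct
  have hc' : c.1 ∉ ct M' := hct ▸ hc
  have qα := h5 α ω (hB.le hα) c M hM hc
  have qβ := h5 β ω (hB.le hβ) c M hM hc
  have qα' := h5 α ω (hB.le hα) c M' hM' hc'
  have qβ' := h5 β ω (hB.le hβ) c M' hM' hc'
  have d1 : 1 ≤ gm M := ht.2.2 M hM
  have d1' : 1 ≤ gm M' := ht.2.2 M' hM'
  have nα : ¬ DPl α ω (gm M) := fun h => hCα (qα.1.2 h)
  have nβ : ¬ DPl β ω (gm M) := fun h => hCβ (qβ.1.2 h)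
  have han : a ∣ n := hP.2.1 θ α ω n a hα hn pa
  have hbn : b ∣ n := hP.2.1 θ β ω n b hβ hn pb
  have hg := ht.2.1 M M' (Nat.gcd a b) hct hcong
  have hgn : Nat.gcd (gm M) n = Nat.gcd (gm M') n :=
    ht.1 n a b (gm M) (gm M') hn.1 han hbn d1 d1' (fun p hp hpn =>
      ⟨h6 θ α ω n a hB hn hQ hα pa _ d1 nα p hp hpn, h6 θ β ω n b hB hn hQ hβ pb _ d1 nβ p hp hpn⟩) hg
  have key : ∀ δ : FIC, Le θ δ → (DPl δ ω (gm M') → DPl δ ω (gm M)) ∧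
      (DMg δ ω (gm M') ↔ DMg δ ω (gm M)) := by
    intro δ hδ
    obtain ⟨m, pm⟩ := hP.1 δ ω (hB.le hδ).1.pf
    have hmn : m ∣ n := hP.2.1 θ δ ω n m hδ hn pm
    have k1 : Nat.gcd (gm M) m ∣ gm M' :=
      ((Nat.gcd_dvd_gcd_of_dvd_right _ hmn).trans (dvd_of_eq hgn)).trans (Nat.gcd_dvd_left _ _)
    have k2 : Nat.gcd (gm M') m ∣ gm M :=
      ((Nat.gcd_dvd_gcd_of_dvd_right _ hmn).trans (dvd_of_eq hgn.symm)).trans (Nat.gcd_dvd_left _ _)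
    have r1 := (h5b δ ω m (hB.le hδ) pm).1 _ _ k1
    have r2 := (h5b δ ω m (hB.le hδ) pm).1 _ _ k2
    exact ⟨r2.1, r2.2.2, r1.2.2⟩
  refine ⟨fun h => nα ((key α hα).1 (qα'.1.1 h)), fun h => nβ ((key β hβ).1 (qβ'.1.1 h)), fun δ hδ => ?_⟩
  rw [(h5 δ ω (hB.le hδ) c M' hM' hc').2.2, (h5 δ ω (hB.le hδ) c M hM hc).2.2]
  exact (key δ hδ).2

end Helper1.IM
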