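import Pool.Agent.Helper1.IM.NSt2

/-!
# Project IN, module Q8: transfer, type `-`
-/

set_option autoImplicit false

namespace Helper1.IM

private theorem dmi_add_Q8 {δ : FIC} {ω e : ℕ} (h2 : ∀ e, DMi δ ω e → DMi δ ω (e + 2)) (h : DMi δ ω e) (k : ℕ) :
    DMi δ ω (e + 2 * k) := by
  induction k with
  | zero => simpa using h
  | succ k ih =>
    have := h2 _ ih
    rwa [show e + 2 * (k + 1) = e + 2 * k + 2 by ring]

/-- if `gcd e m` is odd then one collapse implies all of them -/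
private theorem dmi_all_Q8 (h5b : StQ5b) {δ : FIC} {ω m e : ℕ} (hB : BQ δ ω) (hm : Per δ ω m) (h : DMi δ ω e)
    (hodd : ¬ 2 ∣ Nat.gcd e m) : ∀ e', DMi δ ω e' := by
  obtain ⟨h1, h2⟩ := h5b δ ω m hB hm
  have hg : DMi δ ω (Nat.gcd e m) := (h1 e _ (dvd_refl _)).2.1 h
  obtain ⟨j, hj⟩ : ∃ j, Nat.gcd e m = 2 * j + 1 := ⟨Nat.gcd e m / 2, by omega⟩
  have hm1 : 1 ≤ m := hm.1
  have h3 := dmi_add_Q8 h2 hg (m * j - j)
  have h4 : Nat.gcd e m + 2 * (m * j - j) = m * (2 * j) + 1 := by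
    have h5 : j ≤ m * j := by nlinarith
    have h6 : 2 * (m * j - j) = 2 * (m * j) - 2 * j := by omega
    have h7 : m * (2 * j) = 2 * (m * j) := by ring
    omega
  rw [h4] at h3
  intro e'
  refine (h1 _ e' ?_).2.1 h3
  have h8 : Nat.gcd (m * (2 * j) + 1) m = 1 := by simp
  rw [h8]
  exact one_dvd _

private theorem gm_dvd_Q8 {M : Wd} {j : ℕ} (hj : j ∈ ct M) : gm M ∣ oc j M := Finset.gcd_dvd hj

theorem hQ8 (hP : StNPer) (h5 : StQ5) (h5b : StQ5b) (_ : StNT) : StQ8 := by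
  intro θ α β ω n a b hB hn hQ hα hβ ha hb c M M' hM hc hct hoc hcα hcβ
  have hBα : BQ α ω := hB.le hα
  have hBβ : BQ β ω := hB.le hβ
  have hM' : M' ≠ [] := by
    rintro rfl
    apply hM
    have h1 : ct M = ∅ := by rw [hct]; rfl
    cases M with
    | nil => rfl
    | cons x t => simp [ct] at h1
  have hc' : c.1 ∉ ct M' := by rw [← hct]; exact hc
  rw [(h5 α ω hBα c M hM hc).2.1] at hcα
  rw [(h5 β ω hBβ c M hM hc).2.1] at hcβ
  rw [(h5 α ω hBα c M' hM' hc').2.1, (h5 β ω hBβ c M' hM' hc').2.1]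
  -- the two situations
  have key : ¬ 2 ∣ n ∨ ¬ 2 ∣ gm M' := by
    by_cases h2n : 2 ∣ n
    · right
      have h0 : DMi θ ω 0 := hQ h2n
      have h0α : DMi α ω 0 := hα _ _ h0
      have h0β : DMi β ω 0 := hβ _ _ h0
      have hevα : ∀ k, DMi α ω (2 * k) := by
        intro k
        have := dmi_add_Q8 (h5b α ω a hBα ha).2 h0α k
        simpa using this
      have hd : ¬ 2 ∣ gm M := by
        rintro ⟨k, hk⟩
        exact hcα (hk ▸ hevα k)
      have ha2 : 2 ∣ a := by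
        by_contra h
        refine hcα (dmi_all_Q8 h5b hBα ha h0α ?_ _)
        simpa using h
      have hb2 : 2 ∣ b := by
        by_contra h
        refine hcβ (dmi_all_Q8 h5b hBβ hb h0β ?_ _)
        simpa using h
      have hj : ∃ j ∈ ct M, ¬ 2 ∣ oc j M := by
        by_contra hcon
        push Not at hcon
        exact hd (Finset.dvd_gcd hcon)
      obtain ⟨j, hj, hj2⟩ := hj
      have h1 := (hoc j).of_dvd (Nat.dvd_gcd ha2 hb2)
      have hj' : j ∈ ct M' := by rw [← hct]; exact hj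
      intro h2
      have h3 : 2 ∣ oc j M' := h2.trans (gm_dvd_Q8 hj')
      unfold Nat.ModEq at h1
      omega
    · exact Or.inl h2n
  have fin : ∀ (δ : FIC) (m : ℕ), BQ δ ω → Le θ δ → Per δ ω m → ¬ DMi δ ω (gm M) → ¬ DMi δ ω (gm M') := by
    intro δ m hBδ hδ hm hd h
    refine hd (dmi_all_Q8 h5b hBδ hm h ?_ _)
    intro h2
    rcases key with h3 | h3
    · exact h3 ((h2.trans (Nat.gcd_dvd_right _ _)).trans (hP.2.1 θ δ ω n m hδ hn hm))
    · exact h3 (h2.trans (Nat.gcd_dvd_left _ _))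
  exact ⟨fin α a hBα hα ha hcα, fin β b hBβ hβ hb hcβ⟩

end Helper1.IM
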