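import Pool.Agent.Helper1.IM.NSt2

/-!
# Project IM, second part: module Q9 (property (IV) in type Q), by helper90
-/

set_option autoImplicit false

namespace Helper1.IM

/-! ## Paths -/

private theorem Jm_trans_Q9 {α β γ : FIC} {u v w : Wd} (h : Jm α β γ u v) (h' : Jm α β γ v w) :
    Jm α β γ u w := Relation.ReflTransGen.trans h h'

private theorem Jm_symm_Q9 {α β γ : FIC} {u v : Wd} (h : Jm α β γ u v) : Jm α β γ v u := by
  unfold Jm at h ⊢
  induction h with
  | refl => exact Relation.ReflTransGen.refl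
  | tail _ h2 ih =>
    refine Relation.ReflTransGen.head ?_ ih
    rcases h2 with h2 | h2
    · exact Or.inl (α.symm' h2)
    · exact Or.inr ⟨β.symm' h2.1, γ.symm' h2.2⟩

private theorem Jm_a_Q9 {α β γ : FIC} {u v : Wd} (h : α.r u v) : Jm α β γ u v :=
  Relation.ReflTransGen.single (Or.inl h)

private theorem Jm_b_Q9 {α β γ : FIC} {u v : Wd} (h : β.r u v) (h' : γ.r u v) : Jm α β γ u v :=
  Relation.ReflTransGen.single (Or.inr ⟨h, h'⟩)

private theorem Jn_symm_Q9 {α β : FIC} {u v : Wd} (h : Jn α β u v) : Jn α β v u := by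
  unfold Jn at h ⊢
  induction h with
  | refl => exact Relation.ReflTransGen.refl
  | tail _ h2 ih =>
    refine Relation.ReflTransGen.head ?_ ih
    rcases h2 with h2 | h2
    · exact Or.inl (α.symm' h2)
    · exact Or.inr (β.symm' h2)

private theorem Jm_two_Q9 {α β γ : FIC} {u v : Wd} (hαγ : Le α γ) (hg : γ.r u v)
    (h : ∃ w, α.r u w ∧ β.r w v) : Jm α β γ u v := by
  obtain ⟨w, h1, h2⟩ := h
  exact Jm_trans_Q9 (Jm_a_Q9 h1) (Jm_b_Q9 h2 (γ.trans' (γ.symm' (hαγ _ _ h1)) hg))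

private theorem rQ_trans_Q9 {u v w : Wd} (h : rQ u v) (h' : rQ v w) : rQ u w :=
  ⟨h.1.trans h'.1, h.2.1.trans h'.2.1, h.2.2.trans h'.2.2⟩

private theorem rQ_path_Q9 {α β : FIC} (ha : Sub α rQ) (hb : Sub β rQ) {u v : Wd}
    (h : Jn α β u v) : rQ u v := by
  unfold Jn at h
  induction h with
  | refl => exact ⟨rfl, rfl, rfl⟩
  | tail _ h2 ih =>
    rcases h2 with h2 | h2
    · exact rQ_trans_Q9 ih (ha _ _ h2)
    · exact rQ_trans_Q9 ih (hb _ _ h2)

/-! ## Collapsed words -/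

private theorem rho_r_Q9 (δ : FIC) (ω : ℕ) {u v : Wd} (h : δ.r u v) :
    δ.r (rho ω u) (rho ω v) :=
  δ.sub' _ (fun _ => pw_ne_nil (by simp) (Nat.succ_pos ω)) h

private theorem Clp_r_Q9 {δ : FIC} {ω : ℕ} {u v : Wd} (h : δ.r u v) (hv : Clp δ ω v) :
    Clp δ ω u :=
  δ.trans' h (δ.trans' hv (δ.symm' (rho_r_Q9 δ ω h)))

private theorem Clp_le_Q9 {δ ε : FIC} (hl : Le δ ε) {ω : ℕ} {u : Wd} (h : Clp δ ω u) :
    Clp ε ω u := hl _ _ h

private theorem rho_rw_Q9 (ω : ℕ) (e : ℕ → Bool) (u : Wd) :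
    rho ω (rw' 1 e u) = rw' 1 e (rho ω u) := by
  unfold rho
  rw [← sb_rn 1 e u, ← sb_rn 1 e, sb_sb, sb_sb]
  apply sb_congr
  intro i _
  rw [sb_pw]
  have h1 : sb (fun i => [((1 : Equiv.Perm ℕ) i, e i)]) [X i] = [(i, e i)] := by
    simp [sb_single, X]
  rw [h1]
  have h2 : ((1 : Equiv.Perm ℕ) i, e i) = (i, e i) := rfl
  rw [h2, sb_single]
  by_cases h : e i = true
  · simp only [h, if_true]
    rw [st_pw]
    rfl
  · have h' : e i = false := by simpa using h
    simp only [h']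
    rfl

private theorem Clp_rw_Q9 {δ : FIC} {ω : ℕ} {u : Wd} (e : ℕ → Bool) (h : Clp δ ω u) :
    Clp δ ω (rw' 1 e u) := by
  unfold Clp
  rw [rho_rw_Q9]
  exact δ.rn 1 e h

private theorem rw_id_Q9 (i : ℕ) (N : Wd) (h : i ∉ ct N) :
    rw' 1 (fun j => decide (j = i)) N = N := by
  induction N with
  | nil => rfl
  | cons a N ih =>
    rw [ct_cons, Finset.mem_insert, not_or] at h
    rw [rw'_cons, ih h.2]
    have h1 : decide (a.1 = i) = false := by
      simp only [decide_eq_false_iff_not]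
      exact fun h2 => h.1 h2.symm
    have h2 : ((1 : Equiv.Perm ℕ) a.1, xor a.2 (decide (a.1 = i))) = a := by
      rw [h1, Bool.xor_false]; rfl
    rw [h2]

private theorem rw_let_Q9 (i : ℕ) (a : Lt) (h : a.1 = i) :
    rw' 1 (fun j => decide (j = i)) [a] = [fl a] := by
  rw [rw'_cons]
  simp only [h, decide_true, Bool.xor_true, rw'_nil]
  unfold fl
  rw [h]
  rfl

/-! ## Lengths -/

private theorem long_Q9 {θ : FIC} {ω : ℕ} (hP : PF θ ω) {x : Wd} (h : R θ ω x) :
    ∃ W, θ.r x W ∧ 7 ≤ W.length := by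
  obtain ⟨_, p, t, q, ht, hr⟩ := h
  refine ⟨_, hr, ?_⟩
  rw [List.length_append, List.length_append, length_pw]
  have h1 : 1 ≤ t.length := List.length_pos_iff.mpr ht
  have h2 : 7 * 1 ≤ ω * t.length := Nat.mul_le_mul hP.h7 h1
  omega

private theorem hd_some_Q9 {W : Wd} {a : Lt} (h : hd W = some a) : oc a.1 W = 1 := by
  cases W with
  | nil => simp [hd] at h
  | cons b t =>
    have h0 : hd (b :: t) = if b.1 ∈ ct t then none else some b := rfl
    rw [h0] at h
    by_cases hb : b.1 ∈ ct t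
    · rw [if_pos hb] at h; exact absurd h (by simp)
    · rw [if_neg hb] at h
      have hba : b = a := by simpa using h
      subst hba
      rw [oc_cons, if_pos rfl, oc_eq_zero.2 hb]

private theorem len_Q9 {x W : Wd} (hx : x ≠ []) (hQ : rQ x W)
    (h : hd x ≠ none ∨ hd (st x) ≠ none) (hW : 7 ≤ W.length) : 3 ≤ x.length := by
  obtain ⟨h1, h2, h3⟩ := hQ
  match x, hx with
  | [a], _ =>
    exfalso
    have h4 : hd [a] = some a := by simp [hd]
    rw [h4] at h2
    have h5 := hd_some_Q9 h2.symm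
    have h6 := length_eq_sum W
    rw [← h1] at h6
    simp only [ct_cons, ct_nil, Finset.sum_insert (Finset.notMem_empty _), Finset.sum_empty,
      add_zero] at h6
    omega
  | [a, b], _ =>
    exfalso
    by_cases hab : a.1 = b.1
    · have h4 : hd [a, b] = none := by simp [hd, hab]
      have h5 : hd (st [a, b]) = none := by simp [hd, st_cons, hab]
      rcases h with h | h
      · exact h h4
      · exact h h5
    · have hba : ¬ b.1 = a.1 := fun h => hab h.symm
      have h4 : hd [a, b] = some a := by simp [hd, hab]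
      have h5 : hd (st [a, b]) = some (fl b) := by simp [hd, st_cons, hba]
      rw [h4] at h2
      rw [h5] at h3
      have h6 := hd_some_Q9 h2.symm
      have h7 := hd_some_Q9 h3.symm
      rw [oc_st, fl_fst] at h7
      have h8 := length_eq_sum W
      rw [← h1] at h8
      have h9 : ct [a, b] = {a.1, b.1} := by simp
      rw [h9, Finset.sum_pair hab] at h8
      omega
  | a :: b :: c :: t, _ => simp

private theorem hd_nil_Q9 {x : Wd} (h : hd x ≠ none) : x ≠ [] := by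
  rintro rfl
  exact h rfl

/-- the form `c M d`, `c.1 = d.1` -/
private def Fm_Q9 (x : Wd) : Prop :=
  ∃ (c d : Lt) (M : Wd), x = c :: M ++ [d] ∧ c.1 = d.1 ∧ c.1 ∉ ct M ∧ M ≠ []

private theorem form_Q9 (hn : StQN) {θ : FIC} {ω n : ℕ} (hB : BQ θ ω) (hP : Per θ ω n)
    (hQ : Sub θ rQ) {x : Wd} (hx : R θ ω x) (h1 : hd x = none) (h2 : hd (st x) = none) :
    Fm_Q9 x ∨ Clp θ ω x := by
  by_cases hl : 3 ≤ x.length
  · exact (hn θ ω n hB hP).2.2 x hl h1 h2
  · right
    obtain ⟨W, hW, hW7⟩ := long_Q9 hB.1.pf hx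
    obtain ⟨q1, q2, q3⟩ := hQ _ _ hW
    match x, hx.1 with
    | [a], _ => simp [hd] at h1
    | [a, b], _ =>
      have hab : a.1 = b.1 := by
        by_contra hab
        rw [show hd [a, b] = some a by simp [hd, hab]] at h1
        exact absurd h1 (by simp)
      rcases (hn θ ω n hB hP).2.2 W (by omega) (q2.symm.trans h1) (q3.symm.trans h2) with
        ⟨c, d, M, hWe, _, hcM, hM⟩ | hWc
      · exfalso
        have h3 : ct W = {b.1} := by rw [← q1]; simp [hab]
        rw [hWe] at h3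
        have h4 : c.1 ∈ ({b.1} : Finset ℕ) := by rw [← h3]; simp
        obtain ⟨m, hm⟩ := List.exists_mem_of_ne_nil M hM
        have h5 : m.1 ∈ ct M := mem_ct.2 ⟨m.2, hm⟩
        have h6 : m.1 ∈ ({b.1} : Finset ℕ) := by
          rw [← h3]
          simp only [ct_append, ct_cons, Finset.mem_union, Finset.mem_insert]
          exact Or.inl (Or.inr h5)
        rw [Finset.mem_singleton] at h4 h6
        rw [h6, ← h4] at h5
        exact hcM h5
      · exact Clp_r_Q9 hW hWc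
    | a :: b :: c :: t, _ => simp at hl

private theorem oc_form_Q9 (c d : Lt) (M : Wd) (hcd : c.1 = d.1) (hc : c.1 ∉ ct M) (j : ℕ) :
    oc j (c :: M ++ [d]) = if j = c.1 then 2 else oc j M := by
  rw [oc_append, oc_cons, oc_cons, oc_nil]
  by_cases h : j = c.1
  · rw [if_pos h, if_pos h.symm, if_pos (hcd ▸ h.symm), h, oc_eq_zero.2 hc]
  · rw [if_neg h, if_neg (fun h' => h h'.symm), if_neg (fun h' => h (h'.symm.trans hcd.symm))]
    omega

theorem hQ9 (h2 : StTk2) (_h3 : StTk3) (hP : StNPer) (hc : StNCr) (hJ : StNJ) (s2 : StS2)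
    (h5 : StS05) (_hf : StQF) (hn : StQN) (q2 : StQ2) (hE : StQE) (ha : StQ9a) (hb : StQ9b) :
    StQ9 := by
  intro θ ω n hB hPer hQp hQm hSub α β γ hα hβ hγ hαγ u v hu hv hjr hg
  have hj : Jn α β u v := by
    unfold JnR at hjr
    unfold Jn
    clear hg hu hv
    induction hjr with
    | refl => exact Relation.ReflTransGen.refl
    | tail _ h2 ih => exact ih.tail h2.2.2
  have hBα := hB.le hα
  have hBβ := hB.le hβ
  have hBγ := hB.le hγ
  obtain ⟨a, hPa⟩ := hP.1 α ω hBα.1.pf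
  obtain ⟨b, hPb⟩ := hP.1 β ω hBβ.1.pf
  have hrho : Jm α β γ (rho ω u) (rho ω v) :=
    s2 θ α β γ ω hB.1 hα hβ hγ hαγ u v hu.1 hj hg
  -- (A)
  by_cases hKα : K1 α ω
  · have e1 : Jm α β γ u (rho ω u) := Jm_a_Q9 (h5 α ω hBα.1.pf hKα u (hu.le hα))
    have e2 : Jm α β γ v (rho ω v) := Jm_a_Q9 (h5 α ω hBα.1.pf hKα v (hv.le hα))
    exact Jm_trans_Q9 e1 (Jm_trans_Q9 hrho (Jm_symm_Q9 e2))
  -- (C)
  by_cases hKC : K1 β ω ∧ K1 γ ω
  · obtain ⟨hKβ, hKγ⟩ := hKC
    have e1 : Jm α β γ u (rho ω u) := Jm_b_Q9 (h5 β ω hBβ.1.pf hKβ u (hu.le hβ))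
      (h5 γ ω hBγ.1.pf hKγ u (hu.le hγ))
    have e2 : Jm α β γ v (rho ω v) := Jm_b_Q9 (h5 β ω hBβ.1.pf hKβ v (hv.le hβ))
      (h5 γ ω hBγ.1.pf hKγ v (hv.le hγ))
    exact Jm_trans_Q9 e1 (Jm_trans_Q9 hrho (Jm_symm_Q9 e2))
  have hSα : Sub α rQ := (q2 α ω hBα).resolve_left hKα
  have hQuv : rQ u v := by
    by_cases hKβ : K1 β ω
    · have hKγ : ¬ K1 γ ω := fun h => hKC ⟨hKβ, h⟩
      exact ((q2 γ ω hBγ).resolve_left hKγ) u v hg
    · exact rQ_path_Q9 hSα ((q2 β ω hBβ).resolve_left hKβ) hj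
  have hmul : ∀ i, oc i u ≡ oc i v [MOD Nat.gcd a b] :=
    hJ θ α β ω a b hB.1 hα hβ hPa hPb u v hj
  -- (I)
  by_cases hI : hd u ≠ none ∨ hd (st u) ≠ none
  · obtain ⟨W, hW, hW7⟩ := long_Q9 hB.1.pf hu
    obtain ⟨W', hW', hW7'⟩ := long_Q9 hB.1.pf hv
    have hlu := len_Q9 hu.1 (hSub _ _ hW) hI hW7
    have hI' : hd v ≠ none ∨ hd (st v) ≠ none := by
      rw [← hQuv.2.1, ← hQuv.2.2]; exact hI
    have hlv := len_Q9 hv.1 (hSub _ _ hW') hI' hW7'
    exact Jm_two_Q9 hαγ hg (hb α β ω a b hBα hBβ hPa hPb u v hlu hlv hQuv hI hmul)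
  -- (II)
  have hI1 : hd u = none := by
    by_contra h; exact hI (Or.inl h)
  have hI2 : hd (st u) = none := by
    by_contra h; exact hI (Or.inr h)
  have hFu := form_Q9 hn hB hPer hSub hu hI1 hI2
  have hFv := form_Q9 hn hB hPer hSub hv (hQuv.2.1.symm.trans hI1) (hQuv.2.2.symm.trans hI2)
  -- (1)
  by_cases h1u : Fm_Q9 u ∧ ¬ Clp α ω u ∧ ¬ Clp β ω u
  · obtain ⟨⟨c, d, M, rfl, hcd, hcM, hM⟩, n1, n2⟩ := h1u
    exact Jm_two_Q9 hαγ hg (ha θ α β ω n hB hPer hQp hQm hα hβ c d M v hM hcM hcd n1 n2 hj)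
  by_cases h1v : Fm_Q9 v ∧ ¬ Clp α ω v ∧ ¬ Clp β ω v
  · obtain ⟨⟨c, d, M, rfl, hcd, hcM, hM⟩, n1, n2⟩ := h1v
    exact Jm_symm_Q9 (Jm_two_Q9 hαγ (γ.symm' hg)
      (ha θ α β ω n hB hPer hQp hQm hα hβ c d M u hM hcM hcd n1 n2 (Jn_symm_Q9 hj)))
  have hcu : Clp α ω u ∨ Clp β ω u := by
    rcases hFu with h | h
    · by_contra hcon
      push Not at hcon
      exact h1u ⟨h, hcon.1, hcon.2⟩
    · exact Or.inl (hα _ _ h)
  have hcv : Clp α ω v ∨ Clp β ω v := by
    rcases hFv with h | h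
    · by_contra hcon
      push Not at hcon
      exact h1v ⟨h, hcon.1, hcon.2⟩
    · exact Or.inl (hα _ _ h)
  by_cases hgu : Clp γ ω u
  · -- (3)
    have hgv : Clp γ ω v := Clp_r_Q9 (γ.symm' hg) hgu
    have e1 : Jm α β γ u (rho ω u) := by
      rcases hcu with h | h
      · exact Jm_a_Q9 h
      · exact Jm_b_Q9 h hgu
    have e2 : Jm α β γ v (rho ω v) := by
      rcases hcv with h | h
      · exact Jm_a_Q9 h
      · exact Jm_b_Q9 h hgv
    exact Jm_trans_Q9 e1 (Jm_trans_Q9 hrho (Jm_symm_Q9 e2))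
  · -- (2)
    have hgv : ¬ Clp γ ω v := fun h => hgu (Clp_r_Q9 hg h)
    have hbv : Clp β ω v := hcv.resolve_left (fun h => hgv (hαγ _ _ h))
    obtain ⟨c, d, M, rfl, hcd, hcM, hM⟩ : Fm_Q9 u := hFu.resolve_right (fun h => hgu (hγ _ _ h))
    have hKγ : ¬ K1 γ ω := fun h => hgu (h5 γ ω hBγ.1.pf h _ (hu.le hγ))
    have hSγ : Sub γ rQ := (q2 γ ω hBγ).resolve_left hKγ
    obtain ⟨c', d', M', rfl, hc'1, hd'1, hcM', hctM, hty, hmi⟩ :=
      (hE γ ω hBγ hSγ c d M v hcd hcM hM hg).resolve_left hgu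
    have hc'd' : c'.1 = d'.1 := hc'1.trans hd'1.symm
    have hc'M' : c'.1 ∉ ct M' := by rw [hc'1]; exact hcM'
    have hM' : M' ≠ [] := by
      rintro rfl
      obtain ⟨m, hm⟩ := List.exists_mem_of_ne_nil M hM
      have h5 : m.1 ∈ ct M := mem_ct.2 ⟨m.2, hm⟩
      rw [← hctM] at h5
      simp at h5
    have hocM : ∀ j, oc j M ≡ oc j M' [MOD Nat.gcd a b] := by
      intro j
      by_cases hjc : j = c.1
      · rw [hjc, oc_eq_zero.2 hcM, oc_eq_zero.2 hcM']
      · have := hmul j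
        rw [oc_form_Q9 c d M hcd hcM, oc_form_Q9 c' d' M' hc'd' hc'M', if_neg hjc,
          if_neg (by rw [hc'1]; exact hjc)] at this
        exact this
    obtain ⟨N, hN1, hN2, _⟩ := hc.2.1 (ct M) a b (fun j => oc j M) (fun j => oc j M') hPa.1 hPb.1
      (fun i _ => hocM i)
    have hNa : ∀ i, oc i M ≡ oc i N [MOD a] := by
      intro i
      by_cases hi : i ∈ ct M
      · exact (hN2 i hi).2.1.symm
      · rw [oc_eq_zero.2 hi, oc_eq_zero.2 (hN1 ▸ hi)]
    have hNb : ∀ i, oc i N ≡ oc i M' [MOD b] := by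
      intro i
      by_cases hi : i ∈ ct M
      · exact (hN2 i hi).2.2
      · rw [oc_eq_zero.2 (hctM ▸ hi : i ∉ ct M'), oc_eq_zero.2 (hN1 ▸ hi : i ∉ ct N)]
    have hNne : N ≠ [] := by
      rintro rfl
      obtain ⟨m, hm⟩ := List.exists_mem_of_ne_nil M hM
      have h5 : m.1 ∈ ct M := mem_ct.2 ⟨m.2, hm⟩
      rw [← hN1] at h5
      simp at h5
    have hcN : c.1 ∉ ct N := by rw [hN1]; exact hcM
    have huw : α.r (c :: M ++ [d]) (c :: N ++ [d]) :=
      (hn α ω a hBα hPa).2.1 c d M N hM hN1.symm hNa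
    have hNM' : ct N = ct M' := by rw [hN1, hctM]
    have hvw : β.r (c' :: N ++ [d']) (c' :: M' ++ [d']) :=
      (hn β ω b hBβ hPb).2.1 c' d' N M' hNne hNM' hNb
    have hcl : Clp β ω (c' :: N ++ [d']) := Clp_r_Q9 hvw hbv
    have hclw : Clp β ω (c :: N ++ [d]) := by
      by_cases hsg : c'.2 = c.2
      · have e1 : c' = c := Prod.ext hc'1 hsg
        have e2 : d' = d := by
          refine Prod.ext (hd'1.trans hcd) ?_
          by_cases hs : c.2 = d.2
          · have := hty.2 hs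
            rw [← this, hsg, hs]
          · have h6 : ¬ c'.2 = d'.2 := fun h => hs (hty.1 h)
            rw [hsg] at h6
            revert h6 hs
            cases c.2 <;> cases d.2 <;> cases d'.2 <;> simp
        rw [e1, e2] at hcl
        exact hcl
      · have hs : c.2 = d.2 := by
          by_contra hs
          exact hsg (by rw [hmi hs])
        have hs' : c'.2 = d'.2 := hty.2 hs
        have h7 := Clp_rw_Q9 (fun j => decide (j = c.1)) hcl
        have h8 : rw' 1 (fun j => decide (j = c.1)) (c' :: N ++ [d']) = c :: N ++ [d] := by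
          have h9 : c' :: N ++ [d'] = [c'] ++ N ++ [d'] := rfl
          rw [h9, rw'_append, rw'_append, rw_id_Q9 _ _ hcN, rw_let_Q9 _ _ hc'1,
            rw_let_Q9 _ _ hd'1]
          have e1 : fl c' = c := by
            refine Prod.ext hc'1 ?_
            show (!c'.2) = c.2
            revert hsg
            cases c'.2 <;> cases c.2 <;> simp
          have e2 : fl d' = d := by
            refine Prod.ext (hd'1.trans hcd) ?_
            show (!d'.2) = d.2
            rw [← hs', ← hs]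
            revert hsg
            cases c'.2 <;> cases c.2 <;> simp
          rw [e1, e2]
          rfl
        rw [h8] at h7
        exact h7
    have hrr : β.r (rho ω (c :: N ++ [d])) (rho ω (c' :: M' ++ [d'])) := by
      refine (h2 β ω hBβ.1).2.1 b ((hPb.2 b).2 dvd_rfl) _ _ ?_ ?_
      · simp only [ct_append, ct_cons, ct_nil, hNM', hc'1, hd'1, hcd]
      · intro i
        rw [oc_form_Q9 c d N hcd hcN, oc_form_Q9 c' d' M' hc'd' hc'M', hc'1]
        by_cases hi : i = c.1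
        · rw [if_pos hi, if_pos hi]
        · rw [if_neg hi, if_neg hi]; exact hNb i
    have hwv : β.r (c :: N ++ [d]) (c' :: M' ++ [d']) :=
      β.trans' hclw (β.trans' hrr (β.symm' hbv))
    exact Jm_two_Q9 hαγ hg ⟨_, huw, hwv⟩

end Helper1.IM
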