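import Pool.Agent.Helper1.IM.NSt2

/-!
# Project IM: uncollapsed words in type Q
-/

set_option autoImplicit false

namespace Helper1.IM

private theorem fst_eq_Q9a {a b : Lt} (h : a.1 = b.1) : a = b ∨ a = fl b := by
  rcases a with ⟨i, x⟩
  rcases b with ⟨j, y⟩
  simp only at h
  subst h
  cases x <;> cases y <;> simp [fl]

private theorem sg_id_Q9a {i : ℕ} {w : Wd} (h : i ∉ ct w) :
    rw' 1 (fun j => decide (j = i)) w = w := by
  induction w with
  | nil => rfl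
  | cons a u ih =>
    rw [ct_cons, Finset.mem_insert, not_or] at h
    have h2 : decide (a.1 = i) = false := decide_eq_false (Ne.symm h.1)
    rw [rw'_cons, ih h.2]
    simp [h2]

private theorem sg_letter_Q9a (a : Lt) (i : ℕ) (h : a.1 = i) :
    rw' 1 (fun j => decide (j = i)) [a] = [fl a] := by
  subst h
  simp [rw', fl]

private theorem sg_word_Q9a {i : ℕ} (c d : Lt) (M : Wd) (hc : c.1 = i) (hd : d.1 = i) (h : i ∉ ct M) :
    rw' 1 (fun j => decide (j = i)) (c :: M ++ [d]) = fl c :: M ++ [fl d] := by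
  have e1 : c :: M ++ [d] = [c] ++ M ++ [d] := rfl
  have e2 : fl c :: M ++ [fl d] = [fl c] ++ M ++ [fl d] := rfl
  rw [e1, e2, rw'_append, rw'_append, sg_id_Q9a h, sg_letter_Q9a c i hc, sg_letter_Q9a d i hd]

private theorem rho_rw_Q9a (ω : ℕ) (e : ℕ → Bool) (w : Wd) :
    rho ω (rw' 1 e w) = rw' 1 e (rho ω w) := by
  unfold rho
  rw [← sb_rn, ← sb_rn, sb_sb, sb_sb]
  apply sb_congr
  intro i _
  rw [sb_pw]
  simp only [sb_single, X, Equiv.Perm.one_apply, Bool.false_eq_true, if_false]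
  by_cases h : e i = true
  · rw [h]
    simp only [if_true]
    rw [st_pw]
    rfl
  · have h' : e i = false := by simpa using h
    rw [h']
    simp

private theorem clp_sg_Q9a {δ : FIC} {ω i : ℕ} {w : Wd} (h : Clp δ ω w) :
    Clp δ ω (rw' 1 (fun j => decide (j = i)) w) := by
  unfold Clp at h ⊢
  rw [rho_rw_Q9a]
  exact δ.rn _ _ h

/-- Clp does not depend on the signs of the outer letters, as long as both are changed. -/
private theorem clp_fl_Q9a {δ : FIC} {ω : ℕ} {c d : Lt} {M : Wd} (hcd : d.1 = c.1) (h : c.1 ∉ ct M)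
    (hc : Clp δ ω (fl c :: M ++ [fl d])) : Clp δ ω (c :: M ++ [d]) := by
  have h1 := clp_sg_Q9a (i := c.1) hc
  rw [sg_word_Q9a (i := c.1) (fl c) (fl d) M rfl hcd h, fl_fl, fl_fl] at h1
  exact h1

private theorem oc_word_Q9a (j : ℕ) (c d : Lt) (M : Wd) :
    oc j (c :: M ++ [d]) = ((if c.1 = j then 1 else 0) + (if d.1 = j then 1 else 0)) + oc j M := by
  have e1 : c :: M ++ [d] = [c] ++ M ++ [d] := rfl
  rw [e1, oc_append, oc_append, oc_cons, oc_cons, oc_nil]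
  ring

private theorem mod_word_Q9a {j m : ℕ} {c d e f : Lt} {M N : Wd} (h1 : e.1 = c.1) (h2 : f.1 = d.1)
    (h : oc j (c :: M ++ [d]) ≡ oc j (e :: N ++ [f]) [MOD m]) : oc j M ≡ oc j N [MOD m] := by
  rw [oc_word_Q9a, oc_word_Q9a, h1, h2] at h
  exact Nat.ModEq.add_left_cancel' _ h

private theorem ct_ne_Q9a {M N : Wd} (h : ct N = ct M) (hM : M ≠ []) : N ≠ [] := by
  rintro rfl
  rcases M with _ | ⟨x, t⟩
  · exact hM rfl
  · rw [ct_nil, ct_cons] at h
    have h2 : x.1 ∈ (∅ : Finset ℕ) := by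
      rw [h]
      exact Finset.mem_insert_self _ _
    simp at h2

/-- One step, type `+`. -/
private theorem plus_Q9a (h3 : StTk3) (hn : StQN) (hE : StQE) {δ : FIC} {ω m : ℕ} (hB : BQ δ ω)
    (hm : Per δ ω m) (hs : Sub δ rQ) {c : Lt} {M1 : Wd} (hM : M1 ≠ []) (hc : c.1 ∉ ct M1)
    (hnc : ¬ Clp δ ω (c :: M1 ++ [c])) {e : Lt} (he : e = c ∨ e = fl c) {w2 : Wd}
    (hr : δ.r (e :: M1 ++ [e]) w2) :
    ∃ (e2 : Lt) (M2 : Wd), w2 = e2 :: M2 ++ [e2] ∧ (e2 = c ∨ e2 = fl c) ∧ ct M2 = ct M1 ∧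
      (∀ j, oc j M1 ≡ oc j M2 [MOD m]) ∧ (e2 = e ∨ δ.r (c :: M1 ++ [c]) (fl c :: M1 ++ [fl c])) := by
  have he1 : e.1 = c.1 := by
    rcases he with rfl | rfl
    · rfl
    · rfl
  have hnc' : ¬ Clp δ ω (e :: M1 ++ [e]) := by
    rcases he with rfl | rfl
    · exact hnc
    · exact fun h => hnc (clp_fl_Q9a rfl hc h)
  rcases hE δ ω hB hs e e M1 w2 rfl (he1 ▸ hc) hM hr with h | ⟨c', d', M2, hw, k1, k2, k3, k4, k5, k6⟩
  · exact absurd h hnc'
  · have hcd : d' = c' := by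
      apply Prod.ext
      · rw [k1, k2]
      · exact (k5.2 rfl).symm
    subst hcd
    have hmul : ∀ j, oc j M1 ≡ oc j M2 [MOD m] := by
      intro j
      have h4 := (h3 δ ω hB.1 _ _ hr).1 m hm j
      rw [hw] at h4
      exact mod_word_Q9a k1 k1 h4
    refine ⟨d', M2, hw, ?_, k4, hmul, ?_⟩
    · exact fst_eq_Q9a (k1.trans he1)
    · rcases fst_eq_Q9a k1 with h | h
      · exact Or.inl h
      · right
        subst h
        rw [hw] at hr
        have hq := (hn δ ω m hB hm).2.1 (fl e) (fl e) M2 M1 (ct_ne_Q9a k4 hM) k4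
          (fun i => (hmul i).symm)
        have hz : δ.r (e :: M1 ++ [e]) (fl e :: M1 ++ [fl e]) := δ.trans' hr hq
        rcases he with rfl | rfl
        · exact hz
        · rw [fl_fl] at hz
          exact δ.symm' hz

/-- One step, type `-`. -/
private theorem minus_Q9a (h3 : StTk3) (hE : StQE) {δ : FIC} {ω m : ℕ} (hB : BQ δ ω)
    (hm : Per δ ω m) (hs : Sub δ rQ) {c : Lt} {M1 : Wd} (hM : M1 ≠ []) (hc : c.1 ∉ ct M1)
    (hnc : ¬ Clp δ ω (c :: M1 ++ [fl c])) {w2 : Wd} (hr : δ.r (c :: M1 ++ [fl c]) w2) :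
    ∃ (M2 : Wd), w2 = c :: M2 ++ [fl c] ∧ ct M2 = ct M1 ∧ (∀ j, oc j M1 ≡ oc j M2 [MOD m]) := by
  rcases hE δ ω hB hs c (fl c) M1 w2 rfl hc hM hr with h | ⟨c', d', M2, hw, k1, k2, k3, k4, k5, k6⟩
  · exact absurd h hnc
  · have hne : c.2 ≠ (fl c).2 := by
      simp [fl]
    have hc' : c' = c := k6 hne
    subst hc'
    have hd' : d' = fl c' := by
      rcases fst_eq_Q9a k2 with h | h
      · exact absurd (k5.1 (by rw [h])) hne
      · exact h
    subst hd'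
    refine ⟨M2, hw, k4, ?_⟩
    intro j
    have h4 := (h3 δ ω hB.1 _ _ hr).1 m hm j
    rw [hw] at h4
    exact mod_word_Q9a rfl rfl h4

private theorem sub_Q9a (h5 : StS05) (hf : StQF) (q2 : StQ2) {δ : FIC} {ω : ℕ} (hB : BQ δ ω)
    {c d : Lt} {M : Wd} (hM : M ≠ []) (hnc : ¬ Clp δ ω (c :: M ++ [d])) : Sub δ rQ := by
  rcases q2 δ ω hB with h | h
  · exfalso
    apply hnc
    refine h5 δ ω hB.1.pf h _ ((hf δ ω hB).2.2.2.2.1 _ ?_)
    have := List.length_pos_iff.2 hM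
    simp
    omega
  · exact h

theorem hQ9a (h3 : StTk3) (hP : StNPer) (hc : StNCr) (h5 : StS05) (hf : StQF) (hn : StQN)
    (q2 : StQ2) (hE : StQE) (h7 : StQ7) (h8 : StQ8) : StQ9a := by
  intro θ α β ω n hB hn' hQp hQm hα hβ c d M v hM hcM hcd hnα hnβ hJ
  have hBα : BQ α ω := hB.le hα
  have hBβ : BQ β ω := hB.le hβ
  obtain ⟨a, ha⟩ := hP.1 α ω hBα.1.pf
  obtain ⟨b, hb⟩ := hP.1 β ω hBβ.1.pf
  have hSα : Sub α rQ := sub_Q9a h5 hf q2 hBα hM hnα
  have hSβ : Sub β rQ := sub_Q9a h5 hf q2 hBβ hM hnβ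
  set g := Nat.gcd a b with hg
  -- the word `N`
  have hN : ∀ M' : Wd, ct M' = ct M → (∀ j, oc j M ≡ oc j M' [MOD g]) →
      ∃ N : Wd, ct N = ct M ∧ (∀ j, oc j N ≡ oc j M [MOD a]) ∧ (∀ j, oc j N ≡ oc j M' [MOD b]) := by
    intro M' hct hmod
    obtain ⟨N, hN1, hN2, -⟩ := hc.2.1 (ct M) a b (fun j => oc j M) (fun j => oc j M') ha.1 hb.1
      (fun i _ => hmod i)
    refine ⟨N, hN1, fun j => ?_, fun j => ?_⟩
    · by_cases hj : j ∈ ct M
      · exact (hN2 j hj).2.1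
      · rw [oc_eq_zero.2 hj, oc_eq_zero.2 (by rw [hN1]; exact hj)]
    · by_cases hj : j ∈ ct M
      · exact (hN2 j hj).2.2
      · rw [oc_eq_zero.2 (show j ∉ ct M' by rw [hct]; exact hj),
          oc_eq_zero.2 (by rw [hN1]; exact hj)]
  -- same outer letters
  have hsame : ∀ (e f : Lt) (M' : Wd), ct M' = ct M → (∀ j, oc j M ≡ oc j M' [MOD g]) →
      ∃ N : Wd, ct N = ct M ∧ (∀ j, oc j N ≡ oc j M [MOD a]) ∧
        α.r (e :: M ++ [f]) (e :: N ++ [f]) ∧ β.r (e :: N ++ [f]) (e :: M' ++ [f]) := by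
    intro e f M' hct hmod
    obtain ⟨N, hN1, hN2, hN3⟩ := hN M' hct hmod
    refine ⟨N, hN1, hN2, ?_, ?_⟩
    · exact (hn α ω a hBα ha).2.1 e f M N hM hN1.symm (fun i => (hN2 i).symm)
    · exact (hn β ω b hBβ hb).2.1 e f N M' (ct_ne_Q9a hN1 hM) (hN1.trans hct.symm) hN3
  rcases fst_eq_Q9a hcd.symm with rfl | rfl
  · -- type +
    have key : ∀ M' : Wd, ct M' = ct M → (∀ j, oc j M ≡ oc j M' [MOD g]) →
        ¬ Clp α ω (d :: M' ++ [d]) ∧ ¬ Clp β ω (d :: M' ++ [d]) ∧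
        ∀ δ : FIC, Le θ δ → (δ.r (d :: M' ++ [d]) (fl d :: M' ++ [fl d]) ↔
          δ.r (d :: M ++ [d]) (fl d :: M ++ [fl d])) := fun M' hct hmod =>
      h7 θ α β ω n a b hB hn' hQp hα hβ ha hb d M M' hM hcM hct.symm hmod hnα hnβ
    have hinv : ∃ (e : Lt) (M' : Wd), v = e :: M' ++ [e] ∧ (e = d ∨ e = fl d) ∧ ct M' = ct M ∧
        (∀ j, oc j M ≡ oc j M' [MOD g]) ∧ (e = d ∨ α.r (d :: M ++ [d]) (fl d :: M ++ [fl d]) ∨
          β.r (d :: M ++ [d]) (fl d :: M ++ [fl d])) := by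
      induction hJ with
      | refl => exact ⟨d, M, rfl, Or.inl rfl, rfl, fun _ => rfl, Or.inl rfl⟩
      | tail _ hstep ih =>
        obtain ⟨e, M1, rfl, he, hct, hmod, hal⟩ := ih
        obtain ⟨n1, n2, n3⟩ := key M1 hct hmod
        have hM1 := ct_ne_Q9a hct hM
        have hcM1 : d.1 ∉ ct M1 := by rw [hct]; exact hcM
        rcases hstep with hs | hs
        · obtain ⟨e2, M2, hw, he2, hct2, hmod2, hal2⟩ :=
            plus_Q9a h3 hn hE hBα ha hSα hM1 hcM1 n1 he hs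
          refine ⟨e2, M2, hw, he2, hct2.trans hct, fun j => (hmod j).trans
            ((hmod2 j).of_dvd (Nat.gcd_dvd_left a b)), ?_⟩
          rcases hal2 with h | h
          · rw [h]; exact hal
          · exact Or.inr (Or.inl ((n3 α hα).1 h))
        · obtain ⟨e2, M2, hw, he2, hct2, hmod2, hal2⟩ :=
            plus_Q9a h3 hn hE hBβ hb hSβ hM1 hcM1 n2 he hs
          refine ⟨e2, M2, hw, he2, hct2.trans hct, fun j => (hmod j).trans
            ((hmod2 j).of_dvd (Nat.gcd_dvd_right a b)), ?_⟩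
          rcases hal2 with h | h
          · rw [h]; exact hal
          · exact Or.inr (Or.inr ((n3 β hβ).1 h))
    obtain ⟨e, M', rfl, he, hct, hmod, hal⟩ := hinv
    rcases he with rfl | rfl
    · obtain ⟨N, -, -, p1, p2⟩ := hsame e e M' hct hmod
      exact ⟨_, p1, p2⟩
    · rcases hal with h | h | h
      · obtain ⟨N, -, -, p1, p2⟩ := hsame d d M' hct hmod
        rw [h]
        exact ⟨_, p1, p2⟩
      · obtain ⟨N, -, -, p1, p2⟩ := hsame (fl d) (fl d) M' hct hmod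
        exact ⟨_, α.trans' h p1, p2⟩
      · obtain ⟨N2, t1, t2, t3⟩ := hN M' hct hmod
        refine ⟨d :: N2 ++ [d], (hn α ω a hBα ha).2.1 d d M N2 hM t1.symm
          (fun i => (t2 i).symm), ?_⟩
        have h9 := ((key N2 t1 (fun j => (t2 j).symm.of_dvd (Nat.gcd_dvd_left a b))).2.2 β hβ).2 h
        refine β.trans' h9 ?_
        exact (hn β ω b hBβ hb).2.1 (fl d) (fl d) N2 M' (ct_ne_Q9a t1 hM) (t1.trans hct.symm) t3
  · -- type -
    have key : ∀ M' : Wd, ct M' = ct M → (∀ j, oc j M ≡ oc j M' [MOD g]) →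
        ¬ Clp α ω (c :: M' ++ [fl c]) ∧ ¬ Clp β ω (c :: M' ++ [fl c]) := fun M' hct hmod =>
      h8 θ α β ω n a b hB hn' hQm hα hβ ha hb c M M' hM hcM hct.symm hmod hnα hnβ
    have hinv : ∃ (M' : Wd), v = c :: M' ++ [fl c] ∧ ct M' = ct M ∧
        (∀ j, oc j M ≡ oc j M' [MOD g]) := by
      induction hJ with
      | refl => exact ⟨M, rfl, rfl, fun _ => rfl⟩
      | tail _ hstep ih =>
        obtain ⟨M1, rfl, hct, hmod⟩ := ih
        obtain ⟨n1, n2⟩ := key M1 hct hmod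
        have hM1 := ct_ne_Q9a hct hM
        have hcM1 : c.1 ∉ ct M1 := by rw [hct]; exact hcM
        rcases hstep with hs | hs
        · obtain ⟨M2, hw, hct2, hmod2⟩ := minus_Q9a h3 hE hBα ha hSα hM1 hcM1 n1 hs
          exact ⟨M2, hw, hct2.trans hct, fun j => (hmod j).trans
            ((hmod2 j).of_dvd (Nat.gcd_dvd_left a b))⟩
        · obtain ⟨M2, hw, hct2, hmod2⟩ := minus_Q9a h3 hE hBβ hb hSβ hM1 hcM1 n2 hs
          exact ⟨M2, hw, hct2.trans hct, fun j => (hmod j).trans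
            ((hmod2 j).of_dvd (Nat.gcd_dvd_right a b))⟩
    obtain ⟨M', rfl, hct, hmod⟩ := hinv
    obtain ⟨N, -, -, p1, p2⟩ := hsame c (fl c) M' hct hmod
    exact ⟨_, p1, p2⟩

end Helper1.IM
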