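import Pool.Agent.Helper1.IM.NSt2

/-!
# Project IM (MP_265e56_al), second part, module Q9b: single end letters (helper80)
-/

set_option autoImplicit false

namespace Helper1.IM

private theorem hd_eq_Q9b (a : Lt) (t : Wd) : hd (a :: t) = if a.1 ∈ ct t then none else some a := rfl

private theorem hd_some_Q9b {w : Wd} {c : Lt} (h : hd w = some c) : ∃ t, w = c :: t ∧ c.1 ∉ ct t := by
  cases w with
  | nil => simp [hd] at h
  | cons a t =>
    rw [hd_eq_Q9b] at h
    split_ifs at h with h1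
    rw [Option.some.injEq] at h
    subst h
    exact ⟨t, rfl, h1⟩

private theorem oc_hd_Q9b {w : Wd} {c : Lt} (h : hd w = some c) : oc c.1 w = 1 := by
  obtain ⟨t, rfl, ht⟩ := hd_some_Q9b h
  rw [oc_cons, if_pos rfl, oc_eq_zero.2 ht]

private theorem oc_st_hd_Q9b {w : Wd} {c : Lt} (h : hd (st w) = some c) : oc c.1 w = 1 := by
  have := oc_hd_Q9b h
  rwa [oc_st] at this

private theorem hd_cons_Q9b (c : Lt) (t : Wd) (h : c.1 ∉ ct t) : hd (c :: t) = some c := by
  rw [hd_eq_Q9b, if_neg h]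

private theorem hd_none_Q9b (N T : Wd) (hN : N ≠ []) (h : ∀ i ∈ ct N, 2 ≤ oc i N) : hd (N ++ T) = none := by
  obtain ⟨a, t, rfl⟩ := List.exists_cons_of_ne_nil hN
  have h1 := h a.1 (by simp)
  rw [oc_cons, if_pos rfl] at h1
  have h2 : a.1 ∈ ct t := oc_pos.1 (by omega)
  rw [List.cons_append, hd_eq_Q9b, if_pos (by rw [ct_append]; exact Finset.mem_union_left _ h2)]

/-- First and last letters which occur only once are different (for words of length at least two). -/
private theorem ne_Q9b {u : Wd} (hl : 2 ≤ u.length) {c d : Lt} (h1 : hd u = some c) (h2 : hd (st u) = some d) :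
    c.1 ≠ d.1 := by
  obtain ⟨t, rfl, ht⟩ := hd_some_Q9b h1
  obtain ⟨t', ht', hd'⟩ := hd_some_Q9b h2
  have h3 : c :: t = st t' ++ [fl d] := by
    have := congrArg st ht'
    rw [st_st, st_cons] at this
    exact this
  intro hcd
  cases hs : st t' with
  | nil =>
    rw [hs] at h3
    have := congrArg List.length h3
    simp at this
    subst this
    simp at hl
  | cons b r =>
    rw [hs, List.cons_append] at h3
    obtain ⟨rfl, rfl⟩ := List.cons_eq_cons.1 h3
    apply ht
    rw [ct_append, Finset.mem_union]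
    right
    rw [hcd]
    simp

theorem hQ9b (_hP : StNPer) (hc : StNCr) (hn : StQN) : StQ9b := by
  intro α β ω a b hA hB ha hb u v hu hv hr hor hmod
  obtain ⟨r1, r2, r3⟩ := hr
  -- the end letters
  obtain ⟨P, hPc⟩ : ∃ P : Wd, (P = [] ∧ hd u = none) ∨ ∃ c, P = [c] ∧ hd u = some c := by
    cases h : hd u with
    | none => exact ⟨[], Or.inl ⟨rfl, rfl⟩⟩
    | some c => exact ⟨[c], Or.inr ⟨c, rfl, rfl⟩⟩
  obtain ⟨S, hSc⟩ : ∃ S : Wd, (S = [] ∧ hd (st u) = none) ∨ ∃ d, S = [fl d] ∧ hd (st u) = some d := by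
    cases h : hd (st u) with
    | none => exact ⟨[], Or.inl ⟨rfl, rfl⟩⟩
    | some d => exact ⟨[fl d], Or.inr ⟨d, rfl, rfl⟩⟩
  have p1 : ∀ i ∈ ct P, oc i u = 1 ∧ oc i v = 1 ∧ oc i P = 1 := by
    intro i hi
    rcases hPc with ⟨rfl, _⟩ | ⟨c, rfl, h⟩
    · simp at hi
    · have : i = c.1 := by simpa using hi
      subst this
      exact ⟨oc_hd_Q9b h, oc_hd_Q9b (r2 ▸ h), by simp [oc_cons]⟩
  have s1 : ∀ i ∈ ct S, oc i u = 1 ∧ oc i v = 1 ∧ oc i S = 1 := by
    intro i hi
    rcases hSc with ⟨rfl, _⟩ | ⟨c, rfl, h⟩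
    · simp at hi
    · have : i = c.1 := by simpa using hi
      subst this
      exact ⟨oc_st_hd_Q9b h, oc_st_hd_Q9b (r3 ▸ h), by simp [oc_cons]⟩
  have hdis : ∀ i ∈ ct P, i ∉ ct S := by
    intro i hi hi'
    rcases hPc with ⟨rfl, _⟩ | ⟨c, rfl, h⟩
    · simp at hi
    rcases hSc with ⟨rfl, _⟩ | ⟨d, rfl, h'⟩
    · simp at hi'
    have e1 : i = c.1 := by simpa using hi
    have e2 : i = d.1 := by simpa using hi'
    exact ne_Q9b (by omega) h h' (e1.symm.trans e2)
  have hPu : ct P ⊆ ct u := fun i hi => oc_pos.1 (by rw [(p1 i hi).1]; norm_num)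
  have hSu : ct S ⊆ ct u := fun i hi => oc_pos.1 (by rw [(s1 i hi).1]; norm_num)
  have hPl : (ct P).card ≤ 1 := by
    rcases hPc with ⟨rfl, _⟩ | ⟨c, rfl, h⟩ <;> simp
  have hSl : (ct S).card ≤ 1 := by
    rcases hSc with ⟨rfl, _⟩ | ⟨c, rfl, h⟩ <;> simp
  set s : Finset ℕ := ct u \ (ct P ∪ ct S) with hs
  have hsne : s.Nonempty := by
    by_contra hcon
    rw [Finset.not_nonempty_iff_eq_empty, hs, Finset.sdiff_eq_empty_iff_subset] at hcon
    have h1 : ∀ i ∈ ct u, oc i u = 1 := by
      intro i hi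
      rcases Finset.mem_union.1 (hcon hi) with h | h
      · exact (p1 i h).1
      · exact (s1 i h).1
    have h2 : u.length = (ct u).card := by
      rw [length_eq_sum, Finset.sum_congr rfl h1]; simp
    have h3 : (ct u).card ≤ (ct P).card + (ct S).card :=
      (Finset.card_le_card hcon).trans (Finset.card_union_le _ _)
    omega
  obtain ⟨N, n1, n2, _⟩ := hc.2.1 s a b (fun i => oc i u) (fun i => oc i v) ha.1 hb.1
    (fun i _ => hmod i)
  have hNne : N ≠ [] := by
    intro h
    rw [h, ct_nil] at n1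
    exact hsne.ne_empty n1.symm
  have hN2 : ∀ i ∈ ct N, 2 ≤ oc i N := fun i hi => (n2 i (n1 ▸ hi)).1
  have hNP : ∀ i ∈ ct P, i ∉ ct N := by
    intro i hi hi'
    rw [n1, hs, Finset.mem_sdiff] at hi'
    exact hi'.2 (Finset.mem_union_left _ hi)
  have hNS : ∀ i ∈ ct S, i ∉ ct N := by
    intro i hi hi'
    rw [n1, hs, Finset.mem_sdiff] at hi'
    exact hi'.2 (Finset.mem_union_right _ hi)
  obtain ⟨w, hw⟩ : ∃ w : Wd, w = P ++ (N ++ S) := ⟨_, rfl⟩
  have w1 : hd w = hd u := by
    rcases hPc with ⟨rfl, h⟩ | ⟨c, rfl, h⟩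
    · rw [h, hw, List.nil_append]
      exact hd_none_Q9b N S hNne hN2
    · rw [h, hw, List.singleton_append]
      apply hd_cons_Q9b
      rw [ct_append, Finset.mem_union, not_or]
      exact ⟨hNP _ (by simp), hdis _ (by simp)⟩
  have w2 : hd (st w) = hd (st u) := by
    rcases hSc with ⟨rfl, h⟩ | ⟨d, rfl, h⟩
    · rw [h, hw, List.append_nil, st_append]
      exact hd_none_Q9b (st N) (st P) (by rwa [ne_eq, st_eq_nil]) (fun i hi => by
        rw [oc_st]; rw [ct_st] at hi; exact hN2 i hi)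
    · rw [h, hw, st_append, st_append, st_single, fl_fl, List.append_assoc, List.singleton_append]
      apply hd_cons_Q9b
      rw [ct_append, Finset.mem_union, not_or, ct_st, ct_st]
      exact ⟨hNS _ (by simp), fun h' => hdis _ h' (by simp)⟩
  have w3 : ct w = ct u := by
    rw [hw, ct_append, ct_append, n1, hs]
    ext i
    simp only [Finset.mem_union, Finset.mem_sdiff]
    constructor
    · rintro (h | h | h)
      · exact hPu h
      · exact h.1
      · exact hSu h
    · intro h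
      tauto
  have hNpos : 2 ≤ N.length := by
    obtain ⟨i, hi⟩ := hsne
    have h1 := (n2 i hi).1
    exact h1.trans (by
      unfold oc
      exact (List.count_le_length).trans (by simp))
  have w4 : 3 ≤ w.length := by
    rw [hw, List.length_append, List.length_append]
    rcases hPc with ⟨rfl, h⟩ | ⟨c, rfl, h⟩
    · rcases hSc with ⟨rfl, h'⟩ | ⟨d, rfl, h'⟩
      · rcases hor with h1 | h1
        · exact absurd h h1
        · exact absurd h' h1
      · simp; omega
    · simp; omega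
  have w5 : ∀ i, oc i w ≡ oc i u [MOD a] ∧ oc i w ≡ oc i v [MOD b] := by
    intro i
    have hoc : oc i w = oc i P + (oc i N + oc i S) := by rw [hw, oc_append, oc_append]
    by_cases hiP : i ∈ ct P
    · have e1 : oc i N = 0 := oc_eq_zero.2 (hNP i hiP)
      have e2 : oc i S = 0 := oc_eq_zero.2 (hdis i hiP)
      obtain ⟨q1, q2, q3⟩ := p1 i hiP
      rw [hoc, e1, e2, q1, q2, q3]
      exact ⟨Nat.ModEq.refl _, Nat.ModEq.refl _⟩
    · have e0 : oc i P = 0 := oc_eq_zero.2 hiP
      by_cases hiS : i ∈ ct S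
      · have e1 : oc i N = 0 := oc_eq_zero.2 (hNS i hiS)
        obtain ⟨q1, q2, q3⟩ := s1 i hiS
        rw [hoc, e0, e1, q1, q2, q3]
        exact ⟨Nat.ModEq.refl _, Nat.ModEq.refl _⟩
      · have e2 : oc i S = 0 := oc_eq_zero.2 hiS
        rw [hoc, e0, e2, Nat.zero_add, Nat.add_zero]
        by_cases hiu : i ∈ ct u
        · have his : i ∈ s := by
            rw [hs, Finset.mem_sdiff, Finset.mem_union, not_or]
            exact ⟨hiu, hiP, hiS⟩
          exact (n2 i his).2
        · have f1 : oc i N = 0 := oc_eq_zero.2 (fun h => hiu (by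
            rw [n1, hs, Finset.mem_sdiff] at h; exact h.1))
          have f2 : oc i u = 0 := oc_eq_zero.2 hiu
          have f3 : oc i v = 0 := oc_eq_zero.2 (by rwa [← r1])
          rw [f1, f2, f3]
          exact ⟨Nat.ModEq.refl _, Nat.ModEq.refl _⟩
  refine ⟨w, ?_, ?_⟩
  · exact (hn α ω a hA ha).1 u w hu w4 w3.symm w1.symm w2.symm hor (fun i => ((w5 i).1).symm)
  · exact (hn β ω b hB hb).1 w v w4 hv (w3.trans r1) (w1.trans r2) (w2.trans r3)
      (by rw [w1, w2]; exact hor) (fun i => (w5 i).2)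

end Helper1.IM
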