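import Pool.Agent.Helper1.IM.NSt2

/-!
# Project IM, module QE: what is related to `c M d` with `c.1 = d.1`
-/

set_option autoImplicit false

namespace Helper1.IM

theorem clp_of_QE {δ : FIC} {ω : ℕ} {u w : Wd} (hr : δ.r u w) (hw : Clp δ ω w) : Clp δ ω u :=
  δ.trans' hr (δ.trans' hw (δ.symm' (δ.sub' _ (fun _ => pw_ne_nil (by simp) (Nat.succ_pos _)) hr)))

theorem clp_sb_QE (hf : StQF) {δ : FIC} {ω : ℕ} (hB : BQ δ ω) {w : Wd} (h : ℕ → Wd) (hh : ∀ i, h i ≠ [])
    (hw : Clp δ ω w) : Clp δ ω (sb h w) :=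
  δ.trans' (δ.sub' h hh hw) ((hf δ ω hB).2.2.2.2.2 h w hh)

theorem sb_fix_QE (f : ℕ → Wd) (u : Wd) (h : ∀ i ∈ ct u, f i = [X i]) : sb f u = u := by
  rw [sb_congr f (fun i => [(i, false)]) u h, sb_id]

theorem hd_cons_QE (a : Lt) (t : Wd) : hd (a :: t) = if a.1 ∈ ct t then none else some a := rfl

/-- adding `ω`-th powers of a letter of the middle part -/
theorem qn2_QE (hP : StNPer) (hn : StQN) {δ : FIC} {ω : ℕ} (hB : BQ δ ω) (a a' : Lt) {N : Wd} (hN : N ≠ [])
    {l : ℕ} (hl : l ∈ ct N) (s s' : Bool) :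
    δ.r (a :: N ++ [a']) (a :: (pw [(l, s)] ω ++ N ++ pw [(l, s')] ω) ++ [a']) := by
  obtain ⟨m, hm⟩ := hP.1 δ ω hB.1.pf
  have hmω : m ∣ ω := hP.2.2.1 δ ω m hB.1.pf hm
  have hω : 0 < ω := hB.1.pf.pos
  refine (hn δ ω m hB hm).2.1 a a' N _ hN ?_ ?_
  · rw [ct_append, ct_append, ct_pw _ hω, ct_pw _ hω]
    ext i
    simp only [ct_cons, ct_nil, Finset.mem_union, Finset.mem_insert, Finset.notMem_empty, or_false]
    constructor
    · intro h
      exact Or.inl (Or.inr h)
    · rintro ((h | h) | h)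
      · exact h ▸ hl
      · exact h
      · exact h ▸ hl
  · intro i
    rw [oc_append, oc_append, oc_pw, oc_pw]
    obtain ⟨q, rfl⟩ := hmω
    have h1 : m * q * oc i [(l, s)] + oc i N + m * q * oc i [(l, s')] =
        oc i N + m * (q * oc i [(l, s)] + q * oc i [(l, s')]) := by ring
    rw [h1]
    exact (Nat.modEq_iff_dvd' (by omega)).2 ⟨_, by rw [Nat.add_sub_cancel_left]⟩

theorem sb_letter_QE (f : ℕ → Wd) (a : Lt) (h : f a.1 = [X a.1]) : sb f [a] = [a] :=
  sb_fix_QE f [a] (fun i hi => by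
    have : i = a.1 := by simpa using hi
    rw [this, h])

theorem sb_pow_QE (f : ℕ → Wd) (a : Lt) (k : ℕ) (h : f a.1 = pw [X a.1] k) : sb f [a] = pw [a] k := by
  rcases a with ⟨i, s⟩
  have h' : f i = pw [X i] k := h
  rw [sb_single]
  cases s
  · simp only [h']
    rfl
  · simp only [if_true, h', st_pw]
    rfl

/-- the substitution `x_i ↦ x_i z` -/
def g_QE (i z : ℕ) : ℕ → Wd := fun k => if k = i then [X i, X z] else [X k]

theorem g_ne_QE (i z k : ℕ) : g_QE i z k ≠ [] := by
  unfold g_QE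
  split_ifs <;> simp

theorem g_X_QE (i z : ℕ) {N : Wd} (hi : i ∉ ct N) (a a' : Lt) (ha : a.1 = i) (ha' : a'.1 = i) :
    sb (g_QE i z) (a :: N ++ [a']) = sb (g_QE i z) [a] ++ N ++ sb (g_QE i z) [a'] := by
  have h1 : a :: N ++ [a'] = [a] ++ N ++ [a'] := by simp
  rw [h1, sb_append, sb_append, sb_fix_QE (g_QE i z) N]
  intro k hk
  have : k ≠ i := fun h => hi (h ▸ hk)
  simp [g_QE, this]

theorem g_a_QE (i z : ℕ) : sb (g_QE i z) [(i, false)] = [X i, X z] := by
  rw [sb_single]
  simp [g_QE]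

theorem g_b_QE (i z : ℕ) : sb (g_QE i z) [(i, true)] = [Y z, Y i] := by
  rw [sb_single]
  simp [g_QE, st]

theorem key_QE (hP : StNPer) (hf : StQF) (hn : StQN) {δ : FIC} {ω : ℕ} (hB : BQ δ ω) {i z : ℕ} {a a' : Lt}
    {N : Wd} (ha : a.1 = i) (ha' : a'.1 = i) (hne : a.2 ≠ a'.2) (hi : i ∉ ct N) (hN : N ≠ []) (hz : z ∉ ct N)
    (hzi : z ≠ i) (h : Clp δ ω (sb (g_QE i z) (a :: N ++ [a']))) : Clp δ ω (a :: N ++ [a']) := by
  have hω : 0 < ω := hB.1.pf.pos
  obtain ⟨l, hl⟩ : ∃ l, l ∈ ct N := by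
    obtain ⟨x, N', rfl⟩ := List.exists_cons_of_ne_nil hN
    exact ⟨x.1, by simp⟩
  rw [g_X_QE i z hi a a' ha ha'] at h
  rcases a with ⟨i1, s⟩
  rcases a' with ⟨i2, s'⟩
  simp only at ha ha' hne
  subst ha
  subst ha'
  have hli : l ≠ i2 := fun h => hi (h ▸ hl)
  have hlz : l ≠ z := fun h => hz (h ▸ hl)
  cases s <;> cases s'
  · exact absurd rfl hne
  · rw [g_a_QE, g_b_QE] at h
    have h1 := clp_sb_QE hf hB (fun k => if k = z then pw [X l] ω else [X k])
      (fun k => by
        split_ifs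
        · exact pw_ne_nil (by simp) hω
        · simp) h
    have h2 : sb (fun k => if k = z then pw [X l] ω else [X k]) ([X i2, X z] ++ N ++ [Y z, Y i2]) =
        (i2, false) :: (pw [(l, false)] ω ++ N ++ pw [(l, true)] ω) ++ [(i2, true)] := by
      rw [sb_append, sb_append, sb_fix_QE _ N]
      · simp [hzi.symm, st_pw]
        exact ⟨rfl, rfl⟩
      · intro k hk
        have : k ≠ z := fun h => hz (h ▸ hk)
        simp [this]
    rw [h2] at h1
    exact clp_of_QE (qn2_QE hP hn hB _ _ hN hl false true) h1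
  · rw [g_a_QE, g_b_QE] at h
    have h1 := clp_sb_QE hf hB (fun k => if k = i2 then pw [X l] ω else if k = z then [X i2] else [X k])
      (fun k => by
        split_ifs
        · exact pw_ne_nil (by simp) hω
        · simp
        · simp) h
    have h2 : sb (fun k => if k = i2 then pw [X l] ω else if k = z then [X i2] else [X k])
        ([Y z, Y i2] ++ N ++ [X i2, X z]) =
        (i2, true) :: (pw [(l, true)] ω ++ N ++ pw [(l, false)] ω) ++ [(i2, false)] := by
      rw [sb_append, sb_append, sb_fix_QE _ N]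
      · simp [hzi, st_pw]
        exact ⟨rfl, rfl⟩
      · intro k hk
        have h3 : k ≠ z := fun h => hz (h ▸ hk)
        have h4 : k ≠ i2 := fun h => hi (h ▸ hk)
        simp [h3, h4]
    rw [h2] at h1
    exact clp_of_QE (qn2_QE hP hn hB _ _ hN hl true false) h1
  · exact absurd rfl hne

theorem plus_QE (hf : StQF) {δ : FIC} {ω : ℕ} (hB : BQ δ ω) {i z : ℕ} {a a' : Lt} {N : Wd} (ha : a.1 = i)
    (ha' : a'.1 = i) (he : a.2 = a'.2) (hi : i ∉ ct N) : Clp δ ω (sb (g_QE i z) (a :: N ++ [a'])) := by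
  rw [g_X_QE i z hi a a' ha ha']
  rcases a with ⟨i1, s⟩
  rcases a' with ⟨i2, s'⟩
  simp only at ha ha' he
  subst ha
  subst ha'
  subst he
  cases s
  · rw [g_a_QE]
    have h1 : [X i2, X z] ++ N ++ [X i2, X z] = X i2 :: ([X z] ++ N ++ [X i2]) ++ [X z] := by simp
    rw [h1]
    exact (hf δ ω hB).2.1 _ _ _ (by simp) (by simp) (by simp)
  · rw [g_b_QE]
    have h1 : [Y z, Y i2] ++ N ++ [Y z, Y i2] = Y z :: ([Y i2] ++ N ++ [Y z]) ++ [Y i2] := by simp
    rw [h1]
    exact (hf δ ω hB).2.1 _ _ _ (by simp) (by simp) (by simp)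

theorem oc_sbf_QE (j ω k : ℕ) (M : Wd) :
    oc k (sb (fun k => if k = j then pw [X j] (ω + 1) else [X k]) M) =
      if k = j then (ω + 1) * oc k M else oc k M := by
  induction M with
  | nil => simp
  | cons a M ih =>
    rw [sb_cons, oc_append, ih, oc_cons]
    have h1 : ∀ w : Wd, oc k (if a.2 then st w else w) = oc k w := by
      intro w
      split_ifs <;> simp
    rw [h1]
    by_cases h2 : a.1 = j
    · simp only [h2, if_true, oc_pw]
      by_cases h3 : k = j
      · simp only [h3, if_true]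
        simp [oc_cons]
        ring
      · simp only [h3, if_false]
        have h4 : ¬ j = k := fun h => h3 h.symm
        simp [oc_cons, h4]
    · simp only [h2, if_false]
      by_cases h3 : k = j
      · simp only [h3, if_true]
        simp [oc_cons, h2]
      · simp only [h3, if_false]
        simp [oc_cons]

theorem i_QE (hP : StNPer) (hf : StQF) (hn : StQN) {δ : FIC} {ω : ℕ} (hB : BQ δ ω) {c d b b' : Lt} {M M' : Wd}
    (hcd : c.1 = d.1) (hbb : b.1 = b'.1) (hcb : c.1 ≠ b.1) (hM : M ≠ []) (hbM' : b.1 ∉ ct M')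
    (hr : δ.r (c :: M ++ [d]) (b :: M' ++ [b'])) : Clp δ ω (c :: M ++ [d]) := by
  have hω : 0 < ω := hB.1.pf.pos
  obtain ⟨m, hm⟩ := hP.1 δ ω hB.1.pf
  have hmω : m ∣ ω := hP.2.2.1 δ ω m hB.1.pf hm
  set f : ℕ → Wd := fun k => if k = b.1 then pw [X b.1] (ω + 1) else [X k] with hfd
  have hf0 : ∀ k, f k ≠ [] := by
    intro k
    simp only [hfd]
    split_ifs
    · exact pw_ne_nil (by simp) (Nat.succ_pos _)
    · simp
  have h1 : sb f (c :: M ++ [d]) = c :: sb f M ++ [d] := by
    have e1 : c :: M ++ [d] = [c] ++ M ++ [d] := by simp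
    rw [e1, sb_append, sb_append, sb_letter_QE f c, sb_letter_QE f d]
    · simp
    · simp only [hfd]
      rw [if_neg (by rw [← hcd]; exact hcb)]
    · simp only [hfd]
      rw [if_neg hcb]
  have h2 : sb f (b :: M' ++ [b']) = b :: (pw [b] ω ++ M' ++ pw [b'] ω) ++ [b'] := by
    have e1 : b :: M' ++ [b'] = [b] ++ M' ++ [b'] := by simp
    rw [e1, sb_append, sb_append, sb_pow_QE f b (ω + 1) (by simp [hfd]),
      sb_pow_QE f b' (ω + 1) (by simp [hfd, hbb]), sb_fix_QE f M', pw_succ [b], pw_succ' [b']]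
    · simp
    · intro k hk
      have : k ≠ b.1 := fun h => hbM' (h ▸ hk)
      simp [hfd, this]
  have h3 : δ.r (c :: M ++ [d]) (sb f (c :: M ++ [d])) := by
    rw [h1]
    refine (hn δ ω m hB hm).2.1 c d M _ hM ?_ ?_
    · ext k
      rw [← oc_pos, ← oc_pos, oc_sbf_QE]
      split_ifs with h4
      · constructor
        · intro h5
          positivity
        · intro h5
          exact Nat.pos_of_mul_pos_left h5 |> fun _ => by
            rcases Nat.eq_zero_or_pos (oc k M) with h0 | h0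
            · rw [h0] at h5; simp at h5
            · exact h0
      · exact Iff.rfl
    · intro k
      rw [oc_sbf_QE]
      split_ifs with h4
      · obtain ⟨q, hq⟩ := hmω
        have e2 : (ω + 1) * oc k M = oc k M + m * (q * oc k M) := by
          rw [hq]; ring
        rw [e2]
        exact (Nat.modEq_iff_dvd' (by omega)).2 ⟨_, by rw [Nat.add_sub_cancel_left]⟩
      · rfl
  have h4 : δ.r (sb f (c :: M ++ [d])) (sb f (b :: M' ++ [b'])) := δ.sub' f hf0 hr
  refine clp_of_QE (δ.trans' h3 h4) ?_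
  rw [h2]
  refine (hf δ ω hB).2.1 b b' _ ?_ ?_ ?_
  · simp [pw_ne_nil (show [b] ≠ [] by simp) hω]
  · rw [ct_append, ct_append, ct_pw _ hω, ct_pw _ hω]
    simp
  · rw [ct_append, ct_append, ct_pw _ hω, ct_pw _ hω]
    simp

theorem hQE (_h2 : StTk2) (hP : StNPer) (hf : StQF) (hn : StQN) : StQE := by
  intro δ ω hB hQ c d M v hcd hcM hM hr
  obtain ⟨m, hm⟩ := hP.1 δ ω hB.1.pf
  obtain ⟨hct, hh, hh'⟩ := hQ _ _ hr
  have e1 : hd (c :: M ++ [d]) = none := by
    rw [List.cons_append, hd_cons_QE]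
    simp [hcd]
  have e2 : hd (st (c :: M ++ [d])) = none := by
    have : st (c :: M ++ [d]) = fl d :: (st M ++ [fl c]) := by simp
    rw [this, hd_cons_QE]
    simp [hcd]
  rw [e1] at hh
  rw [e2] at hh'
  obtain ⟨l, hl⟩ : ∃ l, l ∈ ct M := by
    obtain ⟨x, N', rfl⟩ := List.exists_cons_of_ne_nil hM
    exact ⟨x.1, by simp⟩
  have hlc : l ≠ c.1 := fun h => hcM (h ▸ hl)
  have hlv : l ∈ ct v := by
    rw [← hct]
    simp [hl]
  have hcv : c.1 ∈ ct v := by
    rw [← hct]
    simp
  have hv3 : 3 ≤ v.length := by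
    by_contra hlt
    match v, hlt with
    | [], _ => simp at hlv
    | [a], _ =>
      have h1 : l = a.1 := by simpa using hlv
      have h2 : c.1 = a.1 := by simpa using hcv
      exact hlc (h1.trans h2.symm)
    | [a, b], _ =>
      rw [hd_cons_QE] at hh
      have hab : a.1 = b.1 := by
        by_contra hne
        simp [hne] at hh
      have h1 : l = b.1 := by
        have : l = a.1 ∨ l = b.1 := by simpa using hlv
        rcases this with h | h
        · exact h.trans hab
        · exact h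
      have h2 : c.1 = b.1 := by
        have : c.1 = a.1 ∨ c.1 = b.1 := by simpa using hcv
        rcases this with h | h
        · exact h.trans hab
        · exact h
      exact hlc (h1.trans h2.symm)
    | a :: b :: e :: w, hlt => simp at hlt
  rcases (hn δ ω m hB hm).2.2 v hv3 hh.symm hh'.symm with ⟨b, b', M', rfl, hbb, hbM', hM'⟩ | h1
  swap
  · exact Or.inl (clp_of_QE hr h1)
  by_cases hcb : c.1 = b.1
  swap
  · exact Or.inl (i_QE hP hf hn hB hcd hbb hcb hM hbM' hr)
  -- same outer letter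
  have hctM : ct M' = ct M := by
    ext k
    have h1 : k ∈ ct (c :: M ++ [d]) ↔ k ∈ ct (b :: M' ++ [b']) := by rw [hct]
    simp only [List.cons_append, ct_cons, ct_append, ct_nil, Finset.mem_insert, Finset.mem_union,
      Finset.notMem_empty, or_false] at h1
    constructor
    · intro hk
      have hkb : k ≠ b.1 := fun h => hbM' (h ▸ hk)
      rcases h1.2 (Or.inr (Or.inl hk)) with h | h | h
      · exact absurd (h.trans hcb) hkb
      · exact h
      · exact absurd (h.trans (hcd.symm.trans hcb)) hkb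
    · intro hk
      have hkc : k ≠ c.1 := fun h => hcM (h ▸ hk)
      rcases h1.1 (Or.inr (Or.inl hk)) with h | h | h
      · exact absurd (h.trans hcb.symm) hkc
      · exact h
      · exact absurd (h.trans (hbb.symm.trans hcb.symm)) hkc
  obtain ⟨z, hz⟩ : ∃ z, z ∉ insert c.1 (ct M) := Infinite.exists_notMem_finset _
  have hzc : z ≠ c.1 := fun h => hz (by rw [h]; exact Finset.mem_insert_self _ _)
  have hzM : z ∉ ct M := fun h => hz (Finset.mem_insert_of_mem h)
  have hzM' : z ∉ ct M' := by rw [hctM]; exact hzM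
  have hcM' : c.1 ∉ ct M' := by rw [hctM]; exact hcM
  have hg : δ.r (sb (g_QE c.1 z) (c :: M ++ [d])) (sb (g_QE c.1 z) (b :: M' ++ [b'])) :=
    δ.sub' _ (g_ne_QE c.1 z) hr
  by_cases hty : (b.2 = b'.2 ↔ c.2 = d.2)
  swap
  · -- different types
    left
    by_cases hc2 : c.2 = d.2
    · have hb2 : b.2 ≠ b'.2 := by
        intro h
        exact hty ⟨fun _ => hc2, fun _ => h⟩
      have h1 : Clp δ ω (sb (g_QE c.1 z) (c :: M ++ [d])) := plus_QE hf hB rfl hcd.symm hc2 hcM
      have h2 : Clp δ ω (sb (g_QE c.1 z) (b :: M' ++ [b'])) := clp_of_QE (δ.symm' hg) h1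
      have h3 := key_QE hP hf hn hB hcb.symm (hbb.symm.trans hcb.symm) hb2 hcM' hM' hzM' hzc h2
      exact clp_of_QE hr h3
    · have hb2 : b.2 = b'.2 := by
        by_contra h
        exact hty ⟨fun h' => absurd h' h, fun h' => absurd h' hc2⟩
      have h1 : Clp δ ω (sb (g_QE c.1 z) (b :: M' ++ [b'])) :=
        plus_QE hf hB hcb.symm (hbb.symm.trans hcb.symm) hb2 hcM'
      have h2 : Clp δ ω (sb (g_QE c.1 z) (c :: M ++ [d])) := clp_of_QE hg h1
      exact key_QE hP hf hn hB rfl hcd.symm hc2 hcM hM hzM hzc h2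
  by_cases hcase : c.2 ≠ d.2 → b = c
  · exact Or.inr ⟨b, b', M', rfl, hcb.symm, hbb.symm.trans hcb.symm, hcM', hctM, hty, hcase⟩
  · -- both of type minus, opposite orientation
    left
    push Not at hcase
    obtain ⟨hc2, hbc⟩ := hcase
    have hb2 : b.2 ≠ b'.2 := fun h => hc2 (hty.1 h)
    refine key_QE hP hf hn hB rfl hcd.symm hc2 hcM hM hzM hzc ?_
    rw [g_X_QE c.1 z hcM c d rfl hcd.symm, g_X_QE c.1 z hcM' b b' hcb.symm (hbb.symm.trans hcb.symm)] at hg
    rw [g_X_QE c.1 z hcM c d rfl hcd.symm]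
    rcases c with ⟨i, s⟩
    rcases d with ⟨i2, s2⟩
    rcases b with ⟨i3, s3⟩
    rcases b' with ⟨i4, s4⟩
    simp only at hcd hbb hcb hc2 hb2 hbc hg hzc hcM hcM' ⊢
    subst hcd
    subst hcb
    subst hbb
    have hs3 : s3 = s2 := by
      by_contra h
      have : s3 = s := by
        cases s <;> cases s2 <;> cases s3 <;> simp_all
      exact hbc (by rw [this])
    have hs4 : s4 = s := by
      cases s <;> cases s2 <;> cases s3 <;> cases s4 <;> simp_all
    subst hs3
    subst hs4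
    cases s4 <;> cases s3
    · exact absurd rfl hc2
    · rw [g_a_QE, g_b_QE] at hg ⊢
      have e3 : [X i, X z] ++ M ++ [Y z, Y i] = X i :: ([X z] ++ M ++ [Y z]) ++ [Y i] := by simp
      have e4 : [Y z, Y i] ++ M' ++ [X i, X z] = Y z :: ([Y i] ++ M' ++ [X i]) ++ [X z] := by simp
      rw [e3, e4] at hg
      rw [e3]
      refine i_QE hP hf hn hB (c := X i) (d := Y i) (b := Y z) (b' := X z) rfl rfl (fun h => hzc h.symm)
        (by simp) ?_ hg
      simp [hzM', hzc]
    · rw [g_a_QE, g_b_QE] at hg ⊢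
      have e3 : [X i, X z] ++ M' ++ [Y z, Y i] = X i :: ([X z] ++ M' ++ [Y z]) ++ [Y i] := by simp
      have e4 : [Y z, Y i] ++ M ++ [X i, X z] = Y z :: ([Y i] ++ M ++ [X i]) ++ [X z] := by simp
      rw [e3, e4] at hg
      rw [e4]
      refine i_QE hP hf hn hB (c := Y z) (d := X z) (b := X i) (b' := Y i) rfl rfl (fun h => hzc h)
        (by simp) ?_ hg
      simp only [ct_append, ct_cons, ct_nil, Finset.mem_union, Finset.mem_insert, Finset.notMem_empty, or_false,
        X_fst, Y_fst, not_or]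
      exact ⟨⟨fun h => hzc h.symm, hcM'⟩, fun h => hzc h.symm⟩
    · exact absurd rfl hc2

end Helper1.IM
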