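import Pool.Agent.Helper1.IM.NSt2
import Pool.Agent.Helper2.IMQ

/-!
# Project IM, module QF: forms in type Q
-/

set_option autoImplicit false

namespace Helper1.IM

open Helper2.IMQ

private theorem rho_app_QF (ω : ℕ) (u v : Wd) : rho ω (u ++ v) = rho ω u ++ rho ω v := by
  unfold rho; rw [sb_append]

private theorem rho_single_QF (ω : ℕ) (l : Lt) : rho ω [l] = pw [l] (ω + 1) := by
  unfold rho
  rcases l with ⟨i, b⟩
  rw [sb_single]
  cases b with
  | false => rfl
  | true =>
    change st (pw [X i] (ω + 1)) = _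
    rw [st_pw, st_single]; rfl

private theorem rho_cons_QF (ω : ℕ) (l : Lt) (u : Wd) : rho ω (l :: u) = pw [l] (ω + 1) ++ rho ω u := by
  have : l :: u = [l] ++ u := rfl
  rw [this, rho_app_QF, rho_single_QF]

theorem hQF (h1 : StTk1) (h2 : StTk2) : StQF := by
  intro θ ω hBQ
  obtain ⟨hB, hQ1, _⟩ := hBQ
  have hP := hB.pf
  have hω := hP.pos
  have h7 := hP.h7
  obtain ⟨tk1, _, _⟩ := h1 θ ω hB
  obtain ⟨tc, tm, _, tR, _⟩ := h2 θ ω hB
  set r : Wd → QuH2 θ := fun w => qc θ (rho ω w) with hr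
  have rapp : ∀ u v : Wd, r (u ++ v) = r u * r v := by
    intro u v; rw [hr]; simp only; rw [rho_app_QF, qc_append]
  have rsing : ∀ l : Lt, r [l] = qc θ [l] ^ (ω + 1) := by
    intro l; rw [hr]; simp only; rw [rho_single_QF, qc_pw]
  have rcons : ∀ (l : Lt) (u : Wd), r (l :: u) = qc θ [l] ^ (ω + 1) * r u := by
    intro l u
    rw [← rsing, ← rapp]; rfl
  have rcomm : ∀ u v : Wd, r u * r v = r v * r u := by
    intro u v
    have := qc_eq.2 (tc u v)
    rwa [qc_append, qc_append] at this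
  -- QI1 for arbitrary words
  have q1 : ∀ A B C : Wd, A ≠ [] → B ≠ [] → C ≠ [] →
      qc θ A * qc θ B * qc θ C = qc θ A * qc θ B ^ (ω + 1) * qc θ C := by
    intro A B C hA hB' hC
    have h := θ.sub' (fun i => if i = 0 then A else if i = 1 then B else C) (fun i => by
      by_cases hi : i = 0
      · simp [hi, hA]
      · by_cases hi1 : i = 1 <;> simp [hi, hi1, hB', hC]) hQ1
    have h' := qc_eq.2 h
    simp only [sb_append, sb_pw, sb_X, sb_nil, List.append_nil, qc_append, qc_pw] at h'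
    rw [mul_assoc]
    exact h'
  have hane : ∀ (A : Wd) (l : Lt), A ++ pw [l] (ω + 1) ≠ [] := by
    intro A l
    have := pw_ne_nil (w := [l]) (by simp) (k := ω + 1) (by omega)
    simp [this]
  -- (a)
  have ha : ∀ m A C : Wd, A ≠ [] → C ≠ [] → qc θ A * qc θ m * qc θ C = qc θ A * r m * qc θ C := by
    intro m
    induction m with
    | nil => intro A C _ _; rfl
    | cons l m ih =>
      intro A C hA hC
      have e1 : qc θ A * qc θ (l :: m) * qc θ C = qc θ A * qc θ [l] * qc θ (m ++ C) := by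
        rw [qc_cons, qc_append]; simp only [mul_assoc]
      rw [e1, q1 A [l] (m ++ C) hA (by simp) (by simp [hC]), qc_append]
      have e2 := ih (A ++ pw [l] (ω + 1)) C (hane A l) hC
      rw [qc_append, qc_pw] at e2
      rw [rcons]
      calc qc θ A * qc θ [l] ^ (ω + 1) * (qc θ m * qc θ C)
          = qc θ A * qc θ [l] ^ (ω + 1) * qc θ m * qc θ C := by simp only [mul_assoc]
        _ = qc θ A * qc θ [l] ^ (ω + 1) * r m * qc θ C := e2
        _ = qc θ A * (qc θ [l] ^ (ω + 1) * r m) * qc θ C := by simp only [mul_assoc]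
  -- powers of letters with the same index
  have hlet : ∀ l c : Lt, l.1 = c.1 → qc θ [l] ^ ω = qc θ [c] ^ ω := by
    intro l c hlc
    by_cases he : l = c
    · rw [he]
    · have h3 : l = fl c := by
        rcases l with ⟨i, b⟩
        rcases c with ⟨j, b'⟩
        have : i = j := hlc
        subst this
        cases b <;> cases b' <;> first | exact absurd rfl he | rfl
      have h4 := qc_eq.2 (tk1 [c] (by simp) ω le_rfl)
      rw [qc_pw, qc_pw, st_single] at h4
      rw [h3]; exact h4.symm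
  have hpadd : ∀ l : Lt, qc θ [l] ^ ω * qc θ [l] ^ (ω + 1) = qc θ [l] ^ (ω + 1) := by
    intro l
    have h3 := qc_eq.2 (hP.add (t := [l]) (by simp) (j := ω + 1) (by omega))
    rw [qc_pw, qc_pw] at h3
    rw [← pow_add]
    rw [show ω + (ω + 1) = ω + 1 + ω by omega]
    exact h3
  have hsplit : ∀ (c : Lt) (m : Wd), c.1 ∈ ct m → ∃ (l : Lt) (m1 m2 : Wd), l.1 = c.1 ∧ m = m1 ++ [l] ++ m2 := by
    intro c m hc
    obtain ⟨b, hb⟩ := mem_ct.1 hc
    obtain ⟨m1, m2, h3⟩ := List.append_of_mem hb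
    exact ⟨(c.1, b), m1, m2, rfl, by rw [h3]; simp⟩
  have hleft : ∀ (c : Lt) (m : Wd), c.1 ∈ ct m → qc θ [c] ^ ω * r m = r m := by
    intro c m hc
    obtain ⟨l, m1, m2, hl, rfl⟩ := hsplit c m hc
    have e1 : r (m1 ++ [l] ++ m2) = r [l] * (r m1 * r m2) := by
      rw [rapp, rapp, rcomm m1 [l], mul_assoc]
    rw [e1, ← hlet l c hl, ← mul_assoc, rsing, hpadd]
  have hright : ∀ (c : Lt) (m : Wd), c.1 ∈ ct m → r m * qc θ [c] ^ ω = r m := by
    intro c m hc
    obtain ⟨l, m1, m2, hl, rfl⟩ := hsplit c m hc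
    have e1 : r (m1 ++ [l] ++ m2) = (r m1 * r m2) * r [l] := by
      rw [rapp, rapp, mul_assoc, rcomm [l] m2, mul_assoc]
    rw [e1, ← hlet l c hl, mul_assoc, rsing]
    congr 1
    rw [← pow_add, show ω + 1 + ω = ω + (ω + 1) by omega, pow_add, hpadd]
  -- class of the form `c m d`
  have hform : ∀ (c d : Lt) (m : Wd), qc θ (c :: m ++ [d]) = qc θ [c] * qc θ m * qc θ [d] := by
    intro c d m
    rfl
  have hA : ∀ (c d : Lt) (m : Wd), qc θ (c :: m ++ [d]) = qc θ [c] * r m * qc θ [d] := by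
    intro c d m
    rw [hform]
    exact ha m [c] [d] (by simp) (by simp)
  have hb : ∀ (c d : Lt) (m : Wd), c.1 ∈ ct m → d.1 ∈ ct m →
      qc θ (c :: m ++ [d]) = r (c :: m ++ [d]) := by
    intro c d m hc hd
    have e2 : r (c :: m ++ [d]) = qc θ [c] ^ (ω + 1) * r m * qc θ [d] ^ (ω + 1) := by
      rw [rapp, rcons, rsing]
    rw [hA, e2]
    conv_lhs => rw [← hleft c m hc, ← hright d m hd]
    rw [pow_succ' (qc θ [c]) ω, pow_succ (qc θ [d]) ω]
    simp only [mul_assoc]
  refine ⟨?_, ?_, ?_, ?_, ?_, ?_⟩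
  · intro c d m _
    refine qc_eq.1 ?_
    rw [hA]; rfl
  · intro c d m _ hc hd
    exact qc_eq.1 (hb c d m hc hd)
  · intro c d m _ hd
    refine qc_eq.1 ?_
    have e2 : qc θ (c :: rho ω (m ++ [d])) = qc θ [c] * (r m * qc θ [d] ^ (ω + 1)) := by
      rw [qc_cons]
      change qc θ [c] * r (m ++ [d]) = _
      rw [rapp, rsing]
    rw [hA, e2]
    conv_lhs => rw [← hright d m hd]
    rw [pow_succ (qc θ [d]) ω]
    simp only [mul_assoc]
  · intro c d m _ hc
    refine qc_eq.1 ?_
    have e2 : qc θ (rho ω (c :: m) ++ [d]) = (qc θ [c] ^ (ω + 1) * r m) * qc θ [d] := by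
      rw [qc_append]
      change r (c :: m) * _ = _
      rw [rcons]
    rw [hA, e2]
    conv_lhs => rw [← hleft c m hc]
    rw [pow_succ' (qc θ [c]) ω]
    simp only [mul_assoc]
  · intro w hw
    obtain ⟨c, w', rfl⟩ : ∃ c w', w = c :: w' := by
      cases w with
      | nil => simp at hw
      | cons c w' => exact ⟨c, w', rfl⟩
    have hw' : w' ≠ [] := by
      intro h; rw [h] at hw; simp at hw
    obtain ⟨m, d, rfl⟩ : ∃ m d, w' = m ++ [d] := ⟨w'.dropLast, w'.getLast hw', by rw [List.dropLast_append_getLast hw']⟩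
    have hm : m ≠ [] := by
      intro h; rw [h] at hw; simp at hw
    have h3 : θ.r (c :: m ++ [d]) (c :: rho ω m ++ [d]) := qc_eq.1 (by rw [hA]; rfl)
    have h4 : R θ ω ([c] ++ rho ω m ++ [d]) := (tR m hm).mul [c] [d]
    exact R.of_r' h4 h3
  · -- (f)
    have hft : ∀ t : Wd, t ≠ [] → qc θ t ^ (ω + 1) = r t := by
      intro t ht
      obtain ⟨c, t', rfl⟩ : ∃ c t', t = c :: t' := by
        cases t with
        | nil => exact absurd rfl ht
        | cons c t' => exact ⟨c, t', rfl⟩
      by_cases ht' : t' = []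
      · rw [ht', rsing]
      · obtain ⟨t'', d, htd⟩ : ∃ t'' d, c :: t' = t'' ++ [d] :=
          ⟨(c :: t').dropLast, (c :: t').getLast ht, by rw [List.dropLast_append_getLast ht]⟩
        obtain ⟨k, hk⟩ : ∃ k, ω = k + 2 := ⟨ω - 2, by omega⟩
        set t : Wd := c :: t' with htt
        set m : Wd := t' ++ pw t (k + 1) ++ t'' with hm
        have e1 : pw t (ω + 1) = c :: m ++ [d] := by
          have e2 : ω + 1 = 1 + (k + 1) + 1 := by omega
          rw [e2, pw_succ', pw_add, pw_one]
          calc t ++ pw t (k + 1) ++ t = (c :: t') ++ pw t (k + 1) ++ (t'' ++ [d]) := by rw [← htd]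
            _ = c :: m ++ [d] := by rw [hm]; simp [List.append_assoc]
        have hctm : ct t ⊆ ct m := by
          rw [hm, ct_append, ct_append, ct_pw t (by omega)]
          intro i hi
          simp [hi]
        have hc1 : c.1 ∈ ct m := hctm (by rw [htt, ct_cons]; simp)
        have hd1 : d.1 ∈ ct m := hctm (by rw [htd, ct_append, ct_cons]; simp)
        have e3 : qc θ t ^ (ω + 1) = r (pw t (ω + 1)) := by
          rw [← qc_pw, e1]
          exact hb c d m hc1 hd1
        rw [e3]
        have e4 := tm ω hP.idm (pw t (ω + 1)) t (ct_pw t (by omega)) (fun i => by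
          rw [oc_pw, add_mul, one_mul]
          have : ω * oc i t + oc i t ≡ 0 + oc i t [MOD ω] :=
            Nat.ModEq.add_right _ ((Nat.modEq_zero_iff_dvd).2 (Dvd.intro _ rfl))
          rwa [zero_add] at this)
        exact qc_eq.2 e4
    intro f w hf
    refine qc_eq.1 ?_
    change qc θ (sb f (rho ω w)) = r (sb f w)
    induction w with
    | nil => rfl
    | cons l w ih =>
      have e1 : sb f (l :: w) = sb f [l] ++ sb f w := by
        have : l :: w = [l] ++ w := rfl
        rw [this, sb_append]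
      rw [rho_cons_QF, sb_append, sb_pw, qc_append, qc_pw, ih, e1, rapp, hft _ (sb_ne_nil f hf _ (by simp))]

end Helper1.IM
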