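import Pool.Agent.Helper1.IM.NSt2

/-!
# Project IN: module QN (normal forms in type Q)
-/

set_option autoImplicit false

namespace Helper1.IM

private theorem dec_QN (u : Wd) (h : 3 ≤ u.length) : ∃ (c d : Lt) (M : Wd), u = c :: M ++ [d] ∧ M ≠ [] := by
  cases u with
  | nil => simp at h
  | cons c t =>
    have ht : t ≠ [] := by
      rintro rfl
      simp at h
    refine ⟨c, t.getLast ht, t.dropLast, ?_, ?_⟩
    · rw [List.cons_append, List.dropLast_append_getLast ht]
    · intro h0
      have h1 := congrArg List.length h0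
      simp at h1 h
      omega

private theorem hd_QN (c d : Lt) (m : Wd) : hd (c :: m ++ [d]) = if c.1 ∈ ct m ∨ c.1 = d.1 then none else some c := by
  have h1 : c.1 ∈ ct (m ++ [d]) ↔ (c.1 ∈ ct m ∨ c.1 = d.1) := by simp [or_comm]
  show (if c.1 ∈ ct (m ++ [d]) then none else some c) = _
  by_cases h : c.1 ∈ ct m ∨ c.1 = d.1
  · rw [if_pos h, if_pos (h1.2 h)]
  · rw [if_neg h, if_neg (fun h2 => h (h1.1 h2))]

private theorem st_cmd_QN (c d : Lt) (m : Wd) : st (c :: m ++ [d]) = fl d :: st m ++ [fl c] := by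
  rw [st_append, st_single]
  simp

private theorem hdst_QN (c d : Lt) (m : Wd) :
    hd (st (c :: m ++ [d])) = if d.1 ∈ ct m ∨ d.1 = c.1 then none else some (fl d) := by
  rw [st_cmd_QN, hd_QN]
  simp

private theorem two_QN {θ : FIC} {ω m : ℕ} (h2 : StTk2) (hf : StQF) (hB : BQ θ ω) (hP : Per θ ω m)
    (c d : Lt) (M M' : Wd) (hM : M ≠ []) (hc : ct M = ct M') (ho : ∀ i, oc i M ≡ oc i M' [MOD m]) :
    θ.r (c :: M ++ [d]) (c :: M' ++ [d]) := by
  have hM' : M' ≠ [] := by
    rintro rfl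
    cases M with
    | nil => exact hM rfl
    | cons a t => simp at hc
  obtain ⟨fa, -⟩ := hf θ ω hB
  have t2 := (h2 θ ω hB.1).2.1 m ((hP.2 m).2 dvd_rfl) M M' hc ho
  have h3 := θ.mul' [c] [d] t2
  exact θ.trans' (fa c d M hM) (θ.trans' (by simpa using h3) (θ.symm' (fa c d M' hM')))

private theorem A_QN {θ : FIC} {ω m : ℕ} (h2 : StTk2) (hf : StQF) (hB : BQ θ ω) (hP : Per θ ω m)
    (u v : Wd) (hu : 3 ≤ u.length) (hv : 3 ≤ v.length) (hct : ct u = ct v) (hh : hd u = hd v)
    (hs : hd (st u) = hd (st v)) (hn : hd u ≠ none) (ho : ∀ i, oc i u ≡ oc i v [MOD m]) : θ.r u v := by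
  obtain ⟨c, d, M, rfl, hM⟩ := dec_QN u hu
  obtain ⟨c', d', M', rfl, hM'⟩ := dec_QN v hv
  rw [hd_QN] at hn
  have h1 : ¬ (c.1 ∈ ct M ∨ c.1 = d.1) := by
    intro h
    rw [if_pos h] at hn
    exact hn rfl
  rw [hd_QN, if_neg h1, hd_QN] at hh
  have h2' : ¬ (c'.1 ∈ ct M' ∨ c'.1 = d'.1) := by
    intro h
    rw [if_pos h] at hh
    simp at hh
  rw [if_neg h2'] at hh
  have hcc : c = c' := by simpa using hh
  subst hcc
  push Not at h1 h2'
  -- the rest of the words
  have hct2 : ct (M ++ [d]) = ct (M' ++ [d']) := by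
    have e1 : ct (c :: M ++ [d]) = insert c.1 (ct (M ++ [d])) := by
      rw [List.cons_append, ct_cons]
    have e2 : ct (c :: M' ++ [d']) = insert c.1 (ct (M' ++ [d'])) := by
      rw [List.cons_append, ct_cons]
    have n1 : c.1 ∉ ct (M ++ [d]) := by simp [h1.1, h1.2]
    have n2 : c.1 ∉ ct (M' ++ [d']) := by simp [h2'.1, h2'.2]
    rw [e1, e2] at hct
    rw [← Finset.erase_insert n1, ← Finset.erase_insert n2, hct]
  have ho2 : ∀ i, oc i (M ++ [d]) ≡ oc i (M' ++ [d']) [MOD m] := by
    intro i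
    have := ho i
    rw [List.cons_append, List.cons_append, oc_cons, oc_cons] at this
    exact Nat.ModEq.add_left_cancel' _ this
  rw [hdst_QN, hdst_QN] at hs
  by_cases hd1 : d.1 ∈ ct M ∨ d.1 = c.1
  · -- only the first letter is free
    rw [if_pos hd1] at hs
    have hd2 : d'.1 ∈ ct M' ∨ d'.1 = c.1 := by
      by_contra h
      rw [if_neg h] at hs
      simp at hs
    have hd3 : d.1 ∈ ct M := hd1.resolve_right (fun h => h1.2 h.symm)
    have hd4 : d'.1 ∈ ct M' := hd2.resolve_right (fun h => h2'.2 h.symm)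
    obtain ⟨-, -, fc, -⟩ := hf θ ω hB
    have t2 := (h2 θ ω hB.1).2.1 m ((hP.2 m).2 dvd_rfl) _ _ hct2 ho2
    have h3 := θ.mulL [c] t2
    exact θ.trans' (fc c d M hM hd3) (θ.trans' (by simpa using h3) (θ.symm' (fc c d' M' hM' hd4)))
  · rw [if_neg hd1] at hs
    have hd2 : ¬ (d'.1 ∈ ct M' ∨ d'.1 = c.1) := by
      intro h
      rw [if_pos h] at hs
      simp at hs
    rw [if_neg hd2] at hs
    have hdd : fl d = fl d' := by simpa using hs
    have hdd' : d = d' := by rw [← fl_fl d, hdd, fl_fl]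
    subst hdd'
    push Not at hd1 hd2
    apply two_QN h2 hf hB hP c d M M' hM
    · have e1 : ct (M ++ [d]) = insert d.1 (ct M) := by
        ext i; simp
      have e2 : ct (M' ++ [d]) = insert d.1 (ct M') := by
        ext i; simp
      rw [e1, e2] at hct2
      rw [← Finset.erase_insert hd1.1, ← Finset.erase_insert hd2.1, hct2]
    · intro i
      have := ho2 i
      rw [oc_append, oc_append] at this
      exact Nat.ModEq.add_right_cancel' _ this

/-- MODULE QN. -/
theorem hQN (h2 : StTk2) (hf : StQF) : StQN := by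
  intro θ ω m hB hP
  refine ⟨?_, two_QN h2 hf hB hP, ?_⟩
  · intro u v hu hv hct hh hs hor ho
    rcases hor with hn | hn
    · exact A_QN h2 hf hB hP u v hu hv hct hh hs hn ho
    · have h1 := A_QN h2 hf hB hP (st u) (st v) (by simpa using hu) (by simpa using hv) (by simpa using hct) hs
        (by simpa using hh) hn (by simpa using ho)
      have h3 := θ.star' h1
      simpa using h3
  · intro u hu h1 h3
    obtain ⟨c, d, M, rfl, hM⟩ := dec_QN u hu
    have h1' : c.1 ∈ ct M ∨ c.1 = d.1 := by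
      by_contra h
      rw [hd_QN, if_neg h] at h1
      simp at h1
    have h3' : d.1 ∈ ct M ∨ d.1 = c.1 := by
      by_contra h
      rw [hdst_QN, if_neg h] at h3
      simp at h3
    by_cases hc : c.1 ∈ ct M
    · right
      have hd : d.1 ∈ ct M := by
        rcases h3' with h | h
        · exact h
        · rw [h]; exact hc
      exact (hf θ ω hB).2.1 c d M hM hc hd
    · left
      exact ⟨c, d, M, rfl, h1'.resolve_left hc, hc, hM⟩

end Helper1.IM
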