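import Pool.Agent.Helper1.IM.NSt

/-!
# Project IM (MP_265e56_al), second part, module S05: K1 implies that words in R are regular
-/

set_option autoImplicit false

namespace Helper1.IM

private theorem one_S05 {θ : FIC} {ω : ℕ} (hK : K1 θ ω) {t c : Wd} (ht : t ≠ []) (hc : c ≠ []) :
    θ.r (pw t ω ++ c) (pw t ω ++ pw c (ω + 1)) := by
  have h1 := θ.sub' (fun i => if i = 0 then t else c) (fun i => by
    by_cases hi : i = 0 <;> simp [hi, ht, hc]) hK
  have e1 : sb (fun i => if i = 0 then t else c) [X 0] = t := by simp [sb_single, X]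
  have e2 : sb (fun i => if i = 0 then t else c) [X 1] = c := by simp [sb_single, X]
  rw [sb_append, sb_append, sb_pw, sb_pw, e1, e2] at h1
  exact h1

private theorem rho_single_S05 (ω : ℕ) (a : Lt) : rho ω [a] = pw [a] (ω + 1) := by
  obtain ⟨i, b⟩ := a
  rw [rho, sb_single]
  cases b
  · simp [X]
  · simp only [if_true]
    rw [st_pw, st_single]
    rfl

private theorem three_S05 {θ : FIC} {ω : ℕ} (hK : K1 θ ω) (q : Wd) :
    ∀ t : Wd, t ≠ [] → θ.r (pw t ω ++ q) (pw t ω ++ rho ω q) := by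
  induction q with
  | nil => intro t _; exact θ.refl' _
  | cons a q ih =>
    intro t ht
    have ha : ([a] : Wd) ≠ [] := by simp
    have h1 := θ.mulR q (one_S05 hK ht ha)
    have h2 := θ.mulL (pw t ω ++ [a]) (ih [a] ha)
    have e1 : a :: q = [a] ++ q := rfl
    have e2 : rho ω (a :: q) = pw [a] (ω + 1) ++ rho ω q := by
      rw [← rho_single_S05, rho, rho, rho, ← sb_append]; rfl
    rw [e1, ← List.append_assoc]
    rw [← e1, e2]
    refine θ.trans' h1 ?_
    have e3 : pw t ω ++ [a] ++ (pw [a] ω ++ q) = pw t ω ++ pw [a] (ω + 1) ++ q := by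
      rw [pw_succ]; simp only [List.append_assoc]
    have e4 : pw t ω ++ [a] ++ (pw [a] ω ++ rho ω q) = pw t ω ++ (pw [a] (ω + 1) ++ rho ω q) := by
      rw [pw_succ]; simp only [List.append_assoc]
    rw [e3, e4] at h2
    exact h2

private theorem four_S05 {θ : FIC} {ω : ℕ} (hK : K1 θ ω) (p t : Wd) (ht : t ≠ []) :
    θ.r (p ++ pw t ω) (rho ω p ++ pw t ω) := by
  have h1 := θ.star' (three_S05 hK (st p) (st t) (by simpa using ht))
  rw [st_append, st_append, st_pw, st_st, st_st] at h1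
  have e : st (rho ω (st p)) = rho ω p := by
    rw [rho, sb_st, st_st]; rfl
  rw [e] at h1
  exact h1

theorem hS05 : StS05 := by
  intro θ ω hP hK w hR
  obtain ⟨_, p, t, q, ht, hu⟩ := hR
  have hr0 : ∀ i, pw [X i] (ω + 1) ≠ [] := fun i => pw_ne_nil (by simp) (Nat.succ_pos ω)
  have hs : rho ω t ≠ [] := sb_ne_nil _ hr0 t ht
  have e5 : rho ω (pw t ω) = pw (rho ω t) ω := by rw [rho, sb_pw]; rfl
  have h5 : θ.r (pw t ω) (rho ω (pw t ω)) := by
    have k1 := θ.symm' (hP.idm2 ht)
    have k2 := three_S05 hK (pw t ω) t ht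
    have k3 := four_S05 hK (pw t ω) (rho ω t) hs
    have k4 := hP.idm2 hs
    rw [← e5] at k3 k4
    exact θ.trans' k1 (θ.trans' k2 (θ.trans' k3 k4))
  have h6 : θ.r (p ++ pw t ω ++ q) (rho ω (p ++ pw t ω ++ q)) := by
    have e6 : rho ω (p ++ pw t ω ++ q) = rho ω p ++ rho ω (pw t ω) ++ rho ω q := by
      simp only [rho, sb_append]
    rw [e6]
    have k1 := θ.mulR q (four_S05 hK p t ht)
    have k2 := θ.mulL (rho ω p) (three_S05 hK q t ht)
    rw [← List.append_assoc, ← List.append_assoc] at k2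
    have k3 := θ.mul' (rho ω p) (rho ω q) h5
    exact θ.trans' k1 (θ.trans' k2 k3)
  have h7 := θ.sub' (fun i => pw [X i] (ω + 1)) hr0 hu
  exact θ.trans' hu (θ.trans' h6 (θ.symm' h7))

end Helper1.IM
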