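import Pool.Agent.Helper1.IM.NSt2

/-!
# Project IM, second part: module S1 (reduction to words in the ideal `R`)
-/

set_option autoImplicit false

namespace Helper1.IM

private theorem R_rho_S1 {θ : FIC} {ω : ℕ} {w : Wd} (hw : w ≠ []) : R θ ω (rho ω w) := by
  cases w with
  | nil => exact absurd rfl hw
  | cons a t =>
    unfold rho
    rw [sb_cons]
    refine R.mulR ?_ _
    rcases a with ⟨i, b⟩
    have h1 : R θ ω (pw [X i] (ω + 1)) := by
      refine ⟨pw_ne_nil (by simp) (Nat.succ_pos _), [], [X i], [X i], by simp, ?_⟩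
      rw [pw_succ']
      simpa using θ.refl' _
    cases b
    · simpa using h1
    · simpa using h1.st

private theorem rho_r_S1 (δ : FIC) (ω : ℕ) {w w' : Wd} (h : δ.r w w') : δ.r (rho ω w) (rho ω w') :=
  δ.sub' _ (fun _ => pw_ne_nil (by simp) (Nat.succ_pos _)) h

private theorem mono_S1 {r s : Wd → Wd → Prop} (hrs : ∀ x y, r x y → s x y) {u v : Wd}
    (h : Relation.ReflTransGen r u v) : Relation.ReflTransGen s u v := by
  induction h with
  | refl => exact Relation.ReflTransGen.refl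
  | tail _ h2 ih => exact ih.tail (hrs _ _ h2)

private theorem symm_S1 {r : Wd → Wd → Prop} (hr : ∀ x y, r x y → r y x) {u v : Wd}
    (h : Relation.ReflTransGen r u v) : Relation.ReflTransGen r v u := by
  induction h with
  | refl => exact Relation.ReflTransGen.refl
  | tail _ h2 ih => exact Relation.ReflTransGen.head (hr _ _ h2) ih

private theorem Jn_symm_S1 {α β : FIC} {u v : Wd} (h : Jn α β u v) : Jn α β v u :=
  symm_S1 (fun _ _ hxy => hxy.imp α.symm' β.symm') h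

private theorem Jm_symm_S1 {α β γ : FIC} {u v : Wd} (h : Jm α β γ u v) : Jm α β γ v u :=
  symm_S1 (fun _ _ hxy => hxy.imp α.symm' (fun h => ⟨β.symm' h.1, γ.symm' h.2⟩)) h

private theorem Jm_Jn_S1 {α β γ : FIC} {u v : Wd} (h : Jm α β γ u v) : Jn α β u v :=
  mono_S1 (fun _ _ hxy => hxy.imp id (fun h => h.1)) h

private theorem Jm_g_S1 {α β γ : FIC} (hac : Le α γ) {u v : Wd} (h : Jm α β γ u v) : γ.r u v := by
  unfold Jm at h
  induction h with
  | refl => exact γ.refl' _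
  | tail _ h2 ih =>
    rcases h2 with h2 | h2
    · exact γ.trans' ih (hac _ _ h2)
    · exact γ.trans' ih h2.2

open Classical in
private noncomputable def pi_S1 (θ : FIC) (ω : ℕ) (w : Wd) : Wd := if R θ ω w then w else rho ω w

open Classical in
private theorem pi_R_S1 {θ : FIC} {ω : ℕ} {w : Wd} (hw : w ≠ []) : R θ ω (pi_S1 θ ω w) := by
  unfold pi_S1
  by_cases h : R θ ω w
  · rwa [if_pos h]
  · rw [if_neg h]
    exact R_rho_S1 hw

open Classical in
private theorem pi_r_S1 {θ δ : FIC} {ω : ℕ} (hH : PH θ ω) (hδ : Le θ δ) {w w' : Wd} (hw : w ≠ [])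
    (hw' : w' ≠ []) (hr : δ.r w w') : δ.r (pi_S1 θ ω w) (pi_S1 θ ω w') := by
  unfold pi_S1
  by_cases h : R θ ω w <;> by_cases h' : R θ ω w'
  · rwa [if_pos h, if_pos h']
  · rw [if_pos h, if_neg h']
    exact δ.trans' hr (hH δ hδ w' hw' h' ((h.le hδ).of_r hr))
  · rw [if_neg h, if_pos h']
    exact δ.trans' (δ.symm' (hH δ hδ w hw h ((h'.le hδ).of_r' hr))) hr
  · rw [if_neg h, if_neg h']
    exact rho_r_S1 δ ω hr

private theorem path_S1 {θ α β : FIC} {ω : ℕ} (hH : PH θ ω) (ha : Le θ α) (hb : Le θ β) {u v : Wd}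
    (hu : R θ ω u) (hv : R θ ω v) (hj : Jn α β u v) : JnR α β (R θ ω) u v := by
  have key : ∀ w, Jn α β u w → w ≠ [] ∧ JnR α β (R θ ω) (pi_S1 θ ω u) (pi_S1 θ ω w) := by
    intro w hw
    unfold Jn at hw
    induction hw with
    | refl => exact ⟨hu.1, Relation.ReflTransGen.refl⟩
    | @tail x y _ h2 ih =>
      have hy : y ≠ [] := h2.elim (fun h => α.ne'' h ih.1) (fun h => β.ne'' h ih.1)
      refine ⟨hy, Relation.ReflTransGen.tail ih.2 ⟨pi_R_S1 ih.1, pi_R_S1 hy, ?_⟩⟩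
      exact h2.imp (pi_r_S1 hH ha ih.1 hy) (pi_r_S1 hH hb ih.1 hy)
  have h1 := (key v hj).2
  have e1 : pi_S1 θ ω u = u := by unfold pi_S1; rw [if_pos hu]
  have e2 : pi_S1 θ ω v = v := by unfold pi_S1; rw [if_pos hv]
  rwa [e1, e2] at h1

/-- Module S1. -/
theorem hS1 (hM : StMain) : StS1 := by
  intro θ ω hB h7 hH hCC hIV
  have hω : 0 < ω := hB.pf.pos
  have hMN : ModAt (thN θ ω) := hM _ (nil_thN hω) (h7.le (le_thN θ ω))
  intro α β γ ha hb hg hac u v hj hγ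
  by_cases hu : u = []
  · have hv : v = [] := γ.ne' hγ hu
    rw [hu, hv]
    exact Relation.ReflTransGen.refl
  have hpath : Jm (thN α ω) (thN β ω) (thN γ ω) u v :=
    hMN _ _ _ (thN_mono ha ω) (thN_mono hb ω) (thN_mono hg ω) (thN_mono hac ω) u v
      (mono_S1 (fun _ _ h => h.imp (fun h => Or.inl h) (fun h => Or.inl h)) hj)
      (Or.inl hγ)
  -- words in the ideal of alpha
  have kA : ∀ x, R α ω x → ∃ L, R θ ω L ∧ Jm α β γ x L := by
    rintro x ⟨hx, p, t, q, ht, hr⟩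
    exact ⟨p ++ pw t ω ++ q, R.mk' hω ht p q, Relation.ReflTransGen.single (Or.inl hr)⟩
  have kB : ∀ x, R β ω x → R γ ω x → ∃ L, R θ ω L ∧ Jm α β γ x L := by
    intro x hx1 hx2
    by_cases hx : R θ ω x
    · exact ⟨x, hx, Relation.ReflTransGen.refl⟩
    · exact ⟨rho ω x, R_rho_S1 hx1.1, Relation.ReflTransGen.single
        (Or.inr ⟨hH β hb x hx1.1 hx hx1, hH γ hg x hx1.1 hx hx2⟩)⟩
  have claim1 : ∀ w w', w ≠ [] → w' ≠ [] →
      ((thN α ω).r w w' ∨ ((thN β ω).r w w' ∧ (thN γ ω).r w w')) →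
      (α.r w w' ∨ (β.r w w' ∧ γ.r w w')) ∨
        ((∃ L, R θ ω L ∧ Jm α β γ w L) ∧ ∃ L', R θ ω L' ∧ Jm α β γ w' L') := by
    rintro w w' hw hw' (h | ⟨h1, h2⟩)
    · rcases h with h | ⟨h, h'⟩
      · exact Or.inl (Or.inl h)
      · exact Or.inr ⟨kA w h, kA w' h'⟩
    · rcases h1 with h1 | ⟨h1, h1'⟩ <;> rcases h2 with h2 | ⟨h2, h2'⟩
      · exact Or.inl (Or.inr ⟨h1, h2⟩)
      · by_cases hR : R β ω w
        · exact Or.inr ⟨kB w hR h2, kB w' (hR.of_r h1) h2'⟩
        · have hR' : ¬ R β ω w' := fun h => hR (h.of_r' h1)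
          have e1 := hCC β hb w w' h1 hw hR
          have e2 := hH γ hg w hw (fun h => hR (h.le hb)) h2
          have e3 := hH γ hg w' hw' (fun h => hR' (h.le hb)) h2'
          exact Or.inl (Or.inr ⟨h1, γ.trans' e2 (γ.trans' (hg _ _ e1) (γ.symm' e3))⟩)
      · by_cases hR : R γ ω w
        · exact Or.inr ⟨kB w h1 hR, kB w' h1' (hR.of_r h2)⟩
        · have hR' : ¬ R γ ω w' := fun h => hR (h.of_r' h2)
          have e1 := hCC γ hg w w' h2 hw hR
          have e2 := hH β hb w hw (fun h => hR (h.le hg)) h1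
          have e3 := hH β hb w' hw' (fun h => hR' (h.le hg)) h1'
          exact Or.inl (Or.inr ⟨β.trans' e2 (β.trans' (hb _ _ e1) (β.symm' e3)), h2⟩)
      · exact Or.inr ⟨kB w h1 h2, kB w' h1' h2'⟩
  have claim2 : ∀ w, Jm (thN α ω) (thN β ω) (thN γ ω) u w → w ≠ [] ∧ (Jm α β γ u w ∨
      ∃ L L', R θ ω L ∧ R θ ω L' ∧ Jm α β γ u L ∧ Jm α β γ L' w) := by
    intro w hw
    unfold Jm at hw
    induction hw with
    | refl => exact ⟨hu, Or.inl Relation.ReflTransGen.refl⟩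
    | @tail x y _ h2 ih =>
      have hy : y ≠ [] := h2.elim (fun h => (thN α ω).ne'' h ih.1)
        (fun h => (thN β ω).ne'' h.1 ih.1)
      refine ⟨hy, ?_⟩
      rcases claim1 x y ih.1 hy h2 with hc | ⟨⟨L, hL, hL2⟩, L', hL', hL2'⟩
      · rcases ih.2 with ih2 | ⟨L, L', i1, i2, i3, i4⟩
        · exact Or.inl (Relation.ReflTransGen.tail ih2 hc)
        · exact Or.inr ⟨L, L', i1, i2, i3, Relation.ReflTransGen.tail i4 hc⟩
      · rcases ih.2 with ih2 | ⟨L1, L1', i1, i2, i3, i4⟩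
        · exact Or.inr ⟨L, L', hL, hL', Relation.ReflTransGen.trans ih2 hL2, Jm_symm_S1 hL2'⟩
        · exact Or.inr ⟨L1, L', i1, hL', i3, Jm_symm_S1 hL2'⟩
  obtain ⟨_, hfin | ⟨L, L', hL, hL', h1, h2⟩⟩ := claim2 v hpath
  · exact hfin
  · have hgL : γ.r L L' := γ.trans' (γ.symm' (Jm_g_S1 hac h1))
      (γ.trans' hγ (γ.symm' (Jm_g_S1 hac h2)))
    have hjL : Jn α β L L' := Relation.ReflTransGen.trans (Jn_symm_S1 (Jm_Jn_S1 h1))
      (Relation.ReflTransGen.trans hj (Jn_symm_S1 (Jm_Jn_S1 h2)))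
    have h3 := hIV α β γ ha hb hg hac L L' hL hL' (path_S1 hH ha hb hL hL' hjL) hgL
    exact Relation.ReflTransGen.trans h1 (Relation.ReflTransGen.trans h3 h2)

end Helper1.IM
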