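import Pool.Agent.Helper1.IM.NSt2

/-!
# Project IM, second part: module S2 (modular law for regular words)
-/

set_option autoImplicit false

namespace Helper1.IM

private theorem ne_of_ct_S2 {w : Wd} {i : ℕ} (h : i ∈ ct w) : w ≠ [] := by
  rintro rfl
  simp at h

/-- Module S2. -/
theorem hS2 (h2 : StTk2) (h3 : StTk3) (h4 : StTk4) (hP : StNPer) (hc : StNCr) (hJ : StNJ) : StS2 := by
  intro θ α β γ ω hB hα hβ hγ hac u v hu hj hr
  have hv : v ≠ [] := γ.ne'' hr hu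
  have Bα : Bc α ω := hB.le hα
  have Bβ : Bc β ω := hB.le hβ
  have Bγ : Bc γ ω := hB.le hγ
  obtain ⟨a, Pa⟩ := hP.1 α ω Bα.pf
  obtain ⟨b, Pb⟩ := hP.1 β ω Bβ.pf
  obtain ⟨c, Pc⟩ := hP.1 γ ω Bγ.pf
  have hca : c ∣ a := hP.2.1 α γ ω a c hac Pa Pc
  have ra := (Pa.2 a).2 dvd_rfl
  have rb := (Pb.2 b).2 dvd_rfl
  have rc := (Pc.2 c).2 dvd_rfl
  have m1 : ∀ i, oc i u ≡ oc i v [MOD Nat.gcd a b] := hJ θ α β ω a b hB hα hβ Pa Pb u v hj
  have m2 : ∀ i, oc i u ≡ oc i v [MOD c] := (h3 γ ω Bγ u v hr).1 c Pc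
  have m3 : ∀ i, oc i u ≡ oc i v [MOD Nat.gcd a (Nat.lcm b c)] := fun i =>
    hc.2.2 a b c _ _ Pa.1 Pb.1 hca (m1 i) (m2 i)
  have hl : 1 ≤ Nat.lcm b c := Nat.lcm_pos Pb.1 Pc.1
  have hbl : b ∣ Nat.lcm b c := Nat.dvd_lcm_left b c
  have hcl : c ∣ Nat.lcm b c := Nat.dvd_lcm_right b c
  have stp : ∀ x y, (α.r x y ∨ (β.r x y ∧ γ.r x y)) → Jm α β γ x y :=
    fun _ _ h => Relation.ReflTransGen.single h
  -- congruences on a set extend to all letters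
  have ext : ∀ (x y : Wd) (s : Finset ℕ) (n : ℕ), ct x ⊆ s → ct y ⊆ s →
      (∀ i ∈ s, oc i x ≡ oc i y [MOD n]) → ∀ i, oc i x ≡ oc i y [MOD n] := by
    intro x y s n hx hy h i
    by_cases hi : i ∈ s
    · exact h i hi
    · rw [oc_eq_zero.2 (fun h' => hi (hx h')), oc_eq_zero.2 (fun h' => hi (hy h'))]
  by_cases hct : ct u = ct v
  · obtain ⟨w, hw1, hw2, _⟩ := hc.2.1 (ct u) a (Nat.lcm b c) (fun i => oc i u) (fun i => oc i v) Pa.1 hl
      (fun i _ => m3 i)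
    have e1 : α.r (rho ω u) (rho ω w) := (h2 α ω Bα).2.1 a ra u w hw1.symm
      (ext u w (ct u) a subset_rfl (by rw [hw1]) (fun i hi => (hw2 i hi).2.1.symm))
    have e2 : ∀ i, oc i w ≡ oc i v [MOD Nat.lcm b c] :=
      ext w v (ct u) _ (by rw [hw1]) (by rw [hct]) (fun i hi => (hw2 i hi).2.2)
    have e3 : β.r (rho ω w) (rho ω v) := (h2 β ω Bβ).2.1 b rb w v (by rw [hw1, hct])
      (fun i => (e2 i).of_dvd hbl)
    have e4 : γ.r (rho ω w) (rho ω v) := (h2 γ ω Bγ).2.1 c rc w v (by rw [hw1, hct])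
      (fun i => (e2 i).of_dvd hcl)
    exact Relation.ReflTransGen.trans (stp _ _ (Or.inl e1)) (stp _ _ (Or.inr ⟨e3, e4⟩))
  · have Sγ : γ.r (pw [X 0] ω ++ pw [X 1] ω) (pw [X 0] ω) := (h3 γ ω Bγ u v hr).2 hct
    have Sab : α.r (pw [X 0] ω ++ pw [X 1] ω) (pw [X 0] ω) ∨
        β.r (pw [X 0] ω ++ pw [X 1] ω) (pw [X 0] ω) := by
      by_contra hcon
      push Not at hcon
      apply hct
      unfold Jn at hj
      clear hr m1 m2 m3 Sγ hct hv
      induction hj with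
      | refl => rfl
      | @tail x y _ hxy ih =>
        rw [ih]
        by_contra hne
        rcases hxy with hxy | hxy
        · exact hcon.1 ((h3 α ω Bα x y hxy).2 hne)
        · exact hcon.2 ((h3 β ω Bβ x y hxy).2 hne)
    obtain ⟨i0, hi0⟩ : ∃ i, i ∈ ct u := by
      cases u with
      | nil => exact absurd rfl hu
      | cons a t => exact ⟨a.1, by simp⟩
    have hi0U : i0 ∈ ct u ∪ ct v := Finset.mem_union_left _ hi0
    have uU : ct u ⊆ ct u ∪ ct v := Finset.subset_union_left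
    have vU : ct v ⊆ ct u ∪ ct v := Finset.subset_union_right
    rcases Sab with Sα | Sβ
    · obtain ⟨w, hw1, hw2, _⟩ := hc.2.1 (ct u ∪ ct v) a a (fun i => oc i u) (fun i => oc i u) Pa.1 Pa.1
        (fun i _ => Nat.ModEq.refl _)
      have hwn : w ≠ [] := ne_of_ct_S2 (i := i0) (by rw [hw1]; exact hi0U)
      have e1 : ∀ i, oc i u ≡ oc i w [MOD a] :=
        ext u w (ct u ∪ ct v) a uU (by rw [hw1]) (fun i hi => (hw2 i hi).2.1.symm)
      obtain ⟨z, hz1, hz2, _⟩ := hc.2.1 (ct u ∪ ct v) a (Nat.lcm b c) (fun i => oc i v)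
        (fun i => oc i w) Pa.1 hl
        (fun i _ => ((m3 i).symm.trans ((e1 i).of_dvd (Nat.gcd_dvd_left _ _))))
      have hzn : z ≠ [] := ne_of_ct_S2 (i := i0) (by rw [hz1]; exact hi0U)
      have e2 : ∀ i, oc i z ≡ oc i v [MOD a] :=
        ext z v (ct u ∪ ct v) a (by rw [hz1]) vU (fun i hi => (hz2 i hi).2.1)
      have e3 : ∀ i, oc i w ≡ oc i z [MOD Nat.lcm b c] :=
        ext w z (ct u ∪ ct v) _ (by rw [hw1]) (by rw [hz1]) (fun i hi => (hz2 i hi).2.2.symm)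
      have s1 : α.r (rho ω u) (rho ω w) := h4 α ω Bα Sα a Pa.1 ra u w hu hwn e1
      have s2 : β.r (rho ω w) (rho ω z) := (h2 β ω Bβ).2.1 b rb w z (by rw [hw1, hz1])
        (fun i => (e3 i).of_dvd hbl)
      have s3 : γ.r (rho ω w) (rho ω z) := (h2 γ ω Bγ).2.1 c rc w z (by rw [hw1, hz1])
        (fun i => (e3 i).of_dvd hcl)
      have s4 : α.r (rho ω z) (rho ω v) := h4 α ω Bα Sα a Pa.1 ra z v hzn hv e2
      exact Relation.ReflTransGen.trans (Relation.ReflTransGen.trans (stp _ _ (Or.inl s1))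
        (stp _ _ (Or.inr ⟨s2, s3⟩))) (stp _ _ (Or.inl s4))
    · obtain ⟨w, hw1, hw2, _⟩ := hc.2.1 (ct u ∪ ct v) (Nat.lcm b c) (Nat.lcm b c) (fun i => oc i u)
        (fun i => oc i u) hl hl (fun i _ => Nat.ModEq.refl _)
      have hwn : w ≠ [] := ne_of_ct_S2 (i := i0) (by rw [hw1]; exact hi0U)
      have e1 : ∀ i, oc i u ≡ oc i w [MOD Nat.lcm b c] :=
        ext u w (ct u ∪ ct v) _ uU (by rw [hw1]) (fun i hi => (hw2 i hi).2.1.symm)
      obtain ⟨z, hz1, hz2, _⟩ := hc.2.1 (ct u ∪ ct v) a (Nat.lcm b c) (fun i => oc i w)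
        (fun i => oc i v) Pa.1 hl
        (fun i _ => (((e1 i).symm.of_dvd (Nat.gcd_dvd_right _ _)).trans (m3 i)))
      have hzn : z ≠ [] := ne_of_ct_S2 (i := i0) (by rw [hz1]; exact hi0U)
      have e2 : ∀ i, oc i z ≡ oc i v [MOD Nat.lcm b c] :=
        ext z v (ct u ∪ ct v) _ (by rw [hz1]) vU (fun i hi => (hz2 i hi).2.2)
      have e3 : ∀ i, oc i w ≡ oc i z [MOD a] :=
        ext w z (ct u ∪ ct v) _ (by rw [hw1]) (by rw [hz1]) (fun i hi => (hz2 i hi).2.1.symm)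
      have s1 : β.r (rho ω u) (rho ω w) := h4 β ω Bβ Sβ b Pb.1 rb u w hu hwn
        (fun i => (e1 i).of_dvd hbl)
      have s1' : γ.r (rho ω u) (rho ω w) := h4 γ ω Bγ Sγ c Pc.1 rc u w hu hwn
        (fun i => (e1 i).of_dvd hcl)
      have s2 : α.r (rho ω w) (rho ω z) := (h2 α ω Bα).2.1 a ra w z (by rw [hw1, hz1]) e3
      have s3 : β.r (rho ω z) (rho ω v) := h4 β ω Bβ Sβ b Pb.1 rb z v hzn hv
        (fun i => (e2 i).of_dvd hbl)
      have s3' : γ.r (rho ω z) (rho ω v) := h4 γ ω Bγ Sγ c Pc.1 rc z v hzn hv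
        (fun i => (e2 i).of_dvd hcl)
      exact Relation.ReflTransGen.trans (Relation.ReflTransGen.trans (stp _ _ (Or.inr ⟨s1, s1'⟩))
        (stp _ _ (Or.inl s2))) (stp _ _ (Or.inr ⟨s3, s3'⟩))

end Helper1.IM
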