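import Pool.Agent.Helper1.IM.NSt2

/-!
# Project IM, module S3: property (CC)
-/

set_option autoImplicit false

namespace Helper1.IM

private theorem short_S3 {w : Wd} (h : ¬ 3 ≤ w.length) (hl : ¬ Lin w) (i : ℕ) :
    (i ∈ ct w → oc i w = 2) ∧ (i ∉ ct w → oc i w = 0) := by
  refine ⟨fun hi => ?_, fun hi => oc_eq_zero.2 hi⟩
  match w, h, hl, hi with
  | [], _, hl, _ => exact absurd (by simp [Lin]) hl
  | [a], _, hl, _ => exact absurd (by simp [Lin]) hl
  | [a, b], _, hl, hi =>
    have hab : a.1 = b.1 := by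
      by_contra hne
      exact hl (by simp [Lin, hne])
    simp only [ct_cons, ct_nil, Finset.mem_insert, Finset.notMem_empty, or_false] at hi
    have hia : a.1 = i := by
      rcases hi with hi | hi
      · exact hi.symm
      · rw [hab, hi]
    have hib : b.1 = i := by rw [← hab, hia]
    simp only [oc_cons, oc_nil, hia, hib, if_true]
  | _ :: _ :: _ :: _, h, _, _ => exact absurd (by simp) h

private theorem lin_S3 {w : Wd} (hl : Lin w) (i : ℕ) :
    (i ∈ ct w → oc i w = 1) ∧ (i ∉ ct w → oc i w = 0) := by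
  refine ⟨fun hi => ?_, fun hi => oc_eq_zero.2 hi⟩
  have h1 := lin_iff.1 hl i
  have h2 := oc_pos.2 hi
  omega

theorem hS3 (hL : StLin) (h2 : StTk2) : StS3 := by
  intro θ ω n hB hP hn δ hle w w1 hr hw hR
  have hpos : 0 < ω := hB.pf.pos
  have hct : ct w = ct w1 := by
    by_contra hc
    exact hR (cont_R hpos hr hc).1
  rcases hn with rfl | hn
  · exact (h2 θ ω hB).2.1 1 ((hP.2 1).2 (dvd_refl 1)) w w1 hct (fun i => Nat.modEq_one)
  · have key : ∀ i, oc i w = oc i w1 := by
      by_cases hl : Lin w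
      · have hl1 : Lin w1 := by
          by_contra hc
          exact hR (lin_R hL hpos hl hr (fun h => hc h.1))
        intro i
        by_cases hi : i ∈ ct w
        · rw [(lin_S3 hl i).1 hi, (lin_S3 hl1 i).1 (hct ▸ hi)]
        · rw [(lin_S3 hl i).2 hi, (lin_S3 hl1 i).2 (hct ▸ hi)]
      · have hl1 : ¬ Lin w1 := by
          intro hc
          exact hR ((lin_R hL hpos hc (δ.symm' hr) (fun h => hl h.1)).of_r' hr)
        have h3 : ¬ 3 ≤ w.length := fun h => hR ((hn w h hl).le hle)
        have h4 : ¬ 3 ≤ w1.length := fun h => hR (((hn w1 h hl1).le hle).of_r' hr)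
        intro i
        by_cases hi : i ∈ ct w
        · rw [(short_S3 h3 hl i).1 hi, (short_S3 h4 hl1 i).1 (hct ▸ hi)]
        · rw [(short_S3 h3 hl i).2 hi, (short_S3 h4 hl1 i).2 (hct ▸ hi)]
    refine (h2 θ ω hB).2.1 ω hB.pf.idm w w1 hct (fun i => ?_)
    rw [key i]

end Helper1.IM
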