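import Pool.Agent.Helper1.IM.NSt2

/-!
# Project IM (MP_265e56_al), second part, module S3b: nonlinear words in R (helper80)
-/

set_option autoImplicit false

namespace Helper1.IM

private theorem dec_S3b (w : Wd) (h : ¬ Lin w) :
    ∃ (p : Wd) (a : Lt) (q : Wd) (b : Lt) (r : Wd), a.1 = b.1 ∧ w = p ++ ([a] ++ q ++ [b]) ++ r := by
  induction w with
  | nil => exact absurd (by simp [Lin]) h
  | cons c t ih =>
    by_cases ht : Lin t
    · have hc : c.1 ∈ t.map Prod.fst := by
        by_contra hc
        exact h (by unfold Lin at ht ⊢; rw [List.map_cons, List.nodup_cons]; exact ⟨hc, ht⟩)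
      obtain ⟨b, hb, hbc⟩ := List.mem_map.1 hc
      obtain ⟨q, r, hqr⟩ := List.append_of_mem hb
      exact ⟨[], c, q, b, r, hbc.symm, by rw [hqr]; simp⟩
    · obtain ⟨p, a, q, b, r, hab, hw⟩ := ih ht
      exact ⟨c :: p, a, q, b, r, hab, by rw [hw]; simp⟩

private theorem eq_or_S3b {a b : Lt} (h : a.1 = b.1) : b = a ∨ b = fl a := by
  obtain ⟨i, s⟩ := a
  obtain ⟨j, t⟩ := b
  simp only at h
  subst h
  cases s <;> cases t <;> simp [fl]

private theorem sbl_S3b (f : ℕ → Wd) (a : Lt) (h : f 0 = [a]) : sb f [Y 0] = [fl a] := by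
  simp [h]

theorem hS3b : StS3b := by
  intro θ ω hP hF w hl hw
  have two : ∀ (a b : Lt) (r : Wd), a.1 = b.1 → r ≠ [] → R θ ω ([a, b] ++ r) := by
    intro a b r hab hr
    have hf : ∀ i, (fun i : ℕ => if i = 0 then [a] else r) i ≠ [] := by
      intro i
      by_cases hi : i = 0
      · simp [hi]
      · simp [hi, hr]
    rcases eq_or_S3b hab with rfl | rfl
    · have := (hF [X 0, X 0, X 1] (by simp [Fw])).sb _ hf
      simpa using this
    · have := (hF [X 0, Y 0, X 1] (by simp [Fw])).sb _ hf
      simpa using this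
  obtain ⟨p, a, q, b, r, hab, hwe⟩ := dec_S3b w hw
  by_cases hq : q = []
  · subst hq
    by_cases hr : r = []
    · subst hr
      have hp : p ≠ [] := by
        intro hp
        subst hp
        rw [hwe] at hl
        simp at hl
      have h1 := (two (fl b) (fl a) (st p) (by simp [hab]) (by rwa [ne_eq, st_eq_nil])).st
      rw [hwe]
      simpa using h1
    · have h1 := (two a b r hab hr).mulL p
      rw [hwe]
      simpa using h1
  · have hf : ∀ i, (fun i : ℕ => if i = 0 then [a] else q) i ≠ [] := by
      intro i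
      by_cases hi : i = 0
      · simp [hi]
      · simp [hi, hq]
    rw [hwe]
    apply R.mul
    rcases eq_or_S3b hab with rfl | rfl
    · have := (hF [X 0, X 1, X 0] (by simp [Fw])).sb _ hf
      simpa using this
    · have := (hF [X 0, X 1, Y 0] (by simp [Fw])).sb _ hf
      simpa using this

end Helper1.IM
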