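import Pool.Agent.Helper1.IM.NSt2

set_option autoImplicit false

namespace Helper1.IM

theorem hSAs (k : StSK) (c : StSC) (q : StSQ) : StSAs := by
  intro θ ω n h7 hB hP h
  rcases h with h | h | h
  · exact k θ ω n h7 hB hP h
  · exact c θ ω n h7 hB hP h
  · exact q θ ω n h7 hB hP h

end Helper1.IM
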