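import Pool.Agent.Helper1.IM.NSt2

/-!
# Project IM, module SC: type C, assembly
-/

set_option autoImplicit false

namespace Helper1.IM

theorem hSC (s1 : StS1) (_hP : StNPer) (h3b : StS3b) (h3 : StS3) (hk : StSK) (hkk : StSKK) (c2 : StSC2)
    (c3 : StSC3) (c5 : StSC5) : StSC := by
  intro θ ω n hM hB hPer hC
  rcases c2 θ ω hB hC with hK | hS
  · exact hk θ ω n hM hB hPer (hkk θ ω n hB hK (Or.inl hC))
  · have hF : ∀ u ∈ Fw, R θ ω u := by
      intro u hu
      have h1 : R θ ω (pw [X 0] (ω + 2) ++ [X 1]) := by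
        have h2 := R.mk' (θ := θ) hB.pf.pos (t := [X 0]) (by simp) (pw [X 0] 2) [X 1]
        rwa [← pw_add, add_comm 2 ω] at h2
      exact h1.of_r' (hC.2.2 u hu)
    exact s1 θ ω hB hM (c3 θ ω hB hC hS) (h3 θ ω n hB hPer (Or.inr (h3b θ ω hB.pf hF))) (c5 θ ω hB hC hS)

end Helper1.IM
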