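import Pool.Agent.Helper1.IM.NSt2

/-!
# Project IM, second part: module SC1 (normal form in type C)
-/

set_option autoImplicit false

namespace Helper1.IM

private theorem cen_SC1 {θ : FIC} {ω : ℕ} (hC : Cen θ ω) {t : Wd} (ht : t ≠ []) (s : Wd) :
    θ.r (pw t ω ++ s) (s ++ pw t ω) := by
  by_cases hs : s = []
  · subst hs
    simpa using θ.refl' _
  have h := θ.sub' (fun i => if i = 0 then t else s) (fun i => by by_cases h : i = 0 <;> simp [h, ht, hs]) hC
  simpa [sb_append, sb_pw, sb_single, sb_cons, X] using h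

private theorem swp_SC1 {θ : FIC} {ω : ℕ} (hC : Cmm θ ω) {t : Wd} (ht : t ≠ []) {s r : Wd} (hs : s ≠ [])
    (hr : r ≠ []) : θ.r (pw t ω ++ (s ++ r)) (pw t ω ++ (r ++ s)) := by
  have h := θ.sub' (fun i => if i = 0 then t else if i = 1 then s else r)
    (fun i => by by_cases h : i = 0 <;> by_cases h' : i = 1 <;> simp [h, h', ht, hs, hr]) hC
  simpa [sb_append, sb_pw, sb_single, sb_cons, X] using h

private theorem prm_SC1 {θ : FIC} {ω : ℕ} (h1 : Cen θ ω) (h2 : Cmm θ ω) {t : Wd} (ht : t ≠ []) {w w' : Wd}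
    (h : w.Perm w') : θ.r (pw t ω ++ w) (pw t ω ++ w') := by
  induction h with
  | nil => exact θ.refl' _
  | @cons a l l' _ ih =>
    have e1 : θ.r (pw t ω ++ a :: l) ([a] ++ (pw t ω ++ l)) := by
      have := θ.mulR l (cen_SC1 h1 ht [a])
      simpa [List.append_assoc] using this
    have e2 : θ.r (pw t ω ++ a :: l') ([a] ++ (pw t ω ++ l')) := by
      have := θ.mulR l' (cen_SC1 h1 ht [a])
      simpa [List.append_assoc] using this
    exact θ.trans' e1 (θ.trans' (θ.mulL [a] ih) (θ.symm' e2))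
  | swap a b l =>
    have := θ.mulR l (swp_SC1 h2 ht (s := [b]) (r := [a]) (by simp) (by simp))
    simpa [List.append_assoc] using this
  | trans _ _ ih1 ih2 => exact θ.trans' ih1 ih2

/-- products of idempotents -/
private def EE (ω : ℕ) (l : List ℕ) : Wd := l.flatMap fun i => pw [X i] ω

private theorem EE_cons (ω i : ℕ) (l : List ℕ) : EE ω (i :: l) = pw [X i] ω ++ EE ω l := by
  simp [EE]

private theorem cenE_SC1 {θ : FIC} {ω : ℕ} (h1 : Cen θ ω) (l : List ℕ) (s : Wd) :
    θ.r (EE ω l ++ s) (s ++ EE ω l) := by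
  induction l with
  | nil => simpa [EE] using θ.refl' s
  | cons i l ih =>
    rw [EE_cons]
    have e1 := θ.mulL (pw [X i] ω) ih
    have e2 := θ.mulR (EE ω l) (cen_SC1 h1 (t := [X i]) (by simp) s)
    rw [List.append_assoc]
    refine θ.trans' e1 ?_
    simpa [List.append_assoc] using e2

private theorem abs_SC1 {θ : FIC} {ω : ℕ} (l : List ℕ) (u : Wd) (h : ∀ i ∈ l, θ.r u (pw [X i] ω ++ u)) :
    θ.r u (EE ω l ++ u) := by
  induction l with
  | nil => simpa [EE] using θ.refl' u
  | cons i l ih =>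
    rw [EE_cons, List.append_assoc]
    exact θ.trans' (h i (by simp)) (θ.mulL _ (ih fun j hj => h j (by simp [hj])))

private theorem prmE_SC1 {θ : FIC} {ω : ℕ} (h1 : Cen θ ω) (h2 : Cmm θ ω) {l : List ℕ} (hl : l ≠ [])
    {w w' : Wd} (h : w.Perm w') : θ.r (EE ω l ++ w) (EE ω l ++ w') := by
  cases l with
  | nil => exact absurd rfl hl
  | cons i l =>
    rw [EE_cons, List.append_assoc, List.append_assoc]
    exact prm_SC1 h1 h2 (by simp) (h.append_left _)

private theorem Ee_SC1 {θ : FIC} {ω : ℕ} (hB : Bc θ ω) (h1 : Cen θ ω) {l : List ℕ} {i : ℕ} (hi : i ∈ l)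
    (w : Wd) : θ.r (EE ω l ++ w) (EE ω l ++ (pw [X i] ω ++ w)) := by
  induction l with
  | nil => simp at hi
  | cons j l ih =>
    rw [EE_cons, List.append_assoc, List.append_assoc]
    rcases List.mem_cons.1 hi with rfl | hi
    · have e1 := θ.mulR (EE ω l ++ w) (θ.symm' (hB.pf.idm2 (t := [X i]) (by simp)))
      have e2 := θ.mulL (pw [X i] ω) (θ.mulR w (cen_SC1 h1 (t := [X i]) (by simp) (EE ω l)))
      refine θ.trans' e1 ?_
      simpa [List.append_assoc] using e2
    · exact θ.mulL _ (ih hi)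

private theorem two_SC1 {W : Wd} {i : ℕ} (h : 2 ≤ oc i W) :
    ∃ (p : Wd) (a : Lt) (q : Wd) (b : Lt) (r : Wd), W = p ++ [a] ++ q ++ [b] ++ r ∧ a.1 = i ∧ b.1 = i := by
  obtain ⟨c, hc⟩ := mem_ct.1 (oc_pos.1 (by omega : 0 < oc i W))
  obtain ⟨p, s, rfl⟩ := List.append_of_mem hc
  rw [oc_append, oc_cons] at h
  simp only [if_pos] at h
  have h' : 0 < oc i s ∨ 0 < oc i p := by
    rcases Nat.eq_zero_or_pos (oc i s) with h0 | h0
    · right; omega
    · exact Or.inl h0
  rcases h' with h' | h'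
  · obtain ⟨d, hd⟩ := mem_ct.1 (oc_pos.1 h')
    obtain ⟨q, r, rfl⟩ := List.append_of_mem hd
    exact ⟨p, (i, c), q, (i, d), r, by simp, rfl, rfl⟩
  · obtain ⟨d, hd⟩ := mem_ct.1 (oc_pos.1 h')
    obtain ⟨q, r, rfl⟩ := List.append_of_mem hd
    exact ⟨q, (i, d), r, (i, c), s, by simp, rfl, rfl⟩

private theorem lt_cases_SC1 {a b : Lt} (h : a.1 = b.1) : b = a ∨ b = fl a := by
  rcases a with ⟨i, x⟩
  rcases b with ⟨j, y⟩
  simp only at h
  subst h
  cases x <;> cases y <;> simp [fl]

/-- substitution `x_0 ↦ [a]`, the others `↦ q` -/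
private def sub_SC1 (a : Lt) (q : Wd) (i : ℕ) : Wd := if i = 0 then [a] else q

private theorem sub_ne_SC1 {a : Lt} {q : Wd} (hq : q ≠ []) (i : ℕ) : sub_SC1 a q i ≠ [] := by
  unfold sub_SC1
  by_cases h : i = 0 <;> simp [h, hq]

private theorem four_SC1 {θ : FIC} {ω : ℕ} (hF : ∀ u ∈ Fw, θ.r u (pw [X 0] (ω + 2) ++ [X 1])) {a b : Lt}
    (hab : a.1 = b.1) {q : Wd} (hq : q ≠ []) :
    θ.r ([a] ++ q ++ [b]) (pw [a] (ω + 2) ++ q) ∧ θ.r ([a, b] ++ q) (pw [a] (ω + 2) ++ q) := by
  have key : ∀ u ∈ Fw, θ.r (sb (sub_SC1 a q) u) (pw [a] (ω + 2) ++ q) := by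
    intro u hu
    have h := θ.sub' (sub_SC1 a q) (sub_ne_SC1 hq) (hF u hu)
    have e : sb (sub_SC1 a q) (pw [X 0] (ω + 2) ++ [X 1]) = pw [a] (ω + 2) ++ q := by
      rw [sb_append, sb_pw]
      simp [sub_SC1, sb_single, X]
    rwa [e] at h
  rcases lt_cases_SC1 hab with rfl | rfl
  · constructor
    · have := key [X 0, X 1, X 0] (by simp [Fw])
      simpa [sub_SC1, sb_cons, X] using this
    · have := key [X 0, X 0, X 1] (by simp [Fw])
      simpa [sub_SC1, sb_cons, X] using this
  · constructor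
    · have := key [X 0, X 1, Y 0] (by simp [Fw])
      simpa [sub_SC1, sb_cons, X, Y] using this
    · have := key [X 0, Y 0, X 1] (by simp [Fw])
      simpa [sub_SC1, sb_cons, X, Y] using this

/-- a repeated letter gives an idempotent factor -/
private theorem fac_SC1 {θ : FIC} {ω : ℕ} (hF : ∀ u ∈ Fw, θ.r u (pw [X 0] (ω + 2) ++ [X 1])) {W : Wd}
    (hl : 3 ≤ W.length) {i : ℕ} (h : 2 ≤ oc i W) :
    ∃ (s s' : Wd) (a : Lt), a.1 = i ∧ θ.r W (s ++ pw [a] ω ++ s') := by
  obtain ⟨p, a, q, b, r, rfl, ha, hb⟩ := two_SC1 h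
  have hab : a.1 = b.1 := ha.trans hb.symm
  by_cases hq : q = []
  · subst hq
    by_cases hr : r = []
    · subst hr
      have hp : p ≠ [] := by
        rintro rfl
        simp at hl
      have hba : (fl b).1 = (fl a).1 := by simp [hab]
      have h1 := (four_SC1 hF hba (q := st p) (by simpa using hp)).2
      have h2 := θ.star' h1
      refine ⟨p, pw [b] 2, b, hb, ?_⟩
      have e1 : st ([fl b, fl a] ++ st p) = p ++ [a] ++ [] ++ [b] ++ [] := by
        simp [st_append]
      have e2 : st (pw [fl b] (ω + 2) ++ st p) = p ++ pw [b] ω ++ pw [b] 2 := by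
        rw [st_append, st_st, st_pw, pw_add]
        simp [st_single]
      rwa [e1, e2] at h2
    · have h1 := (four_SC1 hF hab hr).2
      refine ⟨p, pw [a] 2 ++ r, a, ha, ?_⟩
      have h2 := θ.mulL p h1
      rw [pw_add] at h2
      simpa [List.append_assoc] using h2
  · have h1 := (four_SC1 hF hab hq).1
    refine ⟨p, pw [a] 2 ++ q ++ r, a, ha, ?_⟩
    have h2 := θ.mul' p r h1
    rw [pw_add] at h2
    simpa [List.append_assoc] using h2

private theorem idem_SC1 {θ : FIC} {ω : ℕ} (h1 : StTk1) (hB : Bc θ ω) (hC : Cen θ ω)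
    (hF : ∀ u ∈ Fw, θ.r u (pw [X 0] (ω + 2) ++ [X 1])) {W : Wd}
    (hl : 3 ≤ W.length) {i : ℕ} (h : 2 ≤ oc i W) : θ.r W (pw [X i] ω ++ W) := by
  obtain ⟨s, s', a, ha, hW⟩ := fac_SC1 hF hl h
  have hai : θ.r (pw [a] ω) (pw [X i] ω) := by
    rcases lt_cases_SC1 (a := X i) (b := a) (by simp [ha]) with rfl | rfl
    · exact θ.refl' _
    · have := (h1 θ ω hB).1 [X i] (by simp) ω le_rfl
      rw [st_single] at this
      exact θ.symm' this
  have e1 : θ.r W (s ++ pw [X i] ω ++ s') := θ.trans' hW (θ.mul' s s' hai)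
  have e2 : θ.r (s ++ pw [X i] ω ++ s') (pw [X i] ω ++ (s ++ pw [X i] ω ++ s')) := by
    have f1 := θ.mul' s s' (θ.symm' (hB.pf.idm2 (t := [X i]) (by simp)))
    have f2 := θ.mulR (pw [X i] ω ++ s') (θ.symm' (cen_SC1 hC (t := [X i]) (by simp) s))
    refine θ.trans' f1 ?_
    simpa [List.append_assoc] using f2
  exact θ.trans' e1 (θ.trans' e2 (θ.mulL _ (θ.symm' e1)))

/-- all signs of the letters in `D` are removed -/
private def fD_SC1 (D : Finset ℕ) (a : Lt) : Lt := if a.1 ∈ D then (a.1, false) else a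

private theorem sgn_SC1 {θ : FIC} {ω : ℕ} (h1 : StTk1) (hB : Bc θ ω) (hC : Cen θ ω) (D : Finset ℕ)
    (u : Wd) : θ.r (EE ω D.toList ++ u) (EE ω D.toList ++ u.map (fD_SC1 D)) := by
  have one : ∀ a : Lt, θ.r (EE ω D.toList ++ [a]) (EE ω D.toList ++ [fD_SC1 D a]) := by
    rintro ⟨i, b⟩
    unfold fD_SC1
    by_cases hi : i ∈ D
    · simp only [if_pos hi]
      cases b with
      | false => exact θ.refl' _
      | true =>
        have hil : i ∈ D.toList := Finset.mem_toList.2 hi
        have e1 := Ee_SC1 hB hC hil [Y i]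
        have e2 := Ee_SC1 hB hC hil [X i]
        have e3 : θ.r (pw [X i] ω ++ [Y i]) (pw [X i] ω ++ [X i]) := by
          have := ((h1 θ ω hB).2.1 [X i] (by simp) ω le_rfl).1
          rw [st_single, pw_succ'] at this
          exact this
        exact θ.trans' e1 (θ.trans' (θ.mulL _ e3) (θ.symm' e2))
    · simp only [if_neg hi]
      exact θ.refl' _
  induction u with
  | nil => exact θ.refl' _
  | cons a u ih =>
    have e1 := θ.mulR u (one a)
    have e2 := θ.mulR u (cenE_SC1 hC D.toList [fD_SC1 D a])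
    have e3 := θ.mulL [fD_SC1 D a] ih
    have e4 := θ.mulR (u.map (fD_SC1 D)) (θ.symm' (cenE_SC1 hC D.toList [fD_SC1 D a]))
    simp only [List.append_assoc, List.singleton_append, List.cons_append, List.nil_append,
      List.map_cons] at e1 e2 e3 e4 ⊢
    exact θ.trans' e1 (θ.trans' e2 (θ.trans' e3 e4))

/-- product of powers -/
private def KK_SC1 (k : ℕ → ℕ) (l : List ℕ) : Wd := l.flatMap fun i => pw [X i] (k i)

private theorem pad_SC1 {θ δ : FIC} {ω m : ℕ} (hP : StNPer) (hB : Bc θ ω) (hC : Cen θ ω)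
    (hM : Cmm θ ω) (hδ : Le θ δ) (hPer : Per δ ω m) (D : Finset ℕ) (hD : D.toList ≠ []) (k : ℕ → ℕ)
    (w : Wd) : ∀ l : List ℕ, (∀ i ∈ l, i ∈ D ∧ m ∣ k i) →
      δ.r (EE ω D.toList ++ (w ++ KK_SC1 k l)) (EE ω D.toList ++ w) := by
  intro l
  induction l with
  | nil => intro _; simpa [KK_SC1] using δ.refl' _
  | cons i l ih =>
    intro h
    have ih' := ih fun j hj => h j (by simp [hj])
    obtain ⟨hi, hk⟩ := h i (by simp)
    have hil : i ∈ D.toList := Finset.mem_toList.2 hi
    refine δ.trans' ?_ ih'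
    have e0 : KK_SC1 k (i :: l) = pw [X i] (k i) ++ KK_SC1 k l := by simp [KK_SC1]
    rw [e0]
    have e1 : θ.r (EE ω D.toList ++ (w ++ (pw [X i] (k i) ++ KK_SC1 k l)))
        (EE ω D.toList ++ (pw [X i] (k i) ++ (w ++ KK_SC1 k l))) := by
      refine prmE_SC1 hC hM hD ?_
      rw [← List.append_assoc, ← List.append_assoc]
      exact List.perm_append_comm.append_right _
    have e2 := Ee_SC1 hB hC hil (pw [X i] (k i) ++ (w ++ KK_SC1 k l))
    have e3 : δ.r (pw [X i] ω ++ pw [X i] (k i)) (pw [X i] ω) := by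
      rw [← pw_add]
      refine hP.2.2.2 δ ω m (hB.pf.le hδ) hPer [X i] (by simp) _ _ (by omega) le_rfl ?_
      obtain ⟨c, hc⟩ := hk
      rw [hc]
      exact (Nat.modEq_iff_dvd' (Nat.le_add_right _ _)).2 (by simp) |>.symm
    have e4 := Ee_SC1 hB hC hil (w ++ KK_SC1 k l)
    refine δ.trans' (hδ _ _ e1) (δ.trans' (hδ _ _ e2) (δ.trans' ?_ (hδ _ _ (θ.symm' e4))))
    have e5 := δ.mulL (EE ω D.toList) (δ.mulR (w ++ KK_SC1 k l) e3)
    simpa [List.append_assoc] using e5

private theorem cnt_K_SC1 (k : ℕ → ℕ) (D : Finset ℕ) (a : Lt) :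
    (KK_SC1 k D.toList).count a = if a.1 ∈ D ∧ a.2 = false then k a.1 else 0 := by
  have h0 : ∀ i, (pw [X i] (k i)).count a = if a = X i then k i else 0 := by
    intro i
    have : pw [X i] (k i) = List.replicate (k i) (X i) := by simp [pw]
    rw [this, List.count_replicate]
    by_cases h : a = X i
    · simp [h]
    · have h' : ¬ (X i == a) = true := by
        simpa using fun h2 => h h2.symm
      rw [if_neg h, if_neg h']
  unfold KK_SC1
  rw [List.count_flatMap]
  have h1 : (List.map (List.count a ∘ fun i => pw [X i] (k i)) D.toList).sum =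
      ∑ i ∈ D, (if a = X i then k i else 0) := by
    rw [← Finset.sum_map_toList]
    congr 1
    refine List.map_congr_left fun i _ => ?_
    exact h0 i
  rw [h1]
  rcases a with ⟨j, b⟩
  cases b with
  | true =>
    simp [X]
  | false =>
    simp only [X, Prod.mk.injEq, and_true]
    by_cases hj : j ∈ D
    · simp [hj]
    · simp [hj]

private theorem cnt_add_SC1 (i : ℕ) (u : Wd) : u.count (i, false) + u.count (i, true) = oc i u := by
  induction u with
  | nil => rfl
  | cons a u ih =>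
    rw [oc_cons, ← ih, List.count_cons, List.count_cons]
    rcases a with ⟨j, b⟩
    cases b <;> by_cases h : j = i <;> simp [h] <;> omega

private theorem cnt_f_SC1 (D : Finset ℕ) (u : Wd) (i : ℕ) (b : Bool) :
    (u.map (fD_SC1 D)).count (i, b) =
      if i ∈ D then (if b = false then oc i u else 0) else u.count (i, b) := by
  induction u with
  | nil => simp
  | cons a u ih =>
    rw [List.map_cons, List.count_cons, ih, List.count_cons, oc_cons]
    rcases a with ⟨j, c⟩
    unfold fD_SC1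
    by_cases hi : i ∈ D
    · by_cases hj : j = i
      · subst hj
        cases b <;> simp [hi, add_comm]
      · by_cases hjD : j ∈ D
        · cases b <;> simp [hi, hj, hjD]
        · cases b <;> simp [hi, hj, hjD]
    · by_cases hjD : j ∈ D
      · have hj : j ≠ i := fun h => hi (h ▸ hjD)
        simp [hi, hj, hjD]
      · simp [hi, hjD]

/-- Module SC1. -/
theorem hSC1 (h1 : StTk1) (hP : StNPer) : StSC1 := by
  intro θ δ ω m hB hT hS hδ hPer u v hu hv hSim
  obtain ⟨hC, hM, hF⟩ := hT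
  obtain ⟨s1, s2, s3, s4⟩ := hSim
  set D : Finset ℕ := (ct u).filter fun i => oc i u ≠ 1 with hDdef
  have hω : 7 ≤ ω := hB.pf.h7
  -- words in `R` absorb the idempotents of repeated letters
  have absorb : ∀ x, R θ ω x → (∀ i, i ∈ ct x → oc i x ≠ 1 → θ.r x (pw [X i] ω ++ x)) ∧
      ∃ j, j ∈ ct x ∧ oc j x ≠ 1 := by
    rintro x ⟨hx0, p, t, q, ht, hr⟩
    have hrc := hS _ _ hr
    have hlen : 3 ≤ (p ++ pw t ω ++ q).length := by
      have : 1 ≤ t.length := List.length_pos_iff.2 ht
      simp only [List.length_append, length_pw]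
      nlinarith
    constructor
    · intro i hi hi1
      have h2 : 2 ≤ oc i (p ++ pw t ω ++ q) := by
        have e1 : 0 < oc i (p ++ pw t ω ++ q) := oc_pos.2 (hrc.1 ▸ hi)
        have e2 : oc i (p ++ pw t ω ++ q) ≠ 1 := fun h => hi1 ((hrc.2 i).2 h)
        omega
      have h3 := idem_SC1 h1 hB hC hF hlen h2
      exact θ.trans' hr (θ.trans' h3 (θ.mulL _ (θ.symm' hr)))
    · obtain ⟨a, t', rfl⟩ : ∃ a t', t = a :: t' := by
        cases t with
        | nil => exact absurd rfl ht
        | cons a t' => exact ⟨a, t', rfl⟩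
      have h2 : 2 ≤ oc a.1 (p ++ pw (a :: t') ω ++ q) := by
        simp only [oc_append, oc_pw, oc_cons, if_pos]
        nlinarith
      refine ⟨a.1, ?_, fun h => ?_⟩
      · rw [hrc.1]
        exact oc_pos.1 (by omega)
      · have := (hrc.2 a.1).1 h
        omega
  obtain ⟨au, j, hj, hj1⟩ := absorb u hu
  obtain ⟨av, _⟩ := absorb v hv
  have hD : D.toList ≠ [] := by
    intro h
    have : j ∈ D.toList := Finset.mem_toList.2 (by rw [hDdef, Finset.mem_filter]; exact ⟨hj, hj1⟩)
    rw [h] at this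
    simp at this
  have eu : θ.r u (EE ω D.toList ++ u) := abs_SC1 _ _ fun i hi => by
    rw [Finset.mem_toList, hDdef, Finset.mem_filter] at hi
    exact au i hi.1 hi.2
  have ev : θ.r v (EE ω D.toList ++ v) := abs_SC1 _ _ fun i hi => by
    rw [Finset.mem_toList, hDdef, Finset.mem_filter] at hi
    exact av i (s1 ▸ hi.1) (fun h => hi.2 ((s2 i).2 h))
  have fu := sgn_SC1 h1 hB hC D u
  have fv := sgn_SC1 h1 hB hC D v
  -- padding
  have gu := pad_SC1 hP hB hC hM hδ hPer D hD (fun i => oc i v - oc i u) (u.map (fD_SC1 D)) D.toList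
    (fun i hi => ⟨Finset.mem_toList.1 hi, by
      rcases le_total (oc i u) (oc i v) with h | h
      · exact (Nat.modEq_iff_dvd' h).1 (s4 i)
      · simp [Nat.sub_eq_zero_of_le h]⟩)
  have gv := pad_SC1 hP hB hC hM hδ hPer D hD (fun i => oc i u - oc i v) (v.map (fD_SC1 D)) D.toList
    (fun i hi => ⟨Finset.mem_toList.1 hi, by
      rcases le_total (oc i v) (oc i u) with h | h
      · exact (Nat.modEq_iff_dvd' h).1 (s4 i).symm
      · simp [Nat.sub_eq_zero_of_le h]⟩)
  have hperm : (u.map (fD_SC1 D) ++ KK_SC1 (fun i => oc i v - oc i u) D.toList).Perm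
      (v.map (fD_SC1 D) ++ KK_SC1 (fun i => oc i u - oc i v) D.toList) := by
    rw [List.perm_iff_count]
    rintro ⟨i, b⟩
    rw [List.count_append, List.count_append, cnt_f_SC1, cnt_f_SC1, cnt_K_SC1, cnt_K_SC1]
    by_cases hi : i ∈ D
    · cases b with
      | true => simp [hi]
      | false => simp only [hi, if_true, and_self]; omega
    · simp only [hi, if_false, false_and, add_zero]
      have hcu := cnt_add_SC1 i u
      have hcv := cnt_add_SC1 i v
      by_cases hiu : i ∈ ct u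
      · have h5 : oc i u = 1 := by
          by_contra hne
          exact hi (by rw [hDdef, Finset.mem_filter]; exact ⟨hiu, hne⟩)
        have h6 : oc i v = 1 := (s2 i).1 h5
        have h7 := s3 i h5
        by_cases hm : (i, false) ∈ u
        · have k1 := List.count_pos_iff.2 hm
          have k2 := List.count_pos_iff.2 (h7.1 hm)
          cases b <;> omega
        · have k1 := List.count_eq_zero.2 hm
          have k2 := List.count_eq_zero.2 (fun h => hm (h7.2 h))
          cases b <;> omega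
      · have h5 : oc i u = 0 := oc_eq_zero.2 hiu
        have h6 : oc i v = 0 := oc_eq_zero.2 (by rw [← s1]; exact hiu)
        cases b <;> omega
  have hmid := prmE_SC1 hC hM hD hperm
  refine δ.trans' (hδ _ _ (θ.trans' eu fu)) (δ.trans' (δ.symm' gu) (δ.trans' (hδ _ _ hmid)
    (δ.trans' gv (hδ _ _ (θ.symm' (θ.trans' ev fv))))))

end Helper1.IM
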