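import Pool.Agent.Helper1.IM.NSt2

set_option autoImplicit false

namespace Helper1.IM

private theorem cen_SC2 {θ : FIC} {ω : ℕ} (hC : Cen θ ω) (t : Wd) :
    θ.r (pw [X 0] ω ++ t) (t ++ pw [X 0] ω) := by
  by_cases ht : t = []
  · rw [ht, List.append_nil, List.nil_append]
    exact θ.refl' _
  have h := θ.sub' (fun k => if k = 1 then t else [X k]) (by
    intro k
    split_ifs
    · exact ht
    · simp) hC
  rw [sb_append, sb_append, sb_pw] at h
  have e0 : sb (fun k => if k = 1 then t else [X k]) [X 0] = [X 0] := by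
    rw [sb_X, sb_nil, List.append_nil, if_neg zero_ne_one]
  have e1 : sb (fun k => if k = 1 then t else [X k]) [X 1] = t := by
    rw [sb_X, sb_nil, List.append_nil, if_pos rfl]
  rwa [e0, e1] at h

/-- substitution of the letter `x` by `y^±` -/
private theorem one_sb_SC2 {w : Wd} (hw : One w) : sb (fun _ => [X 1]) w = w.map (fun a => (1, a.2)) := by
  induction w with
  | nil => simp
  | cons a w ih =>
    have h1 : a.1 = 0 := hw a List.mem_cons_self
    have h2 : One w := fun b hb => hw b (List.mem_cons_of_mem _ hb)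
    rw [sb_cons, ih h2, List.map_cons]
    rcases a with ⟨i, b⟩
    cases b <;> rfl

private theorem two_SC2 {θ : FIC} {ω : ℕ} (hB : Bc θ ω) (hT : TyC θ ω) (h1 : StTk1) (a b : Bool) :
    θ.r (pw [X 0] ω ++ [(1, a), (1, b)]) (pw [X 0] ω ++ pw [X 1] (ω + 2)) := by
  have hω := hB.pf.pos
  have hX : ([X 0] : Wd) ≠ [] := by simp
  have hX1 : ([X 1] : Wd) ≠ [] := by simp
  have hla : ([(1, a)] : Wd) ≠ [] := by simp
  -- the instance
  have hs : θ.r ([(1, a), (1, b)] ++ pw [X 0] ω) (pw [(1, a)] (ω + 2) ++ pw [X 0] ω) := by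
    have hf : ∀ k : ℕ, (fun k => if k = 0 then ([(1, a)] : Wd) else pw [X 0] ω) k ≠ [] := by
      intro k
      show (if k = 0 then ([(1, a)] : Wd) else pw [X 0] ω) ≠ []
      split_ifs
      · exact hla
      · exact pw_ne_nil hX hω
    have e0 : ∀ w, sb (fun k => if k = 0 then ([(1, a)] : Wd) else pw [X 0] ω) (X 0 :: w) =
        (1, a) :: sb (fun k => if k = 0 then ([(1, a)] : Wd) else pw [X 0] ω) w := by
      intro w
      rw [sb_X, if_pos rfl]
      rfl
    have e1 : sb (fun k => if k = 0 then ([(1, a)] : Wd) else pw [X 0] ω) [X 1] = pw [X 0] ω := by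
      rw [sb_X, sb_nil, List.append_nil, if_neg one_ne_zero]
    have e2 : ∀ w, sb (fun k => if k = 0 then ([(1, a)] : Wd) else pw [X 0] ω) (Y 0 :: w) =
        (1, !a) :: sb (fun k => if k = 0 then ([(1, a)] : Wd) else pw [X 0] ω) w := by
      intro w
      rw [sb_cons]
      rfl
    by_cases hab : b = a
    · subst hab
      have h := θ.sub' _ hf (hT.2.2 [X 0, X 0, X 1] (by simp [Fw]))
      rw [sb_append, sb_pw, e0, e0, e0, sb_nil, e1] at h
      exact h
    · have hb : b = !a := by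
        cases a <;> cases b <;> simp_all
      subst hb
      have h := θ.sub' _ hf (hT.2.2 [X 0, Y 0, X 1] (by simp [Fw]))
      rw [sb_append, sb_pw, e0, e2, e0, sb_nil, e1] at h
      exact h
  have hy : θ.r (pw [(1, a)] (ω + 2)) (pw [X 1] (ω + 2)) := by
    cases a
    · exact θ.refl' _
    · exact (h1 θ ω hB).1 [(1, true)] hla (ω + 2) (by omega)
  exact θ.trans' (cen_SC2 hT.1 _) (θ.trans' hs (θ.trans' (θ.mulR _ hy) (θ.symm' (cen_SC2 hT.1 _))))

/-- `x^ω w(y) ~ x^ω y^(ω+|w|)` -/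
private theorem long_SC2 {θ : FIC} {ω : ℕ} (hB : Bc θ ω) (hT : TyC θ ω) (h1 : StTk1) {w : Wd}
    (hw : One w) (hl : 2 ≤ w.length) :
    θ.r (pw [X 0] ω ++ sb (fun _ => [X 1]) w) (pw [X 0] ω ++ pw [X 1] (ω + w.length)) := by
  have hX1 : ([X 1] : Wd) ≠ [] := by simp
  rcases w with _ | ⟨a, _ | ⟨b, r⟩⟩
  · simp at hl
  · simp at hl
  have hr : One r := fun c hc => hw c (List.mem_cons_of_mem _ (List.mem_cons_of_mem _ hc))
  have e : sb (fun _ => [X 1]) (a :: b :: r) = [(1, a.2), (1, b.2)] ++ sb (fun _ => [X 1]) r := by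
    rw [one_sb_SC2 hw, one_sb_SC2 hr]
    rfl
  rw [e, ← List.append_assoc]
  refine θ.trans' (θ.mulR _ (two_SC2 hB hT h1 a.2 b.2)) ?_
  rw [List.append_assoc]
  refine θ.mulL _ ?_
  have hone : One (X 0 :: X 0 :: r) := by
    intro c hc
    rcases List.mem_cons.1 hc with rfl | hc
    · rfl
    rcases List.mem_cons.1 hc with rfl | hc
    · rfl
    exact hr c hc
  have h2 := ((h1 θ ω hB).2.2 (X 0 :: X 0 :: r) hone [X 1] hX1).1
  have e2 : pw [X 1] ω ++ sb (fun _ => [X 1]) (X 0 :: X 0 :: r) =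
      pw [X 1] (ω + 2) ++ sb (fun _ => [X 1]) r := by
    rw [sb_X, sb_X, pw_add]
    simp [pw, List.append_assoc]
  rw [e2] at h2
  exact h2

/-- the letters with index `i`, renamed to `0` -/
private def wi_SC2 (i : ℕ) (u : Wd) : Wd := (u.filter (fun a => a.1 = i)).map (fun a => (0, a.2))

private theorem wi_one_SC2 (i : ℕ) (u : Wd) : One (wi_SC2 i u) := by
  intro a ha
  unfold wi_SC2 at ha
  rw [List.mem_map] at ha
  obtain ⟨b, _, rfl⟩ := ha
  rfl

private theorem wi_length_SC2 (i : ℕ) (u : Wd) : (wi_SC2 i u).length = oc i u := by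
  induction u with
  | nil => rfl
  | cons a u ih =>
    rw [oc_cons, ← ih]
    unfold wi_SC2
    by_cases h : a.1 = i
    · simp [h, Nat.add_comm]
    · simp [h]

private def f_SC2 (ω i : ℕ) : ℕ → Wd := fun j => if j = i then [X 1] else pw [X 0] ω

private theorem key_SC2 {θ : FIC} {ω : ℕ} (hB : Bc θ ω) (hT : TyC θ ω) (h1 : StTk1) (i : ℕ) (u : Wd) :
    θ.r (pw [X 0] ω ++ sb (f_SC2 ω i) u) (pw [X 0] ω ++ sb (fun _ => [X 1]) (wi_SC2 i u)) := by
  have hX : ([X 0] : Wd) ≠ [] := by simp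
  induction u with
  | nil => exact θ.refl' _
  | cons a u ih =>
    rw [sb_cons]
    by_cases ha : a.1 = i
    · have e1 : (if a.2 then st (f_SC2 ω i a.1) else f_SC2 ω i a.1) = [(1, a.2)] := by
        unfold f_SC2
        rw [if_pos ha]
        rcases a with ⟨j, b⟩
        cases b <;> rfl
      have e2 : sb (fun _ => [X 1]) (wi_SC2 i (a :: u)) = [(1, a.2)] ++ sb (fun _ => [X 1]) (wi_SC2 i u) := by
        rw [one_sb_SC2 (wi_one_SC2 i _), one_sb_SC2 (wi_one_SC2 i _)]
        simp [wi_SC2, ha]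
      rw [e1, e2, ← List.append_assoc, ← List.append_assoc]
      refine θ.trans' (θ.mulR _ (cen_SC2 hT.1 _)) (θ.trans' ?_ (θ.symm' (θ.mulR _ (cen_SC2 hT.1 _))))
      rw [List.append_assoc, List.append_assoc]
      exact θ.mulL _ ih
    · have e2 : wi_SC2 i (a :: u) = wi_SC2 i u := by
        simp [wi_SC2, ha]
      rw [e2, ← List.append_assoc]
      refine θ.trans' (θ.mulR _ ?_) ih
      have e : f_SC2 ω i a.1 = pw [X 0] ω := by
        unfold f_SC2
        rw [if_neg ha]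
      rw [e]
      split_ifs
      · rw [st_pw]
        exact θ.trans' (θ.mulL _ (θ.symm' ((h1 θ ω hB).1 [X 0] hX ω le_rfl))) (hB.pf.idm2 hX)
      · exact hB.pf.idm2 hX

private theorem key2_SC2 {θ : FIC} {ω : ℕ} (hB : Bc θ ω) (hT : TyC θ ω) (h1 : StTk1) (i : ℕ) {u v : Wd}
    (hr : θ.r u v) :
    θ.r (pw [X 0] ω ++ sb (fun _ => [X 1]) (wi_SC2 i u)) (pw [X 0] ω ++ sb (fun _ => [X 1]) (wi_SC2 i v)) := by
  have hX : ([X 0] : Wd) ≠ [] := by simp
  have hf : ∀ j, f_SC2 ω i j ≠ [] := by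
    intro j
    unfold f_SC2
    split_ifs
    · simp
    · exact pw_ne_nil hX hB.pf.pos
  exact θ.trans' (θ.symm' (key_SC2 hB hT h1 i u))
    (θ.trans' (θ.mulL _ (θ.sub' _ hf hr)) (key_SC2 hB hT h1 i v))

/-- case (i) -/
private theorem caseA_SC2 {θ : FIC} {ω : ℕ} (hB : Bc θ ω) (hT : TyC θ ω) (h1 : StTk1) (i : ℕ) {u v : Wd}
    (hr : θ.r u v) (hu : 1 ≤ oc i u) (hv : oc i v = 0) : K1 θ ω := by
  have hω := hB.pf.pos
  have h7 := hB.pf.h7
  have hX1 : ([X 1] : Wd) ≠ [] := by simp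
  have h := key2_SC2 hB hT h1 i hr
  have ev : wi_SC2 i v = [] := by
    apply List.eq_nil_of_length_eq_zero
    rw [wi_length_SC2, hv]
  rw [ev, sb_nil, List.append_nil] at h
  have h3 : ∀ m, θ.r (pw [X 0] ω ++ sb (fun _ => [X 1]) (pw (wi_SC2 i u) m)) (pw [X 0] ω) := by
    intro m
    induction m with
    | zero => simpa using θ.refl' _
    | succ m ih =>
      rw [pw_succ, sb_append, ← List.append_assoc]
      exact θ.trans' (θ.mulR _ h) ih
  have hone : One (pw (wi_SC2 i u) ω) := by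
    have : ∀ m, One (pw (wi_SC2 i u) m) := by
      intro m
      induction m with
      | zero => intro a ha; simp at ha
      | succ m ih =>
        rw [pw_succ]
        intro a ha
        rcases List.mem_append.1 ha with h | h
        · exact wi_one_SC2 i u a h
        · exact ih a h
    exact this ω
  have hlen : (pw (wi_SC2 i u) ω).length = oc i u * ω := by
    rw [length_pw, wi_length_SC2, Nat.mul_comm]
  have h4 := long_SC2 hB hT h1 hone (by rw [hlen]; nlinarith)
  rw [hlen] at h4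
  have h5 : θ.r (pw [X 0] ω ++ pw [X 1] ω) (pw [X 0] ω) :=
    θ.trans' (θ.mulL _ (θ.symm' (hB.pf.addmul hX1 le_rfl (oc i u)))) (θ.trans' (θ.symm' h4) (h3 ω))
  have h6 := θ.mulR [X 1] h5
  rw [List.append_assoc, ← pw_succ'] at h6
  exact θ.symm' h6

/-- case (ii) -/
private theorem caseB_SC2 {θ : FIC} {ω : ℕ} (hB : Bc θ ω) (hT : TyC θ ω) (h1 : StTk1) (i : ℕ) {u v : Wd}
    (hr : θ.r u v) (hu : oc i u = 1) (hv : 2 ≤ oc i v) : K1 θ ω := by
  have hX : ([X 0] : Wd) ≠ [] := by simp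
  have hX1 : ([X 1] : Wd) ≠ [] := by simp
  have h := key2_SC2 hB hT h1 i hr
  have hl := wi_length_SC2 i v
  have h2 := long_SC2 hB hT h1 (wi_one_SC2 i v) (by rw [hl]; exact hv)
  rw [hl] at h2
  have h3 := θ.trans' h h2
  obtain ⟨a, ha⟩ := List.length_eq_one_iff.1 ((wi_length_SC2 i u).trans hu)
  have ha0 : One [a] := by
    rw [← ha]
    exact wi_one_SC2 i u
  rw [ha, one_sb_SC2 ha0] at h3
  -- `x^ω y ~ x^ω y^(ω+k)`
  have h4 : θ.r (pw [X 0] ω ++ [X 1]) (pw [X 0] ω ++ pw [X 1] (ω + oc i v)) := by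
    rcases a with ⟨j, b⟩
    cases b
    · exact h3
    · have h5 := θ.sub' (fun k => if k = 1 then [Y 1] else [X k]) (by
        intro k
        split_ifs <;> simp) h3
      rw [sb_append, sb_append, sb_pw, sb_pw] at h5
      have e0 : sb (fun k => if k = 1 then [Y 1] else [X k]) [X 0] = [X 0] := by
        rw [sb_X, sb_nil, List.append_nil, if_neg zero_ne_one]
      have e1 : sb (fun k => if k = 1 then [Y 1] else [X k]) [X 1] = [Y 1] := by
        rw [sb_X, sb_nil, List.append_nil, if_pos rfl]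
      have e2 : sb (fun k => if k = 1 then [Y 1] else [X k])
          (List.map (fun a : Lt => ((1, a.2) : Lt)) [(j, true)]) = [X 1] := by
        rw [List.map_cons, List.map_nil, sb_cons, sb_nil, List.append_nil]
        rfl
      rw [e0, e1, e2] at h5
      exact θ.trans' h5 (θ.mulL _ (θ.symm' ((h1 θ ω hB).1 [X 1] hX1 (ω + oc i v) (by omega))))
  -- conclusion
  have h5 := θ.mulR (pw [X 1] ω) h4
  rw [List.append_assoc, List.append_assoc, ← pw_succ, ← pw_add] at h5
  exact θ.trans' h4 (θ.trans' (θ.mulL _ (θ.symm' (hB.pf.add hX1 (by omega)))) (θ.symm' h5))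

theorem hSC2 (h1 : StTk1) : StSC2 := by
  intro θ ω hB hT
  by_contra hcon
  rw [not_or] at hcon
  obtain ⟨hK, hS⟩ := hcon
  apply hS
  intro u v hr
  have hA : ∀ {u v : Wd}, θ.r u v → ∀ i, i ∈ ct u → i ∈ ct v := by
    intro u v hr i hi
    by_contra hi'
    exact hK (caseA_SC2 hB hT h1 i hr (oc_pos.2 hi) (oc_eq_zero.2 hi'))
  have hBB : ∀ {u v : Wd}, θ.r u v → ∀ i, oc i u = 1 → oc i v = 1 := by
    intro u v hr i hi
    have h2 : i ∈ ct v := hA hr i (oc_pos.1 (by omega))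
    have h3 : 0 < oc i v := oc_pos.2 h2
    by_contra hi'
    exact hK (caseB_SC2 hB hT h1 i hr hi (by omega))
  refine ⟨?_, fun i => ⟨hBB hr i, hBB (θ.symm' hr) i⟩⟩
  ext i
  exact ⟨hA hr i, hA (θ.symm' hr) i⟩

end Helper1.IM
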