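import Pool.Agent.Helper1.IM.NSt2

/-!
# Project IM (MP_265e56_al), second part, module SC3: property (H) in type C
-/

set_option autoImplicit false

namespace Helper1.IM

theorem hSC3 (h2 : StTk2) (hP : StNPer) (h3b : StS3b) (h5 : StS05) (c1 : StSC1) (c2 : StSC2) : StSC3 := by
  intro θ ω hB hT hSub δ hl w hw hR hRδ
  rcases c2 δ ω (hB.le hl) (hT.le hl) with hK | hSd
  · exact h5 δ ω (hB.le hl).pf hK w hRδ
  have hω := hB.pf.h7
  have hx : ([X 0] : Wd) ≠ [] := by simp
  have hFw : ∀ u ∈ Fw, R θ ω u := by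
    intro u hu
    refine R.of_r' ?_ (hT.2.2 u hu)
    rw [pw_add]
    exact ((R.pw hB.pf.pos hx).mulR _).mulR _
  obtain ⟨_, p, t, q, ht, hwW⟩ := hRδ
  obtain ⟨⟨i, b⟩, t', rfl⟩ := List.exists_cons_of_ne_nil ht
  have hWi : ω ≤ oc i (p ++ pw ((i, b) :: t') ω ++ q) := by
    rw [oc_append, oc_append, oc_pw, oc_cons]
    simp only [if_true]
    have : ω * 1 ≤ ω * (1 + oc i t') := Nat.mul_le_mul_left ω (by omega)
    omega
  have hRW : R θ ω (p ++ pw ((i, b) :: t') ω ++ q) := R.mk' hB.pf.pos ht p q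
  generalize hWd : p ++ pw ((i, b) :: t') ω ++ q = W at hwW hWi hRW
  have hrc := hSd _ _ hwW
  have hW0 : W ≠ [] := δ.ne'' hwW hw
  have hiw : 2 ≤ oc i w := by
    have k1 : oc i w ≠ 1 := by
      intro h
      have := (hrc.2 i).1 h
      omega
    have k2 : 0 < oc i w := by
      rw [oc_pos, hrc.1, ← oc_pos]
      omega
    omega
  have hnl : ¬ Lin w := by
    rw [lin_iff]
    intro h
    have := h i
    omega
  have hlen : w.length ≤ 2 := by
    by_contra h
    exact hR (h3b θ ω hB.pf hFw w (by omega) hnl)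
  have hct : ∀ j, j ≠ i → j ∉ ct w := by
    intro j hj hjw
    have hiw' : i ∈ ct w := by rw [← oc_pos]; omega
    have e1 := length_eq_sum w
    have hjp : 0 < oc j w := oc_pos.2 hjw
    have e2 : ∑ k ∈ ({i, j} : Finset ℕ), oc k w ≤ ∑ k ∈ ct w, oc k w := by
      apply Finset.sum_le_sum_of_subset
      intro k hk
      rcases Finset.mem_insert.1 hk with h | h
      · rw [h]; exact hiw'
      · rw [Finset.mem_singleton.1 h]; exact hjw
    rw [Finset.sum_pair (Ne.symm hj)] at e2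
    omega
  have hocW : ∀ j, j ≠ i → oc j W = 0 := by
    intro j hj
    rw [oc_eq_zero, ← hrc.1]
    exact hct j hj
  obtain ⟨_, _, _, t4, t5⟩ := h2 θ ω hB
  obtain ⟨n, hn⟩ := hP.1 θ ω hB.pf
  have hnω : n ∣ ω := hP.2.2.1 θ ω n hB.pf hn
  have hone : ∀ j, oc j W ≠ 1 := by
    intro j
    by_cases hj : j = i
    · subst hj; omega
    · rw [hocW j hj]; omega
  have hone' : ∀ j, oc j (rho ω W) ≠ 1 := by
    intro j
    rw [(t5 W).2 j]
    by_cases hj : j = i
    · subst hj
      have : 1 * 7 ≤ (ω + 1) * oc j W := Nat.mul_le_mul (by omega) (by omega)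
      omega
    · rw [hocW j hj]; omega
  have hsim : SimC n W (rho ω W) := by
    refine ⟨(t5 W).1.symm, fun j => ⟨fun h => absurd h (hone j), fun h => absurd h (hone' j)⟩,
      fun j h => absurd h (hone j), fun j => ?_⟩
    rw [(t5 W).2 j]
    obtain ⟨m, hm⟩ := hnω
    have e : (ω + 1) * oc j W = oc j W + n * (m * oc j W) := by rw [hm]; ring
    rw [e]
    exact (Nat.ModEq.symm (by simpa [Nat.ModEq] using Nat.add_mul_mod_self_left (oc j W) n (m * oc j W)))
  have hWr : θ.r W (rho ω W) := c1 θ θ ω n hB hT hSub (fun _ _ h => h) hn W (rho ω W) hRW (t4 W hW0) hsim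
  have hr0 : ∀ i, pw [X i] (ω + 1) ≠ [] := fun i => pw_ne_nil (by simp) (Nat.succ_pos ω)
  have h7 := δ.sub' (fun i => pw [X i] (ω + 1)) hr0 hwW
  exact δ.trans' hwW (δ.trans' (hl _ _ hWr) (δ.symm' h7))

end Helper1.IM
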