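import Pool.Agent.Helper1.IM.NSt2

set_option autoImplicit false

namespace Helper1.IM

private theorem mem_rw_SC4 (s : ℕ → Bool) (w : Wd) (i : ℕ) (b : Bool) :
    (i, b) ∈ rw' 1 s w ↔ (i, xor b (s i)) ∈ w := by
  unfold rw'
  rw [List.mem_map]
  constructor
  · rintro ⟨a, ha, hab⟩
    have h1 : a.1 = i := by simpa using congrArg Prod.fst hab
    have h2 : xor a.2 (s a.1) = b := congrArg Prod.snd hab
    have h3 : a = (i, xor b (s i)) := by
      refine Prod.ext h1 ?_
      rw [← h2, h1]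
      cases a.2 <;> cases s i <;> rfl
    rwa [h3] at ha
  · intro h
    refine ⟨_, h, ?_⟩
    refine Prod.ext (by simp) ?_
    simp only
    cases b <;> cases s i <;> rfl

private theorem once_SC4 {w : Wd} {i : ℕ} (h : oc i w = 1) : (i, true) ∈ w ↔ ¬ (i, false) ∈ w := by
  constructor
  · intro h1 h2
    obtain ⟨a, b, rfl⟩ := List.append_of_mem h1
    have h3 : (i, false) ∈ a ++ b := by
      rcases List.mem_append.1 h2 with h3 | h3
      · exact List.mem_append_left _ h3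
      · rcases List.mem_cons.1 h3 with h4 | h4
        · cases h4
        · exact List.mem_append_right _ h4
    have h5 : 0 < oc i (a ++ b) := oc_pos.2 (mem_ct.2 ⟨_, h3⟩)
    rw [oc_append] at h5
    rw [oc_append, oc_cons, if_pos rfl] at h
    omega
  · intro h1
    have h2 : i ∈ ct w := oc_pos.1 (by omega)
    obtain ⟨b, hb⟩ := mem_ct.1 h2
    cases b
    · exact absurd hb h1
    · exact hb

private theorem assoc_SC4 (a b c : Prop) : (a ↔ (c ↔ b)) ↔ (c ↔ (a ↔ b)) := by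
  by_cases ha : a <;> by_cases hb : b <;> by_cases hc : c <;> simp [ha, hb, hc]

private theorem ct_eq_SC4 {u v : Wd} (h : ∀ i, 0 < oc i u ↔ 0 < oc i v) : ct u = ct v := by
  ext i
  rw [← oc_pos, ← oc_pos]
  exact h i

private theorem qs_SC4 (hc : StNCr) (n : ℕ) (u w : Wd) (h : rCd u w) :
    ∃ (q : Wd) (s : ℕ → Bool), (∀ a ∈ q, a.2 = false) ∧
      (∀ i, 2 ≤ oc i w → oc i q = oc i u + (n - 1) * oc i w) ∧ (∀ i, oc i w ≤ 1 → oc i q = 0) ∧
      (∀ i, oc i w = 1 → (s i = true ↔ ¬ ((i, false) ∈ u ↔ (i, false) ∈ w))) := by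
  classical
  obtain ⟨q, hq1, hq2, hq3⟩ := hc.1 ((ct w).filter (fun i => 2 ≤ oc i w)) (fun i => oc i u + (n - 1) * oc i w) (by
    intro i hi
    have h1 : i ∈ ct w := (Finset.mem_filter.1 hi).1
    rw [← h.1] at h1
    have := oc_pos.2 h1
    omega)
  refine ⟨q, fun i => decide (¬ ((i, false) ∈ u ↔ (i, false) ∈ w)), hq3, ?_, ?_, ?_⟩
  · intro i hi
    exact hq2 i (Finset.mem_filter.2 ⟨oc_pos.1 (by omega), hi⟩)
  · intro i hi
    rw [oc_eq_zero, hq1, Finset.mem_filter]
    intro h2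
    omega
  · intro i _
    exact decide_eq_true_iff

/-- The word `q ++ rw' 1 s w` is similar to `u`. -/
private theorem sim1_SC4 (n : ℕ) (hn : 1 ≤ n) (u w q : Wd) (s : ℕ → Bool) (h : rCd u w)
    (h2 : ∀ i, 2 ≤ oc i w → oc i q = oc i u + (n - 1) * oc i w)
    (h3 : ∀ i, oc i w ≤ 1 → oc i q = 0) (h4 : ∀ i, oc i w = 1 → (s i = true ↔ ¬ ((i, false) ∈ u ↔ (i, false) ∈ w))) :
    SimC n u (q ++ rw' 1 s w) := by
  have hoc : ∀ i, oc i (q ++ rw' 1 s w) = oc i q + oc i w := by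
    intro i
    rw [oc_append]
    have := oc_rw' 1 s i w
    rw [Equiv.Perm.one_apply] at this
    rw [this]
  have hp : ∀ i, 0 < oc i u ↔ 0 < oc i w := fun i => by rw [oc_pos, oc_pos, h.1]
  have ho : ∀ i, oc i u = 1 ↔ oc i w = 1 := h.2
  refine ⟨ct_eq_SC4 fun i => ?_, fun i => ?_, fun i hi => ?_, fun i => ?_⟩
  · rw [hoc]
    have a := hp i
    by_cases hw : oc i w ≤ 1
    · rw [h3 i hw]
      omega
    · omega
  · rw [hoc]
    have a := hp i
    have b := ho i
    by_cases hw : oc i w ≤ 1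
    · rw [h3 i hw]
      omega
    · omega
  · have hw : oc i w = 1 := (ho i).1 hi
    rw [List.mem_append, mem_rw_SC4]
    have hq : (i, false) ∉ q := fun hq => by
      have := oc_pos.2 (mem_ct.2 ⟨_, hq⟩)
      rw [h3 i (by omega)] at this
      omega
    have h5 := h4 i hw
    have h6 := once_SC4 hw
    cases hs : s i
    · rw [hs] at h5
      simp only [Bool.xor_false]
      constructor
      · intro h7
        right
        by_contra h8
        exact absurd (h5.2 (fun h9 => h8 (h9.1 h7))) (by simp)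
      · rintro (h7 | h7)
        · exact absurd h7 hq
        · by_contra h8
          exact absurd (h5.2 (fun h9 => h8 (h9.2 h7))) (by simp)
    · have h7 := h5.1 hs
      simp only [Bool.xor_true, Bool.not_false]
      rw [h6]
      constructor
      · intro h8
        right
        intro h9
        exact h7 ⟨fun _ => h9, fun _ => h8⟩
      · rintro (h8 | h8)
        · exact absurd h8 hq
        · by_contra h9
          exact h7 ⟨fun h => absurd h h9, fun h => absurd h h8⟩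
  · rw [hoc]
    have a := hp i
    have b := ho i
    by_cases hw : oc i w ≤ 1
    · rw [h3 i hw]
      have : oc i u = 0 + oc i w := by omega
      rw [this]
    · rw [h2 i (by omega)]
      obtain ⟨k, rfl⟩ : ∃ k, n = k + 1 := ⟨n - 1, by omega⟩
      have e : oc i u + (k + 1 - 1) * oc i w + oc i w = oc i u + (k + 1) * oc i w := by
        rw [Nat.add_sub_cancel]; ring
      rw [e]
      exact (Nat.add_mul_mod_self_left _ _ _).symm

private theorem sim2_SC4 (n : ℕ) (u w v q q' : Wd) (s s' : ℕ → Bool) (h : rCd u w) (h' : rCd v w)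
    (h2 : ∀ i, 2 ≤ oc i w → oc i q = oc i u + (n - 1) * oc i w)
    (h3 : ∀ i, oc i w ≤ 1 → oc i q = 0) (h4 : ∀ i, oc i w = 1 → (s i = true ↔ ¬ ((i, false) ∈ u ↔ (i, false) ∈ w)))
    (h2' : ∀ i, 2 ≤ oc i w → oc i q' = oc i v + (n - 1) * oc i w)
    (h3' : ∀ i, oc i w ≤ 1 → oc i q' = 0) (h4' : ∀ i, oc i w = 1 → (s' i = true ↔ ¬ ((i, false) ∈ v ↔ (i, false) ∈ w))) :
    SimC n (q' ++ rw' 1 s' u) (q ++ rw' 1 s v) := by
  have hoc : ∀ i, oc i (q ++ rw' 1 s v) = oc i q + oc i v := by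
    intro i
    rw [oc_append]
    have := oc_rw' 1 s i v
    rw [Equiv.Perm.one_apply] at this
    rw [this]
  have hoc' : ∀ i, oc i (q' ++ rw' 1 s' u) = oc i q' + oc i u := by
    intro i
    rw [oc_append]
    have := oc_rw' 1 s' i u
    rw [Equiv.Perm.one_apply] at this
    rw [this]
  have hp : ∀ i, 0 < oc i u ↔ 0 < oc i w := fun i => by rw [oc_pos, oc_pos, h.1]
  have ho : ∀ i, oc i u = 1 ↔ oc i w = 1 := h.2
  have hp' : ∀ i, 0 < oc i v ↔ 0 < oc i w := fun i => by rw [oc_pos, oc_pos, h'.1]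
  have ho' : ∀ i, oc i v = 1 ↔ oc i w = 1 := h'.2
  have key : ∀ i, oc i (q' ++ rw' 1 s' u) = oc i (q ++ rw' 1 s v) := by
    intro i
    rw [hoc, hoc']
    have a := hp i
    have b := ho i
    have a' := hp' i
    have b' := ho' i
    by_cases hw : oc i w ≤ 1
    · rw [h3 i hw, h3' i hw]
      omega
    · rw [h2 i (by omega), h2' i (by omega)]
      ring
  refine ⟨ct_eq_SC4 fun i => by rw [key], fun i => by rw [key], fun i hi => ?_, fun i => by rw [key]⟩
  have hw : oc i w = 1 := by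
    rw [hoc'] at hi
    have a := hp i
    have b := ho i
    by_cases hw : oc i w ≤ 1
    · rw [h3' i hw] at hi
      omega
    · rw [h2' i (by omega)] at hi
      have a' := hp' i
      omega
  have hu : oc i u = 1 := (ho i).2 hw
  have hv : oc i v = 1 := (ho' i).2 hw
  have hq : (i, false) ∉ q := fun hq => by
    have := oc_pos.2 (mem_ct.2 ⟨_, hq⟩)
    rw [h3 i (by omega)] at this
    omega
  have hq' : (i, false) ∉ q' := fun hq => by
    have := oc_pos.2 (mem_ct.2 ⟨_, hq⟩)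
    rw [h3' i (by omega)] at this
    omega
  rw [List.mem_append, List.mem_append, mem_rw_SC4, mem_rw_SC4]
  have e1 := once_SC4 hu
  have e2 := once_SC4 hv
  have e3 := once_SC4 hw
  have f1 := h4 i hw
  have f2 := h4' i hw
  have g1 : (i, xor false (s' i)) ∈ u ↔ ((i, false) ∈ u ↔ ((i, false) ∈ v ↔ (i, false) ∈ w)) := by
    cases hs : s' i
    · rw [hs] at f2
      have f3 : ((i, false) ∈ v ↔ (i, false) ∈ w) := by
        by_contra hh
        exact absurd (f2.2 hh) (by simp)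
      simp only [Bool.xor_false]
      exact ⟨fun hh => ⟨fun _ => f3, fun _ => hh⟩, fun hh => hh.2 f3⟩
    · have f3 := f2.1 hs
      simp only [Bool.xor_true, Bool.not_false]
      rw [e1]
      exact ⟨fun hh => ⟨fun h5 => absurd h5 hh, fun h5 => absurd h5 f3⟩, fun hh h5 => f3 (hh.1 h5)⟩
  have g2 : (i, xor false (s i)) ∈ v ↔ ((i, false) ∈ v ↔ ((i, false) ∈ u ↔ (i, false) ∈ w)) := by
    cases hs : s i
    · rw [hs] at f1
      have f3 : ((i, false) ∈ u ↔ (i, false) ∈ w) := by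
        by_contra hh
        exact absurd (f1.2 hh) (by simp)
      simp only [Bool.xor_false]
      exact ⟨fun hh => ⟨fun _ => f3, fun _ => hh⟩, fun hh => hh.2 f3⟩
    · have f3 := f1.1 hs
      simp only [Bool.xor_true, Bool.not_false]
      rw [e2]
      exact ⟨fun hh => ⟨fun h5 => absurd h5 hh, fun h5 => absurd h5 f3⟩, fun hh h5 => f3 (hh.1 h5)⟩
  rw [g1, g2]
  constructor
  · rintro (hh | hh)
    · exact absurd hh hq'
    · exact Or.inr ((assoc_SC4 _ _ _).1 hh)
  · rintro (hh | hh)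
    · exact absurd hh hq
    · exact Or.inr ((assoc_SC4 _ _ _).2 hh)

theorem hSC4 (c1 : StSC1) (hP : StNPer) (hc : StNCr) : StSC4 := by
  intro θ α β ω hB hT hS hα hβ hSα hSβ u w v hu hw hv huw hwv
  obtain ⟨n, hn⟩ := hP.1 θ ω hB.pf
  have r1 : rCd u w := hSβ _ _ huw
  have r2 : rCd v w := hSα _ _ (α.symm' hwv)
  obtain ⟨q, s, a1, a2, a3, a4⟩ := qs_SC4 hc n u w r1
  obtain ⟨q', s', b1, b2, b3, b4⟩ := qs_SC4 hc n v w r2
  have S1 := sim1_SC4 n hn.1 u w q s r1 a2 a3 a4
  have S2 := sim1_SC4 n hn.1 v w q' s' r2 b2 b3 b4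
  have S3 := sim2_SC4 n u w v q q' s s' r1 r2 a2 a3 a4 b2 b3 b4
  have Rw' : R θ ω (q ++ rw' 1 s v) := (hv.rw' 1 s).mulL q
  have hle : Le θ θ := fun _ _ h => h
  have T1 : θ.r u (q ++ rw' 1 s w) := c1 θ θ ω n hB hT hS hle hn _ _ hu ((hw.rw' 1 s).mulL q) S1
  have T2 : θ.r v (q' ++ rw' 1 s' w) := c1 θ θ ω n hB hT hS hle hn _ _ hv ((hw.rw' 1 s').mulL q') S2
  have T3 : θ.r (q' ++ rw' 1 s' u) (q ++ rw' 1 s v) :=
    c1 θ θ ω n hB hT hS hle hn _ _ ((hu.rw' 1 s').mulL q') Rw' S3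
  refine ⟨q ++ rw' 1 s v, Rw', ?_, ?_⟩
  · exact α.trans' (hα _ _ T1) (α.mulL q (α.rn 1 s hwv))
  · refine β.trans' (β.symm' (hβ _ _ T3)) ?_
    exact β.trans' (β.mulL q' (β.rn 1 s' huw)) (β.symm' (hβ _ _ T2))

end Helper1.IM
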