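import Pool.Agent.Helper1.IM.NSt2

/-!
# Project IM, second part: module SC5, property (IV) in type C
-/

set_option autoImplicit false

namespace Helper1.IM

private theorem jnR_jn_SC5 {α β : FIC} {P : Wd → Prop} {u v : Wd} (h : JnR α β P u v) : Jn α β u v := by
  induction h with
  | refl => exact Relation.ReflTransGen.refl
  | tail _ h2 ih => exact ih.tail h2.2.2

private theorem jm_conj_SC5 {α β γ : FIC} {u v u' v' : Wd} (h1 : α.r u u' ∨ (β.r u u' ∧ γ.r u u'))
    (h2 : α.r v v' ∨ (β.r v v' ∧ γ.r v v')) (h : Jm α β γ u' v') : Jm α β γ u v := by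
  have h3 : Jm α β γ u v' := Relation.ReflTransGen.head h1 h
  refine h3.tail ?_
  rcases h2 with h2 | h2
  · exact Or.inl (α.symm' h2)
  · exact Or.inr ⟨β.symm' h2.1, γ.symm' h2.2⟩

private theorem jm_mk_SC5 {α β γ : FIC} (hac : Le α γ) {u v w : Wd} (h1 : α.r u w) (h2 : β.r w v) (h3 : γ.r u v) :
    Jm α β γ u v := by
  refine Relation.ReflTransGen.head (Or.inl h1) (Relation.ReflTransGen.single (Or.inr ⟨h2, ?_⟩))
  exact γ.trans' (γ.symm' (hac _ _ h1)) h3

theorem hSC5 (h2 : StTk2) (h3 : StTk3) (hP : StNPer) (hc : StNCr) (hJ : StNJ) (s2 : StS2) (h5 : StS05)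
    (c1 : StSC1) (c2 : StSC2) (c4 : StSC4) : StSC5 := by
  have _ := h3
  intro θ ω hB hT hS α β γ hα hβ hγ hac u v hu hv hj hg
  have hjn : Jn α β u v := jnR_jn_SC5 hj
  have hS2 := s2 θ α β γ ω hB hα hβ hγ hac u v hu.1 hjn hg
  by_cases kα : K1 α ω
  · -- (A)
    have h1 := h5 α ω (hB.pf.le hα) kα u (hu.le hα)
    have h2' := h5 α ω (hB.pf.le hα) kα v (hv.le hα)
    exact jm_conj_SC5 (Or.inl h1) (Or.inl h2') hS2
  have sα : Sub α rCd := (c2 α ω (hB.le hα) (hT.le hα)).resolve_left kα
  by_cases kβ : K1 β ω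
  · have hβu := h5 β ω (hB.pf.le hβ) kβ u (hu.le hβ)
    have hβv := h5 β ω (hB.pf.le hβ) kβ v (hv.le hβ)
    by_cases kγ : K1 γ ω
    · -- (C)
      have hγu := h5 γ ω (hB.pf.le hγ) kγ u (hu.le hγ)
      have hγv := h5 γ ω (hB.pf.le hγ) kγ v (hv.le hγ)
      exact jm_conj_SC5 (Or.inr ⟨hβu, hγu⟩) (Or.inr ⟨hβv, hγv⟩) hS2
    · -- (D)
      have sγ : Sub γ rCd := (c2 γ ω (hB.le hγ) (hT.le hγ)).resolve_left kγ
      obtain ⟨hct, hone⟩ := sγ _ _ hg
      obtain ⟨a, ha⟩ := hP.1 α ω (hB.pf.le hα)
      obtain ⟨b, hb⟩ := hP.1 β ω (hB.pf.le hβ)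
      have hmod := hJ θ α β ω a b hB hα hβ ha hb u v hjn
      set s : Finset ℕ := (ct u).filter (fun j => 2 ≤ oc j u) with hs
      have hb1 : 1 ≤ b := hb.1
      have key : ∀ i ∈ s, (fun _ : ℕ => 0) i ≡ (fun j => oc j v + (b - 1) * oc j u) i [MOD Nat.gcd a b] := by
        intro i _
        have h1 : oc i v + (b - 1) * oc i u ≡ oc i u + (b - 1) * oc i u [MOD Nat.gcd a b] :=
          Nat.ModEq.add_right _ (hmod i).symm
        have h2' : oc i u + (b - 1) * oc i u = b * oc i u := by
          obtain ⟨c, rfl⟩ : ∃ c, b = c + 1 := ⟨b - 1, by omega⟩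
          simp only [Nat.add_sub_cancel]
          ring
        have h3' : b * oc i u ≡ 0 [MOD Nat.gcd a b] :=
          (Nat.modEq_zero_iff_dvd).2 (Dvd.dvd.mul_right (Nat.gcd_dvd_right a b) _)
        rw [h2'] at h1
        exact (h1.trans h3').symm
      obtain ⟨q, hq1, hq2, -⟩ := hc.2.1 s a b _ _ ha.1 hb1 key
      have hsub : ∀ i, i ∈ s → i ∈ ct u := fun i hi => (Finset.mem_filter.1 hi).1
      have hout : ∀ i, i ∉ s → oc i q = 0 := by
        intro i hi
        rw [oc_eq_zero, hq1]
        exact hi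
      have hle : ∀ i, i ∉ s → oc i u ≤ 1 := by
        intro i hi
        by_contra hcon
        apply hi
        rw [hs, Finset.mem_filter]
        exact ⟨oc_pos.1 (by omega), by omega⟩
      have hctw : ct (q ++ u) = ct u := by
        rw [ct_append, hq1]
        exact Finset.union_eq_right.2 hsub
      have hRw : R θ ω (q ++ u) := hu.mulL q
      have hsim : SimC a u (q ++ u) := by
        refine ⟨hctw.symm, fun i => ?_, fun i hi => ?_, fun i => ?_⟩
        · rw [oc_append]
          by_cases hi : i ∈ s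
          · have h1 := (hq2 i hi).1
            have h2' := (Finset.mem_filter.1 hi).2
            omega
          · rw [hout i hi, zero_add]
        · have hi' : i ∉ s := by
            intro h
            have := (Finset.mem_filter.1 h).2
            omega
          have h1 : (i, false) ∉ q := by
            intro h
            have : i ∈ ct q := mem_ct.2 ⟨false, h⟩
            rw [hq1] at this
            exact hi' this
          simp [h1]
        · rw [oc_append]
          by_cases hi : i ∈ s
          · have h1 := (hq2 i hi).2.1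
            have h2' := Nat.ModEq.add_right (oc i u) h1
            simp only [zero_add] at h2'
            exact h2'.symm
          · rw [hout i hi, zero_add]
      have hαw : α.r u (q ++ u) := c1 θ α ω a hB hT hS hα ha u (q ++ u) hu hRw hsim
      have hβw := h5 β ω (hB.pf.le hβ) kβ (q ++ u) (hRw.le hβ)
      have hρ : β.r (rho ω (q ++ u)) (rho ω v) := by
        refine (h2 β ω (hB.le hβ)).2.1 b ((hb.2 b).2 dvd_rfl) _ _ (hctw.trans hct) fun i => ?_
        rw [oc_append]
        by_cases hi : i ∈ s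
        · have h1 := Nat.ModEq.add_right (oc i u) (hq2 i hi).2.2
          refine h1.trans ?_
          have h2' : oc i v + (b - 1) * oc i u + oc i u = oc i v + b * oc i u := by
            obtain ⟨c, rfl⟩ : ∃ c, b = c + 1 := ⟨b - 1, by omega⟩
            simp only [Nat.add_sub_cancel]
            ring
          rw [h2']
          have h3' : b * oc i u ≡ 0 [MOD b] := (Nat.modEq_zero_iff_dvd).2 (Dvd.intro _ rfl)
          simpa using Nat.ModEq.add_left (oc i v) h3'
        · rw [hout i hi, zero_add]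
          have h1 := hle i hi
          rcases Nat.lt_or_ge 0 (oc i u) with h0 | h0
          · have h2' : oc i u = 1 := by omega
            rw [h2', (hone i).1 h2']
          · have h2' : oc i u = 0 := by omega
            have h3' : oc i v = 0 := by
              rw [oc_eq_zero, ← hct, ← oc_eq_zero]
              exact h2'
            rw [h2', h3']
      have hβwv : β.r (q ++ u) v := β.trans' hβw (β.trans' hρ (β.symm' hβv))
      exact jm_mk_SC5 hac hαw hβwv hg
  · -- (B)
    have sβ : Sub β rCd := (c2 β ω (hB.le hβ) (hT.le hβ)).resolve_left kβ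
    have hex : ∃ w, R θ ω w ∧ α.r u w ∧ β.r w v := by
      clear hg hS2 hjn hv
      induction hj with
      | refl => exact ⟨u, hu, α.refl' u, β.refl' u⟩
      | @tail v' v _ hst ih =>
        obtain ⟨w, hw, h1, h2'⟩ := ih
        obtain ⟨hv', hv, h3' | h3'⟩ := hst
        · obtain ⟨w', hw', h4, h5'⟩ := c4 θ α β ω hB hT hS hα hβ sα sβ w v' v hw hv' hv h2' h3'
          exact ⟨w', hw', α.trans' h1 h4, h5'⟩
        · exact ⟨w, hw, h1, β.trans' h2' h3'⟩
    obtain ⟨w, -, h1, h2'⟩ := hex
    exact jm_mk_SC5 hac h1 h2' hg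

end Helper1.IM
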