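import Pool.Agent.Helper1.IM.NSt2

set_option autoImplicit false

/-! Module SK of project IM (MP_265e56_al): type K is modular. -/

namespace Helper1.IM

private theorem fw_R_SK {θ : FIC} {ω : ℕ} (hω : 0 < ω)
    (h : ∀ u ∈ Fw, θ.r u (pw [X 0] (ω + 2) ++ pw [X 1] (ω + 1))) : ∀ u ∈ Fw, R θ ω u := by
  intro u hu
  have h1 : R θ ω (pw [X 0] (ω + 2) ++ pw [X 1] (ω + 1)) := by
    have h2 : R θ ω ([] ++ pw [X 0] ω ++ (pw [X 0] 2 ++ pw [X 1] (ω + 1))) :=
      R.mk' hω (by simp) _ _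
    have e : pw [X 0] (ω + 2) ++ pw [X 1] (ω + 1) =
        [] ++ pw [X 0] ω ++ (pw [X 0] 2 ++ pw [X 1] (ω + 1)) := by
      rw [pw_add, List.nil_append, List.append_assoc]
    rw [e]
    exact h2
  exact h1.of_r' (h u hu)

theorem hSK (h1 : StS1) (h2 : StS2) (h3b : StS3b) (h3 : StS3) (h5 : StS05) : StSK := by
  intro θ ω n hM hB hP hT
  refine h1 θ ω hB hM ?_ ?_ ?_
  · intro δ hl w _ _ hR
    exact h5 δ ω (hB.pf.le hl) (K1.le hl hT.1) w hR
  · refine h3 θ ω n hB hP (hT.2.imp id fun hF => ?_)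
    exact h3b θ ω hB.pf (fw_R_SK hB.pf.pos hF)
  · intro α β γ ha hb hc hac u v hu hv hJ hg
    have hJn : Jn α β u v := by
      refine Relation.ReflTransGen.mono ?_ u v hJ
      intro x y hxy
      exact hxy.2.2
    have h6 : Jm α β γ (rho ω u) (rho ω v) := h2 θ α β γ ω hB ha hb hc hac u v hu.1 hJn hg
    have h7 : θ.r u (rho ω u) := h5 θ ω hB.pf hT.1 u hu
    have h8 : θ.r v (rho ω v) := h5 θ ω hB.pf hT.1 v hv
    have h9 : Jm α β γ u (rho ω v) :=
      Relation.ReflTransGen.head (Or.inl (ha _ _ h7)) h6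
    exact Relation.ReflTransGen.tail h9 (Or.inl (α.symm' (ha _ _ h8)))

end Helper1.IM
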