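import Pool.Agent.Helper1.IM.NSt2

set_option autoImplicit false

namespace Helper1.IM

/-- The quotient of the words by `θ`. -/
private def sdq_SKK (θ : FIC) : Setoid Wd := ⟨θ.r, ⟨θ.refl', fun h => θ.symm' h, fun h h' => θ.trans' h h'⟩⟩

/-- The quotient monoid. -/
private def Qmq_SKK (θ : FIC) : Type := Quotient (sdq_SKK θ)

/-- The class of a word. -/
private def mkq_SKK (θ : FIC) (w : Wd) : Qmq_SKK θ := Quotient.mk (sdq_SKK θ) w

private theorem mkq_eq_SKK {θ : FIC} {u v : Wd} : mkq_SKK θ u = mkq_SKK θ v ↔ θ.r u v :=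
  ⟨fun h => Quotient.exact h, fun h => Quotient.sound h⟩

private instance mulq_SKK (θ : FIC) : Mul (Qmq_SKK θ) where
  mul := Quotient.map₂ (fun u v => u ++ v) (fun _ _ h _ _ h' => θ.mul2 h h')

private theorem mkq_mul_SKK (θ : FIC) (u v : Wd) : mkq_SKK θ (u ++ v) = mkq_SKK θ u * mkq_SKK θ v := rfl

private instance oneq_SKK (θ : FIC) : _root_.One (Qmq_SKK θ) where
  one := mkq_SKK θ []

private instance monoidq_SKK (θ : FIC) : Monoid (Qmq_SKK θ) where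
  mul_assoc := by
    intro a b c
    induction a using Quotient.ind
    induction b using Quotient.ind
    induction c using Quotient.ind
    rename_i a b c
    change mkq_SKK θ ((a ++ b) ++ c) = mkq_SKK θ (a ++ (b ++ c))
    rw [List.append_assoc]
  one_mul := by
    intro a
    induction a using Quotient.ind
    rename_i a
    change mkq_SKK θ ([] ++ a) = mkq_SKK θ a
    rw [List.nil_append]
  mul_one := by
    intro a
    induction a using Quotient.ind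
    rename_i a
    change mkq_SKK θ (a ++ []) = mkq_SKK θ a
    rw [List.append_nil]

private theorem mkq_pw_SKK (θ : FIC) (u : Wd) (k : ℕ) : mkq_SKK θ (pw u k) = mkq_SKK θ u ^ k := by
  induction k with
  | zero => rfl
  | succ k ih => rw [pw_succ', mkq_mul_SKK, ih, pow_succ]

theorem hSKK (_h1 : StTk1) (_h2 : StTk2) : StSKK := by
  intro θ ω n hB hK hor
  refine ⟨hK, Or.inr ?_⟩
  have hK' : ∀ s t : Wd, s ≠ [] → t ≠ [] →
      mkq_SKK θ s ^ ω * mkq_SKK θ t = mkq_SKK θ s ^ ω * mkq_SKK θ t ^ (ω + 1) := by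
    intro s t hs ht
    have h1 := mkq_eq_SKK.2 (θ.sub' (fun i => if i = 0 then s else t) (by
      intro i
      split_ifs
      · exact hs
      · exact ht) hK)
    rw [sb_append, sb_append, sb_pw, sb_pw, mkq_mul_SKK, mkq_mul_SKK, mkq_pw_SKK, mkq_pw_SKK] at h1
    simpa using h1
  -- the dual of `K1`
  have hKd : ∀ s t : Wd, s ≠ [] → t ≠ [] →
      mkq_SKK θ t * mkq_SKK θ s ^ ω = mkq_SKK θ t ^ (ω + 1) * mkq_SKK θ s ^ ω := by
    intro s t hs ht
    have h1 : θ.r (pw (st s) ω ++ st t) (pw (st s) ω ++ pw (st t) (ω + 1)) := by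
      rw [← mkq_eq_SKK, mkq_mul_SKK, mkq_mul_SKK, mkq_pw_SKK, mkq_pw_SKK]
      exact hK' (st s) (st t) (by simpa using hs) (by simpa using ht)
    have h2 := mkq_eq_SKK.2 (θ.star' h1)
    rw [st_append, st_append, st_pw, st_pw, st_st, st_st, mkq_mul_SKK, mkq_mul_SKK, mkq_pw_SKK,
      mkq_pw_SKK] at h2
    exact h2
  have hXY : mkq_SKK θ [X 0] ^ (ω + 2) * mkq_SKK θ [X 1] =
      mkq_SKK θ [X 0] ^ (ω + 2) * mkq_SKK θ [X 1] ^ (ω + 1) := by
    have h1 : ω + 2 = 2 + ω := by ring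
    rw [h1, pow_add, mul_assoc, mul_assoc, hK' [X 0] [X 1] (by simp) (by simp)]
  have hsy : mkq_SKK θ [X 0] ^ (ω + 1) = mkq_SKK θ [Y 0] ^ (ω + 1) := by
    have := mkq_eq_SKK.2 hB.sy
    rwa [mkq_pw_SKK, mkq_pw_SKK] at this
  have hcm : mkq_SKK θ [X 0] ^ (ω + 1) * mkq_SKK θ [X 1] ^ (ω + 1) =
      mkq_SKK θ [X 1] ^ (ω + 1) * mkq_SKK θ [X 0] ^ (ω + 1) := by
    have := mkq_eq_SKK.2 hB.cm
    rwa [mkq_mul_SKK, mkq_mul_SKK, mkq_pw_SKK, mkq_pw_SKK] at this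
  have hper : mkq_SKK θ [X 0] ^ (ω + 2 + ω) = mkq_SKK θ [X 0] ^ (ω + 2) := by
    have := mkq_eq_SKK.2 (hB.pf.add (t := [X 0]) (by simp) (j := ω + 2) (by omega))
    rwa [mkq_pw_SKK, mkq_pw_SKK] at this
  intro u hu
  rw [← mkq_eq_SKK, mkq_mul_SKK, mkq_pw_SKK, mkq_pw_SKK]
  rcases hor with hC | hQ
  · have h1 := mkq_eq_SKK.2 (hC.2.2 u hu)
    rw [mkq_mul_SKK, mkq_pw_SKK] at h1
    rw [h1, hXY]
  · have hQ1 : ∀ a b c : Wd, a ≠ [] → b ≠ [] → c ≠ [] →
        mkq_SKK θ a * mkq_SKK θ b * mkq_SKK θ c =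
          mkq_SKK θ a * mkq_SKK θ b ^ (ω + 1) * mkq_SKK θ c := by
      intro a b c ha hb hc
      have h1 := mkq_eq_SKK.2 (θ.sub' (fun i => if i = 0 then a else if i = 1 then b else c) (by
        intro i
        split_ifs
        · exact ha
        · exact hb
        · exact hc) hQ.2.1)
      have e : ([X 0, X 1, X 2] : Wd) = [X 0] ++ [X 1] ++ [X 2] := rfl
      rw [e, sb_append, sb_append, sb_append, sb_append, sb_pw, mkq_mul_SKK, mkq_mul_SKK,
        mkq_mul_SKK, mkq_mul_SKK, mkq_pw_SKK] at h1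
      simpa using h1
    have hsq : mkq_SKK θ [X 0] * mkq_SKK θ [X 0] ^ (ω + 1) * mkq_SKK θ [X 1] =
        mkq_SKK θ [X 0] ^ (ω + 2) * mkq_SKK θ [X 1] ^ (ω + 1) := by
      rw [← pow_succ', ← hXY]
    have hmid : ∀ z : Wd, z ≠ [] → mkq_SKK θ z ^ (ω + 1) = mkq_SKK θ [X 0] ^ (ω + 1) →
        mkq_SKK θ [X 0] * mkq_SKK θ [X 1] * mkq_SKK θ z =
        mkq_SKK θ [X 0] ^ (ω + 2) * mkq_SKK θ [X 1] ^ (ω + 1) := by
      intro z hz hzz
      rw [hQ1 [X 0] [X 1] z (by simp) (by simp) hz, pow_succ (mkq_SKK θ [X 1]), ← mul_assoc,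
        hKd [X 1] [X 0] (by simp) (by simp), mul_assoc, mul_assoc]
      have e1 : mkq_SKK θ [X 1] ^ ω * (mkq_SKK θ [X 1] * mkq_SKK θ z) =
          mkq_SKK θ [X 1] ^ (ω + 1) * mkq_SKK θ [X 0] ^ (ω + 1) := by
        rw [← mul_assoc, ← pow_succ, pow_succ', mul_assoc, hK' [X 1] z (by simp) hz, hzz, ← mul_assoc]
      rw [e1, ← hcm, ← mul_assoc, ← pow_add]
      have e2 : ω + 1 + (ω + 1) = ω + 2 + ω := by ring
      rw [e2, hper, ← pow_succ]
    simp only [Fw, List.mem_cons, List.not_mem_nil, or_false] at hu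
    rcases hu with rfl | rfl | rfl | rfl
    · change mkq_SKK θ [X 0] * mkq_SKK θ [X 0] * mkq_SKK θ [X 1] = _
      rw [hQ1 [X 0] [X 0] [X 1] (by simp) (by simp) (by simp), hsq]
    · change mkq_SKK θ [X 0] * mkq_SKK θ [Y 0] * mkq_SKK θ [X 1] = _
      rw [hQ1 [X 0] [Y 0] [X 1] (by simp) (by simp) (by simp), ← hsy, hsq]
    · change mkq_SKK θ [X 0] * mkq_SKK θ [X 1] * mkq_SKK θ [X 0] = _
      exact hmid [X 0] (by simp) rfl
    · change mkq_SKK θ [X 0] * mkq_SKK θ [X 1] * mkq_SKK θ [Y 0] = _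
      exact hmid [Y 0] (by simp) hsy.symm

end Helper1.IM
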