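import Pool.Agent.Helper1.IM.NSt2

/-!
# Module SQ: type Q is modular (assembly)
-/

set_option autoImplicit false

namespace Helper1.IM

theorem hSQ (s1 : StS1) (h3 : StS3) (hk : StSK) (hkk : StSKK) (hf : StQF) (q2 : StQ2) (q3 : StQ3h)
    (q9 : StQ9) : StSQ := by
  intro θ ω n hM hB hP hQ
  have hBQ : BQ θ ω := ⟨hB, hQ.1, hQ.2.1⟩
  rcases q2 θ ω hBQ with hK | hS
  · exact hk θ ω n hM hB hP (hkk θ ω n hB hK (Or.inr hBQ))
  · have hR : ∀ w : Wd, 3 ≤ w.length → R θ ω w := (hf θ ω hBQ).2.2.2.2.1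
    exact s1 θ ω hB hM (q3 θ ω hBQ) (h3 θ ω n hB hP (Or.inr fun w hw _ => hR w hw))
      (q9 θ ω n hBQ hP hQ.2.2.1 hQ.2.2.2 hS)

end Helper1.IM
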