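import Pool.Agent.Helper1.IM.NSt

/-!
# Project IM (MP_265e56_al), second part, module Tk1: toolkit 1, powers and star
-/

set_option autoImplicit false

namespace Helper1.IM

private theorem pwr_Tk1 (θ : FIC) {u v : Wd} (h : θ.r u v) (k : ℕ) : θ.r (pw u k) (pw v k) := by
  induction k with
  | zero => exact θ.refl' _
  | succ k ih => rw [pw_succ, pw_succ]; exact θ.mul2 h ih

private theorem one_Tk1 {θ : FIC} {ω : ℕ} (h : Bc θ ω) {t : Wd} (ht : t ≠ []) {j : ℕ} (hj : ω ≤ j) :
    θ.r (pw t j) (pw (st t) j) := by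
  have h1 := θ.sub' (fun _ => t) (fun _ => ht) h.sy
  rw [sb_pw, sb_pw] at h1
  have e1 : sb (fun _ => t) [X 0] = t := by simp [sb_single, X]
  have e2 : sb (fun _ => t) [Y 0] = st t := by simp [sb_single, Y]
  rw [e1, e2] at h1
  have key : ∀ s : Wd, s ≠ [] → θ.r (pw (pw s (ω + 1)) j) (pw s j) := by
    intro s hs
    rw [pw_mul]
    have e : (ω + 1) * j = j + j * ω := by ring
    rw [e]
    exact h.pf.addmul hs hj j
  have hst : st t ≠ [] := by simpa using ht
  exact θ.trans' (θ.symm' (key t ht)) (θ.trans' (pwr_Tk1 θ h1 j) (key (st t) hst))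

private theorem two_Tk1 {θ : FIC} {ω : ℕ} (h : Bc θ ω) {t : Wd} (ht : t ≠ []) {j : ℕ} (hj : ω ≤ j) :
    θ.r (pw t j ++ st t) (pw t (j + 1)) ∧ θ.r (st t ++ pw t j) (pw t (j + 1)) := by
  have h1 := one_Tk1 h ht hj
  have h2 := θ.symm' (one_Tk1 h ht (j := j + 1) (by omega))
  constructor
  · refine θ.trans' (θ.mulR (st t) h1) ?_
    rw [← pw_succ']
    exact h2
  · refine θ.trans' (θ.mulL (st t) h1) ?_
    rw [← pw_succ]
    exact h2

private theorem three_Tk1 {θ : FIC} {ω : ℕ} (h : Bc θ ω) {t : Wd} (ht : t ≠ []) (w : Wd) :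
    ∀ j : ℕ, ω ≤ j → θ.r (pw t j ++ sb (fun _ => t) w) (pw t (j + w.length)) := by
  induction w with
  | nil => intro j _; simpa using θ.refl' _
  | cons a w ih =>
    intro j hj
    have h1 : θ.r (pw t j ++ sb (fun _ => t) [a]) (pw t (j + 1)) := by
      obtain ⟨i, b⟩ := a
      rw [sb_single]
      cases b
      · simp only [Bool.false_eq_true, if_false]
        rw [← pw_succ']
        exact θ.refl' _
      · simp only [if_true]
        exact (two_Tk1 h ht hj).1
    have h2 : sb (fun _ => t) (a :: w) = sb (fun _ => t) [a] ++ sb (fun _ => t) w := by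
      rw [← sb_append]; rfl
    rw [h2, ← List.append_assoc]
    refine θ.trans' (θ.mulR _ h1) ?_
    have h3 := ih (j + 1) (by omega)
    have e : j + (a :: w).length = j + 1 + w.length := by rw [List.length_cons]; ring
    rw [e]
    exact h3

private theorem four_Tk1 {θ : FIC} {ω : ℕ} (h : Bc θ ω) {t : Wd} (ht : t ≠ []) (w : Wd) :
    ∀ j : ℕ, ω ≤ j → θ.r (sb (fun _ => t) w ++ pw t j) (pw t (j + w.length)) := by
  induction w with
  | nil => intro j _; simpa using θ.refl' _
  | cons a w ih =>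
    intro j hj
    have h2 : sb (fun _ => t) (a :: w) = sb (fun _ => t) [a] ++ sb (fun _ => t) w := by
      rw [← sb_append]; rfl
    rw [h2, List.append_assoc]
    refine θ.trans' (θ.mulL _ (ih j hj)) ?_
    have e : j + (a :: w).length = (j + w.length) + 1 := by rw [List.length_cons]; ring
    rw [e]
    obtain ⟨i, b⟩ := a
    rw [sb_single]
    cases b
    · simp only [Bool.false_eq_true, if_false]
      rw [← pw_succ]
      exact θ.refl' _
    · simp only [if_true]
      exact (two_Tk1 h ht (j := j + w.length) (by omega)).2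

theorem hTk1 : StTk1 := fun _ ω h =>
  ⟨fun _ ht _ hj => one_Tk1 h ht hj, fun _ ht _ hj => two_Tk1 h ht hj,
    fun w _ _ ht => ⟨three_Tk1 h ht w ω (le_refl ω), four_Tk1 h ht w ω (le_refl ω)⟩⟩

end Helper1.IM
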