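import Pool.Agent.Helper1.IM.NSt

/-!
# Project IM, second part: module Tk2 (toolkit: regular words commute)
-/

set_option autoImplicit false

namespace Helper1.IM

private def P2 (ω i : ℕ) : Wd := pw [X i] (ω + 1)

private def RP2 (ω : ℕ) (l : List ℕ) : Wd := l.flatMap (P2 ω)

private theorem RP2_cons (ω i : ℕ) (l : List ℕ) : RP2 ω (i :: l) = P2 ω i ++ RP2 ω l := by
  simp [RP2]

private theorem RP2_append (ω : ℕ) (l l' : List ℕ) : RP2 ω (l ++ l') = RP2 ω l ++ RP2 ω l' := by
  simp [RP2]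

private theorem sy2 {θ : FIC} {ω : ℕ} (h : Bc θ ω) (i : ℕ) : θ.r (P2 ω i) (st (P2 ω i)) := by
  have h1 := θ.sub' (fun _ => [X i]) (by simp) h.sy
  rw [sb_pw, sb_pw] at h1
  have e1 : sb (fun _ => [X i]) [X 0] = [X i] := by simp
  have e2 : sb (fun _ => [X i]) [Y 0] = [Y i] := by simp
  rw [e1, e2] at h1
  unfold P2
  rw [st_pw]
  exact h1

private theorem cm2 {θ : FIC} {ω : ℕ} (h : Bc θ ω) (i j : ℕ) :
    θ.r (P2 ω i ++ P2 ω j) (P2 ω j ++ P2 ω i) := by
  have h1 := θ.sub' (fun k => if k = 0 then [X i] else [X j]) (by intro k; by_cases hk : k = 0 <;> simp [hk]) h.cm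
  rw [sb_append, sb_append, sb_pw, sb_pw] at h1
  have e1 : sb (fun k => if k = 0 then [X i] else [X j]) [X 0] = [X i] := by simp
  have e2 : sb (fun k => if k = 0 then [X i] else [X j]) [X 1] = [X j] := by simp
  rw [e1, e2] at h1
  exact h1

private theorem rho_cons2 (ω : ℕ) (a : Lt) (u : Wd) :
    rho ω (a :: u) = (if a.2 then st (P2 ω a.1) else P2 ω a.1) ++ rho ω u := by
  unfold rho
  rw [sb_cons]
  rfl

private theorem rho_RP2 {θ : FIC} {ω : ℕ} (h : Bc θ ω) (u : Wd) :
    θ.r (rho ω u) (RP2 ω (u.map Prod.fst)) := by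
  induction u with
  | nil => exact θ.refl' _
  | cons a u ih =>
    rw [rho_cons2, List.map_cons, RP2_cons]
    refine θ.mul2 ?_ ih
    by_cases ha : a.2
    · rw [if_pos ha]
      exact θ.symm' (sy2 h _)
    · rw [if_neg ha]
      exact θ.refl' _

private theorem perm2 {θ : FIC} {ω : ℕ} (h : Bc θ ω) {l l' : List ℕ} (hp : l.Perm l') :
    θ.r (RP2 ω l) (RP2 ω l') := by
  induction hp with
  | nil => exact θ.refl' _
  | cons a _ ih =>
    rw [RP2_cons, RP2_cons]
    exact θ.mulL _ ih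
  | swap a b l =>
    rw [RP2_cons, RP2_cons, RP2_cons, RP2_cons, ← List.append_assoc, ← List.append_assoc]
    exact θ.mulR _ (cm2 h _ _)
  | trans _ _ ih1 ih2 => exact θ.trans' ih1 ih2

private def Q2 (ω : ℕ) (d : List ℕ) (m : ℕ → ℕ) : Wd := d.flatMap fun i => pw [X i] ((ω + 1) * m i)

private theorem RP2_replicate (ω i k : ℕ) : RP2 ω (List.replicate k i) = pw [X i] ((ω + 1) * k) := by
  induction k with
  | zero => rfl
  | succ k ih =>
    have e : (ω + 1) * (k + 1) = (ω + 1) + (ω + 1) * k := by ring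
    rw [List.replicate_succ, RP2_cons, ih, e, pw_add]
    rfl

private theorem Q2_eq (ω : ℕ) (d : List ℕ) (m : ℕ → ℕ) :
    Q2 ω d m = RP2 ω (d.flatMap fun i => List.replicate (m i) i) := by
  induction d with
  | nil => rfl
  | cons i d ih =>
    have e1 : Q2 ω (i :: d) m = pw [X i] ((ω + 1) * m i) ++ Q2 ω d m := by simp [Q2]
    rw [e1, List.flatMap_cons, RP2_append, RP2_replicate, ih]

private theorem count2 (d : List ℕ) (hd : d.Nodup) (m : ℕ → ℕ) (j : ℕ) :
    (d.flatMap fun i => List.replicate (m i) i).count j = if j ∈ d then m j else 0 := by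
  induction d with
  | nil => simp
  | cons i d ih =>
    rw [List.nodup_cons] at hd
    rw [List.flatMap_cons, List.count_append, ih hd.2]
    by_cases hij : j = i
    · subst hij
      simp [hd.1]
    · rw [List.count_replicate]
      have h1 : ¬ (i = j) := fun h => hij h.symm
      simp [hij, h1]

private theorem toQ2 {θ : FIC} {ω : ℕ} (h : Bc θ ω) (u : Wd) :
    θ.r (rho ω u) (Q2 ω (ct u).toList (fun i => oc i u)) := by
  refine θ.trans' (rho_RP2 h u) ?_
  rw [Q2_eq]
  apply perm2 h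
  rw [List.perm_iff_count]
  intro j
  rw [count2 _ (Finset.nodup_toList _)]
  by_cases hj : j ∈ ct u
  · rw [if_pos (Finset.mem_toList.2 hj)]; rfl
  · rw [if_neg (fun h => hj (Finset.mem_toList.1 h))]
    exact oc_eq_zero.2 hj

private theorem Q2_congr {θ : FIC} {ω : ℕ} (d : List ℕ) (m m' : ℕ → ℕ)
    (h : ∀ i ∈ d, θ.r (pw [X i] ((ω + 1) * m i)) (pw [X i] ((ω + 1) * m' i))) :
    θ.r (Q2 ω d m) (Q2 ω d m') := by
  induction d with
  | nil => exact θ.refl' _
  | cons i d ih =>
    have e1 : ∀ m, Q2 ω (i :: d) m = pw [X i] ((ω + 1) * m i) ++ Q2 ω d m := by intro m; simp [Q2]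
    rw [e1, e1]
    exact θ.mul2 (h i (by simp)) (ih fun j hj => h j (by simp [hj]))

private theorem per2 {θ : FIC} {ω n : ℕ} (h : θ.r (pw [X 0] ω) (pw [X 0] (ω + n))) {t : Wd} (ht : t ≠ [])
    {j : ℕ} (hj : ω ≤ j) (k : ℕ) : θ.r (pw t (j + n * k)) (pw t j) := by
  have h0 : θ.r (pw t (ω + n)) (pw t ω) := by
    have h1 := θ.sub' (fun _ => t) (fun _ => ht) h
    rw [sb_pw, sb_pw] at h1
    have h2 : sb (fun _ => t) [X 0] = t := by simp
    rw [h2] at h1
    exact θ.symm' h1
  have h1 : ∀ j, ω ≤ j → θ.r (pw t (j + n)) (pw t j) := by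
    intro j hj
    obtain ⟨k, rfl⟩ := Nat.exists_eq_add_of_le hj
    have h2 := θ.mulR (pw t k) h0
    rw [← pw_add, ← pw_add] at h2
    have h3 : ω + n + k = ω + k + n := by ring
    rwa [h3] at h2
  induction k with
  | zero => simpa using θ.refl' _
  | succ k ih =>
    have e : j + n * (k + 1) = (j + n * k) + n := by ring
    rw [e]
    exact θ.trans' (h1 _ (by omega)) ih

private theorem per2' {θ : FIC} {ω n : ℕ} (h : θ.r (pw [X 0] ω) (pw [X 0] (ω + n))) {t : Wd} (ht : t ≠ [])
    {a b : ℕ} (ha : 1 ≤ a) (hb : 1 ≤ b) (hab : a ≡ b [MOD n]) :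
    θ.r (pw t ((ω + 1) * a)) (pw t ((ω + 1) * b)) := by
  have key : ∀ a b : ℕ, 1 ≤ a → a ≤ b → a ≡ b [MOD n] → θ.r (pw t ((ω + 1) * b)) (pw t ((ω + 1) * a)) := by
    intro a b ha hle hab
    have h1 : n ∣ b - a := (Nat.modEq_iff_dvd' hle).1 hab
    obtain ⟨q, hq⟩ := h1
    have h2 : (ω + 1) * b = (ω + 1) * a + n * ((ω + 1) * q) := by
      have : b = a + n * q := by omega
      rw [this]; ring
    rw [h2]
    exact per2 h ht (by nlinarith) _
  rcases le_total a b with hle | hle
  · exact θ.symm' (key a b ha hle hab)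
  · exact key b a hb hle hab.symm

theorem hTk2 (_h : StTk1) : StTk2 := by
  intro θ ω hB
  have hct : ∀ w, ct (rho ω w) = ct w := by
    intro w
    unfold rho
    rw [ct_sb]
    ext j
    simp only [Finset.mem_biUnion]
    constructor
    · rintro ⟨i, hi, hj⟩
      rw [ct_pw _ (Nat.succ_pos ω)] at hj
      have : j = i := by simpa using hj
      rwa [this]
    · intro hj
      refine ⟨j, hj, ?_⟩
      rw [ct_pw _ (Nat.succ_pos ω)]
      simp
  have hoc : ∀ w i, oc i (rho ω w) = (ω + 1) * oc i w := by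
    intro w i
    induction w with
    | nil => simp [rho]
    | cons a w ih =>
      rw [rho_cons2, oc_append, ih, oc_cons]
      have e1 : oc i (if a.2 then st (P2 ω a.1) else P2 ω a.1) = (ω + 1) * (if a.1 = i then 1 else 0) := by
        have e2 : oc i (P2 ω a.1) = (ω + 1) * (if a.1 = i then 1 else 0) := by
          unfold P2
          rw [oc_pw]
          congr 1
          rw [oc_cons]
          simp
        by_cases ha : a.2
        · rw [if_pos ha, oc_st, e2]
        · rw [if_neg ha, e2]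
      rw [e1]
      ring
  have h2 : ∀ n, θ.r (pw [X 0] ω) (pw [X 0] (ω + n)) → ∀ u v, ct u = ct v →
      (∀ i, oc i u ≡ oc i v [MOD n]) → θ.r (rho ω u) (rho ω v) := by
    intro n hn u v huv hmod
    refine θ.trans' (toQ2 hB u) (θ.trans' ?_ (θ.symm' (toQ2 hB v)))
    rw [huv]
    refine Q2_congr _ _ _ fun i hi => ?_
    rw [Finset.mem_toList] at hi
    have h1 : 0 < oc i v := oc_pos.2 hi
    have h3 : 0 < oc i u := oc_pos.2 (huv ▸ hi)
    exact per2' hn (by simp) h3 h1 (hmod i)
  refine ⟨fun u v => ?_, h2, fun w => ?_, fun w hw => ?_, fun w => ⟨hct w, hoc w⟩⟩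
  · refine θ.trans' (θ.mul2 (rho_RP2 hB u) (rho_RP2 hB v)) ?_
    refine θ.trans' ?_ (θ.symm' (θ.mul2 (rho_RP2 hB v) (rho_RP2 hB u)))
    rw [← RP2_append, ← RP2_append]
    exact perm2 hB List.perm_append_comm
  · refine h2 ω hB.pf.idm _ _ (hct w) fun i => ?_
    rw [hoc]
    have : (ω + 1) * oc i w = oc i w + ω * oc i w := by ring
    rw [this]
    exact Nat.ModEq.symm (by simp [Nat.ModEq])
  · cases w with
    | nil => exact absurd rfl hw
    | cons a w =>
      rw [rho_cons2]
      have hne : ∀ i, [X i] ≠ ([] : Wd) := by simp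
      have key : ∀ t : Wd, t ≠ [] → R θ ω (pw t (ω + 1) ++ rho ω w) := by
        intro t ht
        rw [pw_succ']
        have := R.mk' (θ := θ) hB.pf.pos ht [] (t ++ rho ω w)
        simpa [List.append_assoc] using this
      by_cases ha : a.2
      · rw [if_pos ha]
        unfold P2
        rw [st_pw]
        exact key _ (by simp)
      · rw [if_neg ha]
        exact key _ (by simp)

end Helper1.IM
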