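import Pool.Agent.Helper1.IM.NSt

set_option autoImplicit false

namespace Helper1.IM

private theorem one_id_Tk3 {w : Wd} (hw : One w) : sb (fun _ => [X 0]) w = w := by
  have h1 : sb (fun _ => [X 0]) w = sb (fun i => [(i, false)]) w := by
    apply sb_congr
    intro i hi
    obtain ⟨b, hb⟩ := mem_ct.1 hi
    have h2 : i = 0 := hw _ hb
    rw [h2]
    rfl
  rw [h1, sb_id]

private theorem one_app_Tk3 {u v : Wd} (hu : One u) (hv : One v) : One (u ++ v) := by
  intro a ha
  rcases List.mem_append.1 ha with h | h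
  · exact hu a h
  · exact hv a h

private theorem one_pw_Tk3 {u : Wd} (hu : One u) (k : ℕ) : One (pw u k) := by
  induction k with
  | zero => intro a ha; simp at ha
  | succ k ih => rw [pw_succ]; exact one_app_Tk3 hu ih

private theorem one_st_Tk3 {u : Wd} (hu : One u) : One (st u) := by
  intro a ha
  unfold st at ha
  rw [List.mem_reverse, List.mem_map] at ha
  obtain ⟨b, hb, rfl⟩ := ha
  rw [fl_fst]
  exact hu b hb

/-- the substitution of the first part -/
private def f1_Tk3 (ω i : ℕ) : ℕ → Wd := fun j => if j = i then [X 0] else pw [X 0] ω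

private theorem f1_one_Tk3 (ω i j : ℕ) : One (f1_Tk3 ω i j) := by
  have h0 : One [X 0] := by
    intro a ha
    rw [List.mem_singleton] at ha
    rw [ha]
    rfl
  unfold f1_Tk3
  split_ifs
  · exact h0
  · exact one_pw_Tk3 h0 ω

private theorem f1_sb_Tk3 (ω i : ℕ) (u : Wd) :
    One (sb (f1_Tk3 ω i) u) ∧ ∃ k, (sb (f1_Tk3 ω i) u).length = oc i u + k * ω := by
  induction u with
  | nil => exact ⟨by intro a ha; simp at ha, 0, by simp⟩
  | cons a u ih =>
    obtain ⟨h1, k, h2⟩ := ih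
    have hone : One (if a.2 then st (f1_Tk3 ω i a.1) else f1_Tk3 ω i a.1) := by
      split_ifs
      · exact one_st_Tk3 (f1_one_Tk3 ω i a.1)
      · exact f1_one_Tk3 ω i a.1
    have hlen : (if a.2 then st (f1_Tk3 ω i a.1) else f1_Tk3 ω i a.1).length
        = (f1_Tk3 ω i a.1).length := by
      split_ifs
      · exact st_length _
      · rfl
    refine ⟨by rw [sb_cons]; exact one_app_Tk3 hone h1, ?_⟩
    rw [sb_cons, List.length_append, hlen, h2, oc_cons]
    by_cases hi : a.1 = i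
    · refine ⟨k, ?_⟩
      simp only [f1_Tk3, hi, if_true]
      simp only [List.length_singleton]
      omega
    · refine ⟨k + 1, ?_⟩
      simp only [f1_Tk3, hi, if_false]
      rw [length_pw, List.length_singleton]
      ring

private theorem partA_Tk3 (h1 : StTk1) (hP : StNPer) {θ : FIC} {ω : ℕ} (hB : Bc θ ω) {u v : Wd}
    (hr : θ.r u v) (n : ℕ) (hn : Per θ ω n) (i : ℕ) : oc i u ≡ oc i v [MOD n] := by
  have hω := hB.pf.pos
  have h7 := hB.pf.h7
  have hX : ([X 0] : Wd) ≠ [] := by simp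
  have hfn : ∀ j, f1_Tk3 ω i j ≠ [] := by
    intro j
    unfold f1_Tk3
    split_ifs
    · exact hX
    · exact pw_ne_nil hX hω
  have hs := θ.mulL (pw [X 0] ω) (θ.sub' (f1_Tk3 ω i) hfn hr)
  have key : ∀ w : Wd, θ.r (pw [X 0] ω ++ sb (f1_Tk3 ω i) w) (pw [X 0] (ω + oc i w)) := by
    intro w
    obtain ⟨ho, k, hk⟩ := f1_sb_Tk3 ω i w
    have h2 := ((h1 θ ω hB).2.2 _ ho [X 0] hX).1
    rw [one_id_Tk3 ho, hk, ← Nat.add_assoc] at h2
    exact θ.trans' h2 (hB.pf.addmul hX (by omega) k)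
  have h3 : θ.r (pw [X 0] (ω + oc i u)) (pw [X 0] (ω + oc i v)) :=
    θ.trans' (θ.symm' (key u)) (θ.trans' hs (key v))
  have h4 := θ.mulR (pw [X 0] (oc i u * (ω - 1))) h3
  rw [← pw_add, ← pw_add] at h4
  obtain ⟨m, rfl⟩ : ∃ m, ω = m + 1 := ⟨ω - 1, by omega⟩
  have e1 : m + 1 + oc i u + oc i u * (m + 1 - 1) = m + 1 + oc i u * (m + 1) := by
    rw [Nat.add_sub_cancel]
    ring
  have e2 : m + 1 + oc i v + oc i u * (m + 1 - 1) = m + 1 + (oc i v + oc i u * m) := by
    rw [Nat.add_sub_cancel]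
    ring
  rw [e1, e2] at h4
  have h5 := θ.trans' (θ.symm' (hB.pf.addmul hX le_rfl (oc i u))) h4
  have h6 : n ∣ oc i v + oc i u * m := (hn.2 _).1 h5
  have h8 : n ∣ m + 1 := hP.2.2.1 θ (m + 1) n hB.pf hn
  obtain ⟨c, hc⟩ := h6
  obtain ⟨d, hd⟩ := h8
  -- `oc i v + oc i u * (m + 1) = oc i u + n c`
  have h9 : oc i v + n * (oc i u * d) = oc i u + n * c := by
    rw [← hc]
    have : n * (oc i u * d) = oc i u * (m + 1) := by
      rw [hd]
      ring
    rw [this]
    ring
  have h10 : oc i v + n * (oc i u * d) ≡ oc i v [MOD n] := by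
    have := Nat.ModEq.add_left (oc i v)
      ((Nat.modEq_zero_iff_dvd (n := n) (a := n * (oc i u * d))).2 (Dvd.intro _ rfl))
    simpa using this
  have h11 : oc i u + n * c ≡ oc i u [MOD n] := by
    have := Nat.ModEq.add_left (oc i u)
      ((Nat.modEq_zero_iff_dvd (n := n) (a := n * c)).2 (Dvd.intro _ rfl))
    simpa using this
  rw [h9] at h10
  exact h11.symm.trans h10

/-- the substitution of the second part -/
private def f2_Tk3 (ω i : ℕ) : ℕ → Wd := fun j => if j = i then pw [X 1] (ω + 1) else pw [X 0] ω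

private theorem partB_Tk3 (h1 : StTk1) {θ : FIC} {ω : ℕ} (hB : Bc θ ω) {u v : Wd}
    (hr : θ.r u v) (i : ℕ) (hi : i ∈ ct u) (hi' : i ∉ ct v) :
    θ.r (pw [X 0] ω ++ pw [X 1] ω) (pw [X 0] ω) := by
  have hω := hB.pf.pos
  have hX : ([X 0] : Wd) ≠ [] := by simp
  have hX1 : ([X 1] : Wd) ≠ [] := by simp
  have hfn : ∀ j, f2_Tk3 ω i j ≠ [] := by
    intro j
    unfold f2_Tk3
    split_ifs
    · exact pw_ne_nil hX1 (Nat.succ_pos ω)
    · exact pw_ne_nil hX hω
  have hs := θ.mulL (pw [X 0] ω) (θ.sub' (f2_Tk3 ω i) hfn hr)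
  -- commutation
  have hcm : θ.r (pw [X 0] ω ++ pw [X 1] (ω + 1)) (pw [X 1] (ω + 1) ++ pw [X 0] ω) := by
    have h2 := θ.sub' (fun j => if j = 0 then pw [X 0] ω else [X j]) (by
      intro j
      split_ifs
      · exact pw_ne_nil hX hω
      · simp) hB.cm
    rw [sb_append, sb_append, sb_pw, sb_pw] at h2
    have e0 : sb (fun j => if j = 0 then pw [X 0] ω else [X j]) [X 0] = pw [X 0] ω := by
      rw [sb_X, sb_nil, List.append_nil, if_pos rfl]
    have e1 : sb (fun j => if j = 0 then pw [X 0] ω else [X j]) [X 1] = [X 1] := by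
      rw [sb_X, sb_nil, List.append_nil, if_neg one_ne_zero]
    rw [e0, e1, pw_mul, Nat.mul_comm] at h2
    have h3 : θ.r (pw [X 0] ((ω + 1) * ω)) (pw [X 0] ω) := hB.pf.mul hX (Nat.succ_pos ω)
    exact θ.trans' (θ.mulR _ (θ.symm' h3)) (θ.trans' h2 (θ.mulL _ h3))
  -- absorption of one letter
  have habs : ∀ a : Lt, a.1 ≠ i →
      θ.r (pw [X 0] ω ++ (if a.2 then st (f2_Tk3 ω i a.1) else f2_Tk3 ω i a.1)) (pw [X 0] ω) := by
    intro a ha
    have e : f2_Tk3 ω i a.1 = pw [X 0] ω := by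
      unfold f2_Tk3
      rw [if_neg ha]
    rw [e]
    split_ifs
    · rw [st_pw]
      exact θ.trans' (θ.mulL _ (θ.symm' ((h1 θ ω hB).1 [X 0] hX ω le_rfl))) (hB.pf.idm2 hX)
    · exact hB.pf.idm2 hX
  have hy : ∀ a : Lt, a.1 = i →
      θ.r (if a.2 then st (f2_Tk3 ω i a.1) else f2_Tk3 ω i a.1) (pw [X 1] (ω + 1)) := by
    intro a ha
    have e : f2_Tk3 ω i a.1 = pw [X 1] (ω + 1) := by
      unfold f2_Tk3
      rw [if_pos ha]
    rw [e]
    split_ifs
    · rw [st_pw]
      exact θ.symm' ((h1 θ ω hB).1 [X 1] hX1 (ω + 1) (Nat.le_succ ω))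
    · exact θ.refl' _
  have key : ∀ w : Wd, θ.r (pw [X 0] ω ++ sb (f2_Tk3 ω i) w)
      (pw [X 0] ω ++ pw [X 1] ((ω + 1) * oc i w)) := by
    intro w
    induction w with
    | nil => simpa using θ.refl' _
    | cons a w ih =>
      rw [sb_cons, ← List.append_assoc, oc_cons]
      by_cases ha : a.1 = i
      · rw [if_pos ha]
        have h2 := θ.mulR (sb (f2_Tk3 ω i) w)
          (θ.trans' (θ.mulL (pw [X 0] ω) (hy a ha)) hcm)
        rw [List.append_assoc (pw [X 1] (ω + 1))] at h2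
        refine θ.trans' h2 (θ.trans' (θ.mulL _ ih) ?_)
        have h3 := θ.mulR (pw [X 1] ((ω + 1) * oc i w)) (θ.symm' hcm)
        rw [List.append_assoc (pw [X 0] ω), ← pw_add, List.append_assoc] at h3
        have e : ω + 1 + (ω + 1) * oc i w = (ω + 1) * (1 + oc i w) := by ring
        rw [e] at h3
        exact h3
      · rw [if_neg ha, zero_add]
        exact θ.trans' (θ.mulR _ (habs a ha)) ih
  have hv0 : oc i v = 0 := oc_eq_zero.2 hi'
  have hu0 : 0 < oc i u := oc_pos.2 hi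
  have h2 : θ.r (pw [X 0] ω ++ pw [X 1] ((ω + 1) * oc i u)) (pw [X 0] ω) := by
    have h3 := θ.trans' (θ.symm' (key u)) (θ.trans' hs (key v))
    rw [hv0, Nat.mul_zero, pw_zero, List.append_nil] at h3
    exact h3
  have h3 : ∀ m, θ.r (pw [X 0] ω ++ pw (pw [X 1] ((ω + 1) * oc i u)) m) (pw [X 0] ω) := by
    intro m
    induction m with
    | zero => simpa using θ.refl' _
    | succ m ih =>
      rw [pw_succ, ← List.append_assoc]
      exact θ.trans' (θ.mulR _ h2) ih
  have h4 := h3 ω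
  rw [pw_mul] at h4
  exact θ.trans' (θ.mulL _ (θ.symm' (hB.pf.mul hX1 (Nat.mul_pos (Nat.succ_pos ω) hu0)))) h4

theorem hTk3 (h1 : StTk1) (_h2 : StTk2) (hP : StNPer) : StTk3 := by
  intro θ ω hB u v hr
  refine ⟨fun n hn i => partA_Tk3 h1 hP hB hr n hn i, fun hc => ?_⟩
  by_contra hcon
  apply hc
  ext i
  constructor
  · intro hi
    by_contra hi'
    exact hcon (partB_Tk3 h1 hB hr i hi hi')
  · intro hi
    by_contra hi'
    exact hcon (partB_Tk3 h1 hB (θ.symm' hr) i hi hi')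

end Helper1.IM
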