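import Pool.Agent.Helper1.IM.NSt

/-!
# Project IM (MP_265e56_al), second part, module Tk4: the case `x^ω y^ω ~ x^ω`
-/

set_option autoImplicit false

namespace Helper1.IM

private theorem ab_Tk4 {θ : FIC} {ω : ℕ} (hab : θ.r (pw [X 0] ω ++ pw [X 1] ω) (pw [X 0] ω)) {s t : Wd}
    (hs : s ≠ []) (ht : t ≠ []) : θ.r (pw s ω ++ pw t ω) (pw s ω) := by
  have h1 := θ.sub' (fun i => if i = 0 then s else t) (fun i => by
    by_cases h : i = 0
    · simpa [h] using hs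
    · simpa [h] using ht) hab
  rw [sb_append, sb_pw, sb_pw] at h1
  have e0 : sb (fun i => if i = 0 then s else t) [X 0] = s := by simp [sb_single, X]
  have e1 : sb (fun i => if i = 0 then s else t) [X 1] = t := by simp [sb_single, X]
  rwa [e0, e1] at h1

private theorem absorb_Tk4 {θ : FIC} {ω : ℕ} (hab : θ.r (pw [X 0] ω ++ pw [X 1] ω) (pw [X 0] ω)) {u s : Wd}
    (hu : u ≠ []) (hs : s ≠ []) : θ.r (rho ω u ++ pw s ω) (rho ω u) := by
  obtain ⟨u', a, rfl⟩ : ∃ u' a, u = u' ++ [a] := ⟨u.dropLast, u.getLast hu, (List.dropLast_append_getLast hu).symm⟩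
  obtain ⟨t, ht, he⟩ : ∃ t : Wd, t ≠ [] ∧ rho ω [a] = t ++ pw t ω := by
    obtain ⟨j, b⟩ := a
    unfold rho
    cases b
    · refine ⟨[X j], by simp, ?_⟩
      rw [sb_single, ← pw_succ]
      simp
    · refine ⟨st [X j], by simp, ?_⟩
      rw [sb_single, ← pw_succ, ← st_pw]
      simp
  have e : rho ω (u' ++ [a]) = (rho ω u' ++ t) ++ pw t ω := by
    have : rho ω (u' ++ [a]) = rho ω u' ++ rho ω [a] := sb_append _ _ _
    rw [this, he, List.append_assoc]
  rw [e, List.append_assoc]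
  exact θ.mulL _ (ab_Tk4 hab ht hs)

private theorem rho_ne_Tk4 {ω : ℕ} {u : Wd} (hu : u ≠ []) : rho ω u ≠ [] :=
  sb_ne_nil _ (fun _ => pw_ne_nil (by simp) (Nat.succ_pos ω)) u hu

private theorem ext_Tk4 {θ : FIC} {ω : ℕ} (hab : θ.r (pw [X 0] ω ++ pw [X 1] ω) (pw [X 0] ω)) {u v : Wd} {n : ℕ}
    (hn : 1 ≤ n) (hu : u ≠ []) (hv : v ≠ []) : θ.r (rho ω (u ++ pw v (n * ω))) (rho ω u) := by
  have e : rho ω (u ++ pw v (n * ω)) = rho ω u ++ pw (pw (rho ω v) n) ω := by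
    rw [pw_mul]
    unfold rho
    rw [sb_append, sb_pw]
  rw [e]
  exact absorb_Tk4 hab hu (pw_ne_nil (rho_ne_Tk4 hv) hn)

theorem hTk4 (h2 : StTk2) : StTk4 := by
  intro θ ω hB hab n hn hper u v hu hv huv
  have hω : 0 < ω := hB.pf.pos
  have hnω : 0 < n * ω := Nat.mul_pos hn hω
  have h1 := ext_Tk4 hab hn hu hv
  have h3 := ext_Tk4 hab hn hv hu
  refine θ.trans' (θ.symm' h1) (θ.trans' ?_ h3)
  refine (h2 θ ω hB).2.1 n hper _ _ ?_ ?_
  · rw [ct_append, ct_append, ct_pw _ hnω, ct_pw _ hnω, Finset.union_comm]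
  · intro i
    rw [oc_append, oc_append, oc_pw, oc_pw]
    have e1 : n * ω * oc i v = n * (ω * oc i v) := by ring
    have e2 : n * ω * oc i u = n * (ω * oc i u) := by ring
    rw [e1, e2]
    have a1 : oc i u + n * (ω * oc i v) ≡ oc i u [MOD n] := by simp [Nat.ModEq]
    have a2 : oc i v + n * (ω * oc i u) ≡ oc i v [MOD n] := by simp [Nat.ModEq]
    exact a1.trans ((huv i).trans a2.symm)

end Helper1.IM
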