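import Pool.Agent.Helper1.IM.Var

/-!
# Project IM (MP_265e56_al), module V5: modularity of the subvariety lattice in terms of congruences
-/

set_option autoImplicit false

namespace Helper1.IM

private theorem mono_V5 {r p : Wd → Wd → Prop} (h : ∀ a b, r a b → p a b) {u v : Wd}
    (hr : Relation.ReflTransGen r u v) : Relation.ReflTransGen p u v := by
  induction hr with
  | refl => exact Relation.ReflTransGen.refl
  | tail _ hab ih => exact ih.tail (h _ _ hab)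

/-- The relation of the join of `δ` and `α` for `δ = γ ∩ β` is contained in `Jm`. -/
private theorem jm_of_V5 {α β γ δ : FIC} (hδ : ∀ u v, δ.r u v ↔ γ.r u v ∧ β.r u v) {u v : Wd} (h : Jn δ α u v) :
    Jm α β γ u v := by
  refine mono_V5 (fun a b hab => ?_) h
  rcases hab with hab | hab
  · exact Or.inr ⟨((hδ a b).1 hab).2, ((hδ a b).1 hab).1⟩
  · exact Or.inl hab

private theorem of_jm_V5 {α β γ δ : FIC} (hδ : ∀ u v, δ.r u v ↔ γ.r u v ∧ β.r u v) {u v : Wd} (h : Jm α β γ u v) :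
    Jn δ α u v := by
  refine mono_V5 (fun a b hab => ?_) h
  rcases hab with hab | hab
  · exact Or.inr hab
  · exact Or.inl ((hδ a b).2 ⟨hab.2, hab.1⟩)

private theorem jn_comm_V5 {α β : FIC} {u v : Wd} (h : Jn α β u v) : Jn β α u v :=
  mono_V5 (fun _ _ hab => hab.symm) h

private theorem jn_in_V5 {α δ γ : FIC} (h1 : Le δ γ) (h2 : Le α γ) {u v : Wd} (h : Jn δ α u v) : γ.r u v := by
  induction h with
  | refl => exact γ.refl' u
  | tail _ hab ih =>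
    rcases hab with hab | hab
    · exact γ.trans' ih (h1 _ _ hab)
    · exact γ.trans' ih (h2 _ _ hab)

theorem hV5 (h3 : StV3) (h4 : StV4) : StV5 := by
  intro θ
  obtain ⟨hle, hmeet, hjoin⟩ := h4
  constructor
  · intro hM α β γ hα hβ hγ hαγ u v hJ hγuv
    have e := hM (Md γ) (Md β) (Md α) (h3.1 γ) (h3.1 β) (h3.1 α) ((hle γ θ).2 hγ) ((hle β θ).2 hβ) ((hle α θ).2 hα)
      ((hle γ α).2 hαγ)
    obtain ⟨δ1, hδ1, e1⟩ := hmeet β α
    obtain ⟨δ2, hδ2, e2⟩ := hjoin γ δ1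
    obtain ⟨δ3, hδ3, e3⟩ := hjoin γ β
    obtain ⟨δ4, hδ4, e4⟩ := hmeet δ3 α
    rw [e1, e2, e3, e4] at e
    have hle24 : Le δ2 δ4 := (hle δ4 δ2).1 e.symm.subset
    have h2 : δ2.r u v := (hδ2 u v).2 ⟨hγuv, (hδ1 u v).2 (jn_comm_V5 hJ)⟩
    exact jm_of_V5 hδ3 ((hδ4 u v).1 (hle24 u v h2))
  · intro hM K M N hK hMv hN hKV hMV hNV hKN
    obtain ⟨γ, rfl⟩ := h3.2 K hK
    obtain ⟨β, rfl⟩ := h3.2 M hMv
    obtain ⟨α, rfl⟩ := h3.2 N hN
    have hγ := (hle γ θ).1 hKV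
    have hβ := (hle β θ).1 hMV
    have hα := (hle α θ).1 hNV
    have hαγ := (hle γ α).1 hKN
    obtain ⟨δ1, hδ1, e1⟩ := hmeet β α
    obtain ⟨δ2, hδ2, e2⟩ := hjoin γ δ1
    obtain ⟨δ3, hδ3, e3⟩ := hjoin γ β
    obtain ⟨δ4, hδ4, e4⟩ := hmeet δ3 α
    rw [e1, e2, e3, e4]
    apply Set.Subset.antisymm
    · rw [hle]
      intro u v h
      have hJ := (hδ4 u v).1 h
      refine (hδ2 u v).2 ⟨jn_in_V5 (fun a b hab => ((hδ3 a b).1 hab).1) hαγ hJ, (hδ1 u v).2 ?_⟩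
      refine mono_V5 (fun a b hab => ?_) hJ
      rcases hab with hab | hab
      · exact Or.inl ((hδ3 a b).1 hab).2
      · exact Or.inr hab
    · rw [hle]
      intro u v h
      obtain ⟨hγuv, h1⟩ := (hδ2 u v).1 h
      exact (hδ4 u v).2 (of_jm_V5 hδ3 (hM α β γ hα hβ hγ hαγ u v (jn_comm_V5 ((hδ1 u v).1 h1)) hγuv))

end Helper1.IM
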