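import Pool.Agent.Helper1.IM.NSt2

/-!
# Project IM, module Zet: the congruences needed for the necessity in type Q
-/

set_option autoImplicit false

namespace Helper1.IM

private theorem rho_r_Zet {θ : FIC} {ω : ℕ} {u v : Wd} (h : θ.r u v) : θ.r (rho ω u) (rho ω v) :=
  θ.sub' _ (fun _ => pw_ne_nil (by simp) (Nat.succ_pos _)) h

private theorem rho_ne_Zet {ω : ℕ} {u : Wd} (h : u ≠ []) : rho ω u ≠ [] :=
  sb_ne_nil _ (fun _ => pw_ne_nil (by simp) (Nat.succ_pos _)) u h

private theorem oc_sb_Zet (f : ℕ → Wd) (j : ℕ) (s : Finset ℕ) (M : Wd) (hs : ct M ⊆ s) :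
    oc j (sb f M) = ∑ i ∈ s, oc i M * oc j (f i) := by
  induction M with
  | nil => simp
  | cons a M ih =>
    rw [ct_cons, Finset.insert_subset_iff] at hs
    rw [sb_cons, oc_append, ih hs.2]
    have h1 : oc j (if a.2 = true then st (f a.1) else f a.1) = ∑ i ∈ s, (if a.1 = i then 1 else 0) * oc j (f i) := by
      simp only [ite_mul, one_mul, zero_mul]
      rw [Finset.sum_ite_eq, if_pos hs.1]
      split_ifs <;> simp
    rw [h1, ← Finset.sum_add_distrib]
    exact Finset.sum_congr rfl fun i _ => by rw [oc_cons]; ring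

private theorem dvd_sb_Zet (f : ℕ → Wd) (q : ℕ) (M : Wd) (h : ∀ j, q ∣ oc j M) (j : ℕ) : q ∣ oc j (sb f M) := by
  rw [oc_sb_Zet f j (ct M) M (Finset.Subset.refl _)]
  exact Finset.dvd_sum fun i _ => (h i).mul_right _

private theorem ZR_r_Zet {θ : FIC} {ω : ℕ} {τ : Bool} {q : ℕ} {u v : Wd} (h : ZR θ ω τ q u) (hr : θ.r u v) :
    ZR θ ω τ q v := by
  rcases h with h | ⟨c, M, h1, h2, h3, h4⟩
  · exact Or.inl (θ.trans' (θ.symm' hr) (θ.trans' h (rho_r_Zet hr)))
  · exact Or.inr ⟨c, M, h1, h2, h3, θ.trans' (θ.symm' hr) h4⟩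

private theorem ZR_st_Zet {θ : FIC} {ω : ℕ} {τ : Bool} {q : ℕ} {u : Wd} (h : ZR θ ω τ q u) : ZR θ ω τ q (st u) := by
  rcases h with h | ⟨c, M, h1, h2, h3, h4⟩
  · have := θ.star' h
    rw [rho, ← sb_st] at this
    exact Or.inl this
  · have h5 := θ.star' h4
    cases τ
    · refine Or.inr ⟨c, st M, by simpa using h1, by simpa using h2, fun j => by simpa using h3 j, ?_⟩
      simpa using h5
    · refine Or.inr ⟨fl c, st M, by simpa using h1, by simpa using h2, fun j => by simpa using h3 j, ?_⟩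
      simpa using h5

private theorem mul_aux_Zet (hf : StQF) {θ : FIC} {ω : ℕ} (hB : BQ θ ω) {τ : Bool} {q : ℕ} {u : Wd} (h : ZR θ ω τ q u)
    {a b : Wd} (hab : a ++ b ≠ []) : θ.r (a ++ u ++ b) (a ++ rho ω u ++ b) := by
  obtain ⟨Qa, -, Qc, Qd, -, -⟩ := hf θ ω hB
  rcases h with h | ⟨c, M, h1, h2, h3, h4⟩
  · exact θ.mul' a b h
  set c' : Lt := if τ then c else fl c with hc'
  have hcc : c'.1 = c.1 := by rw [hc']; split_ifs <;> simp
  have hu : u ≠ [] := fun h => by
    have := θ.ne' h4 h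
    simp at this
  have hρ := rho_r_Zet (ω := ω) h4
  rcases List.eq_nil_or_concat a with ha | ⟨a', l, ha⟩
  · have hb : b ≠ [] := fun hb => hab (by rw [ha, hb]; rfl)
    obtain ⟨l', b', rfl⟩ := List.exists_cons_of_ne_nil hb
    have e1 := Qd c l' (M ++ [c']) (by simp) (by simp [hcc])
    have e2 : θ.r (u ++ [l']) (rho ω u ++ [l']) := by
      refine θ.trans' (θ.mulR [l'] h4) (θ.trans' ?_ (θ.mulR [l'] (θ.symm' hρ)))
      simpa using e1
    have e3 := θ.mul' [] b' e2
    rw [ha]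
    simpa using e3
  · rw [List.concat_eq_append] at ha
    by_cases hb : b = []
    · have e1 := Qc l c' (c :: M) (by simp) (by simp [hcc])
      have e2 : θ.r ([l] ++ u) ([l] ++ rho ω u) := by
        refine θ.trans' (θ.mulL [l] h4) (θ.trans' ?_ (θ.mulL [l] (θ.symm' hρ)))
        simpa using e1
      have e3 := θ.mul' a' [] e2
      rw [ha, hb]
      simpa using e3
    · obtain ⟨l', b', rfl⟩ := List.exists_cons_of_ne_nil hb
      have e1 := Qa l l' u hu
      have e3 := θ.mul' a' b' e1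
      rw [ha]
      simpa using e3

private theorem ZR_sb_Zet (hf : StQF) {θ : FIC} {ω : ℕ} (hB : BQ θ ω) {τ : Bool} {q : ℕ} (hq : τ = true ∨ q = 1 ∨ q = 2)
    {u : Wd} (h : ZR θ ω τ q u) (f : ℕ → Wd) (hfn : ∀ i, f i ≠ []) : ZR θ ω τ q (sb f u) := by
  obtain ⟨-, Qb, -, -, -, Qf⟩ := hf θ ω hB
  rcases h with h | ⟨c, M, h1, h2, h3, h4⟩
  · exact Or.inl (θ.trans' (θ.sub' f hfn h) (Qf f u hfn))
  have h5 := θ.sub' f hfn h4
  have hM := sb_ne_nil f hfn M h1
  have hdv := dvd_sb_Zet f q M h3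
  generalize hM' : sb f M = M' at hM hdv
  have hF : sb f [c] ≠ [] := sb_ne_nil f hfn _ (by simp)
  have hst : sb f [fl c] = st (sb f [c]) := by
    have := sb_st f [c]
    rwa [st_single] at this
  have hW : sb f (c :: M ++ [if τ then c else fl c]) = sb f [c] ++ M' ++ (if τ then sb f [c] else st (sb f [c])) := by
    have : c :: M ++ [if τ then c else fl c] = [c] ++ M ++ [if τ then c else fl c] := by simp
    rw [this, sb_append, sb_append, hM']
    cases τ
    · simp [hst]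
    · simp
  rw [hW] at h5
  refine ZR_r_Zet ?_ (θ.symm' h5)
  generalize hFe : sb f [c] = F at hF
  obtain ⟨e, F1, rfl⟩ := List.exists_cons_of_ne_nil hF
  cases τ
  · have h12 : q = 1 ∨ q = 2 := by simpa using hq
    have hWW : e :: F1 ++ M' ++ (if false = true then e :: F1 else st (e :: F1)) = e :: (F1 ++ M' ++ st F1) ++ [fl e] := by
      simp
    rw [hWW]
    by_cases he : e.1 ∈ ct (F1 ++ M' ++ st F1)
    · exact Or.inl (Qb e (fl e) _ (by simp [hM]) he he)
    · refine Or.inr ⟨e, _, by simp [hM], he, fun j => ?_, by simpa using θ.refl' _⟩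
      rw [oc_append, oc_append, oc_st]
      rcases h12 with h12 | h12
      · rw [h12]; exact one_dvd _
      · have := hdv j
        rw [h12] at this ⊢
        omega
  · by_cases hF1 : F1 = []
    · subst hF1
      have hWW : [e] ++ M' ++ (if true = true then [e] else st [e]) = e :: M' ++ [e] := by simp
      rw [hWW]
      by_cases he : e.1 ∈ ct M'
      · exact Or.inl (Qb e e _ hM he he)
      · exact Or.inr ⟨e, M', hM, he, hdv, by simpa using θ.refl' _⟩
    · rcases List.eq_nil_or_concat F1 with h | ⟨F2, g, h⟩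
      · exact absurd h hF1
      · rw [List.concat_eq_append] at h
        subst h
        have hWW : e :: (F2 ++ [g]) ++ M' ++ (if true = true then e :: (F2 ++ [g]) else st (e :: (F2 ++ [g]))) =
            e :: (F2 ++ [g] ++ M' ++ e :: F2) ++ [g] := by simp
        rw [hWW]
        exact Or.inl (Qb e g _ (by simp) (by simp) (by simp))

theorem hZet (h1 : StTk1) (h2 : StTk2) (hf : StQF) : StZet := by
  intro θ ω hB τ q hq
  obtain ⟨-, -, -, -, -, Qf⟩ := hf θ ω hB
  refine ⟨{ r := fun u v => θ.r u v ∨ (ZR θ ω τ q u ∧ ZR θ ω τ q v ∧ θ.r (rho ω u) (rho ω v))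
            refl' := fun u => Or.inl (θ.refl' u)
            symm' := ?_
            trans' := ?_
            ne' := ?_
            mul' := ?_
            star' := ?_
            sub' := ?_ }, fun u v => Iff.rfl⟩
  · rintro u v (h | ⟨hu, hv, h⟩)
    · exact Or.inl (θ.symm' h)
    · exact Or.inr ⟨hv, hu, θ.symm' h⟩
  · rintro u v w (h | ⟨hu, hv, h⟩) (h' | ⟨hv', hw, h'⟩)
    · exact Or.inl (θ.trans' h h')
    · exact Or.inr ⟨ZR_r_Zet hv' (θ.symm' h), hw, θ.trans' (rho_r_Zet h) h'⟩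
    · exact Or.inr ⟨hu, ZR_r_Zet hv h', θ.trans' h (rho_r_Zet h')⟩
    · exact Or.inr ⟨hu, hw, θ.trans' h h'⟩
  · rintro u v (h | ⟨hu, hv, h⟩) hn
    · exact θ.ne' h hn
    · by_contra hv0
      have h3 := θ.ne' h (by rw [hn]; rfl)
      exact rho_ne_Zet hv0 h3
  · rintro u v a b (h | ⟨hu, hv, h⟩)
    · exact Or.inl (θ.mul' a b h)
    · by_cases hab : a ++ b = []
      · obtain ⟨rfl, rfl⟩ := List.append_eq_nil_iff.1 hab
        simpa using Or.inr ⟨hu, hv, h⟩
      · exact Or.inl (θ.trans' (mul_aux_Zet hf hB hu hab) (θ.trans' (θ.mul' a b h) (θ.symm' (mul_aux_Zet hf hB hv hab))))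
  · rintro u v (h | ⟨hu, hv, h⟩)
    · exact Or.inl (θ.star' h)
    · refine Or.inr ⟨ZR_st_Zet hu, ZR_st_Zet hv, ?_⟩
      have := θ.star' h
      rwa [rho, rho, ← sb_st, ← sb_st] at this
  · rintro u v f hfn (h | ⟨hu, hv, h⟩)
    · exact Or.inl (θ.sub' f hfn h)
    · exact Or.inr ⟨ZR_sb_Zet hf hB hq hu f hfn, ZR_sb_Zet hf hB hq hv f hfn,
        θ.trans' (θ.symm' (Qf f u hfn)) (θ.trans' (θ.sub' f hfn h) (Qf f v hfn))⟩

end Helper1.IM
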