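import Pool.Agent.Helper1.IM.Var

/-!
# Project IM, second part (varieties which are not nil): definitions and basic facts

`pw w k` is the word `w^k`. `PF θ ω`: `x^ω` is idempotent modulo `θ` and `7 ≤ ω`. `R θ ω`: the ideal of the words related to a word containing
an `ω`-th power. `thN θ ω`: the congruence `θ` together with all pairs of words in `R θ ω` (the nil part). `Syn S`: syntactic congruence of a
star invariant set of words.
-/

set_option autoImplicit false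

namespace Helper1.IM

/-! ## Powers -/

/-- The word `w^k`. -/
def pw (w : Wd) (k : ℕ) : Wd := (List.replicate k w).flatten

@[simp] theorem pw_zero (w : Wd) : pw w 0 = [] := rfl

theorem pw_succ (w : Wd) (k : ℕ) : pw w (k + 1) = w ++ pw w k := by simp [pw, List.replicate_succ]

@[simp] theorem pw_one (w : Wd) : pw w 1 = w := by simp [pw]

theorem pw_add (w : Wd) (j k : ℕ) : pw w (j + k) = pw w j ++ pw w k := by
  unfold pw
  rw [List.replicate_add, List.flatten_append]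

theorem pw_succ' (w : Wd) (k : ℕ) : pw w (k + 1) = pw w k ++ w := by rw [pw_add, pw_one]

theorem pw_mul (w : Wd) (j k : ℕ) : pw (pw w j) k = pw w (j * k) := by
  induction k with
  | zero => simp
  | succ k ih => rw [pw_succ', ih, ← pw_add, Nat.mul_succ]

theorem pw_ne_nil {w : Wd} (hw : w ≠ []) {k : ℕ} (hk : 0 < k) : pw w k ≠ [] := by
  obtain ⟨k, rfl⟩ := Nat.exists_eq_succ_of_ne_zero (Nat.pos_iff_ne_zero.1 hk)
  rw [pw_succ]
  simp [hw]

@[simp] theorem length_pw (w : Wd) (k : ℕ) : (pw w k).length = k * w.length := by simp [pw]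

theorem st_pw (w : Wd) (k : ℕ) : st (pw w k) = pw (st w) k := by
  induction k with
  | zero => rfl
  | succ k ih => rw [pw_succ, st_append, ih, ← pw_succ']

theorem sb_pw (f : ℕ → Wd) (w : Wd) (k : ℕ) : sb f (pw w k) = pw (sb f w) k := by
  induction k with
  | zero => rfl
  | succ k ih => rw [pw_succ, sb_append, ih, ← pw_succ]

theorem oc_pw (i : ℕ) (w : Wd) (k : ℕ) : oc i (pw w k) = k * oc i w := by
  induction k with
  | zero => simp [oc]
  | succ k ih => rw [pw_succ, oc_append, ih]; ring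

theorem ct_pw (w : Wd) {k : ℕ} (hk : 0 < k) : ct (pw w k) = ct w := by
  ext i
  rw [← oc_pos, ← oc_pos, oc_pw]
  constructor
  · intro h
    exact Nat.pos_of_mul_pos_left h |> fun _ => by
      rcases Nat.eq_zero_or_pos (oc i w) with h0 | h0
      · rw [h0] at h; simp at h
      · exact h0
  · intro h
    exact Nat.mul_pos hk h

theorem pw_comm (w : Wd) (k : ℕ) : w ++ pw w k = pw w k ++ w := by rw [← pw_succ, pw_succ']

/-! ## Periodic congruences -/

/-- `x^ω` is idempotent modulo `θ`. -/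
structure PF (θ : FIC) (ω : ℕ) : Prop where
  h7 : 7 ≤ ω
  idm : θ.r (pw [X 0] ω) (pw [X 0] (ω + ω))

theorem PF.pos {θ : FIC} {ω : ℕ} (h : PF θ ω) : 0 < ω := lt_of_lt_of_le (by norm_num) h.h7

theorem PF.idm' {θ : FIC} {ω : ℕ} (h : PF θ ω) {t : Wd} (ht : t ≠ []) : θ.r (pw t ω) (pw t (ω + ω)) := by
  have h1 := θ.sub' (fun _ => t) (fun _ => ht) h.idm
  rw [sb_pw, sb_pw] at h1
  have h2 : sb (fun _ => t) [X 0] = t := by simp [sb_single, X]
  rwa [h2] at h1

theorem PF.idm2 {θ : FIC} {ω : ℕ} (h : PF θ ω) {t : Wd} (ht : t ≠ []) : θ.r (pw t ω ++ pw t ω) (pw t ω) := by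
  rw [← pw_add]
  exact θ.symm' (h.idm' ht)

theorem PF.add {θ : FIC} {ω : ℕ} (h : PF θ ω) {t : Wd} (ht : t ≠ []) {j : ℕ} (hj : ω ≤ j) : θ.r (pw t (j + ω)) (pw t j) := by
  obtain ⟨k, rfl⟩ := Nat.exists_eq_add_of_le hj
  have h1 := θ.mulR (pw t k) (θ.symm' (h.idm' ht))
  rw [← pw_add, ← pw_add] at h1
  have h2 : ω + ω + k = ω + k + ω := by ring
  rwa [h2] at h1

theorem PF.mul {θ : FIC} {ω : ℕ} (h : PF θ ω) {t : Wd} (ht : t ≠ []) {k : ℕ} (hk : 0 < k) : θ.r (pw t (k * ω)) (pw t ω) := by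
  obtain ⟨k, rfl⟩ := Nat.exists_eq_succ_of_ne_zero (Nat.pos_iff_ne_zero.1 hk)
  induction k with
  | zero => simpa using θ.refl' _
  | succ k ih =>
    have h1 : (k + 1).succ * ω = (k + 1) * ω + ω := by rw [Nat.succ_mul]
    rw [h1]
    exact θ.trans' (h.add ht (by nlinarith [h.pos])) (ih (by omega))

/-- Multiples of `ω` can be added to and removed from exponents `≥ ω`. -/
theorem PF.addmul {θ : FIC} {ω : ℕ} (h : PF θ ω) {t : Wd} (ht : t ≠ []) {j : ℕ} (hj : ω ≤ j) (k : ℕ) :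
    θ.r (pw t (j + k * ω)) (pw t j) := by
  induction k with
  | zero => simpa using θ.refl' _
  | succ k ih =>
    have h1 : j + (k + 1) * ω = (j + k * ω) + ω := by ring
    rw [h1]
    exact θ.trans' (h.add ht (by omega)) ih

theorem PF.le {θ α : FIC} {ω : ℕ} (hl : Le θ α) (h : PF θ ω) : PF α ω := ⟨h.h7, hl _ _ h.idm⟩

/-! ## The ideal R -/

/-- Words related to a word which contains an `ω`-th power. -/
def R (θ : FIC) (ω : ℕ) (u : Wd) : Prop := u ≠ [] ∧ ∃ p t q : Wd, t ≠ [] ∧ θ.r u (p ++ pw t ω ++ q)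

theorem R.of_r {θ : FIC} {ω : ℕ} {u v : Wd} (h : R θ ω u) (hr : θ.r u v) : R θ ω v := by
  obtain ⟨h0, p, t, q, ht, hu⟩ := h
  exact ⟨θ.ne'' hr h0, p, t, q, ht, θ.trans' (θ.symm' hr) hu⟩

theorem R.of_r' {θ : FIC} {ω : ℕ} {u v : Wd} (h : R θ ω u) (hr : θ.r v u) : R θ ω v := h.of_r (θ.symm' hr)

theorem R.mul {θ : FIC} {ω : ℕ} {u : Wd} (h : R θ ω u) (a b : Wd) : R θ ω (a ++ u ++ b) := by
  obtain ⟨h0, p, t, q, ht, hu⟩ := h
  refine ⟨by simp [h0], a ++ p, t, q ++ b, ht, ?_⟩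
  have := θ.mul' a b hu
  simpa [List.append_assoc] using this

theorem R.mulL {θ : FIC} {ω : ℕ} {u : Wd} (h : R θ ω u) (a : Wd) : R θ ω (a ++ u) := by simpa using h.mul a []

theorem R.mulR {θ : FIC} {ω : ℕ} {u : Wd} (h : R θ ω u) (b : Wd) : R θ ω (u ++ b) := by simpa using h.mul [] b

theorem R.pw {θ : FIC} {ω : ℕ} (hω : 0 < ω) {t : Wd} (ht : t ≠ []) : R θ ω (pw t ω) :=
  ⟨pw_ne_nil ht hω, [], t, [], ht, by simpa using θ.refl' _⟩

theorem R.mk' {θ : FIC} {ω : ℕ} (hω : 0 < ω) {t : Wd} (ht : t ≠ []) (p q : Wd) : R θ ω (p ++ IM.pw t ω ++ q) :=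
  (R.pw hω ht).mul p q

theorem R.st {θ : FIC} {ω : ℕ} {u : Wd} (h : R θ ω u) : R θ ω (st u) := by
  obtain ⟨h0, p, t, q, ht, hu⟩ := h
  refine ⟨by simpa using h0, IM.st q, IM.st t, IM.st p, by simpa using ht, ?_⟩
  have := θ.star' hu
  rwa [st_append, st_append, st_pw, ← List.append_assoc] at this

theorem R.sb {θ : FIC} {ω : ℕ} {u : Wd} (h : R θ ω u) (f : ℕ → Wd) (hf : ∀ i, f i ≠ []) : R θ ω (sb f u) := by
  obtain ⟨h0, p, t, q, ht, hu⟩ := h
  refine ⟨sb_ne_nil f hf u h0, IM.sb f p, IM.sb f t, IM.sb f q, sb_ne_nil f hf t ht, ?_⟩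
  have := θ.sub' f hf hu
  rwa [sb_append, sb_append, sb_pw] at this

theorem R.rw' {θ : FIC} {ω : ℕ} {u : Wd} (h : R θ ω u) (p : Equiv.Perm ℕ) (e : ℕ → Bool) : R θ ω (IM.rw' p e u) := by
  rw [← sb_rn]
  exact h.sb _ (by simp)

theorem R.le {θ α : FIC} {ω : ℕ} (hl : Le θ α) {u : Wd} (h : R θ ω u) : R α ω u := by
  obtain ⟨h0, p, t, q, ht, hu⟩ := h
  exact ⟨h0, p, t, q, ht, hl _ _ hu⟩

/-- The nil part: all words in `R` are identified. -/
def thN (θ : FIC) (ω : ℕ) : FIC where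
  r u v := θ.r u v ∨ (R θ ω u ∧ R θ ω v)
  refl' u := Or.inl (θ.refl' u)
  symm' h := h.elim (fun h => Or.inl (θ.symm' h)) (fun h => Or.inr ⟨h.2, h.1⟩)
  trans' := by
    rintro u v w (h | ⟨h1, h2⟩) (h' | ⟨h1', h2'⟩)
    · exact Or.inl (θ.trans' h h')
    · exact Or.inr ⟨h1'.of_r' h, h2'⟩
    · exact Or.inr ⟨h1, h2.of_r h'⟩
    · exact Or.inr ⟨h1, h2'⟩
  ne' := by
    rintro u v (h | ⟨h1, h2⟩) hu
    · exact θ.ne' h hu
    · exact absurd hu h1.1
  mul' := by
    rintro u v a b (h | ⟨h1, h2⟩)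
    · exact Or.inl (θ.mul' a b h)
    · exact Or.inr ⟨h1.mul a b, h2.mul a b⟩
  star' := by
    rintro u v (h | ⟨h1, h2⟩)
    · exact Or.inl (θ.star' h)
    · exact Or.inr ⟨h1.st, h2.st⟩
  sub' := by
    rintro u v f hf (h | ⟨h1, h2⟩)
    · exact Or.inl (θ.sub' f hf h)
    · exact Or.inr ⟨h1.sb f hf, h2.sb f hf⟩

theorem le_thN (θ : FIC) (ω : ℕ) : Le θ (thN θ ω) := fun _ _ h => Or.inl h

theorem thN_mono {θ α : FIC} (h : Le θ α) (ω : ℕ) : Le (thN θ ω) (thN α ω) := by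
  rintro u v (h1 | ⟨h1, h2⟩)
  · exact Or.inl (h _ _ h1)
  · exact Or.inr ⟨h1.le h, h2.le h⟩

theorem R.zero {θ : FIC} {ω : ℕ} {u : Wd} (h : R θ ω u) : Zero (thN θ ω) u :=
  ⟨h.1, fun v => ⟨Or.inr ⟨h.mulR v, h⟩, Or.inr ⟨h.mulL v, h⟩⟩⟩

theorem zero_thN {θ : FIC} {ω : ℕ} (hω : 0 < ω) {u : Wd} : Zero (thN θ ω) u ↔ R θ ω u := by
  refine ⟨fun h => ?_, R.zero⟩
  rcases (h.2 (pw [X 0] ω)).1 with h1 | h1
  · exact ((R.pw hω (by simp)).mulL u).of_r h1
  · exact h1.2

theorem nil_thN {θ : FIC} {ω : ℕ} (hω : 0 < ω) : NilF (thN θ ω) := by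
  obtain ⟨k, rfl⟩ := Nat.exists_eq_succ_of_ne_zero (Nat.pos_iff_ne_zero.1 hω)
  refine ⟨k, ?_⟩
  have h1 : List.replicate (k + 1) ((0, false) : Lt) = pw [X 0] k.succ := by
    simp [pw, X]
  rw [h1]
  exact (R.pw (Nat.succ_pos k) (by simp)).zero

theorem thN_r_of_not {θ : FIC} {ω : ℕ} {u v : Wd} (h : (thN θ ω).r u v) (hu : ¬ R θ ω u) : θ.r u v :=
  h.elim id (fun h => absurd h.1 hu)

theorem ModAt.le {θ α : FIC} (hl : Le θ α) (h : ModAt θ) : ModAt α :=
  fun a b c ha hb hc hac u v hj hg => h a b c (fun u v h => ha _ _ (hl _ _ h)) (fun u v h => hb _ _ (hl _ _ h))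
    (fun u v h => hc _ _ (hl _ _ h)) hac u v hj hg

theorem ModAt.mod7 {θ : FIC} (h : ModAt θ) : Mod7 θ :=
  fun a b c ha hb hc _ _ _ hac u v hj hg => h a b c ha hb hc hac u v hj hg

theorem Mod7.le {θ α : FIC} (hl : Le θ α) (h : Mod7 θ) : Mod7 α :=
  fun a b c ha hb hc c1 c2 c3 hac u v hj hg => h a b c (fun u v h => ha _ _ (hl _ _ h)) (fun u v h => hb _ _ (hl _ _ h))
    (fun u v h => hc _ _ (hl _ _ h)) c1 c2 c3 hac u v hj hg

/-- A linear word related to a word which is not (linear of the same length) is in `R`. -/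
theorem lin_R {θ : FIC} {ω : ℕ} (hL : StLin) (hω : 0 < ω) {u w : Wd} (hu : Lin u) (hr : θ.r u w) (h : ¬ (Lin w ∧ w.length = u.length)) :
    R θ ω u :=
  (zero_thN hω).1 (hL _ (nil_thN hω) u w hu (Or.inl hr) h)

/-- Related words with different contents are in `R`. -/
theorem cont_R {θ : FIC} {ω : ℕ} (hω : 0 < ω) {u v : Wd} (hr : θ.r u v) (hc : ct u ≠ ct v) : R θ ω u ∧ R θ ω v := by
  have h := cont (nil_thN (θ := θ) hω) (Or.inl hr) hc
  exact ⟨(zero_thN hω).1 h.1, (zero_thN hω).1 h.2⟩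

/-! ## Null algebras and syntactic congruences -/

/-- The variety contains the null algebra: `x_0` is not related to a word of length `≠ 1`. -/
def HN (θ : FIC) : Prop := ∀ w, θ.r [X 0] w → w.length = 1

/-- Syntactic congruence of a star invariant set of words. -/
def Syn (S : Wd → Prop) (hS : ∀ w, S (st w) ↔ S w) : FIC where
  r u v := (u = [] ↔ v = []) ∧ ∀ (p q : Wd) (f : ℕ → Wd), (∀ i, f i ≠ []) → (S (p ++ sb f u ++ q) ↔ S (p ++ sb f v ++ q))
  refl' _ := ⟨Iff.rfl, fun _ _ _ _ => Iff.rfl⟩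
  symm' h := ⟨h.1.symm, fun p q f hf => (h.2 p q f hf).symm⟩
  trans' h h' := ⟨h.1.trans h'.1, fun p q f hf => (h.2 p q f hf).trans (h'.2 p q f hf)⟩
  ne' h hu := h.1.1 hu
  mul' := by
    intro u v a b h
    refine ⟨by simp [h.1], fun p q f hf => ?_⟩
    have := h.2 (p ++ sb f a) (sb f b ++ q) f hf
    simpa [sb_append, List.append_assoc] using this
  star' := by
    intro u v h
    refine ⟨by simpa using h.1, fun p q f hf => ?_⟩
    have := h.2 (st q) (st p) f hf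
    rw [← hS (p ++ sb f (st u) ++ q), ← hS (p ++ sb f (st v) ++ q)]
    simpa [sb_st, st_append, List.append_assoc] using this
  sub' := by
    intro u v g hg h
    refine ⟨⟨fun h1 => ?_, fun h1 => ?_⟩, fun p q f hf => ?_⟩
    · by_contra h2
      have : v ≠ [] := fun h3 => h2 (by rw [h3]; rfl)
      exact sb_ne_nil g hg u (fun h3 => this (h.1.1 h3)) h1
    · by_contra h2
      have : u ≠ [] := fun h3 => h2 (by rw [h3]; rfl)
      exact sb_ne_nil g hg v (fun h3 => this (h.1.2 h3)) h1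
    · rw [sb_sb, sb_sb]
      exact h.2 p q _ (fun i => sb_ne_nil f hf _ (hg i))

theorem le_syn {θ : FIC} {S : Wd → Prop} {hS : ∀ w, S (st w) ↔ S w} (h : ∀ u v, θ.r u v → (S u ↔ S v)) : Le θ (Syn S hS) :=
  fun _ _ hr => ⟨⟨fun h => θ.ne' hr h, fun h => θ.ne' (θ.symm' hr) h⟩, fun p q f hf => h _ _ (θ.mul' p q (θ.sub' f hf hr))⟩

/-- The congruence generated by `θ` and a pair of nonempty words. -/
def gen (θ : FIC) (a b : Wd) (ha : a ≠ []) (hb : b ≠ []) : FIC where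
  r := Relation.ReflTransGen (fun u v => θ.r u v ∨ ∃ (p q : Wd) (f : ℕ → Wd), (∀ i, f i ≠ []) ∧
    ((u = p ++ sb f a ++ q ∧ v = p ++ sb f b ++ q) ∨ (u = p ++ sb f b ++ q ∧ v = p ++ sb f a ++ q) ∨
      (u = p ++ st (sb f a) ++ q ∧ v = p ++ st (sb f b) ++ q) ∨ (u = p ++ st (sb f b) ++ q ∧ v = p ++ st (sb f a) ++ q)))
  refl' _ := Relation.ReflTransGen.refl
  symm' := by
    intro u v h
    induction h with
    | refl => exact Relation.ReflTransGen.refl
    | tail _ h2 ih =>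
      refine Relation.ReflTransGen.head ?_ ih
      rcases h2 with h2 | ⟨p, q, f, hf, h2⟩
      · exact Or.inl (θ.symm' h2)
      · exact Or.inr ⟨p, q, f, hf, by tauto⟩
  trans' := Relation.ReflTransGen.trans
  ne' := by
    intro u v h
    induction h with
    | refl => exact id
    | tail _ h2 ih =>
      intro hu
      have := ih hu
      rcases h2 with h2 | ⟨p, q, f, hf, h2⟩
      · exact θ.ne' h2 this
      · have h3 := sb_ne_nil f hf a ha
        have h4 := sb_ne_nil f hf b hb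
        rcases h2 with h2 | h2 | h2 | h2 <;> (rw [h2.1] at this; simp [h3, h4] at this)
  mul' := by
    intro u v c d h
    induction h with
    | refl => exact Relation.ReflTransGen.refl
    | tail _ h2 ih =>
      refine ih.tail ?_
      rcases h2 with h2 | ⟨p, q, f, hf, h2⟩
      · exact Or.inl (θ.mul' c d h2)
      · refine Or.inr ⟨c ++ p, q ++ d, f, hf, ?_⟩
        rcases h2 with h2 | h2 | h2 | h2 <;> rw [h2.1, h2.2] <;> simp [List.append_assoc]
  star' := by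
    intro u v h
    induction h with
    | refl => exact Relation.ReflTransGen.refl
    | tail _ h2 ih =>
      refine ih.tail ?_
      rcases h2 with h2 | ⟨p, q, f, hf, h2⟩
      · exact Or.inl (θ.star' h2)
      · refine Or.inr ⟨st q, st p, f, hf, ?_⟩
        rcases h2 with h2 | h2 | h2 | h2 <;> rw [h2.1, h2.2] <;> simp [List.append_assoc, st_append]
  sub' := by
    intro u v g hg h
    induction h with
    | refl => exact Relation.ReflTransGen.refl
    | tail _ h2 ih =>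
      refine ih.tail ?_
      rcases h2 with h2 | ⟨p, q, f, hf, h2⟩
      · exact Or.inl (θ.sub' g hg h2)
      · refine Or.inr ⟨sb g p, sb g q, fun i => sb g (f i), fun i => sb_ne_nil g hg _ (hf i), ?_⟩
        rcases h2 with h2 | h2 | h2 | h2 <;> rw [h2.1, h2.2] <;> simp [sb_append, sb_st, sb_sb]

theorem le_gen (θ : FIC) {a b : Wd} (ha : a ≠ []) (hb : b ≠ []) : Le θ (gen θ a b ha hb) :=
  fun _ _ h => Relation.ReflTransGen.single (Or.inl h)

theorem gen_pair (θ : FIC) {a b : Wd} (ha : a ≠ []) (hb : b ≠ []) : (gen θ a b ha hb).r a b :=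
  Relation.ReflTransGen.single (Or.inr ⟨[], [], fun i => [(i, false)], by simp, Or.inl (by simp [sb_id])⟩)

end Helper1.IM
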