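import Pool.Agent.Helper1.IM.NVar
import Pool.Agent.Helper1.IM.M_KlC
import Pool.Agent.Helper1.IM.M_LevG
import Pool.Agent.Helper1.IM.M_N10
import Pool.Agent.Helper1.IM.M_N11a
import Pool.Agent.Helper1.IM.M_N11b
import Pool.Agent.Helper1.IM.M_N12
import Pool.Agent.Helper1.IM.M_N13
import Pool.Agent.Helper1.IM.M_N13q
import Pool.Agent.Helper1.IM.M_N14
import Pool.Agent.Helper1.IM.M_N15
import Pool.Agent.Helper1.IM.M_N16
import Pool.Agent.Helper1.IM.M_N16b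
import Pool.Agent.Helper1.IM.M_N17
import Pool.Agent.Helper1.IM.M_N19
import Pool.Agent.Helper1.IM.M_N19b
import Pool.Agent.Helper1.IM.M_N5
import Pool.Agent.Helper1.IM.M_N6
import Pool.Agent.Helper1.IM.M_N7
import Pool.Agent.Helper1.IM.M_N8
import Pool.Agent.Helper1.IM.M_N9a
import Pool.Agent.Helper1.IM.M_N9b
import Pool.Agent.Helper1.IM.M_N9c
import Pool.Agent.Helper1.IM.M_NA1
import Pool.Agent.Helper1.IM.M_NA2
import Pool.Agent.Helper1.IM.M_NA3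
import Pool.Agent.Helper1.IM.M_NA4
import Pool.Agent.Helper1.IM.M_NAs
import Pool.Agent.Helper1.IM.M_NCr
import Pool.Agent.Helper1.IM.M_NF
import Pool.Agent.Helper1.IM.M_NFc
import Pool.Agent.Helper1.IM.M_NJ
import Pool.Agent.Helper1.IM.M_NLS
import Pool.Agent.Helper1.IM.M_NMax
import Pool.Agent.Helper1.IM.M_NPer
import Pool.Agent.Helper1.IM.M_NT
import Pool.Agent.Helper1.IM.M_P0
import Pool.Agent.Helper1.IM.M_P1
import Pool.Agent.Helper1.IM.M_P10a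
import Pool.Agent.Helper1.IM.M_P10b
import Pool.Agent.Helper1.IM.M_P10c
import Pool.Agent.Helper1.IM.M_P11
import Pool.Agent.Helper1.IM.M_P2
import Pool.Agent.Helper1.IM.M_P3
import Pool.Agent.Helper1.IM.M_P5
import Pool.Agent.Helper1.IM.M_P6
import Pool.Agent.Helper1.IM.M_P7
import Pool.Agent.Helper1.IM.M_P8
import Pool.Agent.Helper1.IM.M_P9
import Pool.Agent.Helper1.IM.M_P9a
import Pool.Agent.Helper1.IM.M_Q2
import Pool.Agent.Helper1.IM.M_Q3h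
import Pool.Agent.Helper1.IM.M_Q5
import Pool.Agent.Helper1.IM.M_Q5b
import Pool.Agent.Helper1.IM.M_Q6
import Pool.Agent.Helper1.IM.M_Q7
import Pool.Agent.Helper1.IM.M_Q8
import Pool.Agent.Helper1.IM.M_Q9
import Pool.Agent.Helper1.IM.M_Q9a
import Pool.Agent.Helper1.IM.M_Q9b
import Pool.Agent.Helper1.IM.M_QE
import Pool.Agent.Helper1.IM.M_QF
import Pool.Agent.Helper1.IM.M_QN
import Pool.Agent.Helper1.IM.M_S05
import Pool.Agent.Helper1.IM.M_S1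
import Pool.Agent.Helper1.IM.M_S2
import Pool.Agent.Helper1.IM.M_S3
import Pool.Agent.Helper1.IM.M_S3b
import Pool.Agent.Helper1.IM.M_SAs
import Pool.Agent.Helper1.IM.M_SC
import Pool.Agent.Helper1.IM.M_SC1
import Pool.Agent.Helper1.IM.M_SC2
import Pool.Agent.Helper1.IM.M_SC3
import Pool.Agent.Helper1.IM.M_SC4
import Pool.Agent.Helper1.IM.M_SC5
import Pool.Agent.Helper1.IM.M_SK
import Pool.Agent.Helper1.IM.M_SKK
import Pool.Agent.Helper1.IM.M_SQ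
import Pool.Agent.Helper1.IM.M_Tk1
import Pool.Agent.Helper1.IM.M_Tk2
import Pool.Agent.Helper1.IM.M_Tk3
import Pool.Agent.Helper1.IM.M_Tk4
import Pool.Agent.Helper1.IM.M_Zet

/-!
# Project IM, second part: assembly of Theorem C
-/

set_option autoImplicit false

namespace Helper1.IM

theorem fTy : StTy := hTy fG fH fC fM

theorem gTk1 : StTk1 := hTk1
theorem gTk2 : StTk2 := hTk2 gTk1
theorem gPer : StNPer := hNPer
theorem gTk3 : StTk3 := hTk3 gTk1 gTk2 gPer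
theorem gTk4 : StTk4 := hTk4 gTk2
theorem gQF : StQF := hQF gTk1 gTk2
theorem gQN : StQN := hQN gTk2 gQF
theorem gQE : StQE := hQE gTk2 gPer gQF gQN
theorem gQ2 : StQ2 := hQ2 gTk1 gTk2 gQF
theorem gQ5 : StQ5 := hQ5 gTk1 gTk2 gQF
theorem gQ5b : StQ5b := hQ5b gTk1 gTk2 gPer gQF
theorem gQ6 : StQ6 := hQ6 gPer gQ5b
theorem gQ7 : StQ7 := hQ7 gPer gQ5 gQ5b gQ6 hNT
theorem gQ8 : StQ8 := hQ8 gPer gQ5 gQ5b hNT
theorem gQ3h : StQ3h := hQ3h gPer gQF gQN hS05 gQ2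
theorem gZet : StZet := hZet gTk1 gTk2 gQF
theorem gNJ : StNJ := hNJ gTk3
theorem gS2 : StS2 := hS2 gTk2 gTk3 gTk4 gPer hNCr gNJ
theorem gS1 : StS1 := hS1 fMain
theorem gS3 : StS3 := hS3 fLin gTk2
theorem gSK : StSK := hSK gS1 gS2 hS3b gS3 hS05
theorem gSKK : StSKK := hSKK gTk1 gTk2
theorem gSC1 : StSC1 := hSC1 gTk1 gPer
theorem gSC2 : StSC2 := hSC2 gTk1
theorem gSC3 : StSC3 := hSC3 gTk2 gPer hS3b hS05 gSC1 gSC2
theorem gSC4 : StSC4 := hSC4 gSC1 gPer hNCr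
theorem gSC5 : StSC5 := hSC5 gTk2 gTk3 gPer hNCr gNJ gS2 hS05 gSC1 gSC2 gSC4
theorem gSC : StSC := hSC gS1 gPer hS3b gS3 gSK gSKK gSC2 gSC3 gSC5
theorem gQ9a : StQ9a := hQ9a gTk3 gPer hNCr hS05 gQF gQN gQ2 gQE gQ7 gQ8
theorem gQ9b : StQ9b := hQ9b gPer hNCr gQN
theorem gQ9 : StQ9 := hQ9 gTk2 gTk3 gPer hNCr gNJ gS2 hS05 gQF gQN gQ2 gQE gQ9a gQ9b
theorem gSQ : StSQ := hSQ gS1 gS3 gSK gSKK gQF gQ2 gQ3h gQ9

/-- Sufficiency. -/
theorem gSAs : StSAs := hSAs gSK gSC gSQ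

theorem gNA1 : StNA1 := hNA1
theorem gNA2 : StNA2 := hNA2 gNA1
theorem gNA3 : StNA3 := hNA3 gNA1
theorem gNA4 : StNA4 := hNA4 gNA1
theorem gN5 : StN5 := hN5 gNA2 gNA3
theorem gN6 : StN6 := hN6 gNA1 gN5
theorem gN7 : StN7 := hN7 gNA4 gN5 gN6
theorem gN8 : StN8 := hN8 gN5 gN7
theorem gNF : StNF := hNF gN8
theorem gN9a : StN9a := hN9a gNA2 gN5 gN8
theorem gN9b : StN9b := hN9b gN5 gNF gN9a
theorem gN9c : StN9c := hN9c fTy
theorem gNLS : StNLS := hNLS gN9c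
theorem gNMax : StNMax := hNMax hLevG hKlC gNLS
theorem gN11a : StN11a := hN11a gN5 gN6 gNF gN9b
theorem gN11b : StN11b := hN11b gN5 gN8 gN11a
theorem gN10 : StN10 := hN10 gN8 gN9b gN9c
theorem gN12 : StN12 := hN12 hLevG hKlC hNFc gN9b gN9c
theorem gN13 : StN13 := hN13 gN5 gN6 gN7 gN8 gN9a
theorem gN13q : StN13q := hN13q gTk2
theorem gN14 : StN14 := hN14 gTk1 gTk2 gTk3 gPer gQF gQN gQE gQ5b gZet
theorem gN15 : StN15 := hN15 gTk1 gTk2 gTk3 gPer gQF gQN gQE gQ5b gZet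
theorem gN16 : StN16 := hN16 hNFc gNMax
theorem gN19 : StN19 := hN19 hNFc gNMax gTk3
theorem gN17 : StN17 := hN17 fTy
theorem gN16b : StN16b := hN16b gTk1
theorem gN19b : StN19b := hN19b gTk2 hS05

/-- Necessity, for periodic congruences. -/
theorem gNAs : StNAs := hNAs gTk3 gPer gN9b gN11b gN10 gN12 gN13 gN13q gN16 gN19 gN17 gN16b gN19b gN14 gN15

theorem gP0 : StP0 := hP0 gNA1
theorem gP1 : StP1 := hP1 fTy hSat
theorem gP2 : StP2 := hP2 gP1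
theorem gP3 : StP3 := hP3 gN5
theorem gP5 : StP5 := hP5 gP0 gN5
theorem gP6 : StP6 := hP6 gP0 gN5
theorem gP7 : StP7 := hP7 gP0 gN5 gNA4 gP3
theorem gP8 : StP8 := hP8 gN5 gP6 gP7
theorem gP9a : StP9a := hP9a hLevG hKlC hNFc
theorem gP9 : StP9 := hP9 gNA1 gP9a
theorem gP10a : StP10a := hP10a gP1
theorem gP10b : StP10b := hP10b gN5
theorem gP10c : StP10c := hP10c gN5 gP5

/-- Periodicity. -/
theorem gP11 : StP11 := hP11 gP1 gP2 gP8 gP9 gP10a gP10b gP10c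

/-- THEOREM C. -/
theorem thC : ThC := thC_of gNAs gSAs gP11

end Helper1.IM
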