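import Pool.Agent.Helper1.IM.NBas

/-!
# Project IM, second part: statements with complete proofs (necessity)

GOAL (Theorem C). Let `V` be a periodic variety of involution semigroups which contains a nontrivial null algebra. `L(V)` is modular iff `L(V ∩ N7)` is modular and `V` satisfies one of three explicit lists of identities.

In terms of congruences: `θ` with `PF θ ω` (`x^ω` is idempotent modulo `θ`, `7 ≤ ω`) and `HN θ` (`x` is only related to words of length one).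

Notation in the proofs: `x y z` are `X 0, X 1, X 2`, `x*` is `Y 0`, `u ~ v` means `θ.r u v`; `w*` is `st w`; `t^k` is `pw t k`; `u(t)` for a one-letter word `u` (`One u`) is `sb (fun _ => t) u`: substitute `x ↦ t`.
`h` is `x^ω`. Facts for one letter `x` are used for all nonempty words `t` in place of `x` (`θ.sub'` with `fun _ => t`; `sb_pw`). Star is an anti-automorphism: `u ~ v` implies `u* ~ v*` (`θ.star'`), `(uv)* = v* u*` (`st_append`), `(t^k)* = (t*)^k` (`st_pw`).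
Powers: `PF.idm'`, `PF.idm2`, `PF.add`, `PF.mul`, `PF.addmul`: exponents `≥ ω` can be changed by multiples of `ω`.
Every module `M_XX.lean` (in `Pool/Agent/Helper1/IM/`) proves `theorem hXX : StXX`, with the hypotheses given in its row.
-/

set_option autoImplicit false

namespace Helper1.IM

/-- One-letter words (letter `x_0`). -/
def One (w : Wd) : Prop := ∀ a ∈ w, a.1 = 0

/-- `ρ(w)`: every letter `x_i` is replaced by `x_i^(ω+1)`. -/
def rho (ω : ℕ) (w : Wd) : Wd := sb (fun i => pw [X i] (ω + 1)) w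

/-- First letter of a word if it occurs only once (signs ignored), otherwise `none`. -/
def hd : Wd → Option Lt
  | [] => none
  | a :: t => if a.1 ∈ ct t then none else some a

/-- Identities of the algebra `C = {1, c, 0}`: same content and same letters occurring once. -/
def rCd (u v : Wd) : Prop := ct u = ct v ∧ ∀ i, oc i u = 1 ↔ oc i v = 1

/-- Identities of the algebra `Q`: same content, same first letter and same last letter if these occur once. -/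
def rQ (u v : Wd) : Prop := ct u = ct v ∧ hd u = hd v ∧ hd (st u) = hd (st v)

/-- Identities of abelian groups of exponent `n` with trivial star. -/
def rA (n : ℕ) (u v : Wd) : Prop := (u = [] ↔ v = []) ∧ ∀ i, oc i u ≡ oc i v [MOD n]

/-- `θ` is contained in the relation `r`. -/
def Sub (θ : FIC) (r : Wd → Wd → Prop) : Prop := ∀ u v, θ.r u v → r u v

/-- Basic identities: `x^(ω+1) = x*^(ω+1)` and `x^(ω+1) y^(ω+1) = y^(ω+1) x^(ω+1)`. -/
structure Bc (θ : FIC) (ω : ℕ) : Prop where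
  pf : PF θ ω
  sy : θ.r (pw [X 0] (ω + 1)) (pw [Y 0] (ω + 1))
  cm : θ.r (pw [X 0] (ω + 1) ++ pw [X 1] (ω + 1)) (pw [X 1] (ω + 1) ++ pw [X 0] (ω + 1))

/-- `n` is the period: `x^ω ~ x^(ω+j)` iff `n` divides `j`. -/
def Per (θ : FIC) (ω n : ℕ) : Prop := 1 ≤ n ∧ ∀ j, θ.r (pw [X 0] ω) (pw [X 0] (ω + j)) ↔ n ∣ j

/-- `x^ω y = x^ω y^(ω+1)`. -/
def K1 (θ : FIC) (ω : ℕ) : Prop := θ.r (pw [X 0] ω ++ [X 1]) (pw [X 0] ω ++ pw [X 1] (ω + 1))

/-- `x^ω y = y x^ω`. -/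
def Cen (θ : FIC) (ω : ℕ) : Prop := θ.r (pw [X 0] ω ++ [X 1]) ([X 1] ++ pw [X 0] ω)

/-- `x^ω y z = x^ω z y`. -/
def Cmm (θ : FIC) (ω : ℕ) : Prop := θ.r (pw [X 0] ω ++ [X 1, X 2]) (pw [X 0] ω ++ [X 2, X 1])

/-- `x y z = x y^(ω+1) z`. -/
def QI1 (θ : FIC) (ω : ℕ) : Prop := θ.r [X 0, X 1, X 2] ([X 0] ++ pw [X 1] (ω + 1) ++ [X 2])

/-- `x^ω y x^ω = x^ω y^(ω+1)`. -/
def QI3 (θ : FIC) (ω : ℕ) : Prop := θ.r (pw [X 0] ω ++ [X 1] ++ pw [X 0] ω) (pw [X 0] ω ++ pw [X 1] (ω + 1))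

/-- The four words `xxy`, `xx*y`, `xyx`, `xyx*`. -/
def Fw : List Wd := [[X 0, X 0, X 1], [X 0, Y 0, X 1], [X 0, X 1, X 0], [X 0, X 1, Y 0]]

/-- Type K. -/
def TyK (θ : FIC) (ω n : ℕ) : Prop := K1 θ ω ∧ (n = 1 ∨ ∀ u ∈ Fw, θ.r u (pw [X 0] (ω + 2) ++ pw [X 1] (ω + 1)))

/-- Type C. -/
def TyC (θ : FIC) (ω : ℕ) : Prop := Cen θ ω ∧ Cmm θ ω ∧ ∀ u ∈ Fw, θ.r u (pw [X 0] (ω + 2) ++ [X 1])

/-- `x y^(ω+q) x = x^(ω+2) y^(ω+q)` for all primes `p` dividing `n` and `q` the exact power of `p` dividing `n`. -/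
def Qp (θ : FIC) (ω n : ℕ) : Prop := ∀ p : ℕ, p.Prime → p ∣ n →
  θ.r ([X 0] ++ pw [X 1] (ω + p ^ n.factorization p) ++ [X 0]) (pw [X 0] (ω + 2) ++ pw [X 1] (ω + p ^ n.factorization p))

/-- `x y^ω x* = x^(ω+2) y^ω` if `n` is even. -/
def Qm (θ : FIC) (ω n : ℕ) : Prop := 2 ∣ n → θ.r ([X 0] ++ pw [X 1] ω ++ [Y 0]) (pw [X 0] (ω + 2) ++ pw [X 1] ω)

/-- Type Q. -/
def TyQ (θ : FIC) (ω n : ℕ) : Prop := QI1 θ ω ∧ QI3 θ ω ∧ Qp θ ω n ∧ Qm θ ω n

/-! ## Part N1: pentagons for identities `x = w` -/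

/-- MODULE NA1 (100 lines). If a larger congruence satisfies `x = w`, `|w| ≥ 2`, then it satisfies `x = x*`.
Proof. If `x ~ x*` nothing to do. Otherwise `x` is only `θ`-related to itself: `x ~ v` implies `|v| = 1` (HN), `v = [(j, b)]`; `j ≠ 0` is impossible (substitute `x_j ↦ x_j x_j`, other letters fixed: `x ~` a word of length 2), and `v = x*` is excluded. By renaming the same holds for all words of length one.
`α`: `u = v` or both of length `≥ 2`; `γ`: both of length `≥ 2`, or `u = v`, or both of length one with the same index. They are fully invariant congruences (`α.r u v := u = v ∨ (2 ≤ u.length ∧ 2 ≤ v.length)`, `γ.r u v := u = v ∨ (2 ≤ u.length ∧ 2 ≤ v.length) ∨ (u.length = 1 ∧ v.length = 1 ∧ ct u = ct v)`)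
containing `θ`, `α ≤ γ`; `β = μ`. `x μ w α w* μ x*`, `x γ x*`. So `Jm α μ γ [X 0] [Y 0]`. In such a path a step from `x` stays at `x`, or goes to `x*` with `μ.r x x*` (`γ`-related to `x` are only `x, x*`); so `μ.r [X 0] [Y 0]`. -/
def StNA1 : Prop := ∀ θ : FIC, ModAt θ → HN θ → ∀ μ : FIC, Le θ μ → ∀ w : Wd, 2 ≤ w.length → μ.r [X 0] w → μ.r [X 0] [Y 0]

/-- MODULE NA2 (80 lines; theorem hNA2 (h1 : StNA1) : StNA2).
Proof. `S w :=` all letters of `w` have the same sign (all unstarred or all starred). `S (st w) ↔ S w`. Suppose `S` is `θ`-saturated (`θ.r u v → (S u ↔ S v)`). Then `Le θ (Syn S)` (`le_syn`), and `(Syn S).r [X 0] [X 0, X 0]`: `p ++ f x ++ q ∈ S` iff `p ++ f x ++ f x ++ q ∈ S`. By NA1 `(Syn S).r [X 0] [Y 0]`,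
but (`p = [X 0]`, `q = []`, `f i = [X i]`) `[X 0, X 0] ∈ S`, `[X 0, Y 0] ∉ S`. So there are `u ~ v` with `S u`, `¬ S v`; by `θ.star'` we may take all letters of `u` unstarred; `v` has both signs; substitute all letters by `x` (`u ≠ []` since `v ≠ []`). -/
def StNA2 : Prop := ∀ θ : FIC, ModAt θ → HN θ → ∃ (a : ℕ) (v : Wd), 1 ≤ a ∧ One v ∧ X 0 ∈ v ∧ Y 0 ∈ v ∧ θ.r (pw [X 0] a) v

/-- MODULE NA3 (100 lines; theorem hNA3 (h1 : StNA1) : StNA3).
Proof. `S w :=` the first letter of `w` is unstarred or the last letter of `w` is starred. `S (st w) ↔ S w`. If `S` is `θ`-saturated: `(Syn S).r [X 0] [X 0, X 0]` (first and last letters of `p ++ f x ++ q`, `p ++ f x ++ f x ++ q` are the same), so by NA1 `(Syn S).r [X 0] [Y 0]`, but (`p = []`, `q = [X 0]`) `[X 0, X 0] ∈ S`, `[Y 0, X 0] ∉ S`.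
So there are `u ~ v`, `S u`, `¬ S v`: `v` begins with a starred and ends with an unstarred letter; applying star (this keeps `¬ S v`) we may assume that `u` begins with an unstarred letter. Substitute all letters by `x`. -/
def StNA3 : Prop := ∀ θ : FIC, ModAt θ → HN θ → ∃ p q : Wd, One p ∧ One q ∧ θ.r (X 0 :: p) (Y 0 :: q)

/-- MODULE NA4 (200 lines; theorem hNA4 (h1 : StNA1) : StNA4).
Proof. `S w :=` `w ≠ []`, all letters of `w` have the same index, adjacent letters of `w` have different signs (`List.IsChain`). `S (st w) ↔ S w`. If `S` is `θ`-saturated: `(Syn S).r [X 0] [X 0, Y 0, X 0]`: for `t = f x ≠ []`: `p t q ∈ S` iff `p t t* t q ∈ S` (`t*` begins with the star of the last letter of `t` and ends with the star of the first one).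
By NA1 `(Syn S).r [X 0] [Y 0]`, but (`p = [Y 0]`, `q = []`) `[Y 0, X 0] ∈ S`, `[Y 0, Y 0] ∉ S`. So there are `U ~ W`, `S U`, `¬ S W`. `W` has two adjacent letters `a b` with `a.1 ≠ b.1`, or with `a = b` (or else `W` is in `S`). Let `i` be the index of the letters of `U`. Substitute single letters `x` or `x*` for all letters, such that the images of `a` and `b` are equal
(if `a.1 ≠ b.1`, one of them is not `i`; choose its sign). The image of `U` is alternating, the image of `W` contains `[c, c]`. If `c = Y 0` apply star to both words. If the image of `U` now begins with `Y 0` multiply both words by `X 0` on the left. So `U' ~ A ++ [X 0, X 0] ++ B`, `U'` alternating, beginning with `X 0`, of length `n ≥ 1`. Multiply on the right by the word which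
completes `U'` to the alternating word `X 0 :: pw [Y 0, X 0] (ω * n)` of length `2 ω n + 1 ≥ n`. -/
def StNA4 : Prop := ∀ (θ : FIC) (ω : ℕ), ModAt θ → HN θ → 1 ≤ ω → ∃ (m : ℕ) (A B : Wd), 1 ≤ m ∧ One A ∧ One B ∧
  θ.r (X 0 :: pw [Y 0, X 0] (ω * m)) (A ++ [X 0, X 0] ++ B)

/-! ## Part N2: idempotents, groups, regular elements -/

/-- MODULE N5 (150 lines; theorem hN5 (h2 : StNA2) (h3 : StNA3) : StN5). Idempotents are symmetric.
Proof. `e = t`, `f = t*`, `ee ~ e`, `ff ~ f`. Take `a, v` from NA2 and substitute `x ↦ e`: `e ~ e^a ~ v(e)`, a product of factors `e`, `f` containing `f`. So `e ~ e v(e) e ~ (ef)^i e` for some `i ≥ 1` (collapse; prove by induction on one-letter words `w`: `e ++ w(e) ++ e ~ (ef)^i e` for some `i`, with `i ≥ 1` if `Y 0 ∈ w`). Hence `e ~ (ef)^(k i) e` for all `k`.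
Take `p, q` from NA3 and substitute: `e p(e) ~ f q(e)`. Multiplying by `f` on the left: `f e p(e) ~ f f q(e) ~ f q(e) ~ e p(e)`. There is a word `r` (product of `e`, `f`) with `e p(e) r ~ (ef)^(k i) e ~ e` for some `k` (`e p(e) e ~ (ef)^j e` for some `j`; multiply by `(fe)^(j i - j)`, `k = j`; note `(ef)^j e (fe)^l ~ (ef)^(j+l) e`).
So `f e ~ f e p(e) r ~ e p(e) r ~ e`. Star: `(fe)* = fe`, so `fe ~ f`. So `e ~ f`. -/
def StN5 : Prop := ∀ θ : FIC, ModAt θ → HN θ → ∀ t : Wd, t ≠ [] → θ.r (t ++ t) t → θ.r t (st t)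

/-- MODULE N6 (200 lines; theorem hN6 (h1 : StNA1) (h5 : StN5) : StN6). Group elements are symmetric.
Proof. `e = t^ω`, idempotent (`PF.idm2`), so `e ~ e* = (t*)^ω` (N5). `G s := s ≠ [] ∧ e s ~ s ∧ s e ~ s ∧ s^ω ~ e`. `G t`: `t^ω t ~ t`. `G s → G (st s)`: star the relations and use `e ~ e*`. `G s → G s' → G (s ++ s')`: the first two are clear. `r := s'^(ω-1) s^(ω-1)`: `s s' r ~ s e s^(ω-1) ~ s^ω ~ e`; by induction `(ss')^k r^k ~ e` (`k ≥ 1`), and `(ss')^ω ~ (ss')^ω e ~ (ss')^ω (ss')^ω r^ω ~ (ss')^ω r^ω ~ e`.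
Hence `G (sb f w)` if `G (f i)` for all `i` and `w ≠ []`. Define `μ.r u v := (u = [] ↔ v = []) ∧ ∀ f, (∀ i, G (f i)) → θ.r (sb f u) (sb f v)`: an FIC containing `θ` (`sub'`: `sb_sb`). `μ.r [X 0] (pw [X 0] (ω+1))`: `s^(ω+1) ~ e s ~ s`. By NA1 `μ.r [X 0] [Y 0]`; take `f = fun _ => t`. -/
def StN6 : Prop := ∀ (θ : FIC) (ω : ℕ), ModAt θ → HN θ → PF θ ω → ∀ t : Wd, t ≠ [] → θ.r (pw t (ω + 1)) t → θ.r t (st t)

/-- MODULE N7 (200 lines; theorem hN7 (h4 : StNA4) (h5 : StN5) (h6 : StN6) : StN7). Regular elements are symmetric group elements.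
Proof. `e = rs`, `f = sr` are idempotent, `r ~ er ~ rf`, so `e ~ e* = s*r*`, `f ~ f* = r*s*` (N5). `r ~ rf ~ r r*s*`, so `rr* (s*s) ~ rs = e`; `e (rr*) ~ rr*`, `(rr*) e ~ rr*` (`r* ~ (er)* = r*e* ~ r*e`). So `(rr*)^k (s*s)^k ~ e` for `k ≥ 1`, `(rr*)^ω ~ (rr*)^ω e ~ (rr*)^(2ω) (s*s)^ω ~ (rr*)^ω (s*s)^ω ~ e`. Similarly
`r ~ er ~ s*r*r`, `(ss*)(r*r) ~ sr = f`, and `(r*r)^ω ~ f`. Substitute `x ↦ r` in NA4: `r ~ r f^m ~ r (r*r)^(ωm) ~ A r r B` with `A = A0(r)`, `B = B0(r)` (possibly empty). By induction `r ~ (Ar)^k r B^k` for all `k`. Then `(Ar)^ω r ~ (Ar)^ω (Ar)^ω r B^ω ~ (Ar)^ω r B^ω ~ r`. So `r ~ Z r r` with `Z = (Ar)^(ω-1) A ≠ []`. By induction `r ~ Z^k r^(k+1)`, so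
`r ~ Z^ω r^(ω+1)`, and `r^(ω+1) ~ Z^ω r^(ω+1) r^ω ~ Z^ω r^(ω+1) ~ r`. Then N6 gives `r ~ r*`. -/
def StN7 : Prop := ∀ (θ : FIC) (ω : ℕ), ModAt θ → HN θ → PF θ ω → ∀ r s : Wd, r ≠ [] → s ≠ [] → θ.r r (r ++ s ++ r) →
  θ.r (pw r (ω + 1)) r ∧ θ.r r (st r)

/-- MODULE N8 (120 lines; theorem hN8 (h5 : StN5) (h7 : StN7) : StN8). Factors of idempotents.
Proof. `ea` is regular: `ea·b·ea ~ (eab) e.. `: precisely `e a b e a ~ e e a ~ e a`. By N7: `(ea)^(ω+1) ~ ea`, `ea ~ (ea)* = a*e* ~ a*e` (N5). Let `g = (ea)^ω`: `g e a ~ ea`, times `b`: `g e ~ e` (using `eab ~ e`: `g e a b ~ g e` and `e a b ~ e`). `g` is idempotent, `g* ~ g`; `e g ~ g`, star: `g e ~ g`. So `g ~ e`: third claim. So `ea ~ (ea)^(ω+1) ~ (ea) g ~ ea e`. Star of `ea ~ eae`: `a*e ~ ea*e`, so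
(1) `ea ~ a*e ~ ea*e ~ eae`. Now `e a* (e (ea)^(ω-1)) ~ (ea)(ea)^(ω-1) ~ e`, so the facts hold for `a*` in place of `a`: `ea* ~ (a*)*e = ae`, `ea* ~ ea*e`. So `ea ~ ea*e ~ ea* ~ ae`. -/
def StN8 : Prop := ∀ (θ : FIC) (ω : ℕ), ModAt θ → HN θ → PF θ ω → ∀ e a b : Wd, e ≠ [] → a ≠ [] → b ≠ [] →
  θ.r (e ++ e) e → θ.r (e ++ a ++ b) e → θ.r (e ++ a) (a ++ e) ∧ θ.r (e ++ a) (e ++ st a) ∧ θ.r (e ++ a) (e ++ a ++ e) ∧
    θ.r (pw (e ++ a) ω) e

/-- MODULE NF (120 lines; theorem hNF (h8 : StN8) : StNF). Factors of `s` and the idempotent `G = s^ω`.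
Proof. `s = a c b`. If `a = []`: `G c (b s^(ω-1)) = s^ω s^ω ~ G`, use N8. If `a ≠ []`: `G a (c b s^(ω-1)) ~ G`, so by N8 `(Ga)^ω ~ G`. Multiply `G a c b s^(ω-1) ~ G` on the left by `(Ga)^(ω-1)`: `(Ga)^ω c b s^(ω-1) ~ (Ga)^(ω-1) G`, so `G c b s^(ω-1) ~ (Ga)^(ω-1) G`, and multiply on the right by `G a`: `G c (b s^(ω-1) G a) ~ (Ga)^(ω-1) G G a ~ (Ga)^ω ~ G`. Use N8 with the last factor
`b s^(ω-1) G a`. The first three claims follow. Last: `G c^k ~ (Gc)^k` by induction (`Gc ~ cG`), so `G c^ω ~ (Gc)^ω ~ G`. -/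
def StNF : Prop := ∀ (θ : FIC) (ω : ℕ), ModAt θ → HN θ → PF θ ω → ∀ a c b : Wd, c ≠ [] →
  θ.r (pw (a ++ c ++ b) ω ++ c) (c ++ pw (a ++ c ++ b) ω) ∧ θ.r (pw (a ++ c ++ b) ω ++ c) (pw (a ++ c ++ b) ω ++ st c) ∧
    θ.r (pw (a ++ c ++ b) ω ++ pw c ω) (pw (a ++ c ++ b) ω)

/-! ## Part N3: one-letter words, toolkit -/

/-- MODULE N9a (200 lines; theorem hN9a (h2 : StNA2) (h5 : StN5) (h8 : StN8) : StN9a).
Proof. `x^a ~ v` from NA2, `v = x^j x* v2` (split at the first `Y 0`). `h = x^ω ~ h* = x*^ω` by N5. Multiply on the left by `x^N`, `N = ω (j + 2) - j` (so `N + j = ω (j+2)`): `x^(ω(j+2)) x* v2 ~ x^(N+a)`, so `h x* v2 ~ x^(N+a)`; multiply on the right by `x^(N')`, `N' = (ω - 1)(N + a) > 0`: `h x* (v2 x^N') ~ x^(ω(N+a)) ~ h`.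
N8 with `e = h`, `a = x*`: `h x* ~ h x` (second claim of N8, `st [Y 0] = [X 0]`), i.e. `x^ω x* ~ x^(ω+1)`. Multiply `h ~ x*^ω` by `x*`: `x*^(ω+1) ~ h x* ~ x^(ω+1)`: first claim. Second claim by induction on the word `w`: `x^(ω+k) x ` clear, `x^(ω+k) x* = x^k h x* ~ x^k x^(ω+1)`. Third claim: star of the second one for `st w`, and `x*^(ω+k) ~ x^(ω+k)`
(`k ≥ 0`; from the first claim and `h ~ x*^ω`). -/
def StN9a : Prop := ∀ (θ : FIC) (ω : ℕ), ModAt θ → HN θ → PF θ ω →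
  θ.r (pw [X 0] (ω + 1)) (pw [Y 0] (ω + 1)) ∧
  (∀ w, One w → θ.r (pw [X 0] ω ++ w) (pw [X 0] (ω + w.length))) ∧ (∀ w, One w → θ.r (w ++ pw [X 0] ω) (pw [X 0] (ω + w.length)))

/-- MODULE N9b (150 lines; theorem hN9b (h5 : StN5) (hF : StNF) (h9 : StN9a) : StN9b).
Proof. (a) `t` a nonempty one-letter word: `g = t^ω ~ h`. Let `c = [t_1]` be the first letter of `t`; by NF `g c^ω ~ g`, and `c^ω ~ h` (`x*^ω ~ x^ω`): `g h ~ g`; star (`g ~ g*`, `h ~ h*` by N5): `h g ~ g`. By N9a `h g = h t^ω ~ x^(ω + ω|t|) ~ h`. (b) `w` one-letter with `R θ ω w`: `w ~ p t^ω q`; substituting all letters by `x` (this does not change `w`: `sb_congr`, `sb_id`) we may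
assume that `p, t, q` are one-letter words. So `w ~ p h q ~ x^(ω + |p| + |q|)`, `h w ~ w`, and `h w ~ x^(ω + |w|)`. -/
def StN9b : Prop := ∀ (θ : FIC) (ω : ℕ), ModAt θ → HN θ → PF θ ω →
  (∀ t, One t → t ≠ [] → θ.r (pw t ω) (pw [X 0] ω)) ∧ (∀ w, One w → R θ ω w → θ.r w (pw [X 0] (ω + w.length)))

/-- MODULE N9c (60 lines; theorem hN9c (hT : StTy) : StN9c). Nil part.
Proof. `N = thN θ ω` is nil (`nil_thN`) and modular (`ModAt.le`, `ModAt.mod7`), so `Typ N`. `u` is not linear, `|u| ≥ 7`. TR: r1; TE: e1 gives `oc ≤ 3` for the repeated letter and `≤ 1` for the others; TD: d1 gives `oc ≤ 2`: in each case `u` is zero for `N`, i.e. in `R` (`zero_thN`). -/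
def StN9c : Prop := ∀ (θ : FIC) (ω : ℕ), ModAt θ → PF θ ω → ∀ u : Wd, 7 ≤ u.length → (∃ i, 4 ≤ oc i u) → R θ ω u

/-- MODULE NLS (80 lines; theorem hNLS (h9 : StN9c) : StNLS). Words outside `R` are related to words of bounded length.
Proof. `k = max 7 (4 |u|)`. Let `u ~ v`, `|v| > k`. `¬ R v`. By N9c all `oc i v ≤ 3`, `ct v = ct u` (`cont_R`), so `|v| ≤ 3 card (ct v) ≤ 3 |u|` (`length_eq_sum`): contradiction. -/
def StNLS : Prop := ∀ (θ : FIC) (ω : ℕ), ModAt θ → PF θ ω → ∀ u : Wd, u ≠ [] → ¬ R θ ω u → ∃ k, ∀ v, θ.r u v → v.length ≤ k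

/-- MODULE NPer (80 lines). Periods.
Proof. `n` = least `j ≥ 1` with `x^ω ~ x^(ω+j)` (`j = ω` works: `PF.idm`). If `n ∣ j`: iterate. If `x^ω ~ x^(ω+j)`, `j = n q + r`, `r < n`: `x^(ω+r) ~ x^(ω + nq + r)` (iterate `x^ω ~ x^(ω+n)`, multiply by `x^r`) `= x^(ω+j) ~ x^ω`, so `r = 0` by minimality. Second part: `x^ω δ x^(ω+n)`. Third: `PF.idm`. Fourth: exponents `≥ ω` congruent modulo `n`. -/
def StNPer : Prop := (∀ (θ : FIC) (ω : ℕ), PF θ ω → ∃ n, Per θ ω n) ∧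
  (∀ (θ δ : FIC) (ω n m : ℕ), Le θ δ → Per θ ω n → Per δ ω m → m ∣ n) ∧
  (∀ (θ : FIC) (ω n : ℕ), PF θ ω → Per θ ω n → n ∣ ω) ∧
  (∀ (θ : FIC) (ω n : ℕ), PF θ ω → Per θ ω n → ∀ t : Wd, t ≠ [] → ∀ i j : ℕ, ω ≤ i → ω ≤ j → i ≡ j [MOD n] → θ.r (pw t i) (pw t j))

/-- MODULE Tk1 (120 lines). Toolkit 1: powers and star.
Proof. From `x^(ω+1) ~ x*^(ω+1)`: `x^ω ~ (x^(ω+1))^ω ~ (x*^(ω+1))^ω ~ x*^ω` (exponents modulo `ω`). `x^(ω+1) ~ x*^(ω+1) ~ x*^ω x* ~ x^ω x*`. So `x^j x* ~ x^(j+1)` for `j ≥ ω` (`x^j = x^(j-ω) x^ω`), star: `x x*^j ~ x*^(j+1)`, and with `x ↦ x*`: `x* x^j ~ x^(j+1)`. All for words `t`. One-letter words: induction. -/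
def StTk1 : Prop := ∀ (θ : FIC) (ω : ℕ), Bc θ ω →
  (∀ t, t ≠ [] → ∀ j, ω ≤ j → θ.r (pw t j) (pw (st t) j)) ∧
  (∀ t, t ≠ [] → ∀ j, ω ≤ j → θ.r (pw t j ++ st t) (pw t (j + 1)) ∧ θ.r (st t ++ pw t j) (pw t (j + 1))) ∧
  (∀ w, One w → ∀ t, t ≠ [] → θ.r (pw t ω ++ sb (fun _ => t) w) (pw t (ω + w.length)) ∧
    θ.r (sb (fun _ => t) w ++ pw t ω) (pw t (ω + w.length)))

/-- MODULE Tk2 (200 lines; theorem hTk2 (h : StTk1) : StTk2). Toolkit 2: regular words commute.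
Proof. `x_i^(ω+1)` and `x_j^(ω+1)` commute (`cm` and renaming; `i = j`: trivial), the signs do not matter (`sy`; `rho` of `(i, true)` is `pw [Y i] (ω+1)`, `st_pw`). So `rho u` only depends, modulo `θ`, on the multiset of unsigned letters of `u` (induction on `Perm`, first make all signs `+`). First claim. Second claim: `u ~` sorted form: choose for `u` the representative `u' =` product over
`i ∈ ct u` of `x_i^(oc i u)` (as words, `Perm` up to signs), `rho u'` is the product of the `x_i^((ω+1) oc i u)`, and exponents `≥ ω` congruent modulo `n` can be exchanged (iterate `x^ω ~ x^(ω+n)`; also modulo `ω`): `(ω+1) oc i u` and `(ω+1) oc i v`. Third claim: from the second one with `n = ω` (`PF.idm`): `ct (rho ω w) = ct w`, `oc i (rho ω w) = (ω+1) oc i w`.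
Fourth: `rho w` contains an `ω`-th power of a letter. -/
def StTk2 : Prop := ∀ (θ : FIC) (ω : ℕ), Bc θ ω →
  (∀ u v, θ.r (rho ω u ++ rho ω v) (rho ω v ++ rho ω u)) ∧
  (∀ n, θ.r (pw [X 0] ω) (pw [X 0] (ω + n)) → ∀ u v, ct u = ct v → (∀ i, oc i u ≡ oc i v [MOD n]) → θ.r (rho ω u) (rho ω v)) ∧
  (∀ w, θ.r (rho ω (rho ω w)) (rho ω w)) ∧ (∀ w, w ≠ [] → R θ ω (rho ω w)) ∧
  (∀ w, ct (rho ω w) = ct w ∧ ∀ i, oc i (rho ω w) = (ω + 1) * oc i w)

/-- MODULE Tk3 (150 lines; theorem hTk3 (h1 : StTk1) (h2 : StTk2) (hP : StNPer) : StTk3). Toolkit 3: what a relation implies.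
Proof. First: fix `i`, substitute `x_i ↦ x`, all other letters `↦ x^ω`, and multiply by `x^ω` on the left: `x^ω u' ~ x^ω v'` where `u'` is a one-letter word of length `≡ oc i u` modulo `ω`; by Tk1 `x^(ω + |u'|) ~ x^(ω + |v'|)`. So `x^(ω + oc i u) ~ x^(ω + oc i v)` (modulo `ω`), and by `Per` (multiply by a suitable power to get `x^ω` on one side) `n` divides the difference.
Second: `i ∈ ct u`, `i ∉ ct v` (or conversely). Substitute `x_i ↦ y^(ω+1)`, the others `↦ x^ω`, multiply by `x^ω` on the left: both sides are products of regular words, commuting: `x^ω y^((ω+1)k) ~ x^ω`, `k ≥ 1`. Iterate `ω` times: `x^ω ~ x^ω y^((ω+1)kω) ~ x^ω y^ω`. (`v ≠ []` since `u ≠ []`.) -/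
def StTk3 : Prop := ∀ (θ : FIC) (ω : ℕ), Bc θ ω → ∀ u v, θ.r u v →
  (∀ n, Per θ ω n → ∀ i, oc i u ≡ oc i v [MOD n]) ∧
  (ct u ≠ ct v → θ.r (pw [X 0] ω ++ pw [X 1] ω) (pw [X 0] ω))

/-- MODULE Tk4 (120 lines; theorem hTk4 (h2 : StTk2) : StTk4). Toolkit 4: the case `x^ω y^ω ~ x^ω`.
Proof. `x^ω ~ x^ω y^ω ~ y^ω x^ω ~ y^ω` (commuting; renaming). So `rho u ~ rho u ++ x_i^ω` for every letter `i` (`u ≠ []`: `rho u ~ rho u ++ x_j^ω`, `j ∈ ct u`, and `x_j^ω ~ x_j^ω x_i^ω`). Multiply `rho u` by `x_i^ω` for all `i ∈ ct v`, and `rho v` by `x_i^ω` for all `i ∈ ct u`: `rho u ~ rho (u ++ v^ω)`, `rho v ~ rho (v ++ u^ω)`; use Tk2 (the multiplicities are congruent modulo `n`, as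
`n ∣ ω`.. if `n` does not divide `ω` use `v^(ωn)`, `u^(ωn)`). -/
def StTk4 : Prop := ∀ (θ : FIC) (ω : ℕ), Bc θ ω → θ.r (pw [X 0] ω ++ pw [X 1] ω) (pw [X 0] ω) →
  ∀ n, 1 ≤ n → θ.r (pw [X 0] ω) (pw [X 0] (ω + n)) → ∀ u v, u ≠ [] → v ≠ [] → (∀ i, oc i u ≡ oc i v [MOD n]) → θ.r (rho ω u) (rho ω v)

/-! ## Part N4: level congruences -/

/-- MODULE LevG (150 lines). General level congruences: `T` an ideal, `S` a set of words.
Proof. As in `M_Lev.lean`. Transitivity: `T` and `S` are disjoint and closed under `θ`. Multiplication of `Rl u v`: both products are in `T` if `a ++ b ≠ []`. Substitution into `Rl u v`: if both `sb f u`, `sb f v` are in `T`: fine. Otherwise, say `sb f u ∉ T`: `f i = [(p i, e i)]` for `i ∈ ct u = ct v`, so `sb f u = rw' p e u`, `sb f v = rw' p e v` (`sb_congr`, `sb_rn`) and `Rl` is invariant. -/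
def StLevG : Prop := ∀ (θ : FIC) (T S : Wd → Prop) (Rl : Wd → Wd → Prop),
  (∀ u, T u → u ≠ []) → (∀ u v, T u → θ.r u v → T v) → (∀ u a b, T u → T (a ++ u ++ b)) → (∀ u, T u → T (st u)) →
  (∀ u (f : ℕ → Wd), (∀ i, f i ≠ []) → T u → T (sb f u)) →
  (∀ u, S u → ¬ T u ∧ u ≠ []) → (∀ u v, Rl u v → S u ∧ S v ∧ ct u = ct v) → (∀ u v, S u → θ.r u v → Rl u v) →
  (∀ u v, Rl u v → Rl v u) → (∀ u v w, Rl u v → Rl v w → Rl u w) → (∀ u v, Rl u v → Rl (st u) (st v)) →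
  (∀ (u v : Wd) (p : Equiv.Perm ℕ) (e : ℕ → Bool), Rl u v → Rl (rw' p e u) (rw' p e v)) →
  (∀ u a b, S u → a ++ b ≠ [] → T (a ++ u ++ b)) →
  (∀ u (f : ℕ → Wd), S u → (∀ i, f i ≠ []) → T (sb f u) ∨ ∃ (p : Equiv.Perm ℕ) (e : ℕ → Bool), ∀ i ∈ ct u, f i = [(p i, e i)]) →
  ∃ E : FIC, ∀ u v, E.r u v ↔ θ.r u v ∨ (T u ∧ T v) ∨ Rl u v

/-- MODULE KlC (100 lines). Closure properties of killed words.
Proof. As in `M_Lev.lean`: `u ~ w'`, `d < |w'|` or (`|w'| = d` and fewer than `n` letters). Multiplication by `a ++ b ≠ []` makes the partner longer than `d` if `|w'| ≥ d`. Substitution: `|sb f w'| ≥ |w'|`, and if `|sb f w'| = d = |w'|` then all `f i`, `i ∈ ct w'`, are single letters, so the content has at most `card (ct w')` elements. Last claim: `w` of length `d` with `n` letters: `a ++ w ++ b` is longer; `sb f w` is longer than `d`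
if some `f i`, `i ∈ ct w`, is not a single letter; if `f i = [(q i, e i)]` on `ct w` and `q` is not injective on `ct w`, `sb f w` has length `d` and fewer letters; if `q` is injective on `ct w`: `exists_perm_extend`. -/
def StKlC : Prop := ∀ (θ : FIC) (n d : ℕ), 1 ≤ d →
  (∀ u, Kl θ n d u → u ≠ []) ∧ (∀ u a b, Kl θ n d u → Kl θ n d (a ++ u ++ b)) ∧
  (∀ u (f : ℕ → Wd), (∀ i, f i ≠ []) → Kl θ n d u → Kl θ n d (sb f u)) ∧
  (∀ w, w.length = d → (ct w).card = n → (∀ a b, a ++ b ≠ [] → Kl θ n d (a ++ w ++ b)) ∧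
    (∀ f : ℕ → Wd, (∀ i, f i ≠ []) → Kl θ n d (sb f w) ∨ ∃ (p : Equiv.Perm ℕ) (e : ℕ → Bool), ∀ i ∈ ct w, f i = [(p i, e i)]))

/-- MODULE NFc (150 lines). The relations `rCd`, `rQ`, `rA n` are fully invariant congruences.
Proof. `rCd`, `rA`: `oc j (sb f u) = ∑ i ∈ ct u, oc i u * oc j (f i)` (induction); it is `1` iff there is exactly one `i ∈ ct u` with `j ∈ ct (f i)`, and `oc i u = 1 = oc j (f i)`. `rQ`: `hd (a ++ u ++ b)` for `a ≠ []` only depends on `a` and contents, for `a = []`, `u ≠ []`: it is `some c` iff `hd u = some c` and `c.1 ∉ ct b`. Substitution: `hd (sb f u) = some d` iff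
`hd u = some c`, `hd ((f c.1)^±) = some d` (sign of `c`), and `d.1 ∉ ct (f i)` for all `i ∈ ct u`, `i ≠ c.1` (if the first letter `c` of `u` occurs again, `d.1` occurs again). `hd (st _)`: by symmetry (`sb_st`). The empty word: content empty. -/
def StNFc : Prop := (∃ E : FIC, ∀ u v, E.r u v ↔ rCd u v) ∧ (∃ E : FIC, ∀ u v, E.r u v ↔ rQ u v) ∧ ∀ n, ∃ E : FIC, ∀ u v, E.r u v ↔ rA n u v

/-- MODULE NMax (250 lines; theorem hNMax (hL : StLevG) (hK : StKlC) (hS : StNLS) : StNMax). Maximal companions.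
Proof. By NLS there is a word `w ~ u` of maximal length `d`. `ct w = ct u = {0,1}` (`cont_R`; `w` is not in `R`), `card = 2`, `d ≥ 2`. `T := Kl θ 2 d`. `w ∉ T`: a partner longer than `d` is excluded by maximality, a partner with fewer letters by `cont_R`. `S v := ∃ p e, θ.r v (rw' p e w) ∨ θ.r v (rw' p e (st w))`: closed under `θ`, star, renaming; `S v` implies `¬ T v`, `¬ R θ ω v` (invariance), and
`T (a ++ v ++ b)` for `a ++ b ≠ []`, and `T (sb f v)` or `f` is a renaming on `ct v` (from KlC for `rw' p e w`, whose content is `ct v` by `cont_R`; `T` is closed under `θ`). LevG twice: `α`: `Rl u v := S u ∧ θ.r u v`; `γ`: `Rl u v := S u ∧ S v ∧ ct u = ct v` (contains `θ` on `S` by `cont_R`). `α ≤ γ`. Let `w' = rw' swap w` (`swap = Equiv.swap 0 1`), `w' ∈ S`, `ct w' = ct w`.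
`w β w ++ z`, and by renaming `w' β w' ++ z'` with `z' = rw' swap z`; `w ++ z`, `w' ++ z'` are longer than `d`, in `T`. So `w β w z α w' z' β w'`, `w γ w'`. By modularity `Jm α β γ w w'`. Invariant along the path: `S v ∧ β.r w v` (an `α`-step from `v ∈ S` is a `θ`-step, as `v ∉ T`; a `β ∩ γ`-step from `v ∈ S` goes to `S` (`θ` or `Rl`)). So `β.r w w'`. -/
def StNMax : Prop := ∀ (θ β : FIC) (ω : ℕ), ModAt θ → PF θ ω → Le θ β → ∀ u : Wd, ct u = {0, 1} → ¬ R θ ω u →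
  (∀ w, θ.r u w → ∃ z, z ≠ [] ∧ β.r w (w ++ z)) → ∃ w, θ.r u w ∧ β.r w (rw' (Equiv.swap 0 1) (fun _ => false) w)

/-! ## Part N5: the three types -/

/-- MODULE N11a (150 lines; theorem hN11a (h5 : StN5) (h6 : StN6) (hF : StNF) (h9 : StN9b) : StN11a).
`f0`: `x_0 ↦ x^ω`, all other letters `↦ y`. Proof. `s = sb f0 s0`, `y h ~ s y h`, hence `y h ~ s^k y h`, `y h ~ G y h`, `G = s^ω`. (1) `0 ∈ ct s0`: `s = a ++ h' ++ b` with `h' ∈ {h, h*}`; NF with `c = h'`: `G h' ~ h' G`, `G h'^ω ~ G`, `h'^ω ~ h' ~ h` (idempotent, N5): so `h G ~ G`, and `h y h ~ h G y h ~ G y h ~ y h`.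
(2) `0 ∉ ct s0`: `s` is a word in `y, y*`, i.e. `s = t(y)` for a one-letter word `t ≠ []`; by N9b `G ~ y^ω`, `y h ~ y^(ω+1) h`. Substitute `y ↦ y h`: `y h h ~ (y h)^(ω+1) h`, so `y h ~ (y h)^(ω+1)` (`h h ~ h`), by N6 `y h ~ (y h)* = h* y* ~ h y*`, so `h y h ~ h h y* ~ h y* ~ y h`. -/
def StN11a : Prop := ∀ (θ : FIC) (ω : ℕ), ModAt θ → HN θ → PF θ ω → ∀ s0 : Wd, s0 ≠ [] →
  θ.r ([X 1] ++ pw [X 0] ω) (sb (fun i => if i = 0 then pw [X 0] ω else [X 1]) s0 ++ [X 1] ++ pw [X 0] ω) →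
  θ.r ([X 1] ++ pw [X 0] ω) (pw [X 0] ω ++ [X 1] ++ pw [X 0] ω)

/-- MODULE N11b (250 lines; theorem hN11b (h5 : StN5) (h8 : StN8) (h11 : StN11a) : StN11b). If `θ` is not contained in `rQ` then `x^ω` is central.
Proof. It suffices to show (*) `y h ~ h y h` (then star and `y ↦ y*`: `h y ~ h y h`; `h* ~ h` by N5). Let `u ~ v`, not `rQ u v`. (i) Contents differ, say `i ∈ ct u`, `i ∉ ct v`. Substitute `x_i ↦ y`, others `↦ x^ω`, multiply by `h` on both sides: `h u' h ~ h` (`v'` is a product of `h`, `h*`, `v ≠ []`), and `h u' h ~ h y^± S2 h` (split at the first occurrence of `y^±`; the factors before it are `h, h*`).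
N8 with `e = h`, `a = y^±`, `b = S2 h`: `h y^± ~ y^± h`, (substitute `y ↦ y*`) `h y ~ y h`, so `h y h ~ y h`. (ii) Contents equal. By star we may assume `hd u ≠ hd v`, by symmetry `hd u = some c`; by a sign change (`rw' 1 e`) `c = X i`. So `u = X i :: u1`, `i ∉ ct u1`. Substitute `x_i ↦ y`, others `↦ x^ω` and multiply by `h` on the right: `y h ~ v' h`, where `v' = sb f0 v0`, `v0` the word over the letters `0, 1`
(`x_i ↦ x_1`, others `↦ x_0`, signs kept). `v0 = s1 ++ [(1, b)] ++ r1`, `1 ∉ ct r1` (last occurrence); so `y h ~ S y^± h`, `S = sb f0 s1` (sign given by `b`). If `s1 = []` then the sign is `-` (otherwise `v = X i :: v1` with `i ∉ ct v1`, `hd v = some (X i) = hd u`): `y h ~ y* h`; substituting `y ↦ h y`: `h y h ~ y* h* h ~ y* h ~ y h`: (*). If `s1 ≠ []` and the sign is `+`: N11a. If it is `-`: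
`y h ~ S(y) y* h`; with `y ↦ y*`: `y* h ~ S(y*) y h`; so `y h ~ S(y) S(y*) y h`, and `S(y) S(y*) = sb f0 (s1 ++ rw' 1 (fun i => decide (i = 1)) s1)`: N11a. -/
def StN11b : Prop := ∀ (θ : FIC) (ω : ℕ), ModAt θ → HN θ → PF θ ω → ¬ Sub θ rQ → Cen θ ω

/-- MODULE N10 (200 lines; theorem hN10 (h8 : StN8) (h9 : StN9b) (hc : StN9c) : StN10). `x^ω` central and `θ` not contained in `rCd` implies K1.
Proof. Let `u ~ v`, not `rCd u v`. (i) Contents differ, `i ∈ ct u`, `i ∉ ct v` : as in N11b (i) `h y^± b ~ h`, so by N8 `(h y^±)^ω ~ h`; `y ↦ y*` if necessary: `(h y)^ω ~ h`, and `(h y)^ω ~ h^ω y^ω ~ h y^ω` (central). So `h ~ h y^ω`, `h y ~ h y^ω y = h y^(ω+1)`. (ii) `ct u = ct v`, `oc i u = 1`, `oc i v = m ≥ 2`. Substitute `x_i ↦ y`, others `↦ x^ω`, multiply by `h`: (central, `h h* ~ h`)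
`h y^± ~ h w(y)`, `w` a one-letter word of length `m`; by `y ↦ y*` we may take `h y ~ h w(y)`. Iterate: `h y ~ h w_k(y)` with `|w_k| = m^k` (substitute `y ↦ w_k(y)` in `h y ~ h w(y)`). For `m^k ≥ 7` `w_k` is in `R` (N9c), `w_k(y) ~ y^(ω+L)`, `L = m^k` (N9b). So `h y ~ h y^(ω+L)`; multiply by `y^ω`: `h y^(ω+1) ~ h y^(2ω+L) ~ h y^(ω+L) ~ h y`. -/
def StN10 : Prop := ∀ (θ : FIC) (ω : ℕ), ModAt θ → HN θ → PF θ ω → Cen θ ω → ¬ Sub θ rCd → K1 θ ω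

/-- MODULE N12 (250 lines; theorem hN12 (hL : StLevG) (hK : StKlC) (hF : StNFc) (h9 : StN9b) (hc : StN9c) : StN12). `θ ⊆ rQ` implies `xyz ~ x y^(ω+1) z`.
Proof. First: `[x,y,z]` is killed for `(3,3)`. Suppose not. `T := Kl θ 3 3`, `S v := v.length = 3 ∧ (ct v).card = 3 ∧ ¬ T v` (linear words of length 3; all are renamings of `xyz`, so all are not killed: `lin_rename`). If `v ∈ S`, `v ~ v'`: `ct v' = ct v` (rQ), `|v'| ≤ 3` (`le_of_not_kl`), so `|v'| = 3`, `v' ∈ S`. LevG: `α`: `Rl u v := S u ∧ θ.r u v`, `γ`: `Rl u v := S u ∧ S v ∧ ct u = ct v`; `β` = the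
FIC with relation `rQ`. `xyz β xyyz α zyyx β zyx` (`xyyz`, `zyyx` have length 4, in `T`), `xyz γ zyx`. So `Jm α β γ xyz zyx`; invariant: `S v ∧ rQ xyz v` (as in NMax), so `rQ xyz zyx`: false (`hd`). So `xyz ~ w`, `|w| ≥ 4` (not fewer letters, rQ). `rQ xyz w`: `ct w = {0,1,2}`, `hd w = some x`, `hd (st w) = some (z*)`, so `w = x m(y) z`, `m` a one-letter word, `|m| ≥ 2`.
Iterate: `xyz ~ x m_k(y) z`, `|m_k| = |m|^k` (substitute `y ↦ m_k(y)`), `|m|^k ≥ 7`: `m_k(y) ~ y^(ω+L)`, `L = |m_k|` (N9c, N9b). So `xyz ~ x y^(ω+L) z`. Substitute `y ↦ y^(ω+1)`: `x y^(ω+1) z ~ x y^((ω+1)(ω+L)) z ~ x y^(ω+L) z ~ xyz`. -/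
def StN12 : Prop := ∀ (θ : FIC) (ω : ℕ), ModAt θ → HN θ → PF θ ω → Sub θ rQ → QI1 θ ω

/-- MODULE N13 (200 lines; theorem hN13 (h5 : StN5) (h6 : StN6) (h7 : StN7) (h8 : StN8) (h9 : StN9a) : StN13). `Cen` or `QI1` imply `Bc`.
Proof. `pf` given, `sy`: N9a. Let `e = x^ω`, `f = y^ω`; first `ef ~ fe`. If `Cen`: clear (`x^ω` commutes with every letter). If `QI1`: `ef ~ e (ef) f ~ e (ef)^(ω+1) f ~ (ef)^(ω+1)` (`ee ~ e`, `ff ~ f`), so by N6 `ef ~ (ef)* = f* e* ~ fe` (N5). Let `k = ef ~ fe`, `kk ~ k`. `k x x^(ω-1) ~ f e x^ω ~ k`: N8 gives `kx ~ xk ~ kxk`, similarly (`k y y^(ω-1) ~ k f ~ k`) `ky ~ yk ~ kyk`, `ky ~ k y*`, `kx ~ kx*`.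
`kxy` is regular: `k x y (y^(ω-1) x^(ω-1)) ~ k x f x^(ω-1)`.. more precisely N8 with `e = k`, `a = xy`, `b = y^(ω-1) x^(ω-1)`: `k x y y^(ω-1) x^(ω-1) ~ (kx) f x^(ω-1) ~ x k f x^(ω-1) ~ x k x^(ω-1) ~ k x^ω ~ k`. So `k x y ~ k (xy)* = k y* x*`, and `k y* x* ~ (k y*) k.. `: `k y* ~ k y ~ y k`, so `k y* x* ~ y k x* ~ y k x ~ k y x`. So `kxy ~ kyx`.
Finally `x^(ω+1) y^(ω+1) = x e f y = x k y ~ k x y ~ k y x ~ y k x ~ y f e x = y^(ω+1) x^(ω+1)` (`y f = y^(ω+1)`, `e x = x^(ω+1)`). -/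
def StN13 : Prop := ∀ (θ : FIC) (ω : ℕ), ModAt θ → HN θ → PF θ ω → (Cen θ ω ∨ QI1 θ ω) → Bc θ ω

/-- MODULE N13q (60 lines; theorem hN13q (h2 : StTk2) : StN13q). Proof. `x^ω y x^ω = x^(ω-1) (x y x) x^(ω-1) ~ x^(ω-1) x y^(ω+1) x x^(ω-1) = x^ω y^(ω+1) x^ω ~ x^ω x^ω y^(ω+1) ~ x^ω y^(ω+1)` (`x^ω ~ rho (x^ω)` commutes with `y^(ω+1)`). -/
def StN13q : Prop := ∀ (θ : FIC) (ω : ℕ), Bc θ ω → QI1 θ ω → QI3 θ ω

/-- MODULE N16 (100 lines; theorem hN16 (hF : StNFc) (hM : StNMax) : StN16). `θ ⊆ rCd`: the four words are in `R`.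
Proof. `u ∈ Fw`, `ct u = {0,1}`, `oc 1 u = 1`, `oc 0 u = 2`. Suppose `¬ R u`. NMax with `β` = the FIC with relation `rCd`, `z = [X 0]` (`u ~ w`: `rCd u w`, so `oc 0 w ≥ 2`, `rCd w (w x)`): `u ~ w`, `rCd w (swap w)`: `oc 1 w = 1` (from `rCd u w`), so `oc 1 (swap w) = 1`, but `oc 1 (swap w) = oc 0 w ≠ 1` (`oc_rw'`). -/
def StN16 : Prop := ∀ (θ : FIC) (ω : ℕ), ModAt θ → PF θ ω → Sub θ rCd → ∀ u ∈ Fw, R θ ω u

/-- MODULE N19 (100 lines; theorem hN19 (hF : StNFc) (hM : StNMax) (h3 : StTk3) : StN19). `n ≥ 2`: the four words are in `R`.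
Proof. `θ ⊆ rA n` by Tk3. `u ∈ Fw`: `oc 0 u = 2`, `oc 1 u = 1`. Suppose `¬ R u`. NMax with `β` = the FIC `rA n`, `z = x^n`: `u ~ w`, `rA n w (swap w)`, so `oc 0 w ≡ oc 1 w`, while `oc 0 w ≡ 2`, `oc 1 w ≡ 1` modulo `n`: `n ∣ 1`. -/
def StN19 : Prop := ∀ (θ : FIC) (ω n : ℕ), ModAt θ → Bc θ ω → Per θ ω n → 2 ≤ n → ∀ u ∈ Fw, R θ ω u

/-- MODULE N17 (120 lines; theorem hN17 (hT : StTy) : StN17). Proof. Linear words are not in `R` (`R u`: `u ~ p t^ω q`, a letter of `t` occurs at least twice, so by `rCd` a letter of `u` does not occur once). `N = thN θ ω`: `Typ N` (nil, modular). So relations of `N` starting at linear words are relations of `θ` (`thN_r_of_not`). T5: `[a,b,c,y,z] ~ [a,b,c,z,y]`, substitute `a, b, c ↦ x^ω` (`h h h ~ h`). C4: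
`[a,b,y,z] ~ [a,b,z,y]` similarly. M3: `[a,y,z,b] ~ [a,z,y,b]`, `a, b ↦ x^ω`: `h y z h ~ h z y h`, and by `Cen` `h y z h ~ h h y z ~ h y z`. -/
def StN17 : Prop := ∀ (θ : FIC) (ω : ℕ), ModAt θ → PF θ ω → Sub θ rCd → Cen θ ω → Cmm θ ω

/-- MODULE N16b (120 lines; theorem hN16b (h1 : StTk1) : StN16b). Proof. `R u`: `u ~ p t^ω q`, `ct (p t^ω q) = ct u = {0,1}` and `oc 1 (p t^ω q) = 1` (rCd), so `1 ∉ ct t`, `t` is a one-letter word and `t^ω ~ x^ω` (last hypothesis). So `u ~ p x^ω q ~ x^ω p q` (`Cen`), hence `x^ω u ~ u`.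
And `x^ω u ~ x^(ω+2) y`: move the letters `x^±` to the left (`Cmm`, `Cen`), and `x^ω x^± ~ x^(ω+1)`. -/
def StN16b : Prop := ∀ (θ : FIC) (ω : ℕ), Bc θ ω → Sub θ rCd → Cen θ ω → Cmm θ ω →
  (∀ t, One t → t ≠ [] → θ.r (pw t ω) (pw [X 0] ω)) → ∀ u ∈ Fw, R θ ω u → θ.r u (pw [X 0] (ω + 2) ++ [X 1])

/-- MODULE S05 (120 lines). K1 implies that words in `R` are regular: `w ~ ρ(w)`.
Proof. K1 with `x ↦ t`: (1) `t^ω c ~ t^ω c^(ω+1)` for all nonempty words `c`, `t`, and by star (2) `c t^ω ~ c^(ω+1) t^ω`. (3) `t^ω q ~ t^ω ρ(q)` by induction on `q` from the left: `t^ω c1 ~ t^ω c1^(ω+1)`, `c1^(ω+1) c2 = c1 c1^ω c2 ~ c1 c1^ω c2^(ω+1)`, etc. (letters `c`, `rho` of a starred letter is the power of the starred letter). (4) `p t^ω ~ ρ(p) t^ω` similarly (or by star).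
(5) `t^ω ~ t^ω t^ω ~ t^ω ρ(t^ω)` by (3) and `t^ω ρ(t)^ω ~ ρ(t^ω) ρ(t)^ω` by (4) (with `ρ(t)` in place of `t` and `p = t^ω`), `= ρ(t)^ω ρ(t)^ω ~ ρ(t)^ω = ρ(t^ω)`; so `t^ω ~ ρ(t^ω)`. (6) `W = p t^ω q ~ ρ(p) t^ω ρ(q) ~ ρ(W)`. (7) `w ~ W` implies `ρ(w) ~ ρ(W)` (`sub'`), so `w ~ ρ(w)`. -/
def StS05 : Prop := ∀ (θ : FIC) (ω : ℕ), PF θ ω → K1 θ ω → ∀ w, R θ ω w → θ.r w (rho ω w)

/-- MODULE N19b (60 lines; theorem hN19b (h2 : StTk2) (h5 : StS05) : StN19b). Proof. S05: `u ~ ρ(u)`, and `ρ(u) ~ ρ([x,x,y]) `, `= x^(2ω+2) y^(ω+1) ~ x^(ω+2) y^(ω+1)` (Tk2, second claim with `n = ω`). -/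
def StN19b : Prop := ∀ (θ : FIC) (ω : ℕ), Bc θ ω → K1 θ ω → ∀ u ∈ Fw, R θ ω u → θ.r u (pw [X 0] (ω + 2) ++ pw [X 1] (ω + 1))

end Helper1.IM
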