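import Pool.Agent.Helper1.IM.NSt

/-!
# Project IM, second part: sufficiency of types K and C; type Q (statements with complete proofs)

Notation as in `NSt.lean`. For congruences `δ ≥ θ` the identities of `θ` also hold for `δ` (`Bc.le`, ...).
-/

set_option autoImplicit false

namespace Helper1.IM

theorem Bc.le {θ δ : FIC} {ω : ℕ} (hl : Le θ δ) (h : Bc θ ω) : Bc δ ω := ⟨h.pf.le hl, hl _ _ h.sy, hl _ _ h.cm⟩

theorem K1.le {θ δ : FIC} {ω : ℕ} (hl : Le θ δ) (h : K1 θ ω) : K1 δ ω := hl _ _ h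

theorem TyC.le {θ δ : FIC} {ω : ℕ} (hl : Le θ δ) (h : TyC θ ω) : TyC δ ω :=
  ⟨hl _ _ h.1, hl _ _ h.2.1, fun u hu => hl _ _ (h.2.2 u hu)⟩

/-- Basic identities of type Q. -/
def BQ (θ : FIC) (ω : ℕ) : Prop := Bc θ ω ∧ QI1 θ ω ∧ QI3 θ ω

theorem BQ.le {θ δ : FIC} {ω : ℕ} (hl : Le θ δ) (h : BQ θ ω) : BQ δ ω := ⟨h.1.le hl, hl _ _ h.2.1, hl _ _ h.2.2⟩

/-- Paths inside a set `P`. -/
def JnR (α β : FIC) (P : Wd → Prop) : Wd → Wd → Prop := Relation.ReflTransGen (fun u v => P u ∧ P v ∧ (α.r u v ∨ β.r u v))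

/-- Property (H): words outside `R θ` which are in `R δ` are regular modulo `δ`. -/
def PH (θ : FIC) (ω : ℕ) : Prop := ∀ δ : FIC, Le θ δ → ∀ w, w ≠ [] → ¬ R θ ω w → R δ ω w → δ.r w (rho ω w)

/-- Property (CC). -/
def PCC (θ : FIC) (ω : ℕ) : Prop := ∀ δ : FIC, Le θ δ → ∀ w w1, δ.r w w1 → w ≠ [] → ¬ R δ ω w → θ.r (rho ω w) (rho ω w1)

/-- Property (IV): the modular law inside `R θ`. -/
def PIV (θ : FIC) (ω : ℕ) : Prop := ∀ α β γ : FIC, Le θ α → Le θ β → Le θ γ → Le α γ → ∀ u v, R θ ω u → R θ ω v →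
  JnR α β (R θ ω) u v → γ.r u v → Jm α β γ u v

/-! ## Part S1: reduction -/

/-- MODULE S1 (250 lines; theorem hS1 (hM : StMain) : StS1). Reduction to words in `R`.
Proof. `N = thN θ ω`: nil, `Mod7 N` (`Mod7.le`), so `ModAt N` (StMain). Let `α ≤ γ`, `β` above `θ`, `Jn α β u v`, `γ.r u v`; `u ≠ []` (otherwise all is `[]`). Let `αN = thN α ω` etc.; they contain `N` (`thN_mono`: `R θ ⊆ R α`) and `αN ≤ γN`. By modularity of `N` there is a path from `u` to `v` with steps in `αN` or `βN ∩ γN`.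
Call a step `w → w'` honest if `α.r w w'`, or `β.r w w' ∧ γ.r w w'`. Claim 1: if a step `w → w'` is not honest then there is `L` with `R θ ω L` and `Jm α β γ w L`, and `L'` with `R θ ω L'` and `Jm α β γ w' L'`. Proof: an `αN`-step which is not an `α`-step: `R α w`, `R α w'`, and `w α L` for a word `L` containing an `ω`-th power. A `βN ∩ γN`-step: (c) if `β.r w w'`, not `γ.r w w'`:
then `R γ w`, `R γ w'`. If `R β w` also `R β w'`, and (H) gives for `w`: `L := w` if `R θ w`, otherwise `L := ρ(w)` (`w β ρ(w)`, `w γ ρ(w)`, `ρ(w)` is in `R θ`), the same for `w'`. If `¬ R β w`: then `¬ R β w'`, so `w, w'` are not in `R θ`, by (CC) with `δ = β`: `ρ(w) θ ρ(w')`, by (H) for `γ`: `w γ ρ(w) θ ρ(w') γ w'`: contradiction. (d) `γ.r w w'`, not `β.r w w'`: same with exchanged roles.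
(e) neither: `R β`, `R γ` for both words, (H) as before. Claim 2: if the path has a dishonest step, then (first dishonest step) `Jm α β γ u L`, `R θ L`, and (last dishonest step) `Jm α β γ v L'`, `R θ L'` (`Jm` is symmetric). (To formalise: induction along the path: either `Jm u w`, or `∃ L L', R θ L, R θ L', Jm u L, Jm L' w`.) `Jm ⊆ γ`, so `γ.r L L'`, and `Jn α β L L'`.
Claim 3: `Jn α β L L'` with `L, L'` in `R θ` implies `JnR α β (R θ) L L'`: replace every word `w` of the path by `π w = w` if `R θ w`, `π w = ρ(w)` otherwise: if `w δ w'` (`δ = α` or `β`) then `π w δ π w'`: both in `R θ`, or both not: clear (`ρ` is a substitution); if `R θ w`, `¬ R θ w'` then `R δ w'`, so by (H) `w' δ ρ(w')`. By (IV) `Jm α β γ L L'`. Hence `Jm u v`. (All words are nonempty.) -/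
def StS1 : Prop := ∀ (θ : FIC) (ω : ℕ), Bc θ ω → Mod7 θ → PH θ ω → PCC θ ω → PIV θ ω → ModAt θ

/-- MODULE NCr (150 lines). Words with prescribed multiplicities.
Proof. (1) Concatenate `List.replicate (k i) (X i)` over `i ∈ s`. (2) `Nat.chineseRemainder'` for every `i ∈ s`, add multiples of `a b` to make the number `≥ 2`. (3) `gcd a (lcm b c) = lcm (gcd a b) (gcd a c) = lcm (gcd a b) c` (prime by prime or by a direct argument). -/
def StNCr : Prop := (∀ (s : Finset ℕ) (k : ℕ → ℕ), (∀ i ∈ s, 1 ≤ k i) → ∃ w : Wd, ct w = s ∧ (∀ i ∈ s, oc i w = k i) ∧ ∀ a ∈ w, a.2 = false) ∧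
  (∀ (s : Finset ℕ) (a b : ℕ) (f g : ℕ → ℕ), 1 ≤ a → 1 ≤ b → (∀ i ∈ s, f i ≡ g i [MOD Nat.gcd a b]) →
    ∃ w : Wd, ct w = s ∧ (∀ i ∈ s, 2 ≤ oc i w ∧ oc i w ≡ f i [MOD a] ∧ oc i w ≡ g i [MOD b]) ∧ ∀ a ∈ w, a.2 = false) ∧
  (∀ a b c x y : ℕ, 1 ≤ a → 1 ≤ b → c ∣ a → x ≡ y [MOD Nat.gcd a b] → x ≡ y [MOD c] → x ≡ y [MOD Nat.gcd a (Nat.lcm b c)])

/-- MODULE NJ (40 lines; theorem hNJ (h3 : StTk3) : StNJ). Multiplicities along a path. Proof. Tk3 for each step. -/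
def StNJ : Prop := ∀ (θ α β : FIC) (ω a b : ℕ), Bc θ ω → Le θ α → Le θ β → Per α ω a → Per β ω b → ∀ u v, Jn α β u v →
  ∀ i, oc i u ≡ oc i v [MOD Nat.gcd a b]

/-- MODULE S2 (250 lines; theorem hS2 (h2 : StTk2) (h3 : StTk3) (h4 : StTk4) (hP : StNPer) (hc : StNCr) (hJ : StNJ) : StS2). Modular law for regular words.
Proof. `a, b, c` periods of `α, β, γ` (NPer), `c ∣ a`. `oc i u ≡ oc i v` modulo `gcd a b` (NJ) and modulo `c` (Tk3), so modulo `gcd a (lcm b c)` (NCr (3)). Write `Sd δ` for `δ.r (pw [X 0] ω ++ pw [X 1] ω) (pw [X 0] ω)`. (1) `ct u = ct v =: s`. NCr: `w` with content `s`, `oc i w ≡ oc i u` modulo `a`, `≡ oc i v` modulo `lcm b c`.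
By Tk2 `ρu α ρw`, `ρw β ρv`, `ρw γ ρv`. (2) `ct u ≠ ct v`: `Sd γ` (Tk3), and `Sd α` or `Sd β` (some step of the path changes the content, Tk3). `U = ct u ∪ ct v`. (2a) `Sd α`: take `w'` with content `U` and `oc i w' ≡ oc i u` modulo `a` (`i ∈ U`), and `w''` with content `U`, `oc i w'' ≡ oc i w'` modulo `lcm b c`, `≡ oc i v` modulo `a`.
`ρu α ρw'` (Tk4 for `α`: all multiplicities congruent modulo `a`; for `i ∉ U` they are 0), `ρw' (β ∩ γ) ρw''` (Tk2, same content), `ρw'' α ρv` (Tk4). (2b) `Sd β`: take `w'` with content `U`, `oc i w' ≡ oc i u` modulo `lcm b c`; `w''` with content `U`, `≡ oc i w'` modulo `a`, `≡ oc i v` modulo `lcm b c`: `ρu (β ∩ γ) ρw'` (Tk4 for `β`, `γ`), `ρw' α ρw''` (Tk2), `ρw'' (β ∩ γ) ρv` (Tk4).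
(`u ≠ []`, so `v ≠ []` and `w', w'' ≠ []`.) -/
def StS2 : Prop := ∀ (θ α β γ : FIC) (ω : ℕ), Bc θ ω → Le θ α → Le θ β → Le θ γ → Le α γ → ∀ u v, u ≠ [] → Jn α β u v → γ.r u v →
  Jm α β γ (rho ω u) (rho ω v)

/-- MODULE S3b (100 lines). If the four words are in `R` then all nonlinear words of length `≥ 3` are.
Proof. `w = p ++ [a] ++ q ++ [b] ++ r`, `a.1 = b.1`. If `q ≠ []`: `[a] ++ q ++ [b]` is an instance (`X 0 ↦ [a]`, `X 1 ↦ q`) of `xyx` or `xyx*`. If `q = []`, `r ≠ []`: `[a, b] ++ r` is an instance of `xxy` or `xx*y`. If `q = r = []`: `p ≠ []` and `st w` has the previous form. `R.sb`, `R.st`, `R.mul`. -/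
def StS3b : Prop := ∀ (θ : FIC) (ω : ℕ), PF θ ω → (∀ u ∈ Fw, R θ ω u) → ∀ w : Wd, 3 ≤ w.length → ¬ Lin w → R θ ω w

/-- MODULE S3 (120 lines; theorem hS3 (hL : StLin) (h2 : StTk2) : StS3). Property (CC).
Proof. `δ.r w w1`, `¬ R δ w`; `ct w = ct w1` (`cont_R`). `n = 1`: Tk2 with `n = 1`. Otherwise `oc i w = oc i w1` for all `i`: if `w` is linear, `w1` is linear of the same length (`lin_R`), same content. If `w` is not linear then `|w| = 2` (`|w| ≥ 3` would imply `R θ w`), `w = [a, b]`, `a.1 = b.1`; `w1` is not in `R δ`, not linear (`lin_R` for `w1 δ w`), so also of this form. -/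
def StS3 : Prop := ∀ (θ : FIC) (ω n : ℕ), Bc θ ω → Per θ ω n → (n = 1 ∨ ∀ w : Wd, 3 ≤ w.length → ¬ Lin w → R θ ω w) → PCC θ ω

/-- MODULE SK (80 lines; theorem hSK (h1 : StS1) (h2 : StS2) (h3b : StS3b) (h3 : StS3) (h5 : StS05) : StSK). Type K is modular.
Proof. S1. (H): `K1 δ`, S05 for `δ`. (CC): S3, S3b (the right sides in TyK contain an `ω`-th power). (IV): `u θ ρ(u)`, `v θ ρ(v)` (S05), `Jn α β u v`, S2. -/
def StSK : Prop := ∀ (θ : FIC) (ω n : ℕ), Mod7 θ → Bc θ ω → Per θ ω n → TyK θ ω n → ModAt θ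

/-- MODULE SKK (100 lines; theorem hSKK (h1 : StTk1) (h2 : StTk2) : StSKK). Types C and Q with K1 are of type K.
Proof. TyC: `u ~ x^(ω+2) y ~ x^(ω+2) y^(ω+1)` (multiply K1 by `x^2`). BQ: `xxy ~ x x^(ω+1) y = x^(ω+2) y ~ x^(ω+2) y^(ω+1)`; `xx*y ~ x x*^(ω+1) y ~ x x^(ω+1) y`; `xyx ~ x y^(ω+1) x`; star of K1 (renamed): `x y^ω ~ x^(ω+1) y^ω`; so `x y^ω y x ~ x^(ω+1) y^(ω+1) x = x^(ω+1) y (y^ω x) ~ x^(ω+1) y y^ω x^(ω+1) ~ x^(2ω+2) y^(ω+1)` (commuting); `xyx*` similarly,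
`x*^(ω+1) ~ x^(ω+1)`. -/
def StSKK : Prop := ∀ (θ : FIC) (ω n : ℕ), Bc θ ω → K1 θ ω → (TyC θ ω ∨ BQ θ ω) → TyK θ ω n

/-! ## Part S2: type C -/

/-- Same content, same letters occurring once, these with the same signs, multiplicities congruent modulo `m`. -/
def SimC (m : ℕ) (u v : Wd) : Prop := ct u = ct v ∧ (∀ i, oc i u = 1 ↔ oc i v = 1) ∧
  (∀ i, oc i u = 1 → ((i, false) ∈ u ↔ (i, false) ∈ v)) ∧ ∀ i, oc i u ≡ oc i v [MOD m]

/-- MODULE SC1 (250 lines; theorem hSC1 (h1 : StTk1) (hP : StNPer) : StSC1). Normal form in type C.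
Proof. Words in `R θ` are not linear: `u ~ p t^ω q`, so (rCd) some letter `i ∈ ct u` has `oc i u ≠ 1`, `oc i u ≥ 2`. (1) `u ~ x_i^ω u` for every `i` with `oc i u ≥ 2`: if `|u| ≥ 3`, `u = p a q b r`, `a.1 = b.1 = i`: if `q ≠ []` `a q b ~ a^(ω+2) q` (instance of `xyx` or `xyx*`), if `q = []`, `r ≠ []`: `a b r ~ a^(ω+2) r`; if `q = r = []`, `p ≠ []`: by star `p a b ~ p b^(ω+2)`
(`st (p a b) = b* a* p*`, an instance of `xxy` or `xx*y` with `x ↦ b*`). So `u` is related to a word with a factor `a^ω` or `b^ω`, which by `Cen` can be moved to the left and doubled; `a^ω ~ x_i^ω` (Tk1). If `|u| = 2`: `u ~ W = p t^ω q`, `ct W = {i}` by rCd, `|W| ≥ 3`, `W ~ x_i^ω W`. (2) For such `i`, `x_i^ω u ~ x_i^ω u'` if `u.Perm u'`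
(`x_i^ω p y z q ~ p x_i^ω y z q ~ p x_i^ω z y q`). (3) If `oc i u ≥ 2` then an occurrence of `x_i*` can be replaced by `x_i` (`x_i^ω x_i* ~ x_i^(ω+1)`, Tk1). (4) Modulo `δ`: `x_i^ω x_i^k δ x_i^ω x_i^l` if `k ≡ l` modulo `m`. So `u δ v`: bring both to the form `∏ x_i^ω x_i^(oc i) ∏ x_j^±` (first product: letters with `oc ≥ 2`, sorted; second: letters with `oc = 1`). -/
def StSC1 : Prop := ∀ (θ δ : FIC) (ω m : ℕ), Bc θ ω → TyC θ ω → Sub θ rCd → Le θ δ → Per δ ω m → ∀ u v, R θ ω u → R θ ω v →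
  SimC m u v → δ.r u v

/-- MODULE SC2 (150 lines; theorem hSC2 (h1 : StTk1) : StSC2).
Proof. First: `x^ω w(y) ~ x^ω y^(ω+|w|)` for one-letter words `w` of length `≥ 2`: `w = [a, b] ++ r`; `a(y) b(y) x^ω ~ a(y)^(ω+2) x^ω` (instance of `xxy` or `xx*y`), `Cen`, Tk1. Let `u ~ v`, not `rCd u v`. (i) `i ∈ ct u`, `i ∉ ct v` (or conversely): substitute `x_i ↦ y`, others `↦ x^ω`, multiply by `x^ω`: `x^ω w(y) ~ x^ω`, `|w| ≥ 1`. Iterate: `x^ω ~ x^ω w(y)^ω ~ x^ω y^(ω + ω|w|) ~ x^ω y^ω`. So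
`x^ω y ~ x^ω y^ω y`. (ii) `ct u = ct v`, `oc i u = 1`, `oc i v = k ≥ 2` (or conversely): the same substitution: `x^ω y^± ~ x^ω w(y) ~ x^ω y^(ω+k)`; `y ↦ y*` if necessary (`y*^(ω+k) ~ y^(ω+k)`): `x^ω y ~ x^ω y^(ω+k)`; times `y^ω`: `x^ω y^(ω+1) ~ x^ω y^(2ω+k) ~ x^ω y^(ω+k) ~ x^ω y`. -/
def StSC2 : Prop := ∀ (θ : FIC) (ω : ℕ), Bc θ ω → TyC θ ω → K1 θ ω ∨ Sub θ rCd

/-- MODULE SC3 (120 lines; theorem hSC3 (h2 : StTk2) (hP : StNPer) (h3b : StS3b) (h5 : StS05) (c1 : StSC1) (c2 : StSC2) : StSC3). Property (H) in type C.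
Proof. `¬ R θ w`, `R δ w`. If `K1 δ`: S05. Otherwise `Sub δ rCd` (SC2). `w δ W`, `W` contains `t^ω`; some letter occurs `≥ 2` times in `w` (rCd), so `w` is not linear, `|w| ≤ 2` (S3b; the four words are in `R θ`), `w = [a, b]`, `a.1 = b.1 = i`, `ct W = {i}`. `W` is in `R θ`, `ρ(W)` too, `SimC n W (ρ W)` (Tk2: `oc i (ρ W) = (ω+1) oc i W`, `n ∣ ω`), so `W θ ρ(W)` (SC1), `w δ W θ ρ(W) δ ρ(w)`. -/
def StSC3 : Prop := ∀ (θ : FIC) (ω : ℕ), Bc θ ω → TyC θ ω → Sub θ rCd → PH θ ω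

/-- MODULE SC4 (250 lines; theorem hSC4 (c1 : StSC1) (hP : StNPer) (hc : StNCr) : StSC4). Permutability in type C.
Proof. `n` = period of `θ`. Given `u β w α v`, all in `R θ`, `α, β ⊆ rCd` (so `u, v, w` have the same content and the same letters occurring once). Let `s j = true` iff `j` occurs once and has different signs in `u` and `w`; `q` = word (unstarred) whose letters are the `j` with `oc j w ≥ 2`, `oc j q = oc j u + (n - 1) oc j w` (NCr (1)). Then `SimC n u (q ++ rw' 1 s w)`, so `u θ q ++ rw' 1 s w` (SC1). Put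
`w' = q ++ rw' 1 s v`: in `R θ`, and `u α w'` (apply `rw' 1 s` and multiply by `q` on `w α v`). Similarly `s', q'` with `v θ q' ++ rw' 1 s' w`. From `u β w`: `q' ++ rw' 1 s' u β q' ++ rw' 1 s' w θ v`, and `q' ++ rw' 1 s' u θ w' = q ++ rw' 1 s v` by SC1: `SimC n`: the signs of a letter `j` occurring once are on both sides the product of the signs of `j` in `u, v, w`; the multiplicities of the others are
`oc j v + (n-1) oc j w + oc j u` on both sides. So `w' β v`. -/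
def StSC4 : Prop := ∀ (θ α β : FIC) (ω : ℕ), Bc θ ω → TyC θ ω → Sub θ rCd → Le θ α → Le θ β → Sub α rCd → Sub β rCd →
  ∀ u w v, R θ ω u → R θ ω w → R θ ω v → β.r u w → α.r w v → ∃ w', R θ ω w' ∧ α.r u w' ∧ β.r w' v

/-- MODULE SC5 (250 lines; theorem hSC5 (h2 : StTk2) (h3 : StTk3) (hP : StNPer) (hc : StNCr) (hJ : StNJ) (s2 : StS2) (h5 : StS05) (c1 : StSC1) (c2 : StSC2) (c4 : StSC4) : StSC5). Property (IV) in type C.
Proof. (A) `K1 α`: then `K1 γ`; `u α ρ(u)`, `v α ρ(v)` by S05 (`R.le`); `Jn α β u v`, S2 gives `Jm (ρu) (ρv)`. (C) `K1 β` and `K1 γ`: `u (β ∩ γ) ρ(u)`, same for `v`, S2. Otherwise `Sub α rCd` (SC2) and: (B) not `K1 β`: `Sub β rCd`. By SC4 and induction along the path inside `R θ`: there is `w` in `R θ` with `u α w β v`. Then `w γ u γ v`, so `Jm u v` (one `α`-step, one `β ∩ γ`-step).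
(D) `K1 β`, not `K1 γ`: `Sub γ rCd`, so `rCd u v`. `a, b` periods of `α, β`, `oc i u ≡ oc i v` modulo `gcd a b` (NJ). For every `j` with `oc j u ≥ 2` choose `k j ≥ 1` with `k j ≡ 0` modulo `a` and `k j + oc j u ≡ oc j v` modulo `b` (`Nat.chineseRemainder'`, or NCr (2) with `f = 0`, `g j = oc j v + (b - 1) oc j u`: `g j ≡ oc j v - oc j u` modulo `b`, hence `≡ 0` modulo `gcd a b`), `q` the word with these letters and multiplicities,
`w = q ++ u`. `SimC a u w`, so `u α w` (SC1 with `δ = α`). `w β ρ(w)`, `v β ρ(v)` (S05), `ρ(w) β ρ(v)` (Tk2 for `β`, `n = b`; same content, multiplicities congruent modulo `b`). So `w β v`, and `w γ u γ v`. -/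
def StSC5 : Prop := ∀ (θ : FIC) (ω : ℕ), Bc θ ω → TyC θ ω → Sub θ rCd → PIV θ ω

/-- MODULE SC (60 lines; theorem hSC (s1 : StS1) (hP : StNPer) (h3b : StS3b) (h3 : StS3) (hk : StSK) (hkk : StSKK) (c2 : StSC2) (c3 : StSC3) (c5 : StSC5) : StSC). Type C is modular.
Proof. `K1 θ`: SKK, SK. Otherwise `Sub θ rCd`; (H): SC3, (CC): S3 with S3b (the four words are related to words with an `ω`-th power), (IV): SC5; S1. -/
def StSC : Prop := ∀ (θ : FIC) (ω n : ℕ), Mod7 θ → Bc θ ω → Per θ ω n → TyC θ ω → ModAt θ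

/-! ## Part S3: type Q, forms -/

/-- MODULE QF (250 lines; theorem hQF (h1 : StTk1) (h2 : StTk2) : StQF). Forms in type Q.
Proof. (a) Replace the letters `l` of `m` one at a time by `l^(ω+1)`: QI1 with `x ↦` everything on the left (nonempty), `y ↦ [l]`, `z ↦` everything on the right. (b) After (a): `ρ(m)` contains `l^(ω+1)` with `l.1 = c.1`, it commutes with the other factors (Tk2), so `ρ(m) ~ c^ω ρ(m)` (`c^ω ~ l^ω`, `l^ω l^(ω+1) ~ l^(ω+1)`), `c ρ(m) ~ c^(ω+1) ρ(m)`; similarly on the right with `d`. So `c m d ~ c^(ω+1) ρ(m) d^(ω+1) = ρ(c m d)`.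
(c) as in (b) on the right side only: `c m d ~ c ρ(m) d ~ c ρ(m) d^(ω+1) = c ρ(m d)`. (d) mirror. (e) by (a) (`w = c m d`, `m ≠ []`), `ρ(m)` contains an `ω`-th power. (f) `ρ` and substitutions: letter by letter: `t^(ω+1) ~ ρ(t)` for `t = f i`: if `|t| = 1` equal; if `|t| ≥ 2` then `t^(ω+1) = c m d` with `c, d` the first and last letter of `t`, `c.1, d.1 ∈ ct m`, so by (b) `t^(ω+1) ~ ρ(t^(ω+1)) ~ ρ(t)` (Tk2 with `n = ω`);
starred letters by star (`st (rho ω t) = rho ω (st t)`). -/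
def StQF : Prop := ∀ (θ : FIC) (ω : ℕ), BQ θ ω →
  (∀ (c d : Lt) (m : Wd), m ≠ [] → θ.r (c :: m ++ [d]) (c :: rho ω m ++ [d])) ∧
  (∀ (c d : Lt) (m : Wd), m ≠ [] → c.1 ∈ ct m → d.1 ∈ ct m → θ.r (c :: m ++ [d]) (rho ω (c :: m ++ [d]))) ∧
  (∀ (c d : Lt) (m : Wd), m ≠ [] → d.1 ∈ ct m → θ.r (c :: m ++ [d]) (c :: rho ω (m ++ [d]))) ∧
  (∀ (c d : Lt) (m : Wd), m ≠ [] → c.1 ∈ ct m → θ.r (c :: m ++ [d]) (rho ω (c :: m) ++ [d])) ∧
  (∀ w : Wd, 3 ≤ w.length → R θ ω w) ∧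
  (∀ (f : ℕ → Wd) (w : Wd), (∀ i, f i ≠ []) → θ.r (sb f (rho ω w)) (rho ω (sb f w)))

/-- MODULE QN (200 lines; theorem hQN (h2 : StTk2) (hf : StQF) : StQN). Normal forms in type Q.
Proof. (1) Write `u = c m d`, `v = c' m' d'`, `m, m' ≠ []`. If `hd u = some c`, `hd (st u) = none`: `c.1 ∉ ct (m d)`, `d.1 ∈ ct (c m)`, so `d.1 ∈ ct m`: QF (c): `u ~ c ρ(m d)`, similarly `v ~ c ρ(m' d')` (`c' = c`), `ct (m d) = ct (m' d')`, multiplicities congruent: Tk2. Mirror case. If both are some: `c.1 ≠ d.1`, `c, d ∉ m`: `u ~ c ρ(m) d`, `v ~ c ρ(m') d`. (2) QF (a), Tk2. (3) `u = c m d`, `m ≠ []`. `hd u = none`: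
`c.1 ∈ ct m` or `c.1 = d.1`; `hd (st u) = none`: `d.1 ∈ ct m` or `d.1 = c.1`. If `c.1 = d.1 ∉ ct m`: first alternative. Otherwise `c.1, d.1 ∈ ct m`: QF (b). -/
def StQN : Prop := ∀ (θ : FIC) (ω m : ℕ), BQ θ ω → Per θ ω m →
  (∀ u v : Wd, 3 ≤ u.length → 3 ≤ v.length → ct u = ct v → hd u = hd v → hd (st u) = hd (st v) → (hd u ≠ none ∨ hd (st u) ≠ none) →
    (∀ i, oc i u ≡ oc i v [MOD m]) → θ.r u v) ∧
  (∀ (c d : Lt) (M M' : Wd), M ≠ [] → ct M = ct M' → (∀ i, oc i M ≡ oc i M' [MOD m]) → θ.r (c :: M ++ [d]) (c :: M' ++ [d])) ∧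
  (∀ u : Wd, 3 ≤ u.length → hd u = none → hd (st u) = none →
    (∃ (c d : Lt) (M : Wd), u = c :: M ++ [d] ∧ c.1 = d.1 ∧ c.1 ∉ ct M ∧ M ≠ []) ∨ θ.r u (rho ω u))

/-- MODULE Q2 (200 lines; theorem hQ2 (h1 : StTk1) (h2 : StTk2) (hf : StQF) : StQ2).
Proof. Let `h = x^ω`. (0) A product of `h, h*, y, y*` which begins and ends with `h^±` and contains `y^±` exactly `k ≥ 1` times is `~ h y^(ω+k)` (QI3: `h y h ~ h y^(ω+1)`, also `h y* h ~ h y^(ω+1)`; `h` commutes with `y^(ω+1)`). Let `u ~ v`, not `rQ u v`. (i) `i ∈ ct u`, `i ∉ ct v` (or conversely): substitute `x_i ↦ y`, others `↦ x^ω`, multiply by `h` on both sides: `h y^(ω+k) ~ h`, `k ≥ 1`; iterate: `h ~ h (y^(ω+k))^ω ~ h y^ω`,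
so `h y ~ h y^(ω+1)`. (ii) contents equal, `hd u ≠ hd v` (otherwise apply star), `hd u = some c` (or exchange), `c = X i` (sign change). Substitution as before, multiply by `h` on the right: `y h ~ v' h`. (a) `v'` begins with `h^±`: `y h ~ h y^(ω+k)`, `k ≥ 1`. Multiply by `y^ω` on the left: `y^(ω+1) h ~ y^ω h y^(ω+k) ~ h y^(ω+k) ~ y h`; star and `y ↦ y*`: K1.
(b) `v'` begins with `y*` or `y` and contains `y^±` at least twice: `v' h = y^± m h`, `m` contains `y^±`: by QF (in the form: letters of a middle part can be replaced by their `(ω+1)`-th powers) `v' h ~ y^(ω+k) h`, so `y h ~ y^(ω+k) h`, `y^(ω+1) h ~ y^(2ω+k) h ~ y^(ω+k) h ~ y h`: star, K1. (c) `v' h ~ y* h` (one occurrence, at the beginning; the sign is `-`, otherwise `hd v = some (X i)`): `y h ~ y* h`; substitute `y ↦ x^ω y`: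
`h y h ~ y* h h ~ y* h`, so `y* h ~ h y^(ω+1)`, `y ↦ y*`: `y h ~ h y^(ω+1)`: as (a). -/
def StQ2 : Prop := ∀ (θ : FIC) (ω : ℕ), BQ θ ω → K1 θ ω ∨ Sub θ rQ

/-- MODULE Q3h (120 lines; theorem hQ3h (hP : StNPer) (hf : StQF) (hn : StQN) (h5 : StS05) (q2 : StQ2) : StQ3h). Property (H) in type Q.
Proof. `¬ R θ w`, so `|w| ≤ 2` (QF (e)); `R δ w`. If `K1 δ`: S05. Otherwise `Sub δ rQ`: `w δ W`, `W` contains `t^ω`, `|W| ≥ 7`. `|w| = 1`, `w = [a]`: `hd W = some a`, `ct W = {a.1}`, so `|W| = 1`: contradiction. `w = [a, b]`, `a.1 ≠ b.1`: `hd W = some a`, so `W = a :: W'` with `a.1 ∉ ct W'`, `W'` is a word in the letter `b.1` whose last letter occurs only once: `|W'| = 1`, contradiction.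
`w = [a, b]`, `a.1 = b.1`: `ct W = {a.1}`, by QN (3) `W θ ρ(W)` (the first alternative is impossible), `w δ W θ ρ(W) δ ρ(w)`. -/
def StQ3h : Prop := ∀ (θ : FIC) (ω : ℕ), BQ θ ω → PH θ ω

/-- `w` is collapsed modulo `δ`. -/
def Clp (δ : FIC) (ω : ℕ) (w : Wd) : Prop := δ.r w (rho ω w)

/-- MODULE QE (250 lines; theorem hQE (h2 : StTk2) (hP : StNPer) (hf : StQF) (hn : StQN) : StQE). What is related to `c M d`, `c.1 = d.1`.
Proof. `u = c M d`, `i = c.1`. (0) If `u δ w` and `w` is collapsed then `u δ w δ ρ(w) δ ρ(u)`. `rQ u v`: `ct v = ct u`, `hd v = none`, `hd (st v) = none`; `ct v` has at least two elements, and `|v| = 2` would imply `hd v ≠ none`; so `|v| ≥ 3`. By QN (3) `v` is collapsed (then `u` is), or `v = b M' b'`, `b.1 = b'.1 = j ∉ ct M'`, `M' ≠ []`.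
(i) `j ≠ i`: substitute `x_j ↦ x_j^(ω+1)` (other letters fixed): `u ↦ c (sb M) d ~ u` (QN (2): same content, multiplicities congruent modulo the period, which divides `ω`), `v ↦ b^(ω+1) M'' b'^(ω+1)`, collapsed by QF (b). So `u` is collapsed. (ii) `j = i`, `u`, `v` have different types (`c.2 = d.2` but `b.2 ≠ b'.2`, or conversely). Let `z` be fresh and substitute `x_i ↦ x_i z`. The word of type `+` (equal signs) becomes
`x_i z N x_i z` or `z* x_i* N z* x_i*`, collapsed by QF (b). So the image `w'` of the word `w` of type `-` is collapsed: `w' = x_i z N z* x_i*` or `z* x_i* N x_i z` (`N` the middle part, `l ∈ ct N`). Substitute `z ↦ x_l^ω` in the first case, `x_i ↦ x_l^ω`, `z ↦ x_i` in the second case, in the relation `w' δ ρ(w')` (QF (f)): the image of `w'` is `~ w` (QN (2)): `w` is collapsed. So `u` is collapsed by (0).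
(iii) `j = i`, both of type `-`, `b ≠ c`, i.e. `u = c M c*`, `v = c* M' c`; substituting `x_i ↦ x_i*` if necessary let `c = X i`. Substitute `x_i ↦ x_i z`: `x_i z M z* x_i* δ z* x_i* M' x_i z`; by (i) (outer letters `i ≠ z`) the left side is collapsed; substitute `z ↦ x_l^ω`, `l ∈ ct M`: `u` is collapsed. In the remaining cases `v` has the stated form. -/
def StQE : Prop := ∀ (δ : FIC) (ω : ℕ), BQ δ ω → Sub δ rQ → ∀ (c d : Lt) (M v : Wd), c.1 = d.1 → c.1 ∉ ct M → M ≠ [] →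
  δ.r (c :: M ++ [d]) v → Clp δ ω (c :: M ++ [d]) ∨
    ∃ (c' d' : Lt) (M' : Wd), v = c' :: M' ++ [d'] ∧ c'.1 = c.1 ∧ d'.1 = c.1 ∧ c.1 ∉ ct M' ∧ ct M' = ct M ∧
      (c'.2 = d'.2 ↔ c.2 = d.2) ∧ (c.2 ≠ d.2 → c' = c)

/-- `x y^(ω+e) x = x^(ω+2) y^(ω+e)`. -/
def DPl (δ : FIC) (ω e : ℕ) : Prop := δ.r ([X 0] ++ pw [X 1] (ω + e) ++ [X 0]) (pw [X 0] (ω + 2) ++ pw [X 1] (ω + e))

/-- `x y^(ω+e) x* = x^(ω+2) y^(ω+e)`. -/
def DMi (δ : FIC) (ω e : ℕ) : Prop := δ.r ([X 0] ++ pw [X 1] (ω + e) ++ [Y 0]) (pw [X 0] (ω + 2) ++ pw [X 1] (ω + e))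

/-- `x y^(ω+e) x = x* y^(ω+e) x*`. -/
def DMg (δ : FIC) (ω e : ℕ) : Prop := δ.r ([X 0] ++ pw [X 1] (ω + e) ++ [X 0]) ([Y 0] ++ pw [X 1] (ω + e) ++ [Y 0])

/-- Greatest common divisor of the multiplicities. -/
def gm (M : Wd) : ℕ := (ct M).gcd (fun j => oc j M)

/-- MODULE Q5 (250 lines; theorem hQ5 (h1 : StTk1) (h2 : StTk2) (hf : StQF) : StQ5). Reduction to one letter in the middle.
Proof. By a signed renaming let `c = X i`. (→) Bezout: integers `B j` with `∑ B j oc j M = gm M`; add multiples of `ω` to make them `≥ 1`: `∑ B j oc j M ≡ gm M` modulo `ω`. Substitute `x_i ↦ x`, `x_j ↦ y^(B j)` (`j ∈ ct M`): `c M c ↦ x m x`, `m` a word in `y, y*` of length `≡ gm M` modulo `ω`; by QF (a), Tk1, Tk2 `x m x ~ x y^(ω + gm M) x`; the right sides `ρ(c M c)` become (QF (f)) `ρ(x m x) ~ x^(ω+2) y^(ω + gm M)`.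
(←) `oc j M = A j gm M`, `A j ≥ 1`. Substitute `x ↦ x_i`, `y ↦ ∏ x_j^(A j)` (`j ∈ ct M`): `x y^(ω+e) x ↦ x_i T^(ω+e) x_i ~ x_i M x_i` (QF (a), Tk2 with `n = ω`: same content, `(ω + e) A j ≡ oc j M` modulo `ω`), right sides similarly. The same for `x*` in the last place and for the third pair. -/
def StQ5 : Prop := ∀ (δ : FIC) (ω : ℕ), BQ δ ω → ∀ (c : Lt) (M : Wd), M ≠ [] → c.1 ∉ ct M →
  (Clp δ ω (c :: M ++ [c]) ↔ DPl δ ω (gm M)) ∧ (Clp δ ω (c :: M ++ [fl c]) ↔ DMi δ ω (gm M)) ∧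
  (δ.r (c :: M ++ [c]) (fl c :: M ++ [fl c]) ↔ DMg δ ω (gm M))

/-- MODULE Q5b (150 lines; theorem hQ5b (h1 : StTk1) (h2 : StTk2) (hP : StNPer) (hf : StQF) : StQ5b).
Proof. `gcd e m ∣ e'`: there is `t ≥ 1` with `t e ≡ e'` modulo `m`. Substitute `y ↦ y^t`: `y^((ω+e) t)`, `(ω + e) t ≡ ω + e'` modulo `m` (`m ∣ ω`), both `≥ ω` (NPer, fourth part). Last claim: substitute `x ↦ x y`: `x y y^(ω+e) y* x* ~ x y^(ω+e+2) x*` (Tk1), right side `(xy)^(ω+2) y^(ω+e)`, by QF (b) `~ ρ(..) ~ x^(ω+2) y^(ω+e+2)` (Tk2 with `n = ω`). -/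
def StQ5b : Prop := ∀ (δ : FIC) (ω m : ℕ), BQ δ ω → Per δ ω m →
  (∀ e e', Nat.gcd e m ∣ e' → (DPl δ ω e → DPl δ ω e') ∧ (DMi δ ω e → DMi δ ω e') ∧ (DMg δ ω e → DMg δ ω e')) ∧
  (∀ e, DMi δ ω e → DMi δ ω (e + 2))

/-- MODULE Q6 (60 lines; theorem hQ6 (hP : StNPer) (h5 : StQ5b) : StQ6). Proof. Suppose `p^k ∣ e`, `k = v_p(m)`. `m ∣ n`, `q = p^(v_p n)`: `DPl θ q` by Qp, so `DPl δ q`; `gcd q m = p^k ∣ e`, so `DPl δ e` by Q5b. -/
def StQ6 : Prop := ∀ (θ δ : FIC) (ω n m : ℕ), BQ θ ω → Per θ ω n → Qp θ ω n → Le θ δ → Per δ ω m → ∀ e, 1 ≤ e → ¬ DPl δ ω e →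
  ∀ p : ℕ, p.Prime → p ∣ n → ¬ p ^ m.factorization p ∣ e

/-- MODULE NT (100 lines). Number theory.
Proof. Compare `v_p` for every prime `p ∣ n` (for other primes both sides have `v_p = 0`): `v_p(d) < v_p(a), v_p(b)`, so `v_p(d) < v_p(gcd a b)` and `min (v_p d) (v_p (gcd a b)) = v_p(d) = min (v_p d') (v_p (gcd a b))` implies `v_p(d') = v_p(d)`. Second part: `e ∣ g`, `e` divides all `oc j M` iff `e` divides all `oc j M'`. -/
def StNT : Prop := (∀ n a b d d' : ℕ, 1 ≤ n → a ∣ n → b ∣ n → 1 ≤ d → 1 ≤ d' →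
    (∀ p : ℕ, p.Prime → p ∣ n → ¬ p ^ a.factorization p ∣ d ∧ ¬ p ^ b.factorization p ∣ d) →
    Nat.gcd d (Nat.gcd a b) = Nat.gcd d' (Nat.gcd a b) → Nat.gcd d n = Nat.gcd d' n) ∧
  (∀ (M M' : Wd) (g : ℕ), ct M = ct M' → (∀ j, oc j M ≡ oc j M' [MOD g]) → Nat.gcd (gm M) g = Nat.gcd (gm M') g) ∧
  (∀ M : Wd, M ≠ [] → 1 ≤ gm M)

/-- MODULE Q7 (120 lines; theorem hQ7 (hP : StNPer) (h5 : StQ5) (h5b : StQ5b) (h6 : StQ6) (ht : StNT) : StQ7). Transfer, type `+`.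
Proof. `d = gm M`, `d' = gm M'`. `¬ DPl α d`, `¬ DPl β d` (Q5), so Q6 gives the hypothesis of NT; `gcd d g = gcd d' g` for `g = gcd a b`; so `gcd d n = gcd d' n`. For every `δ ≥ θ` with period `m ∣ n`: `gcd d' m ∣ gcd d' n = gcd d n ∣ d` and conversely, so by Q5b `DPl δ d ↔ DPl δ d'`, `DMg δ d ↔ DMg δ d'`. Q5. -/
def StQ7 : Prop := ∀ (θ α β : FIC) (ω n a b : ℕ), BQ θ ω → Per θ ω n → Qp θ ω n → Le θ α → Le θ β → Per α ω a → Per β ω b →
  ∀ (c : Lt) (M M' : Wd), M ≠ [] → c.1 ∉ ct M → ct M = ct M' → (∀ j, oc j M ≡ oc j M' [MOD Nat.gcd a b]) →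
  ¬ Clp α ω (c :: M ++ [c]) → ¬ Clp β ω (c :: M ++ [c]) → ¬ Clp α ω (c :: M' ++ [c]) ∧ ¬ Clp β ω (c :: M' ++ [c]) ∧
    ∀ δ : FIC, Le θ δ → (δ.r (c :: M' ++ [c]) (fl c :: M' ++ [fl c]) ↔ δ.r (c :: M ++ [c]) (fl c :: M ++ [fl c]))

/-- MODULE Q8 (150 lines; theorem hQ8 (hP : StNPer) (h5 : StQ5) (h5b : StQ5b) (ht : StNT) : StQ8). Transfer, type `-`.
Proof. `d = gm M`, `d' = gm M'`. (1) For `δ ≥ θ` with period `m`: if `DMi δ e` and (`e` odd or `m` odd) then `DMi δ e'` for all `e'`: by Q5b `DMi δ (t e)` (`t ≥ 1`), `DMi δ (e + 2k)`, and `e'` may be replaced by `e' + m K`. If `m` is odd: `e + 2 k ≡ e'` modulo `m` for some `k`. If `m` is even and `e` odd: for odd `e'`: `e' + m K = e + 2 k`; for even `e'`: start with `2 e`.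
(2) `n` odd: `a, b` are odd, `DMi α d'` would imply `DMi α d`. (3) `n` even: by Qm `DMi θ 0`, so `DMi θ e` for all even `e`. So `d` is odd. If `a` were odd, `DMi α 0` would imply `DMi α d`. So `a`, similarly `b`, are even, `gcd a b` is even, some `oc j M` is odd, so `oc j M'` is odd and `d'` is odd; `DMi α d'` would imply `DMi α d` by (1). The same for `β`. -/
def StQ8 : Prop := ∀ (θ α β : FIC) (ω n a b : ℕ), BQ θ ω → Per θ ω n → Qm θ ω n → Le θ α → Le θ β → Per α ω a → Per β ω b →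
  ∀ (c : Lt) (M M' : Wd), M ≠ [] → c.1 ∉ ct M → ct M = ct M' → (∀ j, oc j M ≡ oc j M' [MOD Nat.gcd a b]) →
  ¬ Clp α ω (c :: M ++ [fl c]) → ¬ Clp β ω (c :: M ++ [fl c]) → ¬ Clp α ω (c :: M' ++ [fl c]) ∧ ¬ Clp β ω (c :: M' ++ [fl c])

/-- MODULE Q9a (250 lines; theorem hQ9a (h3 : StTk3) (hP : StNPer) (hc : StNCr) (h5 : StS05) (hf : StQF) (hn : StQN) (q2 : StQ2) (hE : StQE) (h7 : StQ7) (h8 : StQ8) : StQ9a). Words `c M d` uncollapsed in `α` and `β`.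
Proof. `u = c M d`, `i = c.1`; write `c̄ = fl c`. `a, b, n` periods of `α, β, θ`; `g = gcd a b`. Not `K1 α` (otherwise S05: `u` is in `R θ` by QF (e), so collapsed in `α`), so `Sub α rQ` (Q2); similarly `β`.
Claim. If `Jn α β u w` then `w = c' M' d'`, `c'.1 = d'.1 = i ∉ ct M'`, `ct M' = ct M`, `oc j M' ≡ oc j M` modulo `g` for all `j`, `c'.2 = d'.2 ↔ c.2 = d.2`; if `c.2 ≠ d.2` then `c' = c`; if `c = d` then `c' = c`, or `α.r (c M c) (c̄ M c̄)`, or `β.r (c M c) (c̄ M c̄)`. Proof by induction on the path. Step `w δ w2` (`δ = α` or `β`, period `m`, `g ∣ m`). `¬ Clp δ w`: by Q7 (type `+`) or Q8 (type `-`) `¬ Clp δ (c M' d)`,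
and if `c' = c̄` (type `+`) the sign change of `x_i` (`δ.rn`) maps `w` to `c M' c` (M' is unchanged as `i ∉ ct M'`). So QE gives `w2 = c'' M'' d''`; multiplicities: Tk3 for `δ` (for `j ≠ i`: `oc j w2 = oc j M''`). Type `-`: `c'' = c' = c`. Type `+` and `c'' ≠ c'`: `δ.r (c' M' c') (c'' M'' c'')` and by QN (2) (for `δ`) `c'' M'' c'' δ c'' M' c''`; so (sign change if `c' = c̄`) `δ.r (c M' c) (c̄ M' c̄)`, and by Q7 `δ.r (c M c) (c̄ M c̄)`.
Now `v = c' M' d'`. Take `N` with `ct N = ct M`, `oc j N ≡ oc j M` modulo `a`, `≡ oc j M'` modulo `b` for `j ∈ ct M` (NCr). If `c' = c` (so `d' = d`): `w = c N d`: `u α w`, `w β v` by QN (2). If `c' = c̄`, type `+`: if `α.r (c M c) (c̄ M c̄)`: `w = c̄ N c̄`, `u α c̄ M c̄ α w β v`. If `β.r (c M c) (c̄ M c̄)`: `w = c N c`, `u α w`; by Q7 (`M' := N`, congruent modulo `g` since `g ∣ a`) `β.r (c N c) (c̄ N c̄)`, and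
`c̄ N c̄ β c̄ M' c̄ = v`. -/
def StQ9a : Prop := ∀ (θ α β : FIC) (ω n : ℕ), BQ θ ω → Per θ ω n → Qp θ ω n → Qm θ ω n → Le θ α → Le θ β →
  ∀ (c d : Lt) (M v : Wd), M ≠ [] → c.1 ∉ ct M → c.1 = d.1 → ¬ Clp α ω (c :: M ++ [d]) → ¬ Clp β ω (c :: M ++ [d]) →
  Jn α β (c :: M ++ [d]) v → ∃ w, α.r (c :: M ++ [d]) w ∧ β.r w v

/-- MODULE Q9b (200 lines; theorem hQ9b (hP : StNPer) (hc : StNCr) (hn : StQN) : StQ9b). Words with a single first or last letter.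
Proof. (1) `hd u = some c`, `hd (st u) = none`: `s = ct u \ {c.1}` (nonempty since `|u| ≥ 3`); NCr (2): `N` with content `s`, `oc j N ≡ oc j u` modulo `a`, `≡ oc j v` modulo `b`, all multiplicities `≥ 2`. `w = c :: N`: `hd w = some c`, `hd (st w) = none` (the last letter of `N` occurs twice), `|w| ≥ 3`, `oc c.1 w = 1 = oc c.1 u = oc c.1 v`. QN (1) for `α` and for `β`. (2) mirror image (or apply star). (3) both some:
`u` begins with `c`, ends with `d`, `s = ct u \ {c.1, d.1}` is nonempty, `w = c :: N ++ [d]`. (If `s` were empty then `|u| = 2`.) -/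
def StQ9b : Prop := ∀ (α β : FIC) (ω a b : ℕ), BQ α ω → BQ β ω → Per α ω a → Per β ω b → ∀ u v : Wd, 3 ≤ u.length → 3 ≤ v.length →
  rQ u v → (hd u ≠ none ∨ hd (st u) ≠ none) → (∀ i, oc i u ≡ oc i v [MOD Nat.gcd a b]) → ∃ w, α.r u w ∧ β.r w v

/-- MODULE Q9 (250 lines; theorem hQ9 (h2 : StTk2) (h3 : StTk3) (hP : StNPer) (hc : StNCr) (hJ : StNJ) (s2 : StS2) (h5 : StS05) (hf : StQF) (hn : StQN) (q2 : StQ2) (hE : StQE) (ha : StQ9a) (hb : StQ9b) : StQ9). Property (IV) in type Q.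
Proof. `u, v` in `R θ`, `Jn α β u v`, `γ.r u v`. It suffices to find `w` with `u α w β v` (then `w γ u γ v`), or with `v α w β u` (`Jm` is symmetric). (A) `K1 α`, (C) `K1 β` and `K1 γ`: as in SC5 (S05 and S2). Otherwise `Sub α rQ` and (`Sub β rQ` or `Sub γ rQ`) (Q2), so `rQ u v` (along the path, or by `γ`).
(I) `hd u ≠ none` or `hd (st u) ≠ none`. Then `|u|, |v| ≥ 3` (as in Q3h: `u θ W` with `|W| ≥ 7`, `rQ u W`), NJ, Q9b. (II) `hd u = hd (st u) = none`. Every `x ∈ {u, v}` is collapsed in `θ` or of the form `c M d` with `c.1 = d.1 ∉ ct M`, `M ≠ []`: QN (3) if `|x| ≥ 3`; if `|x| = 2`, `x = [e, f]`, `e.1 = f.1`, `x θ W`, `|W| ≥ 7`, `ct W = {e.1}`, `W θ ρ(W)` by QN (3), so `x θ ρ(x)`. (`|x| = 1` has `hd ≠ none`.)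
(1) `u = c M d` with `¬ Clp α u`, `¬ Clp β u`: Q9a. The same for `v` with `u`, `v` exchanged (the path reversed). (2) Not (1), `u = c M d` with `¬ Clp γ u`: then `¬ Clp α u` (`α ≤ γ`), so `Clp β u`. `¬ Clp γ v` (otherwise `u γ v γ ρ(v) γ ρ(u)`), so `v` is not collapsed in `θ`, in `α`, and, as (1) does not apply to `v`, `Clp β v`. `¬ K1 γ` (S05), `Sub γ rQ`. QE for `γ`: `v = c' M' d'`, `c'.1 = d'.1 = c.1 ∉ ct M'`, `ct M' = ct M`, same type, `c' = c` in type `-`.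
`oc j M ≡ oc j M'` modulo `gcd a b` (NJ). `N` from NCr: `ct N = ct M`, `≡ oc j M` modulo `a`, `≡ oc j M'` modulo `b`. `w = c N d`: `u α w` (QN (2)). `c' N d' β c' M' d' = v` (QN (2)), `v` is collapsed in `β`, so `c' N d'` is; it is `w` or (type `+`, `c' = fl c`) the image of `w` under the sign change of `x_(c.1)`; so `Clp β w`. `w β ρ(w) β ρ(v) β v` (Tk2 for `β`, same content, multiplicities congruent modulo `b`).
If `v` is uncollapsed in `γ` then so is `u`: nothing else to do. (3) Otherwise both `u` and `v` are collapsed in `γ`, and in `α` or in `β` (or already in `θ`): so `Jm u (ρu)`, `Jm v (ρv)`, and S2 gives `Jm (ρu) (ρv)`. -/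
def StQ9 : Prop := ∀ (θ : FIC) (ω n : ℕ), BQ θ ω → Per θ ω n → Qp θ ω n → Qm θ ω n → Sub θ rQ → PIV θ ω

/-- MODULE SQ (60 lines; theorem hSQ (s1 : StS1) (h3 : StS3) (hk : StSK) (hkk : StSKK) (hf : StQF) (q2 : StQ2) (q3 : StQ3h) (q9 : StQ9) : StSQ). Type Q is modular.
Proof. `K1 θ`: SKK, SK. Otherwise `Sub θ rQ` (Q2); (H): Q3h, (CC): S3 with QF (e), (IV): Q9; S1. -/
def StSQ : Prop := ∀ (θ : FIC) (ω n : ℕ), Mod7 θ → Bc θ ω → Per θ ω n → TyQ θ ω n → ModAt θ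

/-- MODULE SAs (10 lines; theorem hSAs (k : StSK) (c : StSC) (q : StSQ) : StSAs). Sufficiency. -/
def StSAs : Prop := ∀ (θ : FIC) (ω n : ℕ), Mod7 θ → Bc θ ω → Per θ ω n → (TyK θ ω n ∨ TyC θ ω ∨ TyQ θ ω n) → ModAt θ

/-! ## Part N6: necessity in type Q -/

/-- `u` is collapsed modulo `θ` or related to a word `c M c^±` (sign `+` if `τ`), all multiplicities of `M` divisible by `q`. -/
def ZR (θ : FIC) (ω : ℕ) (τ : Bool) (q : ℕ) (u : Wd) : Prop := θ.r u (rho ω u) ∨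
  ∃ (c : Lt) (M : Wd), M ≠ [] ∧ c.1 ∉ ct M ∧ (∀ j, q ∣ oc j M) ∧ θ.r u (c :: M ++ [if τ then c else fl c])

/-- MODULE Zet (250 lines; theorem hZet (h1 : StTk1) (h2 : StTk2) (hf : StQF) : StZet).
Proof. Abbreviate `Z u := ZR θ ω τ q u`; closed under `θ`. Equivalence relation: clear. `[]`: `ρ [] = []`. Star: `st (rho ω u) = rho ω (st u)`; `st (c M c) = c* M* c*`, `st (c M c*) = c M* c*`. Multiplication: let `Z u`, `a ++ b ≠ []`; claim: `a u b θ a ρ(u) b` (then for `Z u`, `Z v`, `ρ(u) θ ρ(v)`: `a u b θ a ρ(u) b θ a ρ(v) b θ a v b`). Clear if `u θ ρ(u)`. Let `u θ c M c'`, `c'.1 = c.1`.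
If `a, b ≠ []`: QF (a) (inside `a u b` all letters of `u` can be replaced by their `(ω+1)`-th powers). If `b = []`, `a ≠ []`: `a c M c' ~ a c^(ω+1) ρ(M) c' ~ a ρ(M) c^(ω+1) c'` (QF (a), commuting), `c^(ω+1) c' ~ c^(ω+1) c'^(ω+1)` (Tk1, Tk2), so `~ a c^(ω+1) ρ(M) c'^(ω+1) = a ρ(c M c')`; and `ρ(u) θ ρ(c M c')`. `a = []` by star. Substitution `f`: `ρ(sb f u) θ sb f (ρ u)` (QF (f)), so `ρ(sb f u) θ ρ(sb f v)`.
`Z (sb f u)`: if `u θ ρ(u)`: `sb f u θ sb f (ρ u) θ ρ(sb f u)`. If `u θ c M c'`: `F = f(c)^±` (the image of `c`), `sb f (c M c') = F (sb f M) F'`, `F' = F` (`τ`) or `F* `. If `|F| = 1`, `F = [e]`: if `e.1 ∉ ct (sb f M)` it is again of the form (`q ∣ oc j (sb f M) = ∑ oc l M oc j (f l)`), otherwise QF (b): collapsed. If `|F| ≥ 2`: type `+`: first letter of `F` occurs in the middle (in the second copy), the last letter too: collapsed by QF (b).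
Type `-`: `F = e F1`, the word is `e (F1 (sb f M) F1*) e*`: if `e.1` is in the content of the middle: collapsed; otherwise of the form, the multiplicities `2 oc j F1 + oc j (sb f M)` are divisible by `q ∈ {1, 2}`. -/
def StZet : Prop := ∀ (θ : FIC) (ω : ℕ), BQ θ ω → ∀ (τ : Bool) (q : ℕ), (τ = true ∨ q = 1 ∨ q = 2) →
  ∃ E : FIC, ∀ u v, E.r u v ↔ θ.r u v ∨ (ZR θ ω τ q u ∧ ZR θ ω τ q v ∧ θ.r (rho ω u) (rho ω v))

/-- MODULE N14 (250 lines; theorem hN14 (h1 : StTk1) (h2 : StTk2) (h3 : StTk3) (hP : StNPer) (hf : StQF) (hn : StQN) (hE : StQE) (h5b : StQ5b) (hz : StZet) : StN14).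
Proof. Let `p ∣ n` be prime, `q = p^(v_p n)`, `n = q m`, `gcd q m = 1`, `q ≥ 2`; suppose `¬ DPl θ q`. (F) `¬ DPl θ e` for all `e` with `gcd e m = 1`: `gcd e n` divides `q`, so `DPl θ e` would imply `DPl θ q` (Q5b). Let `w0 = x y^(ω+1) x`, `w3 = x^(ω+2) y^(ω+1)`; `γ`, `α` from Zet with `τ = true` and modulus `1`, `q`; `α ≤ γ`; `β = gen θ (x^ω) (x^(ω+m))`. Choose `e0 = 1 + j m`, `q ∣ e0`. `w0 β x y^(ω+e0) x =: w1` (`y^ω β y^(ω+jm)`),
`w1 α w2 := x^(ω+2) y^(ω+e0)` (`w1` is of the form with `M = y^(ω+e0)`, `q ∣ ω + e0` as `n ∣ ω`; `w2` is collapsed; `ρ(w1) θ ρ(w2)` by Tk2), `w2 β w3`, and `w0 γ w3`. So `Jm α β γ w0 w3`. Let `J w := θ.r w (x y^(ω+1) x) ∨ θ.r w (x* y^(ω+1) x*)`, `I w := ∃ e, e ≡ 1 [MOD m] ∧ (θ.r w (x y^(ω+e) x) ∨ θ.r w (x* y^(ω+e) x*))`.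
(1) `I` is closed under `β`-steps. `θ`-steps: clear. Let `w = P t^k Q`, `w' = P t^l Q`, `{k, l} = {ω, ω+m}`, `I w`, say `w θ c y^(ω+e) c`, `c ∈ {x, x*}`. `c y^(ω+e) c` is not collapsed in `θ` ((F), `gcd e m = 1`, and `DPl θ e` is also equivalent to the collapse of `x* y^(ω+e) x*` by a sign change). By QE (`Sub θ rQ`): `w = c' M' c''` with `c'.1 = c''.1 = 0`, `ct M' = {1}`, `c' = c''` (type `+`). `|t^k| ≥ 7` and `0` occurs only twice in `w`, so `t` is a word in `y, y*` and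
`t^k` lies inside `M'`. So `w' = c' M''' c'`, `|M'''| ≡ |M'| ≡ e ≡ 1` modulo `m` (`|M'| ≡ ω + e` modulo `n` by Tk3, `m ∣ n ∣ ω`), `w' θ c' y^(ω+|M'''|) c'` (QN (2)). (Steps with the starred pair: the same with `t*`.) (2) `J` is invariant along the path: let `J w`. `α`-step: `θ`, or `ZR .. q w`: `w` is not collapsed ((F) with `e = 1`), so `w θ c M c` with `q ∣ oc j M`; by QE `c.1 = 0`, `ct M = {1}`, `oc 1 M ≡ ω + 1` modulo `n` (Tk3), so `q ∣ 1`: contradiction.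
`β ∩ γ`-step `w → w'`: by (1) `I w'`: `w' θ c y^(ω+e) c`; `γ`: `θ.r w w'` (then `J w'`), or `ρ(w) θ ρ(w')`; Tk3: `ω + 1 ≡ (ω+1)(ω+e)`.. i.e. `e ≡ 1` modulo `n`, so `w' θ c y^(ω+1) c`, `J w'`. So `J w3`; `w3` is collapsed, so `x y^(ω+1) x` is collapsed: contradiction to (F). -/
def StN14 : Prop := ∀ (θ : FIC) (ω n : ℕ), ModAt θ → BQ θ ω → Per θ ω n → Sub θ rQ → Qp θ ω n

/-- MODULE N15 (250 lines; theorem hN15 (h1 : StTk1) (h2 : StTk2) (h3 : StTk3) (hP : StNPer) (hf : StQF) (hn : StQN) (hE : StQE) (h5b : StQ5b) (hz : StZet) : StN15).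
Proof. `n` even, `n = 2^k m`, `m` odd; suppose `¬ DMi θ 0`. (F) `¬ DMi θ e` for all `e` (`gcd e n ∣ 0`, Q5b). `w0 = x y^(ω+1) x*`, `w3 = x^(ω+2) y^(ω+1)`; `γ`, `α` from Zet with `τ = false` and modulus `1`, `2`; `β = gen θ (x^ω) (x^(ω+m))`. `w0 β w1 := x y^(ω+1+m) x*`, `w1 α w2 := x^(ω+2) y^(ω+1+m)` (`ω + 1 + m` is even), `w2 β w3`, `w0 γ w3`. So `Jm α β γ w0 w3`.
`J w := θ.r w (x y^(ω+1) x*) ∨ θ.r w (x* y^(ω+1) x)`, `I w := ∃ e, e ≡ 1 [MOD m] ∧ (θ.r w (x y^(ω+e) x*) ∨ θ.r w (x* y^(ω+e) x))`. As in N14: (1) `I` is closed under `β`-steps (QE: `w = c' M' c''` with `c'.1 = c''.1 = 0`, `c'' = fl c'`). (2) `J` is invariant: `α`-step: `w` is not collapsed, `w θ c M (fl c)`, `2 ∣ oc 1 M ≡ ω + 1` modulo `n`, `n`, `ω` even: contradiction; `β ∩ γ`-step as in N14. So `J w3`, `w3` is collapsed, contradiction to (F). -/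
def StN15 : Prop := ∀ (θ : FIC) (ω n : ℕ), ModAt θ → BQ θ ω → Per θ ω n → Sub θ rQ → Qm θ ω n

/-- MODULE NAs (100 lines; theorem hNAs (h3 : StTk3) (hP : StNPer) (h9b : StN9b) (h11 : StN11b) (h10 : StN10) (h12 : StN12) (h13 : StN13) (h13q : StN13q) (h16 : StN16) (h19 : StN19) (h17 : StN17) (h16b : StN16b) (h19b : StN19b) (h14 : StN14) (h15 : StN15) : StNAs). Necessity.
Proof. If `Sub θ rQ`: N12, N13, N13q: `BQ`; N14, N15: TyQ. Otherwise `Cen` (N11b), `Bc` (N13). If `Sub θ rCd`: `Cmm` (N17), the four words (N16, N16b; idempotents: N9b): TyC. Otherwise K1 (N10), and `n = 1` or the four words (N19, N19b): TyK. -/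
def StNAs : Prop := ∀ (θ : FIC) (ω : ℕ), ModAt θ → HN θ → PF θ ω → Bc θ ω ∧ ∃ n, Per θ ω n ∧ (TyK θ ω n ∨ TyC θ ω ∨ TyQ θ ω n)

end Helper1.IM
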