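import Pool.Agent.Helper1.IM.NSt2

/-!
# Project IM, second part: periodicity (statements with complete proofs)

Every variety which contains a nontrivial null algebra and has modular subvariety lattice is periodic. Notation as in `NSt.lean`; no periodicity is assumed. `PS θ ω`: `(xx*)^ω` is idempotent.
-/

set_option autoImplicit false

namespace Helper1.IM

/-- `(xx*)^ω` is idempotent modulo `θ`, `7 ≤ ω`. -/
def PS (θ : FIC) (ω : ℕ) : Prop := 7 ≤ ω ∧ θ.r (pw [X 0, Y 0] ω) (pw [X 0, Y 0] (ω + ω))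

/-- The word `(xx*)^ω`. -/
def hw (ω : ℕ) : Wd := pw [X 0, Y 0] ω

/-- MODULE P0 (100 lines; theorem hP0 (h1 : StNA1) : StP0). Local version of NA1.
Proof. `μ.r u v := (u = [] ↔ v = []) ∧ ∀ f, (∀ i, G (f i)) → θ.r (sb f u) (sb f v)`. `G (sb f u)` for `u ≠ []` if all `G (f i)`. `μ` is an FIC containing `θ` (`sub'`: `sb_sb`; see `M_N6.lean`). `μ.r [X 0] w` since `sb f w = sb (fun _ => f 0) w` for one-letter words `w`. By NA1 `μ.r [X 0] [Y 0]`; take `f = fun _ => s`. -/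
def StP0 : Prop := ∀ θ : FIC, ModAt θ → HN θ → ∀ (G : Wd → Prop) (w : Wd), (∀ s, G s → s ≠ []) → (∀ s t, G s → G t → G (s ++ t)) →
  (∀ s, G s → G (st s)) → One w → 2 ≤ w.length → (∀ s, G s → θ.r s (sb (fun _ => s) w)) → ∀ s, G s → θ.r s (st s)

/-- MODULE P1 (60 lines; theorem hP1 (hT : StTy) (hS : StSat) : StP1). Long companions.
Proof. `θ'` from Sat for `max k 1`: nil (all words of length `≥ k` are identified), modular (`ModAt.le`, `ModAt.mod7`), so `Typ θ'`; as in N9c `w` is zero modulo `θ'`, so `θ'.r w (w ++ pw [X 0] (k+1))`: `θ.r` (take `v` the right side) or `sat k θ w`. Last claim: substitute all letters of `v` by `x`. -/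
def StP1 : Prop := ∀ θ : FIC, ModAt θ → (∀ w : Wd, 7 ≤ w.length → (∃ i, 4 ≤ oc i w) → ∀ k, ∃ v, θ.r w v ∧ k ≤ v.length) ∧
  (∀ w : Wd, 7 ≤ w.length → One w → ∀ k, ∃ v, One v ∧ θ.r w v ∧ k ≤ v.length)

/-- MODULE P2 (60 lines; theorem hP2 (h1 : StP1) : StP2). Proof. `x^7 ~ v`, `|v| = L ≥ 8`, `One v` (P1). Substitute `x ↦ xx*` (`st [X 0, Y 0] = [X 0, Y 0]`): `(xx*)^7 ~ (xx*)^L`. Let `d = L - 7`: `(xx*)^j ~ (xx*)^(j+d)` for `j ≥ 7`, so `ω = 7 d` works (`(xx*)^ω ~ (xx*)^(ω + 7 d)`). -/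
def StP2 : Prop := ∀ θ : FIC, ModAt θ → ∃ ω, PS θ ω

/-- MODULE P3 (100 lines; theorem hP3 (h5 : StN5) : StP3). Regular elements without periodicity: first part of the proof of N7.
Proof. `e = rs`, `f = sr` are idempotent, so `e ~ e* = s*r*`, `f ~ f* = r*s*` (N5). `r ~ rf ~ r r*s*`, so `rr* (s*s) ~ rs = e`; `e (rr*) ~ rr*`, `(rr*) e ~ rr*`. So `(rr*)^k (s*s)^k ~ e` for `k ≥ 1`, `(rr*)^ω ~ (rr*)^ω e ~ (rr*)^(2ω) (s*s)^ω ~ (rr*)^ω (s*s)^ω ~ e`. Similarly `r ~ er ~ s*r*r`, `(ss*)(r*r) ~ f`, `(r*r)^ω ~ f`. -/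
def StP3 : Prop := ∀ (θ : FIC) (ω : ℕ), ModAt θ → HN θ → PS θ ω → ∀ r s : Wd, r ≠ [] → s ≠ [] → θ.r r (r ++ s ++ r) →
  θ.r (pw (r ++ st r) ω) (r ++ s) ∧ θ.r (pw (st r ++ r) ω) (s ++ r)

/-- MODULE P5 (80 lines; theorem hP5 (h0 : StP0) (h5 : StN5) : StP5). Group elements without periodicity.
Proof. `G s := s ≠ [] ∧ e s ~ s ∧ s e ~ s ∧ ∃ s', s' ≠ [] ∧ e s' ~ s' ∧ s' e ~ s' ∧ s s' ~ e ∧ s' s ~ e`: closed under products and star (`e ~ e*`, N5). For `G s`: `(s* s)^ω` is idempotent (PS with `x ↦ s*`) and in `G`, so `~ e`; hence `s (s* s)^ω ~ s`, i.e. the word `w = x (x* x)^ω` satisfies the hypothesis of P0. So `s ~ s*`, and `s^(2ω) ~ (s* s)^ω ~ e`. -/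
def StP5 : Prop := ∀ (θ : FIC) (ω : ℕ), ModAt θ → HN θ → PS θ ω → ∀ e s s' : Wd, e ≠ [] → s ≠ [] → s' ≠ [] → θ.r (e ++ e) e →
  θ.r (e ++ s) s → θ.r (s ++ e) s → θ.r (e ++ s') s' → θ.r (s' ++ e) s' → θ.r (s ++ s') e → θ.r (s' ++ s) e →
  θ.r s (st s) ∧ θ.r (pw s (2 * ω)) e

/-- MODULE P6 (150 lines; theorem hP6 (h0 : StP0) (h5 : StN5) : StP6). Different contents.
Let `h = hw ω = (xx*)^ω`, `h* = h`, `hh ~ h`; `y = X 1`. Proof. `i ∈ ct u`, `i ∉ ct v`, `u ~ v` (`v ≠ []`). Substitute `x_i ↦ h y h`, others `↦ h`, multiply by `h` on both sides: `t(hyh) ~ h` for a one-letter word `t` of length `k ≥ 1` (the factors `h` are absorbed; `(hyh)* = h y* h`). Let `G s := s ≠ [] ∧ h s ~ s ∧ s h ~ s`: closed under products and star. For `G s` (substitute `y ↦ s`): `t(s) ~ h`,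
so `s ~ s h ~ s t(s)`: by P0 (`w = x t`) `s ~ s*` for `s ∈ G`; so `s^k ~ t(s) ~ h`. Let `g = hyh`: `g^k ~ h`, `g ~ g* = h y* h`. `f := g^(k-1) h y` is idempotent: `f f = g^(k-1) h y g^(k-1) h y`, and `h y g^(k-1) h = g^k` if `k ≥ 2` (`g^(k-1) = h g^(k-1)`), `h y h = g` if `k = 1`; so `f f ~ g^(k-1) g^k.. ~ g^(k-1) h y`. By N5 `f ~ f*`, and `h f ~ f` (both for `k ≥ 2` and `k = 1`), so (star) `f* h ~ f*`, `f h ~ f`. `f h = g^(k-1) h y h ~ g^k ~ h`.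
So `g^(k-1) h y ~ h`; multiply by `g` on the left: `h h y ~ g h`, i.e. `h y ~ h y h`. Star and `y ↦ y*`: `y h ~ h y h`. -/
def StP6 : Prop := ∀ (θ : FIC) (ω : ℕ), ModAt θ → HN θ → PS θ ω → ∀ u v, θ.r u v → ct u ≠ ct v →
  θ.r ([X 1] ++ hw ω) (hw ω ++ [X 1] ++ hw ω)

/-- MODULE P7 (250 lines; theorem hP7 (h0 : StP0) (h5 : StN5) (h4 : StNA4) (h3 : StP3) : StP7). Main case.
Notation: `h = hw ω`, `y = X 1`, `r = yh` (so `r h ~ r`, `r* = h y*`, `h r* ~ r*`). `G s := s ≠ [] ∧ h s ~ s ∧ s h ~ s`. Proof. (1) By the first hypothesis and P0 (`w = t x`, `|w| ≥ 2`) `s ~ s*` for `s ∈ G`, so `G` is commutative: `s s' ~ (s s')* = s'* s* ~ s' s`. (2) `r ~ r c0 r`; `e := r c0`, `f := c0 r`, idempotent, `e ~ e*`, `f ~ f*` (N5), `e ~ (rr*)^ω`, `f ~ (r*r)^ω` (P3). `r*r = h y* y h ∈ G`, so `f` satisfies `h f ~ f ~ f h`;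
words `s` with `f s ~ s ~ s f` are in `G`. `r ~ e r ~ r f`, `r* ~ r* e ~ f r*`. (3) NA4 with `x ↦ r`: `r (r*r)^(ωm) ~ A r r B` (`A`, `B` possibly empty products of `r, r*`), and the left side is `~ r f ~ r`. So `f = c0 r ~ a b`, `a = c0 A r`, `b = r B` ; `a f ~ a` (`r f ~ r`), so `f ~ f a b f ~ (f a f)(f b f)`; both factors are in `G` and commute: `f ~ (f b f)(f a f)`, so
(3') `f ~ f r z` for some word `z`, and `f ~ f e (r z)`. (4) `q := f c0 e`: `q r ~ f c0 r ~ f` (`e r ~ r`), `r q = r f c0 e ~ r c0 e ~ e`. So `s ↦ q s r` maps the words with `e s ~ s ~ s e` to words with `f . ~ . ~ . f`, it is multiplicative and injective (`r (q s r) q ~ e s e ~ s`); so words `s, s'` with `e s ~ s ~ s e`, `e s' ~ s' ~ s' e` commute. NA4 with `x ↦ r*`: `r* ~ r* e ~ r* (r r*)^(ωm) ~ A' r* r* B'`.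
`e ~ e* ~ (rq)* = q* r* ~ (q* A' r*)(r* B') = a' b'`, `a' e ~ a'`, so `e ~ (e a' e)(e b' e) ~ (e b' e)(e a' e)`, hence (4') `e ~ e r* z'` for some `z'`, `e ~ e f (r* z')` (`r* ~ f r*`). (5) `ef` is regular: `ef (r* z') ef ~ e e f ~ ef`; by P3 `(ef (ef)*)^ω ~ ef (r* z') ~ e`, and `ef (ef)* ~ e f e` (`(ef)* = f*e* ~ fe`): `(efe)^ω ~ e`. `fe` is regular: `fe (rz) fe ~ f fe`; by P3 the second formula: `((fe)* fe)^ω ~ (rz) fe`, `(fe)* fe ~ e f f e ~ e f e`.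
So `e ~ (efe)^ω ~ r z f e`. (6) With `t = r z`: `f e t ~ f` (from (3')), `t f e ~ e`. `g := e t f`: `g g = e (t f e) t f ~ e t f`, idempotent; `g e ~ e (t f e) ~ e`, `e g ~ g`, so `g ~ g* ~ (e g)* ~ g* e* ~ g e ~ e`; `f g = (f e t) f ~ f`, `g f ~ g`, so `g ~ g* ~ f* g*.. ~ f g ~ f`. So `e ~ f`. (7) `h r ~ h e r ~ h f r ~ f r ~ e r ~ r`, i.e. `h y h ~ y h`. -/
def StP7 : Prop := ∀ (θ : FIC) (ω : ℕ), ModAt θ → HN θ → PS θ ω →
  (∃ t, One t ∧ 1 ≤ t.length ∧ ∀ s, s ≠ [] → θ.r (hw ω ++ s) s → θ.r (s ++ hw ω) s → θ.r s (sb (fun _ => s) t ++ s)) →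
  (∃ c0, c0 ≠ [] ∧ θ.r ([X 1] ++ hw ω) ([X 1] ++ hw ω ++ c0 ++ ([X 1] ++ hw ω))) →
  θ.r ([X 1] ++ hw ω) (hw ω ++ [X 1] ++ hw ω)

/-- MODULE P8 (250 lines; theorem hP8 (h5 : StN5) (h6 : StP6) (h7 : StP7) : StP8). If `θ` is not contained in `rQ` then `(xx*)^ω` is central.
Proof. `h = hw ω`, `h* = h` (`st (hw ω) = hw ω`), `hh ~ h`. It suffices to show (*) `y h ~ h y h` (then by star and `y ↦ y*` `h y ~ h y h`). Let `u ~ v`, not `rQ u v`. Contents different: P6. Otherwise, by star and symmetry, `hd u = some c ≠ hd v`, and `c = X i` by a sign change (as in N11b). Let `f0`: `x_0 ↦ h`, other letters `↦ y`. Substituting `x_i ↦ y`, others `↦ h` and multiplying by `h` on the right: `y h ~ sb f0 v0 ++ h`,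
`v0` a word over the letters `0, 1`, `v0 = s1 ++ [(1, b)] ++ r1`, `1 ∉ ct r1`; so `y h ~ S y^± h`, `S = sb f0 s1`. (1) `s1 = []`: the sign is `-` (else `hd v = some (X i)`): `y h ~ y* h`; `y ↦ h y`: `h y h ~ y* h h ~ y* h ~ y h`. (2) `s1 ≠ []`: if the sign is `-` compose with the same relation for `y*` as in N11b; so `y h ~ S y h`, `S = sb f0 s`, `s ≠ []` a word over the letters `0, 1`.
(2a) `1 ∉ ct s`: `S` is a power of `h`: (*). (2b) `s` begins with the letter `0`: `y h ~ S y h ~ h S y h ~ h y h`. (2c) `s = (1, true) :: s'`: substitute `y ↦ y h`: the first factor becomes `(yh)* = h y*`: `y h h ~ h (...)`, so `y h ~ h y h`. (2d) `s = (1, false) :: s'`. First hypothesis of P7: `t` = the one-letter word obtained from `s` by deleting the letters `0` and renaming `1` to `0` (signs kept): for `s0` with `h s0 ~ s0 ~ s0 h`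
substitute `y ↦ s0`: `s0 ~ s0 h ~ S(s0) s0 h ~ t(s0) s0` (the factors `h` are absorbed). Second hypothesis: substitute `y ↦ y h`: `y h ~ y h h ~ (y h) S' (y h) h ~ (yh) S' (yh)`, `S' = sb f1 s'` with `f1`: `x_0 ↦ h`, `x_1 ↦ y h`; `c0 = S'` if `s' ≠ []`, `c0 = h` if `s' = []`. P7 gives (*). -/
def StP8 : Prop := ∀ (θ : FIC) (ω : ℕ), ModAt θ → HN θ → PS θ ω → ¬ Sub θ rQ → θ.r (hw ω ++ [X 1]) ([X 1] ++ hw ω)

/-- MODULE P9a (200 lines; theorem hP9a (hL : StLevG) (hK : StKlC) (hF : StNFc) : StP9a). The first part of the proof of N12 (copy it from `M_N12.lean`): `[x,y,z]` is killed for `(3,3)`, so `xyz ~ w`, `|w| ≥ 4`, `rQ xyz w`, `w = x m(y) z`, `|m| ≥ 2`; rename `x, y` to `X 1, X 0`. -/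
def StP9a : Prop := ∀ θ : FIC, ModAt θ → Sub θ rQ → ∃ m, One m ∧ 2 ≤ m.length ∧
  θ.r [X 1, X 0, X 2] ([X 1] ++ m ++ [X 2])

/-- MODULE P9 (120 lines; theorem hP9 (h1 : StNA1) (ha : StP9a) : StP9). `θ ⊆ rQ` implies periodicity.
Proof. P9a: `xyz ~ x m(y) z` with `k = |m| ≥ 2`. `μ.r u v := (u = [] ↔ v = []) ∧ ∀ a b, a ≠ [] → b ≠ [] → θ.r (a ++ u ++ b) (a ++ v ++ b)`: an FIC containing `θ` (`sub'`: take letters `s, t` not in `u`, `v`, and substitute `s ↦ a`, `t ↦ b` and `f` for the letters of `u, v` in `s u t ~ s v t`). `μ.r [X 0] m`. By NA1 `μ.r [X 0] [Y 0]`: one letter in the middle of a word can be starred, so `a m b ~ a x^k b`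
and `a x b ~ a x^k b`. Put `a = b = x`: `x^3 ~ x^(k+2)`, so with `d = k - 1`: `x^j ~ x^(j+d)` for `j ≥ 3`; `ω = 7 d`. -/
def StP9 : Prop := ∀ θ : FIC, ModAt θ → HN θ → Sub θ rQ → ∃ ω, PF θ ω

/-- A maximal proper star ideal of one-letter words. -/
structure KI (θ : FIC) (K : Wd → Prop) : Prop where
  one : ∀ w, K w → One w ∧ w ≠ []
  thr : ∀ w v, K w → One v → θ.r w v → K v
  mul : ∀ w a b, K w → One a → One b → K (a ++ w ++ b)
  str : ∀ w, K w → K (st w)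
  prp : ∃ w, One w ∧ w.length = 7 ∧ ¬ K w
  max : ∀ a, One a → 7 ≤ a.length → ¬ K a → ∀ w, One w → 7 ≤ w.length → K w ∨ ∃ p q, One p ∧ One q ∧ 7 ≤ p.length ∧ 7 ≤ q.length ∧
    (θ.r w (p ++ a ++ q) ∨ θ.r w (p ++ st a ++ q))

/-- MODULE P10a (200 lines; theorem hP10a (h1 : StP1) : StP10a). Existence of a maximal star ideal.
Proof. Zorn (`zorn_subset`) for the sets `K` with `one, thr, mul, str, prp`. The empty set is such a set. Union of a nonempty chain: `one..str` clear; `prp`: there are finitely many one-letter words of length 7 (`List.replicate`.. e.g. the image of `List (Bool)` of length 7, a finite set); if all were in the union, then one member of the chain would contain all of them. Let `K` be maximal, `a ∉ K` as in `max`.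
`K' w := K w ∨ (One w ∧ w ≠ [] ∧ ∃ p q, One p ∧ One q ∧ (θ.r w (p ++ a ++ q) ∨ θ.r w (p ++ st a ++ q)))` satisfies `one, thr, mul, str` and is larger than `K` (`K' a`), so it violates `prp`: it contains all one-letter words of length 7, hence (`mul`) all of length `≥ 7`. Let `w` be one-letter, `|w| ≥ 7`. By P1 `w ~ w'`, `One w'`, `|w'| ≥ 21`, `w' = w1 ++ w2 ++ w3` with all lengths `≥ 7`. `K' w2`: if `K w2` then `K w'`, `K w`;
otherwise `w2 ~ p a q` (or `a*`), and `w ~ (w1 p) a (q w3)`. -/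
def StP10a : Prop := ∀ θ : FIC, ModAt θ → ∃ K, KI θ K

/-- MODULE P10b (250 lines; theorem hP10b (h5 : StN5) : StP10b). Existence of an idempotent outside `K`.
Proof. The term word means one-letter word of length `≥ 7` unless stated otherwise. Suppose every idempotent word is in `K`. (α) There is no word `z ∉ K` with `z ~ z*` and `K (z z)`: by `max` with `a = w = z`: `z ~ p z q` (also if `z ~ p z* q`), `|p|, |q| ≥ 7`, `p ∉ K` (otherwise `z ∈ K`); again by `max` (`a = z`, `w = p`): `p ~ p1 z p2`. So `z ~ P z q`, `P = p1 z p2`, and `z ~ P^9 z q^9`. `P^9 = p1 (z p2 p1)^8 z p2`. Let `b = z p2 p1`: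
`b* b ~ (p2 p1)* z z (p2 p1) ∈ K`. Substitute `x ↦ b` in `x^7 ~ v`: `b^7 ~ v(b)`. If `v` has a factor `[Y 0, X 0]`, `v(b) ∈ K`, so `b^7 ∈ K`. Otherwise `v = x^i x*^j` with `i, j ≥ 1` (both letters occur), and `b^8 ~ v(b) b` has a factor `b* b`, is in `K`. So `b^8 ∈ K`, `P^9 ∈ K`, `z ∈ K`: contradiction. (β) There is no word `z ∉ K`, `z ~ z*`: `(z z*)^ω` is idempotent (PS), so in `K`, and `z^(2ω) ~ (z z*)^ω ∈ K`; so `z^(2^i) ∈ K` for some `i`;
for the least such `i ≥ 1` the word `z^(2^(i-1))` contradicts (α). (γ) For every word `t`: `t t*` and `t* t` are related to their stars (equal to them), so in `K`; `t^7 ~ v(t)`, `v` has two adjacent letters with different signs, so `t^7 ∈ K`. (δ) Let `a ∉ K` be a word of length 7 (`prp`). `max` with `w = a`: `a ~ p a q`: `a ~ p^7 a q^7 ∈ K`, contradiction; or `a ~ p a* q`: star `a* ~ q* a p*`, `a ~ (p q*) a (p* q)`, so `a ~ (p q*)^7 a (p* q)^7 ∈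 K`: contradiction. -/
def StP10b : Prop := ∀ (θ : FIC) (ω : ℕ) (K : Wd → Prop), ModAt θ → HN θ → PS θ ω → KI θ K →
  (∃ v, One v ∧ X 0 ∈ v ∧ Y 0 ∈ v ∧ θ.r (pw [X 0] 7) v) → ∃ e, One e ∧ 7 ≤ e.length ∧ ¬ K e ∧ θ.r (e ++ e) e

/-- MODULE P10c (200 lines; theorem hP10c (h5 : StN5) (hg : StP5) : StP10c). Conclusion.
Proof. (1) Idempotent words `g` are central: `g ~ g*` (N5), so `g ~ (g g*)^ω`; substitute `x_0 ↦ g`, `x_1 ↦` any word `s` in the hypothesis: `g s ~ s g`. (2) By `max` with `a = e`: every one-letter word `w ∉ K` of length `≥ 7` satisfies `w ~ p e q` (or `p e* q`, `e* ~ e`), so `e w ~ w`. (3) `e = c :: z`, `z ≠ []`, `c = X 0` or `Y 0`. `r := e ++ [c]`, `s := z ++ e`: `r s = e c z e = e e e ~ e`. `f := s r`: `f f ~ s e r ~ f` (`e r ~ r`), central by (1).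
`f e ~ f r s ~ r f s = r s r s ~ e`; `e f = e s r ~ s e r ~ s r = f`; so `f ~ e f ~ f e ~ e`. `e r ~ r ~ r e`, `e s ~ s ~ s e`. By P5 `r^(2ω) ~ e` and `r ~ r*`. `r^(2ω) ~ e c^(2ω)` (central). If `c = Y 0`: star gives `e x^(2ω) ~ e` as well (`e* ~ e`). So `e x^(2ω) ~ e`. (4) `x^7 ∉ K`: otherwise `x^(2ω) ∈ K` and `e ~ e x^(2ω) ∈ K`. So `e x^7 ~ x^7` by (2), `x^(14ω) = x^7 x^(14ω-7) ~ e x^(14ω) ~ e (x^(2ω))^7 ~ e`. So `x^(14ω)` is idempotent. -/
def StP10c : Prop := ∀ (θ : FIC) (ω : ℕ) (K : Wd → Prop) (e : Wd), ModAt θ → HN θ → PS θ ω → θ.r (hw ω ++ [X 1]) ([X 1] ++ hw ω) → KI θ K →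
  One e → 7 ≤ e.length → ¬ K e → θ.r (e ++ e) e → PF θ (14 * ω)

/-- MODULE P11 (80 lines; theorem hP11 (h1 : StP1) (h2 : StP2) (h8 : StP8) (h9 : StP9) (ha : StP10a) (hb : StP10b) (hc : StP10c) : StP11). Every modular congruence with HN is periodic.
Proof. `Sub θ rQ`: P9. Otherwise `ω` from P2, P8 (centrality). By P1 `x^7 ~ v`, `One v`, `|v| ≥ 8`. If `v` has no `Y 0`: `v = x^j`, `j ≥ 8`: periodic (`x^i ~ x^(i+j-7)` for `i ≥ 7`, `ω' = 7 (j-7)`). If `v` has no `X 0`: `v = x*^j`, so `x*^7 ~ x^j` (star), `x^49 ~ (x^7)^7 ~ (x*^j)^7 = (x*^7)^j ~ x^(j^2)`, `j^2 ≥ 64 > 49`: periodic (choose `ω' = 49 (j^2 - 49)`). Otherwise P10a, P10b, P10c. -/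
def StP11 : Prop := ∀ θ : FIC, ModAt θ → HN θ → ∃ ω, PF θ ω

end Helper1.IM
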