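import Pool.Agent.Helper1.IM.Fin
import Pool.Agent.Helper1.IM.NSt3

/-!
# Project IM, second part: the classification theorem for varieties, reduction to congruences
-/

set_option autoImplicit false

namespace Helper1.IM

/-- The term `t^k` for `k ≥ 1` (`tpw t 0 = t`). -/
def tpw (t : Tm) : ℕ → Tm
  | 0 => t
  | 1 => t
  | k + 2 => .mul t (tpw t (k + 1))

/-- Every member of `K` satisfies the identity `s = t`. -/
def Holds (K : Set InvSg) (s t : Tm) : Prop := ∀ A ∈ K, Sat1 A (s, t)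

/-- `K` contains a nontrivial null algebra (all products are equal). -/
def HasNull (K : Set InvSg) : Prop := ∃ A ∈ K, (∀ a b c d : A.carrier, a * b = c * d) ∧ ∃ a b : A.carrier, a ≠ b

/-- The variable `x`. -/
def vx : Tm := .var 0
/-- The variable `y`. -/
def vy : Tm := .var 1
/-- The variable `z`. -/
def vz : Tm := .var 2

/-- The four terms `xxy`, `xx*y`, `xyx`, `xyx*`. -/
def four : List Tm := [.mul (.mul vx vx) vy, .mul (.mul vx (.star vx)) vy, .mul (.mul vx vy) vx, .mul (.mul vx vy) (.star vx)]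

/-- Basic identities: `x^ω = x^(2ω)`, `ω ≥ 7`; `n` is the period (`x^ω = x^(ω+j)` holds iff `n` divides `j`); `x^(ω+1) = (x*)^(ω+1)`;
`x^(ω+1) y^(ω+1) = y^(ω+1) x^(ω+1)`. -/
structure Base (V : Set InvSg) (ω n : ℕ) : Prop where
  seven : 7 ≤ ω
  idm : Holds V (tpw vx ω) (tpw vx (ω + ω))
  one : 1 ≤ n
  per : ∀ j, Holds V (tpw vx ω) (tpw vx (ω + j)) ↔ n ∣ j
  sym : Holds V (tpw vx (ω + 1)) (tpw (.star vx) (ω + 1))
  com : Holds V (.mul (tpw vx (ω + 1)) (tpw vy (ω + 1))) (.mul (tpw vy (ω + 1)) (tpw vx (ω + 1)))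

/-- Type K: `x^ω y = x^ω y^(ω+1)`, and `n = 1` or `u = x^(ω+2) y^(ω+1)` for `u = xxy, xx*y, xyx, xyx*`. -/
def TypeK (V : Set InvSg) (ω n : ℕ) : Prop :=
  Holds V (.mul (tpw vx ω) vy) (.mul (tpw vx ω) (tpw vy (ω + 1))) ∧
  (n = 1 ∨ ∀ u ∈ four, Holds V u (.mul (tpw vx (ω + 2)) (tpw vy (ω + 1))))

/-- Type C: `x^ω y = y x^ω`, `x^ω y z = x^ω z y`, and `u = x^(ω+2) y` for `u = xxy, xx*y, xyx, xyx*`. -/
def TypeC (V : Set InvSg) (ω : ℕ) : Prop :=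
  Holds V (.mul (tpw vx ω) vy) (.mul vy (tpw vx ω)) ∧
  Holds V (.mul (tpw vx ω) (.mul vy vz)) (.mul (tpw vx ω) (.mul vz vy)) ∧
  ∀ u ∈ four, Holds V u (.mul (tpw vx (ω + 2)) vy)

/-- Type Q: `x y z = x y^(ω+1) z`, `x^ω y x^ω = x^ω y^(ω+1)`; for every prime `p` dividing `n`, `q = p^v` the exact power of `p` dividing `n`:
`x y^(ω+q) x = x^(ω+2) y^(ω+q)`; and if `n` is even `x y^ω x* = x^(ω+2) y^ω`. -/
def TypeQ (V : Set InvSg) (ω n : ℕ) : Prop :=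
  Holds V (.mul (.mul vx vy) vz) (.mul (.mul vx (tpw vy (ω + 1))) vz) ∧
  Holds V (.mul (.mul (tpw vx ω) vy) (tpw vx ω)) (.mul (tpw vx ω) (tpw vy (ω + 1))) ∧
  (∀ p : ℕ, p.Prime → p ∣ n → Holds V (.mul (.mul vx (tpw vy (ω + p ^ n.factorization p))) vx)
    (.mul (tpw vx (ω + 2)) (tpw vy (ω + p ^ n.factorization p)))) ∧
  (2 ∣ n → Holds V (.mul (.mul vx (tpw vy ω)) (.star vx)) (.mul (tpw vx (ω + 2)) (tpw vy ω)))

/-- THEOREM C. -/
def ThC : Prop := ∀ V : Set InvSg, IsVar V → HasNull V →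
  (ModLat V ↔ ModLat (V ∩ N7) ∧ ∃ ω n : ℕ, Base V ω n ∧ (TypeK V ω n ∨ TypeC V ω ∨ TypeQ V ω n))

theorem wd_tpw (t : Tm) {k : ℕ} (hk : 1 ≤ k) : (tpw t k).wd = pw t.wd k := by
  obtain ⟨k, rfl⟩ := Nat.exists_eq_succ_of_ne_zero (by omega : k ≠ 0)
  induction k with
  | zero => simp [tpw]
  | succ k ih =>
    have h1 : (tpw t (k + 1).succ).wd = t.wd ++ (tpw t k.succ).wd := rfl
    rw [h1, ih (by omega), ← pw_succ]

theorem holds_iff (θ : FIC) (s t : Tm) : Holds (Md θ) s t ↔ θ.r s.wd t.wd :=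
  (hV1.2.1 (Md θ) s t).trans (hV2 hV1 θ _ _)

theorem eval_mul_of_wd (A : InvSg) (e : ℕ → A.carrier) (t : Tm) : t.wd.length = 1 ∨ ∃ b c : A.carrier, t.eval A e = b * c := by
  induction t with
  | var i => exact Or.inl rfl
  | mul s t _ _ => exact Or.inr ⟨s.eval A e, t.eval A e, rfl⟩
  | star s ih =>
    rcases ih with h | ⟨b, c, h⟩
    · left
      change (st s.wd).length = 1
      rw [st_length, h]
    · right
      refine ⟨star c, star b, ?_⟩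
      change star (s.eval A e) = _
      rw [h, star_mul]

theorem hn_of_null (θ : FIC) (h : HasNull (Md θ)) : HN θ := by
  intro w hw
  have hne : w ≠ [] := θ.ne'' hw (by simp)
  obtain ⟨t, rfl⟩ := hV1.2.2 w hne
  obtain ⟨A, hA, hp, a, b, hab⟩ := h
  have h1 : Holds (Md θ) (.var 0) t := (holds_iff θ _ _).2 hw
  by_contra hlen
  have key : ∀ c : A.carrier, c = a * a := by
    intro c
    have h2 := h1 A hA (fun _ => c)
    rcases eval_mul_of_wd A (fun _ => c) t with h3 | ⟨p, q, h3⟩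
    · exact absurd h3 hlen
    · have h4 : c = t.eval A (fun _ => c) := h2
      rw [h4, h3]
      exact hp _ _ _ _
  exact hab ((key a).trans (key b).symm)

theorem four_iff (θ : FIC) (v : Wd) : (∀ u ∈ four, θ.r u.wd v) ↔ ∀ u ∈ Fw, θ.r u v := by
  simp only [four, Fw, List.forall_mem_cons, List.not_mem_nil, false_imp_iff, implies_true, and_true]
  exact Iff.rfl

theorem base_iff (θ : FIC) (ω n : ℕ) : Base (Md θ) ω n ↔ Bc θ ω ∧ Per θ ω n := by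
  have e1 : ∀ k, 1 ≤ k → (tpw vx k).wd = pw [X 0] k := fun k hk => wd_tpw vx hk
  have e2 : ∀ k, 1 ≤ k → (tpw vy k).wd = pw [X 1] k := fun k hk => wd_tpw vy hk
  have e3 : ∀ k, 1 ≤ k → (tpw (.star vx) k).wd = pw [Y 0] k := fun k hk => wd_tpw (.star vx) hk
  constructor
  · intro h
    have h7 := h.seven
    have i1 := (holds_iff θ _ _).1 h.idm
    rw [e1 _ (by omega), e1 _ (by omega)] at i1
    have i2 := (holds_iff θ _ _).1 h.sym
    rw [e1 _ (by omega), e3 _ (by omega)] at i2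
    have i3 := (holds_iff θ _ _).1 h.com
    change θ.r ((tpw vx (ω + 1)).wd ++ (tpw vy (ω + 1)).wd) ((tpw vy (ω + 1)).wd ++ (tpw vx (ω + 1)).wd) at i3
    rw [e1 _ (by omega), e2 _ (by omega)] at i3
    refine ⟨⟨⟨h7, i1⟩, i2, i3⟩, h.one, fun j => ?_⟩
    have := h.per j
    rwa [holds_iff, e1 _ (by omega), e1 _ (by omega)] at this
  · rintro ⟨h, hp⟩
    have h7 := h.pf.h7
    refine ⟨h7, ?_, hp.1, fun j => ?_, ?_, ?_⟩
    · rw [holds_iff, e1 _ (by omega), e1 _ (by omega)]; exact h.pf.idm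
    · rw [holds_iff, e1 _ (by omega), e1 _ (by omega)]; exact hp.2 j
    · rw [holds_iff, e1 _ (by omega), e3 _ (by omega)]; exact h.sy
    · rw [holds_iff]
      change θ.r ((tpw vx (ω + 1)).wd ++ (tpw vy (ω + 1)).wd) ((tpw vy (ω + 1)).wd ++ (tpw vx (ω + 1)).wd)
      rw [e1 _ (by omega), e2 _ (by omega)]; exact h.cm

theorem typeK_iff (θ : FIC) {ω : ℕ} (h7 : 7 ≤ ω) (n : ℕ) : TypeK (Md θ) ω n ↔ TyK θ ω n := by
  have e1 : ∀ k, 1 ≤ k → (tpw vx k).wd = pw [X 0] k := fun k hk => wd_tpw vx hk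
  have e2 : ∀ k, 1 ≤ k → (tpw vy k).wd = pw [X 1] k := fun k hk => wd_tpw vy hk
  unfold TypeK TyK K1
  have a1 : Holds (Md θ) (.mul (tpw vx ω) vy) (.mul (tpw vx ω) (tpw vy (ω + 1))) ↔
      θ.r (pw [X 0] ω ++ [X 1]) (pw [X 0] ω ++ pw [X 1] (ω + 1)) := by
    rw [holds_iff]
    change θ.r ((tpw vx ω).wd ++ [X 1]) ((tpw vx ω).wd ++ (tpw vy (ω + 1)).wd) ↔ _
    rw [e1 _ (by omega), e2 _ (by omega)]
  have a2 : (∀ u ∈ four, Holds (Md θ) u (.mul (tpw vx (ω + 2)) (tpw vy (ω + 1)))) ↔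
      ∀ u ∈ Fw, θ.r u (pw [X 0] (ω + 2) ++ pw [X 1] (ω + 1)) := by
    rw [← four_iff]
    refine forall₂_congr fun u _ => ?_
    rw [holds_iff]
    change θ.r u.wd ((tpw vx (ω + 2)).wd ++ (tpw vy (ω + 1)).wd) ↔ _
    rw [e1 _ (by omega), e2 _ (by omega)]
  rw [a1, a2]

theorem typeC_iff (θ : FIC) {ω : ℕ} (h7 : 7 ≤ ω) : TypeC (Md θ) ω ↔ TyC θ ω := by
  have e1 : ∀ k, 1 ≤ k → (tpw vx k).wd = pw [X 0] k := fun k hk => wd_tpw vx hk
  unfold TypeC TyC Cen Cmm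
  have a1 : Holds (Md θ) (.mul (tpw vx ω) vy) (.mul vy (tpw vx ω)) ↔ θ.r (pw [X 0] ω ++ [X 1]) ([X 1] ++ pw [X 0] ω) := by
    rw [holds_iff]
    change θ.r ((tpw vx ω).wd ++ [X 1]) ([X 1] ++ (tpw vx ω).wd) ↔ _
    rw [e1 _ (by omega)]
  have a2 : Holds (Md θ) (.mul (tpw vx ω) (.mul vy vz)) (.mul (tpw vx ω) (.mul vz vy)) ↔
      θ.r (pw [X 0] ω ++ [X 1, X 2]) (pw [X 0] ω ++ [X 2, X 1]) := by
    rw [holds_iff]
    change θ.r ((tpw vx ω).wd ++ [X 1, X 2]) ((tpw vx ω).wd ++ [X 2, X 1]) ↔ _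
    rw [e1 _ (by omega)]
  have a3 : (∀ u ∈ four, Holds (Md θ) u (.mul (tpw vx (ω + 2)) vy)) ↔ ∀ u ∈ Fw, θ.r u (pw [X 0] (ω + 2) ++ [X 1]) := by
    rw [← four_iff]
    refine forall₂_congr fun u _ => ?_
    rw [holds_iff]
    change θ.r u.wd ((tpw vx (ω + 2)).wd ++ [X 1]) ↔ _
    rw [e1 _ (by omega)]
  rw [a1, a2, a3]

theorem typeQ_iff (θ : FIC) {ω : ℕ} (h7 : 7 ≤ ω) (n : ℕ) : TypeQ (Md θ) ω n ↔ TyQ θ ω n := by
  have e1 : ∀ k, 1 ≤ k → (tpw vx k).wd = pw [X 0] k := fun k hk => wd_tpw vx hk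
  have e2 : ∀ k, 1 ≤ k → (tpw vy k).wd = pw [X 1] k := fun k hk => wd_tpw vy hk
  unfold TypeQ TyQ QI1 QI3 Qp Qm
  refine and_congr ?_ (and_congr ?_ (and_congr ?_ ?_))
  · rw [holds_iff]
    change θ.r [X 0, X 1, X 2] ([X 0] ++ (tpw vy (ω + 1)).wd ++ [X 2]) ↔ _
    rw [e2 _ (by omega)]
  · rw [holds_iff]
    change θ.r ((tpw vx ω).wd ++ [X 1] ++ (tpw vx ω).wd) ((tpw vx ω).wd ++ (tpw vy (ω + 1)).wd) ↔ _
    rw [e1 _ (by omega), e2 _ (by omega)]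
  · refine forall₃_congr fun p _ _ => ?_
    rw [holds_iff]
    change θ.r ([X 0] ++ (tpw vy (ω + p ^ n.factorization p)).wd ++ [X 0])
      ((tpw vx (ω + 2)).wd ++ (tpw vy (ω + p ^ n.factorization p)).wd) ↔ _
    rw [e1 _ (by omega), e2 _ (by omega)]
  · refine imp_congr_right fun _ => ?_
    rw [holds_iff]
    change θ.r ([X 0] ++ (tpw vy ω).wd ++ [Y 0]) ((tpw vx (ω + 2)).wd ++ (tpw vy ω).wd) ↔ _
    rw [e1 _ (by omega), e2 _ (by omega)]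

/-- Reduction of Theorem C to congruences. -/
theorem thC_of (hN : StNAs) (hS : StSAs) (hP : StP11) : ThC := by
  intro V hV hnull
  obtain ⟨θ, rfl⟩ := fV3.2 V hV
  obtain ⟨θ', h1, h2⟩ := fV6.2 θ
  have hn := hn_of_null θ hnull
  rw [h1, fV5 θ, fV5 θ', h2]
  constructor
  · intro hm
    refine ⟨mod7_of_modAt θ hm, ?_⟩
    obtain ⟨ω, hω⟩ := hP θ hm hn
    obtain ⟨hb, n, hp, ht⟩ := hN θ ω hm hn hω
    refine ⟨ω, n, (base_iff θ ω n).2 ⟨hb, hp⟩, ?_⟩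
    rw [typeK_iff θ hω.h7, typeC_iff θ hω.h7, typeQ_iff θ hω.h7]
    exact ht
  · rintro ⟨hm, ω, n, hb, ht⟩
    have h7 := hb.seven
    rw [typeK_iff θ h7, typeC_iff θ h7, typeQ_iff θ h7] at ht
    obtain ⟨hb, hp⟩ := (base_iff θ ω n).1 hb
    exact hS θ ω n hm hb hp ht

end Helper1.IM
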