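import Pool.Agent.Helper1.IM.Bas

/-!
# Project IM (MP_265e56_al): statements with complete proofs

THEOREM A. For a nil variety `V` of involution semigroups: `L(V)` is modular iff `L(V ∧ [x1...x7 = 0])` is modular.
In terms of congruences (this file): `NilF θ → Mod7 θ → ModAt θ`.

Conventions in the proofs: letters `x y z t u` are `X 0, X 1, X 2, X 3, X 4`, `x'` is `Y 0` etc.; `u θ v` means `θ.r u v`; zero is `Zero θ`;
`g` always is a signed renaming `rw' p e`; content lemma is `cont` / `ct_eq_of`, growth lemma is `grow`, `grow0` (in `Bas.lean`): `u θ a g(u) b`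
with `a ++ b ≠ []` implies that `u` is zero. Substitution instances: `θ.sub'`; multiplication: `θ.mul'`, `mulL`, `mulR`; star: `θ.star'`.
To instantiate `x, y, z, ...` by words `A, B, C, ...` use `f := fun i => match i with | 0 => A | 1 => B | 2 => C | _ => D`.
Every module `M_XX.lean` (in `Pool/Agent/Helper1/IM/`) proves `theorem hXX : StXX`, with the hypotheses given in its row.
-/

set_option autoImplicit false

namespace Helper1.IM

/-! ## Part 1: the linear lemma -/

/-- The canonical linear word `x_0 x_1 ... x_(n-1)`. -/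
def cw (n : ℕ) : Wd := (List.range n).map X

/-- MODULE Lin1 (100 lines). Lengthening. Suppose `cw n θ w`, `|w| > n`, content of `w` is `{0..n-1}`. Then `cw n` is related to arbitrarily long words
over the same letters. Moreover the long word can be written as `sb f (cw n)` with all blocks `f i`, `i < n`, of length `≥ N`, `f i` over the letters `< n`, and then
`cw n θ sb f w`.
Proof. `n ≥ 1` (otherwise `w` has no letters). Lengthening: let `cw n θ U`, `|U| ≥ n`, letters of `U` below `n` (start: `U = cw n`). Cut `U` into `n` nonempty blocks `f 0, ..., f (n-1)`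
(`f i = [X i]` for `i ≥ n`), so `sb f (cw n) = U`. Then `U θ sb f w`, and `|sb f w| = ∑_i oc i w |f i| ≥ |U| + 1`, because all `oc i w ≥ 1` and one of them is `≥ 2`. Iterate until the length is
`≥ n N`, cut into `n` blocks of length `≥ N`, and use `cw n θ U = sb f (cw n) θ sb f w`. -/
def StLin1 : Prop := ∀ (θ : FIC) (n : ℕ) (w : Wd), θ.r (cw n) w → n < w.length → ct w = Finset.range n → ∀ N : ℕ,
  ∃ f : ℕ → Wd, (∀ i, f i ≠ []) ∧ (∀ i < n, N ≤ (f i).length) ∧ (∀ i < n, ct (f i) ⊆ Finset.range n) ∧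
    θ.r (cw n) (sb f (cw n)) ∧ θ.r (cw n) (sb f w)

/-- MODULE Lin2 (100 lines; theorem hLin2 (h1 : StLin1) : StLin2). Two far occurrences of a letter.
Proof. Some letter `j` occurs twice in `w` (`|w| > n`, `n` letters): `w = w1 ++ [a] ++ w2 ++ [a'] ++ w3`, `a.1 = a'.1 = j`. Take `f` from Lin1 with `2 N + 1`; `f j = p ++ [s] ++ q` with `|p|, |q| ≥ N`; then `(f j)` and
`st (f j) = st q ++ [fl s] ++ st p` both have the form `p' ++ [s'] ++ q'` with `|p'|, |q'| ≥ N`, `s'.1 = s.1`. In `sb f w = sb f w1 ++ (f j)^± ++ sb f w2 ++ (f j)^± ++ sb f w3` read off the parts. -/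
def StLin2 : Prop := ∀ (θ : FIC) (n : ℕ) (w : Wd), θ.r (cw n) w → n < w.length → ct w = Finset.range n → ∀ N : ℕ,
  ∃ (P1 P2 P3 : Wd) (s1 s2 : Lt), s1.1 = s2.1 ∧ N ≤ P1.length ∧ N ≤ P2.length ∧ N ≤ P3.length ∧
    θ.r (cw n) (P1 ++ [s1] ++ P2 ++ [s2] ++ P3)

/-- MODULE Lin3 (80 lines). Bad pair: `w` has two adjacent letters which are not `x_i x_(i+1)` and not `x_(i+1)* x_i*`.
Proof. Otherwise, if the first adjacent pair is `x_i x_(i+1)` then by induction `w = x_i x_(i+1) ... x_(i+|w|-1)` (the next pair starts with the unstarred `x_(i+1)`), so a letter `≥ |w| - 1 ≥ n` occurs; if it is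
`x_(i+1)* x_i*` then `w = x_(i+1)* x_i* x_(i-1)* ...`, again `|w|` different letters below `n < |w|`. (`|w| ≥ 2` since `n ≥ 1`: for `n = 0` the content is empty and `w = []`.) -/
def StLin3 : Prop := ∀ (n : ℕ) (w : Wd), n < w.length → (∀ i ∈ ct w, i < n) →
  ∃ (w1 w2 : Wd) (a b : Lt), w = w1 ++ [a, b] ++ w2 ∧ ¬ (a.2 = false ∧ b.2 = false ∧ b.1 = a.1 + 1) ∧
    ¬ (a.2 = true ∧ b.2 = true ∧ a.1 = b.1 + 1)

/-- MODULE Lin4 (200 lines; theorem hLin4 (h2 : StLin2) (h3 : StLin3) : StLin4). `cw n` is related to a word with two adjacent occurrences of the same letter.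
Proof. Take the bad pair `a = ℓ^σ`, `b = i^τ` of `w = w1 ++ [a,b] ++ w2` (Lin3). If `ℓ = i`, the word `w` itself is as required. Let `ℓ ≠ i` and take `P = P1 ++ [s1] ++ P2 ++ [s2] ++ P3` from Lin2 with `N = n + 1`.
We choose a factorisation `P = L ++ Q ++ R`, `Q = f 0 ++ ... ++ f (n-1) = sb f (cw n)`, with nonempty blocks such that the last letter of `(f ℓ)^σ` and the first letter of `(f i)^τ` have the letter `s1.1`; then
`cw n θ P = L ++ Q ++ R θ L ++ sb f w ++ R` and `sb f w = sb f w1 ++ (f ℓ)^σ ++ (f i)^τ ++ sb f w2`. (Any word of length `≥ k` can be cut into `k` nonempty blocks; unused outer letters of `P1`, `P3` go to `L`, `R`.)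
Last letter of `(f ℓ)^+` is the last letter of `f ℓ`, of `(f ℓ)^-` it is the star of the FIRST letter of `f ℓ`; first letter of `(f i)^+` is the first of `f i`, of `(f i)^-` the star of the LAST letter of `f i`.
Let `lo < hi` be the two numbers `ℓ, i`. The blocks below `lo` are single letters, namely the last `lo` letters of `P1`; the blocks above `hi` are single letters, the first ones of `P3`.
(1) One of the two blocks must begin with `s`, the other one must end with `s` (cases `σ = τ`): (1a) block `lo` ends with `s`, block `hi` begins with `s` (this is `(+,+)` with `ℓ = lo` and `(-,-)` with `i = lo`); the pair is bad, so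
`hi > lo + 1`: `f lo = [s1]`, the `hi - lo - 1 ≥ 1` blocks between are a cutting of `P2`, `f hi = [s2]`. (1b) block `lo` begins with `s`, block `hi` ends with `s`: `f lo = [s1]`, the `hi - lo` blocks `lo+1, ..., hi` are a cutting of `P2 ++ [s2]`.
(2) both blocks begin with `s` (`(-,+)`): the `hi - lo` blocks `lo, ..., hi - 1` are a cutting of `[s1] ++ P2`, `f hi = [s2]`. (3) both end with `s` (`(+,-)`): `f lo = [s1]`, blocks `lo+1..hi` cut `P2 ++ [s2]`. -/
def StLin4 : Prop := ∀ (θ : FIC) (n : ℕ) (w : Wd), θ.r (cw n) w → n < w.length → ct w = Finset.range n →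
  ∃ (w1 w2 : Wd) (a b : Lt), a.1 = b.1 ∧ θ.r (cw n) (w1 ++ [a, b] ++ w2)

/-- MODULE Lin5 (200 lines; theorem hLin5 (h1 : StLin1) : StLin5). If `cw n θ w = w1 ++ [a,b] ++ w2`, `a.1 = b.1 = j`, then `cw n` is zero.
Proof. We may assume that the content of `w` is `{0..n-1}` (content lemma), so `j < n`, and `|w| > n` (`w` is not linear). Put `T c = sb (fun _ => c) [a, b]` (one of `cc`, `c*c*`, `cc*`, `c*c`).
Claim: for all `m`, all `c ≠ []` and all words `A, C` of length `≥ m n` there are `A', C'` with `A ++ c ++ C θ A' ++ T^[m] c ++ C'`. Induction: `A = A0 ++ A1`, `|A1| = j`, `C = C1 ++ C0`, `|C1| = n - 1 - j`; substituting in `cw n θ w` the letters of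
`A1` for `x_0..x_(j-1)`, `c` for `x_j`, the letters of `C1` for `x_(j+1)..x_(n-1)` (a starred letter is substituted as the word consisting of this starred letter) gives `A1 ++ c ++ C1 θ sb f w1 ++ T c ++ sb f w2`, so
`A ++ c ++ C θ (A0 ++ sb f w1) ++ T c ++ (sb f w2 ++ C0)`, and `|A0| ≥ (m+1) n - j ≥ m n`.
Claim: for every `m` and `c ≠ []` there is `d ≠ []` with `T^[m+1] c = d^(2^m)` (flatten of replicate): if `a.2 = b.2`, `T c = c1 c1` with `c1 ∈ {c, c*}`, and `T^[m+1] c = (c2 c2)^(2^m)` with `c2 ∈ {c, c*}` by induction; if `a.2 ≠ b.2` then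
`T c = d` with `st d = d` and `T d = d d`, all iterates are powers of `d`.
By Lin1 (with `N = 2 n (m+1) + 1`) `cw n θ U` with `|U| ≥ 2 n (m+1) + 1`; write `U = A ++ [s] ++ C`; then `cw n θ A' ++ T^[m+1] [s] ++ C'`, which is zero for large `m` by `NilF.pow`. -/
def StLin5 : Prop := ∀ (θ : FIC) (n : ℕ) (w1 w2 : Wd) (a b : Lt), NilF θ → 1 ≤ n → a.1 = b.1 →
  θ.r (cw n) (w1 ++ [a, b] ++ w2) → Zero θ (cw n)

/-- MODULE Lin (60 lines; theorem hLin (h4 : StLin4) (h5 : StLin5) : StLin). LINEAR LEMMA: a linear word which is related to a word which is not (linear of the same length) is zero.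
Proof. If the contents differ: `cont`. If they are equal: `|w| ≥ |u|`, and `|w| = |u|` would imply that `w` is linear; so `|w| > |u| = n`. By `lin_rename` there is a signed renaming with `rw' p e u = cw n`; apply it to `u θ w`
(content of `rw' p e w` is `{0..n-1}`), then Lin4, Lin5 give `Zero θ (cw n)`, and go back with the inverse (`Zero.rw'_iff`). (`n = 0`: `u = []`, so `w = []`.) -/
def StLin : Prop := ∀ (θ : FIC), NilF θ → ∀ u w : Wd, Lin u → θ.r u w → ¬ (Lin w ∧ w.length = u.length) → Zero θ u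

/-! ## Part 2: congruences on one level -/

/-- MODULE Lev (200 lines). Congruences on a level. `S` is a set of words of length `d` with `n` letters, `R` an invariant equivalence on `S` containing `θ`; then `θ`, `R` and all killed words are equal together are a fully invariant congruence.
Proof. `Kl := Kl θ n d` is closed under `θ`, so the relation is transitive (`R v w` implies `S v`; `θ u v` and `S v` imply `R v u`; words in `S` are not killed). `ne'`: `[]` is not killed and not in `S` as `d ≥ 1`.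
Multiplication: if `a ++ b ≠ []` and `R u v` then `a ++ u ++ b` and `a ++ v ++ b` are longer than `d`, hence killed; killed words stay killed (their partner `w'` becomes longer than `d`).
Star: `w'` and `st w'` have the same length and content. Substitution: `u` killed with partner `w'`: `sb f w'` is longer than `d`, or has length `d`; in the latter case `|w'| = d`, all `f i`, `i ∈ ct w'`, are single letters and the content of `sb f w'` has at most
`card (ct w') < n` elements. `R u v` (`ct u = ct v`): if some `f i`, `i ∈ ct u`, has length `≥ 2` then `sb f u`, `sb f v` are longer than `d`, killed. Otherwise `f i = [(q i, e i)]` on `ct u`; if `q` is injective on `ct u` use `exists_perm_extend`: `sb f u = rw' p e u`,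
`sb f v = rw' p e v` (`sb_congr`, `sb_rn`); if not, `sb f u`, `sb f v` have length `d` and fewer than `n` letters: killed. -/
def StLev : Prop := ∀ (θ : FIC) (n d : ℕ) (S : Wd → Prop) (R : Wd → Wd → Prop), 1 ≤ d →
  (∀ u, S u → u.length = d ∧ (ct u).card = n ∧ ¬ Kl θ n d u) →
  (∀ u v, S u → θ.r u v → R u v) → (∀ u v, R u v → S u ∧ S v ∧ ct u = ct v) →
  (∀ u v, R u v → R v u) → (∀ u v w, R u v → R v w → R u w) → (∀ u v, R u v → R (st u) (st v)) →
  (∀ (u v : Wd) (p : Equiv.Perm ℕ) (e : ℕ → Bool), R u v → R (rw' p e u) (rw' p e v)) →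
  ∃ E : FIC, (∀ u v, E.r u v ↔ θ.r u v ∨ (Kl θ n d u ∧ Kl θ n d v) ∨ R u v) ∧ Le θ E ∧ Col (d + 1) E

/-- MODULE Two (200 lines; theorem hTwo (h : StLev) : StTwo). Two orbits with a common nontrivial colouring contradict modularity.
Proof. Three congruences from Lev with `S = S1 ∪ S2`: `x`: `u ~ v` iff same content and (both in `S1`, or both in `S2` with equal colour); `z`: same content and (both in `S1` or both in `S2`); `y`: same content, both in `S1 ∪ S2`, same colour.
(`θ u v` with `u ∈ S` implies all three.) `x ≤ z`. Take `v ∈ S2`, `c = col v`, a letter `c' ≠ c` of `v` (`n ≥ 2`), `τ` the transposition of `c, c'`, `v' = rw' τ (fun _ => false) v`: same content, in `S2`, colour `c'`. Take `u ∈ S1`; renaming it we may assume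
`ct u = ct v` and `col u = c` (`exists_perm_extend` on `ct u`); `u' = rw' τ _ u`. Then `v y u x u' y v'` and `v z v'`. By `Mod7` (`Col 7` since `d + 1 ≤ 7`) `v` and `v'` are related by `Jm x y z`. But `y ∩ z ≤ x` (if `u1 y u2` and `u1 z u2`: cases; `θ` and killed pairs are fine, words of `S` are
not killed; both in the same `Si` with the same colour), so by transitivity `v x v'`: `θ v v'` or both in `S2` with equal colours (not `S1`, not killed), in each case `col v = col v'`, contradiction. -/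
def StTwo : Prop := ∀ (θ : FIC) (n d : ℕ), Mod7 θ → 2 ≤ n → 1 ≤ d → d ≤ 6 → ∀ (S1 S2 : Wd → Prop) (col : Wd → ℕ),
  (∀ u, S1 u ∨ S2 u → u.length = d ∧ (ct u).card = n ∧ ¬ Kl θ n d u ∧ col u ∈ ct u) → (∀ u, S1 u → ¬ S2 u) →
  (∀ u v, S1 u → θ.r u v → S1 v) → (∀ u v, S2 u → θ.r u v → S2 v) →
  (∀ u v, S1 u ∨ S2 u → θ.r u v → col u = col v ∧ ct u = ct v) →
  (∀ u, S1 u → S1 (st u)) → (∀ u, S2 u → S2 (st u)) →
  (∀ (u : Wd) (p : Equiv.Perm ℕ) (e : ℕ → Bool), S1 u → S1 (rw' p e u)) →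
  (∀ (u : Wd) (p : Equiv.Perm ℕ) (e : ℕ → Bool), S2 u → S2 (rw' p e u)) →
  (∀ u, S1 u ∨ S2 u → col (st u) = col u) →
  (∀ (u : Wd) (p : Equiv.Perm ℕ) (e : ℕ → Bool), S1 u ∨ S2 u → col (rw' p e u) = p (col u)) →
  (∃ u, S1 u) → (∃ u, S2 u) → False

/-- MODULE P33 (200 lines; theorem hP33 (h : StLev) : StP33). If `θ` is trivial on linear words of length 3 then it is not modular.
Proof. Lev with `n = d = 3`, `S` = linear words of length 3 (not killed: `u θ w'` implies `w' = u`). For `u = [a,b,c]`: `x`: `u ~ u, [fl a, b, fl c]`; `z`: `u ~ u, [fl a, b, fl c], [fl a, fl b, c], [a, fl b, fl c]`; `y`: the three rotations `[a,b,c], [b,c,a], [c,a,b]`. All are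
equivalences, compatible with renaming (a signed renaming commutes with `fl` and with position changes) and star (`st [a,b,c] = [fl c, fl b, fl a]`). `x ≤ z`. With `u = [a,b,c] = [X 0, X 1, X 2]`, `v = [fl a, fl b, c]`:
`[a,b,c] y [b,c,a] x [fl b, c, fl a] y [fl a, fl b, c]` and `u z v`. `y ∩ z` is contained in `x` (a rotation of `u` which has the same letters at the same positions as `u` up to sign is `u`; killed pairs and `θ` are in `x`). So `Mod7` gives `u x v`, but `v` is not `u`, `[fl a, b, fl c]`, and `θ u v` gives `v = u`;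
killed is excluded. Contradiction. -/
def StP33 : Prop := ∀ θ : FIC, Mod7 θ → (∀ u v : Wd, u.length = 3 → Lin u → θ.r u v → v = u) → False

/-- Words `a a b c d` (up to order) with four different letters and the repeated letter with equal signs. -/
def isP4 (u : Wd) : Prop := u.length = 5 ∧ (ct u).card = 4 ∧ ∃ a : Lt, u.count a = 2

/-- MODULE P45 (250 lines; theorem hP45 (h : StLev) : StP45). A pentagon in the orbit of `xxyzt` in type C.
Proof. Lev with `n = 4`, `d = 5`, `S = isP4`. For `u ∈ S` let `D u` be the repeated letter (the `i` with `oc i u = 2`), and `sg u i` the sign of `i` in `u` (all occurrences have the same sign): `(i, sg u i) ∈ u`. For `u, v ∈ S` with the same content: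
`x`: `D u = D v` and `sg u i = sg v i` for all `i ≠ D u`; `z`: `D u = D v`; `y`: `sg u i = sg v i` for all `i`. They are invariant equivalences (star flips all signs), and contain `θ` on `S` (`θ u v` implies `u.Perm v`). `x ≤ z`.
`u = xxyzt y xyyzt x x y'y' z t y xxy'zt = v` (`y`-step: same signs, `x`-step: same `D`, sign of the repeated letter changed) and `u z v`. `y ∩ z ≤ x`: same `D` and same signs mean `u.Perm v`, so `θ u v` by `C4`. So `Mod7` gives `u x v`: contradiction (the sign of the single letter `1` differs; `θ u v` would give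
`u.Perm v`; killed is excluded). -/
def StP45 : Prop := ∀ θ : FIC, Mod7 θ → C4 θ → (∀ u, isP4 u → ¬ Kl θ 4 5 u) →
  (∀ u v, isP4 u → θ.r u v → u.Perm v) → False

/-! ## Part 3: the three types of linear words -/

/-- MODULE G1 (60 lines; theorem hG1 (hL : StLin) (hP : StP33) : StG1). There is a nontrivial linear identity of length 3.
Proof. By P33 there are `u, v` with `|u| = 3`, `u` linear, `u θ v`, `v ≠ u`. If `v` is linear of length 3 with the same content, rename `u` to `[X 0, X 1, X 2]` (`lin_rename`). Otherwise `u` is zero (StLin if `v` is not linear of length 3, `cont` if the contents differ), hence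
`[X 0, X 1, X 2]` and `[X 1, X 0, X 2]` are zero and related. -/
def StG1 : Prop := ∀ θ : FIC, NilF θ → Mod7 θ →
  ∃ v : Wd, v.length = 3 ∧ ct v = {0, 1, 2} ∧ v ≠ [X 0, X 1, X 2] ∧ θ.r [X 0, X 1, X 2] v

/-- The nine atoms: `xyz` equals `xy'z`, `x'yz'`, `x'y'z'`, `yzx`, `y'z'x`, `zyx`, `zy'x`, `z'yx'`, `z'y'x'`. -/
def Atoms : List Wd := [[X 0, Y 1, X 2], [Y 0, X 1, Y 2], [Y 0, Y 1, Y 2], [X 1, X 2, X 0], [Y 1, Y 2, X 0], [X 2, X 1, X 0],
  [X 2, Y 1, X 0], [Y 2, X 1, Y 0], [Y 2, Y 1, Y 0]]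

/-- MODULE G2 (150 lines). Every nontrivial linear identity of length 3 implies one of the nine atoms.
Proof. There are 47 words `v`. If `xyz θ g` and `xyz θ h` (as words in `x,y,z`) then `xyz θ gh := sb (fun i => [g_i]) h` (substitute the letters of `g` into `xyz θ h`, then `xyz θ g`), and `xyz θ c(g)`, where `c(g)` is `st g` with `x ↦ z', y ↦ y', z ↦ x'` (star and rename).
For each `v = g` one of the words `g, gc, cg, gg, cc, gcg, ggg, cgg, ccg, ggc, gcc` (products of `g` and `c = c(g)`) is an atom (checked by computer). E.g. prove: for every `v` in the list of 48 words different from `xyz`, `Atoms.any (fun a => prods v |>.any (· = a))` by `decide`, where `prods v`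
is the list of these products, and that all members of `prods v` are related to `xyz`. (Enumerate the words of length 3 with content `{0,1,2}`: `v = [a,b,c]`, letters a permutation of `0,1,2`, three signs.) -/
def StG2 : Prop := ∀ (θ : FIC) (v : Wd), v.length = 3 → ct v = {0, 1, 2} → v ≠ [X 0, X 1, X 2] →
  θ.r [X 0, X 1, X 2] v → ∃ a ∈ Atoms, θ.r [X 0, X 1, X 2] a

/-- Generators of type T in degree 5. -/
def TL (θ : FIC) : Prop := θ.r [X 0, X 1, X 2, X 3, X 4] [X 1, X 0, X 2, X 3, X 4] ∧ θ.r [X 0, X 1, X 2, X 3, X 4] [X 0, X 2, X 1, X 3, X 4] ∧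
  θ.r [X 0, X 1, X 2, X 3, X 4] [X 0, X 1, X 3, X 2, X 4] ∧ θ.r [X 0, X 1, X 2, X 3, X 4] [X 0, X 1, X 2, X 4, X 3] ∧
  θ.r [X 0, X 1, X 2, X 3, X 4] [Y 0, X 1, X 2, X 3, X 4]

/-- Generators of type C in degree 4. -/
def CL (θ : FIC) : Prop := θ.r [X 0, X 1, X 2, X 3] [X 1, X 0, X 2, X 3] ∧ θ.r [X 0, X 1, X 2, X 3] [X 0, X 2, X 1, X 3] ∧
  θ.r [X 0, X 1, X 2, X 3] [X 0, X 1, X 3, X 2]

/-- MODULE G3a (120 lines). The atoms `x'yz'` and `x'y'z'` imply TL.
Proof. Each step applies the identity to a factor, cut into three blocks as indicated, `a(B1|B2|B3)b` (identity (I): `B1 B2 B3 = B1' B2 B3'` resp. `B1' B2' B3'`, where `B'` is the star of the word `B`).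
Atom `xyz=x'yz'`: [1] xyztu ->(xyz|t|u) z'y'x'tu' ->(z'|y'x'|t)u' zy'x't'u' ->(zy'|x'|t')u' yz'x'tu' ->y(z'x'|t|u') yxztu. [2] xyztu ->(x|yz|t)u x'yzt'u ->(x'y|z|t')u y'xztu ->(y'xz|t|u) z'x'ytu' ->(z'x'|yt|u') xzytu.
[3] xyztu ->(x|y|ztu) x'yu't'z' ->(x'|y|u')t'z' xyut'z' ->(x|y|ut')z' x'ytu'z' ->(x'|yt|u'z') xytzu. [4] xyztu ->(x|y|z)tu x'yz'tu ->(x'|y|z't)u xyt'zu ->(x|y|t'zu) x'yu'z't ->(x'|y|u'z')t xyzut.
[5] xyztu ->(xy|z|t)u y'x'zt'u ->(y'|x'|z)t'u yx'z't'u ->(yx'z'|t'|u) zxy't'u' ->(zx|y'|t')u' x'z'y'tu' ->x'(z'y'|t|u') x'yztu.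
Atom `xyz=x'y'z'`: [1] xyztu ->(x|yz|t)u x'z'y't'u ->(x'|z'|y't')u xztyu ->(x|zty|u) x'y't'z'u' ->(x'y'|t'z'|u') yxztu. [2] xyztu ->(x|y|zt)u x'y't'z'u ->(x'|y't'z'|u) xztyu' ->(xz|t|y)u' z'x't'y'u' ->(z'x'|t'y'|u') xzytu.
[3] xyztu ->(x|yz|t)u x'z'y't'u ->(x'z'|y'|t')u zxytu ->(zx|yt|u) x'z't'y'u' ->(x'|z't'y'|u') xytzu. [4] xyztu ->(x|y|z)tu x'y'z'tu ->(x'|y'|z't)u xyt'zu ->(x|y|t'zu) x'y'u'z't ->(x'|y'|u'z')t xyzut.
[5] xyztu ->(x|y|zt)u x'y't'z'u ->(x'|y't'|z')u xtyzu ->(x|tyz|u) x'z'y't'u' ->x'(z'y'|t'|u') x'yztu. -/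
def StG3a : Prop := ∀ θ : FIC, θ.r [X 0, X 1, X 2] [Y 0, X 1, Y 2] ∨ θ.r [X 0, X 1, X 2] [Y 0, Y 1, Y 2] → TL θ

/-- MODULE G3b (120 lines). The atoms `y'z'x` and `zy'x` imply TL.
Proof. (I): `B1 B2 B3 -> B2' B3' B1` resp. `B3 B2' B1`; (J) is the inverse of (I): for the first atom `B1 B2 B3 -> B3 B1' B2'`.
Atom `xyz=y'z'x`: [1] xyztu ->J(x|y|zt)u ztx'y'u ->I(z|t|x'y'u) t'u'yxz ->J(t'|u'|yxz) yxztu. [2] xyztu ->I(x|yzt|u) t'z'y'u'x ->J t'(z'|y'|u'x) t'u'xzy ->J(t'|u'|xzy) xzytu.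
[3] xyztu ->I(xy|z|t)u z't'xyu ->I(z't'x|y|u) y'u'z't'x ->J(y'|u'z't'|x) xytzu. [4] xyztu ->I(x|y|z)tu y'z'xtu ->I y'(z'x|t|u) y't'u'z'x ->J(y'|t'u'z'|x) xyzut. [5] xyztu ->I(xy|z|t)u z't'xyu ->I(z'|t'x|y)u x'ty'z'u ->I x'(t|y'|z')u x'yztu.
Atom `xyz=zy'x`: [1] xyztu ->(x|y|z)tu zy'xtu ->(z|y'x|t)u tx'yzu ->t(x'y|z|u) tuz'x'y ->(tu|z'x'|y) yxztu. [2] xyztu ->(xy|z|t)u tz'xyu ->t(z'x|y|u) tuy'z'x ->(tu|y'z'|x) xzytu. [3] xyztu ->(x|y|z)tu zy'xtu ->z(y'x|t|u) zut'y'x ->(zu|t'y'|x) xytzu.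
[4] xyztu ->(x|y|z)tu zy'xtu ->(z|y'|xt)u xtyzu ->(xt|y|zu) zuy'xt ->(zu|y'|x)t xyzut. [5] xyztu ->(x|y|z)tu zy'xtu ->(z|y'xt|u) ut'x'yz ->(u|t'|x'yz) x'yztu. -/
def StG3b : Prop := ∀ θ : FIC, θ.r [X 0, X 1, X 2] [Y 1, Y 2, X 0] ∨ θ.r [X 0, X 1, X 2] [X 2, Y 1, X 0] → TL θ

/-- MODULE G3c (120 lines). The atoms `z'yx'` and `z'y'x'` imply TL.
Proof. Atom `xyz=z'yx'` (`B1 B2 B3 -> B3' B2 B1'`): [1] xyztu ->(x|yz|t)u t'yzx'u ->t'(y|z|x')u t'xzy'u ->(t'|xz|y')u yxztu. [2] xyztu ->(xy|zt|u) u'zty'x' ->u'(z|t|y')x' u'ytz'x' ->(u'|yt|z'x') xzytu.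
[3] xyztu ->(x|y|z)tu z'yx'tu ->(z'|yx'|t)u t'yx'zu ->(t'|y|x')zu xytzu. [4] xyztu ->(x|y|zt)u t'z'yx'u ->(t'|z'yx'|u) u'z'yx't ->(u'z'|y|x')t xyzut.
[5] xyztu ->(x|y|z)tu z'yx'tu ->(z'|yx'|t)u t'yx'zu ->(t'y|x'z|u) u'x'zy't ->(u'x'|z|y't) t'yzxu ->(t'|yz|x)u x'yztu.
Atom `xyz=z'y'x'` (`B1 B2 B3 -> B3' B2' B1'`): [1] xyztu ->(x|y|ztu) u't'z'y'x' ->(u'|t'|z')y'x' ztuy'x' ->(z|t|uy')x' yu't'z'x' ->y(u'|t'|z'x') yxztu.
[2] xyztu ->(x|y|z)tu z'y'x'tu ->(z'|y'|x'tu) u't'xyz ->(u'|t'|x)yz x'tuyz ->(x'|t|uy)z y'u't'xz ->y'(u'|t'|xz) y'z'x'tu ->(y'|z'|x')tu xzytu.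
[3] xyztu ->(x|y|zt)u t'z'y'x'u ->(t'|z'|y'x'u) u'xyzt ->(u'|x|y)zt y'x'uzt ->(y'|x'|uz)t z'u'xyt ->z'(u'|x|yt) z't'y'x'u ->(z'|t'|y'x')u xytzu.
[4] xyztu ->(x|y|z)tu z'y'x'tu ->(z'|y'|x't)u t'xyzu ->(t'|x|yzu) u'z'y'x't ->(u'|z'|y'x')t xyzut.
[5] xyztu ->(x|y|z)tu z'y'x'tu ->(z'|y'|x't)u t'xyzu ->(t'|x|y)zu y'x'tzu ->(y'|x'|tzu) u'z't'xy ->u'(z'|t'|x)y u'x'tzy ->(u'|x'|t)zy t'xuzy ->t'(x|u|z)y t'z'u'x'y ->t'z'(u'|x'|y) t'z'y'xu ->(t'|z'|y'x)u x'yztu. -/
def StG3c : Prop := ∀ θ : FIC, θ.r [X 0, X 1, X 2] [Y 2, X 1, Y 0] ∨ θ.r [X 0, X 1, X 2] [Y 2, Y 1, Y 0] → TL θ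

/-- MODULE G4 (60 lines). The atoms `yzx` and `zyx` imply CL.
Proof. Atom `xyz=yzx` (I: `B1 B2 B3 -> B2 B3 B1`, J: `B1 B2 B3 -> B3 B1 B2`): xyzt ->I(x|y|zt) yztx ->J y(z|t|x) yxzt. xyzt ->J(x|y|z)t zxyt ->I(z|x|yt) xytz ->J x(y|t|z) xzyt. xyzt ->J(x|y|z)t zxyt ->I(z|x|yt) xytz.
Atom `xyz=zyx`: xyzt ->(x|y|z)t zyxt ->(zy|x|t) txzy ->(t|xz|y) yxzt. xyzt ->(x|y|z)t zyxt ->(z|y|xt) xtyz ->x(t|y|z) xzyt. xyzt ->(x|y|z)t zyxt ->(z|yx|t) tyxz ->(t|y|x)z xytz. -/
def StG4 : Prop := ∀ θ : FIC, θ.r [X 0, X 1, X 2] [X 1, X 2, X 0] ∨ θ.r [X 0, X 1, X 2] [X 2, X 1, X 0] → CL θ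

/-- MODULE G5 (150 lines). TL implies T5.
Proof. For words of length `≥ 5`: swapping two adjacent letters is allowed: write the word as `a ++ [c, d] ++ b`; choose one of the five blocks positions: since the length is `≥ 5`, the word (or a factor containing both letters) can be cut into five nonempty blocks two of which are the adjacent single letters
`c`, `d` (positions (1,2), (2,3), (3,4) or (4,5) according to `|a| = 0, 1, 2, ≥ 3`; the last or first block takes the rest) and TL applies. Starring one letter is allowed: move it to the front by swaps and use the last part of TL with blocks `[c]`, and the rest cut into four blocks. So words with the same unsigned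
multiset are related: induction on `List.Perm` of a word with its unstarred version (`w θ w.map (fun a => (a.1, false))`, then `List.Perm` of unstarred words is generated by adjacent swaps; e.g. prove `∀ a b, l.Perm l' → 5 ≤ (a ++ l ++ b).length → θ (a ++ l ++ b) (a ++ l' ++ b)` by induction on `Perm`). -/
def StG5 : Prop := ∀ θ : FIC, TL θ → T5 θ

/-- MODULE G6 (100 lines). CL implies C4. Proof: adjacent swaps as in G5 with four blocks; induction on `List.Perm` in the form `∀ a b, l.Perm l' → 4 ≤ (a ++ l ++ b).length → θ (a ++ l ++ b) (a ++ l' ++ b)`. -/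
def StG6 : Prop := ∀ θ : FIC, CL θ → C4 θ

/-- MODULE G7 (120 lines). `xyz = xy'z` implies M3.
Proof. For every nonempty middle word `m`: `a m b θ a (st m) b`. For `|m| ≥ 2` and a factorisation `m = m1 ++ m2` into nonempty words: `a m1 m2 b θ a m1' m2 b` (blocks `a | m1 | m2 b`), and `θ a m1 m2' b` (blocks `a m1 | m2 | b`); here `m1'` is `st m1`. So
`a m1 m2 b θ a m1' m2' b = a (m2 m1)' b θ a m2 m1 b`. Hence single letters of the middle can be starred and adjacent letters can be swapped (use contexts: `a ++ m1` as first block etc.): in the form `a :: p ++ l ++ q ++ [b] θ a :: p ++ l' ++ q ++ [b]`; then induction on `Perm` as in G5. -/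
def StG7 : Prop := ∀ θ : FIC, θ.r [X 0, X 1, X 2] [X 0, Y 1, X 2] → M3 θ

/-- MODULE G (40 lines; theorem hG (h1 : StG1) (h2 : StG2) (h3a : StG3a) (h3b : StG3b) (h3c : StG3c) (h4 : StG4) (h5 : StG5) (h6 : StG6) (h7 : StG7) : StG). -/
def StG : Prop := ∀ θ : FIC, NilF θ → Mod7 θ → T5 θ ∨ C4 θ ∨ M3 θ

/-! ## Part 4: type S -/

/-- `xxxyz`, `xxyyz`, `xxxyzt`, `xxyyzt`. -/
def E3 : Wd := [X 0, X 0, X 0, X 1, X 2]
def E22 : Wd := [X 0, X 0, X 1, X 1, X 2]
def F4 : Wd := [X 0, X 0, X 0, X 1, X 2, X 3]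
def G4 : Wd := [X 0, X 0, X 1, X 1, X 2, X 3]

/-- MODULE H0 (150 lines). In type S a word of length 4 with 3 letters is not related to a nonzero word of length 5.
Proof. `v` has one letter twice and two letters once; let `t` be fresh: `v t θ u t`. `u t` has length 6; some letter `a` occurs at least twice in `u`. Let `b, c` be the other two letters of `u`. There is a signed renaming `g` of the letters of `v t` with `g t = t` (unstarred), mapping the repeated letter of `v` to `a`,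
the single ones to `b, c` with signs chosen such that `u t ~ g(v t) ++ [r]` in the sense of `Sim`, where `r` is the remaining occurrence (choose for `b`, `c` one occurrence in `u`; if it is the only one the sign is its sign; `a` occurs at least twice, its signs are irrelevant). So `v t θ g(v t) ++ [r]`, `v t` is zero by the growth lemma
(HS is applied to the nonlinear words `u t` of length 6). Hence every word of length 5 with multiplicities (2,1,1,1) is zero (it is `Sim` to a renaming of `v t`). `u` is, up to HS, a substitution instance of such a word by identification of letters: `u` is `Sim` to `a a r1 r2 r3`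
(`a` a repeated letter), the image of `[X 0, X 0, X 1, X 2, X 3]`, which is zero. -/
def StH0 : Prop := ∀ θ : FIC, NilF θ → HS θ → ∀ u v : Wd, u.length = 5 → v.length = 4 → (ct u).card = 3 → θ.r v u → Zero θ u

/-- MODULE H1 (150 lines). If `xxxyz` is killed then `xxxyzt` is zero.
Proof. `xxxyz θ w'`, `|w'| ≥ 6`, same content (or `xxxyz` is zero by the content lemma; in particular if `|w'| = 5` and `w'` has `< 3` letters). If some letter `a` occurs `≥ 3` times in `w'`: by HS `w' θ g(xxxyz) ++ r`, `r ≠ []` (other letters `b`, `c`: keep one occurrence each with its sign, put the rest into `r`; `Sim`), growth lemma: `xxxyz` is zero, so `xxxyzt` is.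
Otherwise all multiplicities are `≤ 2`, so `|w'| = 6` and all are 2; `w'` is `Sim` to its images under permutations of the letters, so `xxxyz θ yyyxz` (T1). Substitute `y ↦ yt`: `xxxytz θ ytytyt xz`, which by HS is related to `yyyxztt t`.. precisely: `xxxyzt θ xxxytz θ (yyyxzt) ++ tt`
(multiplicities y:3, t:3, x:1, z:1 with unstarred signs). And `xxxyzt θ yyyxzt` (multiply T1 by `t`). So `xxxyzt θ yyyxzt ++ tt θ xxxyzt ++ tt`: zero by `grow0`. -/
def StH1 : Prop := ∀ θ : FIC, NilF θ → HS θ → Kl θ 3 5 E3 → Zero θ F4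

/-- MODULE H2 (200 lines). If `xxyyz` is killed then it is zero.
Proof. `xxyyz θ w'`, `|w'| ≥ 6`, content `{x,y,z}` (otherwise zero by the content lemma). (1) Two letters of `w'` have multiplicity `≥ 2`: by HS `w' θ g(xxyyz) ++ r`, `r ≠ []`, growth lemma. (2) Otherwise one letter `a` has multiplicity `m ≥ 4` and the others occur once:
(2a) `a ∈ {x, y}`; by the symmetry `x ↔ y` (HS) let `a = x`: `xxyyz θ x^m y^± z^±`. Substitute `(x,y,z) ↦ (x, x, yz)`: `x^4 y z θ x^(m+1) (yz)^±`, by HS this is `θ g(x^4 y z) ++ x^(m-3)` with `g` a sign change of `y, z`: `x^4 y z` is zero (growth), so is `w'` (`m ≥ 4`) and `xxyyz`.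
(2b) `a = z`: `xxyyz θ z^m x^± y^±`, `m ≥ 4`. Substitute `(x,y,z) ↦ (z, z, xy)`: `z^4 x y θ (xy)^m z^± z^±`, by HS `θ x^m y^m z z`. And `w' θ g(z^4 x y) ++ z^(m-4)` with `g` changing signs of `x, y`, so `w' θ x^m y^m z^(m-2)` (signs irrelevant, multiplicities `≥ 2`), which is `θ g'(xxyyz) ++ r` with `r ≠ []`
(`x x y y z` and the rest; signs irrelevant by HS). So `xxyyz` is zero by growth. -/
def StH2 : Prop := ∀ θ : FIC, NilF θ → HS θ → Kl θ 3 5 E22 → Zero θ E22

/-- MODULE H3 (200 lines). Relations between words of length 5 with three letters.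
(a) `u θ v`, `oc i u = 3`, `oc j v = 3`, `i ≠ j`: rename such that `u` is `Sim` to `xxxyz`, `v = y^3 x^± z^±` up to HS (i = x, j = y). Substitute `y ↦ yt`: `xxxytz θ (yt)(yt)(yt) x^± z^±`, by HS `xxxyzt θ g(xxxyzt) ++ tt` with `g : x ↦ y, y ↦ x^±, z ↦ z^±, t ↦ t`; growth: `F4` zero.
(b) `u, v` of multiplicities (2,2,1) with single letters `i ≠ j`: rename such that `u = xxyyz`, and the single letter of `v` is `y` (`i = z`, `j = y`): `xxyyz θ xxzz y^±`. Substitute `y ↦ yt`: `xx ytyt z θ xxzz (yt)^±`; by HS the left side is `θ (xxyyzt) ++ t`, the right side is `θ g(xxyyzt)` with `g : y ↦ z, z ↦ y^±, t ↦ t^±`.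
So `g(G4) θ G4 ++ t`, growth (apply the inverse renaming): `G4` is zero.
(c) `u` of multiplicities (3,1,1), `v` of (2,2,1): `u = xxxyz`. (c1) the single letter of `v` is `x`: `v = x^± yyzz`. `y ↦ yt`: `xxxyzt θ xxxytz θ x^± yytt zz`, HS: `θ (x^± yyzz t) ++ t`, and `x^± yyzzt θ xxxyzt` (multiply by `t`). So `F4 θ F4 ++ t`: zero. (c2) the single letter is `z` (or `y`, by the symmetry `y ↔ z` of `u`):
`xxxyz θ xxyyz^±`; `y ↦ yt`: `xxxyzt θ xx yytt z^±` (HS), `θ (xxyyz^± t) ++ t θ F4 ++ t`. Zero. -/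
def StH3 : Prop := ∀ θ : FIC, NilF θ → HS θ → ∀ u v : Wd, u.length = 5 → v.length = 5 → (ct u).card = 3 → ct u = ct v → θ.r u v →
  ((∃ i j, i ≠ j ∧ oc i u = 3 ∧ oc j v = 3) → Zero θ F4) ∧
  ((∀ i, oc i u ≤ 2) → (∀ i, oc i v ≤ 2) → (∃ i j, i ≠ j ∧ oc i u = 1 ∧ oc j v = 1) → Zero θ G4) ∧
  ((∃ i, oc i u = 3) → (∀ i, oc i v ≤ 2) → Zero θ F4)

/-- MODULE H4 (200 lines; theorem hH4 (hL : StLin) (hT : StTwo) (h0 : StH0) (h1 : StH1) (h2 : StH2) (h3 : StH3) : StH4).
Proof. If `E3` is killed: H1. If `E22` is killed: H2, and `G4` is related to `E22 ++ t` by HS, zero. Otherwise suppose `F4`, `G4` are not zero; apply StTwo with `n = 3`, `d = 5`: `S1 u`: `|u| = 5`, 3 letters, some `oc i u = 3`, and `u` is not killed; `S2 u`: `|u| = 5`, 3 letters, all `oc ≤ 2`, not killed (Kl is invariant under `θ`, star and renaming; all words with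
multiplicities (3,1,1) are `Sim` to renamings of `E3`, so none is killed, similarly `E22`). `col u` = the `i` with `oc i u = 3` if it exists, otherwise the `i` with `oc i u = 1`. Closure under `θ`: `u ∈ S1 ∪ S2`, `u θ v`: `v` is not zero, same content, `|v| ≤ 5` (not killed); `|v| = 3` is excluded by StLin (linear), `|v| = 4` by H0 (then `u` is zero, hence killed).
So `|v| = 5`, and by H3 `v` is in the same `Si` with the same colour. Contradiction by StTwo. -/
def StH4 : Prop := ∀ θ : FIC, NilF θ → HS θ → Mod7 θ → Zero θ F4 ∨ Zero θ G4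

/-- MODULE H5 (120 lines). Proof. r0: `Perm` implies `Sim`. r2: HS. r1: `u` with `|u| ≥ 6`, `oc i u ≥ 3` is by HS related to `[X i, X i, X i] ++ rest` with `|rest| ≥ 3` (same unsigned multiset, single letters keep their signs; if `oc i u > 3` further occurrences of `i` are in `rest`), an instance of `F4` (`y, z, t ↦ r1, r2, r3...`). -/
def StH5 : Prop := ∀ θ : FIC, HS θ → Zero θ F4 → TR θ

/-- MODULE H6 (120 lines). Proof. e1: `u` nonlinear, nonzero, `|u| ≥ 6`, so some `oc i u ≥ 2`. If `oc i u ≥ 4` or `oc j u ≥ 2` for some `j ≠ i`, then by HS `u θ [a, a, b, b] ++ rest` with `|rest| ≥ 2` (`a = b` allowed), an instance of `G4`, zero: contradiction. -/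
def StH6 : Prop := ∀ θ : FIC, HS θ → Zero θ G4 → TE θ

/-- MODULE H (20 lines; theorem hH (h4 : StH4) (h5 : StH5) (h6 : StH6) : StH). -/
def StH : Prop := ∀ θ : FIC, NilF θ → HS θ → Mod7 θ → TR θ ∨ TE θ

end Helper1.IM
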