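import Pool.Agent.Helper1.IM.St

/-!
# Project IM: types C and M (statements with complete proofs)
-/

set_option autoImplicit false

namespace Helper1.IM

/-! ## Part 5: type C

In type C (`C4`), words of length `≥ 4` are multisets of signed letters; `~` below means `List.Perm`. `P3 = xxyz`, `Q3 = xx'yz`, ... A word of length `n + 1` with `n` letters (`n ≥ 3`) has exactly one repeated letter; it is of P type (the repeated letter occurs twice with the same sign; it is `~ g(P n)`)
or of Q type (it occurs with both signs; `~ g(Q n)`). -/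

def P3 : Wd := [X 0, X 0, X 1, X 2]
def Q3 : Wd := [X 0, Y 0, X 1, X 2]
def P4 : Wd := [X 0, X 0, X 1, X 2, X 3]
def Q4 : Wd := [X 0, Y 0, X 1, X 2, X 3]
def P5 : Wd := [X 0, X 0, X 1, X 2, X 3, X 4]

/-- `xx'yzt` is zero, or exotic: `xx'yzt = x^a yzt` with `a ≥ 3` and `x^(a+1) yzt = 0`. -/
def QX (θ : FIC) : Prop := Zero θ Q4 ∨ ∃ a, 3 ≤ a ∧ θ.r Q4 (List.replicate a (X 0) ++ [X 1, X 2, X 3]) ∧
  Zero θ (List.replicate (a + 1) (X 0) ++ [X 1, X 2, X 3])

/-- MODULE C1 (150 lines). If `xxyz` is killed then `xxyzt` is zero.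
Proof. `Kl.long`: `xxyz` is zero (done) or `xxyz θ w`, `|w| ≥ 5`, content `{x,y,z}`. (1) Some signed letter `a` occurs at least twice in `w`: `w ~ g(xxyz) ++ r` (`a, a`, one occurrence of each of the other two letters; `r ≠ []`), so `xxyz` is zero by the growth lemma. (2) No signed letter is repeated: the letters of `w` occurring twice
occur with both signs; as `|w| ≥ 5` there are at least two such letters, so `y` or `z`, say `y`, is one (for `z` use the symmetry: apply the transposition of `y, z` to `xxyz θ w`; the left side is unchanged up to `~`). Multiply by `t`: `xxyzt θ wt`; substitute `y ↦ yt`: `xxytz θ w(y ↦ yt)`, which is `~ w t t'` (`y ↦ yt`, `y' ↦ t'y'`).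
So `wt θ wt ++ t'`, `wt` is zero (`grow0`), and `xxyzt` is zero. -/
def StC1 : Prop := ∀ θ : FIC, NilF θ → C4 θ → Kl θ 3 4 P3 → Zero θ P4

/-- MODULE C2 (150 lines). `xxyzt = 0` implies type R.
Proof. r0: C4. A word of length `≥ 5` in which a signed letter `a` occurs twice is `~ a a b c d ...`, an instance of `P4` (the last block takes the rest), zero. r1: three occurrences of the letter `i`: two of them have the same sign. r2: nonzero words: every signed letter occurs at most once; so a letter with `oc = 2` occurs with both signs (and `oc ≤ 2`),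
and a letter with `oc = 1` has the same sign in `u` and `v`; so `u` and `v` have the same signed letters, `u.Perm v`. -/
def StC2 : Prop := ∀ θ : FIC, C4 θ → Zero θ P4 → TR θ

/-- MODULE C3 (250 lines). If `xx'yz` is killed then `QX`.
Proof. `Kl.long`: `xx'yz` is zero (then `Q4` is zero) or `xx'yz θ w`, `|w| ≥ 5`, content `{x,y,z}`. (1) If some letter `b` occurs with both signs in `w`: `w ~ g(xx'yz) ++ r`, `r ≠ []`: `xx'yz` zero. (2) Otherwise every letter occurs in one sign only: `w ~ x^(α a) y^(β b) z^(γ c)` (signs `α β γ`, multiplicities `a b c ≥ 1`, sum `≥ 5`).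
(2a) `b ≥ 2` (or `c ≥ 2`, symmetric). `xx'yzt θ wt`; `y ↦ yt`: `xx'ytz θ w t^(β b)`. So `wt θ w t^(β b)`. If `β = +`: `wt θ wt ++ t^(b-1)`, zero. If `β = -`: starring `t`: `w t' θ w t^b`, so `wt θ w t'^b ~ (w t') t'^(b-1) θ w t^b t'^(b-1) ~ (wt) ++ t^(b-1) t'^(b-1)`: zero. Hence `Q4` is zero.
(2b) `b = c = 1`, `a ≥ 3`. Starring `x` in the relation (`xx'yz` is invariant up to `~`) we may take `α = +`: `xx'yz θ x^a y^β z^γ`. Multiply by `t`: `xx'yzt θ x^a y^β z^γ t`. Claim `xx'yzt θ x^a yzt`. If `β = γ = +` fine. If `β = -` (`γ = -` symmetric): `y ↦ yt` gives `xx'ytz θ x^a (yt)' z^γ ~ x^a y' t' z^γ`, so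
`x^a y' z^γ t θ x^a y' z^γ t'`, hence (both are related to `xx'yzt` resp. `xx'yzt'`) `xx'yzt θ xx'yzt'`; by the symmetry of `xx'yzt` in `y,z,t` all signs of `y, z, t` are free in it. So `xx'yzt θ xx'y^β z^γ t θ x^a y z t` (substitute `y ↦ y^β, z ↦ z^γ`).
(3) From `xx'yzt θ x^a yzt` (`a ≥ 3`) it follows that `x^(a+1) yzt` is zero: multiply by `x'`: `x x' x' yzt θ x' x^a yzt ~ x x' (x^(a-1) y) z t θ x^a x^(a-1) yzt = x^(2a-1) yzt`. Starring `x`: `xx'yzt θ x'^a yzt`, times `x'`: `x x'x' yzt θ x'^(a+1) yzt`. So `x'^(a+1) yzt θ x^(2a-1) yzt`, and starring `x`: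
`x^(a+1) yzt θ x'^(2a-1) yzt ~ x'^(a-2) (x'^(a+1) yzt) θ x'^(a-2) x^(2a-1) yzt`. In general `x'^(j+1) x^(m+1) yzt ~ xx' (x'^j x^m y) z t θ x^a x'^j x^m yzt = x'^j x^(m+a) yzt`, so after `a - 2` steps `x^(a+1) yzt θ x^N yzt` with `N ≥ 2a - 1 + (a-2)(a-1) > a + 1`: zero by `grow0`. -/
def StC3 : Prop := ∀ θ : FIC, NilF θ → C4 θ → Kl θ 3 4 Q3 → QX θ

/-- MODULE C4m (200 lines). `xxyz θ xx'y^β z^γ` (or its image under `y ↔ z`) implies type S.
Proof. `rw' p e Q3 = [x^., (x^.)', (p 1)^., (p 2)^.] ~ xx'y^β z^γ`. Multiply by `t`: `xxyzt θ xx'y^β z^γ t`. If `β = γ = +` (call it case A): starring `x`: `x'x'yz θ xx'yz`, so in words of length `≥ 4` with a repeated letter the signs of this letter are irrelevant.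
Case B: `β = -` (or `γ = -`, symmetric): `y ↦ yt`: `xxytz θ xx'y't'z^γ`, so `xx'y'z^γ t θ xx'y'z^γ t'`; by symmetry in the three single letters all signs of single letters are free in `Q4`, and `xxyzt θ xx'yzt` with all signs of `y,z,t` free on both sides, and (starring `x`) `θ x'x'yzt`.
In both cases: (S1) `xxyzt θ xx'yzt θ x'x'yzt` as identities. HS: let `u`, `v` be `Sim`, `|u| ≥ 5`, `u` nonlinear. Changing the sign of one occurrence of a letter `i` with `oc i u ≥ 2` gives a related word: `u ~ [i^., i^.] ++ rest`, `|rest| ≥ 3`, an instance of (S1) (`y, z, t ↦` cutting of `rest` into three blocks). So make all occurrences of letters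
with `oc ≥ 2` unstarred in `u` and in `v` (induction on the number of starred occurrences of such letters); the results are `Perm` of each other. -/
def StC4m : Prop := ∀ θ : FIC, C4 θ → ∀ (p : Equiv.Perm ℕ) (e : ℕ → Bool), p 0 = 0 → ct (rw' p e Q3) = ct P3 →
  θ.r P3 (rw' p e Q3) → HS θ

/-- MODULE C5 (250 lines). A relation between words of length 4 with three letters and different repeated letters `i ≠ j` kills `P4` or `Q4`.
Proof. Let `s` be a fresh letter. For a word `v` of length 4 with three letters, repeated letter `j`, and another letter `i` of `v` (occurring once), the substitution `i ↦ i s` gives a word `v'` of length 5 with four letters, of the same type (P or Q) as `v`, with repeated letter `j`. For `u` with repeated letter `i`: if `u` is of P type, `u' = u(i ↦ is) ~ i^a i^a s^a s^a b c`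
`= (a P type word with 4 letters) ++ [s^a]`; if `u` is of Q type, `u' ~ i i' s s' b c = (Q type word i i' s b c) ++ [s']`. Canonical forms: every P type word of length 5 with four letters is `~ g(P4)`, similarly Q.
(1) `u, v` both P: `v' θ u' ~ p' ++ [s^a]`, `v' ~ g(P4)`, `p' ~ g'(P4)`: growth lemma for `P4` (apply the inverse of `g`): zero. (2) both Q: `Q4` zero in the same way. (3) `u` P, `v` Q: (3a) `i ↦ is`: `q := v' θ p' ++ [s^a]`, `q` Q type, `p'` P type. (3b) `j ↦ js`: `p := u(j ↦ js)` is of P type, `v(j ↦ js) ~ q' ++ [s']`, `q'` of Q type; `p θ q' ++ [s']`.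
`q' ~ g(q)`, so `p θ g(q) ++ [s'] θ g(p' ++ [s^a]) ++ [s'] = g(p') ++ r`, `|r| = 2`, and `g(p') ~ g''(p)`: growth: `p` is zero, so `P4` is zero. (4) `u` Q, `v` P: exchange the roles. -/
def StC5 : Prop := ∀ θ : FIC, NilF θ → C4 θ → ∀ (u v : Wd) (i j : ℕ), u.length = 4 → v.length = 4 → (ct u).card = 3 → ct u = ct v →
  i ≠ j → oc i u = 2 → oc j v = 2 → θ.r u v → Zero θ P4 ∨ Zero θ Q4

/-- MODULE C6 (200 lines; theorem hC6 (hL : StLin) (hT : StTwo) : StC6).
Proof. Suppose the second alternative fails: (*) `θ`-related words `u, v` of length 4 with the same three letters have the same repeated letter. Suppose there is no `g = (p, e)` with `θ.r P3 (g Q3)`. StTwo with `n = 3`, `d = 4`, `S1 = {u | ∃ g, u θ g(P3)}`, `S2 = {u | ∃ g, u θ g(Q3)}`, `col u` = the letter with `oc = 2`. They are disjoint. Star: `st P3 ~ g(P3)`, `st Q3 ~ g(Q3)`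
with `g` the starring of all letters. Elements are not killed; so they are related only to words with the same content (`cont`, zero words are killed), of length `≤ 4`, and length 3 is impossible (linear; StLin): so length 4 and `col` is `θ`-invariant by (*). So StTwo gives a contradiction, and `θ.r P3 (rw' p e Q3)` for some `p, e`; contents are equal (`cont`) and `p 0 = 0` by (*). -/
def StC6 : Prop := ∀ θ : FIC, NilF θ → C4 θ → Mod7 θ → ¬ Kl θ 3 4 P3 → ¬ Kl θ 3 4 Q3 →
  (∃ (p : Equiv.Perm ℕ) (e : ℕ → Bool), p 0 = 0 ∧ ct (rw' p e Q3) = ct P3 ∧ θ.r P3 (rw' p e Q3)) ∨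
  (∃ (u v : Wd) (i j : ℕ), u.length = 4 ∧ v.length = 4 ∧ (ct u).card = 3 ∧ ct u = ct v ∧ i ≠ j ∧ oc i u = 2 ∧ oc j v = 2 ∧ θ.r u v)

/-- MODULE C7 (120 lines). Proof. `Kl.long`: `P4` is zero or `xxyzt θ w`, `|w| ≥ 6`, content `{x,y,z,t}`. If a signed letter occurs twice in `w`: `w ~ g(P4) ++ r`, `r ≠ []`, growth. Otherwise some letter `b` occurs with both signs and `w ~ b b' c d e ++ r`, `r ≠ []`. If `Q4` is zero, `w` is zero, so `P4` is. In the exotic case
`w θ b^a c d e r ~ g(P4) ++ (b^(a-2) ++ r)`: growth. -/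
def StC7 : Prop := ∀ θ : FIC, NilF θ → C4 θ → QX θ → Kl θ 4 5 P4 → Zero θ P4

/-- MODULE C8 (200 lines). A relation between P type words with four letters and different repeated letters makes all nonlinear words of length `≥ 7` zero.
Proof. `u = a a b c d` (up to order), `v` has the repeated letter `j ≠ i = a.1`; `s` fresh, substitute `i ↦ i s`: `v' = v(i ↦ is)` has length 6, five letters, P type, `~ g(P5)`; `u' ~ a a s^. s^. b c d = (P type word with 5 letters) ++ [s^.] ~ g'(P5) ++ [s^.]`. So `g(P5) θ g'(P5) ++ [s^.]`, growth: `P5` is zero.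
A nonlinear word `w`, `|w| ≥ 7`: if a signed letter is repeated, it is `~` an instance of `P5`. Otherwise `w ~ b b' r`, `|r| ≥ 5`: an instance of `Q4` (zero if `Q4` is), in the exotic case related to `b^a r1 r2 r3` with `a ≥ 3`, `|r| ≥ 5` (an instance of `P5`), zero. So `TD` holds vacuously. -/
def StC8 : Prop := ∀ θ : FIC, NilF θ → C4 θ → QX θ → ∀ (u v : Wd) (a b : Lt), isP4 u → isP4 v → ct u = ct v → u.count a = 2 → v.count b = 2 →
  a.1 ≠ b.1 → θ.r u v → TD θ

/-- MODULE C9 (150 lines; theorem hC9 (hL : StLin) (hP : StP45) : StC9).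
Proof. By StP45 (all P type words with four letters are `~ g(P4)`, so not killed) there are `u, v` with `isP4 u`, `u θ v`, not `u.Perm v`. `v` is not zero (`Kl.of_zero`), content equal (`cont`), `|v| ≤ 5`, `|v| = 4` is impossible (linear, StLin; `u` is not linear). So `|v| = 5` with four letters. If `v` is of Q type then `v ~ g(Q4)`, which is zero or related to a word of length `a + 3 ≥ 6`: `v`, `u`
killed, contradiction. So `isP4 v`. Rename `u` to `P4` (`u ~ g(P4)`, use the inverse renaming on `u θ v`). -/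
def StC9 : Prop := ∀ θ : FIC, NilF θ → C4 θ → Mod7 θ → QX θ → ¬ Kl θ 4 5 P4 →
  ∃ v, θ.r P4 v ∧ ¬ P4.Perm v ∧ isP4 v ∧ ct v = ct P4

/-- Sign change of the letters. -/
def sg (e : ℕ → Bool) (w : Wd) : Wd := rw' 1 e w

/-- MODULE C10 (200 lines). The exotic case is impossible when `xxyzt` is related to a word obtained by changing signs.
Proof. Let `A = {i < 4 | e i}`, nonempty (otherwise `Perm`). Write `f_A`. Given: `xxyzt θ f_A(xxyzt)`, `xx'yzt θ x^a yzt`, `x^(a+1) yzt = 0`. Claim: `xxxyzt` is zero; then `x^a yzt` (`a ≥ 3`, contains `xxxyzt` up to `~`) and `Q4` are zero.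
(1) `A = {x}`: `xxyzt θ x'x'yzt`; times `x`: `xxxyzt θ x x'x' yzt ~ x' (xx'yzt)`, and starring `x` in `xx'yzt θ x^a yzt` gives `xx'yzt θ x'^a yzt`, so it is `θ x'^(a+1) yzt`, zero. (2) `x ∉ A`, say `y ∈ A` (the letters `y,z,t` are symmetric: permute them in the relation): put `y := x`: `xxxzt θ xx x' z^. t^.`; times a new letter `Y`:
`xxxztY θ x (xx' z^. t^. Y) θ x x^a z^. t^. Y`, zero (renaming of `x^(a+1)yzt`). (3) `x ∈ A`, and some but not all of `y,z,t` are in `A`: say `y ∈ A`, `t ∉ A`; with `τ` = transposition of `y,t`: `xxyzt θ f_(τA)(xxyzt)`, so `xxyzt θ f_A f_(τA) (xxyzt) = f_{y,t}(xxyzt)`: case (2). (4) `A = {x,y,z,t}`: times `u`: `xxyztu θ f_A(xxyzt) u`;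
`t ↦ tu`: `xxyztu θ f_(A ∪ u)(xxyztu)` up to `~`. So `xxyztu θ xxyztu'` (apply `f_A`). Put `u := x`: `xxxyzt θ xxx'yzt ~ x (xx'yzt) θ x^(a+1) yzt`, zero. -/
def StC10 : Prop := ∀ θ : FIC, NilF θ → C4 θ → ∀ (a : ℕ) (e : ℕ → Bool), 3 ≤ a → θ.r Q4 (List.replicate a (X 0) ++ [X 1, X 2, X 3]) →
  Zero θ (List.replicate (a + 1) (X 0) ++ [X 1, X 2, X 3]) → ¬ P4.Perm (sg e P4) → θ.r P4 (sg e P4) → Zero θ Q4

/-- MODULE C11 (250 lines). `xx'yzt = 0` and a sign relation for `xxyzt` imply type R or D.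
Proof. `A` as in C10. By `Q4 = 0` every word of length `≥ 5` which contains a letter in both signs is zero. (1) `A = {x}` (i.e. `e 0 = true`, `e 1 = e 2 = e 3 = false`): type R. `t := x` gives `xxxyz θ x'x'xyz`, zero. So r1 (a letter occurring three times: both signs, or `~ aaa..`, in both cases zero for length `≥ 5`). r2: for nonzero `Sim` words `u, v`: repeated letters
occur twice with the same sign; by instances `aabcd.. θ a'a'bcd..` of the relation (`b, c, d..` = cutting of the rest into three blocks) the signs of all repeated letters can be changed to `+` in `u` and `v`; then `Perm`. r0: C4.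
(2) Otherwise some `i ∈ {1,2,3}` is in `A`, by symmetry `y ∈ A`. Times `u`: `xxyztu θ f_A(xxyztu)`; `y ↦ yu`: `xxyztu θ f_(A ∪ u)(xxyztu)`. So (a) `xxyztu θ xxyztu'` (compose, apply `f_A`), and by symmetry all signs of the single letters are free in `P5`. `u := x`: `xxxyzt θ xxx'yzt`, zero. `u := y`: `xxyyzt θ xxyy'zt`, zero. So in length `≥ 6` a nonzero nonlinear word has exactly one
repeated letter, occurring twice with the same sign (if two letters `a, b` are repeated, `~ a a b b c d..` or a letter with both signs; if a letter occurs three times, `~ a a a b c d..`): TD.d1. TD.d2: `u, v` nonzero nonlinear of length `≥ 7` with the same multiset of unsigned letters, repeated letter `i` with the same sign (`fs`): by (a) (instances: the block `u` is a single letter,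
the other blocks cut the rest) the signs of all single letters can be changed; then `Perm`. -/
def StC11 : Prop := ∀ θ : FIC, NilF θ → C4 θ → Zero θ Q4 → ∀ e : ℕ → Bool, ¬ P4.Perm (sg e P4) → θ.r P4 (sg e P4) → TR θ ∨ TD θ

/-- MODULE C (100 lines; theorem hC (h1 : StC1) (h2 : StC2) (h3 : StC3) (h4 : StC4m) (h5 : StC5) (h6 : StC6) (h7 : StC7) (h8 : StC8) (h9 : StC9) (h10 : StC10) (h11 : StC11) : StC).
Proof. `Kl P3`: C1, C2. Otherwise, if `Kl Q3`: C3 gives QX; if not `Kl Q3`: C6: link → C4m → HS; second alternative → C5 → `Zero P4` (C2) or `Zero Q4` (QX). Given QX: if `Kl θ 4 5 P4`: C7, C2. If not: C9 gives `v`, with `v.count b = 2`; if `b.1 ≠ 0`: C8 (with `u = P4`, `a = X 0`). If `b.1 = 0`: `v ~ sg e P4` for suitable `e` (content `{0,1,2,3}`, the letter 0 twice with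
one sign), so `θ.r P4 (sg e P4)`, not `Perm`; in the exotic case C10 gives `Zero Q4`; then C11. -/
def StC : Prop := ∀ θ : FIC, NilF θ → C4 θ → Mod7 θ → HS θ ∨ TR θ ∨ TD θ

/-! ## Part 6: type M

In type M (`M3`) a word of length `≥ 3` is written `(a; m; b)`: first letter, middle, last letter; only the multiset of unsigned letters of `m` matters. -/

/-- `xyzx`, `xyzx'`. -/
def Ga3 : Wd := [X 0, X 1, X 2, X 0]
def De3 : Wd := [X 0, X 1, X 2, Y 0]
/-- `(a; xxyz; b)`, `(a; xxyzs; b)`, `(x; xyzst; b)`. -/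
def B5 : Wd := [X 3, X 0, X 0, X 1, X 2, X 4]
def B6 : Wd := [X 5, X 0, X 0, X 1, X 2, X 3, X 4]
def A6 : Wd := [X 0, X 0, X 1, X 2, X 3, X 4, X 5]
def Ga5 : Wd := [X 0, X 1, X 2, X 3, X 4, X 0]
def De5 : Wd := [X 0, X 1, X 2, X 3, X 4, Y 0]
def Ga6 : Wd := [X 0, X 1, X 2, X 3, X 4, X 5, X 0]
def De6 : Wd := [X 0, X 1, X 2, X 3, X 4, X 5, Y 0]

/-- MODULE M1 (250 lines). Killed case.
Proof. Let `g ∈ {P3, Ga3, De3}` be killed. `Kl.long`: (0) `g` is zero: `B6` is related (M3) to a word containing `g` as a factor in its middle (arrange the middle as `x x y z ..`, `x y z x ..`, `x y z x' ..`), and `A6` to a word which has the factor `g` (`x·x y z..`, `x·y z x ..`, `x·y z x' ..`); both zero. (1) `g θ w`, `|w| ≥ 5`, content `{x,y,z}`.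
First, `B5` is zero: `a g b θ a w b`, i.e. `(a; xxyz; b) θ (a; x^i y^j z^k; b)`, `i + j + k ≥ 5`, `i, j, k ≥ 1` (`a = X 3`, `b = X 4`). If `i ≥ 2`: `B5 θ (a; xxyz ++ r; b)` with `r ≠ []` (letters unstarred); substituting `b ↦ r^m b` and composing, `B5 θ a xxyz r^m b` for all `m`, zero for large `m`. If `i = 1`: `j ≥ 2` (or `k ≥ 2`, symmetric): `B5 θ (a; yyxz ++ r; b) = τ(B5)` with `b ↦ r b`,
`τ` the transposition of `x, y`; apply this relation to itself (apply `τ`, substitute `b ↦ r b`): `B5 θ (a; xxyz ++ τ(r) ++ r; b)`, and conclude as before.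
Second, `A4 := (x; xyz; b)` (`= xxyzb`, `b = X 3`) is zero: `A4 θ g b θ w b = (a'; m'; b)` where `|m'| ≥ 4` and `m'` has letters in `{x,y,z}`, so some letter `c` occurs twice in `m'`: `(a'; m'; b) θ a' c c d e .. b`, an instance of `B5` (`X 3 ↦ a'`, `X 0 ↦ c`, `X 1 ↦ d`, `X 2 ↦ e`, `X 4 ↦` rest and `b`): zero. Finally `B6` is related to the instance `b ↦ X 3 X 4` of (a renaming of) `B5`,
and `A6 = xxyz(stb)`-instance of `A4`. -/
def StM1 : Prop := ∀ θ : FIC, NilF θ → M3 θ → (Kl θ 3 4 P3 ∨ Kl θ 3 4 Ga3 ∨ Kl θ 3 4 De3) → Zero θ B6 ∧ Zero θ A6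

/-- MODULE M2 (250 lines). A relation which changes the repeated letter.
Proof. `g θ v` with repeated letter `x = X 0` of `g`, and the repeated letter of `v` is `j ∈ {1, 2}`, `k` the third letter. First `B6`: `a g b θ a v b` reads `(a; xxjk; b) θ (a; jjxk; b)`. Substitute `x ↦ xs` (`s` fresh): `(a; xxssjk; b) θ (a; jjxsk; b) =: U`. Let `τ` be the transposition of `x, j`: `τ U = (a; xxjsk; b)`, and the left side is related to `τ U` with `b ↦ s b`. So `U θ (τU)(b ↦ sb)`;
applying `τ` and `b ↦ sb` to this relation, `(τU)(b ↦ sb) θ U(b ↦ ssb)`. So `U θ U(b ↦ ssb)` and by iteration `U θ U(b ↦ s^(2m) b)` for all `m`, zero. `B6` is (up to M3) a renaming of `U`.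
Then `A6`. `g b θ (x; xyz; b)` with `b = X 3` (for `g = P3`: `x·x y z`; `Ga3`, `De3`: `x·y z x^±`, sign free in the middle). (1) The first letter of `v` has the letter `j`: `v b θ (j^±; xyz; b)` (the middle of `v b` consists of the other three letters of `v`: `x, k, j`). So `(x; xyz; b) θ (j^±; xyz; b)`. Substitute `x ↦ xs`: left `(x; s x s y z; b)`: the middle has length 5 and a repeated letter, an instance of
`B6` (up to M3), zero. Right: `(j^±; x s y z; b)`, so `(x; x y z s; b)` is zero (renaming), and `A6` is an instance of it. (2) Otherwise `v = (c; ...)` with `c.1 ≠ j`, both `j` are in the last three letters: `v b θ (c; j j e; b)`, `e` the third letter. Substitute `b ↦ X 4 X 5 X 3` (in the canonical numbering `b = X 3`): `(x; x y z X4 X5; X3) θ (c; j j e X4 X5; X3)`, the right side is an instance of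
`B6` up to M3: zero. The left side is a renaming of `A6` (up to M3). -/
def StM2 : Prop := ∀ θ : FIC, NilF θ → M3 θ → ∀ g v : Wd, (g = P3 ∨ g = Ga3 ∨ g = De3) → θ.r g v → v.length = 4 → ct v = {0, 1, 2} →
  oc 0 v = 1 → Zero θ B6 ∧ Zero θ A6

/-- MODULE M3m (250 lines; theorem hM3m (hL : StLin) (hT : StTwo) : StM3m). Links.
Proof. Suppose there is no `g = (p, e)` with `θ.r P3 (g Ga3)`. StTwo with `n = 3`, `d = 4`, `S1 = {u | ∃ g, u θ g(P3) ∨ u θ st (g(P3))}`, `S2 = {u | ∃ g, u θ g(Ga3)}`, `col` = the letter with `oc = 2`. Star: `st Ga3 = x'z'y'x' θ x'yzx' = g(Ga3)` by M3. Disjoint: `g(P3) θ h(Ga3)` gives `P3 θ (g⁻¹h)(Ga3)`; `st (g P3) θ h(Ga3)` gives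
(star) `g(P3) θ st (h Ga3) θ h'(Ga3)`. Elements of `S1, S2` are not killed (hypothesis; Kl is invariant), hence only related to words with the same content and length `≤ 4`, not of length 3 (StLin). `col` is `θ`-invariant by hypothesis (every element of `S1` (`S2`) is related to a renamed (starred) `P3` (`Ga3`), and by hypothesis words related to `P3` (`Ga3`) have `oc 0 = 2`). Contradiction to
StTwo. So `θ.r P3 (rw' p e Ga3)`; contents are equal; `oc 0 (rw' p e Ga3) = 2` gives `p 0 = 0`. The same argument with `De3` (`st De3 = x z'y' x'`, `θ x y z x'` by M3). -/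
def StM3m : Prop := ∀ θ : FIC, NilF θ → M3 θ → Mod7 θ → ¬ Kl θ 3 4 P3 → ¬ Kl θ 3 4 Ga3 → ¬ Kl θ 3 4 De3 →
  (∀ g v : Wd, (g = P3 ∨ g = Ga3 ∨ g = De3) → θ.r g v → oc 0 v = 2) →
  (∃ (p : Equiv.Perm ℕ) (e : ℕ → Bool), p 0 = 0 ∧ ct (rw' p e Ga3) = ct P3 ∧ θ.r P3 (rw' p e Ga3)) ∧
  (∃ (p : Equiv.Perm ℕ) (e : ℕ → Bool), p 0 = 0 ∧ ct (rw' p e De3) = ct P3 ∧ θ.r P3 (rw' p e De3))

/-- All words with the letters `x, x, y, z, t` (any order, any signs) are related. -/
def U4 (θ : FIC) : Prop := ∀ u : Wd, (u.map Prod.fst).Perm [0, 0, 1, 2, 3] → θ.r u P4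

/-- MODULE M4 (250 lines). The links imply U4.
Proof. `θ.r P3 (rw' p e Ga3)` reads (M3): `xxyz θ (x^ε; y z; x^ε)`; multiply by `a = X 3` on the left: (R) `(a; xxy; z) θ (a; xyz; x^ε)`. Starring `z` in (R): `(a; xxy; z') θ (a; xyz; x^ε)`, so the sign of the last letter `z` in `(a; xxy; z)` is free. Starring `x`: the left side of (R) is unchanged, so `(a; xyz; x) θ (a; xyz; x')`. Exchanging `y, z` in (R): `(a; xxy; z) θ (a; xxz; y)`.
Apply star to everything: the sign of the first letter of `(a; xxy; z)` is free, `(a; xxy; z) θ (y; xxa; z)`, and `(a; xxy; z) θ (x^±; x a y; z)` (mirror of (R), signs free). So all words whose middle contains both `x`, and all words with one `x` in the middle and one at an end, are related to each other. Words with both `x` at the ends: `y ↦ y X3` in the first link: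
`(x; x y X3; z) θ (x^ε; y z X3; x^ε)`; starring `x` gives the other sign (the left side is in the big class, which is invariant under all signed renamings fixing the letter `x` up to sign); the second link gives in the same way `(x^±; yzX3; x^∓)`. -/
def StM4 : Prop := ∀ θ : FIC, M3 θ → ∀ (p q : Equiv.Perm ℕ) (e f : ℕ → Bool), p 0 = 0 → ct (rw' p e Ga3) = ct P3 → θ.r P3 (rw' p e Ga3) →
  q 0 = 0 → ct (rw' q f De3) = ct P3 → θ.r P3 (rw' q f De3) → U4 θ

/-- MODULE M5 (200 lines). U4 implies type S (even: nonlinear words of length `≥ 5` only depend on the multiset of unsigned letters).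
Proof. Let `u` be nonlinear, `|u| = N ≥ 5`, `i` a letter with `oc i u ≥ 2`: `u = w0 ++ [a] ++ w1 ++ [a'] ++ w2`, `a.1 = a'.1 = i`. `|w0| + |w1| + |w2| ≥ 3`; cut the nonempty `w_k` into altogether exactly three nonempty blocks `B1, B2, B3` (`B1 ++ B2 ++ B3 = w0 ++ w1 ++ w2`). U4 (instances: `X 0 ↦ [X i]`, `X 1, X 2, X 3 ↦ B1, B2, B3`; all arrangements and signs) gives
`u θ [X i, X i] ++ w0 ++ w1 ++ w2`. For words `[X i, X i] ++ r`, `|r| ≥ 3`: two adjacent letters of `r` can be exchanged and one letter can be starred: cut a factor of `r` into three blocks such that the letters are single blocks (`r = b ++ [c, d] ++ b'`: blocks `b, [c], [d]` and `b'` as right factor if `b ≠ []`, blocks `[c], [d], b'` if `b = []`, as then `b' ≠ []`).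
So `[X i, X i] ++ r` only depends on the unsigned multiset of `r` (induction on `Perm` as in G5). For `Sim` words `u, v` use the same letter `i`. -/
def StM5 : Prop := ∀ θ : FIC, U4 θ → HS θ

/-- Nonzero nonlinear words of length `≥ 7` are of the form `i^± m i^±` with `i m` linear. -/
def MG (θ : FIC) : Prop := ∀ u : Wd, 7 ≤ u.length → ¬ Lin u → ¬ Zero θ u →
  ∃ (i : ℕ) (b c : Bool) (m : Wd), u = (i, b) :: m ++ [(i, c)] ∧ Lin m ∧ i ∉ ct m

/-- MODULE M6 (150 lines). Proof. `u = a :: m ++ [b]`, `|m| ≥ 5`. If `m` is not linear: `m` is (M3) `c c d e f ..` and `u` is an instance of `B6` (the last letter of `B6` takes the rest of `m` and `b`), zero. If `a.1 ∈ ct m`: `u θ a a d e f h.. b` (M3, sign free), an instance of `A6` (`|m| ≥ 5`), zero. If `b.1 ∈ ct m`: by star. Otherwise, as `u` is not linear, `a.1 = b.1`. -/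
def StM6 : Prop := ∀ θ : FIC, M3 θ → Zero θ B6 → Zero θ A6 → MG θ

/-- MODULE M7 (150 lines). Proof. d1 from MG. d2: `u = (i,b) m (i,c)`, `v = (i',b') m' (i',c')` with the same multiset: `i = i'` (the repeated letter), `b = b'` (`fs`). If `De6` is zero: then `b = c` and `b' = c'` (otherwise `u` is an instance of `De6` or of `De6` with `x` starred, `|m| ≥ 5`, zero), so M3 gives `u θ v`. If `Ga6` is zero: `c = !b`, `c' = !b'` similarly. -/
def StM7 : Prop := ∀ θ : FIC, M3 θ → MG θ → (Zero θ Ga6 ∨ Zero θ De6) → TD θ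

/-- MODULE M8 (250 lines; theorem hM8 (hL : StLin) (hT : StTwo) : StM8).
Proof. `Ga5`, `De5` are not killed for `(5, 6)`: otherwise (`Kl.long`) `Ga5 θ w'`, `|w'| ≥ 7`, five letters; `w'` is nonlinear; by MG a nonzero such word has length = number of letters + 1 = 6, so `w'` is zero, `Ga5` is zero, and `Ga6` (instance `X 4 ↦ X 4 X 5`) is zero, contradiction; `De5` similarly. (**) If `g ∈ {Ga5, De5}`, `g θ v` then `oc 0 v = 2`: `v` is not zero, content `{0..4}`, `|v| ≤ 6`, `|v| = 5` impossible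
(StLin), so `|v| = 6` with one repeated letter `j`. If `j ≠ 0`, substitute `j ↦ j s` (`s = X 5`): `g(j ↦ js)` is (M3) a renaming of `Ga6` (`De6`) (`j` is in the middle of `g`), and `v(j ↦ js)` has length 8 and two repeated letters, so it is zero by MG. Contradiction. Suppose that no `g = (p,e)` has `θ.r Ga5 (g De5)`. StTwo with `n = 5`, `d = 6`, `S1 = {u | ∃ g, u θ g(Ga5)}`, `S2 = {u | ∃ g, u θ g(De5)}`,
`col` = the letter with `oc = 2` (star: as in M3m): contradiction. So `θ.r Ga5 (rw' p e De5)`, and by (**) `p 0 = 0`. -/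
def StM8 : Prop := ∀ θ : FIC, NilF θ → M3 θ → Mod7 θ → MG θ → ¬ Zero θ Ga6 → ¬ Zero θ De6 →
  ∃ (p : Equiv.Perm ℕ) (e : ℕ → Bool), p 0 = 0 ∧ ct (rw' p e De5) = ct Ga5 ∧ θ.r Ga5 (rw' p e De5)

/-- MODULE M9 (150 lines). Proof. The link reads (M3) `(x; yztu; x) θ (x^ε; yztu; (x^ε)')`. Starring `x`: `(x'; ..; x') θ ((x^ε)'; ..; x^ε)`. Star (and M3): `(x'; ..; x') θ (x^ε; ..; (x^ε)')` (the right side is fixed by star up to M3). So all four words `(x^±; yztu; x^±)` (independent signs) are related. Instances `u ↦` longer words: the four words `(i^±; m; i^±)` with `|m| ≥ 4` are related. d1 from MG, d2: `u = (i,b) m (i,c)`,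
`v = (i,b') m' (i,c')` with `m, m'` the same multiset: related. -/
def StM9 : Prop := ∀ θ : FIC, M3 θ → MG θ → ∀ (p : Equiv.Perm ℕ) (e : ℕ → Bool), p 0 = 0 → ct (rw' p e De5) = ct Ga5 →
  θ.r Ga5 (rw' p e De5) → TD θ

/-- MODULE M (100 lines; theorem hM (hL : StLin) (h1 : StM1) (h2 : StM2) (h3 : StM3m) (h4 : StM4) (h5 : StM5) (h6 : StM6) (h7 : StM7) (h8 : StM8) (h9 : StM9) : StM).
Proof. If one of `P3, Ga3, De3` is killed: M1. Otherwise, if `g θ v` for a `g ∈ {P3, Ga3, De3}` and `oc 0 v ≠ 2`: `v` is not zero (not killed), content `{0,1,2}` (`cont`), `|v| ≤ 4`, not 3 (StLin), so `|v| = 4` and `oc 0 v = 1`: M2. In both cases `B6`, `A6` zero: M6 gives MG; if `Ga6` or `De6` is zero: M7, otherwise M8, M9. If `oc 0 v = 2` always: M3m, M4, M5. -/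
def StM : Prop := ∀ θ : FIC, NilF θ → M3 θ → Mod7 θ → HS θ ∨ TD θ

/-- MODULE Ty (60 lines; theorem hTy (hG : StG) (hH : StH) (hC : StC) (hM : StM) : StTy). `T5` implies `HS` directly. -/
def StTy : Prop := ∀ θ : FIC, NilF θ → Mod7 θ → Typ θ

end Helper1.IM
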