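import Pool.Agent.Helper1.IM.St2

/-!
# Project IM: from the types to the modular law, varieties, final theorems (statements with complete proofs)
-/

set_option autoImplicit false

namespace Helper1.IM

/-! ## Part 7: high degree -/

/-- MODULE Inh (40 lines). Types are inherited by larger congruences. Proof. Every clause is either positive or has hypotheses not zero, which are inherited from `α` to `θ` (`Zero.le`). -/
def StInh : Prop := ∀ θ α : FIC, Le θ α → Typ θ → Typ α

/-- MODULE XR (250 lines). Type R, different lengths.
Proof. Suppose `u` is not zero; then `w` is not zero and `ct u = ct w =: C` (`ct_eq_of`), `n = card C`. `u` not linear: `|u| ≥ n + 1`, so `|w| > n + 1` and `w` is not linear. By r1 all `oc i w ≤ 2`, so `7 ≤ |w| ≤ 2 n`, `n ≥ 4`, `|u| ≥ 5`. Also all `oc i u ≤ 2` (r1 if `|u| ≥ 6`; if `|u| = 5` then `n = 4` and the multiplicities are (2,1,1,1)).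
Let `a = |u| - n` = number of repeated letters of `u`, `b = |w| - n > a` the one for `w`. Choose a set `T` of `a` repeated letters of `w`. Rearrange `w` (r0): `w θ u' ++ r`, where `u'` contains both occurrences of the letters of `T` and one occurrence of every other letter of `C`, and `r` the remaining occurrences (`b - a ≥ 1` of them). `u'` is not zero (`w` is not).
There is a signed renaming `g` with `Sim (g u) u'` (a bijection of `C` mapping the repeated letters of `u` onto `T`; signs of the single letters adjusted), `g u` is not zero; by r2 `g u θ u'`. So `u α w α g(u) ++ r`: growth lemma. -/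
def StXR : Prop := ∀ α : FIC, NilF α → TR α → ∀ u w : Wd, α.r u w → u.length < w.length → 7 ≤ w.length → ¬ Lin u → Zero α u

/-- MODULE XE (200 lines). Type E, different lengths.
Proof. Suppose `u` is not zero; `ct u = ct w = C`, `n = card C`; `w` is not linear as in XR. By e1 `w` has exactly one repeated letter, with multiplicity 2 or 3: `|w| ≤ n + 2`; `|u| ≥ n + 1` (not linear), so `|w| = n + 2`, `|u| = n + 1`, `n ≥ 5`, and `u` has exactly one repeated letter, twice. By HS `w θ u' ++ [l]` (`l` one occurrence of the letter which occurs three times in `w`),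
and `u' θ g(u)` for a signed renaming `g` (HS, `|u| ≥ 6`, mapping the repeated letter to the repeated letter, signs of the single letters adjusted: `Sim (g u) u'`). Growth lemma. -/
def StXE : Prop := ∀ α : FIC, NilF α → TE α → ∀ u w : Wd, α.r u w → u.length < w.length → 7 ≤ w.length → ¬ Lin u → Zero α u

/-- MODULE XD (60 lines). Type D. Proof. Suppose `u` is not zero: contents equal, `|u| ≥ n + 1`, `w` is not linear and not zero, so by d1 `|w| = n + 1 ≤ |u|`. Contradiction. -/
def StXD : Prop := ∀ α : FIC, NilF α → TD α → ∀ u w : Wd, α.r u w → u.length < w.length → 7 ≤ w.length → ¬ Lin u → Zero α u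

/-- MODULE HX (30 lines; theorem hHX (hL : StLin) (h1 : StXR) (h2 : StXE) (h3 : StXD) : StHX). `u` linear: StLin (`|w| ≠ |u|`). -/
def StHX : Prop := ∀ α : FIC, Typ α → ∀ u w : Wd, α.r u w → u.length < w.length → 7 ≤ w.length → Zero α u

/-- Common consequence of types R and E: for nonzero nonlinear words of length `≥ 7` with the same content and length, the sets of repeated letters have the same size, and if these sets are equal the multiplicities are equal;
`Sim` words are related. -/
structure RE (θ : FIC) : Prop where
  s1 : ∀ u v : Wd, 7 ≤ u.length → u.length = v.length → ¬ Lin u → ct u = ct v → ¬ Zero θ u → ¬ Zero θ v →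
    ((ct u).filter (fun i => 2 ≤ oc i u)).card = ((ct v).filter (fun i => 2 ≤ oc i v)).card
  s2 : ∀ u v : Wd, 7 ≤ u.length → u.length = v.length → ¬ Lin u → ct u = ct v → ¬ Zero θ u → ¬ Zero θ v →
    (∀ i, 2 ≤ oc i u ↔ 2 ≤ oc i v) → (u.map Prod.fst).Perm (v.map Prod.fst)
  s3 : ∀ u v : Wd, 7 ≤ u.length → ¬ Lin u → ¬ Zero θ u → ¬ Zero θ v → Sim u v → θ.r u v

/-- MODULE RE (100 lines). Proof. Type R: all multiplicities are `≤ 2` (r1), number of repeated letters `= |u| - card (ct u)`. Type E: one repeated letter, its multiplicity is `|u| - card (ct u) + 1`. -/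
def StRE : Prop := ∀ θ : FIC, TR θ ∨ TE θ → RE θ

/-- Single orbit property. -/
def SO (θ : FIC) : Prop := ∀ u w : Wd, 7 ≤ u.length → u.length = w.length → ct u = ct w → ¬ Zero θ u → ¬ Zero θ w →
  ∃ (p : Equiv.Perm ℕ) (e : ℕ → Bool), θ.r w (rw' p e u)

/-- MODULE SO (200 lines; theorem hSO (h : StRE) : StSO).
Proof. `u` is linear iff `w` is (`card (ct u) = |u|`). Linear: `lin_rename`. Nonlinear, `RE`: take a permutation `p` mapping the content to itself and the repeated letters of `u` onto those of `w` (same number by s1; `exists_perm_extend`), and `e` such that the single letters get the sign they have in `w`; then `rw' p e u` is not zero (`Zero.rw'_iff`), has the same repeated letters as `w`, so by s2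
the same multiset, `Sim w (rw' p e u)`, and s3. Type D: `p` maps the repeated letter of `u` to the one of `w` and preserves the content, `e` adjusts the sign of the first occurrence (`fs (p i) (rw' p e u) = xor (fs i u) (e i)`); d2. -/
def StSO : Prop := ∀ θ : FIC, Typ θ → SO θ

/-- Permutability of two congruences for nonzero words `u α w β v` of a level. -/
def PC (θ : FIC) (u w v : Wd) : Prop := ∀ α β : FIC, Le θ α → Le θ β → α.r u w → β.r w v →
  (¬ Zero α u) → (¬ Zero β u) → (¬ Zero α v) → (¬ Zero β v) → (¬ Zero α w) → (¬ Zero β w) → ∃ w', β.r u w' ∧ α.r w' v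

/-- MODULE PL (250 lines). Permutability for linear words.
Proof. T5: all linear words of length `≥ 5` with the same content are related: `w' = u`. C4: linear words with the same content are `~` sign changes of each other: `w ~ rw' 1 e u`, `v ~ rw' 1 f w`. `w' = rw' 1 f u`: apply `rw' 1 e` to `w β rw' 1 f w`: `u β rw' 1 f u` (up to `~`, sign changes commute and are involutions), and apply `rw' 1 f` to `u α rw' 1 e u`: `rw' 1 f u α rw' 1 f (rw' 1 e u) ~ v`.
M3 (`n = |u| ≥ 7`). Let `u = (a; m; b)`. Lemma 1: if `u α w`, `w = (a'; m'; b')`, and the sets `{a.1, b.1}`, `{a'.1, b'.1}` are different, then all linear words with this content are `α`-related. Proof: there is a `p ∈ {a'.1, b'.1}` with `p ∉ {a.1, b.1}`; let `p = a'.1` (the other case by star). `p` is in the middle of `u`, so starring `p` or exchanging `p` with a letter `q` outside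
`{a.1, b.1, a'.1, b'.1}` (in the middle of `u`, too) does not change `u` modulo `θ` (M3); so `w` is `α`-related to the words with `p` starred, and with `p, q` exchanged: `(p^±; ..; b') α (q^±; ..; b')`. Applying signed renamings: for all different letters `p, q, c` of the content and all signs, `(p^ε; ..; c^δ) α (q^ε'; ..; c^δ)` (same last letter, the rest of the content in the middle); star: `(c^δ; ..; p^ε) α (c^δ; ..; q^ε')`.
So the first letter can be changed arbitrarily while the last one is kept and conversely; hence all linear words are connected (there are `≥ 3` letters). If Lemma 1 applies to `α` (`u α w`) take `w' = u`; if it applies to `β`, `w' = v`. Otherwise `w θ g(u)`, `v θ h(g u)`, with `g, h` in the group `D` (8 elements) of signed renamings of the two letters `x = a.1, y = b.1` (M3 for the middle). Put `H(α) = {k ∈ D | u α k(u)}`: a subgroup (apply `k` to `u α k'(u)`).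
Star: `st u = (b'; ..; a') θ κ(u)` with `κ : x ↦ y', y ↦ x'` up to the signs of `a`, `b` (i.e. `κ` maps `a ↦ fl b`, `b ↦ fl a`), and `st (k u) θ κ'..`: precisely `st (k u) = k (st u) θ k κ (u)`, so `u α k u` implies `κ u α k κ u`, i.e. (apply `κ⁻¹ = κ`) `κ k κ ∈ H(α)`. Similarly `H(β)`. From `w β v`: `g u β h g u`, so `h0 = g⁻¹ h g ∈ H(β)`, and `v θ h g u = g h0 u`.
We need `g h0 ∈ H(β) H(α)`, i.e. `g h0 = h' g'` with `h' ∈ H(β)`, `g' ∈ H(α)`; then `w' = h'(u)`: `u β h' u`, and `h' u α h' g' u θ v`. If `g h0 = h0 g`: fine. Otherwise `g h0 = -h0 g` (`-` = starring both letters, central in `D`; the commutator subgroup of `D` is `{1, -}`), so it suffices that `-1 ∈ H(α)` or `-1 ∈ H(β)`. Both are invariant under conjugation by `κ`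
(`κ` exchanges the two letters up to sign). The elements of `D` outside the centre: the sign changes `f_x`, `f_y` of one letter, exchanged by `κ`-conjugation, with product `-1`; the two elements of order 4, with square `-1`; and the two exchanges `s`, `-s` of order 2, which commute with each other. `g` and `h0` do not commute, so one of them is not in `{s, -s}`, and the subgroup containing it contains `-1`.
(Formalise `D` as maps of the set of 4 signed letters, or as pairs (exchange?, sign of x, sign of y), `decide`.) -/
def StPL : Prop := ∀ θ : FIC, NilF θ → (T5 θ ∨ C4 θ ∨ M3 θ) → ∀ u w v : Wd, 7 ≤ u.length → w.length = u.length → v.length = u.length →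
  ct w = ct u → ct v = ct u → Lin u → PC θ u w v

/-- Repeated letters of a word. -/
def Rp (u : Wd) : Finset ℕ := (ct u).filter (fun i => 2 ≤ oc i u)

/-- MODULE FL (200 lines). In type RE: if `a α b` and the sets of repeated letters are different, then the signs of single letters are free modulo `α` for all words of the level.
Proof. `Rp a`, `Rp b` have the same size (s1), so there is `z ∈ Rp a`, `z ∉ Rp b`. Let `f_z` be the sign change of `z` (`rw' 1 (fun i => i = z)`). `Sim a (f_z a)`, so `a θ f_z a` (s3), hence `b α f_z b`, and `z` is a single letter of `b`. Let `c` be a word of the level, `y` a single letter of `c`. There is a signed renaming `g` with `θ.r c (g b)` and `g z = y` (letters): choose in the construction of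
StSO (from `b` to `c`) a bijection mapping `Rp b` onto `Rp c` and `z` to `y`. Then `c θ g b α g f_z b = f_y g b θ f_y c`. -/
def StFL : Prop := ∀ θ α : FIC, RE θ → Le θ α → ∀ a b : Wd, 7 ≤ a.length → b.length = a.length → ct b = ct a → ¬ Lin a →
  ¬ Zero α a → α.r a b → Rp a ≠ Rp b → ∀ c : Wd, c.length = a.length → ct c = ct a → ¬ Zero α c → ∀ y ∈ ct c, oc y c = 1 →
  α.r c (rw' 1 (fun i => decide (i = y)) c)

/-- MODULE SL (250 lines; theorem hSL (h : StFL) : StSL). In type RE: if `a α b` and the sets `T = Rp a`, `T' = Rp b` of repeated letters are different and not complementary in the content, then all nonzero words of the level are `α`-related.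
Proof. Let `C` be the content. (A) There is a word `a` of the level and `p ∉ Rp a`, `q ∈ Rp a` (letters of `C`) with `a α τ a`, `τ` the transposition of `p, q` (so `Rp (τ a) = Rp a \ {q} ∪ {p}`): if there is `q ∈ T ∩ T'`: choose `p ∈ T' \ T` (same size, different): `τ b θ b` (both letters are repeated in `b`; `Sim`, s3), so `a α b θ τ b α τ a`. Otherwise, as `T, T'` are disjoint and not complementary,
there is `p ∈ C \ (T ∪ T')`; take `q ∈ T` (so `q ∉ T'`): `p, q` are single in `b`, `τ b` is `θ`-related to a sign change of single letters of `b`, so `b α τ b` by FL, and `a α b α τ b α τ a`. (B) For every nonzero word `c` of the level, `q' ∈ Rp c`, `p' ∈ C \ Rp c` there is a word `c'` of the level with `c α c'`, `Rp c' = Rp c \ {q'} ∪ {p'}`: signed renaming `g` with `Rp (g a) = Rp c`, `g q = q'`, `g p = p'`;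
`g a` is `α`-related to `c` (equal up to sign changes of single letters, s2, s3, FL) and `g a α g τ a`. (C) For nonzero words `c, d` of the level: if `Rp c = Rp d`, they are related by FL (sign changes), s2, s3. Otherwise use (B) with `q' ∈ Rp c \ Rp d`, `p' ∈ Rp d \ Rp c`, and induction on the size of `Rp c \ Rp d`. -/
def StSL : Prop := ∀ θ α : FIC, RE θ → Le θ α → ∀ a b : Wd, 7 ≤ a.length → b.length = a.length → ct b = ct a → ¬ Lin a →
  ¬ Zero α a → α.r a b → Rp a ≠ Rp b → Rp b ≠ ct a \ Rp a → ∀ c d : Wd, c.length = a.length → d.length = a.length → ct c = ct a →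
  ct d = ct a → ¬ Zero α c → ¬ Zero α d → α.r c d

/-- MODULE PR (250 lines; theorem hPR (h1 : StFL) (h2 : StSL) : StPR). Permutability, type RE.
Proof. Write `f_A` for the sign change of the letters in `A`. Words of the level with the same `Rp` are `θ`-related to sign changes of single letters of each other (s2, s3). Case 1: `Rp u = Rp w`: `w θ g u` with `g = f_A`, `A` a set of single letters of `u`. If `Rp v = Rp u` too: `w' = g v`: from `w β v`, `g u β v`, apply `g`: `u β g v`. And `g v α v`: `v θ h u`, `h` a sign change of single letters;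
apply `h` to `u α g u`: `h u α h g u = g h u`, i.e. `v α g v`. If `Rp v ≠ Rp w`: `β` changes the set, so by FL (applied to `w β v`) `u β g u` (sign changes of single letters one after the other), `u β w β v`: `w' = v`. Case 2: `Rp u ≠ Rp w`. (2a) `Rp w = Rp v`: `v` is `θ`-related to a sign change of single letters of `w`, so `w α v` by FL (for `u α w`), `w' = u`.
(2b) `Rp w ≠ Rp v`. If `Rp w ≠ C \ Rp u`: by SL `u α v`, `w' = u`. If `Rp v ≠ C \ Rp w`: by SL for `β`: `u β v`, `w' = v`. Otherwise `Rp v = Rp u`, so `v` is `θ`-related to a sign change of single letters of `u`, and `u α v` by FL for `u α w`: `w' = u`. -/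
def StPR : Prop := ∀ θ : FIC, RE θ → ∀ u w v : Wd, 7 ≤ u.length → w.length = u.length → v.length = u.length →
  ct w = ct u → ct v = ct u → ¬ Lin u → PC θ u w v

/-- MODULE PD (250 lines). Permutability, type D.
Proof. All words in question are nonzero modulo `θ`; by d1 they have one repeated letter `D(u)` (twice), same content and length, so `D(u) = D(w)` implies the same multiset, and then (d2) `w θ u` or `w θ f u`, `f` = sign change of the letter `D(u)` (`fs` changes). Lemma: if `a α b`, `D(a) = i ≠ j = D(b)`, then all nonzero words of the level are `α`-related: `f_j a θ a` (d2: `fs i` and the multiset are unchanged),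
so `b α f_j b`. For words `c, d` of the level: by signed renaming of `b α f_j b`, `c α f_(D c) c`; and if `D(c) ≠ D(d)` a signed renaming `g` of the content with `i ↦ D(c)`, `j ↦ D(d)`: `g a` is `θ`-related to `c` or `f_(D c) c`, `g b` to `d` or `f_(D d) d`, so `c α d`; if `D(c) = D(d)`: `d θ c` or `d θ f c`. Now: if `D(u) ≠ D(w)`: `u α v`, `w' = u`. If `D(w) ≠ D(v)`: `u β v`, `w' = v`.
Otherwise `w θ f^a u`, `v θ f^b w` with `a, b ∈ {0,1}`: `w' = f^b u`: apply `f^a` to `w β f^b w`: `u β f^b u`; apply `f^b` to `u α f^a u`. -/
def StPD : Prop := ∀ θ : FIC, TD θ → ∀ u w v : Wd, 7 ≤ u.length → w.length = u.length → v.length = u.length →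
  ct w = ct u → ct v = ct u → ¬ Lin u → PC θ u w v

/-- Permutability on all levels of length `≥ 7`. -/
def PP (θ : FIC) : Prop := ∀ u w v : Wd, 7 ≤ u.length → w.length = u.length → v.length = u.length →
  ct w = ct u → ct v = ct u → PC θ u w v

/-- MODULE PP (30 lines; theorem hPP (h0 : StRE) (h1 : StPL) (h2 : StPR) (h3 : StPD) : StPP). -/
def StPP : Prop := ∀ θ : FIC, Typ θ → PP θ

/-- MODULE F2 (250 lines; theorem hF2 (hI : StInh) (hX : StHX) (hS : StSO) (hP : StPP) : StF2). Modular law for words of length `≥ 7`.
Proof. Let `u = w0, w1, ..., wk = v` be the path, every step an `α` or `β` relation. All congruences above `θ` have the type (Inh), so HX holds for them. Case I: no `wi` is zero modulo `α` or modulo `β`. Then all `wi` have the same length `≥ 7` and the same content: for a step `α` from `wi` to `w(i+1)` with different lengths, HX (the longer word has length `≥ 7`) shows that the shorter one is zero modulo `α`,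
contradiction; contents by `ct_eq_of`. By PP the relations `α` and `β` permute on these words; so by induction on `k` there is `w` with `u α w β v` (the intermediate words produced by PP are related to nonzero words, hence nonzero, of the same length and content by the same argument). Then `w γ u γ v` as `α ≤ γ`, so `u α w (β ∩ γ) v`.
Case II: some `wi` is zero modulo `α` or `β`. Claim: `u` is zero modulo `α` or modulo `β`. Let `i` be the first such index; if `i = 0` fine. `w0, ..., w(i-1)` are nonzero for both, of the same length and content as in Case I; the step to `wi` is, say, an `α` step: `wi` is not zero modulo `α`, so it is zero modulo `β`, has the same length and content (HX), and it is not zero modulo `θ`. By the single orbit property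
(SO) `wi θ g(u)`, so `g(u)` and `u` are zero modulo `β`. The same for `v` (reversed path). Conclusion: if `u, v` are both zero modulo `α`: `u α v`. Both zero modulo `β`: `u β v` and `u γ v`. `u` zero modulo `α`, `v` zero modulo `β`: `u`, hence `v`, is zero modulo `γ` (`α ≤ γ`, `u γ v`); `u α (u ++ v)` and `(u ++ v) β v`, `(u ++ v) γ v`. `u` zero modulo `β`, `v` zero modulo `α`: symmetric. -/
def StF2 : Prop := ∀ θ : FIC, Typ θ → ∀ α β γ : FIC, Le θ α → Le θ β → Le θ γ → Le α γ →
  ∀ u v : Wd, 7 ≤ u.length → 7 ≤ v.length → Jn α β u v → γ.r u v → Jm α β γ u v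

/-- Related to a word of length `≥ k`. -/
def sat (k : ℕ) (α : FIC) (u : Wd) : Prop := ∃ w : Wd, α.r u w ∧ k ≤ w.length

/-- MODULE Sat (80 lines). The join of a congruence with all words of length `≥ k` are equal.
Proof. `sat k α` is closed under `α`, multiplication, star, substitution (`length_sb_ge`); `sat k α []` is impossible for `k ≥ 1` (`ne'`). -/
def StSat : Prop := ∀ (k : ℕ) (α : FIC), 1 ≤ k →
  ∃ α' : FIC, (∀ u v, α'.r u v ↔ α.r u v ∨ (sat k α u ∧ sat k α v)) ∧ Le α α' ∧ Col k α'

/-- MODULE Glue (250 lines; theorem hGlue (hI : StInh) (hX : StHX) (hS : StSat) (hF : StF2) : StGlue).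
Proof. Let `α ≤ γ`, `β`, `Jn α β u v`, `γ.r u v`, `σ := Jm α β γ` (an equivalence relation compatible with multiplication). If `|u|, |v| ≥ 7`: F2. Let `α', β', γ'` be the congruences of Sat (`k = 7`; `sat` is `sat 7`). For every `δ ∈ {α, β, γ}` (of type Typ by Inh) HX says: (1) `|u| ≤ 6` and `sat δ u` imply `Zero δ u`. By `Mod7` for `α', β', γ'` (`α' ≤ γ'`) there is a path from `u` to `v` with steps in `α'` or `β' ∩ γ'`.
Call a word `w` `σ`-zero if `σ (w ++ x) w` and `σ (x ++ w) w` for all `x`; words which are zero modulo `α`, or zero modulo both `β` and `γ`, are `σ`-zero; two `σ`-zero words are `σ`-related; a word `σ`-related to a `σ`-zero word is `σ`-zero. Claim: if `w → w1` is a step and `|w| ≤ 6` then `σ w w1` or `w` is `σ`-zero. `α'` step: `α w w1`, or `sat α w`, so `Zero α w` by (1). `β' ∩ γ'` step: if `β w w1` and `γ w w1`: fine.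
If `sat β w` and `sat γ w`: `w` is zero modulo `β` and `γ`. If `β w w1` and `sat γ w`, `sat γ w1`: `Zero γ w`; if `|w1| ≥ 7` then `sat β w`, so also `Zero β w`: `σ`-zero. If `|w1| ≤ 6` then `Zero γ w1`, so `γ w w1` (`Zero.eq`), fine. Same with `β, γ` exchanged. Moreover: if `|w| ≤ 6`, `|w1| ≥ 7` and `w → w1` is a step then `w` is `σ`-zero (`α w w1` or `sat α w`: `Zero α w` by HX resp. (1); for `β' ∩ γ'`: `sat β w`
and `sat γ w` in any case).
(a) `|u| ≤ 6`, `|v| ≤ 6`: follow the path from `u`: either all words have length `≤ 6` and all steps are `σ`, so `σ u v`; or there is a first word which is `σ`-zero (reached by `σ` steps), so `u` is `σ`-zero; in this case the reversed path shows in the same way that `v` is `σ`-zero (the reversed path contains a word of length `≥ 7` or a step which is not `σ`), so `σ u v`.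
(b) `|u| ≤ 6`, `|v| ≥ 7`: `γ u v` gives `Zero γ u`, `Zero γ v` (HX). Let `z` be a zero word of `θ` of length `≥ 7`. The path from `u` reaches a word of length `≥ 7`, so `u` is `σ`-zero by the above, hence `σ u z`. And `Jn α β v z`: `v` is `Jn`-related to `u`, and `u` to `z`: because `σ u z` and `σ ⊆ Jn α β`. `γ v z` as both are zero modulo `γ`. By F2 `σ v z`. So `σ u v`. (c) `|u| ≥ 7`, `|v| ≤ 6`: symmetric (`σ`, `Jn` are symmetric). -/
def StGlue : Prop := ∀ θ : FIC, Typ θ → Mod7 θ → ModAt θ

/-- MODULE Main (10 lines; theorem hMain (hT : StTy) (hG : StGlue) : StMain). -/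
def StMain : Prop := ∀ θ : FIC, NilF θ → Mod7 θ → ModAt θ

end Helper1.IM
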