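import Pool.Agent.Helper1.IM.St3

/-!
# Project IM: varieties of involution semigroups

An involution semigroup is a semigroup with a map `star` satisfying `star (star x) = x`, `star (x * y) = star y * star x` (Mathlib: `Semigroup`, `StarMul`).
-/

set_option autoImplicit false

namespace Helper1.IM

/-- Involution semigroups (nonempty). -/
structure InvSg where
  /-- the underlying set -/
  carrier : Type
  [ne : Nonempty carrier]
  [sgp : Semigroup carrier]
  [stm : StarMul carrier]

attribute [instance] InvSg.ne InvSg.sgp InvSg.stm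

/-- Terms in the signature `{·, *}` over the variables `x_0, x_1, ...`. -/
inductive Tm : Type
  | var : ℕ → Tm
  | mul : Tm → Tm → Tm
  | star : Tm → Tm

/-- Value of a term. -/
def Tm.eval (A : InvSg) (e : ℕ → A.carrier) : Tm → A.carrier
  | .var i => e i
  | .mul s t => Tm.eval A e s * Tm.eval A e t
  | .star s => Star.star (Tm.eval A e s)

/-- `A` satisfies the identity `s = t`. -/
def Sat1 (A : InvSg) (p : Tm × Tm) : Prop := ∀ e : ℕ → A.carrier, p.1.eval A e = p.2.eval A e

/-- Varieties: classes of involution semigroups defined by a set of identities. -/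
def IsVar (K : Set InvSg) : Prop := ∃ E : Set (Tm × Tm), K = {A | ∀ p ∈ E, Sat1 A p}

/-- The join of two classes: the smallest variety containing both. -/
def jn (K K' : Set InvSg) : Set InvSg := ⋂₀ {M | IsVar M ∧ K ⊆ M ∧ K' ⊆ M}

/-- The lattice of subvarieties of `V` is modular (meet = intersection, join = `jn`). -/
def ModLat (V : Set InvSg) : Prop := ∀ K M N : Set InvSg, IsVar K → IsVar M → IsVar N → K ⊆ V → M ⊆ V → N ⊆ V → K ⊆ N →
  jn K (M ∩ N) = jn K M ∩ N

/-- `z` is a zero element. -/
def IsZero' (A : InvSg) (z : A.carrier) : Prop := ∀ a : A.carrier, z * a = z ∧ a * z = z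

/-- Nil classes: every member has a zero `z`, and every element has a power equal to `z` (`a^(n+1)` is written `a * (a * (... a))`). -/
def IsNil (K : Set InvSg) : Prop := ∀ A ∈ K, ∃ z : A.carrier, IsZero' A z ∧ ∀ a : A.carrier, ∃ n : ℕ, (fun b => a * b)^[n] a = z

/-- The variety of involution semigroups in which every product of seven elements is a zero element. -/
def N7 : Set InvSg := {A | ∀ a1 a2 a3 a4 a5 a6 a7 : A.carrier, IsZero' A (a1 * a2 * a3 * a4 * a5 * a6 * a7)}

/-- The word of a term. -/
def Tm.wd : Tm → Wd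
  | .var i => [(i, false)]
  | .mul s t => Tm.wd s ++ Tm.wd t
  | .star s => st (Tm.wd s)

/-- Value of a word (only used for nonempty words): `ev A e a (w)` is the value of `w` if `w ≠ []`. -/
def evl (A : InvSg) (e : ℕ → A.carrier) (a : Lt) : A.carrier := if a.2 then Star.star (e a.1) else e a.1

/-- `b` times the product of the letters of `w` on the right. -/
def evr (A : InvSg) (e : ℕ → A.carrier) (b : A.carrier) (w : Wd) : A.carrier := w.foldl (fun c a => c * evl A e a) b

/-- The identities of a class, as a relation on words. -/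
def Id' (K : Set InvSg) (u v : Wd) : Prop := (u = [] ↔ v = []) ∧
  ∀ A ∈ K, ∀ e : ℕ → A.carrier, ∀ (a b : Lt) (u' v' : Wd), u = a :: u' → v = b :: v' →
    evr A e (evl A e a) u' = evr A e (evl A e b) v'

/-- MODULE V1 (200 lines). The identities of a class form a fully invariant congruence; it determines varieties.
Proof. Evaluation of nonempty words: `val (a :: u) = evr (evl a) u`; `val (u ++ v) = val u * val v`, `val (st u) = star (val u)`, `val e (sb f u) = val (fun i => val e (f i)) u` for `f i ≠ []`; `Tm.eval t = val t.wd`. So `Id' K` is an FIC (empty words are only related to empty words), `Sat1 A (s, t)` for all `A ∈ K` iff `Id' K s.wd t.wd`; every nonempty word is `t.wd` for a term `t`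
(product of variables and starred variables). -/
def StV1 : Prop := (∀ K : Set InvSg, ∃ θ : FIC, ∀ u v, θ.r u v ↔ Id' K u v) ∧
  (∀ (K : Set InvSg) (s t : Tm), (∀ A ∈ K, Sat1 A (s, t)) ↔ Id' K s.wd t.wd) ∧
  (∀ w : Wd, w ≠ [] → ∃ t : Tm, t.wd = w)

/-- The class defined by a congruence. -/
def Md (θ : FIC) : Set InvSg := {A | ∀ u v, θ.r u v → Id' {A} u v}

/-- MODULE V2 (250 lines; theorem hV2 (h : StV1) : StV2). Completeness.
Proof. `F = {w : Wd // w ≠ []} / θ` with concatenation and `st` is an involution semigroup; the value of a word `w` under `e i = [f i]` (class of the nonempty word `f i`) is the class of `sb f w`; so `F ∈ Md θ` (`sub'`), and `Id' (Md θ) u v` with `f i = [X i]` gives `θ.r u v` (`sb_id`). Conversely `θ.r u v → Id' (Md θ) u v` by definition. -/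
def StV2 : Prop := ∀ (θ : FIC) (u v : Wd), Id' (Md θ) u v ↔ θ.r u v

/-- MODULE V3 (150 lines; theorem hV3 (h : StV1) : StV3). Proof. `IsVar K` iff `K = Md θ` for some `θ`: for `E` a set of identities `{A | ..} = Md θ` for the `θ` of V1 for this class; `Md θ` is defined by the identities `(s, t)` with `θ.r s.wd t.wd`. -/
def StV3 : Prop := (∀ θ : FIC, IsVar (Md θ)) ∧ (∀ K : Set InvSg, IsVar K → ∃ θ : FIC, K = Md θ)

/-- MODULE V4 (200 lines; theorem hV4 (h2 : StV2) (h3 : StV3) : StV4). Lattice operations.
Proof. `Md α ⊆ Md β ↔ Le β α`: `→`: `β.r u v` implies `Id' (Md β) u v`, hence `Id' (Md α) u v`, so `α.r u v` by V2. `Md α ∩ Md β = Md δ` if `δ.r = Jn α β`: a class member satisfies all pairs of `α` and of `β` iff it satisfies the transitive closure. `jn (Md α) (Md β) = Md δ` if `δ.r u v ↔ α.r u v ∧ β.r u v`: `Md δ` is a variety containing both; a variety `M = Md ε` containing both has `ε ≤ α, β`, so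
`ε ≤ δ`, `Md δ ⊆ M`. `Jn α β` and the intersection are the relations of FICs. -/
def StV4 : Prop := (∀ α β : FIC, Md α ⊆ Md β ↔ Le β α) ∧
  (∀ α β : FIC, ∃ δ : FIC, (∀ u v, δ.r u v ↔ Jn α β u v) ∧ Md α ∩ Md β = Md δ) ∧
  (∀ α β : FIC, ∃ δ : FIC, (∀ u v, δ.r u v ↔ α.r u v ∧ β.r u v) ∧ jn (Md α) (Md β) = Md δ)

/-- MODULE V5 (120 lines; theorem hV5 (h3 : StV3) (h4 : StV4) : StV5). Proof. Let `K = Md γ`, `M = Md β`, `N = Md α`, all above `θ`; `K ⊆ N` iff `α ≤ γ`. `jn K (M ∩ N)` corresponds to `γ ∩ (α ∨ β)`, `jn K M ∩ N` to `α ∨ (β ∩ γ)`. `Md` is injective on FICs up to equality of relations (V4 first part). The inclusion `α ∨ (β ∩ γ) ⊆ (α ∨ β) ∩ γ` always holds (`α ≤ γ`). -/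
def StV5 : Prop := ∀ θ : FIC, ModLat (Md θ) ↔ ModAt θ

/-- MODULE V6 (200 lines; theorem hV6 (h1 : StV1) (h2 : StV2) (h3 : StV3) (h4 : StV4) (hS : StSat) : StV6). Nil and `N7`.
Proof. (a) `IsNil (Md θ) → NilF θ`: the algebra `F = nonempty words / θ` is in `Md θ` (as in V2; or: use V2 for the word `X 0` power: let `z` be the zero of `F`, `(class of X 0)^(n+1) = z`, so the class of `replicate (n+1) (X 0)` is a zero element of `F`, i.e. `Zero θ`). Since V2 is stated via `Id'`, it is easier to construct `F` again or to put it into a shared file (the construction in `M_V2` may be made public: `def FA (θ : FIC) : InvSg`).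
(b) Let `θ'` be the congruence of Sat for `k = 7`. Then `Md θ ∩ N7 = Md θ'`: `A ∈ Md θ ∩ N7`: words of length `≥ 7` have as value a product of seven elements, a zero element, and a semigroup has at most one zero element; so all pairs of `θ'` hold. Conversely for `A ∈ Md θ'`: `x1..x7 = x1..x7 y = y x1..x7` holds (all of length `≥ 7`). (c) `ModAt θ' ↔ Mod7 θ`: `Le θ' α ↔ Le θ α ∧ Col 7 α`. -/
def StV6 : Prop := (∀ θ : FIC, IsNil (Md θ) → NilF θ) ∧
  (∀ θ : FIC, ∃ θ' : FIC, Md θ ∩ N7 = Md θ' ∧ (ModAt θ' ↔ Mod7 θ))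

/-- THEOREM A: for nil varieties modularity is decided by the nilpotent subvariety of words of length `< 7`. -/
def ThA : Prop := ∀ V : Set InvSg, IsVar V → IsNil V → (ModLat V ↔ ModLat (V ∩ N7))

/-- THEOREM B: a variety with modular subvariety lattice satisfies an identity `xyz = w` which does not hold in all involution semigroups. -/
def ThB : Prop := ∀ V : Set InvSg, IsVar V → ModLat V → ∃ t : Tm,
  (∀ A ∈ V, Sat1 A (.mul (.mul (.var 0) (.var 1)) (.var 2), t)) ∧ ∃ A : InvSg, ¬ Sat1 A (.mul (.mul (.var 0) (.var 1)) (.var 2), t)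

end Helper1.IM
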